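import Pool.Agent.Lib.MP_f80667_ag.Pe.St

/-!
* `Jv l v W`: the exponent of `v` in the denominator of the `j`-invariant is not a positive multiple of `l`.
* `Gl W₁ W₂ l`: the conditions on the prime number `l`: `l ≥ 5`; above `l` the conditions `Lv` (in particular `F / ℚ`
  is unramified); `Jv` at the other finite places.
* `Sf Λ m`: all prime factors of `m` are in `Λ`.
* `ImDeS Λ z`: the components of `z` at the prime numbers `l ∈ Λ` (the completion is the product over `l` of the
  `l`-adic completions) are in the image of `Δ`.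
-/

open ZC BE Polynomial IsDedekindDomain NumberField

namespace PE

section nf

variable {F : Type} [Field F] [NumberField F]

/-- If `v(j) = - n` and `l` divides `n` then `n ≤ 0`. -/
def Jv (l : ℕ) (v : HeightOneSpectrum (𝓞 F)) (W : WeierstrassCurve F) [W.IsElliptic] : Prop :=
  ∀ n : ℤ, v.valuation F W.j = WithZero.exp n → (l : ℤ) ∣ n → n ≤ 0

/-- The conditions on the prime number `l`. -/
structure Gl (W₁ W₂ : WeierstrassCurve F) [W₁.IsElliptic] [W₂.IsElliptic] (l : ℕ) : Prop where
  pr : l.Prime
  le : 5 ≤ l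
  ab : ∀ v : HeightOneSpectrum (𝓞 F), v.valuation F (l : F) < 1 → Lv W₁ W₂ v ∨ Lv W₂ W₁ v
  j₁ : ∀ v : HeightOneSpectrum (𝓞 F), v.valuation F (l : F) = 1 → Jv l v W₁
  j₂ : ∀ v : HeightOneSpectrum (𝓞 F), v.valuation F (l : F) = 1 → Jv l v W₂

end nf

/-- All prime factors of `m` are in `Λ`. -/
def Sf (Λ : Set ℕ) (m : ℕ) : Prop := ∀ l : ℕ, l.Prime → l ∣ m → l ∈ Λ

/-- The components of `z` at the prime numbers in `Λ` are in the image of `Δ`: there is `x` in the completion of
`F^1(V)` such that for every `m` with all prime factors in `Λ` there is a zero-cycle `c` of degree `0` over `F`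
which represents `x` modulo `m` and whose family of base changes represents `z` modulo `m`. -/
def ImDeS {F : Type} [Field F] [NumberField F] {V : Vr F} (Λ : Set ℕ) (z : LHat (FA V)) : Prop :=
  ∃ x : LHat (Gp V F), ∀ m : ℕ+, Sf Λ m → ∃ (c : Zc V F) (c' : Fam V), IsBcF c c' ∧
    x.Rep m c.cl ∧ z.Rep m c'.cl

end PE
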