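import Pool.Agent.Lib.MP_f80667_ag.Pe.Ld

/-!
Unramified extensions: `Ur M N` is generated over `M` by the roots of `X ^ (p ^ N) - X` (Teichmüller representatives).
-/

open ZC BE Polynomial IntermediateField

namespace PE

namespace Ld

variable {K Ω : Type} [Field K] [Field Ω] [Algebra K Ω] (L : Ld K Ω)

/-- The roots of `X ^ (p ^ N) - X`. -/
def Te (N : ℕ) : Set Ω := {x | x ^ L.p ^ N = x}

/-- The unramified extension of `M` generated by `Te N`. -/
noncomputable def Ur (M : IntermediateField K Ω) (N : ℕ) : IntermediateField K Ω :=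
  M ⊔ adjoin K (L.Te N)

variable {L}

theorem te_one {N : ℕ} : (1 : Ω) ∈ L.Te N := one_pow _

theorem te_int {N : ℕ} (hN : N ≠ 0) {x : Ω} (hx : x ∈ L.Te N) : L.nm x ≤ 1 := by
  by_contra h
  rw [not_le] at h
  have h1 : L.nm x ^ L.p ^ N = L.nm x := by rw [← L.pow, show x ^ L.p ^ N = x from hx]
  exact absurd (lt_self_pow₀ h (Nat.one_lt_pow hN L.pp.one_lt)) (by rw [h1]; exact lt_irrefl _)

theorem te_mul {N : ℕ} {x y : Ω} (hx : x ∈ L.Te N) (hy : y ∈ L.Te N) : x * y ∈ L.Te N := by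
  change (x * y) ^ L.p ^ N = x * y
  rw [mul_pow, show x ^ L.p ^ N = x from hx, show y ^ L.p ^ N = y from hy]

/-- Proof: `x ^ (p ^ (N d)) = x` by iteration. -/
theorem te_dvd {N N' : ℕ} (h : N ∣ N') {x : Ω} (hx : x ∈ L.Te N) : x ∈ L.Te N' := by
  obtain ⟨d, rfl⟩ := h
  change x ^ L.p ^ (N * d) = x
  rw [pow_mul]
  induction d with
  | zero => rw [pow_zero, pow_one]
  | succ d ih => rw [pow_succ, pow_mul, ih, show x ^ L.p ^ N = x from hx]

theorem te_act {N : ℕ} (γ : Ω ≃ₐ[K] Ω) {x : Ω} (hx : x ∈ L.Te N) : γ x ∈ L.Te N := by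
  change γ x ^ L.p ^ N = γ x
  rw [← map_pow, show x ^ L.p ^ N = x from hx]

/-- Congruent representatives are equal. Proof: the quotient is a root of unity of order prime to `p`, congruent to `1`. -/
theorem te_inj {N : ℕ} (hN : N ≠ 0) {x y : Ω} (hx : x ∈ L.Te N) (hy : y ∈ L.Te N)
    (h : L.nm (x - y) < 1) : x = y := by
  by_contra hne
  have hx1 := te_int hN hx
  have hy1 := te_int hN hy
  have hpow : ∀ i : ℕ, L.nm (x ^ i - y ^ i) < 1 := by
    intro i
    have h1 := L.eval_close (f := X ^ i) (fun j => by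
      rw [coeff_X_pow]
      split_ifs
      · rw [L.one]
      · rw [L.zero]
        exact zero_le_one) hx1 hy1
    rw [eval_pow, eval_X, eval_pow, eval_X] at h1
    exact h1.trans_lt h
  obtain ⟨q, hq⟩ : ∃ q, q = L.p ^ N := ⟨_, rfl⟩
  have hS := (Commute.all x y).geom_sum₂_mul q
  rw [hq, show x ^ L.p ^ N = x from hx, show y ^ L.p ^ N = y from hy] at hS
  have hS1 := mul_right_cancel₀ (sub_ne_zero.2 hne) (hS.trans (one_mul _).symm)
  have hS2 : L.nm (∑ i ∈ Finset.range (L.p ^ N), x ^ i * y ^ (L.p ^ N - 1 - i)) < 1 := by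
    have h1 : ∑ i ∈ Finset.range (L.p ^ N), x ^ i * y ^ (L.p ^ N - 1 - i) =
        ∑ i ∈ Finset.range (L.p ^ N), (x ^ i - y ^ i) * y ^ (L.p ^ N - 1 - i) +
          (L.p : Ω) ^ N * y ^ (L.p ^ N - 1) := by
      have h2 : (L.p : Ω) ^ N * y ^ (L.p ^ N - 1) =
          ∑ i ∈ Finset.range (L.p ^ N), y ^ i * y ^ (L.p ^ N - 1 - i) := by
        rw [Finset.sum_congr rfl (g := fun _ => y ^ (L.p ^ N - 1)), Finset.sum_const,
          Finset.card_range, nsmul_eq_mul, Nat.cast_pow]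
        intro i hi
        rw [← pow_add]
        congr 1
        have := Finset.mem_range.1 hi
        omega
      rw [h2, ← Finset.sum_add_distrib]
      refine Finset.sum_congr rfl fun i _ => ?_
      ring
    rw [h1]
    refine (L.add _ _).trans_lt (max_lt ?_ ?_)
    · have h3 : ∀ s : Finset ℕ,
          L.nm (∑ i ∈ s, (x ^ i - y ^ i) * y ^ (L.p ^ N - 1 - i)) < 1 := by
        intro s
        classical
        induction s using Finset.induction_on with
        | empty =>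
          rw [Finset.sum_empty, L.zero]
          exact zero_lt_one
        | insert a s ha ih =>
          rw [Finset.sum_insert ha]
          refine (L.add _ _).trans_lt (max_lt ?_ ih)
          rw [L.mul, L.pow]
          exact mul_lt_one_of_nonneg_of_lt_one_left (L.nonneg _) (hpow a)
            (pow_le_one₀ (L.nonneg _) hy1)
      exact h3 _
    · rw [L.mul, L.pow, L.pow]
      exact mul_lt_one_of_nonneg_of_lt_one_left (pow_nonneg (L.nonneg _) _)
        (pow_lt_one₀ (L.nonneg _) L.lt hN) (pow_le_one₀ (L.nonneg _) hy1)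
  rw [hS1, L.one] at hS2
  exact lt_irrefl _ hS2

theorem ur_le {M : IntermediateField K Ω} {N : ℕ} : M ≤ L.Ur M N := le_sup_left

theorem te_ur {M : IntermediateField K Ω} {N : ℕ} {x : Ω} (hx : x ∈ L.Te N) : x ∈ L.Ur M N :=
  (le_sup_right : adjoin K (L.Te N) ≤ L.Ur M N) (subset_adjoin K _ hx)

theorem ur_mono {M M' : IntermediateField K Ω} (h : M ≤ M') (N : ℕ) : L.Ur M N ≤ L.Ur M' N :=
  sup_le_sup_right h _

theorem ur_dvd (M : IntermediateField K Ω) {N N' : ℕ} (h : N ∣ N') : L.Ur M N ≤ L.Ur M N' :=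
  sup_le_sup_left (adjoin.mono K _ _ fun _ hx => te_dvd h hx) _

theorem ur_ur (M : IntermediateField K Ω) {N N' : ℕ} (h : N ∣ N') :
    L.Ur (L.Ur M N) N' = L.Ur M N' := by
  unfold Ur
  rw [sup_assoc, sup_eq_right.2 (adjoin.mono K _ _ fun _ hx => te_dvd h hx)]

theorem ur_bot {M : IntermediateField K Ω} {N : ℕ} (h : L.Ur ⊥ N ≤ M) : L.Ur M N = M :=
  sup_eq_left.2 (le_sup_right.trans h)

theorem ur_bot_ur (M : IntermediateField K Ω) (N : ℕ) : L.Ur ⊥ N ≤ L.Ur M N :=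
  ur_mono bot_le N

/-- An automorphism over `M` is an automorphism over `Ur M N` iff it fixes the representatives. -/
theorem ur_fix {M : IntermediateField K Ω} {N : ℕ} {γ : Ω ≃ₐ[K] Ω} (hγ : γ ∈ M.fixingSubgroup) :
    γ ∈ (L.Ur M N).fixingSubgroup ↔ ∀ x ∈ L.Te N, γ x = x := by
  constructor
  · intro h x hx
    exact (IntermediateField.mem_fixingSubgroup_iff _ γ).1 h x (te_ur hx)
  · intro h
    rw [Ur, IntermediateField.fixingSubgroup_sup]
    refine ⟨hγ, ?_⟩
    have h3 := (IntermediateField.forall_mem_adjoin_smul_eq_self_iff K (S := L.Te N) γ).2 h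
    exact (IntermediateField.mem_fixingSubgroup_iff _ γ).2 h3

section

variable [CharZero K] [IsAlgClosure K Ω]

/-- Proof: `Te N` is finite. -/
theorem ur_fin (M : IntermediateField K Ω) [FiniteDimensional K M] (N : ℕ) (hN : N ≠ 0) :
    FiniteDimensional K (L.Ur M N) := by
  classical
  have halg : Algebra.IsAlgebraic K Ω := IsAlgClosure.isAlgebraic
  have hne : (X ^ L.p ^ N - X : Polynomial Ω) ≠ 0 :=
    FiniteField.X_pow_card_sub_X_ne_zero Ω (Nat.one_lt_pow hN L.pp.one_lt)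
  have hf : Finite (L.Te N) := by
    refine Set.Finite.subset (X ^ L.p ^ N - X : Polynomial Ω).roots.toFinset.finite_toSet fun x hx => ?_
    rw [Finset.mem_coe, Multiset.mem_toFinset, mem_roots hne, IsRoot, eval_sub, eval_pow, eval_X,
      show x ^ L.p ^ N = x from hx, sub_self]
  have hfd : FiniteDimensional K (adjoin K (L.Te N)) :=
    IntermediateField.finiteDimensional_adjoin fun z _ => (halg.isAlgebraic z).isIntegral
  unfold Ur
  infer_instance

/-- Every residue has a representative in some `Te N`. Proof: the residue is algebraic over the prime field (`L.fin` for the field `K(x)`: the powers of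
the residue are finitely many), so it satisfies `r ^ (p ^ N) = r` with `N ≠ 0`; `X ^ (p ^ N) - X` has derivative `- 1` modulo `m`: `hens`. -/
theorem te_rep {x : Ω} (hx : L.nm x ≤ 1) : ∃ N ≠ 0, ∃ z ∈ L.Te N, L.nm (x - z) < 1 := by
  classical
  have halg : Algebra.IsAlgebraic K Ω := IsAlgClosure.isAlgebraic
  have hfd : FiniteDimensional K (adjoin K {x}) :=
    IntermediateField.finiteDimensional_adjoin fun z _ => (halg.isAlgebraic z).isIntegral
  have hxM : x ∈ adjoin K {x} := mem_adjoin_simple_self K x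
  -- the residue satisfies `r ^ (p ^ N) = r`
  obtain ⟨N, hN, hr⟩ : ∃ N ≠ 0, L.nm (x ^ L.p ^ N - x) < 1 := by
    obtain ⟨S, -, hS⟩ := L.fin _ hfd
    have h1 : ∀ i : ℕ, ∃ s ∈ S, L.nm (x ^ L.p ^ i - s) < 1 := fun i =>
      hS _ (pow_mem hxM _) (by
        rw [L.pow]
        exact pow_le_one₀ (L.nonneg _) hx)
    choose g hg hg' using h1
    obtain ⟨i, -, j, -, hij, he⟩ := Set.infinite_univ.exists_ne_map_eq_of_mapsTo
      (f := g) (s := Set.univ) (t := (S : Set Ω)) (fun i _ => hg i) S.finite_toSet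
    wlog hlt : i < j generalizing i j with H
    · exact H j i hij.symm he.symm (lt_of_le_of_ne (not_lt.1 hlt) hij.symm)
    obtain ⟨d, hd, rfl⟩ : ∃ d, d ≠ 0 ∧ j = d + i := ⟨j - i, by omega, by omega⟩
    refine ⟨d, hd, ?_⟩
    have h2 : L.nm (x ^ L.p ^ i - x ^ L.p ^ (d + i)) < 1 := by
      have h3 : x ^ L.p ^ i - x ^ L.p ^ (d + i) =
          (x ^ L.p ^ i - g i) - (x ^ L.p ^ (d + i) - g (d + i)) := by
        rw [he]
        ring
      rw [h3]
      exact (L.sub _ _).trans_lt (max_lt (hg' _) (hg' _))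
    have hxr := L.hv_rr hx
    have := char_κ (L := L)
    have hpr : Fact L.p.Prime := ⟨L.pp⟩
    have h4 : L.rr x ^ L.p ^ i = L.rr x ^ L.p ^ (d + i) :=
      (L.hv_sub (hxr.pow _) (hxr.pow _)).2 h2
    rw [pow_add, pow_mul] at h4
    have h5 : L.rr x = L.rr x ^ L.p ^ d := by
      refine iterateFrobenius_inj L.κ L.p i ?_
      rw [iterateFrobenius_def, iterateFrobenius_def]
      exact h4
    rw [L.sub_comm]
    exact (L.hv_sub hxr (hxr.pow _)).1 h5
  refine ⟨N, hN, ?_⟩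
  have hq : 1 < L.p ^ N := Nat.one_lt_pow hN L.pp.one_lt
  obtain ⟨y, -, hy, hy'⟩ := L.hens (adjoin K {x}) hfd (X ^ L.p ^ N - X)
    (monic_X_pow_sub (by rw [degree_X]; exact_mod_cast hq)) (fun i => by
      rw [coeff_sub, coeff_X_pow, coeff_X]
      split_ifs
      · omega
      · simp [L.one, one_mem]
      · simp [L.one, L.neg, one_mem]
      · simp [L.zero]) x hxM hx (by
      rw [eval_sub, eval_pow, eval_X]
      exact hr) (by
      rw [derivative_sub, derivative_X_pow, derivative_X, eval_sub, eval_mul, eval_one, eval_pow,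
        eval_X, eval_C, Nat.cast_pow, ← neg_sub, L.neg, sub_eq_add_neg]
      refine L.one_add ?_
      rw [L.neg, L.mul, L.pow, L.pow]
      exact mul_lt_one_of_nonneg_of_lt_one_left (pow_nonneg (L.nonneg _) _)
        (pow_lt_one₀ (L.nonneg _) L.lt hN) (pow_le_one₀ (L.nonneg _) hx))
  refine ⟨y, ?_, ?_⟩
  · rw [eval_sub, eval_pow, eval_X] at hy
    exact sub_eq_zero.1 hy
  · rw [L.sub_comm]
    exact hy'

/-- If `x ↦ x ^ q` is additive on an infinite field of characteristic `p` then `q` is a power of `p`. -/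
private theorem frq_pow {k : Type} [Field k] [Infinite k] {p : ℕ} [Fact p.Prime] [CharP k p]
    {q : ℕ} (hq : 1 < q) (h : ∀ x y : k, (x + y) ^ q = x ^ q + y ^ q) : ∃ f ≠ 0, q = p ^ f := by
  obtain ⟨a, m, hm, rfl⟩ :=
    Nat.exists_eq_pow_mul_and_not_dvd (show q ≠ 0 by omega) p (Fact.out : p.Prime).ne_one
  have hpol : ((X : k[X]) + 1) ^ (p ^ a * m) = X ^ (p ^ a * m) + 1 := by
    apply Polynomial.funext
    intro x
    rw [eval_pow, eval_add, eval_X, eval_one, eval_add, eval_pow, eval_X, eval_one, h x 1, one_pow]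
  have h1 : ((X : k[X]) + 1) ^ (p ^ a * m) = expand k (p ^ a) ((X + 1) ^ m) := by
    rw [pow_mul, add_pow_char_pow, one_pow, map_pow, map_add, expand_X, map_one]
  have h2 : (m : k) ≠ 0 := by
    rw [Ne, CharP.cast_eq_zero_iff k p]
    exact hm
  have hp0 : 0 < p ^ a := pow_pos (Fact.out : p.Prime).pos a
  have h3 : m = 1 := by
    by_contra hne
    have h4 := congrArg (fun f => f.coeff (1 * p ^ a)) (h1.symm.trans hpol)
    rw [coeff_expand_mul hp0, coeff_X_add_one_pow, Nat.choose_one_right, coeff_add, coeff_X_pow,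
      coeff_one, one_mul, if_neg, if_neg, add_zero] at h4
    · exact h2 h4
    · exact hp0.ne'
    · intro h5
      have h6 : p ^ a * 1 = p ^ a * m := by rw [mul_one]; exact h5
      exact hne (Nat.eq_of_mul_eq_mul_left hp0 h6).symm
  rw [h3, mul_one] at hq ⊢
  refine ⟨a, ?_, rfl⟩
  rintro rfl
  rw [pow_zero] at hq
  exact lt_irrefl _ hq

omit [CharZero K] [IsAlgClosure K Ω] in
private theorem frq_te {N : ℕ} {x : Ω} (hx : x ∈ L.Te N) (n : ℕ) : x ^ n ∈ L.Te N := by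
  show (x ^ n) ^ L.p ^ N = x ^ n
  rw [pow_right_comm, show x ^ L.p ^ N = x from hx]

/-- The Frobenius automorphism: `q` is a power of `p`. Proof: for `z ∈ Te N` one has `φ z = z ^ q` by `te_inj`. `q = p ^ f`: the residue
field of `Ω` has characteristic `p` and `x ↦ x ^ q` is additive on the infinite residue field; if `q = p ^ a m`, `p ∤ m`, then
`(x + y) ^ m = x ^ m + y ^ m` for all `x`, `y` in the infinite perfect residue field, so `m = 1`. -/
theorem frob_q {M : IntermediateField K Ω} {φ : Ω ≃ₐ[K] Ω} {q : ℕ} (h : Frob L.toLf M φ q) :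
    ∃ f ≠ 0, q = L.p ^ f ∧ ∀ (N : ℕ), N ≠ 0 → ∀ z ∈ L.Te N, φ z = z ^ q := by
  have hac : IsAlgClosed Ω := IsAlgClosure.isAlgClosed K
  have hfp : Fact L.p.Prime := ⟨L.pp⟩
  have hch : CharP L.κ L.p := L.char_κ
  have hcl : IsAlgClosed L.κ := L.κ_closed
  have hinf : Infinite L.κ := inferInstance
  have key : ∀ {z : Ω} {t : L.κ}, L.rs.Hv z t → L.rs.Hv (φ z) (t ^ q) := by
    intro z t hz
    have h2 : L.nm (φ z) ≤ 1 := by rw [L.act]; exact L.hv_int hz
    obtain ⟨r', hr'⟩ := L.hv_of h2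
    have h3 := (L.hv_sub hr' (hz.pow q)).2 (h.frob z (L.hv_int hz))
    rwa [h3] at hr'
  have hadd : ∀ r s : L.κ, (r + s) ^ q = r ^ q + s ^ q := by
    intro r s
    obtain ⟨x, hx⟩ := L.hv_surj r
    obtain ⟨y, hy⟩ := L.hv_surj s
    have h1 := key (hx.add hy)
    rw [map_add] at h1
    exact h1.uniq ((key hx).add (key hy))
  obtain ⟨f, hf, hq⟩ := frq_pow (p := L.p) h.one_lt hadd
  refine ⟨f, hf, hq, fun N hN z hz => ?_⟩
  exact te_inj hN (te_act φ hz) (frq_te hz q) (h.frob z (te_int hN hz))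

/-- The residues of a finite extension are represented by `Te f`, `q = p ^ f`, and `Te f ≤ M`. Proof: a number `x ∈ M` satisfies
`x ≡ φ x ≡ x ^ q`. Conversely, `z ∈ Te f` is fixed by `φ`, so by all automorphisms over `M` (`gen`, `te_inj`). -/
theorem frob_te {M : IntermediateField K Ω} [FiniteDimensional K M] {φ : Ω ≃ₐ[K] Ω} {f : ℕ}
    (h : Frob L.toLf M φ (L.p ^ f)) :
    (∀ x ∈ M, L.nm x ≤ 1 → ∃ z ∈ L.Te f, L.nm (x - z) < 1) ∧ ∀ z ∈ L.Te f, z ∈ M := by
  have hf : f ≠ 0 := by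
    rintro rfl
    have h1 := h.one_lt
    rw [pow_zero] at h1
    exact lt_irrefl _ h1
  constructor
  · intro x hx hx1
    obtain ⟨N, hN, z, hz, hxz⟩ := te_rep (L := L) hx1
    refine ⟨z, ?_, hxz⟩
    obtain ⟨r, hr⟩ := L.hv_of hx1
    obtain ⟨t, ht⟩ := L.hv_of (te_int hN hz)
    have h1 : r = t := (L.hv_sub hr ht).2 hxz
    have h2 : φ x = x := (IntermediateField.mem_fixingSubgroup_iff M φ).1 h.mem x hx
    have h3 := h.frob x hx1
    rw [h2] at h3
    have h4 : r = r ^ L.p ^ f := (L.hv_sub hr (hr.pow _)).2 h3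
    rw [h1] at h4
    have h5 : L.nm (z - z ^ L.p ^ f) < 1 := (L.hv_sub ht (ht.pow _)).1 h4
    exact (te_inj hN hz (frq_te hz _) h5).symm
  · intro z hz
    obtain ⟨f', hf', hff', hq⟩ := frob_q h
    have hφ : φ z = z := by
      rw [hq f hf z hz]
      exact hz
    have hn : ∀ n : ℕ, (φ ^ n) z = z := by
      intro n
      induction n with
      | zero => rfl
      | succ n ih => rw [pow_succ, AlgEquiv.mul_apply, hφ, ih]
    refine mem_of_fix M fun γ hγ => ?_
    obtain ⟨n, h1⟩ := h.gen γ hγ {z} (by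
      intro x hx
      rw [Finset.mem_singleton] at hx
      rw [hx]
      exact te_int hf hz)
    have h2 := h1 z (Finset.mem_singleton_self z)
    rw [hn] at h2
    exact te_inj hf (te_act γ hz) hz h2

private theorem urA_pw {N : ℕ} {x : Ω} (hx : x ∈ L.Te N) (n : ℕ) : x ^ n ∈ L.Te N := by
  change (x ^ n) ^ L.p ^ N = x ^ n
  rw [← pow_mul, mul_comm, pow_mul]
  exact congrArg (· ^ n) hx

private theorem urA_phi {M : IntermediateField K Ω} {φ : Ω ≃ₐ[K] Ω} {f N : ℕ}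
    (h : Frob L.toLf M φ (L.p ^ f)) (hN : N ≠ 0) {z : Ω} (hz : z ∈ L.Te N) :
    φ z = z ^ L.p ^ f :=
  te_inj hN (te_act φ hz) (urA_pw hz _) (h.frob z (te_int hN hz))

private theorem urA_phi_pow {M : IntermediateField K Ω} {φ : Ω ≃ₐ[K] Ω} {f N : ℕ}
    (h : Frob L.toLf M φ (L.p ^ f)) (hN : N ≠ 0) {z : Ω} (hz : z ∈ L.Te N) (i : ℕ) :
    (φ ^ i) z = z ^ L.p ^ (f * i) := by
  induction i with
  | zero => rw [pow_zero, mul_zero, pow_zero, pow_one]; rfl
  | succ i ih =>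
    rw [pow_succ, AlgEquiv.mul_apply, urA_phi h hN hz, map_pow, ih, ← pow_mul, ← pow_add, mul_add,
      mul_one]

private theorem urA_prim (N : ℕ) (hN : N ≠ 0) : ∃ ζ : Ω, IsPrimitiveRoot ζ (L.p ^ N - 1) := by
  have hc : CharZero Ω := charZero_of_injective_algebraMap (algebraMap K Ω).injective
  have ha : IsAlgClosed Ω := IsAlgClosure.isAlgClosed K
  have h1 : 1 < L.p ^ N := Nat.one_lt_pow hN L.pp.one_lt
  have h2 : NeZero ((L.p ^ N - 1 : ℕ) : Ω) := ⟨Nat.cast_ne_zero.2 (by omega)⟩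
  exact HasEnoughRootsOfUnity.exists_primitiveRoot Ω (L.p ^ N - 1)

private theorem urA_te {N : ℕ} {x : Ω} (hx : x ^ (L.p ^ N - 1) = 1) : x ∈ L.Te N := by
  have h1 : 0 < L.p ^ N := pow_pos L.pp.pos N
  change x ^ L.p ^ N = x
  have h2 : L.p ^ N = L.p ^ N - 1 + 1 := by omega
  rw [h2, pow_succ, hx, one_mul]

private theorem urA_dvd {N k : ℕ} (hN : N ≠ 0) (h : ∀ z ∈ L.Te N, z ^ L.p ^ k = z) : N ∣ k := by
  obtain ⟨ζ, hζ⟩ := urA_prim (L := L) N hN
  have h1 : 1 < L.p ^ N := Nat.one_lt_pow hN L.pp.one_lt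
  have h0 : ζ ≠ 0 := hζ.ne_zero (by omega)
  have h2 := h ζ (urA_te hζ.pow_eq_one)
  have h3 : 0 < L.p ^ k := pow_pos L.pp.pos k
  have h4 : L.p ^ k = L.p ^ k - 1 + 1 := by omega
  rw [h4, pow_succ] at h2
  have h5 : ζ ^ (L.p ^ k - 1) = 1 := mul_right_cancel₀ h0 (by rw [h2, one_mul])
  have h6 := (hζ.pow_eq_one_iff_dvd _).1 h5
  have h7 := Nat.pow_sub_one_mod_pow_sub_one L.p N k
  rw [Nat.mod_eq_zero_of_dvd h6] at h7
  have h8 : k % N = 0 := by
    by_contra h9
    have := Nat.one_lt_pow h9 L.pp.one_lt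
    omega
  exact Nat.dvd_of_mod_eq_zero h8

/-- all elements of `Te N` -/
private theorem urA_fin (N : ℕ) (hN : N ≠ 0) : ∃ T : Finset Ω, (∀ x, x ∈ T ↔ x ∈ L.Te N) ∧
    T.card = L.p ^ N := by
  classical
  obtain ⟨ζ, hζ⟩ := urA_prim (L := L) N hN
  have h1 : 1 < L.p ^ N := Nat.one_lt_pow hN L.pp.one_lt
  have h2 : 0 < L.p ^ N - 1 := by omega
  refine ⟨insert 0 (nthRootsFinset (L.p ^ N - 1) (1 : Ω)), ?_, ?_⟩
  · intro x
    rw [Finset.mem_insert, mem_nthRootsFinset h2]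
    constructor
    · rintro (hx | hx)
      · rw [hx]
        change (0 : Ω) ^ L.p ^ N = 0
        exact zero_pow (by omega)
      · exact urA_te hx
    · intro hx
      by_cases hx0 : x = 0
      · exact Or.inl hx0
      · right
        have h3 : x ^ L.p ^ N = x := hx
        have h4 : L.p ^ N = L.p ^ N - 1 + 1 := by omega
        rw [h4, pow_succ] at h3
        exact mul_right_cancel₀ hx0 (by rw [h3, one_mul])
  · rw [Finset.card_insert_of_notMem, hζ.card_nthRootsFinset]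
    · omega
    · rw [mem_nthRootsFinset h2, zero_pow h2.ne']
      exact zero_ne_one

/-- A polynomial with a unit leading coefficient and degree less than `p ^ N` has a unit value at an element of
`Te N`. -/
private theorem urA_root {N : ℕ} (hN : N ≠ 0) (g : Polynomial Ω) (h1 : L.nm g.leadingCoeff = 1)
    (hg : ∀ i, L.nm (g.coeff i) ≤ 1) (hd : g.natDegree < L.p ^ N) :
    ∃ w ∈ L.Te N, L.nm (g.eval w) = 1 := by
  classical
  by_contra hcon
  push Not at hcon
  have ha : IsAlgClosed Ω := IsAlgClosure.isAlgClosed K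
  obtain ⟨T, hT, hTc⟩ := urA_fin (L := L) N hN
  have hlt : ∀ w ∈ T, ∃ r ∈ g.roots.toFinset, L.nm (w - r) < 1 := by
    intro w hw
    have hw' := (hT w).1 hw
    have h2 : L.nm (g.eval w) < 1 :=
      lt_of_le_of_ne (L.eval_le hg (te_int hN hw')) (hcon w hw')
    by_contra h3
    push Not at h3
    have h4 := (IsAlgClosed.splits g).eq_prod_roots
    rw [h4, eval_mul, eval_C, L.mul, h1, one_mul, eval_multiset_prod, Multiset.map_map] at h2
    have h5 : ∀ s : Multiset Ω, (∀ r ∈ s, 1 ≤ L.nm (w - r)) →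
        1 ≤ L.nm (s.map (eval w ∘ fun x => X - C x)).prod := by
      intro s
      induction s using Multiset.induction_on with
      | empty => intro _; rw [Multiset.map_zero, Multiset.prod_zero, L.one]
      | cons a s ih =>
        intro hs
        rw [Multiset.map_cons, Multiset.prod_cons, L.mul]
        refine one_le_mul_of_one_le_of_one_le ?_ (ih fun r hr => hs r (Multiset.mem_cons_of_mem hr))
        simpa using hs a (Multiset.mem_cons_self a s)
    exact absurd h2 (not_lt.2 (h5 _ fun r hr => h3 r (Multiset.mem_toFinset.2 hr)))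
  choose! r hr hr1 using hlt
  have hinj : Set.InjOn r T := by
    intro a ha' b hb hab
    refine te_inj hN ((hT a).1 ha') ((hT b).1 hb) ?_
    have h2 : a - b = (a - r a) - (b - r b) := by rw [hab]; ring
    rw [h2]
    exact (L.sub _ _).trans_lt (max_lt (hr1 a ha') (hr1 b hb))
  have h2 := Finset.card_le_card_of_injOn r (fun a ha' => hr a ha') hinj
  have h3 : g.roots.toFinset.card ≤ g.natDegree :=
    (Multiset.toFinset_card_le _).trans (card_roots' g)
  omega

/-- The sum of the conjugates has a unit value. -/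
private theorem urA_sum {f d : ℕ} (hf : f ≠ 0) (hd : d ≠ 0) (u : ℕ → Ω)
    (hu : ∀ i, L.nm (u i) = 1) :
    ∃ w ∈ L.Te (f * d), L.nm (∑ i ∈ Finset.range d, u i * w ^ L.p ^ (f * i)) = 1 := by
  classical
  obtain ⟨g, hg⟩ : ∃ g : Polynomial Ω, g = ∑ i ∈ Finset.range d, C (u i) * X ^ L.p ^ (f * i) :=
    ⟨_, rfl⟩
  have hinj : ∀ i j, L.p ^ (f * i) = L.p ^ (f * j) ↔ i = j := by
    intro i j
    rw [Nat.pow_right_inj L.pp.two_le, Nat.mul_right_inj hf]
  have hcoeff : ∀ i < d, g.coeff (L.p ^ (f * i)) = u i := by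
    intro i hi
    rw [hg, finset_sum_coeff, Finset.sum_eq_single i]
    · rw [coeff_C_mul, coeff_X_pow, if_pos rfl, mul_one]
    · intro j _ hj
      rw [coeff_C_mul, coeff_X_pow, if_neg, mul_zero]
      intro h
      exact hj ((hinj i j).1 h).symm
    · intro h
      exact absurd (Finset.mem_range.2 hi) h
  have hle : g.natDegree ≤ L.p ^ (f * (d - 1)) := by
    rw [hg]
    refine natDegree_sum_le_of_forall_le _ _ fun i hi => ?_
    refine (natDegree_C_mul_X_pow_le _ _).trans ?_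
    have hi' := Finset.mem_range.1 hi
    exact Nat.pow_le_pow_right L.pp.pos (Nat.mul_le_mul_left _ (by omega))
  have hu0 : ∀ i, u i ≠ 0 := fun i h => by
    have h1 := hu i
    rw [h, L.zero] at h1
    exact zero_ne_one h1
  have hdeg : g.natDegree = L.p ^ (f * (d - 1)) := by
    refine le_antisymm hle (le_natDegree_of_ne_zero ?_)
    rw [hcoeff _ (by omega)]
    exact hu0 _
  have hlc : L.nm g.leadingCoeff = 1 := by
    rw [leadingCoeff, hdeg, hcoeff _ (by omega)]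
    exact hu _
  have hint : ∀ k, L.nm (g.coeff k) ≤ 1 := by
    intro k
    rw [hg, finset_sum_coeff]
    refine L.sum_le _ _ zero_le_one fun i _ => ?_
    rw [coeff_C_mul, coeff_X_pow]
    split_ifs
    · rw [mul_one, hu]
    · rw [mul_zero, L.zero]
      exact zero_le_one
  have hlt : g.natDegree < L.p ^ (f * d) := by
    rw [hdeg]
    refine Nat.pow_lt_pow_right L.pp.one_lt ?_
    exact Nat.mul_lt_mul_of_pos_left (by omega) (Nat.pos_of_ne_zero hf)
  obtain ⟨w, hw, h1⟩ := urA_root (Nat.mul_ne_zero hf hd) g hlc hint hlt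
  refine ⟨w, hw, ?_⟩
  rw [hg, eval_finset_sum] at h1
  rw [← h1]
  congr 1
  refine Finset.sum_congr rfl fun i _ => ?_
  rw [eval_mul, eval_C, eval_pow, eval_X]

private theorem urA_cyc {M : IntermediateField K Ω} {φ : Ω ≃ₐ[K] Ω} {f d : ℕ}
    (h : Frob L.toLf M φ (L.p ^ f)) (hf : f ≠ 0) (hd : d ≠ 0) :
    (∀ i : ℕ, φ ^ i ∈ (L.Ur M (f * d)).fixingSubgroup ↔ d ∣ i) ∧
      ∀ γ ∈ M.fixingSubgroup, ∃ n : ℕ, (φ ^ n)⁻¹ * γ ∈ (L.Ur M (f * d)).fixingSubgroup := by
  have hN : f * d ≠ 0 := Nat.mul_ne_zero hf hd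
  have hpow : ∀ i : ℕ, φ ^ i ∈ M.fixingSubgroup := fun i => Subgroup.pow_mem _ h.mem i
  refine ⟨fun i => ?_, fun γ hγ => ?_⟩
  · rw [ur_fix (hpow i)]
    constructor
    · intro h1
      have h2 : f * d ∣ f * i := urA_dvd (L := L) hN fun z hz => by
        rw [← urA_phi_pow h hN hz, h1 z hz]
      exact Nat.dvd_of_mul_dvd_mul_left (Nat.pos_of_ne_zero hf) h2
    · intro h1 x hx
      rw [urA_phi_pow h hN hx]
      exact te_dvd (Nat.mul_dvd_mul_left f h1) hx
  · obtain ⟨T, hT, -⟩ := urA_fin (L := L) (f * d) hN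
    obtain ⟨n, hn⟩ := h.gen γ hγ T fun x hx => te_int hN ((hT x).1 hx)
    refine ⟨n, ?_⟩
    rw [ur_fix (Subgroup.mul_mem _ (Subgroup.inv_mem _ (hpow n)) hγ)]
    intro x hx
    have h2 : γ x = (φ ^ n) x := te_inj hN (te_act γ hx) (te_act _ hx) (hn x ((hT x).2 hx))
    rw [AlgEquiv.mul_apply, h2, ← AlgEquiv.mul_apply, inv_mul_cancel]
    rfl

/-- The Galois group of `Ur M N` over `M` is generated by the Frobenius automorphism. Here `f ∣ N`. Proof: `φ ^ i` acts on `Te N` by `z ↦ z ^ (p ^ (f i))`; `φ ^ i` is the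
identity on `Te N` iff `N ∣ f i` (`Te N` has an element of order `p ^ N - 1`). Every `γ` over `M` acts on `Te N` as a power of `φ` (`gen`,
`te_inj`). -/
theorem ur_cyc {M : IntermediateField K Ω} [FiniteDimensional K M] {φ : Ω ≃ₐ[K] Ω} {f d : ℕ}
    (h : Frob L.toLf M φ (L.p ^ f)) (hf : f ≠ 0) (hd : d ≠ 0) :
    (∀ i : ℕ, φ ^ i ∈ (L.Ur M (f * d)).fixingSubgroup ↔ d ∣ i) ∧
      ∀ γ ∈ M.fixingSubgroup, ∃ i < d, (φ ^ i)⁻¹ * γ ∈ (L.Ur M (f * d)).fixingSubgroup := by
  refine ⟨(urA_cyc h hf hd).1, fun γ hγ => ?_⟩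
  obtain ⟨n, hn⟩ := (urA_cyc h hf hd).2 γ hγ
  refine ⟨n % d, Nat.mod_lt _ (Nat.pos_of_ne_zero hd), ?_⟩
  have h1 : φ ^ (d * (n / d)) ∈ (L.Ur M (f * d)).fixingSubgroup :=
    ((urA_cyc h hf hd).1 _).2 (dvd_mul_right _ _)
  have h2 : (φ ^ (n % d))⁻¹ * γ = φ ^ (d * (n / d)) * ((φ ^ n)⁻¹ * γ) := by
    have h3 : φ ^ n = φ ^ (d * (n / d)) * φ ^ (n % d) := by
      rw [← pow_add, Nat.div_add_mod]
    have h4 : φ ^ n = φ ^ (n % d) * φ ^ (d * (n / d)) := by
      rw [← pow_add, Nat.mod_add_div]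
    rw [h4, mul_inv_rev]
    group
  rw [h2]
  exact Subgroup.mul_mem _ h1 hn

/-- The norm. -/
theorem ur_nm {M : IntermediateField K Ω} [FiniteDimensional K M] {φ : Ω ≃ₐ[K] Ω} {f d : ℕ}
    (h : Frob L.toLf M φ (L.p ^ f)) (hf : f ≠ 0) (hd : d ≠ 0) {A : Type} [AddCommGroup A]
    [DistribMulAction (Ω ≃ₐ[K] Ω) A] {P : A} (hP : Fx (L.Ur M (f * d)) P) :
    Nm M (L.Ur M (f * d)) P = ∑ i ∈ Finset.range d, φ ^ i • P := by
  classical
  obtain ⟨h1, h2⟩ := ur_cyc h hf hd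
  obtain ⟨N, hN⟩ : ∃ N, N = L.Ur M (f * d) := ⟨_, rfl⟩
  rw [← hN] at h1 h2 hP ⊢
  have hpow : ∀ i : ℕ, φ ^ i ∈ M.fixingSubgroup := fun i => Subgroup.pow_mem _ h.mem i
  let F : Fin d → M.fixingSubgroup ⧸ N.fixingSubgroup.subgroupOf M.fixingSubgroup :=
    fun i => QuotientGroup.mk ⟨φ ^ (i : ℕ), hpow i⟩
  have hF : Function.Bijective F := by
    constructor
    · have key : ∀ i j : Fin d, F i = F j → (i : ℕ) ≤ j → i = j := by
        intro i j hij hle
        have h3 := QuotientGroup.eq.1 hij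
        rw [Subgroup.mem_subgroupOf] at h3
        have h4 : (φ ^ (i : ℕ))⁻¹ * φ ^ (j : ℕ) = φ ^ ((j : ℕ) - i) := by
          have h5 : φ ^ (j : ℕ) = φ ^ (i : ℕ) * φ ^ ((j : ℕ) - i) := by
            rw [← pow_add, Nat.add_sub_cancel' hle]
          rw [h5, inv_mul_cancel_left]
        have h6 : φ ^ ((j : ℕ) - i) ∈ N.fixingSubgroup := by
          rw [← h4]
          exact h3
        have h7 := Nat.eq_zero_of_dvd_of_lt ((h1 _).1 h6) (by have := j.2; omega)
        exact Fin.ext (by omega)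
      intro i j hij
      rcases le_total (i : ℕ) j with hle | hle
      · exact key i j hij hle
      · exact (key j i hij.symm hle).symm
    · intro q
      obtain ⟨γ, rfl⟩ := QuotientGroup.mk_surjective q
      obtain ⟨i, hi, h3⟩ := h2 γ γ.2
      refine ⟨⟨i, hi⟩, QuotientGroup.eq.2 ?_⟩
      rw [Subgroup.mem_subgroupOf]
      exact h3
  have hval : ∀ i : Fin d, (((F i).out : M.fixingSubgroup) : Ω ≃ₐ[K] Ω) • P = φ ^ (i : ℕ) • P := by
    intro i
    have h3 : (QuotientGroup.mk (F i).out :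
        M.fixingSubgroup ⧸ N.fixingSubgroup.subgroupOf M.fixingSubgroup) = F i :=
      Quotient.out_eq _
    have h4 := QuotientGroup.eq.1 h3.symm
    rw [Subgroup.mem_subgroupOf] at h4
    have h5 := hP _ h4
    have h6 : (((F i).out : M.fixingSubgroup) : Ω ≃ₐ[K] Ω) = φ ^ (i : ℕ) *
        (((⟨φ ^ (i : ℕ), hpow i⟩ : M.fixingSubgroup)⁻¹ * (F i).out : M.fixingSubgroup) :
          Ω ≃ₐ[K] Ω) := by
      rw [Subgroup.coe_mul, Subgroup.coe_inv, mul_inv_cancel_left]
    rw [h6, mul_smul, h5]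
  rw [Nm, ← finsum_comp_equiv (Equiv.ofBijective F hF), finsum_eq_sum_of_fintype]
  exact (Finset.sum_congr rfl fun i _ => hval i).trans
    (Fin.sum_univ_eq_sum_range (fun i => φ ^ i • P) d)

/-- The residues of `Ur M N`. Proof: `φ ^ d` is a Frobenius automorphism for `Ur M (f d)` (with `q ^ d`); the argument of `frob_te`. -/
theorem ur_res {M : IntermediateField K Ω} [FiniteDimensional K M] {φ : Ω ≃ₐ[K] Ω} {f d : ℕ}
    (h : Frob L.toLf M φ (L.p ^ f)) (hf : f ≠ 0) (hd : d ≠ 0) :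
    ∀ x ∈ L.Ur M (f * d), L.nm x ≤ 1 → ∃ z ∈ L.Te (f * d), L.nm (x - z) < 1 := by
  obtain ⟨h1, h2⟩ := ur_cyc h hf hd
  have hN : f * d ≠ 0 := Nat.mul_ne_zero hf hd
  have hfin : FiniteDimensional K (L.Ur M (f * d)) := ur_fin M (f * d) hN
  have hpow : ∀ i : ℕ, φ ^ i ∈ M.fixingSubgroup := fun i => Subgroup.pow_mem _ h.mem i
  have hfr : Frob L.toLf (L.Ur M (f * d)) (φ ^ d) (L.p ^ (f * d)) := by
    refine ⟨(h1 d).2 dvd_rfl, Nat.one_lt_pow hN L.pp.one_lt, ?_, ?_⟩
    · have key : ∀ i : ℕ, ∀ x, L.nm x ≤ 1 → L.nm ((φ ^ i) x - x ^ L.p ^ (f * i)) < 1 := by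
        intro i
        induction i with
        | zero =>
          intro x _
          rw [pow_zero, mul_zero, pow_zero, pow_one]
          change L.nm (x - x) < 1
          rw [sub_self, L.zero]
          exact zero_lt_one
        | succ i ih =>
          intro x hx
          have h3 := ih (φ x) (by rw [L.act]; exact hx)
          have h4 : L.nm ((φ x) ^ L.p ^ (f * i) - (x ^ L.p ^ f) ^ L.p ^ (f * i)) < 1 := by
            have h6 : ∀ (a b : Ω) (n : ℕ), L.nm a ≤ 1 → L.nm b ≤ 1 → L.nm (a - b) < 1 →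
                L.nm (a ^ n - b ^ n) < 1 := by
              intro a b n ha hb hab
              induction n with
              | zero =>
                rw [pow_zero, pow_zero, sub_self, L.zero]
                exact zero_lt_one
              | succ n ihn =>
                have h7 : a ^ (n + 1) - b ^ (n + 1) = (a ^ n - b ^ n) * a + b ^ n * (a - b) := by
                  ring
                rw [h7]
                refine (L.add _ _).trans_lt (max_lt ?_ ?_)
                · rw [L.mul]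
                  exact (mul_le_of_le_one_right (L.nonneg _) ha).trans_lt ihn
                · rw [L.mul, L.pow]
                  exact (mul_le_of_le_one_left (L.nonneg _)
                    (pow_le_one₀ (L.nonneg _) hb)).trans_lt hab
            refine h6 _ _ _ ?_ ?_ (h.frob x hx)
            · rw [L.act]
              exact hx
            · rw [L.pow]
              exact pow_le_one₀ (L.nonneg _) hx
          have h5 : (φ ^ (i + 1)) x - x ^ L.p ^ (f * (i + 1)) =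
              ((φ ^ i) (φ x) - (φ x) ^ L.p ^ (f * i)) +
                ((φ x) ^ L.p ^ (f * i) - (x ^ L.p ^ f) ^ L.p ^ (f * i)) := by
            rw [pow_succ, AlgEquiv.mul_apply, ← pow_mul, ← pow_add, mul_add, mul_one,
              add_comm f (f * i)]
            ring
          rw [h5]
          exact (L.add _ _).trans_lt (max_lt h3 h4)
      exact key d
    · intro γ hγ S hS
      classical
      obtain ⟨T, hT, -⟩ := urA_fin (L := L) (f * d) hN
      have hγM : γ ∈ M.fixingSubgroup := fix_le ur_le hγ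
      obtain ⟨n, hn⟩ := h.gen γ hγM (S ∪ T) fun x hx => by
        rcases Finset.mem_union.1 hx with hx | hx
        · exact hS x hx
        · exact te_int hN ((hT x).1 hx)
      have h3 : d ∣ n := by
        rw [← h1, ur_fix (hpow n)]
        intro x hx
        have h4 := hn x (Finset.mem_union_right _ ((hT x).2 hx))
        rw [(ur_fix hγM).1 hγ x hx] at h4
        exact (te_inj hN hx (te_act _ hx) h4).symm
      obtain ⟨k, rfl⟩ := h3
      refine ⟨k, fun x hx => ?_⟩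
      rw [← pow_mul]
      exact hn x (Finset.mem_union_left _ hx)
  exact (frob_te hfr).1

private theorem urA_norm {M : IntermediateField K Ω} {N : ℕ} {γ : Ω ≃ₐ[K] Ω}
    (hγ : γ ∈ M.fixingSubgroup) {y : Ω} (hy : y ∈ L.Ur M N) : γ y ∈ L.Ur M N := by
  refine mem_of_fix _ fun δ hδ => ?_
  have hδM : δ ∈ M.fixingSubgroup := fix_le ur_le hδ
  have h1 : γ⁻¹ * δ * γ ∈ (L.Ur M N).fixingSubgroup := by
    rw [ur_fix (Subgroup.mul_mem _ (Subgroup.mul_mem _ (Subgroup.inv_mem _ hγ) hδM) hγ)]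
    intro x hx
    rw [AlgEquiv.mul_apply, AlgEquiv.mul_apply, (ur_fix hδM).1 hδ _ (te_act γ hx),
      ← AlgEquiv.mul_apply, inv_mul_cancel, AlgEquiv.one_apply]
  have h2 := (IntermediateField.mem_fixingSubgroup_iff _ _).1 h1 y hy
  have h3 : δ * γ = γ * (γ⁻¹ * δ * γ) := by group
  rw [← AlgEquiv.mul_apply, h3, AlgEquiv.mul_apply, h2]

private theorem urA_trM {M : IntermediateField K Ω} [FiniteDimensional K M] {φ : Ω ≃ₐ[K] Ω}
    {f d : ℕ} (h : Frob L.toLf M φ (L.p ^ f)) (hf : f ≠ 0) (hd : d ≠ 0) {x : Ω}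
    (hx : x ∈ L.Ur M (f * d)) : ∑ i ∈ Finset.range d, (φ ^ i) x ∈ M := by
  obtain ⟨h1, h2⟩ := ur_cyc h hf hd
  have hpow : ∀ i : ℕ, φ ^ i ∈ M.fixingSubgroup := fun i => Subgroup.pow_mem _ h.mem i
  obtain ⟨s, hs⟩ : ∃ s : Ω, s = ∑ i ∈ Finset.range d, (φ ^ i) x := ⟨_, rfl⟩
  rw [← hs]
  have hdx : (φ ^ d) x = x :=
    (IntermediateField.mem_fixingSubgroup_iff _ _).1 ((h1 d).2 dvd_rfl) x hx
  have h3 : φ s = s := by
    have h4 : φ s = ∑ i ∈ Finset.range d, (φ ^ (i + 1)) x := by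
      rw [hs, map_sum]
      exact Finset.sum_congr rfl fun i _ => by rw [pow_succ', AlgEquiv.mul_apply]
    have h5 := Finset.sum_range_succ (fun i => (φ ^ i) x) d
    rw [Finset.sum_range_succ', hdx] at h5
    rw [h4, hs]
    exact add_right_cancel h5
  have h4 : ∀ i : ℕ, (φ ^ i) s = s := by
    intro i
    induction i with
    | zero => rfl
    | succ i ih => rw [pow_succ, AlgEquiv.mul_apply, h3, ih]
  have hsU : s ∈ L.Ur M (f * d) := by
    rw [hs]
    exact sum_mem fun i _ => urA_norm (hpow i) hx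
  refine mem_of_fix M fun γ hγ => ?_
  obtain ⟨i, -, h5⟩ := h2 γ hγ
  have h6 := (IntermediateField.mem_fixingSubgroup_iff _ _).1 h5 s hsU
  have h7 : γ = φ ^ i * ((φ ^ i)⁻¹ * γ) := by rw [mul_inv_cancel_left]
  rw [h7, AlgEquiv.mul_apply, h6, h4]

/-- The trace of the residue fields is surjective. Proof: `x ↦ ∑ x ^ (q ^ i)`, `i < d`, is a polynomial of degree `q ^ (d - 1)`, so it is not `0` on all residues of
`Te (f d)`; let it be `a ≠ 0` at `z` (the residue of a number in `M`, since it is fixed by `φ`); for `u ∈ M` take `v = u z / s`, `s = ∑ φ ^ i z`. -/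
theorem ur_tr {M : IntermediateField K Ω} [FiniteDimensional K M] {φ : Ω ≃ₐ[K] Ω} {f d : ℕ}
    (h : Frob L.toLf M φ (L.p ^ f)) (hf : f ≠ 0) (hd : d ≠ 0) {u : Ω} (hu : u ∈ M)
    (hu1 : L.nm u ≤ 1) : ∃ v ∈ L.Ur M (f * d), L.nm v ≤ 1 ∧
      ∑ i ∈ Finset.range d, (φ ^ i) v = u := by
  obtain ⟨h1, h2⟩ := ur_cyc h hf hd
  have hN : f * d ≠ 0 := Nat.mul_ne_zero hf hd
  have hpow : ∀ i : ℕ, φ ^ i ∈ M.fixingSubgroup := fun i => Subgroup.pow_mem _ h.mem i
  obtain ⟨z, hz, hz1⟩ := urA_sum (L := L) hf hd (fun _ => 1) (fun _ => L.one)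
  obtain ⟨s, hs⟩ : ∃ s : Ω, s = ∑ i ∈ Finset.range d, (φ ^ i) z := ⟨_, rfl⟩
  have hs1 : L.nm s = 1 := by
    rw [hs, ← hz1]
    congr 1
    exact Finset.sum_congr rfl fun i _ => by rw [urA_phi_pow h hN hz, one_mul]
  have hs0 : s ≠ 0 := L.ne_zero (by rw [hs1]; exact zero_lt_one)
  have hsM : s ∈ M := by
    rw [hs]
    exact urA_trM h hf hd (te_ur hz)
  refine ⟨u * z / s, ?_, ?_, ?_⟩
  · exact div_mem (mul_mem (ur_le hu) (te_ur hz)) (ur_le hsM)
  · rw [L.div, L.mul, hs1, div_one]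
    exact mul_le_one₀ hu1 (L.nonneg _) (te_int hN hz)
  · have h3 : ∀ i ∈ Finset.range d, (φ ^ i) (u * z / s) = u / s * (φ ^ i) z := by
      intro i _
      have h4 := (IntermediateField.mem_fixingSubgroup_iff M _).1 (hpow i)
      rw [map_div₀, map_mul, h4 u hu, h4 s hsM]
      ring
    rw [Finset.sum_congr rfl h3, ← Finset.mul_sum, ← hs, div_mul_cancel₀ _ hs0]

/-- The values of `Ur M N` are those of `M`. Proof: let `z ∈ Te (f d)` have order `p ^ (f d) - 1`. The powers `z ^ i`, `i < d`, are linearly independent over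
the residue field of `M` and form a basis of `Ur M (f d)` over `M` (the degree is `d` by `ur_cyc`); the norm of
`∑ a_i z ^ i` is the maximum of the `nm (a_i)`. -/
theorem ur_val {M : IntermediateField K Ω} [FiniteDimensional K M] {φ : Ω ≃ₐ[K] Ω} {f d : ℕ}
    (h : Frob L.toLf M φ (L.p ^ f)) (hf : f ≠ 0) (hd : d ≠ 0) {x : Ω} (hx : x ∈ L.Ur M (f * d)) :
    ∃ y ∈ M, L.nm y = L.nm x := by
  classical
  obtain ⟨h1, h2⟩ := ur_cyc h hf hd
  have hN : f * d ≠ 0 := Nat.mul_ne_zero hf hd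
  have hpow : ∀ i : ℕ, φ ^ i ∈ M.fixingSubgroup := fun i => Subgroup.pow_mem _ h.mem i
  by_cases hx0 : x = 0
  · exact ⟨0, zero_mem _, by rw [hx0]⟩
  have hxn : L.nm x ≠ 0 := (L.pos hx0).ne'
  obtain ⟨w, hw, hw1⟩ := urA_sum (L := L) hf hd (fun i => (φ ^ i) x / x) (fun i => by
    rw [L.div, L.act, div_self hxn])
  refine ⟨∑ i ∈ Finset.range d, (φ ^ i) (w * x), urA_trM h hf hd (mul_mem (te_ur hw) hx), ?_⟩
  have h3 : ∑ i ∈ Finset.range d, (φ ^ i) (w * x) =
      x * ∑ i ∈ Finset.range d, (φ ^ i) x / x * w ^ L.p ^ (f * i) := by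
    rw [Finset.mul_sum]
    refine Finset.sum_congr rfl fun i _ => ?_
    rw [map_mul, urA_phi_pow h hN hw]
    field_simp
  rw [h3, L.mul, hw1, mul_one]

/-- The values of `Ur ⊥ N` are the powers of `p`. Proof: `exists_frob` for `⊥`, `q = p ^ f`; `Ur ⊥ N ≤ Ur ⊥ (f N)`, `ur_val`, `unr`. -/
theorem ur_unr [L.Unr] {N : ℕ} (hN : N ≠ 0) {x : Ω} (hx : x ∈ L.Ur ⊥ N) (h0 : x ≠ 0) :
    ∃ n : ℤ, L.nm x = L.nm (L.p : Ω) ^ n := by
  obtain ⟨φ, q, hφ⟩ := exists_frob L.toLf (⊥ : IntermediateField K Ω)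
  obtain ⟨f, hf, hq, -⟩ := frob_q hφ
  rw [hq] at hφ
  have hx' : x ∈ L.Ur ⊥ (f * N) := ur_dvd ⊥ (dvd_mul_left N f) hx
  obtain ⟨y, hy, hyx⟩ := ur_val hφ hf hN hx'
  obtain ⟨k, rfl⟩ := IntermediateField.mem_bot.1 hy
  have hk : k ≠ 0 := by
    intro h
    rw [h, map_zero, L.zero] at hyx
    exact (L.pos h0).ne hyx
  obtain ⟨n, hn⟩ := L.unr k hk
  exact ⟨n, by rw [← hyx, hn]⟩

/-- The element `x` of `Ur ⊥ N` with norm `< 1` has norm at most `nm p`. -/
theorem ur_lt [L.Unr] {N : ℕ} (hN : N ≠ 0) {x : Ω} (hx : x ∈ L.Ur ⊥ N) {i : ℕ}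
    (h : L.nm x < L.nm (L.p : Ω) ^ i) : L.nm x ≤ L.nm (L.p : Ω) ^ (i + 1) := by
  have hp0 : 0 < L.nm (L.p : Ω) := L.p_pos
  by_cases h0 : x = 0
  · rw [h0, L.zero]
    exact pow_nonneg hp0.le _
  obtain ⟨n, hn⟩ := ur_unr hN hx h0
  rw [hn] at h ⊢
  rw [← zpow_natCast] at h ⊢
  have h1 : (i : ℤ) < n := (zpow_lt_zpow_iff_right_of_lt_one₀ hp0 L.lt).1 h
  exact (zpow_le_zpow_iff_right_of_lt_one₀ hp0 L.lt).2 (by push_cast; omega)

/-- `N` is the degree of the residue field of `M`, and `M` contains `Ur ⊥ N`. -/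
structure Rf (L : Ld K Ω) (M : IntermediateField K Ω) (N : ℕ) : Prop where
  ne : N ≠ 0
  le : L.Ur ⊥ N ≤ M
  res : ∀ x ∈ M, L.nm x ≤ 1 → ∃ z ∈ L.Te N, L.nm (x - z) < 1

/-- Proof: `exists_frob`, `frob_q`, `ur_res`. -/
theorem exists_rf (M : IntermediateField K Ω) [FiniteDimensional K M] :
    ∃ f ≠ 0, ∀ N ≠ 0, f ∣ N → L.Rf (L.Ur M N) N := by
  obtain ⟨φ, q, hφ⟩ := exists_frob L.toLf M
  obtain ⟨f, hf, hq, -⟩ := frob_q hφ
  rw [hq] at hφ
  refine ⟨f, hf, fun N hN hfN => ?_⟩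
  obtain ⟨d, rfl⟩ := hfN
  exact ⟨hN, ur_bot_ur M _, ur_res hφ hf (right_ne_zero_of_mul hN)⟩

omit [IsAlgClosure K Ω] in
/-- `Te N` determines `N`. -/
private theorem rf_dvd [IsAlgClosed Ω] {N N' : ℕ} (hN : N ≠ 0) (hN' : N' ≠ 0)
    (h : ∀ z ∈ L.Te N, z ∈ L.Te N') : L.p ^ N ≤ L.p ^ N' := by
  have : CharZero Ω := charZero_of_injective_algebraMap (algebraMap K Ω).injective
  have h1 : 1 < L.p ^ N := Nat.one_lt_pow hN L.pp.one_lt
  have h2 : 1 < L.p ^ N' := Nat.one_lt_pow hN' L.pp.one_lt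
  have hne : NeZero ((L.p ^ N - 1 : ℕ) : Ω) := ⟨Nat.cast_ne_zero.2 (by omega)⟩
  obtain ⟨z, hz⟩ := HasEnoughRootsOfUnity.exists_primitiveRoot Ω (L.p ^ N - 1)
  have hz1 : z ∈ L.Te N := by
    show z ^ L.p ^ N = z
    have h3 : L.p ^ N = (L.p ^ N - 1) + 1 := by omega
    rw [h3, pow_succ, hz.pow_eq_one, one_mul]
  have hz2 : z ^ L.p ^ N' = z := h z hz1
  have hz0 : z ≠ 0 := hz.ne_zero (by omega)
  have h3 : z ^ (L.p ^ N' - 1) = 1 := by
    have h4 : L.p ^ N' = (L.p ^ N' - 1) + 1 := by omega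
    rw [h4, pow_succ] at hz2
    exact mul_right_cancel₀ hz0 (by rw [hz2, one_mul])
  have h4 := Nat.le_of_dvd (by omega) (hz.dvd_of_pow_eq_one _ h3)
  omega

/-- Proof: by `frob_te` and `te_inj` the sets `Te f`, `Te N` are equal if `q = p ^ f`. -/
theorem rf_frob {M : IntermediateField K Ω} [FiniteDimensional K M] {N : ℕ} (h : L.Rf M N)
    {φ : Ω ≃ₐ[K] Ω} {q : ℕ} (hφ : Frob L.toLf M φ q) : q = L.p ^ N := by
  have hac : IsAlgClosed Ω := IsAlgClosure.isAlgClosed K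
  obtain ⟨f, hf, hq, -⟩ := frob_q hφ
  rw [hq] at hφ ⊢
  obtain ⟨h1, h2⟩ := frob_te hφ
  have hfN : f * N ≠ 0 := mul_ne_zero hf h.ne
  have h3 : ∀ z ∈ L.Te f, z ∈ L.Te N := by
    intro z hz
    obtain ⟨z', hz', hzz⟩ := h.res z (h2 z hz) (te_int hf hz)
    have h4 : z = z' := te_inj hfN (te_dvd (dvd_mul_right f N) hz)
      (te_dvd (dvd_mul_left N f) hz') hzz
    rw [h4]
    exact hz'
  have h4 : ∀ z ∈ L.Te N, z ∈ L.Te f := by
    intro z hz
    obtain ⟨z', hz', hzz⟩ := h1 z (h.le (te_ur hz)) (te_int h.ne hz)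
    have h5 : z = z' := te_inj hfN (te_dvd (dvd_mul_left N f) hz)
      (te_dvd (dvd_mul_right f N) hz') hzz
    rw [h5]
    exact hz'
  exact le_antisymm (rf_dvd hf h.ne h3) (rf_dvd h.ne hf h4)

theorem rf_ur {M : IntermediateField K Ω} [FiniteDimensional K M] {N d : ℕ} (h : L.Rf M N)
    (hd : d ≠ 0) : L.Rf (L.Ur M (N * d)) (N * d) := by
  obtain ⟨φ, q, hφ⟩ := exists_frob L.toLf M
  rw [rf_frob h hφ] at hφ
  exact ⟨mul_ne_zero h.ne hd, ur_bot_ur M _, ur_res hφ h.ne hd⟩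

end

end Ld

end PE
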