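import Pool.Agent.Lib.MP_f80667_ag.Be.Trc

/-!
Zero-cycles on a product `E₁ × E₂` of two elliptic curves: the varieties, the symbols and their calculus.

* `Ev W`, `Xv W₁ W₂`: the curve and the product.
* `Fx M P`: `P` is a point over `M`; `Nm M N P`: the norm of a point over `N` to `M`.
* `tau P Q`: the cycle `[(P, Q)] - [(P, 0)] - [(0, Q)] + [(0, 0)]`.
* `Sc`: the formal properties of the symbols `{P, Q}_M`: the class of the trace of `tau P Q` from `M` to `K`.
* `Sc.Z S l M P Q`: the symbol is in `l T`, `T` the group generated by the symbols.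
-/

open ZC BE Polynomial

namespace PE

section var

variable {F : Type} [Field F]

/-- The curve. -/
noncomputable def Ev (W : WeierstrassCurve F) : Vr F where
  pt L _ _ := Pt W L
  map σ := Pt.map W σ
  red w x y := Pt.Red W w x y

/-- The product of two curves. -/
noncomputable def Xv (W₁ W₂ : WeierstrassCurve F) : Vr F where
  pt L _ _ := Pt W₁ L × Pt W₂ L
  map σ P := (Pt.map W₁ σ P.1, Pt.map W₂ σ P.2)
  red w x y := Pt.Red W₁ w x.1 y.1 ∧ Pt.Red W₂ w x.2 y.2

/-- The cycle `[(P, Q)] - [(P, 0)] - [(0, Q)] + [(0, 0)]`. -/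
noncomputable def tau {A B : Type} [Zero A] [Zero B] (P : A) (Q : B) : A × B →₀ ℤ :=
  Finsupp.single (P, Q) 1 - Finsupp.single (P, 0) 1 - Finsupp.single (0, Q) 1 +
    Finsupp.single (0, 0) 1

end var

section calc'

variable {K Ω : Type} [Field K] [Field Ω] [Algebra K Ω]

/-- `P` is invariant under the Galois group of `Ω / M`. -/
def Fx {A : Type} [SMul (Ω ≃ₐ[K] Ω) A] (M : IntermediateField K Ω) (P : A) : Prop :=
  ∀ γ ∈ M.fixingSubgroup, γ • P = P

open Classical in
/-- The norm from `N` to `M`: the sum over the cosets of `Gal(Ω / N)` in `Gal(Ω / M)`. -/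
noncomputable def Nm {A : Type} [AddCommGroup A] [DistribMulAction (Ω ≃ₐ[K] Ω) A]
    (M N : IntermediateField K Ω) (P : A) : A :=
  ∑ᶠ q : M.fixingSubgroup ⧸ N.fixingSubgroup.subgroupOf M.fixingSubgroup,
    ((q.out : M.fixingSubgroup) : Ω ≃ₐ[K] Ω) • P

/-- The formal properties of the symbols. -/
structure Sc (K Ω A B G : Type) [Field K] [Field Ω] [Algebra K Ω] [AddCommGroup A] [AddCommGroup B]
    [AddCommGroup G] [DistribMulAction (Ω ≃ₐ[K] Ω) A] [DistribMulAction (Ω ≃ₐ[K] Ω) B] where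
  /-- the symbol `{P, Q}_M` -/
  sy : IntermediateField K Ω → A → B → G
  add₁ : ∀ (M : IntermediateField K Ω) [FiniteDimensional K M] (P P' : A) (Q : B), Fx M P →
    Fx M P' → Fx M Q → sy M (P + P') Q = sy M P Q + sy M P' Q
  add₂ : ∀ (M : IntermediateField K Ω) [FiniteDimensional K M] (P : A) (Q Q' : B), Fx M P →
    Fx M Q → Fx M Q' → sy M P (Q + Q') = sy M P Q + sy M P Q'
  nm₁ : ∀ (M N : IntermediateField K Ω) [FiniteDimensional K N] (P : A) (Q : B), M ≤ N →
    Fx N P → Fx M Q → sy N P Q = sy M (Nm M N P) Q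
  nm₂ : ∀ (M N : IntermediateField K Ω) [FiniteDimensional K N] (P : A) (Q : B), M ≤ N →
    Fx M P → Fx N Q → sy N P Q = sy M P (Nm M N Q)

namespace Sc

variable {A B G : Type} [AddCommGroup A] [AddCommGroup B] [AddCommGroup G]
  [DistribMulAction (Ω ≃ₐ[K] Ω) A] [DistribMulAction (Ω ≃ₐ[K] Ω) B] (S : Sc K Ω A B G)

/-- The group generated by the symbols. -/
def T : AddSubgroup G :=
  AddSubgroup.closure {x | ∃ (M : IntermediateField K Ω) (P : A) (Q : B), FiniteDimensional K M ∧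
    Fx M P ∧ Fx M Q ∧ x = S.sy M P Q}

/-- The symbol is a multiple of `l`. -/
def Z (l : ℕ) (M : IntermediateField K Ω) (P : A) (Q : B) : Prop := ∃ x ∈ S.T, S.sy M P Q = l • x

/-- The two factors exchanged. -/
def swap : Sc K Ω B A G where
  sy M Q P := S.sy M P Q
  add₁ M _ P P' Q h h' hQ := S.add₂ M Q P P' hQ h h'
  add₂ M _ P Q Q' hP h h' := S.add₁ M Q Q' P h h' hP
  nm₁ M N _ P Q h hP hQ := S.nm₂ M N Q P h hQ hP
  nm₂ M N _ P Q h hP hQ := S.nm₁ M N Q P h hQ hP

end Sc

end calc'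

end PE
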