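import Pool.Agent.Lib.MP_f80667_ag.Be.LfE

/-!
The absolute value of the algebraic closure of the completion of a number field: finite extensions
are complete.
-/

open ZC BE Polynomial IntermediateField IsDedekindDomain NumberField

namespace PE

/-- A finite extension with the spectral norm is complete. -/
theorem LdA_cpl (k : Type) [NontriviallyNormedField k] [IsUltrametricDist k] [ProperSpace k]
    {Ω : Type} [Field Ω] [Algebra k Ω] [Algebra.IsAlgebraic k Ω] (M : IntermediateField k Ω)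
    (hM : FiniteDimensional k M) (r : ℝ) (h0 : 0 ≤ r) (h1 : r < 1) (x : ℕ → Ω)
    (hx : ∀ n, x n ∈ M) (hr : ∀ n, spectralNorm k Ω (x (n + 1) - x n) ≤ r ^ n) :
    ∃ y ∈ M, ∀ n, spectralNorm k Ω (y - x n) ≤ r ^ n := by
  have hnm : ∀ z : M, spectralNorm k M z = spectralNorm k Ω (z : Ω) := fun z =>
    spectralNorm.eq_of_tower (K := k) (L := Ω) (E := M) z
  let i1 : NormedField M := spectralNorm.normedField k M
  have i2 : CompleteSpace M := spectralNorm.completeSpace k M
  let z : ℕ → M := fun n => ⟨x n, hx n⟩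
  have hd : ∀ a b : M, dist a b = spectralNorm k Ω ((a : Ω) - (b : Ω)) := fun a b => hnm (a - b)
  have hc : CauchySeq z := by
    refine cauchySeq_of_le_geometric r 1 h1 fun n => ?_
    rw [dist_comm, hd, one_mul]
    exact hr n
  obtain ⟨y, hy⟩ := cauchySeq_tendsto_of_complete hc
  refine ⟨(y : Ω), y.2, fun n => ?_⟩
  have hna := isNonarchimedean_spectralNorm (K := k) (L := Ω)
  have hmn : ∀ m, spectralNorm k Ω (x (n + m) - x n) ≤ r ^ n := by
    intro m
    induction m with
    | zero =>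
      rw [add_zero, sub_self, spectralNorm_zero]
      positivity
    | succ m ih =>
      have h2 : x (n + (m + 1)) - x n = (x (n + m + 1) - x (n + m)) + (x (n + m) - x n) := by
        rw [← add_assoc]
        ring
      rw [h2]
      refine (hna _ _).trans (max_le ((hr (n + m)).trans ?_) ih)
      exact pow_le_pow_of_le_one h0 h1.le (Nat.le_add_right n m)
  refine le_of_forall_pos_le_add fun ε hε => ?_
  rw [Metric.tendsto_atTop] at hy
  obtain ⟨N, hN⟩ := hy ε hε
  have h3 := hN (n + N) (Nat.le_add_left N n)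
  rw [dist_comm, hd] at h3
  have h4 : (y : Ω) - x n = ((y : Ω) - x (n + N)) + (x (n + N) - x n) := by ring
  rw [h4]
  refine (hna _ _).trans (max_le (h3.le.trans ?_) ((hmn N).trans ?_))
  · have : 0 ≤ r ^ n := by positivity
    linarith
  · linarith

open Pool.Agent.Lib.MP_f80667_ag.LF IsLocalRing in
theorem LdA_R (R k Ω : Type) [CommRing R] [IsDomain R] [IsDiscreteValuationRing R] [Field k]
    [Algebra R k] [IsFractionRing R k] [IsAdicComplete (maximalIdeal R) R]
    [Finite (ResidueField R)] [Field Ω] [Algebra k Ω] [Algebra.IsAlgebraic k Ω] :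
    ∃ L : Lf k Ω, (∀ x : k, L.nm (algebraMap k Ω x) ≤ 1 ↔ ∃ y : R, algebraMap R k y = x) ∧
      ∀ M : IntermediateField k Ω, FiniteDimensional k M → ∀ r : ℝ, 0 ≤ r → r < 1 →
        ∀ x : ℕ → Ω, (∀ n, x n ∈ M) → (∀ n, L.nm (x (n + 1) - x n) ≤ r ^ n) →
        ∃ y ∈ M, ∀ n, L.nm (y - x n) ≤ r ^ n := by
  let nn := nnf R k
  have hu : IsUltrametricDist k := ultra_abs R k
  have hp : ProperSpace k := proper_abs R k
  refine ⟨@LfE_lf k nn hu hp Ω _ _ _, ?_, ?_⟩
  · intro x
    have h1 : (@LfE_lf k nn hu hp Ω _ _ _).nm (algebraMap k Ω x) = ‖x‖ :=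
      @spectralNorm_extends k _ Ω _ _ x
    rw [h1]
    have h2 : ‖x‖ ≤ 1 ↔ val R k x ≤ 1 := by
      let vd := valued R k
      let r1 : (Valued.v : Valuation k (WithZero (Multiplicative ℤ))).RankOne := rk R k
      exact Valued.toNormedField.norm_le_one_iff
    rw [h2]
    constructor
    · intro h
      exact IsDiscreteValuationRing.exists_lift_of_le_one h
    · rintro ⟨y, rfl⟩
      exact HeightOneSpectrum.valuation_le_one _ y
  · intro M hM r h0 h1 x hx hr
    exact @LdA_cpl k nn hu hp Ω _ _ _ M hM r h0 h1 x hx hr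

open Pool.Agent.Lib.MP_f80667_ag.LF IsLocalRing HeightOneSpectrum in
theorem LdA_ad (F : Type) [Field F] [NumberField F] (v : HeightOneSpectrum (𝓞 F)) :
    ∃ (L : Lf (v.adicCompletion F) (AlgebraicClosure (v.adicCompletion F))) (c : ℝ), 0 < c ∧
      c < 1 ∧
      (∀ (x : F) (n : ℤ), v.valuation F x = WithZero.exp (-n) →
        L.nm (algebraMap F _ x) = c ^ n) ∧
      (∀ x : v.adicCompletion F, x ≠ 0 → ∃ n : ℤ, L.nm (algebraMap _ _ x) = c ^ n) ∧
      ∀ M : IntermediateField (v.adicCompletion F) (AlgebraicClosure (v.adicCompletion F)),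
        FiniteDimensional (v.adicCompletion F) M → ∀ r : ℝ, 0 ≤ r → r < 1 →
        ∀ x : ℕ → AlgebraicClosure (v.adicCompletion F), (∀ n, x n ∈ M) →
        (∀ n, L.nm (x (n + 1) - x n) ≤ r ^ n) → ∃ y ∈ M, ∀ n, L.nm (y - x n) ≤ r ^ n := by
  obtain ⟨L, hL, hcpl⟩ := LdA_R (v.adicCompletionIntegers F) (v.adicCompletion F)
    (AlgebraicClosure (v.adicCompletion F))
  have hmem : ∀ x : v.adicCompletion F, L.nm (algebraMap _ _ x) ≤ 1 ↔
      Valued.v x ≤ (1 : WithZero (Multiplicative ℤ)) := by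
    intro x
    rw [hL, ← mem_adicCompletionIntegers]
    constructor
    · rintro ⟨y, rfl⟩
      exact y.2
    · intro h
      exact ⟨⟨x, h⟩, rfl⟩
  have hone : L.nm (1 : AlgebraicClosure (v.adicCompletion F)) = 1 := by
    have h := L.mul 1 1
    rw [mul_one] at h
    have h0 : L.nm (1 : AlgebraicClosure (v.adicCompletion F)) ≠ 0 := fun h' =>
      one_ne_zero ((L.zero_iff _).1 h')
    exact (mul_eq_left₀ h0).1 h.symm
  have hmul : ∀ x y : v.adicCompletion F, L.nm (algebraMap _ _ (x * y)) =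
      L.nm (algebraMap _ _ x) * L.nm (algebraMap _ _ y) := by
    intro x y
    rw [map_mul, L.mul]
  have hinv : ∀ x : v.adicCompletion F, x ≠ 0 →
      L.nm (algebraMap _ _ x) * L.nm (algebraMap _ _ x⁻¹) = 1 := by
    intro x hx
    rw [← hmul, mul_inv_cancel₀ hx, map_one, hone]
  have hunit : ∀ x : v.adicCompletion F, Valued.v x = (1 : WithZero (Multiplicative ℤ)) →
      L.nm (algebraMap _ _ x) = 1 := by
    intro x hx
    have hx0 : x ≠ 0 := by
      rintro rfl
      rw [map_zero] at hx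
      exact zero_ne_one hx
    have h1 := (hmem x).2 hx.le
    have h2 := (hmem x⁻¹).2 (by rw [map_inv₀, hx, inv_one])
    have h3 := hinv x hx0
    nlinarith [L.nonneg (algebraMap _ (AlgebraicClosure (v.adicCompletion F)) x),
      L.nonneg (algebraMap _ (AlgebraicClosure (v.adicCompletion F)) x⁻¹)]
  have hval : ∀ z : F, Valued.v (algebraMap F (v.adicCompletion F) z) = v.valuation F z :=
    fun z => valuedAdicCompletion_eq_valuation' v z
  obtain ⟨ϖ, hϖ⟩ := v.valuation_exists_uniformizer F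
  have hϖ' : Valued.v (algebraMap F (v.adicCompletion F) ϖ) =
      (WithZero.exp (-1) : WithZero (Multiplicative ℤ)) := by
    rw [hval]
    exact hϖ
  have hϖ0 : algebraMap F (v.adicCompletion F) ϖ ≠ 0 := by
    intro h
    rw [h, map_zero] at hϖ'
    exact WithZero.exp_ne_zero hϖ'.symm
  set c : ℝ := L.nm (algebraMap _ _ (algebraMap F (v.adicCompletion F) ϖ)) with hc
  have hc0 : 0 < c := by
    refine lt_of_le_of_ne (L.nonneg _) fun h => hϖ0 ?_
    have h1 := (L.zero_iff _).1 h.symm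
    rwa [map_eq_zero] at h1
  have hc1 : c < 1 := by
    have h1 : c ≤ 1 := (hmem _).2 (by
      rw [hϖ', ← WithZero.exp_zero, WithZero.exp_le_exp]
      norm_num)
    refine lt_of_le_of_ne h1 fun h => ?_
    have h3 := hinv _ hϖ0
    rw [← hc, h, one_mul] at h3
    have h4 := (hmem _).1 h3.le
    rw [map_inv₀, hϖ', ← WithZero.exp_neg, ← WithZero.exp_zero, WithZero.exp_le_exp] at h4
    norm_num at h4
  have hzp : ∀ n : ℤ, L.nm (algebraMap _ _ (algebraMap F (v.adicCompletion F) ϖ ^ n)) = c ^ n := by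
    have hnat : ∀ n : ℕ, L.nm (algebraMap _ _ (algebraMap F (v.adicCompletion F) ϖ ^ n)) =
        c ^ n := by
      intro n
      induction n with
      | zero => rw [pow_zero, pow_zero, map_one, hone]
      | succ n ih => rw [pow_succ, pow_succ, hmul, ih]
    intro n
    obtain ⟨m, rfl | rfl⟩ := n.eq_nat_or_neg
    · rw [zpow_natCast, zpow_natCast, hnat]
    · rw [zpow_neg, zpow_neg, zpow_natCast, zpow_natCast, ← hnat]
      exact eq_inv_of_mul_eq_one_right (hinv _ (pow_ne_zero m hϖ0))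
  have hkey : ∀ (x : v.adicCompletion F) (n : ℤ),
      Valued.v x = (WithZero.exp (-n) : WithZero (Multiplicative ℤ)) →
      L.nm (algebraMap _ _ x) = c ^ n := by
    intro x n hx
    have h1 : x = x * algebraMap F (v.adicCompletion F) ϖ ^ (-n) *
        algebraMap F (v.adicCompletion F) ϖ ^ n := by
      rw [mul_assoc, ← zpow_add₀ hϖ0, neg_add_cancel, zpow_zero, mul_one]
    rw [h1, hmul, hzp, hunit, one_mul]
    rw [map_mul, map_zpow₀, hx, hϖ', ← WithZero.exp_zsmul, ← WithZero.exp_add,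
      ← WithZero.exp_zero, WithZero.exp_inj]
    simp
  have h1 : ∀ (x : F) (n : ℤ), v.valuation F x = WithZero.exp (-n) →
      L.nm (algebraMap F _ x) = c ^ n := by
    intro x n hx
    rw [IsScalarTower.algebraMap_apply F (v.adicCompletion F) (AlgebraicClosure
      (v.adicCompletion F)) x]
    refine hkey _ n ?_
    rw [hval]
    exact hx
  refine ⟨L, c, hc0, hc1, h1, ?_, hcpl⟩
  intro x hx
  have h0 : (Valued.v x : WithZero (Multiplicative ℤ)) ≠ 0 := (Valuation.ne_zero_iff _).2 hx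
  refine ⟨-WithZero.log (Valued.v x : WithZero (Multiplicative ℤ)), hkey x _ ?_⟩
  rw [neg_neg, WithZero.exp_log h0]

theorem LdA_FK (F : Type) [Field F] [NumberField F] (v : HeightOneSpectrum (𝓞 F)) :
    ∃ (L : Lf (FK F v) (AlgebraicClosure (FK F v))) (c : ℝ), 0 < c ∧
      c < 1 ∧
      (∀ (x : F) (n : ℤ), v.valuation F x = WithZero.exp (-n) →
        L.nm (algebraMap F _ x) = c ^ n) ∧
      (∀ x : FK F v, x ≠ 0 → ∃ n : ℤ, L.nm (algebraMap _ _ x) = c ^ n) ∧
      ∀ M : IntermediateField (FK F v) (AlgebraicClosure (FK F v)),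
        FiniteDimensional (FK F v) M → ∀ r : ℝ, 0 ≤ r → r < 1 →
        ∀ x : ℕ → AlgebraicClosure (FK F v), (∀ n, x n ∈ M) →
        (∀ n, L.nm (x (n + 1) - x n) ≤ r ^ n) → ∃ y ∈ M, ∀ n, L.nm (y - x n) ≤ r ^ n := by
  exact LdA_ad F v

end PE
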