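import Pool.Agent.Lib.MP_f80667_ag.Pe.LdA

/-! Every finite place of a number field lies over a prime number. -/

open ZC BE Polynomial IntermediateField IsDedekindDomain NumberField

namespace PE

theorem ldG_mem (F : Type) [Field F] [NumberField F] (v : HeightOneSpectrum (𝓞 F)) :
    ∃ p : ℕ, p.Prime ∧ ((p : ℕ) : 𝓞 F) ∈ v.asIdeal := by
  classical
  have hex : ∃ n : ℕ, n ≠ 0 ∧ ((n : ℕ) : 𝓞 F) ∈ v.asIdeal :=
    ⟨Ideal.absNorm v.asIdeal, by
      rw [Ne, Ideal.absNorm_eq_zero_iff]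
      exact v.ne_bot, Ideal.absNorm_mem v.asIdeal⟩
  obtain ⟨h0, hm⟩ := Nat.find_spec hex
  set n := Nat.find hex with hn
  have hmin : ∀ k : ℕ, k ≠ 0 → ((k : ℕ) : 𝓞 F) ∈ v.asIdeal → n ≤ k := fun k h1 h2 =>
    Nat.find_min' hex ⟨h1, h2⟩
  have hn1 : n ≠ 1 := by
    intro h1
    rw [h1, Nat.cast_one] at hm
    exact v.isPrime.ne_top ((Ideal.eq_top_iff_one _).2 hm)
  have hp : n.minFac.Prime := Nat.minFac_prime hn1
  obtain ⟨k, hk⟩ := Nat.minFac_dvd n
  have hk0 : k ≠ 0 := by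
    rintro rfl
    rw [mul_zero] at hk
    exact h0 hk
  have hm' : ((n.minFac : ℕ) : 𝓞 F) * ((k : ℕ) : 𝓞 F) ∈ v.asIdeal := by
    rw [← Nat.cast_mul, ← hk]
    exact hm
  rcases v.isPrime.mem_or_mem hm' with h1 | h1
  · exact ⟨_, hp, h1⟩
  · exfalso
    have h2 := hmin k hk0 h1
    have h3 := hp.two_le
    have h4 : 0 < k := Nat.pos_of_ne_zero hk0
    have h5 : k * 2 ≤ n := by
      calc k * 2 = 2 * k := mul_comm _ _
        _ ≤ n.minFac * k := Nat.mul_le_mul_right k h3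
        _ = n := hk.symm
    omega

theorem ldG_val (F : Type) [Field F] [NumberField F] (v : HeightOneSpectrum (𝓞 F)) :
    ∃ (p : ℕ) (n : ℤ), p.Prime ∧ 0 < n ∧ v.valuation F (p : F) = WithZero.exp (-n) := by
  obtain ⟨p, hp, hm⟩ := ldG_mem F v
  have h1 : v.valuation F (algebraMap (𝓞 F) F ((p : ℕ) : 𝓞 F)) < 1 :=
    (HeightOneSpectrum.valuation_lt_one_iff_mem v _).2 hm
  rw [map_natCast] at h1
  have h0 : v.valuation F (p : F) ≠ 0 :=
    (Valuation.ne_zero_iff _).2 (Nat.cast_ne_zero.2 hp.ne_zero)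
  refine ⟨p, -WithZero.log (v.valuation F (p : F)), hp, ?_, ?_⟩
  · rw [← WithZero.exp_log h0, ← WithZero.exp_zero, WithZero.exp_lt_exp] at h1
    omega
  · rw [neg_neg, WithZero.exp_log h0]

end PE
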