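import Pool.Agent.Lib.MP_f80667_ag.Pe.RsB

/-! The reduction is additive: all cases. -/

open WeierstrassCurve

namespace PE

variable {L κ : Type} [Field L] [Field κ] {w : Rs L κ} {W : WeierstrassCurve L}
  {W' : WeierstrassCurve κ}

/-- **The reduction is additive.** Proof: `rs_add_int`, `rs_add_inf`; two points which reduce to `0`: `rs_fm` and `fg_add`. -/
theorem rs_add (hC : w.Cv W W') {P Q : Pn W} {P' Q' : Pn W'} (h : w.Red P P') (h' : w.Red Q Q') :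
    w.Red (P + Q) (P' + Q') := by
  rcases P.cases' with rfl | ⟨x₁, y₁, h₁, rfl⟩
  · rw [rs_red_zero_iff.1 h, zero_add, zero_add]
    exact h'
  rcases Q.cases' with rfl | ⟨x₂, y₂, h₂, rfl⟩
  · rw [rs_red_zero_iff.1 h', add_zero, add_zero]
    exact h
  rcases (rs_red_aff h₁).1 h with ⟨hx₁, rfl⟩ | ⟨r₁, s₁, g₁, hr₁, hs₁, rfl⟩
  · rcases (rs_red_aff h₂).1 h' with ⟨_, rfl⟩ | ⟨r₂, s₂, g₂, hr₂, hs₂, rfl⟩
    · rw [add_zero]
      exact (rs_fm hC).2 (fg_add hC.J ((rs_fm hC).1 h) ((rs_fm hC).1 h')).1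
    · rw [zero_add, add_comm]
      exact rs_add_inf hC h₂ h₁ g₂ hr₂ hs₂ hx₁
  · rcases (rs_red_aff h₂).1 h' with ⟨hx₂, rfl⟩ | ⟨r₂, s₂, g₂, hr₂, hs₂, rfl⟩
    · rw [add_zero]
      exact rs_add_inf hC h₁ h₂ g₁ hr₁ hs₁ hx₂
    · exact rs_add_int hC h₁ h₂ g₁ g₂ hr₁ hs₁ hr₂ hs₂

theorem rs_sub (hC : w.Cv W W') {P Q : Pn W} {P' Q' : Pn W'} (h : w.Red P P') (h' : w.Red Q Q') :
    w.Red (P - Q) (P' - Q') := by
  rw [sub_eq_add_neg, sub_eq_add_neg]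
  exact rs_add hC h (rs_neg hC h')

theorem rs_nsmul (hC : w.Cv W W') {P : Pn W} {P' : Pn W'} (h : w.Red P P') (n : ℕ) :
    w.Red (n • P) (n • P') := by
  induction n with
  | zero =>
    rw [zero_nsmul, zero_nsmul]
    exact rs_red_zero
  | succ n ih =>
    rw [succ_nsmul, succ_nsmul]
    exact rs_add hC ih h

end PE
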