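import Pool.Agent.Lib.MP_f80667_ag.Be.Fr
import Pool.Agent.Lib.MP_f80667_ag.Pe.Df
import Pool.Agent.Lib.MP_f80667_ag.Pe.LdA
import Pool.Agent.Lib.MP_f80667_ag.Pe.LdG
import Pool.Agent.Lib.MP_f80667_ag.Pe.RsM

/-!
Finite extensions `K` of `ℚ_p`: the absolute value of the algebraic closure `Ω`, its residue field.
-/

open ZC BE Polynomial IntermediateField

namespace PE

/-- The absolute value of the algebraic closure `Ω` of a finite extension `K` of `ℚ_p`. -/
structure Ld (K Ω : Type) [Field K] [Field Ω] [Algebra K Ω] extends Lf K Ω where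
  /-- the residue characteristic -/
  p : ℕ
  pp : p.Prime
  lt : nm (p : Ω) < 1
  /-- finite extensions of `K` are complete -/
  cpl : ∀ M : IntermediateField K Ω, FiniteDimensional K M → ∀ r : ℝ, 0 ≤ r → r < 1 →
    ∀ x : ℕ → Ω, (∀ n, x n ∈ M) → (∀ n, nm (x (n + 1) - x n) ≤ r ^ n) →
    ∃ y ∈ M, ∀ n, nm (y - x n) ≤ r ^ n

namespace Ld

variable {K Ω : Type} [Field K] [Field Ω] [Algebra K Ω] (L : Ld K Ω)

/-- `K` is unramified over `ℚ_p`: `p` is a uniformizer. -/
class Unr (L : Ld K Ω) : Prop where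
  out : ∀ x : K, x ≠ 0 → ∃ n : ℤ, L.nm (algebraMap K Ω x) = L.nm (L.p : Ω) ^ n

theorem unr [L.Unr] : ∀ x : K, x ≠ 0 → ∃ n : ℤ, L.nm (algebraMap K Ω x) = L.nm (L.p : Ω) ^ n :=
  Unr.out

theorem zero : L.nm 0 = 0 := (L.zero_iff 0).2 rfl

theorem p_pos [CharZero K] : 0 < L.nm (L.p : Ω) := by
  have : CharZero Ω := charZero_of_injective_algebraMap (algebraMap K Ω).injective
  exact L.pos (Nat.cast_ne_zero.2 L.pp.ne_zero)

/-- A number prime to `p` is a unit. -/
theorem nat_unit {n : ℕ} (h : ¬ L.p ∣ n) : L.nm (n : Ω) = 1 := by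
  have hc : IsCoprime (L.p : ℤ) (n : ℤ) := by
    rw [Nat.isCoprime_iff_coprime]
    exact (Nat.Prime.coprime_iff_not_dvd L.pp).2 h
  obtain ⟨a, b, hab⟩ := hc
  by_contra hne
  have hlt : L.nm (n : Ω) < 1 := lt_of_le_of_ne (L.nat_le n) hne
  have h1 : L.nm ((a : Ω) * (L.p : Ω) + (b : Ω) * (n : Ω)) = 1 := by
    have h0 : (a : Ω) * (L.p : Ω) + (b : Ω) * (n : Ω) = ((a * L.p + b * n : ℤ) : Ω) := by
      push_cast
      ring
    rw [h0, hab, Int.cast_one, L.one]
  have h2 := L.add ((a : Ω) * (L.p : Ω)) ((b : Ω) * (n : Ω))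
  rw [h1, L.mul, L.mul] at h2
  have h3 : L.nm (a : Ω) * L.nm (L.p : Ω) < 1 :=
    mul_lt_one_of_nonneg_of_lt_one_right (L.int_le a) (L.nonneg _) L.lt
  have h4 : L.nm (b : Ω) * L.nm (n : Ω) < 1 :=
    mul_lt_one_of_nonneg_of_lt_one_right (L.int_le b) (L.nonneg _) hlt
  exact absurd (max_lt h3 h4) (not_lt.2 h2)

/-- The valuation ring. -/
def V : ValuationSubring Ω where
  carrier := {x | L.nm x ≤ 1}
  mul_mem' {a b} ha hb := by
    simp only [Set.mem_ofPred_eq] at ha hb ⊢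
    rw [L.mul]
    exact mul_le_one₀ ha (L.nonneg _) hb
  one_mem' := L.one.le
  add_mem' {a b} ha hb := (L.add a b).trans (max_le ha hb)
  zero_mem' := by
    simp only [Set.mem_ofPred_eq]
    rw [L.zero]
    exact zero_le_one
  neg_mem' {a} ha := by
    simp only [Set.mem_ofPred_eq] at ha ⊢
    rwa [L.neg]
  mem_or_inv_mem' x := by
    simp only [Set.mem_ofPred_eq]
    rcases le_total (L.nm x) 1 with h | h
    · exact Or.inl h
    · right
      rw [L.inv]
      exact inv_le_one_of_one_le₀ h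

theorem mem_V {x : Ω} : x ∈ L.V ↔ L.nm x ≤ 1 := Iff.rfl

/-- The residue field. -/
abbrev κ : Type := IsLocalRing.ResidueField L.V

/-- The residue map. -/
noncomputable def rs : Rs Ω L.κ where
  V := L.V
  res := IsLocalRing.residue L.V
  res_zero x hx := by
    rw [IsLocalRing.residue_eq_zero_iff, IsLocalRing.mem_maximalIdeal]
    exact hx

theorem hv_zero {x : Ω} : L.rs.Hv x 0 ↔ L.nm x < 1 := by
  constructor
  · rintro ⟨h, h0⟩
    have h1 : L.nm x ≤ 1 := h
    refine lt_of_le_of_ne h1 fun he => ?_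
    have h2 : (⟨x, h⟩ : L.V) ∈ IsLocalRing.maximalIdeal L.V :=
      (IsLocalRing.residue_eq_zero_iff _).1 h0
    rw [IsLocalRing.mem_maximalIdeal, mem_nonunits_iff] at h2
    apply h2
    have hx : x ≠ 0 := L.ne_zero (by rw [he]; exact zero_lt_one)
    have h3 : x⁻¹ ∈ L.V := by
      rw [L.mem_V, L.inv, he, inv_one]
    exact IsUnit.of_mul_eq_one (⟨x⁻¹, h3⟩ : L.V) (Subtype.ext (mul_inv_cancel₀ hx))
  · intro h
    refine ⟨h.le, ?_⟩
    refine (IsLocalRing.residue_eq_zero_iff _).2 ?_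
    rw [IsLocalRing.mem_maximalIdeal, mem_nonunits_iff]
    rintro ⟨u, hu⟩
    have h1 : x * ((u⁻¹ : (L.V)ˣ) : L.V).1 = 1 := by
      have h4 := congrArg Subtype.val (Units.mul_inv u)
      rw [hu] at h4
      exact h4
    have h2 := congrArg L.nm h1
    rw [L.mul, L.one] at h2
    have h3 : L.nm ((u⁻¹ : (L.V)ˣ) : L.V).1 ≤ 1 := ((u⁻¹ : (L.V)ˣ) : L.V).2
    exact absurd h2 (mul_lt_one_of_nonneg_of_lt_one_left (L.nonneg _) h h3).ne

theorem hv_int {x : Ω} {r : L.κ} (h : L.rs.Hv x r) : L.nm x ≤ 1 := h.1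

theorem hv_of {x : Ω} (h : L.nm x ≤ 1) : ∃ r, L.rs.Hv x r := ⟨_, h, rfl⟩

theorem hv_ne {x : Ω} {r : L.κ} (h : L.rs.Hv x r) : r ≠ 0 ↔ L.nm x = 1 := by
  constructor
  · intro hr
    by_contra hne
    exact hr (h.uniq (L.hv_zero.2 (lt_of_le_of_ne (L.hv_int h) hne)))
  · rintro h1 rfl
    exact absurd h1 (L.hv_zero.1 h).ne

theorem hv_sub {x y : Ω} {r s : L.κ} (h : L.rs.Hv x r) (h' : L.rs.Hv y s) :
    r = s ↔ L.nm (x - y) < 1 := by
  rw [← L.hv_zero]
  constructor
  · rintro rfl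
    have h1 := h.sub h'
    rwa [sub_self] at h1
  · intro h1
    exact sub_eq_zero.1 ((h.sub h').uniq h1)

/-- Every residue is the residue of a number. -/
theorem hv_surj (r : L.κ) : ∃ x, L.rs.Hv x r := by
  obtain ⟨y, hy⟩ := IsLocalRing.residue_surjective (R := L.V) r
  exact ⟨y.1, y.2, hy⟩

/-- Proof: `p` has value `0`. -/
theorem char_κ : CharP L.κ L.p := by
  refine ⟨fun n => ⟨fun h => ?_, ?_⟩⟩
  · by_contra hn
    have h1 : L.rs.Hv (n : Ω) ((n : L.κ)) := Rs.Hv.nat n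
    exact (L.hv_ne h1).2 (L.nat_unit hn) h
  · rintro ⟨k, rfl⟩
    have h1 : ((L.p : ℕ) : L.κ) = 0 := (Rs.Hv.nat (w := L.rs) L.p).uniq (L.hv_zero.2 L.lt)
    rw [Nat.cast_mul, h1, zero_mul]

/-- Proof: a monic polynomial over the residue field lifts to a monic polynomial with integral coefficients; its roots
are integral (`root_le`). -/
theorem κ_closed [IsAlgClosed Ω] : IsAlgClosed L.κ := by
  refine IsAlgClosed.of_exists_root _ fun f hm hirr => ?_
  obtain ⟨q0, hq0⟩ := Polynomial.map_surjective (IsLocalRing.residue L.V)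
    IsLocalRing.residue_surjective f
  obtain ⟨q, hq, hdeg, hqm⟩ := Polynomial.lifts_and_natDegree_eq_and_monic
    ((Polynomial.mem_lifts f).2 ⟨q0, hq0⟩) hm
  have hm2 : (q.map (algebraMap L.V Ω)).Monic := hqm.map _
  have hd : 0 < (q.map (algebraMap L.V Ω)).degree := by
    rw [← Polynomial.natDegree_pos_iff_degree_pos, hqm.natDegree_map, hdeg]
    exact hirr.natDegree_pos
  obtain ⟨x, hx⟩ := IsAlgClosed.exists_root (q.map (algebraMap L.V Ω)) hd.ne'
  have hx' : (q.map (algebraMap L.V Ω)).eval x = 0 := hx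
  have hc : ∀ i, L.nm ((q.map (algebraMap L.V Ω)).coeff i) ≤ 1 := fun i => by
    rw [coeff_map]
    exact (q.coeff i).2
  have hx1 : x ∈ L.V := L.root_le hm2 hc hx'
  refine ⟨IsLocalRing.residue L.V ⟨x, hx1⟩, ?_⟩
  rw [← hq, Polynomial.eval_map, Polynomial.eval₂_at_apply]
  have h0 : q.eval (⟨x, hx1⟩ : L.V) = 0 := by
    have hinj : Function.Injective (algebraMap L.V Ω) := fun a b hab => Subtype.ext hab
    apply hinj
    rw [map_zero, ← Polynomial.eval₂_at_apply, ← Polynomial.eval_map]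
    exact hx'
  rw [h0, map_zero]

/-- The valuation ring with its maximal ideal. -/
noncomputable def jr : Jr Ω := L.rs.J

theorem mem_jV {x : Ω} : x ∈ L.jr.V ↔ L.nm x ≤ 1 := Iff.rfl

theorem mem_jm {x : Ω} : x ∈ L.jr.m ↔ L.nm x < 1 := L.hv_zero

/-- The residue (`0` if `x` is not integral). -/
noncomputable def rr (x : Ω) : L.κ := by
  classical
  exact if h : x ∈ L.V then IsLocalRing.residue L.V ⟨x, h⟩ else 0

theorem hv_rr {x : Ω} (h : L.nm x ≤ 1) : L.rs.Hv x (L.rr x) := by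
  have h' : x ∈ L.V := h
  refine ⟨h', ?_⟩
  unfold rr
  rw [dif_pos h']
  rfl

end Ld

/-- **Existence.** Proof: as `exists_lf` in `Be/LfE.lean` (`LfE_ad` with `LfE_R`, `LfE_lf`); the absolute value is the spectral norm over a complete
field `k`. `Unr`: `nm x = c ^ n`, and `c = nm p` by the hypothesis. `cpl`: a finite extension with the spectral norm is complete
(finite dimensional normed space over a complete field). -/
theorem exists_ld (F : Type) [Field F] [NumberField F]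
    (v : IsDedekindDomain.HeightOneSpectrum (NumberField.RingOfIntegers F)) (p : ℕ) (hp : p.Prime)
    (hv : v.valuation F (p : F) = WithZero.exp (-1 : ℤ)) :
    ∃ L : Ld (FK F v) (AlgebraicClosure (FK F v)), L.Unr ∧ L.p = p ∧
      ∀ (x : F) (n : ℤ), v.valuation F x = WithZero.exp (-n) →
        L.nm (algebraMap F _ x) = L.nm (L.p : AlgebraicClosure (FK F v)) ^ n := by
  obtain ⟨L, c, hc0, hc1, h1, h2, h3⟩ := LdA_FK F v
  have hpc : L.nm (p : AlgebraicClosure (FK F v)) = c := by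
    have h := h1 (p : F) 1 hv
    rw [map_natCast, zpow_one] at h
    exact h
  have hlt : L.nm (p : AlgebraicClosure (FK F v)) < 1 := by
    rw [hpc]
    exact hc1
  refine ⟨{ L with p := p, pp := hp, lt := hlt, cpl := h3 }, ⟨?_⟩, rfl, ?_⟩
  · intro x hx
    change ∃ n : ℤ, L.nm _ = L.nm (p : AlgebraicClosure (FK F v)) ^ n
    rw [hpc]
    exact h2 x hx
  · intro x n hx
    change L.nm _ = L.nm (p : AlgebraicClosure (FK F v)) ^ n
    rw [hpc]
    exact h1 x n hx

/-- The general case: `c` is the norm of a uniformizer. -/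
theorem exists_ldg (F : Type) [Field F] [NumberField F]
    (v : IsDedekindDomain.HeightOneSpectrum (NumberField.RingOfIntegers F)) :
    ∃ (L : Ld (FK F v) (AlgebraicClosure (FK F v))) (c : ℝ), 0 < c ∧ c < 1 ∧
      ∀ (x : F) (n : ℤ), v.valuation F x = WithZero.exp (-n) → L.nm (algebraMap F _ x) = c ^ n := by
  obtain ⟨L, c, hc0, hc1, h1, h2, h3⟩ := LdA_FK F v
  obtain ⟨p, n, hp, hn, hv⟩ := ldG_val F v
  have hpc : L.nm (p : AlgebraicClosure (FK F v)) = c ^ n := by
    have h := h1 (p : F) n hv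
    rw [map_natCast] at h
    exact h
  have hlt : L.nm (p : AlgebraicClosure (FK F v)) < 1 := by
    rw [hpc]
    exact zpow_lt_one₀ hc0 hc1 hn
  exact ⟨{ L with p := p, pp := hp, lt := hlt, cpl := h3 }, c, hc0, hc1, h1⟩

end PE
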