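import Pool.Agent.Lib.MP_f80667_ag.Pe.Df
import Pool.Agent.Lib.MP_f80667_ag.Be.Gal

/-! Norms from `N` to `M`. -/

open ZC BE Polynomial IntermediateField

namespace PE

variable {K Ω : Type} [Field K] [CharZero K] [Field Ω] [Algebra K Ω] [IsAlgClosure K Ω]
  {A : Type} [AddCommGroup A] [DistribMulAction (Ω ≃ₐ[K] Ω) A]

theorem Fx.add {M : IntermediateField K Ω} {P Q : A} (hP : Fx M P) (hQ : Fx M Q) :
    Fx M (P + Q) := fun γ hγ => by rw [smul_add, hP γ hγ, hQ γ hγ]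

theorem Fx.neg {M : IntermediateField K Ω} {P : A} (hP : Fx M P) : Fx M (-P) :=
  fun γ hγ => by rw [smul_neg, hP γ hγ]

theorem Fx.sub {M : IntermediateField K Ω} {P Q : A} (hP : Fx M P) (hQ : Fx M Q) :
    Fx M (P - Q) := fun γ hγ => by rw [smul_sub, hP γ hγ, hQ γ hγ]

theorem Fx.zero {M : IntermediateField K Ω} : Fx M (0 : A) := fun _ _ => smul_zero _

theorem Fx.nsmul {M : IntermediateField K Ω} {P : A} (hP : Fx M P) (n : ℕ) : Fx M (n • P) :=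
  fun γ hγ => by rw [smul_comm, hP γ hγ]

theorem Fx.mono {M N : IntermediateField K Ω} (h : M ≤ N) {P : A} (hP : Fx M P) : Fx N P :=
  fun γ hγ => hP γ (fix_le h hγ)

theorem Fx.sum {M : IntermediateField K Ω} {ι : Type} (s : Finset ι) {P : ι → A}
    (hP : ∀ i ∈ s, Fx M (P i)) : Fx M (∑ i ∈ s, P i) :=
  fun γ hγ => by rw [Finset.smul_sum]; exact Finset.sum_congr rfl fun i hi => hP i hi γ hγ

theorem fx_mem {M : IntermediateField K Ω} {x : Ω} : Fx M x ↔ x ∈ M := by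
  constructor
  · intro h
    exact mem_of_fix M fun γ hγ => h γ hγ
  · intro h γ hγ
    exact (IntermediateField.mem_fixingSubgroup_iff M γ).1 hγ x h

/-- The norm as a finite sum: distinct representatives of the cosets. -/
theorem nm_rep {M N : IntermediateField K Ω} (h : M ≤ N) [FiniteDimensional K N] :
    ∃ s : Finset (Ω ≃ₐ[K] Ω), s.card = N.fixingSubgroup.relIndex M.fixingSubgroup ∧
      (∀ γ ∈ s, γ ∈ M.fixingSubgroup) ∧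
      (∀ γ ∈ M.fixingSubgroup, ∃! δ, δ ∈ s ∧ δ⁻¹ * γ ∈ N.fixingSubgroup) ∧
      ∀ (A : Type) [AddCommGroup A] [DistribMulAction (Ω ≃ₐ[K] Ω) A] (P : A),
        Nm M N P = ∑ γ ∈ s, γ • P := by
  classical
  have hri : N.fixingSubgroup.relIndex M.fixingSubgroup ≠ 0 := by
    intro h0
    have h1 := relIndex_fix h
    rw [h0, zero_mul] at h1
    exact (Module.finrank_pos (R := K) (M := N)).ne h1
  have hfi : (N.fixingSubgroup.subgroupOf M.fixingSubgroup).FiniteIndex := ⟨hri⟩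
  have hfin : Finite (M.fixingSubgroup ⧸ N.fixingSubgroup.subgroupOf M.fixingSubgroup) :=
    Subgroup.finite_quotient_of_finiteIndex
  let _ : Fintype (M.fixingSubgroup ⧸ N.fixingSubgroup.subgroupOf M.fixingSubgroup) :=
    Fintype.ofFinite _
  let φ : (M.fixingSubgroup ⧸ N.fixingSubgroup.subgroupOf M.fixingSubgroup) →
      (Ω ≃ₐ[K] Ω) := fun q => ((q.out : M.fixingSubgroup) : Ω ≃ₐ[K] Ω)
  have hout : ∀ q : M.fixingSubgroup ⧸ N.fixingSubgroup.subgroupOf M.fixingSubgroup,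
      ((q.out : M.fixingSubgroup) :
        M.fixingSubgroup ⧸ N.fixingSubgroup.subgroupOf M.fixingSubgroup) = q := fun q =>
    QuotientGroup.out_eq' q
  have hφ : Function.Injective φ := by
    intro q q' hq
    rw [← hout q, ← hout q', Subtype.ext hq]
  have hmem : ∀ γ, γ ∈ Finset.univ.map ⟨φ, hφ⟩ ↔ ∃ q, φ q = γ := by
    intro γ
    simp
  refine ⟨Finset.univ.map ⟨φ, hφ⟩, ?_, ?_, ?_, ?_⟩
  · rw [Finset.card_map, Finset.card_univ, ← Nat.card_eq_fintype_card]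
    rfl
  · intro γ hγ
    obtain ⟨q, rfl⟩ := (hmem γ).1 hγ
    exact (q.out : M.fixingSubgroup).2
  · intro γ hγ
    have hq : ∀ q : M.fixingSubgroup ⧸ N.fixingSubgroup.subgroupOf M.fixingSubgroup,
        (φ q)⁻¹ * γ ∈ N.fixingSubgroup ↔ q = ((⟨γ, hγ⟩ : M.fixingSubgroup) :
          M.fixingSubgroup ⧸ N.fixingSubgroup.subgroupOf M.fixingSubgroup) := by
      intro q
      conv_rhs => rw [← hout q]
      rw [QuotientGroup.eq, Subgroup.mem_subgroupOf]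
      rfl
    refine ⟨φ ((⟨γ, hγ⟩ : M.fixingSubgroup) :
          M.fixingSubgroup ⧸ N.fixingSubgroup.subgroupOf M.fixingSubgroup),
      ⟨(hmem _).2 ⟨_, rfl⟩, (hq _).2 rfl⟩, ?_⟩
    rintro δ ⟨h₁, h₂⟩
    obtain ⟨q, rfl⟩ := (hmem δ).1 h₁
    rw [(hq q).1 h₂]
  · intro A _ _ P
    rw [Nm, finsum_eq_sum_of_fintype, Finset.sum_map]
    rfl

/-- The norm with any representatives. -/
theorem nm_eq {M N : IntermediateField K Ω} (h : M ≤ N) [FiniteDimensional K N]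
    (s : Finset (Ω ≃ₐ[K] Ω)) (h₁ : ∀ γ ∈ s, γ ∈ M.fixingSubgroup)
    (h₂ : ∀ γ ∈ M.fixingSubgroup, ∃! δ, δ ∈ s ∧ δ⁻¹ * γ ∈ N.fixingSubgroup) {P : A}
    (hP : Fx N P) : Nm M N P = ∑ γ ∈ s, γ • P := by
  obtain ⟨s', -, h₁', h₂', h₃'⟩ := nm_rep h
  rw [h₃' A P]
  refine Finset.sum_bij (fun γ hγ => (h₂ γ (h₁' γ hγ)).choose) ?_ ?_ ?_ ?_
  · intro γ hγ
    exact (h₂ γ (h₁' γ hγ)).choose_spec.1.1
  · intro γ hγ γ' hγ' heq
    have e₁ := (h₂ γ (h₁' γ hγ)).choose_spec.1.2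
    have e₂ := (h₂ γ' (h₁' γ' hγ')).choose_spec.1.2
    dsimp only at heq
    rw [heq] at e₁
    have e₃ : γ⁻¹ * γ' ∈ N.fixingSubgroup := by
      have e₄ := N.fixingSubgroup.mul_mem (N.fixingSubgroup.inv_mem e₁) e₂
      have e₅ : ((h₂ γ' (h₁' γ' hγ')).choose⁻¹ * γ)⁻¹ *
          ((h₂ γ' (h₁' γ' hγ')).choose⁻¹ * γ') = γ⁻¹ * γ' := by group
      rwa [e₅] at e₄
    have e₆ : γ'⁻¹ * γ' ∈ N.fixingSubgroup := by
      rw [inv_mul_cancel]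
      exact N.fixingSubgroup.one_mem
    exact (h₂' γ' (h₁' γ' hγ')).unique ⟨hγ, e₃⟩ ⟨hγ', e₆⟩
  · intro δ hδ
    obtain ⟨γ, ⟨hγ, e₁⟩, -⟩ := h₂' δ (h₁ δ hδ)
    refine ⟨γ, hγ, ?_⟩
    have e₂ := (h₂ γ (h₁' γ hγ)).choose_spec.1
    have e₃ : δ⁻¹ * γ ∈ N.fixingSubgroup := by
      have e₄ := N.fixingSubgroup.inv_mem e₁
      have e₅ : (γ⁻¹ * δ)⁻¹ = δ⁻¹ * γ := by group
      rwa [e₅] at e₄
    exact (h₂ γ (h₁' γ hγ)).unique e₂ ⟨hδ, e₃⟩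
  · intro γ hγ
    have e₁ := (h₂ γ (h₁' γ hγ)).choose_spec.1.2
    have e₂ := hP _ e₁
    rw [mul_smul, inv_smul_eq_iff] at e₂
    exact e₂

theorem nm_add {M N : IntermediateField K Ω} (h : M ≤ N) [FiniteDimensional K N] (P Q : A) :
    Nm M N (P + Q) = Nm M N P + Nm M N Q := by
  obtain ⟨s, -, -, -, h₃⟩ := nm_rep h
  rw [h₃, h₃, h₃, ← Finset.sum_add_distrib]
  exact Finset.sum_congr rfl fun γ _ => smul_add γ P Q

theorem nm_nsmul {M N : IntermediateField K Ω} (h : M ≤ N) [FiniteDimensional K N] (P : A)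
    (n : ℕ) : Nm M N (n • P) = n • Nm M N P := by
  obtain ⟨s, -, -, -, h₃⟩ := nm_rep h
  rw [h₃, h₃, Finset.smul_sum]
  exact Finset.sum_congr rfl fun γ _ => smul_comm γ n P

theorem nm_fx {M N : IntermediateField K Ω} (h : M ≤ N) [FiniteDimensional K N] {P : A}
    (hP : Fx N P) : Fx M (Nm M N P) := by
  intro γ hγ
  obtain ⟨s, -, h₁, h₂, h₃⟩ := nm_rep h
  have h₄ : Nm M N P = ∑ δ ∈ s.map (Equiv.mulLeft γ).toEmbedding, δ • P := by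
    refine nm_eq h _ ?_ ?_ hP
    · intro δ hδ
      obtain ⟨δ', hδ', rfl⟩ := Finset.mem_map.1 hδ
      exact M.fixingSubgroup.mul_mem hγ (h₁ δ' hδ')
    · intro x hx
      obtain ⟨δ, ⟨hδ, e₁⟩, huniq⟩ :=
        h₂ (γ⁻¹ * x) (M.fixingSubgroup.mul_mem (M.fixingSubgroup.inv_mem hγ) hx)
      refine ⟨γ * δ, ⟨Finset.mem_map.2 ⟨δ, hδ, rfl⟩, ?_⟩, ?_⟩
      · have e₂ : (γ * δ)⁻¹ * x = δ⁻¹ * (γ⁻¹ * x) := by group
        rw [e₂]
        exact e₁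
      · rintro y ⟨hy, hy'⟩
        obtain ⟨δ', hδ', rfl⟩ := Finset.mem_map.1 hy
        have e₃ : (γ * δ')⁻¹ * x = δ'⁻¹ * (γ⁻¹ * x) := by group
        have e₄ : δ'⁻¹ * (γ⁻¹ * x) ∈ N.fixingSubgroup := by
          rw [← e₃]
          exact hy'
        have e₅ := huniq δ' ⟨hδ', e₄⟩
        rw [e₅]
        rfl
  conv_rhs => rw [h₄]
  rw [h₃ A P, Finset.sum_map, Finset.smul_sum]
  exact Finset.sum_congr rfl fun δ _ => (mul_smul γ δ P).symm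

/-- Transitivity. -/
theorem nm_tr {M N U : IntermediateField K Ω} (h : M ≤ N) (h' : N ≤ U) [FiniteDimensional K U]
    {P : A} (hP : Fx U P) : Nm M U P = Nm M N (Nm N U P) := by
  classical
  have : FiniteDimensional K N :=
    FiniteDimensional.of_injective (IntermediateField.inclusion h').toLinearMap
      (IntermediateField.inclusion_injective h')
  obtain ⟨s, -, h₁, h₂, h₃⟩ := nm_rep h
  obtain ⟨s', -, h₁', h₂', h₃'⟩ := nm_rep h'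
  have huN : ∀ {γ γ' δ δ' x : Ω ≃ₐ[K] Ω}, x ∈ M.fixingSubgroup → γ ∈ s → γ' ∈ s → δ ∈ s' →
      δ' ∈ s' → (γ * δ)⁻¹ * x ∈ U.fixingSubgroup → (γ' * δ')⁻¹ * x ∈ U.fixingSubgroup →
      γ = γ' ∧ δ = δ' := by
    intro γ γ' δ δ' x hx hγ hγ' hδ hδ' e₁ e₂
    have key : ∀ {γ δ : Ω ≃ₐ[K] Ω}, δ ∈ s' → (γ * δ)⁻¹ * x ∈ U.fixingSubgroup →
        δ⁻¹ * (γ⁻¹ * x) ∈ U.fixingSubgroup ∧ γ⁻¹ * x ∈ N.fixingSubgroup := by
      intro γ δ hδ e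
      have e₃ : (γ * δ)⁻¹ * x = δ⁻¹ * (γ⁻¹ * x) := by group
      rw [e₃] at e
      refine ⟨e, ?_⟩
      have e₄ := N.fixingSubgroup.mul_mem (h₁' δ hδ) (fix_le h' e)
      rwa [mul_inv_cancel_left] at e₄
    obtain ⟨a₁, a₂⟩ := key hδ e₁
    obtain ⟨b₁, b₂⟩ := key hδ' e₂
    have hγγ : γ = γ' := (h₂ x hx).unique ⟨hγ, a₂⟩ ⟨hγ', b₂⟩
    subst hγγ
    exact ⟨rfl, (h₂' _ a₂).unique ⟨hδ, a₁⟩ ⟨hδ', b₁⟩⟩
  have hinj : Set.InjOn (fun q : (Ω ≃ₐ[K] Ω) × (Ω ≃ₐ[K] Ω) => q.1 * q.2)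
      (s ×ˢ s' : Finset ((Ω ≃ₐ[K] Ω) × (Ω ≃ₐ[K] Ω))) := by
    rintro ⟨γ, δ⟩ hq ⟨γ', δ'⟩ hq' heq
    rw [Finset.mem_coe, Finset.mem_product] at hq hq'
    dsimp only at heq hq hq'
    have hx : γ * δ ∈ M.fixingSubgroup :=
      M.fixingSubgroup.mul_mem (h₁ γ hq.1) (fix_le h (h₁' δ hq.2))
    have e₁ : (γ * δ)⁻¹ * (γ * δ) ∈ U.fixingSubgroup := by
      rw [inv_mul_cancel]
      exact U.fixingSubgroup.one_mem
    have e₂ : (γ' * δ')⁻¹ * (γ * δ) ∈ U.fixingSubgroup := by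
      rw [heq, inv_mul_cancel]
      exact U.fixingSubgroup.one_mem
    obtain ⟨r₁, r₂⟩ := huN hx hq.1 hq'.1 hq.2 hq'.2 e₁ e₂
    rw [r₁, r₂]
  have h₄ : Nm M U P = ∑ x ∈ (s ×ˢ s').image fun q => q.1 * q.2, x • P := by
    refine nm_eq (h.trans h') _ ?_ ?_ hP
    · intro x hx
      obtain ⟨⟨γ, δ⟩, hq, rfl⟩ := Finset.mem_image.1 hx
      rw [Finset.mem_product] at hq
      exact M.fixingSubgroup.mul_mem (h₁ γ hq.1) (fix_le h (h₁' δ hq.2))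
    · intro x hx
      obtain ⟨γ, ⟨hγ, e₁⟩, -⟩ := h₂ x hx
      obtain ⟨δ, ⟨hδ, e₂⟩, -⟩ := h₂' _ e₁
      have e₃ : (γ * δ)⁻¹ * x = δ⁻¹ * (γ⁻¹ * x) := by group
      have e₄ : (γ * δ)⁻¹ * x ∈ U.fixingSubgroup := by
        rw [e₃]
        exact e₂
      refine ⟨γ * δ, ⟨Finset.mem_image.2 ⟨(γ, δ), Finset.mem_product.2 ⟨hγ, hδ⟩, rfl⟩, e₄⟩, ?_⟩
      rintro y ⟨hy, hy'⟩
      obtain ⟨⟨γ', δ'⟩, hq, rfl⟩ := Finset.mem_image.1 hy
      rw [Finset.mem_product] at hq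
      obtain ⟨r₁, r₂⟩ := huN hx hq.1 hγ hq.2 hδ hy' e₄
      dsimp only at r₁ r₂ ⊢
      rw [r₁, r₂]
  rw [h₄, Finset.sum_image hinj, Finset.sum_product, h₃ A, h₃' A]
  refine Finset.sum_congr rfl fun γ _ => ?_
  rw [Finset.smul_sum]
  exact Finset.sum_congr rfl fun δ _ => mul_smul γ δ P

theorem nm_const {M N : IntermediateField K Ω} (h : M ≤ N) [FiniteDimensional K N] {P : A}
    (hP : Fx M P) : Nm M N P = N.fixingSubgroup.relIndex M.fixingSubgroup • P := by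
  obtain ⟨s, h₀, h₁, -, h₃⟩ := nm_rep h
  rw [h₃ A P, ← h₀, ← Finset.sum_const]
  exact Finset.sum_congr rfl fun γ hγ => hP γ (h₁ γ hγ)

/-- The norm as the sum of the conjugates, if `N` is the field of `P` over `M`. -/
theorem nm_conj {M N : IntermediateField K Ω} (h : M ≤ N) [FiniteDimensional K N] {P : A}
    (hP : ∀ γ ∈ M.fixingSubgroup, γ • P = P ↔ γ ∈ N.fixingSubgroup) (s : Finset A)
    (hs : ∀ Q, Q ∈ s ↔ ∃ γ ∈ M.fixingSubgroup, Q = γ • P) : Nm M N P = ∑ Q ∈ s, Q := by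
  obtain ⟨s₀, -, h₁, h₂, h₃⟩ := nm_rep h
  rw [h₃ A P]
  refine Finset.sum_bij (fun γ _ => γ • P) ?_ ?_ ?_ ?_
  · intro γ hγ
    exact (hs _).2 ⟨γ, h₁ γ hγ, rfl⟩
  · intro γ hγ γ' hγ' heq
    have e₁ : (γ⁻¹ * γ') • P = P := by
      rw [mul_smul, ← heq, inv_smul_smul]
    have e₂ := (hP _ (M.fixingSubgroup.mul_mem (M.fixingSubgroup.inv_mem (h₁ γ hγ))
      (h₁ γ' hγ'))).1 e₁
    have e₃ : γ'⁻¹ * γ' ∈ N.fixingSubgroup := by
      rw [inv_mul_cancel]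
      exact N.fixingSubgroup.one_mem
    exact (h₂ γ' (h₁ γ' hγ')).unique ⟨hγ, e₂⟩ ⟨hγ', e₃⟩
  · intro Q hQ
    obtain ⟨γ, hγ, rfl⟩ := (hs Q).1 hQ
    obtain ⟨δ, ⟨hδ, e₁⟩, -⟩ := h₂ γ hγ
    refine ⟨δ, hδ, ?_⟩
    have e₂ := (hP _ (fix_le h e₁)).2 e₁
    rw [mul_smul, inv_smul_eq_iff] at e₂
    exact e₂.symm
  · intro γ _
    rfl

end PE
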