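import Pool.Agent.Lib.MP_f80667_ag.Pe.Df
import Pool.Agent.Lib.MP_f80667_ag.Pe.NmL

/-! The calculus of the symbols which are multiples of `l`. -/

open ZC BE Polynomial IntermediateField

namespace PE

namespace Sc

variable {K Ω : Type} [Field K] [CharZero K] [Field Ω] [Algebra K Ω] [IsAlgClosure K Ω]
  {A B G : Type} [AddCommGroup A] [AddCommGroup B] [AddCommGroup G]
  [DistribMulAction (Ω ≃ₐ[K] Ω) A] [DistribMulAction (Ω ≃ₐ[K] Ω) B] (S : Sc K Ω A B G) {l : ℕ}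
  {M N : IntermediateField K Ω}

theorem sy_mem (M : IntermediateField K Ω) [FiniteDimensional K M] {P : A} {Q : B} (hP : Fx M P)
    (hQ : Fx M Q) : S.sy M P Q ∈ S.T :=
  AddSubgroup.subset_closure ⟨M, P, Q, inferInstance, hP, hQ, rfl⟩

variable {S}

private theorem sy_nsmul₁ [FiniteDimensional K M] {P : A} {Q : B} (hP : Fx M P) (hQ : Fx M Q)
    (n : ℕ) : S.sy M (n • P) Q = n • S.sy M P Q := by
  induction n with
  | zero =>
    have h1 := S.add₁ M 0 0 Q Fx.zero Fx.zero hQ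
    rw [zero_nsmul, zero_nsmul]
    rw [add_zero] at h1
    exact left_eq_add.1 h1
  | succ n ih => rw [succ_nsmul, S.add₁ M _ _ Q (hP.nsmul n) hP hQ, ih, succ_nsmul]

private theorem sy_nsmul₂ [FiniteDimensional K M] {P : A} {Q : B} (hP : Fx M P) (hQ : Fx M Q)
    (n : ℕ) : S.sy M P (n • Q) = n • S.sy M P Q := by
  induction n with
  | zero =>
    have h1 := S.add₂ M P 0 0 hP Fx.zero Fx.zero
    rw [zero_nsmul, zero_nsmul]
    rw [add_zero] at h1
    exact left_eq_add.1 h1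
  | succ n ih => rw [succ_nsmul, S.add₂ M P _ _ hP (hQ.nsmul n) hQ, ih, succ_nsmul]

theorem z_swap {P : A} {Q : B} : S.swap.Z l M Q P ↔ S.Z l M P Q := by
  have hT : S.swap.T = S.T := by
    unfold T
    congr 1
    ext x
    constructor
    · rintro ⟨M, Q, P, h1, h2, h3, h4⟩
      exact ⟨M, P, Q, h1, h3, h2, h4⟩
    · rintro ⟨M, P, Q, h1, h2, h3, h4⟩
      exact ⟨M, Q, P, h1, h3, h2, h4⟩
  unfold Z
  rw [hT]
  rfl

theorem z_add₁ [FiniteDimensional K M] {P P' : A} {Q : B} (hP : Fx M P) (hP' : Fx M P')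
    (hQ : Fx M Q) (h : S.Z l M P Q) (h' : S.Z l M P' Q) : S.Z l M (P + P') Q := by
  obtain ⟨x, hx, e⟩ := h
  obtain ⟨x', hx', e'⟩ := h'
  exact ⟨x + x', S.T.add_mem hx hx', by rw [S.add₁ M P P' Q hP hP' hQ, e, e', nsmul_add]⟩

theorem z_add₂ [FiniteDimensional K M] {P : A} {Q Q' : B} (hP : Fx M P) (hQ : Fx M Q)
    (hQ' : Fx M Q') (h : S.Z l M P Q) (h' : S.Z l M P Q') : S.Z l M P (Q + Q') := by
  obtain ⟨x, hx, e⟩ := h
  obtain ⟨x', hx', e'⟩ := h'
  exact ⟨x + x', S.T.add_mem hx hx', by rw [S.add₂ M P Q Q' hP hQ hQ', e, e', nsmul_add]⟩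

theorem z_sub₁ [FiniteDimensional K M] {P P' : A} {Q : B} (hP : Fx M P) (hP' : Fx M P')
    (hQ : Fx M Q) (h : S.Z l M P Q) (h' : S.Z l M P' Q) : S.Z l M (P - P') Q := by
  obtain ⟨x, hx, e⟩ := h
  obtain ⟨x', hx', e'⟩ := h'
  refine ⟨x - x', S.T.sub_mem hx hx', ?_⟩
  have h1 := S.add₁ M (P - P') P' Q (hP.sub hP') hP' hQ
  rw [sub_add_cancel] at h1
  rw [nsmul_sub, ← e, ← e', h1, add_sub_cancel_right]

theorem z_sub₂ [FiniteDimensional K M] {P : A} {Q Q' : B} (hP : Fx M P) (hQ : Fx M Q)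
    (hQ' : Fx M Q') (h : S.Z l M P Q) (h' : S.Z l M P Q') : S.Z l M P (Q - Q') := by
  obtain ⟨x, hx, e⟩ := h
  obtain ⟨x', hx', e'⟩ := h'
  refine ⟨x - x', S.T.sub_mem hx hx', ?_⟩
  have h1 := S.add₂ M P (Q - Q') Q' hP (hQ.sub hQ') hQ'
  rw [sub_add_cancel] at h1
  rw [nsmul_sub, ← e, ← e', h1, add_sub_cancel_right]

theorem z_mul₁ [FiniteDimensional K M] {P : A} {Q : B} (hP : Fx M P) (hQ : Fx M Q) :
    S.Z l M (l • P) Q := by
  exact ⟨S.sy M P Q, sy_mem S M hP hQ, sy_nsmul₁ hP hQ l⟩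

theorem z_mul₂ [FiniteDimensional K M] {P : A} {Q : B} (hP : Fx M P) (hQ : Fx M Q) :
    S.Z l M P (l • Q) := by
  exact ⟨S.sy M P Q, sy_mem S M hP hQ, sy_nsmul₂ hP hQ l⟩

theorem z_nm₁ (h : M ≤ N) [FiniteDimensional K N] {P : A} {Q : B} (hP : Fx N P) (hQ : Fx M Q) :
    S.Z l M (Nm M N P) Q ↔ S.Z l N P Q := by
  unfold Z
  rw [← S.nm₁ M N P Q h hP hQ]

theorem z_nm₂ (h : M ≤ N) [FiniteDimensional K N] {P : A} {Q : B} (hP : Fx M P) (hQ : Fx N Q) :
    S.Z l M P (Nm M N Q) ↔ S.Z l N P Q := by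
  unfold Z
  rw [← S.nm₂ M N P Q h hP hQ]

/-- Extensions of degree prime to `l`. Proof: `nm_const`; `n x ∈ l T` and `x ∈ T` imply `x ∈ l T`. -/
theorem z_cop (h : M ≤ N) [FiniteDimensional K N] {P : A} {Q : B} (hP : Fx M P) (hQ : Fx M Q)
    (hc : (N.fixingSubgroup.relIndex M.fixingSubgroup).Coprime l) (hz : S.Z l N P Q) :
    S.Z l M P Q := by
  have hM : FiniteDimensional K M :=
    FiniteDimensional.of_injective (IntermediateField.inclusion h).toLinearMap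
      (IntermediateField.inclusion_injective h)
  obtain ⟨x, hx, e⟩ := hz
  set n := N.fixingSubgroup.relIndex M.fixingSubgroup with hn
  have h1 : n • S.sy M P Q = l • x := by
    rw [← sy_nsmul₁ hP hQ n, ← e, S.nm₁ M N P Q h (hP.mono h) hQ, nm_const h hP]
  obtain ⟨a, b, hab⟩ := Nat.isCoprime_iff_coprime.2 hc
  refine ⟨a • x + b • S.sy M P Q,
    S.T.add_mem (S.T.zsmul_mem hx a) (S.T.zsmul_mem (sy_mem S M hP hQ) b), ?_⟩
  have h2 : S.sy M P Q = (a * (n : ℤ) + b * (l : ℤ)) • S.sy M P Q := by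
    rw [hab, one_zsmul]
  have h3 : (n : ℤ) • S.sy M P Q = (l : ℤ) • x := by
    rw [natCast_zsmul, natCast_zsmul, h1]
  calc S.sy M P Q = (a * (n : ℤ) + b * (l : ℤ)) • S.sy M P Q := h2
    _ = a • ((n : ℤ) • S.sy M P Q) + (l : ℤ) • (b • S.sy M P Q) := by
      rw [add_zsmul, mul_comm b, mul_smul, mul_smul]
    _ = (l : ℤ) • (a • x + b • S.sy M P Q) := by
      rw [h3, smul_comm a, ← smul_add]
    _ = l • (a • x + b • S.sy M P Q) := natCast_zsmul _ _

/-- If all symbols are multiples of all prime numbers the group is divisible. -/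
theorem t_div (h : ∀ l : ℕ, l.Prime → ∀ (M : IntermediateField K Ω) (P : A) (Q : B),
    FiniteDimensional K M → Fx M P → Fx M Q → S.Z l M P Q) (n : ℕ) (hn : n ≠ 0) :
    ∀ x ∈ S.T, ∃ y ∈ S.T, x = n • y := by
  have key : ∀ l : ℕ, l.Prime → ∀ x ∈ S.T, ∃ y ∈ S.T, x = l • y := by
    intro l hl x hx
    induction hx using AddSubgroup.closure_induction with
    | mem x hx =>
      obtain ⟨M, P, Q, h1, h2, h3, rfl⟩ := hx
      exact h l hl M P Q h1 h2 h3
    | zero => exact ⟨0, S.T.zero_mem, (smul_zero l).symm⟩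
    | add x y _ _ hx hy =>
      obtain ⟨a, ha, rfl⟩ := hx
      obtain ⟨b, hb, rfl⟩ := hy
      exact ⟨a + b, S.T.add_mem ha hb, (nsmul_add a b l).symm⟩
    | neg x _ hx =>
      obtain ⟨a, ha, rfl⟩ := hx
      exact ⟨-a, S.T.neg_mem ha, (smul_neg l a).symm⟩
  induction n using induction_on_primes with
  | zero => exact absurd rfl hn
  | one => exact fun x hx => ⟨x, hx, (one_nsmul x).symm⟩
  | prime_mul p m hp ih =>
    intro x hx
    obtain ⟨y, hy, rfl⟩ := key p hp x hx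
    obtain ⟨z, hz, rfl⟩ := ih (right_ne_zero_of_mul hn) y hy
    exact ⟨z, hz, (mul_nsmul' z p m).symm⟩

end Sc

end PE
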