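import Pool.Agent.Lib.MP_f80667_ag.Pe.Ld
import Pool.Agent.Lib.MP_f80667_ag.Pe.Zc

/-! Finite extensions of the base field. -/

open ZC BE Polynomial IntermediateField

namespace PE

variable {K Ω : Type} [Field K] [CharZero K] [Field Ω] [Algebra K Ω] [IsAlgClosure K Ω]

/-- The automorphisms over `N` (an intermediate field of `Ω / M`). -/
theorem bs_fix (M : IntermediateField K Ω) (N : IntermediateField M Ω) (γ : Ω ≃ₐ[K] Ω) :
    γ ∈ (N.restrictScalars K).fixingSubgroup ↔
      ∃ σ ∈ N.fixingSubgroup, σ.restrictScalars K = γ := by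
  rw [IntermediateField.mem_fixingSubgroup_iff]
  constructor
  · intro h
    have hc : ∀ m : M, γ.toRingEquiv (algebraMap M Ω m) = algebraMap M Ω m := fun m =>
      h _ (N.algebraMap_mem m)
    refine ⟨AlgEquiv.ofRingEquiv (f := γ.toRingEquiv) hc, ?_, ?_⟩
    · rw [IntermediateField.mem_fixingSubgroup_iff]
      intro x hx
      exact h x hx
    · exact AlgEquiv.ext fun x => rfl
  · rintro ⟨σ, hσ, rfl⟩ x hx
    exact (IntermediateField.mem_fixingSubgroup_iff N σ).1 hσ x hx

theorem bs_fin (M : IntermediateField K Ω) [FiniteDimensional K M] (N : IntermediateField M Ω)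
    [FiniteDimensional M N] : FiniteDimensional K (N.restrictScalars K) := by
  have h : FiniteDimensional K N := FiniteDimensional.trans K M N
  exact h

section sc

variable {A B A' B' G : Type} [AddCommGroup A] [AddCommGroup B] [AddCommGroup A'] [AddCommGroup B']
  [AddCommGroup G] [DistribMulAction (Ω ≃ₐ[K] Ω) A] [DistribMulAction (Ω ≃ₐ[K] Ω) B]
  (M : IntermediateField K Ω) [DistribMulAction (Ω ≃ₐ[M] Ω) A'] [DistribMulAction (Ω ≃ₐ[M] Ω) B']

/-- Invariance. -/
theorem bs_fx {φ : A ≃+ A'} (hφ : ∀ (σ : Ω ≃ₐ[M] Ω) (a : A), φ (σ.restrictScalars K • a) = σ • φ a)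
    (N : IntermediateField M Ω) (P : A) : Fx N (φ P) ↔ Fx (N.restrictScalars K) P := by
  constructor
  · intro h γ hγ
    obtain ⟨σ, hσ, rfl⟩ := (bs_fix M N γ).1 hγ
    exact φ.injective ((hφ σ P).trans (h σ hσ))
  · intro h σ hσ
    rw [← hφ, h _ ((bs_fix M N _).2 ⟨σ, hσ, rfl⟩)]

/-- Norms. Proof: `nm_rep`, `nm_eq` (a system of representatives for `N ≤ N'` over `M` is one for the restrictions of scalars). -/
theorem bs_nm [FiniteDimensional K M] {φ : A ≃+ A'}
    (hφ : ∀ (σ : Ω ≃ₐ[M] Ω) (a : A), φ (σ.restrictScalars K • a) = σ • φ a)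
    {N N' : IntermediateField M Ω} (h : N ≤ N') [FiniteDimensional M N'] {P : A}
    (hP : Fx (N'.restrictScalars K) P) :
    Nm N N' (φ P) = φ (Nm (N.restrictScalars K) (N'.restrictScalars K) P) := by
  classical
  have halg : Algebra.IsAlgebraic K Ω := IsAlgClosure.isAlgebraic
  have hac : IsAlgClosure M Ω := ⟨IsAlgClosure.isAlgClosed K, Algebra.IsAlgebraic.tower_top (K := K) M⟩
  have hfd := bs_fin M N'
  have hle : N.restrictScalars K ≤ N'.restrictScalars K := fun x hx => h hx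
  obtain ⟨s, -, h₁, h₂, h₃⟩ := nm_rep h
  have hinj : Function.Injective (fun σ : Ω ≃ₐ[M] Ω => σ.restrictScalars K) :=
    AlgEquiv.restrictScalars_injective K
  have hinv : ∀ σ τ : Ω ≃ₐ[M] Ω, (σ.restrictScalars K)⁻¹ * τ.restrictScalars K =
      (σ⁻¹ * τ).restrictScalars K := fun σ τ => AlgEquiv.ext fun x => rfl
  have hmem : ∀ σ : Ω ≃ₐ[M] Ω, ∀ L : IntermediateField M Ω,
      σ.restrictScalars K ∈ (L.restrictScalars K).fixingSubgroup ↔ σ ∈ L.fixingSubgroup := by
    intro σ L
    rw [bs_fix]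
    constructor
    · rintro ⟨τ, hτ, hτσ⟩
      rwa [← hinj hτσ]
    · intro hσ
      exact ⟨σ, hσ, rfl⟩
  rw [h₃, nm_eq hle (s.map ⟨_, hinj⟩) ?_ ?_ hP, Finset.sum_map, map_sum]
  · refine Finset.sum_congr rfl fun σ _ => ?_
    exact (hφ σ P).symm
  · intro γ hγ
    obtain ⟨σ, hσ, rfl⟩ := Finset.mem_map.1 hγ
    exact (hmem σ N).2 (h₁ σ hσ)
  · intro γ hγ
    obtain ⟨σ, hσ, rfl⟩ := (bs_fix M N γ).1 hγ
    obtain ⟨δ, ⟨hδ, hδσ⟩, huniq⟩ := h₂ σ hσ
    refine ⟨δ.restrictScalars K, ⟨Finset.mem_map.2 ⟨δ, hδ, rfl⟩, ?_⟩, ?_⟩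
    · rw [hinv]
      exact (hmem _ N').2 hδσ
    · rintro τ ⟨hτ, hτσ⟩
      obtain ⟨ε, hε, rfl⟩ := Finset.mem_map.1 hτ
      have h4 : ε⁻¹ * σ ∈ N'.fixingSubgroup := (hmem _ N').1 (by
        rw [← hinv]
        exact hτσ)
      rw [huniq ε ⟨hε, h4⟩]
      rfl

/-- **The symbols over a finite extension.** -/
theorem exists_bs [FiniteDimensional K M] (S : Sc K Ω A B G) (φ : A ≃+ A') (ψ : B ≃+ B')
    (hφ : ∀ (σ : Ω ≃ₐ[M] Ω) (a : A), φ (σ.restrictScalars K • a) = σ • φ a)
    (hψ : ∀ (σ : Ω ≃ₐ[M] Ω) (b : B), ψ (σ.restrictScalars K • b) = σ • ψ b) :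
    ∃ S' : Sc M Ω A' B' G, S'.T ≤ S.T ∧ ∀ (N : IntermediateField M Ω) (P : A) (Q : B),
      S'.sy N (φ P) (ψ Q) = S.sy (N.restrictScalars K) P Q := by
  have hφ' : ∀ (N : IntermediateField M Ω) (P : A'), Fx N P →
      Fx (N.restrictScalars K) (φ.symm P) := fun N P h =>
    (bs_fx M hφ N (φ.symm P)).1 (by rwa [AddEquiv.apply_symm_apply])
  have hψ' : ∀ (N : IntermediateField M Ω) (Q : B'), Fx N Q →
      Fx (N.restrictScalars K) (ψ.symm Q) := fun N Q h =>
    (bs_fx M hψ N (ψ.symm Q)).1 (by rwa [AddEquiv.apply_symm_apply])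
  have hle : ∀ N N' : IntermediateField M Ω, N ≤ N' →
      N.restrictScalars K ≤ N'.restrictScalars K := fun N N' h x hx => h hx
  let S' : Sc M Ω A' B' G :=
    { sy := fun N P Q => S.sy (N.restrictScalars K) (φ.symm P) (ψ.symm Q)
      add₁ := by
        intro N _ P P' Q hP hP' hQ
        have := bs_fin M N
        change S.sy (N.restrictScalars K) (φ.symm (P + P')) (ψ.symm Q) = _
        rw [map_add]
        exact S.add₁ _ _ _ _ (hφ' N P hP) (hφ' N P' hP') (hψ' N Q hQ)
      add₂ := by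
        intro N _ P Q Q' hP hQ hQ'
        have := bs_fin M N
        change S.sy (N.restrictScalars K) (φ.symm P) (ψ.symm (Q + Q')) = _
        rw [map_add]
        exact S.add₂ _ _ _ _ (hφ' N P hP) (hψ' N Q hQ) (hψ' N Q' hQ')
      nm₁ := by
        intro N N' _ P Q h hP hQ
        have := bs_fin M N'
        have h1 := bs_nm M hφ h (P := φ.symm P) (hφ' N' P hP)
        rw [AddEquiv.apply_symm_apply] at h1
        change S.sy (N'.restrictScalars K) (φ.symm P) (ψ.symm Q) =
          S.sy (N.restrictScalars K) (φ.symm (Nm N N' P)) (ψ.symm Q)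
        rw [h1, AddEquiv.symm_apply_apply]
        exact S.nm₁ _ _ _ _ (hle N N' h) (hφ' N' P hP) (hψ' N Q hQ)
      nm₂ := by
        intro N N' _ P Q h hP hQ
        have := bs_fin M N'
        have h1 := bs_nm M hψ h (P := ψ.symm Q) (hψ' N' Q hQ)
        rw [AddEquiv.apply_symm_apply] at h1
        change S.sy (N'.restrictScalars K) (φ.symm P) (ψ.symm Q) =
          S.sy (N.restrictScalars K) (φ.symm P) (ψ.symm (Nm N N' Q))
        rw [h1, AddEquiv.symm_apply_apply]
        exact S.nm₂ _ _ _ _ (hle N N' h) (hφ' N P hP) (hψ' N' Q hQ) }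
  refine ⟨S', ?_, fun N P Q => ?_⟩
  · unfold Sc.T
    rw [AddSubgroup.closure_le]
    rintro x ⟨N, P, Q, hN, hP, hQ, rfl⟩
    have := hN
    exact AddSubgroup.subset_closure ⟨N.restrictScalars K, φ.symm P, ψ.symm Q, bs_fin M N,
      hφ' N P hP, hψ' N Q hQ, rfl⟩
  · change S.sy (N.restrictScalars K) (φ.symm (φ P)) (ψ.symm (ψ Q)) = _
    rw [AddEquiv.symm_apply_apply, AddEquiv.symm_apply_apply]

end sc

namespace Ld

/-- The absolute value over a finite extension. -/
theorem exists_bsL (L : Ld K Ω) (M : IntermediateField K Ω) [FiniteDimensional K M] :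
    ∃ L' : Ld M Ω, L'.p = L.p ∧ ∀ x, L'.nm x = L.nm x := by
  refine ⟨{ nm := L.nm
            nonneg := L.nonneg
            zero_iff := L.zero_iff
            mul := L.mul
            add := L.add
            act := fun γ x => L.act (γ.restrictScalars K) x
            hens := fun N hN => ?_
            unif := fun N hN => ?_
            fin := fun N hN => ?_
            p := L.p
            pp := L.pp
            lt := L.lt
            cpl := fun N hN => ?_ }, rfl, fun _ => rfl⟩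
  · have := hN
    exact L.hens (N.restrictScalars K) (bs_fin M N)
  · have := hN
    exact L.unif (N.restrictScalars K) (bs_fin M N)
  · have := hN
    exact L.fin (N.restrictScalars K) (bs_fin M N)
  · have := hN
    exact L.cpl (N.restrictScalars K) (bs_fin M N)

end Ld

end PE
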