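import Pool.Agent.Lib.MP_f80667_ag.Pe.Lift

/-! Convergence in the formal group and successive approximation: the proofs. -/

open ZC BE Polynomial IntermediateField

namespace PE

namespace Ld

variable {F : Type} [Field F] {K Ω : Type} [Field K] [CharZero K] [Field Ω] [Algebra K Ω]
  [Algebra F K] [Algebra F Ω] [IsScalarTower F K Ω] [IsAlgClosure K Ω] {L : Ld K Ω}
  {W : WeierstrassCurve F} [W.IsElliptic]

theorem ApA_small {r B ε : ℝ} (hr : 0 ≤ r) (hr1 : r < 1) (hB : 0 ≤ B) (hε : 0 < ε) :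
    ∃ n : ℕ, ∀ k, n ≤ k → B * r ^ k < ε := by
  obtain ⟨n, hn⟩ := exists_pow_lt_of_lt_one (show 0 < ε / (B + 1) by positivity) hr1
  refine ⟨n, fun k hk => ?_⟩
  have h1 : r ^ k ≤ r ^ n := pow_le_pow_of_le_one hr hr1.le hk
  have h2 : r ^ k < ε / (B + 1) := lt_of_le_of_lt h1 hn
  have h3 : (B + 1) * r ^ k < ε := by
    rw [lt_div_iff₀ (by positivity)] at h2
    linarith
  have h4 : 0 ≤ r ^ k := pow_nonneg hr k
  nlinarith

omit [CharZero K] [IsAlgClosure K Ω] [W.IsElliptic] in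
/-- the partial sums -/
theorem ApA_fm (h : L.It W) {c : ℕ → Pt W Ω}
    (hc : ∀ n, L.Fm (c n)) (n : ℕ) : L.Fm (∑ i ∈ Finset.range n, c i) := by
  induction n with
  | zero => rw [Finset.sum_range_zero]; exact fm_zero
  | succ n ih => rw [Finset.sum_range_succ]; exact (fm_add h ih (hc n)).1

theorem ApA_lim (h : L.It W) (M : IntermediateField K Ω) [hM : FiniteDimensional K M] {r B : ℝ}
    (hr : 0 ≤ r) (hr1 : r < 1) (hB : 0 ≤ B) (c : ℕ → Pt W Ω)
    (hc : ∀ n, L.Fm (c n) ∧ Fx M (c n) ∧ L.nm (tp (c n)) ≤ B * r ^ n) :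
    ∃ s : Pt W Ω, L.Fm s ∧ Fx M s ∧
      ∀ n, L.nm (tp (s - ∑ i ∈ Finset.range n, c i)) ≤ B * r ^ n := by
  obtain ⟨S, hS⟩ : ∃ S : ℕ → Pt W Ω, ∀ n, S n = ∑ i ∈ Finset.range n, c i := ⟨_, fun _ => rfl⟩
  have hSF : ∀ n, L.Fm (S n) := fun n => by
    rw [hS]
    exact ApA_fm h (fun n => (hc n).1) n
  have hSM : ∀ n, Fx M (S n) := fun n => by
    rw [hS]
    exact Fx.sum _ fun i _ => (hc i).2.1
  have hS1 : ∀ n, S (n + 1) = S n + c n := fun n => by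
    rw [hS, hS, Finset.sum_range_succ]
  -- consecutive parameters
  have hd1 : ∀ n, L.nm (tp (S (n + 1)) - tp (S n)) ≤ L.nm (tp (c n)) := by
    intro n
    have h1 := (fm_add h (hSF n) (hc n).1).2
    rw [← hS1] at h1
    have h2 : tp (S (n + 1)) - tp (S n) =
        (tp (S (n + 1)) - (tp (S n) + tp (c n))) + tp (c n) := by ring
    rw [h2]
    refine (L.add _ _).trans (max_le (h1.trans ?_) le_rfl)
    exact mul_le_of_le_one_left (L.nonneg _) (fm_lt (hSF n)).le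
  have hd2 : ∀ n, L.nm (tp (S (n + 1)) - tp (S n)) ≤ B * r ^ n :=
    fun n => (hd1 n).trans (hc n).2.2
  have hd3 : ∀ n k, L.nm (tp (S (n + k)) - tp (S n)) ≤ B * r ^ n := by
    intro n k
    induction k with
    | zero =>
      rw [add_zero, sub_self, L.zero]
      exact mul_nonneg hB (pow_nonneg hr n)
    | succ k ih =>
      have h2 : tp (S (n + (k + 1))) - tp (S n) =
          (tp (S (n + k + 1)) - tp (S (n + k))) + (tp (S (n + k)) - tp (S n)) := by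
        rw [← add_assoc]
        ring
      rw [h2]
      refine (L.add _ _).trans (max_le ((hd2 (n + k)).trans ?_) ih)
      exact mul_le_mul_of_nonneg_left (pow_le_pow_of_le_one hr hr1.le (Nat.le_add_right n k)) hB
  -- the limit
  obtain ⟨m, hm⟩ := ApA_small hr hr1 hB one_pos
  have hBm : B * r ^ m ≤ 1 := (hm m le_rfl).le
  obtain ⟨y, hyM, hy⟩ := L.cpl M hM r hr hr1 (fun n => tp (S (n + m)))
    (fun n => (fm_fx h (hSF _) M).1 (hSM _)) (fun n => by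
      have h1 := hd2 (n + m)
      have h2 : n + m + 1 = n + 1 + m := by ring
      rw [h2] at h1
      refine h1.trans ?_
      have h3 : B * r ^ (n + m) = (B * r ^ m) * r ^ n := by rw [pow_add]; ring
      rw [h3]
      exact mul_le_of_le_one_left (pow_nonneg hr n) hBm)
  have hy1 : ∀ n k, L.nm (y - tp (S n)) ≤ max (r ^ k) (B * r ^ n) := by
    intro n k
    have h0 := hy (k + n)
    have h2 : y - tp (S n) = (y - tp (S (k + n + m))) + (tp (S (n + (k + m))) - tp (S n)) := by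
      have h3 : n + (k + m) = k + n + m := by ring
      rw [h3]
      ring
    rw [h2]
    refine (L.add _ _).trans (max_le_max (h0.trans ?_) (hd3 n (k + m)))
    exact pow_le_pow_of_le_one hr hr1.le (Nat.le_add_right k n)
  have hy2 : ∀ n, L.nm (y - tp (S n)) ≤ B * r ^ n := by
    intro n
    by_contra hlt
    rw [not_le] at hlt
    have h0 : 0 < L.nm (y - tp (S n)) := lt_of_le_of_lt (mul_nonneg hB (pow_nonneg hr n)) hlt
    obtain ⟨k, hk⟩ := ApA_small hr hr1 zero_le_one h0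
    have h1 := hy1 n k
    have h2 := hk k le_rfl
    rw [one_mul] at h2
    rcases le_max_iff.1 h1 with h3 | h3
    · exact absurd h3 (not_le.2 h2)
    · exact absurd h3 (not_le.2 hlt)
  have hynm : L.nm y < 1 := by
    have h1 : y = (y - tp (S m)) + tp (S m) := by ring
    rw [h1]
    refine lt_of_le_of_lt (L.add _ _) (max_lt (lt_of_le_of_lt (hy2 m) (hm m le_rfl))
      (fm_lt (hSF m)))
  obtain ⟨s, hs, hst⟩ := fm_exists h hynm
  refine ⟨s, hs, (fm_fx h hs M).2 (by rw [hst]; exact hyM), fun n => ?_⟩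
  rw [← hS, (fm_sub h hs (hSF n)).2, hst]
  exact hy2 n

theorem ApA_succ (h : L.It W) (M N : IntermediateField K Ω) [FiniteDimensional K M]
    [FiniteDimensional K N] (ψ : Pt W Ω → Pt W Ω) {r A B : ℝ} (hr : 0 ≤ r) (hr1 : r < 1)
    (hA : 0 ≤ A) (hB : 0 ≤ B)
    (hψ : ∀ c c', L.Fm c → Fx N c → L.Fm c' → Fx N c' → ψ (c + c') = ψ c + ψ c')
    (hψ' : ∀ c, L.Fm c → Fx N c → L.Fm (ψ c) ∧ Fx M (ψ c) ∧ L.nm (tp (ψ c)) ≤ L.nm (tp c))
    (hs : ∀ (n : ℕ) (a : Pt W Ω), L.Fm a → Fx M a → L.nm (tp a) ≤ A * r ^ n →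
      ∃ c, L.Fm c ∧ Fx N c ∧ L.nm (tp c) ≤ B * r ^ n ∧ L.nm (tp (a - ψ c)) ≤ A * r ^ (n + 1))
    {a : Pt W Ω} (ha : L.Fm a) (ha' : Fx M a) (hA' : L.nm (tp a) ≤ A) :
    ∃ c, L.Fm c ∧ Fx N c ∧ L.nm (tp c) ≤ B ∧ ψ c = a := by
  choose! g hg1 hg2 hg3 hg4 using hs
  obtain ⟨b, hb0, hb1⟩ : ∃ b : ℕ → Pt W Ω, b 0 = a ∧ ∀ n, b (n + 1) = b n - ψ (g n (b n)) :=
    ⟨fun n => Nat.rec a (fun n b => b - ψ (g n b)) n, rfl, fun _ => rfl⟩
  have hb : ∀ n, L.Fm (b n) ∧ Fx M (b n) ∧ L.nm (tp (b n)) ≤ A * r ^ n := by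
    intro n
    induction n with
    | zero =>
      rw [hb0, pow_zero, mul_one]
      exact ⟨ha, ha', hA'⟩
    | succ n ih =>
      obtain ⟨h1, h2, h3⟩ := ih
      have h4 := hψ' _ (hg1 n _ h1 h2 h3) (hg2 n _ h1 h2 h3)
      rw [hb1]
      exact ⟨(fm_sub h h1 h4.1).1, Fx.sub h2 h4.2.1, hg4 n _ h1 h2 h3⟩
  obtain ⟨c, hcd⟩ : ∃ c : ℕ → Pt W Ω, ∀ n, c n = g n (b n) := ⟨_, fun _ => rfl⟩
  have hc : ∀ n, L.Fm (c n) ∧ Fx N (c n) ∧ L.nm (tp (c n)) ≤ B * r ^ n := by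
    intro n
    rw [hcd]
    obtain ⟨h1, h2, h3⟩ := hb n
    exact ⟨hg1 n _ h1 h2 h3, hg2 n _ h1 h2 h3, hg3 n _ h1 h2 h3⟩
  obtain ⟨s, hs1, hs2, hs3⟩ := ApA_lim h N hr hr1 hB c hc
  have hSF : ∀ n, L.Fm (∑ i ∈ Finset.range n, c i) := ApA_fm h (fun n => (hc n).1)
  have hSN : ∀ n, Fx N (∑ i ∈ Finset.range n, c i) := fun n => Fx.sum _ fun i _ => (hc i).2.1
  have hψ0 : ψ 0 = 0 := by
    have h1 := hψ 0 0 fm_zero Fx.zero fm_zero Fx.zero
    rw [add_zero] at h1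
    exact left_eq_add.1 h1
  have hψS : ∀ n, ψ (∑ i ∈ Finset.range n, c i) = a - b n := by
    intro n
    induction n with
    | zero => rw [Finset.sum_range_zero, hψ0, hb0, sub_self]
    | succ n ih =>
      rw [Finset.sum_range_succ, hψ _ _ (hSF n) (hSN n) (hc n).1 (hc n).2.1, ih, hb1, hcd]
      abel
  have hψs : ∀ n, ψ s - a = ψ (s - ∑ i ∈ Finset.range n, c i) - b n := by
    intro n
    have h1 := hψ _ _ (hSF n) (hSN n) (fm_sub h hs1 (hSF n)).1 (Fx.sub hs2 (hSN n))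
    rw [add_sub_cancel, hψS n] at h1
    rw [h1]
    abel
  have hF : L.Fm (ψ s - a) := (fm_sub h (hψ' s hs1 hs2).1 ha).1
  have hz : L.nm (tp (ψ s - a)) = 0 := by
    by_contra h0
    have h1 : 0 < L.nm (tp (ψ s - a)) := lt_of_le_of_ne (L.nonneg _) (Ne.symm h0)
    obtain ⟨n1, hn1⟩ := ApA_small hr hr1 hA h1
    obtain ⟨n2, hn2⟩ := ApA_small hr hr1 hB h1
    obtain ⟨n, hn⟩ : ∃ n, n = n1 + n2 := ⟨_, rfl⟩
    have h2 := hn1 n (by omega)
    have h3 := hn2 n (by omega)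
    have h4 := hψ' _ (fm_sub h hs1 (hSF n)).1 (Fx.sub hs2 (hSN n))
    have h5 : L.nm (tp (ψ s - a)) ≤ max (B * r ^ n) (A * r ^ n) := by
      rw [hψs n, (fm_sub h h4.1 (hb n).1).2]
      exact (L.sub _ _).trans (max_le_max (h4.2.2.trans (hs3 n)) (hb n).2.2)
    rcases le_max_iff.1 h5 with h6 | h6
    · exact absurd h6 (not_le.2 h3)
    · exact absurd h6 (not_le.2 h2)
  refine ⟨s, hs1, hs2, ?_, ?_⟩
  · have h1 := hs3 0
    rwa [Finset.sum_range_zero, sub_zero, pow_zero, mul_one] at h1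
  · exact sub_eq_zero.1 ((fm_tp_zero h hF).1 ((L.zero_iff _).1 hz))

end Ld

end PE
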