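import Pool.Agent.Lib.MP_f80667_ag.Pe.Lift
import Pool.Agent.Lib.MP_f80667_ag.Pe.ApA

/-! Successive approximation in the formal group. -/

open ZC BE Polynomial IntermediateField

namespace PE

namespace Ld

variable {F : Type} [Field F] {K Ω : Type} [Field K] [CharZero K] [Field Ω] [Algebra K Ω]
  [Algebra F K] [Algebra F Ω] [IsScalarTower F K Ω] [IsAlgClosure K Ω] {L : Ld K Ω}
  {W : WeierstrassCurve F} [W.IsElliptic]

/-- Convergence. Proof: the parameters of the partial sums are a Cauchy sequence (`fm_add`); `cpl`, `fm_exists`. -/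
theorem fm_lim (h : L.It W) (M : IntermediateField K Ω) [FiniteDimensional K M] {r B : ℝ}
    (hr : 0 ≤ r) (hr1 : r < 1) (hB : 0 ≤ B) (c : ℕ → Pt W Ω)
    (hc : ∀ n, L.Fm (c n) ∧ Fx M (c n) ∧ L.nm (tp (c n)) ≤ B * r ^ n) :
    ∃ s : Pt W Ω, L.Fm s ∧ Fx M s ∧
      ∀ n, L.nm (tp (s - ∑ i ∈ Finset.range n, c i)) ≤ B * r ^ n := by
  exact ApA_lim h M hr hr1 hB c hc

/-- **Successive approximation.** `ψ` is additive on the points of the formal group over `N` and has values over `M`. Proof: `a₀ = a`, `c_n` for `a_n`, `a_{n + 1} = a_n - ψ c_n`;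
`c = ∑ c_n` (`fm_lim`); `ψ c - a` has a parameter with norm `≤ max(A, B) r ^ n` for all `n`, so it is `0` (`fm_tp_zero`). -/
theorem fm_succ (h : L.It W) (M N : IntermediateField K Ω) [FiniteDimensional K M]
    [FiniteDimensional K N] (ψ : Pt W Ω → Pt W Ω) {r A B : ℝ} (hr : 0 ≤ r) (hr1 : r < 1)
    (hA : 0 ≤ A) (hB : 0 ≤ B)
    (hψ : ∀ c c', L.Fm c → Fx N c → L.Fm c' → Fx N c' → ψ (c + c') = ψ c + ψ c')
    (hψ' : ∀ c, L.Fm c → Fx N c → L.Fm (ψ c) ∧ Fx M (ψ c) ∧ L.nm (tp (ψ c)) ≤ L.nm (tp c))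
    (hs : ∀ (n : ℕ) (a : Pt W Ω), L.Fm a → Fx M a → L.nm (tp a) ≤ A * r ^ n →
      ∃ c, L.Fm c ∧ Fx N c ∧ L.nm (tp c) ≤ B * r ^ n ∧ L.nm (tp (a - ψ c)) ≤ A * r ^ (n + 1))
    {a : Pt W Ω} (ha : L.Fm a) (ha' : Fx M a) (hA' : L.nm (tp a) ≤ A) :
    ∃ c, L.Fm c ∧ Fx N c ∧ L.nm (tp c) ≤ B ∧ ψ c = a := by
  exact ApA_succ h M N ψ hr hr1 hA hB hψ hψ' hs ha ha' hA'

/-- The norm in the formal group. Proof: `nm_rep`, `fm_sum`. -/
theorem fm_nm (h : L.It W) {M N : IntermediateField K Ω} (hMN : M ≤ N) [FiniteDimensional K N]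
    {P : Pt W Ω} (hP : L.Fm P) :
    L.Fm (Nm M N P) ∧ L.nm (tp (Nm M N P)) ≤ L.nm (tp P) ∧
      L.nm (tp (Nm M N P) - Nm M N (tp P)) ≤ L.nm (tp P) ^ 2 := by
  obtain ⟨s, -, -, -, h₃⟩ := nm_rep (K := K) hMN
  have h1 := fm_sum h s (fun γ => γ • P) (L.nonneg (tp P)) fun γ _ => ⟨fm_act γ hP, by
    rw [tp_act, L.act]⟩
  have h2 : Nm M N (tp P) = ∑ γ ∈ s, tp (γ • P) := by
    rw [h₃ Ω (tp P)]
    exact Finset.sum_congr rfl fun γ _ => (tp_act γ P).symm
  rw [h₃ (Pt W Ω) P, h2]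
  exact h1

/-- The remainder of the multiplication by `n`. -/
private theorem nsmul_rem (h : L.It W) {c : Pt W Ω} (hc : L.Fm c) (n : ℕ) {s B : ℝ}
    (hs : L.nm (tp c) ≤ s)
    (h2 : L.nm (algebraMap F Ω W.a₁) * L.nm ((n.choose 2 : ℕ) : Ω) * s ^ 2 ≤ B)
    (h3 : s ^ 3 ≤ B) : L.nm (n * tp c - tp (n • c)) ≤ B := by
  have h1 := (fm_nsmul h hc n).2
  have e : (n : Ω) * tp c - tp (n • c) = algebraMap F Ω W.a₁ * (n.choose 2 : ℕ) * tp c ^ 2 -
      (tp (n • c) - (n * tp c - algebraMap F Ω W.a₁ * (n.choose 2 : ℕ) * tp c ^ 2)) := by ring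
  rw [e]
  refine (L.sub _ _).trans (max_le ?_ ?_)
  · rw [L.mul, L.mul, L.pow]
    refine le_trans ?_ h2
    exact mul_le_mul_of_nonneg_left (pow_le_pow_left₀ (L.nonneg _) hs 2)
      (mul_nonneg (L.nonneg _) (L.nonneg _))
  · exact (h1.trans (pow_le_pow_left₀ (L.nonneg _) hs 3)).trans h3

/-- The norm of a multiple. -/
private theorem nsmul_le (h : L.It W) {c : Pt W Ω} (hc : L.Fm c) (n : ℕ) :
    L.nm (tp (n • c)) ≤ L.nm (tp c) := by
  have h0 := L.nonneg (tp c)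
  have h1 : L.nm (tp c) ≤ 1 := (fm_lt hc).le
  have h2 : L.nm (tp c) ^ 2 ≤ L.nm (tp c) := by nlinarith
  have h3 : L.nm (tp c) ^ 3 ≤ L.nm (tp c) := by
    have : L.nm (tp c) ^ 3 = L.nm (tp c) ^ 2 * L.nm (tp c) := by ring
    rw [this]
    nlinarith
  have h4 := nsmul_rem h hc n le_rfl (B := L.nm (tp c)) ?_ h3
  · have e : tp (n • c) = n * tp c - (n * tp c - tp (n • c)) := by ring
    rw [e]
    refine (L.sub _ _).trans (max_le ?_ h4)
    rw [L.mul]
    exact mul_le_of_le_one_left h0 (L.nat_le n)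
  · have h5 : L.nm (algebraMap F Ω W.a₁) * L.nm ((n.choose 2 : ℕ) : Ω) ≤ 1 :=
      mul_le_one₀ h.a₁ (L.nonneg _) (L.nat_le _)
    exact (mul_le_of_le_one_left (pow_nonneg h0 2) h5).trans h2

/-- Multiplication by a number prime to `p` is surjective. Proof: `fm_succ` with `ψ = l`, `N = M`, `r = nm (tp a)`, `A = B = r`, `tp c = tp a / l`. -/
theorem fm_div (h : L.It W) (M : IntermediateField K Ω) [FiniteDimensional K M] {l : ℕ}
    (hl : ¬ L.p ∣ l) {a : Pt W Ω} (ha : L.Fm a) (ha' : Fx M a) :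
    ∃ c, L.Fm c ∧ Fx M c ∧ l • c = a := by
  have hl1 : L.nm (l : Ω) = 1 := L.nat_unit hl
  have hl0 : (l : Ω) ≠ 0 := by
    intro h0
    rw [h0, L.zero] at hl1
    exact zero_ne_one hl1
  have hr : 0 ≤ L.nm (tp a) := L.nonneg _
  have hr1 : L.nm (tp a) < 1 := fm_lt ha
  obtain ⟨c, h1, h2, -, h4⟩ := fm_succ h M M (fun c => l • c) hr hr1 hr hr
    (fun c c' _ _ _ _ => smul_add l c c')
    (fun c hc hc' => ⟨(fm_nsmul h hc l).1, hc'.nsmul l, nsmul_le h hc l⟩) (fun n b hb hb' hbn => by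
      obtain ⟨c, hc, hc'⟩ := fm_exists h (W := W) (L := L) (t := tp b / l)
        (by rw [L.div, hl1, div_one]; exact fm_lt hb)
      have hn : L.nm (tp c) ≤ L.nm (tp a) * L.nm (tp a) ^ n := by
        rw [hc', L.div, hl1, div_one]
        exact hbn
      refine ⟨c, hc, (fm_fx h hc M).2 ?_, hn, ?_⟩
      · rw [hc']
        exact M.div_mem ((fm_fx h hb M).1 hb') (IntermediateField.natCast_mem M l)
      · rw [(fm_sub h hb (fm_nsmul h hc l).1).2]
        have e : tp b = l * tp c := by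
          rw [hc']
          field_simp
        rw [e]
        have hx0 : 0 ≤ L.nm (tp a) * L.nm (tp a) ^ n := mul_nonneg hr (pow_nonneg hr n)
        have hx1 : L.nm (tp a) * L.nm (tp a) ^ n ≤ 1 :=
          mul_le_one₀ hr1.le (pow_nonneg hr n) (pow_le_one₀ hr hr1.le)
        have hx2 : L.nm (tp a) ^ n ≤ 1 := pow_le_one₀ hr hr1.le
        have hsq : (L.nm (tp a) * L.nm (tp a) ^ n) ^ 2 ≤ L.nm (tp a) * L.nm (tp a) ^ (n + 1) := by
          have e1 : (L.nm (tp a) * L.nm (tp a) ^ n) ^ 2 =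
              L.nm (tp a) * L.nm (tp a) ^ (n + 1) * L.nm (tp a) ^ n := by ring
          rw [e1]
          exact mul_le_of_le_one_right (mul_nonneg hr (pow_nonneg hr _)) hx2
        refine nsmul_rem h hc l hn ?_ ?_
        · have h5 : L.nm (algebraMap F Ω W.a₁) * L.nm ((l.choose 2 : ℕ) : Ω) ≤ 1 :=
            mul_le_one₀ h.a₁ (L.nonneg _) (L.nat_le _)
          exact (mul_le_of_le_one_left (pow_nonneg hx0 2) h5).trans hsq
        · refine le_trans ?_ hsq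
          exact pow_le_pow_of_le_one hx0 hx1 (by norm_num)) ha ha' le_rfl
  exact ⟨c, h1, h2, h4⟩

/-- The quadratic term of the multiplication by `p`. -/
private theorem p_aux [L.Unr] (h : L.It W) {i : ℕ} (hi : 1 ≤ i)
    (h1 : 2 ≤ i ∨ L.p ≠ 2 ∨ L.nm (algebraMap F Ω W.a₁) < 1) (n : ℕ) :
    L.nm (algebraMap F Ω W.a₁) * L.nm ((L.p.choose 2 : ℕ) : Ω) *
      (L.nm (L.p : Ω) ^ (i + n)) ^ 2 ≤ L.nm (L.p : Ω) ^ (i + 1 + (n + 1)) := by
  have hq0 : 0 < L.nm (L.p : Ω) := L.p_pos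
  have hq1 : L.nm (L.p : Ω) < 1 := L.lt
  rw [← pow_mul]
  have key : L.nm (algebraMap F Ω W.a₁) * L.nm ((L.p.choose 2 : ℕ) : Ω) ≤ L.nm (L.p : Ω) ∨
      2 ≤ i := by
    rcases h1 with h1 | h1 | h1
    · exact Or.inr h1
    · left
      have hlt : 2 < L.p := lt_of_le_of_ne L.pp.two_le (Ne.symm h1)
      obtain ⟨k, hk⟩ := L.pp.dvd_choose_self (k := 2) (by norm_num) hlt
      have h2 : L.nm ((L.p.choose 2 : ℕ) : Ω) ≤ L.nm (L.p : Ω) := by
        rw [hk, Nat.cast_mul, L.mul]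
        exact mul_le_of_le_one_right hq0.le (L.nat_le k)
      exact (mul_le_of_le_one_left (L.nonneg _) h.a₁).trans h2
    · left
      refine (mul_le_of_le_one_right (L.nonneg _) (L.nat_le _)).trans ?_
      by_cases h0 : algebraMap F K W.a₁ = 0
      · rw [IsScalarTower.algebraMap_apply F K Ω, h0, map_zero, L.zero]
        exact hq0.le
      · obtain ⟨m, hm⟩ := L.unr _ h0
        rw [← IsScalarTower.algebraMap_apply F K Ω] at hm
        rw [hm] at h1 ⊢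
        have hm1 : 1 ≤ m := by
          by_contra hm'
          exact absurd h1 (not_lt.2 (one_le_zpow_of_nonpos₀ hq0 hq1.le (by omega)))
        exact (zpow_le_zpow_right_of_le_one₀ hq0 hq1.le hm1).trans (zpow_one _).le
  rcases key with key | key
  · refine (mul_le_mul_of_nonneg_right key (pow_nonneg hq0.le _)).trans ?_
    rw [← pow_succ']
    exact pow_le_pow_of_le_one hq0.le hq1.le (by omega)
  · refine (mul_le_of_le_one_left (pow_nonneg hq0.le _)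
      (mul_le_one₀ h.a₁ (L.nonneg _) (L.nat_le _))).trans ?_
    exact pow_le_pow_of_le_one hq0.le hq1.le (by omega)

/-- Multiplication by `p` over `Ur ⊥ N`. Proof: `fm_succ` with `ψ = p`, `r = nm p`, `tp c = tp a / p`, `fm_nsmul`; `p` divides `p.choose 2` if `p` is odd. -/
theorem fm_p [L.Unr] (h : L.It W) {N : ℕ} (hN : N ≠ 0) {i : ℕ} (hi : 1 ≤ i)
    (h1 : 2 ≤ i ∨ L.p ≠ 2 ∨ L.nm (algebraMap F Ω W.a₁) < 1) {a : Pt W Ω} (ha : L.Fm a)
    (ha' : Fx (L.Ur ⊥ N) a) (ht : L.nm (tp a) ≤ L.nm (L.p : Ω) ^ (i + 1)) :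
    ∃ c, L.Fm c ∧ Fx (L.Ur ⊥ N) c ∧ L.nm (tp c) ≤ L.nm (L.p : Ω) ^ i ∧ L.p • c = a := by
  have hfd : FiniteDimensional K (L.Ur ⊥ N) := ur_fin ⊥ N hN
  have hq0 : 0 < L.nm (L.p : Ω) := L.p_pos
  have hq1 : L.nm (L.p : Ω) < 1 := L.lt
  have hp0 : (L.p : Ω) ≠ 0 := L.ne_zero hq0
  obtain ⟨c, h1', h2, h3, h4⟩ := fm_succ h (L.Ur ⊥ N) (L.Ur ⊥ N) (fun c => L.p • c) hq0.le hq1
    (pow_nonneg hq0.le (i + 1)) (pow_nonneg hq0.le i)
    (fun c c' _ _ _ _ => smul_add L.p c c')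
    (fun c hc hc' => ⟨(fm_nsmul h hc L.p).1, hc'.nsmul L.p, nsmul_le h hc L.p⟩)
    (fun n b hb hb' hbn => by
      have hm : L.nm (tp b / L.p) ≤ L.nm (L.p : Ω) ^ (i + n) := by
        rw [L.div, div_le_iff₀ hq0]
        refine hbn.trans (le_of_eq ?_)
        ring
      have hm1 : L.nm (L.p : Ω) ^ (i + n) < 1 := pow_lt_one₀ hq0.le hq1 (by omega)
      obtain ⟨c, hc, hc'⟩ := fm_exists h (W := W) (L := L) (t := tp b / L.p)
        (lt_of_le_of_lt hm hm1)
      rw [← hc'] at hm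
      refine ⟨c, hc, (fm_fx h hc _).2 ?_, ?_, ?_⟩
      · rw [hc']
        exact (L.Ur ⊥ N).div_mem ((fm_fx h hb _).1 hb') (IntermediateField.natCast_mem _ L.p)
      · rw [← pow_add]
        exact hm
      · rw [(fm_sub h hb (fm_nsmul h hc L.p).1).2]
        have e : tp b = L.p * tp c := by
          rw [hc']
          field_simp
        rw [e, ← pow_add]
        refine nsmul_rem h hc L.p hm ?_ ?_
        · exact p_aux h hi h1 n
        · rw [← pow_mul]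
          exact pow_le_pow_of_le_one hq0.le hq1.le (by omega)) ha ha' ht
  exact ⟨c, h1', h2, h3, h4⟩

/-- The norm of an unramified extension is surjective on the formal groups. Proof: `N = f d` (first for these; the general case by `nm_tr` and `ur_dvd`): `fm_succ` with
`ψ = Nm`, `r = nm π` for a uniformizer `π` of `M` (`unif`), `A = B = r`; for `nm (tp a) ≤ r ^ (n + 1)` let `c` be the point with parameter `v`, `∑ φ ^ i v = tp a`, `nm v ≤ nm (tp a)`
(`ur_tr`, scaled by a power of `π`); `fm_nm`, `ur_nm`. -/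
theorem fm_norm (h : L.It W) (M : IntermediateField K Ω) [FiniteDimensional K M] {N : ℕ}
    (hN : N ≠ 0) {a : Pt W Ω} (ha : L.Fm a) (ha' : Fx M a) :
    ∃ c, L.Fm c ∧ Fx (L.Ur M N) c ∧ Nm M (L.Ur M N) c = a := by
  obtain ⟨φ, q, hφ⟩ := exists_frob L.toLf M
  obtain ⟨f, hf, rfl, -⟩ := frob_q hφ
  have hfN : f * N ≠ 0 := Nat.mul_ne_zero hf hN
  have hfd : FiniteDimensional K (L.Ur M (f * N)) := ur_fin M (f * N) hfN
  have hle : M ≤ L.Ur M (f * N) := ur_le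
  obtain ⟨v, hv, hv1, hvs⟩ := ur_tr hφ hf hN (one_mem M) L.one.le
  have hr : 0 ≤ L.nm (tp a) := L.nonneg _
  have hr1 : L.nm (tp a) < 1 := fm_lt ha
  obtain ⟨c, h1, h2, -, h4⟩ := fm_succ h M (L.Ur M (f * N)) (fun c => Nm M (L.Ur M (f * N)) c)
    hr hr1 hr hr (fun c c' _ _ _ _ => nm_add hle c c')
    (fun c hc hc' => ⟨(fm_nm h hle hc).1, nm_fx hle hc', (fm_nm h hle hc).2.1⟩)
    (fun n b hb hb' hbn => by
      have hbM : tp b ∈ M := (fm_fx h hb M).1 hb'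
      have hm : L.nm (tp b * v) ≤ L.nm (tp b) := by
        rw [L.mul]
        exact mul_le_of_le_one_right (L.nonneg _) hv1
      obtain ⟨c, hc, hc'⟩ := fm_exists h (W := W) (L := L) (t := tp b * v)
        (lt_of_le_of_lt hm (fm_lt hb))
      have hcU : tp c ∈ L.Ur M (f * N) := by
        rw [hc']
        exact mul_mem (ur_le hbM) hv
      have hn : L.nm (tp c) ≤ L.nm (tp a) * L.nm (tp a) ^ n := by
        rw [hc']
        exact hm.trans hbn
      refine ⟨c, hc, (fm_fx h hc _).2 hcU, hn, ?_⟩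
      have hN1 := fm_nm h hle hc
      have hN2 : Nm M (L.Ur M (f * N)) (tp c) = tp b := by
        rw [ur_nm hφ hf hN (fx_mem.2 hcU), hc']
        have h3 : ∀ i ∈ Finset.range N, φ ^ i • (tp b * v) = tp b * (φ ^ i) v := by
          intro i _
          have h5 := (IntermediateField.mem_fixingSubgroup_iff M _).1
            (Subgroup.pow_mem _ hφ.mem i)
          change (φ ^ i) (tp b * v) = _
          rw [map_mul, h5 _ hbM]
        rw [Finset.sum_congr rfl h3, ← Finset.mul_sum, hvs, mul_one]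
      rw [(fm_sub h hb hN1.1).2, ← hN2]
      have e : L.nm (Nm M (L.Ur M (f * N)) (tp c) - tp (Nm M (L.Ur M (f * N)) c)) =
          L.nm (tp (Nm M (L.Ur M (f * N)) c) - Nm M (L.Ur M (f * N)) (tp c)) := by
        rw [← L.neg, neg_sub]
      rw [e]
      refine hN1.2.2.trans ?_
      have hx0 : 0 ≤ L.nm (tp a) * L.nm (tp a) ^ n := mul_nonneg hr (pow_nonneg hr n)
      refine (pow_le_pow_left₀ (L.nonneg _) hn 2).trans ?_
      have e1 : (L.nm (tp a) * L.nm (tp a) ^ n) ^ 2 =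
          L.nm (tp a) * L.nm (tp a) ^ (n + 1) * L.nm (tp a) ^ n := by ring
      rw [e1]
      exact mul_le_of_le_one_right (mul_nonneg hr (pow_nonneg hr _)) (pow_le_one₀ hr hr1.le))
    ha ha' le_rfl
  have hNU : L.Ur M N ≤ L.Ur M (f * N) := ur_dvd M (dvd_mul_left N f)
  exact ⟨Nm (L.Ur M N) (L.Ur M (f * N)) c, (fm_nm h hNU h1).1, nm_fx hNU h2,
    (nm_tr ur_le hNU h2).symm.trans h4⟩

end Ld

end PE
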