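import Pool.Agent.Lib.MP_f80667_ag.Pe.Lang
import Pool.Agent.Lib.MP_f80667_ag.Pe.Ap

/-! The norm of an unramified extension is surjective (good reduction). -/

open ZC BE Polynomial IntermediateField

namespace PE

namespace Ld

variable {F : Type} [Field F] {K Ω : Type} [Field K] [CharZero K] [Field Ω] [Algebra K Ω]
  [Algebra F K] [Algebra F Ω] [IsScalarTower F K Ω] [IsAlgClosure K Ω] {L : Ld K Ω}
  {W : WeierstrassCurve F} [W.IsElliptic]

omit [CharZero K] [IsAlgClosure K Ω] in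
/-- The representatives are finitely many. -/
private theorem nsg_te (L : Ld K Ω) {N : ℕ} (hN : N ≠ 0) :
    ∃ S : Finset Ω, ∀ x, x ∈ S ↔ x ∈ L.Te N := by
  classical
  have h0 : (X ^ L.p ^ N - X : Polynomial Ω) ≠ 0 :=
    FiniteField.X_pow_card_pow_sub_X_ne_zero Ω hN L.pp.one_lt
  refine ⟨(X ^ L.p ^ N - X : Polynomial Ω).roots.toFinset, fun x => ?_⟩
  rw [Multiset.mem_toFinset, mem_roots h0, IsRoot.def, eval_sub, eval_pow, eval_X, sub_eq_zero]
  rfl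

omit [CharZero K] [IsAlgClosure K Ω] in
/-- Powers of an automorphism which fixes a residue. -/
private theorem nsg_pow (L : Ld K Ω) (ψ : Ω ≃ₐ[K] Ω) {x : Ω} (hx : L.nm (ψ x - x) < 1) (m : ℕ) :
    L.nm ((ψ ^ m) x - x) < 1 := by
  induction m with
  | zero =>
    rw [pow_zero, AlgEquiv.one_apply, sub_self, L.zero]
    exact zero_lt_one
  | succ m ih =>
    have h1 : (ψ ^ (m + 1)) x - x = ψ ((ψ ^ m) x - x) + (ψ x - x) := by
      rw [pow_succ', AlgEquiv.mul_apply, map_sub]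
      ring
    rw [h1]
    refine (L.add _ _).trans_lt (max_lt ?_ hx)
    rw [L.act]
    exact ih

/-- A residue fixed by `φ ^ d` is fixed by the automorphisms over `Ur M (f d)`. -/
private theorem nsg_res {M : IntermediateField K Ω} [FiniteDimensional K M] {φ : Ω ≃ₐ[K] Ω}
    {f d : ℕ} (h : Frob L.toLf M φ (L.p ^ f)) (hf : f ≠ 0) (hd : d ≠ 0) {x y : Ω}
    (hx : L.nm x ≤ 1) (hy : L.nm y ≤ 1) (hx' : L.nm ((φ ^ d) x - x) < 1)
    (hy' : L.nm ((φ ^ d) y - y) < 1) {γ : Ω ≃ₐ[K] Ω}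
    (hγ : γ ∈ (L.Ur M (f * d)).fixingSubgroup) :
    L.nm (γ x - x) < 1 ∧ L.nm (γ y - y) < 1 := by
  classical
  have hN : f * d ≠ 0 := mul_ne_zero hf hd
  obtain ⟨S, hS⟩ := nsg_te L hN
  have hγM : γ ∈ M.fixingSubgroup := fix_le ur_le hγ
  obtain ⟨n, hn⟩ := h.gen γ hγM (insert x (insert y S)) (by
    intro z hz
    rcases Finset.mem_insert.1 hz with rfl | hz
    · exact hx
    rcases Finset.mem_insert.1 hz with rfl | hz
    · exact hy
    exact te_int hN ((hS z).1 hz))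
  have hφn : φ ^ n ∈ M.fixingSubgroup := M.fixingSubgroup.pow_mem h.mem n
  have hn1 : φ ^ n ∈ (L.Ur M (f * d)).fixingSubgroup := by
    rw [ur_fix hφn]
    intro z hz
    have h1 := hn z (Finset.mem_insert_of_mem (Finset.mem_insert_of_mem ((hS z).2 hz)))
    rw [(ur_fix hγM).1 hγ z hz, L.sub_comm] at h1
    exact te_inj hN (te_act _ hz) hz h1
  obtain ⟨m, rfl⟩ := ((ur_cyc h hf hd).1 n).1 hn1
  have key : ∀ z, z ∈ insert x (insert y S) → L.nm ((φ ^ d) z - z) < 1 →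
      L.nm (γ z - z) < 1 := by
    intro z hz hz'
    have h1 := hn z hz
    rw [pow_mul] at h1
    have h2 := nsg_pow L (φ ^ d) hz' m
    have h3 : γ z - z = (γ z - ((φ ^ d) ^ m) z) + (((φ ^ d) ^ m) z - z) := by ring
    rw [h3]
    exact (L.add _ _).trans_lt (max_lt h1 h2)
  exact ⟨key x (Finset.mem_insert_self _ _) hx', key y
    (Finset.mem_insert_of_mem (Finset.mem_insert_self _ _)) hy'⟩

omit [W.IsElliptic] in
/-- A point whose reduction is fixed by `φ ^ d`. -/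
private theorem nsg_pt (h : L.Gd W) {M : IntermediateField K Ω} [FiniteDimensional K M]
    {φ : Ω ≃ₐ[K] Ω} {f d : ℕ} (hφ : Frob L.toLf M φ (L.p ^ f)) (hf : f ≠ 0) (hd : d ≠ 0)
    {b : Pt W Ω} (hb : L.Cg ((φ ^ d) • b) b) :
    ∀ γ ∈ (L.Ur M (f * d)).fixingSubgroup, L.Cg (γ • b) b := by
  intro γ hγ
  have hns : L.Ns b := ns_good h b
  rcases Pt.cases' b with rfl | ⟨x, y, hP, rfl⟩
  · rw [smul_zero]
    exact cg_refl _
  by_cases hfm : L.Fm (Pt.aff x y hP : Pt W Ω)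
  · exact (fm_sub h.toIt (fm_act γ hfm) hfm).1
  have hx : L.nm x ≤ 1 := by
    by_contra hcon
    exact hfm ((fm_aff h.toIt hP).1.2 (not_le.1 hcon))
  have hy : L.nm y ≤ 1 := (ns_aff h.toIt hP hx).1
  have hact : ∀ δ : Ω ≃ₐ[K] Ω, L.Cg (δ • (Pt.aff x y hP : Pt W Ω)) (Pt.aff x y hP) ↔
      L.nm (δ x - x) < 1 ∧ L.nm (δ y - y) < 1 := by
    intro δ
    obtain ⟨h', e⟩ := act_aff δ hP
    rw [e]
    rw [← cg_aff h.toIt hP h' hx hns]
    exact ⟨fun hc => cg_symm h.toIt hc, fun hc => cg_symm h.toIt hc⟩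
  rw [hact] at hb ⊢
  exact nsg_res hφ hf hd hx hy hb.1 hb.2 hγ

omit [CharZero K] [IsAlgClosure K Ω] [W.IsElliptic] in
/-- Congruence of the traces. -/
private theorem nsg_sum (h : L.It W) (φ : Ω ≃ₐ[K] Ω) {P Q : Pt W Ω} (hc : L.Cg P Q) (d : ℕ) :
    L.Cg (∑ i ∈ Finset.range d, φ ^ i • P) (∑ i ∈ Finset.range d, φ ^ i • Q) := by
  induction d with
  | zero =>
    rw [Finset.sum_range_zero, Finset.sum_range_zero]
    exact cg_refl _
  | succ d ih =>
    rw [Finset.sum_range_succ, Finset.sum_range_succ]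
    exact cg_add h ih (cg_act _ hc)

omit [CharZero K] [IsAlgClosure K Ω] [W.IsElliptic] in
private theorem nsg_tel (φ : Ω ≃ₐ[K] Ω) (c : Pt W Ω) (d : ℕ) :
    ∑ i ∈ Finset.range d, φ ^ i • (φ • c - c) = φ ^ d • c - c := by
  induction d with
  | zero => rw [Finset.sum_range_zero, pow_zero, one_smul, sub_self]
  | succ d ih =>
    rw [Finset.sum_range_succ, ih, smul_sub, smul_smul, ← pow_succ]
    abel

/-- The case `N = f d`. -/
private theorem nsg_fd (h : L.Gd W) (M : IntermediateField K Ω) [FiniteDimensional K M]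
    {φ : Ω ≃ₐ[K] Ω} {f d : ℕ} (hφ : Frob L.toLf M φ (L.p ^ f)) (hf : f ≠ 0) (hd : d ≠ 0)
    {b : Pt W Ω} (hb : Fx M b) :
    ∃ c, Fx (L.Ur M (f * d)) c ∧ Nm M (L.Ur M (f * d)) c = b := by
  have hN : f * d ≠ 0 := mul_ne_zero hf hd
  have hfin : FiniteDimensional K (L.Ur M (f * d)) := ur_fin M (f * d) hN
  obtain ⟨c, hc⟩ := lang h hφ d hd b
  have h1 : L.Cg ((φ ^ d) • (φ • c - c)) (φ • c - c) := by
    have h2 := cg_act φ hc
    rw [hb φ hφ.mem] at h2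
    have h3 := cg_trans h.toIt h2 (cg_symm h.toIt hc)
    unfold Cg at h3 ⊢
    have h4 : (φ ^ d) • (φ • c - c) - (φ • c - c) =
        φ • ((φ ^ d) • c - c) - ((φ ^ d) • c - c) := by
      rw [smul_sub, smul_sub, smul_smul, smul_smul, ← pow_succ, ← pow_succ']
      abel
    rw [h4]
    exact h3
  obtain ⟨b₂, hb₂, hc₂⟩ := lift h.toIt (L.Ur M (f * d)) (ns_good h (φ • c - c))
    (nsg_pt h hφ hf hd h1)
  have h5 := nsg_sum h.toIt φ hc₂ d
  rw [nsg_tel, ← ur_nm hφ hf hd hb₂] at h5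
  have h6 : L.Cg b (Nm M (L.Ur M (f * d)) b₂) :=
    cg_symm h.toIt (cg_trans h.toIt h5 hc)
  have hfx : Fx M (Nm M (L.Ur M (f * d)) b₂) := nm_fx ur_le hb₂
  obtain ⟨c', -, hc', he⟩ := fm_norm h.toIt M hN h6 (hb.sub hfx)
  refine ⟨b₂ + c', hb₂.add hc', ?_⟩
  rw [nm_add ur_le, he]
  abel

/-- **Norms.** Proof: `exists_frob`, `frob_q`: `q = p ^ f`. First `N = f d`. `lang`: `φ ^ d c - c ≡ b`. Let `b₁ = φ c - c`; `φ ^ d b₁ ≡ b₁` (`φ b = b`), so `γ b₁ ≡ b₁` for all `γ` over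
`Ur M (f d)`: `γ` acts on the residues of the coordinates of `b₁` (or on their representatives in some `Te N'`) and on `Te (f d)` as some `φ ^ j` (`gen`), `d ∣ j` by `ur_cyc`. `lift` gives
`b₂` over `Ur M (f d)`, `b₂ ≡ b₁`; `Nm b₂ = ∑ φ ^ i b₂ ≡ φ ^ d c - c ≡ b` (`ur_nm`). The difference `b - Nm b₂` is in the formal group over `M`: `fm_norm`.
General `N`: `nm_tr` for `M ≤ Ur M N ≤ Ur M (f N)`. -/
theorem nsg (h : L.Gd W) (M : IntermediateField K Ω) [FiniteDimensional K M] {N : ℕ}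
    (hN : N ≠ 0) {b : Pt W Ω} (hb : Fx M b) :
    ∃ c, Fx (L.Ur M N) c ∧ Nm M (L.Ur M N) c = b := by
  obtain ⟨φ, q, hφ⟩ := exists_frob L.toLf M
  obtain ⟨f, hf, rfl, -⟩ := frob_q hφ
  obtain ⟨c, hc, he⟩ := nsg_fd h M hφ hf hN hb
  have hfin : FiniteDimensional K (L.Ur M (f * N)) := ur_fin M (f * N) (mul_ne_zero hf hN)
  have hle : L.Ur M N ≤ L.Ur M (f * N) := ur_dvd M (Dvd.intro_left f rfl)
  refine ⟨Nm (L.Ur M N) (L.Ur M (f * N)) c, nm_fx hle hc, ?_⟩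
  rw [← nm_tr ur_le hle hc, he]

end Ld

end PE
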