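import Pool.Agent.Lib.MP_f80667_ag.Pe.Ph
import Pool.Agent.Lib.MP_f80667_ag.Pe.NsG
import Pool.Agent.Lib.MP_f80667_ag.Pe.NsmA

/-! Points with nonsingular reduction: divisibility and norms (good or split multiplicative reduction). -/

open ZC BE Polynomial IntermediateField

namespace PE

namespace Ld

variable {F : Type} [Field F] {K Ω : Type} [Field K] [CharZero K] [Field Ω] [Algebra K Ω]
  [Algebra F K] [Algebra F Ω] [IsScalarTower F K Ω] [IsAlgClosure K Ω] {L : Ld K Ω}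
  {W : WeierstrassCurve F}

omit [CharZero K] [Algebra F K] [IsScalarTower F K Ω] [IsAlgClosure K Ω] in
/-- The node of the reduction: the residues of `x₀`, `y₀`, `α`, `β`. -/
theorem nc_tg (h : L.Md W) {x₀ y₀ α β : Ω} (hc : L.Nc W x₀ y₀ α β) :
    Tg (L.rc W) (L.rr x₀) (L.rr y₀) (L.rr α) (L.rr β) := by
  have hx := L.hv_rr hc.x_le
  have hy := L.hv_rr hc.y_le
  have hα := L.hv_rr hc.α_le
  have hβ := L.hv_rr hc.β_le
  have h1 := L.hv_rr h.a₁
  have h2 := L.hv_rr h.a₂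
  have n3 := Rs.Hv.nat (w := L.rs) 3
  rw [Nat.cast_ofNat] at n3
  have e1 := (lifta_fe h.toIt hx hy).uniq (L.hv_zero.2 hc.fe)
  have e2 := lifta_dx h.toIt hx hy
  rw [hc.dx] at e2
  have e2' := e2.uniq Rs.Hv.zero
  have e3 := lifta_dy h.toIt hx hy
  rw [hc.dy] at e3
  have e3' := e3.uniq Rs.Hv.zero
  have e4 := hα.add hβ
  rw [hc.add] at e4
  have e5 := hα.mul hβ
  rw [hc.mul] at e5
  refine ⟨⟨sub_eq_zero.1 e1, (sub_eq_zero.1 e2').symm, e3'⟩, e4.uniq h1.neg,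
    e5.uniq (h2.add (n3.mul hx)).neg, fun he => ?_⟩
  exact (L.hv_ne (hα.sub hβ)).2 hc.ne (sub_eq_zero.2 he)

/-- Divisibility modulo the formal group. Proof: as `dh` in `Hh.lean`: good reduction: `div'`, `ns_good`; multiplicative reduction: `nc_tg`, `nd_div` for the reduction of `a`, `rs_lift`, `rs_nsmul`, `cg_red`. -/
theorem dhs [W.IsElliptic] (h : L.Gs W) {n : ℕ} (hn : n ≠ 0) {a : Pt W Ω} (ha : L.Ns a) :
    ∃ S : Pt W Ω, L.Ns S ∧ L.Cg (n • S) a := by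
  have hac : IsAlgClosed Ω := IsAlgClosure.isAlgClosed K
  have hcz : CharZero Ω := charZero_of_injective_algebraMap (algebraMap K Ω).injective
  rcases h with h | h
  · obtain ⟨S, hS⟩ := div' n hn a
    refine ⟨S, ns_good h S, ?_⟩
    rw [hS]
    exact cg_refl a
  · obtain ⟨x₀, y₀, α, β, hk⟩ := h.sp
    have ht := nc_tg h.toMd hk.toNc
    obtain ⟨Q, hQ⟩ := ha
    have hκ : IsAlgClosed L.κ := L.κ_closed
    obtain ⟨Q', hQ'⟩ := nd_div ht n hn Q
    obtain ⟨S, hS⟩ := rs_lift h.toIt Q'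
    refine ⟨S, ⟨Q', hS⟩, ?_⟩
    have h1 : L.Red (n • S) (n • Q') := rs_nsmul h.toIt.cv hS n
    exact (cg_red h.toIt h1 hQ).2 hQ'

omit [CharZero K] [Algebra F K] [Algebra F Ω] [IsScalarTower F K Ω] [IsAlgClosure K Ω] in
/-- The Frobenius on the residues. -/
private theorem nsm_fr {M : IntermediateField K Ω} {φ : Ω ≃ₐ[K] Ω} {q : ℕ}
    (hφ : Frob L.toLf M φ q) {x : Ω} {r : L.κ} (hx : L.rs.Hv x r) (n : ℕ) :
    L.rs.Hv ((φ ^ n) x) (r ^ q ^ n) := by
  induction n with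
  | zero =>
    rw [pow_zero, pow_zero, pow_one, AlgEquiv.one_apply]
    exact hx
  | succ n ih =>
    rw [pow_succ', AlgEquiv.mul_apply, pow_succ, pow_mul]
    exact lifta_hv (ih.pow q) (hφ.frob _ (L.hv_int ih))

omit [CharZero K] [IsAlgClosure K Ω] in
/-- The reduction of `φ ^ n c`. -/
private theorem nsm_du {x₀ y₀ α β : Ω} (hk : L.Nk W x₀ y₀ α β)
    {M : IntermediateField K Ω} {φ : Ω ≃ₐ[K] Ω} {q : ℕ} (hφ : Frob L.toLf M φ q) (n : ℕ)
    {c : Pt W Ω} {S : Pn (L.rc W)} (hS : L.Red c S) : ∃ S' : Pn (L.rc W),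
      L.Red ((φ ^ n) • c) S' ∧ ndu (L.rr x₀) (L.rr y₀) (L.rr α) (L.rr β) S' =
        ndu (L.rr x₀) (L.rr y₀) (L.rr α) (L.rr β) S ^ q ^ n := by
  have hz : ndu (L.rr x₀) (L.rr y₀) (L.rr α) (L.rr β) (0 : Pn (L.rc W)) = 1 := rfl
  have hbot : ∀ z ∈ (⊥ : IntermediateField K Ω), (φ ^ n) z = z := by
    intro z hz
    obtain ⟨a, rfl⟩ := IntermediateField.mem_bot.1 hz
    exact AlgEquiv.commutes _ a
  obtain ⟨S', hS'⟩ := ns_act (φ ^ n) (⟨S, hS⟩ : L.Ns c)
  refine ⟨S', hS', ?_⟩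
  rcases Pt.cases' c with rfl | ⟨x, y, hP, rfl⟩
  · have e1 : S = 0 := rs_red_zero_iff.1 hS
    rw [smul_zero] at hS'
    have e2 : S' = 0 := rs_red_zero_iff.1 hS'
    rw [e1, e2, hz, one_pow]
  obtain ⟨hP', e⟩ := act_aff (φ ^ n) hP
  rw [e] at hS'
  rcases (rs_red_aff (w := L.rs) hP).1 hS with ⟨h1, e1⟩ | ⟨r, s, hn, hX, hY, e1⟩
  · rcases (rs_red_aff (w := L.rs) hP').1 hS' with ⟨-, e2⟩ | ⟨r', s', -, hX', -, -⟩
    · rw [e1, e2, hz, one_pow]
    · refine absurd ?_ h1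
      have h2 := L.hv_int hX'
      rw [L.act] at h2
      exact h2
  · rcases (rs_red_aff (w := L.rs) hP').1 hS' with ⟨h2, -⟩ | ⟨r', s', hn', hX', hY', e2⟩
    · refine absurd ?_ h2
      have h3 := L.hv_int hX
      rw [← L.act (φ ^ n)] at h3
      exact h3
    · have key : ∀ γ ∈ (⊥ : IntermediateField K Ω), L.nm γ ≤ 1 →
          (s' - L.rr y₀) - L.rr γ * (r' - L.rr x₀) =
            ((s - L.rr y₀) - L.rr γ * (r - L.rr x₀)) ^ q ^ n := by
        intro γ hγ hγ1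
        have k1 := (hY.sub (L.hv_rr hk.y_le)).sub ((L.hv_rr hγ1).mul (hX.sub (L.hv_rr hk.x_le)))
        have k2 := (hY'.sub (L.hv_rr hk.y_le)).sub
          ((L.hv_rr hγ1).mul (hX'.sub (L.hv_rr hk.x_le)))
        have k3 := nsm_fr hφ k1 n
        rw [map_sub, map_sub, map_mul, map_sub, hbot _ hk.y_mem, hbot _ hk.x_mem, hbot _ hγ] at k3
        exact k2.uniq k3
      rw [e1, e2]
      change ((s' - L.rr y₀) - L.rr α * (r' - L.rr x₀)) / ((s' - L.rr y₀) - L.rr β * (r' - L.rr x₀)) =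
        (((s - L.rr y₀) - L.rr α * (r - L.rr x₀)) / ((s - L.rr y₀) - L.rr β * (r - L.rr x₀))) ^ q ^ n
      rw [key α hk.α_mem hk.α_le, key β hk.β_mem hk.β_le, div_pow]

/-- **Lang's theorem** for the nodal cubic. Proof: `nc_tg`, `ndu`: the residues `α`, `β`, `x₀`, `y₀` are fixed by `φ`, so the point with the reduction `S` is moved by `φ ^ n` to a point with reduction `S'`, `ndu S' = (ndu S) ^ (q ^ n)` (`Frob`: `φ x ≡ x ^ q`). Choose `T ≠ 0` in `κ` with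
`T ^ (q ^ n - 1) = ndu (Red b)` (`κ_closed`), `ndu S = T` (`nd_bij`), `c` a point with reduction `S` (`rs_lift`). Then `φ ^ n c - c` and `b` have the same reduction (`nd_add`, `nd_bij`), `cg_red`. -/
theorem langs [W.IsElliptic] (h : L.Ms W) {M : IntermediateField K Ω} [FiniteDimensional K M]
    {φ : Ω ≃ₐ[K] Ω} {q : ℕ} (hφ : Frob L.toLf M φ q) (n : ℕ) (hn : n ≠ 0) {b : Pt W Ω}
    (hb : L.Ns b) : ∃ c : Pt W Ω, L.Ns c ∧ L.Cg ((φ ^ n) • c - c) b := by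
  have hac : IsAlgClosed Ω := IsAlgClosure.isAlgClosed K
  have hκ : IsAlgClosed L.κ := L.κ_closed
  obtain ⟨x₀, y₀, α, β, hk⟩ := h.sp
  have ht := nc_tg h.toMd hk.toNc
  obtain ⟨Q, hQ⟩ := hb
  have hq1 : 1 < q ^ n := Nat.one_lt_pow hn hφ.one_lt
  have hq : 0 < q ^ n - 1 := by omega
  obtain ⟨T, hT⟩ := IsAlgClosed.exists_pow_nat_eq
    (ndu (L.rr x₀) (L.rr y₀) (L.rr α) (L.rr β) Q) hq
  have hT0 : T ≠ 0 := by
    rintro rfl
    rw [zero_pow hq.ne'] at hT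
    have h1 := nd_add ht Q (-Q)
    rw [← hT, zero_mul, add_neg_cancel] at h1
    exact one_ne_zero h1
  obtain ⟨S, hS⟩ := (nd_bij ht).2 T hT0
  obtain ⟨c, hc⟩ := rs_lift h.toIt S
  obtain ⟨S', hS', e⟩ := nsm_du hk hφ n hc
  refine ⟨c, ⟨S, hc⟩, ?_⟩
  have h1 : L.Red ((φ ^ n) • c - c) (S' - S) := rs_sub h.toIt.cv hS' hc
  refine (cg_red h.toIt h1 hQ).2 ((nd_bij ht).1 _ _ ?_)
  have h2 := nd_add ht (S' - S) S
  rw [sub_add_cancel, e, hS] at h2
  refine mul_right_cancel₀ hT0 ?_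
  rw [← h2, ← hT, ← pow_succ]
  congr 1
  omega

/-- **Norms of points with nonsingular reduction.** Proof: good reduction: `nsg`, `ns_good`. Split multiplicative reduction: as `nsg` in `NsG.lean`, with `langs` instead of `lang` and `L.Ns (φ • c - c)` instead of `ns_good`; the points are norms of points with nonsingular reduction
(`b₂` is congruent to `φ c - c`: `cg_ns`; for general `N`: the norm of a point with nonsingular reduction has nonsingular reduction). -/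
theorem nss [W.IsElliptic] (h : L.Gs W) (M : IntermediateField K Ω) [FiniteDimensional K M]
    {N : ℕ} (hN : N ≠ 0) {b : Pt W Ω} (hb : Fx M b) (hn : L.Ns b) :
    ∃ c, Fx (L.Ur M N) c ∧ L.Ns c ∧ Nm M (L.Ur M N) c = b := by
  rcases h with h | h
  · obtain ⟨c, h1, h2⟩ := nsg h M hN hb
    exact ⟨c, h1, ns_good h c, h2⟩
  · exact nsm_all h.toIt M hN hb fun φ q hφ => langs h hφ N hN hn

end Ld

end PE
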