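import Pool.Agent.Lib.MP_f80667_ag.Pe.Ld
import Pool.Agent.Lib.MP_f80667_ag.Pe.NmL

/-! Totally ramified extensions. -/

open ZC BE Polynomial IntermediateField

namespace PE

namespace Ld

/-- A sum of numbers with pairwise different absolute values has the absolute value of one of them. -/
private theorem ram_sum {K Ω : Type} [Field K] [Field Ω] [Algebra K Ω] (L : Ld K Ω) (f : ℕ → Ω)
    (s : Finset ℕ) (hs : s.Nonempty)
    (hd : ∀ i ∈ s, ∀ j ∈ s, L.nm (f i) = L.nm (f j) → i = j) :
    ∃ i ∈ s, L.nm (∑ j ∈ s, f j) = L.nm (f i) := by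
  classical
  induction s using Finset.induction_on with
  | empty => exact absurd hs Finset.not_nonempty_empty
  | insert a s ha ih =>
    rcases s.eq_empty_or_nonempty with rfl | hne
    · exact ⟨a, Finset.mem_insert_self _ _, by simp⟩
    · obtain ⟨i, hi, hi'⟩ := ih hne fun i hi j hj =>
        hd i (Finset.mem_insert_of_mem hi) j (Finset.mem_insert_of_mem hj)
      rw [Finset.sum_insert ha]
      rcases lt_trichotomy (L.nm (f a)) (L.nm (∑ j ∈ s, f j)) with h | h | h
      · exact ⟨i, Finset.mem_insert_of_mem hi, by rw [L.add_eq h, hi']⟩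
      · rw [hi'] at h
        exact absurd (hd a (Finset.mem_insert_self _ _) i (Finset.mem_insert_of_mem hi) h)
          (fun h' => ha (h' ▸ hi))
      · exact ⟨a, Finset.mem_insert_self _ _, L.add_eq' h⟩

variable {K Ω : Type} [Field K] [CharZero K] [Field Ω] [Algebra K Ω] [IsAlgClosure K Ω]

omit [CharZero K] [IsAlgClosure K Ω] in
/-- The degree of `w` over `M`. -/
private theorem ram_deg (L : Ld K Ω) (M : IntermediateField K Ω) {l : ℕ} (hl : l ≠ 0) {w π : Ω}
    (hw : w ^ l = π) (hM : π ∈ M) (h0 : 0 < L.nm π) (h1 : L.nm π < 1)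
    (hv : ∀ x ∈ M, x ≠ 0 → ∃ n : ℤ, L.nm x = L.nm π ^ n) :
    IsIntegral M w ∧ (minpoly M w).natDegree = l := by
  have hq : (X ^ l - C (⟨π, hM⟩ : M) : Polynomial M).Monic := monic_X_pow_sub_C _ hl
  have hqw : aeval w (X ^ l - C (⟨π, hM⟩ : M) : Polynomial M) = 0 := by
    rw [map_sub, map_pow, aeval_X, aeval_C, hw]
    exact sub_self _
  have hint : IsIntegral M w := ⟨_, hq, hqw⟩
  refine ⟨hint, ?_⟩
  have hle : (minpoly M w).natDegree ≤ l := by
    have h := natDegree_le_of_dvd (minpoly.dvd M w hqw) hq.ne_zero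
    rwa [natDegree_X_pow_sub_C] at h
  by_contra hne
  have hlt : (minpoly M w).natDegree < l := lt_of_le_of_ne hle hne
  have hP0 : minpoly M w ≠ 0 := minpoly.ne_zero hint
  have hπ0 : π ≠ 0 := L.ne_zero h0
  have hw0 : w ≠ 0 := by
    rintro rfl
    rw [zero_pow hl] at hw
    exact hπ0 hw.symm
  let f : ℕ → Ω := fun i => algebraMap M Ω ((minpoly M w).coeff i) * w ^ i
  have hval : ∀ i ∈ (minpoly M w).support, ∃ n : ℤ, L.nm (f i) ^ l = L.nm π ^ (l * n + i) := by
    intro i hi
    have hc : (minpoly M w).coeff i ≠ 0 := mem_support_iff.1 hi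
    obtain ⟨n, hn⟩ := hv ((minpoly M w).coeff i : Ω) ((minpoly M w).coeff i).2
      (fun h => hc (Subtype.ext h))
    refine ⟨n, ?_⟩
    have e1 : L.nm (f i) = L.nm π ^ n * L.nm w ^ i := by
      change L.nm (((minpoly M w).coeff i : Ω) * w ^ i) = _
      rw [L.mul, hn, L.pow]
    have e2 : L.nm w ^ l = L.nm π := by rw [← L.pow, hw]
    rw [e1, mul_pow, ← pow_mul, mul_comm i l, pow_mul, e2, zpow_add₀ h0.ne', zpow_natCast, mul_comm (l : ℤ) n,
      zpow_mul, zpow_natCast]
  have hne0 : ∀ i ∈ (minpoly M w).support, f i ≠ 0 := by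
    intro i hi
    have hc : (minpoly M w).coeff i ≠ 0 := mem_support_iff.1 hi
    exact mul_ne_zero (fun h => hc (Subtype.ext h)) (pow_ne_zero _ hw0)
  have hlt' : ∀ i ∈ (minpoly M w).support, i < l := fun i hi =>
    lt_of_le_of_lt (le_natDegree_of_mem_supp i hi) hlt
  have hinj : ∀ i ∈ (minpoly M w).support, ∀ j ∈ (minpoly M w).support,
      L.nm (f i) = L.nm (f j) → i = j := by
    intro i hi j hj hij
    obtain ⟨n, hn⟩ := hval i hi
    obtain ⟨m, hm⟩ := hval j hj
    rw [hij, hm] at hn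
    have h2 := zpow_right_injective₀ h0 h1.ne hn
    have h3 : (l : ℤ) * m + j = l * n + i := h2
    have hi' := hlt' i hi
    have hj' := hlt' j hj
    have h4 : (j : ℤ) % l = (i : ℤ) % l := by
      have h5 := congrArg (fun z : ℤ => z % l) h3
      simpa [Int.add_mul_emod_self_left, add_comm] using h5
    rw [Int.emod_eq_of_lt (by positivity) (by exact_mod_cast hj'),
      Int.emod_eq_of_lt (by positivity) (by exact_mod_cast hi')] at h4
    exact_mod_cast h4.symm
  obtain ⟨i, hi, hi'⟩ := ram_sum L f (minpoly M w).support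
    (by rwa [Finset.nonempty_iff_ne_empty, Ne, Polynomial.support_eq_empty]) hinj
  have hsum : ∑ j ∈ (minpoly M w).support, f j = 0 := by
    have h2 := minpoly.aeval M w
    rw [aeval_def, eval₂_eq_sum, sum_def] at h2
    exact h2
  rw [hsum, L.zero] at hi'
  exact hne0 i hi ((L.zero_iff _).1 hi'.symm)

/-- The extension `M(ϖ)`, `ϖ ^ l = π`, `π` a uniformizer of `M`. Proof: the polynomial `T ^ l - π` is irreducible over `M`: the values of `1`, `ϖ`, …, `ϖ ^ (l - 1)` are pairwise different modulo the value group of `M`, so they are linearly independent over `M`. The index of the subgroups is the degree. -/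
theorem exists_ram (L : Ld K Ω) (M : IntermediateField K Ω) [FiniteDimensional K M] {l : ℕ}
    (hl : l ≠ 0) {π : Ω} (hM : π ∈ M) (h0 : 0 < L.nm π) (h1 : L.nm π < 1)
    (hv : ∀ x ∈ M, x ≠ 0 → ∃ n : ℤ, L.nm x = L.nm π ^ n) :
    ∃ (N : IntermediateField K Ω) (w : Ω), M ≤ N ∧ FiniteDimensional K N ∧ w ∈ N ∧ w ^ l = π ∧
      N.fixingSubgroup.relIndex M.fixingSubgroup = l := by
  have hac : IsAlgClosed Ω := IsAlgClosure.isAlgClosed K
  obtain ⟨w, hw⟩ := IsAlgClosed.exists_pow_nat_eq π (Nat.pos_of_ne_zero hl)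
  obtain ⟨hint, hdeg⟩ := ram_deg L M hl hw hM h0 h1 hv
  have hfin : FiniteDimensional M M⟮w⟯ := adjoin.finiteDimensional hint
  have hfr : Module.finrank M M⟮w⟯ = l := by rw [adjoin.finrank hint, hdeg]
  have hle : M ≤ (M⟮w⟯).restrictScalars K := fun x hx =>
    (M⟮w⟯).algebraMap_mem (⟨x, hx⟩ : M)
  have hfinK : FiniteDimensional K ((M⟮w⟯).restrictScalars K) := by
    have h : FiniteDimensional K M⟮w⟯ := Module.Finite.trans M _
    exact h
  refine ⟨(M⟮w⟯).restrictScalars K, w, hle, hfinK, mem_adjoin_simple_self M w, hw, ?_⟩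
  have h2 := relIndex_fix hle
  have h3 : Module.finrank K ((M⟮w⟯).restrictScalars K) = Module.finrank K M * l := by
    have h4 := Module.finrank_mul_finrank K M M⟮w⟯
    rw [hfr] at h4
    exact h4.symm
  rw [h3, mul_comm] at h2
  exact Nat.eq_of_mul_eq_mul_left Module.finrank_pos h2

end Ld

end PE
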