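import Pool.Agent.Lib.MP_f80667_ag.Pe.Pha
import Pool.Agent.Lib.MP_f80667_ag.Pe.Nsm
import Pool.Agent.Lib.MP_f80667_ag.Pe.Ram
import Pool.Agent.Lib.MP_f80667_ag.Pe.Zc

/-! Symbols over local fields are multiples of almost all prime numbers: semistable curves. -/

open ZC BE Polynomial IntermediateField

namespace PE

namespace Ld

variable {F : Type} [Field F] {K Ω : Type} [Field K] [CharZero K] [Field Ω] [Algebra K Ω]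
  [Algebra F K] [Algebra F Ω] [IsScalarTower F K Ω] [IsAlgClosure K Ω]

private theorem elg_comp (L : Ld K Ω) (W : WeierstrassCurve F) [W.IsElliptic] (h : L.Gs W) :
    ∃ n₀ : ℕ, ∀ l : ℕ, l.Prime → n₀ < l → ∀ N ≠ 0, ∀ P : Pt W Ω, Fx (L.Ur ⊥ N) P →
      ∃ P' : Pt W Ω, Fx (L.Ur ⊥ N) P' ∧ L.Ns (P - l • P') := by
  rcases h with h | h
  · exact ⟨0, fun l _ _ N _ P _ => ⟨0, Fx.zero, ns_good h _⟩⟩
  · exact ms_fin h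

private theorem elg_div (L : Ld K Ω) (W : WeierstrassCurve F) [W.IsElliptic] (h : L.Gs W)
    {l : ℕ} (hl : l.Prime) (hpl : ¬ L.p ∣ l) {N : ℕ} (hN : N ≠ 0) {P : Pt W Ω}
    (hP : Fx (L.Ur ⊥ N) P) (hn : L.Ns P) : ∃ g ≠ 0, ∃ P' : Pt W Ω,
      Fx (L.Ur ⊥ (N * g)) P' ∧ P = l • P' := by
  obtain ⟨R, hR, hc⟩ := dhs h hl.ne_zero hn
  obtain ⟨g, hg, hlf⟩ := lift_ur h.it hR
  have hN' : N * g ≠ 0 := mul_ne_zero hN hg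
  obtain ⟨T, hT, hcT⟩ := hlf (N * g) hN' (dvd_mul_left g N)
  have hP' : Fx (L.Ur ⊥ (N * g)) P := hP.mono (ur_dvd ⊥ (dvd_mul_right N g))
  have h1 : L.Cg (l • T) (l • R) := by
    unfold Cg
    rw [← nsmul_sub]
    exact (fm_nsmul h.it hcT l).1
  have h2 : L.Fm (P - l • T) := cg_trans h.it (cg_symm h.it hc) (cg_symm h.it h1)
  have hfin : FiniteDimensional K (L.Ur ⊥ (N * g)) := ur_fin ⊥ (N * g) hN'
  obtain ⟨c, -, hc', he⟩ := fm_div h.it (L.Ur ⊥ (N * g)) hpl h2 (hP'.sub (hT.nsmul l))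
  refine ⟨g, hg, T + c, hT.add hc', ?_⟩
  rw [nsmul_add, he]
  abel

/-- `Q` with nonsingular reduction. Proof: as `el`. `exists_rf`: `N` with `Rf (Ur M N) N`; `Q = Nm Q'` (`nss`), replace `M` by `Ur M N` (`z_nm₂`). `Q' = Q₀ + l Q₁`, `Q₀` over `Ur ⊥ N` (`lift_rf`, `fm_div`), `Q₀` has nonsingular reduction. `{P, Q₀}` is the symbol of `P₁ = Nm P`, `P₁` over `Ur ⊥ N` (`z_nm₁`).
`P₁ = l P₂ + P₃`, `P₃` with nonsingular reduction, over `Ur ⊥ N` (`ms_fin` if `W₁` is `Ms`, `P₃ = P₁` if `W₁` is good), `P₃ = l P₄ + P₅`, `P₄`, `P₅` over `Ur ⊥ N'`, `N ∣ N'`, `P₅` in the formal group (`dhs`, `lift_ur`), `P₅ = l P₆` (`fm_div`); `Q₀ = Nm Q₂`, `Q₂` over `Ur ⊥ N'` (`nss`, `ur_ur`). -/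
theorem elg (L : Ld K Ω) (W₁ W₂ : WeierstrassCurve F) [W₁.IsElliptic] [W₂.IsElliptic]
    (h₁ : L.Gs W₁) (h₂ : L.Gs W₂) : ∃ n₀ : ℕ, ∀ (G : Type) [AddCommGroup G]
      (S : Sc K Ω (Pt W₁ Ω) (Pt W₂ Ω) G) (l : ℕ), l.Prime → n₀ < l →
      ∀ (M : IntermediateField K Ω) (P : Pt W₁ Ω) (Q : Pt W₂ Ω), FiniteDimensional K M → Fx M P →
        Fx M Q → L.Ns Q → S.Z l M P Q := by
  obtain ⟨n₁, hA⟩ := elg_comp L W₁ h₁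
  refine ⟨max n₁ L.p, ?_⟩
  intro G _ S l hl hnl M P Q hfM hP hQ hnQ
  have hn1 : n₁ < l := lt_of_le_of_lt (le_max_left _ _) hnl
  have hpl : ¬ L.p ∣ l := fun hd =>
    absurd ((Nat.prime_dvd_prime_iff_eq L.pp hl).1 hd)
      (ne_of_lt (lt_of_le_of_lt (le_max_right _ _) hnl))
  obtain ⟨f, hf, hrf⟩ := exists_rf (L := L) M
  have hRf : L.Rf (L.Ur M f) f := hrf f hf dvd_rfl
  have hfin : FiniteDimensional K (L.Ur M f) := ur_fin M f hf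
  obtain ⟨Q', hQ', hnQ', rfl⟩ := nss h₂ M hf hQ hnQ
  rw [Sc.z_nm₂ ur_le hP hQ']
  have hP' : Fx (L.Ur M f) P := hP.mono ur_le
  obtain ⟨Q₀, hQ₀, hc⟩ := lift_rf h₂.it hRf hnQ' hQ'
  have hQ₀' : Fx (L.Ur M f) Q₀ := hQ₀.mono (ur_bot_ur M f)
  have hcs : L.Cg Q' Q₀ := cg_symm h₂.it hc
  have hnQ₀ : L.Ns Q₀ := cg_ns h₂.it hcs hnQ'
  obtain ⟨c, -, hc', he⟩ := fm_div h₂.it (L.Ur M f) hpl hcs (hQ'.sub hQ₀')
  have hQe : Q' = Q₀ + l • c := by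
    rw [he]
    abel
  rw [hQe]
  refine Sc.z_add₂ hP' hQ₀' (hc'.nsmul l) ?_ (Sc.z_mul₂ hP' hc')
  have hfinB : FiniteDimensional K (L.Ur ⊥ f) := ur_fin ⊥ f hf
  rw [← Sc.z_nm₁ (ur_bot_ur M f) hP' hQ₀]
  have hP₁ : Fx (L.Ur ⊥ f) (Nm (L.Ur ⊥ f) (L.Ur M f) P) := nm_fx (ur_bot_ur M f) hP'
  generalize Nm (L.Ur ⊥ f) (L.Ur M f) P = P₁ at hP₁ ⊢
  obtain ⟨P₂, hP₂, hn₃⟩ := hA l hl hn1 f hf P₁ hP₁
  have hP₃ : Fx (L.Ur ⊥ f) (P₁ - l • P₂) := hP₁.sub (hP₂.nsmul l)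
  have hPe : P₁ = l • P₂ + (P₁ - l • P₂) := by abel
  rw [hPe]
  refine Sc.z_add₁ (hP₂.nsmul l) hP₃ hQ₀ (Sc.z_mul₁ hP₂ hQ₀) ?_
  obtain ⟨g, hg, P₄, hP₄, he₄⟩ := elg_div L W₁ h₁ hl hpl hf hP₃ hn₃
  have hN' : f * g ≠ 0 := mul_ne_zero hf hg
  have hfinC : FiniteDimensional K (L.Ur ⊥ (f * g)) := ur_fin ⊥ (f * g) hN'
  obtain ⟨Q₂, hQ₂, -, he₃⟩ := nss h₂ (L.Ur ⊥ f) hN' hQ₀ hnQ₀
  rw [ur_ur ⊥ (dvd_mul_right f g)] at hQ₂ he₃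
  have hle : L.Ur ⊥ f ≤ L.Ur ⊥ (f * g) := ur_dvd ⊥ (dvd_mul_right f g)
  rw [← he₃, Sc.z_nm₂ hle hP₃ hQ₂, he₄]
  exact Sc.z_mul₁ hP₄ hQ₂

/-- Both points have singular reduction, the levels are powers of the norm of a uniformizer. -/
theorem els_la (L : Ld K Ω) (W₁ W₂ : WeierstrassCurve F) [W₁.IsElliptic] [W₂.IsElliptic]
    (h₁ : L.Md W₁) (h₂ : L.Md W₂) {G : Type} [AddCommGroup G]
    (S : Sc K Ω (Pt W₁ Ω) (Pt W₂ Ω) G) {l : ℕ} (hl : l.Prime)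
    (H₂ : ∀ (M : IntermediateField K Ω) (P : Pt W₁ Ω) (Q : Pt W₂ Ω), FiniteDimensional K M →
      Fx M P → Fx M Q → L.Ns Q → S.Z l M P Q)
    (H₁ : ∀ (M : IntermediateField K Ω) (P : Pt W₁ Ω) (Q : Pt W₂ Ω), FiniteDimensional K M →
      Fx M P → Fx M Q → L.Ns P → S.Z l M P Q)
    {x₁ y₁ α₁ β₁ x₂ y₂ α₂ β₂ : Ω} (hc₁ : L.Nk W₁ x₁ y₁ α₁ β₁) (hc₂ : L.Nk W₂ x₂ y₂ α₂ β₂)
    (M : IntermediateField K Ω) [FiniteDimensional K M] {P : Pt W₁ Ω} {Q : Pt W₂ Ω}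
    (hP : Fx M P) (hQ : Fx M Q) {w₁ w₂ : Ω} (hw₁ : w₁ ∈ M) (hw₂ : w₂ ∈ M)
    (hl₁ : L.La W₁ x₁ y₁ α₁ β₁ (L.nm w₁) P) (hl₂ : L.La W₂ x₂ y₂ α₂ β₂ (L.nm w₂) Q) :
    S.Z l M P Q := by
  obtain ⟨π, hπ, p0, p1, hv⟩ := L.unif M inferInstance
  have hlt : ∀ {W : WeierstrassCurve F} {x₀ y₀ α β : Ω} {r : ℝ} {R : Pt W Ω},
      L.La W x₀ y₀ α β r R → r < 1 := by
    rintro W x₀ y₀ α β r R ⟨x, y, hR, h1, h2, h3, h4⟩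
    exact h3
  -- the levels
  have hlev : ∀ w ∈ M, 0 < L.nm w → L.nm w < 1 → ∃ i : ℕ, i ≠ 0 ∧ L.nm w = L.nm π ^ i := by
    intro w hw h0 h1
    obtain ⟨n, hn⟩ := hv w hw (L.ne_zero h0)
    rw [hn] at h1
    have h5 : (0 : ℤ) < n := by
      rw [← zpow_lt_zpow_iff_right_of_lt_one₀ p0 p1, zpow_zero]
      exact h1
    refine ⟨n.toNat, by omega, ?_⟩
    rw [hn, ← zpow_natCast, Int.toNat_of_nonneg h5.le]
  obtain ⟨i, hi, ei⟩ := hlev w₁ hw₁ (la_pos hc₁.toNc hl₁) (hlt hl₁)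
  obtain ⟨j, hj, ej⟩ := hlev w₂ hw₂ (la_pos hc₂.toNc hl₂) (hlt hl₂)
  rw [ei] at hl₁
  rw [ej] at hl₂
  obtain ⟨N, w, hMN, hN, hwN, hwl, hdeg⟩ := L.exists_ram M hl.ne_zero hπ p0 p1 hv
  have hw : L.nm w ^ l = L.nm π := by rw [← L.pow, hwl]
  have w0 : 0 < L.nm w := by
    refine lt_of_le_of_ne (L.nonneg w) fun h => ?_
    rw [← h, zero_pow hl.ne_zero] at hw
    exact absurd hw p0.ne
  have w1 : L.nm w < 1 := by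
    by_contra h
    have h1 := one_le_pow₀ (not_lt.1 h) (n := l)
    rw [hw] at h1
    exact absurd p1 (not_lt.2 h1)
  have hwne : w ≠ 0 := L.ne_zero w0
  have hpw : ∀ k : ℕ, L.nm (w ^ k) ^ l = L.nm π ^ k := by
    intro k
    rw [L.pow, ← pow_mul, mul_comm, pow_mul, hw]
  have hle : ∀ k : ℕ, L.nm π ^ k ≤ L.nm (w ^ k) := by
    intro k
    rw [← hpw k]
    refine pow_le_of_le_one (L.nonneg _) ?_ hl.ne_zero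
    rw [L.pow]
    exact pow_le_one₀ w0.le w1.le
  have hk1 : ∀ k : ℕ, k ≠ 0 → L.nm (w ^ k) < 1 := by
    intro k hk
    rw [L.pow]
    exact pow_lt_one₀ w0.le w1 hk
  have hf₁ := la_half hc₁.toNc hl₁
  have hf₂ := la_half hc₂.toNc hl₂
  obtain ⟨P', hP', hlP'⟩ := la_ex h₁ hc₁ N (pow_mem hwN i) (pow_ne_zero i hwne) (hk1 i hi)
    (hf₁.trans (pow_le_pow_left₀ (pow_nonneg p0.le i) (hle i) 2))
  obtain ⟨Q', hQ', hlQ'⟩ := la_ex h₂ hc₂ N (pow_mem hwN j) (pow_ne_zero j hwne) (hk1 j hj)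
    (hf₂.trans (pow_le_pow_left₀ (pow_nonneg p0.le j) (hle j) 2))
  have hnm := la_nm h₁ hc₁ hMN hlP' hP' (by rw [hdeg, hpw]; exact hf₁)
  rw [hdeg, hpw] at hnm
  have hns₁ : L.Ns (P - Nm M N P') := la_ns h₁ hc₁.toNc hl₁ hnm
  have hms := la_nsmul h₂ hc₂.toNc hlQ' hl.ne_zero (by rw [hpw]; exact hf₂)
  rw [hpw] at hms
  have hns₂ : L.Ns (Q - l • Q') := la_ns h₂ hc₂.toNc hl₂ hms
  have hNm : Fx M (Nm M N P') := nm_fx hMN hP'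
  have e₁ : P = (P - Nm M N P') + Nm M N P' := (sub_add_cancel _ _).symm
  rw [e₁]
  refine Sc.z_add₁ (hP.sub hNm) hNm hQ (H₁ M _ _ inferInstance (hP.sub hNm) hQ hns₁) ?_
  rw [Sc.z_nm₁ hMN hP' hQ]
  have hQN : Fx N Q := hQ.mono hMN
  have e₂ : Q = (Q - l • Q') + l • Q' := (sub_add_cancel _ _).symm
  rw [e₂]
  exact Sc.z_add₂ hP' (hQN.sub (hQ'.nsmul l)) (hQ'.nsmul l)
    (H₂ N _ _ hN hP' (hQN.sub (hQ'.nsmul l)) hns₂) (Sc.z_mul₂ hP' hQ')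

/-- **Semistable curves.** Proof: `n₀` is the maximum of the numbers of `elg` for `W₁`, `W₂` and `W₂`, `W₁` (`z_swap`). If `W₂` is good or `Q` has nonsingular reduction: `elg`; the same for `P`. Let both points have singular reduction, `π` a uniformizer of `M` (`unif`). By `la_or` (and the symbols of `- P`, `- Q`) we may
assume `La (nm π ^ i) P`, `La (nm π ^ j) Q`, `1 ≤ i, j`. `exists_ram`: `N`, `w`, `w ^ l = π`. `la_ex`: `P'` over `N` with `La (nm w ^ i) P'`, `Q'` with `La (nm w ^ j) Q'` (`la_half`). `P - Nm P'` and `Q - l Q'` have nonsingular reduction (`la_nm`, `la_nsmul`, `la_ns`). `{P, Q} = {P - Nm P', Q} + {Nm P', Q}`,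
`{Nm P', Q} = {P', Q}_N = {P', Q - l Q'}_N + {P', l Q'}_N`. -/
theorem els (L : Ld K Ω) (W₁ W₂ : WeierstrassCurve F) [W₁.IsElliptic] [W₂.IsElliptic]
    (h₁ : L.Gs W₁) (h₂ : L.Gs W₂) : ∃ n₀ : ℕ, ∀ (G : Type) [AddCommGroup G]
      (S : Sc K Ω (Pt W₁ Ω) (Pt W₂ Ω) G) (l : ℕ), l.Prime → n₀ < l →
      ∀ (M : IntermediateField K Ω) (P : Pt W₁ Ω) (Q : Pt W₂ Ω), FiniteDimensional K M → Fx M P →
        Fx M Q → S.Z l M P Q := by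
  obtain ⟨n₁, hn₁⟩ := elg L W₁ W₂ h₁ h₂
  obtain ⟨n₂, hn₂⟩ := elg L W₂ W₁ h₂ h₁
  refine ⟨max n₁ n₂, ?_⟩
  intro G _ S l hl hln M P Q hM hP hQ
  have H₂ : ∀ (M : IntermediateField K Ω) (P : Pt W₁ Ω) (Q : Pt W₂ Ω), FiniteDimensional K M →
      Fx M P → Fx M Q → L.Ns Q → S.Z l M P Q :=
    hn₁ G S l hl ((le_max_left _ _).trans_lt hln)
  have H₁ : ∀ (M : IntermediateField K Ω) (P : Pt W₁ Ω) (Q : Pt W₂ Ω), FiniteDimensional K M →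
      Fx M P → Fx M Q → L.Ns P → S.Z l M P Q := by
    intro M P Q hM hP hQ hns
    have h := hn₂ G S.swap l hl ((le_max_right _ _).trans_lt hln) M Q P hM hQ hP hns
    exact Sc.z_swap.1 h
  by_cases hQs : L.Ns Q
  · exact H₂ M P Q hM hP hQ hQs
  by_cases hPs : L.Ns P
  · exact H₁ M P Q hM hP hQ hPs
  have hm₁ : L.Ms W₁ := h₁.resolve_left fun h => hPs (ns_good h P)
  have hm₂ : L.Ms W₂ := h₂.resolve_left fun h => hQs (ns_good h Q)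
  obtain ⟨x₁, y₁, α₁, β₁, hc₁⟩ := hm₁.sp
  obtain ⟨x₂, y₂, α₂, β₂, hc₂⟩ := hm₂.sp
  obtain ⟨w₁, hw₁, hl₁⟩ := la_or hm₁.toMd hc₁ hPs M hP
  obtain ⟨w₂, hw₂, hl₂⟩ := la_or hm₂.toMd hc₂ hQs M hQ
  have neg₁ : ∀ Q : Pt W₂ Ω, Fx M Q → S.Z l M (-P) Q → S.Z l M P Q := by
    intro Q hQ h
    have h0 : S.Z l M (l • (0 : Pt W₁ Ω)) Q := Sc.z_mul₁ Fx.zero hQ
    have h1 := Sc.z_sub₁ (Fx.zero.nsmul l) hP.neg hQ h0 h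
    rwa [smul_zero, zero_sub, neg_neg] at h1
  have neg₂ : ∀ P : Pt W₁ Ω, Fx M P → S.Z l M P (-Q) → S.Z l M P Q := by
    intro P hP h
    have h0 : S.Z l M P (l • (0 : Pt W₂ Ω)) := Sc.z_mul₂ hP Fx.zero
    have h1 := Sc.z_sub₂ hP (Fx.zero.nsmul l) hQ.neg h0 h
    rwa [smul_zero, zero_sub, neg_neg] at h1
  rcases hl₁ with hl₁ | hl₁ <;> rcases hl₂ with hl₂ | hl₂
  · exact els_la L W₁ W₂ hm₁.toMd hm₂.toMd S hl H₂ H₁ hc₁ hc₂ M hP hQ hw₁ hw₂ hl₁ hl₂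
  · exact neg₂ P hP
      (els_la L W₁ W₂ hm₁.toMd hm₂.toMd S hl H₂ H₁ hc₁ hc₂ M hP hQ.neg hw₁ hw₂ hl₁ hl₂)
  · exact neg₁ Q hQ
      (els_la L W₁ W₂ hm₁.toMd hm₂.toMd S hl H₂ H₁ hc₁ hc₂ M hP.neg hQ hw₁ hw₂ hl₁ hl₂)
  · exact neg₁ Q hQ (neg₂ (-P) hP.neg
      (els_la L W₁ W₂ hm₁.toMd hm₂.toMd S hl H₂ H₁ hc₁ hc₂ M hP.neg hQ.neg hw₁ hw₂ hl₁ hl₂))

end Ld

end PE
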