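import Pool.Agent.Lib.MP_f80667_ag.Pe.Ld
import Pool.Agent.Lib.MP_f80667_ag.Pe.NmL

/-! Extensions such that the degrees of the composites are prime to `l`. -/

open ZC BE Polynomial IntermediateField

namespace PE

variable {K Ω : Type} [Field K] [CharZero K] [Field Ω] [Algebra K Ω] [IsAlgClosure K Ω]

/-- The degree of `N M` over `N` is prime to `l` for all finite `N / K`. -/
def Cp (l : ℕ) (M : IntermediateField K Ω) : Prop :=
  ∀ N : IntermediateField K Ω, FiniteDimensional K N →
    ((N ⊔ M).fixingSubgroup.relIndex N.fixingSubgroup).Coprime l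

theorem cp_bot (l : ℕ) : Cp l (⊥ : IntermediateField K Ω) := by
  intro N _
  rw [sup_bot_eq, Subgroup.relIndex_self]
  exact Nat.coprime_one_left l

omit [CharZero K] [IsAlgClosure K Ω] in
/-- The index in two steps. -/
private theorem cp_step {N M M' : IntermediateField K Ω} :
    (N ⊔ (M ⊔ M')).fixingSubgroup.relIndex N.fixingSubgroup =
      ((N ⊔ M) ⊔ M').fixingSubgroup.relIndex (N ⊔ M).fixingSubgroup *
        (N ⊔ M).fixingSubgroup.relIndex N.fixingSubgroup := by
  rw [← sup_assoc]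
  exact (Subgroup.relIndex_mul_relIndex _ _ _
    (IntermediateField.fixingSubgroup_antitone le_sup_left)
    (IntermediateField.fixingSubgroup_antitone le_sup_left)).symm

/-- The degree of the adjunction of a root. -/
private theorem cp_deg {N : IntermediateField K Ω} [FiniteDimensional K N] {f : Polynomial Ω}
    (hf : f ≠ 0) (hd : f.natDegree ≤ 4) (hc : ∀ i, f.coeff i ∈ N) {x : Ω} (hx : f.eval x = 0) :
    (N ⊔ K⟮x⟯).fixingSubgroup.relIndex N.fixingSubgroup ≠ 0 ∧
      (N ⊔ K⟮x⟯).fixingSubgroup.relIndex N.fixingSubgroup ≤ 4 := by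
  have hal : Algebra.IsAlgebraic K Ω := IsAlgClosure.isAlgebraic
  have hxi : IsIntegral K x := (Algebra.IsAlgebraic.isAlgebraic x).isIntegral
  have hfx : FiniteDimensional K K⟮x⟯ := IntermediateField.adjoin.finiteDimensional hxi
  have hfs : FiniteDimensional K (N ⊔ K⟮x⟯ : IntermediateField K Ω) :=
    IntermediateField.finiteDimensional_sup N K⟮x⟯
  have h1 := relIndex_fix (M := N) (N := N ⊔ K⟮x⟯) le_sup_left
  have hN : 0 < Module.finrank K N := Module.finrank_pos
  have hS : 0 < Module.finrank K (N ⊔ K⟮x⟯ : IntermediateField K Ω) := Module.finrank_pos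
  have hxN : IsIntegral N x := hxi.tower_top
  obtain ⟨g, hg⟩ : ∃ g : Polynomial N, g.map (algebraMap N Ω) = f := by
    have h2 : f ∈ Polynomial.lifts (algebraMap N Ω) := by
      rw [Polynomial.lifts_iff_coeff_lifts]
      intro n
      exact ⟨⟨f.coeff n, hc n⟩, rfl⟩
    exact (Polynomial.mem_lifts f).1 h2
  have hg0 : g ≠ 0 := by
    rintro rfl
    rw [Polynomial.map_zero] at hg
    exact hf hg.symm
  have hgx : Polynomial.aeval x g = 0 := by
    rw [Polynomial.aeval_def, ← Polynomial.eval_map, hg, hx]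
  have hdg : g.natDegree ≤ 4 := by
    rw [← Polynomial.natDegree_map (algebraMap N Ω), hg]
    exact hd
  have h3 : (minpoly N x).natDegree ≤ 4 :=
    (Polynomial.natDegree_le_natDegree (minpoly.degree_le_of_ne_zero N x hg0 hgx)).trans hdg
  have h4 : Module.finrank K (N ⊔ K⟮x⟯ : IntermediateField K Ω) =
      Module.finrank K N * (minpoly N x).natDegree := by
    have h5 : (N ⊔ K⟮x⟯ : IntermediateField K Ω) = (N⟮x⟯).restrictScalars K :=
      (IntermediateField.restrictScalars_adjoin_eq_sup K N {x}).symm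
    rw [h5, ← IntermediateField.adjoin.finrank hxN]
    exact (Module.finrank_mul_finrank K N N⟮x⟯).symm
  have h6 : (N ⊔ K⟮x⟯).fixingSubgroup.relIndex N.fixingSubgroup = (minpoly N x).natDegree := by
    rw [h4, mul_comm] at h1
    exact Nat.eq_of_mul_eq_mul_left hN h1
  rw [h6]
  exact ⟨(minpoly.natDegree_pos hxN).ne', h3⟩

/-- Proof: `N ≤ N ⊔ M ≤ (N ⊔ M) ⊔ M'`. -/
theorem cp_sup {l : ℕ} {M M' : IntermediateField K Ω} [FiniteDimensional K M]
    (h : Cp l M) (h' : Cp l M') : Cp l (M ⊔ M') := by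
  intro N hN
  rw [cp_step]
  exact (h' (N ⊔ M) (IntermediateField.finiteDimensional_sup N M)).mul_left (h N hN)

/-- The adjunction of a root of a polynomial of degree at most four. Proof: the degree of `(N ⊔ M)(x)` over `N ⊔ M` is the index of the subgroups; it is positive and at most `4`. -/
theorem cp_adj {l : ℕ} (hl : l.Prime) (h5 : 5 ≤ l) {M : IntermediateField K Ω}
    [FiniteDimensional K M] (h : Cp l M) {f : Polynomial Ω} (hf : f ≠ 0) (hd : f.natDegree ≤ 4)
    (hc : ∀ i, f.coeff i ∈ M) {x : Ω} (hx : f.eval x = 0) :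
    FiniteDimensional K (M ⊔ K⟮x⟯ : IntermediateField K Ω) ∧ Cp l (M ⊔ K⟮x⟯) := by
  have hal : Algebra.IsAlgebraic K Ω := IsAlgClosure.isAlgebraic
  have hxi : IsIntegral K x := (Algebra.IsAlgebraic.isAlgebraic x).isIntegral
  have hfx : FiniteDimensional K K⟮x⟯ := IntermediateField.adjoin.finiteDimensional hxi
  refine ⟨IntermediateField.finiteDimensional_sup M K⟮x⟯, ?_⟩
  intro N hN
  rw [cp_step]
  have hNM : FiniteDimensional K (N ⊔ M : IntermediateField K Ω) :=
    IntermediateField.finiteDimensional_sup N M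
  obtain ⟨h1, h2⟩ := cp_deg (N := N ⊔ M) hf hd (fun i => (le_sup_right : M ≤ N ⊔ M) (hc i)) hx
  refine Nat.Coprime.mul_left ?_ (h N hN)
  refine ((Nat.Prime.coprime_iff_not_dvd hl).2 fun h3 => ?_).symm
  have h4 := Nat.le_of_dvd (Nat.pos_of_ne_zero h1) h3
  omega

namespace Ld

/-- A uniformizer of `M`. -/
structure Un (L : Ld K Ω) (M : IntermediateField K Ω) (π : Ω) : Prop where
  mem : π ∈ M
  pos : 0 < L.nm π
  lt : L.nm π < 1
  val : ∀ x ∈ M, x ≠ 0 → ∃ n : ℤ, L.nm x = L.nm π ^ n

theorem exists_un (L : Ld K Ω) (M : IntermediateField K Ω) [FiniteDimensional K M] :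
    ∃ π, L.Un M π := by
  obtain ⟨π, h1, h2, h3, h4⟩ := L.unif M inferInstance
  exact ⟨π, h1, h2, h3, h4⟩

/-- The absolute value of the norm. -/
private theorem nm_norm (L : Ld K Ω) (M : IntermediateField K Ω) [FiniteDimensional K M] (x : M) :
    L.nm (algebraMap K Ω (Algebra.norm K x)) = L.nm (x : Ω) ^ Module.finrank K M := by
  have hcl : IsAlgClosed Ω := IsAlgClosure.isAlgClosed K
  have hal : Algebra.IsAlgebraic K Ω := IsAlgClosure.isAlgebraic
  have hno : Normal K Ω := IsAlgClosure.normal K Ω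
  rw [Algebra.norm_eq_prod_embeddings K Ω x]
  have h1 : ∀ s : Finset (M →ₐ[K] Ω), L.nm (∏ σ ∈ s, σ x) = L.nm (x : Ω) ^ s.card := by
    classical
    intro s
    induction s using Finset.induction_on with
    | empty => rw [Finset.prod_empty, Finset.card_empty, pow_zero, L.one]
    | insert σ s hσ ih =>
      rw [Finset.prod_insert hσ, L.mul, ih, Finset.card_insert_of_notMem hσ, pow_succ, mul_comm]
      congr 1
      have h2 := AlgHom.liftNormal_commutes σ Ω x
      have hb : Function.Bijective (AlgHom.liftNormal σ Ω) :=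
        Algebra.IsAlgebraic.algHom_bijective _
      have h3 := L.act (AlgEquiv.ofBijective _ hb) (x : Ω)
      rw [← h3]
      exact congrArg L.nm h2.symm
  rw [h1, Finset.card_univ, AlgHom.card]

/-- The ramification index is prime to `l`. Proof: let `d` be the index of the subgroup of `M` in the Galois group (`N = ⊥`), prime to `l`. The product of the `d` conjugates of `π'` is in `K` and has norm `nm π' ^ d`, so `nm π' ^ d = nm π ^ k = nm π' ^ (e k)` and `e` divides `d`. -/
theorem cp_ram (L : Ld K Ω) {l : ℕ} {M : IntermediateField K Ω} [FiniteDimensional K M]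
    (h : Cp l M) {π π' : Ω} (hπ : L.Un ⊥ π) (hπ' : L.Un M π') :
    ∃ e : ℕ, L.nm π = L.nm π' ^ e ∧ e.Coprime l := by
  have h1 := nm_norm L M ⟨π', hπ'.mem⟩
  have h2 := h ⊥ inferInstance
  rw [bot_sup_eq] at h2
  have h3 := relIndex_fix (M := (⊥ : IntermediateField K Ω)) (N := M) bot_le
  rw [IntermediateField.finrank_bot, mul_one] at h3
  rw [h3] at h2
  have h0 : algebraMap K Ω (Algebra.norm K (⟨π', hπ'.mem⟩ : M)) ≠ 0 := by
    intro h4
    rw [h4, L.zero] at h1
    exact (pow_pos hπ'.pos _).ne h1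
  obtain ⟨k, hk⟩ := hπ.val _ (IntermediateField.algebraMap_mem _ _) h0
  have hπ0 : π ≠ 0 := L.ne_zero hπ.pos
  obtain ⟨e, he⟩ := hπ'.val π ((bot_le : (⊥ : IntermediateField K Ω) ≤ M) hπ.mem) hπ0
  have hepos : 0 < e := by
    by_contra hn
    have h5 : 1 ≤ L.nm π' ^ e := one_le_zpow_of_nonpos₀ hπ'.pos hπ'.lt.le (not_lt.1 hn)
    exact absurd hπ.lt (by rw [he]; exact not_lt.2 h5)
  have h6 : L.nm π' ^ ((Module.finrank K M : ℕ) : ℤ) = L.nm π' ^ (e * k) := by
    rw [zpow_natCast, ← h1, hk, he, zpow_mul]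
  have h7 : ((Module.finrank K M : ℕ) : ℤ) = e * k :=
    zpow_right_injective₀ hπ'.pos hπ'.lt.ne h6
  obtain ⟨n, rfl⟩ := Int.eq_ofNat_of_zero_le hepos.le
  refine ⟨n, ?_, ?_⟩
  · rw [he, zpow_natCast]
  · refine Nat.Coprime.coprime_dvd_left ?_ h2
    exact Int.natCast_dvd_natCast.1 ⟨k, h7⟩

end Ld

end PE
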