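import Pool.Agent.Lib.MP_f80667_ag.Pe.Semi
import Pool.Agent.Lib.MP_f80667_ag.Pe.Cp

/-!
Semistable reduction over an extension of degree prime to `l`: towers of extensions of degree at most four, and the
Legendre form.
-/

open ZC BE Polynomial IntermediateField

namespace PE

section gd

variable {K Ω : Type} [Field K] [CharZero K] [Field Ω] [Algebra K Ω] [IsAlgClosure K Ω]

/-- A finite extension such that the degrees of the composites are prime to all `l ≥ 5`. -/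
def SeG (M : IntermediateField K Ω) : Prop :=
  FiniteDimensional K M ∧ ∀ l : ℕ, l.Prime → 5 ≤ l → Cp l M

theorem seg_bot : SeG (⊥ : IntermediateField K Ω) := ⟨inferInstance, fun l _ _ => cp_bot l⟩

/-- The adjunction of a root of a polynomial of degree at most four. -/
theorem seg_adj {M : IntermediateField K Ω} (h : SeG M) {f : Polynomial Ω} (hf : f ≠ 0)
    (hd : f.natDegree ≤ 4) (hc : ∀ i, f.coeff i ∈ M) {x : Ω} (hx : f.eval x = 0) :
    ∃ M' : IntermediateField K Ω, M ≤ M' ∧ x ∈ M' ∧ SeG M' := by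
  have := h.1
  refine ⟨M ⊔ K⟮x⟯, le_sup_left, (le_sup_right : K⟮x⟯ ≤ _) (mem_adjoin_simple_self K x), ?_, ?_⟩
  · exact (cp_adj (l := 5) (by norm_num) le_rfl (h.2 5 (by norm_num) le_rfl) hf hd hc hx).1
  · intro l hl h5
    exact (cp_adj hl h5 (h.2 l hl h5) hf hd hc hx).2

/-- The adjunction of an `n`-th root, `n ≤ 4`. -/
theorem seg_pow {M : IntermediateField K Ω} (h : SeG M) {a : Ω} (ha : a ∈ M) {n : ℕ} (hn : 0 < n)
    (hn4 : n ≤ 4) :
    ∃ (x : Ω) (M' : IntermediateField K Ω), x ^ n = a ∧ M ≤ M' ∧ x ∈ M' ∧ SeG M' := by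
  have : IsAlgClosed Ω := IsAlgClosure.isAlgClosed K
  obtain ⟨x, hx⟩ := IsAlgClosed.exists_pow_nat_eq a hn
  obtain ⟨M', h1, h2, h3⟩ := seg_adj h (f := X ^ n - C a) (X_pow_sub_C_ne_zero hn a)
    (by rw [natDegree_X_pow_sub_C]; exact hn4) (fun i => by
      rw [coeff_sub, coeff_X_pow, coeff_C]
      refine sub_mem ?_ ?_
      · split_ifs
        exacts [one_mem _, zero_mem _]
      · split_ifs
        exacts [ha, zero_mem _]) (x := x) (by simp [hx])
  exact ⟨x, M', hx, h1, h2, h3⟩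

/-- The coefficients of the curve are in `M`. -/
structure SeC (M : IntermediateField K Ω) (W : WeierstrassCurve Ω) : Prop where
  a₁ : W.a₁ ∈ M
  a₂ : W.a₂ ∈ M
  a₃ : W.a₃ ∈ M
  a₄ : W.a₄ ∈ M
  a₆ : W.a₆ ∈ M

theorem SeC.mono {M M' : IntermediateField K Ω} {W : WeierstrassCurve Ω} (h : SeC M W)
    (hM : M ≤ M') : SeC M' W := ⟨hM h.a₁, hM h.a₂, hM h.a₃, hM h.a₄, hM h.a₆⟩

theorem sec_base {F : Type} [Field F] [Algebra F K] [Algebra F Ω] [IsScalarTower F K Ω]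
    (W : WeierstrassCurve F) (M : IntermediateField K Ω) : SeC M (W.baseChange Ω) := by
  have h1 : ∀ x : F, algebraMap F Ω x ∈ M := fun x => by
    rw [IsScalarTower.algebraMap_apply F K Ω]
    exact M.algebraMap_mem _
  exact ⟨h1 _, h1 _, h1 _, h1 _, h1 _⟩

theorem seg_nat (M : IntermediateField K Ω) (n : ℕ) : (n : Ω) ∈ M := _root_.natCast_mem M n

theorem SeC.b₂ {M : IntermediateField K Ω} {W : WeierstrassCurve Ω} (h : SeC M W) : W.b₂ ∈ M := by
  have h4 : (4 : Ω) ∈ M := by exact_mod_cast seg_nat M 4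
  exact add_mem (pow_mem h.a₁ 2) (mul_mem h4 h.a₂)

theorem SeC.b₄ {M : IntermediateField K Ω} {W : WeierstrassCurve Ω} (h : SeC M W) : W.b₄ ∈ M := by
  have h2 : (2 : Ω) ∈ M := by exact_mod_cast seg_nat M 2
  exact add_mem (mul_mem h2 h.a₄) (mul_mem h.a₁ h.a₃)

theorem SeC.b₆ {M : IntermediateField K Ω} {W : WeierstrassCurve Ω} (h : SeC M W) : W.b₆ ∈ M := by
  have h4 : (4 : Ω) ∈ M := by exact_mod_cast seg_nat M 4
  exact add_mem (pow_mem h.a₃ 2) (mul_mem h4 h.a₆)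

theorem SeC.b₈ {M : IntermediateField K Ω} {W : WeierstrassCurve Ω} (h : SeC M W) : W.b₈ ∈ M := by
  have h4 : (4 : Ω) ∈ M := by exact_mod_cast seg_nat M 4
  unfold WeierstrassCurve.b₈
  exact sub_mem (add_mem (sub_mem (add_mem (mul_mem (pow_mem h.a₁ 2) h.a₆)
    (mul_mem (mul_mem h4 h.a₂) h.a₆)) (mul_mem (mul_mem h.a₁ h.a₃) h.a₄))
    (mul_mem h.a₂ (pow_mem h.a₃ 2))) (pow_mem h.a₄ 2)

theorem SeC.smul {M : IntermediateField K Ω} {W : WeierstrassCurve Ω} (h : SeC M W)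
    {C : WeierstrassCurve.VariableChange Ω} (hu : (C.u : Ω) ∈ M) (hr : C.r ∈ M) (hs : C.s ∈ M)
    (ht : C.t ∈ M) : SeC M (C • W) := by
  have h2 : (2 : Ω) ∈ M := by exact_mod_cast seg_nat M 2
  have h3 : (3 : Ω) ∈ M := by exact_mod_cast seg_nat M 3
  have hi : ((C.u⁻¹ : Ωˣ) : Ω) ∈ M := by
    rw [Units.val_inv_eq_inv_val]
    exact inv_mem hu
  refine ⟨?_, ?_, ?_, ?_, ?_⟩
  · rw [WeierstrassCurve.variableChange_a₁]
    exact mul_mem hi (add_mem h.a₁ (mul_mem h2 hs))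
  · rw [WeierstrassCurve.variableChange_a₂]
    exact mul_mem (pow_mem hi 2) (sub_mem (add_mem (sub_mem h.a₂ (mul_mem hs h.a₁))
      (mul_mem h3 hr)) (pow_mem hs 2))
  · rw [WeierstrassCurve.variableChange_a₃]
    exact mul_mem (pow_mem hi 3) (add_mem (add_mem h.a₃ (mul_mem hr h.a₁)) (mul_mem h2 ht))
  · rw [WeierstrassCurve.variableChange_a₄]
    exact mul_mem (pow_mem hi 4) (sub_mem (add_mem (sub_mem (add_mem (sub_mem h.a₄
      (mul_mem hs h.a₃)) (mul_mem (mul_mem h2 hr) h.a₂)) (mul_mem (add_mem ht (mul_mem hr hs))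
      h.a₁)) (mul_mem h3 (pow_mem hr 2))) (mul_mem (mul_mem h2 hs) ht))
  · rw [WeierstrassCurve.variableChange_a₆]
    exact mul_mem (pow_mem hi 6) (sub_mem (sub_mem (sub_mem (add_mem (add_mem (add_mem h.a₆
      (mul_mem hr h.a₄)) (mul_mem (pow_mem hr 2) h.a₂)) (pow_mem hr 3)) (mul_mem ht h.a₃))
      (pow_mem ht 2)) (mul_mem (mul_mem hr ht) h.a₁))

/-- The variable change is defined over `M`. -/
structure SeV (M : IntermediateField K Ω) (C : WeierstrassCurve.VariableChange Ω) : Prop where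
  u : (C.u : Ω) ∈ M
  r : C.r ∈ M
  s : C.s ∈ M
  t : C.t ∈ M

theorem SeV.mono {M M' : IntermediateField K Ω} {C : WeierstrassCurve.VariableChange Ω} (h : SeV M C)
    (hM : M ≤ M') : SeV M' C := ⟨hM h.u, hM h.r, hM h.s, hM h.t⟩

theorem SeV.mul {M : IntermediateField K Ω} {C C' : WeierstrassCurve.VariableChange Ω} (h : SeV M C)
    (h' : SeV M C') : SeV M (C * C') := by
  rw [WeierstrassCurve.VariableChange.mul_def]
  refine ⟨?_, ?_, ?_, ?_⟩
  · rw [Units.val_mul]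
    exact mul_mem h.u h'.u
  · exact add_mem (mul_mem h.r (pow_mem h'.u 2)) h'.r
  · exact add_mem (mul_mem h'.u h.s) h'.s
  · exact add_mem (add_mem (mul_mem h.t (pow_mem h'.u 3)) (mul_mem (mul_mem h.r h'.s)
      (pow_mem h'.u 2))) h'.t

/-- A root of the polynomial of the points of order two. -/
theorem seg_two {M : IntermediateField K Ω} (h : SeG M) {W : WeierstrassCurve Ω} (hW : SeC M W) :
    ∃ (r : Ω) (M' : IntermediateField K Ω), 4 * r ^ 3 + W.b₂ * r ^ 2 + 2 * W.b₄ * r + W.b₆ = 0 ∧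
      M ≤ M' ∧ r ∈ M' ∧ SeG M' := by
  have : IsAlgClosed Ω := IsAlgClosure.isAlgClosed K
  have : CharZero Ω := charZero_of_injective_algebraMap (algebraMap K Ω).injective
  have h2 : (2 : Ω) ∈ M := by exact_mod_cast seg_nat M 2
  have h4 : (4 : Ω) ∈ M := by exact_mod_cast seg_nat M 4
  have hd : W.Ψ₂Sq.natDegree = 3 := W.natDegree_Ψ₂Sq (by norm_num)
  have h0 : W.Ψ₂Sq ≠ 0 := fun h0 => by rw [h0] at hd; simp at hd
  have hd' : W.Ψ₂Sq.degree ≠ 0 := by
    rw [Polynomial.degree_eq_natDegree h0, hd]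
    norm_num
  obtain ⟨r, hr⟩ := IsAlgClosed.exists_root W.Ψ₂Sq hd'
  have h1 : W.Ψ₂Sq.eval r = 0 := hr
  have hif : ∀ (p : Prop) [Decidable p] (a : Ω), a ∈ M → (if p then a else 0) ∈ M := by
    intro p _ a ha
    split_ifs
    exacts [ha, zero_mem _]
  obtain ⟨M', h5, h6, h7⟩ := seg_adj h h0 (by rw [hd]; norm_num) (fun i => by
    unfold WeierstrassCurve.Ψ₂Sq
    rw [coeff_add, coeff_add, coeff_add, coeff_C_mul, coeff_C_mul, coeff_C_mul, coeff_X_pow,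
      coeff_X_pow, coeff_X, coeff_C]
    exact add_mem (add_mem (add_mem (mul_mem h4 (hif _ _ (one_mem _)))
      (mul_mem hW.b₂ (hif _ _ (one_mem _)))) (mul_mem (mul_mem h2 hW.b₄) (hif _ _ (one_mem _))))
      (hif _ _ hW.b₆)) h1
  refine ⟨r, M', ?_, h5, h6, h7⟩
  simpa [WeierstrassCurve.Ψ₂Sq] using h1

end gd

section alg

variable {Ω : Type} [Field Ω]

/-- The form `y² = x³ + a x² + b x`. -/
theorem semiEA_form [CharZero Ω] (W : WeierstrassCurve Ω) (h : W.Δ ≠ 0) (r : Ω)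
    (hr : 4 * r ^ 3 + W.b₂ * r ^ 2 + 2 * W.b₄ * r + W.b₆ = 0)
    (C : WeierstrassCurve.VariableChange Ω)
    (hC : C = ⟨1, r, -(W.a₁ / 2), -((W.a₃ + r * W.a₁) / 2)⟩) :
    (C • W).a₁ = 0 ∧ (C • W).a₃ = 0 ∧ (C • W).a₆ = 0 ∧ (C • W).Δ ≠ 0 := by
  have h2 : (2 : Ω) ≠ 0 := two_ne_zero
  set s : Ω := -(W.a₁ / 2) with hs
  set t : Ω := -((W.a₃ + r * W.a₁) / 2) with ht
  have hs' : 2 * s = -W.a₁ := by rw [hs]; field_simp
  have ht' : 2 * t = -(W.a₃ + r * W.a₁) := by rw [ht]; field_simp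
  refine ⟨?_, ?_, ?_, ?_⟩
  · rw [WeierstrassCurve.variableChange_a₁]
    simp only [hC, inv_one, Units.val_one]
    linear_combination hs'
  · rw [WeierstrassCurve.variableChange_a₃]
    simp only [hC, inv_one, Units.val_one]
    linear_combination ht'
  · rw [WeierstrassCurve.variableChange_a₆]
    simp only [hC, inv_one, Units.val_one]
    rw [WeierstrassCurve.b₂, WeierstrassCurve.b₄, WeierstrassCurve.b₆] at hr
    have h4 : (4 : Ω) ≠ 0 := by norm_num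
    apply mul_left_cancel₀ h4
    linear_combination hr - (2 * t + (W.a₃ + r * W.a₁)) * ht'
  · rw [WeierstrassCurve.variableChange_Δ]
    simpa [hC] using h

end alg

namespace Ld

variable {K Ω : Type} [Field K] [CharZero K] [Field Ω] [Algebra K Ω] [IsAlgClosure K Ω]

/-- The scaling of the form `y² = x³ + a x² + b x`. -/
theorem semiEA_scale (L : Ld K Ω) (h2 : L.nm 2 = 1)
    (W : WeierstrassCurve Ω) (h1 : W.a₁ = 0) (h3 : W.a₃ = 0) (h6 : W.a₆ = 0) (h : W.Δ ≠ 0)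
    (z : Ω) (hz : z ^ 2 = W.a₂ ^ 2 - 4 * W.a₄) :
    ∃ α : Ω, (α = (-W.a₂ + z) / 2 ∨ α = (-W.a₂ - z) / 2) ∧ ∀ u : Ω, u ^ 2 = α →
      ∃ hu0 : u ≠ 0,
        L.Ss ((⟨Units.mk0 u hu0, 0, 0, 0⟩ : WeierstrassCurve.VariableChange Ω) • W) := by
  have : CharZero Ω := charZero_of_injective_algebraMap (algebraMap K Ω).injective
  have h20 : (2 : Ω) ≠ 0 := two_ne_zero
  -- the two other roots
  obtain ⟨α, β, hor, hs, hp, hab⟩ : ∃ α β : Ω, (α = (-W.a₂ + z) / 2 ∨ α = (-W.a₂ - z) / 2) ∧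
      α + β = -W.a₂ ∧ α * β = W.a₄ ∧ L.nm β ≤ L.nm α := by
    have e1 : (-W.a₂ + z) / 2 + (-W.a₂ - z) / 2 = -W.a₂ := by
      field_simp
      ring
    have e2 : (-W.a₂ + z) / 2 * ((-W.a₂ - z) / 2) = W.a₄ := by
      field_simp
      linear_combination -hz
    rcases le_total (L.nm ((-W.a₂ - z) / 2)) (L.nm ((-W.a₂ + z) / 2)) with hle | hle
    · exact ⟨_, _, Or.inl rfl, e1, e2, hle⟩
    · exact ⟨_, _, Or.inr rfl, by rw [add_comm]; exact e1, by rw [mul_comm]; exact e2, hle⟩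
  refine ⟨α, hor, fun u hu => ?_⟩
  have hα : α ≠ 0 := by
    intro h0
    apply h
    have h4 : W.a₄ = 0 := by rw [← hp, h0, zero_mul]
    simp only [WeierstrassCurve.Δ, WeierstrassCurve.b₂, WeierstrassCurve.b₄, WeierstrassCurve.b₆,
      WeierstrassCurve.b₈, h1, h3, h4, h6]
    ring
  have hu0 : u ≠ 0 := by
    rintro rfl
    exact hα (by rw [← hu]; simp)
  refine ⟨hu0, ?_⟩
  set lam : Ω := β * α⁻¹ with hlam
  have hln : L.nm lam ≤ 1 := by
    rw [hlam, L.mul, L.inv]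
    have hpos : 0 < L.nm α := L.pos hα
    rw [← div_eq_mul_inv, div_le_one hpos]
    exact hab
  have hui : u⁻¹ ^ 2 = α⁻¹ := by
    rw [← hu, inv_pow]
  set C : WeierstrassCurve.VariableChange Ω := ⟨Units.mk0 u hu0, 0, 0, 0⟩ with hC
  have e1 : (C • W).a₁ = 0 := by
    rw [WeierstrassCurve.variableChange_a₁]
    simp [hC, h1]
  have e2 : (C • W).a₂ = -(1 + lam) := by
    rw [WeierstrassCurve.variableChange_a₂]
    have e0 : ((C.u⁻¹ : Ωˣ) : Ω) = u⁻¹ := by simp [hC]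
    rw [e0]
    simp only [hC, h1]
    rw [hui, hlam]
    have hs' : W.a₂ = -(α + β) := by rw [hs, neg_neg]
    rw [hs']
    field_simp
    ring
  have e3 : (C • W).a₃ = 0 := by
    rw [WeierstrassCurve.variableChange_a₃]
    simp [hC, h1, h3]
  have e4 : (C • W).a₄ = lam := by
    rw [WeierstrassCurve.variableChange_a₄]
    have e0 : ((C.u⁻¹ : Ωˣ) : Ω) = u⁻¹ := by simp [hC]
    rw [e0]
    simp only [hC, h1, h3]
    have e5 : u⁻¹ ^ 4 = α⁻¹ ^ 2 := by
      rw [← hui]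
      ring
    rw [e5, hlam, ← hp]
    field_simp
    ring
  have e6 : (C • W).a₆ = 0 := by
    rw [WeierstrassCurve.variableChange_a₆]
    simp [hC, h1, h3, h6]
  have eΔ : (C • W).Δ = 16 * (lam * (lam - 1)) ^ 2 := by
    simp only [WeierstrassCurve.Δ, WeierstrassCurve.b₂, WeierstrassCurve.b₄,
      WeierstrassCurve.b₆, WeierstrassCurve.b₈, e1, e2, e3, e4, e6]
    ring
  have ec : (C • W).c₄ = 16 * (1 + lam * (lam - 1)) := by
    simp only [WeierstrassCurve.c₄, WeierstrassCurve.b₂, WeierstrassCurve.b₄, e1, e2, e3, e4]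
    ring
  have n16 : L.nm 16 = 1 := by
    have h5 : L.nm ((2 : Ω) ^ 4) = 1 := by rw [L.pow, h2, one_pow]
    norm_num at h5
    exact h5
  have hl1 : L.nm (lam - 1) ≤ 1 := (L.sub _ _).trans (max_le hln L.one.le)
  have hw : L.nm (lam * (lam - 1)) ≤ 1 := by
    rw [L.mul]
    exact mul_le_one₀ hln (L.nonneg _) hl1
  refine ⟨by rw [e1, L.zero]; exact zero_le_one, ?_, by rw [e3, L.zero]; exact zero_le_one,
    by rw [e4]; exact hln, by rw [e6, L.zero]; exact zero_le_one, ?_, ?_⟩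
  · rw [e2, L.neg]
    exact (L.add _ _).trans (max_le L.one.le hln)
  · rw [eΔ, L.mul, n16, one_mul, L.pow]
    exact pow_le_one₀ (L.nonneg _) hw
  · rcases hw.eq_or_lt with hd | hd
    · left
      rw [eΔ, L.mul, n16, one_mul, L.pow, hd, one_pow]
    · right
      rw [ec, L.mul, n16, one_mul]
      exact L.one_add hd

/-- Semistable reduction over a field `M` with `SeG M` if `2` is a unit. -/
theorem semiEA_odd (L : Ld K Ω) (h2 : L.nm 2 = 1) (W : WeierstrassCurve Ω) (h : W.Δ ≠ 0)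
    (hW : SeC (⊥ : IntermediateField K Ω) W) :
    ∃ (M : IntermediateField K Ω) (C : WeierstrassCurve.VariableChange Ω), SeG M ∧ SeV M C ∧
      L.Ss (C • W) := by
  have : CharZero Ω := charZero_of_injective_algebraMap (algebraMap K Ω).injective
  obtain ⟨r, M₁, hr, h01, hr1, hM₁⟩ := seg_two seg_bot hW
  have hW1 : SeC M₁ W := hW.mono h01
  have two1 : (2 : Ω) ∈ M₁ := by exact_mod_cast seg_nat M₁ 2
  have four1 : (4 : Ω) ∈ M₁ := by exact_mod_cast seg_nat M₁ 4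
  set C₁ : WeierstrassCurve.VariableChange Ω :=
    ⟨1, r, -(W.a₁ / 2), -((W.a₃ + r * W.a₁) / 2)⟩ with hC₁
  obtain ⟨a1, a3, a6, hΔ⟩ := semiEA_form W h r hr C₁ hC₁
  have hV1 : SeV M₁ C₁ := ⟨by rw [hC₁]; exact one_mem _, hr1, neg_mem (div_mem hW1.a₁ two1),
    neg_mem (div_mem (add_mem hW1.a₃ (mul_mem hr1 hW1.a₁)) two1)⟩
  have hW' : SeC M₁ (C₁ • W) := hW1.smul hV1.u hV1.r hV1.s hV1.t
  obtain ⟨z, M₂, hz, h12, hz2, hM₂⟩ := seg_pow hM₁
    (sub_mem (pow_mem hW'.a₂ 2) (mul_mem four1 hW'.a₄)) (n := 2) (by norm_num) (by norm_num)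
  obtain ⟨α, hα, hC⟩ := L.semiEA_scale h2 (C₁ • W) a1 a3 a6 hΔ z hz
  have two2 : (2 : Ω) ∈ M₂ := h12 two1
  have hα2 : α ∈ M₂ := by
    rcases hα with rfl | rfl
    · exact div_mem (add_mem (neg_mem (h12 hW'.a₂)) hz2) two2
    · exact div_mem (sub_mem (neg_mem (h12 hW'.a₂)) hz2) two2
  obtain ⟨u, M₃, hu, h23, hu3, hM₃⟩ := seg_pow hM₂ hα2 (n := 2) (by norm_num) (by norm_num)
  obtain ⟨hu0, hss⟩ := hC u hu
  refine ⟨M₃, ⟨Units.mk0 u hu0, 0, 0, 0⟩ * C₁, hM₃, ?_, ?_⟩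
  · refine SeV.mul ⟨hu3, zero_mem _, zero_mem _, zero_mem _⟩ (hV1.mono (h12.trans h23))
  · rw [mul_smul]
    exact hss

end Ld

end PE
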