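import Pool.Agent.Lib.MP_f80667_ag.Pe.Semi
import Pool.Agent.Lib.MP_f80667_ag.Pe.Cp

/-! Semistable reduction, residue characteristic not `3`: the field of definition. -/

open ZC BE Polynomial IntermediateField

namespace PE

variable {K Ω : Type} [Field K] [CharZero K] [Field Ω] [Algebra K Ω] [IsAlgClosure K Ω]

/-- The coefficients of the curve are in `M`. -/
private structure Wm (M : IntermediateField K Ω) (W : WeierstrassCurve Ω) : Prop where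
  a₁ : W.a₁ ∈ M
  a₂ : W.a₂ ∈ M
  a₃ : W.a₃ ∈ M
  a₄ : W.a₄ ∈ M
  a₆ : W.a₆ ∈ M

/-- The entries of the change of variables are in `M`. -/
private structure Vm (M : IntermediateField K Ω) (C : WeierstrassCurve.VariableChange Ω) :
    Prop where
  u : (C.u : Ω) ∈ M
  r : C.r ∈ M
  s : C.s ∈ M
  t : C.t ∈ M

omit [CharZero K] [IsAlgClosure K Ω] in
private theorem Wm.le {M N : IntermediateField K Ω} {W : WeierstrassCurve Ω} (h : Wm M W)
    (hMN : M ≤ N) : Wm N W :=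
  ⟨hMN h.a₁, hMN h.a₂, hMN h.a₃, hMN h.a₄, hMN h.a₆⟩

omit [CharZero K] [IsAlgClosure K Ω] in
private theorem Vm.le {M N : IntermediateField K Ω} {C : WeierstrassCurve.VariableChange Ω}
    (h : Vm M C) (hMN : M ≤ N) : Vm N C :=
  ⟨hMN h.u, hMN h.r, hMN h.s, hMN h.t⟩

omit [CharZero K] [IsAlgClosure K Ω] in
private theorem vm_ui {M : IntermediateField K Ω} {C : WeierstrassCurve.VariableChange Ω}
    (h : Vm M C) : ((C.u⁻¹ : Ωˣ) : Ω) ∈ M := by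
  rw [Units.val_inv_eq_inv_val]
  exact M.inv_mem h.u

omit [CharZero K] [IsAlgClosure K Ω] in
private theorem Vm.mul {M : IntermediateField K Ω} {C C' : WeierstrassCurve.VariableChange Ω}
    (h : Vm M C) (h' : Vm M C') : Vm M (C * C') := by
  rw [WeierstrassCurve.VariableChange.mul_def]
  refine ⟨?_, ?_, ?_, ?_⟩
  · change ((C.u * C'.u : Ωˣ) : Ω) ∈ M
    rw [Units.val_mul]
    exact M.mul_mem h.u h'.u
  · exact M.add_mem (M.mul_mem h.r (pow_mem h'.u 2)) h'.r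
  · exact M.add_mem (M.mul_mem h'.u h.s) h'.s
  · exact M.add_mem (M.add_mem (M.mul_mem h.t (pow_mem h'.u 3))
      (M.mul_mem (M.mul_mem h.r h'.s) (pow_mem h'.u 2))) h'.t

omit [CharZero K] [IsAlgClosure K Ω] in
private theorem ofn_mem (M : IntermediateField K Ω) (n : ℕ) [n.AtLeastTwo] :
    (OfNat.ofNat n : Ω) ∈ M := by
  rw [← Nat.cast_ofNat]
  exact IntermediateField.natCast_mem M _

omit [CharZero K] [IsAlgClosure K Ω] in
private theorem Wm.smul {M : IntermediateField K Ω} {W : WeierstrassCurve Ω}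
    {C : WeierstrassCurve.VariableChange Ω} (h : Wm M W) (hC : Vm M C) : Wm M (C • W) := by
  have hu := vm_ui hC
  refine ⟨?_, ?_, ?_, ?_, ?_⟩
  · rw [WeierstrassCurve.variableChange_a₁]
    exact M.mul_mem hu (M.add_mem h.a₁ (M.mul_mem (ofn_mem M 2) hC.s))
  · rw [WeierstrassCurve.variableChange_a₂]
    exact M.mul_mem (pow_mem hu 2) (M.sub_mem (M.add_mem (M.sub_mem h.a₂ (M.mul_mem hC.s h.a₁))
      (M.mul_mem (ofn_mem M 3) hC.r)) (pow_mem hC.s 2))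
  · rw [WeierstrassCurve.variableChange_a₃]
    exact M.mul_mem (pow_mem hu 3) (M.add_mem (M.add_mem h.a₃ (M.mul_mem hC.r h.a₁))
      (M.mul_mem (ofn_mem M 2) hC.t))
  · rw [WeierstrassCurve.variableChange_a₄]
    refine M.mul_mem (pow_mem hu 4) (M.sub_mem (M.add_mem (M.sub_mem (M.add_mem (M.sub_mem h.a₄
      (M.mul_mem hC.s h.a₃)) (M.mul_mem (M.mul_mem (ofn_mem M 2) hC.r) h.a₂))
      (M.mul_mem (M.add_mem hC.t (M.mul_mem hC.r hC.s)) h.a₁))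
      (M.mul_mem (ofn_mem M 3) (pow_mem hC.r 2)))
      (M.mul_mem (M.mul_mem (ofn_mem M 2) hC.s) hC.t))
  · rw [WeierstrassCurve.variableChange_a₆]
    exact M.mul_mem (pow_mem hu 6) (M.sub_mem (M.sub_mem (M.sub_mem (M.add_mem (M.add_mem
      (M.add_mem h.a₆ (M.mul_mem hC.r h.a₄)) (M.mul_mem (pow_mem hC.r 2) h.a₂)) (pow_mem hC.r 3))
      (M.mul_mem hC.t h.a₃)) (pow_mem hC.t 2)) (M.mul_mem (M.mul_mem hC.r hC.t) h.a₁))

/-- The field is finite and the degrees are prime to all `l ≥ 5`. -/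
private structure Cq (M : IntermediateField K Ω) : Prop where
  fin : FiniteDimensional K M
  cp : ∀ l : ℕ, l.Prime → 5 ≤ l → Cp l M

/-- The adjunction of a root. -/
private theorem cq_adj {M : IntermediateField K Ω} (h : Cq M) (a b c d e : M)
    (hne : a ≠ 0 ∨ b ≠ 0 ∨ c ≠ 0) {x : Ω}
    (hx : (a : Ω) * x ^ 4 + b * x ^ 3 + c * x ^ 2 + d * x + e = 0) :
    ∃ N : IntermediateField K Ω, Cq N ∧ M ≤ N ∧ x ∈ N := by
  have := h.fin
  set g : Polynomial M := Polynomial.C a * X ^ 4 + Polynomial.C b * X ^ 3 +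
    Polynomial.C c * X ^ 2 + Polynomial.C d * X + Polynomial.C e with hg
  have hgd : g.natDegree ≤ 4 := by
    rw [hg]
    compute_degree
  have hg0 : g ≠ 0 := by
    intro h0
    have h4 : g.coeff 4 = a := by
      rw [hg]
      simp [coeff_X, coeff_C]
    have h3 : g.coeff 3 = b := by
      rw [hg]
      simp [coeff_X, coeff_C]
    have h2 : g.coeff 2 = c := by
      rw [hg]
      simp [coeff_X, coeff_C]
    rw [h0, coeff_zero] at h4 h3 h2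
    rcases hne with h1 | h1 | h1
    · exact h1 h4.symm
    · exact h1 h3.symm
    · exact h1 h2.symm
  have hf0 : g.map (algebraMap M Ω) ≠ 0 := (Polynomial.map_ne_zero_iff
    (algebraMap M Ω).injective).2 hg0
  have hfd : (g.map (algebraMap M Ω)).natDegree ≤ 4 := natDegree_map_le.trans hgd
  have hfc : ∀ i, (g.map (algebraMap M Ω)).coeff i ∈ M := by
    intro i
    rw [coeff_map]
    exact (g.coeff i).2
  have hfx : (g.map (algebraMap M Ω)).eval x = 0 := by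
    rw [hg]
    simp only [Polynomial.map_add, Polynomial.map_mul, Polynomial.map_C, Polynomial.map_pow,
      Polynomial.map_X, eval_add, eval_mul, eval_C, eval_pow, eval_X]
    exact hx
  refine ⟨M ⊔ K⟮x⟯, ⟨?_, ?_⟩, le_sup_left, ?_⟩
  · exact (cp_adj (l := 5) (by norm_num) le_rfl (h.cp 5 (by norm_num) le_rfl) hf0 hfd hfc hfx).1
  · intro l hl h5
    exact (cp_adj hl h5 (h.cp l hl h5) hf0 hfd hfc hfx).2
  · exact (le_sup_right : K⟮x⟯ ≤ M ⊔ K⟮x⟯) (mem_adjoin_simple_self K x)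

omit [CharZero K] [IsAlgClosure K Ω] in
/-- The tangent at a flex. -/
private theorem tan_mem {M : IntermediateField K Ω} {W : WeierstrassCurve Ω} (hW : Wm M W)
    (h6 : W.a₆ = 0) (h8 : W.b₈ = 0) (h : W.Δ ≠ 0) :
    ∃ C : WeierstrassCurve.VariableChange Ω, Vm M C ∧
      (C • W).a₂ = 0 ∧ (C • W).a₃ ≠ 0 ∧ (C • W).a₄ = 0 ∧ (C • W).a₆ = 0 := by
  have h8' : W.a₂ * W.a₃ ^ 2 - W.a₁ * W.a₃ * W.a₄ - W.a₄ ^ 2 = 0 := by
    rw [WeierstrassCurve.b₈, h6] at h8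
    linear_combination h8
  have h3 : W.a₃ ≠ 0 := by
    intro h3
    apply h
    have h4 : W.a₄ = 0 := by
      have h5 : W.a₄ ^ 2 = 0 := by
        rw [h3] at h8'
        linear_combination -h8'
      exact pow_eq_zero_iff (two_ne_zero) |>.1 h5
    simp only [WeierstrassCurve.Δ, WeierstrassCurve.b₂, WeierstrassCurve.b₄, WeierstrassCurve.b₆,
      WeierstrassCurve.b₈, h3, h4, h6]
    ring
  have h1 : W.a₄ / W.a₃ * W.a₃ = W.a₄ := div_mul_cancel₀ _ h3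
  refine ⟨⟨1, 0, W.a₄ / W.a₃, 0⟩, ⟨?_, M.zero_mem, M.div_mem hW.a₄ hW.a₃, M.zero_mem⟩, ?_, ?_, ?_,
    ?_⟩
  · rw [Units.val_one]
    exact M.one_mem
  · rw [WeierstrassCurve.variableChange_a₂]
    simp only [inv_one, Units.val_one]
    have h2 : (W.a₂ - W.a₄ / W.a₃ * W.a₁ - (W.a₄ / W.a₃) ^ 2) * W.a₃ ^ 2 = 0 := by
      linear_combination h8' - (W.a₁ * W.a₃ + W.a₄ / W.a₃ * W.a₃ + W.a₄) * h1
    have h2' := (mul_eq_zero.1 h2).resolve_right (pow_ne_zero 2 h3)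
    linear_combination h2'
  · rw [WeierstrassCurve.variableChange_a₃]
    simpa using h3
  · rw [WeierstrassCurve.variableChange_a₄]
    simp only [inv_one, Units.val_one]
    linear_combination -h1
  · rw [WeierstrassCurve.variableChange_a₆]
    simp only [inv_one, Units.val_one]
    linear_combination h6

/-- A point of order three: the form `y² + a x y + b y = x³`. -/
private theorem form_mem {M : IntermediateField K Ω} (hM : Cq M) {W : WeierstrassCurve Ω}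
    (hW : Wm M W) (h : W.Δ ≠ 0) :
    ∃ (N : IntermediateField K Ω) (C : WeierstrassCurve.VariableChange Ω), Cq N ∧ M ≤ N ∧ Vm N C ∧
      (C • W).a₂ = 0 ∧ (C • W).a₃ ≠ 0 ∧ (C • W).a₄ = 0 ∧ (C • W).a₆ = 0 := by
  have : IsAlgClosed Ω := IsAlgClosure.isAlgClosed K
  have : CharZero Ω := charZero_of_injective_algebraMap (algebraMap K Ω).injective
  obtain ⟨r, hr⟩ : ∃ r : Ω, 3 * r ^ 4 + W.b₂ * r ^ 3 + 3 * W.b₄ * r ^ 2 + 3 * W.b₆ * r + W.b₈ = 0 := by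
    have hd : W.Ψ₃.natDegree = 4 := W.natDegree_Ψ₃ (by norm_num)
    have hd' : W.Ψ₃.degree ≠ 0 := by
      rw [Polynomial.degree_eq_natDegree (fun h0 => by rw [h0] at hd; simp at hd), hd]
      norm_num
    obtain ⟨r, hr⟩ := IsAlgClosed.exists_root W.Ψ₃ hd'
    refine ⟨r, ?_⟩
    have h1 : W.Ψ₃.eval r = 0 := hr
    simpa [WeierstrassCurve.Ψ₃] using h1
  obtain ⟨t, ht⟩ : ∃ t : Ω, t ^ 2 + (W.a₁ * r + W.a₃) * t -
      (r ^ 3 + W.a₂ * r ^ 2 + W.a₄ * r + W.a₆) = 0 := by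
    obtain ⟨z, hz⟩ := IsAlgClosed.exists_pow_nat_eq
      ((W.a₁ * r + W.a₃) ^ 2 + 4 * (r ^ 3 + W.a₂ * r ^ 2 + W.a₄ * r + W.a₆)) (n := 2) (by norm_num)
    refine ⟨(z - (W.a₁ * r + W.a₃)) / 2, ?_⟩
    have h2 : (2 : Ω) ≠ 0 := two_ne_zero
    field_simp
    linear_combination hz
  have b₂ : W.b₂ ∈ M := M.add_mem (pow_mem hW.a₁ 2) (M.mul_mem (ofn_mem M 4) hW.a₂)
  have b₄ : W.b₄ ∈ M := M.add_mem (M.mul_mem (ofn_mem M 2) hW.a₄) (M.mul_mem hW.a₁ hW.a₃)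
  have b₆ : W.b₆ ∈ M := M.add_mem (pow_mem hW.a₃ 2) (M.mul_mem (ofn_mem M 4) hW.a₆)
  have b₈ : W.b₈ ∈ M := by
    rw [WeierstrassCurve.b₈]
    exact M.sub_mem (M.add_mem (M.sub_mem (M.add_mem (M.mul_mem (pow_mem hW.a₁ 2) hW.a₆)
      (M.mul_mem (M.mul_mem (ofn_mem M 4) hW.a₂) hW.a₆)) (M.mul_mem (M.mul_mem hW.a₁ hW.a₃) hW.a₄))
      (M.mul_mem hW.a₂ (pow_mem hW.a₃ 2))) (pow_mem hW.a₄ 2)
  obtain ⟨N, hN, hMN, hrN⟩ := cq_adj hM (⟨3, ofn_mem M 3⟩ : M) ⟨W.b₂, b₂⟩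
    ⟨3 * W.b₄, M.mul_mem (ofn_mem M 3) b₄⟩ ⟨3 * W.b₆, M.mul_mem (ofn_mem M 3) b₆⟩ ⟨W.b₈, b₈⟩
    (Or.inl (fun h0 => three_ne_zero (congrArg Subtype.val h0 : (3 : Ω) = 0))) (x := r) hr
  have hW' := hW.le hMN
  have k₁ : W.a₁ * r + W.a₃ ∈ N := N.add_mem (N.mul_mem hW'.a₁ hrN) hW'.a₃
  have k₂ : -(r ^ 3 + W.a₂ * r ^ 2 + W.a₄ * r + W.a₆) ∈ N :=
    N.neg_mem (N.add_mem (N.add_mem (N.add_mem (pow_mem hrN 3) (N.mul_mem hW'.a₂ (pow_mem hrN 2)))
      (N.mul_mem hW'.a₄ hrN)) hW'.a₆)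
  obtain ⟨N', hN', hNN', htN'⟩ := cq_adj hN (0 : N) 0 1 ⟨_, k₁⟩ ⟨_, k₂⟩
    (Or.inr (Or.inr one_ne_zero)) (x := t) (by
      change (0 : Ω) * t ^ 4 + 0 * t ^ 3 + 1 * t ^ 2 + (W.a₁ * r + W.a₃) * t +
        -(r ^ 3 + W.a₂ * r ^ 2 + W.a₄ * r + W.a₆) = 0
      linear_combination ht)
  set C₁ : WeierstrassCurve.VariableChange Ω := ⟨1, r, 0, t⟩ with hC₁
  have hV₁ : Vm N' C₁ := by
    refine ⟨?_, hNN' hrN, N'.zero_mem, htN'⟩
    rw [hC₁, Units.val_one]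
    exact N'.one_mem
  have e6 : (C₁ • W).a₆ = 0 := by
    rw [WeierstrassCurve.variableChange_a₆]
    simp only [hC₁, inv_one, Units.val_one]
    linear_combination -ht
  have e8 : (C₁ • W).b₈ = 0 := by
    rw [WeierstrassCurve.variableChange_b₈]
    simp only [hC₁, inv_one, Units.val_one]
    linear_combination hr
  have hΔ : (C₁ • W).Δ ≠ 0 := by
    rw [WeierstrassCurve.variableChange_Δ]
    simpa [hC₁] using h
  obtain ⟨C₂, hV₂, h2⟩ := tan_mem ((hW'.le hNN').smul hV₁) e6 e8 hΔ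
  exact ⟨N', C₂ * C₁, hN', hMN.trans hNN', hV₂.mul hV₁, by rwa [mul_smul]⟩

/-- The scaling of the form `y² + a x y + b y = x³`. -/
private theorem scale_mem (L : Ld K Ω) (h3 : L.nm 3 = 1) {M : IntermediateField K Ω}
    {W : WeierstrassCurve Ω} (hW : Wm M W)
    (h2 : W.a₂ = 0) (hb : W.a₃ ≠ 0) (h4 : W.a₄ = 0) (h6 : W.a₆ = 0) {u : Ω} (hu : u ^ 3 = W.a₃)
    (huM : u ∈ M) :
    ∃ C : WeierstrassCurve.VariableChange Ω, Vm M C ∧ L.Ss (C • W) := by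
  have : CharZero Ω := charZero_of_injective_algebraMap (algebraMap K Ω).injective
  -- the scaled curves
  have key : ∀ u ∈ M, u ≠ 0 → ∃ C : WeierstrassCurve.VariableChange Ω, Vm M C ∧
      (C • W).a₁ = u⁻¹ * W.a₁ ∧ (C • W).a₂ = 0 ∧ (C • W).a₃ = u⁻¹ ^ 3 * W.a₃ ∧ (C • W).a₄ = 0 ∧
      (C • W).a₆ = 0 ∧ (C • W).Δ = (u⁻¹ ^ 3 * W.a₃) ^ 3 * ((u⁻¹ * W.a₁) ^ 3 -
        27 * (u⁻¹ ^ 3 * W.a₃)) ∧
      (C • W).c₄ = (u⁻¹ * W.a₁) * ((u⁻¹ * W.a₁) ^ 3 - 24 * (u⁻¹ ^ 3 * W.a₃)) := by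
    intro u huM hu
    set C : WeierstrassCurve.VariableChange Ω := ⟨Units.mk0 u hu, 0, 0, 0⟩ with hC
    have e1 : (C • W).a₁ = u⁻¹ * W.a₁ := by
      rw [WeierstrassCurve.variableChange_a₁]
      simp [hC]
    have e2 : (C • W).a₂ = 0 := by
      rw [WeierstrassCurve.variableChange_a₂]
      simp [hC, h2]
    have e3 : (C • W).a₃ = u⁻¹ ^ 3 * W.a₃ := by
      rw [WeierstrassCurve.variableChange_a₃]
      simp [hC]
    have e4 : (C • W).a₄ = 0 := by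
      rw [WeierstrassCurve.variableChange_a₄]
      simp [hC, h4]
    have e6 : (C • W).a₆ = 0 := by
      rw [WeierstrassCurve.variableChange_a₆]
      simp [hC, h6]
    refine ⟨C, ⟨huM, M.zero_mem, M.zero_mem, M.zero_mem⟩, e1, e2, e3, e4, e6, ?_, ?_⟩
    · simp only [WeierstrassCurve.Δ, WeierstrassCurve.b₂, WeierstrassCurve.b₄,
        WeierstrassCurve.b₆, WeierstrassCurve.b₈, e1, e2, e3, e4, e6]
      ring
    · simp only [WeierstrassCurve.c₄, WeierstrassCurve.b₂, WeierstrassCurve.b₄, e1, e2, e3, e4]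
      ring
  have hz : L.nm (0 : Ω) ≤ 1 := by
    rw [L.zero]
    exact zero_le_one
  have n3 : ∀ n : ℕ, L.nm ((3 : Ω) ^ n) = 1 := fun n => by rw [L.pow, h3, one_pow]
  have n27 : L.nm 27 = 1 := by
    have := n3 3
    norm_num at this
    exact this
  have n24 : L.nm 24 ≤ 1 := by
    have := L.nat_le 24
    exact_mod_cast this
  have hu0 : u ≠ 0 := by
    rintro rfl
    exact hb (by rw [← hu]; simp)
  have hu3 : u⁻¹ ^ 3 * W.a₃ = 1 := by
    rw [← hu, ← mul_pow, inv_mul_cancel₀ hu0, one_pow]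
  rcases le_or_gt (L.nm (u⁻¹ * W.a₁)) 1 with ha | ha
  · obtain ⟨C, hC, e1, e2, e3, e4, e6, eΔ, ec⟩ := key u huM hu0
    rw [hu3] at e3 eΔ ec
    rw [one_pow, one_mul, mul_one] at eΔ
    rw [mul_one] at ec
    set a := u⁻¹ * W.a₁ with hadef
    have ha3 : L.nm (a ^ 3) ≤ 1 := by
      rw [L.pow]
      exact pow_le_one₀ (L.nonneg _) ha
    have hΔ1 : L.nm (C • W).Δ ≤ 1 := by
      rw [eΔ]
      exact (L.sub _ _).trans (max_le ha3 n27.le)
    refine ⟨C, hC, by rwa [e1], by rwa [e2], by rw [e3, L.one], by rwa [e4], by rwa [e6], hΔ1, ?_⟩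
    rcases hΔ1.eq_or_lt with hd | hd
    · exact Or.inl hd
    · right
      rw [eΔ] at hd
      have h27 : L.nm (a ^ 3) = 1 := by
        have h5 : a ^ 3 = (a ^ 3 - 27) + 27 := by ring
        rw [h5, L.add_eq (by rw [n27]; exact hd), n27]
      have ha1 : L.nm a = 1 := by
        rw [L.pow] at h27
        exact (pow_eq_one_iff_of_nonneg (L.nonneg _) (by norm_num)).1 h27
      have h24 : L.nm (a ^ 3 - 24) = 1 := by
        have h5 : a ^ 3 - 24 = (a ^ 3 - 27) + 3 := by ring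
        rw [h5, L.add_eq (by rw [h3]; exact hd), h3]
      rw [ec, L.mul, ha1, h24, one_mul]
  · have ha0 : W.a₁ ≠ 0 := by
      intro h0
      rw [h0, mul_zero, L.zero] at ha
      exact absurd ha (by norm_num)
    obtain ⟨C, hC, e1, e2, e3, e4, e6, eΔ, ec⟩ := key W.a₁ hW.a₁ ha0
    rw [inv_mul_cancel₀ ha0] at e1 eΔ ec
    rw [one_pow] at eΔ ec
    rw [one_mul] at ec
    set β := W.a₁⁻¹ ^ 3 * W.a₃ with hβ
    have hβn : L.nm β < 1 := by
      have h5 : β = ((u⁻¹ * W.a₁) ^ 3)⁻¹ := by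
        rw [hβ, ← hu, mul_pow, mul_inv, inv_pow, inv_pow, inv_inv]
        ring
      rw [h5, L.inv, L.pow]
      exact inv_lt_one_of_one_lt₀ (one_lt_pow₀ ha (by norm_num))
    have hs : ∀ c : Ω, L.nm c ≤ 1 → L.nm (1 - c * β) = 1 := by
      intro c hc
      rw [sub_eq_add_neg]
      refine L.one_add ?_
      rw [L.neg, L.mul]
      exact mul_lt_one_of_nonneg_of_lt_one_right hc (L.nonneg _) hβn
    refine ⟨C, hC, by rw [e1, L.one], by rwa [e2], by rw [e3]; exact hβn.le, by rwa [e4],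
      by rwa [e6], ?_, Or.inr ?_⟩
    · rw [eΔ, L.mul, hs 27 n27.le, mul_one, L.pow]
      exact pow_le_one₀ (L.nonneg _) hβn.le
    · rw [ec, hs 24 n24]

/-- Semistable reduction if `3` is a unit, with the field. -/
theorem semiEB_three (L : Ld K Ω) (h3 : L.nm 3 = 1) {W : WeierstrassCurve Ω} (h : W.Δ ≠ 0)
    (h₁ : W.a₁ ∈ (⊥ : IntermediateField K Ω)) (h₂ : W.a₂ ∈ (⊥ : IntermediateField K Ω))
    (h₃ : W.a₃ ∈ (⊥ : IntermediateField K Ω)) (h₄ : W.a₄ ∈ (⊥ : IntermediateField K Ω))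
    (h₆ : W.a₆ ∈ (⊥ : IntermediateField K Ω)) :
    ∃ (M : IntermediateField K Ω) (C : WeierstrassCurve.VariableChange Ω),
      FiniteDimensional K M ∧ (∀ l : ℕ, l.Prime → 5 ≤ l → Cp l M) ∧ (C.u : Ω) ∈ M ∧ C.r ∈ M ∧
        C.s ∈ M ∧ C.t ∈ M ∧ L.Ss (C • W) := by
  have : IsAlgClosed Ω := IsAlgClosure.isAlgClosed K
  have hb : Cq (⊥ : IntermediateField K Ω) := ⟨inferInstance, fun l _ _ => cp_bot l⟩
  have hW : Wm (⊥ : IntermediateField K Ω) W := ⟨h₁, h₂, h₃, h₄, h₆⟩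
  obtain ⟨N, C₁, hN, hbN, hV₁, k2, k3, k4, k6⟩ := form_mem hb hW h
  obtain ⟨u, hu⟩ := IsAlgClosed.exists_pow_nat_eq (C₁ • W).a₃ (n := 3) (by norm_num)
  have hW' := (hW.le hbN).smul hV₁
  obtain ⟨M, hM, hNM, huM⟩ := cq_adj hN (0 : N) 1 0 0 ⟨_, N.neg_mem hW'.a₃⟩
    (Or.inr (Or.inl one_ne_zero)) (x := u) (by
      change (0 : Ω) * u ^ 4 + 1 * u ^ 3 + 0 * u ^ 2 + 0 * u + -(C₁ • W).a₃ = 0
      linear_combination hu)
  obtain ⟨C₂, hV₂, hS⟩ := scale_mem L h3 (hW'.le hNM) k2 k3 k4 k6 hu huM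
  have hV := hV₂.mul (hV₁.le hNM)
  refine ⟨M, C₂ * C₁, hM.fin, hM.cp, hV.u, hV.r, hV.s, hV.t, ?_⟩
  rw [mul_smul]
  exact hS

end PE
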