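import Pool.Agent.Lib.MP_f80667_ag.Pe.Semi
import Pool.Agent.Lib.MP_f80667_ag.Pe.Cp
import Pool.Agent.Lib.MP_f80667_ag.Pe.SemiEA
import Pool.Agent.Lib.MP_f80667_ag.Pe.SemiEB

/-! Semistable reduction over an extension of degree prime to `l`, for all prime numbers `l ≥ 5`. -/

open ZC BE Polynomial IntermediateField

namespace PE

namespace Ld

variable {F : Type} [Field F] {K Ω : Type} [Field K] [CharZero K] [Field Ω] [Algebra K Ω]
  [Algebra F K] [Algebra F Ω] [IsScalarTower F K Ω] [IsAlgClosure K Ω] (L : Ld K Ω)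

/-- The curve has a semistable equation over `M`. -/
structure Sm (W : WeierstrassCurve F) (M : IntermediateField K Ω)
    (C : WeierstrassCurve.VariableChange Ω) : Prop where
  fin : FiniteDimensional K M
  cp : ∀ l : ℕ, l.Prime → 5 ≤ l → Cp l M
  u : (C.u : Ω) ∈ M
  r : C.r ∈ M
  s : C.s ∈ M
  t : C.t ∈ M
  ss : L.Ss (C • W.baseChange Ω)

/-- `nm 2 = 1`. Proof: as `semi_odd`: `M` is generated by the roots `e_i` of the cubic polynomial (degree `3`), and `u`, `u² = e₂ - e₁`: `cp_bot`, `cp_adj`. -/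
theorem semiE_odd (h2 : L.nm 2 = 1) (W : WeierstrassCurve F) [W.IsElliptic] :
    ∃ M C, L.Sm W M C := by
  have h0 : (W.baseChange Ω).Δ ≠ 0 := by
    change (W.map (algebraMap F Ω)).Δ ≠ 0
    rw [WeierstrassCurve.map_Δ]
    exact (_root_.map_ne_zero _).2 W.isUnit_Δ.ne_zero
  obtain ⟨M, C, h1, h3, h4⟩ := L.semiEA_odd h2 (W.baseChange Ω) h0 (sec_base W ⊥)
  exact ⟨M, C, h1.1, h1.2, h3.u, h3.r, h3.s, h3.t, h4⟩

/-- `nm 3 = 1`. Proof: as `semi_three` (`Pe/SemiT.lean`): `M` is generated by the root `x₁` of the polynomial of degree `4`, `y₁` (degree `2`), and `u` with `u³ = a₃` (degree `3`), or `u = a₁` times it: `cp_bot`, `cp_adj`. -/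
theorem semiE_three (h3 : L.nm 3 = 1) (W : WeierstrassCurve F) [W.IsElliptic] :
    ∃ M C, L.Sm W M C := by
  have hE : (W.baseChange Ω).IsElliptic :=
    (inferInstance : (W.map (algebraMap F Ω)).IsElliptic)
  have hco : ∀ a : F, algebraMap F Ω a ∈ (⊥ : IntermediateField K Ω) := by
    intro a
    rw [IsScalarTower.algebraMap_apply F K Ω]
    exact (⊥ : IntermediateField K Ω).algebraMap_mem _
  obtain ⟨M, C, h1, h2, h3, h4, h5, h6, h7⟩ := semiEB_three L h3 (W := W.baseChange Ω)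
    hE.isUnit.ne_zero (hco _) (hco _) (hco _) (hco _) (hco _)
  exact ⟨M, C, h1, h2, h3, h4, h5, h6, h7⟩

end Ld

end PE
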