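import Pool.Agent.Lib.MP_f80667_ag.Pe.PotA
import Pool.Agent.Lib.MP_f80667_ag.Pe.SemiE

/-!
Auxiliary results for `ElgE.lean`: the field of the node and of the slopes is a tower of extensions of degree at
most two.
-/

open ZC BE Polynomial IntermediateField

namespace PE

namespace Ld

variable {K Ω : Type} [Field K] [CharZero K] [Field Ω] [Algebra K Ω] [IsAlgClosure K Ω]

/-- The adjunction of a root of a polynomial of degree two. -/
theorem elgEA_quad {M : IntermediateField K Ω} (hM : SeG M) {a b c : Ω} (ha : a ∈ M) (hb : b ∈ M)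
    (hc : c ∈ M) (h0 : a ≠ 0) {x : Ω} (hx : a * x ^ 2 + b * x + c = 0) :
    ∃ M' : IntermediateField K Ω, M ≤ M' ∧ x ∈ M' ∧ SeG M' := by
  have hd : (Polynomial.C a * Polynomial.X ^ 2 + Polynomial.C b * Polynomial.X +
      Polynomial.C c).natDegree = 2 := Polynomial.natDegree_quadratic h0
  refine seg_adj hM (f := Polynomial.C a * Polynomial.X ^ 2 + Polynomial.C b * Polynomial.X +
    Polynomial.C c) ?_ ?_ ?_ ?_
  · intro h
    rw [h, Polynomial.natDegree_zero] at hd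
    exact absurd hd (by norm_num)
  · rw [hd]
    norm_num
  · intro i
    simp only [Polynomial.coeff_add, Polynomial.coeff_C_mul, Polynomial.coeff_X_pow,
      Polynomial.coeff_X, Polynomial.coeff_C]
    refine add_mem (add_mem (mul_mem ha ?_) (mul_mem hb ?_)) ?_
    · split_ifs
      exacts [one_mem _, zero_mem _]
    · split_ifs
      exacts [one_mem _, zero_mem _]
    · split_ifs
      exacts [hc, zero_mem _]
  · simp only [Polynomial.eval_add, Polynomial.eval_mul, Polynomial.eval_C, Polynomial.eval_pow,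
      Polynomial.eval_X]
    exact hx

/-- The field for the reduction. -/
theorem elgEA_gs (L : Ld K Ω) (V : WeierstrassCurve Ω) (hV : L.Ss V) {M₁ : IntermediateField K Ω}
    (hM₁ : SeG M₁) (hc₁ : SeC M₁ V) :
    ∃ M : IntermediateField K Ω, M₁ ≤ M ∧ SeG M ∧
      ∀ M' : IntermediateField K Ω, M ≤ M' → ∀ L' : Ld M' Ω, (∀ x, L'.nm x = L.nm x) →
        ∀ W' : WeierstrassCurve M', W'.baseChange Ω = V → L'.Gs W' := by
  classical
  have hcz : CharZero Ω := charZero_of_injective_algebraMap (algebraMap K Ω).injective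
  have hf₁ : FiniteDimensional K M₁ := hM₁.1
  have hit : ∀ (M' : IntermediateField K Ω) (L' : Ld M' Ω), (∀ x, L'.nm x = L.nm x) →
      ∀ W' : WeierstrassCurve M', W'.baseChange Ω = V → L'.It W' := by
    intro M' L' hn W' hW'
    subst hW'
    exact ⟨by rw [hn]; exact hV.a₁, by rw [hn]; exact hV.a₂, by rw [hn]; exact hV.a₃,
      by rw [hn]; exact hV.a₄, by rw [hn]; exact hV.a₆⟩
  by_cases hg : L.nm V.Δ = 1
  · refine ⟨M₁, le_rfl, hM₁, fun M' hM' L' hn W' hW' => Or.inl ⟨hit M' L' hn W' hW', ?_⟩⟩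
    subst hW'
    rw [hn]
    have h1 : (W'.baseChange Ω).Δ = algebraMap M' Ω W'.Δ := WeierstrassCurve.map_Δ _ _
    rw [← h1]
    exact hg
  · have hc : L.nm V.c₄ = 1 := hV.or.resolve_left hg
    have hd : L.nm V.Δ < 1 := lt_of_le_of_ne hV.disc hg
    have hmd : ∀ (M' : IntermediateField K Ω) (L' : Ld M' Ω), (∀ x, L'.nm x = L.nm x) →
        ∀ W' : WeierstrassCurve M', W'.baseChange Ω = V → L'.Md W' := by
      intro M' L' hn W' hW'
      refine ⟨hit M' L' hn W' hW', ?_, ?_⟩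
      · subst hW'
        rw [hn]
        have h1 : (W'.baseChange Ω).Δ = algebraMap M' Ω W'.Δ := WeierstrassCurve.map_Δ _ _
        rw [← h1]
        exact hd
      · subst hW'
        rw [hn]
        have h1 : (W'.baseChange Ω).c₄ = algebraMap M' Ω W'.c₄ := WeierstrassCurve.map_c₄ _ _
        rw [← h1]
        exact hc
    obtain ⟨L₁, -, hL₁⟩ := L.exists_bsL M₁
    have hac : IsAlgClosure M₁ Ω := ⟨IsAlgClosure.isAlgClosed K, inferInstance⟩
    let W₁ : WeierstrassCurve M₁ :=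
      ⟨⟨V.a₁, hc₁.a₁⟩, ⟨V.a₂, hc₁.a₂⟩, ⟨V.a₃, hc₁.a₃⟩, ⟨V.a₄, hc₁.a₄⟩, ⟨V.a₆, hc₁.a₆⟩⟩
    have hW₁ : W₁.baseChange Ω = V := by
      ext <;> rfl
    obtain ⟨x₀, y₀, α, β, hnc⟩ := exists_nc (L := L₁) (hmd M₁ L₁ hL₁ W₁ hW₁)
    have edx : 3 * x₀ ^ 2 + 2 * V.a₂ * x₀ + V.a₄ - V.a₁ * y₀ = 0 := hnc.dx
    have edy : 2 * y₀ + V.a₁ * x₀ + V.a₃ = 0 := hnc.dy
    have ead : α + β = -V.a₁ := hnc.add
    have emu : α * β = -(V.a₂ + 3 * x₀) := hnc.mul
    have h2 : ∀ M : IntermediateField K Ω, (2 : Ω) ∈ M := fun M => by exact_mod_cast seg_nat M 2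
    have h3 : ∀ M : IntermediateField K Ω, (3 : Ω) ∈ M := fun M => by exact_mod_cast seg_nat M 3
    have h6 : (6 : Ω) ∈ M₁ := by exact_mod_cast seg_nat M₁ 6
    -- the abscissa
    obtain ⟨M₂, hle₂, hx₀, hM₂⟩ := elgEA_quad hM₁ h6 hc₁.b₂ hc₁.b₄ (by norm_num) (x := x₀) (by
      unfold WeierstrassCurve.b₂ WeierstrassCurve.b₄
      linear_combination 2 * edx + V.a₁ * edy)
    have hy₀ : y₀ ∈ M₂ := by
      have e1 : y₀ = -(V.a₁ * x₀ + V.a₃) / 2 := by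
        field_simp
        linear_combination edy
      rw [e1]
      exact div_mem (neg_mem (add_mem (mul_mem (hle₂ hc₁.a₁) hx₀) (hle₂ hc₁.a₃))) (h2 M₂)
    -- the slopes
    obtain ⟨M₃, hle₃, hα, hM₃⟩ := elgEA_quad hM₂ (one_mem M₂) (hle₂ hc₁.a₁)
      (neg_mem (add_mem (hle₂ hc₁.a₂) (mul_mem (h3 M₂) hx₀))) one_ne_zero (x := α) (by
      linear_combination α * ead - emu)
    have hβ : β ∈ M₃ := by
      have e1 : β = -V.a₁ - α := by linear_combination ead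
      rw [e1]
      exact sub_mem (neg_mem (hle₃ (hle₂ hc₁.a₁))) hα
    refine ⟨M₃, hle₂.trans hle₃, hM₃,
      fun M' hM' L' hn W' hW' => Or.inr ⟨hmd M' L' hn W' hW', x₀, y₀, α, β, ?_⟩⟩
    have hbot : ∀ x ∈ M', x ∈ (⊥ : IntermediateField M' Ω) := fun x hx =>
      (IntermediateField.mem_bot).2 ⟨⟨x, hx⟩, rfl⟩
    have ea : ∀ f : WeierstrassCurve Ω → Ω, f (W'.baseChange Ω) = f (W₁.baseChange Ω) := by
      intro f
      rw [hW', hW₁]
    have e₁ : algebraMap M' Ω W'.a₁ = algebraMap M₁ Ω W₁.a₁ := ea fun V => V.a₁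
    have e₂ : algebraMap M' Ω W'.a₂ = algebraMap M₁ Ω W₁.a₂ := ea fun V => V.a₂
    have e₃ : algebraMap M' Ω W'.a₃ = algebraMap M₁ Ω W₁.a₃ := ea fun V => V.a₃
    have e₄ : algebraMap M' Ω W'.a₄ = algebraMap M₁ Ω W₁.a₄ := ea fun V => V.a₄
    have e₆ : algebraMap M' Ω W'.a₆ = algebraMap M₁ Ω W₁.a₆ := ea fun V => V.a₆
    have hnn : ∀ x, L'.nm x = L₁.nm x := fun x => (hn x).trans (hL₁ x).symm
    refine ⟨⟨?_, ?_, ?_, ?_, ?_, ?_, ?_, ?_, ?_, ?_⟩, hbot _ (hM' (hle₃ hx₀)),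
      hbot _ (hM' (hle₃ hy₀)), hbot _ (hM' hα), hbot _ (hM' hβ)⟩
    · rw [hnn]; exact hnc.x_le
    · rw [hnn]; exact hnc.y_le
    · rw [hnn]; exact hnc.α_le
    · rw [hnn]; exact hnc.β_le
    · have h := hnc.dx
      simp only [dx] at h ⊢
      rw [e₁, e₂, e₄]
      exact h
    · have h := hnc.dy
      simp only [dy] at h ⊢
      rw [e₁, e₃]
      exact h
    · rw [e₁]; exact hnc.add
    · rw [e₂]; exact hnc.mul
    · rw [hnn]; exact hnc.ne
    · have h := hnc.fe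
      simp only [PE.fe] at h ⊢
      rw [e₁, e₂, e₃, e₄, e₆, hnn]
      exact h

variable {F : Type} [Field F] [Algebra F K] [Algebra F Ω] [IsScalarTower F K Ω]

theorem elgEA_pot (L : Ld K Ω) (W : WeierstrassCurve F) [W.IsElliptic] :
    ∃ M : IntermediateField K Ω, FiniteDimensional K M ∧
      (∀ l : ℕ, l.Prime → 5 ≤ l → Cp l M) ∧ ∀ M' : IntermediateField K Ω, M ≤ M' →
      ∀ (L' : Ld M' Ω), (∀ x, L'.nm x = L.nm x) →
        ∃ (W' : WeierstrassCurve M') (φ : Pt W Ω ≃+ Pt W' Ω), W'.IsElliptic ∧ L'.Gs W' ∧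
          (∀ (σ : Ω ≃ₐ[M'] Ω) (P : Pt W Ω), φ (σ.restrictScalars K • P) = σ • φ P) ∧
          algebraMap M' Ω W'.c₄ ^ 3 * algebraMap F Ω W.Δ =
            algebraMap F Ω W.c₄ ^ 3 * algebraMap M' Ω W'.Δ := by
  classical
  have hE : (W.baseChange Ω).IsElliptic :=
    (inferInstance : (W.map (algebraMap F Ω)).IsElliptic)
  have hΔ : (W.baseChange Ω).Δ ≠ 0 := hE.isUnit.ne_zero
  obtain ⟨M₁, C, hS⟩ : ∃ M C, L.Sm W M C := by
    rcases L.semiT_or with h2 | h3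
    · exact L.semiE_odd h2 W
    · exact L.semiE_three h3 W
  have hc₁ : SeC M₁ (C • W.baseChange Ω) := (sec_base W M₁).smul hS.u hS.r hS.s hS.t
  obtain ⟨M, hle, hM, hgs⟩ := L.elgEA_gs _ hS.ss ⟨hS.fin, hS.cp⟩ hc₁
  refine ⟨M, hM.1, hM.2, fun M' hM' L' hn => ?_⟩
  have h₁ : M₁ ≤ M' := hle.trans hM'
  let W' : WeierstrassCurve M' :=
    ⟨⟨_, h₁ hc₁.a₁⟩, ⟨_, h₁ hc₁.a₂⟩, ⟨_, h₁ hc₁.a₃⟩, ⟨_, h₁ hc₁.a₄⟩, ⟨_, h₁ hc₁.a₆⟩⟩
  have hW' : W'.baseChange Ω = C • W.baseChange Ω := by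
    ext <;> rfl
  obtain ⟨φ, hφ⟩ := potA_eqv W M' W' C hW'.symm (h₁ hS.u) (h₁ hS.r) (h₁ hS.s) (h₁ hS.t)
  have h3 : algebraMap M' Ω W'.Δ = (C • W.baseChange Ω).Δ := by
    rw [← hW']
    exact (WeierstrassCurve.map_Δ _ _).symm
  have h4 : algebraMap M' Ω W'.c₄ = (C • W.baseChange Ω).c₄ := by
    rw [← hW']
    exact (WeierstrassCurve.map_c₄ _ _).symm
  have h5 : (W.baseChange Ω).Δ = algebraMap F Ω W.Δ := WeierstrassCurve.map_Δ _ _
  have h6 : (W.baseChange Ω).c₄ = algebraMap F Ω W.c₄ := WeierstrassCurve.map_c₄ _ _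
  refine ⟨W', φ, ?_, hgs M' hM' L' hn W' hW', hφ, ?_⟩
  · have h7 : W'.Δ ≠ 0 := by
      intro h0
      rw [h0, map_zero] at h3
      have h8 : (C • W.baseChange Ω).Δ ≠ 0 := by
        rw [WeierstrassCurve.variableChange_Δ]
        exact mul_ne_zero (pow_ne_zero _ (Units.ne_zero _)) hΔ
      exact h8 h3.symm
    exact ⟨h7.isUnit⟩
  · rw [h3, h4, WeierstrassCurve.variableChange_c₄, WeierstrassCurve.variableChange_Δ, h5, h6]
    ring

end Ld

end PE
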