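import Pool.Agent.Lib.MP_f80667_ag.Pe.Pn

/-! The isomorphism of the groups of points given by a change of variables. -/

open WeierstrassCurve

namespace PE

variable {L : Type} [Field L]

private theorem vc_a (C : VariableChange L) (W : WeierstrassCurve L) :
    (C • W).a₁ = ((C.u⁻¹ : Lˣ) : L) * (W.a₁ + 2 * C.s) ∧
    (C • W).a₂ = ((C.u⁻¹ : Lˣ) : L) ^ 2 * (W.a₂ - C.s * W.a₁ + 3 * C.r - C.s ^ 2) ∧
    (C • W).a₃ = ((C.u⁻¹ : Lˣ) : L) ^ 3 * (W.a₃ + C.r * W.a₁ + 2 * C.t) ∧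
    (C • W).a₄ = ((C.u⁻¹ : Lˣ) : L) ^ 4 * (W.a₄ - C.s * W.a₃ + 2 * C.r * W.a₂ -
      (C.t + C.r * C.s) * W.a₁ + 3 * C.r ^ 2 - 2 * C.s * C.t) ∧
    (C • W).a₆ = ((C.u⁻¹ : Lˣ) : L) ^ 6 * (W.a₆ + C.r * W.a₄ + C.r ^ 2 * W.a₂ + C.r ^ 3 -
      C.t * W.a₃ - C.t ^ 2 - C.r * C.t * W.a₁) :=
  ⟨rfl, rfl, rfl, rfl, rfl⟩

private theorem vc_iff (C : VariableChange L) (W : WeierstrassCurve L) (x y : L) :
    (C • W).toAffine.Nonsingular ((C.u⁻¹ : Lˣ) ^ 2 * (x - C.r))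
      ((C.u⁻¹ : Lˣ) ^ 3 * (y - C.s * (x - C.r) - C.t)) ↔ W.toAffine.Nonsingular x y := by
  obtain ⟨h1, h2, h3, h4, h6⟩ := vc_a C W
  have hv : ((C.u⁻¹ : Lˣ) : L) ≠ 0 := Units.ne_zero _
  rw [Affine.nonsingular_iff', Affine.nonsingular_iff', Affine.equation_iff',
    Affine.equation_iff', h1, h2, h3, h4, h6]
  generalize ((C.u⁻¹ : Lˣ) : L) = v at hv
  generalize W.a₁ = a₁
  generalize W.a₂ = a₂
  generalize W.a₃ = a₃
  generalize W.a₄ = a₄
  generalize W.a₆ = a₆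
  generalize C.r = r
  generalize C.s = s
  generalize C.t = t
  have e1 : (v ^ 3 * (y - s * (x - r) - t)) ^ 2 +
      v * (a₁ + 2 * s) * (v ^ 2 * (x - r)) * (v ^ 3 * (y - s * (x - r) - t)) +
      v ^ 3 * (a₃ + r * a₁ + 2 * t) * (v ^ 3 * (y - s * (x - r) - t)) -
      ((v ^ 2 * (x - r)) ^ 3 + v ^ 2 * (a₂ - s * a₁ + 3 * r - s ^ 2) * (v ^ 2 * (x - r)) ^ 2 +
        v ^ 4 * (a₄ - s * a₃ + 2 * r * a₂ - (t + r * s) * a₁ + 3 * r ^ 2 - 2 * s * t) *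
          (v ^ 2 * (x - r)) +
        v ^ 6 * (a₆ + r * a₄ + r ^ 2 * a₂ + r ^ 3 - t * a₃ - t ^ 2 - r * t * a₁)) =
      v ^ 6 * (y ^ 2 + a₁ * x * y + a₃ * y - (x ^ 3 + a₂ * x ^ 2 + a₄ * x + a₆)) := by ring
  have e2 : v * (a₁ + 2 * s) * (v ^ 3 * (y - s * (x - r) - t)) -
      (3 * (v ^ 2 * (x - r)) ^ 2 +
        2 * (v ^ 2 * (a₂ - s * a₁ + 3 * r - s ^ 2)) * (v ^ 2 * (x - r)) +
        v ^ 4 * (a₄ - s * a₃ + 2 * r * a₂ - (t + r * s) * a₁ + 3 * r ^ 2 - 2 * s * t)) =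
      v ^ 4 * ((a₁ * y - (3 * x ^ 2 + 2 * a₂ * x + a₄)) + s * (2 * y + a₁ * x + a₃)) := by ring
  have e3 : 2 * (v ^ 3 * (y - s * (x - r) - t)) + v * (a₁ + 2 * s) * (v ^ 2 * (x - r)) +
      v ^ 3 * (a₃ + r * a₁ + 2 * t) = v ^ 3 * (2 * y + a₁ * x + a₃) := by ring
  rw [e1, e2, e3]
  have h3' : v ^ 3 ≠ 0 := pow_ne_zero _ hv
  have h4' : v ^ 4 ≠ 0 := pow_ne_zero _ hv
  have h6' : v ^ 6 ≠ 0 := pow_ne_zero _ hv
  rw [mul_eq_zero, or_iff_right h6']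
  refine and_congr Iff.rfl ?_
  rw [mul_ne_zero_iff, mul_ne_zero_iff, and_iff_right h3', and_iff_right h4']
  by_cases hF : 2 * y + a₁ * x + a₃ = 0
  · rw [hF, mul_zero, add_zero]
  · exact iff_of_true (Or.inr hF) (Or.inr hF)

/-- The change of variables `x = u² x' + r`, `y = u³ y' + u² s x' + t` on the points with coordinates in a field. -/
theorem vc_ns (C : VariableChange L) (W : WeierstrassCurve L) {x y : L}
    (h : W.toAffine.Nonsingular x y) :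
    (C • W).toAffine.Nonsingular ((C.u⁻¹ : Lˣ) ^ 2 * (x - C.r))
      ((C.u⁻¹ : Lˣ) ^ 3 * (y - C.s * (x - C.r) - C.t)) :=
  (vc_iff C W x y).2 h

private noncomputable def vcF (C : VariableChange L) (W : WeierstrassCurve L) :
    Pn W → Pn (C • W)
  | .zero => 0
  | .some _ _ h => Pn.aff _ _ (vc_ns C W h)

private theorem vcF_zero (C : VariableChange L) (W : WeierstrassCurve L) :
    vcF C W 0 = 0 := rfl

private theorem vcF_aff (C : VariableChange L) (W : WeierstrassCurve L) {x y : L}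
    (h : W.toAffine.Nonsingular x y) : vcF C W (Pn.aff x y h) = Pn.aff _ _ (vc_ns C W h) := rfl

private theorem vc_x {v r x x' : L} (hv : v ≠ 0) (e : v ^ 2 * (x - r) = v ^ 2 * (x' - r)) :
    x = x' := by
  have h := mul_left_cancel₀ (pow_ne_zero 2 hv) e
  linear_combination h

private theorem vc_y {v r s t x x' y y' : L} (hv : v ≠ 0) (hx : x = x')
    (e : v ^ 3 * (y - s * (x - r) - t) = v ^ 3 * (y' - s * (x' - r) - t)) : y = y' := by
  subst hx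
  have h := mul_left_cancel₀ (pow_ne_zero 3 hv) e
  linear_combination h

private theorem vcF_add (C : VariableChange L) (W : WeierstrassCurve L) (P Q : Pn W) :
    vcF C W (P + Q) = vcF C W P + vcF C W Q := by
  obtain ⟨a1, a2, a3, a4, -⟩ := vc_a C W
  have hv : ((C.u⁻¹ : Lˣ) : L) ≠ 0 := Units.ne_zero _
  rcases Pn.cases' P with rfl | ⟨x₁, y₁, h₁, rfl⟩
  · rw [vcF_zero, zero_add, zero_add]
  rcases Pn.cases' Q with rfl | ⟨x₂, y₂, h₂, rfl⟩
  · rw [vcF_zero, add_zero, add_zero]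
  by_cases hop : x₁ = x₂ ∧ y₁ = -y₂ - W.a₁ * x₂ - W.a₃
  · obtain ⟨hx, hy⟩ := hop
    rw [Pn.add_opp h₁ h₂ hx hy, vcF_zero, vcF_aff, vcF_aff]
    symm
    refine Pn.add_opp _ _ ?_ ?_
    · rw [hx]
    · rw [hx, hy, a1, a3]
      ring
  · obtain ⟨l, l1, l2, h, hl⟩ := Pn.slope h₁ h₂ hop
    have hop' : ¬(((C.u⁻¹ : Lˣ) : L) ^ 2 * (x₁ - C.r) = ((C.u⁻¹ : Lˣ) : L) ^ 2 * (x₂ - C.r) ∧
        ((C.u⁻¹ : Lˣ) : L) ^ 3 * (y₁ - C.s * (x₁ - C.r) - C.t) =
        -(((C.u⁻¹ : Lˣ) : L) ^ 3 * (y₂ - C.s * (x₂ - C.r) - C.t)) -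
          (C • W).a₁ * (((C.u⁻¹ : Lˣ) : L) ^ 2 * (x₂ - C.r)) - (C • W).a₃) := by
      rintro ⟨e1, e2⟩
      have hx := vc_x hv e1
      refine hop ⟨hx, ?_⟩
      rw [a1, a3] at e2
      subst hx
      have e3 : ((C.u⁻¹ : Lˣ) : L) ^ 3 * (y₁ - (-y₂ - W.a₁ * x₁ - W.a₃)) = 0 := by
        linear_combination e2
      have e4 := (mul_eq_zero.1 e3).resolve_left (pow_ne_zero 3 hv)
      linear_combination e4
    obtain ⟨l', l1', l2', h', hl'⟩ := Pn.slope (vc_ns C W h₁) (vc_ns C W h₂) hop'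
    have hll : l' = ((C.u⁻¹ : Lˣ) : L) * (l - C.s) := by
      by_cases hx : x₁ = x₂
      · have hy : y₁ + y₂ + W.a₁ * x₂ + W.a₃ ≠ 0 := by
          intro h0
          exact hop ⟨hx, by linear_combination h0⟩
        subst hx
        rw [a1, a2, a3, a4] at l2'
        have e3 : (((C.u⁻¹ : Lˣ) : L) ^ 3 * (y₁ + y₂ + W.a₁ * x₁ + W.a₃)) *
            (l' - ((C.u⁻¹ : Lˣ) : L) * (l - C.s)) = 0 := by
          linear_combination l2' - ((C.u⁻¹ : Lˣ) : L) ^ 4 * l2 +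
            ((C.u⁻¹ : Lˣ) : L) ^ 4 * C.s * l1
        have e4 := (mul_eq_zero.1 e3).resolve_left (mul_ne_zero (pow_ne_zero 3 hv) hy)
        linear_combination e4
      · have hx' : x₁ - x₂ ≠ 0 := sub_ne_zero.2 hx
        have e3 : (((C.u⁻¹ : Lˣ) : L) ^ 2 * (x₁ - x₂)) *
            (l' - ((C.u⁻¹ : Lˣ) : L) * (l - C.s)) = 0 := by
          linear_combination l1' - ((C.u⁻¹ : Lˣ) : L) ^ 3 * l1
        have e4 := (mul_eq_zero.1 e3).resolve_left (mul_ne_zero (pow_ne_zero 2 hv) hx')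
        linear_combination e4
    rw [hl, vcF_aff, vcF_aff, vcF_aff, hl']
    refine Pn.aff_ext ?_ ?_
    · rw [a1, a2, hll]
      ring
    · rw [a1, a2, a3, hll]
      ring

/-- **The isomorphism.** Proof: the inverse is the map of the inverse change of variables. Additivity: negatives go to negatives; for the sum of two points use `Pn.slope`: the slope `l` becomes `(l - s) / u`. -/
theorem exists_vc (C : VariableChange L) (W : WeierstrassCurve L) :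
    ∃ φ : Pn W ≃+ Pn (C • W), ∀ (x y : L) (h : W.toAffine.Nonsingular x y),
      φ (Pn.aff x y h) = Pn.aff _ _ (vc_ns C W h) := by
  have hv : ((C.u⁻¹ : Lˣ) : L) ≠ 0 := Units.ne_zero _
  have hb : Function.Bijective (vcF C W) := by
    constructor
    · intro P Q hPQ
      rcases Pn.cases' P with rfl | ⟨x₁, y₁, h₁, rfl⟩
      · rcases Pn.cases' Q with rfl | ⟨x₂, y₂, h₂, rfl⟩
        · rfl
        · rw [vcF_zero, vcF_aff] at hPQ
          exact absurd hPQ.symm (Pn.aff_ne _)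
      · rcases Pn.cases' Q with rfl | ⟨x₂, y₂, h₂, rfl⟩
        · rw [vcF_zero, vcF_aff] at hPQ
          exact absurd hPQ (Pn.aff_ne _)
        · rw [vcF_aff, vcF_aff] at hPQ
          obtain ⟨e1, e2⟩ := Pn.aff_inj hPQ
          have hx := vc_x hv e1
          exact Pn.aff_ext hx (vc_y hv hx e2)
    · intro Q
      rcases Pn.cases' Q with rfl | ⟨x, y, h, rfl⟩
      · exact ⟨0, rfl⟩
      · have huv : ((C.u⁻¹ : Lˣ) : L) * (C.u : L) = 1 := C.u.inv_mul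
        have e1 : ((C.u⁻¹ : Lˣ) : L) ^ 2 * (((C.u : L) ^ 2 * x + C.r) - C.r) = x := by
          have h2 : ((C.u⁻¹ : Lˣ) : L) ^ 2 * (C.u : L) ^ 2 = 1 := by
            rw [← mul_pow, huv, one_pow]
          linear_combination x * h2
        have e2 : ((C.u⁻¹ : Lˣ) : L) ^ 3 *
            (((C.u : L) ^ 3 * y + C.s * (C.u : L) ^ 2 * x + C.t) -
              C.s * (((C.u : L) ^ 2 * x + C.r) - C.r) - C.t) = y := by
          have h2 : ((C.u⁻¹ : Lˣ) : L) ^ 3 * (C.u : L) ^ 3 = 1 := by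
            rw [← mul_pow, huv, one_pow]
          linear_combination y * h2
        have h' : W.toAffine.Nonsingular ((C.u : L) ^ 2 * x + C.r)
            ((C.u : L) ^ 3 * y + C.s * (C.u : L) ^ 2 * x + C.t) := by
          rw [← vc_iff C W, e1, e2]
          exact h
        refine ⟨Pn.aff _ _ h', ?_⟩
        rw [vcF_aff]
        exact Pn.aff_ext e1 e2
  refine ⟨AddEquiv.ofBijective (AddMonoidHom.mk' (vcF C W) (vcF_add C W)) hb, ?_⟩
  intro x y h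
  rfl

end PE
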