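import Pool.Agent.Lib.MP_f80667_ag.Pe.Phb
import Pool.Agent.Lib.MP_f80667_ag.Pe.Elg
import Pool.Agent.Lib.MP_f80667_ag.Pe.SemiE
import Pool.Agent.Lib.MP_f80667_ag.Pe.Vc
import Pool.Agent.Lib.MP_f80667_ag.Pe.Bs
import Pool.Agent.Lib.MP_f80667_ag.Pe.ElgEA

/-! Symbols over local fields which are multiples of `l`: explicit conditions. -/

open ZC BE Polynomial IntermediateField

namespace PE

namespace Ld

variable {F : Type} [Field F] {K Ω : Type} [Field K] [CharZero K] [Field Ω] [Algebra K Ω]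
  [Algebra F K] [Algebra F Ω] [IsScalarTower F K Ω] [IsAlgClosure K Ω]

private theorem elgE_div (L : Ld K Ω) (W : WeierstrassCurve F) [W.IsElliptic] (h : L.Gs W)
    {l : ℕ} (hl : l.Prime) (hpl : ¬ L.p ∣ l) {N : ℕ} (hN : N ≠ 0) {P : Pt W Ω}
    (hP : Fx (L.Ur ⊥ N) P) (hn : L.Ns P) : ∃ g ≠ 0, ∃ P' : Pt W Ω,
      Fx (L.Ur ⊥ (N * g)) P' ∧ P = l • P' := by
  obtain ⟨R, hR, hc⟩ := dhs h hl.ne_zero hn
  obtain ⟨g, hg, hlf⟩ := lift_ur h.it hR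
  have hN' : N * g ≠ 0 := mul_ne_zero hN hg
  obtain ⟨T, hT, hcT⟩ := hlf (N * g) hN' (dvd_mul_left g N)
  have hP' : Fx (L.Ur ⊥ (N * g)) P := hP.mono (ur_dvd ⊥ (dvd_mul_right N g))
  have h1 : L.Cg (l • T) (l • R) := by
    unfold Cg
    rw [← nsmul_sub]
    exact (fm_nsmul h.it hcT l).1
  have h2 : L.Fm (P - l • T) := cg_trans h.it (cg_symm h.it hc) (cg_symm h.it h1)
  have hfin : FiniteDimensional K (L.Ur ⊥ (N * g)) := ur_fin ⊥ (N * g) hN'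
  obtain ⟨c, -, hc', he⟩ := fm_div h.it (L.Ur ⊥ (N * g)) hpl h2 (hP'.sub (hT.nsmul l))
  refine ⟨g, hg, T + c, hT.add hc', ?_⟩
  rw [nsmul_add, he]
  abel

/-- `Q` with nonsingular reduction. Proof: as `elg` in `Elg.lean`, with `ms_finE` instead of `ms_fin`. -/
theorem elgE (L : Ld K Ω) (W₁ W₂ : WeierstrassCurve F) [W₁.IsElliptic] [W₂.IsElliptic]
    (h₁ : L.Gs W₁) (h₂ : L.Gs W₂) {l : ℕ} (hl : l.Prime) (hlp : l ≠ L.p) (j₁ : L.Jc l W₁)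
    (G : Type) [AddCommGroup G] (S : Sc K Ω (Pt W₁ Ω) (Pt W₂ Ω) G) (M : IntermediateField K Ω)
    (P : Pt W₁ Ω) (Q : Pt W₂ Ω) (hM : FiniteDimensional K M) (hP : Fx M P) (hQ : Fx M Q)
    (hQs : L.Ns Q) : S.Z l M P Q := by
  have hA : ∀ N ≠ 0, ∀ P : Pt W₁ Ω, Fx (L.Ur ⊥ N) P →
      ∃ P' : Pt W₁ Ω, Fx (L.Ur ⊥ N) P' ∧ L.Ns (P - l • P') := by
    intro N hN P hP
    rcases h₁ with h | h
    · exact ⟨0, Fx.zero, ns_good h _⟩
    · exact ms_finE h hl j₁ hN hP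
  have hpl : ¬ L.p ∣ l := fun hd =>
    hlp ((Nat.prime_dvd_prime_iff_eq L.pp hl).1 hd).symm
  obtain ⟨f, hf, hrf⟩ := exists_rf (L := L) M
  have hRf : L.Rf (L.Ur M f) f := hrf f hf dvd_rfl
  have hfin : FiniteDimensional K (L.Ur M f) := ur_fin M f hf
  obtain ⟨Q', hQ', hnQ', rfl⟩ := nss h₂ M hf hQ hQs
  rw [Sc.z_nm₂ ur_le hP hQ']
  have hP' : Fx (L.Ur M f) P := hP.mono ur_le
  obtain ⟨Q₀, hQ₀, hc⟩ := lift_rf h₂.it hRf hnQ' hQ'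
  have hQ₀' : Fx (L.Ur M f) Q₀ := hQ₀.mono (ur_bot_ur M f)
  have hcs : L.Cg Q' Q₀ := cg_symm h₂.it hc
  have hnQ₀ : L.Ns Q₀ := cg_ns h₂.it hcs hnQ'
  obtain ⟨c, -, hc', he⟩ := fm_div h₂.it (L.Ur M f) hpl hcs (hQ'.sub hQ₀')
  have hQe : Q' = Q₀ + l • c := by
    rw [he]
    abel
  rw [hQe]
  refine Sc.z_add₂ hP' hQ₀' (hc'.nsmul l) ?_ (Sc.z_mul₂ hP' hc')
  have hfinB : FiniteDimensional K (L.Ur ⊥ f) := ur_fin ⊥ f hf
  rw [← Sc.z_nm₁ (ur_bot_ur M f) hP' hQ₀]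
  have hP₁ : Fx (L.Ur ⊥ f) (Nm (L.Ur ⊥ f) (L.Ur M f) P) := nm_fx (ur_bot_ur M f) hP'
  generalize Nm (L.Ur ⊥ f) (L.Ur M f) P = P₁ at hP₁ ⊢
  obtain ⟨P₂, hP₂, hn₃⟩ := hA f hf P₁ hP₁
  have hP₃ : Fx (L.Ur ⊥ f) (P₁ - l • P₂) := hP₁.sub (hP₂.nsmul l)
  have hPe : P₁ = l • P₂ + (P₁ - l • P₂) := by abel
  rw [hPe]
  refine Sc.z_add₁ (hP₂.nsmul l) hP₃ hQ₀ (Sc.z_mul₁ hP₂ hQ₀) ?_
  obtain ⟨g, hg, P₄, hP₄, he₄⟩ := elgE_div L W₁ h₁ hl hpl hf hP₃ hn₃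
  have hN' : f * g ≠ 0 := mul_ne_zero hf hg
  have hfinC : FiniteDimensional K (L.Ur ⊥ (f * g)) := ur_fin ⊥ (f * g) hN'
  obtain ⟨Q₂, hQ₂, -, he₃⟩ := nss h₂ (L.Ur ⊥ f) hN' hQ₀ hnQ₀
  rw [ur_ur ⊥ (dvd_mul_right f g)] at hQ₂ he₃
  have hle : L.Ur ⊥ f ≤ L.Ur ⊥ (f * g) := ur_dvd ⊥ (dvd_mul_right f g)
  rw [← he₃, Sc.z_nm₂ hle hP₃ hQ₂, he₄]
  exact Sc.z_mul₁ hP₄ hQ₂

/-- Semistable curves. Proof: as `els` in `Elg.lean` (make its private lemma public or copy it). -/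
theorem elsE (L : Ld K Ω) (W₁ W₂ : WeierstrassCurve F) [W₁.IsElliptic] [W₂.IsElliptic]
    (h₁ : L.Gs W₁) (h₂ : L.Gs W₂) {l : ℕ} (hl : l.Prime) (hlp : l ≠ L.p) (j₁ : L.Jc l W₁)
    (j₂ : L.Jc l W₂) (G : Type) [AddCommGroup G] (S : Sc K Ω (Pt W₁ Ω) (Pt W₂ Ω) G)
    (M : IntermediateField K Ω) (P : Pt W₁ Ω) (Q : Pt W₂ Ω) (hM : FiniteDimensional K M)
    (hP : Fx M P) (hQ : Fx M Q) : S.Z l M P Q := by
  have H₂ : ∀ (M : IntermediateField K Ω) (P : Pt W₁ Ω) (Q : Pt W₂ Ω), FiniteDimensional K M →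
      Fx M P → Fx M Q → L.Ns Q → S.Z l M P Q := fun M P Q hM hP hQ hQs =>
    elgE L W₁ W₂ h₁ h₂ hl hlp j₁ G S M P Q hM hP hQ hQs
  have H₁ : ∀ (M : IntermediateField K Ω) (P : Pt W₁ Ω) (Q : Pt W₂ Ω), FiniteDimensional K M →
      Fx M P → Fx M Q → L.Ns P → S.Z l M P Q := by
    intro M P Q hM hP hQ hns
    exact Sc.z_swap.1 (elgE L W₂ W₁ h₂ h₁ hl hlp j₂ G S.swap M Q P hM hQ hP hns)
  by_cases hQs : L.Ns Q
  · exact H₂ M P Q hM hP hQ hQs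
  by_cases hPs : L.Ns P
  · exact H₁ M P Q hM hP hQ hPs
  have hm₁ : L.Ms W₁ := h₁.resolve_left fun h => hPs (ns_good h P)
  have hm₂ : L.Ms W₂ := h₂.resolve_left fun h => hQs (ns_good h Q)
  obtain ⟨x₁, y₁, α₁, β₁, hc₁⟩ := hm₁.sp
  obtain ⟨x₂, y₂, α₂, β₂, hc₂⟩ := hm₂.sp
  obtain ⟨w₁, hw₁, hl₁⟩ := la_or hm₁.toMd hc₁ hPs M hP
  obtain ⟨w₂, hw₂, hl₂⟩ := la_or hm₂.toMd hc₂ hQs M hQ
  have neg₁ : ∀ Q : Pt W₂ Ω, Fx M Q → S.Z l M (-P) Q → S.Z l M P Q := by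
    intro Q hQ h
    have h0 : S.Z l M (l • (0 : Pt W₁ Ω)) Q := Sc.z_mul₁ Fx.zero hQ
    have h1 := Sc.z_sub₁ (Fx.zero.nsmul l) hP.neg hQ h0 h
    rwa [smul_zero, zero_sub, neg_neg] at h1
  have neg₂ : ∀ P : Pt W₁ Ω, Fx M P → S.Z l M P (-Q) → S.Z l M P Q := by
    intro P hP h
    have h0 : S.Z l M P (l • (0 : Pt W₂ Ω)) := Sc.z_mul₂ hP Fx.zero
    have h1 := Sc.z_sub₂ hP (Fx.zero.nsmul l) hQ.neg h0 h
    rwa [smul_zero, zero_sub, neg_neg] at h1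
  rcases hl₁ with hl₁ | hl₁ <;> rcases hl₂ with hl₂ | hl₂
  · exact els_la L W₁ W₂ hm₁.toMd hm₂.toMd S hl H₂ H₁ hc₁ hc₂ M hP hQ hw₁ hw₂ hl₁ hl₂
  · exact neg₂ P hP
      (els_la L W₁ W₂ hm₁.toMd hm₂.toMd S hl H₂ H₁ hc₁ hc₂ M hP hQ.neg hw₁ hw₂ hl₁ hl₂)
  · exact neg₁ Q hQ
      (els_la L W₁ W₂ hm₁.toMd hm₂.toMd S hl H₂ H₁ hc₁ hc₂ M hP.neg hQ hw₁ hw₂ hl₁ hl₂)
  · exact neg₁ Q hQ (neg₂ (-P) hP.neg
      (els_la L W₁ W₂ hm₁.toMd hm₂.toMd S hl H₂ H₁ hc₁ hc₂ M hP.neg hQ.neg hw₁ hw₂ hl₁ hl₂))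

/-- **Semistable reduction** over an extension of degree prime to all `l ≥ 5`. Proof: `semiE_odd`, `semiE_three` (`2` or `3` is a unit): `M₁`, `C`; the node and the slopes of the reduction of `C • W` (`exists_nc` over `M₁`): `x₀` is a root of a polynomial of degree `2` over `M₁`, `y₀`, `α`, `β` of polynomials of degree at most `2`
(`cp_adj`). Otherwise as `pot_ss` in `Pot.lean`. The last clause: `c₄³ / Δ` does not change. -/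
theorem pot_ssE (L : Ld K Ω) (W : WeierstrassCurve F) [W.IsElliptic] :
    ∃ M : IntermediateField K Ω, FiniteDimensional K M ∧
      (∀ l : ℕ, l.Prime → 5 ≤ l → Cp l M) ∧ ∀ M' : IntermediateField K Ω, M ≤ M' →
      ∀ (L' : Ld M' Ω), (∀ x, L'.nm x = L.nm x) →
        ∃ (W' : WeierstrassCurve M') (φ : Pt W Ω ≃+ Pt W' Ω), W'.IsElliptic ∧ L'.Gs W' ∧
          (∀ (σ : Ω ≃ₐ[M'] Ω) (P : Pt W Ω), φ (σ.restrictScalars K • P) = σ • φ P) ∧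
          algebraMap M' Ω W'.c₄ ^ 3 * algebraMap F Ω W.Δ =
            algebraMap F Ω W.c₄ ^ 3 * algebraMap M' Ω W'.Δ :=
  L.elgEA_pot W

/-- The condition over an extension of degree prime to `l`. Proof: `cp_ram`: `nm π = nm π' ^ e`. Let `nm Δ' = nm c₄' ^ 3 nm π' ^ n'`, `l ∣ n'`. If `c₄ = 0` then `c₄' = 0`, `nm Δ' = 0`: impossible. So `nm Δ = nm c₄ ^ 3 nm π' ^ n'` (the equation), and `nm Δ = nm c₄ ^ 3 nm π ^ n` for an integer `n` (`Un.val`), `n' = e n`, `n ≥ 0`, `l ∣ n`, so `n = 0` by the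
condition for `L`. -/
theorem jc_ext (L : Ld K Ω) {l : ℕ} (hl : l.Prime) {M : IntermediateField K Ω}
    [FiniteDimensional K M] (hc : Cp l M) (L' : Ld M Ω) (hL : ∀ x, L'.nm x = L.nm x)
    (W : WeierstrassCurve F) [W.IsElliptic] (W' : WeierstrassCurve M) [W'.IsElliptic]
    (he : algebraMap M Ω W'.c₄ ^ 3 * algebraMap F Ω W.Δ =
      algebraMap F Ω W.c₄ ^ 3 * algebraMap M Ω W'.Δ) (hj : L.Jc l W) : L'.Jc l W' := by
  intro π' hπ' n' hn' hdv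
  have hinj : Function.Injective (algebraMap F Ω) := (algebraMap F Ω).injective
  have hinj' : Function.Injective (algebraMap M Ω) := (algebraMap M Ω).injective
  have hD : algebraMap F Ω W.Δ ≠ 0 := fun h =>
    W.isUnit_Δ.ne_zero (hinj (by rw [h, map_zero]))
  have hD' : algebraMap M Ω W'.Δ ≠ 0 := fun h =>
    W'.isUnit_Δ.ne_zero (hinj' (by rw [h, map_zero]))
  have hc' : algebraMap M Ω W'.c₄ ≠ 0 := by
    intro h
    rw [h, hL, hL, hL, L.zero, zero_pow three_ne_zero, zero_mul] at hn'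
    exact hD' ((L.zero_iff _).1 hn')
  have hc4 : algebraMap F Ω W.c₄ ≠ 0 := by
    intro h
    rw [h, zero_pow three_ne_zero, zero_mul] at he
    exact mul_ne_zero (pow_ne_zero 3 hc') hD he
  -- the uniformizers
  obtain ⟨π, hπ⟩ := L.exists_un ⊥
  have hu : L.Un M π' := by
    refine ⟨?_, ?_, ?_, ?_⟩
    · obtain ⟨y, hy⟩ := IntermediateField.mem_bot.1 hπ'.mem
      rw [← hy]
      exact y.2
    · rw [← hL]
      exact hπ'.pos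
    · rw [← hL]
      exact hπ'.lt
    · intro x hx hx0
      obtain ⟨n, hn⟩ := hπ'.val x (IntermediateField.mem_bot.2 ⟨⟨x, hx⟩, rfl⟩) hx0
      rw [hL, hL] at hn
      exact ⟨n, hn⟩
  obtain ⟨e, hee, hec⟩ := L.cp_ram hc hπ hu
  have he0 : e ≠ 0 := by
    rintro rfl
    rw [pow_zero] at hee
    exact absurd hee hπ.lt.ne
  -- the equation for the norms
  have hn2 : L.nm (algebraMap F Ω W.Δ) = L.nm (algebraMap F Ω W.c₄) ^ 3 * L.nm π' ^ n' := by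
    have h1 := congrArg L.nm he
    rw [L.mul, L.mul, L.pow, L.pow] at h1
    rw [hL, hL, hL] at hn'
    rw [hn'] at h1
    have h2 : L.nm (algebraMap M Ω W'.c₄) ^ 3 ≠ 0 := pow_ne_zero 3 (L.pos hc').ne'
    have h3 : L.nm (algebraMap M Ω W'.c₄) ^ 3 * L.nm (algebraMap F Ω W.Δ) =
        L.nm (algebraMap M Ω W'.c₄) ^ 3 *
          (L.nm (algebraMap F Ω W.c₄) ^ 3 * L.nm π' ^ n') := by
      rw [h1]
      ring
    exact mul_left_cancel₀ h2 h3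
  have hmem : algebraMap F Ω W.Δ * ((algebraMap F Ω W.c₄) ^ 3)⁻¹ ∈
      (⊥ : IntermediateField K Ω) := by
    rw [IsScalarTower.algebraMap_apply F K Ω, IsScalarTower.algebraMap_apply F K Ω]
    exact mul_mem (IntermediateField.algebraMap_mem _ _)
      (inv_mem (pow_mem (IntermediateField.algebraMap_mem _ _) 3))
  obtain ⟨k, hk⟩ := hπ.val _ hmem (mul_ne_zero hD (inv_ne_zero (pow_ne_zero 3 hc4)))
  have h3 : L.nm (algebraMap F Ω W.c₄) ^ 3 ≠ 0 := pow_ne_zero 3 (L.pos hc4).ne'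
  have hk2 : L.nm π' ^ n' = L.nm π ^ k := by
    rw [← hk, L.mul, L.inv, L.pow, hn2, mul_comm, ← mul_assoc, inv_mul_cancel₀ h3, one_mul]
  have hk3 : (n' : ℤ) = e * k := by
    rw [hee, ← zpow_natCast, ← zpow_natCast, ← zpow_mul] at hk2
    exact (zpow_right_strictAnti₀ hu.pos hu.lt).injective hk2
  have hk0 : 0 ≤ k := by
    by_contra hneg
    have h5 : (e : ℤ) * k < 0 := mul_neg_of_pos_of_neg (by positivity) (not_le.1 hneg)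
    rw [← hk3] at h5
    exact absurd h5 (not_lt.2 (Int.natCast_nonneg _))
  obtain ⟨m, rfl⟩ := Int.eq_ofNat_of_zero_le hk0
  have hk4 : n' = e * m := by exact_mod_cast hk3
  have hlm : l ∣ m := by
    rw [hk4] at hdv
    exact (Nat.Coprime.dvd_of_dvd_mul_left hec.symm hdv)
  have hm0 : m = 0 := by
    refine hj π hπ m ?_ hlm
    rw [hn2, hk2, zpow_natCast]
  rw [hk4, hm0, mul_zero]

/-- **Local theorem.** Proof: as `el_pot` in `Pot.lean`: `M` by `pot_ssE` for both curves (`cp_sup`), `L'` by `exists_bsL`, `elsE` for `L'` with `jc_ext`, `exists_bs`, and `z_cop` for `N ≤ N ⊔ M` (`Cp`). -/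
theorem el_potE (L : Ld K Ω) (W₁ W₂ : WeierstrassCurve F) [W₁.IsElliptic] [W₂.IsElliptic]
    {l : ℕ} (hl : l.Prime) (h5 : 5 ≤ l) (hlp : l ≠ L.p) (j₁ : L.Jc l W₁) (j₂ : L.Jc l W₂)
    (G : Type) [AddCommGroup G] (S : Sc K Ω (Pt W₁ Ω) (Pt W₂ Ω) G) (M : IntermediateField K Ω)
    (P : Pt W₁ Ω) (Q : Pt W₂ Ω) (hM : FiniteDimensional K M) (hP : Fx M P) (hQ : Fx M Q) :
    S.Z l M P Q := by
  obtain ⟨M₁, hf₁, hc₁, hM₁⟩ := pot_ssE L W₁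
  obtain ⟨M₂, hf₂, hc₂, hM₂⟩ := pot_ssE L W₂
  have hcz : CharZero Ω := charZero_of_injective_algebraMap (algebraMap K Ω).injective
  set M₀ : IntermediateField K Ω := M₁ ⊔ M₂ with hM₀
  have hf : FiniteDimensional K M₀ := IntermediateField.finiteDimensional_sup M₁ M₂
  have hcp : Cp l M₀ := cp_sup (hc₁ l hl h5) (hc₂ l hl h5)
  obtain ⟨L', hp, hL'⟩ := L.exists_bsL M₀
  obtain ⟨W₁', φ, he₁, hg₁, hφ, hq₁⟩ := hM₁ M₀ le_sup_left L' hL'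
  obtain ⟨W₂', ψ, he₂, hg₂, hψ, hq₂⟩ := hM₂ M₀ le_sup_right L' hL'
  have hac : IsAlgClosed Ω := IsAlgClosure.isAlgClosed K
  have halg : Algebra.IsAlgebraic K Ω := IsAlgClosure.isAlgebraic
  have hcl : IsAlgClosure M₀ Ω := ⟨hac, Algebra.IsAlgebraic.tower_top (K := K) M₀⟩
  have hj₁ : L'.Jc l W₁' := jc_ext L hl hcp L' hL' W₁ W₁' hq₁ j₁
  have hj₂ : L'.Jc l W₂' := jc_ext L hl hcp L' hL' W₂ W₂' hq₂ j₂
  obtain ⟨S', hT, hS'⟩ := exists_bs M₀ S φ ψ hφ hψ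
  let N : IntermediateField M₀ Ω := IntermediateField.extendScalars (le_sup_right : M₀ ≤ M ⊔ M₀)
  have hN : N.restrictScalars K = M ⊔ M₀ := IntermediateField.extendScalars_restrictScalars _
  have hfN : FiniteDimensional K (M ⊔ M₀ : IntermediateField K Ω) :=
    IntermediateField.finiteDimensional_sup M M₀
  have hfN' : FiniteDimensional M₀ N := by
    have h1 : FiniteDimensional K N := by
      change FiniteDimensional K (N.restrictScalars K)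
      rw [hN]
      exact hfN
    exact FiniteDimensional.right K M₀ N
  have hPN : Fx N (φ P) := by
    rw [bs_fx M₀ hφ, hN]
    exact hP.mono le_sup_left
  have hQN : Fx N (ψ Q) := by
    rw [bs_fx M₀ hψ, hN]
    exact hQ.mono le_sup_left
  obtain ⟨x, hx, hxe⟩ := elsE L' W₁' W₂' hg₁ hg₂ hl (by rw [hp]; exact hlp) hj₁ hj₂ G S' N
    (φ P) (ψ Q) hfN' hPN hQN
  rw [hS', hN] at hxe
  exact Sc.z_cop le_sup_left hP hQ (hcp M hM) ⟨x, hT hx, hxe⟩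

end Ld

end PE
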