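import Pool.Agent.Lib.MP_f80667_ag.Be.LR
import Pool.Agent.Lib.MP_f80667_ag.Be.St

/-! Norms over a field with a finite Galois group. -/

open ZC Polynomial IntermediateField IsDedekindDomain NumberField

namespace PE

open BE

section alg

variable {F : Type} [Field F] (V : Vr F) {K : Type} [Field K] [Algebra F K] {Ω : Type} [Field Ω]
  [Algebra K Ω] [Algebra F Ω] [IsScalarTower F K Ω]

/-- The sum of the images of a cycle under the (finite) Galois group is a sum of norms. -/
theorem glna_sum [Finite (Ω ≃ₐ[K] Ω)] (z : V.pt Ω →₀ ℤ) :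
    ∑ᶠ σ : Ω ≃ₐ[K] Ω, Finsupp.mapDomain (V.act σ) z ∈ V.nrm K Ω := by
  classical
  have hf := Fintype.ofFinite (Ω ≃ₐ[K] Ω)
  induction z using Finsupp.induction_linear with
  | zero =>
    simp only [Finsupp.mapDomain_zero, finsum_zero]
    exact zero_mem _
  | add a b ha hb =>
    simp only [Finsupp.mapDomain_add]
    rw [finsum_add_distrib (Set.toFinite _) (Set.toFinite _)]
    exact add_mem ha hb
  | single x n =>
    have h1 : ∑ᶠ σ : Ω ≃ₐ[K] Ω, Finsupp.single (V.act σ x) (1 : ℤ) ∈ V.nrm K Ω :=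
      AddSubgroup.subset_closure ⟨x, rfl⟩
    have h2 := zsmul_mem h1 n
    have h3 : n • ∑ᶠ σ : Ω ≃ₐ[K] Ω, Finsupp.single (V.act σ x) (1 : ℤ) =
        ∑ᶠ σ : Ω ≃ₐ[K] Ω, Finsupp.mapDomain (V.act σ) (Finsupp.single x n) := by
      rw [finsum_eq_sum_of_fintype, finsum_eq_sum_of_fintype, Finset.smul_sum]
      refine Finset.sum_congr rfl fun σ _ => ?_
      rw [Finsupp.mapDomain_single, Finsupp.smul_single, smul_eq_mul, mul_one]
    rw [← h3]
    exact h2

/-- The number of automorphisms kills the cycles modulo norms. -/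
theorem glna_card [Finite (Ω ≃ₐ[K] Ω)] {z : V.pt Ω →₀ ℤ} (hz : z ∈ V.cyc K Ω) :
    Nat.card (Ω ≃ₐ[K] Ω) • z ∈ V.nrm K Ω := by
  classical
  have hf := Fintype.ofFinite (Ω ≃ₐ[K] Ω)
  have h1 := glna_sum V (K := K) z
  have h2 : ∑ᶠ σ : Ω ≃ₐ[K] Ω, Finsupp.mapDomain (V.act σ) z = Nat.card (Ω ≃ₐ[K] Ω) • z := by
    rw [finsum_eq_sum_of_fintype, Finset.sum_congr rfl fun σ _ => hz σ, Finset.sum_const,
      Finset.card_univ, Nat.card_eq_fintype_card]
  rw [← h2]
  exact h1

end alg

section nf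

variable {F : Type} [Field F] [NumberField F]

/-- The double of a cycle at an infinite place is a sum of norms. -/
theorem glna_two {V : Vr F} (v : InfinitePlace F) (z : Zc V (IK F v)) :
    2 • z.cy ∈ V.nrm (IK F v) (AlgebraicClosure (IK F v)) := by
  have hc : CharZero (IK F v) := charZero_of_injective_algebraMap (algebraMap F (IK F v)).injective
  have hz : z.cy ∈ V.cyc (IK F v) (AlgebraicClosure (IK F v)) := z.2.1
  rcases v.isReal_or_isComplex with hv | hv
  · obtain ⟨e⟩ : Nonempty (IK F v ≃+* ℝ) := ⟨InfinitePlace.Completion.ringEquivRealOfIsReal hv⟩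
    obtain ⟨hfr, -⟩ := real_gal (Ω := AlgebraicClosure (IK F v)) e
    have hfd : FiniteDimensional (IK F v) (AlgebraicClosure (IK F v)) :=
      Module.finite_of_finrank_pos (by rw [hfr]; norm_num)
    have hc2 : Nat.card (AlgebraicClosure (IK F v) ≃ₐ[IK F v] AlgebraicClosure (IK F v)) = 2 := by
      rw [IsGalois.card_aut_eq_finrank, hfr]
    have h1 := glna_card V (K := IK F v) (Ω := AlgebraicClosure (IK F v)) hz
    rw [hc2] at h1
    exact h1
  · obtain ⟨e⟩ : Nonempty (IK F v ≃+* ℂ) :=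
      ⟨InfinitePlace.Completion.ringEquivComplexOfIsComplex hv⟩
    have h0 : ∀ γ : AlgebraicClosure (IK F v) ≃ₐ[IK F v] AlgebraicClosure (IK F v), γ = 1 :=
      fun γ => complex_gal e γ
    have hs : Subsingleton (AlgebraicClosure (IK F v) ≃ₐ[IK F v] AlgebraicClosure (IK F v)) :=
      ⟨fun a b => (h0 a).trans (h0 b).symm⟩
    have h1 := glna_card V (K := IK F v) (Ω := AlgebraicClosure (IK F v)) hz
    rw [Nat.card_unique, one_smul] at h1
    exact nsmul_mem h1 2

/-- The classes at the infinite places are killed by two. -/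
theorem glna_clN {V : Vr F} (v : InfinitePlace F) (z : Zc V (IK F v)) : 2 • z.clN = 0 := by
  let w : Dz V (IK F v) := z
  let N : AddSubgroup (Dz V (IK F v)) := (V.ratEq (IK F v) (AlgebraicClosure (IK F v)) ⊔
    V.nrm (IK F v) (AlgebraicClosure (IK F v))).addSubgroupOf (Dz V (IK F v))
  have h2 : 2 • z.clN = QuotientAddGroup.mk' N (2 • w) := (map_nsmul (QuotientAddGroup.mk' N) 2 w).symm
  refine h2.trans ((QuotientAddGroup.eq_zero_iff _).2 ?_)
  change 2 • z.cy ∈ V.ratEq _ _ ⊔ V.nrm _ _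
  exact AddSubgroup.mem_sup_right (glna_two v z)

end nf

end PE
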