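import Pool.Agent.Lib.MP_f80667_ag.Pe.St

/-! The conditions `Lv` hold at almost all finite places. -/

open ZC BE Polynomial IsDedekindDomain NumberField

namespace PE

section nf

variable {F : Type} [Field F] [NumberField F]

theorem gln_le (x : F) : {v : HeightOneSpectrum (𝓞 F) | ¬ v.valuation F x ≤ 1}.Finite :=
  (HeightOneSpectrum.Support.finite (𝓞 F) x).subset fun _ hv => not_le.1 hv

theorem gln_one {x : F} (hx : x ≠ 0) :
    {v : HeightOneSpectrum (𝓞 F) | v.valuation F x ≠ 1}.Finite := by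
  refine ((HeightOneSpectrum.Support.finite (𝓞 F) x).union
    (HeightOneSpectrum.Support.finite (𝓞 F) x⁻¹)).subset fun v hv => ?_
  rcases lt_or_gt_of_ne (hv : v.valuation F x ≠ 1) with h | h
  · refine Or.inr ?_
    change 1 < v.valuation F x⁻¹
    rw [map_inv₀]
    exact (one_lt_inv₀ ((Valuation.pos_iff _).2 hx)).2 h
  · exact Or.inl h

theorem gln_unr : {v : HeightOneSpectrum (𝓞 F) | ¬ ∃ p : ℕ, p.Prime ∧
    v.valuation F (p : F) = WithZero.exp (-1 : ℤ)}.Finite := by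
  have hfin : {v : HeightOneSpectrum (𝓞 F) | v.asIdeal ∣ differentIdeal ℤ (𝓞 F)}.Finite :=
    Ideal.finite_factors differentIdeal_ne_bot
  refine hfin.subset fun v hv => ?_
  by_contra hd
  refine hv ?_
  have hd' : ¬ v.asIdeal ∣ differentIdeal ℤ (𝓞 F) := hd
  have hP : v.asIdeal.IsPrime := v.isPrime
  have hne : v.asIdeal.under ℤ ≠ ⊥ := mt Ideal.eq_bot_of_comap_eq_bot v.ne_bot
  have hpr : (v.asIdeal.under ℤ).IsPrime := inferInstance
  obtain ⟨n, hn⟩ := (IsPrincipalIdealRing.principal (v.asIdeal.under ℤ)).principal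
  have hn' : v.asIdeal.under ℤ = Ideal.span {n} := hn
  have hn0 : n ≠ 0 := by
    rintro rfl
    exact hne (by rw [hn']; simp)
  have hnp : Prime n := by
    rw [hn', Ideal.span_singleton_prime hn0] at hpr
    exact hpr
  have hspan : v.asIdeal.under ℤ = Ideal.span {((n.natAbs : ℕ) : ℤ)} := by
    rw [hn', Int.span_natAbs]
  refine ⟨n.natAbs, Int.prime_iff_natAbs_prime.1 hnp, ?_⟩
  have hn1 : ((n.natAbs : ℕ) : ℤ) ≠ 0 := by
    rw [Int.natCast_ne_zero]
    exact Int.natAbs_ne_zero.2 hn0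
  have h0 : ((n.natAbs : ℕ) : 𝓞 F) ≠ 0 := by
    have := Int.natAbs_ne_zero.2 hn0
    exact_mod_cast this
  have hmap : (v.asIdeal.under ℤ).map (algebraMap ℤ (𝓞 F)) =
      Ideal.span {((n.natAbs : ℕ) : 𝓞 F)} := by
    rw [hspan, Ideal.map_span, Set.image_singleton, map_natCast]
  have h1 : ((n.natAbs : ℕ) : 𝓞 F) ∈ v.asIdeal := by
    have h2 : ((n.natAbs : ℕ) : ℤ) ∈ v.asIdeal.under ℤ := by
      rw [hspan]
      exact Ideal.mem_span_singleton_self _
    rw [Ideal.mem_comap, map_natCast] at h2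
    exact h2
  have h2 : ¬ v.asIdeal ^ 2 ∣ Ideal.span {((n.natAbs : ℕ) : 𝓞 F)} := by
    intro h3
    refine hd' ?_
    have h4 : v.asIdeal ^ (2 - 1) ∣ differentIdeal ℤ (𝓞 F) := by
      refine pow_sub_one_dvd_differentIdeal (A := ℤ) (p := v.asIdeal.under ℤ) v.asIdeal 2 hne ?_
      rw [hmap]
      exact h3
    rwa [show 2 - 1 = 1 from rfl, pow_one] at h4
  have h3 : (n.natAbs : F) = algebraMap (𝓞 F) F ((n.natAbs : ℕ) : 𝓞 F) := (map_natCast _ _).symm
  rw [h3, HeightOneSpectrum.valuation_of_algebraMap]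
  have h4 : v.intValuation ((n.natAbs : ℕ) : 𝓞 F) ≤ WithZero.exp (-(1 : ℕ) : ℤ) := by
    rw [HeightOneSpectrum.intValuation_le_pow_iff_dvd, pow_one, Ideal.dvd_span_singleton]
    exact h1
  have h5 : ¬ v.intValuation ((n.natAbs : ℕ) : 𝓞 F) ≤ WithZero.exp (-(2 : ℕ) : ℤ) := by
    rw [HeightOneSpectrum.intValuation_le_pow_iff_dvd]
    exact h2
  rw [HeightOneSpectrum.intValuation_if_neg _ h0] at h4 h5 ⊢
  rw [WithZero.exp_le_exp] at h4 h5
  rw [WithZero.exp_inj]
  push_cast at h4 h5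
  omega

/-- The conditions hold at almost all finite places. -/
theorem gln_fin (W₁ W₂ : WeierstrassCurve F) [W₁.IsElliptic] [W₂.IsElliptic] :
    {v : HeightOneSpectrum (𝓞 F) | ¬ Lv W₁ W₂ v}.Finite := by
  have hΔ : ∀ (W : WeierstrassCurve F) [W.IsElliptic], W.Δ ≠ 0 := fun W _ => W.isUnit_Δ.ne_zero
  have hI : ∀ W : WeierstrassCurve F, {v : HeightOneSpectrum (𝓞 F) | ¬ Iv v W}.Finite := by
    intro W
    refine (((((gln_le W.a₁).union (gln_le W.a₂)).union (gln_le W.a₃)).union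
      (gln_le W.a₄)).union (gln_le W.a₆)).subset fun v hv => ?_
    by_contra h
    simp only [Set.mem_union, Set.mem_ofPred_eq, not_or, not_not] at h
    obtain ⟨⟨⟨⟨h1, h2⟩, h3⟩, h4⟩, h6⟩ := h
    exact hv ⟨h1, h2, h3, h4, h6⟩
  refine (((((gln_unr (F := F)).union (hI W₁)).union (hI W₂)).union (gln_one (hΔ W₁))).union
    ((gln_one (hΔ W₂)).union (gln_one (two_ne_zero (α := F))))).subset fun v hv => ?_
  by_contra h
  simp only [Set.mem_union, Set.mem_ofPred_eq, not_or, not_not] at h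
  obtain ⟨⟨⟨⟨h1, h2⟩, h3⟩, h4⟩, h5, h6⟩ := h
  refine hv ⟨h1, h2, h3, ?_, h5, fun h7 => absurd h6 h7.ne⟩
  rw [h4, ← WithZero.exp_zero]
  exact WithZero.exp_le_exp.2 (by norm_num)

end nf

end PE
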