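import Pool.Agent.Lib.MP_f80667_ag.Pe.Df

/-! Traces and push-forwards for the product of two curves. -/

open ZC BE Polynomial

namespace PE

section gen

variable {F : Type} [Field F] {V V' : Vr F}

/-- A natural map of points moves cycles rationally equivalent to `0` to such cycles. -/
private theorem trc_ratEq (φ : ∀ (L : Type) [Field L] [Algebra F L], V.pt L → V'.pt L)
    (hmap : ∀ (L M : Type) [Field L] [Field M] [Algebra F L] [Algebra F M] (σ : L →ₐ[F] M)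
      (x : V.pt L), V'.map σ (φ L x) = φ M (V.map σ x))
    (hred : ∀ (K L Ω : Type) [Field K] [Field L] [Field Ω] [Algebra K L] [Algebra K Ω]
      [Algebra F L] [Algebra F Ω] (w : Place K L Ω) (x : V.pt L) (y : V.pt Ω),
      V.red w x y → V'.red w (φ L x) (φ Ω y)) (K : Type) [Field K] [Algebra F K] (Ω : Type)
    [Field Ω] [Algebra K Ω] [Algebra F Ω] {z : V.pt Ω →₀ ℤ} (hz : z ∈ V.ratEq K Ω) :
    Finsupp.mapDomain (φ Ω) z ∈ V'.ratEq K Ω := by
  have h : V.ratEq K Ω ≤ (V'.ratEq K Ω).comap (Finsupp.mapDomain.addMonoidHom (φ Ω)) := by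
    rw [Vr.ratEq, AddSubgroup.closure_le]
    rintro _ ⟨E, i1, i2, i3, i4, hE, g, x, hg, hx, S, m, y, hS, hv, rfl⟩
    change Finsupp.mapDomain (φ Ω) _ ∈ V'.ratEq K Ω
    rw [Finsupp.mapDomain_finsetSum]
    refine AddSubgroup.subset_closure ⟨E, i1, i2, i3, i4, hE, g, φ _ x, hg, fun σ => ?_, S, m,
      fun w => φ Ω (y w), hS, fun w hw => ⟨(hv w hw).1, ?_⟩, ?_⟩
    · change V'.map _ (φ _ x) = φ _ x
      rw [hmap]
      exact congrArg (φ _) (hx σ)
    · obtain ⟨W, h1, h2, h3⟩ := (hv w hw).2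
      exact ⟨W, h1, h2, hred _ _ _ W x (y w) h3⟩
    · refine Finset.sum_congr rfl fun w _ => ?_
      rw [Finsupp.mapDomain_single]
  exact h hz

variable {K : Type} [Field K] [Algebra F K] {Ω : Type} [Field Ω] [Algebra K Ω] [Algebra F Ω]
  [IsScalarTower F K Ω] (f : V.pt Ω → V'.pt Ω)
  (hf : ∀ (σ : Ω ≃ₐ[K] Ω) (x : V.pt Ω), V'.act σ (f x) = f (V.act σ x))

include hf

/-- An equivariant map moves norms to norms. -/
private theorem trc_nrm {z : V.pt Ω →₀ ℤ} (hz : z ∈ V.nrm K Ω) :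
    Finsupp.mapDomain f z ∈ V'.nrm K Ω := by
  have h : V.nrm K Ω ≤ (V'.nrm K Ω).comap (Finsupp.mapDomain.addMonoidHom f) := by
    rw [Vr.nrm, AddSubgroup.closure_le]
    rintro _ ⟨x, rfl⟩
    change Finsupp.mapDomain.addMonoidHom f _ ∈ V'.nrm K Ω
    rcases finite_or_infinite (Ω ≃ₐ[K] Ω) with hfin | hinf
    · rw [map_finsum _ (Set.toFinite _)]
      refine AddSubgroup.subset_closure ⟨f x, finsum_congr fun σ => ?_⟩
      rw [Finsupp.mapDomain.addMonoidHom_apply, Finsupp.mapDomain_single, hf]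
    · rw [finsum_of_infinite_support, map_zero]
      · exact zero_mem _
      · have h1 : (Function.support fun σ : Ω ≃ₐ[K] Ω =>
            Finsupp.single (V.act σ x) (1 : ℤ)) = Set.univ := by
          refine Set.eq_univ_of_forall fun σ => ?_
          rw [Function.mem_support, Ne, Finsupp.single_eq_zero]
          exact one_ne_zero
        rw [h1]
        exact Set.infinite_univ
  exact h hz

/-- An equivariant map moves cycles of degree `0` to such cycles. -/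
private theorem trc_D0 {z : V.pt Ω →₀ ℤ} (hz : z ∈ V.D0 K Ω) :
    Finsupp.mapDomain f z ∈ V'.D0 K Ω := by
  refine ⟨fun σ => ?_, ?_⟩
  · rw [← Finsupp.mapDomain_comp]
    have h1 : V'.act σ ∘ f = f ∘ V.act σ := funext fun x => hf σ x
    rw [h1, Finsupp.mapDomain_comp]
    exact congrArg _ (hz.1 σ)
  · have h1 : (V'.deg Ω).comp (Finsupp.mapDomain.addMonoidHom f) = V.deg Ω := by
      refine Finsupp.addHom_ext fun x n => ?_
      simp [Vr.deg, Finsupp.mapDomain_single]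
    have h2 : V.deg Ω z = 0 := hz.2
    rw [← h1] at h2
    exact h2

end gen

section fun'

variable {K M E : Type} [Field K] [Field M] [Field E] [Algebra K M] [Algebra M E] [Algebra K E]
  [IsScalarTower K M E] [FiniteDimensional K M]

/-- A function field over a finite extension. -/
private theorem trc_fun (hE : IsFunField M E) : IsFunField K E := by
  obtain ⟨t, ht, hfin⟩ := hE
  refine ⟨t, fun h => ht (h.tower_top M), ?_⟩
  set K0 := IntermediateField.adjoin K {t} with hK0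
  let b := Module.finBasis K M
  let S : Set E := Set.range (fun i => algebraMap M E (b i))
  have hfin0 : FiniteDimensional K0 (IntermediateField.adjoin K0 S) := by
    have : Finite S := Set.finite_range _
    apply IntermediateField.finiteDimensional_adjoin
    rintro _ ⟨i, rfl⟩
    have h1 : IsIntegral K (b i) := IsIntegral.of_finite K (b i)
    have h2 : IsIntegral K (algebraMap M E (b i)) := h1.algebraMap
    exact h2.tower_top
  have hM : ∀ a : M, algebraMap M E a ∈ IntermediateField.adjoin K0 S := by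
    intro a
    rw [← b.sum_repr a, map_sum]
    refine sum_mem ?_
    intro i _
    rw [Algebra.smul_def, map_mul]
    refine mul_mem ?_ (IntermediateField.subset_adjoin _ _ ⟨i, rfl⟩)
    rw [← IsScalarTower.algebraMap_apply K M E]
    have : algebraMap K E (b.repr a i) = algebraMap K0 E (algebraMap K K0 (b.repr a i)) := by
      rw [← IsScalarTower.algebraMap_apply K K0 E]
    rw [this]
    exact IntermediateField.algebraMap_mem _ _
  have ht0 : t ∈ IntermediateField.adjoin K0 S := by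
    have h1 : t ∈ K0 := IntermediateField.mem_adjoin_simple_self K _
    exact IntermediateField.algebraMap_mem (IntermediateField.adjoin K0 S) (⟨t, h1⟩ : K0)
  set N := IntermediateField.adjoin K0 S with hN
  have hle : ∀ a ∈ IntermediateField.adjoin M {t}, a ∈ N := by
    have h1 : IntermediateField.adjoin M {t} ≤ N.toSubfield.toIntermediateField hM := by
      rw [IntermediateField.adjoin_le_iff, Set.singleton_subset_iff]
      exact ht0
    exact fun a ha => h1 ha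
  have hNE : Module.Finite N E := by
    obtain ⟨T, hT⟩ := hfin.fg_top
    refine ⟨⟨T, ?_⟩⟩
    rw [eq_top_iff]
    intro y _
    have hy : y ∈ Submodule.span (IntermediateField.adjoin M {t}) (T : Set E) := by
      rw [hT]
      trivial
    induction hy using Submodule.span_induction with
    | mem x hx => exact Submodule.subset_span hx
    | zero => exact zero_mem _
    | add x y _ _ hx hy => exact add_mem (hx trivial) (hy trivial)
    | smul a x _ hx =>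
      exact Submodule.smul_mem _ (⟨(a : E), hle a a.2⟩ : N) (hx trivial)
  exact Module.Finite.trans N E

end fun'

section emb

variable {K Ω : Type} [Field K] [Field Ω] [Algebra K Ω] {M : IntermediateField K Ω} {E : Type}
  [Field E] [Algebra M E] [Algebra K E] [IsScalarTower K M E]

/-- The composite of a place over `M` and an automorphism of `Ω` over `K`. -/
private noncomputable def trc_emb (γ : Ω ≃ₐ[K] Ω) (w : Place M E Ω) : Place K E Ω where
  V := w.V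
  ne_top := w.ne_top
  mem a := by
    rw [IsScalarTower.algebraMap_apply K M E]
    exact w.mem _
  res := (γ : Ω →+* Ω).comp w.res
  res_k a := by
    have h1 : (⟨algebraMap K E a, by
        rw [IsScalarTower.algebraMap_apply K M E]
        exact w.mem _⟩ : w.V) = ⟨algebraMap M E (algebraMap K M a), w.mem _⟩ :=
      Subtype.ext (IsScalarTower.algebraMap_apply K M E a)
    change γ (w.res _) = _
    rw [h1, w.res_k]
    exact γ.commutes a
  res_zero x hx := by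
    change γ (w.res x) = 0
    rw [w.res_zero x hx, map_zero]

private theorem trc_res (γ : Ω ≃ₐ[K] Ω) (w : Place M E Ω) (x : w.V) :
    (trc_emb γ w).res x = γ (w.res x) := rfl

private theorem trc_inj {γ γ' : Ω ≃ₐ[K] Ω} {w w' : Place M E Ω}
    (h : trc_emb γ w = trc_emb γ' w') :
    (∀ a ∈ M, γ a = γ' a) ∧ (γ = γ' → w = w') := by
  have hV : w.V = w'.V := congrArg (fun v : Place K E Ω => v.V) h
  have key : ∀ (v v' : Place K E Ω) (h : v = v') (y : E) (h1 : y ∈ v.V) (h2 : y ∈ v'.V),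
      v.res ⟨y, h1⟩ = v'.res ⟨y, h2⟩ := by
    rintro v _ rfl y h1 h2
    rfl
  have hr : ∀ (y : E) (h1 : y ∈ w.V) (h2 : y ∈ w'.V), γ (w.res ⟨y, h1⟩) = γ' (w'.res ⟨y, h2⟩) :=
    fun y h1 h2 => key _ _ h y h1 h2
  refine ⟨fun a ha => ?_, ?_⟩
  · have h1 := hr (algebraMap M E ⟨a, ha⟩) (w.mem _) (w'.mem _)
    rw [w.res_k, w'.res_k] at h1
    exact h1
  · rintro rfl
    exact Place.ext' hV fun x hx hx' => γ.injective (hr x hx hx')

variable [FiniteDimensional K M]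

private theorem trc_surj (v : Place K E Ω) (γ : Ω ≃ₐ[K] Ω)
    (hγ : ∀ a : M, γ a = v.emb (M := M) a) : ∃ w : Place M E Ω, trc_emb γ w = v := by
  refine ⟨⟨v.V, v.ne_top, fun a => v.mem_M a, (γ.symm : Ω →+* Ω).comp v.res, fun a => ?_,
    fun x hx => ?_⟩, ?_⟩
  · change γ.symm (v.res _) = _
    rw [← Place.emb_apply, ← hγ, γ.symm_apply_apply]
    rfl
  · change γ.symm (v.res x) = 0
    rw [v.res_zero x hx, map_zero]
  · exact Place.ext' rfl fun x hx hx' => γ.apply_symm_apply _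

/-- The places over `K` are the composites of the places over `M` and representatives of the
classes of automorphisms. -/
private theorem trc_bij [IsAlgClosure K Ω] :
    Function.Bijective fun p : ((Ω ≃ₐ[K] Ω) ⧸ M.fixingSubgroup) × Place M E Ω =>
      trc_emb p.1.out p.2 := by
  have hfix : ∀ {γ γ' : Ω ≃ₐ[K] Ω}, (∀ a ∈ M, γ a = γ' a) →
      ((γ : (Ω ≃ₐ[K] Ω) ⧸ M.fixingSubgroup) = γ') := by
    intro γ γ' h
    rw [QuotientGroup.eq]
    rintro ⟨a, ha⟩
    change γ⁻¹ (γ' a) = a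
    rw [← h a ha]
    exact γ.symm_apply_apply a
  constructor
  · rintro ⟨q, w⟩ ⟨q', w'⟩ h
    obtain ⟨h1, h2⟩ := trc_inj h
    have h3 : q = q' := by
      have h4 := hfix h1
      rwa [QuotientGroup.out_eq', QuotientGroup.out_eq'] at h4
    subst h3
    exact Prod.ext rfl (h2 rfl)
  · intro v
    have : Normal K Ω := IsAlgClosure.normal K Ω
    let γ₀ : Ω ≃ₐ[K] Ω := AlgEquiv.ofBijective ((v.emb (M := M)).liftNormal Ω)
      (AlgHom.normal_bijective K Ω Ω _)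
    have h0 : ∀ a : M, γ₀ a = v.emb (M := M) a := fun a => by
      exact (v.emb (M := M)).liftNormal_commutes Ω a
    let q : (Ω ≃ₐ[K] Ω) ⧸ M.fixingSubgroup := γ₀
    have hq : ∀ a : M, q.out a = v.emb (M := M) a := by
      intro a
      have h1 : γ₀⁻¹ * q.out ∈ M.fixingSubgroup := by
        rw [← QuotientGroup.eq, QuotientGroup.out_eq']
      have h2 : γ₀.symm (q.out a) = a := h1 a
      rw [← h0 a]
      conv_rhs => rw [← h2]
      exact (γ₀.apply_symm_apply _).symm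
    obtain ⟨w, hw⟩ := trc_surj v q.out hq
    exact ⟨(q, w), hw⟩

end emb

section red

variable {F : Type} [Field F] {K : Type} [Field K] [Algebra F K] {Ω : Type} [Field Ω]
  [Algebra K Ω] [Algebra F Ω] [IsScalarTower F K Ω] {M : IntermediateField K Ω} {E : Type}
  [Field E] [Algebra M E] [Algebra K E] [Algebra F E] [IsScalarTower K M E]

private theorem trc_red {W : WeierstrassCurve F} (γ : Ω ≃ₐ[K] Ω) (w : Place M E Ω) {P : Pt W E}
    {Q : Pt W Ω} (h : Pt.Red W w P Q) : Pt.Red W (trc_emb γ w) P (γ • Q) := by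
  match P, h with
  | .zero, h =>
    change Q = 0 at h
    change γ • Q = 0
    rw [h, smul_zero]
  | .some x y _, h =>
    rcases h with ⟨hx, rfl⟩ | ⟨hx, hy, hn, rfl⟩
    · exact Or.inl ⟨hx, smul_zero _⟩
    · exact Or.inr ⟨hx, hy, (WeierstrassCurve.Affine.baseChange_nonsingular (W := W)
        (f := (γ.restrictScalars F : Ω →ₐ[F] Ω)) γ.injective _ _).mpr hn, rfl⟩

end red

variable {F : Type} [Field F] {W W₁ W₂ : WeierstrassCurve F} {K : Type} [Field K] [CharZero K]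
  [Algebra F K] {Ω : Type} [Field Ω] [Algebra K Ω] [Algebra F Ω] [IsScalarTower F K Ω]
  [IsAlgClosure K Ω]

/-- The trace of a cycle rationally equivalent to `0`. Proof: `tr_ratEq` in `Be/Trc.lean` (copy the proof; the reduction of both
components is moved by `γ` as in `trc_red`). -/
theorem tr_ratEqX (M : IntermediateField K Ω) [FiniteDimensional K M]
    {z : Pt W₁ Ω × Pt W₂ Ω →₀ ℤ} (hz : z ∈ (Xv W₁ W₂).ratEq M Ω) :
    trG (Pt W₁ Ω × Pt W₂ Ω) M.fixingSubgroup z ∈ (Xv W₁ W₂).ratEq K Ω := by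
  classical
  have hH : M.fixingSubgroup.FiniteIndex := opn_fin _ (opn_fix M)
  let i0 : Fintype ((Ω ≃ₐ[K] Ω) ⧸ M.fixingSubgroup) := Fintype.ofFinite _
  have h : (Xv W₁ W₂).ratEq M Ω ≤
      ((Xv W₁ W₂).ratEq K Ω).comap (trG (Pt W₁ Ω × Pt W₂ Ω) M.fixingSubgroup) := by
    rw [Vr.ratEq, AddSubgroup.closure_le]
    rintro _ ⟨E, i1, i2, i3, i4, hE, g, x, hg, hx, S, m, y, hS, hv, rfl⟩
    change trG (Pt W₁ Ω × Pt W₂ Ω) M.fixingSubgroup _ ∈ (Xv W₁ W₂).ratEq K Ω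
    let i5 : Algebra K E := ((algebraMap M E).comp (algebraMap K M)).toAlgebra
    have i6 : IsScalarTower K M E := IsScalarTower.of_algebraMap_eq fun _ => rfl
    have i7 : IsScalarTower F K E := by
      refine IsScalarTower.of_algebraMap_eq fun a => ?_
      rw [IsScalarTower.algebraMap_apply F M E, IsScalarTower.algebraMap_apply K M E,
        ← IsScalarTower.algebraMap_apply F K M]
    let e := Equiv.ofBijective _ (trc_bij (K := K) (Ω := Ω) (M := M) (E := E))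
    have he : ∀ p, e p = trc_emb p.1.out p.2 := fun p => rfl
    let y' : Place M E Ω → Pt W₁ Ω × Pt W₂ Ω := y
    refine AddSubgroup.subset_closure ⟨E, i1, i5, i3, i7, trc_fun (M := M) hE, g, x, hg, hx,
      (Finset.univ ×ˢ S).map e.toEmbedding, fun v => m (e.symm v).2,
      fun v => (e.symm v).1.out • y' (e.symm v).2, fun v hv' => ?_,
      fun v hv' => ?_, ?_⟩
    · obtain ⟨p, rfl⟩ := e.surjective v
      refine hS p.2 fun hp => hv' ?_
      rw [Finset.mem_map_equiv, e.symm_apply_apply, Finset.mem_product]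
      exact ⟨Finset.mem_univ _, hp⟩
    · obtain ⟨p, rfl⟩ := e.surjective v
      rw [Finset.mem_map_equiv, e.symm_apply_apply, Finset.mem_product] at hv'
      obtain ⟨h1, W, h2, h3, h4⟩ := hv p.2 hv'.2
      dsimp only
      rw [e.symm_apply_apply]
      refine ⟨h1, trc_emb p.1.out W, h2, fun a ha ha' => ?_, trc_red _ W h4.1, trc_red _ W h4.2⟩
      exact congrArg p.1.out (h3 a ha ha')
    · change trG (Pt W₁ Ω × Pt W₂ Ω) M.fixingSubgroup
        (∑ w ∈ S, Finsupp.single (y' w) (m w)) = _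
      rw [Finset.sum_map, Finset.sum_product, Finset.sum_comm]
      refine (map_sum (trG (Pt W₁ Ω × Pt W₂ Ω) M.fixingSubgroup) _ _).trans ?_
      refine Finset.sum_congr rfl fun w _ => ?_
      rw [trG_apply hH, finsum_eq_sum_of_fintype]
      refine Finset.sum_congr rfl fun q _ => ?_
      dsimp only
      rw [Finsupp.mapDomain_single, Equiv.coe_toEmbedding, e.symm_apply_apply]
      rfl
  exact h hz

/-! Push-forwards: the projections, the sections, the exchange of the factors. Proofs: `trc_ratEq`, `trc_nrm`, `trc_D0` in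
`Be/Trc.lean` (copy these private lemmas). -/

theorem fst_ratEq {z : Pt W₁ Ω × Pt W₂ Ω →₀ ℤ} (hz : z ∈ (Xv W₁ W₂).ratEq K Ω) :
    Finsupp.mapDomain Prod.fst z ∈ (Ev W₁).ratEq K Ω :=
  trc_ratEq (V := Xv W₁ W₂) (V' := Ev W₁) (fun _ _ _ => Prod.fst) (fun _ _ _ _ _ _ _ _ => rfl)
    (fun _ _ _ _ _ _ _ _ _ _ _ _ _ h => h.1) K Ω hz

theorem snd_ratEq {z : Pt W₁ Ω × Pt W₂ Ω →₀ ℤ} (hz : z ∈ (Xv W₁ W₂).ratEq K Ω) :
    Finsupp.mapDomain Prod.snd z ∈ (Ev W₂).ratEq K Ω :=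
  trc_ratEq (V := Xv W₁ W₂) (V' := Ev W₂) (fun _ _ _ => Prod.snd) (fun _ _ _ _ _ _ _ _ => rfl)
    (fun _ _ _ _ _ _ _ _ _ _ _ _ _ h => h.2) K Ω hz

theorem inl_ratEq {z : Pt W₁ Ω →₀ ℤ} (hz : z ∈ (Ev W₁).ratEq K Ω) :
    Finsupp.mapDomain (fun P => ((P, 0) : Pt W₁ Ω × Pt W₂ Ω)) z ∈ (Xv W₁ W₂).ratEq K Ω :=
  trc_ratEq (V := Ev W₁) (V' := Xv W₁ W₂) (fun L _ _ P => ((P, 0) : Pt W₁ L × Pt W₂ L))
    (fun _ _ _ _ _ _ σ _ => Prod.ext rfl (map_zero (Pt.map W₂ σ)))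
    (fun _ _ _ _ _ _ _ _ _ _ _ _ _ h => ⟨h, rfl⟩) K Ω hz

theorem inr_ratEq {z : Pt W₂ Ω →₀ ℤ} (hz : z ∈ (Ev W₂).ratEq K Ω) :
    Finsupp.mapDomain (fun Q => ((0, Q) : Pt W₁ Ω × Pt W₂ Ω)) z ∈ (Xv W₁ W₂).ratEq K Ω :=
  trc_ratEq (V := Ev W₂) (V' := Xv W₁ W₂) (fun L _ _ Q => ((0, Q) : Pt W₁ L × Pt W₂ L))
    (fun _ _ _ _ _ _ σ _ => Prod.ext (map_zero (Pt.map W₁ σ)) rfl)
    (fun _ _ _ _ _ _ _ _ _ _ _ _ _ h => ⟨rfl, h⟩) K Ω hz

theorem swap_ratEq {z : Pt W₁ Ω × Pt W₂ Ω →₀ ℤ} (hz : z ∈ (Xv W₁ W₂).ratEq K Ω) :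
    Finsupp.mapDomain Prod.swap z ∈ (Xv W₂ W₁).ratEq K Ω :=
  trc_ratEq (V := Xv W₁ W₂) (V' := Xv W₂ W₁) (fun _ _ _ => Prod.swap)
    (fun _ _ _ _ _ _ _ _ => rfl) (fun _ _ _ _ _ _ _ _ _ _ _ _ _ h => ⟨h.2, h.1⟩) K Ω hz

theorem fst_nrm {z : Pt W₁ Ω × Pt W₂ Ω →₀ ℤ} (hz : z ∈ (Xv W₁ W₂).nrm K Ω) :
    Finsupp.mapDomain Prod.fst z ∈ (Ev W₁).nrm K Ω :=
  trc_nrm (V := Xv W₁ W₂) (V' := Ev W₁) Prod.fst (fun _ _ => rfl) hz

theorem snd_nrm {z : Pt W₁ Ω × Pt W₂ Ω →₀ ℤ} (hz : z ∈ (Xv W₁ W₂).nrm K Ω) :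
    Finsupp.mapDomain Prod.snd z ∈ (Ev W₂).nrm K Ω :=
  trc_nrm (V := Xv W₁ W₂) (V' := Ev W₂) Prod.snd (fun _ _ => rfl) hz

theorem inl_nrm {z : Pt W₁ Ω →₀ ℤ} (hz : z ∈ (Ev W₁).nrm K Ω) :
    Finsupp.mapDomain (fun P => ((P, 0) : Pt W₁ Ω × Pt W₂ Ω)) z ∈ (Xv W₁ W₂).nrm K Ω :=
  trc_nrm (V := Ev W₁) (V' := Xv W₁ W₂) (fun P => ((P, 0) : Pt W₁ Ω × Pt W₂ Ω))
    (fun _ _ => Prod.ext rfl (map_zero (Pt.map W₂ _))) hz

theorem inr_nrm {z : Pt W₂ Ω →₀ ℤ} (hz : z ∈ (Ev W₂).nrm K Ω) :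
    Finsupp.mapDomain (fun Q => ((0, Q) : Pt W₁ Ω × Pt W₂ Ω)) z ∈ (Xv W₁ W₂).nrm K Ω :=
  trc_nrm (V := Ev W₂) (V' := Xv W₁ W₂) (fun Q => ((0, Q) : Pt W₁ Ω × Pt W₂ Ω))
    (fun _ _ => Prod.ext (map_zero (Pt.map W₁ _)) rfl) hz

theorem fst_D0 {z : Pt W₁ Ω × Pt W₂ Ω →₀ ℤ} (hz : z ∈ (Xv W₁ W₂).D0 K Ω) :
    Finsupp.mapDomain Prod.fst z ∈ (Ev W₁).D0 K Ω :=
  trc_D0 (V := Xv W₁ W₂) (V' := Ev W₁) Prod.fst (fun _ _ => rfl) hz

theorem snd_D0 {z : Pt W₁ Ω × Pt W₂ Ω →₀ ℤ} (hz : z ∈ (Xv W₁ W₂).D0 K Ω) :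
    Finsupp.mapDomain Prod.snd z ∈ (Ev W₂).D0 K Ω :=
  trc_D0 (V := Xv W₁ W₂) (V' := Ev W₂) Prod.snd (fun _ _ => rfl) hz

theorem inl_D0 {z : Pt W₁ Ω →₀ ℤ} (hz : z ∈ (Ev W₁).D0 K Ω) :
    Finsupp.mapDomain (fun P => ((P, 0) : Pt W₁ Ω × Pt W₂ Ω)) z ∈ (Xv W₁ W₂).D0 K Ω :=
  trc_D0 (V := Ev W₁) (V' := Xv W₁ W₂) (fun P => ((P, 0) : Pt W₁ Ω × Pt W₂ Ω))
    (fun _ _ => Prod.ext rfl (map_zero (Pt.map W₂ _))) hz

theorem inr_D0 {z : Pt W₂ Ω →₀ ℤ} (hz : z ∈ (Ev W₂).D0 K Ω) :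
    Finsupp.mapDomain (fun Q => ((0, Q) : Pt W₁ Ω × Pt W₂ Ω)) z ∈ (Xv W₁ W₂).D0 K Ω :=
  trc_D0 (V := Ev W₂) (V' := Xv W₁ W₂) (fun Q => ((0, Q) : Pt W₁ Ω × Pt W₂ Ω))
    (fun _ _ => Prod.ext (map_zero (Pt.map W₁ _)) rfl) hz

end PE
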