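import Pool.Agent.Lib.MP_f80667_ag.Pe.St
import Pool.Agent.Lib.MP_f80667_ag.Pe.Tr
import Pool.Agent.Lib.MP_f80667_ag.Be.HatA

/-! The push-forwards by the projections and the sections on cycles of degree `0` and on families. -/

open ZC BE Polynomial IntermediateField IsDedekindDomain NumberField

namespace PE

section hat'

variable {G : Type} [AddCommGroup G]

/-- The sum of two elements of the completion. -/
def gloAd (x y : LHat G) : LHat G :=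
  ⟨fun m => x.1 m + y.1 m, by
    intro m m' hm a h
    obtain ⟨b, hb⟩ := x.exists_rep m'
    rw [LHat.Rep] at hb
    have h0 : x.1 m' + y.1 m' = QuotientAddGroup.mk a := h
    have h1 : y.1 m' = QuotientAddGroup.mk (a - b) := by
      rw [QuotientAddGroup.mk_sub, ← hb, ← h0, add_sub_cancel_left]
    change x.1 m + y.1 m = _
    rw [x.2 m m' hm b hb, y.2 m m' hm (a - b) h1, QuotientAddGroup.mk_sub]
    abel⟩

theorem glo_rep {x y : LHat G} {m : ℕ+} {a b : G} (ha : x.Rep m a) (hb : y.Rep m b) :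
    (gloAd x y).Rep m (a + b) := by
  rw [LHat.Rep] at ha hb ⊢
  change x.1 m + y.1 m = _
  rw [ha, hb]
  rfl

end hat'

section cyc'

variable {F : Type} [Field F] {W₁ W₂ : WeierstrassCurve F} {K : Type} [Field K] [CharZero K]
  [Algebra F K]

variable (W₁ W₂ K) in
/-- The push-forward by `P ↦ (P, 0)`. -/
noncomputable def gloI₁ : Dz (Ev W₁) K →+ Dz (Xv W₁ W₂) K where
  toFun z := ⟨Finsupp.mapDomain (fun P => ((P, 0) : Pt W₁ (AlgebraicClosure K) ×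
    Pt W₂ (AlgebraicClosure K))) z.1, inl_D0 z.2⟩
  map_zero' := Subtype.ext (Finsupp.mapDomain_zero (f := fun P => ((P, 0) :
    Pt W₁ (AlgebraicClosure K) × Pt W₂ (AlgebraicClosure K))))
  map_add' _ _ := Subtype.ext (Finsupp.mapDomain_add (f := fun P => ((P, 0) :
    Pt W₁ (AlgebraicClosure K) × Pt W₂ (AlgebraicClosure K))))

variable (W₁ W₂ K) in
/-- The push-forward by `Q ↦ (0, Q)`. -/
noncomputable def gloI₂ : Dz (Ev W₂) K →+ Dz (Xv W₁ W₂) K where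
  toFun z := ⟨Finsupp.mapDomain (fun Q => ((0, Q) : Pt W₁ (AlgebraicClosure K) ×
    Pt W₂ (AlgebraicClosure K))) z.1, inr_D0 z.2⟩
  map_zero' := Subtype.ext (Finsupp.mapDomain_zero (f := fun Q => ((0, Q) :
    Pt W₁ (AlgebraicClosure K) × Pt W₂ (AlgebraicClosure K))))
  map_add' _ _ := Subtype.ext (Finsupp.mapDomain_add (f := fun Q => ((0, Q) :
    Pt W₁ (AlgebraicClosure K) × Pt W₂ (AlgebraicClosure K))))

variable (W₁ W₂ K) in
/-- The push-forward by the first projection. -/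
noncomputable def gloP₁ : Dz (Xv W₁ W₂) K →+ Dz (Ev W₁) K where
  toFun z := ⟨Finsupp.mapDomain (Prod.fst : Pt W₁ (AlgebraicClosure K) ×
    Pt W₂ (AlgebraicClosure K) → Pt W₁ (AlgebraicClosure K)) z.1, fst_D0 z.2⟩
  map_zero' := Subtype.ext (Finsupp.mapDomain_zero (f := (Prod.fst : Pt W₁ (AlgebraicClosure K) ×
    Pt W₂ (AlgebraicClosure K) → Pt W₁ (AlgebraicClosure K))))
  map_add' _ _ := Subtype.ext (Finsupp.mapDomain_add (f := (Prod.fst :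
    Pt W₁ (AlgebraicClosure K) × Pt W₂ (AlgebraicClosure K) → Pt W₁ (AlgebraicClosure K))))

variable (W₁ W₂ K) in
/-- The push-forward by the second projection. -/
noncomputable def gloP₂ : Dz (Xv W₁ W₂) K →+ Dz (Ev W₂) K where
  toFun z := ⟨Finsupp.mapDomain (Prod.snd : Pt W₁ (AlgebraicClosure K) ×
    Pt W₂ (AlgebraicClosure K) → Pt W₂ (AlgebraicClosure K)) z.1, snd_D0 z.2⟩
  map_zero' := Subtype.ext (Finsupp.mapDomain_zero (f := (Prod.snd : Pt W₁ (AlgebraicClosure K) ×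
    Pt W₂ (AlgebraicClosure K) → Pt W₂ (AlgebraicClosure K))))
  map_add' _ _ := Subtype.ext (Finsupp.mapDomain_add (f := (Prod.snd :
    Pt W₁ (AlgebraicClosure K) × Pt W₂ (AlgebraicClosure K) → Pt W₂ (AlgebraicClosure K))))

theorem gloP₁_eq (z : Zc (Xv W₁ W₂) K) : gloP₁ W₁ W₂ K z = p₁ z := rfl

theorem gloP₂_eq (z : Zc (Xv W₁ W₂) K) : gloP₂ W₁ W₂ K z = p₂ z := rfl

/-- The push-forward by a constant map is `0` in degree `0`. -/
theorem glo_const {A B : Type} (z : A →₀ ℤ)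
    (hz : Finsupp.liftAddHom (fun _ => AddMonoidHom.id ℤ) z = (0 : ℤ)) (b : B) :
    Finsupp.mapDomain (fun _ : A => b) z = 0 := by
  have h1 : Finsupp.mapDomain (fun _ : A => b) z =
      Finsupp.single b (Finsupp.liftAddHom (fun _ => AddMonoidHom.id ℤ) z) := by
    induction z using Finsupp.induction_linear with
    | zero => simp
    | add f g hf hg =>
      have e : ∀ f : A →₀ ℤ, Finsupp.mapDomain (fun _ : A => b) f =
          Finsupp.single b (Finsupp.liftAddHom (fun _ => AddMonoidHom.id ℤ) f) := by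
        intro f
        induction f using Finsupp.induction_linear with
        | zero => simp
        | add f g hf hg => rw [Finsupp.mapDomain_add, hf, hg, map_add, Finsupp.single_add]
        | single a n => rw [Finsupp.mapDomain_single, Finsupp.liftAddHom_apply_single]; rfl
      exact e _
    | single a n => rw [Finsupp.mapDomain_single, Finsupp.liftAddHom_apply_single]; rfl
  rw [h1, hz, Finsupp.single_zero]

theorem glo_pi₁₁ (w : Dz (Ev W₁) K) : gloP₁ W₁ W₂ K (gloI₁ W₁ W₂ K w) = w := by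
  have e : ∀ u : Pt W₁ (AlgebraicClosure K) →₀ ℤ, Finsupp.mapDomain Prod.fst
      (Finsupp.mapDomain (fun P => ((P, 0) : Pt W₁ (AlgebraicClosure K) ×
        Pt W₂ (AlgebraicClosure K))) u) = u := by
    intro u
    rw [← Finsupp.mapDomain_comp]
    exact Finsupp.mapDomain_id
  exact Subtype.ext (e w.1)

theorem glo_pi₂₂ (w : Dz (Ev W₂) K) : gloP₂ W₁ W₂ K (gloI₂ W₁ W₂ K w) = w := by
  have e : ∀ u : Pt W₂ (AlgebraicClosure K) →₀ ℤ, Finsupp.mapDomain Prod.snd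
      (Finsupp.mapDomain (fun Q => ((0, Q) : Pt W₁ (AlgebraicClosure K) ×
        Pt W₂ (AlgebraicClosure K))) u) = u := by
    intro u
    rw [← Finsupp.mapDomain_comp]
    exact Finsupp.mapDomain_id
  exact Subtype.ext (e w.1)

theorem glo_pi₁₂ (w : Dz (Ev W₂) K) : gloP₁ W₁ W₂ K (gloI₂ W₁ W₂ K w) = 0 := by
  have e : ∀ u : Pt W₂ (AlgebraicClosure K) →₀ ℤ,
      Finsupp.liftAddHom (fun _ => AddMonoidHom.id ℤ) u = (0 : ℤ) → Finsupp.mapDomain Prod.fst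
      (Finsupp.mapDomain (fun Q => ((0, Q) : Pt W₁ (AlgebraicClosure K) ×
        Pt W₂ (AlgebraicClosure K))) u) = 0 := by
    intro u hu
    rw [← Finsupp.mapDomain_comp]
    exact glo_const u hu (0 : Pt W₁ (AlgebraicClosure K))
  exact Subtype.ext (e w.1 w.2.2)

theorem glo_pi₂₁ (w : Dz (Ev W₁) K) : gloP₂ W₁ W₂ K (gloI₁ W₁ W₂ K w) = 0 := by
  have e : ∀ u : Pt W₁ (AlgebraicClosure K) →₀ ℤ,
      Finsupp.liftAddHom (fun _ => AddMonoidHom.id ℤ) u = (0 : ℤ) → Finsupp.mapDomain Prod.snd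
      (Finsupp.mapDomain (fun P => ((P, 0) : Pt W₁ (AlgebraicClosure K) ×
        Pt W₂ (AlgebraicClosure K))) u) = 0 := by
    intro u hu
    rw [← Finsupp.mapDomain_comp]
    exact glo_const u hu (0 : Pt W₂ (AlgebraicClosure K))
  exact Subtype.ext (e w.1 w.2.2)

variable (W₁ W₂ K) in
/-- The component of a cycle in the Albanese kernel. -/
noncomputable def gloR : Dz (Xv W₁ W₂) K →+ Dz (Xv W₁ W₂) K :=
  AddMonoidHom.id _ - (gloI₁ W₁ W₂ K).comp (gloP₁ W₁ W₂ K) - (gloI₂ W₁ W₂ K).comp (gloP₂ W₁ W₂ K)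

theorem gloR_apply (z : Dz (Xv W₁ W₂) K) : gloR W₁ W₂ K z =
    z - gloI₁ W₁ W₂ K (gloP₁ W₁ W₂ K z) - gloI₂ W₁ W₂ K (gloP₂ W₁ W₂ K z) := rfl

omit [CharZero K] in
theorem glo_sg_zero {W : WeierstrassCurve F} : sg (0 : Dz (Ev W) K) = 0 :=
  map_zero (Finsupp.liftAddHom (fun P => zmultiplesHom (Pt W (AlgebraicClosure K)) P))

/-- The component is in the Albanese kernel. -/
theorem glo_alb (z : Dz (Xv W₁ W₂) K) : Alb (K := K) (W₁ := W₁) (W₂ := W₂) (gloR W₁ W₂ K z) := by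
  constructor
  · have h : gloP₁ W₁ W₂ K (gloR W₁ W₂ K z) = 0 := by
      rw [gloR_apply, map_sub, map_sub, glo_pi₁₁, glo_pi₁₂, sub_self, sub_zero]
    have h1 : sg (W := W₁) (K := K) (gloP₁ W₁ W₂ K (gloR W₁ W₂ K z)) = 0 := by
      rw [h]
      exact glo_sg_zero
    exact h1
  · have h : gloP₂ W₁ W₂ K (gloR W₁ W₂ K z) = 0 := by
      rw [gloR_apply, map_sub, map_sub, glo_pi₂₂, glo_pi₂₁, sub_zero, sub_self]
    have h1 : sg (W := W₂) (K := K) (gloP₂ W₁ W₂ K (gloR W₁ W₂ K z)) = 0 := by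
      rw [h]
      exact glo_sg_zero
    exact h1

theorem glo_alb_zero : Alb (K := K) (W₁ := W₁) (W₂ := W₂) (0 : Dz (Xv W₁ W₂) K) := by
  have h := glo_alb (K := K) (W₁ := W₁) (W₂ := W₂) (0 : Dz (Xv W₁ W₂) K)
  rw [map_zero] at h
  exact h

theorem glo_sup₁ {z : Pt W₁ (AlgebraicClosure K) →₀ ℤ}
    (hz : z ∈ (Ev W₁).ratEq K (AlgebraicClosure K) ⊔ (Ev W₁).nrm K (AlgebraicClosure K)) :
    Finsupp.mapDomain (fun P => ((P, 0) : Pt W₁ (AlgebraicClosure K) ×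
      Pt W₂ (AlgebraicClosure K))) z ∈
      (Xv W₁ W₂).ratEq K (AlgebraicClosure K) ⊔ (Xv W₁ W₂).nrm K (AlgebraicClosure K) := by
  obtain ⟨a, ha, b, hb, rfl⟩ := AddSubgroup.mem_sup.1 hz
  exact AddSubgroup.mem_sup.2 ⟨_, inl_ratEq ha, _, inl_nrm hb, Finsupp.mapDomain_add.symm⟩

theorem glo_sup₂ {z : Pt W₂ (AlgebraicClosure K) →₀ ℤ}
    (hz : z ∈ (Ev W₂).ratEq K (AlgebraicClosure K) ⊔ (Ev W₂).nrm K (AlgebraicClosure K)) :
    Finsupp.mapDomain (fun Q => ((0, Q) : Pt W₁ (AlgebraicClosure K) ×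
      Pt W₂ (AlgebraicClosure K))) z ∈
      (Xv W₁ W₂).ratEq K (AlgebraicClosure K) ⊔ (Xv W₁ W₂).nrm K (AlgebraicClosure K) := by
  obtain ⟨a, ha, b, hb, rfl⟩ := AddSubgroup.mem_sup.1 hz
  exact AddSubgroup.mem_sup.2 ⟨_, inr_ratEq ha, _, inr_nrm hb, Finsupp.mapDomain_add.symm⟩

omit [CharZero K] in
theorem glo_bc_add {V : Vr F} (z z' : V.pt (AlgebraicClosure F) →₀ ℤ) :
    BE.bc K (z + z') = BE.bc K z + BE.bc K z' :=
  Finsupp.mapDomain_add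

omit [CharZero K] in
theorem glo_comm {A B C D : Type} (f : A → B) (g : B → D) (f' : A → C) (g' : C → D)
    (h : ∀ a, g (f a) = g' (f' a)) (z : A →₀ ℤ) :
    Finsupp.mapDomain g (Finsupp.mapDomain f z) =
      Finsupp.mapDomain g' (Finsupp.mapDomain f' z) := by
  rw [← Finsupp.mapDomain_comp, ← Finsupp.mapDomain_comp]
  exact congrArg (fun k => Finsupp.mapDomain k z) (funext h)

omit [CharZero K] in
/-- The sections commute with base change. -/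
theorem glo_bc₁ (z : Pt W₁ (AlgebraicClosure F) →₀ ℤ) :
    BE.bc (V := Xv W₁ W₂) K (Finsupp.mapDomain (fun P => ((P, 0) : Pt W₁ (AlgebraicClosure F) ×
      Pt W₂ (AlgebraicClosure F))) z) =
    Finsupp.mapDomain (fun P => ((P, 0) : Pt W₁ (AlgebraicClosure K) ×
      Pt W₂ (AlgebraicClosure K))) (BE.bc (V := Ev W₁) K z) := by
  exact glo_comm (fun P => ((P, 0) : Pt W₁ (AlgebraicClosure F) × Pt W₂ (AlgebraicClosure F)))
    (fun P => ((Pt.map W₁ (BE.emb F K) P.1, Pt.map W₂ (BE.emb F K) P.2) :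
      Pt W₁ (AlgebraicClosure K) × Pt W₂ (AlgebraicClosure K))) (Pt.map W₁ (BE.emb F K))
    (fun P => ((P, 0) : Pt W₁ (AlgebraicClosure K) × Pt W₂ (AlgebraicClosure K)))
    (fun _ => Prod.ext rfl (map_zero (Pt.map W₂ (BE.emb F K)))) z

omit [CharZero K] in
theorem glo_bc₂ (z : Pt W₂ (AlgebraicClosure F) →₀ ℤ) :
    BE.bc (V := Xv W₁ W₂) K (Finsupp.mapDomain (fun Q => ((0, Q) : Pt W₁ (AlgebraicClosure F) ×
      Pt W₂ (AlgebraicClosure F))) z) =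
    Finsupp.mapDomain (fun Q => ((0, Q) : Pt W₁ (AlgebraicClosure K) ×
      Pt W₂ (AlgebraicClosure K))) (BE.bc (V := Ev W₂) K z) := by
  exact glo_comm (fun Q => ((0, Q) : Pt W₁ (AlgebraicClosure F) × Pt W₂ (AlgebraicClosure F)))
    (fun P => ((Pt.map W₁ (BE.emb F K) P.1, Pt.map W₂ (BE.emb F K) P.2) :
      Pt W₁ (AlgebraicClosure K) × Pt W₂ (AlgebraicClosure K))) (Pt.map W₂ (BE.emb F K))
    (fun Q => ((0, Q) : Pt W₁ (AlgebraicClosure K) × Pt W₂ (AlgebraicClosure K)))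
    (fun _ => Prod.ext (map_zero (Pt.map W₁ (BE.emb F K))) rfl) z

variable (W₁ W₂ K) in
/-- The section on the groups of classes. -/
noncomputable def gloG₁ : Gp (Ev W₁) K →+ Gp (Xv W₁ W₂) K :=
  Gp.map (gloI₁ W₁ W₂ K) fun _ h => inl_ratEq h

variable (W₁ W₂ K) in
/-- The section on the groups of classes. -/
noncomputable def gloG₂ : Gp (Ev W₂) K →+ Gp (Xv W₁ W₂) K :=
  Gp.map (gloI₂ W₁ W₂ K) fun _ h => inr_ratEq h

end cyc'

section fam'

variable {F : Type} [Field F] [NumberField F] {W₁ W₂ : WeierstrassCurve F}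

variable (W₁ W₂) in
/-- The section on families. -/
noncomputable def gloA₁ : AdF (Ev W₁) →+ AdF (Xv W₁ W₂) where
  toFun w := (fun v => gloI₁ W₁ W₂ (FK F v) (w.1 v), fun v => gloI₁ W₁ W₂ (IK F v) (w.2 v))
  map_zero' := Prod.ext (funext fun _ => map_zero _) (funext fun _ => map_zero _)
  map_add' _ _ := Prod.ext (funext fun _ => map_add _ _ _) (funext fun _ => map_add _ _ _)

variable (W₁ W₂) in
/-- The section on families. -/
noncomputable def gloA₂ : AdF (Ev W₂) →+ AdF (Xv W₁ W₂) where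
  toFun w := (fun v => gloI₂ W₁ W₂ (FK F v) (w.1 v), fun v => gloI₂ W₁ W₂ (IK F v) (w.2 v))
  map_zero' := Prod.ext (funext fun _ => map_zero _) (funext fun _ => map_zero _)
  map_add' _ _ := Prod.ext (funext fun _ => map_add _ _ _) (funext fun _ => map_add _ _ _)

variable (W₁ W₂) in
/-- The section on the adelic groups. -/
noncomputable def gloF₁ : FA (Ev W₁) →+ FA (Xv W₁ W₂) where
  toFun x := (fun v => gloG₁ W₁ W₂ (FK F v) (x.1 v),
    fun v => Gb.map (gloI₁ W₁ W₂ (IK F v)) (fun _ h => glo_sup₁ h) (x.2 v))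
  map_zero' := Prod.ext (funext fun _ => map_zero _) (funext fun _ => map_zero _)
  map_add' _ _ := Prod.ext (funext fun _ => map_add _ _ _) (funext fun _ => map_add _ _ _)

variable (W₁ W₂) in
/-- The section on the adelic groups. -/
noncomputable def gloF₂ : FA (Ev W₂) →+ FA (Xv W₁ W₂) where
  toFun x := (fun v => gloG₂ W₁ W₂ (FK F v) (x.1 v),
    fun v => Gb.map (gloI₂ W₁ W₂ (IK F v)) (fun _ h => glo_sup₂ h) (x.2 v))
  map_zero' := Prod.ext (funext fun _ => map_zero _) (funext fun _ => map_zero _)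
  map_add' _ _ := Prod.ext (funext fun _ => map_add _ _ _) (funext fun _ => map_add _ _ _)

theorem gloF₁_cl (w : AdF (Ev W₁)) :
    gloF₁ W₁ W₂ (clH (Ev W₁) w) = clH (Xv W₁ W₂) (gloA₁ W₁ W₂ w) := rfl

theorem gloF₂_cl (w : AdF (Ev W₂)) :
    gloF₂ W₁ W₂ (clH (Ev W₂) w) = clH (Xv W₁ W₂) (gloA₂ W₁ W₂ w) := rfl

variable (W₁ W₂) in
/-- The first projection on families. -/
noncomputable def gloQ₁ : AdF (Xv W₁ W₂) →+ AdF (Ev W₁) where
  toFun w := (fun v => gloP₁ W₁ W₂ (FK F v) (w.1 v), fun v => gloP₁ W₁ W₂ (IK F v) (w.2 v))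
  map_zero' := Prod.ext (funext fun _ => map_zero _) (funext fun _ => map_zero _)
  map_add' _ _ := Prod.ext (funext fun _ => map_add _ _ _) (funext fun _ => map_add _ _ _)

variable (W₁ W₂) in
/-- The second projection on families. -/
noncomputable def gloQ₂ : AdF (Xv W₁ W₂) →+ AdF (Ev W₂) where
  toFun w := (fun v => gloP₂ W₁ W₂ (FK F v) (w.1 v), fun v => gloP₂ W₁ W₂ (IK F v) (w.2 v))
  map_zero' := Prod.ext (funext fun _ => map_zero _) (funext fun _ => map_zero _)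
  map_add' _ _ := Prod.ext (funext fun _ => map_add _ _ _) (funext fun _ => map_add _ _ _)

/-- The component of a family in the Albanese kernel. -/
theorem glo_fam (c : AdF (Xv W₁ W₂)) : AlbA (W₁ := W₁) (W₂ := W₂)
    (c - gloA₁ W₁ W₂ (gloQ₁ W₁ W₂ c) - gloA₂ W₁ W₂ (gloQ₂ W₁ W₂ c)) :=
  ⟨fun v => glo_alb (c.1 v), fun v => glo_alb (c.2 v)⟩

/-- The completed statement, if the classes of the families in the Albanese kernel are divisible. -/
theorem glo_hat (hd : ∀ n : ℕ, n ≠ 0 → ∀ c : AdF (Xv W₁ W₂), AlbA (W₁ := W₁) (W₂ := W₂) c →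
      ∃ c' : AdF (Xv W₁ W₂), clH (Xv W₁ W₂) c = n • clH (Xv W₁ W₂) c')
    (z : LHat (FA (Xv W₁ W₂))) (z₁ : LHat (FA (Ev W₁))) (z₂ : LHat (FA (Ev W₂)))
    (h₁ : ∀ (m : ℕ+) (c : AdF (Xv W₁ W₂)), z.Rep m (clH _ c) →
      z₁.Rep m (clH _ (gloQ₁ W₁ W₂ c)))
    (h₂ : ∀ (m : ℕ+) (c : AdF (Xv W₁ W₂)), z.Rep m (clH _ c) →
      z₂.Rep m (clH _ (gloQ₂ W₁ W₂ c)))
    (h₁' : ImD z₁) (h₂' : ImD z₂) : ImD z := by
  obtain ⟨x₁, hx₁⟩ := h₁'
  obtain ⟨x₂, hx₂⟩ := h₂'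
  refine ⟨gloAd (LHat.map (gloG₁ W₁ W₂ F) x₁) (LHat.map (gloG₂ W₁ W₂ F) x₂), fun m => ?_⟩
  obtain ⟨a, ha⟩ := z.exists_rep m
  obtain ⟨c, rfl⟩ := clA_surj a
  obtain ⟨b₁, b₁', hb₁, hr₁, hs₁⟩ := hx₁ m
  obtain ⟨b₂, b₂', hb₂, hr₂, hs₂⟩ := hx₂ m
  obtain ⟨w₁, hw₁⟩ := rep_sub hs₁ (h₁ m c ha)
  obtain ⟨w₂, hw₂⟩ := rep_sub hs₂ (h₂ m c ha)
  obtain ⟨c', hc'⟩ := hd (m : ℕ) m.ne_zero _ (glo_fam c)
  refine ⟨gloI₁ W₁ W₂ F b₁ + gloI₂ W₁ W₂ F b₂, gloA₁ W₁ W₂ b₁' + gloA₂ W₁ W₂ b₂',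
    ⟨fun v => ?_, fun v => ?_⟩, ?_, ?_⟩
  · refine Eq.trans ?_ (glo_bc_add (V := Xv W₁ W₂) (K := FK F v) (gloI₁ W₁ W₂ F b₁).1
      (gloI₂ W₁ W₂ F b₂).1).symm
    refine Eq.trans ?_ (congrArg₂ (fun x y => x + y) (glo_bc₁ (W₂ := W₂) (K := FK F v) b₁.1).symm
      (glo_bc₂ (W₁ := W₁) (K := FK F v) b₂.1).symm)
    rw [← hb₁.1 v, ← hb₂.1 v]
    rfl
  · refine Eq.trans ?_ (glo_bc_add (V := Xv W₁ W₂) (K := IK F v) (gloI₁ W₁ W₂ F b₁).1
      (gloI₂ W₁ W₂ F b₂).1).symm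
    refine Eq.trans ?_ (congrArg₂ (fun x y => x + y) (glo_bc₁ (W₂ := W₂) (K := IK F v) b₁.1).symm
      (glo_bc₂ (W₁ := W₁) (K := IK F v) b₂.1).symm)
    rw [← hb₁.2 v, ← hb₂.2 v]
    rfl
  · exact glo_rep (hr₁.map (gloG₁ W₁ W₂ F)) (hr₂.map (gloG₂ W₁ W₂ F))
  · have e1 : clH (Xv W₁ W₂) (gloA₁ W₁ W₂ b₁') =
        clH (Xv W₁ W₂) (gloA₁ W₁ W₂ (gloQ₁ W₁ W₂ c)) + (m : ℕ) • gloF₁ W₁ W₂ w₁ := by
      rw [← gloF₁_cl, ← gloF₁_cl, ← map_nsmul, ← map_add]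
      exact congrArg (gloF₁ W₁ W₂) hw₁
    have e2 : clH (Xv W₁ W₂) (gloA₂ W₁ W₂ b₂') =
        clH (Xv W₁ W₂) (gloA₂ W₁ W₂ (gloQ₂ W₁ W₂ c)) + (m : ℕ) • gloF₂ W₁ W₂ w₂ := by
      rw [← gloF₂_cl, ← gloF₂_cl, ← map_nsmul, ← map_add]
      exact congrArg (gloF₂ W₁ W₂) hw₂
    rw [map_sub, map_sub] at hc'
    have e4 : clH (Xv W₁ W₂) (gloA₁ W₁ W₂ b₁' + gloA₂ W₁ W₂ b₂') = clH (Xv W₁ W₂) c +
        (m : ℕ) • (gloF₁ W₁ W₂ w₁ + gloF₂ W₁ W₂ w₂ - clH (Xv W₁ W₂) c') := by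
      rw [map_add, e1, e2, smul_sub, smul_add, ← hc']
      abel
    have e5 := rep_add ha (gloF₁ W₁ W₂ w₁ + gloF₂ W₁ W₂ w₂ - clH (Xv W₁ W₂) c')
    have e6 : z.Rep m (clH (Xv W₁ W₂) (gloA₁ W₁ W₂ b₁' + gloA₂ W₁ W₂ b₂')) := by
      rw [e4]
      exact e5
    exact e6

end fam'

end PE
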