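import Pool.Agent.Lib.MP_f80667_ag.Be.St
import Pool.Agent.Lib.MP_f80667_ag.Pe.Df

/-!
The definitions for the statement on zero-cycles on a product `E₁ × E₂` of two elliptic curves (the curves `Ev W`, the
surface `Xv W₁ W₂` are in `Pe/Df.lean`, rational equivalence in `Be/Defs.lean`, `Zc`, `Fam`, `ImDe` in `Be/St.lean`).

* `p₁`, `p₂`: the push-forwards of zero-cycles of degree `0` to `E₁`, `E₂`; `sg z`: the sum of the points
  of a zero-cycle `z` on `E_i` in the group `E_i(K̄)`.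
* `Alb z`: the sums of both push-forwards are `0`: `z` is in the kernel of the Albanese map.
* `DvA`: the Albanese kernel over `K` is divisible.
* `Lv v`: the local conditions at the finite place `v`.
* `pA₁`, `pA₂`: the push-forwards of families, `Is₁ z z'`: `z'` is the push-forward of `z` to `E₁`.
-/

open ZC BE Polynomial IsDedekindDomain NumberField

namespace PE

section cyc

variable {F : Type} [Field F] {K : Type} [Field K] [Algebra F K]

theorem push_mem {V V' : Vr F} (f : V.pt (AlgebraicClosure K) → V'.pt (AlgebraicClosure K))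
    (hf : ∀ σ : AlgebraicClosure K ≃ₐ[K] AlgebraicClosure K, ∀ x, f (V.act σ x) = V'.act σ (f x))
    (z : Zc V K) : Finsupp.mapDomain f z.cy ∈ Dz V' K := by
  refine ⟨fun σ => ?_, ?_⟩
  · rw [← Finsupp.mapDomain_comp]
    have h1 : V'.act σ ∘ f = f ∘ V.act σ := funext fun x => (hf σ x).symm
    rw [h1, Finsupp.mapDomain_comp]
    exact congrArg _ (z.2.1 σ)
  · have h1 : (V'.deg (AlgebraicClosure K)).comp (Finsupp.mapDomain.addMonoidHom f) =
        V.deg (AlgebraicClosure K) := by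
      refine Finsupp.addHom_ext fun x n => ?_
      simp [Vr.deg, Finsupp.mapDomain_single]
    have h2 : V.deg (AlgebraicClosure K) z.1 = 0 := z.2.2
    rw [← h1] at h2
    exact h2

/-- The push-forward of a zero-cycle of degree `0`. -/
noncomputable def push {V V' : Vr F} (f : V.pt (AlgebraicClosure K) → V'.pt (AlgebraicClosure K))
    (hf : ∀ σ : AlgebraicClosure K ≃ₐ[K] AlgebraicClosure K, ∀ x, f (V.act σ x) = V'.act σ (f x))
    (z : Zc V K) : Zc V' K := ⟨_, push_mem f hf z⟩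

variable {W W₁ W₂ : WeierstrassCurve F}

/-- The push-forward to `E₁`. -/
noncomputable def p₁ (z : Zc (Xv W₁ W₂) K) : Zc (Ev W₁) K :=
  push (V := Xv W₁ W₂) (V' := Ev W₁) (fun x => x.1) (fun _ _ => rfl) z

/-- The push-forward to `E₂`. -/
noncomputable def p₂ (z : Zc (Xv W₁ W₂) K) : Zc (Ev W₂) K :=
  push (V := Xv W₁ W₂) (V' := Ev W₂) (fun x => x.2) (fun _ _ => rfl) z

/-- The sum of the points of a zero-cycle. -/
noncomputable def sg (z : Zc (Ev W) K) : Pt W (AlgebraicClosure K) :=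
  Finsupp.liftAddHom (fun P => zmultiplesHom (Pt W (AlgebraicClosure K)) P) z.cy

/-- `z` is in the kernel of the Albanese map. -/
def Alb (z : Zc (Xv W₁ W₂) K) : Prop := sg (p₁ z) = 0 ∧ sg (p₂ z) = 0

variable (W₁ W₂ K) in
/-- The Albanese kernel (modulo rational equivalence) is divisible. -/
def DvA : Prop := ∀ n : ℕ, n ≠ 0 → ∀ z : Zc (Xv W₁ W₂) K, Alb z →
  ∃ z' : Zc (Xv W₁ W₂) K, Alb z' ∧ z.cl = n • z'.cl

end cyc

section nf

variable {F : Type} [Field F] [NumberField F] (W₁ W₂ : WeierstrassCurve F)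

/-- The coefficients are integral at `v`. -/
def Iv (v : HeightOneSpectrum (𝓞 F)) (W : WeierstrassCurve F) : Prop :=
  v.valuation F W.a₁ ≤ 1 ∧ v.valuation F W.a₂ ≤ 1 ∧ v.valuation F W.a₃ ≤ 1 ∧
    v.valuation F W.a₄ ≤ 1 ∧ v.valuation F W.a₆ ≤ 1

/-- The local conditions: `F_v` is unramified over `ℚ_p`; the equations are integral at `v`, the discriminant
of `W₂` is a unit, the one of `W₁` has valuation `0` or `1`; if `p = 2` then `a₁(W₂)` is divisible by `2`. -/
structure Lv (v : HeightOneSpectrum (𝓞 F)) : Prop where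
  unr : ∃ p : ℕ, p.Prime ∧ v.valuation F (p : F) = WithZero.exp (-1 : ℤ)
  i₁ : Iv v W₁
  i₂ : Iv v W₂
  d₁ : WithZero.exp (-1 : ℤ) ≤ v.valuation F W₁.Δ
  d₂ : v.valuation F W₂.Δ = 1
  ss : v.valuation F 2 < 1 → v.valuation F W₂.a₁ < 1

variable {W₁ W₂}

/-- The push-forward of families to `E₁`. -/
noncomputable def pA₁ (z : Fam (Xv W₁ W₂)) : Fam (Ev W₁) := (fun v => p₁ (z.f v), fun v => p₁ (z.i v))

/-- The push-forward of families to `E₂`. -/
noncomputable def pA₂ (z : Fam (Xv W₁ W₂)) : Fam (Ev W₂) := (fun v => p₂ (z.f v), fun v => p₂ (z.i v))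

/-- The family is in the kernel of the Albanese map. -/
def AlbA (z : Fam (Xv W₁ W₂)) : Prop := (∀ v, Alb (z.f v)) ∧ ∀ v, Alb (z.i v)

/-- `z'` is the push-forward of `z` to `E₁`. -/
def Is₁ (z : LHat (FA (Xv W₁ W₂))) (z' : LHat (FA (Ev W₁))) : Prop :=
  ∀ (m : ℕ+) (c : Fam (Xv W₁ W₂)), z.Rep m c.cl → z'.Rep m (pA₁ c).cl

/-- `z'` is the push-forward of `z` to `E₂`. -/
def Is₂ (z : LHat (FA (Xv W₁ W₂))) (z' : LHat (FA (Ev W₂))) : Prop :=
  ∀ (m : ℕ+) (c : Fam (Xv W₁ W₂)), z.Rep m c.cl → z'.Rep m (pA₂ c).cl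

end nf

/-- The conditions on two integral Weierstrass equations: the product of the discriminants is squarefree, one of the
curves has supersingular reduction at `2`, one discriminant is negative. -/
structure Ok (A B : WeierstrassCurve ℤ) : Prop where
  sf : Squarefree (A.Δ * B.Δ)
  two : (Even A.a₁ ∧ Odd A.a₃) ∨ (Even B.a₁ ∧ Odd B.a₃)
  neg : A.Δ < 0 ∨ B.Δ < 0

/-- The curve over `ℚ`. -/
def toQ (A : WeierstrassCurve ℤ) : WeierstrassCurve ℚ := A.baseChange ℚ

end PE
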