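import Pool.Agent.Lib.MP_f80667_ag.Be.ExA
import Pool.Agent.Lib.MP_f80667_ag.Pe.St

/-! The local conditions for integral equations over the rational numbers. -/

open ZC BE Polynomial IsDedekindDomain NumberField

namespace PE

private theorem glv_le (v : HeightOneSpectrum (𝓞 ℚ)) (n : ℤ) : v.valuation ℚ (n : ℚ) ≤ 1 := by
  have h : (n : ℚ) = algebraMap (𝓞 ℚ) ℚ (n : 𝓞 ℚ) := (map_intCast _ n).symm
  rw [h]
  exact v.valuation_le_one _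

private theorem glv_iv (v : HeightOneSpectrum (𝓞 ℚ)) (A : WeierstrassCurve ℤ) : Iv v (toQ A) :=
  ⟨glv_le v A.a₁, glv_le v A.a₂, glv_le v A.a₃, glv_le v A.a₄, glv_le v A.a₆⟩

private theorem glv_disc (A : WeierstrassCurve ℤ) : (toQ A).Δ = ((A.Δ : ℤ) : ℚ) :=
  WeierstrassCurve.map_Δ A (algebraMap ℤ ℚ)

private theorem glv_odd {A : WeierstrassCurve ℤ} (h1 : Even A.a₁) (h3 : Odd A.a₃) : ¬ (2 : ℤ) ∣ A.Δ := by
  obtain ⟨c, hc⟩ := h1
  obtain ⟨d, hd⟩ := h3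
  intro h
  have h4 : A.Δ = -(A.b₂ ^ 2 * A.b₈) - 8 * A.b₄ ^ 3 - 27 * A.b₆ ^ 2 + 9 * A.b₂ * A.b₄ * A.b₆ := by
    rw [WeierstrassCurve.Δ]
    ring
  have h2 : A.b₂ = 2 * (2 * c ^ 2 + 2 * A.a₂) := by
    rw [WeierstrassCurve.b₂, hc]
    ring
  have h6 : A.b₆ = 2 * (2 * d ^ 2 + 2 * d + 2 * A.a₆) + 1 := by
    rw [WeierstrassCurve.b₆, hd]
    ring
  obtain ⟨k, hk⟩ := h
  rw [h2, h6] at h4
  have h5 : (2 : ℤ) ∣ 1 := by
    refine ⟨-k - 2 * (2 * c ^ 2 + 2 * A.a₂) ^ 2 * A.b₈ - 4 * A.b₄ ^ 3 -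
      (54 * (2 * d ^ 2 + 2 * d + 2 * A.a₆) ^ 2 + 54 * (2 * d ^ 2 + 2 * d + 2 * A.a₆) + 13) +
      9 * (2 * c ^ 2 + 2 * A.a₂) * A.b₄ * (2 * (2 * d ^ 2 + 2 * d + 2 * A.a₆) + 1), ?_⟩
    linear_combination h4 - hk
  norm_num at h5

private theorem glv_main {A B : WeierstrassCurve ℤ} {v : HeightOneSpectrum (𝓞 ℚ)} {p : ℕ} (hp : p.Prime)
    (hp1 : v.valuation ℚ (p : ℚ) = WithZero.exp (-1 : ℤ))
    (hpn : ∀ n : ℤ, v.valuation ℚ (n : ℚ) = 1 ↔ ¬ (p : ℤ) ∣ n)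
    (hsf : Squarefree (A.Δ * B.Δ)) (hB : ¬ (p : ℤ) ∣ B.Δ) (hss : p = 2 → Even B.a₁) :
    Lv (toQ A) (toQ B) v where
  unr := ⟨p, hp, hp1⟩
  i₁ := glv_iv v A
  i₂ := glv_iv v B
  d₁ := by
    rw [glv_disc]
    by_cases h : (p : ℤ) ∣ A.Δ
    · obtain ⟨k, hk⟩ := h
      have h1 : ¬ (p : ℤ) ∣ k := by
        rintro ⟨m, rfl⟩
        have h2 : IsUnit (p : ℤ) := hsf _ ⟨m * B.Δ, by rw [hk]; ring⟩
        rw [Int.isUnit_iff_natAbs_eq, Int.natAbs_natCast] at h2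
        exact hp.one_lt.ne' h2
      rw [hk]
      push_cast
      rw [map_mul, hp1, (hpn k).2 h1, mul_one]
    · rw [(hpn _).2 h, ← WithZero.exp_zero]
      exact WithZero.exp_le_exp.2 (by norm_num)
  d₂ := by
    rw [glv_disc]
    exact (hpn _).2 hB
  ss := by
    intro h2
    have h3 : p = 2 := by
      by_contra hne
      have h4 : ¬ (p : ℤ) ∣ 2 := by
        intro h5
        have h6 : p ∣ 2 := by exact_mod_cast h5
        exact hne ((Nat.prime_dvd_prime_iff_eq hp Nat.prime_two).1 h6)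
      have h5 := (hpn 2).2 h4
      have h6 : ((2 : ℤ) : ℚ) = 2 := by norm_num
      rw [h6] at h5
      exact absurd h5 h2.ne
    have h4 : (p : ℤ) ∣ B.a₁ := by
      rw [h3]
      exact (hss h3).two_dvd
    have h5 : v.valuation ℚ ((B.a₁ : ℤ) : ℚ) ≠ 1 := fun h6 => ((hpn _).1 h6) h4
    exact lt_of_le_of_ne (glv_le v B.a₁) h5

/-- The local conditions for integral equations. -/
theorem glv_ok {A B : WeierstrassCurve ℤ} (h : Ok A B) (v : HeightOneSpectrum (𝓞 ℚ)) :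
    Lv (toQ A) (toQ B) v ∨ Lv (toQ B) (toQ A) v := by
  obtain ⟨p, hp, hp1, hpn⟩ := exists_p v
  have hsf := h.sf
  have hsf' : Squarefree (B.Δ * A.Δ) := by
    rw [mul_comm]
    exact hsf
  by_cases h2 : p = 2
  · rcases h.two with ⟨h3, h4⟩ | ⟨h3, h4⟩
    · refine Or.inr (glv_main hp hp1 hpn hsf' ?_ fun _ => h3)
      rw [h2]
      exact glv_odd h3 h4
    · refine Or.inl (glv_main hp hp1 hpn hsf ?_ fun _ => h3)
      rw [h2]
      exact glv_odd h3 h4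
  · by_cases h3 : (p : ℤ) ∣ A.Δ
    · refine Or.inl (glv_main hp hp1 hpn hsf ?_ fun h4 => absurd h4 h2)
      intro h4
      have h5 : IsUnit (p : ℤ) := hsf _ (mul_dvd_mul h3 h4)
      rw [Int.isUnit_iff_natAbs_eq, Int.natAbs_natCast] at h5
      exact hp.one_lt.ne' h5
    · exact Or.inr (glv_main hp hp1 hpn hsf' h3 fun h4 => absurd h4 h2)

end PE
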