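import Pool.Agent.Lib.MP_f80667_ag.Pe.Gb

/-! The local theorem: the Albanese kernel is divisible. -/

open ZC BE Polynomial IntermediateField

namespace PE

namespace Ld

variable {F : Type} [Field F] {K Ω : Type} [Field K] [CharZero K] [Field Ω] [Algebra K Ω]
  [Algebra F K] [Algebra F Ω] [IsScalarTower F K Ω] [IsAlgClosure K Ω] {L : Ld K Ω} [L.Unr]
  {W₁ W₂ : WeierstrassCurve F} [W₁.IsElliptic] [W₂.IsElliptic]

/-- A uniformizer. -/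
theorem exists_uf (M : IntermediateField K Ω) [FiniteDimensional K M] : ∃ π, L.Uf M π := by
  obtain ⟨π, h1, h2, h3, h4⟩ := L.unif M inferInstance
  refine ⟨π, h1, h2, h3, fun x hx hx1 => ?_⟩
  by_cases h0 : x = 0
  · rw [h0, L.zero]
    exact h2.le
  obtain ⟨n, hn⟩ := h4 x hx h0
  rw [hn] at hx1 ⊢
  have h5 : (0 : ℤ) < n := by
    rw [← zpow_lt_zpow_iff_right_of_lt_one₀ h2 h3, zpow_zero]
    exact hx1
  calc L.nm π ^ n ≤ L.nm π ^ (1 : ℤ) := (zpow_le_zpow_iff_right_of_lt_one₀ h2 h3).2 (by omega)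
    _ = L.nm π := zpow_one _

/-- A point congruent to an integral point with `dy` a unit is such a point. -/
private theorem loc_dy {W : WeierstrassCurve F} (h : L.It W) {xr yr : Ω}
    (hr : (W.baseChange Ω).toAffine.Nonsingular xr yr) (h1 : L.nm xr ≤ 1) (h2 : L.nm yr ≤ 1)
    (h3 : L.nm (dy W xr yr) = 1) {P : Pt W Ω} (hc : L.Cg P (Pt.aff xr yr hr)) :
    ∃ (x y : Ω) (hx : (W.baseChange Ω).toAffine.Nonsingular x y), P = Pt.aff x y hx ∧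
        L.nm x ≤ 1 ∧ L.nm y ≤ 1 ∧ L.nm (dy W x y) = 1 := by
  have hns : L.Ns (Pt.aff xr yr hr : Pt W Ω) := (ns_aff h hr h1).2.2 (Or.inr h3)
  rcases Pt.cases' P with rfl | ⟨x, y, hx, rfl⟩
  · exfalso
    unfold Cg at hc
    rw [zero_sub] at hc
    have h4 := (fm_neg h hc).1
    rw [neg_neg] at h4
    exact absurd ((fm_aff h hr).1.1 h4) (not_lt.2 h1)
  · obtain ⟨h4, h5⟩ := (cg_aff h hr hx h1 hns).1 (cg_symm h hc)
    refine ⟨x, y, hx, rfl, ?_, ?_, ?_⟩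
    · have e : x = (x - xr) + xr := by ring
      rw [e]
      exact (L.add _ _).trans (max_le h4.le h1)
    · have e : y = (y - yr) + yr := by ring
      rw [e]
      exact (L.add _ _).trans (max_le h5.le h2)
    · have e : dy W x y = dy W xr yr + (2 * (y - yr) + algebraMap F Ω W.a₁ * (x - xr)) := by
        unfold dy
        ring
      rw [e, L.add_eq', h3]
      rw [h3]
      refine (L.add _ _).trans_lt (max_lt ?_ ?_)
      · rw [L.mul]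
        exact (mul_le_of_le_one_left (L.nonneg _) L.two_le).trans_lt h5
      · rw [L.mul]
        exact (mul_le_of_le_one_left (L.nonneg _) h.a₁).trans_lt h4

/-- Moving `P`: there is `c` over `Ur ⊥ N` (`N` divisible by some `f`) such that `P + c = (x, y)` is integral and `dy W₁ x y` is a unit. Proof: `exists_dy`: `R`; `c ≡ R - P` by `lift_ur` (`ns_aff`, `ns_add`); `P + c ≡ R`: `cg_aff`. -/
theorem mv_P (h₁ : L.Hd W₁) {P : Pt W₁ Ω} (hP : L.Ns P) :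
    ∃ f ≠ 0, ∀ N ≠ 0, f ∣ N → ∃ (c : Pt W₁ Ω) (x y : Ω)
      (hx : (W₁.baseChange Ω).toAffine.Nonsingular x y), Fx (L.Ur ⊥ N) c ∧ P + c = Pt.aff x y hx ∧
        L.nm x ≤ 1 ∧ L.nm y ≤ 1 ∧ L.nm (dy W₁ x y) = 1 := by
  obtain ⟨xr, yr, hr, h1, h2, h3⟩ := exists_dy h₁
  have hns : L.Ns (Pt.aff xr yr hr : Pt W₁ Ω) := (ns_aff h₁.toIt hr h1).2.2 (Or.inr h3)
  have hns' : L.Ns (Pt.aff xr yr hr + -P) := ns_add h₁.toIt hns (ns_neg h₁.toIt hP)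
  obtain ⟨f, hf, hlift⟩ := lift_ur h₁.toIt hns'
  refine ⟨f, hf, fun N hN hfN => ?_⟩
  obtain ⟨c, hc, hcg⟩ := hlift N hN hfN
  have hcg' : L.Cg (P + c) (Pt.aff xr yr hr) := by
    unfold Cg at hcg ⊢
    have e : P + c - Pt.aff xr yr hr = c - (Pt.aff xr yr hr + -P) := by abel
    rw [e]
    exact hcg
  obtain ⟨x, y, hx, e, h4, h5, h6⟩ := loc_dy h₁.toIt hr h1 h2 h3 hcg'
  exact ⟨c, x, y, hx, hc, e, h4, h5, h6⟩

/-- A point `d` of `W₂` over `Ur ⊥ N` with `dy` a unit. Proof: `exists_dy`, `lift_ur`, `cg_aff`. -/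
theorem mv_d (h₂ : L.Hd W₂) : ∃ f ≠ 0, ∀ N ≠ 0, f ∣ N → ∃ (x y : Ω)
    (_ : (W₂.baseChange Ω).toAffine.Nonsingular x y), x ∈ L.Ur ⊥ N ∧ y ∈ L.Ur ⊥ N ∧
      L.nm x ≤ 1 ∧ L.nm y ≤ 1 ∧ L.nm (dy W₂ x y) = 1 := by
  obtain ⟨xr, yr, hr, h1, h2, h3⟩ := exists_dy h₂
  have hns : L.Ns (Pt.aff xr yr hr : Pt W₂ Ω) := (ns_aff h₂.toIt hr h1).2.2 (Or.inr h3)
  obtain ⟨f, hf, hlift⟩ := lift_ur h₂.toIt hns
  refine ⟨f, hf, fun N hN hfN => ?_⟩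
  obtain ⟨c, hc, hcg⟩ := hlift N hN hfN
  obtain ⟨x, y, hx, e, h4, h5, h6⟩ := loc_dy h₂.toIt hr h1 h2 h3 hcg
  rw [e] at hc
  obtain ⟨h7, h8⟩ := (fx_aff _ hx).1 hc
  exact ⟨x, y, hx, h7, h8, h4, h5, h6⟩

/-- A symbol with one point over `Ur ⊥ N`. Proof: `z_nm₁`, `z_nm₂`, `nm_fx`, `un`. -/
theorem z_ur₁ (h₁ : L.Hd W₁) (h₂ : L.Gd W₂)
    (hss : L.p = 2 → L.nm (algebraMap F Ω W₂.a₁) < 1) {G : Type} [AddCommGroup G]
    (S : Sc K Ω (Pt W₁ Ω) (Pt W₂ Ω) G) {M : IntermediateField K Ω} [FiniteDimensional K M] {N : ℕ}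
    (hM : L.Rf M N) {P : Pt W₁ Ω} {Q : Pt W₂ Ω} (hP : Fx (L.Ur ⊥ N) P) (hQ : Fx M Q) :
    S.Z L.p M P Q := by
  exact (Sc.z_nm₂ hM.le hP hQ).1 (un h₁ h₂ hss S hM.ne hP (nm_fx hM.le hQ))

theorem z_ur₂ (h₁ : L.Hd W₁) (h₂ : L.Gd W₂)
    (hss : L.p = 2 → L.nm (algebraMap F Ω W₂.a₁) < 1) {G : Type} [AddCommGroup G]
    (S : Sc K Ω (Pt W₁ Ω) (Pt W₂ Ω) G) {M : IntermediateField K Ω} [FiniteDimensional K M] {N : ℕ}
    (hM : L.Rf M N) {P : Pt W₁ Ω} {Q : Pt W₂ Ω} (hP : Fx M P) (hQ : Fx (L.Ur ⊥ N) Q) :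
    S.Z L.p M P Q := by
  exact (Sc.z_nm₁ hM.le hP hQ).1 (un h₁ h₂ hss S hM.ne (nm_fx hM.le hP) hQ)

variable (R : AddSubgroup (Pt W₁ Ω × Pt W₂ Ω →₀ ℤ)) (hR : (Xv W₁ W₂).ratEq K Ω ≤ R)

/-- `Q = b` in the formal group with a uniformizer as parameter, `P = (x, y)` integral with `dy` a unit or singular reduction. Proof: `mv_d` (given): `d`; `Q' = d + b = (z₀, y₀)` (`tr_x`), `ga_z` for `{P, Q'}`,
`z_ur₂` for `{P, d}`, `z_sub₂`. -/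
theorem ram_b (h₁ : L.Hd W₁) (h₂ : L.Gd W₂) (hss : L.p = 2 → L.nm (algebraMap F Ω W₂.a₁) < 1)
    {M : IntermediateField K Ω} [FiniteDimensional K M] {N : ℕ} (hM : L.Rf M N) {x y xd yd : Ω}
    (hx : (W₁.baseChange Ω).toAffine.Nonsingular x y) (hxM : x ∈ M) (hyM : y ∈ M)
    (hx1 : L.nm x ≤ 1) (hy1 : L.nm y ≤ 1)
    (hdy : L.nm (dy W₁ x y) = 1 ∨ L.nm (dx W₁ x y) < 1 ∧ L.nm (dy W₁ x y) < 1)
    (hd : (W₂.baseChange Ω).toAffine.Nonsingular xd yd) (hdx : xd ∈ L.Ur ⊥ N)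
    (hdyy : yd ∈ L.Ur ⊥ N) (hd1 : L.nm xd ≤ 1) (hd2 : L.nm yd ≤ 1)
    (hd3 : L.nm (dy W₂ xd yd) = 1) {b : Pt W₂ Ω} (hb : L.Fm b) (hbM : Fx M b)
    (hbu : L.Uf M (tp b)) :
    (scX (K := K) (W₁ := W₁) (W₂ := W₂) R hR).Z L.p M (Pt.aff x y hx) b := by
  obtain ⟨z₀, y₀, h', he, hz1, hzb, hy0⟩ := tr_x h₂.toIt hd hd1 hd3 hb
  have hP : Fx M (Pt.aff x y hx : Pt W₁ Ω) := (fx_aff M hx).2 ⟨hxM, hyM⟩
  have hdM : Fx M (Pt.aff xd yd hd : Pt W₂ Ω) := (fx_aff M hd).2 ⟨hM.le hdx, hM.le hdyy⟩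
  have hQM : Fx M (Pt.aff z₀ y₀ h' : Pt W₂ Ω) := by
    rw [← he]
    exact hdM.add hbM
  obtain ⟨hz₀M, hy₀M⟩ := (fx_aff M h').1 hQM
  have hga : Ga L W₁ W₂ M N x y xd yd z₀ y₀ :=
    { h₁ := h₁
      h₂ := h₂
      ss := hss
      rf := hM
      xP_mem := hxM
      yP_mem := hyM
      xP_le := hx1
      yP_le := hy1
      eP := fe_zero hx
      dP := hdy
      xd_mem := hdx
      yd_mem := hdyy
      xd_le := hd1
      yd_le := hd2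
      ed := fe_zero hd
      dd := hd3
      y_mem := hy₀M
      eQ := fe_zero h'
      yy := hy0
      uf :=
        { mem := M.sub_mem hz₀M (hM.le hdx)
          pos := by
            rw [hzb]
            exact hbu.pos
          lt := by
            rw [hzb]
            exact hbu.lt
          max := fun w hw hw1 => by
            rw [hzb]
            exact hbu.max w hw hw1 } }
  have h3 := ga_z R hR hga hx h'
  have h4 := z_ur₂ h₁ h₂ hss (scX (K := K) (W₁ := W₁) (W₂ := W₂) R hR) hM hP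
    ((fx_aff (L.Ur ⊥ N) hd).2 ⟨hdx, hdyy⟩)
  have h5 : b = Pt.aff z₀ y₀ h' - Pt.aff xd yd hd := by rw [← he, add_sub_cancel_left]
  rw [h5]
  exact Sc.z_sub₂ hP hQM hdM h3 h4

omit [CharZero K] [IsAlgClosure K Ω] [W₁.IsElliptic] in
/-- The partial derivatives are integral. -/
private theorem loc_le (h : L.It W₁) {x y : Ω} (hx : L.nm x ≤ 1) (hy : L.nm y ≤ 1) :
    L.nm (dx W₁ x y) ≤ 1 ∧ L.nm (dy W₁ x y) ≤ 1 := by
  have hadd : ∀ {a b : Ω}, L.nm a ≤ 1 → L.nm b ≤ 1 → L.nm (a + b) ≤ 1 := fun ha hb =>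
    (L.add _ _).trans (max_le ha hb)
  have hmul : ∀ {a b : Ω}, L.nm a ≤ 1 → L.nm b ≤ 1 → L.nm (a * b) ≤ 1 := fun ha hb => by
    rw [L.mul]
    exact mul_le_one₀ ha (L.nonneg _) hb
  have h2 : L.nm (2 : Ω) ≤ 1 := L.two_le
  have h3 : L.nm (3 : Ω) ≤ 1 := L.nat_le 3
  refine ⟨?_, ?_⟩
  · refine (L.sub _ _).trans (max_le ?_ (hmul h.a₁ hy))
    refine hadd (hadd (hmul h3 ?_) (hmul (hmul h2 h.a₂) hx)) h.a₄
    rw [pow_two]
    exact hmul hx hx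
  · exact hadd (hadd (hmul h2 hy) (hmul h.a₁ hx)) h.a₃

/-- Moving `P` in all cases. -/
private theorem loc_mv (h₁ : L.Hd W₁) (P : Pt W₁ Ω) :
    ∃ f ≠ 0, ∀ N ≠ 0, f ∣ N → ∃ (c : Pt W₁ Ω) (x y : Ω)
      (hx : (W₁.baseChange Ω).toAffine.Nonsingular x y), Fx (L.Ur ⊥ N) c ∧ P + c = Pt.aff x y hx ∧
        L.nm x ≤ 1 ∧ L.nm y ≤ 1 ∧
        (L.nm (dy W₁ x y) = 1 ∨ L.nm (dx W₁ x y) < 1 ∧ L.nm (dy W₁ x y) < 1) := by
  by_cases hP : L.Ns P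
  · obtain ⟨f, hf, h⟩ := mv_P h₁ hP
    refine ⟨f, hf, fun N hN hfN => ?_⟩
    obtain ⟨c, x, y, hx, h2, h3, h4, h5, h6⟩ := h N hN hfN
    exact ⟨c, x, y, hx, h2, h3, h4, h5, Or.inl h6⟩
  · refine ⟨1, one_ne_zero, fun N hN hfN => ?_⟩
    rcases Pt.cases' P with rfl | ⟨x, y, hxy, rfl⟩
    · exact absurd (ns_fm h₁.toIt fm_zero) hP
    · have hx1 : L.nm x ≤ 1 := by
        by_contra hc
        exact hP (ns_fm h₁.toIt ((fm_aff h₁.toIt hxy).1.2 (not_le.1 hc)))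
      obtain ⟨hy1, hns⟩ := ns_aff h₁.toIt hxy hx1
      rw [hns, not_or] at hP
      obtain ⟨h2, h3⟩ := loc_le h₁.toIt hx1 hy1
      exact ⟨0, x, y, hxy, Fx.zero, add_zero _, hx1, hy1,
        Or.inr ⟨lt_of_le_of_ne h2 hP.1, lt_of_le_of_ne h3 hP.2⟩⟩

/-- **All symbols are multiples of `p`.** Proof: `N` divisible by the numbers `f` of `exists_rf` for `M`, of `mv_P` (if `P` has nonsingular reduction) and of `mv_d`; `M' = Ur M N`, `Q = Nm Q'` (`nsg`, `z_nm₂`). `P = P' - c` (`mv_P`; `c = 0`, `P' = P` if the reduction is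
singular: then `P = (x, y)` is integral and `dx`, `dy` are not units (`ns_aff`, `fm_aff`, `ns_fm`)), `z_sub₁`, `z_ur₁`. `Q' = Q₀ + b` (`lift_rf`, `ns_good`), `z_add₂`, `z_ur₂`. `b = b₁` or `b = b₁ - b₂` with uniformizers as parameters: `b₂` the point with parameter `π` (`exists_uf`, `fm_exists`),
`b₁ = b + b₂` if `nm (tp b) < nm π` (`fm_add`). `ram_b`. -/
theorem ram (h₁ : L.Hd W₁) (h₂ : L.Gd W₂) (hss : L.p = 2 → L.nm (algebraMap F Ω W₂.a₁) < 1)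
    (M : IntermediateField K Ω) [FiniteDimensional K M] {P : Pt W₁ Ω} {Q : Pt W₂ Ω}
    (hP : Fx M P) (hQ : Fx M Q) :
    (scX (K := K) (W₁ := W₁) (W₂ := W₂) R hR).Z L.p M P Q := by
  obtain ⟨f₁, hf₁, H₁⟩ := exists_rf (L := L) M
  obtain ⟨f₂, hf₂, H₂⟩ := mv_d h₂.hd
  obtain ⟨f₃, hf₃, H₃⟩ := loc_mv h₁ P
  obtain ⟨N, hNdef⟩ : ∃ N, N = f₁ * f₂ * f₃ := ⟨_, rfl⟩
  have hN : N ≠ 0 := by
    rw [hNdef]
    exact mul_ne_zero (mul_ne_zero hf₁ hf₂) hf₃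
  have hM := H₁ N hN ⟨f₂ * f₃, by rw [hNdef, mul_assoc]⟩
  obtain ⟨xd, yd, hd, hdx, hdy, hd1, hd2, hd3⟩ := H₂ N hN ⟨f₁ * f₃, by rw [hNdef]; ring⟩
  obtain ⟨c, x, y, hx, hc, hPc, hx1, hy1, hxy⟩ := H₃ N hN ⟨f₁ * f₂, by rw [hNdef]; ring⟩
  obtain ⟨M', hM'⟩ : ∃ M', M' = L.Ur M N := ⟨_, rfl⟩
  have hfin : FiniteDimensional K M' := by
    rw [hM']
    exact ur_fin M N hN
  have hle : M ≤ M' := by
    rw [hM']
    exact ur_le
  obtain ⟨Q', hQ', hQQ'⟩ := nsg h₂ M hN hQ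
  rw [← hM'] at hM hQ' hQQ'
  rw [← hQQ', Sc.z_nm₂ hle hP hQ']
  have hcM : Fx M' c := hc.mono hM.le
  have hPM : Fx M' P := hP.mono hle
  have hP'M : Fx M' (Pt.aff x y hx : Pt W₁ Ω) := by
    rw [← hPc]
    exact hPM.add hcM
  obtain ⟨hxM, hyM⟩ := (fx_aff M' hx).1 hP'M
  have hPe : P = Pt.aff x y hx - c := by rw [← hPc, add_sub_cancel_right]
  rw [hPe]
  refine Sc.z_sub₁ hP'M hcM hQ' ?_ (z_ur₁ h₁ h₂ hss _ hM hc hQ')
  obtain ⟨Q₀, hQ₀, hQ₀c⟩ := lift_rf h₂.toIt hM (ns_good h₂ Q') hQ'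
  have hQ₀M : Fx M' Q₀ := hQ₀.mono hM.le
  have hbf : L.Fm (Q' - Q₀) := cg_symm h₂.toIt hQ₀c
  obtain ⟨b, hb⟩ : ∃ b, b = Q' - Q₀ := ⟨_, rfl⟩
  have hQe : Q' = Q₀ + b := by rw [hb, add_sub_cancel]
  rw [← hb] at hbf
  have hbM : Fx M' b := by
    rw [hb]
    exact hQ'.sub hQ₀M
  rw [hQe]
  refine Sc.z_add₂ hP'M hQ₀M hbM (z_ur₂ h₁ h₂ hss _ hM hP'M hQ₀) ?_
  -- the points of the formal group with a uniformizer as parameter
  have key : ∀ b' : Pt W₂ Ω, L.Fm b' → Fx M' b' → L.Uf M' (tp b') →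
      (scX (K := K) (W₁ := W₁) (W₂ := W₂) R hR).Z L.p M' (Pt.aff x y hx) b' :=
    fun b' hb' hb'M hb'u => ram_b R hR h₁ h₂ hss hM hx hxM hyM hx1 hy1 hxy hd hdx hdy hd1 hd2
      hd3 hb' hb'M hb'u
  obtain ⟨π, hπ⟩ := exists_uf (L := L) M'
  have hbm : tp b ∈ M' := (fm_fx h₂.toIt hbf M').1 hbM
  have hble : L.nm (tp b) ≤ L.nm π := hπ.max _ hbm (fm_lt hbf)
  -- parameters with the value of the uniformizer
  have huf : ∀ t ∈ M', L.nm t = L.nm π → L.Uf M' t := fun t ht hte =>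
    { mem := ht
      pos := by
        rw [hte]
        exact hπ.pos
      lt := by
        rw [hte]
        exact hπ.lt
      max := fun w hw hw1 => by
        rw [hte]
        exact hπ.max w hw hw1 }
  rcases hble.eq_or_lt with h5 | h5
  · exact key b hbf hbM (huf _ hbm h5)
  · obtain ⟨b₂, hb₂f, hb₂t⟩ := fm_exists (K := K) h₂.toIt hπ.lt
    have hb₂M : Fx M' b₂ := by
      refine (fm_fx h₂.toIt hb₂f M').2 ?_
      rw [hb₂t]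
      exact hπ.mem
    obtain ⟨h6, h7⟩ := fm_add h₂.toIt hbf hb₂f
    have h8 : L.nm (tp (b + b₂)) = L.nm π := by
      have h9 : L.nm (tp b) * L.nm (tp b₂) < L.nm π := by
        refine lt_of_le_of_lt ?_ h5
        exact mul_le_of_le_one_right (L.nonneg _) (fm_lt hb₂f).le
      have h10 : L.nm (tp (b + b₂) - π) < L.nm π := by
        have h11 : tp (b + b₂) - π = (tp (b + b₂) - (tp b + tp b₂)) + tp b := by
          rw [hb₂t]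
          ring
        rw [h11]
        exact (L.add _ _).trans_lt (max_lt (h7.trans_lt h9) h5)
      exact L.eq_of_close h10
    have h12 : b = (b + b₂) - b₂ := by rw [add_sub_cancel_right]
    rw [h12]
    refine Sc.z_sub₂ hP'M (hbM.add hb₂M) hb₂M ?_ ?_
    · exact key _ h6 (hbM.add hb₂M)
        (huf _ ((fm_fx h₂.toIt h6 M').1 (hbM.add hb₂M)) h8)
    · refine key _ hb₂f hb₂M (huf _ ?_ ?_)
      · rw [hb₂t]
        exact hπ.mem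
      · rw [hb₂t]

/-- **The local theorem.** Proof: `el`, `ram`, `Sc.t_div`. -/
theorem loc (h₁ : L.Hd W₁) (h₂ : L.Gd W₂) (hss : L.p = 2 → L.nm (algebraMap F Ω W₂.a₁) < 1)
    (n : ℕ) (hn : n ≠ 0) : ∀ x ∈ (scX (K := K) (W₁ := W₁) (W₂ := W₂) R hR).T,
      ∃ y ∈ (scX (K := K) (W₁ := W₁) (W₂ := W₂) R hR).T, x = n • y := by
  refine Sc.t_div (fun l hl M P Q hM hP hQ => ?_) n hn
  by_cases hlp : l = L.p
  · rw [hlp]
    exact ram R hR h₁ h₂ hss M hP hQ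
  · exact el h₁ h₂ _ hl hlp M hP hQ

end Ld

end PE
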