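import Pool.Agent.Lib.MP_f80667_ag.Pe.DivA

/-! Multiplication by `n` is surjective on the points over an algebraically closed field of characteristic `0`. -/

open ZC BE Polynomial IntermediateField

namespace PE

variable {F : Type} [Field F] {W : WeierstrassCurve F} [W.IsElliptic] {Ω : Type} [Field Ω]
  [CharZero Ω] [IsAlgClosed Ω] [Algebra F Ω]

/-- The `x`-coordinate of `n ξ`, `ξ` the generic point: there are coprime polynomials `U`, `V`, `deg U = deg V + 1`, such that for a point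
`(x, y)` the point `n (x, y)` is `0` iff `V(x) = 0`, and has the `x`-coordinate `U(x) / V(x)` otherwise.
Proof: let `E`, `s`, `η`, `σ` be as in `exists_fw` for `M = Ω`, `ξ = gp`. At a place over `ξ ↦ 0` (`fw_plc`) the point `ξ` is in the formal group of the local ring of
the place (`rs_fm`), `t(n ξ) = n t(ξ) + O(t(ξ)²)` (`fg_nsmul`), `t(ξ) ≠ 0`, so `n ξ ≠ 0`, `n ξ = (X, Y)`, and `X / s = (t(ξ) / t(n ξ))² (1 + ...)` has a finite
value `≠ 0` at the place. `σ (n ξ) = - n ξ` (`gp_sig`), so `σ X = X`, `X = U(s) / V(s)` with coprime `U`, `V` (`fw_gen`, `fw_indep`), and `deg U = deg V + 1` since `X / s` is a unit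
at the place. For a point `P = (x, y)` choose a place `w` with `ξ ↦ P` (`fw_plc`); `n ξ ↦ n P` (`red_nsmul'`). -/
theorem div_xn (n : ℕ) (hn : n ≠ 0) : ∃ U V : Polynomial Ω, IsCoprime U V ∧ U.natDegree = V.natDegree + 1 ∧
    ∀ (x y : Ω) (h : (W.baseChange Ω).toAffine.Nonsingular x y),
      (V.eval x = 0 → n • (Pt.aff x y h : Pt W Ω) = 0) ∧
      (V.eval x ≠ 0 → ∃ (y' : Ω) (h' : (W.baseChange Ω).toAffine.Nonsingular
        (U.eval x / V.eval x) y'), n • (Pt.aff x y h : Pt W Ω) = Pt.aff _ y' h') :=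
  divA_xn n hn

omit [W.IsElliptic] [CharZero Ω] [IsAlgClosed Ω] in
private theorem div_congr {x y x' y' : Ω} {h : (W.baseChange Ω).toAffine.Nonsingular x y}
    {h' : (W.baseChange Ω).toAffine.Nonsingular x' y'} (hx : x = x') (hy : y = y') :
    (Pt.aff x y h : Pt W Ω) = Pt.aff x' y' h' := by
  subst hx hy
  rfl

/-- **Divisibility.** Proof: for `P = (x₀, y₀)` let `x` be a root of `U - x₀ V`; `V(x) ≠ 0` since `U`, `V` are coprime. -/
theorem div' (n : ℕ) (hn : n ≠ 0) (P : Pt W Ω) : ∃ Q : Pt W Ω, n • Q = P := by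
  rcases Pt.cases' P with rfl | ⟨x₀, y₀, h₀, rfl⟩
  · exact ⟨0, smul_zero n⟩
  obtain ⟨U, V, hUV, hdeg, hpt⟩ := div_xn (W := W) (Ω := Ω) n hn
  -- a root of `U - x₀ V`
  have hd : (C x₀ * V).natDegree < U.natDegree := by
    have h1 : (C x₀ * V).natDegree ≤ V.natDegree := natDegree_C_mul_le x₀ V
    omega
  have hd2 : (U - C x₀ * V).natDegree = U.natDegree := natDegree_sub_eq_left_of_natDegree_lt hd
  obtain ⟨x, hx⟩ := IsAlgClosed.exists_root (U - C x₀ * V) (by
    intro h1
    have h2 : (U - C x₀ * V).natDegree = 0 := natDegree_eq_zero_iff_degree_le_zero.2 h1.le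
    omega)
  have hx' : U.eval x = x₀ * V.eval x := by
    have h1 : (U - C x₀ * V).eval x = 0 := hx
    rw [eval_sub, eval_mul, eval_C] at h1
    exact sub_eq_zero.1 h1
  have hV : V.eval x ≠ 0 := by
    intro h1
    obtain ⟨a, b, hab⟩ := hUV
    have h2 := congrArg (eval x) hab
    rw [eval_add, eval_mul, eval_mul, hx', h1, mul_zero, mul_zero, mul_zero, add_zero,
      eval_one] at h2
    exact zero_ne_one h2
  -- a point with this first coordinate
  obtain ⟨B, hB⟩ : ∃ B : Ω, B = (W.baseChange Ω).a₁ * x + (W.baseChange Ω).a₃ := ⟨_, rfl⟩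
  obtain ⟨D, hD⟩ : ∃ D : Ω, D = x ^ 3 + (W.baseChange Ω).a₂ * x ^ 2 + (W.baseChange Ω).a₄ * x +
      (W.baseChange Ω).a₆ := ⟨_, rfl⟩
  obtain ⟨z, hz⟩ := IsAlgClosed.exists_eq_mul_self (B ^ 2 + 4 * D)
  have h2 : (2 : Ω) ≠ 0 := two_ne_zero
  have heq : (W.baseChange Ω).toAffine.Equation x ((z - B) / 2) := by
    rw [WeierstrassCurve.Affine.equation_iff, ← hD]
    have h3 : ((z - B) / 2) ^ 2 + (W.baseChange Ω).a₁ * x * ((z - B) / 2) +
        (W.baseChange Ω).a₃ * ((z - B) / 2) = (z * z - B ^ 2) / 4 := by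
      rw [hB]
      ring
    rw [h3, ← hz]
    ring
  have hell : (W.baseChange Ω).IsElliptic := inferInstanceAs (W.map (algebraMap F Ω)).IsElliptic
  have hns : (W.baseChange Ω).toAffine.Nonsingular x ((z - B) / 2) :=
    (WeierstrassCurve.Affine.equation_iff_nonsingular (W := W.baseChange Ω)).1 heq
  obtain ⟨y', h', hy'⟩ := (hpt x ((z - B) / 2) hns).2 hV
  have hxx : U.eval x / V.eval x = x₀ := by rw [hx', mul_div_cancel_right₀ _ hV]
  have e1 := (WeierstrassCurve.Affine.equation_iff _ _).1 h'.1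
  have e2 := (WeierstrassCurve.Affine.equation_iff _ _).1 h₀.1
  rw [hxx] at e1
  have hprod : (y' - y₀) * (y' + y₀ + (W.baseChange Ω).a₁ * x₀ + (W.baseChange Ω).a₃) = 0 := by
    linear_combination e1 - e2
  rcases mul_eq_zero.1 hprod with h3 | h3
  · have h4 : y' = y₀ := sub_eq_zero.1 h3
    refine ⟨Pt.aff x _ hns, ?_⟩
    rw [hy']
    exact div_congr hxx h4
  · refine ⟨-Pt.aff x _ hns, ?_⟩
    rw [smul_neg, hy']
    have h5 : -(Pt.aff (U.eval x / V.eval x) y' h' : Pt W Ω) =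
        Pt.aff (U.eval x / V.eval x)
          (-y' - (W.baseChange Ω).a₁ * (U.eval x / V.eval x) - (W.baseChange Ω).a₃)
          ((WeierstrassCurve.Affine.nonsingular_neg ..).2 h') := rfl
    rw [h5]
    refine div_congr hxx ?_
    rw [hxx]
    linear_combination -h3

end PE
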