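import Pool.Agent.Lib.MP_f80667_ag.Be.LR

/-! The real places: the points of order two of a real curve with negative discriminant. -/

open ZC BE Polynomial IntermediateField IsDedekindDomain NumberField

namespace PE

/-- Two roots of a cubic which are fixed by an automorphism are equal if a third root is not fixed. -/
theorem reA_root {Ω : Type} [Field Ω] [CharZero Ω] (σ : Ω →+* Ω) {b₂ b₄ b₆ x x' z : Ω}
    (h2 : σ b₂ = b₂) (hx : 4 * x ^ 3 + b₂ * x ^ 2 + 2 * b₄ * x + b₆ = 0)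
    (hx' : 4 * x' ^ 3 + b₂ * x' ^ 2 + 2 * b₄ * x' + b₆ = 0)
    (hz : 4 * z ^ 3 + b₂ * z ^ 2 + 2 * b₄ * z + b₆ = 0) (h : σ x = x) (h' : σ x' = x')
    (hn : σ z ≠ z) : x = x' := by
  by_contra hne
  have hxz : x - z ≠ 0 := fun h1 => hn (by rw [← sub_eq_zero.1 h1, h])
  have hxz' : x' - z ≠ 0 := fun h1 => hn (by rw [← sub_eq_zero.1 h1, h'])
  have hxx : x - x' ≠ 0 := fun h1 => hne (sub_eq_zero.1 h1)
  have e1 : 4 * (x ^ 2 + x * x' + x' ^ 2) + b₂ * (x + x') + 2 * b₄ = 0 := by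
    apply mul_left_cancel₀ hxx
    linear_combination hx - hx'
  have e2 : 4 * (x ^ 2 + x * z + z ^ 2) + b₂ * (x + z) + 2 * b₄ = 0 := by
    apply mul_left_cancel₀ hxz
    linear_combination hx - hz
  have e3 : 4 * (x + x' + z) + b₂ = 0 := by
    apply mul_left_cancel₀ hxz'
    linear_combination e1 - e2
  have e4 : z = -(b₂ / 4) - x - x' := by
    linear_combination (1 / 4 : Ω) * e3
  apply hn
  rw [e4, map_sub, map_sub, map_neg, map_div₀, h2, h, h', map_ofNat]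

/-- The roots of the cubic. -/
theorem reA_split {Ω : Type} [Field Ω] [CharZero Ω] [IsAlgClosed Ω] (b₂ b₄ b₆ : Ω) :
    ∃ e₁ e₂ e₃ : Ω, b₂ = -4 * (e₁ + e₂ + e₃) ∧ b₄ = 2 * (e₁ * e₂ + e₁ * e₃ + e₂ * e₃) ∧
      b₆ = -4 * (e₁ * e₂ * e₃) := by
  obtain ⟨e₁, h1⟩ := IsAlgClosed.exists_root
    (C (4 : Ω) * X ^ 3 + C b₂ * X ^ 2 + C (2 * b₄) * X + C b₆) (by
      rw [degree_cubic (by norm_num)]
      norm_num)
  rw [IsRoot.def] at h1
  simp only [eval_add, eval_mul, eval_pow, eval_X, eval_C] at h1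
  obtain ⟨e₂, h2⟩ := IsAlgClosed.exists_root
    (C (4 : Ω) * X ^ 2 + C (b₂ + 4 * e₁) * X + C (2 * b₄ + (b₂ + 4 * e₁) * e₁)) (by
      rw [degree_quadratic (by norm_num)]
      norm_num)
  rw [IsRoot.def] at h2
  simp only [eval_add, eval_mul, eval_pow, eval_X, eval_C] at h2
  refine ⟨e₁, e₂, -(b₂ / 4) - e₁ - e₂, ?_, ?_, ?_⟩
  · ring
  · linear_combination (1 / 2 : Ω) * h2
  · linear_combination h1 - e₁ * h2

variable {F : Type} [Field F] {K Ω : Type} [Field K] [CharZero K] [Field Ω] [Algebra K Ω]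
  [Algebra F K] [Algebra F Ω] [IsScalarTower F K Ω] [IsAlgClosure K Ω]

omit [CharZero K] [IsAlgClosure K Ω] in
theorem reA_neg (W : WeierstrassCurve F) {x y : Ω}
    (h : (W.baseChange Ω).toAffine.Nonsingular x y) :
    2 • (Pt.aff x y h : Pt W Ω) = 0 ↔
      2 * y + algebraMap F Ω W.a₁ * x + algebraMap F Ω W.a₃ = 0 := by
  have h1 : -(Pt.aff x y h : Pt W Ω) = Pt.aff x ((W.baseChange Ω).toAffine.negY x y)
      ((WeierstrassCurve.Affine.nonsingular_neg ..).2 h) := rfl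
  have h2 : (W.baseChange Ω).toAffine.negY x y =
      -y - algebraMap F Ω W.a₁ * x - algebraMap F Ω W.a₃ := rfl
  rw [two_nsmul, ← eq_neg_iff_add_eq_zero, h1]
  constructor
  · intro h3
    have h4 := (WeierstrassCurve.Affine.Point.some.inj h3).2
    rw [h2] at h4
    linear_combination h4
  · intro h3
    have h4 : (W.baseChange Ω).toAffine.negY x y = y := by
      rw [h2]
      linear_combination -h3
    simp only [Pt.aff, h4]

omit [CharZero K] [IsAlgClosure K Ω] in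
theorem reA_eq (W : WeierstrassCurve F) (x y : Ω) :
    (W.baseChange Ω).toAffine.Equation x y ↔
      y ^ 2 + algebraMap F Ω W.a₁ * x * y + algebraMap F Ω W.a₃ * y =
        x ^ 3 + algebraMap F Ω W.a₂ * x ^ 2 + algebraMap F Ω W.a₄ * x + algebraMap F Ω W.a₆ :=
  WeierstrassCurve.Affine.equation_iff ..

/-- The points of order two of a real curve with negative discriminant. -/
theorem reA_tor (e : K ≃+* ℝ) (W : WeierstrassCurve F) [W.IsElliptic]
    (h : e (algebraMap F K W.Δ) < 0) :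
    ∃ T : Pt W Ω, 2 • T = 0 ∧ ∀ γ : Ω ≃ₐ[K] Ω, γ ≠ 1 → ∀ S : Pt W Ω, 2 • S = 0 → γ • S = S →
      S = 0 ∨ S = T + γ • T := by
  have hcl : IsAlgClosed Ω := IsAlgClosure.isAlgClosed K
  have hch : CharZero Ω := charZero_of_injective_algebraMap (algebraMap K Ω).injective
  obtain ⟨-, σ, hσ, hσ'⟩ := real_gal (Ω := Ω) e
  have hσσ : σ * σ = 1 := by
    rcases hσ' (σ * σ) with h | h
    · exact h
    · exact absurd (mul_eq_left.1 h) hσ
  have hmem : ∀ x : Ω, σ x = x → ∃ a : K, algebraMap K Ω a = x := fun x hx =>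
    lr_bot (mem_of_fix ⊥ fun γ _ => by
      rcases hσ' γ with rfl | rfl
      · rfl
      · exact hx)
  have hF : ∀ a : F, σ (algebraMap F Ω a) = algebraMap F Ω a := fun a => by
    rw [IsScalarTower.algebraMap_apply F K Ω, AlgEquiv.commutes]
  obtain ⟨e₁, e₂, e₃, k2, k4, k6⟩ := reA_split (algebraMap F Ω W.b₂) (algebraMap F Ω W.b₄)
    (algebraMap F Ω W.b₆)
  have hΔ : algebraMap F Ω W.Δ = 16 * ((e₁ - e₂) * (e₁ - e₃) * (e₂ - e₃)) ^ 2 := by
    have h8 := congrArg (algebraMap F Ω) W.b_relation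
    simp only [map_mul, map_sub, map_pow, map_ofNat] at h8
    have hd : algebraMap F Ω W.Δ = -(algebraMap F Ω W.b₂) ^ 2 * algebraMap F Ω W.b₈ -
        8 * (algebraMap F Ω W.b₄) ^ 3 - 27 * (algebraMap F Ω W.b₆) ^ 2 +
        9 * algebraMap F Ω W.b₂ * algebraMap F Ω W.b₄ * algebraMap F Ω W.b₆ := by
      rw [WeierstrassCurve.Δ]
      simp only [map_mul, map_sub, map_pow, map_ofNat, map_neg, map_add]
    have h8' : algebraMap F Ω W.b₈ = (algebraMap F Ω W.b₂ * algebraMap F Ω W.b₆ -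
        (algebraMap F Ω W.b₄) ^ 2) / 4 := by
      rw [eq_div_iff (by norm_num)]
      linear_combination h8
    rw [hd, h8', k2, k4, k6]
    ring
  -- a root which is not fixed
  have hz : ∃ z : Ω, 4 * z ^ 3 + algebraMap F Ω W.b₂ * z ^ 2 + 2 * algebraMap F Ω W.b₄ * z +
      algebraMap F Ω W.b₆ = 0 ∧ σ z ≠ z := by
    by_contra hcon
    push Not at hcon
    obtain ⟨a₁, ha₁⟩ := hmem e₁ (hcon e₁ (by rw [k2, k4, k6]; ring))
    obtain ⟨a₂, ha₂⟩ := hmem e₂ (hcon e₂ (by rw [k2, k4, k6]; ring))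
    obtain ⟨a₃, ha₃⟩ := hmem e₃ (hcon e₃ (by rw [k2, k4, k6]; ring))
    have h1 : algebraMap F K W.Δ = 16 * ((a₁ - a₂) * (a₁ - a₃) * (a₂ - a₃)) ^ 2 := by
      apply (algebraMap K Ω).injective
      rw [← IsScalarTower.algebraMap_apply, hΔ]
      simp only [map_mul, map_sub, map_pow, map_ofNat, ha₁, ha₂, ha₃]
    rw [h1, map_mul, map_pow, map_ofNat] at h
    nlinarith [sq_nonneg (e ((a₁ - a₂) * (a₁ - a₃) * (a₂ - a₃)))]
  obtain ⟨z, hz, hzσ⟩ := hz
  -- the relation between the equation and the cubic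
  have hcub : ∀ x y : Ω, 2 * y + algebraMap F Ω W.a₁ * x + algebraMap F Ω W.a₃ = 0 →
      ((W.baseChange Ω).toAffine.Equation x y ↔ 4 * x ^ 3 + algebraMap F Ω W.b₂ * x ^ 2 +
        2 * algebraMap F Ω W.b₄ * x + algebraMap F Ω W.b₆ = 0) := by
    intro x y hxy
    rw [reA_eq]
    simp only [WeierstrassCurve.b₂, WeierstrassCurve.b₄, WeierstrassCurve.b₆, map_add, map_mul,
      map_pow, map_ofNat]
    constructor
    · intro h1
      linear_combination (2 * y + algebraMap F Ω W.a₁ * x + algebraMap F Ω W.a₃) * hxy - 4 * h1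
    · intro h1
      have h4 : (4 : Ω) ≠ 0 := by norm_num
      apply mul_left_cancel₀ h4
      linear_combination (2 * y + algebraMap F Ω W.a₁ * x + algebraMap F Ω W.a₃) * hxy - h1
  have hell : (W.baseChange Ω).IsElliptic := (inferInstance : (W.map (algebraMap F Ω)).IsElliptic)
  obtain ⟨yz, hyz⟩ : ∃ yz : Ω, yz = -(algebraMap F Ω W.a₁ * z + algebraMap F Ω W.a₃) / 2 :=
    ⟨_, rfl⟩
  have hyz' : 2 * yz + algebraMap F Ω W.a₁ * z + algebraMap F Ω W.a₃ = 0 := by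
    rw [hyz]
    ring
  have hns : (W.baseChange Ω).toAffine.Nonsingular z yz :=
    (WeierstrassCurve.Affine.equation_iff_nonsingular).1 ((hcub z yz hyz').2 hz)
  obtain ⟨T, hT⟩ : ∃ T : Pt W Ω, T = Pt.aff z yz hns := ⟨_, rfl⟩
  have hT2 : 2 • T = 0 := by
    rw [hT, reA_neg]
    exact hyz'
  refine ⟨T, hT2, ?_⟩
  intro γ hγ S hS hγS
  obtain rfl : γ = σ := by
    rcases hσ' γ with h1 | h1
    · exact absurd h1 hγ
    · exact h1
  -- fixed points of order two
  have hfix : ∀ R : Pt W Ω, 2 • R = 0 → γ • R = R → R ≠ 0 → ∃ (x y : Ω)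
      (n : (W.baseChange Ω).toAffine.Nonsingular x y), R = Pt.aff x y n ∧ γ x = x ∧
      2 * y + algebraMap F Ω W.a₁ * x + algebraMap F Ω W.a₃ = 0 ∧
      4 * x ^ 3 + algebraMap F Ω W.b₂ * x ^ 2 + 2 * algebraMap F Ω W.b₄ * x +
      algebraMap F Ω W.b₆ = 0 := by
    intro R h2 h3 h4
    rcases Pt.cases' R with h5 | ⟨x, y, n, rfl⟩
    · exact absurd h5 h4
    · have h6 := (reA_neg W n).1 h2
      exact ⟨x, y, n, rfl, ((Gal_smul_aff n γ).1 h3).1, h6, (hcub x y h6).1 n.1⟩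
  by_cases hS0 : S = 0
  · exact Or.inl hS0
  right
  have hγγ : γ • γ • T = T := by
    rw [smul_smul, hσσ, one_smul]
  have hR0 : T + γ • T ≠ 0 := by
    intro h1
    have h2 : γ • T = T := by
      have h3 : γ • T = -T := (neg_eq_of_add_eq_zero_right h1).symm
      rw [h3, neg_eq_iff_add_eq_zero, ← two_nsmul]
      exact hT2
    rw [hT, Gal_smul_aff] at h2
    exact hzσ h2.1
  have hR2 : 2 • (T + γ • T) = 0 := by
    rw [smul_add, hT2, zero_add, two_nsmul, ← smul_add, ← two_nsmul, hT2, smul_zero]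
  have hRγ : γ • (T + γ • T) = T + γ • T := by
    rw [smul_add, hγγ, add_comm]
  obtain ⟨x, y, n, rfl, hx, hy, hc⟩ := hfix S hS hγS hS0
  obtain ⟨x', y', n', hR, hx', hy', hc'⟩ := hfix _ hR2 hRγ hR0
  have hxx : x = x' := reA_root (γ : Ω →+* Ω) (hF W.b₂) hc hc' hz hx hx' hzσ
  have hyy : y = y' := by
    have h2 : (2 : Ω) ≠ 0 := by norm_num
    apply mul_left_cancel₀ h2
    rw [← hxx] at hy'
    linear_combination hy - hy'
  rw [hR]
  simp only [Pt.aff, hxx, hyy]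

end PE
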