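import Pool.Agent.Lib.MP_f80667_ag.Pe.Si
import Pool.Agent.Lib.MP_f80667_ag.Pe.Div
import Pool.Agent.Lib.MP_f80667_ag.Pe.NmL
import Pool.Agent.Lib.MP_f80667_ag.Be.LocA
import Pool.Agent.Lib.MP_f80667_ag.Pe.ReA

/-! The real places. -/

open ZC BE Polynomial IntermediateField IsDedekindDomain NumberField

namespace PE

variable {F : Type} [Field F] {K Ω : Type} [Field K] [CharZero K] [Field Ω] [Algebra K Ω]
  [Algebra F K] [Algebra F Ω] [IsScalarTower F K Ω] [IsAlgClosure K Ω]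

/-- The points of order two of a real curve with negative discriminant. Proof: the cubic `4 x³ + b₂ x² + 2 b₄ x + b₆` over `K ≅ ℝ` has discriminant `16 Δ < 0`, so it has one root in `K` and two roots which are
exchanged by the nontrivial automorphism `γ` (`real_gal` in `Be/LR.lean`: the group has order two); `T` is the point over one of them; `T + γ T` is the invariant point of order two. -/
theorem re_tor (e : K ≃+* ℝ) (W : WeierstrassCurve F) [W.IsElliptic]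
    (h : e (algebraMap F K W.Δ) < 0) :
    ∃ T : Pt W Ω, 2 • T = 0 ∧ ∀ γ : Ω ≃ₐ[K] Ω, γ ≠ 1 → ∀ S : Pt W Ω, 2 • S = 0 → γ • S = S →
      S = 0 ∨ S = T + γ • T := by
  exact reA_tor e W h

/-- Halves. Proof: `div'`: `2 Q = P`; `S = γ Q - Q` for the nontrivial `γ` satisfies `2 S = 0`, `γ S = - S = S` (`γ² = 1`). If `S = 0` done; otherwise `S = T + γ T`; `Q' = Q + T`:
`γ Q' - Q' = S + γ T - T = 2 γ T = 0`. -/
theorem re_half (e : K ≃+* ℝ) (W : WeierstrassCurve F) [W.IsElliptic]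
    (h : e (algebraMap F K W.Δ) < 0) (P : Pt W Ω) (hP : ∀ γ : Ω ≃ₐ[K] Ω, γ • P = P) :
    ∃ Q : Pt W Ω, (∀ γ : Ω ≃ₐ[K] Ω, γ • Q = Q) ∧ 2 • Q = P := by
  have hcl : IsAlgClosed Ω := IsAlgClosure.isAlgClosed K
  have hch : CharZero Ω := charZero_of_injective_algebraMap (algebraMap K Ω).injective
  obtain ⟨-, σ, hσ, hσ'⟩ := real_gal (Ω := Ω) e
  obtain ⟨Q₀, hQ₀⟩ := div' 2 two_ne_zero P
  obtain ⟨T, hT, hT'⟩ := re_tor (K := K) (Ω := Ω) e W h
  have hσσ : σ * σ = 1 := by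
    rcases hσ' (σ * σ) with h1 | h1
    · exact h1
    · exact absurd (mul_eq_left.1 h1) hσ
  have hss : ∀ R : Pt W Ω, σ • σ • R = R := fun R => by rw [← mul_smul, hσσ, one_smul]
  have hinv : ∀ R : Pt W Ω, σ • R = R → ∀ γ : Ω ≃ₐ[K] Ω, γ • R = R := by
    intro R hR γ
    rcases hσ' γ with rfl | rfl
    · exact one_smul _ R
    · exact hR
  have h2 : 2 • (σ • Q₀ - Q₀) = 0 := by
    rw [smul_sub, ← smul_comm σ 2 Q₀, hQ₀, hP σ, sub_self]
  have h3 : -(σ • Q₀ - Q₀) = σ • Q₀ - Q₀ := by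
    rw [two_smul] at h2
    exact (eq_neg_of_add_eq_zero_left h2).symm
  have h4 : σ • (σ • Q₀ - Q₀) = σ • Q₀ - Q₀ := by
    rw [smul_sub, hss, ← neg_sub (σ • Q₀) Q₀, h3]
  rcases hT' σ hσ (σ • Q₀ - Q₀) h2 h4 with h5 | h5
  · exact ⟨Q₀, hinv Q₀ (sub_eq_zero.1 h5), hQ₀⟩
  · refine ⟨Q₀ + T, hinv _ ?_, ?_⟩
    · have h6 : 2 • (σ • T) = 0 := by rw [← smul_comm σ 2 T, hT, smul_zero]
      rw [two_smul] at h6
      rw [smul_add, sub_eq_iff_eq_add.1 h5]
      have h7 : T + σ • T + Q₀ + σ • T = Q₀ + T + (σ • T + σ • T) := by abel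
      rw [h7, h6, add_zero]
    · rw [smul_add, hQ₀, hT, add_zero]

omit [CharZero K] [IsAlgClosure K Ω] in
/-- Over `Ω` the symbols are sums of norms. -/
private theorem re_sc₀ (W₁ W₂ : WeierstrassCurve F) [Finite (Ω ≃ₐ[K] Ω)] (P : Pt W₁ Ω)
    (Q : Pt W₂ Ω) (R : AddSubgroup (Pt W₁ Ω × Pt W₂ Ω →₀ ℤ)) :
    trG (Pt W₁ Ω × Pt W₂ Ω) (⊥ : Subgroup (Ω ≃ₐ[K] Ω)) (tau P Q) ∈
      R ⊔ (Xv W₁ W₂).nrm K Ω := by
  have h1 : ∀ x : Pt W₁ Ω × Pt W₂ Ω,
      trG (Pt W₁ Ω × Pt W₂ Ω) (⊥ : Subgroup (Ω ≃ₐ[K] Ω)) (Finsupp.single x 1) ∈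
        R ⊔ (Xv W₁ W₂).nrm K Ω := by
    intro x
    rw [locA_trG]
    exact AddSubgroup.mem_sup_right (AddSubgroup.subset_closure ⟨x, rfl⟩)
  unfold tau
  rw [map_add, map_sub, map_sub]
  exact add_mem (sub_mem (sub_mem (h1 _) (h1 _)) (h1 _)) (h1 _)

/-- The symbols are trivial modulo norms. Proof: the fields between `K` and `Ω` are `⊥` and `⊤` (`real_gal`). Over `⊤` the symbol is the sum over `Gal(Ω / K)` of the conjugates of `tau P Q`, a combination of norms of points (`locA_trG`; the trivial subgroup is the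
fixing subgroup of `⊤`). Over `⊥`: `P = 2 P' = Nm ⊥ ⊤ P'` (`re_half`; `nm_const`), so `{P, Q}_⊥ = {P', Q}_⊤ = 0` (`nm₁`); or the same for `Q`. -/
theorem re_sc (e : K ≃+* ℝ) (W₁ W₂ : WeierstrassCurve F) [W₁.IsElliptic] [W₂.IsElliptic]
    (h : e (algebraMap F K W₁.Δ) < 0 ∨ e (algebraMap F K W₂.Δ) < 0) :
    ∀ x ∈ (scX (K := K) (Ω := Ω) (W₁ := W₁) (W₂ := W₂)
      ((Xv W₁ W₂).ratEq K Ω ⊔ (Xv W₁ W₂).nrm K Ω) le_sup_left).T, x = 0 := by
  obtain ⟨hfr, σ, hσ, hσ'⟩ := real_gal (Ω := Ω) e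
  have hfd : FiniteDimensional K Ω := Module.finite_of_finrank_pos (by rw [hfr]; exact two_pos)
  have hcard : Nat.card (Ω ≃ₐ[K] Ω) = 2 := by rw [IsGalois.card_aut_eq_finrank, hfr]
  have hfin : Finite (Ω ≃ₐ[K] Ω) := inferInstance
  have htop : FiniteDimensional K (⊤ : IntermediateField K Ω) := inferInstance
  obtain ⟨S, hS⟩ : ∃ S, S = scX (K := K) (Ω := Ω) (W₁ := W₁) (W₂ := W₂)
      ((Xv W₁ W₂).ratEq K Ω ⊔ (Xv W₁ W₂).nrm K Ω) le_sup_left := ⟨_, rfl⟩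
  -- the trivial subgroup
  have h0 : ∀ (M : IntermediateField K Ω) (P : Pt W₁ Ω) (Q : Pt W₂ Ω), M.fixingSubgroup = ⊥ →
      S.sy M P Q = 0 := by
    intro M P Q hM
    rw [hS]
    refine (QuotientAddGroup.eq_zero_iff _).2 ?_
    rw [hM]
    exact re_sc₀ W₁ W₂ P Q _
  have hrel : ∀ M : IntermediateField K Ω, M.fixingSubgroup = ⊤ →
      (⊤ : IntermediateField K Ω).fixingSubgroup.relIndex M.fixingSubgroup = 2 := by
    intro M hM
    rw [hM, IntermediateField.fixingSubgroup_top, Subgroup.relIndex_top_right, Subgroup.index_bot,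
      hcard]
  rw [← hS]
  intro x hx
  have key : S.T ≤ ⊥ := by
    refine (AddSubgroup.closure_le _).2 ?_
    rintro _ ⟨M, P, Q, hM, hP, hQ, rfl⟩
    refine AddSubgroup.mem_bot.2 ?_
    by_cases hs : σ ∈ M.fixingSubgroup
    · have hMt : M.fixingSubgroup = ⊤ := by
        refine (Subgroup.eq_top_iff' _).2 fun γ => ?_
        rcases hσ' γ with rfl | rfl
        · exact one_mem _
        · exact hs
      have hall : ∀ γ : Ω ≃ₐ[K] Ω, γ ∈ M.fixingSubgroup := fun γ => by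
        rw [hMt]
        exact Subgroup.mem_top γ
      rcases h with h | h
      · obtain ⟨P', h1, h2⟩ := re_half (Ω := Ω) e W₁ h P fun γ => hP γ (hall γ)
        have hP' : Fx M P' := fun γ _ => h1 γ
        have h3 := S.nm₁ M ⊤ P' Q le_top (Fx.mono le_top hP') hQ
        rw [nm_const le_top hP', hrel M hMt, h2] at h3
        rw [← h3]
        exact h0 ⊤ P' Q IntermediateField.fixingSubgroup_top
      · obtain ⟨Q', h1, h2⟩ := re_half (Ω := Ω) e W₂ h Q fun γ => hQ γ (hall γ)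
        have hQ' : Fx M Q' := fun γ _ => h1 γ
        have h3 := S.nm₂ M ⊤ P Q' le_top hP (Fx.mono le_top hQ')
        rw [nm_const le_top hQ', hrel M hMt, h2] at h3
        rw [← h3]
        exact h0 ⊤ P Q' IntermediateField.fixingSubgroup_top
    · refine h0 M P Q ((Subgroup.eq_bot_iff_forall _).2 fun γ hγ => ?_)
      rcases hσ' γ with h1 | h1
      · exact h1
      · rw [h1] at hγ
        exact absurd hγ hs
  exact AddSubgroup.mem_bot.1 (key hx)

end PE
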