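import Pool.Agent.Lib.MP_f80667_ag.Pe.St
import Pool.Agent.Lib.MP_f80667_ag.Pe.Loc
import Pool.Agent.Lib.MP_f80667_ag.Pe.Re
import Pool.Agent.Lib.MP_f80667_ag.Be.HatA
import Pool.Agent.Lib.MP_f80667_ag.Pe.GloA
import Pool.Agent.Lib.MP_f80667_ag.Pe.GloV

/-! The local theorems for cycles over the completions, and the global theorem. -/

open ZC BE Polynomial IntermediateField IsDedekindDomain NumberField

namespace PE

section loc'

variable {F : Type} [Field F] {W₁ W₂ : WeierstrassCurve F} {K : Type} [Field K] [CharZero K]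
  [Algebra F K]

omit [CharZero K] in
private theorem glo_sg {W : WeierstrassCurve F} (z : Zc (Ev W) K) :
    sg z = sm (A := Pt W (AlgebraicClosure K)) z.cy := rfl

omit [CharZero K] in
/-- Equality of classes. -/
private theorem glo_cl {V : Vr F} (z z' : Zc V K) (n : ℕ)
    (h : z.cy - n • z'.cy ∈ V.ratEq K (AlgebraicClosure K)) : z.cl = n • z'.cl := by
  let w : Dz V K := z'
  have h1 : n • z'.cl = Gp.clsH V K (n • w) := (map_nsmul (Gp.clsH V K) n w).symm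
  rw [h1]
  exact Gp.cls_eq.2 h

omit [CharZero K] in
private theorem glo_cl' {V : Vr F} (z z' : Zc V K) (n : ℕ) (h : z.cl = n • z'.cl) :
    z.cy - n • z'.cy ∈ V.ratEq K (AlgebraicClosure K) := by
  let w : Dz V K := z'
  have h1 : n • z'.cl = Gp.clsH V K (n • w) := (map_nsmul (Gp.clsH V K) n w).symm
  rw [h1] at h
  exact Gp.cls_eq.1 h

/-- From the symbols to cycles. Proof: `scX_gen`, `scX_mem` for `R = ratEq`. -/
theorem dv_of [W₁.IsElliptic] [W₂.IsElliptic] (h : ∀ n : ℕ, n ≠ 0 → ∀ x ∈ (scX (K := K)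
      (Ω := AlgebraicClosure K) (W₁ := W₁) (W₂ := W₂) ((Xv W₁ W₂).ratEq K (AlgebraicClosure K)) le_rfl).T,
      ∃ y ∈ (scX (K := K) (Ω := AlgebraicClosure K) (W₁ := W₁) (W₂ := W₂)
        ((Xv W₁ W₂).ratEq K (AlgebraicClosure K)) le_rfl).T, x = n • y) : DvA K W₁ W₂ := by
  intro n hn z hz
  have h1 := scX_gen (K := K) (Ω := AlgebraicClosure K) (W₁ := W₁) (W₂ := W₂)
    ((Xv W₁ W₂).ratEq K (AlgebraicClosure K)) le_rfl (z := z.cy) z.2 hz.1 hz.2
  obtain ⟨y, hy, he⟩ := h n hn _ h1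
  obtain ⟨z', hz', h2, h3, h4⟩ := scX_mem (K := K) (Ω := AlgebraicClosure K) (W₁ := W₁) (W₂ := W₂)
    ((Xv W₁ W₂).ratEq K (AlgebraicClosure K)) le_rfl hy
  refine ⟨⟨z', hz'⟩, ⟨h2, h3⟩, glo_cl _ _ _ ?_⟩
  rw [← h4, ← map_nsmul, ← sub_eq_zero, ← map_sub] at he
  exact (QuotientAddGroup.eq_zero_iff _).1 he

omit [CharZero K] in
/-- The exchange of the factors on cycles. -/
private theorem glo_swap (z : Zc (Xv W₂ W₁) K) : ∃ z' : Zc (Xv W₁ W₂) K,
    z'.cy = Finsupp.mapDomain Prod.swap z.cy ∧ (Alb z → Alb z') := by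
  refine ⟨push (V := Xv W₂ W₁) (V' := Xv W₁ W₂) Prod.swap (fun _ _ => rfl) z, rfl, ?_⟩
  rintro ⟨h1, h2⟩
  constructor
  · have e : (p₁ (push (V := Xv W₂ W₁) (V' := Xv W₁ W₂) Prod.swap (fun _ _ => rfl) z)).cy =
        (p₂ z).cy :=
      (Finsupp.mapDomain_comp (f := Prod.swap) (g := Prod.fst) (v := z.cy)).symm
    rw [glo_sg, e]
    exact h2
  · have e : (p₂ (push (V := Xv W₂ W₁) (V' := Xv W₁ W₂) Prod.swap (fun _ _ => rfl) z)).cy =
        (p₁ z).cy :=
      (Finsupp.mapDomain_comp (f := Prod.swap) (g := Prod.snd) (v := z.cy)).symm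
    rw [glo_sg, e]
    exact h1

private theorem glo_ss {A B : Type} (u : A × B →₀ ℤ) :
    Finsupp.mapDomain (Prod.swap (α := B) (β := A)) (Finsupp.mapDomain Prod.swap u) = u := by
  rw [← Finsupp.mapDomain_comp, Prod.swap_swap_eq, Finsupp.mapDomain_id]

/-- The exchange of the factors. Proof: `swap_ratEq`. -/
theorem dv_swap (h : DvA K W₁ W₂) : DvA K W₂ W₁ := by
  intro n hn z hz
  obtain ⟨z₁, h1, h2⟩ := glo_swap z
  obtain ⟨z₂, h3, h4⟩ := h n hn z₁ (h2 hz)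
  obtain ⟨z₃, h5, h6⟩ := glo_swap z₂
  refine ⟨z₃, h6 h3, glo_cl _ _ _ ?_⟩
  have h7 := swap_ratEq (glo_cl' _ _ _ h4)
  have h8 : z.cy - n • z₃.cy = Finsupp.mapDomain Prod.swap (z₁.cy - n • z₂.cy) := by
    have e : ∀ a b : Pt W₁ (AlgebraicClosure K) × Pt W₂ (AlgebraicClosure K) →₀ ℤ,
        Finsupp.mapDomain (Prod.swap (α := Pt W₁ (AlgebraicClosure K))
          (β := Pt W₂ (AlgebraicClosure K))) (a - n • b) =
          Finsupp.mapDomain Prod.swap a - n • Finsupp.mapDomain Prod.swap b := by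
      intro a b
      have e1 := map_sub (Finsupp.mapDomain.addMonoidHom (M := ℤ)
        (Prod.swap (α := Pt W₁ (AlgebraicClosure K)) (β := Pt W₂ (AlgebraicClosure K)))) a (n • b)
      rw [map_nsmul] at e1
      exact e1
    refine Eq.trans ?_ (e z₁.cy z₂.cy).symm
    rw [h1, h5]
    congr 1
    exact (glo_ss z.cy).symm
  rw [h8]
  exact h7

/-- A field isomorphic to `ℝ`. Proof: `re_sc`, `scX_gen`. -/
theorem dv_re [W₁.IsElliptic] [W₂.IsElliptic] (e : K ≃+* ℝ)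
    (h : e (algebraMap F K W₁.Δ) < 0 ∨ e (algebraMap F K W₂.Δ) < 0) (z : Zc (Xv W₁ W₂) K)
    (hz : Alb z) : z.clN = 0 := by
  have h1 := scX_gen (K := K) (Ω := AlgebraicClosure K) (W₁ := W₁) (W₂ := W₂)
    ((Xv W₁ W₂).ratEq K (AlgebraicClosure K) ⊔ (Xv W₁ W₂).nrm K (AlgebraicClosure K)) le_sup_left
    (z := z.cy) z.2 hz.1 hz.2
  have h2 := re_sc (Ω := AlgebraicClosure K) e W₁ W₂ h _ h1
  have h3 := (QuotientAddGroup.eq_zero_iff _).1 h2
  have h4 : z.clN = Gb.clsH (Xv W₁ W₂) K 0 := by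
    refine Gb.cls_eq.2 ?_
    change z.cy - 0 ∈ _
    rw [sub_zero]
    exact h3
  rw [h4, map_zero]

end loc'

section nf

variable {F : Type} [Field F] [NumberField F] {W₁ W₂ : WeierstrassCurve F}

/-- Values in `ℤᵐ⁰`. -/
private theorem glo_val {v : HeightOneSpectrum (𝓞 F)} {x : F} (hx : x ≠ 0) :
    ∃ n : ℤ, v.valuation F x = WithZero.exp (-n) := by
  have h1 : v.valuation F x ≠ 0 := (Valuation.ne_zero_iff _).2 hx
  refine ⟨-(WithZero.log (v.valuation F x)), ?_⟩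
  rw [neg_neg, WithZero.exp_log h1]

/-- **The finite places.** Proof: `Δ_i ≠ 0`; `exists_ld` with the prime number `p` of `Lv.unr`; the norm of a number of `F` is a power of the norm of `p` (`0 ↦ 0`), so `Hd W₁`, `Gd W₂`; if `L.p = 2` then `v(2) > 0`. `Ld.loc` for `R = ratEq`, `dv_of`. -/
theorem dv_fin {v : HeightOneSpectrum (𝓞 F)} (h : Lv W₁ W₂ v) : DvA (FK F v) W₁ W₂ := by
  obtain ⟨p, hp, hpv⟩ := h.unr
  obtain ⟨L, hLu, hLp, hL⟩ := exists_ld F v p hp hpv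
  have hc : CharZero (FK F v) := charZero_of_injective_algebraMap (algebraMap F (FK F v)).injective
  have hp0 := L.p_pos
  have hp1 := L.lt
  have hle : ∀ x : F, v.valuation F x ≤ 1 → L.nm (algebraMap F _ x) ≤ 1 := by
    intro x hx
    by_cases h0 : x = 0
    · rw [h0, map_zero, L.zero]
      exact zero_le_one
    · obtain ⟨n, hn⟩ := glo_val (v := v) h0
      rw [hL x n hn]
      have h1 : 0 ≤ n := by
        rw [hn, ← WithZero.exp_zero, WithZero.exp_le_exp] at hx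
        omega
      obtain ⟨m, rfl⟩ := Int.eq_ofNat_of_zero_le h1
      rw [zpow_natCast]
      exact pow_le_one₀ hp0.le hp1.le
  have hlt : ∀ x : F, v.valuation F x < 1 → L.nm (algebraMap F _ x) < 1 := by
    intro x hx
    by_cases h0 : x = 0
    · rw [h0, map_zero, L.zero]
      exact zero_lt_one
    · obtain ⟨n, hn⟩ := glo_val (v := v) h0
      rw [hL x n hn]
      have h1 : 0 < n := by
        rw [hn, ← WithZero.exp_zero, WithZero.exp_lt_exp] at hx
        omega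
      obtain ⟨m, rfl⟩ := Int.eq_ofNat_of_zero_le h1.le
      rw [zpow_natCast]
      exact pow_lt_one₀ hp0.le hp1 (by omega)
  have hd1 : W₁.Δ ≠ 0 := by
    intro h0
    have h1 := h.d₁
    rw [h0, map_zero, le_zero_iff] at h1
    exact WithZero.exp_ne_zero h1
  have hd2 : W₂.Δ ≠ 0 := by
    intro h0
    have h1 := h.d₂
    rw [h0, map_zero] at h1
    exact zero_ne_one h1
  have he1 : W₁.IsElliptic := ⟨isUnit_iff_ne_zero.2 hd1⟩
  have he2 : W₂.IsElliptic := ⟨isUnit_iff_ne_zero.2 hd2⟩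
  have hi1 : L.Hd W₁ :=
    { a₁ := hle _ h.i₁.1
      a₂ := hle _ h.i₁.2.1
      a₃ := hle _ h.i₁.2.2.1
      a₄ := hle _ h.i₁.2.2.2.1
      a₆ := hle _ h.i₁.2.2.2.2
      disc := by
        obtain ⟨n, hn⟩ := glo_val (v := v) hd1
        have h1 := h.d₁
        rw [hn, WithZero.exp_le_exp] at h1
        rw [hL _ n hn]
        calc L.nm (L.p : AlgebraicClosure (FK F v)) = L.nm (L.p : AlgebraicClosure (FK F v)) ^ (1 : ℤ) :=
              (zpow_one _).symm
          _ ≤ _ := (zpow_le_zpow_iff_right_of_lt_one₀ hp0 hp1).2 (by omega) }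
  have hi2 : L.Gd W₂ :=
    { a₁ := hle _ h.i₂.1
      a₂ := hle _ h.i₂.2.1
      a₃ := hle _ h.i₂.2.2.1
      a₄ := hle _ h.i₂.2.2.2.1
      a₆ := hle _ h.i₂.2.2.2.2
      disc := by
        have h1 : v.valuation F W₂.Δ = WithZero.exp (-0 : ℤ) := by
          rw [h.d₂, neg_zero, WithZero.exp_zero]
        rw [hL _ 0 h1, zpow_zero] }
  refine dv_of fun n hn => Ld.loc (L := L) _ le_rfl hi1 hi2 ?_ n hn
  intro h2
  refine hlt _ (h.ss ?_)
  rw [← hLp, h2] at hpv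
  rw [Nat.cast_ofNat] at hpv
  rw [hpv, ← WithZero.exp_zero, WithZero.exp_lt_exp]
  omega

/-- The Albanese kernel of the families is divisible. -/
theorem fam_dv (hf : ∀ v : HeightOneSpectrum (𝓞 F), DvA (FK F v) W₁ W₂)
    (hi : ∀ (v : InfinitePlace F) (z : Zc (Xv W₁ W₂) (IK F v)), Alb z → z.clN = 0) (n : ℕ)
    (hn : n ≠ 0) (c : Fam (Xv W₁ W₂)) (hc : AlbA c) :
    ∃ c' : Fam (Xv W₁ W₂), AlbA c' ∧ c.cl = n • c'.cl := by
  have h1 : ∀ v, ∃ z' : Zc (Xv W₁ W₂) (FK F v), Alb z' ∧ (c.f v).cl = n • z'.cl :=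
    fun v => hf v n hn (c.f v) (hc.1 v)
  choose g hg using h1
  refine ⟨(g, fun v => (0 : Dz (Xv W₁ W₂) (IK F v))), ⟨fun v => (hg v).1, fun v => glo_alb_zero⟩,
    Prod.ext (funext fun v => (hg v).2) (funext fun v => ?_)⟩
  change (c.i v).clN = n • (Gb.clsH (Xv W₁ W₂) (IK F v) 0)
  rw [hi v (c.i v) (hc.2 v), map_zero, smul_zero]

/-- **The completed statement.** Proof: let `i₁`, `i₂` be the push-forwards by `P ↦ (P, 0)`, `Q ↦ (0, Q)` on cycles of degree `0` and on families (`inl_ratEq`, `inl_nrm`, ..., `Gp.map`, `Gb.map` in `Be/HatA.lean`; compare `Be/Hat.lean`). For a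
family `c` the family `c - i₁ p₁ c - i₂ p₂ c` is in the Albanese kernel, so its class is divisible by all `m` (`fam_dv`). Let `x_i` be as in `ImDe z_i`, represented modulo `m` by `b_i`, with the family of base changes `b_i'`; `x = i₁ x₁ + i₂ x₂` (`LHat.map`, addition) is represented by
`i₁ b₁ + i₂ b₂`, its family of base changes is `i₁ b₁' + i₂ b₂'` (base change commutes with `i₁`, `i₂`), and represents `z` modulo `m`: if `c` represents `z` modulo `m` then
`c ≡ i₁ p₁ c + i₂ p₂ c ≡ i₁ b₁' + i₂ b₂'` modulo `m`. -/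
theorem hatX (hf : ∀ v : HeightOneSpectrum (𝓞 F), DvA (FK F v) W₁ W₂)
    (hi : ∀ (v : InfinitePlace F) (z : Zc (Xv W₁ W₂) (IK F v)), Alb z → z.clN = 0)
    (z : LHat (FA (Xv W₁ W₂))) (z₁ : LHat (FA (Ev W₁))) (z₂ : LHat (FA (Ev W₂)))
    (h₁ : Is₁ z z₁) (h₂ : Is₂ z z₂) (h₁' : ImDe z₁) (h₂' : ImDe z₂) : ImDe z := by
  refine glo_hat (fun n hn c hc => ?_) z z₁ z₂ (fun m c h => h₁ m c h) (fun m c h => h₂ m c h)
    h₁' h₂'
  obtain ⟨c', -, hc'⟩ := fam_dv hf hi n hn c hc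
  exact ⟨c', hc'⟩

end nf

/-- The local conditions for integral equations. Proof: let `v` lie over the prime number `p`, `v(n) = exp(- v_p(n))` for integers. `p = 2`: the curve with `a₁` even, `a₃` odd has an odd discriminant; it is `W₂`. `p` odd: `p² ∤ Δ(A) Δ(B)`, so one of the discriminants is prime to `p`: it is `W₂`. -/
theorem ok_lv {A B : WeierstrassCurve ℤ} (h : Ok A B) (v : HeightOneSpectrum (𝓞 ℚ)) :
    Lv (toQ A) (toQ B) v ∨ Lv (toQ B) (toQ A) v := by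
  exact glv_ok h v

private theorem okinf_disc (A : WeierstrassCurve ℤ) : (toQ A).Δ = (A.Δ : ℚ) := by
  unfold toQ
  rw [WeierstrassCurve.baseChange, WeierstrassCurve.map_Δ]
  rfl

private theorem okinf_ell {A : WeierstrassCurve ℤ} (h : A.Δ ≠ 0) : (toQ A).IsElliptic := by
  rw [WeierstrassCurve.isElliptic_iff, okinf_disc]
  exact (Int.cast_ne_zero.2 h).isUnit

private theorem okinf_neg {v : InfinitePlace ℚ} (e : IK ℚ v ≃+* ℝ) {A : WeierstrassCurve ℤ}
    (h : A.Δ < 0) : e (algebraMap ℚ (IK ℚ v) (toQ A).Δ) < 0 := by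
  have h1 : ((e : IK ℚ v →+* ℝ).comp (algebraMap ℚ (IK ℚ v))) (toQ A).Δ =
      ((toQ A).Δ : ℝ) := by
    rw [eq_ratCast]
  have h2 : e (algebraMap ℚ (IK ℚ v) (toQ A).Δ) = ((toQ A).Δ : ℝ) := h1
  rw [h2, okinf_disc, Rat.cast_intCast]
  exact_mod_cast h

/-- The infinite place of `ℚ`. Proof: `dv_re`, `InfinitePlace.Completion.ringEquivRealOfIsReal`. -/
theorem ok_inf {A B : WeierstrassCurve ℤ} (h : Ok A B) (v : InfinitePlace ℚ)
    (z : Zc (Xv (toQ A) (toQ B)) (IK ℚ v)) (hz : Alb z) : z.clN = 0 := by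
  have hv : v.IsReal := by
    rw [Subsingleton.elim v Rat.infinitePlace]
    exact Rat.isReal_infinitePlace
  have hne := h.sf.ne_zero
  have hA : (toQ A).IsElliptic := okinf_ell (left_ne_zero_of_mul hne)
  have hB : (toQ B).IsElliptic := okinf_ell (right_ne_zero_of_mul hne)
  obtain ⟨e⟩ : Nonempty (IK ℚ v ≃+* ℝ) := ⟨InfinitePlace.Completion.ringEquivRealOfIsReal hv⟩
  exact dv_re e (h.neg.imp (okinf_neg e) (okinf_neg e)) z hz

end PE
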