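import Pool.Agent.Lib.MP_f80667_ag.Pe.St
import Pool.Agent.Lib.MP_f80667_ag.Pe.Tr
import Pool.Agent.Lib.MP_f80667_ag.Fa.Adl

/-! The push-forward of elements in the image of `Δ`: the proof. -/

open ZC BE Polynomial IntermediateField IsDedekindDomain NumberField

namespace PE

section grp

variable {F : Type} [Field F] {V V' : Vr F} {K : Type} [Field K] [Algebra F K]

/-- The map of groups of classes. -/
noncomputable def gbMap (φ : Dz V K →+ Dz V' K)
    (h : ∀ c : Dz V K, c.1 ∈ V.ratEq K (AlgebraicClosure K) →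
      (φ c).1 ∈ V'.ratEq K (AlgebraicClosure K)) : Gp V K →+ Gp V' K :=
  QuotientAddGroup.map _ _ φ fun c hc => h c hc

theorem gb_map_cls (φ : Dz V K →+ Dz V' K) (h) (c : Zc V K) (c' : Zc V' K)
    (hc : (c' : Dz V' K) = φ (c : Dz V K)) : gbMap φ h c.cl = c'.cl := by
  subst hc
  rfl

end grp

section psh

variable {F : Type} [Field F] {K : Type} [Field K] [Algebra F K] {W₁ W₂ : WeierstrassCurve F}

variable (W₁ W₂ K) in
/-- The push-forward to `E₁` as a homomorphism. -/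
noncomputable def gbP₁ : Dz (Xv W₁ W₂) K →+ Dz (Ev W₁) K where
  toFun z := p₁ z
  map_zero' := Subtype.ext (Finsupp.mapDomain_zero
    (f := (Prod.fst : Pt W₁ (AlgebraicClosure K) × Pt W₂ (AlgebraicClosure K) → _)))
  map_add' _ _ := Subtype.ext Finsupp.mapDomain_add

variable (W₁ W₂ K) in
/-- The push-forward to `E₂` as a homomorphism. -/
noncomputable def gbP₂ : Dz (Xv W₁ W₂) K →+ Dz (Ev W₂) K where
  toFun z := p₂ z
  map_zero' := Subtype.ext (Finsupp.mapDomain_zero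
    (f := (Prod.snd : Pt W₁ (AlgebraicClosure K) × Pt W₂ (AlgebraicClosure K) → _)))
  map_add' _ _ := Subtype.ext Finsupp.mapDomain_add

variable (K) in
/-- The push-forward to `E₁` commutes with base change. -/
theorem gb_bc₁ (z : Zc (Xv W₁ W₂) F) : bc K (p₁ z).cy = Finsupp.mapDomain Prod.fst (bc K z.cy) := by
  change Finsupp.mapDomain ((Ev W₁).map (BE.emb F K)) (Finsupp.mapDomain Prod.fst z.cy) =
    Finsupp.mapDomain Prod.fst (Finsupp.mapDomain ((Xv W₁ W₂).map (BE.emb F K)) z.cy)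
  rw [← Finsupp.mapDomain_comp, ← Finsupp.mapDomain_comp]
  rfl

variable (K) in
/-- The push-forward to `E₂` commutes with base change. -/
theorem gb_bc₂ (z : Zc (Xv W₁ W₂) F) : bc K (p₂ z).cy = Finsupp.mapDomain Prod.snd (bc K z.cy) := by
  change Finsupp.mapDomain ((Ev W₂).map (BE.emb F K)) (Finsupp.mapDomain Prod.snd z.cy) =
    Finsupp.mapDomain Prod.snd (Finsupp.mapDomain ((Xv W₁ W₂).map (BE.emb F K)) z.cy)
  rw [← Finsupp.mapDomain_comp, ← Finsupp.mapDomain_comp]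
  rfl

end psh

section nf

variable {F : Type} [Field F] [NumberField F] {W₁ W₂ : WeierstrassCurve F}

theorem imDeA₁ {z : LHat (FA (Xv W₁ W₂))} {z₁ : LHat (FA (Ev W₁))} (h₁ : Is₁ z z₁) (h : ImDe z) :
    ImDe z₁ := by
  obtain ⟨x, hx⟩ := h
  refine ⟨LHat.map (gbMap (gbP₁ F W₁ W₂) fun _ h => fst_ratEq h) x, fun m => ?_⟩
  obtain ⟨c, c', hbc, hc, hc'⟩ := hx m
  refine ⟨p₁ c, pA₁ c', ⟨fun v => ?_, fun v => ?_⟩, ?_, h₁ m c' hc'⟩
  · rw [gb_bc₁]
    change Finsupp.mapDomain Prod.fst (c'.f v).cy = _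
    rw [hbc.1 v]
  · rw [gb_bc₁]
    change Finsupp.mapDomain Prod.fst (c'.i v).cy = _
    rw [hbc.2 v]
  · have h1 := hc.map (gbMap (gbP₁ F W₁ W₂) fun _ h => fst_ratEq h)
    rw [gb_map_cls _ _ c (p₁ c) rfl] at h1
    exact h1

theorem imDeA₂ {z : LHat (FA (Xv W₁ W₂))} {z₂ : LHat (FA (Ev W₂))} (h₂ : Is₂ z z₂) (h : ImDe z) :
    ImDe z₂ := by
  obtain ⟨x, hx⟩ := h
  refine ⟨LHat.map (gbMap (gbP₂ F W₁ W₂) fun _ h => snd_ratEq h) x, fun m => ?_⟩
  obtain ⟨c, c', hbc, hc, hc'⟩ := hx m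
  refine ⟨p₂ c, pA₂ c', ⟨fun v => ?_, fun v => ?_⟩, ?_, h₂ m c' hc'⟩
  · rw [gb_bc₂]
    change Finsupp.mapDomain Prod.snd (c'.f v).cy = _
    rw [hbc.1 v]
  · rw [gb_bc₂]
    change Finsupp.mapDomain Prod.snd (c'.i v).cy = _
    rw [hbc.2 v]
  · have h1 := hc.map (gbMap (gbP₂ F W₁ W₂) fun _ h => snd_ratEq h)
    rw [gb_map_cls _ _ c (p₂ c) rfl] at h1
    exact h1

end nf

end PE
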