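import Pool.Agent.Lib.MP_f80667_ag.Pe.Hh
import Pool.Agent.Lib.MP_f80667_ag.Pe.Ap

/-!
Curves with multiplicative reduction: the coordinates `u`, `v` at the node and the levels of the points
with singular reduction.
-/

open ZC BE Polynomial IntermediateField

namespace PE

/-- The coordinate `u = (y - y₀) - α (x - x₀)`. -/
def nu {Ω : Type} [Field Ω] (x₀ y₀ α x y : Ω) : Ω := (y - y₀) - α * (x - x₀)

namespace Ld

variable {F : Type} [Field F] {K Ω : Type} [Field K] [CharZero K] [Field Ω] [Algebra K Ω]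
  [Algebra F K] [Algebra F Ω] [IsScalarTower F K Ω] [IsAlgClosure K Ω]

/-- Multiplicative reduction. -/
structure Md (L : Ld K Ω) (W : WeierstrassCurve F) : Prop extends L.It W where
  disc : L.nm (algebraMap F Ω W.Δ) < 1
  c₄ : L.nm (algebraMap F Ω W.c₄) = 1

/-- `(x₀, y₀)` is a critical point of the equation, congruent to the node; `α`, `β` are the slopes of the tangents. -/
structure Nc (L : Ld K Ω) (W : WeierstrassCurve F) (x₀ y₀ α β : Ω) : Prop where
  x_le : L.nm x₀ ≤ 1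
  y_le : L.nm y₀ ≤ 1
  α_le : L.nm α ≤ 1
  β_le : L.nm β ≤ 1
  dx : dx W x₀ y₀ = 0
  dy : dy W x₀ y₀ = 0
  add : α + β = -algebraMap F Ω W.a₁
  mul : α * β = -(algebraMap F Ω W.a₂ + 3 * x₀)
  ne : L.nm (α - β) = 1
  fe : L.nm (fe W x₀ y₀) < 1

/-- The critical point and the slopes are in `K`. -/
structure Nk (L : Ld K Ω) (W : WeierstrassCurve F) (x₀ y₀ α β : Ω) : Prop
    extends L.Nc W x₀ y₀ α β where
  x_mem : x₀ ∈ (⊥ : IntermediateField K Ω)
  y_mem : y₀ ∈ (⊥ : IntermediateField K Ω)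
  α_mem : α ∈ (⊥ : IntermediateField K Ω)
  β_mem : β ∈ (⊥ : IntermediateField K Ω)

/-- Split multiplicative reduction. -/
structure Ms (L : Ld K Ω) (W : WeierstrassCurve F) : Prop extends L.Md W where
  sp : ∃ x₀ y₀ α β : Ω, L.Nk W x₀ y₀ α β

/-- Good or split multiplicative reduction. -/
def Gs (L : Ld K Ω) (W : WeierstrassCurve F) : Prop := L.Gd W ∨ L.Ms W

/-- The level of a point with singular reduction (`nm v ≤ nm u = r`). -/
def La (L : Ld K Ω) (W : WeierstrassCurve F) (x₀ y₀ α β : Ω) (r : ℝ) (P : Pt W Ω) : Prop :=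
  ∃ (x y : Ω) (hP : (W.baseChange Ω).toAffine.Nonsingular x y), P = Pt.aff x y hP ∧ L.nm x ≤ 1 ∧
    r < 1 ∧ L.nm (nu x₀ y₀ α x y) = r ∧ L.nm (nu x₀ y₀ β x y) ≤ r

variable {L : Ld K Ω} {W : WeierstrassCurve F} {x₀ y₀ α β : Ω}

theorem Gs.it (h : L.Gs W) : L.It W := h.elim (fun h => h.toIt) fun h => h.toIt

omit [CharZero K] [Algebra F K] [IsScalarTower F K Ω] [IsAlgClosure K Ω] in
/-- The norm of a sum. -/
private theorem exnc_add_le {x y : Ω} {r : ℝ} (hx : L.nm x ≤ r) (hy : L.nm y ≤ r) :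
    L.nm (x + y) ≤ r :=
  (L.add x y).trans (max_le hx hy)

omit [CharZero K] [Algebra F K] [IsScalarTower F K Ω] [IsAlgClosure K Ω] in
/-- The norm of a difference. -/
private theorem exnc_sub_le {x y : Ω} {r : ℝ} (hx : L.nm x ≤ r) (hy : L.nm y ≤ r) :
    L.nm (x - y) ≤ r := by
  rw [sub_eq_add_neg]
  exact exnc_add_le hx (by rw [L.neg]; exact hy)

omit [CharZero K] [Algebra F K] [IsScalarTower F K Ω] [IsAlgClosure K Ω] in
/-- The norm of a sum of small elements. -/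
private theorem exnc_add_lt {x y : Ω} {r : ℝ} (hx : L.nm x < r) (hy : L.nm y < r) :
    L.nm (x + y) < r :=
  (L.add x y).trans_lt (max_lt hx hy)

omit [CharZero K] [Algebra F K] [IsScalarTower F K Ω] [IsAlgClosure K Ω] in
/-- Numerals are integral. -/
private theorem exnc_num (n : ℕ) [n.AtLeastTwo] : L.nm (OfNat.ofNat n : Ω) ≤ 1 := by
  rw [← Nat.cast_ofNat]
  exact L.nat_le _

omit [CharZero K] [Algebra F K] [IsScalarTower F K Ω] [IsAlgClosure K Ω] in
/-- The norm of a product. -/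
private theorem exnc_mul {x y : Ω} {r : ℝ} (hx : L.nm x ≤ 1) (hy : L.nm y ≤ r) :
    L.nm (x * y) ≤ r := by
  rw [L.mul]
  exact (mul_le_mul_of_nonneg_right hx (L.nonneg y)).trans (by rw [one_mul]; exact hy)

omit [CharZero K] [Algebra F K] [IsScalarTower F K Ω] [IsAlgClosure K Ω] in
/-- The residue of the discriminant. -/
private theorem exnc_dis (h : L.It W) : L.rs.Hv (algebraMap F Ω W.Δ) (L.rc W).Δ := by
  have h1 := L.hv_rr h.a₁
  have h2 := L.hv_rr h.a₂
  have h3 := L.hv_rr h.a₃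
  have h4 := L.hv_rr h.a₄
  have h6 := L.hv_rr h.a₆
  have n2 := Rs.Hv.nat (w := L.rs) 2
  have n4 := Rs.Hv.nat (w := L.rs) 4
  have n8 := Rs.Hv.nat (w := L.rs) 8
  have n9 := Rs.Hv.nat (w := L.rs) 9
  have n27 := Rs.Hv.nat (w := L.rs) 27
  rw [Nat.cast_ofNat, Nat.cast_ofNat] at n2 n4 n8 n9 n27
  have b2 := (h1.pow 2).add (n4.mul h2)
  have b4 := (n2.mul h4).add (h1.mul h3)
  have b6 := (h3.pow 2).add (n4.mul h6)
  have b8 := (((((h1.pow 2).mul h6).add ((n4.mul h2).mul h6)).sub ((h1.mul h3).mul h4)).add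
    (h2.mul (h3.pow 2))).sub (h4.pow 2)
  have d := (((((b2.pow 2).neg).mul b8).sub (n8.mul (b4.pow 3))).sub (n27.mul (b6.pow 2))).add
    (((n9.mul b2).mul b4).mul b6)
  simp only [WeierstrassCurve.Δ, WeierstrassCurve.b₂, WeierstrassCurve.b₄, WeierstrassCurve.b₆,
    WeierstrassCurve.b₈, map_add, map_sub, map_mul, map_pow, map_ofNat, map_neg]
  exact d

omit [CharZero K] [Algebra F K] [IsScalarTower F K Ω] [IsAlgClosure K Ω] in
/-- `c₄` of the translated curve. -/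
private theorem exnc_c4 (x y : Ω) : algebraMap F Ω W.c₄ =
    (algebraMap F Ω W.a₁ ^ 2 + 4 * (algebraMap F Ω W.a₂ + 3 * x)) ^ 2 -
      24 * (2 * dx W x y + algebraMap F Ω W.a₁ * dy W x y) := by
  unfold dx dy
  simp only [WeierstrassCurve.c₄, WeierstrassCurve.b₂, WeierstrassCurve.b₄, map_add, map_sub,
    map_mul, map_pow, map_ofNat]
  ring

omit [CharZero K] [Algebra F K] [IsScalarTower F K Ω] in
/-- A quadratic polynomial with a small root. -/
private theorem exnc_root {a b c : Ω} (ha : a ≠ 0) (hb : L.nm b = 1)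
    (hc : L.nm c < 1) : ∃ X : Ω, a * X ^ 2 + b * X + c = 0 ∧ L.nm X < 1 := by
  have hac : IsAlgClosed Ω := IsAlgClosure.isAlgClosed K
  obtain ⟨X, hX⟩ := IsAlgClosed.exists_root (Polynomial.C a * Polynomial.X ^ 2 +
    Polynomial.C b * Polynomial.X + Polynomial.C c)
    (by rw [Polynomial.degree_quadratic ha]; decide)
  rw [Polynomial.IsRoot.def] at hX
  simp only [Polynomial.eval_add, Polynomial.eval_mul, Polynomial.eval_C, Polynomial.eval_pow,
    Polynomial.eval_X] at hX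
  by_cases h1 : L.nm X < 1
  · exact ⟨X, hX, h1⟩
  rw [not_lt] at h1
  have hb0 : b ≠ 0 := L.ne_zero (by rw [hb]; exact zero_lt_one)
  have hX0 : X ≠ 0 := L.ne_zero (zero_lt_one.trans_le h1)
  have hY : a * (-(b / a) - X) ^ 2 + b * (-(b / a) - X) + c = 0 := by
    have h2 : a * (-(b / a) - X) ^ 2 + b * (-(b / a) - X) = a * X ^ 2 + b * X := by
      field_simp
      ring
    rw [h2, hX]
  refine ⟨_, hY, ?_⟩
  have h3 : a * X * (-(b / a) - X) = c := by
    have h4 : a * X * (-(b / a) - X) = -(a * X ^ 2 + b * X) := by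
      field_simp
      ring
    rw [h4]
    linear_combination -hX
  have h5 : L.nm (a * X) = 1 := by
    have h6 : (a * X + b) * X = -c := by linear_combination hX
    have h7 := congrArg L.nm h6
    rw [L.mul, L.neg] at h7
    have h8 : L.nm (a * X - (-b)) < L.nm (-b) := by
      rw [L.neg, hb, sub_neg_eq_add]
      by_contra h9
      rw [not_lt] at h9
      have h10 : 1 ≤ L.nm (a * X + b) * L.nm X := one_le_mul_of_one_le_of_one_le h9 h1
      rw [h7] at h10
      exact absurd hc (not_lt.2 h10)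
    rw [L.eq_of_close h8, L.neg, hb]
  have h11 := congrArg L.nm h3
  rw [L.mul, h5, one_mul] at h11
  rw [h11]
  exact hc

omit [CharZero K] [Algebra F K] [IsScalarTower F K Ω] in
/-- The roots of a monic quadratic polynomial with integral coefficients. -/
private theorem exnc_roots {a b : Ω} (ha : L.nm a ≤ 1) (hb : L.nm b ≤ 1) :
    ∃ α β : Ω, α + β = -a ∧ α * β = b ∧ L.nm α ≤ 1 ∧ L.nm β ≤ 1 := by
  have hac : IsAlgClosed Ω := IsAlgClosure.isAlgClosed K
  obtain ⟨α, hα⟩ := IsAlgClosed.exists_root (Polynomial.C (1 : Ω) * Polynomial.X ^ 2 +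
    Polynomial.C a * Polynomial.X + Polynomial.C b)
    (by rw [Polynomial.degree_quadratic one_ne_zero]; decide)
  rw [Polynomial.IsRoot.def] at hα
  simp only [Polynomial.eval_add, Polynomial.eval_mul, Polynomial.eval_C, Polynomial.eval_pow,
    Polynomial.eval_X, one_mul] at hα
  have h1 : L.nm α ≤ 1 := by
    by_contra h2
    rw [not_le] at h2
    have h3 : α * α = -(a * α + b) := by linear_combination hα
    have h4 := congrArg L.nm h3
    rw [L.neg, L.mul] at h4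
    have h5 : L.nm (a * α + b) ≤ L.nm α :=
      exnc_add_le (exnc_mul ha le_rfl) (hb.trans h2.le)
    rw [← h4] at h5
    have h6 : L.nm α * 1 < L.nm α * L.nm α := mul_lt_mul_of_pos_left h2 (zero_lt_one.trans h2)
    rw [mul_one] at h6
    exact absurd h5 (not_le.2 h6)
  refine ⟨α, -a - α, by ring, by linear_combination -hα, h1, ?_⟩
  exact exnc_sub_le (by rw [L.neg]; exact ha) h1

/-- Proof: `exists_sg` for `L.rc W` (its discriminant is `0`): a singular point with a representative `(x₁, y₁)`. For the curve translated by it: `nm b₄' < 1`, `nm b₂' = 1` (`c₄ = b₂'² - 24 b₄'`). The quadratic polynomial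
`6 X² + b₂' X + b₄'` has a root with `nm X < 1` (the sum of the roots is `- b₂' / 6`, the product `b₄' / 6`); `x₀ = x₁ + X` satisfies `6 x₀² + b₂ x₀ + b₄ = 0`; `y₀ = (3 x₀² + 2 a₂ x₀ + a₄) / a₁` if `a₁ ≠ 0`, `- a₃ / 2` otherwise; use
`6 x² + b₂ x + b₄ = 2 (3 x² + 2 a₂ x + a₄ - a₁ y) + a₁ (2 y + a₁ x + a₃)`. `y₀ ≡ y₁`: `a₁` or `2` is a unit. `α`, `β` are the roots of `T² + a₁ T - (a₂ + 3 x₀)`; `(α - β)² = a₁² + 4 (a₂ + 3 x₀) = b₂ + 12 x₀` and `c₄ = (b₂ + 12 x₀)²` (`6 x₀² + b₂ x₀ + b₄ = 0`). -/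
theorem exists_nc (h : L.Md W) : ∃ x₀ y₀ α β : Ω, L.Nc W x₀ y₀ α β := by
  have hac : IsAlgClosed Ω := IsAlgClosure.isAlgClosed K
  have hcz : CharZero Ω := charZero_of_injective_algebraMap (algebraMap K Ω).injective
  have hκ : IsAlgClosed L.κ := L.κ_closed
  have hΔ : (L.rc W).Δ = 0 := (exnc_dis h.toIt).uniq (L.hv_zero.2 h.disc)
  obtain ⟨r, s, hg⟩ := exists_sg (L.rc W) hΔ
  obtain ⟨x₁, hx⟩ := L.hv_surj r
  obtain ⟨y₁, hy⟩ := L.hv_surj s
  have hx1 : L.nm x₁ ≤ 1 := L.hv_int hx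
  have hy1 : L.nm y₁ ≤ 1 := L.hv_int hy
  have f2 : L.nm (dx W x₁ y₁) < 1 := by
    have h1 := lifta_dx h.toIt hx hy
    rw [show 3 * r ^ 2 + 2 * (L.rc W).a₂ * r + (L.rc W).a₄ - (L.rc W).a₁ * s = 0 from
        sub_eq_zero.2 hg.dx.symm] at h1
    exact L.hv_zero.1 h1
  have f3 : L.nm (dy W x₁ y₁) < 1 := by
    have h1 := lifta_dy h.toIt hx hy
    rw [hg.dy] at h1
    exact L.hv_zero.1 h1
  have hlt : ∀ {u v : Ω}, L.nm u ≤ 1 → L.nm v < 1 → L.nm (u * v) < 1 := by
    intro u v hu hv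
    exact (exnc_mul hu le_rfl).trans_lt hv
  have hb4 : L.nm (2 * dx W x₁ y₁ + algebraMap F Ω W.a₁ * dy W x₁ y₁) < 1 :=
    exnc_add_lt (hlt (exnc_num 2) f2) (hlt h.a₁ f3)
  have hb2 : L.nm (algebraMap F Ω W.a₁ ^ 2 + 4 * (algebraMap F Ω W.a₂ + 3 * x₁)) = 1 := by
    have h1 := exnc_c4 (W := W) x₁ y₁
    have h2 : L.nm ((algebraMap F Ω W.a₁ ^ 2 + 4 * (algebraMap F Ω W.a₂ + 3 * x₁)) ^ 2 -
        algebraMap F Ω W.c₄) < L.nm (algebraMap F Ω W.c₄) := by
      rw [h.c₄, h1, sub_sub_cancel]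
      exact hlt (exnc_num 24) hb4
    have h3 := L.eq_of_close h2
    rw [h.c₄, L.pow] at h3
    exact (pow_eq_one_iff_of_nonneg (L.nonneg _) two_ne_zero).1 h3
  obtain ⟨X, hX, hX1⟩ := exnc_root (L := L) (a := 6)
    (b := algebraMap F Ω W.a₁ ^ 2 + 4 * (algebraMap F Ω W.a₂ + 3 * x₁))
    (c := 2 * dx W x₁ y₁ + algebraMap F Ω W.a₁ * dy W x₁ y₁) (by norm_num) hb2 hb4
  have hdy0 : dy W (x₁ + X) (-(algebraMap F Ω W.a₁ * (x₁ + X) + algebraMap F Ω W.a₃) / 2) = 0 := by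
    unfold dy
    ring
  have hdx0 : dx W (x₁ + X) (-(algebraMap F Ω W.a₁ * (x₁ + X) + algebraMap F Ω W.a₃) / 2) = 0 := by
    have h1 : (2 : Ω) ≠ 0 := two_ne_zero
    have h2 : 2 * dx W (x₁ + X)
        (-(algebraMap F Ω W.a₁ * (x₁ + X) + algebraMap F Ω W.a₃) / 2) = 0 := by
      have h3 : ∀ z : Ω, 2 * dx W (x₁ + X) z + algebraMap F Ω W.a₁ * dy W (x₁ + X) z =
          6 * X ^ 2 + (algebraMap F Ω W.a₁ ^ 2 + 4 * (algebraMap F Ω W.a₂ + 3 * x₁)) * X +
            (2 * dx W x₁ y₁ + algebraMap F Ω W.a₁ * dy W x₁ y₁) := by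
        intro z
        unfold dx dy
        ring
      have h4 := h3 (-(algebraMap F Ω W.a₁ * (x₁ + X) + algebraMap F Ω W.a₃) / 2)
      rwa [hdy0, mul_zero, add_zero, hX] at h4
    exact (mul_eq_zero.1 h2).resolve_left h1
  have hidy : ∀ x y x' y' : Ω, dy W x y - dy W x' y' =
      2 * (y - y') + algebraMap F Ω W.a₁ * (x - x') := by
    intro x y x' y'
    unfold dy
    ring
  have hidx : ∀ x y x' y' : Ω, dx W x y - dx W x' y' =
      (3 * (x + x') + 2 * algebraMap F Ω W.a₂) * (x - x') - algebraMap F Ω W.a₁ * (y - y') := by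
    intro x y x' y'
    unfold dx
    ring
  set x₀ := x₁ + X with hx₀
  set y₀ := -(algebraMap F Ω W.a₁ * x₀ + algebraMap F Ω W.a₃) / 2 with hy₀
  have hxx : L.nm (x₀ - x₁) < 1 := by
    rw [hx₀, add_sub_cancel_left]
    exact hX1
  have hyy : L.nm (y₀ - y₁) < 1 := by
    have h1 : 2 * (y₀ - y₁) = -(algebraMap F Ω W.a₁ * (x₀ - x₁) + dy W x₁ y₁) := by
      have h2 := hidy x₀ y₀ x₁ y₁
      rw [hdy0] at h2
      linear_combination -h2
    have h3 : algebraMap F Ω W.a₁ * (y₀ - y₁) =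
        (3 * (x₀ + x₁) + 2 * algebraMap F Ω W.a₂) * (x₀ - x₁) + dx W x₁ y₁ := by
      have h4 := hidx x₀ y₀ x₁ y₁
      rw [hdx0] at h4
      linear_combination h4
    have hx0 : L.nm x₀ ≤ 1 := by
      rw [hx₀]
      exact exnc_add_le hx1 hX1.le
    have h5 : L.nm (2 * (y₀ - y₁)) < 1 := by
      rw [h1, L.neg]
      exact exnc_add_lt (hlt h.a₁ hxx) f3
    have h6 : L.nm (algebraMap F Ω W.a₁ * (y₀ - y₁)) < 1 := by
      rw [h3]
      refine exnc_add_lt (hlt ?_ hxx) f2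
      exact exnc_add_le (exnc_mul (exnc_num 3) (exnc_add_le hx0 hx1)) (exnc_mul (exnc_num 2) h.a₂)
    by_cases h7 : L.nm (algebraMap F Ω W.a₁) = 1
    · rwa [L.mul, h7, one_mul] at h6
    · have h8 : L.nm (2 : Ω) = 1 := by
        by_contra h9
        have h10 : L.nm (algebraMap F Ω W.a₁) < 1 := lt_of_le_of_ne h.a₁ h7
        have h11 : L.nm (2 : Ω) < 1 := lt_of_le_of_ne (exnc_num 2) h9
        have h12 : L.nm (algebraMap F Ω W.a₁ ^ 2 + 4 * (algebraMap F Ω W.a₂ + 3 * x₁)) < 1 := by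
          refine exnc_add_lt ?_ ?_
          · rw [sq]
            exact hlt h.a₁ h10
          · rw [show (4 : Ω) * (algebraMap F Ω W.a₂ + 3 * x₁) =
              (2 * (algebraMap F Ω W.a₂ + 3 * x₁)) * 2 by ring]
            exact hlt (exnc_mul (exnc_num 2) (exnc_add_le h.a₂ (exnc_mul (exnc_num 3) hx1))) h11
        exact h12.ne hb2
      rwa [L.mul, h8, one_mul] at h5
  have hx0 : L.nm x₀ ≤ 1 := by
    rw [hx₀]
    exact exnc_add_le hx1 hX1.le
  have hy0 : L.nm y₀ ≤ 1 := by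
    have h1 := exnc_add_le hyy.le hy1
    rwa [sub_add_cancel] at h1
  obtain ⟨α, β, hadd, hmul, hα, hβ⟩ := exnc_roots (L := L) (a := algebraMap F Ω W.a₁)
    (b := -(algebraMap F Ω W.a₂ + 3 * x₀)) h.a₁
    (by rw [L.neg]; exact exnc_add_le h.a₂ (exnc_mul (exnc_num 3) hx0))
  refine ⟨x₀, y₀, α, β, hx0, hy0, hα, hβ, hdx0, hdy0, hadd, hmul, ?_, ?_⟩
  · have h1 : (α - β) ^ 2 = algebraMap F Ω W.a₁ ^ 2 + 4 * (algebraMap F Ω W.a₂ + 3 * x₁) +
        12 * X := by
      have h2 : (α - β) ^ 2 = (α + β) ^ 2 - 4 * (α * β) := by ring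
      rw [h2, hadd, hmul, hx₀]
      ring
    have h3 := congrArg L.nm h1
    rw [L.pow] at h3
    have h4 : L.nm (algebraMap F Ω W.a₁ ^ 2 + 4 * (algebraMap F Ω W.a₂ + 3 * x₁) + 12 * X) = 1 := by
      rw [L.eq_of_close (y := algebraMap F Ω W.a₁ ^ 2 + 4 * (algebraMap F Ω W.a₂ + 3 * x₁)), hb2]
      rw [add_sub_cancel_left, hb2]
      exact hlt (exnc_num 12) hX1
    rw [h4] at h3
    exact (pow_eq_one_iff_of_nonneg (L.nonneg _) two_ne_zero).1 h3
  · have h1 := lifta_fe h.toIt (lifta_hv hx hxx) (lifta_hv hy hyy)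
    rw [show s ^ 2 + (L.rc W).a₁ * r * s + (L.rc W).a₃ * s -
      (r ^ 3 + (L.rc W).a₂ * r ^ 2 + (L.rc W).a₄ * r + (L.rc W).a₆) = 0 from
        sub_eq_zero.2 hg.eqn] at h1
    exact L.hv_zero.1 h1

/-- The equation. Proof: Taylor's formula at `(x₀, y₀)`. -/
theorem nc_eq (hc : L.Nc W x₀ y₀ α β) (x y : Ω) :
    nu x₀ y₀ α x y * nu x₀ y₀ β x y = (x - x₀) ^ 3 + fe W x y - fe W x₀ y₀ := by
  have h0 := hc.dx
  have h1 := hc.dy
  have h2 := hc.add
  have h3 := hc.mul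
  unfold dx at h0
  unfold dy at h1
  unfold nu fe
  linear_combination (x - x₀) * h0 - (y - y₀) * h1 - (x - x₀) * (y - y₀) * h2 +
    (x - x₀) ^ 2 * h3

/-- `Δ = f₀ ((b₂ + 12 x₀)³ - 432 f₀)` up to the sign, `f₀ = fe W x₀ y₀`; `(α - β)² = b₂ + 12 x₀`. -/
theorem nc_disc (hc : L.Nc W x₀ y₀ α β) :
    L.nm (algebraMap F Ω W.Δ) = L.nm (fe W x₀ y₀) := by
  have h0 := hc.dx
  have h1 := hc.dy
  have h2 := hc.add
  have h3 := hc.mul
  unfold dx at h0
  unfold dy at h1
  have e3 : algebraMap F Ω W.a₃ = -(2 * y₀ + algebraMap F Ω W.a₁ * x₀) := by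
    linear_combination h1
  have e4 : algebraMap F Ω W.a₄ =
      algebraMap F Ω W.a₁ * y₀ - 3 * x₀ ^ 2 - 2 * algebraMap F Ω W.a₂ * x₀ := by
    linear_combination h0
  have e : algebraMap F Ω W.Δ = fe W x₀ y₀ * (((α - β) ^ 2) ^ 3 - 432 * fe W x₀ y₀) := by
    have e5 : (α - β) ^ 2 =
        algebraMap F Ω W.a₁ ^ 2 + 4 * (algebraMap F Ω W.a₂ + 3 * x₀) := by
      linear_combination (α + β - algebraMap F Ω W.a₁) * h2 - 4 * h3
    rw [e5]
    unfold fe
    simp only [WeierstrassCurve.Δ, WeierstrassCurve.b₂, WeierstrassCurve.b₄,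
      WeierstrassCurve.b₆, WeierstrassCurve.b₈, map_add, map_sub, map_mul, map_pow, map_ofNat,
      map_neg]
    rw [e3, e4]
    ring
  have h4 : L.nm (((α - β) ^ 2) ^ 3 - 432 * fe W x₀ y₀) = 1 := by
    have h5 : L.nm (((α - β) ^ 2) ^ 3) = 1 := by
      rw [L.pow, L.pow, hc.ne, one_pow, one_pow]
    have h6 : L.nm (((α - β) ^ 2) ^ 3 - 432 * fe W x₀ y₀ - ((α - β) ^ 2) ^ 3) <
        L.nm (((α - β) ^ 2) ^ 3) := by
      rw [h5, sub_sub_cancel_left, L.neg, L.mul]
      exact mul_lt_one_of_nonneg_of_lt_one_right (exnc_num 432) (L.nonneg _) hc.fe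
    rw [L.eq_of_close h6, h5]
  rw [e, L.mul, h4, mul_one]

omit [CharZero K] [IsAlgClosure K Ω] in
/-- The difference of the coordinates. -/
private theorem phx_X (x y : Ω) :
    (α - β) * (x - x₀) = nu x₀ y₀ β x y - nu x₀ y₀ α x y := by
  unfold nu
  ring

omit [CharZero K] [IsAlgClosure K Ω] in
private theorem phx_dy (hc : L.Nc W x₀ y₀ α β) (x y : Ω) :
    dy W x y = nu x₀ y₀ α x y + nu x₀ y₀ β x y := by
  have h1 := hc.dy
  have h2 := hc.add
  unfold dy at h1 ⊢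
  unfold nu
  linear_combination h1 + (x - x₀) * h2

omit [CharZero K] [IsAlgClosure K Ω] in
private theorem phx_dx (hc : L.Nc W x₀ y₀ α β) (x y : Ω) :
    dx W x y = α * dy W x y + 3 * (x - x₀) ^ 2 - (α - β) * nu x₀ y₀ α x y := by
  have h0 := hc.dx
  have h1 := hc.dy
  have h2 := hc.add
  have h3 := hc.mul
  unfold dy at h1 ⊢
  unfold dx at h0 ⊢
  unfold nu
  linear_combination h0 - α * h1 - (y - y₀ + α * (x - x₀)) * h2 + 2 * (x - x₀) * h3

omit [CharZero K] [IsAlgClosure K Ω] in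
/-- The coordinate `u` of the opposite point. -/
private theorem phx_neg (hc : L.Nc W x₀ y₀ α β) (x y : Ω) :
    nu x₀ y₀ α x (-y - algebraMap F Ω W.a₁ * x - algebraMap F Ω W.a₃) = -nu x₀ y₀ β x y := by
  have h1 := hc.dy
  have h2 := hc.add
  unfold dy at h1
  unfold nu
  linear_combination -h1 - (x - x₀) * h2

omit [CharZero K] [IsAlgClosure K Ω] in
/-- The coordinate `v` of the opposite point. -/
private theorem phx_neg' (hc : L.Nc W x₀ y₀ α β) (x y : Ω) :
    nu x₀ y₀ β x (-y - algebraMap F Ω W.a₁ * x - algebraMap F Ω W.a₃) = -nu x₀ y₀ α x y := by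
  have h1 := hc.dy
  have h2 := hc.add
  unfold dy at h1
  unfold nu
  linear_combination -h1 - (x - x₀) * h2

/-- The points with singular reduction. Proof: `ns_aff`. In terms of `X = x - x₀`, `Y = y - y₀`, `a = a₂ + 3 x₀`: `dy = 2 Y + a₁ X`, `dx = 3 X² + 2 a X - a₁ Y`, and the equation is
`Y² + a₁ X Y - a X² - X³ ≡ 0`. If `dx ≡ dy ≡ 0` then `2 (Y² + a₁ X Y - a X²) = Y (2 Y + a₁ X) + X (a₁ Y - 2 a X) ≡ 3 X³`, so `2 X³ ≡ 3 X³`, `X ≡ 0`, `Y ≡ 0`. Conversely `u ≡ v ≡ 0` implies `X ≡ Y ≡ 0` (`α - β` is a unit), `dx ≡ dy ≡ 0`. -/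
theorem nc_ns (h : L.Md W) (hc : L.Nc W x₀ y₀ α β) {x y : Ω}
    (hP : (W.baseChange Ω).toAffine.Nonsingular x y) (hx : L.nm x ≤ 1) :
    ¬ L.Ns (Pt.aff x y hP : Pt W Ω) ↔
      L.nm (nu x₀ y₀ α x y) < 1 ∧ L.nm (nu x₀ y₀ β x y) < 1 := by
  obtain ⟨hy, hns⟩ := ns_aff h.toIt hP hx
  have hab : ∀ z : Ω, L.nm ((α - β) * z) = L.nm z := by
    intro z
    rw [L.mul, hc.ne, one_mul]
  have hX : L.nm (x - x₀) ≤ 1 := exnc_sub_le hx hc.x_le
  have hmul : ∀ {z w : Ω}, L.nm z ≤ 1 → L.nm w < 1 → L.nm (z * w) < 1 := by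
    intro z w hz hw
    rw [L.mul]
    exact mul_lt_one_of_nonneg_of_lt_one_right hz (L.nonneg _) hw
  have hsub : ∀ {z w : Ω}, L.nm z < 1 → L.nm w < 1 → L.nm (z - w) < 1 := by
    intro z w hz hw
    exact (L.sub _ _).trans_lt (max_lt hz hw)
  have hdx : L.nm (dx W x y) ≤ 1 := by
    unfold dx
    refine exnc_sub_le (exnc_add_le (exnc_add_le (exnc_mul (exnc_num 3) ?_)
      (exnc_mul (exnc_mul (exnc_num 2) h.a₂) hx)) h.a₄) (exnc_mul h.a₁ hy)
    rw [L.pow]
    exact pow_le_one₀ (L.nonneg _) hx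
  have hdy : L.nm (dy W x y) ≤ 1 := by
    unfold dy
    exact exnc_add_le (exnc_add_le (exnc_mul (exnc_num 2) hy) (exnc_mul h.a₁ hx)) h.a₃
  have hiff : ¬ L.Ns (Pt.aff x y hP : Pt W Ω) ↔
      L.nm (dx W x y) < 1 ∧ L.nm (dy W x y) < 1 := by
    rw [hns, not_or]
    exact ⟨fun h => ⟨lt_of_le_of_ne hdx h.1, lt_of_le_of_ne hdy h.2⟩,
      fun h => ⟨h.1.ne, h.2.ne⟩⟩
  rw [hiff]
  constructor
  · rintro ⟨h1, h2⟩
    have hA : L.nm (3 * (x - x₀) ^ 2 - (α - β) * nu x₀ y₀ α x y) < 1 := by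
      have e : 3 * (x - x₀) ^ 2 - (α - β) * nu x₀ y₀ α x y = dx W x y - α * dy W x y := by
        rw [phx_dx hc x y]
        ring
      rw [e]
      exact hsub h1 (hmul hc.α_le h2)
    have hB : L.nm (3 * (x - x₀) ^ 2 + (α - β) * nu x₀ y₀ β x y) < 1 := by
      have e : 3 * (x - x₀) ^ 2 + (α - β) * nu x₀ y₀ β x y = dx W x y - β * dy W x y := by
        rw [phx_dx hc x y, phx_dy hc x y]
        ring
      rw [e]
      exact hsub h1 (hmul hc.β_le h2)
    have hXlt : L.nm (x - x₀) < 1 := by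
      by_contra hcon
      have hX1 : L.nm (x - x₀) = 1 := le_antisymm hX (not_lt.1 hcon)
      have hunit : ∀ z : Ω, L.nm ((x - x₀) * z) < 1 → L.nm z < 1 := by
        intro z hz
        rwa [L.mul, hX1, one_mul] at hz
      have h3 : L.nm ((α - β) ^ 2 + 6 * (x - x₀)) < 1 := by
        refine hunit _ ?_
        have e : (x - x₀) * ((α - β) ^ 2 + 6 * (x - x₀)) =
            (3 * (x - x₀) ^ 2 + (α - β) * nu x₀ y₀ β x y) +
              (3 * (x - x₀) ^ 2 - (α - β) * nu x₀ y₀ α x y) := by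
          have e1 := phx_X (x₀ := x₀) (y₀ := y₀) (α := α) (β := β) x y
          linear_combination (α - β) * e1
        rw [e]
        exact exnc_add_lt hB hA
      have he := nc_eq hc x y
      rw [fe_zero hP, add_zero] at he
      have hu : L.nm (nu x₀ y₀ α x y) ≤ 1 := by
        unfold nu
        exact exnc_sub_le (exnc_sub_le hy hc.y_le) (exnc_mul hc.α_le hX)
      have hX2 : L.nm (3 * (x - x₀) ^ 2) ≤ 1 := by
        refine exnc_mul (exnc_num 3) ?_
        rw [L.pow]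
        exact pow_le_one₀ (L.nonneg _) hX
      have h4 : L.nm ((α - β) ^ 2 + 9 * (x - x₀)) < 1 := by
        refine hunit _ (hunit _ (hunit _ ?_))
        have e : (x - x₀) * ((x - x₀) * ((x - x₀) * ((α - β) ^ 2 + 9 * (x - x₀)))) =
            ((α - β) * nu x₀ y₀ α x y) * (3 * (x - x₀) ^ 2 + (α - β) * nu x₀ y₀ β x y) +
              (3 * (x - x₀) ^ 2) * (3 * (x - x₀) ^ 2 - (α - β) * nu x₀ y₀ α x y) +
              (α - β) ^ 2 * fe W x₀ y₀ := by
          linear_combination -(α - β) ^ 2 * he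
        rw [e]
        refine exnc_add_lt (exnc_add_lt (hmul ?_ hB) (hmul hX2 hA)) (hmul ?_ hc.fe)
        · rw [hab]
          exact hu
        · rw [L.pow, hc.ne, one_pow]
      have h5 : L.nm (3 * (x - x₀)) < 1 := by
        have e : 3 * (x - x₀) = ((α - β) ^ 2 + 9 * (x - x₀)) - ((α - β) ^ 2 + 6 * (x - x₀)) := by
          ring
        rw [e]
        exact hsub h4 h3
      have h6 : L.nm ((α - β) ^ 2) < 1 := by
        have e : (α - β) ^ 2 = ((α - β) ^ 2 + 6 * (x - x₀)) - 2 * (3 * (x - x₀)) := by ring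
        rw [e]
        exact hsub h3 (hmul (exnc_num 2) h5)
      rw [L.pow, hc.ne, one_pow] at h6
      exact lt_irrefl _ h6
    have h3X : L.nm (3 * (x - x₀) ^ 2) < 1 := by
      refine hmul (exnc_num 3) ?_
      rw [L.pow]
      exact pow_lt_one₀ (L.nonneg _) hXlt two_ne_zero
    constructor
    · rw [← hab (nu x₀ y₀ α x y)]
      have e : (α - β) * nu x₀ y₀ α x y = 3 * (x - x₀) ^ 2 -
          (3 * (x - x₀) ^ 2 - (α - β) * nu x₀ y₀ α x y) := by ring
      rw [e]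
      exact hsub h3X hA
    · rw [← hab (nu x₀ y₀ β x y)]
      have e : (α - β) * nu x₀ y₀ β x y = (3 * (x - x₀) ^ 2 + (α - β) * nu x₀ y₀ β x y) -
          3 * (x - x₀) ^ 2 := by ring
      rw [e]
      exact hsub hB h3X
  · rintro ⟨h1, h2⟩
    have hd : L.nm (dy W x y) < 1 := by
      rw [phx_dy hc x y]
      exact exnc_add_lt h1 h2
    have hXlt : L.nm (x - x₀) < 1 := by
      rw [← hab, phx_X (x₀ := x₀) (y₀ := y₀) (α := α) (β := β) x y]
      exact hsub h2 h1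
    refine ⟨?_, hd⟩
    rw [phx_dx hc x y]
    refine hsub (exnc_add_lt (hmul hc.α_le hd) (hmul (exnc_num 3) ?_)) ?_
    · rw [L.pow]
      exact pow_lt_one₀ (L.nonneg _) hXlt two_ne_zero
    · rw [hab]
      exact h1

/-- Proof: `u = v = 0` only for the singular point `(x₀, y₀)`. -/
theorem la_pos (hc : L.Nc W x₀ y₀ α β) {r : ℝ} {P : Pt W Ω} (hP : L.La W x₀ y₀ α β r P) :
    0 < r := by
  obtain ⟨x, y, hPn, -, -, -, hu, hv⟩ := hP
  have hr : 0 ≤ r := by
    rw [← hu]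
    exact L.nonneg _
  refine lt_of_le_of_ne hr fun h0 => ?_
  rw [← h0] at hu hv
  have hu0 : nu x₀ y₀ α x y = 0 := (L.zero_iff _).1 hu
  have hv0 : nu x₀ y₀ β x y = 0 := (L.zero_iff _).1 (le_antisymm hv (L.nonneg _))
  have hab : α - β ≠ 0 := L.ne_zero (by rw [hc.ne]; exact zero_lt_one)
  have hX : x - x₀ = 0 := by
    have h1 := phx_X (x₀ := x₀) (y₀ := y₀) (α := α) (β := β) x y
    rw [hu0, hv0, sub_zero] at h1
    exact (mul_eq_zero.1 h1).resolve_left hab
  have hdy : dy W x y = 0 := by rw [phx_dy hc x y, hu0, hv0, add_zero]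
  have hdx : dx W x y = 0 := by
    rw [phx_dx hc x y, hdy, hX, hu0]
    ring
  have h2 := (WeierstrassCurve.Affine.nonsingular_iff' _ _).1 hPn
  rcases h2.2 with h3 | h3
  · refine h3 ?_
    have e : (W.baseChange Ω).toAffine.a₁ * y - (3 * x ^ 2 + 2 * (W.baseChange Ω).toAffine.a₂ * x +
        (W.baseChange Ω).toAffine.a₄) = -dx W x y := by
      unfold dx
      change algebraMap F Ω W.a₁ * y - (3 * x ^ 2 + 2 * algebraMap F Ω W.a₂ * x +
        algebraMap F Ω W.a₄) = _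
      ring
    rw [e, hdx, neg_zero]
  · exact h3 hdy

/-- Proof: `nc_eq`: `nm (u v) ≤ r²`, `nm X ≤ r`, `r³ ≤ r²`. -/
theorem la_half (hc : L.Nc W x₀ y₀ α β) {r : ℝ} {P : Pt W Ω} (hP : L.La W x₀ y₀ α β r P) :
    L.nm (fe W x₀ y₀) ≤ r ^ 2 := by
  have hr := la_pos hc hP
  obtain ⟨x, y, hPn, -, -, h1, hu, hv⟩ := hP
  have he := nc_eq hc x y
  rw [fe_zero hPn, add_zero] at he
  have e : fe W x₀ y₀ = (x - x₀) ^ 3 - nu x₀ y₀ α x y * nu x₀ y₀ β x y := by
    rw [he]
    ring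
  have hX : L.nm (x - x₀) ≤ r := by
    have h2 : L.nm ((α - β) * (x - x₀)) ≤ r := by
      rw [phx_X (x₀ := x₀) (y₀ := y₀) (α := α) (β := β) x y]
      exact exnc_sub_le hv hu.le
    rwa [L.mul, hc.ne, one_mul] at h2
  rw [e]
  refine exnc_sub_le ?_ ?_
  · rw [L.pow]
    refine (pow_le_pow_left₀ (L.nonneg _) hX 3).trans ?_
    exact pow_le_pow_of_le_one hr.le h1.le (by norm_num)
  · rw [L.mul, hu, sq]
    exact mul_le_mul_of_nonneg_left hv hr.le

/-- Proof: `P` is an affine point with `nm x ≤ 1` (otherwise it is in the formal group); `nc_ns`; the coordinates of `- P` are `- v`, `- u`. If `P` is over `M` then `x`, `y` are in `M` (`fx_aff`). -/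
theorem la_or (h : L.Md W) (hc : L.Nk W x₀ y₀ α β) {P : Pt W Ω} (hP : ¬ L.Ns P)
    (M : IntermediateField K Ω) (hM : Fx M P) :
    ∃ w ∈ M, L.La W x₀ y₀ α β (L.nm w) P ∨ L.La W x₀ y₀ α β (L.nm w) (-P) := by
  rcases Pt.cases' P with rfl | ⟨x, y, hxy, rfl⟩
  · exact absurd (ns_fm h.toIt fm_zero) hP
  have hx : L.nm x ≤ 1 := by
    by_contra hcon
    exact hP (ns_fm h.toIt ((fm_aff h.toIt hxy).1.2 (not_le.1 hcon)))
  obtain ⟨hu, hv⟩ := (nc_ns h hc.toNc hxy hx).1 hP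
  obtain ⟨hxM, hyM⟩ := (fx_aff M hxy).1 hM
  have hb : ∀ {z : Ω}, z ∈ (⊥ : IntermediateField K Ω) → z ∈ M := fun hz =>
    (bot_le : (⊥ : IntermediateField K Ω) ≤ M) hz
  have huM : nu x₀ y₀ α x y ∈ M := by
    unfold nu
    exact M.sub_mem (M.sub_mem hyM (hb hc.y_mem))
      (M.mul_mem (hb hc.α_mem) (M.sub_mem hxM (hb hc.x_mem)))
  have hvM : nu x₀ y₀ β x y ∈ M := by
    unfold nu
    exact M.sub_mem (M.sub_mem hyM (hb hc.y_mem))
      (M.mul_mem (hb hc.β_mem) (M.sub_mem hxM (hb hc.x_mem)))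
  rcases le_total (L.nm (nu x₀ y₀ β x y)) (L.nm (nu x₀ y₀ α x y)) with hle | hle
  · exact ⟨_, huM, Or.inl ⟨x, y, hxy, rfl, hx, hu, rfl, hle⟩⟩
  · obtain ⟨h3, h4⟩ := Pn.neg_aff (W := W.baseChange Ω) hxy
    refine ⟨_, hvM, Or.inr ⟨x, _, h3, h4, hx, hv, ?_, ?_⟩⟩
    · have e : nu x₀ y₀ α x (-y - (W.baseChange Ω).a₁ * x - (W.baseChange Ω).a₃) =
          -nu x₀ y₀ β x y := phx_neg hc.toNc x y
      rw [e, L.neg]
    · have e : nu x₀ y₀ β x (-y - (W.baseChange Ω).a₁ * x - (W.baseChange Ω).a₃) =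
          -nu x₀ y₀ α x y := phx_neg' hc.toNc x y
      rw [e, L.neg]
      exact hle

theorem la_act (hc : L.Nk W x₀ y₀ α β) {r : ℝ} {P : Pt W Ω} (hP : L.La W x₀ y₀ α β r P)
    (γ : Ω ≃ₐ[K] Ω) : L.La W x₀ y₀ α β r (γ • P) := by
  obtain ⟨x, y, hPn, rfl, hx, h1, hu, hv⟩ := hP
  obtain ⟨h', e⟩ := act_aff γ hPn
  have hb : ∀ {z : Ω}, z ∈ (⊥ : IntermediateField K Ω) → γ z = z := by
    intro z hz
    obtain ⟨k, rfl⟩ := IntermediateField.mem_bot.1 hz
    exact γ.commutes k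
  have hα : nu x₀ y₀ α (γ x) (γ y) = γ (nu x₀ y₀ α x y) := by
    unfold nu
    rw [map_sub, map_mul, map_sub, map_sub, hb hc.x_mem, hb hc.y_mem, hb hc.α_mem]
  have hβ : nu x₀ y₀ β (γ x) (γ y) = γ (nu x₀ y₀ β x y) := by
    unfold nu
    rw [map_sub, map_mul, map_sub, map_sub, hb hc.x_mem, hb hc.y_mem, hb hc.β_mem]
  refine ⟨γ x, γ y, h', e, ?_, h1, ?_, ?_⟩
  · rw [L.act]
    exact hx
  · rw [hα, L.act]
    exact hu
  · rw [hβ, L.act]
    exact hv

omit [CharZero K] [IsAlgClosure K Ω] in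
/-- The difference of the coordinates. -/
private theorem lns_X (x y : Ω) :
    (α - β) * (x - x₀) = nu x₀ y₀ β x y - nu x₀ y₀ α x y := by
  unfold nu
  ring

omit [CharZero K] [IsAlgClosure K Ω] in
private theorem lns_dy (hc : L.Nc W x₀ y₀ α β) (x y : Ω) :
    dy W x y = nu x₀ y₀ α x y + nu x₀ y₀ β x y := by
  have h1 := hc.dy
  have h2 := hc.add
  unfold dy at h1 ⊢
  unfold nu
  linear_combination h1 + (x - x₀) * h2

omit [CharZero K] [IsAlgClosure K Ω] in
private theorem lns_dα (hc : L.Nc W x₀ y₀ α β) (x y : Ω) :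
    dx W x y - α * dy W x y = 3 * (x - x₀) ^ 2 - (α - β) * nu x₀ y₀ α x y := by
  have h0 := hc.dx
  have h1 := hc.dy
  have h2 := hc.add
  have h3 := hc.mul
  unfold dy at h1 ⊢
  unfold dx at h0 ⊢
  unfold nu
  linear_combination h0 - α * h1 - (y - y₀ + α * (x - x₀)) * h2 + 2 * (x - x₀) * h3

omit [CharZero K] [IsAlgClosure K Ω] in
private theorem lns_dβ (hc : L.Nc W x₀ y₀ α β) (x y : Ω) :
    dx W x y - β * dy W x y = 3 * (x - x₀) ^ 2 + (α - β) * nu x₀ y₀ β x y := by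
  have h0 := hc.dx
  have h1 := hc.dy
  have h2 := hc.add
  have h3 := hc.mul
  unfold dy at h1 ⊢
  unfold dx at h0 ⊢
  unfold nu
  linear_combination h0 - β * h1 - (y - y₀ + β * (x - x₀)) * h2 + 2 * (x - x₀) * h3

omit [CharZero K] [Algebra F K] [IsScalarTower F K Ω] [IsAlgClosure K Ω] in
/-- Both sums have the same norm. -/
private theorem lns_core {r : ℝ} (h0 : 0 < r) (h1 : r < 1) {u v u' v' X X' f : Ω}
    (hu : L.nm u = r) (hu' : L.nm u' = r) (hv : L.nm v ≤ r) (hv' : L.nm v' ≤ r)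
    (hX : L.nm X ≤ r) (hX' : L.nm X' ≤ r) (he : u * v = X ^ 3 - f) (he' : u' * v' = X' ^ 3 - f)
    (hd : L.nm (X - X') = L.nm (v + u' - (u + v'))) (hne : X ≠ X') :
    L.nm (u + v') = L.nm (v + u') := by
  have hr2 : r ^ 3 < r ^ 2 := pow_lt_pow_right_of_lt_one₀ h0 h1 (by norm_num)
  have hX3 : L.nm (X ^ 3) < r ^ 2 := by
    rw [L.pow]
    exact (pow_le_pow_left₀ (L.nonneg X) hX 3).trans_lt hr2
  have hX3' : L.nm (X' ^ 3) < r ^ 2 := by
    rw [L.pow]
    exact (pow_le_pow_left₀ (L.nonneg X') hX' 3).trans_lt hr2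
  have key : ∀ {a b Z : Ω}, L.nm a = r → L.nm (Z ^ 3) < r ^ 2 → a * b = Z ^ 3 - f →
      (L.nm b = r ↔ L.nm f = r ^ 2) := by
    intro a b Z ha hZ hab
    have h2 : L.nm (Z ^ 3 - f) = r * L.nm b := by rw [← hab, L.mul, ha]
    constructor
    · intro hb
      rw [hb, ← sq] at h2
      have h3 : L.nm (f - -(Z ^ 3 - f)) < L.nm (-(Z ^ 3 - f)) := by
        rw [L.neg, h2, sub_neg_eq_add, add_sub_cancel]
        exact hZ
      rw [L.eq_of_close h3, L.neg, h2]
    · intro hf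
      have h3 : L.nm (Z ^ 3 - f) = r ^ 2 := by
        have h4 : L.nm (Z ^ 3 - f - -f) < L.nm (-f) := by
          rw [L.neg, hf, sub_neg_eq_add, sub_add_cancel]
          exact hZ
        rw [L.eq_of_close h4, L.neg, hf]
      rw [h2, sq] at h3
      exact mul_left_cancel₀ h0.ne' h3
  by_cases hf : L.nm f = r ^ 2
  · have hv1 := (key hu hX3 he).2 hf
    have hv1' := (key hu' hX3' he').2 hf
    by_contra hcon
    have hXX : L.nm (X - X') ≤ max (L.nm (u + v')) (L.nm (v + u')) := by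
      rw [hd, max_comm]
      exact L.sub _ _
    have hpos : 0 < max (L.nm (u + v')) (L.nm (v + u')) :=
      (L.pos (sub_ne_zero.2 hne)).trans_le hXX
    have e : (u + v') * v - v' * (v + u') = (X - X') * (X ^ 2 + X * X' + X' ^ 2) := by
      linear_combination he - he'
    have h2 : L.nm ((u + v') * v - v' * (v + u')) ≤
        max (L.nm (u + v')) (L.nm (v + u')) * r ^ 2 := by
      rw [e, L.mul]
      refine mul_le_mul hXX ?_ (L.nonneg _) hpos.le
      refine (L.add _ _).trans (max_le ((L.add _ _).trans (max_le ?_ ?_)) ?_)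
      · rw [L.pow]
        exact pow_le_pow_left₀ (L.nonneg X) hX 2
      · rw [L.mul, sq]
        exact mul_le_mul hX hX' (L.nonneg _) h0.le
      · rw [L.pow]
        exact pow_le_pow_left₀ (L.nonneg X') hX' 2
    have h3 : L.nm ((u + v') * v - v' * (v + u')) =
        max (L.nm (u + v')) (L.nm (v + u')) * r := by
      have n1 : L.nm ((u + v') * v) = L.nm (u + v') * r := by rw [L.mul, hv1]
      have n2 : L.nm (v' * (v + u')) = L.nm (v + u') * r := by rw [L.mul, hv1', mul_comm]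
      rcases lt_or_gt_of_ne hcon with h4 | h4
      · rw [max_eq_right h4.le, ← n2]
        have h5 : L.nm (v' * (v + u') - (u + v') * v - v' * (v + u')) <
            L.nm (v' * (v + u')) := by
          rw [show v' * (v + u') - (u + v') * v - v' * (v + u') = -((u + v') * v) by ring,
            L.neg, n1, n2]
          exact mul_lt_mul_of_pos_right h4 h0
        rw [L.sub_comm]
        exact L.eq_of_close h5
      · rw [max_eq_left h4.le, ← n1]
        have h5 : L.nm ((u + v') * v - v' * (v + u') - (u + v') * v) <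
            L.nm ((u + v') * v) := by
          rw [show (u + v') * v - v' * (v + u') - (u + v') * v = -(v' * (v + u')) by ring,
            L.neg, n1, n2]
          exact mul_lt_mul_of_pos_right h4 h0
        exact L.eq_of_close h5
    rw [h3] at h2
    have h4 : r ≤ r ^ 2 := le_of_mul_le_mul_left h2 hpos
    nlinarith
  · have hv1 : L.nm v < r := lt_of_le_of_ne hv fun h => hf ((key hu hX3 he).1 h)
    have hv1' : L.nm v' < r := lt_of_le_of_ne hv' fun h => hf ((key hu' hX3' he').1 h)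
    rw [L.add_eq' (by rw [hu]; exact hv1'), L.add_eq (by rw [hu']; exact hv1), hu, hu']

/-- **Points of the same level.** Proof: let `u`, `v` be the coordinates of `P`, `u'`, `v'` those of `Q`; those of `- Q` are `- v'`, `- u'`; `X = (v - u) / (α - β)`. Let `d = u + v'`, `d' = v + u'`. If `x = x'` then `P = Q` or `P = - Q`. If `x ≠ x'`: the slope `l` of the line through
`P` and `- Q` satisfies `l - α = d / (x - x')`, `l - β = d' / (x - x')`, and `x(P - Q) - x₀ = (l - α) (l - β) - X - X'`, `x - x' = (d' - d) / (α - β)`. Either `nm v < r` and `nm v' < r`, then `nm d = nm d' = r`; or `nm f₀ = r²` and `nm v = nm v' = r`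
(`nc_eq`: `nm f₀ < r²` if `nm v < r`). In the second case
`d v - v' d' = u v - u' v' = X³ - X'³` has norm `≤ r² nm (x - x') ≤ r² max (nm d) (nm d')`, which implies `nm d = nm d'`. So `nm (l - α) nm (l - β) ≥ 1` and `nm (x(P - Q) - x₀) ≥ 1`: `nc_ns` (if `nm x(P - Q) > 1` the point is in the formal group). If `P = - Q ≠ Q` (second case): the tangent at `P`:
`(l - α) (u + v) = 3 X² - u (α - β)`, `(l - β) (u + v) = 3 X² + v (α - β)`. -/
theorem la_ns (h : L.Md W) (hc : L.Nc W x₀ y₀ α β) {r : ℝ} {P Q : Pt W Ω}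
    (hP : L.La W x₀ y₀ α β r P) (hQ : L.La W x₀ y₀ α β r Q) : L.Ns (P - Q) := by
  obtain ⟨x, y, hPn, rfl, hx, h1, hu, hv⟩ := hP
  obtain ⟨x', y', hQn, rfl, hx', -, hu', hv'⟩ := hQ
  have hr0 : 0 < r := la_pos hc ⟨x, y, hPn, rfl, hx, h1, hu, hv⟩
  have hab : ∀ z : Ω, L.nm ((α - β) * z) = L.nm z := by
    intro z
    rw [L.mul, hc.ne, one_mul]
  have hX : L.nm (x - x₀) ≤ r := by
    rw [← hab, lns_X (x₀ := x₀) (y₀ := y₀) x y]
    exact (L.sub _ _).trans (max_le hv hu.le)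
  have hX' : L.nm (x' - x₀) ≤ r := by
    rw [← hab, lns_X (x₀ := x₀) (y₀ := y₀) x' y']
    exact (L.sub _ _).trans (max_le hv' hu'.le)
  have he := nc_eq hc x y
  have he' := nc_eq hc x' y'
  rw [fe_zero hPn, add_zero] at he
  rw [fe_zero hQn, add_zero] at he'
  obtain ⟨h3, h4⟩ := Pn.neg_aff (W := W.baseChange Ω) hQn
  have hPQ : (Pt.aff x y hPn : Pt W Ω) - Pt.aff x' y' hQn =
      Pt.aff x y hPn + Pt.aff _ _ h3 := by
    rw [sub_eq_add_neg]
    exact congrArg (fun P => (Pt.aff x y hPn : Pt W Ω) + P) h4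
  rw [hPQ]
  by_cases hne : x = x' ∧ y = y'
  · obtain ⟨rfl, rfl⟩ := hne
    have h5 : (Pt.aff x y hPn : Pt W Ω) + Pt.aff _ _ h3 = 0 := by
      rw [← hPQ, sub_self]
    rw [h5]
    exact ns_fm h.toIt fm_zero
  obtain ⟨l, hl1, hl2, h5, h6⟩ := Pn.slope (W := W.baseChange Ω) hPn h3 fun hh => hne
    ⟨hh.1, by rw [hh.2]; ring⟩
  have hsum : (Pt.aff x y hPn : Pt W Ω) + Pt.aff _ _ h3 = Pt.aff _ _ h5 := h6
  rw [hsum]
  have e1 : l * (x - x') = y + y' + algebraMap F Ω W.a₁ * x' + algebraMap F Ω W.a₃ := by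
    rw [hl1]
    change y - (-y' - algebraMap F Ω W.a₁ * x' - algebraMap F Ω W.a₃) = _
    ring
  have e2 : l * (y - y') = x ^ 2 + x * x' + x' ^ 2 + algebraMap F Ω W.a₂ * (x + x') +
      algebraMap F Ω W.a₄ - algebraMap F Ω W.a₁ * y := by
    have e : l * (y + (-y' - algebraMap F Ω W.a₁ * x' - algebraMap F Ω W.a₃) +
        algebraMap F Ω W.a₁ * x' + algebraMap F Ω W.a₃) = x ^ 2 + x * x' + x' ^ 2 +
        algebraMap F Ω W.a₂ * (x + x') + algebraMap F Ω W.a₄ - algebraMap F Ω W.a₁ * y := hl2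
    rw [← e]
    ring
  -- the main estimate
  have key : 1 ≤ L.nm (l - α) * L.nm (l - β) := by
    by_cases hxx : x = x'
    · have hyy : y - y' ≠ 0 := fun h0 => hne ⟨hxx, sub_eq_zero.1 h0⟩
      subst hxx
      rw [sub_self, mul_zero] at e1
      have hD : y - y' = dy W x y := by
        unfold dy
        linear_combination e1
      have hDx : l * dy W x y = dx W x y := by
        rw [← hD, e2]
        unfold dx
        ring
      have hvu : nu x₀ y₀ β x y = -nu x₀ y₀ α x y' := by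
        have h7 := hc.dy
        have h8 := hc.add
        unfold dy at h7
        unfold nu
        linear_combination -e1 - h7 - (x - x₀) * h8
      have hv1 : L.nm (nu x₀ y₀ β x y) = r := by rw [hvu, L.neg, hu']
      have h9 : L.nm (3 * (x - x₀) ^ 2) < r := by
        rw [L.mul, L.pow]
        have h10 : L.nm (x - x₀) ^ 2 ≤ r ^ 2 := pow_le_pow_left₀ (L.nonneg _) hX 2
        have h11 : r ^ 2 < r := by nlinarith
        have h12 : L.nm (3 : Ω) ≤ 1 := exnc_num 3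
        have h13 : 0 ≤ L.nm (x - x₀) ^ 2 := pow_nonneg (L.nonneg _) 2
        nlinarith
      have ha : L.nm (l - α) * L.nm (dy W x y) = r := by
        rw [← L.mul, sub_mul, hDx, lns_dα hc]
        have h10 : L.nm (3 * (x - x₀) ^ 2 - (α - β) * nu x₀ y₀ α x y -
            -((α - β) * nu x₀ y₀ α x y)) < L.nm (-((α - β) * nu x₀ y₀ α x y)) := by
          rw [L.neg, hab, hu, sub_neg_eq_add, sub_add_cancel]
          exact h9
        rw [L.eq_of_close h10, L.neg, hab, hu]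
      have hb : L.nm (l - β) * L.nm (dy W x y) = r := by
        rw [← L.mul, sub_mul, hDx, lns_dβ hc]
        rw [L.add_eq (by rw [hab, hv1]; exact h9), hab, hv1]
      have hdy : L.nm (dy W x y) ≤ r := by
        rw [lns_dy hc]
        exact (L.add _ _).trans (max_le hu.le hv)
      have hdy0 : 0 < L.nm (dy W x y) := by
        rw [← hD]
        exact L.pos hyy
      have hone : ∀ t : ℝ, t * L.nm (dy W x y) = r → 1 ≤ t := by
        intro t ht
        by_contra hcon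
        have h10 : t * L.nm (dy W x y) < 1 * L.nm (dy W x y) :=
          mul_lt_mul_of_pos_right (not_le.1 hcon) hdy0
        rw [ht, one_mul] at h10
        exact absurd hdy (not_le.2 h10)
      exact one_le_mul_of_one_le_of_one_le (hone _ ha) (hone _ hb)
    · have hs : x - x' ≠ 0 := sub_ne_zero.2 hxx
      have ea : (l - α) * (x - x') = nu x₀ y₀ α x y + nu x₀ y₀ β x' y' := by
        have h7 := hc.dy
        have h8 := hc.add
        unfold dy at h7
        unfold nu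
        linear_combination e1 + h7 + (x' - x₀) * h8
      have eb : (l - β) * (x - x') = nu x₀ y₀ β x y + nu x₀ y₀ α x' y' := by
        have h7 := hc.dy
        have h8 := hc.add
        unfold dy at h7
        unfold nu
        linear_combination e1 + h7 + (x' - x₀) * h8
      have hd : L.nm (x - x₀ - (x' - x₀)) = L.nm (nu x₀ y₀ β x y + nu x₀ y₀ α x' y' -
          (nu x₀ y₀ α x y + nu x₀ y₀ β x' y')) := by
        rw [← hab, mul_sub, lns_X (x₀ := x₀) (y₀ := y₀) x y, lns_X (x₀ := x₀) (y₀ := y₀) x' y']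
        congr 1
        ring
      have hE := lns_core hr0 h1 hu hu' hv hv' hX hX' he he' hd
        (fun h0 => hxx (sub_left_injective h0))
      have hle : L.nm (x - x') ≤ L.nm (nu x₀ y₀ β x y + nu x₀ y₀ α x' y') := by
        rw [show x - x' = x - x₀ - (x' - x₀) by ring, hd]
        refine (L.sub _ _).trans (max_le le_rfl ?_)
        rw [hE]
      have h0s : 0 < L.nm (x - x') := L.pos hs
      have hone : ∀ t : Ω, L.nm (t * (x - x')) = L.nm (nu x₀ y₀ β x y + nu x₀ y₀ α x' y') →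
          1 ≤ L.nm t := by
        intro t ht
        by_contra hcon
        rw [L.mul] at ht
        have h10 : L.nm t * L.nm (x - x') < 1 * L.nm (x - x') :=
          mul_lt_mul_of_pos_right (not_le.1 hcon) h0s
        rw [ht, one_mul] at h10
        exact absurd hle (not_le.2 h10)
      exact one_le_mul_of_one_le_of_one_le (hone _ (by rw [ea, hE])) (hone _ (by rw [eb]))
  -- the coordinate of the difference
  have h3x : l ^ 2 + algebraMap F Ω W.a₁ * l - algebraMap F Ω W.a₂ - x - x' - x₀ =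
      (l - α) * (l - β) - ((x - x₀) + (x' - x₀)) := by
    have h7 := hc.add
    have h8 := hc.mul
    linear_combination -h8 + l * h7
  have hX3 : 1 ≤ L.nm (l ^ 2 + algebraMap F Ω W.a₁ * l - algebraMap F Ω W.a₂ - x - x' - x₀) := by
    rw [h3x]
    have h7 : L.nm ((x - x₀) + (x' - x₀)) < 1 := (L.add _ _).trans_lt
      (max_lt (hX.trans_lt h1) (hX'.trans_lt h1))
    have h8 : L.nm ((l - α) * (l - β) - ((x - x₀) + (x' - x₀)) - (l - α) * (l - β)) <
        L.nm ((l - α) * (l - β)) := by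
      rw [sub_sub_cancel_left, L.neg, L.mul]
      exact h7.trans_le key
    rw [L.eq_of_close h8, L.mul]
    exact key
  by_cases hx3 : L.nm (l ^ 2 + algebraMap F Ω W.a₁ * l - algebraMap F Ω W.a₂ - x - x') ≤ 1
  · by_contra hcon
    have h7 := (nc_ns h hc h5 hx3).1 hcon
    have h8 : L.nm (l ^ 2 + algebraMap F Ω W.a₁ * l - algebraMap F Ω W.a₂ - x - x' - x₀) < 1 := by
      have h9 := (L.sub _ _).trans_lt (max_lt h7.2 h7.1)
      rw [← lns_X, hab] at h9
      exact h9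
    exact absurd hX3 (not_le.2 h8)
  · exact ns_fm h.toIt ((fm_aff h.toIt h5).1.2 (not_le.1 hx3))

end Ld

end PE
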