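import Pool.Agent.Lib.MP_f80667_ag.Pe.Semi
import Pool.Agent.Lib.MP_f80667_ag.Pe.Vc
import Pool.Agent.Lib.MP_f80667_ag.Pe.Bs
import Pool.Agent.Lib.MP_f80667_ag.Pe.Ph

/-! Auxiliary results for `Pot.lean`: equations over finite extensions of the base field. -/

open ZC BE Polynomial IntermediateField

namespace PE

namespace Ld

theorem potA_vc {L : Type} [Field L] (C : WeierstrassCurve.VariableChange L)
    (W W' : WeierstrassCurve L) (h : C • W = W') :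
    ∃ φ : Pn W ≃+ Pn W', ∀ (x y : L) (hx : W.toAffine.Nonsingular x y),
      ∃ h' : W'.toAffine.Nonsingular ((C.u⁻¹ : Lˣ) ^ 2 * (x - C.r))
        ((C.u⁻¹ : Lˣ) ^ 3 * (y - C.s * (x - C.r) - C.t)),
        φ (Pn.aff x y hx) = Pn.aff _ _ h' := by
  subst h
  obtain ⟨φ, hφ⟩ := exists_vc C W
  exact ⟨φ, fun x y h => ⟨_, hφ x y h⟩⟩

variable {F : Type} [Field F] {K Ω : Type} [Field K] [CharZero K] [Field Ω] [Algebra K Ω]
  [Algebra F K] [Algebra F Ω] [IsScalarTower F K Ω] [IsAlgClosure K Ω]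

/-- The isomorphism commutes with the automorphisms. -/
theorem potA_eqv (W : WeierstrassCurve F) (M' : IntermediateField K Ω) (W' : WeierstrassCurve M')
    (C : WeierstrassCurve.VariableChange Ω) (h : C • W.baseChange Ω = W'.baseChange Ω)
    (hu : (C.u : Ω) ∈ M') (hr : C.r ∈ M') (hs : C.s ∈ M') (ht : C.t ∈ M') :
    ∃ φ : Pt W Ω ≃+ Pt W' Ω, ∀ (σ : Ω ≃ₐ[M'] Ω) (P : Pt W Ω),
      φ (σ.restrictScalars K • P) = σ • φ P := by
  have key : ∃ φ : Pt W Ω ≃+ Pt W' Ω, ∀ (x y : Ω)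
      (hx : (W.baseChange Ω).toAffine.Nonsingular x y),
      ∃ h' : (W'.baseChange Ω).toAffine.Nonsingular ((C.u⁻¹ : Ωˣ) ^ 2 * (x - C.r))
        ((C.u⁻¹ : Ωˣ) ^ 3 * (y - C.s * (x - C.r) - C.t)),
        φ (Pt.aff x y hx) = Pt.aff _ _ h' := potA_vc C _ _ h
  obtain ⟨φ, hφ⟩ := key
  refine ⟨φ, fun σ P => ?_⟩
  have hfix : ∀ x ∈ M', σ x = x := fun x hx => σ.commutes ⟨x, hx⟩
  rcases Pt.cases' P with rfl | ⟨x, y, hx, rfl⟩
  · rw [smul_zero, map_zero, smul_zero]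
  · obtain ⟨h1, e1⟩ := act_aff (σ.restrictScalars K) hx
    rw [e1]
    obtain ⟨h2, e2⟩ := hφ _ _ h1
    obtain ⟨h3, e3⟩ := hφ _ _ hx
    rw [e2, e3]
    obtain ⟨h4, e4⟩ := act_aff (W := W') σ h3
    rw [e4]
    have hui : σ ((C.u⁻¹ : Ωˣ) : Ω) = ((C.u⁻¹ : Ωˣ) : Ω) := by
      apply hfix
      rw [Units.val_inv_eq_inv_val]
      exact M'.inv_mem hu
    refine Pn.aff_ext (W := W'.baseChange Ω) ?_ ?_
    · rw [map_mul, map_pow, map_sub, hui, hfix _ hr]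
      rfl
    · rw [map_mul, map_pow, map_sub, map_sub, map_mul, map_sub, hui, hfix _ hr, hfix _ hs, hfix _ ht]
      rfl

/-- The field for the reduction. -/
theorem potA_gs (L : Ld K Ω) (V : WeierstrassCurve Ω) (hV : L.Ss V) :
    ∃ M : IntermediateField K Ω, FiniteDimensional K M ∧
      (V.a₁ ∈ M ∧ V.a₂ ∈ M ∧ V.a₃ ∈ M ∧ V.a₄ ∈ M ∧ V.a₆ ∈ M) ∧
      ∀ M' : IntermediateField K Ω, M ≤ M' → ∀ L' : Ld M' Ω, (∀ x, L'.nm x = L.nm x) →
        ∀ W' : WeierstrassCurve M', W'.baseChange Ω = V → L'.Gs W' := by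
  classical
  have hfin : ∀ S : Set Ω, S.Finite → FiniteDimensional K (IntermediateField.adjoin K S) := by
    intro S hS
    have : Finite S := hS
    exact IntermediateField.finiteDimensional_adjoin fun x _ =>
      (Algebra.IsAlgebraic.isAlgebraic x).isIntegral
  set M₁ : IntermediateField K Ω := IntermediateField.adjoin K {V.a₁, V.a₂, V.a₃, V.a₄, V.a₆} with hM₁
  have hf₁ : FiniteDimensional K M₁ := hfin _ (Set.toFinite _)
  have hsub := IntermediateField.subset_adjoin K ({V.a₁, V.a₂, V.a₃, V.a₄, V.a₆} : Set Ω)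
  have m₁ : V.a₁ ∈ M₁ := hsub (by simp)
  have m₂ : V.a₂ ∈ M₁ := hsub (by simp)
  have m₃ : V.a₃ ∈ M₁ := hsub (by simp)
  have m₄ : V.a₄ ∈ M₁ := hsub (by simp)
  have m₆ : V.a₆ ∈ M₁ := hsub (by simp)
  have hit : ∀ (M' : IntermediateField K Ω) (L' : Ld M' Ω), (∀ x, L'.nm x = L.nm x) →
      ∀ W' : WeierstrassCurve M', W'.baseChange Ω = V → L'.It W' := by
    intro M' L' hn W' hW'
    subst hW'
    exact ⟨by rw [hn]; exact hV.a₁, by rw [hn]; exact hV.a₂, by rw [hn]; exact hV.a₃,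
      by rw [hn]; exact hV.a₄, by rw [hn]; exact hV.a₆⟩
  by_cases hg : L.nm V.Δ = 1
  · refine ⟨M₁, hf₁, ⟨m₁, m₂, m₃, m₄, m₆⟩, fun M' hM' L' hn W' hW' => Or.inl ⟨hit M' L' hn W' hW', ?_⟩⟩
    subst hW'
    rw [hn]
    have h1 : (W'.baseChange Ω).Δ = algebraMap M' Ω W'.Δ := WeierstrassCurve.map_Δ _ _
    rw [← h1]
    exact hg
  · have hc : L.nm V.c₄ = 1 := hV.or.resolve_left hg
    have hd : L.nm V.Δ < 1 := lt_of_le_of_ne hV.disc hg
    have hmd : ∀ (M' : IntermediateField K Ω) (L' : Ld M' Ω), (∀ x, L'.nm x = L.nm x) →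
        ∀ W' : WeierstrassCurve M', W'.baseChange Ω = V → L'.Md W' := by
      intro M' L' hn W' hW'
      refine ⟨hit M' L' hn W' hW', ?_, ?_⟩
      · subst hW'
        rw [hn]
        have h1 : (W'.baseChange Ω).Δ = algebraMap M' Ω W'.Δ := WeierstrassCurve.map_Δ _ _
        rw [← h1]
        exact hd
      · subst hW'
        rw [hn]
        have h1 : (W'.baseChange Ω).c₄ = algebraMap M' Ω W'.c₄ := WeierstrassCurve.map_c₄ _ _
        rw [← h1]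
        exact hc
    obtain ⟨L₁, -, hL₁⟩ := L.exists_bsL M₁
    have hac : IsAlgClosure M₁ Ω := ⟨IsAlgClosure.isAlgClosed K, inferInstance⟩
    let W₁ : WeierstrassCurve M₁ := ⟨⟨V.a₁, m₁⟩, ⟨V.a₂, m₂⟩, ⟨V.a₃, m₃⟩, ⟨V.a₄, m₄⟩, ⟨V.a₆, m₆⟩⟩
    have hW₁ : W₁.baseChange Ω = V := by
      ext <;> rfl
    obtain ⟨x₀, y₀, α, β, hnc⟩ := exists_nc (L := L₁) (hmd M₁ L₁ hL₁ W₁ hW₁)
    set M₂ : IntermediateField K Ω := IntermediateField.adjoin K {x₀, y₀, α, β} with hM₂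
    have hf₂ : FiniteDimensional K M₂ := hfin _ (Set.toFinite _)
    have hsub₂ := IntermediateField.subset_adjoin K ({x₀, y₀, α, β} : Set Ω)
    have n₁ : x₀ ∈ M₂ := hsub₂ (by simp)
    have n₂ : y₀ ∈ M₂ := hsub₂ (by simp)
    have n₃ : α ∈ M₂ := hsub₂ (by simp)
    have n₄ : β ∈ M₂ := hsub₂ (by simp)
    refine ⟨M₁ ⊔ M₂, IntermediateField.finiteDimensional_sup M₁ M₂,
      ⟨le_sup_left (b := M₂) m₁, le_sup_left (b := M₂) m₂, le_sup_left (b := M₂) m₃,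
        le_sup_left (b := M₂) m₄, le_sup_left (b := M₂) m₆⟩,
      fun M' hM' L' hn W' hW' => Or.inr ⟨hmd M' L' hn W' hW', x₀, y₀, α, β, ?_⟩⟩
    have hM₂' : M₂ ≤ M' := le_sup_right.trans hM'
    have hbot : ∀ x ∈ M', x ∈ (⊥ : IntermediateField M' Ω) := fun x hx =>
      (IntermediateField.mem_bot).2 ⟨⟨x, hx⟩, rfl⟩
    have ea : ∀ f : WeierstrassCurve Ω → Ω, f (W'.baseChange Ω) = f (W₁.baseChange Ω) := by
      intro f
      rw [hW', hW₁]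
    have e₁ : algebraMap M' Ω W'.a₁ = algebraMap M₁ Ω W₁.a₁ := ea fun V => V.a₁
    have e₂ : algebraMap M' Ω W'.a₂ = algebraMap M₁ Ω W₁.a₂ := ea fun V => V.a₂
    have e₃ : algebraMap M' Ω W'.a₃ = algebraMap M₁ Ω W₁.a₃ := ea fun V => V.a₃
    have e₄ : algebraMap M' Ω W'.a₄ = algebraMap M₁ Ω W₁.a₄ := ea fun V => V.a₄
    have e₆ : algebraMap M' Ω W'.a₆ = algebraMap M₁ Ω W₁.a₆ := ea fun V => V.a₆
    have hnn : ∀ x, L'.nm x = L₁.nm x := fun x => (hn x).trans (hL₁ x).symm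
    refine ⟨⟨?_, ?_, ?_, ?_, ?_, ?_, ?_, ?_, ?_, ?_⟩, hbot _ (hM₂' n₁), hbot _ (hM₂' n₂),
      hbot _ (hM₂' n₃), hbot _ (hM₂' n₄)⟩
    · rw [hnn]; exact hnc.x_le
    · rw [hnn]; exact hnc.y_le
    · rw [hnn]; exact hnc.α_le
    · rw [hnn]; exact hnc.β_le
    · have h := hnc.dx
      simp only [dx] at h ⊢
      rw [e₁, e₂, e₄]
      exact h
    · have h := hnc.dy
      simp only [dy] at h ⊢
      rw [e₁, e₃]
      exact h
    · rw [e₁]; exact hnc.add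
    · rw [e₂]; exact hnc.mul
    · rw [hnn]; exact hnc.ne
    · have h := hnc.fe
      simp only [PE.fe] at h ⊢
      rw [e₁, e₂, e₃, e₄, e₆, hnn]
      exact h

theorem potA (L : Ld K Ω) (W : WeierstrassCurve F) [W.IsElliptic] :
    ∃ M : IntermediateField K Ω, FiniteDimensional K M ∧ ∀ M' : IntermediateField K Ω, M ≤ M' →
      ∀ (L' : Ld M' Ω), (∀ x, L'.nm x = L.nm x) →
        ∃ (W' : WeierstrassCurve M') (φ : Pt W Ω ≃+ Pt W' Ω), W'.IsElliptic ∧ L'.Gs W' ∧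
          ∀ (σ : Ω ≃ₐ[M'] Ω) (P : Pt W Ω), φ (σ.restrictScalars K • P) = σ • φ P := by
  classical
  have hE : (W.baseChange Ω).IsElliptic :=
    (inferInstance : (W.map (algebraMap F Ω)).IsElliptic)
  have hΔ : (W.baseChange Ω).Δ ≠ 0 := hE.isUnit.ne_zero
  obtain ⟨C, hC⟩ := L.semi (W.baseChange Ω) hΔ
  obtain ⟨M₁, hf₁, ⟨m₁, m₂, m₃, m₄, m₆⟩, hgs⟩ := L.potA_gs _ hC
  set M₂ : IntermediateField K Ω := IntermediateField.adjoin K {(C.u : Ω), C.r, C.s, C.t} with hM₂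
  have hf₂ : FiniteDimensional K M₂ := by
    have : Finite ({(C.u : Ω), C.r, C.s, C.t} : Set Ω) := Set.toFinite _
    exact IntermediateField.finiteDimensional_adjoin fun x _ =>
      (Algebra.IsAlgebraic.isAlgebraic x).isIntegral
  have hsub₂ := IntermediateField.subset_adjoin K ({(C.u : Ω), C.r, C.s, C.t} : Set Ω)
  have n₁ : (C.u : Ω) ∈ M₂ := hsub₂ (by simp)
  have n₂ : C.r ∈ M₂ := hsub₂ (by simp)
  have n₃ : C.s ∈ M₂ := hsub₂ (by simp)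
  have n₄ : C.t ∈ M₂ := hsub₂ (by simp)
  refine ⟨M₁ ⊔ M₂, IntermediateField.finiteDimensional_sup M₁ M₂, fun M' hM' L' hn => ?_⟩
  have h₁ : M₁ ≤ M' := le_sup_left.trans hM'
  have h₂ : M₂ ≤ M' := le_sup_right.trans hM'
  let W' : WeierstrassCurve M' := ⟨⟨_, h₁ m₁⟩, ⟨_, h₁ m₂⟩, ⟨_, h₁ m₃⟩, ⟨_, h₁ m₄⟩, ⟨_, h₁ m₆⟩⟩
  have hW' : W'.baseChange Ω = C • W.baseChange Ω := by
    ext <;> rfl
  obtain ⟨φ, hφ⟩ := potA_eqv W M' W' C hW'.symm (h₂ n₁) (h₂ n₂) (h₂ n₃) (h₂ n₄)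
  refine ⟨W', φ, ?_, hgs M' h₁ L' hn W' hW', hφ⟩
  have h3 : algebraMap M' Ω W'.Δ = (C • W.baseChange Ω).Δ := by
    rw [← hW']
    exact (WeierstrassCurve.map_Δ _ _).symm
  have h4 : W'.Δ ≠ 0 := by
    intro h0
    rw [h0, map_zero] at h3
    have h5 : (C • W.baseChange Ω).Δ ≠ 0 := by
      rw [WeierstrassCurve.variableChange_Δ]
      exact mul_ne_zero (pow_ne_zero _ (Units.ne_zero _)) hΔ
    exact h5 h3.symm
  exact ⟨h4.isUnit⟩

end Ld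

end PE
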