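import Pool.Agent.Lib.MP_f80667_ag.Pe.Ld

/-! Semistable reduction, residue characteristic not `2`: the Legendre form. -/

open ZC BE Polynomial IntermediateField

namespace PE

section alg

variable {Ω : Type} [Field Ω]

/-- The form `y² = x³ + a x² + b x`. -/
theorem semiO_form [IsAlgClosed Ω] [CharZero Ω] (W : WeierstrassCurve Ω) (h : W.Δ ≠ 0) :
    ∃ C : WeierstrassCurve.VariableChange Ω,
      (C • W).a₁ = 0 ∧ (C • W).a₃ = 0 ∧ (C • W).a₆ = 0 ∧ (C • W).Δ ≠ 0 := by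
  have h2 : (2 : Ω) ≠ 0 := two_ne_zero
  obtain ⟨r, hr⟩ : ∃ r : Ω, 4 * r ^ 3 + W.b₂ * r ^ 2 + 2 * W.b₄ * r + W.b₆ = 0 := by
    have hd : W.Ψ₂Sq.natDegree = 3 := W.natDegree_Ψ₂Sq (by norm_num)
    have hd' : W.Ψ₂Sq.degree ≠ 0 := by
      rw [Polynomial.degree_eq_natDegree (fun h0 => by rw [h0] at hd; simp at hd), hd]
      norm_num
    obtain ⟨r, hr⟩ := IsAlgClosed.exists_root W.Ψ₂Sq hd'
    refine ⟨r, ?_⟩
    have h1 : W.Ψ₂Sq.eval r = 0 := hr
    simpa [WeierstrassCurve.Ψ₂Sq] using h1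
  set s : Ω := -(W.a₁ / 2) with hs
  set t : Ω := -((W.a₃ + r * W.a₁) / 2) with ht
  have hs' : 2 * s = -W.a₁ := by rw [hs]; field_simp
  have ht' : 2 * t = -(W.a₃ + r * W.a₁) := by rw [ht]; field_simp
  set C : WeierstrassCurve.VariableChange Ω := ⟨1, r, s, t⟩ with hC
  refine ⟨C, ?_, ?_, ?_, ?_⟩
  · rw [WeierstrassCurve.variableChange_a₁]
    simp only [hC, inv_one, Units.val_one]
    linear_combination hs'
  · rw [WeierstrassCurve.variableChange_a₃]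
    simp only [hC, inv_one, Units.val_one]
    linear_combination ht'
  · rw [WeierstrassCurve.variableChange_a₆]
    simp only [hC, inv_one, Units.val_one]
    rw [WeierstrassCurve.b₂, WeierstrassCurve.b₄, WeierstrassCurve.b₆] at hr
    have h4 : (4 : Ω) ≠ 0 := by norm_num
    apply mul_left_cancel₀ h4
    linear_combination hr - (2 * t + (W.a₃ + r * W.a₁)) * ht'
  · rw [WeierstrassCurve.variableChange_Δ]
    simpa [hC] using h

end alg

namespace Ld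

variable {K Ω : Type} [Field K] [CharZero K] [Field Ω] [Algebra K Ω]

/-- The scaling of the form `y² = x³ + a x² + b x`. -/
theorem semiO_scale [IsAlgClosed Ω] [CharZero Ω] (L : Ld K Ω) (h2 : L.nm 2 = 1)
    (W : WeierstrassCurve Ω) (h1 : W.a₁ = 0) (h3 : W.a₃ = 0) (h6 : W.a₆ = 0) (h : W.Δ ≠ 0) :
    ∃ C : WeierstrassCurve.VariableChange Ω, (C • W).a₁ = 0 ∧ L.nm (C • W).a₂ ≤ 1 ∧
      (C • W).a₃ = 0 ∧ L.nm (C • W).a₄ ≤ 1 ∧ (C • W).a₆ = 0 ∧ L.nm (C • W).Δ ≤ 1 ∧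
      (L.nm (C • W).Δ = 1 ∨ L.nm (C • W).c₄ = 1) := by
  have h20 : (2 : Ω) ≠ 0 := two_ne_zero
  -- the two other roots
  obtain ⟨α, β, hs, hp, hab⟩ : ∃ α β : Ω, α + β = -W.a₂ ∧ α * β = W.a₄ ∧ L.nm β ≤ L.nm α := by
    obtain ⟨z, hz⟩ := IsAlgClosed.exists_pow_nat_eq (W.a₂ ^ 2 - 4 * W.a₄) (n := 2) (by norm_num)
    have e1 : (-W.a₂ + z) / 2 + (-W.a₂ - z) / 2 = -W.a₂ := by
      field_simp
      ring
    have e2 : (-W.a₂ + z) / 2 * ((-W.a₂ - z) / 2) = W.a₄ := by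
      field_simp
      linear_combination -hz
    rcases le_total (L.nm ((-W.a₂ - z) / 2)) (L.nm ((-W.a₂ + z) / 2)) with hle | hle
    · exact ⟨_, _, e1, e2, hle⟩
    · exact ⟨_, _, by rw [add_comm]; exact e1, by rw [mul_comm]; exact e2, hle⟩
  have hα : α ≠ 0 := by
    intro h0
    apply h
    have h4 : W.a₄ = 0 := by rw [← hp, h0, zero_mul]
    simp only [WeierstrassCurve.Δ, WeierstrassCurve.b₂, WeierstrassCurve.b₄, WeierstrassCurve.b₆,
      WeierstrassCurve.b₈, h1, h3, h4, h6]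
    ring
  obtain ⟨u, hu⟩ := IsAlgClosed.exists_pow_nat_eq α (n := 2) (by norm_num)
  have hu0 : u ≠ 0 := by
    rintro rfl
    exact hα (by rw [← hu]; simp)
  set lam : Ω := β * α⁻¹ with hlam
  have hln : L.nm lam ≤ 1 := by
    rw [hlam, L.mul, L.inv]
    have hpos : 0 < L.nm α := L.pos hα
    rw [← div_eq_mul_inv, div_le_one hpos]
    exact hab
  have hu2 : u⁻¹ ^ 2 * α = 1 := by
    rw [← hu, ← mul_pow, inv_mul_cancel₀ hu0, one_pow]
  have hui : u⁻¹ ^ 2 = α⁻¹ := by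
    rw [← hu, inv_pow]
  set C : WeierstrassCurve.VariableChange Ω := ⟨Units.mk0 u hu0, 0, 0, 0⟩ with hC
  have e1 : (C • W).a₁ = 0 := by
    rw [WeierstrassCurve.variableChange_a₁]
    simp [hC, h1]
  have e2 : (C • W).a₂ = -(1 + lam) := by
    rw [WeierstrassCurve.variableChange_a₂]
    have e0 : ((C.u⁻¹ : Ωˣ) : Ω) = u⁻¹ := by simp [hC]
    rw [e0]
    simp only [hC, h1]
    rw [hui, hlam]
    have hs' : W.a₂ = -(α + β) := by rw [hs, neg_neg]
    rw [hs']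
    field_simp
    ring
  have e3 : (C • W).a₃ = 0 := by
    rw [WeierstrassCurve.variableChange_a₃]
    simp [hC, h1, h3]
  have e4 : (C • W).a₄ = lam := by
    rw [WeierstrassCurve.variableChange_a₄]
    have e0 : ((C.u⁻¹ : Ωˣ) : Ω) = u⁻¹ := by simp [hC]
    rw [e0]
    simp only [hC, h1, h3]
    have e5 : u⁻¹ ^ 4 = α⁻¹ ^ 2 := by
      rw [← hui]
      ring
    rw [e5, hlam, ← hp]
    field_simp
    ring
  have e6 : (C • W).a₆ = 0 := by
    rw [WeierstrassCurve.variableChange_a₆]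
    simp [hC, h1, h3, h6]
  have eΔ : (C • W).Δ = 16 * (lam * (lam - 1)) ^ 2 := by
    simp only [WeierstrassCurve.Δ, WeierstrassCurve.b₂, WeierstrassCurve.b₄,
      WeierstrassCurve.b₆, WeierstrassCurve.b₈, e1, e2, e3, e4, e6]
    ring
  have ec : (C • W).c₄ = 16 * (1 + lam * (lam - 1)) := by
    simp only [WeierstrassCurve.c₄, WeierstrassCurve.b₂, WeierstrassCurve.b₄, e1, e2, e3, e4]
    ring
  have n16 : L.nm 16 = 1 := by
    have h5 : L.nm ((2 : Ω) ^ 4) = 1 := by rw [L.pow, h2, one_pow]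
    norm_num at h5
    exact h5
  have hl1 : L.nm (lam - 1) ≤ 1 := (L.sub _ _).trans (max_le hln L.one.le)
  have hw : L.nm (lam * (lam - 1)) ≤ 1 := by
    rw [L.mul]
    exact mul_le_one₀ hln (L.nonneg _) hl1
  refine ⟨C, e1, ?_, e3, by rw [e4]; exact hln, e6, ?_, ?_⟩
  · rw [e2, L.neg]
    exact (L.add _ _).trans (max_le L.one.le hln)
  · rw [eΔ, L.mul, n16, one_mul, L.pow]
    exact pow_le_one₀ (L.nonneg _) hw
  · rcases hw.eq_or_lt with hd | hd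
    · left
      rw [eΔ, L.mul, n16, one_mul, L.pow, hd, one_pow]
    · right
      rw [ec, L.mul, n16, one_mul]
      exact L.one_add hd

/-- Semistable reduction if `2` is a unit. -/
theorem semiO_odd [IsAlgClosure K Ω] (L : Ld K Ω) (h2 : L.nm 2 = 1) (W : WeierstrassCurve Ω)
    (h : W.Δ ≠ 0) :
    ∃ C : WeierstrassCurve.VariableChange Ω, (C • W).a₁ = 0 ∧ L.nm (C • W).a₂ ≤ 1 ∧
      (C • W).a₃ = 0 ∧ L.nm (C • W).a₄ ≤ 1 ∧ (C • W).a₆ = 0 ∧ L.nm (C • W).Δ ≤ 1 ∧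
      (L.nm (C • W).Δ = 1 ∨ L.nm (C • W).c₄ = 1) := by
  have : IsAlgClosed Ω := IsAlgClosure.isAlgClosed K
  have : CharZero Ω := charZero_of_injective_algebraMap (algebraMap K Ω).injective
  obtain ⟨C₁, a1, a3, a6, hΔ⟩ := semiO_form W h
  obtain ⟨C₂, hC⟩ := L.semiO_scale h2 (C₁ • W) a1 a3 a6 hΔ
  exact ⟨C₂ * C₁, by rwa [mul_smul]⟩

end Ld

end PE
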