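import Pool.Agent.Lib.MP_f80667_ag.Pe.Ld

/-! Semistable reduction, residue characteristic not `3`: the form `y² + a x y + b y = x³`. -/

open ZC BE Polynomial IntermediateField

namespace PE

section alg

variable {Ω : Type} [Field Ω]

/-- The tangent at a flex. -/
theorem semiT_tan (W : WeierstrassCurve Ω) (h6 : W.a₆ = 0) (h8 : W.b₈ = 0) (h : W.Δ ≠ 0) :
    ∃ C : WeierstrassCurve.VariableChange Ω,
      (C • W).a₂ = 0 ∧ (C • W).a₃ ≠ 0 ∧ (C • W).a₄ = 0 ∧ (C • W).a₆ = 0 := by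
  have h8' : W.a₂ * W.a₃ ^ 2 - W.a₁ * W.a₃ * W.a₄ - W.a₄ ^ 2 = 0 := by
    rw [WeierstrassCurve.b₈, h6] at h8
    linear_combination h8
  have h3 : W.a₃ ≠ 0 := by
    intro h3
    apply h
    have h4 : W.a₄ = 0 := by
      have h5 : W.a₄ ^ 2 = 0 := by
        rw [h3] at h8'
        linear_combination -h8'
      exact pow_eq_zero_iff (two_ne_zero) |>.1 h5
    simp only [WeierstrassCurve.Δ, WeierstrassCurve.b₂, WeierstrassCurve.b₄, WeierstrassCurve.b₆,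
      WeierstrassCurve.b₈, h3, h4, h6]
    ring
  have h1 : W.a₄ / W.a₃ * W.a₃ = W.a₄ := div_mul_cancel₀ _ h3
  refine ⟨⟨1, 0, W.a₄ / W.a₃, 0⟩, ?_, ?_, ?_, ?_⟩
  · rw [WeierstrassCurve.variableChange_a₂]
    simp only [inv_one, Units.val_one]
    have h2 : (W.a₂ - W.a₄ / W.a₃ * W.a₁ - (W.a₄ / W.a₃) ^ 2) * W.a₃ ^ 2 = 0 := by
      linear_combination h8' - (W.a₁ * W.a₃ + W.a₄ / W.a₃ * W.a₃ + W.a₄) * h1
    have h2' := (mul_eq_zero.1 h2).resolve_right (pow_ne_zero 2 h3)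
    linear_combination h2'
  · rw [WeierstrassCurve.variableChange_a₃]
    simpa using h3
  · rw [WeierstrassCurve.variableChange_a₄]
    simp only [inv_one, Units.val_one]
    linear_combination -h1
  · rw [WeierstrassCurve.variableChange_a₆]
    simp only [inv_one, Units.val_one]
    linear_combination h6

/-- A curve has a point of order three: the form `y² + a x y + b y = x³`. -/
theorem semiT_form [IsAlgClosed Ω] [CharZero Ω] (W : WeierstrassCurve Ω) (h : W.Δ ≠ 0) :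
    ∃ C : WeierstrassCurve.VariableChange Ω,
      (C • W).a₂ = 0 ∧ (C • W).a₃ ≠ 0 ∧ (C • W).a₄ = 0 ∧ (C • W).a₆ = 0 := by
  -- a flex
  obtain ⟨r, hr⟩ : ∃ r : Ω, 3 * r ^ 4 + W.b₂ * r ^ 3 + 3 * W.b₄ * r ^ 2 + 3 * W.b₆ * r + W.b₈ = 0 := by
    have hd : W.Ψ₃.natDegree = 4 := W.natDegree_Ψ₃ (by norm_num)
    have hd' : W.Ψ₃.degree ≠ 0 := by
      rw [Polynomial.degree_eq_natDegree (fun h0 => by rw [h0] at hd; simp at hd), hd]
      norm_num
    obtain ⟨r, hr⟩ := IsAlgClosed.exists_root W.Ψ₃ hd'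
    refine ⟨r, ?_⟩
    have h1 : W.Ψ₃.eval r = 0 := hr
    simpa [WeierstrassCurve.Ψ₃] using h1
  obtain ⟨t, ht⟩ : ∃ t : Ω, t ^ 2 + (W.a₁ * r + W.a₃) * t -
      (r ^ 3 + W.a₂ * r ^ 2 + W.a₄ * r + W.a₆) = 0 := by
    obtain ⟨z, hz⟩ := IsAlgClosed.exists_pow_nat_eq
      ((W.a₁ * r + W.a₃) ^ 2 + 4 * (r ^ 3 + W.a₂ * r ^ 2 + W.a₄ * r + W.a₆)) (n := 2) (by norm_num)
    refine ⟨(z - (W.a₁ * r + W.a₃)) / 2, ?_⟩
    have h2 : (2 : Ω) ≠ 0 := two_ne_zero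
    field_simp
    linear_combination hz
  set C₁ : WeierstrassCurve.VariableChange Ω := ⟨1, r, 0, t⟩ with hC₁
  have e6 : (C₁ • W).a₆ = 0 := by
    rw [WeierstrassCurve.variableChange_a₆]
    simp only [hC₁, inv_one, Units.val_one]
    linear_combination -ht
  have e8 : (C₁ • W).b₈ = 0 := by
    rw [WeierstrassCurve.variableChange_b₈]
    simp only [hC₁, inv_one, Units.val_one]
    linear_combination hr
  have hΔ : (C₁ • W).Δ ≠ 0 := by
    rw [WeierstrassCurve.variableChange_Δ]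
    simpa [hC₁] using h
  obtain ⟨C₂, h2⟩ := semiT_tan (C₁ • W) e6 e8 hΔ
  exact ⟨C₂ * C₁, by rwa [mul_smul]⟩

end alg

namespace Ld

variable {K Ω : Type} [Field K] [CharZero K] [Field Ω] [Algebra K Ω]

/-- The scaling of the form `y² + a x y + b y = x³`. -/
theorem semiT_scale [IsAlgClosed Ω] (L : Ld K Ω) (h3 : L.nm 3 = 1) (W : WeierstrassCurve Ω)
    (h2 : W.a₂ = 0) (hb : W.a₃ ≠ 0) (h4 : W.a₄ = 0) (h6 : W.a₆ = 0) :
    ∃ C : WeierstrassCurve.VariableChange Ω, L.nm (C • W).a₁ ≤ 1 ∧ (C • W).a₂ = 0 ∧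
      L.nm (C • W).a₃ ≤ 1 ∧ (C • W).a₄ = 0 ∧ (C • W).a₆ = 0 ∧ L.nm (C • W).Δ ≤ 1 ∧
      (L.nm (C • W).Δ = 1 ∨ L.nm (C • W).c₄ = 1) := by
  -- the scaled curves
  have key : ∀ u : Ω, u ≠ 0 → ∃ C : WeierstrassCurve.VariableChange Ω,
      (C • W).a₁ = u⁻¹ * W.a₁ ∧ (C • W).a₂ = 0 ∧ (C • W).a₃ = u⁻¹ ^ 3 * W.a₃ ∧ (C • W).a₄ = 0 ∧
      (C • W).a₆ = 0 ∧ (C • W).Δ = (u⁻¹ ^ 3 * W.a₃) ^ 3 * ((u⁻¹ * W.a₁) ^ 3 -
        27 * (u⁻¹ ^ 3 * W.a₃)) ∧
      (C • W).c₄ = (u⁻¹ * W.a₁) * ((u⁻¹ * W.a₁) ^ 3 - 24 * (u⁻¹ ^ 3 * W.a₃)) := by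
    intro u hu
    set C : WeierstrassCurve.VariableChange Ω := ⟨Units.mk0 u hu, 0, 0, 0⟩ with hC
    have e1 : (C • W).a₁ = u⁻¹ * W.a₁ := by
      rw [WeierstrassCurve.variableChange_a₁]
      simp [hC]
    have e2 : (C • W).a₂ = 0 := by
      rw [WeierstrassCurve.variableChange_a₂]
      simp [hC, h2]
    have e3 : (C • W).a₃ = u⁻¹ ^ 3 * W.a₃ := by
      rw [WeierstrassCurve.variableChange_a₃]
      simp [hC]
    have e4 : (C • W).a₄ = 0 := by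
      rw [WeierstrassCurve.variableChange_a₄]
      simp [hC, h4]
    have e6 : (C • W).a₆ = 0 := by
      rw [WeierstrassCurve.variableChange_a₆]
      simp [hC, h6]
    refine ⟨C, e1, e2, e3, e4, e6, ?_, ?_⟩
    · simp only [WeierstrassCurve.Δ, WeierstrassCurve.b₂, WeierstrassCurve.b₄,
        WeierstrassCurve.b₆, WeierstrassCurve.b₈, e1, e2, e3, e4, e6]
      ring
    · simp only [WeierstrassCurve.c₄, WeierstrassCurve.b₂, WeierstrassCurve.b₄, e1, e2, e3, e4]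
      ring
  have n3 : ∀ n : ℕ, L.nm ((3 : Ω) ^ n) = 1 := fun n => by rw [L.pow, h3, one_pow]
  have n27 : L.nm 27 = 1 := by
    have := n3 3
    norm_num at this
    exact this
  have n24 : L.nm 24 ≤ 1 := by
    have := L.nat_le 24
    exact_mod_cast this
  obtain ⟨u, hu⟩ := IsAlgClosed.exists_pow_nat_eq W.a₃ (n := 3) (by norm_num)
  have hu0 : u ≠ 0 := by
    rintro rfl
    exact hb (by rw [← hu]; simp)
  have hu3 : u⁻¹ ^ 3 * W.a₃ = 1 := by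
    rw [← hu, ← mul_pow, inv_mul_cancel₀ hu0, one_pow]
  rcases le_or_gt (L.nm (u⁻¹ * W.a₁)) 1 with ha | ha
  · obtain ⟨C, e1, e2, e3, e4, e6, eΔ, ec⟩ := key u hu0
    rw [hu3] at e3 eΔ ec
    rw [one_pow, one_mul, mul_one] at eΔ
    rw [mul_one] at ec
    set a := u⁻¹ * W.a₁ with hadef
    have ha3 : L.nm (a ^ 3) ≤ 1 := by
      rw [L.pow]
      exact pow_le_one₀ (L.nonneg _) ha
    have hΔ1 : L.nm (C • W).Δ ≤ 1 := by
      rw [eΔ]
      exact (L.sub _ _).trans (max_le ha3 n27.le)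
    refine ⟨C, by rwa [e1], e2, by rw [e3, L.one], e4, e6, hΔ1, ?_⟩
    rcases hΔ1.eq_or_lt with hd | hd
    · exact Or.inl hd
    · right
      rw [eΔ] at hd
      have h27 : L.nm (a ^ 3) = 1 := by
        have h5 : a ^ 3 = (a ^ 3 - 27) + 27 := by ring
        rw [h5, L.add_eq (by rw [n27]; exact hd), n27]
      have ha1 : L.nm a = 1 := by
        rw [L.pow] at h27
        exact (pow_eq_one_iff_of_nonneg (L.nonneg _) (by norm_num)).1 h27
      have h24 : L.nm (a ^ 3 - 24) = 1 := by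
        have h5 : a ^ 3 - 24 = (a ^ 3 - 27) + 3 := by ring
        rw [h5, L.add_eq (by rw [h3]; exact hd), h3]
      rw [ec, L.mul, ha1, h24, one_mul]
  · have ha0 : W.a₁ ≠ 0 := by
      intro h0
      rw [h0, mul_zero, L.zero] at ha
      exact absurd ha (by norm_num)
    obtain ⟨C, e1, e2, e3, e4, e6, eΔ, ec⟩ := key W.a₁ ha0
    rw [inv_mul_cancel₀ ha0] at e1 eΔ ec
    rw [one_pow] at eΔ ec
    rw [one_mul] at ec
    set β := W.a₁⁻¹ ^ 3 * W.a₃ with hβ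
    have hβn : L.nm β < 1 := by
      have h5 : β = ((u⁻¹ * W.a₁) ^ 3)⁻¹ := by
        rw [hβ, ← hu, mul_pow, mul_inv, inv_pow, inv_pow, inv_inv]
        ring
      rw [h5, L.inv, L.pow]
      exact inv_lt_one_of_one_lt₀ (one_lt_pow₀ ha (by norm_num))
    have hs : ∀ c : Ω, L.nm c ≤ 1 → L.nm (1 - c * β) = 1 := by
      intro c hc
      rw [sub_eq_add_neg]
      refine L.one_add ?_
      rw [L.neg, L.mul]
      exact mul_lt_one_of_nonneg_of_lt_one_right hc (L.nonneg _) hβn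
    refine ⟨C, by rw [e1, L.one], e2, by rw [e3]; exact hβn.le, e4, e6, ?_, Or.inr ?_⟩
    · rw [eΔ, L.mul, hs 27 n27.le, mul_one, L.pow]
      exact pow_le_one₀ (L.nonneg _) hβn.le
    · rw [ec, hs 24 n24]

/-- Semistable reduction if `3` is a unit. -/
theorem semiT_three [IsAlgClosure K Ω] (L : Ld K Ω) (h3 : L.nm 3 = 1) (W : WeierstrassCurve Ω)
    (h : W.Δ ≠ 0) :
    ∃ C : WeierstrassCurve.VariableChange Ω, L.nm (C • W).a₁ ≤ 1 ∧ (C • W).a₂ = 0 ∧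
      L.nm (C • W).a₃ ≤ 1 ∧ (C • W).a₄ = 0 ∧ (C • W).a₆ = 0 ∧ L.nm (C • W).Δ ≤ 1 ∧
      (L.nm (C • W).Δ = 1 ∨ L.nm (C • W).c₄ = 1) := by
  have : IsAlgClosed Ω := IsAlgClosure.isAlgClosed K
  have : CharZero Ω := charZero_of_injective_algebraMap (algebraMap K Ω).injective
  obtain ⟨C₁, h2, hb, h4, h6⟩ := semiT_form W h
  obtain ⟨C₂, hC⟩ := L.semiT_scale h3 (C₁ • W) h2 hb h4 h6
  exact ⟨C₂ * C₁, by rwa [mul_smul]⟩

/-- `2` or `3` is a unit. -/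
theorem semiT_or (L : Ld K Ω) : L.nm 2 = 1 ∨ L.nm 3 = 1 := by
  by_contra hc
  rw [not_or] at hc
  have n3 : L.nm 3 ≤ 1 := by
    have := L.nat_le 3
    exact_mod_cast this
  have h2 : L.nm 2 < 1 := lt_of_le_of_ne L.two_le hc.1
  have h3 : L.nm 3 < 1 := lt_of_le_of_ne n3 hc.2
  have h1 : L.nm ((3 : Ω) - 2) = 1 := by
    have : (3 : Ω) - 2 = 1 := by norm_num
    rw [this, L.one]
  exact absurd ((L.sub 3 2).trans_lt (max_lt h3 h2)) (by rw [h1]; exact lt_irrefl _)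

end Ld

end PE
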