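import Pool.Agent.Lib.MP_f80667_ag.Pe.Ld
import Pool.Agent.Lib.MP_f80667_ag.Pe.SemiO
import Pool.Agent.Lib.MP_f80667_ag.Pe.SemiT

/-! Semistable reduction over the algebraic closure. -/

open ZC BE Polynomial IntermediateField

namespace PE

namespace Ld

variable {K Ω : Type} [Field K] [CharZero K] [Field Ω] [Algebra K Ω] [IsAlgClosure K Ω]

/-- The coefficients are integral, and the discriminant is a unit or the reduction is multiplicative. -/
structure Ss (L : Ld K Ω) (W : WeierstrassCurve Ω) : Prop where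
  a₁ : L.nm W.a₁ ≤ 1
  a₂ : L.nm W.a₂ ≤ 1
  a₃ : L.nm W.a₃ ≤ 1
  a₄ : L.nm W.a₄ ≤ 1
  a₆ : L.nm W.a₆ ≤ 1
  disc : L.nm W.Δ ≤ 1
  or : L.nm W.Δ = 1 ∨ L.nm W.c₄ = 1

variable (L : Ld K Ω)

/-- `nm 2 = 1`: the Legendre form. Proof: complete the square (`s`, `t`), `y² = (x - e₁) (x - e₂) (x - e₃)` with distinct `e_i`; choose the numbering such that `nm (e₂ - e₁)` is the maximum of the norms of the differences; `r = e₁`, `u² = e₂ - e₁`: the new equation is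
`y² = x (x - 1) (x - λ)`, `nm λ ≤ 1`, `Δ = 16 λ² (λ - 1)²`, `c₄ = 16 (λ² - λ + 1)`: if `nm λ < 1` or `nm (λ - 1) < 1` then `nm c₄ = 1`. -/
theorem semi_odd (h2 : L.nm 2 = 1) (W : WeierstrassCurve Ω) (h : W.Δ ≠ 0) :
    ∃ C : WeierstrassCurve.VariableChange Ω, L.Ss (C • W) := by
  obtain ⟨C, e1, e2, e3, e4, e6, e7, e8⟩ := L.semiO_odd h2 W h
  exact ⟨C, by rw [e1, L.zero]; exact zero_le_one, e2, by rw [e3, L.zero]; exact zero_le_one, e4,
    by rw [e6, L.zero]; exact zero_le_one, e7, e8⟩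

/-- `nm 3 = 1`: the form with a point of order three. Proof: the polynomial `3 x⁴ + b₂ x³ + 3 b₄ x² + 3 b₆ x + b₈` has a root `x₁`; the point `(x₁, y₁)` is a flex: moving it to the origin, and its tangent to `y = 0`, the equation becomes `y² + a₁ x y + a₃ y = x³`
(`a₃ ≠ 0`, since `Δ = a₃³ (a₁³ - 27 a₃) ≠ 0`). Scale by `u³ = a₃`: `y² + a x y + y = x³`, `Δ = a³ - 27`, `c₄ = a (a³ - 24)`. If `nm a ≤ 1`: if `nm Δ < 1` then `a³ ≡ 27`, `c₄ ≡ 3 a` is a unit (`nm a = 1` since `nm 3 = 1`). If `nm a > 1`: scale by `u = a`: `y² + x y + a⁻³ y = x³`, `c₄ = 1 - 24 a⁻³`,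
`Δ = a⁻⁹ (1 - 27 a⁻³)`. -/
theorem semi_three (h3 : L.nm 3 = 1) (W : WeierstrassCurve Ω) (h : W.Δ ≠ 0) :
    ∃ C : WeierstrassCurve.VariableChange Ω, L.Ss (C • W) := by
  have : IsAlgClosed Ω := IsAlgClosure.isAlgClosed K
  obtain ⟨C, e1, e2, e3, e4, e6, e7, e8⟩ := L.semiT_three h3 W h
  exact ⟨C, e1, by rw [e2, L.zero]; exact zero_le_one, e3, by rw [e4, L.zero]; exact zero_le_one,
    by rw [e6, L.zero]; exact zero_le_one, e7, e8⟩

/-- Proof: `2` or `3` is a unit. -/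
theorem semi (W : WeierstrassCurve Ω) (h : W.Δ ≠ 0) :
    ∃ C : WeierstrassCurve.VariableChange Ω, L.Ss (C • W) := by
  rcases L.semiT_or with h2 | h3
  · exact L.semi_odd h2 W h
  · exact L.semi_three h3 W h

end Ld

end PE
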