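import Pool.Agent.Lib.MP_f80667_ag.Pe.Elg
import Pool.Agent.Lib.MP_f80667_ag.Pe.Semi
import Pool.Agent.Lib.MP_f80667_ag.Pe.Vc
import Pool.Agent.Lib.MP_f80667_ag.Pe.Bs
import Pool.Agent.Lib.MP_f80667_ag.Pe.PotA

/-! Symbols over local fields are multiples of almost all prime numbers. -/

open ZC BE Polynomial IntermediateField

namespace PE

namespace Ld

variable {F : Type} [Field F] {K Ω : Type} [Field K] [CharZero K] [Field Ω] [Algebra K Ω]
  [Algebra F K] [Algebra F Ω] [IsScalarTower F K Ω] [IsAlgClosure K Ω]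

/-- **Semistable reduction.** Equations with good or split multiplicative reduction over a finite extension `M` of `K` and all larger fields `M'` (as base fields). Proof: `semi` for `W.baseChange Ω`: `C`; let `M₁` be generated over `K` by `u`, `r`, `s`, `t` and the coefficients of `C • W`; `exists_bsL` for `M₁`; if the reduction is not
good, `exists_nc` over `M₁`: `x₀`, `y₀`, `α`, `β`; `M` is generated over `M₁` by them. For `M' ≥ M`: `W'` is the equation `C • W` with coefficients in `M'`. The isomorphism: `exists_vc` over `Ω`; it commutes with the automorphisms over `M'` (`act_aff`; `u`, `r`, `s`, `t` are in `M'`). -/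
theorem pot_ss (L : Ld K Ω) (W : WeierstrassCurve F) [W.IsElliptic] :
    ∃ M : IntermediateField K Ω, FiniteDimensional K M ∧ ∀ M' : IntermediateField K Ω, M ≤ M' →
      ∀ (L' : Ld M' Ω), (∀ x, L'.nm x = L.nm x) →
        ∃ (W' : WeierstrassCurve M') (φ : Pt W Ω ≃+ Pt W' Ω), W'.IsElliptic ∧ L'.Gs W' ∧
          ∀ (σ : Ω ≃ₐ[M'] Ω) (P : Pt W Ω), φ (σ.restrictScalars K • P) = σ • φ P :=
  L.potA W

/-- **Local theorem for almost all primes.** Proof: choose `M` by `pot_ss` for both curves (`⊔`), `L'` by `exists_bsL`, `n₀` by `els` for `L'`, `W₁'`, `W₂'`, and `n₀ ≥ [M : K]`. For `N` over `K` let `N' = N ⊔ M` (`IntermediateField.extendScalars`): `els` for the symbols `S'` of `exists_bs` gives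
`S'.Z l N' (φ P) (ψ Q)`, so `S.Z l (N ⊔ M) P Q`; the degree of `N ⊔ M` over `N` is positive and at most `[M : K] < l`, hence prime to `l`: `z_cop`. -/
theorem el_pot (L : Ld K Ω) (W₁ W₂ : WeierstrassCurve F) [W₁.IsElliptic] [W₂.IsElliptic] :
    ∃ n₀ : ℕ, ∀ (G : Type) [AddCommGroup G] (S : Sc K Ω (Pt W₁ Ω) (Pt W₂ Ω) G) (l : ℕ), l.Prime →
      n₀ < l → ∀ (M : IntermediateField K Ω) (P : Pt W₁ Ω) (Q : Pt W₂ Ω), FiniteDimensional K M →
        Fx M P → Fx M Q → S.Z l M P Q := by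
  obtain ⟨M₁, hM₁, h₁⟩ := L.pot_ss W₁
  obtain ⟨M₂, hM₂, h₂⟩ := L.pot_ss W₂
  have hM : FiniteDimensional K (M₁ ⊔ M₂ : IntermediateField K Ω) :=
    IntermediateField.finiteDimensional_sup M₁ M₂
  have hm₁ : M₁ ≤ M₁ ⊔ M₂ := le_sup_left
  have hm₂ : M₂ ≤ M₁ ⊔ M₂ := le_sup_right
  generalize M₁ ⊔ M₂ = M₀ at hM hm₁ hm₂
  obtain ⟨L', -, hL'⟩ := L.exists_bsL M₀
  obtain ⟨V₁, φ, hV₁, hs₁, hφ⟩ := h₁ M₀ hm₁ L' hL'
  obtain ⟨V₂, ψ, hV₂, hs₂, hψ⟩ := h₂ M₀ hm₂ L' hL'
  have halg : Algebra.IsAlgebraic K Ω := IsAlgClosure.isAlgebraic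
  have hac : IsAlgClosure M₀ Ω :=
    ⟨IsAlgClosure.isAlgClosed K, Algebra.IsAlgebraic.tower_top (K := K) M₀⟩
  obtain ⟨n₁, hn₁⟩ := els L' V₁ V₂ hs₁ hs₂
  refine ⟨max n₁ (Module.finrank K M₀), ?_⟩
  intro G _ S l hl hnl N P Q hN hP hQ
  have hl₁ : n₁ < l := (le_max_left _ _).trans_lt hnl
  have hl₂ : Module.finrank K M₀ < l := (le_max_right _ _).trans_lt hnl
  obtain ⟨S', hT, hsy⟩ := exists_bs M₀ S φ ψ hφ hψ
  have hle : N ≤ N ⊔ M₀ := le_sup_left
  have hfs : FiniteDimensional K (N ⊔ M₀ : IntermediateField K Ω) :=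
    IntermediateField.finiteDimensional_sup N M₀
  have hz : S.Z l (N ⊔ M₀) P Q := by
    have he : (IntermediateField.extendScalars (le_sup_right : M₀ ≤ N ⊔ M₀)).restrictScalars K =
        N ⊔ M₀ := IntermediateField.extendScalars_restrictScalars _
    have hfk : FiniteDimensional K
        (IntermediateField.extendScalars (le_sup_right : M₀ ≤ N ⊔ M₀)) := by
      have h : FiniteDimensional K ((IntermediateField.extendScalars
        (le_sup_right : M₀ ≤ N ⊔ M₀)).restrictScalars K) := by rw [he]; exact hfs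
      exact h
    have hfe : FiniteDimensional M₀ (IntermediateField.extendScalars (le_sup_right : M₀ ≤ N ⊔ M₀)) :=
      FiniteDimensional.right K M₀ _
    have h3 := hn₁ G S' l hl hl₁ (IntermediateField.extendScalars (le_sup_right : M₀ ≤ N ⊔ M₀))
      (φ P) (ψ Q) hfe ((bs_fx M₀ hφ _ P).2 (by rw [he]; exact hP.mono hle))
      ((bs_fx M₀ hψ _ Q).2 (by rw [he]; exact hQ.mono hle))
    obtain ⟨x, hx, e⟩ := h3
    rw [hsy, he] at e
    exact ⟨x, hT hx, e⟩
  refine Sc.z_cop hle hP hQ ?_ hz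
  have h4 := relIndex_fix (M := N) (N := N ⊔ M₀) hle
  have h5 : Module.finrank K (N ⊔ M₀ : IntermediateField K Ω) ≤
      Module.finrank K N * Module.finrank K M₀ := IntermediateField.finrank_sup_le N M₀
  have hN0 : 0 < Module.finrank K N := Module.finrank_pos
  have hS0 : 0 < Module.finrank K (N ⊔ M₀ : IntermediateField K Ω) := Module.finrank_pos
  rw [← h4, mul_comm] at h5
  have h6 : (N ⊔ M₀).fixingSubgroup.relIndex N.fixingSubgroup < l :=
    (Nat.le_of_mul_le_mul_left h5 hN0).trans_lt hl₂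
  have h7 : (N ⊔ M₀).fixingSubgroup.relIndex N.fixingSubgroup ≠ 0 := by
    intro h
    rw [h, zero_mul] at h4
    exact hS0.ne h4
  exact (Nat.coprime_of_lt_prime h7 h6 hl).symm

end Ld

end PE
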