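import Pool.Agent.Lib.MP_f80667_ag.Pe.StG
import Pool.Agent.Lib.MP_f80667_ag.Pe.Glo
import Pool.Agent.Lib.MP_f80667_ag.Pe.GloBA
import Pool.Agent.Lib.MP_f80667_ag.Pe.Pot
import Pool.Agent.Lib.MP_f80667_ag.Pe.GlNA
import Pool.Agent.Lib.MP_f80667_ag.Pe.GlNB

/-! The theorem for all number fields and almost all prime numbers. -/

open ZC BE Polynomial IntermediateField IsDedekindDomain NumberField

namespace PE

section sym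

variable {K Ω : Type} [Field K] [CharZero K] [Field Ω] [Algebra K Ω] [IsAlgClosure K Ω]
  {A B G : Type} [AddCommGroup A] [AddCommGroup B] [AddCommGroup G]
  [DistribMulAction (Ω ≃ₐ[K] Ω) A] [DistribMulAction (Ω ≃ₐ[K] Ω) B] {S : Sc K Ω A B G}

/-- The symbols are multiples of `n`. -/
theorem t_divN {n₀ : ℕ} (h : ∀ l : ℕ, l.Prime → n₀ < l → ∀ (M : IntermediateField K Ω) (P : A)
    (Q : B), FiniteDimensional K M → Fx M P → Fx M Q → S.Z l M P Q) (n : ℕ) (hn : n ≠ 0)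
    (hL : Lg n₀ n) : ∀ x ∈ S.T, ∃ y ∈ S.T, x = n • y := by
  have key : ∀ l : ℕ, l.Prime → n₀ < l → ∀ x ∈ S.T, ∃ y ∈ S.T, x = l • y := by
    intro l hl hl' x hx
    induction hx using AddSubgroup.closure_induction with
    | mem x hx =>
      obtain ⟨M, P, Q, h1, h2, h3, rfl⟩ := hx
      exact h l hl hl' M P Q h1 h2 h3
    | zero => exact ⟨0, S.T.zero_mem, (smul_zero l).symm⟩
    | add x y _ _ hx hy =>
      obtain ⟨a, ha, rfl⟩ := hx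
      obtain ⟨b, hb, rfl⟩ := hy
      exact ⟨a + b, S.T.add_mem ha hb, (nsmul_add a b l).symm⟩
    | neg x _ hx =>
      obtain ⟨a, ha, rfl⟩ := hx
      exact ⟨-a, S.T.neg_mem ha, (smul_neg l a).symm⟩
  induction n using induction_on_primes with
  | zero => exact absurd rfl hn
  | one => exact fun x hx => ⟨x, hx, (one_nsmul x).symm⟩
  | prime_mul p m hp ih =>
    intro x hx
    obtain ⟨y, hy, rfl⟩ := key p hp (hL p hp (dvd_mul_right p m)) x hx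
    obtain ⟨z, hz, rfl⟩ := ih (right_ne_zero_of_mul hn)
      (fun l hl hd => hL l hl (hd.mul_left p)) y hy
    exact ⟨z, hz, (mul_nsmul' z p m).symm⟩

end sym

section cyc

variable {F : Type} [Field F] {W₁ W₂ : WeierstrassCurve F} {K : Type} [Field K] [CharZero K]
  [Algebra F K]

/-- From the symbols to cycles. -/
theorem dvN_of [W₁.IsElliptic] [W₂.IsElliptic] (n : ℕ) (h : ∀ x ∈ (scX (K := K)
      (Ω := AlgebraicClosure K) (W₁ := W₁) (W₂ := W₂) ((Xv W₁ W₂).ratEq K (AlgebraicClosure K)) le_rfl).T,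
      ∃ y ∈ (scX (K := K) (Ω := AlgebraicClosure K) (W₁ := W₁) (W₂ := W₂)
        ((Xv W₁ W₂).ratEq K (AlgebraicClosure K)) le_rfl).T, x = n • y)
    (z : Zc (Xv W₁ W₂) K) (hz : Alb z) : ∃ z' : Zc (Xv W₁ W₂) K, Alb z' ∧ z.cl = n • z'.cl := by
  have h1 := scX_gen (K := K) (Ω := AlgebraicClosure K) (W₁ := W₁) (W₂ := W₂)
    ((Xv W₁ W₂).ratEq K (AlgebraicClosure K)) le_rfl (z := z.cy) z.2 hz.1 hz.2
  obtain ⟨y, hy, he⟩ := h _ h1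
  obtain ⟨z', hz', h2, h3, h4⟩ := scX_mem (K := K) (Ω := AlgebraicClosure K) (W₁ := W₁) (W₂ := W₂)
    ((Xv W₁ W₂).ratEq K (AlgebraicClosure K)) le_rfl hy
  refine ⟨⟨z', hz'⟩, ⟨h2, h3⟩, ?_⟩
  rw [← h4, ← map_nsmul, ← sub_eq_zero, ← map_sub] at he
  have h5 := (QuotientAddGroup.eq_zero_iff _).1 he
  let w : Dz (Xv W₁ W₂) K := ⟨z', hz'⟩
  have h6 : n • (Zc.cl (V := Xv W₁ W₂) (K := K) ⟨z', hz'⟩) = Gp.clsH (Xv W₁ W₂) K (n • w) :=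
    (map_nsmul (Gp.clsH (Xv W₁ W₂) K) n w).symm
  rw [h6]
  exact Gp.cls_eq.2 h5

end cyc

section nf

variable {F : Type} [Field F] [NumberField F]

/-- **The finite places.** -/
theorem dv_pl (v : HeightOneSpectrum (𝓞 F)) (W₁ W₂ : WeierstrassCurve F) [W₁.IsElliptic]
    [W₂.IsElliptic] : ∃ n₀ : ℕ, ∀ n : ℕ, n ≠ 0 → Lg n₀ n → ∀ z : Zc (Xv W₁ W₂) (FK F v), Alb z →
      ∃ z' : Zc (Xv W₁ W₂) (FK F v), Alb z' ∧ z.cl = n • z'.cl := by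
  have hc : CharZero (FK F v) := charZero_of_injective_algebraMap (algebraMap F (FK F v)).injective
  obtain ⟨L, c, hc0, hc1, hL⟩ := exists_ldg F v
  obtain ⟨n₀, hn₀⟩ := Ld.el_pot L W₁ W₂
  refine ⟨n₀, fun n hn hLg z hz => dvN_of n ?_ z hz⟩
  exact t_divN (fun l hl hl' M P Q hM hP hQ => hn₀ _ _ l hl hl' M P Q hM hP hQ) n hn hLg

/-- **The good places.** Proof: for almost all `v` the coefficients are `v`-integral, the discriminants and `2` are `v`-units (finitely many `v` with `v(x) ≠ 1` for given `x ≠ 0`), and `v` is unramified over the prime number `p` (`v` does not divide the different ideal: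
`not_dvd_differentIdeal_iff`, `differentIdeal_ne_bot`, or `v` does not divide the discriminant), so `v(p) = exp (-1)`. -/
theorem lv_fin (W₁ W₂ : WeierstrassCurve F) [W₁.IsElliptic] [W₂.IsElliptic] :
    {v : HeightOneSpectrum (𝓞 F) | ¬ Lv W₁ W₂ v}.Finite :=
  gln_fin W₁ W₂

/-- **The infinite places.** Proof: `v` complex: every cycle is a norm (the Galois group is trivial). `v` real: the Galois group of the algebraic closure has order two (`real_gal`); `2 z = z + γ z` is a norm. -/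
theorem clN_two {V : Vr F} (v : InfinitePlace F) (z : Zc V (IK F v)) : 2 • z.clN = 0 :=
  glna_clN v z

/-- The Albanese kernel of the families is divisible by the numbers with large prime factors. -/
theorem fam_dvN (W₁ W₂ : WeierstrassCurve F) [W₁.IsElliptic] [W₂.IsElliptic] : ∃ n₀ : ℕ, ∀ n : ℕ,
    n ≠ 0 → Lg n₀ n → ∀ c : Fam (Xv W₁ W₂), AlbA c →
      ∃ c' : Fam (Xv W₁ W₂), AlbA c' ∧ c.cl = n • c'.cl := by
  classical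
  choose N hN using fun v : HeightOneSpectrum (𝓞 F) => dv_pl v W₁ W₂
  obtain ⟨n₀, hn₀⟩ : ∃ n₀ : ℕ, ∀ v ∈ {v : HeightOneSpectrum (𝓞 F) | ¬ Lv W₁ W₂ v}, N v ≤ n₀ := by
    obtain ⟨n₀, h⟩ := ((lv_fin W₁ W₂).image N).bddAbove
    exact ⟨n₀, fun v hv => h ⟨v, hv, rfl⟩⟩
  refine ⟨max n₀ 2, fun n hn hL c hc => ?_⟩
  have h1 : ∀ v, ∃ z' : Zc (Xv W₁ W₂) (FK F v), Alb z' ∧ (c.f v).cl = n • z'.cl := by
    intro v
    by_cases hv : Lv W₁ W₂ v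
    · exact dv_fin hv n hn (c.f v) (hc.1 v)
    · exact hN v n hn (fun l hl hd => (hn₀ v hv).trans_lt ((le_max_left _ _).trans_lt (hL l hl hd)))
        (c.f v) (hc.1 v)
  choose g hg using h1
  have h2 : Odd n := by
    rw [← Nat.not_even_iff_odd, even_iff_two_dvd]
    intro h
    have h3 := hL 2 Nat.prime_two h
    have h4 := le_max_right n₀ 2
    omega
  refine ⟨(g, c.i), ⟨fun v => (hg v).1, hc.2⟩, Prod.ext (funext fun v => (hg v).2)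
    (funext fun v => ?_)⟩
  change (c.i v).clN = n • (c.i v).clN
  obtain ⟨k, rfl⟩ := h2
  rw [add_smul, one_smul, mul_smul, smul_comm, clN_two, smul_zero, zero_add]

/-- The completed statement, if the classes of the families in the Albanese kernel are divisible. -/
theorem glo_hatN {W₁ W₂ : WeierstrassCurve F} {n₀ : ℕ} (hd : ∀ n : ℕ, n ≠ 0 → Lg n₀ n → ∀ c : AdF (Xv W₁ W₂),
      AlbA (W₁ := W₁) (W₂ := W₂) c →
      ∃ c' : AdF (Xv W₁ W₂), clH (Xv W₁ W₂) c = n • clH (Xv W₁ W₂) c')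
    (z : LHat (FA (Xv W₁ W₂))) (z₁ : LHat (FA (Ev W₁))) (z₂ : LHat (FA (Ev W₂)))
    (h₁ : ∀ (m : ℕ+) (c : AdF (Xv W₁ W₂)), z.Rep m (clH _ c) →
      z₁.Rep m (clH _ (gloQ₁ W₁ W₂ c)))
    (h₂ : ∀ (m : ℕ+) (c : AdF (Xv W₁ W₂)), z.Rep m (clH _ c) →
      z₂.Rep m (clH _ (gloQ₂ W₁ W₂ c)))
    (h₁' : ImDeN n₀ z₁) (h₂' : ImDeN n₀ z₂) : ImDeN n₀ z := by
  obtain ⟨x₁, hx₁⟩ := h₁'
  obtain ⟨x₂, hx₂⟩ := h₂'
  refine ⟨gloAd (LHat.map (gloG₁ W₁ W₂ F) x₁) (LHat.map (gloG₂ W₁ W₂ F) x₂), fun m hm => ?_⟩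
  obtain ⟨a, ha⟩ := z.exists_rep m
  obtain ⟨c, rfl⟩ := clA_surj a
  obtain ⟨b₁, b₁', hb₁, hr₁, hs₁⟩ := hx₁ m hm
  obtain ⟨b₂, b₂', hb₂, hr₂, hs₂⟩ := hx₂ m hm
  obtain ⟨w₁, hw₁⟩ := rep_sub hs₁ (h₁ m c ha)
  obtain ⟨w₂, hw₂⟩ := rep_sub hs₂ (h₂ m c ha)
  obtain ⟨c', hc'⟩ := hd (m : ℕ) m.ne_zero hm _ (glo_fam c)
  refine ⟨gloI₁ W₁ W₂ F b₁ + gloI₂ W₁ W₂ F b₂, gloA₁ W₁ W₂ b₁' + gloA₂ W₁ W₂ b₂',
    ⟨fun v => ?_, fun v => ?_⟩, ?_, ?_⟩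
  · refine Eq.trans ?_ (glo_bc_add (V := Xv W₁ W₂) (K := FK F v) (gloI₁ W₁ W₂ F b₁).1
      (gloI₂ W₁ W₂ F b₂).1).symm
    refine Eq.trans ?_ (congrArg₂ (fun x y => x + y) (glo_bc₁ (W₂ := W₂) (K := FK F v) b₁.1).symm
      (glo_bc₂ (W₁ := W₁) (K := FK F v) b₂.1).symm)
    have e1 := hb₁.1 v
    have e2 := hb₂.1 v
    unfold Zc.cy at e1 e2
    rw [← e1, ← e2]
    rfl
  · refine Eq.trans ?_ (glo_bc_add (V := Xv W₁ W₂) (K := IK F v) (gloI₁ W₁ W₂ F b₁).1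
      (gloI₂ W₁ W₂ F b₂).1).symm
    refine Eq.trans ?_ (congrArg₂ (fun x y => x + y) (glo_bc₁ (W₂ := W₂) (K := IK F v) b₁.1).symm
      (glo_bc₂ (W₁ := W₁) (K := IK F v) b₂.1).symm)
    have e1 := hb₁.2 v
    have e2 := hb₂.2 v
    unfold Zc.cy at e1 e2
    rw [← e1, ← e2]
    rfl
  · exact glo_rep (hr₁.map (gloG₁ W₁ W₂ F)) (hr₂.map (gloG₂ W₁ W₂ F))
  · have e1 : clH (Xv W₁ W₂) (gloA₁ W₁ W₂ b₁') =
        clH (Xv W₁ W₂) (gloA₁ W₁ W₂ (gloQ₁ W₁ W₂ c)) + (m : ℕ) • gloF₁ W₁ W₂ w₁ := by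
      rw [← gloF₁_cl, ← gloF₁_cl, ← map_nsmul, ← map_add]
      exact congrArg (gloF₁ W₁ W₂) hw₁
    have e2 : clH (Xv W₁ W₂) (gloA₂ W₁ W₂ b₂') =
        clH (Xv W₁ W₂) (gloA₂ W₁ W₂ (gloQ₂ W₁ W₂ c)) + (m : ℕ) • gloF₂ W₁ W₂ w₂ := by
      rw [← gloF₂_cl, ← gloF₂_cl, ← map_nsmul, ← map_add]
      exact congrArg (gloF₂ W₁ W₂) hw₂
    rw [map_sub, map_sub] at hc'
    have e4 : clH (Xv W₁ W₂) (gloA₁ W₁ W₂ b₁' + gloA₂ W₁ W₂ b₂') = clH (Xv W₁ W₂) c +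
        (m : ℕ) • (gloF₁ W₁ W₂ w₁ + gloF₂ W₁ W₂ w₂ - clH (Xv W₁ W₂) c') := by
      rw [map_add, e1, e2, smul_sub, smul_add, ← hc']
      abel
    have e5 := rep_add ha (gloF₁ W₁ W₂ w₁ + gloF₂ W₁ W₂ w₂ - clH (Xv W₁ W₂) c')
    have e6 : z.Rep m (clH (Xv W₁ W₂) (gloA₁ W₁ W₂ b₁' + gloA₂ W₁ W₂ b₂')) := by
      rw [e4]
      exact e5
    exact e6

variable {W₁ W₂ : WeierstrassCurve F} {n₀ : ℕ}

theorem imDeN₁ {z : LHat (FA (Xv W₁ W₂))} {z₁ : LHat (FA (Ev W₁))} (h₁ : Is₁ z z₁)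
    (h : ImDeN n₀ z) : ImDeN n₀ z₁ := by
  obtain ⟨x, hx⟩ := h
  refine ⟨LHat.map (gbMap (gbP₁ F W₁ W₂) fun _ h => fst_ratEq h) x, fun m hm => ?_⟩
  obtain ⟨c, c', hbc, hc, hc'⟩ := hx m hm
  refine ⟨p₁ c, pA₁ c', ⟨fun v => ?_, fun v => ?_⟩, ?_, h₁ m c' hc'⟩
  · rw [gb_bc₁]
    change Finsupp.mapDomain Prod.fst (c'.f v).cy = _
    rw [hbc.1 v]
  · rw [gb_bc₁]
    change Finsupp.mapDomain Prod.fst (c'.i v).cy = _
    rw [hbc.2 v]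
  · have h1 := hc.map (gbMap (gbP₁ F W₁ W₂) fun _ h => fst_ratEq h)
    rw [gb_map_cls _ _ c (p₁ c) rfl] at h1
    exact h1

theorem imDeN₂ {z : LHat (FA (Xv W₁ W₂))} {z₂ : LHat (FA (Ev W₂))} (h₂ : Is₂ z z₂)
    (h : ImDeN n₀ z) : ImDeN n₀ z₂ := by
  obtain ⟨x, hx⟩ := h
  refine ⟨LHat.map (gbMap (gbP₂ F W₁ W₂) fun _ h => snd_ratEq h) x, fun m hm => ?_⟩
  obtain ⟨c, c', hbc, hc, hc'⟩ := hx m hm
  refine ⟨p₂ c, pA₂ c', ⟨fun v => ?_, fun v => ?_⟩, ?_, h₂ m c' hc'⟩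
  · rw [gb_bc₂]
    change Finsupp.mapDomain Prod.snd (c'.f v).cy = _
    rw [hbc.1 v]
  · rw [gb_bc₂]
    change Finsupp.mapDomain Prod.snd (c'.i v).cy = _
    rw [hbc.2 v]
  · have h1 := hc.map (gbMap (gbP₂ F W₁ W₂) fun _ h => snd_ratEq h)
    rw [gb_map_cls _ _ c (p₂ c) rfl] at h1
    exact h1

/-- **Theorem.** -/
theorem main_N (W₁ W₂ : WeierstrassCurve F) [W₁.IsElliptic] [W₂.IsElliptic] : ∃ n₀ : ℕ,
    (∀ m : ℕ, m ≠ 0 → Lg n₀ m → ∀ c : Fam (Xv W₁ W₂), AlbA c →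
      ∃ c' : Fam (Xv W₁ W₂), AlbA c' ∧ c.cl = m • c'.cl) ∧
    ∀ (z : LHat (FA (Xv W₁ W₂))) (z₁ : LHat (FA (Ev W₁))) (z₂ : LHat (FA (Ev W₂))),
      Is₁ z z₁ → Is₂ z z₂ → (ImDeN n₀ z ↔ ImDeN n₀ z₁ ∧ ImDeN n₀ z₂) := by
  obtain ⟨n₀, h⟩ := fam_dvN W₁ W₂
  refine ⟨n₀, h, fun z z₁ z₂ h₁ h₂ => ⟨fun hz => ⟨imDeN₁ h₁ hz, imDeN₂ h₂ hz⟩, fun hz => ?_⟩⟩
  refine glo_hatN (fun n hn hL c hc => ?_) z z₁ z₂ (fun m c h => h₁ m c h) (fun m c h => h₂ m c h)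
    hz.1 hz.2
  obtain ⟨c', -, hc'⟩ := h n hn hL c hc
  exact ⟨c', hc'⟩

end nf

end PE
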