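import Pool.Agent.Lib.MP_f80667_ag.Pe.StE
import Pool.Agent.Lib.MP_f80667_ag.Pe.GlN
import Pool.Agent.Lib.MP_f80667_ag.Pe.ElgE

/-! The theorem for all number fields with explicit conditions on the prime numbers. -/

open ZC BE Polynomial IntermediateField IsDedekindDomain NumberField

namespace PE

section nf

variable {F : Type} [Field F] [NumberField F]

/-- As `exists_ldg`, with the values of the elements of `F_v`. -/
theorem exists_ldE (v : HeightOneSpectrum (𝓞 F)) :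
    ∃ (L : Ld (FK F v) (AlgebraicClosure (FK F v))) (c : ℝ), 0 < c ∧ c < 1 ∧
      (∀ (x : F) (n : ℤ), v.valuation F x = WithZero.exp (-n) → L.nm (algebraMap F _ x) = c ^ n) ∧
      ∀ x : FK F v, x ≠ 0 → ∃ n : ℤ, L.nm (algebraMap _ _ x) = c ^ n := by
  obtain ⟨L, c, hc0, hc1, h1, h2, h3⟩ := LdA_FK F v
  obtain ⟨p, n, hp, hn, hv⟩ := ldG_val F v
  have hpc : L.nm (p : AlgebraicClosure (FK F v)) = c ^ n := by
    have h := h1 (p : F) n hv
    rw [map_natCast] at h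
    exact h
  have hlt : L.nm (p : AlgebraicClosure (FK F v)) < 1 := by
    rw [hpc]
    exact zpow_lt_one₀ hc0 hc1 hn
  exact ⟨{ L with p := p, pp := hp, lt := hlt, cpl := h3 }, c, hc0, hc1, h1, h2⟩

/-- The condition `Jc` at `v`. Proof: if `π` is a uniformizer of `F_v` then `nm π = c` (`c` is the norm of an element of `F`, `v.valuation_exists_uniformizer`; the norms of the elements of `F_v` are powers of `c`). Let `nm Δ = nm c₄ ^ 3 c ^ n`, `l ∣ n`: `v(j) = exp n`, `j = c₄ ^ 3 / Δ`, so `n ≤ 0`. -/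
theorem jc_of {v : HeightOneSpectrum (𝓞 F)} {l : ℕ} {W : WeierstrassCurve F} [W.IsElliptic]
    (h : Jv l v W) {L : Ld (FK F v) (AlgebraicClosure (FK F v))} {c : ℝ} (h0 : 0 < c) (h1 : c < 1)
    (hL : ∀ (x : F) (n : ℤ), v.valuation F x = WithZero.exp (-n) → L.nm (algebraMap F _ x) = c ^ n)
    (hv : ∀ x : FK F v, x ≠ 0 → ∃ n : ℤ, L.nm (algebraMap _ _ x) = c ^ n) : L.Jc l W := by
  intro π hπ n hn hln
  have hinj : Function.Injective (algebraMap F (AlgebraicClosure (FK F v))) :=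
    (algebraMap F (AlgebraicClosure (FK F v))).injective
  have hΔ0 : L.nm (algebraMap F (AlgebraicClosure (FK F v)) W.Δ) ≠ 0 := by
    refine (L.pos ?_).ne'
    rw [Ne, map_eq_zero_iff _ hinj]
    exact W.isUnit_Δ.ne_zero
  have hπc : L.nm π = c := by
    obtain ⟨t, ht⟩ := v.valuation_exists_uniformizer F
    have h2 := hL t 1 ht
    have ht0 : algebraMap F (AlgebraicClosure (FK F v)) t ≠ 0 :=
      L.ne_zero (by rw [h2, zpow_one]; exact h0)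
    have htm : algebraMap F (AlgebraicClosure (FK F v)) t ∈
        (⊥ : IntermediateField (FK F v) (AlgebraicClosure (FK F v))) :=
      IntermediateField.mem_bot.2 ⟨algebraMap F (FK F v) t,
        (IsScalarTower.algebraMap_apply F (FK F v) (AlgebraicClosure (FK F v)) t).symm⟩
    obtain ⟨m, hm⟩ := hπ.val _ htm ht0
    obtain ⟨y, hy⟩ := IntermediateField.mem_bot.1 hπ.mem
    have hy0 : y ≠ 0 := by
      rintro rfl
      rw [map_zero] at hy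
      have h3 := hπ.pos
      rw [← hy, L.zero] at h3
      exact lt_irrefl _ h3
    obtain ⟨k, hk⟩ := hv y hy0
    rw [hy] at hk
    have h4 : c ^ (1 : ℤ) = c ^ (k * m) := by rw [← h2, hm, hk, zpow_mul]
    have h5 : (1 : ℤ) = k * m := zpow_right_injective₀ h0 h1.ne h4
    have h6 : 0 < k := by
      have h7 := hπ.lt
      rw [hk, ← zpow_zero c] at h7
      exact (zpow_lt_zpow_iff_right_of_lt_one₀ h0 h1).1 h7
    have h8 : k = 1 := by
      rcases Int.isUnit_iff.1 (IsUnit.of_mul_eq_one m h5.symm) with h9 | h9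
      · exact h9
      · omega
    rw [hk, h8, zpow_one]
  have hj : W.j * W.Δ = W.c₄ ^ 3 := by
    rw [WeierstrassCurve.j, mul_right_comm, ← W.coe_Δ', Units.inv_mul, one_mul]
  have hc40 : L.nm (algebraMap F (AlgebraicClosure (FK F v)) W.c₄) ^ 3 ≠ 0 := fun h2 =>
    hΔ0 (by rw [hn, h2, zero_mul])
  have hc4 : W.c₄ ≠ 0 := by
    intro h2
    apply hc40
    rw [h2, map_zero, L.zero, zero_pow three_ne_zero]
  have hj0 : W.j ≠ 0 := by
    intro h2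
    rw [h2, zero_mul] at hj
    exact pow_ne_zero 3 hc4 hj.symm
  have hvj : v.valuation F W.j ≠ 0 := (Valuation.ne_zero_iff _).2 hj0
  obtain ⟨m, hm⟩ : ∃ m : ℤ, v.valuation F W.j = WithZero.exp m :=
    ⟨WithZero.log (v.valuation F W.j), (WithZero.exp_log hvj).symm⟩
  have h2 := hL W.j (-m) (by rw [neg_neg]; exact hm)
  have h3 := congrArg (fun x => L.nm (algebraMap F (AlgebraicClosure (FK F v)) x)) hj
  simp only [map_mul, map_pow] at h3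
  rw [L.mul, h2, L.pow, hn, hπc, mul_left_comm, ← zpow_natCast c n, ← zpow_add₀ h0.ne'] at h3
  have h4 := mul_left_cancel₀ hc40 (h3.trans (mul_one _).symm)
  rw [← zpow_zero c] at h4
  have h5 : -m + n = 0 := zpow_right_injective₀ h0 h1.ne h4
  have h6 : m = n := by omega
  have h7 := h m hm (by rw [h6]; exact Int.natCast_dvd_natCast.2 hln)
  omega

/-- The finite places which are not above `l`. -/
theorem dv_plE (v : HeightOneSpectrum (𝓞 F)) (W₁ W₂ : WeierstrassCurve F) [W₁.IsElliptic]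
    [W₂.IsElliptic] {l : ℕ} (hl : l.Prime) (h5 : 5 ≤ l) (hv : v.valuation F (l : F) = 1)
    (j₁ : Jv l v W₁) (j₂ : Jv l v W₂) (z : Zc (Xv W₁ W₂) (FK F v)) (hz : Alb z) :
    ∃ z' : Zc (Xv W₁ W₂) (FK F v), Alb z' ∧ z.cl = l • z'.cl := by
  have hc : CharZero (FK F v) := charZero_of_injective_algebraMap (algebraMap F (FK F v)).injective
  obtain ⟨L, c, hc0, hc1, hL, hL'⟩ := exists_ldE v
  have hlp : l ≠ L.p := by
    intro h
    have h1 := hL (l : F) 0 (by rw [hv, neg_zero, WithZero.exp_zero])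
    rw [zpow_zero, map_natCast, h] at h1
    exact absurd L.lt (not_lt.2 h1.ge)
  have key : ∀ l' : ℕ, l'.Prime → l ≤ l' → l' ∣ l → ∀ (M : IntermediateField (FK F v)
      (AlgebraicClosure (FK F v))) (P : Pt W₁ (AlgebraicClosure (FK F v)))
      (Q : Pt W₂ (AlgebraicClosure (FK F v))), FiniteDimensional (FK F v) M → Fx M P → Fx M Q →
      (scX (K := FK F v) (Ω := AlgebraicClosure (FK F v)) (W₁ := W₁) (W₂ := W₂)
        ((Xv W₁ W₂).ratEq (FK F v) (AlgebraicClosure (FK F v))) le_rfl).Z l' M P Q := by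
    intro l' hl' _ hd M P Q hM hP hQ
    obtain rfl := (Nat.prime_dvd_prime_iff_eq hl' hl).1 hd
    exact Ld.el_potE L W₁ W₂ hl h5 hlp (jc_of j₁ hc0 hc1 hL hL') (jc_of j₂ hc0 hc1 hL hL') _ _ M P Q
      hM hP hQ
  refine dvN_of l ?_ z hz
  intro x hx
  induction hx using AddSubgroup.closure_induction with
  | mem x hx =>
    obtain ⟨M, P, Q, h1, h2, h3, rfl⟩ := hx
    exact key l hl le_rfl dvd_rfl M P Q h1 h2 h3
  | zero => exact ⟨0, AddSubgroup.zero_mem _, (smul_zero l).symm⟩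
  | add x y _ _ hx hy =>
    obtain ⟨a, ha, rfl⟩ := hx
    obtain ⟨b, hb, rfl⟩ := hy
    exact ⟨a + b, AddSubgroup.add_mem _ ha hb, (nsmul_add a b l).symm⟩
  | neg x _ hx =>
    obtain ⟨a, ha, rfl⟩ := hx
    exact ⟨-a, AddSubgroup.neg_mem _ ha, (smul_neg l a).symm⟩

/-- The finite places. -/
theorem dv_gl (v : HeightOneSpectrum (𝓞 F)) {W₁ W₂ : WeierstrassCurve F} [W₁.IsElliptic]
    [W₂.IsElliptic] {l : ℕ} (h : Gl W₁ W₂ l) (z : Zc (Xv W₁ W₂) (FK F v)) (hz : Alb z) :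
    ∃ z' : Zc (Xv W₁ W₂) (FK F v), Alb z' ∧ z.cl = l • z'.cl := by
  have hle : v.valuation F (l : F) ≤ 1 := by
    have h1 : (l : F) = algebraMap (𝓞 F) F (l : 𝓞 F) := (map_natCast _ l).symm
    rw [h1]
    exact v.valuation_le_one _
  rcases hle.lt_or_eq with h1 | h1
  · rcases h.ab v h1 with h2 | h2
    · exact dv_fin h2 l h.pr.ne_zero z hz
    · exact dv_swap (dv_fin h2) l h.pr.ne_zero z hz
  · exact dv_plE v W₁ W₂ h.pr h.le h1 (h.j₁ v h1) (h.j₂ v h1) z hz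

theorem dv_sf (v : HeightOneSpectrum (𝓞 F)) {W₁ W₂ : WeierstrassCurve F} [W₁.IsElliptic]
    [W₂.IsElliptic] {Λ : Set ℕ} (h : ∀ l ∈ Λ, Gl W₁ W₂ l) (n : ℕ) (hn : n ≠ 0) (hS : Sf Λ n)
    (z : Zc (Xv W₁ W₂) (FK F v)) (hz : Alb z) :
    ∃ z' : Zc (Xv W₁ W₂) (FK F v), Alb z' ∧ z.cl = n • z'.cl := by
  induction n using induction_on_primes generalizing z with
  | zero => exact absurd rfl hn
  | one => exact ⟨z, hz, (one_nsmul _).symm⟩
  | prime_mul p m hp ih =>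
    obtain ⟨y, hy, e⟩ := dv_gl v (h p (hS p hp (dvd_mul_right p m))) z hz
    obtain ⟨x, hx, e'⟩ := ih (right_ne_zero_of_mul hn) (fun l hl hd => hS l hl (hd.mul_left p)) y hy
    exact ⟨x, hx, by rw [e, e', mul_nsmul']⟩

/-- The Albanese kernel of the families is divisible by the numbers with all prime factors in `Λ`. -/
theorem fam_dvS {W₁ W₂ : WeierstrassCurve F} [W₁.IsElliptic] [W₂.IsElliptic] {Λ : Set ℕ}
    (h : ∀ l ∈ Λ, Gl W₁ W₂ l) (n : ℕ) (hn : n ≠ 0) (hS : Sf Λ n) (c : Fam (Xv W₁ W₂))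
    (hc : AlbA c) : ∃ c' : Fam (Xv W₁ W₂), AlbA c' ∧ c.cl = n • c'.cl := by
  choose g hg using fun v => dv_sf v h n hn hS (c.f v) (hc.1 v)
  have h2 : Odd n := by
    rw [← Nat.not_even_iff_odd, even_iff_two_dvd]
    intro h'
    have h3 := (h 2 (hS 2 Nat.prime_two h')).le
    omega
  refine ⟨(g, c.i), ⟨fun v => (hg v).1, hc.2⟩, Prod.ext (funext fun v => (hg v).2)
    (funext fun v => ?_)⟩
  change (c.i v).clN = n • (c.i v).clN
  obtain ⟨k, rfl⟩ := h2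
  rw [add_smul, one_smul, mul_smul, smul_comm, clN_two, smul_zero, zero_add]

/-- Only finitely many prime numbers `l` do not satisfy `Jv l v W` at some `v`. -/
private theorem jv_fin (W : WeierstrassCurve F) [W.IsElliptic] :
    {l : ℕ | l.Prime ∧ ∃ v : HeightOneSpectrum (𝓞 F), ¬ Jv l v W}.Finite := by
  have h1 : (HeightOneSpectrum.Support (𝓞 F) W.j).Finite := HeightOneSpectrum.Support.finite (𝓞 F) W.j
  refine (h1.biUnion (t := fun v => {l : ℕ | ∃ n : ℤ, v.valuation F W.j = WithZero.exp n ∧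
    (l : ℤ) ∣ n ∧ 0 < n}) fun v _ => ?_).subset ?_
  · by_cases hv : ∃ n : ℤ, v.valuation F W.j = WithZero.exp n ∧ 0 < n
    · obtain ⟨n, hn, h0⟩ := hv
      refine (Set.finite_Iic n.natAbs).subset ?_
      rintro l ⟨m, hm, hd, hm0⟩
      have : m = n := WithZero.exp_injective (hm.symm.trans hn)
      subst this
      exact Nat.le_of_dvd (by omega) (by exact_mod_cast Int.natAbs_dvd_natAbs.2 hd)
    · have : {l : ℕ | ∃ n : ℤ, v.valuation F W.j = WithZero.exp n ∧ (l : ℤ) ∣ n ∧ 0 < n} = ∅ := by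
        ext l
        simp only [Set.mem_ofPred_eq, Set.mem_empty_iff_false, iff_false]
        rintro ⟨n, h1, _, h3⟩
        exact hv ⟨n, h1, h3⟩
      rw [this]
      exact Set.finite_empty
  · rintro l ⟨_, v, hv⟩
    unfold Jv at hv
    push Not at hv
    obtain ⟨n, hn, hd, h0⟩ := hv
    refine Set.mem_biUnion (x := v) ?_ ⟨n, hn, hd, h0⟩
    change 1 < v.valuation F W.j
    rw [hn, ← WithZero.exp_zero]
    exact WithZero.exp_lt_exp.2 h0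

/-- A finite place is above only one prime number. -/
private theorem pl_uniq (v : HeightOneSpectrum (𝓞 F)) {l m : ℕ} (hl : l.Prime) (hm : m.Prime)
    (h1 : v.valuation F (l : F) < 1) (h2 : v.valuation F (m : F) < 1) : l = m := by
  by_contra hne
  have hc : Nat.Coprime l m := (Nat.coprime_primes hl hm).2 hne
  have hb := Int.isCoprime_iff_gcd_eq_one.2 (show Int.gcd (l : ℤ) (m : ℤ) = 1 from hc)
  obtain ⟨a, b, hab⟩ := hb
  have hab' : (a : F) * (l : F) + (b : F) * (m : F) = 1 := by exact_mod_cast congrArg (Int.cast (R := F)) hab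
  have hz : ∀ c : ℤ, v.valuation F (c : F) ≤ 1 := by
    intro c
    have h1 : (c : F) = algebraMap (𝓞 F) F (c : 𝓞 F) := (map_intCast _ c).symm
    rw [h1]
    exact v.valuation_le_one _
  have h3 : v.valuation F ((a : F) * (l : F) + (b : F) * (m : F)) < 1 := by
    refine Valuation.map_add_lt _ ?_ ?_
    · rw [map_mul]
      exact (mul_le_of_le_one_left' (hz a)).trans_lt h1
    · rw [map_mul]
      exact (mul_le_of_le_one_left' (hz b)).trans_lt h2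
  rw [hab', map_one] at h3
  exact lt_irrefl _ h3

/-- Almost all prime numbers satisfy the conditions. Proof: `lv_fin`: a finite place is above only one prime number; only finitely many `v` with `v(j_i) > 1` (`v(j) = exp n`, `n > 0`), and for each of them finitely many prime numbers divide `n`. -/
theorem gl_fin (W₁ W₂ : WeierstrassCurve F) [W₁.IsElliptic] [W₂.IsElliptic] :
    {l : ℕ | l.Prime ∧ ¬ Gl W₁ W₂ l}.Finite := by
  have h2 : {l : ℕ | l.Prime ∧ ∃ v : HeightOneSpectrum (𝓞 F), ¬ Lv W₁ W₂ v ∧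
      v.valuation F (l : F) < 1}.Finite := by
    refine ((lv_fin W₁ W₂).biUnion (t := fun v => {l : ℕ | l.Prime ∧ v.valuation F (l : F) < 1})
      fun v _ => ?_).subset ?_
    · refine Set.Subsingleton.finite ?_
      rintro l ⟨hl, h1⟩ m ⟨hm, h2⟩
      exact pl_uniq v hl hm h1 h2
    · rintro l ⟨hl, v, h1, h2⟩
      exact Set.mem_biUnion (x := v) h1 ⟨hl, h2⟩
  refine ((((Set.finite_Iio 5).union h2).union (jv_fin W₁)).union (jv_fin W₂)).subset ?_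
  rintro l ⟨hl, hG⟩
  by_contra hc
  simp only [Set.mem_union, not_or] at hc
  obtain ⟨⟨⟨h5, h6⟩, h7⟩, h8⟩ := hc
  refine hG ⟨hl, not_lt.1 h5, fun v hv => ?_, fun v _ => ?_, fun v _ => ?_⟩
  · by_contra h9
    exact h6 ⟨hl, v, fun h => h9 (Or.inl h), hv⟩
  · by_contra h9
    exact h7 ⟨hl, v, h9⟩
  · by_contra h9
    exact h8 ⟨hl, v, h9⟩

/-- The completed statement, if the classes of the families in the Albanese kernel are divisible. -/
theorem glo_hatS {W₁ W₂ : WeierstrassCurve F} {Λ : Set ℕ} (hd : ∀ n : ℕ, n ≠ 0 → Sf Λ n → ∀ c : AdF (Xv W₁ W₂),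
      AlbA (W₁ := W₁) (W₂ := W₂) c →
      ∃ c' : AdF (Xv W₁ W₂), clH (Xv W₁ W₂) c = n • clH (Xv W₁ W₂) c')
    (z : LHat (FA (Xv W₁ W₂))) (z₁ : LHat (FA (Ev W₁))) (z₂ : LHat (FA (Ev W₂)))
    (h₁ : ∀ (m : ℕ+) (c : AdF (Xv W₁ W₂)), z.Rep m (clH _ c) →
      z₁.Rep m (clH _ (gloQ₁ W₁ W₂ c)))
    (h₂ : ∀ (m : ℕ+) (c : AdF (Xv W₁ W₂)), z.Rep m (clH _ c) →
      z₂.Rep m (clH _ (gloQ₂ W₁ W₂ c)))
    (h₁' : ImDeS Λ z₁) (h₂' : ImDeS Λ z₂) : ImDeS Λ z := by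
  obtain ⟨x₁, hx₁⟩ := h₁'
  obtain ⟨x₂, hx₂⟩ := h₂'
  refine ⟨gloAd (LHat.map (gloG₁ W₁ W₂ F) x₁) (LHat.map (gloG₂ W₁ W₂ F) x₂), fun m hm => ?_⟩
  obtain ⟨a, ha⟩ := z.exists_rep m
  obtain ⟨c, rfl⟩ := clA_surj a
  obtain ⟨b₁, b₁', hb₁, hr₁, hs₁⟩ := hx₁ m hm
  obtain ⟨b₂, b₂', hb₂, hr₂, hs₂⟩ := hx₂ m hm
  obtain ⟨w₁, hw₁⟩ := rep_sub hs₁ (h₁ m c ha)
  obtain ⟨w₂, hw₂⟩ := rep_sub hs₂ (h₂ m c ha)
  obtain ⟨c', hc'⟩ := hd (m : ℕ) m.ne_zero hm _ (glo_fam c)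
  refine ⟨gloI₁ W₁ W₂ F b₁ + gloI₂ W₁ W₂ F b₂, gloA₁ W₁ W₂ b₁' + gloA₂ W₁ W₂ b₂',
    ⟨fun v => ?_, fun v => ?_⟩, ?_, ?_⟩
  · refine Eq.trans ?_ (glo_bc_add (V := Xv W₁ W₂) (K := FK F v) (gloI₁ W₁ W₂ F b₁).1
      (gloI₂ W₁ W₂ F b₂).1).symm
    refine Eq.trans ?_ (congrArg₂ (fun x y => x + y) (glo_bc₁ (W₂ := W₂) (K := FK F v) b₁.1).symm
      (glo_bc₂ (W₁ := W₁) (K := FK F v) b₂.1).symm)
    have e1 := hb₁.1 v
    have e2 := hb₂.1 v
    unfold Zc.cy at e1 e2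
    rw [← e1, ← e2]
    rfl
  · refine Eq.trans ?_ (glo_bc_add (V := Xv W₁ W₂) (K := IK F v) (gloI₁ W₁ W₂ F b₁).1
      (gloI₂ W₁ W₂ F b₂).1).symm
    refine Eq.trans ?_ (congrArg₂ (fun x y => x + y) (glo_bc₁ (W₂ := W₂) (K := IK F v) b₁.1).symm
      (glo_bc₂ (W₁ := W₁) (K := IK F v) b₂.1).symm)
    have e1 := hb₁.2 v
    have e2 := hb₂.2 v
    unfold Zc.cy at e1 e2
    rw [← e1, ← e2]
    rfl
  · exact glo_rep (hr₁.map (gloG₁ W₁ W₂ F)) (hr₂.map (gloG₂ W₁ W₂ F))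
  · have e1 : clH (Xv W₁ W₂) (gloA₁ W₁ W₂ b₁') =
        clH (Xv W₁ W₂) (gloA₁ W₁ W₂ (gloQ₁ W₁ W₂ c)) + (m : ℕ) • gloF₁ W₁ W₂ w₁ := by
      rw [← gloF₁_cl, ← gloF₁_cl, ← map_nsmul, ← map_add]
      exact congrArg (gloF₁ W₁ W₂) hw₁
    have e2 : clH (Xv W₁ W₂) (gloA₂ W₁ W₂ b₂') =
        clH (Xv W₁ W₂) (gloA₂ W₁ W₂ (gloQ₂ W₁ W₂ c)) + (m : ℕ) • gloF₂ W₁ W₂ w₂ := by
      rw [← gloF₂_cl, ← gloF₂_cl, ← map_nsmul, ← map_add]
      exact congrArg (gloF₂ W₁ W₂) hw₂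
    rw [map_sub, map_sub] at hc'
    have e4 : clH (Xv W₁ W₂) (gloA₁ W₁ W₂ b₁' + gloA₂ W₁ W₂ b₂') = clH (Xv W₁ W₂) c +
        (m : ℕ) • (gloF₁ W₁ W₂ w₁ + gloF₂ W₁ W₂ w₂ - clH (Xv W₁ W₂) c') := by
      rw [map_add, e1, e2, smul_sub, smul_add, ← hc']
      abel
    have e5 := rep_add ha (gloF₁ W₁ W₂ w₁ + gloF₂ W₁ W₂ w₂ - clH (Xv W₁ W₂) c')
    have e6 : z.Rep m (clH (Xv W₁ W₂) (gloA₁ W₁ W₂ b₁' + gloA₂ W₁ W₂ b₂')) := by
      rw [e4]
      exact e5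
    exact e6

variable {W₁ W₂ : WeierstrassCurve F} {Λ : Set ℕ}

theorem imDeS₁ {z : LHat (FA (Xv W₁ W₂))} {z₁ : LHat (FA (Ev W₁))} (h₁ : Is₁ z z₁)
    (h : ImDeS Λ z) : ImDeS Λ z₁ := by
  obtain ⟨x, hx⟩ := h
  refine ⟨LHat.map (gbMap (gbP₁ F W₁ W₂) fun _ h => fst_ratEq h) x, fun m hm => ?_⟩
  obtain ⟨c, c', hbc, hc, hc'⟩ := hx m hm
  refine ⟨p₁ c, pA₁ c', ⟨fun v => ?_, fun v => ?_⟩, ?_, h₁ m c' hc'⟩
  · rw [gb_bc₁]
    change Finsupp.mapDomain Prod.fst (c'.f v).cy = _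
    rw [hbc.1 v]
  · rw [gb_bc₁]
    change Finsupp.mapDomain Prod.fst (c'.i v).cy = _
    rw [hbc.2 v]
  · have h1 := hc.map (gbMap (gbP₁ F W₁ W₂) fun _ h => fst_ratEq h)
    rw [gb_map_cls _ _ c (p₁ c) rfl] at h1
    exact h1

theorem imDeS₂ {z : LHat (FA (Xv W₁ W₂))} {z₂ : LHat (FA (Ev W₂))} (h₂ : Is₂ z z₂)
    (h : ImDeS Λ z) : ImDeS Λ z₂ := by
  obtain ⟨x, hx⟩ := h
  refine ⟨LHat.map (gbMap (gbP₂ F W₁ W₂) fun _ h => snd_ratEq h) x, fun m hm => ?_⟩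
  obtain ⟨c, c', hbc, hc, hc'⟩ := hx m hm
  refine ⟨p₂ c, pA₂ c', ⟨fun v => ?_, fun v => ?_⟩, ?_, h₂ m c' hc'⟩
  · rw [gb_bc₂]
    change Finsupp.mapDomain Prod.snd (c'.f v).cy = _
    rw [hbc.1 v]
  · rw [gb_bc₂]
    change Finsupp.mapDomain Prod.snd (c'.i v).cy = _
    rw [hbc.2 v]
  · have h1 := hc.map (gbMap (gbP₂ F W₁ W₂) fun _ h => snd_ratEq h)
    rw [gb_map_cls _ _ c (p₂ c) rfl] at h1
    exact h1

/-- **Theorem.** -/
theorem main_E (W₁ W₂ : WeierstrassCurve F) [W₁.IsElliptic] [W₂.IsElliptic] :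
    {l : ℕ | l.Prime ∧ ¬ Gl W₁ W₂ l}.Finite ∧ ∀ Λ : Set ℕ, (∀ l ∈ Λ, Gl W₁ W₂ l) →
    (∀ m : ℕ, m ≠ 0 → Sf Λ m → ∀ c : Fam (Xv W₁ W₂), AlbA c →
      ∃ c' : Fam (Xv W₁ W₂), AlbA c' ∧ c.cl = m • c'.cl) ∧
    ∀ (z : LHat (FA (Xv W₁ W₂))) (z₁ : LHat (FA (Ev W₁))) (z₂ : LHat (FA (Ev W₂))),
      Is₁ z z₁ → Is₂ z z₂ → (ImDeS Λ z ↔ ImDeS Λ z₁ ∧ ImDeS Λ z₂) := by
  refine ⟨gl_fin W₁ W₂, fun Λ h => ⟨fam_dvS h, fun z z₁ z₂ h₁ h₂ =>
    ⟨fun hz => ⟨imDeS₁ h₁ hz, imDeS₂ h₂ hz⟩, fun hz => ?_⟩⟩⟩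
  refine glo_hatS (fun n hn hL c hc => ?_) z z₁ z₂ (fun m c h => h₁ m c h) (fun m c h => h₂ m c h)
    hz.1 hz.2
  obtain ⟨c', -, hc'⟩ := fam_dvS h n hn hL c hc
  exact ⟨c', hc'⟩

end nf

end PE
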