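import Pool.Agent.Lib.MP_f80667_ag.Pe.Ph

/-! The addition of points with singular reduction: the estimates. -/

open ZC BE Polynomial IntermediateField

namespace PE

namespace Ld

variable {F : Type} [Field F] {K Ω : Type} [Field K] [CharZero K] [Field Ω] [Algebra K Ω]
  [Algebra F K] [Algebra F Ω] [IsScalarTower F K Ω] [IsAlgClosure K Ω] {L : Ld K Ω}
  {W : WeierstrassCurve F} {x₀ y₀ α β : Ω}

omit [CharZero K] [Algebra F K] [IsScalarTower F K Ω] [IsAlgClosure K Ω] [Algebra F Ω] in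
/-- The second coordinate is smaller than the first one. -/
private theorem phaA_v {r s : ℝ} (h0 : 0 < r) (h1 : r < 1) (s0 : 0 < s) (s1 : s < 1)
    {u v X f d : Ω} (hd : L.nm d = 1) (hX : d * X = v - u) (hu : L.nm u = r) (hv : L.nm v ≤ r)
    (he : u * v = X ^ 3 - f) (hf : L.nm f ≤ (r * s) ^ 2) :
    L.nm v ≤ max (r ^ 2) (r * s ^ 2) ∧ L.nm v < r ∧ L.nm X = r := by
  have hX1 : L.nm X = L.nm (v - u) := by rw [← hX, L.mul, hd, one_mul]
  have hX2 : L.nm X ≤ r := by
    rw [hX1]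
    exact (L.sub _ _).trans (max_le hv hu.le)
  have h2 : r * L.nm v ≤ r * max (r ^ 2) (r * s ^ 2) := by
    rw [← hu, ← L.mul, he, hu]
    refine (L.sub _ _).trans (max_le ?_ ?_)
    · rw [L.pow]
      refine (pow_le_pow_left₀ (L.nonneg X) hX2 3).trans ?_
      rw [show r ^ 3 = r * r ^ 2 by ring]
      exact mul_le_mul_of_nonneg_left (le_max_left _ _) h0.le
    · refine hf.trans ?_
      rw [show (r * s) ^ 2 = r * (r * s ^ 2) by ring]
      exact mul_le_mul_of_nonneg_left (le_max_right _ _) h0.le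
  have h3 : L.nm v ≤ max (r ^ 2) (r * s ^ 2) := le_of_mul_le_mul_left h2 h0
  have h4 : L.nm v < r := by
    refine h3.trans_lt (max_lt ?_ ?_)
    · nlinarith
    · have h5 : s ^ 2 < 1 := by nlinarith
      nlinarith
  refine ⟨h3, h4, ?_⟩
  rw [hX1, L.sub_comm]
  have h5 : L.nm (u - v - u) < L.nm u := by
    rw [sub_sub_cancel_left, L.neg, hu]
    exact h4
  rw [L.eq_of_close h5, hu]

omit [CharZero K] [Algebra F K] [IsScalarTower F K Ω] [IsAlgClosure K Ω] [Algebra F Ω] in
/-- The estimates for the third point of the line. -/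
private theorem phaA_core {r s : ℝ} (h0 : 0 < r) (hrs : r ≤ s) (s1 : s < 1)
    {u v u' v' X X' f A B d : Ω} (hd : L.nm d = 1) (hX : d * X = v - u) (hX' : d * X' = v' - u')
    (hu : L.nm u = r) (hu' : L.nm u' = s) (hv : L.nm v ≤ r) (hv' : L.nm v' ≤ s)
    (he : u * v = X ^ 3 - f) (he' : u' * v' = X' ^ 3 - f) (hf : L.nm f ≤ (r * s) ^ 2)
    (hAB : A - B = -d) (hA : A * (X - X') = u - u')
    (h3 : A * v + B * u' = X ^ 2 + X * X' + X' ^ 2) :
    L.nm (A * B - X - X') ≤ r * s ∧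
      L.nm (B * (A * B - X - X') + (v - B * X)) = r * s ∧
      L.nm (A * (A * B - X - X') + (v - B * X)) ≤ r * s := by
  have s0 : 0 < s := h0.trans_le hrs
  have r1 : r < 1 := hrs.trans_lt s1
  have hrs0 : 0 < r * s := mul_pos h0 s0
  obtain ⟨a1, a2, a3⟩ := phaA_v h0 r1 s0 s1 hd hX hu hv he hf
  obtain ⟨-, b2, b3⟩ := phaA_v s0 s1 h0 r1 hd hX' hu' hv' he' (by rwa [mul_comm s r])
  have hvrs : L.nm v ≤ r * s := a1.trans (max_le (by nlinarith) (by nlinarith))
  have hvs : L.nm v ≤ s ^ 2 := a1.trans (max_le (by nlinarith) (by nlinarith))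
  have hS : L.nm (X ^ 2 + X * X' + X' ^ 2) ≤ s ^ 2 := by
    refine (L.add _ _).trans (max_le ((L.add _ _).trans (max_le ?_ ?_)) ?_)
    · rw [L.pow, a3]
      exact pow_le_pow_left₀ h0.le hrs 2
    · rw [L.mul, a3, b3, sq]
      exact mul_le_mul_of_nonneg_right hrs s0.le
    · rw [L.pow, b3]
  have hs2 : s ^ 2 < s := by nlinarith
  -- the norm of `A`
  have hA1 : L.nm A = 1 := by
    have e1 : A * (v + u') = -(d * u') + (X ^ 2 + X * X' + X' ^ 2) := by
      linear_combination h3 + u' * hAB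
    have n1 : L.nm (v + u') = s := by
      have h5 : L.nm (v + u' - u') < L.nm u' := by
        rw [add_sub_cancel_right, hu']
        exact a2.trans_le hrs
      rw [L.eq_of_close h5, hu']
    have n2 : L.nm (-(d * u') + (X ^ 2 + X * X' + X' ^ 2)) = s := by
      have h5 : L.nm (-(d * u') + (X ^ 2 + X * X' + X' ^ 2) - -(d * u')) < L.nm (-(d * u')) := by
        rw [add_sub_cancel_left, L.neg, L.mul, hd, one_mul, hu']
        exact hS.trans_lt hs2
      rw [L.eq_of_close h5, L.neg, L.mul, hd, one_mul, hu']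
    have n3 := congrArg L.nm e1
    rw [L.mul, n1, n2] at n3
    exact (mul_eq_right₀ s0.ne').1 n3
  have hB1 : L.nm B ≤ s := by
    have e1 : B * u' = (X ^ 2 + X * X' + X' ^ 2) - A * v := by
      linear_combination h3
    have n3 : L.nm B * s ≤ s * s := by
      rw [← hu', ← L.mul, e1, hu', ← sq]
      refine (L.sub _ _).trans (max_le hS ?_)
      rw [L.mul, hA1, one_mul]
      exact hvs
    exact le_of_mul_le_mul_right n3 s0
  have hc : L.nm (v - B * X) ≤ r * s := by
    refine (L.sub _ _).trans (max_le hvrs ?_)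
    rw [L.mul, a3, mul_comm r s]
    exact mul_le_mul_of_nonneg_right hB1 h0.le
  -- the identities
  have i0 : v - B * X = u - A * X := by linear_combination -hX + X * hAB
  have i1 : v - B * X = u' - A * X' := by linear_combination i0 - hA
  have i2 : X * X' * (A * B - X - X') = f + (v - B * X) ^ 2 := by
    linear_combination X * h3 + X * B * i1 - he - v * i0
  have i3 : X * X' + (A * B - X - X') * (X + X') = -((v - B * X) * (A + B)) := by
    linear_combination h3 + B * i1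
  have hX3 : L.nm (A * B - X - X') ≤ r * s := by
    have n1 := congrArg L.nm i2
    rw [L.mul, L.mul, a3, b3] at n1
    have n2 : r * s * L.nm (A * B - X - X') ≤ r * s * (r * s) := by
      rw [n1, ← sq]
      refine (L.add _ _).trans (max_le hf ?_)
      rw [L.pow]
      exact pow_le_pow_left₀ (L.nonneg _) hc 2
    exact le_of_mul_le_mul_left n2 hrs0
  have hlt : ∀ z : Ω, L.nm z ≤ s → L.nm (z * (A * B - X - X')) < r * s := by
    intro z hz
    rw [L.mul]
    refine (mul_le_mul hz hX3 (L.nonneg _) s0.le).trans_lt ?_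
    nlinarith
  have hcc : L.nm (v - B * X) = r * s := by
    have n1 : L.nm (X * X' + (A * B - X - X') * (X + X')) = r * s := by
      have h5 : L.nm (X * X' + (A * B - X - X') * (X + X') - X * X') < L.nm (X * X') := by
        rw [add_sub_cancel_left, L.mul X X', a3, b3, mul_comm]
        refine hlt _ ((L.add _ _).trans (max_le ?_ ?_))
        · rw [a3]
          exact hrs
        · rw [b3]
      rw [L.eq_of_close h5, L.mul, a3, b3]
    have n2 : L.nm (A + B) = 1 := by
      have h5 : L.nm (A + B - A) < L.nm A := by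
        rw [add_sub_cancel_left, hA1]
        exact hB1.trans_lt s1
      rw [L.eq_of_close h5, hA1]
    rw [i3, L.neg, L.mul, n2, mul_one] at n1
    exact n1
  refine ⟨hX3, ?_, ?_⟩
  · have h5 : L.nm (B * (A * B - X - X') + (v - B * X) - (v - B * X)) < L.nm (v - B * X) := by
      rw [add_sub_cancel_right, hcc]
      exact hlt _ hB1
    rw [L.eq_of_close h5, hcc]
  · refine (L.add _ _).trans (max_le ?_ hc)
    rw [L.mul, hA1, one_mul]
    exact hX3

omit [CharZero K] [IsAlgClosure K Ω] in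
private theorem phaA_X (x y : Ω) :
    (α - β) * (x - x₀) = nu x₀ y₀ β x y - nu x₀ y₀ α x y := by
  unfold nu
  ring

/-- The addition formula, the first level is the smaller one. -/
private theorem phaA_le (hc : L.Nc W x₀ y₀ α β) {r s : ℝ} {P Q : Pt W Ω}
    (hP : L.La W x₀ y₀ α β r P) (hQ : L.La W x₀ y₀ α β s Q)
    (hf : L.nm (fe W x₀ y₀) ≤ (r * s) ^ 2) (hrs : r ≤ s) :
    L.La W x₀ y₀ α β (r * s) (P + Q) := by
  have r0 : 0 < r := la_pos hc hP
  have s0 : 0 < s := la_pos hc hQ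
  obtain ⟨x, y, hPn, rfl, hx, r1, hu, hv⟩ := hP
  obtain ⟨x', y', hQn, rfl, hx', s1, hu', hv'⟩ := hQ
  have he := nc_eq hc x y
  have he' := nc_eq hc x' y'
  rw [fe_zero hPn, add_zero] at he
  rw [fe_zero hQn, add_zero] at he'
  have hX := phaA_X (α := α) (β := β) (x₀ := x₀) (y₀ := y₀) x y
  have hX' := phaA_X (α := α) (β := β) (x₀ := x₀) (y₀ := y₀) x' y'
  have h7 := hc.dy
  have h7x := hc.dx
  have h8 := hc.add
  have h9 := hc.mul
  unfold dy at h7
  unfold dx at h7x
  obtain ⟨-, hvr, -⟩ := phaA_v r0 r1 s0 s1 hc.ne hX hu hv he hf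
  obtain ⟨l, hl1, hl2, h5, h6⟩ := Pn.slope (W := W.baseChange Ω) hPn hQn (by
    rintro ⟨hxx, hyy⟩
    have e1 : nu x₀ y₀ β x y = - nu x₀ y₀ α x' y' := by
      change y = -y' - algebraMap F Ω W.a₁ * x' - algebraMap F Ω W.a₃ at hyy
      unfold nu
      rw [hyy, hxx]
      linear_combination -h7 - (x' - x₀) * h8
    rw [e1, L.neg, hu'] at hvr
    exact absurd hvr (not_lt.2 hrs))
  have hsum : (Pt.aff x y hPn : Pt W Ω) + Pt.aff x' y' hQn = Pt.aff _ _ h5 := h6
  have hl2' : l * (y + y' + algebraMap F Ω W.a₁ * x' + algebraMap F Ω W.a₃) =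
      x ^ 2 + x * x' + x' ^ 2 + algebraMap F Ω W.a₂ * (x + x') + algebraMap F Ω W.a₄ -
        algebraMap F Ω W.a₁ * y := hl2
  have hA : (l - α) * ((x - x₀) - (x' - x₀)) = nu x₀ y₀ α x y - nu x₀ y₀ α x' y' := by
    unfold nu
    linear_combination hl1
  have h3 : (l - α) * nu x₀ y₀ β x y + (l - β) * nu x₀ y₀ α x' y' =
      (x - x₀) ^ 2 + (x - x₀) * (x' - x₀) + (x' - x₀) ^ 2 := by
    unfold nu
    linear_combination hl2' - β * hl1 + ((x - x₀) + (x' - x₀)) * h9 -
      ((y - y₀) + l * (x' - x₀)) * h8 + h7x - l * h7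
  obtain ⟨k1, k2, k3⟩ := phaA_core (L := L) r0 hrs s1 hc.ne hX hX' hu hu' hv hv' he he' hf
    (A := l - α) (B := l - β) (by ring) hA h3
  have hx3 : l ^ 2 + algebraMap F Ω W.a₁ * l - algebraMap F Ω W.a₂ - x - x' =
      ((l - α) * (l - β) - (x - x₀) - (x' - x₀)) + x₀ := by
    linear_combination -h9 + l * h8
  refine ⟨_, _, h5, hsum, ?_, ?_, ?_, ?_⟩
  · change L.nm (l ^ 2 + algebraMap F Ω W.a₁ * l - algebraMap F Ω W.a₂ - x - x') ≤ 1
    rw [hx3]
    refine (L.add _ _).trans (max_le (k1.trans ?_) hc.x_le)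
    nlinarith
  · nlinarith
  · rw [← k2, ← L.neg ((l - β) * _ + _)]
    congr 1
    change nu x₀ y₀ α (l ^ 2 + algebraMap F Ω W.a₁ * l - algebraMap F Ω W.a₂ - x - x')
      (-(l * ((l ^ 2 + algebraMap F Ω W.a₁ * l - algebraMap F Ω W.a₂ - x - x') - x) + y) -
          algebraMap F Ω W.a₁ * (l ^ 2 + algebraMap F Ω W.a₁ * l - algebraMap F Ω W.a₂ - x - x') -
            algebraMap F Ω W.a₃) = _
    rw [hx3]
    unfold nu
    linear_combination -h7 - ((l - α) * (l - β) - (x - x₀) - (x' - x₀)) * h8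
  · refine le_trans (le_of_eq ?_) k3
    rw [← L.neg ((l - α) * _ + _)]
    congr 1
    change nu x₀ y₀ β (l ^ 2 + algebraMap F Ω W.a₁ * l - algebraMap F Ω W.a₂ - x - x')
      (-(l * ((l ^ 2 + algebraMap F Ω W.a₁ * l - algebraMap F Ω W.a₂ - x - x') - x) + y) -
          algebraMap F Ω W.a₁ * (l ^ 2 + algebraMap F Ω W.a₁ * l - algebraMap F Ω W.a₂ - x - x') -
            algebraMap F Ω W.a₃) = _
    rw [hx3]
    unfold nu
    linear_combination -h7 - ((l - α) * (l - β) - (x - x₀) - (x' - x₀)) * h8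

/-- The addition formula. -/
theorem phaA_add (hc : L.Nc W x₀ y₀ α β) {r s : ℝ} {P Q : Pt W Ω}
    (hP : L.La W x₀ y₀ α β r P) (hQ : L.La W x₀ y₀ α β s Q)
    (hf : L.nm (fe W x₀ y₀) ≤ (r * s) ^ 2) : L.La W x₀ y₀ α β (r * s) (P + Q) := by
  rcases le_total r s with hrs | hrs
  · exact phaA_le hc hP hQ hf hrs
  · rw [mul_comm, add_comm]
    exact phaA_le hc hQ hP (by rwa [mul_comm]) hrs

end Ld

end PE
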