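import Pool.Agent.Lib.MP_f80667_ag.Pe.Ph

/-! Points of a given level: the fixed point. -/

open ZC BE Polynomial IntermediateField

namespace PE

namespace Ld

variable {F : Type} [Field F] {K Ω : Type} [Field K] [CharZero K] [Field Ω] [Algebra K Ω]
  [Algebra F K] [Algebra F Ω] [IsScalarTower F K Ω] [IsAlgClosure K Ω] {L : Ld K Ω}
  {W : WeierstrassCurve F} {x₀ y₀ α β : Ω}

omit [CharZero K] [Algebra F K] [IsScalarTower F K Ω] [IsAlgClosure K Ω] [Algebra F Ω] in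
private theorem phaE_fix (M : IntermediateField K Ω) (hM : FiniteDimensional K M) {r : ℝ}
    (h0 : 0 ≤ r) (h1 : r < 1) (T : Ω → Ω) (hT : ∀ s ∈ M, T s ∈ M)
    (hT1 : ∀ s, L.nm s ≤ 1 → L.nm (T s) ≤ 1)
    (hT2 : ∀ s t, L.nm s ≤ 1 → L.nm t ≤ 1 → L.nm (T s - T t) ≤ r * L.nm (s - t)) :
    ∃ s ∈ M, L.nm s ≤ 1 ∧ T s = s := by
  have hz : L.nm (0 : Ω) ≤ 1 := by
    rw [L.zero]
    exact zero_le_one
  have hx : ∀ n : ℕ, T^[n] 0 ∈ M ∧ L.nm (T^[n] 0) ≤ 1 := by
    intro n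
    induction n with
    | zero => exact ⟨M.zero_mem, hz⟩
    | succ n ih =>
      rw [Function.iterate_succ_apply']
      exact ⟨hT _ ih.1, hT1 _ ih.2⟩
  have hd : ∀ n : ℕ, L.nm (T^[n + 1] 0 - T^[n] 0) ≤ r ^ n := by
    intro n
    induction n with
    | zero =>
      rw [pow_zero]
      change L.nm (T 0 - 0) ≤ 1
      rw [sub_zero]
      exact hT1 _ hz
    | succ n ih =>
      rw [Function.iterate_succ_apply' T (n + 1), Function.iterate_succ_apply' T n, pow_succ,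
        mul_comm]
      refine (hT2 _ _ ?_ (hx n).2).trans (mul_le_mul_of_nonneg_left ?_ h0)
      · have h2 := (hx (n + 1)).2
        rwa [Function.iterate_succ_apply'] at h2
      · rw [Function.iterate_succ_apply'] at ih
        exact ih
  obtain ⟨y, hy, hyn⟩ := L.cpl M hM r h0 h1 (fun n => T^[n] 0) (fun n => (hx n).1) hd
  have hy1 : L.nm y ≤ 1 := by
    have h2 := hyn 0
    rw [pow_zero] at h2
    have h3 : L.nm (y - 0) ≤ 1 := h2
    rwa [sub_zero] at h3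
  refine ⟨y, hy, hy1, ?_⟩
  have h3 : ∀ n : ℕ, L.nm (T y - y) ≤ r ^ n := by
    intro n
    have h4 : L.nm (T y - T^[n + 1] 0) ≤ r ^ (n + 1) := by
      rw [Function.iterate_succ_apply', pow_succ, mul_comm]
      exact (hT2 _ _ hy1 (hx n).2).trans (mul_le_mul_of_nonneg_left (hyn n) h0)
    have h5 : L.nm (T^[n + 1] 0 - y) ≤ r ^ (n + 1) := by
      rw [L.sub_comm]
      exact hyn (n + 1)
    have h6 := L.add (T y - T^[n + 1] 0) (T^[n + 1] 0 - y)
    rw [sub_add_sub_cancel] at h6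
    refine h6.trans ((max_le h4 h5).trans ?_)
    rw [pow_succ]
    exact mul_le_of_le_one_right (pow_nonneg h0 n) h1.le
  have h7 : L.nm (T y - y) ≤ 0 := by
    have h8 := tendsto_pow_atTop_nhds_zero_of_lt_one h0 h1
    exact ge_of_tendsto' h8 h3
  have h9 : L.nm (T y - y) = 0 := le_antisymm h7 (L.nonneg _)
  exact sub_eq_zero.1 ((L.zero_iff _).1 h9)

/-- Points of a given level. -/
theorem phaE_ex [W.IsElliptic] (h : L.Md W) (hc : L.Nk W x₀ y₀ α β) (M : IntermediateField K Ω)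
    [hM : FiniteDimensional K M] {w : Ω} (hw : w ∈ M) (h0 : w ≠ 0) (h1 : L.nm w < 1)
    (hf : L.nm (fe W x₀ y₀) ≤ L.nm w ^ 2) :
    ∃ P : Pt W Ω, Fx M P ∧ L.La W x₀ y₀ α β (L.nm w) P := by
  have hbot : ∀ z ∈ (⊥ : IntermediateField K Ω), z ∈ M := fun z hz => (bot_le : ⊥ ≤ M) hz
  have hco : ∀ a : F, algebraMap F Ω a ∈ M := by
    intro a
    rw [IsScalarTower.algebraMap_apply F K Ω]
    exact M.algebraMap_mem _
  have hx0 := hbot _ hc.x_mem
  have hy0 := hbot _ hc.y_mem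
  have hα := hbot _ hc.α_mem
  have hβ := hbot _ hc.β_mem
  have hfM : fe W x₀ y₀ ∈ M := by
    unfold fe
    refine M.sub_mem (M.add_mem (M.add_mem (pow_mem hy0 2)
      (M.mul_mem (M.mul_mem (hco _) hx0) hy0)) (M.mul_mem (hco _) hy0)) ?_
    exact M.add_mem (M.add_mem (M.add_mem (pow_mem hx0 3) (M.mul_mem (hco _) (pow_mem hx0 2)))
      (M.mul_mem (hco _) hx0)) (hco _)
  have hab : α - β ≠ 0 := L.ne_zero (by rw [hc.ne]; exact zero_lt_one)
  have hwp : 0 < L.nm w := L.pos h0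
  have hr : L.nm (fe W x₀ y₀ / w ^ 2) ≤ 1 := by
    rw [L.div, L.pow]
    exact div_le_one_of_le₀ hf (by positivity)
  have hsub1 : ∀ s, L.nm s ≤ 1 → L.nm (s - 1) ≤ 1 := by
    intro s hs
    exact (L.sub _ _).trans (max_le hs L.one.le)
  have hq : ∀ s, L.nm s ≤ 1 → L.nm ((s - 1) / (α - β)) ≤ 1 := by
    intro s hs
    rw [L.div, hc.ne, div_one]
    exact hsub1 s hs
  obtain ⟨s, hsM, hs1, hs⟩ := phaE_fix (L := L) M hM hwp.le h1
    (fun s => w * ((s - 1) / (α - β)) ^ 3 - fe W x₀ y₀ / w ^ 2)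
    (by
      intro s hs
      exact M.sub_mem (M.mul_mem hw (pow_mem (M.div_mem (M.sub_mem hs M.one_mem)
        (M.sub_mem hα hβ)) 3)) (M.div_mem hfM (pow_mem hw 2)))
    (by
      intro s hs
      refine (L.sub _ _).trans (max_le ?_ hr)
      rw [L.mul, L.pow]
      exact mul_le_one₀ h1.le (pow_nonneg (L.nonneg _) 3) (pow_le_one₀ (L.nonneg _) (hq s hs)))
    (by
      intro s t hs ht
      have e : w * ((s - 1) / (α - β)) ^ 3 - fe W x₀ y₀ / w ^ 2 -
          (w * ((t - 1) / (α - β)) ^ 3 - fe W x₀ y₀ / w ^ 2) =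
          w * (((s - t) / (α - β)) * (((s - 1) / (α - β)) ^ 2 +
            ((s - 1) / (α - β)) * ((t - 1) / (α - β)) + ((t - 1) / (α - β)) ^ 2)) := by
        have e1 : (s - t) / (α - β) = (s - 1) / (α - β) - (t - 1) / (α - β) := by
          rw [← sub_div]
          ring
        rw [e1]
        ring
      change L.nm (w * ((s - 1) / (α - β)) ^ 3 - fe W x₀ y₀ / w ^ 2 -
          (w * ((t - 1) / (α - β)) ^ 3 - fe W x₀ y₀ / w ^ 2)) ≤ _
      rw [e, L.mul, L.mul, L.div, hc.ne, div_one]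
      refine mul_le_mul_of_nonneg_left ?_ hwp.le
      refine mul_le_of_le_one_right (L.nonneg _) ?_
      refine (L.add _ _).trans (max_le ((L.add _ _).trans (max_le ?_ ?_)) ?_)
      · rw [L.pow]
        exact pow_le_one₀ (L.nonneg _) (hq s hs)
      · rw [L.mul]
        exact mul_le_one₀ (hq s hs) (L.nonneg _) (hq t ht)
      · rw [L.pow]
        exact pow_le_one₀ (L.nonneg _) (hq t ht))
  change w * ((s - 1) / (α - β)) ^ 3 - fe W x₀ y₀ / w ^ 2 = s at hs
  set X : Ω := w * ((s - 1) / (α - β)) with hX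
  have hXab : X * (α - β) = w * s - w := by
    rw [hX]
    field_simp
  have hX1 : L.nm X ≤ 1 := by
    rw [hX, L.mul]
    exact mul_le_one₀ h1.le (L.nonneg _) (hq s hs1)
  have hXM : X ∈ M := M.mul_mem hw (M.div_mem (M.sub_mem hsM M.one_mem) (M.sub_mem hα hβ))
  have e1 : nu x₀ y₀ α (x₀ + X) (y₀ + w + α * X) = w := by
    unfold nu
    ring
  have e2 : nu x₀ y₀ β (x₀ + X) (y₀ + w + α * X) = w * s := by
    unfold nu
    linear_combination hXab
  have e3 : X ^ 3 - fe W x₀ y₀ = w * (w * s) := by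
    have e4 : w ^ 2 * s = w ^ 2 * (w * ((s - 1) / (α - β)) ^ 3 - fe W x₀ y₀ / w ^ 2) := by
      rw [hs]
    have e5 : w ^ 2 * (w * ((s - 1) / (α - β)) ^ 3 - fe W x₀ y₀ / w ^ 2) =
        X ^ 3 - fe W x₀ y₀ := by
      rw [mul_sub, mul_div_cancel₀ _ (pow_ne_zero 2 h0), hX]
      ring
    rw [e5] at e4
    linear_combination -e4
  have e6 : fe W (x₀ + X) (y₀ + w + α * X) = 0 := by
    have e7 := nc_eq hc.toNc (x₀ + X) (y₀ + w + α * X)
    rw [e1, e2, add_sub_cancel_left] at e7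
    linear_combination -e7 - e3
  have hP := aff_of_fe e6
  refine ⟨Pt.aff _ _ hP, (fx_aff M hP).2 ⟨M.add_mem hx0 hXM,
    M.add_mem (M.add_mem hy0 hw) (M.mul_mem hα hXM)⟩, _, _, hP, rfl, ?_, h1, ?_, ?_⟩
  · exact (L.add _ _).trans (max_le hc.x_le hX1)
  · rw [e1]
  · rw [e2, L.mul]
    exact mul_le_of_le_one_right hwp.le hs1

end Ld

end PE
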