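import Pool.Agent.Lib.MP_f80667_ag.Pe.Ph
import Pool.Agent.Lib.MP_f80667_ag.Pe.PhaE
import Pool.Agent.Lib.MP_f80667_ag.Pe.PhaA

/-! The addition of points with singular reduction. -/

open ZC BE Polynomial IntermediateField

namespace PE

namespace Ld

variable {F : Type} [Field F] {K Ω : Type} [Field K] [CharZero K] [Field Ω] [Algebra K Ω]
  [Algebra F K] [Algebra F Ω] [IsScalarTower F K Ω] [IsAlgClosure K Ω] {L : Ld K Ω}
  {W : WeierstrassCurve F} {x₀ y₀ α β : Ω}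

/-- **Addition.** Proof: let `u`, `v`, `X` belong to `P`, `u'`, `v'`, `X'` to `Q`, `X = (v - u) / (α - β)`; `r² > nm f₀`, so `nm v < r` (`nc_eq`), the same for `Q`; assume `r ≤ s` (exchange `P` and `Q`). `P ≠ - Q` (the coordinates of `- Q` are `- v'`, `- u'`). `Pn.slope`:
`l (x - x') = y - y'` and `l (y + y' + a₁ x' + a₃) = …`, so `(l - α) (x - x') = u - u'`, `(l - β) (x - x') = v - v'`, and with `D = y + y' + a₁ x' + a₃ = u + v' = v + u'` up to terms which vanish at the critical point: `(l - α) D`, `(l - β) D` are quadratic polynomials in `X`, `X'`, `Y`, `Y'`.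
Claim 1: `nm (l - α) = 1`, `nm (l - β) < 1`, `nm c ≤ r s` for `c = v - (l - β) X = u - (l - α) X`. If `r < s`: `nm (x - x') = s = nm (u - u')`; `nm v' ≤ s²`, `nm v ≤ max (r²) (r s²)`, so `nm (l - β) ≤ s` and `nm ((l - β) X) ≤ r s`. If `r = s`: `nm f₀ ≤ r⁴ < r³`, so `nm v = nm v' = r²`; `x ≠ x'`:
`u (v - v') + v' (u - u') = (x - x') (X² + X X' + X'²)` gives `nm (v - v') ≤ r nm (u - u')`, so `nm (x - x') = nm (u - u')`; `x = x'`, `P = Q`: `(l - α) (u + v) = 3 X² - u (α - β)`, `(l - β) (u + v) = 3 X² + v (α - β)`.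
Claim 2: let `x''` be the `x`-coordinate of the sum, `X'' = x'' - x₀`. On the line: `T³ - f₀ - ((l - α) T + c) ((l - β) T + c) = (T - X) (T - X') (T - X'')`. So `X X' X'' = f₀ + c²`: `nm X'' ≤ r s`; `X X' + X'' (X + X') = - c (2 l - α - β)`: `nm c = r s`. The coordinates of the sum are
`- ((l - β) X'' + c)` (the coordinate `u`) and `- ((l - α) X'' + c)`. -/
theorem la_add (h : L.Md W) (hc : L.Nc W x₀ y₀ α β) {r s : ℝ} {P Q : Pt W Ω}
    (hP : L.La W x₀ y₀ α β r P) (hQ : L.La W x₀ y₀ α β s Q)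
    (hf : L.nm (fe W x₀ y₀) ≤ (r * s) ^ 2) : L.La W x₀ y₀ α β (r * s) (P + Q) := by
  exact phaA_add hc hP hQ hf

omit [CharZero K] [Algebra F K] [IsScalarTower F K Ω] [IsAlgClosure K Ω] in
private theorem pha_r {r : ℝ} {P : Pt W Ω} (hP : L.La W x₀ y₀ α β r P) : 0 ≤ r ∧ r ≤ 1 := by
  obtain ⟨x, y, -, -, -, h1, h2, -⟩ := hP
  exact ⟨by rw [← h2]; exact L.nonneg _, h1.le⟩

/-- Proof: induction. -/
theorem la_nsmul (h : L.Md W) (hc : L.Nc W x₀ y₀ α β) {r : ℝ} {P : Pt W Ω}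
    (hP : L.La W x₀ y₀ α β r P) {n : ℕ} (hn : n ≠ 0) (hf : L.nm (fe W x₀ y₀) ≤ (r ^ n) ^ 2) :
    L.La W x₀ y₀ α β (r ^ n) (n • P) := by
  obtain ⟨h0, h1⟩ := pha_r hP
  induction n with
  | zero => exact absurd rfl hn
  | succ n ih =>
    rcases Nat.eq_zero_or_pos n with rfl | hn1
    · rw [zero_add, pow_one, one_smul]
      exact hP
    · have h2 : L.nm (fe W x₀ y₀) ≤ (r ^ n) ^ 2 := by
        refine hf.trans (pow_le_pow_left₀ (pow_nonneg h0 _) ?_ 2)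
        rw [pow_succ]
        exact mul_le_of_le_one_right (pow_nonneg h0 n) h1
      rw [pow_succ, succ_nsmul]
      refine la_add h hc (ih hn1.ne' h2) hP ?_
      rwa [← pow_succ]

/-- The norm. Proof: `nm_rep`: the norm is the sum of `n` conjugates; `la_act`, `la_add`. -/
theorem la_nm (h : L.Md W) (hc : L.Nk W x₀ y₀ α β) {M N : IntermediateField K Ω} (hMN : M ≤ N)
    [FiniteDimensional K N] {r : ℝ} {P : Pt W Ω} (hP : L.La W x₀ y₀ α β r P) (hN : Fx N P)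
    (hf : L.nm (fe W x₀ y₀) ≤ (r ^ N.fixingSubgroup.relIndex M.fixingSubgroup) ^ 2) :
    L.La W x₀ y₀ α β (r ^ N.fixingSubgroup.relIndex M.fixingSubgroup) (Nm M N P) := by
  classical
  obtain ⟨h0, h1⟩ := pha_r hP
  obtain ⟨s, hs, -, h2, h3⟩ := nm_rep (K := K) hMN
  have hne : s.Nonempty := by
    obtain ⟨δ, ⟨hδ, -⟩, -⟩ := h2 1 M.fixingSubgroup.one_mem
    exact ⟨δ, hδ⟩
  rw [h3, ← hs]
  rw [← hs] at hf
  clear hs h2 h3
  induction hne using Finset.Nonempty.cons_induction with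
  | singleton γ =>
    rw [Finset.card_singleton, Finset.sum_singleton, pow_one]
    exact la_act hc hP γ
  | cons γ s hγ hne ih =>
    rw [Finset.card_cons] at hf ⊢
    rw [Finset.sum_cons, add_comm (γ • P), pow_succ]
    have h4 : L.nm (fe W x₀ y₀) ≤ (r ^ s.card) ^ 2 := by
      refine hf.trans (pow_le_pow_left₀ (pow_nonneg h0 _) ?_ 2)
      rw [pow_succ]
      exact mul_le_of_le_one_right (pow_nonneg h0 _) h1
    refine la_add h hc.toNc (ih h4) (la_act hc hP γ) ?_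
    rwa [← pow_succ]

/-- **Points of a given level.** Proof: `u = w`, `v = w s`, where `s = w ((s - 1) / (α - β))³ - f₀ / w²`: the map on the right is a contraction of the unit ball of `M` with the factor `nm w`: `cpl`. The point is `X = (v - u) / (α - β)`, `Y = u + α X`; `nc_eq`, `aff_of_fe`, `fx_aff`. -/
theorem la_ex [W.IsElliptic] (h : L.Md W) (hc : L.Nk W x₀ y₀ α β) (M : IntermediateField K Ω)
    [FiniteDimensional K M] {w : Ω} (hw : w ∈ M) (h0 : w ≠ 0) (h1 : L.nm w < 1)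
    (hf : L.nm (fe W x₀ y₀) ≤ L.nm w ^ 2) :
    ∃ P : Pt W Ω, Fx M P ∧ L.La W x₀ y₀ α β (L.nm w) P := by
  exact phaE_ex h hc M hw h0 h1 hf

/-- The values of `Ur ⊥ N` are those of `K`. Proof: `unif` for `⊥`, `ur_val`. -/
theorem bot_val (L : Ld K Ω) : ∃ ρ : ℝ, 0 < ρ ∧ ρ < 1 ∧ ∀ N ≠ 0, ∀ x ∈ L.Ur ⊥ N, x ≠ 0 →
    ∃ n : ℤ, L.nm x = ρ ^ n := by
  obtain ⟨π, -, h0, h1, hv⟩ := L.unif (⊥ : IntermediateField K Ω) inferInstance
  refine ⟨L.nm π, h0, h1, fun N hN x hx hx0 => ?_⟩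
  obtain ⟨φ, q, hφ⟩ := exists_frob L.toLf (⊥ : IntermediateField K Ω)
  obtain ⟨f, hf, hq, -⟩ := frob_q hφ
  rw [hq] at hφ
  have hx' : x ∈ L.Ur ⊥ (f * N) := ur_dvd ⊥ (dvd_mul_left N f) hx
  obtain ⟨y, hy, hyx⟩ := ur_val hφ hf hN hx'
  have hy0 : y ≠ 0 := by
    rintro rfl
    rw [L.zero] at hyx
    exact (L.pos hx0).ne hyx
  obtain ⟨n, hn⟩ := hv y hy hy0
  exact ⟨n, by rw [← hyx, hn]⟩

omit [CharZero K] [IsScalarTower F K Ω] [IsAlgClosure K Ω] [Algebra F K] in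
/-- The class of a point: its reduction is nonsingular, or its level, or the level of its negative. -/
private def Clp (L : Ld K Ω) (W : WeierstrassCurve F) (x₀ y₀ α β : Ω) (ρ : ℝ) (c : ℕ)
    (Q : Pt W Ω) : Prop :=
  (c = 0 ∧ L.Ns Q) ∨ (∃ k : ℕ, c = 2 * k + 1 ∧ L.La W x₀ y₀ α β (ρ ^ (k + 1)) Q) ∨
    ∃ k : ℕ, c = 2 * k + 2 ∧ L.La W x₀ y₀ α β (ρ ^ (k + 1)) (-Q)

/-- Points of the same class. -/
private theorem clp_ns (h : L.Md W) (hc : L.Nc W x₀ y₀ α β) {ρ : ℝ} {c : ℕ} {Q Q' : Pt W Ω}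
    (hQ : Clp L W x₀ y₀ α β ρ c Q) (hQ' : Clp L W x₀ y₀ α β ρ c Q') : L.Ns (Q - Q') := by
  rcases hQ with ⟨h1, h2⟩ | ⟨k, h1, h2⟩ | ⟨k, h1, h2⟩
  · rcases hQ' with ⟨h3, h4⟩ | ⟨k', h3, h4⟩ | ⟨k', h3, h4⟩
    · rw [sub_eq_add_neg]
      exact ns_add h.toIt h2 (ns_neg h.toIt h4)
    · omega
    · omega
  · rcases hQ' with ⟨h3, h4⟩ | ⟨k', h3, h4⟩ | ⟨k', h3, h4⟩
    · omega
    · have hk : k = k' := by omega
      subst hk
      exact la_ns h hc h2 h4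
    · omega
  · rcases hQ' with ⟨h3, h4⟩ | ⟨k', h3, h4⟩ | ⟨k', h3, h4⟩
    · omega
    · omega
    · have hk : k = k' := by omega
      subst hk
      have h5 := ns_neg h.toIt (la_ns h hc h2 h4)
      rwa [show -(-Q - -Q') = Q - Q' by abel] at h5

/-- The level of a point over an unramified extension. -/
private theorem clp_lv (hc : L.Nc W x₀ y₀ α β) {ρ : ℝ} (h0 : 0 < ρ) (h1 : ρ < 1) {n : ℕ}
    (hn : ρ ^ n ≤ L.nm (fe W x₀ y₀)) {N : ℕ} (hN : N ≠ 0)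
    (hv : ∀ N ≠ 0, ∀ x ∈ L.Ur ⊥ N, x ≠ 0 → ∃ n : ℤ, L.nm x = ρ ^ n) {w : Ω}
    (hw : w ∈ L.Ur ⊥ N) {Q : Pt W Ω} (hQ : L.La W x₀ y₀ α β (L.nm w) Q) :
    ∃ k : ℕ, 2 * (k + 1) ≤ n ∧ L.nm w = ρ ^ (k + 1) := by
  have hw0 : w ≠ 0 := L.ne_zero (la_pos hc hQ)
  obtain ⟨m, hm⟩ := hv N hN w hw hw0
  have hw1 : L.nm w < 1 := by
    obtain ⟨x, y, -, -, -, h2, -⟩ := hQ
    exact h2
  have hm0 : 0 < m := by
    rw [hm, ← zpow_zero ρ] at hw1
    exact (zpow_lt_zpow_iff_right_of_lt_one₀ h0 h1).1 hw1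
  have h3 := hn.trans (la_half hc hQ)
  rw [hm, ← zpow_natCast ρ n, ← zpow_natCast, ← zpow_mul] at h3
  have h4 : m * (2 : ℕ) ≤ n := (zpow_le_zpow_iff_right_of_lt_one₀ h0 h1).1 h3
  obtain ⟨k, rfl⟩ : ∃ k : ℕ, m = (k + 1 : ℕ) := ⟨(m - 1).toNat, by omega⟩
  refine ⟨k, ?_, ?_⟩
  · push_cast at h4
    omega
  · rw [hm, zpow_natCast]

/-- Every point over an unramified extension is in one of `n + 1` classes. -/
private theorem clp_ex (h : L.Md W) (hc : L.Nk W x₀ y₀ α β) {ρ : ℝ} (h0 : 0 < ρ) (h1 : ρ < 1)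
    {n : ℕ} (hn : ρ ^ n ≤ L.nm (fe W x₀ y₀)) {N : ℕ} (hN : N ≠ 0)
    (hv : ∀ N ≠ 0, ∀ x ∈ L.Ur ⊥ N, x ≠ 0 → ∃ n : ℤ, L.nm x = ρ ^ n) (Q : Pt W Ω)
    (hQ : Fx (L.Ur ⊥ N) Q) : ∃ c ≤ n, Clp L W x₀ y₀ α β ρ c Q := by
  by_cases hs : L.Ns Q
  · exact ⟨0, Nat.zero_le _, Or.inl ⟨rfl, hs⟩⟩
  obtain ⟨w, hw, h2⟩ := la_or h hc hs _ hQ
  rcases h2 with h2 | h2
  · obtain ⟨k, h3, h4⟩ := clp_lv hc.toNc h0 h1 hn hN hv hw h2
    rw [h4] at h2
    exact ⟨2 * k + 1, by omega, Or.inr (Or.inl ⟨k, rfl, h2⟩)⟩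
  · obtain ⟨k, h3, h4⟩ := clp_lv hc.toNc h0 h1 hn hN hv hw h2
    rw [h4] at h2
    exact ⟨2 * k + 2, by omega, Or.inr (Or.inr ⟨k, rfl, h2⟩)⟩

omit [CharZero K] [IsAlgClosure K Ω] in
/-- Multiples of a point with nonsingular reduction. -/
private theorem clp_zs (h : L.It W) {Q : Pt W Ω} (hQ : L.Ns Q) (b : ℤ) : L.Ns (b • Q) := by
  have h1 : ∀ m : ℕ, L.Ns (m • Q) := by
    intro m
    induction m with
    | zero =>
      rw [zero_smul]
      exact ns_fm h fm_zero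
    | succ m ih =>
      rw [succ_nsmul]
      exact ns_add h ih hQ
  rcases Int.eq_nat_or_neg b with ⟨m, rfl | rfl⟩
  · rw [natCast_zsmul]
    exact h1 m
  · rw [neg_smul, natCast_zsmul]
    exact ns_neg h (h1 m)

/-- **The component group.** Proof: let `ρ` be as in `bot_val`, `ρ ^ n ≤ nm f₀` (`nc_disc`: `f₀ ≠ 0`). Let `n₀ = n + 1`. Among the `n + 2` points `j P`, `j ≤ n + 1`, there are two, `i P` and `j P`, `i < j`, both with nonsingular reduction, or with `La (ρ ^ k)` for the same `k`, or both their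
negatives (`la_or`, `la_half`: `1 ≤ k`, `2 k ≤ n`: at most `n + 1` classes). So `m P` has nonsingular reduction for `m = j - i ≤ n + 1` (`la_ns`). If `l > n + 1` is prime: `a l + b m = 1`, `P' = a P`. -/
theorem ms_fin [W.IsElliptic] (h : L.Ms W) : ∃ n₀ : ℕ, ∀ l : ℕ, l.Prime → n₀ < l → ∀ N ≠ 0,
    ∀ P : Pt W Ω, Fx (L.Ur ⊥ N) P →
      ∃ P' : Pt W Ω, Fx (L.Ur ⊥ N) P' ∧ L.Ns (P - l • P') := by
  classical
  obtain ⟨x₀, y₀, α, β, hc⟩ := h.sp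
  obtain ⟨ρ, h0, h1, hv⟩ := bot_val L
  have hf : 0 < L.nm (fe W x₀ y₀) := by
    rw [← nc_disc hc.toNc]
    refine L.pos ?_
    rw [Ne, map_eq_zero_iff _ (algebraMap F Ω).injective]
    exact W.isUnit_Δ.ne_zero
  obtain ⟨n, hn⟩ := exists_pow_lt_of_lt_one hf h1
  refine ⟨n + 1, fun l hl hnl N hN P hP => ?_⟩
  choose c hcn hcl using fun j : ℕ =>
    clp_ex h.toMd hc h0 h1 hn.le hN hv (j • P) (hP.nsmul j)
  obtain ⟨i, hi, j, hj, hij, he⟩ := Finset.exists_ne_map_eq_of_card_lt_of_maps_to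
    (s := Finset.range (n + 2)) (t := Finset.range (n + 1)) (f := c)
    (by rw [Finset.card_range, Finset.card_range]; omega)
    (fun j _ => Finset.mem_coe.2 (Finset.mem_range.2 (Nat.lt_succ_of_le (hcn j))))
  have hm : ∃ m : ℕ, 0 < m ∧ m ≤ n + 1 ∧ L.Ns (m • P) := by
    rw [Finset.mem_range] at hi hj
    have h2 := hcl i
    rw [he] at h2
    rcases lt_or_gt_of_ne hij with h3 | h3
    · refine ⟨j - i, by omega, by omega, ?_⟩
      have h4 := clp_ns h.toMd hc.toNc (hcl j) h2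
      rwa [sub_eq_add_neg, ← sub_nsmul P h3.le] at h4
    · refine ⟨i - j, by omega, by omega, ?_⟩
      have h4 := clp_ns h.toMd hc.toNc h2 (hcl j)
      rwa [sub_eq_add_neg, ← sub_nsmul P h3.le] at h4
  obtain ⟨m, hm0, hmn, hm⟩ := hm
  have hco : IsCoprime (l : ℤ) (m : ℤ) := by
    rw [Nat.isCoprime_iff_coprime]
    exact (Nat.Prime.coprime_iff_not_dvd hl).2 fun hd => by
      have := Nat.le_of_dvd hm0 hd
      omega
  obtain ⟨a, b, hab⟩ := hco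
  refine ⟨a • P, ?_, ?_⟩
  · rcases Int.eq_nat_or_neg a with ⟨k, rfl | rfl⟩
    · rw [natCast_zsmul]
      exact hP.nsmul k
    · rw [neg_smul, natCast_zsmul]
      exact (hP.nsmul k).neg
  · have h5 : P - l • a • P = b • m • P := by
      have h6 : (1 : ℤ) • P = (a * l + b * m) • P := by rw [hab]
      rw [one_smul, add_smul, mul_smul, mul_smul, natCast_zsmul, natCast_zsmul] at h6
      rw [smul_comm l a P]
      exact sub_eq_iff_eq_add'.2 h6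
    rw [h5]
    exact clp_zs h.toIt hm b

end Ld

end PE
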