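import Pool.Agent.Lib.MP_f80667_ag.Pe.Pn

/-! The conjugation `Y ↦ - Y - a₁ X - a₃` of the coordinate ring and the degree of the norm. -/

open WeierstrassCurve Polynomial

namespace PE

namespace Cj

variable {L : Type} [Field L] (W : WeierstrassCurve L)

theorem eval_neg : W.toAffine.polynomial.eval₂ (AdjoinRoot.of W.toAffine.polynomial)
    (Affine.CoordinateRing.mk W.toAffine W.toAffine.negPolynomial) = 0 := by
  have h1 : ∀ g : Polynomial (Polynomial L), g.eval₂ (AdjoinRoot.of W.toAffine.polynomial)
      (Affine.CoordinateRing.mk W.toAffine W.toAffine.negPolynomial) =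
      Affine.CoordinateRing.mk W.toAffine (g.comp W.toAffine.negPolynomial) := by
    intro g
    rw [Polynomial.comp, Polynomial.hom_eval₂]
    rfl
  rw [h1]
  have h2 : W.toAffine.polynomial.comp W.toAffine.negPolynomial = W.toAffine.polynomial := by
    rw [Affine.polynomial, Affine.negPolynomial]
    simp only [sub_comp, add_comp, mul_comp, pow_comp, X_comp, C_comp]
    ring
  rw [h2]
  exact AdjoinRoot.mk_self

/-- The conjugation. -/
noncomputable def cnj : W.toAffine.CoordinateRing →+* W.toAffine.CoordinateRing :=
  AdjoinRoot.lift (AdjoinRoot.of W.toAffine.polynomial)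
    (Affine.CoordinateRing.mk W.toAffine W.toAffine.negPolynomial) (eval_neg W)

theorem cnj_C (p : L[X]) : cnj W (Affine.CoordinateRing.mk W.toAffine (C p)) =
    Affine.CoordinateRing.mk W.toAffine (C p) := by
  exact AdjoinRoot.lift_of (eval_neg W)

theorem cnj_Y : cnj W (Affine.CoordinateRing.mk W.toAffine (X : Polynomial (Polynomial L))) =
    Affine.CoordinateRing.mk W.toAffine W.toAffine.negPolynomial := by
  exact AdjoinRoot.lift_root (eval_neg W)

/-- The norm is the product with the conjugate. -/
theorem mul_cnj (f : W.toAffine.CoordinateRing) : f * cnj W f =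
    Affine.CoordinateRing.mk W.toAffine (C (Algebra.norm L[X] f)) := by
  obtain ⟨p, q, rfl⟩ := Affine.CoordinateRing.exists_smul_basis_eq f
  have h := Affine.CoordinateRing.coe_norm_smul_basis (W' := W.toAffine) p q
  rw [show Affine.CoordinateRing.mk W.toAffine (C (Algebra.norm L[X]
    (p • (1 : W.toAffine.CoordinateRing) + q • Affine.CoordinateRing.mk W.toAffine X))) = _ from h]
  rw [map_mul, Affine.CoordinateRing.smul, Affine.CoordinateRing.smul, map_add, map_mul, map_mul,
    cnj_C, cnj_C, cnj_Y, map_one, mul_one, map_add, map_mul, map_add, map_mul,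
    Affine.negPolynomial]

theorem span_aux {R : Type} [CommRing R] (a b c : R) :
    Ideal.span {a, -b - c * a} = Ideal.span {a, b} := by
  apply le_antisymm
  · rw [Ideal.span_le]
    rintro z (rfl | rfl)
    · exact Ideal.subset_span (Set.mem_insert _ _)
    · exact Ideal.mem_span_pair.2 ⟨-c, -1, by ring⟩
  · rw [Ideal.span_le]
    rintro z (rfl | rfl)
    · exact Ideal.subset_span (Set.mem_insert _ _)
    · exact Ideal.mem_span_pair.2 ⟨-c, -1, by ring⟩

/-- The conjugation moves the ideal of a point to the ideal of the opposite point. -/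
theorem map_cnj (x y : L) :
    (Affine.CoordinateRing.XYIdeal W.toAffine x (C y)).map (cnj W) =
      Affine.CoordinateRing.XYIdeal W.toAffine x (C (W.toAffine.negY x y)) := by
  have hX : cnj W (Affine.CoordinateRing.XClass W.toAffine x) =
      Affine.CoordinateRing.XClass W.toAffine x := cnj_C W _
  have hY : cnj W (Affine.CoordinateRing.YClass W.toAffine (C y)) =
      -Affine.CoordinateRing.YClass W.toAffine (C (W.toAffine.negY x y)) -
        Affine.CoordinateRing.mk W.toAffine (C (C W.a₁)) *
          Affine.CoordinateRing.XClass W.toAffine x := by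
    rw [Affine.CoordinateRing.YClass, map_sub, map_sub, cnj_Y, cnj_C,
      Affine.CoordinateRing.YClass, Affine.CoordinateRing.XClass, ← map_sub, ← map_mul, ← map_neg,
      ← map_sub, Affine.negPolynomial, Affine.negY]
    congr 1
    simp only [map_sub, map_add, map_mul, map_neg]
    ring
  rw [Affine.CoordinateRing.XYIdeal, Affine.CoordinateRing.XYIdeal, Ideal.map_span,
    Set.image_pair, hX, hY]
  exact span_aux _ _ _

/-- The product of the ideals of opposite points. -/
theorem mul_map_cnj {x y : L} (h : W.toAffine.Nonsingular x y) :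
    Affine.CoordinateRing.XYIdeal W.toAffine x (C y) *
      (Affine.CoordinateRing.XYIdeal W.toAffine x (C y)).map (cnj W) =
      Ideal.span {Affine.CoordinateRing.mk W.toAffine (C (X - C x))} := by
  rw [map_cnj, mul_comm, Affine.CoordinateRing.XYIdeal_neg_mul h]
  rfl

/-- The degree of the norm from the product with the conjugate. -/
theorem deg_norm {f : W.toAffine.CoordinateRing} {g : L[X]} (hg : g ≠ 0)
    (h : Ideal.span {f * cnj W f} = Ideal.span {Affine.CoordinateRing.mk W.toAffine (C g)}) :
    (Algebra.norm L[X] f).natDegree = g.natDegree := by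
  rw [mul_cnj, Ideal.span_singleton_eq_span_singleton] at h
  have h2 : ∀ p : L[X], Algebra.norm L[X] (Affine.CoordinateRing.mk W.toAffine (C p)) = p ^ 2 := by
    intro p
    have := Algebra.norm_algebraMap_of_basis (Affine.CoordinateRing.basis W.toAffine) p
    rw [Fintype.card_fin] at this
    exact this
  obtain ⟨u, hu⟩ := h
  have h3 := congrArg (Algebra.norm L[X]) hu
  rw [map_mul, h2, h2] at h3
  have h4 : IsUnit (Algebra.norm L[X] (u : W.toAffine.CoordinateRing)) := u.isUnit.map _
  have h5 := natDegree_eq_zero_of_isUnit h4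
  have hg2 : g ^ 2 ≠ 0 := pow_ne_zero 2 hg
  have h6 : (Algebra.norm L[X] f) ^ 2 ≠ 0 := by
    intro h0
    rw [h0, zero_mul] at h3
    exact hg2 h3.symm
  have h7 := congrArg natDegree h3
  rw [natDegree_mul h6 h4.ne_zero, h5, natDegree_pow, natDegree_pow] at h7
  omega

end Cj

end PE
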