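import Pool.Agent.Lib.MP_f80667_ag.Pe.Pn
import Pool.Agent.Lib.MP_f80667_ag.Pe.ClsA

/-! Functions with given zeros, from the class group of the coordinate ring. -/

open WeierstrassCurve Polynomial

namespace PE

variable {L : Type} [Field L] {W : WeierstrassCurve L}

/-- The ideal of a point of the affine curve (`⊤` for the point at infinity). -/
noncomputable def idl : Pn W → Ideal W.toAffine.CoordinateRing
  | .zero => ⊤
  | .some x y _ => Affine.CoordinateRing.XYIdeal W.toAffine x (C y)

/-- the class homomorphism -/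
private noncomputable def clsA_hom : Pn W →+ Additive (ClassGroup W.toAffine.CoordinateRing) := by
  classical
  exact (Affine.Point.toClass : W.toAffine.Point →+ Additive (ClassGroup W.toAffine.CoordinateRing))

private theorem clsA_some {x y : L} (h : W.toAffine.Nonsingular x y) :
    clsA_hom (Pn.aff x y h) =
      Additive.ofMul (ClassGroup.mk W.toAffine.FunctionField (Affine.CoordinateRing.XYIdeal' (W := W.toAffine) h)) := by
  classical
  unfold clsA_hom
  exact Affine.Point.toClass_some h

private theorem clsA_list (l : List (Pn W)) (h0 : ∀ P ∈ l, P ≠ 0) :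
    ∃ J : (FractionalIdeal (nonZeroDivisors W.toAffine.CoordinateRing) W.toAffine.FunctionField)ˣ,
      (J : FractionalIdeal (nonZeroDivisors W.toAffine.CoordinateRing) W.toAffine.FunctionField) =
        (((l.map idl).prod : Ideal W.toAffine.CoordinateRing) :
          FractionalIdeal (nonZeroDivisors W.toAffine.CoordinateRing) W.toAffine.FunctionField) ∧
      Additive.ofMul (ClassGroup.mk W.toAffine.FunctionField J) = clsA_hom l.sum := by
  induction l with
  | nil =>
    refine ⟨1, ?_, ?_⟩
    · rw [List.map_nil, List.prod_nil, Ideal.one_eq_top, FractionalIdeal.coeIdeal_top, Units.val_one]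
    · rw [map_one, List.sum_nil, map_zero, ofMul_one]
  | cons P l ih =>
    obtain ⟨J, h1, h2⟩ := ih (fun Q hQ => h0 Q (List.mem_cons_of_mem _ hQ))
    rcases Pn.cases' P with hP | ⟨x, y, h, rfl⟩
    · exact absurd hP (h0 P List.mem_cons_self)
    · refine ⟨Affine.CoordinateRing.XYIdeal' (W := W.toAffine) h * J, ?_, ?_⟩
      · rw [List.map_cons, List.prod_cons, FractionalIdeal.coeIdeal_mul, Units.val_mul, h1]
        rfl
      · rw [map_mul, List.sum_cons, map_add, clsA_some, ofMul_mul, h2]

/-- Proof: `idl P * idl (-P)` is the ideal generated by `X - x` (`XYIdeal_neg_mul`); the classes of the ideals `idl P` add up to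
`toClass` of the sum, which is `0`. -/
theorem cls_prin (l : List (Pn W)) (h0 : ∀ P ∈ l, P ≠ 0) (hs : l.sum = 0) :
    ∃ f : W.toAffine.CoordinateRing, f ≠ 0 ∧ (l.map idl).prod = Ideal.span {f} := by
  obtain ⟨J, h1, h2⟩ := clsA_list l h0
  rw [hs, map_zero] at h2
  have h3 : ClassGroup.mk W.toAffine.FunctionField J = 1 := h2
  exact (ClassGroup.mk_eq_one_of_coe_ideal h1).1 h3

private theorem cls_deg_aux (l : List (Pn W)) (h0 : ∀ P ∈ l, P ≠ 0) :
    ∃ g : L[X], g ≠ 0 ∧ g.natDegree = l.length ∧
      (l.map idl).prod * ((l.map idl).prod).map (Cj.cnj W) =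
        Ideal.span {Affine.CoordinateRing.mk W.toAffine (C g)} := by
  induction l with
  | nil =>
    refine ⟨1, one_ne_zero, by simp, ?_⟩
    rw [List.map_nil, List.prod_nil, Ideal.one_eq_top, Ideal.map_top, Ideal.top_mul, C_1, map_one,
      Ideal.span_singleton_one]
  | cons P l ih =>
    obtain ⟨g, hg, hd, hI⟩ := ih fun Q hQ => h0 Q (List.mem_cons_of_mem _ hQ)
    obtain hP | ⟨x, y, h, hP⟩ := P.cases'
    · exact absurd hP (h0 P List.mem_cons_self)
    · refine ⟨(X - C x) * g, mul_ne_zero (X_sub_C_ne_zero x) hg, ?_, ?_⟩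
      · rw [natDegree_mul (X_sub_C_ne_zero x) hg, natDegree_X_sub_C, hd, List.length_cons,
          add_comm]
      · have h1 : idl P * (idl P).map (Cj.cnj W) =
            Ideal.span {Affine.CoordinateRing.mk W.toAffine (C (X - C x))} := by
          rw [hP]
          exact Cj.mul_map_cnj W h
        rw [List.map_cons, List.prod_cons, Ideal.map_mul, mul_mul_mul_comm, h1, hI,
          Ideal.span_singleton_mul_span_singleton, C_mul, map_mul]

/-- The degree of the norm. Proof: let `σ` be the automorphism `Y ↦ - Y - a₁ X - a₃` of the coordinate ring. `σ` moves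
`idl P` to `idl (-P)`, and the norm of `f` is `f σ(f)` (`coe_norm_smul_basis`). So it generates the ideal `∏ idl P * idl (-P)`, which is
generated by `∏ (X - x(P))`; the two polynomials in `X` differ by a unit of the coordinate ring, hence by a unit of `L[X]` (take norms). -/
theorem cls_deg (l : List (Pn W)) (h0 : ∀ P ∈ l, P ≠ 0) {f : W.toAffine.CoordinateRing}
    (hf : (l.map idl).prod = Ideal.span {f}) :
    (Algebra.norm L[X] f).natDegree = l.length := by
  obtain ⟨g, hg, hd, hI⟩ := cls_deg_aux l h0
  rw [hf, Ideal.map_span, Set.image_singleton, Ideal.span_singleton_mul_span_singleton] at hI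
  rw [Cj.deg_norm W hg hI, hd]

/-- **Functions with given zeros.** Proof: `cls_prin`, `cls_deg`, `degree_norm_smul_basis`, `exists_smul_basis_eq`. -/
theorem cls (l : List (Pn W)) (h0 : ∀ P ∈ l, P ≠ 0) (hs : l.sum = 0) :
    ∃ a b : L[X], ¬(a = 0 ∧ b = 0) ∧ 2 * a.natDegree ≤ l.length ∧
      (b ≠ 0 → 2 * b.natDegree + 3 ≤ l.length) ∧
      a • (1 : W.toAffine.CoordinateRing) + b • Affine.CoordinateRing.mk W.toAffine (X : Polynomial (Polynomial L)) ∈
        (l.map idl).prod := by
  obtain ⟨f, hf0, hf⟩ := cls_prin l h0 hs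
  obtain ⟨a, b, hab⟩ := Affine.CoordinateRing.exists_smul_basis_eq f
  have hd := cls_deg l h0 hf
  have hn := Affine.CoordinateRing.degree_norm_smul_basis (W' := W.toAffine) a b
  rw [hab] at hn
  refine ⟨a, b, ?_, ?_, ?_, ?_⟩
  · rintro ⟨ha, hb⟩
    rw [ha, hb, zero_smul, zero_smul, add_zero] at hab
    exact hf0 hab.symm
  · by_cases ha : a = 0
    · rw [ha, natDegree_zero, mul_zero]
      exact Nat.zero_le _
    · rw [← hd]
      refine le_natDegree_of_coe_le_degree ?_
      rw [hn, degree_eq_natDegree ha]
      refine le_max_of_le_left ?_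
      rw [two_nsmul, two_mul]
      norm_cast
  · intro hb
    rw [← hd]
    refine le_natDegree_of_coe_le_degree ?_
    rw [hn, degree_eq_natDegree hb]
    refine le_max_of_le_right ?_
    rw [two_nsmul, two_mul]
    norm_cast
  · rw [hab, hf]
    exact Ideal.mem_span_singleton_self f

/-- the evaluation homomorphism of the coordinate ring -/
private theorem clsO_hom {R : Type} [CommRing R] [Algebra L R] (s η : R)
    (he : η ^ 2 + algebraMap L R W.a₁ * s * η + algebraMap L R W.a₃ * η =
      s ^ 3 + algebraMap L R W.a₂ * s ^ 2 + algebraMap L R W.a₄ * s + algebraMap L R W.a₆) :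
    ∃ φ : W.toAffine.CoordinateRing →+* R,
      (∀ a : L[X], φ (Affine.CoordinateRing.mk W.toAffine (C a)) = aeval s a) ∧
      φ (Affine.CoordinateRing.mk W.toAffine (X : Polynomial (Polynomial L))) = η := by
  have h : (W.toAffine.polynomial).eval₂ ((aeval s : L[X] →ₐ[L] R) : L[X] →+* R) η = 0 := by
    rw [Affine.polynomial]
    simp only [eval₂_add, eval₂_sub, eval₂_mul, eval₂_pow, eval₂_X, eval₂_C, RingHom.coe_coe,
      map_add, map_mul, map_pow, aeval_X, aeval_C]
    linear_combination he
  refine ⟨AdjoinRoot.lift ((aeval s : L[X] →ₐ[L] R) : L[X] →+* R) η h, ?_, ?_⟩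
  · intro a
    exact AdjoinRoot.lift_of h
  · exact AdjoinRoot.lift_root h

open Classical in
private theorem clsO_map {R : Type} [CommRing R] [Algebra L R] (s η : R) (I : Ideal R)
    {φ : W.toAffine.CoordinateRing →+* R}
    (h1 : ∀ a : L[X], φ (Affine.CoordinateRing.mk W.toAffine (C a)) = aeval s a)
    (h2 : φ (Affine.CoordinateRing.mk W.toAffine (X : Polynomial (Polynomial L))) = η)
    {x y : L} (hP : W.toAffine.Nonsingular x y) (hx : s - algebraMap L R x ∈ I)
    (hy : η - algebraMap L R y ∈ I) (l : List (Pn W)) :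
    ((l.map idl).prod).map φ ≤ I ^ (l.count (Pn.aff x y hP)) := by
  induction l with
  | nil =>
    rw [List.count_nil, pow_zero, Ideal.one_eq_top]
    exact le_top
  | cons Q l ih =>
    rw [List.map_cons, List.prod_cons, Ideal.map_mul]
    by_cases hQ : Q = Pn.aff x y hP
    · rw [hQ, List.count_cons_self, pow_succ']
      refine Ideal.mul_mono ?_ ih
      change Ideal.map φ (Affine.CoordinateRing.XYIdeal W.toAffine x (C y)) ≤ I
      rw [Affine.CoordinateRing.XYIdeal, Ideal.map_span, Ideal.span_le]
      rintro z ⟨u, hu | hu, rfl⟩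
      · rw [hu, Affine.CoordinateRing.XClass, h1, map_sub, aeval_X, aeval_C]
        exact hx
      · have hu' : u = Affine.CoordinateRing.YClass W.toAffine (C y) := hu
        rw [hu', Affine.CoordinateRing.YClass, map_sub, map_sub, h1, h2, aeval_C]
        exact hy
    · rw [List.count_cons_of_ne hQ]
      exact Ideal.mul_le_right.trans ih

private theorem clsO_val {R : Type} [CommRing R] [Algebra L R] {s η : R}
    {φ : W.toAffine.CoordinateRing →+* R}
    (h1 : ∀ a : L[X], φ (Affine.CoordinateRing.mk W.toAffine (C a)) = aeval s a)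
    (h2 : φ (Affine.CoordinateRing.mk W.toAffine (X : Polynomial (Polynomial L))) = η)
    (a b : L[X]) :
    φ (a • (1 : W.toAffine.CoordinateRing) +
      b • Affine.CoordinateRing.mk W.toAffine (X : Polynomial (Polynomial L))) =
      aeval s a + aeval s b * η := by
  rw [Affine.CoordinateRing.smul, Affine.CoordinateRing.smul, map_add, map_mul, map_mul, h1, h1, h2,
    map_one, mul_one]

/-- The zeros. Proof: evaluation at `(x, y)` is a ring homomorphism from the coordinate ring with kernel `idl P`. -/
theorem cls_ev {l : List (Pn W)} {a b : L[X]}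
    (h : a • (1 : W.toAffine.CoordinateRing) + b • Affine.CoordinateRing.mk W.toAffine (X : Polynomial (Polynomial L)) ∈
      (l.map idl).prod) {x y : L} (hP : W.toAffine.Nonsingular x y) (hl : Pn.aff x y hP ∈ l) :
    a.eval x + b.eval x * y = 0 := by
  classical
  obtain ⟨φ, h1, h2⟩ := clsO_hom (W := W) x y (by
    rw [Algebra.algebraMap_self, RingHom.id_apply, RingHom.id_apply, RingHom.id_apply,
      RingHom.id_apply, RingHom.id_apply]
    exact Pn.eqn hP)
  have h3 := clsO_map x y (⊥ : Ideal L) h1 h2 hP (by
    rw [Algebra.algebraMap_self, RingHom.id_apply, sub_self]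
    exact Ideal.zero_mem _) (by
    rw [Algebra.algebraMap_self, RingHom.id_apply, sub_self]
    exact Ideal.zero_mem _) l
  have h4 : (⊥ : Ideal L) ^ (l.count (Pn.aff x y hP)) = ⊥ := by
    rw [← Ideal.zero_eq_bot, zero_pow]
    exact (List.count_pos_iff.2 hl).ne'
  rw [h4] at h3
  have h5 := h3 (Ideal.mem_map_of_mem φ h)
  rw [clsO_val h1 h2, Ideal.mem_bot] at h5
  exact h5

open Classical in
/-- The order of the zeros: the image in a ring `R` of a function in the product of the ideals is in `I ^ n`, where `n` is the number of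
points of the list which are equal to `P = (x, y)`, if `s ≡ x`, `η ≡ y` modulo `I`. Proof: the homomorphism from the coordinate ring to `R` maps `idl P`
to `I`. -/
theorem cls_ord {R : Type} [CommRing R] [Algebra L R] (s η : R)
    (he : η ^ 2 + algebraMap L R W.a₁ * s * η + algebraMap L R W.a₃ * η =
      s ^ 3 + algebraMap L R W.a₂ * s ^ 2 + algebraMap L R W.a₄ * s + algebraMap L R W.a₆)
    (I : Ideal R) {l : List (Pn W)} {a b : L[X]}
    (h : a • (1 : W.toAffine.CoordinateRing) +
      b • Affine.CoordinateRing.mk W.toAffine (X : Polynomial (Polynomial L)) ∈ (l.map idl).prod)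
    {x y : L} (hP : W.toAffine.Nonsingular x y) (hx : s - algebraMap L R x ∈ I)
    (hy : η - algebraMap L R y ∈ I) :
    aeval s a + aeval s b * η ∈ I ^ (l.count (Pn.aff x y hP)) := by
  obtain ⟨φ, h1, h2⟩ := clsO_hom (W := W) s η he
  have h5 := clsO_map s η I h1 h2 hP hx hy l (Ideal.mem_map_of_mem φ h)
  rw [clsO_val h1 h2] at h5
  exact h5

end PE
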