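import Pool.Agent.Lib.MP_f80667_ag.Pe.Plc
import Pool.Agent.Lib.MP_f80667_ag.Pe.Cls

/-! Principal cycles. -/

open ZC BE Polynomial

namespace PE

/-- The degree. -/
noncomputable def dg {A : Type} : (A →₀ ℤ) →+ ℤ := Finsupp.liftAddHom fun _ => AddMonoidHom.id ℤ

/-- The sum of the points. -/
noncomputable def sm {A : Type} [AddCommGroup A] : (A →₀ ℤ) →+ A :=
  Finsupp.liftAddHom fun P => zmultiplesHom A P

section pv

variable {F : Type} [Field F]

/-- `z` is the push-forward of the divisor of `g` on the normal projective curve with function field `E` under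
the morphism given by the `E`-point `ξ`. -/
def Pv (V : Vr F) (M Ω : Type) [Field M] [Field Ω] [Algebra M Ω] [Algebra F M] [Algebra F Ω]
    (z : V.pt Ω →₀ ℤ) : Prop :=
  ∃ (E : Type) (_ : Field E) (_ : Algebra M E) (_ : Algebra F E) (_ : IsScalarTower F M E),
    IsFunField M E ∧ ∃ (g : E) (ξ : V.pt E), g ≠ 0 ∧
      ∃ (S : Finset (Place M E Ω)) (m : Place M E Ω → ℤ) (y : Place M E Ω → V.pt Ω),
        (∀ w, w ∉ S → g ∈ w.V ∧ g⁻¹ ∈ w.V) ∧ (∀ w ∈ S, w.IsOrd g (m w) ∧ V.red w ξ (y w)) ∧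
        z = ∑ w ∈ S, Finsupp.single (y w) (m w)

variable {W W₁ W₂ : WeierstrassCurve F} {M Ω : Type} [Field M] [CharZero M] [Field Ω] [Algebra M Ω]
  [Algebra F M] [Algebra F Ω] [IsScalarTower F M Ω] [IsAlgClosed Ω]

private theorem pv_aff {L : Type} [Field L] [Algebra F L] {W : WeierstrassCurve F} {x y x' y' : L}
    (h : (W.baseChange L).toAffine.Nonsingular x y)
    (h' : (W.baseChange L).toAffine.Nonsingular x' y') (e1 : x = x') (e2 : y = y') :
    (Pt.aff x y h : Pt W L) = Pt.aff x' y' h' := by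
  subst e1 e2
  rfl

/-- The map on points on affine points. -/
private theorem pv_map {L : Type} [Field L] [Algebra F L] {W : WeierstrassCurve F} {N : Type}
    [Field N] [Algebra F N] (σ : L →ₐ[F] N)
    {x y : L} (h : (W.baseChange L).toAffine.Nonsingular x y) :
    ∃ h' : (W.baseChange N).toAffine.Nonsingular (σ x) (σ y),
      Pt.map W σ (Pt.aff x y h) = Pt.aff (σ x) (σ y) h' := by
  classical
  exact ⟨_, rfl⟩

omit [CharZero M] [Algebra F M] [IsScalarTower F M Ω] [IsAlgClosed Ω] in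
/-- The value does not change at a place above. -/
private theorem pv_up {W : WeierstrassCurve F} {E : Type} [Field E] [Algebra M E] [Algebra F E]
    (w : Place M E Ω) (W' : Place M (AlgebraicClosure E) Ω) (hW : Above w W')
    (P : Pt W E) (Q : Pt W Ω) (h : Pt.Red W w P Q) :
    Pt.Red W W' (Pt.map W (IsScalarTower.toAlgHom F E (AlgebraicClosure E)) P) Q := by
  classical
  match P, h with
  | .zero, h => exact h
  | .some x y hxy, h =>
    obtain ⟨h', e⟩ := pv_map (W := W) (IsScalarTower.toAlgHom F E (AlgebraicClosure E)) hxy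
    change Pt.Red W W' (Pt.map W (IsScalarTower.toAlgHom F E (AlgebraicClosure E))
      (Pt.aff x y hxy)) Q
    rw [e]
    rcases h with ⟨hx, rfl⟩ | ⟨hx, hy, hn, rfl⟩
    · exact Or.inl ⟨fun hc => hx ((hW.1 x).1 hc), rfl⟩
    · have hx' : algebraMap E (AlgebraicClosure E) x ∈ W'.V := (hW.1 x).2 hx
      have hy' : algebraMap E (AlgebraicClosure E) y ∈ W'.V := (hW.1 y).2 hy
      have e1 : W'.res ⟨_, hx'⟩ = w.res ⟨x, hx⟩ := hW.2 x hx hx'
      have e2 : W'.res ⟨_, hy'⟩ = w.res ⟨y, hy⟩ := hW.2 y hy hy'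
      have hn' : (W.baseChange Ω).toAffine.Nonsingular (W'.res ⟨_, hx'⟩) (W'.res ⟨_, hy'⟩) := by
        rw [e1, e2]
        exact hn
      exact Or.inr ⟨hx', hy', hn', pv_aff _ _ e1.symm e2.symm⟩

/-- An automorphism over `E` fixes the points over `E`. -/
private theorem pv_fix {W : WeierstrassCurve F} {E : Type} [Field E] [Algebra F E]
    (σ : AlgebraicClosure E ≃ₐ[E] AlgebraicClosure E) (P : Pt W E) :
    Pt.map W (σ.restrictScalars F : AlgebraicClosure E →ₐ[F] AlgebraicClosure E)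
      (Pt.map W (IsScalarTower.toAlgHom F E (AlgebraicClosure E)) P) =
      Pt.map W (IsScalarTower.toAlgHom F E (AlgebraicClosure E)) P := by
  rw [Pt.map_map']
  exact congrArg (fun τ => Pt.map W τ P) (AlgHom.ext fun x => σ.commutes x)

/-- Proof: the `E`-point `ξ` gives a Galois invariant point over the algebraic closure of `E`; for a place `w` choose `W` above `w`
(`exists_above`); the reduction does not change. -/
theorem pv_ratEq {z : (Xv W₁ W₂).pt Ω →₀ ℤ} (h : Pv (Xv W₁ W₂) M Ω z) :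
    z ∈ (Xv W₁ W₂).ratEq M Ω := by
  obtain ⟨E, i1, i2, i3, i4, hE, g, ξ, hg, S, m, y, hS, hv, rfl⟩ := h
  refine AddSubgroup.subset_closure ⟨E, i1, i2, i3, i4, hE, g,
    (Xv W₁ W₂).map (IsScalarTower.toAlgHom F E (AlgebraicClosure E)) ξ, hg, fun σ => ?_, S, m, y,
    hS, fun w hw => ⟨(hv w hw).1, ?_⟩, rfl⟩
  · exact Prod.ext (pv_fix σ ξ.1) (pv_fix σ ξ.2)
  · obtain ⟨W', hW'⟩ := exists_above w
    exact ⟨W', hW'.1, hW'.2, pv_up w W' hW' ξ.1 _ (hv w hw).2.1,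
      pv_up w W' hW' ξ.2 _ (hv w hw).2.2⟩

theorem pv_ratEq_ev {z : (Ev W).pt Ω →₀ ℤ} (h : Pv (Ev W) M Ω z) : z ∈ (Ev W).ratEq M Ω := by
  obtain ⟨E, i1, i2, i3, i4, hE, g, ξ, hg, S, m, y, hS, hv, rfl⟩ := h
  refine AddSubgroup.subset_closure ⟨E, i1, i2, i3, i4, hE, g,
    (Ev W).map (IsScalarTower.toAlgHom F E (AlgebraicClosure E)) ξ, hg, fun σ => ?_, S, m, y,
    hS, fun w hw => ⟨(hv w hw).1, ?_⟩, rfl⟩
  · exact pv_fix σ ξ
  · obtain ⟨W', hW'⟩ := exists_above w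
    exact ⟨W', hW'.1, hW'.2, pv_up w W' hW' ξ _ (hv w hw).2⟩

omit [CharZero M] [IsAlgClosed Ω] in
/-- A point over `M` is its own value. -/
private theorem pv_cst {W : WeierstrassCurve F} {E : Type} [Field E] [Algebra M E] [Algebra F E]
    [IsScalarTower F M E] (w : Place M E Ω) (P : Pt W M) :
    Pt.Red W w (Pt.map W (IsScalarTower.toAlgHom F M E) P)
      (Pt.map W (IsScalarTower.toAlgHom F M Ω) P) := by
  classical
  match P with
  | .zero => exact rfl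
  | .some x y hxy =>
    obtain ⟨h', e⟩ := pv_map (W := W) (IsScalarTower.toAlgHom F M E) hxy
    obtain ⟨h'', e'⟩ := pv_map (W := W) (IsScalarTower.toAlgHom F M Ω) hxy
    change Pt.Red W w (Pt.map W (IsScalarTower.toAlgHom F M E) (Pt.aff x y hxy))
      (Pt.map W (IsScalarTower.toAlgHom F M Ω) (Pt.aff x y hxy))
    rw [e, e']
    have e1 : w.res ⟨algebraMap M E x, w.mem x⟩ = algebraMap M Ω x := w.res_k x
    have e2 : w.res ⟨algebraMap M E y, w.mem y⟩ = algebraMap M Ω y := w.res_k y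
    have hn : (W.baseChange Ω).toAffine.Nonsingular (w.res ⟨algebraMap M E x, w.mem x⟩)
        (w.res ⟨algebraMap M E y, w.mem y⟩) := by
      rw [e1, e2]
      exact h''
    exact Or.inr ⟨w.mem x, w.mem y, hn, pv_aff _ _ e1.symm e2.symm⟩

/-- The product with a point over `M`. -/
theorem pv_left (Q : Pt W₂ M) {z : (Ev W₁).pt Ω →₀ ℤ} (h : Pv (Ev W₁) M Ω z) :
    Pv (Xv W₁ W₂) M Ω (Finsupp.mapDomain
      (fun P : Pt W₁ Ω => ((P, Pt.map W₂ (IsScalarTower.toAlgHom F M Ω) Q) : (Xv W₁ W₂).pt Ω))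
      z) := by
  obtain ⟨E, i1, i2, i3, i4, hE, g, ξ, hg, S, m, y, hS, hv, rfl⟩ := h
  refine ⟨E, i1, i2, i3, i4, hE, g, ((ξ, Pt.map W₂ (IsScalarTower.toAlgHom F M E) Q) :
    Pt W₁ E × Pt W₂ E), hg, S, m,
    fun w => ((y w, Pt.map W₂ (IsScalarTower.toAlgHom F M Ω) Q) : Pt W₁ Ω × Pt W₂ Ω), hS,
    fun w hw => ⟨(hv w hw).1, (hv w hw).2, pv_cst w Q⟩, ?_⟩
  exact (Finsupp.mapDomain_finsetSum (f := fun P : Pt W₁ Ω => ((P,
    Pt.map W₂ (IsScalarTower.toAlgHom F M Ω) Q) : Pt W₁ Ω × Pt W₂ Ω))).trans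
    (Finset.sum_congr rfl fun w _ => Finsupp.mapDomain_single)

theorem pv_right (P : Pt W₁ M) {z : (Ev W₂).pt Ω →₀ ℤ} (h : Pv (Ev W₂) M Ω z) :
    Pv (Xv W₁ W₂) M Ω (Finsupp.mapDomain
      (fun Q : Pt W₂ Ω => ((Pt.map W₁ (IsScalarTower.toAlgHom F M Ω) P, Q) : (Xv W₁ W₂).pt Ω))
      z) := by
  obtain ⟨E, i1, i2, i3, i4, hE, g, ξ, hg, S, m, y, hS, hv, rfl⟩ := h
  refine ⟨E, i1, i2, i3, i4, hE, g, ((Pt.map W₁ (IsScalarTower.toAlgHom F M E) P, ξ) :
    Pt W₁ E × Pt W₂ E), hg, S, m,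
    fun w => ((Pt.map W₁ (IsScalarTower.toAlgHom F M Ω) P, y w) : Pt W₁ Ω × Pt W₂ Ω), hS,
    fun w hw => ⟨(hv w hw).1, pv_cst w P, (hv w hw).2⟩, ?_⟩
  exact (Finsupp.mapDomain_finsetSum (f := fun Q : Pt W₂ Ω => ((
    Pt.map W₁ (IsScalarTower.toAlgHom F M Ω) P, Q) : Pt W₁ Ω × Pt W₂ Ω))).trans
    (Finset.sum_congr rfl fun w _ => Finsupp.mapDomain_single)

end pv

end PE
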