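import Pool.Agent.Lib.MP_f80667_ag.Pe.AbB

/-! Abel's theorem. -/

open ZC BE Polynomial

namespace PE

variable {F : Type} [Field F] {W : WeierstrassCurve F} [W.IsElliptic] {K Ω : Type} [Field K]
  [CharZero K] [Field Ω] [Algebra K Ω] [Algebra F K] [Algebra F Ω] [IsScalarTower F K Ω]
  [IsAlgClosure K Ω]

/-- Distinct points. Proof: `cls` over `Ω` for the list of the points of `s`, `cls_ev`, `avg`, `dv` (`z` = the sum of the points: a function which
vanishes at `P` has positive order at a place with value `P`). -/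
theorem ab_set (s : Finset (Pt W Ω)) (hs : ∀ (γ : Ω ≃ₐ[K] Ω), ∀ P ∈ s, γ • P ∈ s)
    (h0 : (0 : Pt W Ω) ∉ s) (hsum : ∑ P ∈ s, P = 0) :
    Pv (Ev W) K Ω (∑ P ∈ s, Finsupp.single P 1 - Finsupp.single (0 : Pt W Ω) (s.card : ℤ)) :=
  abb_set s hs h0 hsum

/-- Points over `K`, possibly with multiplicities. Proof: `cls` over `K`, `dv` with `cls_ord` (`R` = the valuation ring, `I` its maximal
ideal: an element of `I ^ n` has order at least `n`). -/
theorem ab_rat (l : List (Pt W K)) (h0 : ∀ P ∈ l, P ≠ 0) (hsum : l.sum = 0) :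
    Pv (Ev W) K Ω ((l.map fun P => Finsupp.single
      (Pt.map W (IsScalarTower.toAlgHom F K Ω) P) (1 : ℤ)).sum -
        Finsupp.single (0 : Pt W Ω) (l.length : ℤ)) :=
  abb_rat l h0 hsum

/-- The group generated by the principal cycles. -/
private noncomputable def abC (W : WeierstrassCurve F) (K Ω : Type) [Field K]
    [Field Ω] [Algebra K Ω] [Algebra F K] [Algebra F Ω] : AddSubgroup (Pt W Ω →₀ ℤ) :=
  AddSubgroup.closure {z : Pt W Ω →₀ ℤ | Pv (Ev W) K Ω z}

private theorem ab_in {z : Pt W Ω →₀ ℤ} (h : Pv (Ev W) K Ω z) : z ∈ abC W K Ω :=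
  AddSubgroup.subset_closure h

private theorem ab_eq {z z' : Pt W Ω →₀ ℤ} (h : z ∈ abC W K Ω) (e : z' = z) :
    z' ∈ abC W K Ω := e ▸ h

private theorem ab_add' (P P' : Pt W Ω) (hP : ∀ γ : Ω ≃ₐ[K] Ω, γ • P = P)
    (hP' : ∀ γ : Ω ≃ₐ[K] Ω, γ • P' = P') :
    (Finsupp.single P 1 + Finsupp.single P' 1 - Finsupp.single (P + P') 1 -
      Finsupp.single (0 : Pt W Ω) (1 : ℤ) : Pt W Ω →₀ ℤ) ∈ abC W K Ω := by
  by_cases h0 : P = 0
  · refine ab_eq (zero_mem _) ?_
    rw [h0, zero_add]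
    abel
  by_cases h0' : P' = 0
  · refine ab_eq (zero_mem _) ?_
    rw [h0', add_zero]
    abel
  obtain ⟨Q, rfl⟩ := exists_desc hP
  obtain ⟨Q', rfl⟩ := exists_desc hP'
  have hQ : Q ≠ 0 := by
    rintro rfl
    exact h0 (map_zero _)
  have hQ' : Q' ≠ 0 := by
    rintro rfl
    exact h0' (map_zero _)
  by_cases hR : Q + Q' = 0
  · have h1 := ab_in (ab_rat (Ω := Ω) [Q, Q'] (by
      intro R hR
      simp only [List.mem_cons, List.not_mem_nil, or_false] at hR
      rcases hR with rfl | rfl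
      · exact hQ
      · exact hQ') (by simpa using hR))
    refine ab_eq h1 ?_
    rw [← map_add, hR, map_zero]
    simp only [List.map_cons, List.map_nil, List.sum_cons, List.sum_nil, List.length_cons,
      List.length_nil, add_zero]
    have h2 : ((0 + 1 + 1 : ℕ) : ℤ) = 1 + 1 := by norm_num
    rw [h2, Finsupp.single_add]
    abel
  · have hn : -(Q + Q') ≠ 0 := neg_ne_zero.2 hR
    have h1 := ab_in (ab_rat (Ω := Ω) [Q, Q', -(Q + Q')] (by
      intro R hR
      simp only [List.mem_cons, List.not_mem_nil, or_false] at hR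
      rcases hR with rfl | rfl | rfl
      · exact hQ
      · exact hQ'
      · exact hn) (by simp))
    have h2 := ab_in (ab_rat (Ω := Ω) [Q + Q', -(Q + Q')] (by
      intro R hR'
      simp only [List.mem_cons, List.not_mem_nil, or_false] at hR'
      rcases hR' with rfl | rfl
      · exact hR
      · exact hn) (by simp))
    refine ab_eq (sub_mem h1 h2) ?_
    rw [← map_add]
    simp only [List.map_cons, List.map_nil, List.sum_cons, List.sum_nil, List.length_cons,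
      List.length_nil, add_zero]
    have e3 : ((0 + 1 + 1 + 1 : ℕ) : ℤ) = 1 + 1 + 1 := by norm_num
    have e2 : ((0 + 1 + 1 : ℕ) : ℤ) = 1 + 1 := by norm_num
    rw [e3, e2, Finsupp.single_add, Finsupp.single_add]
    abel

private theorem ab_fix (s : Finset (Pt W Ω)) (hs : ∀ (γ : Ω ≃ₐ[K] Ω), ∀ P ∈ s, γ • P ∈ s)
    (γ : Ω ≃ₐ[K] Ω) : γ • ∑ P ∈ s, P = ∑ P ∈ s, P := by
  rw [Finset.smul_sum]
  exact Finset.sum_bij (fun P _ => γ • P) (fun P hP => hs γ P hP)
    (fun P _ Q _ h => MulAction.injective γ h)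
    (fun Q hQ => ⟨γ⁻¹ • Q, hs _ Q hQ, smul_inv_smul γ Q⟩) (fun P _ => rfl)

private theorem ab_orb' (s : Finset (Pt W Ω)) (P : Pt W Ω)
    (hs : ∀ Q, Q ∈ s ↔ ∃ γ : Ω ≃ₐ[K] Ω, Q = γ • P) :
    (∑ Q ∈ s, Finsupp.single Q 1 - Finsupp.single (∑ Q ∈ s, Q) 1 -
      Finsupp.single (0 : Pt W Ω) ((s.card : ℤ) - 1) : Pt W Ω →₀ ℤ) ∈ abC W K Ω := by
  classical
  have hst : ∀ (γ : Ω ≃ₐ[K] Ω), ∀ Q ∈ s, γ • Q ∈ s := by
    intro γ Q hQ
    obtain ⟨δ, rfl⟩ := (hs Q).1 hQ
    exact (hs _).2 ⟨γ * δ, (mul_smul _ _ _).symm⟩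
  have hPs : P ∈ s := (hs P).2 ⟨1, (one_smul _ _).symm⟩
  have hfix : ∀ Q ∈ s, (∀ γ : Ω ≃ₐ[K] Ω, γ • Q = Q) → s = {P} := by
    intro Q hQ hf
    obtain ⟨δ, hδ⟩ := (hs Q).1 hQ
    have hP : P = Q := by
      have h1 : P = δ⁻¹ • Q := by rw [hδ, inv_smul_smul]
      rw [h1, hf]
    ext R
    rw [Finset.mem_singleton]
    constructor
    · intro hR
      obtain ⟨γ, hγ⟩ := (hs R).1 hR
      rw [hγ, hP]
      exact hf γ
    · rintro rfl
      exact hPs
  by_cases hc : s = {P}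
  · refine ab_eq (zero_mem _) ?_
    rw [hc]
    simp only [Finset.sum_singleton, Finset.card_singleton, Nat.cast_one, sub_self,
      Finsupp.single_zero]
  have h0 : (0 : Pt W Ω) ∉ s := fun h => hc (hfix 0 h fun γ => smul_zero γ)
  by_cases hS : ∑ Q ∈ s, Q = 0
  · refine ab_eq (ab_in (ab_set s hst h0 hS)) ?_
    rw [hS]
    have h2 : (s.card : ℤ) = 1 + ((s.card : ℤ) - 1) := by ring
    conv_rhs => rw [h2, Finsupp.single_add]
    abel
  · have hf := ab_fix s hst
    have hf' : ∀ γ : Ω ≃ₐ[K] Ω, γ • (-∑ Q ∈ s, Q) = -∑ Q ∈ s, Q := fun γ => by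
      rw [smul_neg, hf γ]
    have hn : -∑ Q ∈ s, Q ∉ s := fun h => hc (hfix _ h hf')
    have h1 := ab_in (ab_set (insert (-∑ Q ∈ s, Q) s) (by
      intro γ Q hQ
      rcases Finset.mem_insert.1 hQ with rfl | hQ
      · rw [hf']
        exact Finset.mem_insert_self _ _
      · exact Finset.mem_insert_of_mem (hst γ Q hQ)) (by
      rw [Finset.mem_insert, not_or]
      exact ⟨fun h => hS (neg_eq_zero.1 h.symm), h0⟩) (by
      rw [Finset.sum_insert hn, neg_add_cancel]))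
    have h2 := ab_add' _ _ hf hf'
    refine ab_eq (sub_mem h1 h2) ?_
    rw [Finset.sum_insert hn, Finset.card_insert_of_notMem hn, add_neg_cancel]
    have h4 : ((s.card + 1 : ℕ) : ℤ) = ((s.card : ℤ) - 1) + 1 + 1 := by push_cast; ring
    rw [h4, Finsupp.single_add, Finsupp.single_add]
    have h5 : ∀ x r t u v : Pt W Ω →₀ ℤ,
        x - t - v = r + x - (v + u + u) - (t + r - u - u) := fun x r t u v => by abel
    exact h5 _ _ _ _ _

private theorem ab_smfix (z : Pt W Ω →₀ ℤ)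
    (hz : ∀ γ : Ω ≃ₐ[K] Ω, Finsupp.mapDomain (fun P : Pt W Ω => γ • P) z = z)
    (γ : Ω ≃ₐ[K] Ω) : γ • sm z = sm z := by
  have key : ∀ z : Pt W Ω →₀ ℤ, sm (Finsupp.mapDomain (fun P : Pt W Ω => γ • P) z) =
      γ • sm z := by
    intro z
    induction z using Finsupp.induction_linear with
    | zero => rw [Finsupp.mapDomain_zero, map_zero, smul_zero]
    | add a b ha hb => rw [Finsupp.mapDomain_add, map_add, map_add, ha, hb, smul_add]
    | single P n =>
      rw [Finsupp.mapDomain_single]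
      simp only [sm, Finsupp.liftAddHom_apply_single, zmultiplesHom_apply]
      exact (map_zsmul (DistribSMul.toAddMonoidHom (Pt W Ω) γ) n P).symm
  rw [← key z, hz]

private theorem ab_orbit (P : Pt W Ω) :
    ∃ s : Finset (Pt W Ω), ∀ Q, Q ∈ s ↔ ∃ γ : Ω ≃ₐ[K] Ω, Q = γ • P := by
  obtain ⟨M, hM, hfix⟩ := exists_op (K := K) P
  have h1 : M.fixingSubgroup.FiniteIndex := opn_fin _ ⟨M, hM, le_rfl⟩
  have h2 : (Set.range fun γ : Ω ≃ₐ[K] Ω => γ • P).Finite := by
    have h3 : Finite ((Ω ≃ₐ[K] Ω) ⧸ M.fixingSubgroup) := inferInstance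
    refine (Set.finite_range (fun q : (Ω ≃ₐ[K] Ω) ⧸ M.fixingSubgroup => q.out • P)).subset ?_
    rintro _ ⟨γ, rfl⟩
    refine ⟨(γ : (Ω ≃ₐ[K] Ω) ⧸ M.fixingSubgroup), ?_⟩
    obtain ⟨h, hh⟩ := QuotientGroup.mk_out_eq_mul M.fixingSubgroup γ
    change (QuotientGroup.mk γ : (Ω ≃ₐ[K] Ω) ⧸ M.fixingSubgroup).out • P = γ • P
    rw [hh, mul_smul, hfix h h.2]
  refine ⟨h2.toFinset, fun Q => ?_⟩
  rw [Set.Finite.mem_toFinset, Set.mem_range]
  exact ⟨fun ⟨γ, h⟩ => ⟨γ, h.symm⟩, fun ⟨γ, h⟩ => ⟨γ, h.symm⟩⟩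

private theorem ab_val (z : Pt W Ω →₀ ℤ)
    (hz : ∀ γ : Ω ≃ₐ[K] Ω, Finsupp.mapDomain (fun P : Pt W Ω => γ • P) z = z)
    (γ : Ω ≃ₐ[K] Ω) (P : Pt W Ω) : z (γ • P) = z P := by
  have h1 := Finsupp.mapDomain_apply (f := fun P : Pt W Ω => γ • P) (MulAction.injective γ) z P
  rw [hz γ] at h1
  exact h1

/-- The class of an invariant point. -/
private noncomputable def abΦ (W : WeierstrassCurve F) [W.IsElliptic] (K Ω : Type) [Field K]
    [CharZero K] [Field Ω] [Algebra K Ω] [Algebra F K] [Algebra F Ω] [IsScalarTower F K Ω]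
    [IsAlgClosure K Ω] :
    FixedPoints.addSubgroup (Ω ≃ₐ[K] Ω) (Pt W Ω) →+ (Pt W Ω →₀ ℤ) ⧸ abC W K Ω :=
  AddMonoidHom.mk' (fun A => QuotientAddGroup.mk (Finsupp.single (A : Pt W Ω) 1 -
      Finsupp.single 0 1)) (by
    rintro ⟨A, hA⟩ ⟨B, hB⟩
    rw [← QuotientAddGroup.mk_add, QuotientAddGroup.eq]
    refine ab_eq (ab_add' A B hA hB) ?_
    change -(Finsupp.single (A + B) (1 : ℤ) - Finsupp.single 0 1) +
      (Finsupp.single A 1 - Finsupp.single 0 1 + (Finsupp.single B 1 - Finsupp.single 0 1)) = _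
    abel)

private theorem ab_conv (z : Pt W Ω →₀ ℤ)
    (h : sm z ∈ FixedPoints.addSubgroup (Ω ≃ₐ[K] Ω) (Pt W Ω)) :
    (z - Finsupp.single (sm z) 1 - Finsupp.single (0 : Pt W Ω) (dg z - 1) : Pt W Ω →₀ ℤ) ∈
        abC W K Ω ↔
      (QuotientAddGroup.mk z : (Pt W Ω →₀ ℤ) ⧸ abC W K Ω) = abΦ W K Ω ⟨sm z, h⟩ +
        dg z • QuotientAddGroup.mk (Finsupp.single (0 : Pt W Ω) 1) := by
  change _ ↔ _ = QuotientAddGroup.mk (Finsupp.single (sm z) 1 - Finsupp.single 0 1) + _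
  rw [← QuotientAddGroup.mk_zsmul, ← QuotientAddGroup.mk_add, eq_comm, QuotientAddGroup.eq]
  have h1 : z - Finsupp.single (sm z) 1 - Finsupp.single (0 : Pt W Ω) (dg z - 1) =
      -(Finsupp.single (sm z) 1 - Finsupp.single 0 1 +
        dg z • Finsupp.single (0 : Pt W Ω) 1) + z := by
    rw [Finsupp.smul_single, smul_eq_mul, mul_one, Finsupp.single_sub]
    abel
  rw [h1]

/-- Invariant cycles modulo principal cycles. -/
private theorem ab_main (n : ℕ) : ∀ z : Pt W Ω →₀ ℤ, z.support.card ≤ n →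
    (∀ γ : Ω ≃ₐ[K] Ω, Finsupp.mapDomain (fun P : Pt W Ω => γ • P) z = z) →
    (z - Finsupp.single (sm z) 1 - Finsupp.single (0 : Pt W Ω) (dg z - 1) : Pt W Ω →₀ ℤ) ∈
      abC W K Ω := by
  classical
  induction n with
  | zero =>
    intro z hz _
    have h1 : z = 0 := by
      rw [← Finsupp.support_eq_empty, ← Finset.card_eq_zero]
      omega
    subst h1
    refine ab_eq (zero_mem _) ?_
    rw [map_zero, map_zero, zero_sub, zero_sub, Finsupp.single_neg]
    abel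
  | succ n ih =>
    intro z hc hz
    by_cases h0 : z = 0
    · subst h0
      exact ih 0 (by simp) hz
    obtain ⟨P, hP⟩ := Finsupp.support_nonempty_iff.2 h0
    obtain ⟨s, hs⟩ := ab_orbit (K := K) P
    have hst : ∀ (γ : Ω ≃ₐ[K] Ω), ∀ Q ∈ s, γ • Q ∈ s := by
      intro γ Q hQ
      obtain ⟨δ, rfl⟩ := (hs Q).1 hQ
      exact (hs _).2 ⟨γ * δ, (mul_smul _ _ _).symm⟩
    have hPs : P ∈ s := (hs P).2 ⟨1, (one_smul _ _).symm⟩
    have hzs : ∀ Q ∈ s, z Q = z P := by
      intro Q hQ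
      obtain ⟨δ, rfl⟩ := (hs Q).1 hQ
      exact ab_val z hz δ P
    obtain ⟨o, ho⟩ : ∃ o : Pt W Ω →₀ ℤ, o = ∑ Q ∈ s, Finsupp.single Q 1 := ⟨_, rfl⟩
    have ho' : ∀ R, o R = if R ∈ s then 1 else 0 := by
      intro R
      rw [ho, Finsupp.finset_sum_apply]
      simp only [Finsupp.single_apply]
      exact Finset.sum_ite_eq' s R _
    have hoinv : ∀ γ : Ω ≃ₐ[K] Ω, Finsupp.mapDomain (fun P : Pt W Ω => γ • P) o = o := by
      intro γ
      rw [ho, Finsupp.mapDomain_finset_sum]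
      simp only [Finsupp.mapDomain_single]
      exact Finset.sum_bij (fun P _ => γ • P) (fun P hP => hst γ P hP)
        (fun P _ Q _ h => MulAction.injective γ h)
        (fun Q hQ => ⟨γ⁻¹ • Q, hst _ Q hQ, smul_inv_smul γ Q⟩) (fun P _ => rfl)
    obtain ⟨z', hz'0⟩ : ∃ z' : Pt W Ω →₀ ℤ, z' = z - z P • o := ⟨_, rfl⟩
    have hz' : ∀ γ : Ω ≃ₐ[K] Ω, Finsupp.mapDomain (fun P : Pt W Ω => γ • P) z' = z' := by
      intro γ
      have h1 : ∀ w : Pt W Ω →₀ ℤ, Finsupp.mapDomain (fun P : Pt W Ω => γ • P) w =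
          Finsupp.mapDomain.addMonoidHom (fun P : Pt W Ω => γ • P) w := fun w => rfl
      rw [hz'0, h1, map_sub, map_zsmul, ← h1, ← h1, hz γ, hoinv γ]
    have hsup : z'.support ⊆ z.support.erase P := by
      intro R hR
      rw [Finsupp.mem_support_iff] at hR
      have h1 : z' R = z R - z P * (if R ∈ s then 1 else 0) := by
        rw [hz'0, Finsupp.sub_apply, Finsupp.smul_apply, ho', smul_eq_mul]
      rw [h1] at hR
      rw [Finset.mem_erase, Finsupp.mem_support_iff]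
      constructor
      · rintro rfl
        apply hR
        rw [if_pos hPs]
        ring
      · intro h2
        apply hR
        by_cases hRs : R ∈ s
        · have h3 := hzs R hRs
          rw [if_pos hRs, h3]
          ring
        · rw [if_neg hRs, h2]
          ring
    have hcard : z'.support.card ≤ n := by
      have h1 := Finset.card_le_card hsup
      rw [Finset.card_erase_of_mem hP] at h1
      omega
    have h1 := ih z' hcard hz'
    have h2 := ab_orb' s P hs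
    have fz := ab_smfix z hz
    have fz' := ab_smfix z' hz'
    have fo := ab_smfix o hoinv
    have hsmo : sm o = ∑ Q ∈ s, Q := by
      rw [ho, map_sum]
      refine Finset.sum_congr rfl fun Q _ => ?_
      simp only [sm, Finsupp.liftAddHom_apply_single, zmultiplesHom_apply, one_smul]
    have hdgo : dg o = (s.card : ℤ) := by
      rw [ho, map_sum]
      simp only [dg, Finsupp.liftAddHom_apply_single, AddMonoidHom.id_apply, Finset.sum_const,
        nsmul_eq_mul, mul_one]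
    rw [← hsmo, ← hdgo, ← ho] at h2
    have k1 := (ab_conv z' fz').1 h1
    have k2 := (ab_conv o fo).1 h2
    refine (ab_conv z fz).2 ?_
    have e : z = z' + z P • o := by
      rw [hz'0]
      abel
    have e1 : sm z = sm z' + z P • sm o := by
      conv_lhs => rw [e]
      rw [map_add, map_zsmul]
    have e2 : dg z = dg z' + z P • dg o := by
      conv_lhs => rw [e]
      rw [map_add, map_zsmul]
    have e3 : (⟨sm z, fz⟩ : FixedPoints.addSubgroup (Ω ≃ₐ[K] Ω) (Pt W Ω)) =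
        ⟨sm z', fz'⟩ + z P • ⟨sm o, fo⟩ := Subtype.ext e1
    rw [e3, e2, map_add, map_zsmul]
    conv_lhs => rw [e]
    rw [QuotientAddGroup.mk_add, QuotientAddGroup.mk_zsmul, k1, k2, zsmul_add, add_zsmul,
      smul_eq_mul, mul_zsmul]
    exact add_add_add_comm _ _ _ _

/-- Two points over `K`. Proof: `ab_rat` for `[P, P', -(P + P')]` and `[P + P', -(P + P')]` (with the cases where one of them is `0`). -/
theorem ab_add (P P' : Pt W Ω) (hP : ∀ γ : Ω ≃ₐ[K] Ω, γ • P = P) (hP' : ∀ γ : Ω ≃ₐ[K] Ω, γ • P' = P') :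
    Finsupp.single P 1 + Finsupp.single P' 1 - Finsupp.single (P + P') 1 -
      Finsupp.single (0 : Pt W Ω) (1 : ℤ) ∈ AddSubgroup.closure {z | Pv (Ev W) K Ω z} :=
  ab_add' P P' hP hP'

/-- A stable set which is one orbit. Proof: one point: trivial. At least two points: let `S` be the sum; `s` or `s ∪ {- S}` (if `S ≠ 0`; `- S` is
invariant, so it is not in `s`), `ab_set`, and `ab_add` for `S`, `- S`. -/
theorem ab_orb (s : Finset (Pt W Ω)) (P : Pt W Ω) (hs : ∀ Q, Q ∈ s ↔ ∃ γ : Ω ≃ₐ[K] Ω, Q = γ • P) :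
    ∑ Q ∈ s, Finsupp.single Q 1 - Finsupp.single (∑ Q ∈ s, Q) 1 -
      Finsupp.single (0 : Pt W Ω) ((s.card : ℤ) - 1) ∈
      AddSubgroup.closure {z | Pv (Ev W) K Ω z} :=
  ab_orb' s P hs

/-- **Abel's theorem.** Proof: an invariant cycle is a combination of orbits (points over `Ω` have finite orbits, `exists_op`); `ab_orb`, `ab_add`. -/
theorem abel (z : Pt W Ω →₀ ℤ)
    (hz : ∀ γ : Ω ≃ₐ[K] Ω, Finsupp.mapDomain (fun P : Pt W Ω => γ • P) z = z) (hd : dg z = 0)
    (hs : sm z = 0) : z ∈ AddSubgroup.closure {z | Pv (Ev W) K Ω z} := by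
  have h1 := ab_main _ z le_rfl hz
  rw [hs, hd, zero_sub, Finsupp.single_neg] at h1
  exact ab_eq h1 (by abel)

end PE
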