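import Pool.Agent.Lib.MP_f80667_ag.Pe.Tr
import Pool.Agent.Lib.MP_f80667_ag.Pe.Ab
import Pool.Agent.Lib.MP_f80667_ag.Be.Gen

/-! Generation of the Albanese kernel of a product of two curves by the traces of the cycles `tau P Q`. -/

open ZC BE Polynomial

namespace PE

section abs

variable {Γ X Y : Type} [Group Γ] [MulAction Γ X] [MulAction Γ Y]

/-- The trace commutes with equivariant maps. -/
theorem sib_map {f : X → Y} (hf : ∀ (γ : Γ) (x : X), f (γ • x) = γ • f x) {H : Subgroup Γ}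
    (hH : H.FiniteIndex) (z : X →₀ ℤ) :
    Finsupp.mapDomain f (trG X H z) = trG Y H (Finsupp.mapDomain f z) := by
  classical
  let _ : Fintype (Γ ⧸ H) := Fintype.ofFinite _
  rw [trG_apply hH, trG_apply hH, finsum_eq_sum_of_fintype, finsum_eq_sum_of_fintype,
    Finsupp.mapDomain_finsetSum]
  refine Finset.sum_congr rfl fun q _ => ?_
  rw [← Finsupp.mapDomain_comp, ← Finsupp.mapDomain_comp]
  congr 1
  funext x
  exact hf _ x

/-- A homomorphism which does not see the action. -/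
theorem sib_hom {G : Type} [AddCommGroup G] (φ : (X →₀ ℤ) →+ G) {H : Subgroup Γ}
    (hH : H.FiniteIndex) {z : X →₀ ℤ}
    (hφ : ∀ γ : Γ, φ (Finsupp.mapDomain (fun x => γ • x) z) = 0) : φ (trG X H z) = 0 := by
  classical
  let _ : Fintype (Γ ⧸ H) := Fintype.ofFinite _
  rw [trG_apply hH, finsum_eq_sum_of_fintype, map_sum]
  exact Finset.sum_eq_zero fun q _ => hφ _

end abs

section tau

variable {A B : Type} [AddCommGroup A] [AddCommGroup B]

theorem sib_dg_map {A B : Type} (f : A → B) (z : A →₀ ℤ) : dg (Finsupp.mapDomain f z) = dg z := by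
  have h : (dg.comp (Finsupp.mapDomain.addMonoidHom (M := ℤ) f) : (A →₀ ℤ) →+ ℤ) = dg := by
    refine Finsupp.addHom_ext fun a n => ?_
    rw [AddMonoidHom.comp_apply, Finsupp.mapDomain.addMonoidHom_apply, Finsupp.mapDomain_single]
    simp [dg]
  exact DFunLike.congr_fun h z

theorem sib_dg_single {A : Type} (a : A) (n : ℤ) : dg (Finsupp.single a n) = n := by simp [dg]

theorem sib_dg_tau (P : A) (Q : B) : dg (tau P Q) = 0 := by
  rw [tau, map_add, map_sub, map_sub, sib_dg_single, sib_dg_single, sib_dg_single, sib_dg_single]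
  norm_num

theorem sib_fst_tau (P : A) (Q : B) : Finsupp.mapDomain Prod.fst (tau P Q) = 0 := by
  have e : Finsupp.mapDomain Prod.fst (tau P Q) =
      Finsupp.mapDomain.addMonoidHom (M := ℤ) (Prod.fst : A × B → A) (tau P Q) := rfl
  rw [e, tau, map_add, map_sub, map_sub]
  simp only [Finsupp.mapDomain.addMonoidHom_apply, Finsupp.mapDomain_single]
  abel

theorem sib_snd_tau (P : A) (Q : B) : Finsupp.mapDomain Prod.snd (tau P Q) = 0 := by
  have e : Finsupp.mapDomain Prod.snd (tau P Q) =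
      Finsupp.mapDomain.addMonoidHom (M := ℤ) (Prod.snd : A × B → B) (tau P Q) := rfl
  rw [e, tau, map_add, map_sub, map_sub]
  simp only [Finsupp.mapDomain.addMonoidHom_apply, Finsupp.mapDomain_single]
  abel

/-- `z - i₁ p₁ z - i₂ p₂ z + deg z [0]`. -/
noncomputable def Phi : (A × B →₀ ℤ) →+ (A × B →₀ ℤ) :=
  AddMonoidHom.id _ - Finsupp.mapDomain.addMonoidHom (fun x : A × B => ((x.1, 0) : A × B)) -
    Finsupp.mapDomain.addMonoidHom (fun x : A × B => ((0, x.2) : A × B)) +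
    Finsupp.mapDomain.addMonoidHom (fun _ : A × B => ((0, 0) : A × B))

theorem Phi_apply (z : A × B →₀ ℤ) : Phi z = z -
    Finsupp.mapDomain (fun x : A × B => ((x.1, 0) : A × B)) z -
    Finsupp.mapDomain (fun x : A × B => ((0, x.2) : A × B)) z +
    Finsupp.mapDomain (fun _ : A × B => ((0, 0) : A × B)) z := rfl

theorem Phi_single (P : A) (Q : B) : Phi (Finsupp.single (P, Q) 1) = tau P Q := by
  rw [Phi_apply, Finsupp.mapDomain_single, Finsupp.mapDomain_single, Finsupp.mapDomain_single]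
  rfl

omit [AddCommGroup A] [AddCommGroup B] in
theorem sib_const (z : A × B →₀ ℤ) (x : A × B) :
    Finsupp.mapDomain (fun _ : A × B => x) z = Finsupp.single x (dg z) := by
  have h : (Finsupp.mapDomain.addMonoidHom (M := ℤ) (fun _ : A × B => x)) =
      (Finsupp.singleAddHom x).comp dg := by
    refine Finsupp.addHom_ext fun a n => ?_
    rw [AddMonoidHom.comp_apply, Finsupp.mapDomain.addMonoidHom_apply, Finsupp.mapDomain_single,
      sib_dg_single]
    rfl
  exact DFunLike.congr_fun h z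

end tau

section act

variable {Γ A B : Type} [Group Γ] [AddCommGroup A] [AddCommGroup B] [DistribMulAction Γ A]
  [DistribMulAction Γ B]

theorem sib_Phi_tr {H : Subgroup Γ} (hH : H.FiniteIndex) (z : A × B →₀ ℤ) :
    Phi (trG (A × B) H z) = trG (A × B) H (Phi z) := by
  rw [Phi_apply, Phi_apply, map_add, map_sub, map_sub]
  rw [sib_map (f := fun x : A × B => ((x.1, 0) : A × B))
      (fun γ x => Prod.ext rfl (smul_zero γ).symm) hH,
    sib_map (f := fun x : A × B => ((0, x.2) : A × B))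
      (fun γ x => Prod.ext (smul_zero γ).symm rfl) hH,
    sib_map (f := fun _ : A × B => ((0, 0) : A × B))
      (fun γ x => Prod.ext (smul_zero γ).symm (smul_zero γ).symm) hH]

theorem sib_tau_smul {γ : Γ} {P : A} {Q : B} (hP : γ • P = P) (hQ : γ • Q = Q) :
    Finsupp.mapDomain (fun x => γ • x) (tau P Q) = tau P Q := by
  have e : Finsupp.mapDomain (fun x => γ • x) (tau P Q) =
      Finsupp.mapDomain.addMonoidHom (M := ℤ) (fun x : A × B => γ • x) (tau P Q) := rfl
  rw [e, tau, map_add, map_sub, map_sub]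
  simp only [Finsupp.mapDomain.addMonoidHom_apply, Finsupp.mapDomain_single, Prod.smul_mk, hP, hQ,
    smul_zero]

theorem sib_fst_tr {H : Subgroup Γ} (hH : H.FiniteIndex) (P : A) (Q : B) :
    Finsupp.mapDomain Prod.fst (trG (A × B) H (tau P Q)) = 0 := by
  rw [sib_map (f := (Prod.fst : A × B → A)) (fun γ x => rfl) hH, sib_fst_tau, map_zero]

theorem sib_snd_tr {H : Subgroup Γ} (hH : H.FiniteIndex) (P : A) (Q : B) :
    Finsupp.mapDomain Prod.snd (trG (A × B) H (tau P Q)) = 0 := by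
  rw [sib_map (f := (Prod.snd : A × B → B)) (fun γ x => rfl) hH, sib_snd_tau, map_zero]

theorem sib_dg_tr {H : Subgroup Γ} (hH : H.FiniteIndex) (P : A) (Q : B) :
    dg (trG (A × B) H (tau P Q)) = 0 := by
  refine sib_hom dg hH fun γ => ?_
  rw [sib_dg_map, sib_dg_tau]

end act

section gen

variable {F : Type} [Field F] {W₁ W₂ : WeierstrassCurve F}
  {K : Type} [Field K] [CharZero K] [Algebra F K] {Ω : Type} [Field Ω] [Algebra K Ω] [Algebra F Ω]
  [IsScalarTower F K Ω] [IsAlgClosure K Ω]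

/-- The stabiliser of a point is open. -/
theorem sib_stab (x : Pt W₁ Ω × Pt W₂ Ω) :
    opn K Ω (MulAction.stabilizer (Ω ≃ₐ[K] Ω) x) := by
  obtain ⟨M₁, hM₁, h₁⟩ := exists_op (K := K) x.1
  obtain ⟨M₂, hM₂, h₂⟩ := exists_op (K := K) x.2
  refine ⟨M₁ ⊔ M₂, inferInstance, fun γ hγ => ?_⟩
  rw [MulAction.mem_stabilizer_iff]
  exact Prod.ext (h₁ γ (fix_le le_sup_left hγ)) (h₂ γ (fix_le le_sup_right hγ))

/-- Every zero-cycle over `K` is a combination of traces of points. -/
theorem sib_cyc {z : Pt W₁ Ω × Pt W₂ Ω →₀ ℤ}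
    (hz : ∀ γ : Ω ≃ₐ[K] Ω, Finsupp.mapDomain (fun x => γ • x) z = z) :
    z ∈ AddSubgroup.closure {z | ∃ (M : IntermediateField K Ω) (P : Pt W₁ Ω) (Q : Pt W₂ Ω),
      FiniteDimensional K M ∧ Fx M P ∧ Fx M Q ∧
        z = trG (Pt W₁ Ω × Pt W₂ Ω) M.fixingSubgroup (Finsupp.single (P, Q) 1)} := by
  classical
  induction hn : z.support.card using Nat.strong_induction_on generalizing z with
  | _ n ih =>
    by_cases h0 : z = 0
    · rw [h0]
      exact zero_mem _
    · obtain ⟨x, hx⟩ := Finsupp.support_nonempty_iff.2 h0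
      have hop := sib_stab (K := K) x
      have hH := opn_fin _ hop
      have hfix : ∀ γ ∈ MulAction.stabilizer (Ω ≃ₐ[K] Ω) x, γ • x = x := fun γ hγ => hγ
      have hinv : ∀ γ ∈ MulAction.stabilizer (Ω ≃ₐ[K] Ω) x,
          Finsupp.mapDomain (fun x => γ • x) (Finsupp.single x (1 : ℤ)) = Finsupp.single x 1 := by
        intro γ hγ
        rw [Finsupp.mapDomain_single, hfix γ hγ]
      have hti : ∀ γ : Ω ≃ₐ[K] Ω, Finsupp.mapDomain (fun x => γ • x)
          (trG (Pt W₁ Ω × Pt W₂ Ω) (MulAction.stabilizer (Ω ≃ₐ[K] Ω) x) (Finsupp.single x 1)) =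
          trG (Pt W₁ Ω × Pt W₂ Ω) (MulAction.stabilizer (Ω ≃ₐ[K] Ω) x) (Finsupp.single x 1) :=
        fun σ => smul_trG hH hinv σ
      set t := trG (Pt W₁ Ω × Pt W₂ Ω) (MulAction.stabilizer (Ω ≃ₐ[K] Ω) x) (Finsupp.single x 1)
        with ht
      have hz' : ∀ γ : Ω ≃ₐ[K] Ω, Finsupp.mapDomain (fun x => γ • x) (z - z x • t) =
          z - z x • t := by
        intro γ
        have e : Finsupp.mapDomain (fun x => γ • x) (z - z x • t) =
          Finsupp.mapDomain.addMonoidHom (M := ℤ) (fun x : Pt W₁ Ω × Pt W₂ Ω => γ • x)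
            (z - z x • t) := rfl
        rw [e, map_sub, map_zsmul, Finsupp.mapDomain.addMonoidHom_apply,
          Finsupp.mapDomain.addMonoidHom_apply, hz γ, hti γ]
      -- values of `z` on the orbit
      have hval : ∀ x' ∈ MulAction.orbit (Ω ≃ₐ[K] Ω) x, z x' = z x := by
        rintro _ ⟨σ, rfl⟩
        have h1 := hz σ
        have hinj : Function.Injective (fun x : Pt W₁ Ω × Pt W₂ Ω => σ • x) :=
          fun p q hpq => smul_left_cancel σ hpq
        calc z (σ • x) = (Finsupp.mapDomain (fun x => σ • x) z) ((fun x => σ • x) x) := by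
              rw [h1]
          _ = z x := Finsupp.mapDomain_apply hinj z _
      have hval' : ∀ x', (z - z x • t) x' =
          if x' ∈ MulAction.orbit (Ω ≃ₐ[K] Ω) x then 0 else z x' := by
        intro x'
        rw [Finsupp.sub_apply, Finsupp.smul_apply, ht, trG_single_apply _ _ hH]
        split_ifs with h
        · rw [hval x' h, smul_eq_mul, mul_one, sub_self]
        · rw [smul_zero, sub_zero]
      have hcard : (z - z x • t).support.card < n := by
        rw [← hn]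
        refine Finset.card_lt_card ((Finset.ssubset_iff_of_subset ?_).2 ⟨x, hx, ?_⟩)
        · intro x' hx'
          rw [Finsupp.mem_support_iff, hval'] at hx'
          rw [Finsupp.mem_support_iff]
          intro h
          apply hx'
          rw [h, ite_self]
        · rw [Finsupp.mem_support_iff, hval', if_pos (MulAction.mem_orbit_self _)]
          exact fun h => h rfl
      have h1 := ih _ hcard hz' rfl
      obtain ⟨M, hM, hMe⟩ := exists_fix hop
      have h3 : t ∈ AddSubgroup.closure {z | ∃ (M : IntermediateField K Ω) (P : Pt W₁ Ω)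
          (Q : Pt W₂ Ω), FiniteDimensional K M ∧ Fx M P ∧ Fx M Q ∧
          z = trG (Pt W₁ Ω × Pt W₂ Ω) M.fixingSubgroup (Finsupp.single (P, Q) 1)} := by
        refine AddSubgroup.subset_closure ⟨M, x.1, x.2, hM, ?_, ?_, ?_⟩
        · intro γ hγ
          rw [hMe] at hγ
          exact congrArg Prod.fst (hfix γ hγ)
        · intro γ hγ
          rw [hMe] at hγ
          exact congrArg Prod.snd (hfix γ hγ)
        · rw [hMe]
      have h2 := add_mem h1 (zsmul_mem h3 (z x))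
      rwa [sub_add_cancel] at h2

/-- The cycle `Phi z` is a combination of traces of the cycles `tau P Q`. -/
theorem sib_Phi {z : Pt W₁ Ω × Pt W₂ Ω →₀ ℤ}
    (hz : ∀ γ : Ω ≃ₐ[K] Ω, Finsupp.mapDomain (fun x => γ • x) z = z) :
    Phi z ∈ AddSubgroup.closure {z | ∃ (M : IntermediateField K Ω) (P : Pt W₁ Ω) (Q : Pt W₂ Ω),
      FiniteDimensional K M ∧ Fx M P ∧ Fx M Q ∧
        z = trG (Pt W₁ Ω × Pt W₂ Ω) M.fixingSubgroup (tau P Q)} := by
  have h := sib_cyc hz
  have h1 : AddSubgroup.closure {z | ∃ (M : IntermediateField K Ω) (P : Pt W₁ Ω) (Q : Pt W₂ Ω),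
      FiniteDimensional K M ∧ Fx M P ∧ Fx M Q ∧
        z = trG (Pt W₁ Ω × Pt W₂ Ω) M.fixingSubgroup (Finsupp.single (P, Q) 1)} ≤
      (AddSubgroup.closure {z | ∃ (M : IntermediateField K Ω) (P : Pt W₁ Ω) (Q : Pt W₂ Ω),
        FiniteDimensional K M ∧ Fx M P ∧ Fx M Q ∧
          z = trG (Pt W₁ Ω × Pt W₂ Ω) M.fixingSubgroup (tau P Q)}).comap Phi := by
    rw [AddSubgroup.closure_le]
    rintro _ ⟨M, P, Q, hM, hP, hQ, rfl⟩
    refine AddSubgroup.subset_closure ⟨M, P, Q, hM, hP, hQ, ?_⟩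
    rw [sib_Phi_tr (opn_fin _ (opn_fix M)), Phi_single]
  exact h1 h

variable [W₁.IsElliptic] [W₂.IsElliptic]

/-- A cycle in the Albanese kernel is rationally equivalent to a combination of traces of the cycles `tau P Q`. -/
theorem sib_gen {z : Pt W₁ Ω × Pt W₂ Ω →₀ ℤ} (hz : z ∈ (Xv W₁ W₂).D0 K Ω)
    (h₁ : sm (Finsupp.mapDomain Prod.fst z) = 0) (h₂ : sm (Finsupp.mapDomain Prod.snd z) = 0) :
    ∃ w ∈ AddSubgroup.closure {z | ∃ (M : IntermediateField K Ω) (P : Pt W₁ Ω) (Q : Pt W₂ Ω),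
      FiniteDimensional K M ∧ Fx M P ∧ Fx M Q ∧
        z = trG (Pt W₁ Ω × Pt W₂ Ω) M.fixingSubgroup (tau P Q)},
      z - w ∈ (Xv W₁ W₂).ratEq K Ω := by
  have hO : IsAlgClosed Ω := IsAlgClosure.isAlgClosed K
  have hc : ∀ γ : Ω ≃ₐ[K] Ω, Finsupp.mapDomain (fun x => γ • x) z = z := hz.1
  have hd : dg z = 0 := hz.2
  refine ⟨Phi z, sib_Phi hc, ?_⟩
  have a₁ : Finsupp.mapDomain Prod.fst z ∈ (Ev W₁).ratEq K Ω := by
    have h := abel (K := K) (Finsupp.mapDomain Prod.fst z) (fun γ => by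
      rw [← Finsupp.mapDomain_comp]
      conv_rhs => rw [← hc γ]
      rw [← Finsupp.mapDomain_comp]
      rfl) (by rw [sib_dg_map, hd]) h₁
    exact (AddSubgroup.closure_le _).2 (fun y hy => pv_ratEq_ev hy) h
  have a₂ : Finsupp.mapDomain Prod.snd z ∈ (Ev W₂).ratEq K Ω := by
    have h := abel (K := K) (Finsupp.mapDomain Prod.snd z) (fun γ => by
      rw [← Finsupp.mapDomain_comp]
      conv_rhs => rw [← hc γ]
      rw [← Finsupp.mapDomain_comp]
      rfl) (by rw [sib_dg_map, hd]) h₂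
    exact (AddSubgroup.closure_le _).2 (fun y hy => pv_ratEq_ev hy) h
  have b₁ := inl_ratEq (W₂ := W₂) a₁
  have b₂ := inr_ratEq (W₁ := W₁) a₂
  rw [← Finsupp.mapDomain_comp] at b₁ b₂
  rw [Phi_apply, sib_const z (0, 0), hd, Finsupp.single_zero, add_zero]
  have e : z - (z - Finsupp.mapDomain (fun x : Pt W₁ Ω × Pt W₂ Ω => ((x.1, 0) : Pt W₁ Ω × Pt W₂ Ω)) z -
      Finsupp.mapDomain (fun x : Pt W₁ Ω × Pt W₂ Ω => ((0, x.2) : Pt W₁ Ω × Pt W₂ Ω)) z) =
      Finsupp.mapDomain (fun x : Pt W₁ Ω × Pt W₂ Ω => ((x.1, 0) : Pt W₁ Ω × Pt W₂ Ω)) z +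
        Finsupp.mapDomain (fun x : Pt W₁ Ω × Pt W₂ Ω => ((0, x.2) : Pt W₁ Ω × Pt W₂ Ω)) z := by
    abel
  rw [e]
  exact add_mem b₁ b₂

omit [W₁.IsElliptic] [W₂.IsElliptic] in
/-- The traces of the cycles `tau P Q` are in the Albanese kernel. -/
theorem sib_mem (M : IntermediateField K Ω) [FiniteDimensional K M] {P : Pt W₁ Ω} {Q : Pt W₂ Ω}
    (hP : Fx M P) (hQ : Fx M Q) :
    trG (Pt W₁ Ω × Pt W₂ Ω) M.fixingSubgroup (tau P Q) ∈ (Xv W₁ W₂).D0 K Ω := by
  have hH := opn_fin _ (opn_fix (K := K) (Ω := Ω) M)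
  refine ⟨?_, ?_⟩
  · intro σ
    exact smul_trG hH (fun γ hγ => sib_tau_smul (hP γ hγ) (hQ γ hγ)) σ
  · exact sib_dg_tr hH P Q

end gen

end PE
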