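import Pool.Agent.Lib.MP_f80667_ag.Pe.Df

/-! Orbits of points of the product of two curves. -/

open ZC BE Polynomial

namespace PE

section abs

/-- The sum over the cosets of the stabilizer is the sum over the orbit. -/
theorem siC_one {Γ X G : Type} [Group Γ] [MulAction Γ X] [AddCommMonoid G] (H S : Subgroup Γ)
    (hfin : Finite (H ⧸ S.subgroupOf H)) (s : Finset X) (p : X)
    (hs : ∀ q, q ∈ s ↔ ∃ γ ∈ H, q = γ • p) (hS : ∀ γ ∈ H, γ • p = p ↔ γ ∈ S) (f : X → G) :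
    ∑ᶠ q : H ⧸ S.subgroupOf H, f (((q.out : H) : Γ) • p) = ∑ q ∈ s, f q := by
  classical
  let _ : Fintype (H ⧸ S.subgroupOf H) := Fintype.ofFinite _
  rw [finsum_eq_sum_of_fintype]
  refine Finset.sum_bij (fun q _ => ((q.out : H) : Γ) • p) ?_ ?_ ?_ ?_
  · intro q _
    exact (hs _).2 ⟨_, (q.out : H).2, rfl⟩
  · intro q _ q' _ h
    have h1 : ((q.out : H) : Γ)⁻¹ * ((q'.out : H) : Γ) ∈ S := by
      refine (hS _ (H.mul_mem (H.inv_mem (q.out : H).2) (q'.out : H).2)).1 ?_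
      rw [mul_smul, ← h, inv_smul_smul]
    rw [← QuotientGroup.out_eq' q, ← QuotientGroup.out_eq' q']
    exact QuotientGroup.eq.2 (Subgroup.mem_subgroupOf.2 h1)
  · intro x hx
    obtain ⟨γ, hγ, rfl⟩ := (hs x).1 hx
    refine ⟨((⟨γ, hγ⟩ : H) : H ⧸ S.subgroupOf H), Finset.mem_univ _, ?_⟩
    obtain ⟨n, hn⟩ := QuotientGroup.mk_out_eq_mul (S.subgroupOf H) (⟨γ, hγ⟩ : H)
    rw [hn]
    have h1 : ((n : H) : Γ) ∈ S := Subgroup.mem_subgroupOf.1 n.2
    have h2 : ((n : H) : Γ) • p = p := (hS _ (n : H).2).2 h1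
    change (γ * ((n : H) : Γ)) • p = γ • p
    rw [mul_smul, h2]
  · intro q _
    rfl

/-- The decomposition of a stable set into orbits. -/
theorem siC_ind {Γ X G : Type} [Group Γ] [MulAction Γ X] [AddCommGroup G] (H : Subgroup Γ)
    (f : X → G) (C : AddSubgroup G) (s : Finset X)
    (hC : ∀ p ∈ s, ∀ t : Finset X, (∀ q, q ∈ t ↔ ∃ γ ∈ H, q = γ • p) → ∑ q ∈ t, f q ∈ C) :
    ∀ t : Finset X, t ⊆ s → (∀ γ ∈ H, ∀ p ∈ t, γ • p ∈ t) → ∑ q ∈ t, f q ∈ C := by
  classical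
  intro t
  induction t using Finset.strongInduction with
  | H t ih =>
    intro hts hst
    rcases t.eq_empty_or_nonempty with rfl | ⟨p, hp⟩
    · rw [Finset.sum_empty]
      exact C.zero_mem
    · have h1 := Finset.sum_filter_add_sum_filter_not t (fun q => ∃ γ ∈ H, q = γ • p) f
      rw [← h1]
      refine C.add_mem ?_ ?_
      · refine hC p (hts hp) _ fun q => ?_
        rw [Finset.mem_filter]
        refine ⟨fun h => h.2, fun h => ⟨?_, h⟩⟩
        obtain ⟨γ, hγ, rfl⟩ := h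
        exact hst γ hγ p hp
      · refine ih _ ?_ ((Finset.filter_subset _ _).trans hts) ?_
        · rw [Finset.ssubset_iff_of_subset (Finset.filter_subset _ _)]
          refine ⟨p, hp, fun h => ?_⟩
          rw [Finset.mem_filter] at h
          exact h.2 ⟨1, H.one_mem, (one_smul Γ p).symm⟩
        · intro γ hγ q hq
          rw [Finset.mem_filter] at hq ⊢
          refine ⟨hst γ hγ q hq.1, fun h => hq.2 ?_⟩
          obtain ⟨δ, hδ, he⟩ := h
          refine ⟨γ⁻¹ * δ, H.mul_mem (H.inv_mem hγ) hδ, ?_⟩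
          rw [mul_smul, ← he, inv_smul_smul]

/-- Group elements move `tau`. -/
theorem siC_tau {Γ A B : Type} [Group Γ] [AddCommGroup A] [AddCommGroup B]
    [DistribMulAction Γ A] [DistribMulAction Γ B] (γ : Γ) (P : A) (Q : B) :
    Finsupp.mapDomain (fun x : A × B => γ • x) (tau P Q) = tau (γ • P) (γ • Q) := by
  have h : ∀ z : A × B →₀ ℤ, Finsupp.mapDomain (fun x : A × B => γ • x) z =
      Finsupp.mapDomain.addMonoidHom (fun x : A × B => γ • x) z := fun _ => rfl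
  rw [tau, tau, h, map_add, map_sub, map_sub]
  simp only [Finsupp.mapDomain.addMonoidHom_apply, Finsupp.mapDomain_single, Prod.smul_mk,
    smul_zero]

end abs

variable {F : Type} [Field F] {W₁ W₂ : WeierstrassCurve F}
  {K : Type} [Field K] [CharZero K] [Algebra F K] {Ω : Type} [Field Ω] [Algebra K Ω] [Algebra F Ω]
  [IsScalarTower F K Ω] [IsAlgClosure K Ω]

/-- The trace over the orbit of one element. -/
theorem siC_tr (M N : IntermediateField K Ω) [FiniteDimensional K N] (hMN : M ≤ N)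
    (s : Finset (Pt W₁ Ω × Pt W₂ Ω)) (p : Pt W₁ Ω × Pt W₂ Ω)
    (hs : ∀ q, q ∈ s ↔ ∃ γ ∈ M.fixingSubgroup, q = γ • p)
    (hN : ∀ γ ∈ M.fixingSubgroup, γ • p = p ↔ γ ∈ N.fixingSubgroup) :
    trG (Pt W₁ Ω × Pt W₂ Ω) M.fixingSubgroup (∑ p ∈ s, tau p.1 p.2) =
      trG (Pt W₁ Ω × Pt W₂ Ω) N.fixingSubgroup (tau p.1 p.2) := by
  have hSf : N.fixingSubgroup.FiniteIndex := opn_fin _ (opn_fix N)
  have hle := fix_le hMN
  have hfin : Finite (M.fixingSubgroup ⧸ N.fixingSubgroup.subgroupOf M.fixingSubgroup) :=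
    Subgroup.finite_quotient_of_finiteIndex
  have hz : ∀ γ ∈ N.fixingSubgroup,
      Finsupp.mapDomain (fun x : Pt W₁ Ω × Pt W₂ Ω => γ • x) (tau p.1 p.2) = tau p.1 p.2 := by
    intro γ hγ
    rw [siC_tau]
    have h1 : γ • p = p := (hN γ (hle hγ)).2 hγ
    have h2 : γ • p.1 = p.1 := congrArg Prod.fst h1
    have h3 : γ • p.2 = p.2 := congrArg Prod.snd h1
    rw [h2, h3]
  rw [trG_tr hSf hle hz]
  refine congrArg _ ?_
  rw [← siC_one M.fixingSubgroup N.fixingSubgroup hfin s p hs hN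
    (fun q : Pt W₁ Ω × Pt W₂ Ω => tau q.1 q.2)]
  refine finsum_congr fun q => ?_
  rw [siC_tau]
  rfl

/-- The field of definition of a point over `M`. -/
theorem siC_fld (M : IntermediateField K Ω) [FiniteDimensional K M] (p : Pt W₁ Ω × Pt W₂ Ω) :
    ∃ N : IntermediateField K Ω, FiniteDimensional K N ∧ M ≤ N ∧
      ∀ γ ∈ M.fixingSubgroup, γ • p = p ↔ γ ∈ N.fixingSubgroup := by
  obtain ⟨M₁, hM₁, h₁⟩ := exists_op (K := K) p.1
  obtain ⟨M₂, hM₂, h₂⟩ := exists_op (K := K) p.2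
  have hop : opn K Ω (M.fixingSubgroup ⊓ MulAction.stabilizer (Ω ≃ₐ[K] Ω) p) := by
    refine ⟨M ⊔ (M₁ ⊔ M₂), inferInstance, le_inf (fix_le le_sup_left) ?_⟩
    intro γ hγ
    rw [MulAction.mem_stabilizer_iff]
    refine Prod.ext (h₁ γ ?_) (h₂ γ ?_)
    · exact fix_le (le_sup_left.trans le_sup_right) hγ
    · exact fix_le (le_sup_right.trans le_sup_right) hγ
  obtain ⟨N, hN, hN'⟩ := exists_fix hop
  refine ⟨N, hN, le_of_fix_le (hN'.le.trans inf_le_left), fun γ hγ => ?_⟩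
  rw [hN', Subgroup.mem_inf, MulAction.mem_stabilizer_iff]
  exact ⟨fun h => ⟨hγ, h⟩, fun h => h.2⟩

end PE
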