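import Pool.Agent.Lib.MP_f80667_ag.Pe.Kp

/-! Good reduction of the curve of a good polynomial of degree three or four. -/

open ZC BE Polynomial IntermediateField

namespace PE

section qf

variable {F : Type} [Field F] {N : Type} [Field N] [CharZero N] [Algebra F N] {f : F[X]}

theorem keG_qf {L : Type} [Field L] [Algebra F L] (f : F[X]) (v : L × L) :
    qf f v = algebraMap F L (f.coeff 0) * v.2 ^ 4 + algebraMap F L (f.coeff 1) * v.1 * v.2 ^ 3 +
      algebraMap F L (f.coeff 2) * v.1 ^ 2 * v.2 ^ 2 + algebraMap F L (f.coeff 3) * v.1 ^ 3 * v.2 +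
      algebraMap F L (f.coeff 4) * v.1 ^ 4 := by
  unfold qf
  simp only [Finset.sum_range_succ, Finset.sum_range_zero]
  ring

theorem keG_ev {L : Type} [Field L] [Algebra F L] (h : f.natDegree < 5) (e : L) :
    aeval e f = algebraMap F L (f.coeff 0) + algebraMap F L (f.coeff 1) * e +
      algebraMap F L (f.coeff 2) * e ^ 2 + algebraMap F L (f.coeff 3) * e ^ 3 +
      algebraMap F L (f.coeff 4) * e ^ 4 := by
  rw [aeval_eq_sum_range' h]
  simp only [Finset.sum_range_succ, Finset.sum_range_zero, Algebra.smul_def]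
  ring

theorem keG_dv {L : Type} [Field L] [Algebra F L] (h : f.natDegree < 5) (e : L) :
    aeval e (derivative f) = algebraMap F L (f.coeff 1) +
      2 * algebraMap F L (f.coeff 2) * e + 3 * algebraMap F L (f.coeff 3) * e ^ 2 +
      4 * algebraMap F L (f.coeff 4) * e ^ 3 := by
  have h1 : (derivative f).natDegree < 5 := (natDegree_derivative_le f).trans_lt (by omega)
  have h5 : f.coeff 5 = 0 := coeff_eq_zero_of_natDegree_lt h
  rw [aeval_eq_sum_range' h1]
  simp only [Finset.sum_range_succ, Finset.sum_range_zero, Algebra.smul_def, coeff_derivative, h5]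
  simp only [map_mul, map_add, map_one, map_natCast, map_zero]
  push_cast
  ring

/-- The curve in degree three. -/
theorem keG_three (h4 : f.coeff 4 = 0) (h3 : algebraMap F N (f.coeff 3) ≠ 0) :
    Nonempty (Qm f (⟨0, algebraMap F N (f.coeff 2), 0,
      algebraMap F N (f.coeff 3) * algebraMap F N (f.coeff 1),
      algebraMap F N (f.coeff 3) ^ 2 * algebraMap F N (f.coeff 0)⟩ : WeierstrassCurve N)) := by
  set α := algebraMap F N (f.coeff 3) with hα
  have h2 : (2 : N) ≠ 0 := two_ne_zero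
  refine ⟨⟨α⁻¹, 0, 0, 1, (2 * α)⁻¹, ?_, inv_ne_zero (mul_ne_zero h2 h3), ?_⟩⟩
  · rw [mul_one, mul_zero, sub_zero]
    exact inv_ne_zero h3
  · intro L _ _ _ _ v
    have hL : (algebraMap N L α) ≠ 0 := (_root_.map_ne_zero _).2 h3
    have h2L : (2 : L) ≠ 0 := by
      have := (_root_.map_ne_zero (algebraMap N L)).2 h2
      rwa [map_ofNat] at this
    have hc : ∀ x : F, algebraMap N L (algebraMap F N x) = algebraMap F L x := fun x =>
      (IsScalarTower.algebraMap_apply F N L x).symm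
    rw [keG_qf, h4, map_zero]
    unfold pf
    simp only [WeierstrassCurve.b₂, WeierstrassCurve.b₄, WeierstrassCurve.b₆, map_add, map_mul,
      map_pow, map_zero, map_one, map_inv₀, map_ofNat, hc]
    rw [← hc (f.coeff 3), ← hα]
    field_simp
    ring

/-- The curve in degree four. -/
theorem keG_four (hd : f.natDegree < 5) {e : N} (he : aeval e f = 0) {α β γ δ : N}
    (hδ : δ = algebraMap F N (f.coeff 4)) (hγ : γ = algebraMap F N (f.coeff 3) + 4 * δ * e)
    (hβ : β = algebraMap F N (f.coeff 2) + 3 * algebraMap F N (f.coeff 3) * e + 6 * δ * e ^ 2)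
    (hα : α = algebraMap F N (f.coeff 1) + 2 * algebraMap F N (f.coeff 2) * e +
      3 * algebraMap F N (f.coeff 3) * e ^ 2 + 4 * δ * e ^ 3) (h0 : α ≠ 0) :
    Nonempty (Qm f (⟨0, β, 0, α * γ, α ^ 2 * δ⟩ : WeierstrassCurve N)) := by
  have h2 : (2 : N) ≠ 0 := two_ne_zero
  refine ⟨⟨e * α⁻¹, 1, α⁻¹, 0, (2 * α)⁻¹, ?_, inv_ne_zero (mul_ne_zero h2 h0), ?_⟩⟩
  · rw [mul_zero, one_mul, zero_sub]
    exact neg_ne_zero.2 (inv_ne_zero h0)
  · intro L _ _ _ _ v
    have hL : (algebraMap N L α) ≠ 0 := (_root_.map_ne_zero _).2 h0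
    have h2L : (2 : L) ≠ 0 := by
      have := (_root_.map_ne_zero (algebraMap N L)).2 h2
      rwa [map_ofNat] at this
    have hc : ∀ x : F, algebraMap F L x = algebraMap N L (algebraMap F N x) := fun x =>
      IsScalarTower.algebraMap_apply F N L x
    rw [keG_ev hd] at he
    rw [keG_qf, hc, hc, hc, hc, hc, ← hδ]
    have e3 : algebraMap F N (f.coeff 3) = γ - 4 * δ * e := by rw [hγ]; ring
    have e2 : algebraMap F N (f.coeff 2) = β - 3 * γ * e + 6 * δ * e ^ 2 := by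
      rw [hβ, hγ]; ring
    have e1 : algebraMap F N (f.coeff 1) = α - 2 * β * e + 3 * γ * e ^ 2 - 4 * δ * e ^ 3 := by
      rw [hα, hβ, hγ]; ring
    have e0 : algebraMap F N (f.coeff 0) = -α * e + β * e ^ 2 - γ * e ^ 3 + δ * e ^ 4 := by
      rw [e1, e2, e3, ← hδ] at he
      linear_combination he
    rw [e0, e1, e2, e3]
    unfold pf
    simp only [WeierstrassCurve.b₂, WeierstrassCurve.b₄, WeierstrassCurve.b₆, map_add, map_sub,
      map_neg, map_mul, map_pow, map_zero, map_one, map_inv₀, map_ofNat]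
    generalize algebraMap N L α = a at *
    generalize algebraMap N L β = b at *
    generalize algebraMap N L γ = c at *
    generalize algebraMap N L δ = d at *
    generalize algebraMap N L e = e' at *
    field_simp
    ring

end qf

section disc

/-- The discriminant of a cubic polynomial and the derivatives at the roots. -/
theorem keG_disc {Ω : Type} [Field Ω] [IsAlgClosed Ω] [CharZero Ω] (nm : Ω → ℝ)
    (hmul : ∀ x y, nm (x * y) = nm x * nm y) (h2 : nm 2 = 1) (hneg : ∀ x, nm (-x) = nm x)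
    (A B C : Ω) (h : ∀ x : Ω, x ^ 3 + A * x ^ 2 + B * x + C = 0 → nm (3 * x ^ 2 + 2 * A * x + B) = 1) :
    nm (16 * (A ^ 2 * B ^ 2 - 4 * A ^ 3 * C - 4 * B ^ 3 - 27 * C ^ 2 + 18 * A * B * C)) = 1 := by
  have h20 : (2 : Ω) ≠ 0 := two_ne_zero
  obtain ⟨x₁, hx₁⟩ : ∃ x : Ω, x ^ 3 + A * x ^ 2 + B * x + C = 0 := by
    have hd : (X ^ 3 + Polynomial.C A * X ^ 2 + Polynomial.C B * X + Polynomial.C C :
        Polynomial Ω).natDegree = 3 := by
      compute_degree!
    have h0 : (X ^ 3 + Polynomial.C A * X ^ 2 + Polynomial.C B * X + Polynomial.C C :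
        Polynomial Ω).degree ≠ 0 := by
      rw [Polynomial.degree_eq_natDegree (fun h0 => by rw [h0] at hd; simp at hd), hd]
      norm_num
    obtain ⟨x, hx⟩ := IsAlgClosed.exists_root _ h0
    refine ⟨x, ?_⟩
    simpa using hx
  obtain ⟨z, hz⟩ := IsAlgClosed.exists_pow_nat_eq
    ((A + x₁) ^ 2 - 4 * (B + x₁ * A + x₁ ^ 2)) (n := 2) (by norm_num)
  set x₂ : Ω := (-(A + x₁) + z) / 2 with hx₂
  set x₃ : Ω := (-(A + x₁) - z) / 2 with hx₃
  have eA : A = -(x₁ + x₂ + x₃) := by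
    rw [hx₂, hx₃]
    field_simp
    ring
  have eB : B = x₁ * x₂ + x₁ * x₃ + x₂ * x₃ := by
    have e1 : x₂ + x₃ = -(A + x₁) := by
      rw [hx₂, hx₃]
      field_simp
      ring
    have e2 : x₂ * x₃ = B + x₁ * A + x₁ ^ 2 := by
      rw [hx₂, hx₃]
      field_simp
      linear_combination -hz
    linear_combination -x₁ * e1 - e2
  have eC : C = -(x₁ * x₂ * x₃) := by
    rw [eA, eB] at hx₁
    linear_combination hx₁
  have hr : ∀ x, x = x₁ ∨ x = x₂ ∨ x = x₃ → x ^ 3 + A * x ^ 2 + B * x + C = 0 := by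
    intro x hx
    rw [eA, eB, eC]
    rcases hx with h | h | h <;> rw [h] <;> ring
  have n1 := h x₁ hx₁
  have n2 := h x₂ (hr x₂ (Or.inr (Or.inl rfl)))
  have n3 := h x₃ (hr x₃ (Or.inr (Or.inr rfl)))
  have n16 : nm 16 = 1 := by
    have e : (16 : Ω) = 2 * 2 * (2 * 2) := by norm_num
    rw [e, hmul, hmul, h2, one_mul, one_mul]
  have key : 16 * (A ^ 2 * B ^ 2 - 4 * A ^ 3 * C - 4 * B ^ 3 - 27 * C ^ 2 + 18 * A * B * C) =
      -(16 * ((3 * x₁ ^ 2 + 2 * A * x₁ + B) * ((3 * x₂ ^ 2 + 2 * A * x₂ + B) *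
        (3 * x₃ ^ 2 + 2 * A * x₃ + B)))) := by
    clear_value x₂ x₃
    subst eA
    rw [eB, eC]
    ring
  rw [key, hneg, hmul, hmul, hmul, n1, n2, n3, n16]
  norm_num

end disc

namespace Ld

section gd

variable {N Ω : Type} [Field N] [Field Ω] [Algebra N Ω]

/-- A root of a monic cubic polynomial with integral coefficients is integral. -/
theorem keG_int (L : Ld N Ω) {A B C x : Ω} (hA : L.nm A ≤ 1) (hB : L.nm B ≤ 1) (hC : L.nm C ≤ 1)
    (hx : x ^ 3 + A * x ^ 2 + B * x + C = 0) : L.nm x ≤ 1 := by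
  by_contra hlt
  rw [not_le] at hlt
  have h1 : x ^ 3 = -(A * x ^ 2 + B * x + C) := by linear_combination hx
  have h2 : L.nm (x ^ 3) ≤ L.nm x ^ 2 := by
    rw [h1, L.neg]
    refine (L.add _ _).trans (max_le ((L.add _ _).trans (max_le ?_ ?_)) ?_)
    · rw [L.mul, L.pow]
      exact mul_le_of_le_one_left (by positivity) hA
    · rw [L.mul]
      refine (mul_le_of_le_one_left (L.nonneg _) hB).trans ?_
      nlinarith
    · refine hC.trans ?_
      nlinarith
  rw [L.pow] at h2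
  have h3 : L.nm x ^ 2 < L.nm x ^ 3 := pow_lt_pow_right₀ hlt (by norm_num)
  exact absurd h2 (not_le.2 h3)

/-- Good reduction of `y² = x³ + A x² + B x + C`. -/
theorem keG_gd [IsAlgClosed Ω] [CharZero Ω] (L : Ld N Ω) (n2 : L.nm 2 = 1) (A B C : N)
    (hA : L.nm (algebraMap N Ω A) ≤ 1) (hB : L.nm (algebraMap N Ω B) ≤ 1)
    (hC : L.nm (algebraMap N Ω C) ≤ 1)
    (h : ∀ x : Ω, x ^ 3 + algebraMap N Ω A * x ^ 2 + algebraMap N Ω B * x + algebraMap N Ω C = 0 →
      L.nm (3 * x ^ 2 + 2 * algebraMap N Ω A * x + algebraMap N Ω B) = 1) :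
    L.Gd (⟨0, A, 0, B, C⟩ : WeierstrassCurve N) := by
  have h0 : L.nm (algebraMap N Ω 0) ≤ 1 := by
    rw [map_zero, L.zero]
    exact zero_le_one
  refine ⟨⟨h0, hA, h0, hB, hC⟩, ?_⟩
  have h1 := keG_disc L.nm L.mul n2 L.neg _ _ _ h
  rw [← h1]
  congr 1
  simp only [WeierstrassCurve.Δ, WeierstrassCurve.b₂, WeierstrassCurve.b₄, WeierstrassCurve.b₆,
    WeierstrassCurve.b₈, map_sub, map_add, map_mul, map_pow, map_neg, map_ofNat, map_zero]
  ring

end gd

section main

variable {F : Type} [Field F] {K Ω : Type} [Field K] [CharZero K] [Field Ω] [Algebra K Ω]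
  [Algebra F K] [Algebra F Ω] [IsScalarTower F K Ω] [IsAlgClosure K Ω]

/-- Good reduction. -/
theorem keG_main {L : Ld K Ω} {f : F[X]} (hco : ∀ i, L.nm (algebraMap F Ω (f.coeff i)) ≤ 1)
    (hlc : L.nm (algebraMap F Ω f.leadingCoeff) = 1)
    (hrt : ∀ e : Ω, aeval e f = 0 → L.nm e ≤ 1 ∧ L.nm (aeval e (derivative f)) = 1)
    (hf : Qf f) (h2 : L.p ≠ 2)
    {N : IntermediateField K Ω} (h4 : f.natDegree = 4 → ∃ e ∈ N, aeval e f = 0) {L' : Ld N Ω}
    (hL : ∀ x, L'.nm x = L.nm x) : ∃ W : WeierstrassCurve N, L'.Gd W ∧ Nonempty (Qm f W) := by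
  have : IsAlgClosed Ω := IsAlgClosure.isAlgClosed K
  have : CharZero Ω := charZero_of_injective_algebraMap (algebraMap K Ω).injective
  have : CharZero N := charZero_of_injective_algebraMap (algebraMap K N).injective
  have n2 : L'.nm 2 = 1 := by
    rw [hL]
    have h1 : ¬ L.p ∣ 2 := fun hd => h2 ((Nat.prime_dvd_prime_iff_eq L.pp Nat.prime_two).1 hd)
    have h3 := L.nat_unit h1
    exact_mod_cast h3
  have hc : ∀ x : F, algebraMap N Ω (algebraMap F N x) = algebraMap F Ω x := fun _ => rfl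
  have : IsScalarTower F N Ω := IsScalarTower.of_algebraMap_eq fun x => (hc x).symm
  have hn : ∀ k : ℕ, L'.nm (k : Ω) ≤ 1 := L'.nat_le
  have n2' : L'.nm 2 ≤ 1 := n2.le
  have n3' : L'.nm 3 ≤ 1 := by exact_mod_cast hn 3
  have n4' : L'.nm 4 ≤ 1 := by exact_mod_cast hn 4
  have n6' : L'.nm 6 ≤ 1 := by exact_mod_cast hn 6
  have hco' : ∀ i, L'.nm (algebraMap F Ω (f.coeff i)) ≤ 1 := fun i => by rw [hL]; exact hco i
  have mle : ∀ {x y : Ω}, L'.nm x ≤ 1 → L'.nm y ≤ 1 → L'.nm (x * y) ≤ 1 := fun hx hy => by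
    rw [L'.mul]
    exact mul_le_one₀ hx (L'.nonneg _) hy
  have ple : ∀ {x : Ω} (k : ℕ), L'.nm x ≤ 1 → L'.nm (x ^ k) ≤ 1 := fun k hx => by
    rw [L'.pow]
    exact pow_le_one₀ (L'.nonneg _) hx
  have ale : ∀ {x y : Ω}, L'.nm x ≤ 1 → L'.nm y ≤ 1 → L'.nm (x + y) ≤ 1 := fun hx hy =>
    (L'.add _ _).trans (max_le hx hy)
  have hd5 : f.natDegree < 5 := by
    rcases hf.deg with h | h <;> omega
  rcases hf.deg with hd | hd
  · -- degree three
    have hc4 : f.coeff 4 = 0 := coeff_eq_zero_of_natDegree_lt (by omega)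
    have hl3 : L'.nm (algebraMap F Ω (f.coeff 3)) = 1 := by
      rw [hL]
      rw [leadingCoeff, hd] at hlc
      exact hlc
    have h30 : algebraMap F N (f.coeff 3) ≠ 0 := by
      intro h0
      rw [← hc, h0, map_zero, L'.zero] at hl3
      exact zero_ne_one hl3
    refine ⟨_, ?_, keG_three hc4 h30⟩
    refine L'.keG_gd n2 _ _ _ ?_ ?_ ?_ ?_
    · rw [hc]
      exact hco' 2
    · rw [map_mul, hc, hc]
      exact mle (hco' 3) (hco' 1)
    · rw [map_mul, map_pow, hc, hc]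
      exact mle (ple 2 (hco' 3)) (hco' 0)
    · intro x hx
      rw [map_mul, map_mul, map_pow, hc, hc, hc, hc] at hx
      rw [map_mul, hc, hc, hc]
      have ha0 : algebraMap F Ω (f.coeff 3) ≠ 0 := by
        intro h0
        rw [h0, L'.zero] at hl3
        exact zero_ne_one hl3
      set a := algebraMap F Ω (f.coeff 3) with ha
      have he : aeval (x / a) f = 0 := by
        rw [keG_ev hd5, hc4, map_zero, ← ha]
        field_simp
        linear_combination a ^ 2 * hx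
      have h5 := (hrt _ he).2
      rw [keG_dv hd5, hc4, map_zero, ← ha] at h5
      have h6 : 3 * x ^ 2 + 2 * algebraMap F Ω (f.coeff 2) * x + a * algebraMap F Ω (f.coeff 1) =
          a * (algebraMap F Ω (f.coeff 1) + 2 * algebraMap F Ω (f.coeff 2) * (x / a) +
            3 * a * (x / a) ^ 2 + 4 * 0 * (x / a) ^ 3) := by
        field_simp
        ring
      rw [h6, L'.mul, hl3, hL, h5, one_mul]
  · -- degree four
    obtain ⟨e₀, heN, he₀⟩ := h4 hd
    set e : N := ⟨e₀, heN⟩ with he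
    have hea : algebraMap N Ω e = e₀ := rfl
    have heN : aeval e f = 0 := by
      apply (algebraMap N Ω).injective
      rw [← aeval_algebraMap_apply, hea, he₀, map_zero]
    have hl4 : L'.nm (algebraMap F Ω (f.coeff 4)) = 1 := by
      rw [hL]
      rw [leadingCoeff, hd] at hlc
      exact hlc
    have hen : L'.nm e₀ ≤ 1 := by
      rw [hL]
      exact (hrt _ he₀).1
    obtain ⟨δ, hδ⟩ : ∃ δ : N, δ = algebraMap F N (f.coeff 4) := ⟨_, rfl⟩
    obtain ⟨γ, hγ⟩ : ∃ γ : N, γ = algebraMap F N (f.coeff 3) + 4 * δ * e := ⟨_, rfl⟩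
    obtain ⟨β, hβ⟩ : ∃ β : N, β = algebraMap F N (f.coeff 2) + 3 * algebraMap F N (f.coeff 3) * e +
      6 * δ * e ^ 2 := ⟨_, rfl⟩
    obtain ⟨α, hα⟩ : ∃ α : N, α = algebraMap F N (f.coeff 1) + 2 * algebraMap F N (f.coeff 2) * e +
      3 * algebraMap F N (f.coeff 3) * e ^ 2 + 4 * δ * e ^ 3 := ⟨_, rfl⟩
    have eδ : algebraMap N Ω δ = algebraMap F Ω (f.coeff 4) := by rw [hδ, hc]
    have eγ : algebraMap N Ω γ = algebraMap F Ω (f.coeff 3) + 4 * algebraMap N Ω δ * e₀ := by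
      rw [hγ, map_add, map_mul, map_mul, hc, hea, map_ofNat]
    have eβ : algebraMap N Ω β = algebraMap F Ω (f.coeff 2) +
        3 * algebraMap F Ω (f.coeff 3) * e₀ + 6 * algebraMap N Ω δ * e₀ ^ 2 := by
      rw [hβ]
      simp only [map_add, map_mul, map_pow, hc, hea, map_ofNat]
    have eα : algebraMap N Ω α = algebraMap F Ω (f.coeff 1) +
        2 * algebraMap F Ω (f.coeff 2) * e₀ + 3 * algebraMap F Ω (f.coeff 3) * e₀ ^ 2 +
        4 * algebraMap N Ω δ * e₀ ^ 3 := by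
      rw [hα]
      simp only [map_add, map_mul, map_pow, hc, hea, map_ofNat]
    have hαn : L'.nm (algebraMap N Ω α) = 1 := by
      have h5 := (hrt _ he₀).2
      rw [keG_dv hd5] at h5
      rw [eα, eδ, hL]
      exact h5
    have hα0 : α ≠ 0 := by
      rintro rfl
      rw [map_zero, L'.zero] at hαn
      exact zero_ne_one hαn
    have hδn : L'.nm (algebraMap N Ω δ) = 1 := by rw [eδ]; exact hl4
    have hγn : L'.nm (algebraMap N Ω γ) ≤ 1 := by
      rw [eγ]
      exact ale (hco' 3) (mle (mle n4' hδn.le) hen)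
    have hβn : L'.nm (algebraMap N Ω β) ≤ 1 := by
      rw [eβ]
      exact ale (ale (hco' 2) (mle (mle n3' (hco' 3)) hen)) (mle (mle n6' hδn.le) (ple 2 hen))
    refine ⟨_, ?_, keG_four hd5 heN hδ hγ hβ hα hα0⟩
    have hAn := hβn
    have hBn : L'.nm (algebraMap N Ω (α * γ)) ≤ 1 := by
      rw [map_mul]
      exact mle hαn.le hγn
    have hCn : L'.nm (algebraMap N Ω (α ^ 2 * δ)) ≤ 1 := by
      rw [map_mul, map_pow]
      exact mle (ple 2 hαn.le) hδn.le
    refine L'.keG_gd n2 _ _ _ hAn hBn hCn ?_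
    intro x hx
    have hxn : L'.nm x ≤ 1 := L'.keG_int hAn hBn hCn hx
    rw [map_mul, map_mul, map_pow] at hx
    rw [map_mul]
    set a := algebraMap N Ω α with ha
    set b := algebraMap N Ω β with hb
    set c := algebraMap N Ω γ with hcd
    set d := algebraMap N Ω δ with hdd
    have ha0 : a ≠ 0 := L'.ne_zero (by rw [hαn]; exact zero_lt_one)
    have hd0 : d ≠ 0 := L'.ne_zero (by rw [hδn]; exact zero_lt_one)
    have hx0 : x ≠ 0 := by
      rintro rfl
      have h5 : a ^ 2 * d = 0 := by linear_combination hx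
      exact mul_ne_zero (pow_ne_zero 2 ha0) hd0 h5
    have c4 : algebraMap F Ω (f.coeff 4) = d := eδ.symm
    have c3 : algebraMap F Ω (f.coeff 3) = c - 4 * d * e₀ := by rw [eγ]; ring
    have c2 : algebraMap F Ω (f.coeff 2) = b - 3 * c * e₀ + 6 * d * e₀ ^ 2 := by
      rw [eβ, eγ]; ring
    have c1 : algebraMap F Ω (f.coeff 1) = a - 2 * b * e₀ + 3 * c * e₀ ^ 2 - 4 * d * e₀ ^ 3 := by
      rw [eα, eβ, eγ]; ring
    have c0 : algebraMap F Ω (f.coeff 0) = -a * e₀ + b * e₀ ^ 2 - c * e₀ ^ 3 + d * e₀ ^ 4 := by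
      have h5 := he₀
      rw [keG_ev hd5, c1, c2, c3, c4] at h5
      linear_combination h5
    have hT : aeval (e₀ + a / x) f = 0 := by
      rw [keG_ev hd5, c0, c1, c2, c3, c4]
      field_simp
      linear_combination a ^ 2 * hx
    obtain ⟨hT1, hT2⟩ := hrt _ hT
    rw [← hL] at hT1 hT2
    have hx1 : L'.nm x = 1 := by
      have h5 : L'.nm (a / x) ≤ 1 := by
        have h6 : a / x = (e₀ + a / x) - e₀ := by ring
        rw [h6]
        exact (L'.sub _ _).trans (max_le hT1 hen)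
      rw [L'.div, hαn] at h5
      have h7 : 0 < L'.nm x := L'.pos hx0
      rw [div_le_one h7] at h5
      exact le_antisymm hxn h5
    rw [keG_dv hd5, c1, c2, c3, c4] at hT2
    have key : 3 * x ^ 2 + 2 * b * x + a * c = -(x ^ 2 / a * (a - 2 * b * e₀ + 3 * c * e₀ ^ 2 -
        4 * d * e₀ ^ 3 + 2 * (b - 3 * c * e₀ + 6 * d * e₀ ^ 2) * (e₀ + a / x) +
        3 * (c - 4 * d * e₀) * (e₀ + a / x) ^ 2 + 4 * d * (e₀ + a / x) ^ 3)) := by
      field_simp
      linear_combination 4 * a * hx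
    rw [key, L'.neg, L'.mul, hT2, L'.div, L'.pow, hx1, hαn]
    norm_num

end main

end Ld

end PE
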