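import Pool.Agent.Lib.MP_f80667_ag.Pe.Ld

/-!
Auxiliary computations for `Pe/Lo.lean`: the absolute values of the coordinates of a point of a Weierstrass curve with
integral coefficients, and the point with a given parameter.
-/

open ZC BE Polynomial IntermediateField

namespace PE

namespace Ld

variable {K Ω : Type} [Field K] [Field Ω] [Algebra K Ω] (L : Ld K Ω)

theorem LoA_mul {a x : Ω} {c : ℝ} (ha : L.nm a ≤ 1) (hx : L.nm x ≤ c) : L.nm (a * x) ≤ c := by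
  rw [L.mul]
  exact (mul_le_of_le_one_left (L.nonneg _) ha).trans hx

theorem LoA_add {x y : Ω} {c : ℝ} (hx : L.nm x ≤ c) (hy : L.nm y ≤ c) : L.nm (x + y) ≤ c :=
  (L.add _ _).trans (max_le hx hy)

theorem LoA_add' {x y : Ω} {c : ℝ} (hx : L.nm x < c) (hy : L.nm y < c) : L.nm (x + y) < c :=
  (L.add _ _).trans_lt (max_lt hx hy)

section eqn

variable {a₁ a₂ a₃ a₄ a₆ x y : Ω}

/-- A point whose first coordinate is not integral. -/
theorem LoA_big (h₁ : L.nm a₁ ≤ 1) (h₂ : L.nm a₂ ≤ 1) (h₃ : L.nm a₃ ≤ 1) (h₄ : L.nm a₄ ≤ 1)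
    (h₆ : L.nm a₆ ≤ 1)
    (e : y ^ 2 + a₁ * x * y + a₃ * y = x ^ 3 + a₂ * x ^ 2 + a₄ * x + a₆) (hx : 1 < L.nm x) :
    L.nm y ^ 2 = L.nm x ^ 3 := by
  have hX0 : 0 < L.nm x := zero_lt_one.trans hx
  have hX2 : L.nm x ≤ L.nm x ^ 2 := by nlinarith
  have hX12 : 1 ≤ L.nm x ^ 2 := hx.le.trans hX2
  have hX23 : L.nm x ^ 2 < L.nm x ^ 3 := by
    have : L.nm x ^ 3 = L.nm x ^ 2 * L.nm x := by ring
    rw [this]
    nlinarith
  have hr : L.nm (x ^ 3 + a₂ * x ^ 2 + a₄ * x + a₆) = L.nm x ^ 3 := by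
    have e1 : x ^ 3 + a₂ * x ^ 2 + a₄ * x + a₆ = x ^ 3 + (a₂ * x ^ 2 + a₄ * x + a₆) := by ring
    have h7 : L.nm (a₂ * x ^ 2 + a₄ * x + a₆) ≤ L.nm x ^ 2 := by
      refine L.LoA_add (L.LoA_add (L.LoA_mul h₂ ?_) (L.LoA_mul h₄ hX2)) (h₆.trans hX12)
      rw [L.pow]
    rw [e1, L.add_eq', L.pow]
    rw [L.pow]
    exact h7.trans_lt hX23
  have hY0 := L.nonneg y
  have hXY : L.nm x < L.nm y := by
    by_contra hcon
    rw [not_lt] at hcon
    have h8 : L.nm (y ^ 2 + a₁ * x * y + a₃ * y) ≤ L.nm x ^ 2 := by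
      refine L.LoA_add (L.LoA_add ?_ ?_) (L.LoA_mul h₃ (hcon.trans hX2))
      · rw [L.pow]
        exact pow_le_pow_left₀ hY0 hcon 2
      · rw [mul_assoc]
        refine L.LoA_mul h₁ ?_
        rw [L.mul, sq]
        exact mul_le_mul_of_nonneg_left hcon hX0.le
    rw [e, hr] at h8
    exact absurd hX23 (not_lt.2 h8)
  have hl : L.nm (y ^ 2 + a₁ * x * y + a₃ * y) = L.nm y ^ 2 := by
    have e1 : y ^ 2 + a₁ * x * y + a₃ * y = y ^ 2 + (a₁ * (x * y) + a₃ * y) := by ring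
    have h9 : L.nm (a₁ * (x * y) + a₃ * y) ≤ L.nm x * L.nm y := by
      refine L.LoA_add (L.LoA_mul h₁ ?_) (L.LoA_mul h₃ ?_)
      · rw [L.mul]
      · exact le_mul_of_one_le_left hY0 hx.le
    rw [e1, L.add_eq', L.pow]
    rw [L.pow, sq]
    exact h9.trans_lt (mul_lt_mul_of_pos_right hXY (hX0.trans hXY))
  rw [← hl, e, hr]

/-- A point in the formal group. -/
theorem LoA_small (h₁ : L.nm a₁ ≤ 1) (h₂ : L.nm a₂ ≤ 1) (h₃ : L.nm a₃ ≤ 1) (h₄ : L.nm a₄ ≤ 1)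
    (h₆ : L.nm a₆ ≤ 1)
    (e : y ^ 2 + a₁ * x * y + a₃ * y = x ^ 3 + a₂ * x ^ 2 + a₄ * x + a₆) (hy : 1 < L.nm y) :
    1 < L.nm x := by
  by_contra hcon
  rw [not_lt] at hcon
  have hY0 : 0 < L.nm y := zero_lt_one.trans hy
  have hp : ∀ k : ℕ, L.nm (x ^ k) ≤ 1 := fun k => by
    rw [L.pow]
    exact pow_le_one₀ (L.nonneg _) hcon
  have hr : L.nm (x ^ 3 + a₂ * x ^ 2 + a₄ * x + a₆) ≤ 1 :=
    L.LoA_add (L.LoA_add (L.LoA_add (hp 3) (L.LoA_mul h₂ (hp 2))) (L.LoA_mul h₄ hcon)) h₆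
  have hl : L.nm (y ^ 2 + a₁ * x * y + a₃ * y) = L.nm y ^ 2 := by
    have e1 : y ^ 2 + a₁ * x * y + a₃ * y = y ^ 2 + (a₁ * (x * y) + a₃ * y) := by ring
    have h9 : L.nm (a₁ * (x * y) + a₃ * y) ≤ L.nm y :=
      L.LoA_add (L.LoA_mul h₁ (L.LoA_mul hcon le_rfl)) (L.LoA_mul h₃ le_rfl)
    rw [e1, L.add_eq', L.pow]
    rw [L.pow, sq]
    exact h9.trans_lt (lt_mul_of_one_lt_left hY0 hy)
  rw [← e, hl] at hr
  nlinarith

end eqn

/-- Hensel's lemma for a monic cubic polynomial. -/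
theorem LoA_cub (M : IntermediateField K Ω) [FiniteDimensional K M] {a b c : Ω} (ha : a ∈ M)
    (hb : b ∈ M) (hc : c ∈ M) (ha1 : L.nm a ≤ 1) (hb1 : L.nm b ≤ 1) (hc1 : L.nm c ≤ 1)
    {x : Ω} (hx : x ∈ M) (hx1 : L.nm x ≤ 1) (h0 : L.nm (x ^ 3 + a * x ^ 2 + b * x + c) < 1)
    (h1 : L.nm (3 * x ^ 2 + 2 * a * x + b) = 1) :
    ∃ y ∈ M, y ^ 3 + a * y ^ 2 + b * y + c = 0 ∧ L.nm (y - x) < 1 := by
  have hd : derivative (Polynomial.X ^ 3 + Polynomial.C a * Polynomial.X ^ 2 +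
      Polynomial.C b * Polynomial.X + Polynomial.C c : Polynomial Ω) =
      3 * Polynomial.X ^ 2 + 2 * Polynomial.C a * Polynomial.X + Polynomial.C b := by
    simp only [derivative_add, derivative_mul, derivative_C, derivative_X_pow, derivative_X]
    simp only [Nat.cast_ofNat, map_ofNat]
    ring
  obtain ⟨y, hy, hy0, hyx⟩ := L.hens M inferInstance (Polynomial.X ^ 3 +
    Polynomial.C a * Polynomial.X ^ 2 + Polynomial.C b * Polynomial.X + Polynomial.C c)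
    (by monicity!) (by
      intro i
      match i with
      | 0 =>
        have h2 : (Polynomial.X ^ 3 + Polynomial.C a * Polynomial.X ^ 2 +
            Polynomial.C b * Polynomial.X + Polynomial.C c : Polynomial Ω).coeff 0 = c := by
          simp
        rw [h2]
        exact ⟨hc, hc1⟩
      | 1 =>
        have h2 : (Polynomial.X ^ 3 + Polynomial.C a * Polynomial.X ^ 2 +
            Polynomial.C b * Polynomial.X + Polynomial.C c : Polynomial Ω).coeff 1 = b := by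
          simp [coeff_C]
        rw [h2]
        exact ⟨hb, hb1⟩
      | 2 =>
        have h2 : (Polynomial.X ^ 3 + Polynomial.C a * Polynomial.X ^ 2 +
            Polynomial.C b * Polynomial.X + Polynomial.C c : Polynomial Ω).coeff 2 = a := by
          simp
        rw [h2]
        exact ⟨ha, ha1⟩
      | 3 =>
        have h2 : (Polynomial.X ^ 3 + Polynomial.C a * Polynomial.X ^ 2 +
            Polynomial.C b * Polynomial.X + Polynomial.C c : Polynomial Ω).coeff 3 = 1 := by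
          simp
        rw [h2, L.one]
        exact ⟨one_mem _, le_refl _⟩
      | n + 4 =>
        have h2 : (Polynomial.X ^ 3 + Polynomial.C a * Polynomial.X ^ 2 +
            Polynomial.C b * Polynomial.X + Polynomial.C c : Polynomial Ω).coeff (n + 4) = 0 := by
          simp [coeff_X_pow]
        rw [h2, (L.zero_iff 0).2 rfl]
        exact ⟨zero_mem _, zero_le_one⟩) x hx hx1 (by simpa using h0) (by
      rw [hd]
      simpa using h1)
  exact ⟨y, hy, by simpa using hy0, hyx⟩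

/-- The point with the parameter `t`. -/
theorem LoA_pt (M : IntermediateField K Ω) [FiniteDimensional K M] {a₁ a₂ a₃ a₄ a₆ t : Ω}
    (m₁ : a₁ ∈ M) (m₂ : a₂ ∈ M) (m₃ : a₃ ∈ M) (m₄ : a₄ ∈ M) (m₆ : a₆ ∈ M) (mt : t ∈ M)
    (h₁ : L.nm a₁ ≤ 1) (h₂ : L.nm a₂ ≤ 1) (h₃ : L.nm a₃ ≤ 1) (h₄ : L.nm a₄ ≤ 1)
    (h₆ : L.nm a₆ ≤ 1) (ht : L.nm t < 1) (ht0 : t ≠ 0) :
    ∃ x y : Ω, y ^ 2 + a₁ * x * y + a₃ * y = x ^ 3 + a₂ * x ^ 2 + a₄ * x + a₆ ∧
      1 < L.nm x ∧ -x / y = t := by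
  have hp : ∀ k : ℕ, L.nm (t ^ (k + 1)) < 1 := fun k => by
    rw [L.pow]
    exact pow_lt_one₀ (L.nonneg _) ht (Nat.succ_ne_zero k)
  have hm : ∀ (a : Ω) (k : ℕ), L.nm a ≤ 1 → L.nm (a * t ^ (k + 1)) < 1 := fun a k ha => by
    rw [L.mul]
    exact (mul_le_of_le_one_left (L.nonneg _) ha).trans_lt (hp k)
  obtain ⟨u, hu⟩ : ∃ u, u = a₁ * t ^ (0 + 1) + a₂ * t ^ (1 + 1) := ⟨_, rfl⟩
  obtain ⟨v, hv⟩ : ∃ v, v = a₃ * t ^ (2 + 1) + a₄ * t ^ (3 + 1) := ⟨_, rfl⟩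
  obtain ⟨w, hw⟩ : ∃ w, w = a₆ * t ^ (5 + 1) := ⟨_, rfl⟩
  have hu1 : L.nm u < 1 := by rw [hu]; exact L.LoA_add' (hm _ _ h₁) (hm _ _ h₂)
  have hv1 : L.nm v < 1 := by rw [hv]; exact L.LoA_add' (hm _ _ h₃) (hm _ _ h₄)
  have hw1 : L.nm w < 1 := by rw [hw]; exact hm _ _ h₆
  have hum : u ∈ M := by
    rw [hu]
    exact add_mem (mul_mem m₁ (pow_mem mt _)) (mul_mem m₂ (pow_mem mt _))
  have hvm : v ∈ M := by
    rw [hv]
    exact add_mem (mul_mem m₃ (pow_mem mt _)) (mul_mem m₄ (pow_mem mt _))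
  have hwm : w ∈ M := by
    rw [hw]
    exact mul_mem m₆ (pow_mem mt _)
  have hu' : L.nm (-u) < 1 := by rwa [L.neg]
  have hv' : L.nm (-v) < 1 := by rwa [L.neg]
  have hw' : L.nm (-w) < 1 := by rwa [L.neg]
  obtain ⟨s, -, hs, hs1⟩ := L.LoA_cub M (a := 1 + -u) (b := v) (c := -w)
    (add_mem (one_mem _) (neg_mem hum)) hvm (neg_mem hwm) (L.one_add hu').le hv1.le hw'.le
    (x := -1) (neg_mem (one_mem _)) (by rw [L.neg, L.one]) (by
      have e : (-1 : Ω) ^ 3 + (1 + -u) * (-1) ^ 2 + v * (-1) + -w = -u + -v + -w := by ring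
      rw [e]
      exact L.LoA_add' (L.LoA_add' hu' hv') hw') (by
      have e : 3 * (-1 : Ω) ^ 2 + 2 * (1 + -u) * (-1) + v = 1 + (u + u + v) := by ring
      rw [e]
      exact L.one_add (L.LoA_add' (L.LoA_add' hu1 hu1) hv1))
  have hsn : L.nm s = 1 := by
    have h1 : L.nm (s - -1) < L.nm (-1) := by rw [L.neg, L.one]; exact hs1
    rw [L.eq_of_close h1, L.neg, L.one]
  have hs0 : s ≠ 0 := L.ne_zero (by rw [hsn]; exact zero_lt_one)
  have htp : 0 < L.nm t := L.pos ht0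
  refine ⟨-s / t ^ 2, s / t ^ 3, ?_, ?_, ?_⟩
  · rw [hu, hv, hw] at hs
    field_simp
    linear_combination hs
  · rw [L.div, L.neg, L.pow, hsn, lt_div_iff₀ (pow_pos htp 2), one_mul]
    exact pow_lt_one₀ htp.le ht two_ne_zero
  · field_simp

end Ld

end PE
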