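import Pool.Agent.Lib.MP_f80667_ag.Pe.Ld
import Pool.Agent.Lib.MP_f80667_ag.Pe.LoA
import Pool.Agent.Lib.MP_f80667_ag.Be.PlR

/-!
Points of Weierstrass curves over the algebraic closure `Ω` of a local field: the formal group `Fm`, the nonsingular
reduction `Ns`, the congruence `Cg`.
-/

open ZC BE Polynomial IntermediateField

namespace PE

variable {F : Type} [Field F] {K Ω : Type} [Field K] [Field Ω] [Algebra K Ω] [Algebra F K]
  [Algebra F Ω] [IsScalarTower F K Ω]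

/-- The parameter `- x / y`. -/
noncomputable def tp {W : WeierstrassCurve F} (P : Pt W Ω) : Ω := Pn.t (W := W.baseChange Ω) P

/-- The partial derivative `2 y + a₁ x + a₃`. -/
def dy (W : WeierstrassCurve F) (x y : Ω) : Ω :=
  2 * y + algebraMap F Ω W.a₁ * x + algebraMap F Ω W.a₃

/-- The partial derivative `3 x² + 2 a₂ x + a₄ - a₁ y`. -/
def dx (W : WeierstrassCurve F) (x y : Ω) : Ω :=
  3 * x ^ 2 + 2 * algebraMap F Ω W.a₂ * x + algebraMap F Ω W.a₄ - algebraMap F Ω W.a₁ * y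

/-- The equation. -/
def fe (W : WeierstrassCurve F) (x y : Ω) : Ω :=
  y ^ 2 + algebraMap F Ω W.a₁ * x * y + algebraMap F Ω W.a₃ * y -
    (x ^ 3 + algebraMap F Ω W.a₂ * x ^ 2 + algebraMap F Ω W.a₄ * x + algebraMap F Ω W.a₆)

theorem fe_zero {W : WeierstrassCurve F} {x y : Ω}
    (h : (W.baseChange Ω).toAffine.Nonsingular x y) : fe W x y = 0 :=
  sub_eq_zero.2 (Pn.eqn (W := W.baseChange Ω) h)

theorem aff_of_fe {W : WeierstrassCurve F} [W.IsElliptic] {x y : Ω} (h : fe W x y = 0) :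
    (W.baseChange Ω).toAffine.Nonsingular x y := by
  have hE : (W.baseChange Ω).IsElliptic :=
    (inferInstance : (W.map (algebraMap F Ω)).IsElliptic)
  exact (WeierstrassCurve.Affine.equation_iff_nonsingular_of_Δ_ne_zero
    (W := (W.baseChange Ω).toAffine) hE.isUnit.ne_zero).1
    ((WeierstrassCurve.Affine.equation_iff (W := (W.baseChange Ω).toAffine) x y).2
      (sub_eq_zero.1 h))

/-- The action of the Galois group. -/
theorem act_aff {W : WeierstrassCurve F} (γ : Ω ≃ₐ[K] Ω) {x y : Ω}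
    (h : (W.baseChange Ω).toAffine.Nonsingular x y) :
    ∃ h' : (W.baseChange Ω).toAffine.Nonsingular (γ x) (γ y),
      γ • (Pt.aff x y h : Pt W Ω) = Pt.aff (γ x) (γ y) h' :=
  ⟨(WeierstrassCurve.Affine.baseChange_nonsingular W.toAffine
    (γ.restrictScalars F : Ω →ₐ[F] Ω).injective x y).mpr h, rfl⟩

theorem tp_act {W : WeierstrassCurve F} (γ : Ω ≃ₐ[K] Ω) (P : Pt W Ω) : tp (γ • P) = γ (tp P) := by
  rcases Pt.cases' P with rfl | ⟨x, y, h, rfl⟩
  · rw [smul_zero]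
    exact (map_zero γ).symm
  · obtain ⟨h', e⟩ := act_aff γ h
    rw [e]
    change -γ x / γ y = γ (-x / y)
    rw [map_div₀, map_neg]

/-- Proof: `act_aff`, `mem_of_fix`. -/
theorem fx_aff [CharZero K] [IsAlgClosure K Ω] {W : WeierstrassCurve F}
    (M : IntermediateField K Ω) {x y : Ω} (h : (W.baseChange Ω).toAffine.Nonsingular x y) :
    Fx M (Pt.aff x y h : Pt W Ω) ↔ x ∈ M ∧ y ∈ M :=
  fix_aff M h

namespace Ld

variable (L : Ld K Ω)

/-- The coefficients are integral. -/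
structure It (W : WeierstrassCurve F) : Prop where
  a₁ : L.nm (algebraMap F Ω W.a₁) ≤ 1
  a₂ : L.nm (algebraMap F Ω W.a₂) ≤ 1
  a₃ : L.nm (algebraMap F Ω W.a₃) ≤ 1
  a₄ : L.nm (algebraMap F Ω W.a₄) ≤ 1
  a₆ : L.nm (algebraMap F Ω W.a₆) ≤ 1

/-- Good reduction. -/
structure Gd (W : WeierstrassCurve F) : Prop extends L.It W where
  disc : L.nm (algebraMap F Ω W.Δ) = 1

/-- The discriminant is not divisible by `p ^ 2`. -/
structure Hd (W : WeierstrassCurve F) : Prop extends L.It W where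
  disc : L.nm (L.p : Ω) ≤ L.nm (algebraMap F Ω W.Δ)

theorem Gd.hd {L : Ld K Ω} {W : WeierstrassCurve F} (h : L.Gd W) : L.Hd W :=
  ⟨h.toIt, by rw [h.disc]; exact L.lt.le⟩

/-- The reduction of the curve. -/
noncomputable def rc (W : WeierstrassCurve F) : WeierstrassCurve L.κ :=
  ⟨L.rr (algebraMap F Ω W.a₁), L.rr (algebraMap F Ω W.a₂), L.rr (algebraMap F Ω W.a₃),
    L.rr (algebraMap F Ω W.a₄), L.rr (algebraMap F Ω W.a₆)⟩

/-- `Q` is the reduction of `P`. -/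
def Red {W : WeierstrassCurve F} (P : Pt W Ω) (Q : Pn (L.rc W)) : Prop :=
  L.rs.Red (W := W.baseChange Ω) P Q

/-- `P` is in the formal group. -/
def Fm {W : WeierstrassCurve F} (P : Pt W Ω) : Prop := L.jr.Fm (W := W.baseChange Ω) P

/-- `P` has nonsingular reduction. -/
def Ns {W : WeierstrassCurve F} (P : Pt W Ω) : Prop := ∃ Q : Pn (L.rc W), L.Red P Q

/-- `P` and `Q` are congruent. -/
def Cg {W : WeierstrassCurve F} (P Q : Pt W Ω) : Prop := L.Fm (P - Q)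

variable {L} {W : WeierstrassCurve F}

theorem It.cv (h : L.It W) : L.rs.Cv (W.baseChange Ω) (L.rc W) :=
  ⟨L.hv_rr h.a₁, L.hv_rr h.a₂, L.hv_rr h.a₃, L.hv_rr h.a₄, L.hv_rr h.a₆⟩

theorem It.cf (h : L.It W) : L.jr.Cf (W.baseChange Ω) := h.cv.J

/-! ### The formal group -/

theorem fm_zero : L.Fm (0 : Pt W Ω) := L.jr.fm_zero

theorem fm_lt {P : Pt W Ω} (hP : L.Fm P) : L.nm (tp P) < 1 := L.mem_jm.1 hP.2.1

/-- Proof: `fg_add'`. -/
theorem fm_add (h : L.It W) {P Q : Pt W Ω} (hP : L.Fm P) (hQ : L.Fm Q) :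
    L.Fm (P + Q) ∧ L.nm (tp (P + Q) - (tp P + tp Q)) ≤ L.nm (tp P) * L.nm (tp Q) := by
  obtain ⟨h1, c, hc, h2⟩ := fg_add' (W := W.baseChange Ω) h.cf hP hQ
  refine ⟨h1, ?_⟩
  have h3 : tp (P + Q) = tp P + tp Q + tp P * tp Q * c := h2
  rw [h3, add_sub_cancel_left, L.mul, L.mul]
  exact mul_le_of_le_one_right (mul_nonneg (L.nonneg _) (L.nonneg _)) (L.mem_jV.1 hc)

theorem fm_neg (h : L.It W) {P : Pt W Ω} (hP : L.Fm P) :
    L.Fm (-P) ∧ L.nm (tp (-P)) = L.nm (tp P) := by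
  obtain ⟨h1, μ, hμ, h2⟩ := fg_neg (W := W.baseChange Ω) h.cf hP
  refine ⟨h1, ?_⟩
  have h3 : tp (-P) * (1 + μ) = -tp P := h2
  have h4 := congrArg L.nm h3
  rwa [L.mul, L.one_add (L.mem_jm.1 hμ), mul_one, L.neg] at h4

theorem fm_sub (h : L.It W) {P Q : Pt W Ω} (hP : L.Fm P) (hQ : L.Fm Q) :
    L.Fm (P - Q) ∧ L.nm (tp (P - Q)) = L.nm (tp P - tp Q) := by
  obtain ⟨h1, μ, hμ, h2⟩ := fg_sub (W := W.baseChange Ω) h.cf hP hQ
  refine ⟨h1, ?_⟩
  have h3 : tp (P - Q) * (1 + μ) = tp P - tp Q := h2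
  have h4 := congrArg L.nm h3
  rwa [L.mul, L.one_add (L.mem_jm.1 hμ), mul_one] at h4

theorem fm_ext (h : L.It W) {P Q : Pt W Ω} (hP : L.Fm P) (hQ : L.Fm Q) (e : tp P = tp Q) :
    P = Q := by
  exact fg_ext (W := W.baseChange Ω) h.cf hP hQ e

theorem fm_tp_zero (h : L.It W) {P : Pt W Ω} (hP : L.Fm P) : tp P = 0 ↔ P = 0 := by
  constructor
  · intro e
    exact fm_ext h hP fm_zero e
  · rintro rfl
    rfl

/-- Proof: `fg_nsmul`. -/
theorem fm_nsmul (h : L.It W) {P : Pt W Ω} (hP : L.Fm P) (n : ℕ) :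
    L.Fm (n • P) ∧ L.nm (tp (n • P) - (n * tp P - algebraMap F Ω W.a₁ * (n.choose 2 : ℕ) *
      tp P ^ 2)) ≤ L.nm (tp P) ^ 3 := by
  obtain ⟨h1, c, hc, h2⟩ := fg_nsmul (W := W.baseChange Ω) h.cf hP n
  refine ⟨h1, ?_⟩
  have h3 : tp (n • P) = n * tp P - algebraMap F Ω W.a₁ * (n.choose 2 : ℕ) * tp P ^ 2 +
      tp P ^ 3 * c := h2
  rw [h3, add_sub_cancel_left, L.mul, L.pow]
  exact mul_le_of_le_one_right (pow_nonneg (L.nonneg _) 3) (L.mem_jV.1 hc)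

theorem fm_act {P : Pt W Ω} (γ : Ω ≃ₐ[K] Ω) (hP : L.Fm P) : L.Fm (γ • P) := by
  rcases plr_cases P with rfl | ⟨x, y, hxy, rfl⟩
  · rw [smul_zero]
    exact fm_zero
  obtain ⟨h', e⟩ := act_aff γ hxy
  rw [e]
  have h1 : y ≠ 0 := hP.1
  have h2 : L.nm (-x / y) < 1 := L.mem_jm.1 hP.2.1
  have h3 : L.nm (-1 / y) < 1 := L.mem_jm.1 hP.2.2
  refine ⟨?_, L.mem_jm.2 ?_, L.mem_jm.2 ?_⟩
  · exact (map_ne_zero_iff γ γ.injective).2 h1
  · change L.nm (-γ x / γ y) < 1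
    rw [← map_neg, ← map_div₀, L.act]
    exact h2
  · change L.nm (-1 / γ y) < 1
    have h4 : (-1 : Ω) / γ y = γ (-1 / y) := by
      rw [map_div₀, map_neg, map_one]
    rw [h4, L.act]
    exact h3

/-- Proof: `fm_ext`, `tp_act`, `mem_of_fix`. -/
theorem fm_fx [CharZero K] [IsAlgClosure K Ω] (h : L.It W) {P : Pt W Ω} (hP : L.Fm P)
    (M : IntermediateField K Ω) : Fx M P ↔ tp P ∈ M := by
  constructor
  · intro hf
    refine mem_of_fix M fun γ hγ => ?_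
    rw [← tp_act, hf γ hγ]
  · intro hm γ hγ
    refine fm_ext h (fm_act γ hP) hP ?_
    rw [tp_act]
    exact (IntermediateField.mem_fixingSubgroup_iff M γ).1 hγ _ hm

/-- The coordinates of a point of the formal group. -/
theorem fm_aff (h : L.It W) {x y : Ω} (hP : (W.baseChange Ω).toAffine.Nonsingular x y) :
    (L.Fm (Pt.aff x y hP : Pt W Ω) ↔ 1 < L.nm x) ∧
      (L.Fm (Pt.aff x y hP : Pt W Ω) →
        L.nm (tp (Pt.aff x y hP : Pt W Ω)) ^ 2 * L.nm x = 1) := by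
  have e : y ^ 2 + algebraMap F Ω W.a₁ * x * y + algebraMap F Ω W.a₃ * y =
      x ^ 3 + algebraMap F Ω W.a₂ * x ^ 2 + algebraMap F Ω W.a₄ * x + algebraMap F Ω W.a₆ :=
    Pn.eqn (W := W.baseChange Ω) hP
  have h1 : L.Fm (Pt.aff x y hP : Pt W Ω) → 1 < L.nm x := by
    intro hf
    have hy : y ≠ 0 := hf.1
    have h2 : L.nm (-1 / y) < 1 := L.mem_jm.1 hf.2.2
    rw [L.div, L.neg, L.one, div_lt_one (L.pos hy)] at h2
    exact L.LoA_small h.a₁ h.a₂ h.a₃ h.a₄ h.a₆ e h2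
  refine ⟨⟨h1, fun hx => ?_⟩, fun hf => ?_⟩
  · have h2 := L.LoA_big h.a₁ h.a₂ h.a₃ h.a₄ h.a₆ e hx
    have h3 : L.nm x < L.nm y := by
      refine lt_of_pow_lt_pow_left₀ 2 (L.nonneg y) ?_
      rw [h2]
      exact pow_lt_pow_right₀ hx (by norm_num)
    have hy : y ≠ 0 := L.ne_zero ((zero_lt_one.trans hx).trans h3)
    refine ⟨hy, L.mem_jm.2 ?_, L.mem_jm.2 ?_⟩
    · change L.nm (-x / y) < 1
      rw [L.div, L.neg, div_lt_one (L.pos hy)]
      exact h3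
    · change L.nm (-1 / y) < 1
      rw [L.div, L.neg, L.one, div_lt_one (L.pos hy)]
      exact hx.trans h3
  · have h2 := L.LoA_big h.a₁ h.a₂ h.a₃ h.a₄ h.a₆ e (h1 hf)
    have hx : 0 < L.nm x := zero_lt_one.trans (h1 hf)
    change L.nm (-x / y) ^ 2 * L.nm x = 1
    rw [L.div, L.neg, div_pow, h2, div_mul_eq_mul_div, ← pow_succ]
    exact div_self (pow_pos hx 3).ne'

/-- **Existence.** Proof: `s³ + (1 - a₁ t - a₂ t²) s² + t³ (a₃ + a₄ t) s - t⁶ a₆` has a root `s` near `- 1` in the finite extension `K(t)` (`hens`); `y = s / t³`,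
`x = - s / t²` (for `t ≠ 0`). -/
theorem fm_exists [CharZero K] [IsAlgClosure K Ω] [W.IsElliptic] (h : L.It W) {t : Ω}
    (ht : L.nm t < 1) : ∃ P : Pt W Ω, L.Fm P ∧ tp P = t := by
  by_cases ht0 : t = 0
  · exact ⟨0, fm_zero, ht0.symm⟩
  have hM : ∀ (M : IntermediateField K Ω) (a : F), algebraMap F Ω a ∈ M := by
    intro M a
    rw [IsScalarTower.algebraMap_apply F K Ω]
    exact M.algebraMap_mem _
  have hal : Algebra.IsAlgebraic K Ω := IsAlgClosure.isAlgebraic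
  have hfd : FiniteDimensional K K⟮t⟯ :=
    IntermediateField.adjoin.finiteDimensional (Algebra.IsIntegral.isIntegral t)
  obtain ⟨x, y, e, hx, hxy⟩ := L.LoA_pt K⟮t⟯ (hM _ W.a₁) (hM _ W.a₂) (hM _ W.a₃) (hM _ W.a₄)
    (hM _ W.a₆) (IntermediateField.mem_adjoin_simple_self K t) h.a₁ h.a₂ h.a₃ h.a₄ h.a₆ ht ht0
  have hn : (W.baseChange Ω).toAffine.Nonsingular x y := aff_of_fe (sub_eq_zero.2 e)
  exact ⟨Pt.aff x y hn, (fm_aff h hn).1.2 hx, hxy⟩

/-- The sum to first order. -/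
theorem fm_sum (h : L.It W) {ι : Type} (s : Finset ι) (P : ι → Pt W Ω) {r : ℝ} (hr : 0 ≤ r)
    (hP : ∀ i ∈ s, L.Fm (P i) ∧ L.nm (tp (P i)) ≤ r) :
    L.Fm (∑ i ∈ s, P i) ∧ L.nm (tp (∑ i ∈ s, P i)) ≤ r ∧
      L.nm (tp (∑ i ∈ s, P i) - ∑ i ∈ s, tp (P i)) ≤ r ^ 2 := by
  classical
  induction s using Finset.induction_on with
  | empty =>
    rw [Finset.sum_empty, Finset.sum_empty, sub_zero]
    have h0 : tp (0 : Pt W Ω) = 0 := rfl
    rw [h0, L.zero]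
    exact ⟨fm_zero, hr, pow_nonneg hr 2⟩
  | insert a s ha ih =>
    obtain ⟨h1, h2, h3⟩ := ih fun i hi => hP i (Finset.mem_insert_of_mem hi)
    obtain ⟨h4, h5⟩ := hP a (Finset.mem_insert_self a s)
    rw [Finset.sum_insert ha, Finset.sum_insert ha]
    obtain ⟨h6, h7⟩ := fm_add h h4 h1
    have h8 : L.nm (tp (P a)) * L.nm (tp (∑ i ∈ s, P i)) ≤ r ^ 2 := by
      rw [pow_two]
      exact mul_le_mul h5 h2 (L.nonneg _) hr
    have h9 : L.nm (tp (P a)) * L.nm (tp (∑ i ∈ s, P i)) ≤ r :=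
      (mul_le_of_le_one_right (L.nonneg _) (fm_lt h1).le).trans h5
    refine ⟨h6, ?_, ?_⟩
    · have e : tp (P a + ∑ i ∈ s, P i) = (tp (P a + ∑ i ∈ s, P i) -
          (tp (P a) + tp (∑ i ∈ s, P i))) + (tp (P a) + tp (∑ i ∈ s, P i)) := by ring
      rw [e]
      exact (L.add _ _).trans (max_le (h7.trans h9) ((L.add _ _).trans (max_le h5 h2)))
    · have e : tp (P a + ∑ i ∈ s, P i) - (tp (P a) + ∑ i ∈ s, tp (P i)) =
          (tp (P a + ∑ i ∈ s, P i) - (tp (P a) + tp (∑ i ∈ s, P i))) +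
          (tp (∑ i ∈ s, P i) - ∑ i ∈ s, tp (P i)) := by ring
      rw [e]
      exact (L.add _ _).trans (max_le (h7.trans h8) h3)

/-! ### Nonsingular reduction. Proofs: `rs_add`, `rs_neg`, `rs_unique`, `rs_fm`. -/

/-! Auxiliary lemmas (prefix `lz`). -/

/-- The integral part of a coefficient. -/
private theorem lz_coef (L : Ld K Ω) (a : F) :
    ∃ b : Ω, (∀ γ : Ω ≃ₐ[K] Ω, γ b = b) ∧ L.rs.Hv b (L.rr (algebraMap F Ω a)) := by
  by_cases h : L.nm (algebraMap F Ω a) ≤ 1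
  · refine ⟨algebraMap F Ω a, fun γ => ?_, L.hv_rr h⟩
    rw [IsScalarTower.algebraMap_apply F K Ω, AlgEquiv.commutes]
  · refine ⟨0, fun γ => map_zero γ, ?_⟩
    have h1 : ¬ algebraMap F Ω a ∈ L.V := h
    rw [Ld.rr, dif_neg h1]
    exact Rs.Hv.zero

/-- Values and the action. -/
private theorem lz_act (L : Ld K Ω) (γ : Ω ≃ₐ[K] Ω) {e e' : Ω} {r r' : L.κ} (h : L.rs.Hv e r)
    (h' : L.rs.Hv e' r') (he : e' = γ e) : r = 0 ↔ r' = 0 := by
  have h1 : ∀ (e : Ω) (r : L.κ), L.rs.Hv e r → (r = 0 ↔ L.nm e < 1) := by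
    intro e r h
    constructor
    · rintro rfl
      exact L.hv_zero.1 h
    · intro h2
      exact h.uniq (L.hv_zero.2 h2)
  rw [h1 e r h, h1 e' r' h', he, L.act]

/-- The coordinates of the reduction. -/
private theorem lz_vals (h : L.It W) {x y : Ω}
    (hP : (W.baseChange Ω).toAffine.Nonsingular x y) (hx : L.nm x ≤ 1) :
    ∃ r s : L.κ, L.rs.Hv x r ∧ L.rs.Hv y s ∧ (L.rc W).toAffine.Equation r s := by
  have hC := h.cv
  have hxV : x ∈ L.rs.V := hx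
  have hX := Rs.Hv.of_mem hxV
  have heq := Pn.eqn hP
  have hy : y ∈ L.rs.V := by
    by_contra hy
    have hY := Rs.Hv.of_not_mem hy
    have hy0 : y ≠ 0 := by
      rintro rfl
      exact hy (zero_mem _)
    have h1 : 1 + (W.baseChange Ω).a₁ * x * y⁻¹ + (W.baseChange Ω).a₃ * y⁻¹ =
        (x ^ 3 + (W.baseChange Ω).a₂ * x ^ 2 + (W.baseChange Ω).a₄ * x +
          (W.baseChange Ω).a₆) * (y⁻¹) ^ 2 := by
      rw [← heq]
      field_simp
    have h2 := ((Rs.Hv.one.add ((hC.a₁.mul hX).mul hY)).add (hC.a₃.mul hY))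
    have h3 := (((((hX.pow 3).add (hC.a₂.mul (hX.pow 2))).add (hC.a₄.mul hX)).add hC.a₆).mul
      (hY.pow 2))
    rw [← h1] at h3
    have h4 := h2.uniq h3
    rw [mul_zero, mul_zero, add_zero, add_zero, zero_pow two_ne_zero, mul_zero] at h4
    exact one_ne_zero h4
  have hY := Rs.Hv.of_mem hy
  refine ⟨_, _, hX, hY, ?_⟩
  rw [WeierstrassCurve.Affine.equation_iff]
  have h2 := (((hY.pow 2).add ((hC.a₁.mul hX).mul hY)).add (hC.a₃.mul hY))
  have h3 := ((((hX.pow 3).add (hC.a₂.mul (hX.pow 2))).add (hC.a₄.mul hX)).add hC.a₆)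
  rw [← heq] at h3
  exact h2.uniq h3

/-- The reduction of an affine point with integral coordinates. -/
private theorem lz_red {x y : Ω} (hP : (W.baseChange Ω).toAffine.Nonsingular x y)
    (hx : L.nm x ≤ 1) {Q : Pn (L.rc W)} :
    L.Red (Pt.aff x y hP : Pt W Ω) Q ↔ ∃ (r s : L.κ) (h : (L.rc W).toAffine.Nonsingular r s),
      L.rs.Hv x r ∧ L.rs.Hv y s ∧ Q = Pn.aff r s h := by
  constructor
  · intro h
    rcases (rs_red_aff (w := L.rs) hP).1 h with h1 | h1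
    · exact absurd hx h1.1
    · exact h1
  · intro h
    exact (rs_red_aff (w := L.rs) hP).2 (Or.inr h)

/-- The partial derivatives of the reduction. -/
private theorem lz_ns (h : L.It W) {x y : Ω} {r s : L.κ} (hX : L.rs.Hv x r) (hY : L.rs.Hv y s)
    (he : (L.rc W).toAffine.Equation r s) :
    (L.rc W).toAffine.Nonsingular r s ↔ L.nm (dx W x y) = 1 ∨ L.nm (dy W x y) = 1 := by
  have hC := h.cv
  rw [WeierstrassCurve.Affine.nonsingular_iff']
  have h1 : L.rs.Hv (dx W x y)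
      (-((L.rc W).a₁ * s - (3 * r ^ 2 + 2 * (L.rc W).a₂ * r + (L.rc W).a₄))) := by
    have h2 := (((Rs.Hv.nat (w := L.rs) 3).mul (hX.pow 2)).add
      (((Rs.Hv.nat (w := L.rs) 2).mul hC.a₂).mul hX)).add hC.a₄
    refine (h2.sub (hC.a₁.mul hY)).congr ?_ ?_
    · simp only [dx, Nat.cast_ofNat]
      rfl
    · simp only [Nat.cast_ofNat]
      ring
  have h2 : L.rs.Hv (dy W x y) (2 * s + (L.rc W).a₁ * r + (L.rc W).a₃) := by
    have h3 := (((Rs.Hv.nat (w := L.rs) 2).mul hY).add (hC.a₁.mul hX)).add hC.a₃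
    refine h3.congr ?_ ?_
    · simp only [dy, Nat.cast_ofNat]
      rfl
    · simp only [Nat.cast_ofNat]
  rw [← L.hv_ne h1, ← L.hv_ne h2, neg_ne_zero]
  exact ⟨fun h => h.2, fun h => ⟨he, h⟩⟩

/-- The discriminant of the reduction. -/
private theorem lz_disc (h : L.It W) : L.rs.Hv (algebraMap F Ω W.Δ) (L.rc W).Δ := by
  let i : L.V →+* Ω := L.V.subtype
  let W' : WeierstrassCurve L.V := ⟨⟨_, h.a₁⟩, ⟨_, h.a₂⟩, ⟨_, h.a₃⟩, ⟨_, h.a₄⟩, ⟨_, h.a₆⟩⟩
  have e1 : W'.map i = W.map (algebraMap F Ω) := rfl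
  have e2 : W'.map (IsLocalRing.residue L.V) = L.rc W := by
    ext
    · exact (L.hv_rr h.a₁).2
    · exact (L.hv_rr h.a₂).2
    · exact (L.hv_rr h.a₃).2
    · exact (L.hv_rr h.a₄).2
    · exact (L.hv_rr h.a₆).2
  have e3 : i W'.Δ = algebraMap F Ω W.Δ := by
    rw [← WeierstrassCurve.map_Δ, ← WeierstrassCurve.map_Δ, e1]
  have e4 : IsLocalRing.residue L.V W'.Δ = (L.rc W).Δ := by
    rw [← WeierstrassCurve.map_Δ, e2]
  rw [← e3, ← e4]
  exact ⟨W'.Δ.2, rfl⟩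

theorem ns_fm (h : L.It W) {P : Pt W Ω} (hP : L.Fm P) : L.Ns P := by
  exact ⟨0, (rs_fm h.cv).2 hP⟩

theorem ns_add (h : L.It W) {P Q : Pt W Ω} (hP : L.Ns P) (hQ : L.Ns Q) : L.Ns (P + Q) := by
  obtain ⟨P', hP'⟩ := hP
  obtain ⟨Q', hQ'⟩ := hQ
  exact ⟨P' + Q', rs_add h.cv hP' hQ'⟩

theorem ns_neg (h : L.It W) {P : Pt W Ω} (hP : L.Ns P) : L.Ns (-P) := by
  obtain ⟨P', hP'⟩ := hP
  exact ⟨-P', rs_neg h.cv hP'⟩

theorem ns_act {P : Pt W Ω} (γ : Ω ≃ₐ[K] Ω) (hP : L.Ns P) : L.Ns (γ • P) := by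
  obtain ⟨Q, hQ⟩ := hP
  rcases plr_cases P with rfl | ⟨x, y, hxy, rfl⟩
  · refine ⟨0, ?_⟩
    rw [smul_zero]
    exact rs_red_zero
  obtain ⟨h', e⟩ := act_aff γ hxy
  rw [e]
  by_cases hx : L.nm x ≤ 1
  swap
  · refine ⟨0, (rs_red_aff (w := L.rs) h').2 (Or.inl ⟨fun hc => hx ?_, rfl⟩)⟩
    rw [← L.act γ]
    exact hc
  obtain ⟨r, s, hn, hX, hY, -⟩ := (lz_red hxy hx).1 hQ
  have hx' : L.nm (γ x) ≤ 1 := by
    rw [L.act]
    exact hx
  have hy' : L.nm (γ y) ≤ 1 := by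
    rw [L.act]
    exact hY.1
  obtain ⟨r', hX'⟩ := L.hv_of hx'
  obtain ⟨s', hY'⟩ := L.hv_of hy'
  obtain ⟨b₁, f₁, c₁⟩ := lz_coef L W.a₁
  obtain ⟨b₂, f₂, c₂⟩ := lz_coef L W.a₂
  obtain ⟨b₃, f₃, c₃⟩ := lz_coef L W.a₃
  obtain ⟨b₄, f₄, c₄⟩ := lz_coef L W.a₄
  obtain ⟨b₆, f₆, c₆⟩ := lz_coef L W.a₆
  have n2 := Rs.Hv.nat (w := L.rs) 2
  have n3 := Rs.Hv.nat (w := L.rs) 3
  have k1 := lz_act L γ
    ((((hY.pow 2).add ((c₁.mul hX).mul hY)).add (c₃.mul hY)).sub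
      ((((hX.pow 3).add (c₂.mul (hX.pow 2))).add (c₄.mul hX)).add c₆))
    ((((hY'.pow 2).add ((c₁.mul hX').mul hY')).add (c₃.mul hY')).sub
      ((((hX'.pow 3).add (c₂.mul (hX'.pow 2))).add (c₄.mul hX')).add c₆))
    (by simp only [map_sub, map_add, map_mul, map_pow, f₁, f₂, f₃, f₄, f₆])
  have k2 := lz_act L γ
    ((c₁.mul hY).sub (((n3.mul (hX.pow 2)).add ((n2.mul c₂).mul hX)).add c₄))
    ((c₁.mul hY').sub (((n3.mul (hX'.pow 2)).add ((n2.mul c₂).mul hX')).add c₄))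
    (by simp only [map_sub, map_add, map_mul, map_pow, map_natCast, f₁, f₂, f₄])
  have k3 := lz_act L γ (((n2.mul hY).add (c₁.mul hX)).add c₃)
    (((n2.mul hY').add (c₁.mul hX')).add c₃)
    (by simp only [map_add, map_mul, map_natCast, f₁, f₃])
  rw [WeierstrassCurve.Affine.nonsingular_iff', WeierstrassCurve.Affine.equation_iff] at hn
  have hn' : (L.rc W).toAffine.Nonsingular r' s' := by
    rw [WeierstrassCurve.Affine.nonsingular_iff', WeierstrassCurve.Affine.equation_iff]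
    obtain ⟨hn1, hn2⟩ := hn
    refine ⟨sub_eq_zero.1 (k1.1 (sub_eq_zero.2 hn1)), ?_⟩
    rcases hn2 with hn2 | hn2
    · exact Or.inl fun hc => hn2 (k2.2 hc)
    · exact Or.inr fun hc => hn2 (k3.2 hc)
  exact ⟨Pn.aff r' s' hn', (lz_red h' hx').2 ⟨r', s', hn', hX', hY', rfl⟩⟩

/-- In terms of the coordinates. -/
theorem ns_aff (h : L.It W) {x y : Ω} (hP : (W.baseChange Ω).toAffine.Nonsingular x y)
    (hx : L.nm x ≤ 1) :
    L.nm y ≤ 1 ∧ (L.Ns (Pt.aff x y hP : Pt W Ω) ↔ L.nm (dx W x y) = 1 ∨ L.nm (dy W x y) = 1) := by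
  obtain ⟨r, s, hX, hY, he⟩ := lz_vals h hP hx
  refine ⟨hY.1, ?_⟩
  rw [← lz_ns h hX hY he]
  constructor
  · rintro ⟨Q, hQ⟩
    obtain ⟨r', s', hn, hX', hY', -⟩ := (lz_red hP hx).1 hQ
    rw [hX.uniq hX', hY.uniq hY']
    exact hn
  · intro hn
    exact ⟨Pn.aff r s hn, (lz_red hP hx).2 ⟨r, s, hn, hX, hY, rfl⟩⟩

/-- Good reduction. -/
theorem ns_good (h : L.Gd W) (P : Pt W Ω) : L.Ns P := by
  rcases plr_cases P with rfl | ⟨x, y, hxy, rfl⟩
  · exact ⟨0, rs_red_zero⟩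
  by_cases hx : L.nm x ≤ 1
  swap
  · exact ⟨0, (rs_red_aff (w := L.rs) hxy).2 (Or.inl ⟨hx, rfl⟩)⟩
  obtain ⟨r, s, hX, hY, he⟩ := lz_vals h.toIt hxy hx
  have hΔ : (L.rc W).Δ ≠ 0 := (L.hv_ne (lz_disc h.toIt)).2 h.disc
  have hn := ((L.rc W).toAffine.equation_iff_nonsingular_of_Δ_ne_zero hΔ).1 he
  exact ⟨Pn.aff r s hn, (lz_red hxy hx).2 ⟨r, s, hn, hX, hY, rfl⟩⟩

theorem cg_refl (P : Pt W Ω) : L.Cg P P := by
  unfold Cg
  rw [sub_self]
  exact fm_zero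

theorem cg_symm (h : L.It W) {P Q : Pt W Ω} (hc : L.Cg P Q) : L.Cg Q P := by
  unfold Cg
  rw [← neg_sub]
  exact (fm_neg h hc).1

theorem cg_trans (h : L.It W) {P Q R : Pt W Ω} (hc : L.Cg P Q) (hc' : L.Cg Q R) : L.Cg P R := by
  unfold Cg
  rw [← sub_add_sub_cancel P Q R]
  exact (fm_add h hc hc').1

theorem cg_add (h : L.It W) {P Q P' Q' : Pt W Ω} (hc : L.Cg P Q) (hc' : L.Cg P' Q') :
    L.Cg (P + P') (Q + Q') := by
  unfold Cg
  rw [add_sub_add_comm]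
  exact (fm_add h hc hc').1

theorem cg_act {P Q : Pt W Ω} (γ : Ω ≃ₐ[K] Ω) (hc : L.Cg P Q) : L.Cg (γ • P) (γ • Q) := by
  unfold Cg
  rw [← smul_sub]
  exact fm_act γ hc

theorem cg_ns (h : L.It W) {P Q : Pt W Ω} (hc : L.Cg P Q) (hP : L.Ns P) : L.Ns Q := by
  have h1 : Q = P + -(P - Q) := by abel
  rw [h1]
  exact ns_add h hP (ns_neg h (ns_fm h hc))

/-- Congruence means equal reduction. -/
theorem cg_red (h : L.It W) {P Q : Pt W Ω} {P' Q' : Pn (L.rc W)} (hP : L.Red P P')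
    (hQ : L.Red Q Q') : L.Cg P Q ↔ P' = Q' := by
  have h1 := rs_sub h.cv hP hQ
  have h2 : L.Cg P Q ↔ L.Red (P - Q) (0 : Pn (L.rc W)) := (rs_fm h.cv).symm
  rw [h2, ← sub_eq_zero]
  constructor
  · intro h3
    exact rs_unique (w := L.rs) h1 h3
  · intro h3
    rw [← h3]
    exact h1

/-- Congruence in terms of the coordinates. -/
theorem cg_aff (h : L.It W) {x y x' y' : Ω} (hP : (W.baseChange Ω).toAffine.Nonsingular x y)
    (hQ : (W.baseChange Ω).toAffine.Nonsingular x' y') (hx : L.nm x ≤ 1)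
    (hns : L.Ns (Pt.aff x y hP : Pt W Ω)) :
    L.Cg (Pt.aff x y hP : Pt W Ω) (Pt.aff x' y' hQ) ↔ L.nm (x' - x) < 1 ∧ L.nm (y' - y) < 1 := by
  obtain ⟨P', hP'⟩ := hns
  obtain ⟨r, s, hn, hX, hY, rfl⟩ := (lz_red hP hx).1 hP'
  constructor
  · intro hc
    obtain ⟨Q', hQ'⟩ := cg_ns h hc ⟨_, hP'⟩
    have e := (cg_red h hP' hQ').1 hc
    subst e
    have hx' : L.nm x' ≤ 1 := by
      rcases (rs_red_aff (w := L.rs) hQ).1 hQ' with h1 | ⟨_, _, _, h1, _⟩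
      · exact absurd h1.2 (Pn.aff_ne hn)
      · exact h1.1
    obtain ⟨r', s', hn', hX', hY', e⟩ := (lz_red hQ hx').1 hQ'
    obtain ⟨e1, e2⟩ := Pn.aff_inj e
    exact ⟨(L.hv_sub hX' hX).1 e1.symm, (L.hv_sub hY' hY).1 e2.symm⟩
  · rintro ⟨h1, h2⟩
    have hx' : L.nm x' ≤ 1 := by
      have h3 := L.add (x' - x) x
      rw [sub_add_cancel] at h3
      exact h3.trans (max_le h1.le hx)
    have hy' : L.nm y' ≤ 1 := by
      have h3 := L.add (y' - y) y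
      rw [sub_add_cancel] at h3
      exact h3.trans (max_le h2.le hY.1)
    obtain ⟨r', hX'⟩ := L.hv_of hx'
    obtain ⟨s', hY'⟩ := L.hv_of hy'
    have e1 : r' = r := (L.hv_sub hX' hX).2 h1
    have e2 : s' = s := (L.hv_sub hY' hY).2 h2
    subst e1 e2
    exact (cg_red h hP' ((lz_red hQ hx').2 ⟨r', s', hn, hX', hY', rfl⟩)).2 rfl

/-- Translation by a point of the formal group. Proof: let `R = d + b = (x, y)`; it is congruent to `d`. `R ≠ - d` since `2 d` is not in the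
formal group; if `x = x_d` then `R = d`. The slope of the line through `R` and `- d` is `(y + y_d + a₁ x_d + a₃) / (x - x_d)`, the numerator is congruent to
`dy W x_d y_d`; so `x(b)` has the norm `nm (x - x_d) ^ (-2)`; `fm_aff`. -/
theorem tr_x (h : L.It W) {xd yd : Ω} (hd : (W.baseChange Ω).toAffine.Nonsingular xd yd)
    (hx : L.nm xd ≤ 1) (hdy : L.nm (dy W xd yd) = 1) {b : Pt W Ω} (hb : L.Fm b) :
    ∃ (x y : Ω) (h' : (W.baseChange Ω).toAffine.Nonsingular x y),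
      Pt.aff xd yd hd + b = Pt.aff x y h' ∧ L.nm x ≤ 1 ∧ L.nm (x - xd) = L.nm (tp b) ∧
        L.nm (y - yd) < 1 := by
  have hne : L.Ns (Pt.aff xd yd hd : Pt W Ω) := (ns_aff h hd hx).2.2 (Or.inr hdy)
  have hc : L.Cg (Pt.aff xd yd hd : Pt W Ω) (Pt.aff xd yd hd + b) := by
    unfold Cg
    rw [sub_add_cancel_left]
    exact (fm_neg h hb).1
  rcases Pt.cases' (Pt.aff xd yd hd + b : Pt W Ω) with h0 | ⟨x, y, h', hR⟩
  · exfalso
    rw [h0] at hc
    unfold Cg at hc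
    rw [sub_zero] at hc
    exact absurd ((fm_aff h hd).1.1 hc) (not_lt.2 hx)
  rw [hR] at hc
  obtain ⟨hx1, hy1⟩ := (cg_aff h hd h' hx hne).1 hc
  have hxx : L.nm x ≤ 1 := by
    have h1 : x = (x - xd) + xd := by ring
    rw [h1]
    exact (L.add _ _).trans (max_le hx1.le hx)
  have hN : L.nm (y + yd + algebraMap F Ω W.a₁ * xd + algebraMap F Ω W.a₃) = 1 := by
    have h1 : y + yd + algebraMap F Ω W.a₁ * xd + algebraMap F Ω W.a₃ =
        dy W xd yd + (y - yd) := by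
      unfold dy
      ring
    rw [h1, L.add_eq' (by rw [hdy]; exact hy1), hdy]
  refine ⟨x, y, h', hR, hxx, ?_, hy1⟩
  -- the difference
  have hb' : b = Pt.aff x y h' + -(Pt.aff xd yd hd : Pt W Ω) := by
    rw [← hR, add_neg_cancel_comm]
  obtain ⟨h3, h4⟩ := Pn.neg_aff (W := W.baseChange Ω) hd
  by_cases hxe : x = xd
  · -- `R = d`
    have e1 := Pn.eqn (W := W.baseChange Ω) h'
    have e2 := Pn.eqn (W := W.baseChange Ω) hd
    subst hxe
    have hy0 : (y - yd) * (y + yd + algebraMap F Ω W.a₁ * x + algebraMap F Ω W.a₃) = 0 := by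
      have e1' : y ^ 2 + algebraMap F Ω W.a₁ * x * y + algebraMap F Ω W.a₃ * y =
        x ^ 3 + algebraMap F Ω W.a₂ * x ^ 2 + algebraMap F Ω W.a₄ * x + algebraMap F Ω W.a₆ := e1
      have e2' : yd ^ 2 + algebraMap F Ω W.a₁ * x * yd + algebraMap F Ω W.a₃ * yd =
        x ^ 3 + algebraMap F Ω W.a₂ * x ^ 2 + algebraMap F Ω W.a₄ * x + algebraMap F Ω W.a₆ := e2
      linear_combination e1' - e2'
    have hy2 : y = yd := by
      rcases mul_eq_zero.1 hy0 with h5 | h5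
      · exact sub_eq_zero.1 h5
      · rw [h5, L.zero] at hN
        exact absurd hN zero_ne_one
    subst hy2
    have hb0 : b = 0 := by
      rw [hb']
      exact add_neg_cancel _
    subst hb0
    have h6 : tp (0 : Pt W Ω) = 0 := rfl
    rw [h6, sub_self]
  · have hxs : x - xd ≠ 0 := sub_ne_zero.2 hxe
    obtain ⟨l, hl, -, h5, h6⟩ := Pn.slope (W := W.baseChange Ω) h' h3 fun hh => hxe hh.1
    have hl' : l * (x - xd) = y + yd + algebraMap F Ω W.a₁ * xd + algebraMap F Ω W.a₃ := by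
      rw [hl]
      change y - (-yd - algebraMap F Ω W.a₁ * xd - algebraMap F Ω W.a₃) = _
      ring
    have h7 : b = Pt.aff _ _ h5 := by
      rw [hb']
      refine Eq.trans ?_ h6
      exact congrArg (fun P => (Pt.aff x y h' : Pt W Ω) + P) h4
    have hnl : L.nm l * L.nm (x - xd) = 1 := by
      rw [← L.mul, hl', hN]
    have hpos : 0 < L.nm (x - xd) := L.pos hxs
    have hl1 : 1 < L.nm l := by
      by_contra hcon
      have h8 : L.nm l * L.nm (x - xd) < 1 := by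
        calc L.nm l * L.nm (x - xd) ≤ 1 * L.nm (x - xd) :=
              mul_le_mul_of_nonneg_right (not_lt.1 hcon) hpos.le
          _ < 1 := by rw [one_mul]; exact hx1
      exact absurd hnl h8.ne
    have hX : L.nm (l ^ 2 + algebraMap F Ω W.a₁ * l - algebraMap F Ω W.a₂ - x - xd) =
        L.nm l ^ 2 := by
      have h8 : l ^ 2 + algebraMap F Ω W.a₁ * l - algebraMap F Ω W.a₂ - x - xd =
          l ^ 2 + (algebraMap F Ω W.a₁ * l - algebraMap F Ω W.a₂ - x - xd) := by ring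
      rw [h8, L.add_eq', L.pow]
      rw [L.pow]
      have h9 : L.nm l < L.nm l ^ 2 := by nlinarith
      refine lt_of_le_of_lt ?_ h9
      refine (L.sub _ _).trans (max_le ((L.sub _ _).trans (max_le ((L.sub _ _).trans
        (max_le ?_ (h.a₂.trans hl1.le))) (hxx.trans hl1.le))) (hx.trans hl1.le))
      rw [L.mul]
      calc L.nm (algebraMap F Ω W.a₁) * L.nm l ≤ 1 * L.nm l :=
            mul_le_mul_of_nonneg_right h.a₁ (L.nonneg _)
        _ = L.nm l := one_mul _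
    have hfb : L.Fm (Pt.aff _ _ h5 : Pt W Ω) := by rw [← h7]; exact hb
    have h10 := (fm_aff h h5).2 hfb
    rw [← h7] at h10
    have h11 : L.nm (tp b) ^ 2 * L.nm l ^ 2 = 1 := by
      rw [← hX]
      exact h10
    have h12 : L.nm (tp b) * L.nm l = 1 := by
      have h13 : (L.nm (tp b) * L.nm l) ^ 2 = 1 := by rw [mul_pow]; exact h11
      have h14 : 0 ≤ L.nm (tp b) * L.nm l := mul_nonneg (L.nonneg _) (L.nonneg _)
      exact (pow_eq_one_iff_of_nonneg h14 two_ne_zero).1 h13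
    have hl0 : L.nm l ≠ 0 := (lt_trans zero_lt_one hl1).ne'
    have h16 : L.nm l * L.nm (x - xd) = L.nm l * L.nm (tp b) := by
      rw [hnl, mul_comm, h12]
    exact mul_left_cancel₀ hl0 h16

end Ld

end PE
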