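import Pool.Agent.Lib.MP_f80667_ag.Pe.Ur
import Pool.Agent.Lib.MP_f80667_ag.Pe.Lo

/-! Polynomials with integral coefficients and their reductions. -/

open ZC BE Polynomial IntermediateField

namespace PE

namespace Ld

variable {K Ω : Type} [Field K] [Field Ω] [Algebra K Ω] (L : Ld K Ω)

/-- The coefficients of `f` are integers of `M`. -/
def Ip (M : IntermediateField K Ω) (f : Polynomial Ω) : Prop :=
  ∀ i, f.coeff i ∈ M ∧ L.nm (f.coeff i) ≤ 1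

/-- `g` is the reduction of `f`. -/
def Hp (f : Polynomial Ω) (g : Polynomial L.κ) : Prop := ∀ i, L.rs.Hv (f.coeff i) (g.coeff i)

variable {L} {M N : IntermediateField K Ω} {f g : Polynomial Ω} {f' g' : Polynomial L.κ}

/-! Auxiliary: lifts to polynomials over the rings of integers. -/

variable (L M) in
/-- The integers of `M`. -/
private def ipS : Subring Ω := M.toSubfield.toSubring ⊓ L.V.toSubring

private theorem ip_mem {x : Ω} : x ∈ ipS L M ↔ x ∈ M ∧ L.nm x ≤ 1 := Iff.rfl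

private theorem ip_inj : Function.Injective (ipS L M).subtype := Subtype.val_injective

private theorem ip_iff : L.Ip M f ↔ ∃ F : Polynomial (ipS L M), F.map (ipS L M).subtype = f := by
  constructor
  · intro h
    have h1 : f ∈ Polynomial.lifts (ipS L M).subtype := by
      rw [Polynomial.lifts_iff_coeff_lifts]
      intro n
      exact ⟨⟨f.coeff n, h n⟩, rfl⟩
    exact (Polynomial.mem_lifts f).1 h1
  · rintro ⟨F, rfl⟩ i
    rw [coeff_map]
    exact (F.coeff i).2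

private theorem hp_iff : L.Hp f f' ↔ ∃ F : Polynomial L.V, F.map L.V.subtype = f ∧
    F.map (IsLocalRing.residue L.V) = f' := by
  constructor
  · intro h
    have h1 : f ∈ Polynomial.lifts L.V.subtype := by
      rw [Polynomial.lifts_iff_coeff_lifts]
      intro n
      exact ⟨⟨f.coeff n, (h n).1⟩, rfl⟩
    obtain ⟨F, rfl⟩ := (Polynomial.mem_lifts f).1 h1
    refine ⟨F, rfl, ?_⟩
    ext i
    have h2 : L.rs.Hv ((F.map L.V.subtype).coeff i) (IsLocalRing.residue L.V (F.coeff i)) := by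
      rw [coeff_map]
      exact ⟨(F.coeff i).2, rfl⟩
    rw [coeff_map]
    exact h2.uniq (h i)
  · rintro ⟨F, rfl, rfl⟩ i
    rw [coeff_map, coeff_map]
    exact ⟨(F.coeff i).2, rfl⟩

theorem Ip.add (hf : L.Ip M f) (hg : L.Ip M g) : L.Ip M (f + g) := by
  obtain ⟨F, rfl⟩ := ip_iff.1 hf
  obtain ⟨G, rfl⟩ := ip_iff.1 hg
  exact ip_iff.2 ⟨F + G, Polynomial.map_add _⟩

theorem Ip.neg (hf : L.Ip M f) : L.Ip M (-f) := by
  obtain ⟨F, rfl⟩ := ip_iff.1 hf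
  exact ip_iff.2 ⟨-F, Polynomial.map_neg _⟩

theorem Ip.sub (hf : L.Ip M f) (hg : L.Ip M g) : L.Ip M (f - g) := by
  rw [sub_eq_add_neg]
  exact hf.add hg.neg

theorem Ip.mul (hf : L.Ip M f) (hg : L.Ip M g) : L.Ip M (f * g) := by
  obtain ⟨F, rfl⟩ := ip_iff.1 hf
  obtain ⟨G, rfl⟩ := ip_iff.1 hg
  exact ip_iff.2 ⟨F * G, Polynomial.map_mul _⟩

theorem Ip.pow (hf : L.Ip M f) (n : ℕ) : L.Ip M (f ^ n) := by
  obtain ⟨F, rfl⟩ := ip_iff.1 hf
  exact ip_iff.2 ⟨F ^ n, Polynomial.map_pow _ n⟩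

theorem Ip.C {x : Ω} (hx : x ∈ M) (hx1 : L.nm x ≤ 1) : L.Ip M (Polynomial.C x) := by
  exact ip_iff.2 ⟨Polynomial.C ⟨x, hx, hx1⟩, Polynomial.map_C _⟩

theorem Ip.X : L.Ip M (Polynomial.X : Polynomial Ω) := by
  exact ip_iff.2 ⟨Polynomial.X, Polynomial.map_X _⟩

theorem Ip.der (hf : L.Ip M f) : L.Ip M (derivative f) := by
  obtain ⟨F, rfl⟩ := ip_iff.1 hf
  exact ip_iff.2 ⟨derivative F, (Polynomial.derivative_map _ _).symm⟩

theorem Ip.mono (h : M ≤ N) (hf : L.Ip M f) : L.Ip N f := fun i => ⟨h (hf i).1, (hf i).2⟩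

theorem Ip.eval (hf : L.Ip M f) {x : Ω} (hx : x ∈ M) (hx1 : L.nm x ≤ 1) :
    f.eval x ∈ M ∧ L.nm (f.eval x) ≤ 1 := by
  obtain ⟨F, rfl⟩ := ip_iff.1 hf
  have h1 : (F.map (ipS L M).subtype).eval ((ipS L M).subtype ⟨x, hx, hx1⟩) =
      (ipS L M).subtype (F.eval ⟨x, hx, hx1⟩) := Polynomial.eval_map_apply _ _
  have h2 : (F.map (ipS L M).subtype).eval x = (ipS L M).subtype (F.eval ⟨x, hx, hx1⟩) := h1
  rw [h2]
  exact (F.eval (⟨x, hx, hx1⟩ : ipS L M)).2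

/-- The values at two close points. -/
theorem Ip.close (hf : L.Ip M f) {x y : Ω} (hx : L.nm x ≤ 1) (h : L.nm (x - y) < 1) :
    L.nm (f.eval x - f.eval y) < 1 := by
  have hy : L.nm y ≤ 1 := by
    have h1 : y = x - (x - y) := by ring
    rw [h1]
    exact (L.sub _ _).trans (max_le hx h.le)
  exact (L.eval_close (fun i => (hf i).2) hx hy).trans_lt h

/-- Division by a monic polynomial. -/
theorem Ip.dvd (hf : L.Ip M f) (hg : L.Ip M g) (hm : g.Monic) (hd : g ∣ f) :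
    ∃ q, L.Ip M q ∧ f = g * q := by
  obtain ⟨F, rfl⟩ := ip_iff.1 hf
  obtain ⟨G, rfl⟩ := ip_iff.1 hg
  have hG : G.Monic := Polynomial.monic_of_injective ip_inj hm
  obtain ⟨Q, rfl⟩ := (Polynomial.map_dvd_map _ ip_inj hG).1 hd
  exact ⟨Q.map _, ip_iff.2 ⟨Q, rfl⟩, Polynomial.map_mul _⟩

theorem Ip.hp (hf : L.Ip M f) : ∃ g, L.Hp f g := by
  have h1 : f ∈ Polynomial.lifts L.V.subtype := by
    rw [Polynomial.lifts_iff_coeff_lifts]
    intro n
    exact ⟨⟨f.coeff n, (hf n).2⟩, rfl⟩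
  obtain ⟨F, rfl⟩ := (Polynomial.mem_lifts f).1 h1
  exact ⟨_, hp_iff.2 ⟨F, rfl, rfl⟩⟩

theorem Hp.uniq (hf : L.Hp f f') (hg : L.Hp f g') : f' = g' := by
  ext i
  exact (hf i).uniq (hg i)

theorem Hp.add (hf : L.Hp f f') (hg : L.Hp g g') : L.Hp (f + g) (f' + g') := by
  obtain ⟨F, rfl, rfl⟩ := hp_iff.1 hf
  obtain ⟨G, rfl, rfl⟩ := hp_iff.1 hg
  exact hp_iff.2 ⟨F + G, Polynomial.map_add _, Polynomial.map_add _⟩

theorem Hp.sub (hf : L.Hp f f') (hg : L.Hp g g') : L.Hp (f - g) (f' - g') := by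
  obtain ⟨F, rfl, rfl⟩ := hp_iff.1 hf
  obtain ⟨G, rfl, rfl⟩ := hp_iff.1 hg
  exact hp_iff.2 ⟨F - G, Polynomial.map_sub _, Polynomial.map_sub _⟩

theorem Hp.mul (hf : L.Hp f f') (hg : L.Hp g g') : L.Hp (f * g) (f' * g') := by
  obtain ⟨F, rfl, rfl⟩ := hp_iff.1 hf
  obtain ⟨G, rfl, rfl⟩ := hp_iff.1 hg
  exact hp_iff.2 ⟨F * G, Polynomial.map_mul _, Polynomial.map_mul _⟩

theorem Hp.pow (hf : L.Hp f f') (n : ℕ) : L.Hp (f ^ n) (f' ^ n) := by
  obtain ⟨F, rfl, rfl⟩ := hp_iff.1 hf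
  exact hp_iff.2 ⟨F ^ n, Polynomial.map_pow _ n, Polynomial.map_pow _ n⟩

theorem Hp.C {x : Ω} {r : L.κ} (hx : L.rs.Hv x r) : L.Hp (Polynomial.C x) (Polynomial.C r) := by
  obtain ⟨h, rfl⟩ := hx
  exact hp_iff.2 ⟨Polynomial.C ⟨x, h⟩, Polynomial.map_C _, Polynomial.map_C _⟩

theorem Hp.X : L.Hp (Polynomial.X : Polynomial Ω) Polynomial.X := by
  exact hp_iff.2 ⟨Polynomial.X, Polynomial.map_X _, Polynomial.map_X _⟩

theorem Hp.der (hf : L.Hp f f') : L.Hp (derivative f) (derivative f') := by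
  obtain ⟨F, rfl, rfl⟩ := hp_iff.1 hf
  exact hp_iff.2 ⟨derivative F, (Polynomial.derivative_map _ _).symm,
    (Polynomial.derivative_map _ _).symm⟩

theorem Hp.eval (hf : L.Hp f f') {x : Ω} {r : L.κ} (hx : L.rs.Hv x r) :
    L.rs.Hv (f.eval x) (f'.eval r) := by
  obtain ⟨F, rfl, rfl⟩ := hp_iff.1 hf
  obtain ⟨h, rfl⟩ := hx
  have h1 : (F.map L.V.subtype).eval x = L.V.subtype (F.eval ⟨x, h⟩) :=
    Polynomial.eval_map_apply (f := L.V.subtype) (p := F) (⟨x, h⟩ : L.V)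
  have h2 : (F.map (IsLocalRing.residue L.V)).eval (L.rs.res ⟨x, h⟩) =
      IsLocalRing.residue L.V (F.eval ⟨x, h⟩) :=
    Polynomial.eval_map_apply (f := IsLocalRing.residue L.V) (p := F) (⟨x, h⟩ : L.V)
  rw [h1, h2]
  exact ⟨(F.eval (⟨x, h⟩ : L.V)).2, rfl⟩

theorem Hp.monic (hf : L.Hp f f') (hm : f.Monic) : f'.Monic ∧ f'.natDegree = f.natDegree := by
  obtain ⟨F, rfl, rfl⟩ := hp_iff.1 hf
  have hi : Function.Injective L.V.subtype := Subtype.val_injective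
  have hF : F.Monic := Polynomial.monic_of_injective hi hm
  exact ⟨hF.map _, by rw [hF.natDegree_map, hF.natDegree_map]⟩

end Ld

end PE
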