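import Pool.Agent.Lib.MP_f80667_ag.Pe.KeG
import Pool.Agent.Lib.MP_f80667_ag.Pe.Ip
import Pool.Agent.Lib.MP_f80667_ag.Be.Gal

/-! The curve of a polynomial of degree three or four; the roots of a good polynomial. -/

open ZC BE Polynomial IntermediateField

namespace PE

section qm

variable {F : Type} [Field F] {N : Type} [Field N] [CharZero N] [Algebra F N] {f : F[X]}

private theorem keR_ell (A B C : N)
    (h : ∀ x : AlgebraicClosure N, x ^ 3 + algebraMap N (AlgebraicClosure N) A * x ^ 2 +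
      algebraMap N (AlgebraicClosure N) B * x + algebraMap N (AlgebraicClosure N) C = 0 →
      3 * x ^ 2 + 2 * algebraMap N (AlgebraicClosure N) A * x +
        algebraMap N (AlgebraicClosure N) B ≠ 0) :
    (⟨0, A, 0, B, C⟩ : WeierstrassCurve N).IsElliptic := by
  classical
  have h2 : (2 : AlgebraicClosure N) ≠ 0 := two_ne_zero
  have h1 := keG_disc (Ω := AlgebraicClosure N) (fun x => if x = 0 then (0 : ℝ) else 1)
    (fun x y => by
      by_cases hx : x = 0
      · simp [hx]
      · by_cases hy : y = 0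
        · simp [hy]
        · simp [hx, hy]) (by simp [h2]) (fun x => by simp) _ _ _
    (fun x hx => if_neg (h x hx))
  have h3 : algebraMap N (AlgebraicClosure N) (⟨0, A, 0, B, C⟩ : WeierstrassCurve N).Δ ≠ 0 := by
    intro h0
    have e : algebraMap N (AlgebraicClosure N) (⟨0, A, 0, B, C⟩ : WeierstrassCurve N).Δ =
        16 * (algebraMap N (AlgebraicClosure N) A ^ 2 * algebraMap N (AlgebraicClosure N) B ^ 2 -
          4 * algebraMap N (AlgebraicClosure N) A ^ 3 * algebraMap N (AlgebraicClosure N) C -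
          4 * algebraMap N (AlgebraicClosure N) B ^ 3 -
          27 * algebraMap N (AlgebraicClosure N) C ^ 2 +
          18 * algebraMap N (AlgebraicClosure N) A * algebraMap N (AlgebraicClosure N) B *
            algebraMap N (AlgebraicClosure N) C) := by
      simp only [WeierstrassCurve.Δ, WeierstrassCurve.b₂, WeierstrassCurve.b₄, WeierstrassCurve.b₆,
        WeierstrassCurve.b₈, map_sub, map_add, map_mul, map_pow, map_neg, map_ofNat, map_zero]
      ring
    rw [← e, h0] at h1
    simp at h1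
  exact ⟨isUnit_iff_ne_zero.2 fun h0 => h3 (by rw [h0, map_zero])⟩

/-- The curve of a polynomial of degree three or four. -/
theorem keR_qm (h : Qf f) (h4 : f.natDegree = 4 → ∃ e : N, aeval e f = 0) :
    ∃ W : WeierstrassCurve N, W.IsElliptic ∧ Nonempty (Qm f W) := by
  have hc : ∀ x : F, algebraMap N (AlgebraicClosure N) (algebraMap F N x) =
      algebraMap F (AlgebraicClosure N) x := fun x =>
    (IsScalarTower.algebraMap_apply F N (AlgebraicClosure N) x).symm
  have hd5 : f.natDegree < 5 := by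
    rcases h.deg with h | h <;> omega
  have hsep : ∀ x : AlgebraicClosure N, aeval x f = 0 → aeval x (derivative f) ≠ 0 := fun x hx =>
    h.sep.aeval_derivative_ne_zero hx
  rcases h.deg with hd | hd
  · have hc4 : f.coeff 4 = 0 := coeff_eq_zero_of_natDegree_lt (by omega)
    have hf0 : f ≠ 0 := by
      rintro rfl
      simp at hd
    have hl : f.coeff 3 ≠ 0 := by
      rw [← hd]
      exact leadingCoeff_ne_zero.2 hf0
    have h30 : algebraMap F N (f.coeff 3) ≠ 0 := (_root_.map_ne_zero _).2 hl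
    refine ⟨_, keR_ell _ _ _ ?_, keG_three hc4 h30⟩
    intro x hx
    rw [map_mul, map_mul, map_pow, hc, hc, hc, hc] at hx
    rw [map_mul, hc, hc, hc]
    have ha0 : algebraMap F (AlgebraicClosure N) (f.coeff 3) ≠ 0 := (_root_.map_ne_zero _).2 hl
    set a := algebraMap F (AlgebraicClosure N) (f.coeff 3) with ha
    have he : aeval (x / a) f = 0 := by
      rw [keG_ev hd5, hc4, map_zero, ← ha]
      field_simp
      linear_combination a ^ 2 * hx
    have h5 := hsep _ he
    rw [keG_dv hd5, hc4, map_zero, ← ha] at h5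
    have h6 : 3 * x ^ 2 + 2 * algebraMap F (AlgebraicClosure N) (f.coeff 2) * x +
          a * algebraMap F (AlgebraicClosure N) (f.coeff 1) =
        a * (algebraMap F (AlgebraicClosure N) (f.coeff 1) +
          2 * algebraMap F (AlgebraicClosure N) (f.coeff 2) * (x / a) +
          3 * a * (x / a) ^ 2 + 4 * 0 * (x / a) ^ 3) := by
      field_simp
      ring
    rw [h6]
    exact mul_ne_zero ha0 h5
  · obtain ⟨e, he0⟩ := h4 hd
    set e₀ := algebraMap N (AlgebraicClosure N) e with hee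
    have he₀ : aeval e₀ f = 0 := by
      rw [hee, aeval_algebraMap_apply, he0, map_zero]
    have hf0 : f ≠ 0 := by
      rintro rfl
      simp at hd
    have hl : f.coeff 4 ≠ 0 := by
      rw [← hd]
      exact leadingCoeff_ne_zero.2 hf0
    obtain ⟨δ, hδ⟩ : ∃ δ : N, δ = algebraMap F N (f.coeff 4) := ⟨_, rfl⟩
    obtain ⟨γ, hγ⟩ : ∃ γ : N, γ = algebraMap F N (f.coeff 3) + 4 * δ * e := ⟨_, rfl⟩
    obtain ⟨β, hβ⟩ : ∃ β : N, β = algebraMap F N (f.coeff 2) + 3 * algebraMap F N (f.coeff 3) * e +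
      6 * δ * e ^ 2 := ⟨_, rfl⟩
    obtain ⟨α, hα⟩ : ∃ α : N, α = algebraMap F N (f.coeff 1) + 2 * algebraMap F N (f.coeff 2) * e +
      3 * algebraMap F N (f.coeff 3) * e ^ 2 + 4 * δ * e ^ 3 := ⟨_, rfl⟩
    have eδ : algebraMap N (AlgebraicClosure N) δ = algebraMap F (AlgebraicClosure N) (f.coeff 4) := by
      rw [hδ, hc]
    have eγ : algebraMap N (AlgebraicClosure N) γ = algebraMap F (AlgebraicClosure N) (f.coeff 3) +
        4 * algebraMap N (AlgebraicClosure N) δ * e₀ := by
      rw [hγ, map_add, map_mul, map_mul, hc, map_ofNat]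
    have eβ : algebraMap N (AlgebraicClosure N) β = algebraMap F (AlgebraicClosure N) (f.coeff 2) +
        3 * algebraMap F (AlgebraicClosure N) (f.coeff 3) * e₀ +
        6 * algebraMap N (AlgebraicClosure N) δ * e₀ ^ 2 := by
      rw [hβ]
      simp only [map_add, map_mul, map_pow, hc, map_ofNat, hee]
    have eα : algebraMap N (AlgebraicClosure N) α = algebraMap F (AlgebraicClosure N) (f.coeff 1) +
        2 * algebraMap F (AlgebraicClosure N) (f.coeff 2) * e₀ +
        3 * algebraMap F (AlgebraicClosure N) (f.coeff 3) * e₀ ^ 2 +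
        4 * algebraMap N (AlgebraicClosure N) δ * e₀ ^ 3 := by
      rw [hα]
      simp only [map_add, map_mul, map_pow, hc, map_ofNat, hee]
    have ha0 : algebraMap N (AlgebraicClosure N) α ≠ 0 := by
      have h5 := hsep _ he₀
      rw [keG_dv hd5] at h5
      rw [eα, eδ]
      exact h5
    have hα0 : α ≠ 0 := by
      rintro rfl
      exact ha0 (map_zero _)
    have hd0 : algebraMap N (AlgebraicClosure N) δ ≠ 0 := by
      rw [eδ]
      exact (_root_.map_ne_zero _).2 hl
    refine ⟨_, keR_ell _ _ _ ?_, keG_four hd5 he0 hδ hγ hβ hα hα0⟩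
    intro x hx
    rw [map_mul, map_mul, map_pow] at hx
    rw [map_mul]
    set a := algebraMap N (AlgebraicClosure N) α with ha
    set b := algebraMap N (AlgebraicClosure N) β with hb
    set c := algebraMap N (AlgebraicClosure N) γ with hcd
    set d := algebraMap N (AlgebraicClosure N) δ with hdd
    have hx0 : x ≠ 0 := by
      rintro rfl
      have h5 : a ^ 2 * d = 0 := by linear_combination hx
      exact mul_ne_zero (pow_ne_zero 2 ha0) hd0 h5
    have c4 : algebraMap F (AlgebraicClosure N) (f.coeff 4) = d := eδ.symm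
    have c3 : algebraMap F (AlgebraicClosure N) (f.coeff 3) = c - 4 * d * e₀ := by rw [eγ]; ring
    have c2 : algebraMap F (AlgebraicClosure N) (f.coeff 2) = b - 3 * c * e₀ + 6 * d * e₀ ^ 2 := by
      rw [eβ, eγ]; ring
    have c1 : algebraMap F (AlgebraicClosure N) (f.coeff 1) =
        a - 2 * b * e₀ + 3 * c * e₀ ^ 2 - 4 * d * e₀ ^ 3 := by
      rw [eα, eβ, eγ]; ring
    have c0 : algebraMap F (AlgebraicClosure N) (f.coeff 0) =
        -a * e₀ + b * e₀ ^ 2 - c * e₀ ^ 3 + d * e₀ ^ 4 := by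
      have h5 := he₀
      rw [keG_ev hd5, c1, c2, c3, c4] at h5
      linear_combination h5
    have hT : aeval (e₀ + a / x) f = 0 := by
      rw [keG_ev hd5, c0, c1, c2, c3, c4]
      field_simp
      linear_combination a ^ 2 * hx
    have hT2 := hsep _ hT
    rw [keG_dv hd5, c1, c2, c3, c4] at hT2
    have key : 3 * x ^ 2 + 2 * b * x + a * c = -(x ^ 2 / a * (a - 2 * b * e₀ + 3 * c * e₀ ^ 2 -
        4 * d * e₀ ^ 3 + 2 * (b - 3 * c * e₀ + 6 * d * e₀ ^ 2) * (e₀ + a / x) +
        3 * (c - 4 * d * e₀) * (e₀ + a / x) ^ 2 + 4 * d * (e₀ + a / x) ^ 3)) := by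
      field_simp
      linear_combination 4 * a * hx
    rw [key]
    exact neg_ne_zero.2 (mul_ne_zero (div_ne_zero (pow_ne_zero 2 hx0) ha0) hT2)

end qm

namespace Ld

variable {F : Type} [Field F] {K Ω : Type} [Field K] [CharZero K] [Field Ω] [Algebra K Ω]
  [Algebra F K] [Algebra F Ω] [IsScalarTower F K Ω]

/-- The monic multiple of `f`. -/
private theorem keR_monic {L : Ld K Ω} {f : F[X]}
    (hco : ∀ i, L.nm (algebraMap F Ω (f.coeff i)) ≤ 1)
    (hlc : L.nm (algebraMap F Ω f.leadingCoeff) = 1) :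
    ∃ (u : F) (g : Polynomial Ω), L.nm (algebraMap F Ω u) = 1 ∧ g.Monic ∧
      L.Ip (⊥ : IntermediateField K Ω) g ∧ (∀ e : Ω, aeval e f = algebraMap F Ω u * g.eval e) ∧
      ∀ e : Ω, aeval e (derivative f) = algebraMap F Ω u * (derivative g).eval e := by
  have hl0 : algebraMap F Ω f.leadingCoeff ≠ 0 := L.ne_zero (by rw [hlc]; exact zero_lt_one)
  have hl0' : f.leadingCoeff ≠ 0 := by
    intro h0
    rw [h0, map_zero] at hl0
    exact hl0 rfl
  have hf0 : f ≠ 0 := leadingCoeff_ne_zero.1 hl0'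
  set g₀ : F[X] := f * C f.leadingCoeff⁻¹ with hg₀
  have hm : g₀.Monic := monic_mul_leadingCoeff_inv hf0
  have hfg : f = C f.leadingCoeff * g₀ := by
    rw [hg₀, mul_comm, mul_assoc, ← C_mul, inv_mul_cancel₀ hl0', C_1, mul_one]
  refine ⟨f.leadingCoeff, g₀.map (algebraMap F Ω), hlc, hm.map _, ?_, ?_, ?_⟩
  · intro i
    rw [coeff_map]
    constructor
    · rw [IsScalarTower.algebraMap_apply F K Ω]
      exact IntermediateField.algebraMap_mem _ _
    · rw [hg₀, coeff_mul_C, map_mul, map_inv₀, L.mul, L.inv, hlc, inv_one, mul_one]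
      exact hco i
  · intro e
    conv_lhs => rw [hfg]
    rw [map_mul, aeval_C, eval_map_algebraMap]
  · intro e
    conv_lhs => rw [hfg]
    rw [derivative_mul, derivative_C, zero_mul, zero_add, map_mul, aeval_C, derivative_map,
      eval_map_algebraMap]

/-- A root is integral and simple. -/
theorem keR_root {L : Ld K Ω} {f : F[X]} (hco : ∀ i, L.nm (algebraMap F Ω (f.coeff i)) ≤ 1)
    (hlc : L.nm (algebraMap F Ω f.leadingCoeff) = 1)
    (hbz : ∃ a b : F[X], a * f + b * derivative f = 1 ∧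
      ∀ i, L.nm (algebraMap F Ω (b.coeff i)) ≤ 1) {e : Ω} (he : aeval e f = 0) :
    L.nm e ≤ 1 ∧ L.nm (aeval e (derivative f)) = 1 := by
  obtain ⟨u, g, hu, hm, hg, h1, h2⟩ := keR_monic hco hlc
  have hu0 : algebraMap F Ω u ≠ 0 := L.ne_zero (by rw [hu]; exact zero_lt_one)
  have hge : g.eval e = 0 := by
    have h3 := h1 e
    rw [he] at h3
    exact (mul_eq_zero.1 h3.symm).resolve_left hu0
  have he1 : L.nm e ≤ 1 := L.root_le hm (fun i => (hg i).2) hge
  refine ⟨he1, ?_⟩
  obtain ⟨a, b, hab, hb⟩ := hbz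
  have h3 : aeval e b * aeval e (derivative f) = 1 := by
    have h4 := congrArg (aeval e) hab
    rw [map_add, map_mul, map_mul, he, mul_zero, zero_add, map_one] at h4
    exact h4
  have h4 : L.nm (aeval e b) ≤ 1 := by
    rw [← eval_map_algebraMap]
    exact L.eval_le (fun i => by rw [coeff_map]; exact hb i) he1
  have h5 : L.nm (aeval e (derivative f)) ≤ 1 := by
    rw [h2, L.mul, hu, one_mul]
    exact L.eval_le (fun i => (hg.der i).2) he1
  have h6 := congrArg L.nm h3
  rw [L.mul, L.one] at h6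
  refine le_antisymm h5 ?_
  by_contra hlt
  rw [not_le] at hlt
  exact absurd h6 (mul_lt_one_of_nonneg_of_lt_one_right h4 (L.nonneg _) hlt).ne

/-- Different roots are not congruent. -/
theorem keR_sep {L : Ld K Ω} {f : F[X]} (hco : ∀ i, L.nm (algebraMap F Ω (f.coeff i)) ≤ 1)
    (hlc : L.nm (algebraMap F Ω f.leadingCoeff) = 1)
    (hbz : ∃ a b : F[X], a * f + b * derivative f = 1 ∧
      ∀ i, L.nm (algebraMap F Ω (b.coeff i)) ≤ 1) {e e' : Ω} (he : aeval e f = 0)
    (he' : aeval e' f = 0) (hne : e ≠ e') : L.nm (e - e') = 1 := by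
  obtain ⟨u, g, hu, hm, hg, h1, h2⟩ := keR_monic hco hlc
  have hu0 : algebraMap F Ω u ≠ 0 := L.ne_zero (by rw [hu]; exact zero_lt_one)
  have hge : ∀ x : Ω, aeval x f = 0 → g.eval x = 0 := by
    intro x hx
    have h3 := h1 x
    rw [hx] at h3
    exact (mul_eq_zero.1 h3.symm).resolve_left hu0
  obtain ⟨he1, hd⟩ := keR_root hco hlc hbz he
  obtain ⟨he1', -⟩ := keR_root hco hlc hbz he'
  have hT : L.Ip ⊤ g := hg.mono le_top
  obtain ⟨q, hq, eq1⟩ := hT.dvd (Ip.X.sub (Ip.C IntermediateField.mem_top he1))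
    (monic_X_sub_C e) (dvd_iff_isRoot.2 (hge e he))
  have hqe' : q.eval e' = 0 := by
    have h3 := hge e' he'
    rw [eq1, eval_mul, eval_sub, eval_X, eval_C] at h3
    exact (mul_eq_zero.1 h3).resolve_left (sub_ne_zero.2 hne.symm)
  obtain ⟨r, hr, eq2⟩ := hq.dvd (Ip.X.sub (Ip.C IntermediateField.mem_top he1'))
    (monic_X_sub_C e') (dvd_iff_isRoot.2 hqe')
  have h3 : (derivative g).eval e = (e - e') * r.eval e := by
    rw [eq1, derivative_mul, eval_add, eval_mul, eval_mul, derivative_sub, derivative_X,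
      derivative_C, sub_zero, eval_one, one_mul, eval_sub, eval_X, eval_C, sub_self, zero_mul,
      add_zero, eq2, eval_mul, eval_sub, eval_X, eval_C]
  rw [h2, h3, L.mul, L.mul, hu, one_mul] at hd
  have h4 : L.nm (r.eval e) ≤ 1 := L.eval_le (fun i => (hr i).2) he1
  have h5 : L.nm (e - e') ≤ 1 := (L.sub _ _).trans (max_le he1 he1')
  refine le_antisymm h5 ?_
  by_contra hlt
  rw [not_le] at hlt
  exact absurd hd (mul_lt_one_of_nonneg_of_lt_one_left (L.nonneg _) hlt h4).ne

/-- The roots are in unramified extensions. -/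
theorem keR_ur [IsAlgClosure K Ω] {L : Ld K Ω} {f : F[X]}
    (hco : ∀ i, L.nm (algebraMap F Ω (f.coeff i)) ≤ 1)
    (hlc : L.nm (algebraMap F Ω f.leadingCoeff) = 1)
    (hbz : ∃ a b : F[X], a * f + b * derivative f = 1 ∧
      ∀ i, L.nm (algebraMap F Ω (b.coeff i)) ≤ 1) {e : Ω} (he : aeval e f = 0) :
    ∃ N ≠ 0, e ∈ L.Ur ⊥ N := by
  obtain ⟨N, hN, z, hz, hez⟩ := te_rep (L := L) (keR_root hco hlc hbz he).1
  refine ⟨N, hN, mem_of_fix _ fun γ hγ => ?_⟩
  have hγz : γ z = z := (IntermediateField.mem_fixingSubgroup_iff _ γ).1 hγ z (te_ur hz)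
  by_contra hne
  have h1 : aeval (γ e) f = 0 := by
    have h2 : aeval (γ e) f = γ (aeval e f) := by
      have h3 := aeval_algHom_apply ((γ : Ω →ₐ[K] Ω).restrictScalars F) e f
      exact h3
    rw [h2, he, map_zero]
  have h2 := keR_sep hco hlc hbz h1 he hne
  have h3 : L.nm (γ e - e) < 1 := by
    have h4 : γ e - e = γ (e - z) - (e - z) := by
      rw [map_sub, hγz]
      ring
    rw [h4]
    refine (L.sub _ _).trans_lt (max_lt ?_ hez)
    rw [L.act]
    exact hez
  exact absurd h2 h3.ne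

end Ld

end PE
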