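import Pool.Agent.Lib.MP_f80667_ag.Pe.Kl
import Pool.Agent.Lib.MP_f80667_ag.Pe.KeG
import Pool.Agent.Lib.MP_f80667_ag.Pe.KeR
import Pool.Agent.Lib.MP_f80667_ag.Pe.Pot
import Pool.Agent.Lib.MP_f80667_ag.Pe.Cp
import Pool.Agent.Lib.MP_f80667_ag.Pe.Loc
import Pool.Agent.Lib.MP_f80667_ag.Pe.GlN

/-! Local theorems for the surface `f(x) s² = g(y) t²`. -/

open ZC BE Polynomial IntermediateField

namespace PE

/-- The classes of the zero-cycles of degree `0` are divisible by `m`. -/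
def Dm {F : Type} [Field F] (V : Vr F) (K Ω : Type) [Field K] [Algebra F K] [Field Ω] [Algebra K Ω]
    [Algebra F Ω] [IsScalarTower F K Ω] (m : ℕ) : Prop :=
  ∀ z ∈ V.D0 K Ω, ∃ z' ∈ V.D0 K Ω, z - m • z' ∈ V.ratEq K Ω

section qm

variable {F : Type} [Field F] {N : Type} [Field N] [CharZero N] [Algebra F N] {f : F[X]}

/-- The elliptic curve. Let `q = α X ^ 3 + β X ^ 2 + γ X + δ` be `f` if the degree is `3`, and `f (X + e) = α X + β X ^ 2 + γ X ^ 3 + δ X ^ 4` if the degree is `4`.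
`W = ⟨0, β, 0, α γ, α ^ 2 δ⟩`, `c = 1 / (2 α)`, the matrix is `(1 / α, 0, 0, 1)` respectively `(e / α, 1, 1 / α, 0)`. `Δ W = 16 α ^ 2 disc q`; `f` has no multiple root in an algebraic closure. -/
theorem exists_qm (h : Qf f) (h4 : f.natDegree = 4 → ∃ e : N, aeval e f = 0) :
    ∃ W : WeierstrassCurve N, W.IsElliptic ∧ Nonempty (Qm f W) := by
  exact keR_qm h h4

end qm

namespace Ld

variable {F : Type} [Field F] {K Ω : Type} [Field K] [CharZero K] [Field Ω] [Algebra K Ω]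
  [Algebra F K] [Algebra F Ω] [IsScalarTower F K Ω] [IsAlgClosure K Ω]

/-- The polynomial `f` is good: integral coefficients, the leading coefficient is a unit, `a f + b f' = 1` with `b` integral. -/
structure Gq (L : Ld K Ω) (f : F[X]) : Prop where
  co : ∀ i, L.nm (algebraMap F Ω (f.coeff i)) ≤ 1
  lc : L.nm (algebraMap F Ω f.leadingCoeff) = 1
  bz : ∃ a b : F[X], a * f + b * derivative f = 1 ∧ ∀ i, L.nm (algebraMap F Ω (b.coeff i)) ≤ 1

/-- Proof: `root_le`; `b(e) f'(e) = 1`. -/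
theorem gq_root {L : Ld K Ω} {f : F[X]} (h : L.Gq f) {e : Ω} (he : aeval e f = 0) :
    L.nm e ≤ 1 ∧ L.nm (aeval e (derivative f)) = 1 := by
  exact keR_root h.co h.lc h.bz he

/-- Different roots are not congruent. Proof: `f' (e)` is the product of the leading coefficient and the differences. -/
theorem gq_sep {L : Ld K Ω} {f : F[X]} (h : L.Gq f) {e e' : Ω} (he : aeval e f = 0)
    (he' : aeval e' f = 0) (hne : e ≠ e') : L.nm (e - e') = 1 := by
  exact keR_sep h.co h.lc h.bz he he' hne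

/-- The roots are in unramified extensions. Proof: `te_rep`: `z` in `L.Te N`, `nm (e - z) < 1`; an automorphism over `L.Ur ⊥ N` fixes `z`, so `nm (γ e - e) < 1`, `γ e = e` by `gq_sep`. -/
theorem gq_ur {L : Ld K Ω} {f : F[X]} (h : L.Gq f) {e : Ω} (he : aeval e f = 0) :
    ∃ N ≠ 0, e ∈ L.Ur ⊥ N := by
  exact keR_ur h.co h.lc h.bz he

/-- Good reduction. `L'` is an absolute value over `N`, `e` is in `N`. Proof: as `exists_qm`; the coefficients are integral, `α = f' (e)` (or the leading coefficient), `disc q` is the product of `δ ^ 4` and the squares of the differences of the other roots (degree `4`), or of `α ^ 4` and the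
squares of the differences of the roots (degree `3`): `gq_sep`. -/
theorem exists_qmG {L : Ld K Ω} {f : F[X]} (h : L.Gq f) (hf : Qf f) (h2 : L.p ≠ 2)
    {N : IntermediateField K Ω} (h4 : f.natDegree = 4 → ∃ e ∈ N, aeval e f = 0) {L' : Ld N Ω}
    (hL : ∀ x, L'.nm x = L.nm x) : ∃ W : WeierstrassCurve N, L'.Gd W ∧ Nonempty (Qm f W) := by
  exact keG_main h.co h.lc (fun _ he => gq_root h he) hf h2 h4 hL

end Ld

section loc'

variable {F : Type} [Field F] {f g : F[X]} {K Ω : Type} [Field K] [CharZero K] [Field Ω]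
  [Algebra K Ω] [Algebra F K] [Algebra F Ω] [IsScalarTower F K Ω] [IsAlgClosure K Ω]

/-- From the symbols to the surface. Proof: `scX_gen`, `scX_mem` as in `dvN_of` (`Pe/GlN.lean`), `ks_X`. -/
theorem dk_of {M : Type} [Field M] [Algebra F M] [Algebra M K] [IsScalarTower F M K] [Algebra M Ω]
    [IsScalarTower M K Ω] [IsScalarTower F M Ω] {W₁ W₂ : WeierstrassCurve M} [W₁.IsElliptic]
    [W₂.IsElliptic] (Q₁ : Qm f W₁) (Q₂ : Qm g W₂) {m : ℕ} (hm : Odd m)
    (h : ∀ x ∈ (scX (K := K) (Ω := Ω) (W₁ := W₁) (W₂ := W₂) ((Xv W₁ W₂).ratEq K Ω) le_rfl).T,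
      ∃ y ∈ (scX (K := K) (Ω := Ω) (W₁ := W₁) (W₂ := W₂) ((Xv W₁ W₂).ratEq K Ω) le_rfl).T,
        x = m • y) : Dm (Kv f g) K Ω m := by
  intro z hz
  refine ks_X Q₁ Q₂ hm (fun z hz h₁ h₂ => ?_) hz
  have hn := scX_gen (K := K) (Ω := Ω) (W₁ := W₁) (W₂ := W₂) ((Xv W₁ W₂).ratEq K Ω) le_rfl (z := z)
    hz h₁ h₂
  obtain ⟨y, hy, he⟩ := h _ hn
  obtain ⟨z', hz', h2, h3, h4⟩ := scX_mem (K := K) (Ω := Ω) (W₁ := W₁) (W₂ := W₂)
    ((Xv W₁ W₂).ratEq K Ω) le_rfl hy
  refine ⟨z', hz', ?_⟩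
  let R : AddSubgroup (Pt W₁ Ω × Pt W₂ Ω →₀ ℤ) := (Xv W₁ W₂).ratEq K Ω
  let z₀ : Pt W₁ Ω × Pt W₂ Ω →₀ ℤ := z'
  have h5 : QuotientAddGroup.mk' R (z - m • z₀) = 0 := by
    rw [map_sub, map_nsmul, sub_eq_zero]
    exact he.trans (congrArg (fun x => m • x) h4.symm)
  exact (QuotientAddGroup.eq_zero_iff (N := R) _).1 h5

/-- From an extension of degree prime to `m`. Proof: `z` is a cycle over `M`: `z - m z'` is in `ratEq M`; the trace (`tr_ratEqK`) of `z` is `[M : K] z`, the trace of `z'` is a cycle of degree `0` over `K`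
(`smul_trG`). `a [M : K] = 1 + b m`. -/
theorem dk_tr (M : IntermediateField K Ω) [FiniteDimensional K M] [IsScalarTower F M Ω] {m : ℕ}
    (hc : (Module.finrank K M).Coprime m) (h : Dm (Kv f g) M Ω m) : Dm (Kv f g) K Ω m := by
  classical
  have hH : M.fixingSubgroup.FiniteIndex := opn_fin _ (opn_fix M)
  let i0 : Fintype ((Ω ≃ₐ[K] Ω) ⧸ M.fixingSubgroup) := Fintype.ofFinite _
  intro z hz
  obtain ⟨z', hz', hr⟩ := h z ⟨fun σ => hz.1 (σ.restrictScalars K), hz.2⟩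
  have hz1 : ∀ σ : Ω ≃ₐ[K] Ω, Finsupp.mapDomain (fun x : (Kv f g).pt Ω => σ • x) z = z :=
    fun σ => hz.1 σ
  have hinv : ∀ γ ∈ M.fixingSubgroup,
      Finsupp.mapDomain (fun x : (Kv f g).pt Ω => γ • x) z' = z' := fun γ hγ =>
    hz'.1 (IntermediateField.fixingSubgroupEquiv M ⟨γ, hγ⟩)
  have h2 : trG ((Kv f g).pt Ω) M.fixingSubgroup z = Module.finrank K M • z := by
    rw [trG_apply hH, finsum_congr fun q => hz1 _, finsum_eq_sum_of_fintype, Finset.sum_const,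
      Finset.card_univ, ← Nat.card_eq_fintype_card,
      IntermediateField.finrank_eq_fixingSubgroup_index Ω M]
    rfl
  have h0 : dg z' = 0 := hz'.2
  have h3 : trG ((Kv f g).pt Ω) M.fixingSubgroup z' ∈ (Kv f g).D0 K Ω := by
    refine ⟨fun σ => smul_trG hH hinv σ, ?_⟩
    change dg (trG ((Kv f g).pt Ω) M.fixingSubgroup z') = 0
    rw [trG_apply hH, finsum_eq_sum_of_fintype, map_sum]
    refine Finset.sum_eq_zero fun q _ => ?_
    rw [sib_dg_map, h0]
  have h1 := tr_ratEqK M hr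
  rw [map_sub, map_nsmul, h2] at h1
  have hb := Nat.gcd_eq_gcd_ab (Module.finrank K M) m
  rw [hc.gcd_eq_one, Nat.cast_one] at hb
  set a : ℤ := (Module.finrank K M).gcdA m
  set b : ℤ := (Module.finrank K M).gcdB m
  set t := trG ((Kv f g).pt Ω) M.fixingSubgroup z'
  refine ⟨a • t + b • z, AddSubgroup.add_mem _ (AddSubgroup.zsmul_mem _ h3 _)
    (AddSubgroup.zsmul_mem _ hz _), ?_⟩
  have h4 : z - m • (a • t + b • z) = a • (Module.finrank K M • z - m • t) := by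
    have h5 : z - m • (a • t + b • z) - a • (Module.finrank K M • z - m • t) =
        (1 - ((Module.finrank K M : ℤ) * a + m * b)) • z := by
      simp only [← natCast_zsmul]
      module
    rw [← hb, sub_self, zero_smul] at h5
    exact sub_eq_zero.1 h5
  rw [h4]
  exact AddSubgroup.zsmul_mem _ h1 _

/-- **Almost all prime numbers.** Proof: `M = K(e, e')` for roots `e` of `f` and `e'` of `g`; `exists_qm`, `exists_bsL`, `el_pot`: `n₁`; `n₀` is the maximum of `n₁`, `2` and the degree of `M`. `t_divN`, `dk_of` over `M`, `dk_tr`. -/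
theorem dk_pot (L : Ld K Ω) (hf : Qf f) (hg : Qf g) :
    ∃ n₀ : ℕ, ∀ m : ℕ, m ≠ 0 → Lg n₀ m → Dm (Kv f g) K Ω m := by
  have hcl : IsAlgClosed Ω := IsAlgClosure.isAlgClosed K
  have hal : Algebra.IsAlgebraic K Ω := IsAlgClosure.isAlgebraic
  -- the roots
  have root : ∀ {q : F[X]}, Qf q → ∃ e : Ω, aeval e q = 0 := by
    intro q hq
    refine IsAlgClosed.exists_aeval_eq_zero Ω q ?_
    intro h0
    have h1 : q.natDegree = 0 := natDegree_eq_of_degree_eq_some h0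
    have h2 := hq.deg
    omega
  obtain ⟨e, he⟩ := root hf
  obtain ⟨e', he'⟩ := root hg
  have hi : ∀ x : Ω, IsIntegral K x := fun x => (Algebra.IsAlgebraic.isAlgebraic x).isIntegral
  obtain ⟨M, hM⟩ : ∃ M : IntermediateField K Ω, M = K⟮e⟯ ⊔ K⟮e'⟯ := ⟨_, rfl⟩
  have hMf : FiniteDimensional K M := by
    rw [hM]
    have h1 : FiniteDimensional K K⟮e⟯ := IntermediateField.adjoin.finiteDimensional (hi e)
    have h2 : FiniteDimensional K K⟮e'⟯ := IntermediateField.adjoin.finiteDimensional (hi e')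
    exact IntermediateField.finiteDimensional_sup K⟮e⟯ K⟮e'⟯
  have heM : e ∈ M := by
    rw [hM]
    exact (le_sup_left : K⟮e⟯ ≤ K⟮e⟯ ⊔ K⟮e'⟯) (mem_adjoin_simple_self K e)
  have heM' : e' ∈ M := by
    rw [hM]
    exact (le_sup_right : K⟮e'⟯ ≤ K⟮e⟯ ⊔ K⟮e'⟯) (mem_adjoin_simple_self K e')
  have hst : IsScalarTower F M Ω := IsScalarTower.of_algebraMap_eq fun _ => rfl
  have rootM : ∀ {q : F[X]} {x : Ω}, aeval x q = 0 → x ∈ M → ∃ y : M, aeval y q = 0 := by
    intro q x hx hxM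
    refine ⟨⟨x, hxM⟩, ?_⟩
    apply (algebraMap M Ω).injective
    rw [map_zero, ← aeval_algebraMap_apply]
    exact hx
  obtain ⟨W₁, hW₁, ⟨Q₁⟩⟩ := exists_qm (N := M) hf fun _ => rootM he heM
  obtain ⟨W₂, hW₂, ⟨Q₂⟩⟩ := exists_qm (N := M) hg fun _ => rootM he' heM'
  obtain ⟨L', -, -⟩ := L.exists_bsL M
  have hac : IsAlgClosure M Ω :=
    ⟨hcl, Algebra.IsAlgebraic.tower_top (K := K) M⟩
  obtain ⟨n₁, hn₁⟩ := L'.el_pot W₁ W₂
  refine ⟨max (max n₁ 2) (Module.finrank K M), fun m hm hL => ?_⟩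
  have hodd : Odd m := by
    rw [← Nat.not_even_iff_odd, even_iff_two_dvd]
    intro h
    have h3 := hL 2 Nat.prime_two h
    have h4 := le_max_right n₁ 2
    have h5 := le_max_left (max n₁ 2) (Module.finrank K M)
    omega
  have hcop : (Module.finrank K M).Coprime m := by
    refine Nat.Coprime.symm (Nat.coprime_of_dvd' fun l hl h1 h2 => ?_)
    have h3 := hL l hl h1
    have h4 := Nat.le_of_dvd Module.finrank_pos h2
    have h5 := le_max_right (max n₁ 2) (Module.finrank K M)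
    omega
  have hL₁ : Lg n₁ m := fun l hl h1 =>
    ((le_max_left _ _).trans (le_max_left _ _)).trans_lt (hL l hl h1)
  refine dk_tr M hcop (dk_of (M := M) Q₁ Q₂ hodd ?_)
  exact t_divN (fun l hl hl' N P Q hN hP hQ => hn₁ _ _ l hl hl' N P Q hN hP hQ) m hm hL₁

/-- **The good places.** Proof: `M = K(e, e')` for roots `e` of `f` and `e'` of `g` (`⊥` instead of `K(e)` if the degree of `f` is `3`). The degree is prime to all prime numbers `l ≥ 5` (`cp_bot`, `cp_adj`, `cp_sup` for `N = ⊥`, `relIndex_fix`; all prime factors of `m` are at least `5`). `exists_bsL`: `L'` over `M`; it is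
unramified: `M` is in `L.Ur ⊥ N` (`gq_ur`, `ur_dvd`), `ur_unr`. `exists_qmG` for both polynomials; `Ld.loc` for `L'` and `R = ratEq` (`L'.p = L.p` is not `2`); `dk_of`, `dk_tr`. -/
theorem dk_good (L : Ld K Ω) [L.Unr] (h2 : L.p ≠ 2) (hf : Qf f) (hg : Qf g) (hf' : L.Gq f)
    (hg' : L.Gq g) {m : ℕ} (hm : m ≠ 0) (h5 : Lg 4 m) : Dm (Kv f g) K Ω m := by
  have hcl : IsAlgClosed Ω := IsAlgClosure.isAlgClosed K
  -- a root of a good polynomial
  have root : ∀ q : F[X], Qf q → ∃ e : Ω, aeval e q = 0 := fun q hq => by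
    have h1 : q.degree ≠ 0 := by
      intro h0
      have h3 : q.natDegree = 0 := natDegree_eq_of_degree_eq_some h0
      rcases hq.deg with h4 | h4 <;> omega
    exact IsAlgClosed.exists_aeval_eq_zero (Ω) q h1
  obtain ⟨e, he⟩ := root f hf
  obtain ⟨e', he'⟩ := root g hg
  have co : ∀ (q : F[X]) (M : IntermediateField K Ω) (i : ℕ),
      (q.map (algebraMap F Ω)).coeff i ∈ M := fun q M i => by
    rw [coeff_map, IsScalarTower.algebraMap_apply F K Ω]
    exact M.algebraMap_mem _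
  have dg : ∀ q : F[X], Qf q → (q.map (algebraMap F Ω)).natDegree ≤ 4 ∧
      q.map (algebraMap F Ω) ≠ 0 := fun q hq => by
    refine ⟨?_, ?_⟩
    · rw [natDegree_map]
      rcases hq.deg with h4 | h4 <;> omega
    · rw [Ne, Polynomial.map_eq_zero]
      rintro rfl
      rcases hq.deg with h4 | h4 <;> simp at h4
  have ev : ∀ (q : F[X]) (x : Ω), aeval x q = 0 → (q.map (algebraMap F Ω)).eval x = 0 :=
    fun q x hx => by rw [eval_map_algebraMap, hx]
  have hM₁ : FiniteDimensional K (⊥ ⊔ K⟮e⟯ : IntermediateField K Ω) :=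
    (cp_adj (l := 5) (by norm_num) le_rfl (cp_bot 5) (dg f hf).2 (dg f hf).1 (co f ⊥)
      (ev f e he)).1
  obtain ⟨M₁, hM₁e⟩ : ∃ M₁ : IntermediateField K Ω, M₁ = ⊥ ⊔ K⟮e⟯ := ⟨_, rfl⟩
  rw [← hM₁e] at hM₁
  have hc₁ : ∀ l : ℕ, l.Prime → 5 ≤ l → Cp l M₁ := fun l hl h5 => by
    rw [hM₁e]
    exact (cp_adj hl h5 (cp_bot l) (dg f hf).2 (dg f hf).1 (co f ⊥) (ev f e he)).2
  have hM : FiniteDimensional K (M₁ ⊔ K⟮e'⟯ : IntermediateField K Ω) :=
    (cp_adj (l := 5) (by norm_num) le_rfl (hc₁ 5 (by norm_num) le_rfl) (dg g hg).2 (dg g hg).1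
      (co g M₁) (ev g e' he')).1
  obtain ⟨M, hMe⟩ : ∃ M : IntermediateField K Ω, M = M₁ ⊔ K⟮e'⟯ := ⟨_, rfl⟩
  rw [← hMe] at hM
  have hc₂ : ∀ l : ℕ, l.Prime → 5 ≤ l → Cp l M := fun l hl h5 => by
    rw [hMe]
    exact (cp_adj hl h5 (hc₁ l hl h5) (dg g hg).2 (dg g hg).1 (co g M₁) (ev g e' he')).2
  have heM : e ∈ M := by
    rw [hMe, hM₁e]
    exact (le_sup_left : _ ≤ (⊥ ⊔ K⟮e⟯) ⊔ K⟮e'⟯)
      ((le_sup_right : K⟮e⟯ ≤ ⊥ ⊔ K⟮e⟯) (mem_adjoin_simple_self K e))
  have heM' : e' ∈ M := by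
    rw [hMe]
    exact (le_sup_right : K⟮e'⟯ ≤ M₁ ⊔ K⟮e'⟯) (mem_adjoin_simple_self K e')
  -- the degree
  have hcop : (Module.finrank K M).Coprime m := by
    refine Nat.Coprime.symm (Nat.coprime_of_dvd fun l hl hlm hlM => ?_)
    have h6 := hc₂ l hl (h5 l hl hlm) ⊥ inferInstance
    rw [bot_sup_eq] at h6
    have h3 := relIndex_fix (M := (⊥ : IntermediateField K Ω)) (N := M) bot_le
    rw [IntermediateField.finrank_bot, mul_one] at h3
    rw [h3] at h6
    exact ((Nat.Prime.coprime_iff_not_dvd hl).1 h6.symm) hlM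
  -- `M` is unramified
  obtain ⟨N, hN, heN⟩ := Ld.gq_ur hf' he
  obtain ⟨N', hN', heN'⟩ := Ld.gq_ur hg' he'
  have hle : M ≤ L.Ur ⊥ (N * N') := by
    rw [hMe, hM₁e]
    refine sup_le (sup_le bot_le ?_) ?_
    · exact adjoin_simple_le_iff.2 (Ld.ur_dvd ⊥ (dvd_mul_right N N') heN)
    · exact adjoin_simple_le_iff.2 (Ld.ur_dvd ⊥ (dvd_mul_left N' N) heN')
  obtain ⟨L', hp, hL'⟩ := L.exists_bsL M
  have hu : L'.Unr := ⟨fun x hx => by
    have hx0 : (x : Ω) ≠ 0 := fun h0 => hx (Subtype.ext h0)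
    obtain ⟨n, hn⟩ := Ld.ur_unr (L := L) (mul_ne_zero hN hN') (hle x.2) hx0
    refine ⟨n, ?_⟩
    rw [hp, hL', hL']
    exact hn⟩
  obtain ⟨W₁, hW₁, ⟨Q₁⟩⟩ := Ld.exists_qmG hf' hf h2 (N := M) (fun _ => ⟨e, heM, he⟩) hL'
  obtain ⟨W₂, hW₂, ⟨Q₂⟩⟩ := Ld.exists_qmG hg' hg h2 (N := M) (fun _ => ⟨e', heM', he'⟩) hL'
  have ell : ∀ W : WeierstrassCurve M, L'.Gd W → W.IsElliptic := fun W hW => ⟨by
    rw [isUnit_iff_ne_zero]
    intro h0
    have h6 := hW.disc
    rw [h0, map_zero, L'.zero] at h6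
    exact zero_ne_one h6⟩
  have h₁ := ell W₁ hW₁
  have h₂ := ell W₂ hW₂
  have hodd : Odd m := by
    rw [← Nat.not_even_iff_odd, even_iff_two_dvd]
    intro h6
    have := h5 2 Nat.prime_two h6
    omega
  have hT : IsScalarTower F M Ω := IsScalarTower.of_algebraMap_eq fun _ => rfl
  have halg : Algebra.IsAlgebraic K Ω := IsAlgClosure.isAlgebraic
  have hac : IsAlgClosure M Ω := ⟨hcl, Algebra.IsAlgebraic.tower_top (K := K) M⟩
  refine dk_tr M hcop (dk_of (K := M) (Ω := Ω) (M := M) Q₁ Q₂ hodd ?_)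
  exact Ld.loc (L := L') ((Xv W₁ W₂).ratEq M Ω) le_rfl hW₁.hd hW₂
    (fun h6 => absurd (hp.symm.trans h6) h2) m hm

end loc'

end PE
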