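import Pool.Agent.Lib.MP_f80667_ag.Pe.Kr

/-! The pull-back of cycles from the surface to the product. -/

open ZC BE Polynomial

namespace PE

section pull

variable {F M : Type} [Field F] [Field M] [Algebra F M] {f g : F[X]} {W₁ W₂ : WeierstrassCurve M}
  [W₁.IsElliptic] [W₂.IsElliptic] {Ω : Type} [Field Ω] [CharZero Ω] [IsAlgClosed Ω]
  [Algebra F Ω] [Algebra M Ω] [IsScalarTower F M Ω]

/-- A point above. -/
noncomputable def kpt (Q₁ : Qm f W₁) (Q₂ : Qm g W₂) (x : (Kv f g).pt Ω) : Pt W₁ Ω × Pt W₂ Ω :=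
  (kpi_surj Q₁ Q₂ x).choose

theorem kpi_kpt (Q₁ : Qm f W₁) (Q₂ : Qm g W₂) (x : (Kv f g).pt Ω) :
    kpi Q₁ Q₂ (kpt Q₁ Q₂ x) = knu x :=
  (kpi_surj Q₁ Q₂ x).choose_spec

/-- The pull-back of a point. -/
noncomputable def kpb (Q₁ : Qm f W₁) (Q₂ : Qm g W₂) (x : (Kv f g).pt Ω) :
    Pt W₁ Ω × Pt W₂ Ω →₀ ℤ :=
  Finsupp.single (kpt Q₁ Q₂ x) 1 + Finsupp.single (-kpt Q₁ Q₂ x) 1

theorem kpb_eq (Q₁ : Qm f W₁) (Q₂ : Qm g W₂) {x : (Kv f g).pt Ω} {P : Pt W₁ Ω × Pt W₂ Ω}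
    (h : kpi Q₁ Q₂ P = knu x) :
    kpb Q₁ Q₂ x = Finsupp.single P 1 + Finsupp.single (-P) 1 := by
  rcases kpi_inj Q₁ Q₂ ((kpi_kpt Q₁ Q₂ x).trans h.symm) with e | e
  · rw [kpb, e]
  · rw [kpb, e, neg_neg, add_comm]

/-- The pull-back of cycles. -/
noncomputable def kpull (Q₁ : Qm f W₁) (Q₂ : Qm g W₂) :
    ((Kv f g).pt Ω →₀ ℤ) →+ (Pt W₁ Ω × Pt W₂ Ω →₀ ℤ) :=
  Finsupp.liftAddHom fun x => zmultiplesHom _ (kpb Q₁ Q₂ x)

theorem kpull_single (Q₁ : Qm f W₁) (Q₂ : Qm g W₂) (x : (Kv f g).pt Ω) :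
    kpull Q₁ Q₂ (Finsupp.single x 1) = kpb Q₁ Q₂ x := by
  rw [kpull, Finsupp.liftAddHom_apply_single, zmultiplesHom_apply, one_zsmul]

theorem kpull_push (Q₁ : Qm f W₁) (Q₂ : Qm g W₂) (z : (Kv f g).pt Ω →₀ ℤ) :
    Finsupp.mapDomain (kpi Q₁ Q₂) (kpull Q₁ Q₂ z) = 2 • Finsupp.mapDomain knu z := by
  have h : (Finsupp.mapDomain.addMonoidHom (M := ℤ) (kpi Q₁ Q₂)).comp (kpull Q₁ Q₂) =
      2 • Finsupp.mapDomain.addMonoidHom (M := ℤ) (knu : (Kv f g).pt Ω → _) := by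
    ext x : 2
    change Finsupp.mapDomain (kpi Q₁ Q₂) (kpull Q₁ Q₂ (Finsupp.single x 1)) =
      2 • Finsupp.mapDomain knu (Finsupp.single x 1)
    rw [kpull_single, kpb, Finsupp.mapDomain_add, Finsupp.mapDomain_single,
      Finsupp.mapDomain_single, Finsupp.mapDomain_single, kpi_neg, kpi_kpt, two_smul]
  exact DFunLike.congr_fun h z

theorem kpull_dg (Q₁ : Qm f W₁) (Q₂ : Qm g W₂) (z : (Kv f g).pt Ω →₀ ℤ) :
    dg (kpull Q₁ Q₂ z) = 2 * dg z := by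
  have h : (dg : (Pt W₁ Ω × Pt W₂ Ω →₀ ℤ) →+ ℤ).comp (kpull Q₁ Q₂) = 2 • dg := by
    ext x : 2
    change dg (kpull Q₁ Q₂ (Finsupp.single x 1)) = 2 • dg (Finsupp.single x 1)
    rw [kpull_single, kpb, map_add, sib_dg_single, sib_dg_single, sib_dg_single]
    rfl
  have h1 := DFunLike.congr_fun h z
  refine Eq.trans h1 ?_
  change 2 • dg z = 2 * dg z
  rw [nsmul_eq_mul]
  rfl

theorem kpull_fst (Q₁ : Qm f W₁) (Q₂ : Qm g W₂) (z : (Kv f g).pt Ω →₀ ℤ) :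
    sm (Finsupp.mapDomain Prod.fst (kpull Q₁ Q₂ z)) = 0 := by
  have h : (sm : (Pt W₁ Ω →₀ ℤ) →+ Pt W₁ Ω).comp
      ((Finsupp.mapDomain.addMonoidHom (M := ℤ) Prod.fst).comp (kpull Q₁ Q₂)) = 0 := by
    ext x : 2
    change sm (Finsupp.mapDomain Prod.fst (kpull Q₁ Q₂ (Finsupp.single x 1))) = 0
    rw [kpull_single, kpb, Finsupp.mapDomain_add, Finsupp.mapDomain_single,
      Finsupp.mapDomain_single, map_add, sm, Finsupp.liftAddHom_apply_single,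
      Finsupp.liftAddHom_apply_single, zmultiplesHom_apply, zmultiplesHom_apply, one_zsmul,
      one_zsmul, Prod.fst_neg, add_neg_cancel]
  exact DFunLike.congr_fun h z

theorem kpull_snd (Q₁ : Qm f W₁) (Q₂ : Qm g W₂) (z : (Kv f g).pt Ω →₀ ℤ) :
    sm (Finsupp.mapDomain Prod.snd (kpull Q₁ Q₂ z)) = 0 := by
  have h : (sm : (Pt W₂ Ω →₀ ℤ) →+ Pt W₂ Ω).comp
      ((Finsupp.mapDomain.addMonoidHom (M := ℤ) Prod.snd).comp (kpull Q₁ Q₂)) = 0 := by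
    ext x : 2
    change sm (Finsupp.mapDomain Prod.snd (kpull Q₁ Q₂ (Finsupp.single x 1))) = 0
    rw [kpull_single, kpb, Finsupp.mapDomain_add, Finsupp.mapDomain_single,
      Finsupp.mapDomain_single, map_add, sm, Finsupp.liftAddHom_apply_single,
      Finsupp.liftAddHom_apply_single, zmultiplesHom_apply, zmultiplesHom_apply, one_zsmul,
      one_zsmul, Prod.snd_neg, add_neg_cancel]
  exact DFunLike.congr_fun h z

end pull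

section act

variable {F M : Type} [Field F] [Field M] [Algebra F M] {f g : F[X]} {W₁ W₂ : WeierstrassCurve M}
  [W₁.IsElliptic] [W₂.IsElliptic] {K : Type} [Field K] [CharZero K] [Algebra F K] [Algebra M K]
  [IsScalarTower F M K] {Ω : Type} [Field Ω] [CharZero Ω] [IsAlgClosed Ω] [Algebra K Ω]
  [Algebra F Ω] [Algebra M Ω] [IsScalarTower F K Ω] [IsScalarTower M K Ω] [IsScalarTower F M Ω]

omit [CharZero K] [IsScalarTower F M K] in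
/-- The points above are moved by the Galois group. -/
theorem kpull_act (Q₁ : Qm f W₁) (Q₂ : Qm g W₂) (σ : Ω ≃ₐ[K] Ω) (z : (Kv f g).pt Ω →₀ ℤ) :
    kpull Q₁ Q₂ (Finsupp.mapDomain ((Kv f g).act σ) z) =
      Finsupp.mapDomain ((Xv W₁ W₂).act σ) (kpull Q₁ Q₂ z) := by
  have h : (kpull Q₁ Q₂).comp (Finsupp.mapDomain.addMonoidHom (M := ℤ) ((Kv f g).act σ)) =
      (Finsupp.mapDomain.addMonoidHom (M := ℤ) ((Xv W₁ W₂).act σ)).comp (kpull Q₁ Q₂) := by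
    ext x : 2
    change kpull Q₁ Q₂ (Finsupp.mapDomain ((Kv f g).act σ) (Finsupp.single x 1)) =
      Finsupp.mapDomain ((Xv W₁ W₂).act σ) (kpull Q₁ Q₂ (Finsupp.single x 1))
    rw [Finsupp.mapDomain_single, kpull_single, kpull_single]
    have h1 : kpi Q₁ Q₂ ((Xv W₁ W₂).act σ (kpt Q₁ Q₂ x)) = knu ((Kv f g).act σ x) := by
      have h2 := kpi_map Q₁ Q₂ (σ.restrictScalars M : Ω →ₐ[M] Ω) (kpt Q₁ Q₂ x)
      rw [kpi_kpt] at h2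
      refine Eq.trans h2.symm ?_
      exact (knu_map (σ.restrictScalars F : Ω →ₐ[F] Ω) x).symm
    have h3 := kpb_eq Q₁ Q₂ h1
    refine h3.trans ?_
    rw [kpb]
    have h4 : ∀ P Q : Pt W₁ Ω × Pt W₂ Ω, Finsupp.mapDomain ((Xv W₁ W₂).act σ)
        (Finsupp.single P 1 + Finsupp.single Q 1) =
        Finsupp.single ((Xv W₁ W₂).act σ P) 1 + Finsupp.single ((Xv W₁ W₂).act σ Q) (1 : ℤ) := by
      intro P Q
      rw [← Finsupp.mapDomain_single (f := (Xv W₁ W₂).act σ), ← Finsupp.mapDomain_single (f := (Xv W₁ W₂).act σ)]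
      exact Finsupp.mapDomain_add
    refine Eq.trans ?_ (h4 _ _).symm
    congr 2
    exact Prod.ext (map_neg (Pt.map W₁ _) _).symm (map_neg (Pt.map W₂ _) _).symm
  exact DFunLike.congr_fun h z

theorem kpull_mem (Q₁ : Qm f W₁) (Q₂ : Qm g W₂) {z : (Kv f g).pt Ω →₀ ℤ}
    (hz : z ∈ (Kv f g).D0 K Ω) : (kpull Q₁ Q₂ z : Pt W₁ Ω × Pt W₂ Ω →₀ ℤ) ∈ (Xv W₁ W₂).D0 K Ω := by
  refine ⟨fun σ => ?_, ?_⟩
  · exact (kpull_act Q₁ Q₂ σ z).symm.trans (congrArg _ (hz.1 σ))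
  · have h1 : dg z = 0 := hz.2
    have h2 := kpull_dg Q₁ Q₂ z
    rw [h1, mul_zero] at h2
    exact h2

omit [W₁.IsElliptic] [W₂.IsElliptic] [CharZero K] [CharZero Ω] [IsAlgClosed Ω]
  [IsScalarTower F M K] in
theorem kpi_mem (Q₁ : Qm f W₁) (Q₂ : Qm g W₂) {z : Pt W₁ Ω × Pt W₂ Ω →₀ ℤ}
    (hz : z ∈ (Xv W₁ W₂).D0 K Ω) : Finsupp.mapDomain (kpi Q₁ Q₂) z ∈ (Kv f g).D0 K Ω := by
  refine ⟨fun σ => ?_, ?_⟩
  · let α : Pt W₁ Ω × Pt W₂ Ω → Pt W₁ Ω × Pt W₂ Ω := (Xv W₁ W₂).act σ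
    have h0 : ∀ P : Pt W₁ Ω × Pt W₂ Ω, (Kv f g).act σ (kpi Q₁ Q₂ P) = kpi Q₁ Q₂ (α P) := fun P =>
      kpi_map Q₁ Q₂ (σ.restrictScalars M : Ω →ₐ[M] Ω) P
    have h1 : (Kv f g).act σ ∘ kpi Q₁ Q₂ = kpi Q₁ Q₂ ∘ α := funext h0
    have h2 : Finsupp.mapDomain α z = z := hz.1 σ
    rw [← Finsupp.mapDomain_comp, h1, Finsupp.mapDomain_comp, h2]
  · have h1 : dg z = 0 := hz.2
    have h2 := sib_dg_map (kpi Q₁ Q₂) z
    rw [h1] at h2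
    exact h2

end act

section main

variable {F M : Type} [Field F] [Field M] [Algebra F M] {f g : F[X]} {W₁ W₂ : WeierstrassCurve M}
  [W₁.IsElliptic] [W₂.IsElliptic] {K : Type} [Field K] [CharZero K] [Algebra F K] [Algebra M K]
  [IsScalarTower F M K] {Ω : Type} [Field Ω] [Algebra K Ω] [Algebra F Ω] [Algebra M Ω]
  [IsScalarTower F K Ω] [IsScalarTower M K Ω] [IsScalarTower F M Ω] [IsAlgClosure K Ω]

private theorem kl_alg {G : Type} [AddCommGroup G] (z a w : G) (k : ℕ) :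
    z - (2 * k + 1) • (z - k • w) = (2 * k) • (a - z) + -(k • (2 • a - (2 * k + 1) • w)) := by
  simp only [← natCast_zsmul]
  push_cast
  module

/-- **From the product to the surface.** -/
theorem ks_X (Q₁ : Qm f W₁) (Q₂ : Qm g W₂) {m : ℕ} (hm : Odd m)
    (h : ∀ z : Pt W₁ Ω × Pt W₂ Ω →₀ ℤ, z ∈ (Xv W₁ W₂).D0 K Ω →
      sm (Finsupp.mapDomain Prod.fst z) = 0 → sm (Finsupp.mapDomain Prod.snd z) = 0 →
      ∃ z' : Pt W₁ Ω × Pt W₂ Ω →₀ ℤ, z' ∈ (Xv W₁ W₂).D0 K Ω ∧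
        z - m • z' ∈ (Xv W₁ W₂).ratEq K Ω)
    {z : (Kv f g).pt Ω →₀ ℤ} (hz : z ∈ (Kv f g).D0 K Ω) :
    ∃ z' ∈ (Kv f g).D0 K Ω, z - m • z' ∈ (Kv f g).ratEq K Ω := by
  have hO : IsAlgClosed Ω := IsAlgClosure.isAlgClosed K
  have hc : CharZero Ω := charZero_of_injective_algebraMap (algebraMap K Ω).injective
  obtain ⟨y, hy, hr⟩ := h _ (kpull_mem Q₁ Q₂ hz) (kpull_fst Q₁ Q₂ z) (kpull_snd Q₁ Q₂ z)
  have h1 := kpi_ratEq Q₁ Q₂ hr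
  have h2 : Finsupp.mapDomain (kpi Q₁ Q₂) (kpull Q₁ Q₂ z - m • y) =
      2 • Finsupp.mapDomain knu z - m • Finsupp.mapDomain (kpi Q₁ Q₂) y := by
    rw [← kpull_push Q₁ Q₂ z]
    have e := map_sub (Finsupp.mapDomain.addMonoidHom (M := ℤ) (kpi (L := Ω) Q₁ Q₂))
      (kpull Q₁ Q₂ z) (m • y)
    rw [map_nsmul] at e
    exact e
  rw [h2] at h1
  have h3 := nu_ratEq hz.1
  obtain ⟨k, rfl⟩ := hm
  refine ⟨z - k • Finsupp.mapDomain (kpi Q₁ Q₂) y,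
    sub_mem hz (nsmul_mem (kpi_mem Q₁ Q₂ hy) k), ?_⟩
  have h4 := add_mem (nsmul_mem h3 (2 * k)) (neg_mem (nsmul_mem h1 k))
  convert h4 using 1
  exact kl_alg _ _ _ k

end main

end PE
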