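import Pool.Agent.Lib.MP_f80667_ag.Fa.Ext0

/-! Existence of a place of a function field with given values on a subring. -/

open ZC Polynomial

namespace PE

/-- A nonzero polynomial in two variables divided by the exact power of the first variable. -/
private theorem plcA_fac {M : Type} [Field M] (Q : M[X][X]) (hQ : Q ≠ 0) :
    ∃ (n : ℕ) (Q' : M[X][X]), Q = C X ^ n * Q' ∧ Q'.map (constantCoeff (R := M)) ≠ 0 := by
  have hu : ¬ IsUnit (C X : M[X][X]) := by
    rw [Polynomial.isUnit_C]
    exact Polynomial.not_isUnit_X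
  obtain ⟨c, hc, hc'⟩ :=
    (FiniteMultiplicity.of_not_isUnit hu hQ).exists_eq_pow_mul_and_not_dvd
  refine ⟨_, c, hc, fun h0 => hc' ?_⟩
  rw [C_dvd_iff_dvd_coeff]
  intro i
  rw [X_dvd_iff]
  have h1 := congrArg (fun r => Polynomial.coeff r i) h0
  simpa using h1

/-- The residue field of a valuation ring which contains the constants and a nonzero element `a` of the maximal ideal is algebraic over
the constants. -/
private theorem plcA_alg {M E : Type} [Field M] [Field E] [Algebra M E] (hE : IsFunField M E)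
    (V : ValuationSubring E) (i : M →+* V) (hi : ∀ c, ((i c : V) : E) = algebraMap M E c)
    (a : V) (ha : a ≠ 0) (ha' : IsLocalRing.residue V a = 0) (x : V) :
    ∃ q : M[X], q ≠ 0 ∧ eval₂ ((IsLocalRing.residue V).comp i) (IsLocalRing.residue V x) q = 0 := by
  classical
  have hai : (a : E) ≠ 0 := fun h => ha (Subtype.ext h)
  have hisub : V.subtype.comp i = algebraMap M E := RingHom.ext hi
  have hinj : Function.Injective ((IsLocalRing.residue V).comp i) := RingHom.injective _
  -- values at `a` of polynomials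
  have hval : ∀ G : M[X], ((eval₂ i a G : V) : E) = aeval (a : E) G := by
    intro G
    have h1 := hom_eval₂ G i V.subtype a
    rw [hisub] at h1
    exact h1
  have hres : ∀ G : M[X], IsLocalRing.residue V (eval₂ i a G) =
      IsLocalRing.residue V (i (G.coeff 0)) := by
    intro G
    rw [hom_eval₂, ha', eval₂_at_zero]
    rfl
  have htr : Transcendental M (a : E) := by
    rintro ⟨G, hG, hG0⟩
    obtain ⟨n, G', hG', rfl⟩ := Fa.fac_X' G hG
    rw [map_mul, map_pow, aeval_X, mul_eq_zero] at hG0
    have h1 := hG0.resolve_left (pow_ne_zero n hai)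
    rw [← hval] at h1
    have h2 : eval₂ i a G' = 0 := Subtype.ext h1
    have h3 := hres G'
    rw [h2, map_zero] at h3
    exact hG' (hinj (h3.symm.trans (map_zero _).symm))
  obtain ⟨p, hp0, hpx⟩ := (Fa.alg_of_transc hE htr).isAlgebraic (x : E)
  let j : M[X] →+* Algebra.adjoin M {(a : E)} :=
    (((aeval (R := M) (a : E)).codRestrict (Algebra.adjoin M {(a : E)}) fun G =>
      aeval_mem_adjoin_singleton M (a : E)) : M[X] →+* Algebra.adjoin M {(a : E)})
  have hjs : Function.Surjective j := by
    intro y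
    have h1 : (y : E) ∈ (aeval (R := M) (a : E)).range := by
      rw [← Algebra.adjoin_singleton_eq_range_aeval]
      exact y.2
    obtain ⟨G, hG⟩ := h1
    exact ⟨G, Subtype.ext hG⟩
  obtain ⟨Q, hQ⟩ := Polynomial.map_surjective j hjs p
  have hQ0 : Q ≠ 0 := by
    rintro rfl
    apply hp0
    rw [← hQ, Polynomial.map_zero]
  obtain ⟨n, Q', hQQ, hQ'⟩ := plcA_fac Q hQ0
  let b : M[X] →+* V := eval₂RingHom i a
  have hb : ∀ G, ((b G : V) : E) = aeval (a : E) G := hval
  have h1 : eval₂ b x Q = 0 := by
    apply Subtype.ext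
    have h2 : ((eval₂ b x Q : V) : E) = eval₂ (V.subtype.comp b) (x : E) Q :=
      hom_eval₂ Q b V.subtype x
    rw [h2]
    have h3 : V.subtype.comp b = (algebraMap (Algebra.adjoin M {(a : E)}) E).comp j :=
      RingHom.ext fun G => hb G
    rw [h3, ← eval₂_map, hQ]
    exact hpx
  have h2 : eval₂ b x Q' = 0 := by
    rw [hQQ, eval₂_mul, eval₂_pow, eval₂_C, mul_eq_zero] at h1
    refine h1.resolve_left (pow_ne_zero n ?_)
    have h3 : b X = a := eval₂_X i a
    rw [h3]
    exact ha
  refine ⟨Q'.map constantCoeff, hQ', ?_⟩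
  rw [eval₂_map]
  have h3 : ((IsLocalRing.residue V).comp i).comp (constantCoeff (R := M)) =
      (IsLocalRing.residue V).comp b := by
    apply RingHom.ext
    intro G
    exact (hres G).symm
  rw [h3, ← hom_eval₂, h2, map_zero]

/-- Places with given values. -/
theorem exists_plcA {M E Ω : Type} [Field M] [Field E] [Algebra M E] [Field Ω]
    [Algebra M Ω] [IsAlgClosed Ω] (hE : IsFunField M E) (R : Subalgebra M E) (φ : R →ₐ[M] Ω)
    (a : R) (ha : a ≠ 0) (h0 : φ a = 0) :
    ∃ w : Place M E Ω, ∀ r : R, ∃ h : (r : E) ∈ w.V, w.res ⟨r, h⟩ = φ r := by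
  classical
  let P : Ideal R := RingHom.ker (φ : R →+* Ω)
  have hP : P.IsPrime := RingHom.ker_isPrime _
  have hmemP : ∀ r : R, r ∈ P ↔ φ r = 0 := fun r => Iff.rfl
  have hu1 : ∀ y : P.primeCompl, IsUnit ((R.val : R →+* E) y) := by
    intro y
    rw [isUnit_iff_ne_zero]
    intro hy
    have h1 : (y : R) = 0 := Subtype.ext hy
    exact y.2 (by rw [h1]; exact P.zero_mem)
  have hu2 : ∀ y : P.primeCompl, IsUnit ((φ : R →+* Ω) y) := by
    intro y
    rw [isUnit_iff_ne_zero]
    exact y.2
  let S := Localization.AtPrime P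
  let f : S →+* E := IsLocalization.lift (M := P.primeCompl) (g := (R.val : R →+* E)) hu1
  let g : S →+* Ω := IsLocalization.lift (M := P.primeCompl) (g := (φ : R →+* Ω)) hu2
  have hf : ∀ r : R, f (algebraMap R S r) = (r : E) := fun r => IsLocalization.lift_eq hu1 r
  have hg : ∀ r : R, g (algebraMap R S r) = φ r := fun r => IsLocalization.lift_eq hu2 r
  have hgl : IsLocalHom g := by
    refine ⟨fun s hs => ?_⟩
    obtain ⟨r, y, rfl⟩ := IsLocalization.exists_mk'_eq P.primeCompl s
    rw [IsLocalization.AtPrime.isUnit_mk'_iff S P]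
    intro hr
    have h1 : g (IsLocalization.mk' S r y) * φ y = φ r := by
      rw [← hg y, ← map_mul, IsLocalization.mk'_spec, hg]
    rw [(hmemP r).1 hr] at h1
    have h2 : φ y ≠ 0 := (hu2 y).ne_zero
    exact mul_ne_zero hs.ne_zero h2 h1
  obtain ⟨V, hV, hloc⟩ := IsLocalRing.exists_factor_valuationRing f
  let r : S →+* V := f.codRestrict V.toSubring hV
  have hrl : IsLocalHom r := hloc
  have hrE : ∀ s : S, ((r s : V) : E) = f s := fun s => rfl
  let i : M →+* V := r.comp ((algebraMap R S).comp (algebraMap M R))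
  have hi : ∀ c, ((i c : V) : E) = algebraMap M E c := by
    intro c
    change f (algebraMap R S (algebraMap M R c)) = _
    rw [hf]
    rfl
  let a' : V := r (algebraMap R S a)
  have ha'E : (a' : E) = a := hf a
  have ha'0 : a' ≠ 0 := by
    intro h
    apply ha
    apply Subtype.ext
    rw [← ha'E, h]
    rfl
  have ha'r : IsLocalRing.residue V a' = 0 := by
    rw [IsLocalRing.residue_eq_zero_iff, IsLocalRing.mem_maximalIdeal, mem_nonunits_iff]
    intro h
    have h1 : IsUnit (algebraMap R S a) := IsUnit.of_map r _ h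
    have h2 : IsUnit (g (algebraMap R S a)) := h1.map g
    rw [hg, h0] at h2
    exact not_isUnit_zero h2
  let i1 : Algebra (IsLocalRing.ResidueField S) (IsLocalRing.ResidueField V) :=
    (IsLocalRing.ResidueField.map r).toAlgebra
  let i2 : Algebra (IsLocalRing.ResidueField S) Ω := (IsLocalRing.ResidueField.lift g).toAlgebra
  have halg : Algebra.IsAlgebraic (IsLocalRing.ResidueField S) (IsLocalRing.ResidueField V) := by
    refine ⟨fun z => ?_⟩
    obtain ⟨x, rfl⟩ := IsLocalRing.residue_surjective z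
    obtain ⟨q, hq0, hq⟩ := plcA_alg hE V i hi a' ha'0 ha'r x
    let c : M →+* IsLocalRing.ResidueField S :=
      (IsLocalRing.residue S).comp ((algebraMap R S).comp (algebraMap M R))
    refine ⟨q.map c, ?_, ?_⟩
    · rwa [Ne, Polynomial.map_eq_zero]
    · rw [aeval_def, eval₂_map]
      exact hq
  let ψ : IsLocalRing.ResidueField V →ₐ[IsLocalRing.ResidueField S] Ω := IsAlgClosed.lift
  have hψ : ∀ s : S, ψ (IsLocalRing.residue V (r s)) = g s := by
    intro s
    have h1 := ψ.commutes (IsLocalRing.residue S s)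
    exact h1
  have hMmem : ∀ c : M, algebraMap M E c ∈ V := by
    intro c
    rw [← hi]
    exact (i c).2
  refine ⟨⟨V, fun htop => ?_, hMmem, (ψ : IsLocalRing.ResidueField V →+* Ω).comp
    (IsLocalRing.residue V), fun c => ?_, fun x hx => ?_⟩, fun s => ?_⟩
  · have h1 : ((a' : E))⁻¹ ∈ V :=
      (show ∀ z : E, z ∈ V from fun z => htop ▸ ValuationSubring.mem_top z) _
    have h2 : IsUnit a' := by
      refine IsUnit.of_mul_eq_one (⟨_, h1⟩ : V) ?_
      apply Subtype.ext
      change (a' : E) * (a' : E)⁻¹ = 1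
      exact mul_inv_cancel₀ fun h => ha'0 (Subtype.ext h)
    have h3 := (IsLocalRing.residue_eq_zero_iff a').1 ha'r
    exact (mem_nonunits_iff.1 ((IsLocalRing.mem_maximalIdeal _).1 h3)) h2
  · change ψ (IsLocalRing.residue V _) = _
    have h1 : (⟨algebraMap M E c, hMmem c⟩ : V) = r (algebraMap R S (algebraMap M R c)) :=
      Subtype.ext (hi c).symm
    rw [h1, hψ, hg]
    exact φ.commutes c
  · change ψ (IsLocalRing.residue V x) = 0
    rw [(IsLocalRing.residue_eq_zero_iff x).2 hx, map_zero]
  · have h1 : ((r (algebraMap R S s) : V) : E) = s := hf s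
    have h2 : (s : E) ∈ V := by
      rw [← h1]
      exact (r (algebraMap R S s)).2
    refine ⟨h2, ?_⟩
    change ψ (IsLocalRing.residue V _) = _
    have h3 : (⟨(s : E), h2⟩ : V) = r (algebraMap R S s) := Subtype.ext h1.symm
    rw [h3, hψ, hg]

end PE
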