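import Pool.Agent.Lib.MP_f80667_ag.Pe.Ff
import Pool.Agent.Lib.MP_f80667_ag.Be.PlR

/-! The place where the generic point has a given value (for `Pe/Plc.lean`). -/

open ZC BE Polynomial

namespace PE

/-- The homomorphism `s ↦ x`, `η ↦ y`. -/
theorem plcW_hom {M E Ω : Type} [Field M] [Field E] [Algebra M E] [Field Ω] [Algebra M Ω]
    (s η : E) (T N : M[X]) (x y : Ω) (he : η ^ 2 - aeval s T * η + aeval s N = 0)
    (hi : ∀ a b : M[X], aeval s a + aeval s b * η = 0 → a = 0 ∧ b = 0)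
    (hxy : y ^ 2 - aeval x T * y + aeval x N = 0) :
    ∃ (R : Subalgebra M E) (φ : R →ₐ[M] Ω) (hs : s ∈ R) (hη : η ∈ R),
      φ ⟨s, hs⟩ = x ∧ φ ⟨η, hη⟩ = y := by
  classical
  obtain ⟨q, hq⟩ : ∃ q : M[X][X], q = X ^ 2 - C T * X + C N := ⟨_, rfl⟩
  have hqm : q.Monic := by
    rw [hq]
    monicity!
  have hqd : q.natDegree = 2 := by
    rw [hq]
    compute_degree!
  have h1 : q.eval₂ ((aeval s : M[X] →ₐ[M] E) : M[X] →+* E) η = 0 := by
    rw [hq]
    simp only [eval₂_add, eval₂_sub, eval₂_mul, eval₂_pow, eval₂_X, eval₂_C]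
    exact he
  have h2 : q.eval₂ ((aeval x : M[X] →ₐ[M] Ω) : M[X] →+* Ω) y = 0 := by
    rw [hq]
    simp only [eval₂_add, eval₂_sub, eval₂_mul, eval₂_pow, eval₂_X, eval₂_C]
    exact hxy
  obtain ⟨f, hf⟩ : ∃ f : AdjoinRoot q →ₐ[M] E, f = AdjoinRoot.liftAlgHom q (aeval s) η h1 :=
    ⟨_, rfl⟩
  obtain ⟨g, hg⟩ : ∃ g : AdjoinRoot q →ₐ[M] Ω, g = AdjoinRoot.liftAlgHom q (aeval x) y h2 :=
    ⟨_, rfl⟩
  have hfr : f (AdjoinRoot.root q) = η := by
    rw [hf]
    exact AdjoinRoot.lift_root h1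
  have hfX : f (AdjoinRoot.of q X) = s := by
    rw [hf]
    exact (AdjoinRoot.lift_of h1).trans (aeval_X s)
  have hgr : g (AdjoinRoot.root q) = y := by
    rw [hg]
    exact AdjoinRoot.lift_root h2
  have hgX : g (AdjoinRoot.of q X) = x := by
    rw [hg]
    exact (AdjoinRoot.lift_of h2).trans (aeval_X x)
  have hinj : Function.Injective f := by
    rw [injective_iff_map_eq_zero]
    intro z
    induction z using AdjoinRoot.induction_on with
    | ih P =>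
      intro hz
      have h3 : AdjoinRoot.mk q P = AdjoinRoot.mk q (P %ₘ q) := by
        rw [AdjoinRoot.mk_eq_mk, modByMonic_eq_sub_mul_div P q, sub_sub_cancel]
        exact dvd_mul_right _ _
      have h4 : (P %ₘ q).natDegree < 2 := by
        rw [← hqd]
        exact natDegree_modByMonic_lt P hqm (by
          intro h5
          rw [h5, natDegree_one] at hqd
          omega)
      have h5 : P %ₘ q = C ((P %ₘ q).coeff 1) * X + C ((P %ₘ q).coeff 0) :=
        eq_X_add_C_of_natDegree_le_one (by omega)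
      rw [h3] at hz
      have h6 : f (AdjoinRoot.mk q (P %ₘ q)) = (P %ₘ q).eval₂
          ((aeval s : M[X] →ₐ[M] E) : M[X] →+* E) η := by
        rw [hf]
        exact AdjoinRoot.lift_mk h1 _
      rw [h6, h5] at hz
      simp only [eval₂_add, eval₂_mul, eval₂_X, eval₂_C] at hz
      obtain ⟨h7, h8⟩ := hi ((P %ₘ q).coeff 0) ((P %ₘ q).coeff 1) (by
        rw [add_comm]
        exact hz)
      rw [h3, h5, h7, h8, C_0, zero_mul, add_zero, map_zero]
  obtain ⟨e, he'⟩ : ∃ e : AdjoinRoot q ≃ₐ[M] f.range, ∀ z, (e z : E) = f z :=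
    ⟨AlgEquiv.ofInjective f hinj, fun _ => rfl⟩
  have hsym : ∀ (z : AdjoinRoot q) (hz : f z ∈ f.range), e.symm ⟨f z, hz⟩ = z := by
    intro z hz
    rw [AlgEquiv.symm_apply_eq]
    exact Subtype.ext (he' z).symm
  have hsr : s ∈ f.range := ⟨_, hfX⟩
  have hηr : η ∈ f.range := ⟨_, hfr⟩
  refine ⟨f.range, g.comp (e.symm : f.range →ₐ[M] AdjoinRoot q), hsr, hηr, ?_, ?_⟩
  · have h3 : e.symm ⟨s, hsr⟩ = AdjoinRoot.of q X := by
      rw [AlgEquiv.symm_apply_eq]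
      exact Subtype.ext (hfX.symm.trans (he' _).symm)
    change g (e.symm ⟨s, hsr⟩) = x
    rw [h3, hgX]
  · have h3 : e.symm ⟨η, hηr⟩ = AdjoinRoot.root q := by
      rw [AlgEquiv.symm_apply_eq]
      exact Subtype.ext (hfr.symm.trans (he' _).symm)
    change g (e.symm ⟨η, hηr⟩) = y
    rw [h3, hgr]

variable {F : Type} [Field F] {W : WeierstrassCurve F} [W.IsElliptic] {M E Ω : Type} [Field M]
  [CharZero M] [Algebra F M] [Field E] [Algebra M E] [Algebra F E] [IsScalarTower F M E] {s η : E}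
  {σ : E ≃ₐ[M] E} [Field Ω] [Algebra M Ω] [Algebra F Ω] [IsScalarTower F M Ω]

theorem plcW_main [IsAlgClosed Ω] [Algebra.IsAlgebraic M Ω]
    (hpl : ∀ (R : Subalgebra M E) (φ : R →ₐ[M] Ω) (a : R), a ≠ 0 → φ a = 0 →
      ∃ w : Place M E Ω, ∀ r : R, ∃ h : (r : E) ∈ w.V, w.res ⟨r, h⟩ = φ r)
    (h : Qd s η (TW W M) (NW W M) σ) (P : Pt W Ω) :
    ∃ w : Place M E Ω, Pt.Red W w (gp h) P := by
  obtain rfl | ⟨x, y, hxy, rfl⟩ := plr_cases P
  · obtain ⟨S, m, hS, -, hsum, -⟩ := Qd.inf (Ω := Ω) h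
    obtain ⟨w, hw⟩ : S.Nonempty := by
      rw [Finset.nonempty_iff_ne_empty]
      rintro rfl
      rw [Finset.sum_empty] at hsum
      norm_num at hsum
    exact ⟨w, (red_aff_iff w (fw_ns h)).2 (Or.inl ⟨(hS w).1 hw, rfl⟩)⟩
  · have heq := plr_eq_iff.1 hxy.1
    have hxy' : y ^ 2 - aeval x (TW W M) * y + aeval x (NW W M) = 0 := by
      simp only [TW, NW, map_neg, map_add, map_mul, map_pow, aeval_X, aeval_C]
      simp only [← IsScalarTower.algebraMap_apply F M Ω]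
      linear_combination heq
    obtain ⟨R, φ, hs, hη, h1, h2⟩ := plcW_hom s η (TW W M) (NW W M) x y h.eq
      (fun a b hab => fw_indep h hab) hxy'
    obtain ⟨μ, hμ0, hμ⟩ : ∃ μ : M[X], μ ≠ 0 ∧ aeval x μ = 0 := Algebra.IsAlgebraic.isAlgebraic x
    have h3 : ((aeval (⟨s, hs⟩ : R) μ : R) : E) = aeval s μ := by
      rw [← Subalgebra.coe_val, ← aeval_algHom_apply]
      rfl
    obtain ⟨w, hw⟩ := hpl R φ (aeval (⟨s, hs⟩ : R) μ) (by
      intro h4
      rw [h4] at h3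
      have h5 : aeval s μ = 0 := by rw [← h3]; rfl
      exact hμ0 ((transcendental_iff.1 h.tr) μ h5)) (by
      rw [← aeval_algHom_apply, h1, hμ])
    refine ⟨w, (red_aff_iff w (fw_ns h)).2 (Or.inr ⟨x, y, hxy, ?_, ?_, rfl⟩)⟩
    · obtain ⟨h4, h5⟩ := hw ⟨s, hs⟩
      exact ⟨h4, h5.trans h1⟩
    · obtain ⟨h4, h5⟩ := hw ⟨η, hη⟩
      exact ⟨h4, h5.trans h2⟩

end PE
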