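import Pool.Agent.Lib.MP_f80667_ag.Pe.Ff
import Pool.Agent.Lib.MP_f80667_ag.Pe.PlcW
import Pool.Agent.Lib.MP_f80667_ag.Pe.PlcA

/-! Existence of places. -/

open ZC BE Polynomial

namespace PE

/-- Places with given values. Proof: as `exists_above` in `Be/PlX.lean`: the local ring of `R` at the kernel of `φ` is dominated by a valuation
ring `V` of `E` (`IsLocalRing.exists_factor_valuationRing` for `R → E` localized; or apply it to the localization), `V ≠ ⊤` because `a` is not
invertible in it. The residue field of `V` is algebraic (finite) over `M` (a residue transcendental over `M` would be, with `a`, algebraically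
independent in `E`; see `Place.emb`, `Dz`, `Bx` for the residue fields of places of function fields), so it embeds in `Ω` over
the residue field of `R`. -/
theorem exists_plc {M E Ω : Type} [Field M] [CharZero M] [Field E] [Algebra M E] [Field Ω]
    [Algebra M Ω] [IsAlgClosed Ω] (hE : IsFunField M E) (R : Subalgebra M E) (φ : R →ₐ[M] Ω)
    (a : R) (ha : a ≠ 0) (h0 : φ a = 0) :
    ∃ w : Place M E Ω, ∀ r : R, ∃ h : (r : E) ∈ w.V, w.res ⟨r, h⟩ = φ r :=
  exists_plcA hE R φ a ha h0

variable {F : Type} [Field F] {W : WeierstrassCurve F} [W.IsElliptic] {M E Ω : Type} [Field M]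
  [CharZero M] [Algebra F M] [Field E] [Algebra M E] [Algebra F E] [IsScalarTower F M E] {s η : E}
  {σ : E ≃ₐ[M] E} [Field Ω] [Algebra M Ω] [Algebra F Ω] [IsScalarTower F M Ω]

/-- A place as a valuation ring with residue map. -/
def rsP (w : Place M E Ω) : Rs E Ω where
  V := w.V
  res := w.res
  res_zero := w.res_zero

/-- The two definitions of the reduction agree. -/
theorem rsP_red (w : Place M E Ω) {P : Pt W E} {Q : Pt W Ω} :
    Pt.Red W w P Q ↔ (rsP w).Red (W := W.baseChange E) (W' := W.baseChange Ω) P Q := by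
  match P with
  | .zero => exact Iff.rfl
  | .some x y hxy =>
    constructor
    · rintro (h | ⟨hx, hy, h, e⟩)
      · exact Or.inl h
      · exact Or.inr ⟨_, _, h, ⟨hx, rfl⟩, ⟨hy, rfl⟩, e⟩
    · rintro (h | ⟨r, s, h, ⟨hx, rfl⟩, ⟨hy, rfl⟩, e⟩)
      · exact Or.inl h
      · exact Or.inr ⟨hx, hy, h, e⟩

theorem rsP_cv (w : Place M E Ω) : (rsP w).Cv (W.baseChange E) (W.baseChange Ω) := by
  have key : ∀ c : F, (rsP w).Hv (algebraMap F E c) (algebraMap F Ω c) := by
    intro c
    rw [IsScalarTower.algebraMap_apply F M E, IsScalarTower.algebraMap_apply F M Ω]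
    exact ⟨w.mem _, w.res_k _⟩
  exact ⟨key _, key _, key _, key _, key _⟩

/-- The reduction is additive. -/
theorem red_add' (w : Place M E Ω) {P P' : Pt W E} {Q Q' : Pt W Ω} (h : Pt.Red W w P Q)
    (h' : Pt.Red W w P' Q') : Pt.Red W w (P + P') (Q + Q') :=
  (rsP_red w).2 (rs_add (rsP_cv w) ((rsP_red w).1 h) ((rsP_red w).1 h'))

theorem red_nsmul' (w : Place M E Ω) {P : Pt W E} {Q : Pt W Ω} (h : Pt.Red W w P Q) (n : ℕ) :
    Pt.Red W w (n • P) (n • Q) :=
  (rsP_red w).2 (rs_nsmul (rsP_cv w) ((rsP_red w).1 h) n)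

/-- There is a place where the generic point has a given value. Proof: `P = (x, y)`: `exists_plc` for the ring `M[s, η]` (free over `M[s]` with
basis `1`, `η` by `fw_indep`) and the homomorphism `s ↦ x`, `η ↦ y`, `a = ` the minimal polynomial of `x` at `s`. `P = 0`: `Qd.inf`. -/
theorem fw_plc [IsAlgClosed Ω] [Algebra.IsAlgebraic M Ω] (h : Qd s η (TW W M) (NW W M) σ)
    (P : Pt W Ω) : ∃ w : Place M E Ω, Pt.Red W w (gp h) P :=
  plcW_main (fun R φ a ha h0 => exists_plc h.ff R φ a ha h0) h P

end PE
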