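import Pool.Agent.Lib.MP_f80667_ag.Pe.Ke
import Pool.Agent.Lib.MP_f80667_ag.Pe.GlE

/-! Zero-cycles on the surfaces `f(x) s² = g(y) t²` over number fields. -/

open ZC BE Polynomial IntermediateField IsDedekindDomain NumberField

namespace PE

section cl

variable {F : Type} [Field F] {V : Vr F} {K : Type} [Field K] [Algebra F K] {m : ℕ}

theorem dm_cl (h : Dm V K (AlgebraicClosure K) m) (z : Zc V K) : ∃ z' : Zc V K, z.cl = m • z'.cl := by
  obtain ⟨y, hy, hr⟩ := h z.cy z.2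
  let w : Dz V K := ⟨y, hy⟩
  refine ⟨w, ?_⟩
  have h1 : m • Zc.cl (V := V) (K := K) w = Gp.clsH V K (m • w) := (map_nsmul (Gp.clsH V K) m w).symm
  rw [h1]
  exact Gp.cls_eq.2 hr

end cl

section nf

variable {F : Type} [Field F] [NumberField F]

/-- The families. -/
theorem fam_m {V : Vr F} {m : ℕ} (hm : Odd m) (h : ∀ v : HeightOneSpectrum (𝓞 F),
    ∀ z : Zc V (FK F v), ∃ z' : Zc V (FK F v), z.cl = m • z'.cl) (c : Fam V) :
    ∃ c' : Fam V, c.cl = m • c'.cl := by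
  choose g hg using fun v => h v (c.f v)
  refine ⟨(g, c.i), Prod.ext (funext fun v => hg v) (funext fun v => ?_)⟩
  change (c.i v).clN = m • (c.i v).clN
  obtain ⟨k, rfl⟩ := hm
  rw [add_smul, one_smul, mul_smul, smul_comm, clN_two, smul_zero, zero_add]

/-- The completed statement. Proof: `x = 0`, `c = 0`, `c' = 0`; `z` is represented modulo `m` by a class `a = m a'` (`exists_rep`, `clA_surj`), so by `0` (`rep_add`). -/
theorem im_m {V : Vr F} {Λ : Set ℕ} (h : ∀ m : ℕ, m ≠ 0 → Sf Λ m → ∀ c : Fam V,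
    ∃ c' : Fam V, c.cl = m • c'.cl) (z : LHat (FA V)) : ImDeS Λ z := by
  refine ⟨⟨fun _ => 0, fun m m' hm a ha => ?_⟩, fun m hm => ?_⟩
  · have h1 : (QuotientAddGroup.mk (0 : Gp V F) : Gp V F ⧸ mlt (Gp V F) m') =
        QuotientAddGroup.mk a := ha
    rw [QuotientAddGroup.eq] at h1
    obtain ⟨w, hw⟩ := h1
    obtain ⟨k, hk⟩ := hm
    have h2 : (QuotientAddGroup.mk (0 : Gp V F) : Gp V F ⧸ mlt (Gp V F) m) =
        QuotientAddGroup.mk a := by
      rw [QuotientAddGroup.eq]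
      refine ⟨(k : ℕ) • w, ?_⟩
      have h3 : (m' : ℕ) • w = -0 + a := hw
      change (m : ℕ) • ((k : ℕ) • w) = -0 + a
      rw [← h3, ← mul_smul, hk]
      rfl
    exact h2
  · obtain ⟨a, ha⟩ := z.exists_rep m
    obtain ⟨c, rfl⟩ := clA_surj a
    obtain ⟨c', hc'⟩ := h (m : ℕ) m.ne_zero hm c
    have h0 : ∀ (K : Type) [Field K] [Algebra F K], (0 : Dz V K).1 = bc K (0 : Dz V F).1 :=
      fun K _ _ => (Finsupp.mapDomain_zero).symm
    refine ⟨(0 : Dz V F), (0 : AdF V), ⟨fun v => h0 (FK F v), fun v => h0 (IK F v)⟩, ?_, ?_⟩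
    · change (0 : Gp V F ⧸ mlt (Gp V F) m) = QuotientAddGroup.mk (Gp.clsH V F 0)
      rw [map_zero]
      rfl
    · have h1 := rep_add ha (-clA c')
      have h2 : clA c = (m : ℕ) • clA c' := hc'
      have h3 : clA c + (m : ℕ) • (-clA c') = clH V 0 := by
        rw [map_zero, h2, smul_neg, add_neg_cancel]
      rw [h3] at h1
      exact h1

/-! ### Kummer surfaces -/

variable {W W₁ W₂ : WeierstrassCurve F}

/-- The identity is a change of coordinates for the polynomial `4 X ^ 3 + b₂ X ^ 2 + 2 b₄ X + b₆`. -/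
theorem exists_qmK (W : WeierstrassCurve F) : Nonempty (Qm W.Ψ₂Sq W) := by
  refine ⟨⟨1, 0, 0, 1, 1, by simp, one_ne_zero, fun L _ i₁ i₂ i₃ v => ?_⟩⟩
  have hs : i₁ = i₂ := Algebra.algebra_ext _ _ fun x =>
    @IsScalarTower.algebraMap_apply F F L _ _ _ (Algebra.id F) i₂ i₁ i₃ x
  subst hs
  have c0 : W.Ψ₂Sq.coeff 0 = W.b₆ := by
    simp [WeierstrassCurve.Ψ₂Sq]
  have c1 : W.Ψ₂Sq.coeff 1 = 2 * W.b₄ := by
    simp [WeierstrassCurve.Ψ₂Sq, coeff_C]
  have c2 : W.Ψ₂Sq.coeff 2 = W.b₂ := by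
    simp [WeierstrassCurve.Ψ₂Sq]
  have c3 : W.Ψ₂Sq.coeff 3 = 4 := W.coeff_Ψ₂Sq
  have c4 : W.Ψ₂Sq.coeff 4 = 0 :=
    coeff_eq_zero_of_natDegree_lt (W.natDegree_Ψ₂Sq_le.trans_lt (by norm_num))
  unfold qf pf
  rw [Finset.sum_range_succ, Finset.sum_range_succ, Finset.sum_range_succ,
    Finset.sum_range_succ, Finset.sum_range_succ, Finset.sum_range_zero, c0, c1, c2, c3, c4]
  simp only [map_one, map_zero, map_mul, map_ofNat, one_mul, zero_mul, add_zero, zero_add]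
  ring

/-- Proof: `ks_X` for `M = F`, the hypothesis (`glo_cl'` in `Pe/Glo.lean`), `dm_cl`. -/
theorem ku_pl [W₁.IsElliptic] [W₂.IsElliptic] {K : Type} [Field K] [CharZero K] [Algebra F K]
    {m : ℕ} (hm : Odd m) (h : ∀ z : Zc (Xv W₁ W₂) K, Alb z →
      ∃ z' : Zc (Xv W₁ W₂) K, Alb z' ∧ z.cl = m • z'.cl) (z : Zc (Kv W₁.Ψ₂Sq W₂.Ψ₂Sq) K) :
    ∃ z' : Zc (Kv W₁.Ψ₂Sq W₂.Ψ₂Sq) K, z.cl = m • z'.cl := by
  obtain ⟨Q₁⟩ := exists_qmK W₁
  obtain ⟨Q₂⟩ := exists_qmK W₂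
  refine dm_cl (fun z hz => ?_) z
  refine ks_X Q₁ Q₂ hm (fun z hz h₁ h₂ => ?_) hz
  obtain ⟨z', _, h4⟩ := h ⟨z, hz⟩ ⟨h₁, h₂⟩
  refine ⟨z'.cy, z'.2, ?_⟩
  let w : Dz (Xv W₁ W₂) K := z'
  have h5 : m • z'.cl = Gp.clsH (Xv W₁ W₂) K (m • w) := (map_nsmul (Gp.clsH (Xv W₁ W₂) K) m w).symm
  rw [h5] at h4
  exact Gp.cls_eq.1 h4

/-- **Kummer surfaces**, all number fields. -/
theorem main_Ku (W₁ W₂ : WeierstrassCurve F) [W₁.IsElliptic] [W₂.IsElliptic] (Λ : Set ℕ)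
    (h : ∀ l ∈ Λ, Gl W₁ W₂ l) :
    (∀ m : ℕ, m ≠ 0 → Sf Λ m → ∀ c : Fam (Kv W₁.Ψ₂Sq W₂.Ψ₂Sq),
      ∃ c' : Fam (Kv W₁.Ψ₂Sq W₂.Ψ₂Sq), c.cl = m • c'.cl) ∧
    ∀ z : LHat (FA (Kv W₁.Ψ₂Sq W₂.Ψ₂Sq)), ImDeS Λ z := by
  have key : ∀ m : ℕ, m ≠ 0 → Sf Λ m → ∀ c : Fam (Kv W₁.Ψ₂Sq W₂.Ψ₂Sq),
      ∃ c' : Fam (Kv W₁.Ψ₂Sq W₂.Ψ₂Sq), c.cl = m • c'.cl := by
    intro m hm hS
    have h2 : Odd m := by
      rw [← Nat.not_even_iff_odd, even_iff_two_dvd]
      intro h'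
      have h3 := (h 2 (hS 2 Nat.prime_two h')).le
      omega
    refine fam_m h2 fun v => ?_
    have hc : CharZero (FK F v) :=
      charZero_of_injective_algebraMap (algebraMap F (FK F v)).injective
    exact ku_pl h2 (dv_sf v h m hm hS)
  exact ⟨key, im_m key⟩

private theorem kg_swap {v : HeightOneSpectrum (𝓞 F)} (h : DvA (FK F v) W₁ W₂) :
    DvA (FK F v) W₂ W₁ := by
  have hc : CharZero (FK F v) := charZero_of_injective_algebraMap (algebraMap F (FK F v)).injective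
  exact dv_swap h

private theorem kg_fam [W₁.IsElliptic] [W₂.IsElliptic] {m : ℕ} (hm : Odd m)
    (h : ∀ v : HeightOneSpectrum (𝓞 F), DvA (FK F v) W₁ W₂) (c : Fam (Kv W₁.Ψ₂Sq W₂.Ψ₂Sq)) :
    ∃ c' : Fam (Kv W₁.Ψ₂Sq W₂.Ψ₂Sq), c.cl = m • c'.cl := by
  refine fam_m hm (fun v => ?_) c
  have hc : CharZero (FK F v) := charZero_of_injective_algebraMap (algebraMap F (FK F v)).injective
  exact ku_pl hm fun z hz => h v m hm.pos.ne' z hz

/-! ### The general case -/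

variable {f g : F[X]}

/-- The polynomial `f` is good at `v`. -/
structure Gv (v : HeightOneSpectrum (𝓞 F)) (f : F[X]) : Prop where
  co : ∀ i, v.valuation F (f.coeff i) ≤ 1
  lc : v.valuation F f.leadingCoeff = 1
  bz : ∃ a b : F[X], a * f + b * derivative f = 1 ∧ ∀ i, v.valuation F (b.coeff i) ≤ 1

/-- For almost all `v`. Proof: finitely many `v` with `v(x) ≠ 1` for given `x ≠ 0` (see `lv_fin`). -/
theorem gv_fin (hf : Qf f) : {v : HeightOneSpectrum (𝓞 F) | ¬ Gv v f}.Finite := by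
  obtain ⟨a, b, hab⟩ := hf.sep
  have hI : ∀ p : F[X], {v : HeightOneSpectrum (𝓞 F) |
      ∃ i, ¬ v.valuation F (p.coeff i) ≤ 1}.Finite := by
    intro p
    refine (Set.Finite.biUnion p.support.finite_toSet fun i _ => gln_le (p.coeff i)).subset ?_
    rintro v ⟨i, hi⟩
    refine Set.mem_biUnion (x := i) ?_ hi
    rw [Finset.mem_coe, mem_support_iff]
    intro h0
    exact hi (by rw [h0, map_zero]; exact zero_le)
  have h0 : f.leadingCoeff ≠ 0 := by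
    rw [leadingCoeff_ne_zero]
    rintro rfl
    rcases hf.deg with h | h <;> simp at h
  refine (((hI f).union (hI b)).union (gln_one h0)).subset fun v hv => ?_
  by_contra hc
  simp only [Set.mem_union, not_or] at hc
  obtain ⟨⟨h1, h2⟩, h3⟩ := hc
  refine hv ⟨fun i => ?_, ?_, a, b, hab, fun i => ?_⟩
  · by_contra h
    exact h1 ⟨i, h⟩
  · by_contra h
    exact h3 h
  · by_contra h
    exact h2 ⟨i, h⟩

/-- Proof: `lv_fin` for any elliptic curve; `v(2) = 1`. -/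
theorem unr_fin : {v : HeightOneSpectrum (𝓞 F) | ¬ ((∃ p : ℕ, p.Prime ∧
    v.valuation F (p : F) = WithZero.exp (-1 : ℤ)) ∧ v.valuation F 2 = 1)}.Finite := by
  refine (gln_unr.union (gln_one (two_ne_zero (α := F)))).subset fun v hv => ?_
  by_contra hc
  simp only [Set.mem_union, not_or] at hc
  refine hv ⟨?_, ?_⟩
  · by_contra h
    exact hc.1 h
  · by_contra h
    exact hc.2 h

private theorem kg_le {v : HeightOneSpectrum (𝓞 F)} {L : Ld (FK F v) (AlgebraicClosure (FK F v))}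
    (hL : ∀ (x : F) (n : ℤ), v.valuation F x = WithZero.exp (-n) →
      L.nm (algebraMap F _ x) = L.nm (L.p : AlgebraicClosure (FK F v)) ^ n) {x : F}
    (hx : v.valuation F x ≤ 1) : L.nm (algebraMap F _ x) ≤ 1 := by
  by_cases h0 : x = 0
  · rw [h0, map_zero, L.zero]
    exact zero_le_one
  · have h1 : v.valuation F x ≠ 0 := (Valuation.ne_zero_iff _).2 h0
    obtain ⟨n, hn⟩ : ∃ n : ℤ, v.valuation F x = WithZero.exp (-n) :=
      ⟨-(WithZero.log (v.valuation F x)), by rw [neg_neg, WithZero.exp_log h1]⟩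
    rw [hL x n hn]
    have h2 : 0 ≤ n := by
      rw [hn, ← WithZero.exp_zero, WithZero.exp_le_exp] at hx
      omega
    obtain ⟨m, rfl⟩ := Int.eq_ofNat_of_zero_le h2
    rw [zpow_natCast]
    exact pow_le_one₀ L.p_pos.le L.lt.le

/-- The good places. Proof: `exists_ld`, `dk_good`; the norm of an element of `F` is the power of the norm of `p`: `Gq` (see `dv_fin` in `Pe/Glo.lean`), `L.p ≠ 2`. -/
theorem dk_v {v : HeightOneSpectrum (𝓞 F)} (hf : Qf f) (hg : Qf g) (hf' : Gv v f) (hg' : Gv v g)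
    (hp : ∃ p : ℕ, p.Prime ∧ v.valuation F (p : F) = WithZero.exp (-1 : ℤ))
    (h2 : v.valuation F 2 = 1) {m : ℕ} (hm : m ≠ 0) (h5 : Lg 4 m) :
    Dm (Kv f g) (FK F v) (AlgebraicClosure (FK F v)) m := by
  obtain ⟨p, hp, hpv⟩ := hp
  obtain ⟨L, hLu, hLp, hL⟩ := exists_ld F v p hp hpv
  have hc : CharZero (FK F v) := charZero_of_injective_algebraMap (algebraMap F (FK F v)).injective
  have hone : ∀ x : F, v.valuation F x = 1 → L.nm (algebraMap F _ x) = 1 := by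
    intro x hx
    have h0 : v.valuation F x = WithZero.exp (-0 : ℤ) := by
      rw [hx, neg_zero, WithZero.exp_zero]
    rw [hL x 0 h0, zpow_zero]
  have hL2 : L.p ≠ 2 := by
    intro h0
    rw [← hLp, h0, Nat.cast_ofNat, h2, ← WithZero.exp_zero] at hpv
    have := WithZero.exp_injective hpv
    omega
  exact dk_good L hL2 hf hg
    { co := fun i => kg_le hL (hf'.co i)
      lc := hone _ hf'.lc
      bz := by
        obtain ⟨a, b, h1, h3⟩ := hf'.bz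
        exact ⟨a, b, h1, fun i => kg_le hL (h3 i)⟩ }
    { co := fun i => kg_le hL (hg'.co i)
      lc := hone _ hg'.lc
      bz := by
        obtain ⟨a, b, h1, h3⟩ := hg'.bz
        exact ⟨a, b, h1, fun i => kg_le hL (h3 i)⟩ } hm h5

/-- **Theorem.** -/
theorem main_Kq (hf : Qf f) (hg : Qf g) : ∃ n₀ : ℕ,
    (∀ m : ℕ, m ≠ 0 → Sf {l | n₀ < l} m → ∀ c : Fam (Kv f g),
      ∃ c' : Fam (Kv f g), c.cl = m • c'.cl) ∧
    ∀ z : LHat (FA (Kv f g)), ImDeS {l | n₀ < l} z := by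
  classical
  have h1 : ∀ v : HeightOneSpectrum (𝓞 F), ∃ n₀ : ℕ, ∀ m : ℕ, m ≠ 0 → Lg n₀ m →
      Dm (Kv f g) (FK F v) (AlgebraicClosure (FK F v)) m := by
    intro v
    have hc : CharZero (FK F v) :=
      charZero_of_injective_algebraMap (algebraMap F (FK F v)).injective
    obtain ⟨L, c, hc0, hc1, hL⟩ := exists_ldg F v
    exact dk_pot L hf hg
  choose N hN using h1
  let B : Set (HeightOneSpectrum (𝓞 F)) := {v | ¬ Gv v f} ∪ {v | ¬ Gv v g} ∪
    {v | ¬ ((∃ p : ℕ, p.Prime ∧ v.valuation F (p : F) = WithZero.exp (-1 : ℤ)) ∧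
      v.valuation F 2 = 1)}
  have hB : B.Finite := ((gv_fin hf).union (gv_fin hg)).union unr_fin
  obtain ⟨n₁, hn₁⟩ : ∃ n₁ : ℕ, ∀ v ∈ B, N v ≤ n₁ := by
    obtain ⟨n₁, h⟩ := (hB.image N).bddAbove
    exact ⟨n₁, fun v hv => h ⟨v, hv, rfl⟩⟩
  have key : ∀ m : ℕ, m ≠ 0 → Sf {l | max n₁ 4 < l} m → ∀ c : Fam (Kv f g),
      ∃ c' : Fam (Kv f g), c.cl = m • c'.cl := by
    intro m hm hS
    have hL : Lg (max n₁ 4) m := fun l hl hd => hS l hl hd
    have h2 : Odd m := by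
      rw [← Nat.not_even_iff_odd, even_iff_two_dvd]
      intro h
      have h3 := hL 2 Nat.prime_two h
      have h4 := le_max_right n₁ 4
      omega
    refine fam_m h2 fun v => dm_cl ?_
    by_cases hv : v ∈ B
    · exact hN v m hm fun l hl hd => (hn₁ v hv).trans_lt ((le_max_left _ _).trans_lt (hL l hl hd))
    · have h5 : Gv v f := by
        by_contra h
        exact hv (Or.inl (Or.inl h))
      have h6 : Gv v g := by
        by_contra h
        exact hv (Or.inl (Or.inr h))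
      have h7 : (∃ p : ℕ, p.Prime ∧ v.valuation F (p : F) = WithZero.exp (-1 : ℤ)) ∧
          v.valuation F 2 = 1 := by
        by_contra h
        exact hv (Or.inr h)
      exact dk_v hf hg h5 h6 h7.1 h7.2 hm fun l hl hd => (le_max_right n₁ 4).trans_lt (hL l hl hd)
  exact ⟨_, key, im_m key⟩

end nf

private theorem kg_ell {A : WeierstrassCurve ℤ} (h : A.Δ ≠ 0) : (toQ A).IsElliptic := by
  have h1 : (toQ A).Δ = (A.Δ : ℚ) := by
    unfold toQ
    rw [WeierstrassCurve.baseChange, WeierstrassCurve.map_Δ]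
    rfl
  rw [WeierstrassCurve.isElliptic_iff, h1]
  exact (Int.cast_ne_zero.2 h).isUnit

/-- **Kummer surfaces over `ℚ`.** -/
theorem main_Kz {A B : WeierstrassCurve ℤ} (h : Ok A B) :
    (∀ m : ℕ, Odd m → ∀ c : Fam (Kv (toQ A).Ψ₂Sq (toQ B).Ψ₂Sq),
      ∃ c' : Fam (Kv (toQ A).Ψ₂Sq (toQ B).Ψ₂Sq), c.cl = m • c'.cl) ∧
    ∀ z : LHat (FA (Kv (toQ A).Ψ₂Sq (toQ B).Ψ₂Sq)), ImDeS {l | l ≠ 2} z := by
  have hne := h.sf.ne_zero
  have hA : (toQ A).IsElliptic := kg_ell (left_ne_zero_of_mul hne)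
  have hB : (toQ B).IsElliptic := kg_ell (right_ne_zero_of_mul hne)
  have key : ∀ m : ℕ, Odd m → ∀ c : Fam (Kv (toQ A).Ψ₂Sq (toQ B).Ψ₂Sq),
      ∃ c' : Fam (Kv (toQ A).Ψ₂Sq (toQ B).Ψ₂Sq), c.cl = m • c'.cl := by
    intro m hm
    exact kg_fam hm fun v => (ok_lv h v).elim dv_fin fun h1 => kg_swap (dv_fin h1)
  refine ⟨key, im_m fun m _ hS => key m ?_⟩
  rw [← Nat.not_even_iff_odd, even_iff_two_dvd]
  intro h'
  exact hS 2 Nat.prime_two h' rfl

end PE
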