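import Pool.Agent.Lib.MP_f80667_ag.Pe.Kd
import Pool.Agent.Lib.MP_f80667_ag.Pe.SiB

/-! The values of the points of the surface `f(x) s² = g(y) t²` at places. -/

open ZC BE Polynomial

namespace PE

section val

variable {K L Ω : Type} [Field K] [Field L] [Field Ω] [Algebra K L] [Algebra K Ω]

theorem rd_iff (w : Place K L Ω) (v : L × L) (u : Ω × Ω) : Rd w v u ↔ Hv w v.1 u.1 ∧ Hv w v.2 u.2 :=
  ⟨fun ⟨h₁, h₂, e₁, e₂⟩ => ⟨⟨h₁, e₁⟩, ⟨h₂, e₂⟩⟩, fun ⟨⟨h₁, e₁⟩, ⟨h₂, e₂⟩⟩ => ⟨h₁, h₂, e₁, e₂⟩⟩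

theorem Rd.mul {w : Place K L Ω} {v : L × L} {u : Ω × Ω} (h : Rd w v u) {a : L} {r : Ω}
    (ha : Hv w a r) : Rd w (a * v.1, a * v.2) (r * u.1, r * u.2) := by
  rw [rd_iff] at h ⊢
  exact ⟨ha.mul h.1, ha.mul h.2⟩

theorem Rd.uniq {w : Place K L Ω} {v : L × L} {u u' : Ω × Ω} (h : Rd w v u) (h' : Rd w v u') :
    u = u' := by
  rw [rd_iff] at h h'
  exact Prod.ext (h.1.uniq h'.1) (h.2.uniq h'.2)

/-- Divide by the coordinate of largest value. -/
theorem rd_prim (w : Place K L Ω) {v : L × L} (hv : v ≠ 0) : ∃ (a : L) (u : Ω × Ω), a ≠ 0 ∧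
    u ≠ 0 ∧ Rd w (a * v.1, a * v.2) u := by
  by_cases h2 : v.2 = 0
  · have h1 : v.1 ≠ 0 := fun h1 => hv (Prod.ext h1 h2)
    refine ⟨v.1⁻¹, (1, 0), inv_ne_zero h1, fun h => one_ne_zero (congrArg Prod.fst h), ?_⟩
    rw [rd_iff, h2, mul_zero, inv_mul_cancel₀ h1]
    exact ⟨Hv.one, Hv.zero⟩
  · by_cases h3 : v.2⁻¹ * v.1 ∈ w.V
    · refine ⟨v.2⁻¹, (w.res ⟨_, h3⟩, 1), inv_ne_zero h2,
        fun h => one_ne_zero (congrArg Prod.snd h), ?_⟩
      rw [rd_iff, inv_mul_cancel₀ h2]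
      exact ⟨Hv.of_mem h3, Hv.one⟩
    · have h1 : v.1 ≠ 0 := by
        intro h1
        apply h3
        rw [h1, mul_zero]
        exact zero_mem _
      refine ⟨v.1⁻¹, (1, 0), inv_ne_zero h1, fun h => one_ne_zero (congrArg Prod.fst h), ?_⟩
      rw [rd_iff, inv_mul_cancel₀ h1]
      have h4 := Hv.of_not_mem h3
      rw [mul_inv, inv_inv, mul_comm] at h4
      exact ⟨Hv.one, h4⟩

/-- A factor between two primitive pairs is a unit. Proof: otherwise `a` or `a⁻¹` is in the maximal ideal. -/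
theorem rd_unit (w : Place K L Ω) {v : L × L} {u u' : Ω × Ω} {a : L} (ha : a ≠ 0) (hu : u ≠ 0)
    (hu' : u' ≠ 0) (h : Rd w v u) (h' : Rd w (a * v.1, a * v.2) u') : ∃ r : Ω, r ≠ 0 ∧ Hv w a r := by
  rw [rd_iff] at h h'
  have key : ∀ r : Ω, Hv w a r → ∃ r : Ω, r ≠ 0 ∧ Hv w a r := by
    intro r hr
    refine ⟨r, ?_, hr⟩
    rintro rfl
    have e1 := (hr.mul h.1).uniq h'.1
    have e2 := (hr.mul h.2).uniq h'.2
    rw [zero_mul] at e1 e2
    exact hu' (Prod.ext e1.symm e2.symm)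
  by_cases h1 : u.1 = 0
  · have h2 : u.2 ≠ 0 := fun h2 => hu (Prod.ext h1 h2)
    have h3 := h'.2.div h.2 h2
    rw [mul_div_cancel_right₀ _ (h.2.ne h2)] at h3
    exact key _ h3
  · have h3 := h'.1.div h.1 h1
    rw [mul_div_cancel_right₀ _ (h.1.ne h1)] at h3
    exact key _ h3

variable {F : Type} [Field F] {f g : F[X]} [Algebra F K] [Algebra F L] [Algebra F Ω]
  [IsScalarTower F K L] [IsScalarTower F K Ω]

theorem rd_qf (w : Place K L Ω) (f : F[X]) {v : L × L} {u : Ω × Ω} (h : Rd w v u) :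
    Hv w (qf f v) (qf f u) := by
  rw [rd_iff] at h
  unfold qf
  have key : ∀ s : Finset ℕ,
      Hv w (∑ i ∈ s, algebraMap F L (f.coeff i) * v.1 ^ i * v.2 ^ (4 - i))
        (∑ i ∈ s, algebraMap F Ω (f.coeff i) * u.1 ^ i * u.2 ^ (4 - i)) := by
    intro s
    induction s using Finset.induction_on with
    | empty =>
      rw [Finset.sum_empty, Finset.sum_empty]
      exact Hv.zero
    | insert i s hi ih =>
      rw [Finset.sum_insert hi, Finset.sum_insert hi]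
      exact (((plr_hv w _).mul (h.1.pow i)).mul (h.2.pow (4 - i))).add ih
  exact key _

/-- Every point has a value. Proof: `rd_prim` for `x`, `y`, and for `(b ^ 2 t₀, a ^ 2 t₁)`; the equation by `rd_qf`. -/
theorem kc_val (w : Place K L Ω) (P : Kc f g L) : ∃ (P' : Kc f g L) (Q : Kc f g Ω), P.Rel P' ∧
    Rd w P'.x Q.x ∧ Rd w P'.y Q.y ∧ Rd w P'.t Q.t := by
  obtain ⟨a, u, ha, hu, h1⟩ := rd_prim w P.hx
  obtain ⟨b, v, hb, hv, h2⟩ := rd_prim w P.hy
  obtain ⟨c, s, hc, hs, h3⟩ := rd_prim w (v := (b ^ 2 * P.t.1, a ^ 2 * P.t.2)) fun h0 => P.ht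
    (Prod.ext ((mul_eq_zero.1 (congrArg Prod.fst h0)).resolve_left (pow_ne_zero 2 hb))
      ((mul_eq_zero.1 (congrArg Prod.snd h0)).resolve_left (pow_ne_zero 2 ha)))
  have hne : ∀ (v : L × L) (a : L), v ≠ 0 → a ≠ 0 → ((a * v.1, a * v.2) : L × L) ≠ 0 := by
    intro v a hv ha h0
    exact hv (Prod.ext ((mul_eq_zero.1 (congrArg Prod.fst h0)).resolve_left ha)
      ((mul_eq_zero.1 (congrArg Prod.snd h0)).resolve_left ha))
  have h3' : Rd w (c * b ^ 2 * P.t.1, c * a ^ 2 * P.t.2) s := by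
    rw [mul_assoc, mul_assoc]
    exact h3
  have ht : ((c * b ^ 2 * P.t.1, c * a ^ 2 * P.t.2) : L × L) ≠ 0 := fun h0 => P.ht
    (Prod.ext ((mul_eq_zero.1 (congrArg Prod.fst h0)).resolve_left
      (mul_ne_zero hc (pow_ne_zero 2 hb)))
      ((mul_eq_zero.1 (congrArg Prod.snd h0)).resolve_left (mul_ne_zero hc (pow_ne_zero 2 ha))))
  have heq : qf f (a * P.x.1, a * P.x.2) * (c * b ^ 2 * P.t.1) ^ 2 =
      qf g (b * P.y.1, b * P.y.2) * (c * a ^ 2 * P.t.2) ^ 2 := by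
    rw [qf_mul, qf_mul]
    linear_combination (a ^ 4 * b ^ 4 * c ^ 2) * P.eq
  refine ⟨⟨(a * P.x.1, a * P.x.2), (b * P.y.1, b * P.y.2),
    (c * b ^ 2 * P.t.1, c * a ^ 2 * P.t.2), hne _ _ P.hx ha, hne _ _ P.hy hb, ht, heq⟩,
    ⟨u, v, s, hu, hv, hs, ?_⟩, ⟨a, b, c, ha, hb, hc, rfl, rfl, rfl⟩, h1, h2, h3'⟩
  have h4 := (rd_iff _ _ _).1 h3'
  have h5 := (rd_qf w f h1).mul (h4.1.pow 2)
  have h6 := (rd_qf w g h2).mul (h4.2.pow 2)
  rw [heq] at h5
  exact h5.uniq h6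

omit [Algebra F K] [IsScalarTower F K L] [IsScalarTower F K Ω] in
/-- The value is unique. Proof: `rd_unit` for `a`, `b` and then for `c` (with the pair `(b ^ 2 t₀, a ^ 2 t₁)`). -/
theorem kc_uniq (w : Place K L Ω) {P P' : Kc f g L} {Q Q' : Kc f g Ω} (h : P.Rel P')
    (h1 : Rd w P.x Q.x) (h2 : Rd w P.y Q.y) (h3 : Rd w P.t Q.t) (h1' : Rd w P'.x Q'.x)
    (h2' : Rd w P'.y Q'.y) (h3' : Rd w P'.t Q'.t) : Q.Rel Q' := by
  obtain ⟨a, b, c, ha, hb, hc, e1, e2, e3⟩ := h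
  rw [e1] at h1'
  rw [e2] at h2'
  rw [e3] at h3'
  obtain ⟨r, hr, hra⟩ := rd_unit w ha Q.hx Q'.hx h1 h1'
  obtain ⟨s, hs, hsb⟩ := rd_unit w hb Q.hy Q'.hy h2 h2'
  rw [rd_iff] at h3
  have h4 : Rd w (b ^ 2 * P.t.1, a ^ 2 * P.t.2) (s ^ 2 * Q.t.1, r ^ 2 * Q.t.2) :=
    (rd_iff _ _ _).2 ⟨(hsb.pow 2).mul h3.1, (hra.pow 2).mul h3.2⟩
  have hne : ((s ^ 2 * Q.t.1, r ^ 2 * Q.t.2) : Ω × Ω) ≠ 0 := fun h0 => Q.ht
    (Prod.ext ((mul_eq_zero.1 (congrArg Prod.fst h0)).resolve_left (pow_ne_zero 2 hs))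
      ((mul_eq_zero.1 (congrArg Prod.snd h0)).resolve_left (pow_ne_zero 2 hr)))
  have h5 : Rd w (c * (b ^ 2 * P.t.1), c * (a ^ 2 * P.t.2)) Q'.t := by
    rw [← mul_assoc, ← mul_assoc]
    exact h3'
  obtain ⟨q, hq, hqc⟩ := rd_unit w hc hne Q'.ht h4 h5
  refine ⟨r, s, q, hr, hs, hq, h1'.uniq (h1.mul hra), h2'.uniq (h2.mul hsb), ?_⟩
  rw [mul_assoc, mul_assoc]
  exact h5.uniq (h4.mul hqc)

theorem kred_ex (w : Place K L Ω) (x : (Kv f g).pt L) : ∃ y, (Kv f g).red w x y := by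
  induction x using Quotient.inductionOn with
  | h P =>
    obtain ⟨P', Q, h, h1, h2, h3⟩ := kc_val w P
    exact ⟨Quotient.mk _ Q, P', Q, Quotient.sound h, rfl, h1, h2, h3⟩

omit [Algebra F K] [IsScalarTower F K L] [IsScalarTower F K Ω] in
theorem kred_uniq (w : Place K L Ω) {x : (Kv f g).pt L} {y y' : (Kv f g).pt Ω}
    (h : (Kv f g).red w x y) (h' : (Kv f g).red w x y') : y = y' := by
  obtain ⟨P, Q, rfl, rfl, h1, h2, h3⟩ := h
  obtain ⟨P', Q', e, rfl, h1', h2', h3'⟩ := h'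
  exact Quotient.sound (kc_uniq w (Quotient.exact e) h1 h2 h3 h1' h2' h3')

end val

section up

variable {F : Type} [Field F] {f g : F[X]} {K E Ω : Type} [Field K] [Field E] [Field Ω]
  [Algebra K E] [Algebra K Ω] [Algebra F E] [Algebra F Ω]

/-- The value does not change at a place above. -/
theorem kred_up {w : Place K E Ω} {W : Place K (AlgebraicClosure E) Ω} (hW : Above w W)
    {x : (Kv f g).pt E} {y : (Kv f g).pt Ω} (h : (Kv f g).red w x y) :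
    (Kv f g).red W ((Kv f g).map (IsScalarTower.toAlgHom F E (AlgebraicClosure E)) x) y := by
  obtain ⟨P, Q, rfl, rfl, h1, h2, h3⟩ := h
  have key : ∀ {v : E × E} {u : Ω × Ω}, Rd w v u →
      Rd W (algebraMap E (AlgebraicClosure E) v.1, algebraMap E (AlgebraicClosure E) v.2) u := by
    rintro v u ⟨a₁, a₂, e₁, e₂⟩
    exact ⟨(hW.1 _).2 a₁, (hW.1 _).2 a₂, (hW.2 _ a₁ _).trans e₁, (hW.2 _ a₂ _).trans e₂⟩
  exact ⟨P.mp (IsScalarTower.toAlgHom F E (AlgebraicClosure E)), Q, rfl, rfl, key h1, key h2,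
    key h3⟩

/-- The composite of a place and an automorphism. -/
theorem kred_act {w w' : Place K E Ω} {σ : Ω ≃ₐ[F] Ω} (hV : w'.V = w.V)
    (hr : ∀ (a : E) (h : a ∈ w.V) (h' : a ∈ w'.V), w'.res ⟨a, h'⟩ = σ (w.res ⟨a, h⟩))
    {x : (Kv f g).pt E} {y : (Kv f g).pt Ω} (h : (Kv f g).red w x y) :
    (Kv f g).red w' x ((Kv f g).map (σ : Ω →ₐ[F] Ω) y) := by
  obtain ⟨P, Q, rfl, rfl, h1, h2, h3⟩ := h
  have key : ∀ {v : E × E} {u : Ω × Ω}, Rd w v u → Rd w' v (σ u.1, σ u.2) := by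
    rintro v u ⟨a₁, a₂, e₁, e₂⟩
    have b₁ : v.1 ∈ w'.V := by rw [hV]; exact a₁
    have b₂ : v.2 ∈ w'.V := by rw [hV]; exact a₂
    exact ⟨b₁, b₂, (hr _ a₁ b₁).trans (congrArg σ e₁), (hr _ a₂ b₂).trans (congrArg σ e₂)⟩
  exact ⟨P, Q.mp (σ : Ω →ₐ[F] Ω), rfl, rfl, key h1, key h2, key h3⟩

end up

section desc

variable {F : Type} [Field F] {f g : F[X]} {K Ω : Type} [Field K] [CharZero K] [Field Ω]
  [Algebra F K] [Algebra K Ω] [Algebra F Ω] [IsScalarTower F K Ω] [IsAlgClosure K Ω]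

/-- An invariant pair up to factors is a multiple of an invariant one: divide by the last coordinate which is not `0`. -/
theorem exists_inv {v : Ω × Ω} (hv : v ≠ 0) (h : ∀ σ : Ω ≃ₐ[K] Ω, ∃ a : Ω,
      (σ v.1, σ v.2) = (a * v.1, a * v.2)) :
    ∃ (a : Ω) (u : K × K), a ≠ 0 ∧ (algebraMap K Ω u.1, algebraMap K Ω u.2) = (a * v.1, a * v.2) := by
  by_cases h2 : v.2 = 0
  · have h1 : v.1 ≠ 0 := fun h1 => hv (Prod.ext h1 h2)
    refine ⟨v.1⁻¹, (1, 0), inv_ne_zero h1, ?_⟩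
    rw [h2, mul_zero, inv_mul_cancel₀ h1, map_one, map_zero]
  · obtain ⟨r, hr⟩ := (InfiniteGalois.mem_range_algebraMap_iff_fixed (k := K) (v.2⁻¹ * v.1)).2
      fun γ => by
        obtain ⟨a, ha⟩ := h γ
        have e1 : γ v.1 = a * v.1 := congrArg Prod.fst ha
        have e2 : γ v.2 = a * v.2 := congrArg Prod.snd ha
        have ha0 : a ≠ 0 := by
          rintro rfl
          rw [zero_mul] at e2
          exact h2 ((map_eq_zero γ).1 e2)
        rw [map_mul, map_inv₀, e1, e2]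
        field_simp
    refine ⟨v.2⁻¹, (r, 1), inv_ne_zero h2, ?_⟩
    rw [hr, inv_mul_cancel₀ h2, map_one]

/-- Invariant points have coordinates in `K`. Proof: `exists_inv` for `x`, `y`; after scaling `x`, `y` are in `K`, so `a = b = 1` for all `σ`; `exists_inv` for `t`. -/
theorem exists_kdesc {x : (Kv f g).pt Ω} (hx : ∀ σ : Ω ≃ₐ[K] Ω, (Kv f g).act σ x = x) :
    ∃ P : (Kv f g).pt K, x = (Kv f g).map (IsScalarTower.toAlgHom F K Ω) P := by
  induction x using Quotient.inductionOn with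
  | h P =>
    have hr : ∀ σ : Ω ≃ₐ[K] Ω, ∃ a b c : Ω, a ≠ 0 ∧ b ≠ 0 ∧ c ≠ 0 ∧
        (σ P.x.1, σ P.x.2) = (a * P.x.1, a * P.x.2) ∧
        (σ P.y.1, σ P.y.2) = (b * P.y.1, b * P.y.2) ∧
        (σ P.t.1, σ P.t.2) = (c * b ^ 2 * P.t.1, c * a ^ 2 * P.t.2) := by
      intro σ
      exact Kc.rel_symm (Quotient.exact (hx σ))
    obtain ⟨α, u, hα, hu⟩ := exists_inv (K := K) P.hx fun σ => by
      obtain ⟨a, b, c, ha, hb, hc, h1, h2, h3⟩ := hr σ
      exact ⟨a, h1⟩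
    obtain ⟨β, v, hβ, hv⟩ := exists_inv (K := K) P.hy fun σ => by
      obtain ⟨a, b, c, ha, hb, hc, h1, h2, h3⟩ := hr σ
      exact ⟨b, h2⟩
    have hu1 : algebraMap K Ω u.1 = α * P.x.1 := congrArg Prod.fst hu
    have hu2 : algebraMap K Ω u.2 = α * P.x.2 := congrArg Prod.snd hu
    have hv1 : algebraMap K Ω v.1 = β * P.y.1 := congrArg Prod.fst hv
    have hv2 : algebraMap K Ω v.2 = β * P.y.2 := congrArg Prod.snd hv
    have key : ∀ (σ : Ω ≃ₐ[K] Ω) (α a : Ω) (w : Ω × Ω) (r : K × K), w ≠ 0 → a ≠ 0 →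
        algebraMap K Ω r.1 = α * w.1 → algebraMap K Ω r.2 = α * w.2 →
        (σ w.1, σ w.2) = (a * w.1, a * w.2) → σ α * a = α := by
      intro σ α a w r hw ha h1 h2 h3
      have e1 : σ w.1 = a * w.1 := congrArg Prod.fst h3
      have e2 : σ w.2 = a * w.2 := congrArg Prod.snd h3
      by_cases hw2 : w.2 = 0
      · have hw1 : w.1 ≠ 0 := fun hw1 => hw (Prod.ext hw1 hw2)
        have h4 := congrArg σ h1
        rw [AlgEquiv.commutes, map_mul, e1, h1] at h4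
        apply mul_right_cancel₀ hw1
        rw [mul_assoc, ← h4]
      · have h4 := congrArg σ h2
        rw [AlgEquiv.commutes, map_mul, e2, h2] at h4
        apply mul_right_cancel₀ hw2
        rw [mul_assoc, ← h4]
    obtain ⟨γ, w, hγ, hw⟩ := exists_inv (K := K) (v := (β ^ 2 * P.t.1, α ^ 2 * P.t.2))
      (fun h0 => P.ht (Prod.ext
        ((mul_eq_zero.1 (congrArg Prod.fst h0)).resolve_left (pow_ne_zero 2 hβ))
        ((mul_eq_zero.1 (congrArg Prod.snd h0)).resolve_left (pow_ne_zero 2 hα)))) fun σ => by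
      obtain ⟨a, b, c, ha, hb, hc, h1, h2, h3⟩ := hr σ
      have ea : σ α * a = α := key σ α a P.x u P.hx ha hu1 hu2 h1
      have eb : σ β * b = β := key σ β b P.y v P.hy hb hv1 hv2 h2
      have e1 : σ P.t.1 = c * b ^ 2 * P.t.1 := congrArg Prod.fst h3
      have e2 : σ P.t.2 = c * a ^ 2 * P.t.2 := congrArg Prod.snd h3
      refine ⟨c, Prod.ext ?_ ?_⟩
      · change σ (β ^ 2 * P.t.1) = c * (β ^ 2 * P.t.1)
        rw [map_mul, map_pow, e1]
        calc σ β ^ 2 * (c * b ^ 2 * P.t.1) = c * ((σ β * b) ^ 2 * P.t.1) := by ring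
          _ = c * (β ^ 2 * P.t.1) := by rw [eb]
      · change σ (α ^ 2 * P.t.2) = c * (α ^ 2 * P.t.2)
        rw [map_mul, map_pow, e2]
        calc σ α ^ 2 * (c * a ^ 2 * P.t.2) = c * ((σ α * a) ^ 2 * P.t.2) := by ring
          _ = c * (α ^ 2 * P.t.2) := by rw [ea]
    have hw1 : algebraMap K Ω w.1 = γ * (β ^ 2 * P.t.1) := congrArg Prod.fst hw
    have hw2 : algebraMap K Ω w.2 = γ * (α ^ 2 * P.t.2) := congrArg Prod.snd hw
    have hinj : Function.Injective (algebraMap K Ω) := (algebraMap K Ω).injective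
    have hne : ∀ (v : Ω × Ω) (a : Ω) (r : K × K), v ≠ 0 → a ≠ 0 →
        (algebraMap K Ω r.1, algebraMap K Ω r.2) = (a * v.1, a * v.2) → r ≠ 0 := by
      rintro v a r hv ha h rfl
      apply hv
      have h1 := congrArg Prod.fst h
      have h2 := congrArg Prod.snd h
      simp only [Prod.fst_zero, Prod.snd_zero, map_zero] at h1 h2
      exact Prod.ext ((mul_eq_zero.1 h1.symm).resolve_left ha)
        ((mul_eq_zero.1 h2.symm).resolve_left ha)
    have hwne : w ≠ 0 := hne _ γ w (fun h0 => P.ht (Prod.ext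
        ((mul_eq_zero.1 (congrArg Prod.fst h0)).resolve_left (pow_ne_zero 2 hβ))
        ((mul_eq_zero.1 (congrArg Prod.snd h0)).resolve_left (pow_ne_zero 2 hα)))) hγ hw
    have hf : algebraMap K Ω (qf f u) = α ^ 4 * qf f P.x := by
      rw [← qf_mul, ← hu]
      exact (qf_map f (IsScalarTower.toAlgHom F K Ω) u).symm
    have hg : algebraMap K Ω (qf g v) = β ^ 4 * qf g P.y := by
      rw [← qf_mul, ← hv]
      exact (qf_map g (IsScalarTower.toAlgHom F K Ω) v).symm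
    have heq : qf f u * w.1 ^ 2 = qf g v * w.2 ^ 2 := by
      apply hinj
      rw [map_mul, map_mul, map_pow, map_pow, hf, hg, hw1, hw2]
      linear_combination (γ ^ 2 * α ^ 4 * β ^ 4) * P.eq
    refine ⟨Quotient.mk _ (⟨u, v, w, hne _ α u P.hx hα hu, hne _ β v P.hy hβ hv, hwne, heq⟩ :
      Kc f g K), ?_⟩
    refine Quotient.sound ⟨α, β, γ, hα, hβ, hγ, hu, hv, ?_⟩
    change (algebraMap K Ω w.1, algebraMap K Ω w.2) = (γ * β ^ 2 * P.t.1, γ * α ^ 2 * P.t.2)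
    rw [hw1, hw2, mul_assoc, mul_assoc]

/-- The stabiliser of a point is open. Proof: the coordinates of a representative generate a finite extension. -/
theorem kv_stab (x : (Kv f g).pt Ω) : opn K Ω (MulAction.stabilizer (Ω ≃ₐ[K] Ω) x) := by
  induction x using Quotient.inductionOn with
  | h P =>
    have halg : Algebra.IsAlgebraic K Ω := IsAlgClosure.isAlgebraic
    have hfin : Finite ({P.x.1, P.x.2, P.y.1, P.y.2, P.t.1, P.t.2} : Set Ω) := by
      exact Set.Finite.to_subtype (by simp)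
    refine ⟨IntermediateField.adjoin K {P.x.1, P.x.2, P.y.1, P.y.2, P.t.1, P.t.2},
      IntermediateField.finiteDimensional_adjoin fun z _ => (halg.isAlgebraic z).isIntegral,
      fun γ hγ => ?_⟩
    rw [IntermediateField.mem_fixingSubgroup_iff] at hγ
    have h : ∀ z ∈ ({P.x.1, P.x.2, P.y.1, P.y.2, P.t.1, P.t.2} : Set Ω), γ z = z :=
      fun z hz => hγ z (IntermediateField.subset_adjoin K _ hz)
    refine MulAction.mem_stabilizer_iff.2
      (Quotient.sound ⟨1, 1, 1, one_ne_zero, one_ne_zero, one_ne_zero, ?_, ?_, ?_⟩)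
    · change P.x = (1 * γ P.x.1, 1 * γ P.x.2)
      rw [h P.x.1 (by simp), h P.x.2 (by simp), one_mul, one_mul]
    · change P.y = (1 * γ P.y.1, 1 * γ P.y.2)
      rw [h P.y.1 (by simp), h P.y.2 (by simp), one_mul, one_mul]
    · change P.t = (1 * 1 ^ 2 * γ P.t.1, 1 * 1 ^ 2 * γ P.t.2)
      rw [h P.t.1 (by simp), h P.t.2 (by simp), one_pow, one_mul, one_mul, one_mul]

end desc

end PE
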