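import Pool.Agent.Lib.MP_f80667_ag.Pe.AbA

/-! Abel's theorem: distinct points and rational points. -/

open ZC BE Polynomial

namespace PE

variable {F : Type} [Field F] {W : WeierstrassCurve F} [W.IsElliptic] {K Ω : Type} [Field K]
  [CharZero K] [Field Ω] [Algebra K Ω] [Algebra F K] [Algebra F Ω] [IsScalarTower F K Ω]
  [IsAlgClosure K Ω]

/-- The function in the valuation ring. -/
noncomputable def abb_fn {M E Ω : Type} [Field M] [Field E] [Algebra M E] [Field Ω] [Algebra M Ω]
    (w : Place M E Ω) (x η : w.V) (a b : M[X]) : w.V :=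
  eval₂ ((algebraMap M E).codRestrict w.V.toSubring w.mem) x a +
    eval₂ ((algebraMap M E).codRestrict w.V.toSubring w.mem) x b * η

omit [W.IsElliptic] [CharZero K] [IsScalarTower F K Ω] [IsAlgClosure K Ω] in
theorem abb_coe {E : Type} [Field E] [Algebra K E] (w : Place K E Ω) (x η : w.V) (a b : K[X]) :
    ((abb_fn w x η a b : w.V) : E) = aeval (x : E) a + aeval (x : E) b * (η : E) := by
  have h1 : ∀ P : K[X], ((eval₂ ((algebraMap K E).codRestrict w.V.toSubring w.mem) x P : w.V) : E) =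
      aeval (x : E) P := by
    intro P
    have : w.V.subtype (eval₂ ((algebraMap K E).codRestrict w.V.toSubring w.mem) x P) =
        aeval (x : E) P := by
      rw [hom_eval₂]
      rfl
    exact this
  unfold abb_fn
  change ((eval₂ _ x a : w.V) : E) + ((eval₂ _ x b : w.V) : E) * (η : E) = _
  rw [h1, h1]

open Classical in
omit [IsScalarTower F K Ω] [IsAlgClosure K Ω] in
theorem abb_ord {E : Type} [Field E] [Algebra K E] [Algebra F E] [IsScalarTower F K E] {x η : E}
    {σ : E ≃ₐ[K] E} (hq : Qd x η (TW W K) (NW W K) σ) {w : Place K E Ω} (h1 : x ∈ w.V)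
    (h2 : η ∈ w.V) {x₀ y₀ : K} {hn : (W.baseChange K).toAffine.Nonsingular x₀ y₀}
    (h11 : w.res ⟨x, h1⟩ = algebraMap K Ω x₀) (h12 : w.res ⟨η, h2⟩ = algebraMap K Ω y₀)
    {l : List (Pn (W.baseChange K))} {a b : K[X]}
    (hI : a • (1 : (W.baseChange K).toAffine.CoordinateRing) +
      b • WeierstrassCurve.Affine.CoordinateRing.mk (W.baseChange K).toAffine
        (X : Polynomial (Polynomial K)) ∈ (l.map idl).prod) :
    abb_fn w ⟨x, h1⟩ ⟨η, h2⟩ a b ∈
      IsLocalRing.maximalIdeal w.V ^ (l.count (Pn.aff x₀ y₀ hn)) := by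
  let c : K →+* w.V := (algebraMap K E).codRestrict w.V.toSubring w.mem
  let : Algebra K w.V := c.toAlgebra
  have hr : ∀ k : K, w.res (algebraMap K w.V k) = algebraMap K Ω k := fun k => w.res_k k
  refine cls_ord (W := W.baseChange K) (R := w.V) ⟨x, h1⟩ ⟨η, h2⟩ ?_
    (IsLocalRing.maximalIdeal w.V) hI hn ?_ ?_
  · apply Subtype.ext
    have := aba_eqn hq
    exact this
  · apply aba_mem
    rw [map_sub, h11, hr, sub_self]
  · apply aba_mem
    rw [map_sub, h12, hr, sub_self]

theorem abb_set (s : Finset (Pt W Ω)) (hs : ∀ (γ : Ω ≃ₐ[K] Ω), ∀ P ∈ s, γ • P ∈ s)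
    (h0 : (0 : Pt W Ω) ∉ s) (hsum : ∑ P ∈ s, P = 0) :
    Pv (Ev W) K Ω (∑ P ∈ s, Finsupp.single P 1 - Finsupp.single (0 : Pt W Ω) (s.card : ℤ)) := by
  classical
  have : IsAlgClosed Ω := IsAlgClosure.isAlgClosed K
  have : Algebra.IsAlgebraic K Ω := IsAlgClosure.isAlgebraic
  obtain ⟨E, i1, i2, i3, i4, x, η, σ, hq⟩ := aba_fw W K
  obtain ⟨l, hl⟩ : ∃ l : List (Pn (W.baseChange Ω)), l = s.toList := ⟨_, rfl⟩
  have hmem : ∀ P : Pn (W.baseChange Ω), P ∈ l ↔ (P : Pt W Ω) ∈ s := by
    intro P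
    rw [hl]
    exact Finset.mem_toList
  have hlen : l.length = s.card := by
    rw [hl]
    exact Finset.length_toList s
  have hlsum : l.sum = 0 := by
    rw [hl]
    exact (Finset.sum_toList s).trans hsum
  obtain ⟨a, b, hab, ha, hb, hI⟩ := cls l (fun P hP h => by
    have h1 := (hmem P).1 hP
    subst h
    exact h0 h1) hlsum
  rw [hlen] at ha hb
  obtain ⟨a₀, b₀, hab₀, ha₀, hb₀, h₀⟩ := avg (F := F) (W := W) (K := K)
    {p : Ω × Ω | ∃ h : (W.baseChange Ω).toAffine.Nonsingular p.1 p.2, Pt.aff p.1 p.2 h ∈ s}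
    (by
      rintro γ p ⟨h1, h2⟩
      exact ⟨_, hs γ _ h2⟩) s.card hab ha hb (by
      rintro p ⟨h1, h2⟩
      exact cls_ev hI h1 ((hmem _).2 h2))
  obtain ⟨z, hz⟩ : ∃ z : Pt W Ω →₀ ℤ, z = ∑ P ∈ s, Finsupp.single P 1 := ⟨_, rfl⟩
  have hzv : ∀ P, z P = if P ∈ s then 1 else 0 := by
    intro P
    rw [hz, Finsupp.finsetSum_apply]
    simp only [Finsupp.single_apply]
    rw [Finset.sum_ite_eq' s P]
  have hdg : dg z = s.card := by
    rw [hz, map_sum]
    have : ∀ P : Pt W Ω, dg (Finsupp.single P (1 : ℤ)) = 1 := fun P => by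
      unfold dg
      rw [Finsupp.liftAddHom_apply_single]
      rfl
    simp only [this]
    simp
  rw [← hz, ← hdg]
  refine dv hq hab₀ z ?_ ?_ ?_ ?_ ?_
  · intro P
    rw [hzv]
    split_ifs <;> norm_num
  · rw [hzv, if_neg h0]
  · rw [hdg]
    exact_mod_cast ha₀
  · intro h
    rw [hdg]
    exact_mod_cast hb₀ h
  · intro w P k hP hr hk
    obtain ⟨h1, h2, h3, rfl⟩ := aba_red hq hP hr
    obtain ⟨h4, h5⟩ := aba_res w h1 h2 a₀ b₀
    have h6 := aba_nonneg hk h4
    rw [hzv]
    split_ifs with h7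
    · have h8 : w.res ⟨_, h4⟩ = 0 := by
        rw [h5]
        exact h₀ (w.res ⟨x, h1⟩, w.res ⟨η, h2⟩) ⟨h3, h7⟩
      have h9 := aba_mem h8
      rw [← pow_one (IsLocalRing.maximalIdeal w.V)] at h9
      exact_mod_cast aba_pow h9 hk
    · exact h6

theorem abb_rat (l : List (Pt W K)) (h0 : ∀ P ∈ l, P ≠ 0) (hsum : l.sum = 0) :
    Pv (Ev W) K Ω ((l.map fun P => Finsupp.single
      (Pt.map W (IsScalarTower.toAlgHom F K Ω) P) (1 : ℤ)).sum -
        Finsupp.single (0 : Pt W Ω) (l.length : ℤ)) := by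
  classical
  have : IsAlgClosed Ω := IsAlgClosure.isAlgClosed K
  have : Algebra.IsAlgebraic K Ω := IsAlgClosure.isAlgebraic
  obtain ⟨E, i1, i2, i3, i4, x, η, σ, hq⟩ := aba_fw W K
  obtain ⟨φ, hφ⟩ : ∃ φ : Pt W K → Pt W Ω, φ = Pt.map W (IsScalarTower.toAlgHom F K Ω) := ⟨_, rfl⟩
  have hφi : Function.Injective φ := by
    rw [hφ]
    exact WeierstrassCurve.Affine.Point.map_injective _
  have hφ0 : ∀ P, P ≠ 0 → φ P ≠ 0 := by
    intro P hP h
    apply hP
    apply hφi
    rw [h, hφ, map_zero]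
  obtain ⟨a, b, hab, ha, hb, hI⟩ := cls (W := W.baseChange K) l h0 hsum
  obtain ⟨z, hz⟩ : ∃ z : Pt W Ω →₀ ℤ, z = (l.map fun P => Finsupp.single (φ P) (1 : ℤ)).sum :=
    ⟨_, rfl⟩
  have hzv : ∀ Q, z Q = (l.countP fun P => φ P = Q) := by
    intro Q
    rw [hz]
    have : ∀ l : List (Pt W K), (l.map fun P => Finsupp.single (φ P) (1 : ℤ)).sum Q =
        (l.countP fun P => φ P = Q) := by
      intro l
      induction l with
      | nil => simp
      | cons P l ih =>
        rw [List.map_cons, List.sum_cons, Finsupp.add_apply, ih, List.countP_cons,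
          Finsupp.single_apply]
        simp only [decide_eq_true_eq]
        split_ifs
        · push_cast
          ring
        · push_cast
          ring
    exact this l
  have hdg : dg z = l.length := by
    rw [hz]
    have : ∀ l : List (Pt W K), dg (l.map fun P => Finsupp.single (φ P) (1 : ℤ)).sum =
        l.length := by
      intro l
      induction l with
      | nil => simp
      | cons P l ih =>
        rw [List.map_cons, List.sum_cons, map_add, ih, List.length_cons]
        have : dg (Finsupp.single (φ P) (1 : ℤ)) = 1 := by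
          unfold dg
          rw [Finsupp.liftAddHom_apply_single]
          rfl
        rw [this]
        push_cast
        ring
    exact this l
  rw [← hφ, ← hz, ← hdg]
  refine dv hq hab z ?_ ?_ ?_ ?_ ?_
  · intro P
    rw [hzv]
    positivity
  · rw [hzv, Nat.cast_eq_zero, List.countP_eq_zero]
    intro P hP
    simpa using hφ0 P (h0 P hP)
  · rw [hdg]
    exact_mod_cast ha
  · intro h
    rw [hdg]
    exact_mod_cast hb h
  · intro w Q k hQ hr hk
    obtain ⟨h1, h2, h3, hQ'⟩ := aba_red hq hQ hr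
    obtain ⟨h4, h5⟩ := aba_res w h1 h2 a b
    by_cases h6 : ∃ P ∈ l, φ P = Q
    · obtain ⟨P, hP, hPQ⟩ := h6
      have h7 : z Q = l.count P := by
        rw [hzv, ← hPQ]
        congr 1
        rw [List.count_eq_countP]
        refine List.countP_congr fun P' _ => ?_
        simp only [decide_eq_true_eq, beq_iff_eq]
        exact hφi.eq_iff
      rw [h7]
      obtain hP0 | ⟨x₀, y₀, hn, hPe⟩ := Pn.cases' (W := W.baseChange K) P
      · exact (h0 P hP hP0).elim
      · have h8 : ∃ h', Q = Pt.aff (algebraMap K Ω x₀) (algebraMap K Ω y₀) h' := by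
          rw [← hPQ, hPe, hφ]
          exact ⟨_, rfl⟩
        obtain ⟨h9, h10⟩ := h8
        obtain ⟨h11, h12⟩ : w.res ⟨x, h1⟩ = algebraMap K Ω x₀ ∧
            w.res ⟨η, h2⟩ = algebraMap K Ω y₀ :=
          Pn.aff_inj (W := W.baseChange Ω) (h := h3) (h' := h9) (hQ'.symm.trans h10)
        have hord := abb_ord (W := W) hq h1 h2 (hn := hn) h11 h12 hI
        rw [hPe]
        exact aba_pow hord (by
          rw [abb_coe]
          exact hk)
    · have h7 : z Q = 0 := by
        rw [hzv, Nat.cast_eq_zero, List.countP_eq_zero]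
        intro P hP
        simp only [decide_eq_true_eq]
        exact fun h => h6 ⟨P, hP, h⟩
      rw [h7]
      exact aba_nonneg hk h4

end PE
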