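import Pool.Agent.Lib.MP_f80667_ag.Pe.GloB

/-! The global theorem for integral equations over `ℚ`. -/

open ZC BE Polynomial IntermediateField IsDedekindDomain NumberField

namespace PE

section gen

variable {F : Type} [Field F] [NumberField F] (W₁ W₂ : WeierstrassCurve F)

/-- The condition at the finite places. -/
def CF : Prop := ∀ v : HeightOneSpectrum (𝓞 F), DvA (FK F v) W₁ W₂

/-- The condition at the infinite places. -/
def CI : Prop := ∀ (v : InfinitePlace F) (z : Zc (Xv W₁ W₂) (IK F v)), Alb z → z.clN = 0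

variable {W₁ W₂}

theorem cf_of (h : ∀ v : HeightOneSpectrum (𝓞 F), Lv W₁ W₂ v ∨ Lv W₂ W₁ v) : CF W₁ W₂ :=
  fun v => (h v).elim (fun h => dv_fin h) fun h => dv_swap (dv_fin h)

theorem ci_of [W₁.IsElliptic] [W₂.IsElliptic] (hr : ∀ v : InfinitePlace F, v.IsReal)
    (h : ∀ φ : F →+* ℝ, φ W₁.Δ < 0 ∨ φ W₂.Δ < 0) : CI W₁ W₂ := by
  intro v z hz
  obtain ⟨e⟩ : Nonempty (IK F v ≃+* ℝ) :=
    ⟨InfinitePlace.Completion.ringEquivRealOfIsReal (hr v)⟩
  exact dv_re e (h ((e : IK F v →+* ℝ).comp (algebraMap F (IK F v)))) z hz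

end gen

theorem disc_toQ (A : WeierstrassCurve ℤ) : (toQ A).Δ = (A.Δ : ℚ) := by
  unfold toQ
  rw [WeierstrassCurve.baseChange, WeierstrassCurve.map_Δ]
  rfl

theorem ell_toQ {A : WeierstrassCurve ℤ} (h : A.Δ ≠ 0) : (toQ A).IsElliptic := by
  rw [WeierstrassCurve.isElliptic_iff, disc_toQ]
  exact (Int.cast_ne_zero.2 h).isUnit

theorem neg_toQ {A : WeierstrassCurve ℤ} (h : A.Δ < 0) (φ : ℚ →+* ℝ) : φ (toQ A).Δ < 0 := by
  rw [disc_toQ, map_intCast]
  exact_mod_cast h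

theorem cf_ok {A B : WeierstrassCurve ℤ} (h : Ok A B) : CF (toQ A) (toQ B) := cf_of (ok_lv h)

theorem ci_ok {A B : WeierstrassCurve ℤ} (h : Ok A B) : CI (toQ A) (toQ B) := by
  have hne := h.sf.ne_zero
  have hA : (toQ A).IsElliptic := ell_toQ (left_ne_zero_of_mul hne)
  have hB : (toQ B).IsElliptic := ell_toQ (right_ne_zero_of_mul hne)
  exact ci_of (fun v => by
    rw [Subsingleton.elim v Rat.infinitePlace]
    exact Rat.isReal_infinitePlace) fun φ => h.neg.imp (fun h => neg_toQ h φ) fun h => neg_toQ h φ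

end PE
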