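import Pool.Agent.Lib.MP_f80667_ag.Pe.Lift

/-! Singular points of the reduction and the discriminant. -/

open ZC BE Polynomial IntermediateField

namespace PE

namespace Ld

set_option linter.unusedSectionVars false

variable {F : Type} [Field F] {K Ω : Type} [Field K] [CharZero K] [Field Ω] [Algebra K Ω]
  [Algebra F K] [Algebra F Ω] [IsScalarTower F K Ω] [IsAlgClosure K Ω] {L : Ld K Ω} [L.Unr]
  {W : WeierstrassCurve F}

/-- The discriminant in terms of the curve translated by `(x, y)`. -/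
theorem hha_disc (x y : Ω) : algebraMap F Ω W.Δ =
    -(algebraMap F Ω W.a₁ ^ 2 + 4 * (algebraMap F Ω W.a₂ + 3 * x)) ^ 2 *
      (-(algebraMap F Ω W.a₁ ^ 2 + 4 * (algebraMap F Ω W.a₂ + 3 * x)) * fe W x y -
        algebraMap F Ω W.a₁ * (dy W x y * dx W x y) +
        (algebraMap F Ω W.a₂ + 3 * x) * dy W x y ^ 2 - dx W x y ^ 2) -
    8 * (2 * dx W x y + algebraMap F Ω W.a₁ * dy W x y) ^ 2 *
      (2 * dx W x y + algebraMap F Ω W.a₁ * dy W x y) -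
    27 * (dy W x y ^ 2 - 4 * fe W x y) * (dy W x y ^ 2 - 4 * fe W x y) +
    9 * (algebraMap F Ω W.a₁ ^ 2 + 4 * (algebraMap F Ω W.a₂ + 3 * x)) *
      (2 * dx W x y + algebraMap F Ω W.a₁ * dy W x y) * (dy W x y ^ 2 - 4 * fe W x y) := by
  simp only [WeierstrassCurve.Δ, WeierstrassCurve.b₂, WeierstrassCurve.b₄, WeierstrassCurve.b₆,
    WeierstrassCurve.b₈, map_add, map_sub, map_mul, map_pow, map_ofNat, map_neg]
  unfold fe dy dx
  ring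

theorem hha_mul {x y : Ω} {r : ℝ} (hx : L.nm x ≤ 1) (hy : L.nm y ≤ r) : L.nm (x * y) ≤ r := by
  rw [L.mul]
  have h1 := mul_le_mul hx hy (L.nonneg y) zero_le_one
  rwa [one_mul] at h1

theorem hha_sq {x y : Ω} {r : ℝ} (hr : 0 ≤ r) (hx : L.nm x ≤ r) (hy : L.nm y ≤ r) :
    L.nm (x * y) ≤ r ^ 2 := by
  rw [L.mul, sq]
  exact mul_le_mul hx hy (L.nonneg y) hr

/-- The equation and the derivatives are integral. -/
theorem hha_int (h : L.It W) {x y : Ω} (hx : L.nm x ≤ 1) (hy : L.nm y ≤ 1) :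
    L.nm (fe W x y) ≤ 1 ∧ L.nm (dx W x y) ≤ 1 ∧ L.nm (dy W x y) ≤ 1 := by
  have h2 : L.nm (2 : Ω) ≤ 1 := dy_num 2
  have h3 : L.nm (3 : Ω) ≤ 1 := dy_num 3
  refine ⟨?_, ?_, ?_⟩
  · unfold fe
    refine dy_sub_le (dy_add_le (dy_add_le (dy_pow_one hy 2) (hha_mul (hha_mul h.a₁ hx) hy))
      (hha_mul h.a₃ hy)) ?_
    exact dy_add_le (dy_add_le (dy_add_le (dy_pow_one hx 3) (hha_mul h.a₂ (dy_pow_one hx 2)))
      (hha_mul h.a₄ hx)) h.a₆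
  · unfold dx
    exact dy_sub_le (dy_add_le (dy_add_le (hha_mul h3 (dy_pow_one hx 2))
      (hha_mul (hha_mul h2 h.a₂) hx)) h.a₄) (hha_mul h.a₁ hy)
  · unfold dy
    exact dy_add_le (dy_add_le (hha_mul h2 hy) (hha_mul h.a₁ hx)) h.a₃

theorem hha_le (h : L.It W) {x y : Ω} (hx : L.nm x ≤ 1) (hy : L.nm y ≤ 1) {r : ℝ} (hr : 0 ≤ r)
    (hf : L.nm (fe W x y) ≤ r ^ 2) (hdx : L.nm (dx W x y) ≤ r) (hdy : L.nm (dy W x y) ≤ r) :
    L.nm (algebraMap F Ω W.Δ) ≤ r ^ 2 := by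
  obtain ⟨hf1, hdx1, hdy1⟩ := hha_int h hx hy
  have hA : L.nm (algebraMap F Ω W.a₂ + 3 * x) ≤ 1 := dy_add_le h.a₂ (hha_mul (dy_num 3) hx)
  have hb2 : L.nm (algebraMap F Ω W.a₁ ^ 2 + 4 * (algebraMap F Ω W.a₂ + 3 * x)) ≤ 1 :=
    dy_add_le (dy_pow_one h.a₁ 2) (hha_mul (dy_num 4) hA)
  have hb4 : L.nm (2 * dx W x y + algebraMap F Ω W.a₁ * dy W x y) ≤ r :=
    dy_add_le (hha_mul (dy_num 2) hdx) (hha_mul h.a₁ hdy)
  have hb4' : L.nm (2 * dx W x y + algebraMap F Ω W.a₁ * dy W x y) ≤ 1 :=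
    dy_add_le (hha_mul (dy_num 2) hdx1) (hha_mul h.a₁ hdy1)
  have hd2 : L.nm (dy W x y ^ 2) ≤ r ^ 2 := by
    rw [sq (dy W x y)]
    exact hha_sq hr hdy hdy
  have hx2 : L.nm (dx W x y ^ 2) ≤ r ^ 2 := by
    rw [sq (dx W x y)]
    exact hha_sq hr hdx hdx
  have hb6 : L.nm (dy W x y ^ 2 - 4 * fe W x y) ≤ r ^ 2 :=
    dy_sub_le hd2 (hha_mul (dy_num 4) hf)
  have hb6' : L.nm (dy W x y ^ 2 - 4 * fe W x y) ≤ 1 :=
    dy_sub_le (dy_pow_one hdy1 2) (hha_mul (dy_num 4) hf1)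
  rw [hha_disc x y]
  refine dy_add_le (dy_sub_le (dy_sub_le ?_ ?_) ?_) ?_
  · refine hha_mul (by rw [L.neg]; exact dy_pow_one hb2 2) ?_
    refine dy_sub_le (dy_add_le (dy_sub_le ?_ ?_) ?_) hx2
    · exact hha_mul (by rw [L.neg]; exact hb2) hf
    · exact hha_mul h.a₁ (hha_sq hr hdy hdx)
    · exact hha_mul hA hd2
  · rw [mul_comm]
    refine hha_mul hb4' (hha_mul (dy_num 8) ?_)
    rw [sq (2 * dx W x y + algebraMap F Ω W.a₁ * dy W x y)]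
    exact hha_sq hr hb4 hb4
  · exact hha_mul (hha_mul (dy_num 27) hb6') hb6
  · exact hha_mul (hha_mul (hha_mul (dy_num 9) hb2) hb4') hb6

theorem hha_mem (M : IntermediateField K Ω) (a : F) : algebraMap F Ω a ∈ M := by
  rw [IsScalarTower.algebraMap_apply F K Ω]
  exact M.algebraMap_mem _

theorem hha_mems (M : IntermediateField K Ω) {x y : Ω} (hx : x ∈ M) (hy : y ∈ M) :
    fe W x y ∈ M ∧ dx W x y ∈ M ∧ dy W x y ∈ M := by
  have ha : ∀ a : F, algebraMap F Ω a ∈ M := hha_mem M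
  have h2 : (2 : Ω) ∈ M := ofNat_mem M 2
  have h3 : (3 : Ω) ∈ M := ofNat_mem M 3
  refine ⟨?_, ?_, ?_⟩
  · unfold fe
    exact sub_mem (add_mem (add_mem (pow_mem hy 2) (mul_mem (mul_mem (ha _) hx) hy))
      (mul_mem (ha _) hy)) (add_mem (add_mem (add_mem (pow_mem hx 3)
      (mul_mem (ha _) (pow_mem hx 2))) (mul_mem (ha _) hx)) (ha _))
  · unfold dx
    exact sub_mem (add_mem (add_mem (mul_mem h3 (pow_mem hx 2)) (mul_mem (mul_mem h2 (ha _)) hx))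
      (ha _)) (mul_mem (ha _) hy)
  · unfold dy
    exact add_mem (add_mem (mul_mem h2 hy) (mul_mem (ha _) hx)) (ha _)

theorem hha_lt {N : ℕ} (hN : N ≠ 0) {x : Ω} (hx : x ∈ L.Ur ⊥ N) (h : L.nm x < 1) :
    L.nm x ≤ L.nm (L.p : Ω) := by
  have h1 := ur_lt hN hx (i := 0) (by rw [pow_zero]; exact h)
  rwa [zero_add, pow_one] at h1

theorem hha_nod (h : L.Hd W) {N : ℕ} (hN : N ≠ 0) {x y : Ω} (hx : x ∈ L.Ur ⊥ N)
    (hy : y ∈ L.Ur ⊥ N) (hx1 : L.nm x ≤ 1) (hy1 : L.nm y ≤ 1) (hf : L.nm (fe W x y) < 1)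
    (hdx : L.nm (dx W x y) < 1) (hdy : L.nm (dy W x y) < 1) :
    L.nm (fe W x y) = L.nm (L.p : Ω) := by
  obtain ⟨m1, m2, m3⟩ := hha_mems (W := W) (L.Ur ⊥ N) hx hy
  have f1 := hha_lt hN m1 hf
  have f2 := hha_lt hN m2 hdx
  have f3 := hha_lt hN m3 hdy
  by_contra hne
  have f4 := ur_lt hN m1 (i := 1) (by rw [pow_one]; exact lt_of_le_of_ne f1 hne)
  have f5 := hha_le h.toIt hx1 hy1 (L.nonneg _) f4 f2 f3
  have f6 := h.disc.trans f5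
  have f7 := L.p_pos
  have f8 := L.lt
  nlinarith

theorem hha_cp (h : L.Hd W) {N : ℕ} (hN : N ≠ 0) {P : Pt W Ω} (hP : Fx (L.Ur ⊥ N) P) :
    L.Ns P := by
  rcases Pt.cases' P with rfl | ⟨x, y, hxy, rfl⟩
  · exact ⟨0, rs_red_zero⟩
  rcases lt_or_ge 1 (L.nm x) with hx | hx
  · exact ns_fm h.toIt (((fm_aff h.toIt hxy).1).2 hx)
  obtain ⟨hy, hns⟩ := ns_aff h.toIt hxy hx
  rw [hns]
  by_contra hcon
  rw [not_or] at hcon
  obtain ⟨hf1, hdx1, hdy1⟩ := hha_int h.toIt hx hy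
  obtain ⟨hxM, hyM⟩ := (fx_aff _ hxy).1 hP
  have h0 := fe_zero hxy
  have h1 := hha_nod h hN hxM hyM hx hy (by rw [h0, L.zero]; exact one_pos)
    (lt_of_le_of_ne hdx1 hcon.1) (lt_of_le_of_ne hdy1 hcon.2)
  rw [h0, L.zero] at h1
  exact absurd h1 L.p_pos.ne

end Ld

end PE
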