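import Mathlib

/-!
Algebra for the multiplicativity of `u` on a nodal cubic `(Y - α X) (Y - β X) = X³`: for three points on the
line `Y = l X + ν` the product of the `Y - α X` is `ν³`.
-/

namespace PE

variable {k : Type} [Field k]

theorem nda_sym {α β X₁ Y₁ X₂ Y₂ X₃ l ν : k} (hY₁ : Y₁ = l * X₁ + ν) (hY₂ : Y₂ = l * X₂ + ν)
    (h₁ : (Y₁ - α * X₁) * (Y₁ - β * X₁) = X₁ ^ 3)
    (he : X₁ ^ 2 + X₁ * X₂ + X₂ ^ 2 = (l - α) * (l - β) * (X₁ + X₂) + ν * (2 * l - α - β))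
    (hX₃ : X₃ = (l - α) * (l - β) - X₁ - X₂) :
    (Y₁ - α * X₁) * (Y₂ - α * X₂) * (l * X₃ + ν - α * X₃) = ν ^ 3 := by
  subst hY₁ hY₂
  have he1 : X₁ + X₂ + X₃ = (l - α) * (l - β) := by rw [hX₃]; ring
  have he2 : X₁ * X₂ + X₁ * X₃ + X₂ * X₃ = -(ν * (2 * l - α - β)) := by
    rw [hX₃]
    linear_combination -he
  have he3 : X₁ * X₂ * X₃ = ν ^ 2 := by
    linear_combination X₁ * he2 - X₁ ^ 2 * he1 - h₁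
  linear_combination (l - α) ^ 3 * he3 + (l - α) ^ 2 * ν * he2 + (l - α) * ν ^ 2 * he1

theorem nda_prod {x₀ y₀ α β a₁ a₂ a₃ a₄ x₁ y₁ x₂ y₂ l : k}
    (hdx : a₁ * y₀ = 3 * x₀ ^ 2 + 2 * a₂ * x₀ + a₄) (hdy : 2 * y₀ + a₁ * x₀ + a₃ = 0)
    (hadd : α + β = -a₁) (hmul : α * β = -(a₂ + 3 * x₀))
    (h₁ : ((y₁ - y₀) - α * (x₁ - x₀)) * ((y₁ - y₀) - β * (x₁ - x₀)) = (x₁ - x₀) ^ 3)
    (hl : l * (x₁ - x₂) = y₁ - y₂)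
    (hl2 : l * (y₁ + y₂ + a₁ * x₂ + a₃) =
      x₁ ^ 2 + x₁ * x₂ + x₂ ^ 2 + a₂ * (x₁ + x₂) + a₄ - a₁ * y₁) :
    ((y₁ - y₀) - α * (x₁ - x₀)) * ((y₂ - y₀) - α * (x₂ - x₀)) *
      ((l * ((l ^ 2 + a₁ * l - a₂ - x₁ - x₂) - x₁) + y₁ - y₀) -
        α * ((l ^ 2 + a₁ * l - a₂ - x₁ - x₂) - x₀)) = ((y₁ - y₀) - l * (x₁ - x₀)) ^ 3 := by
  have hX₃ : (l ^ 2 + a₁ * l - a₂ - x₁ - x₂) - x₀ =
      (l - α) * (l - β) - (x₁ - x₀) - (x₂ - x₀) := by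
    linear_combination l * hadd - hmul
  have key := nda_sym (α := α) (β := β) (X₁ := x₁ - x₀) (Y₁ := y₁ - y₀) (X₂ := x₂ - x₀)
    (Y₂ := y₂ - y₀) (X₃ := (l ^ 2 + a₁ * l - a₂ - x₁ - x₂) - x₀) (l := l)
    (ν := (y₁ - y₀) - l * (x₁ - x₀)) (by ring) (by linear_combination hl) h₁ ?_ hX₃
  · rw [← key]
    ring
  · linear_combination -hl2 + l * hdy + hdx + l * hl +
      (l * (x₂ - x₀) + (y₁ - y₀)) * hadd - ((x₁ - x₀) + (x₂ - x₀)) * hmul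

end PE
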