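import Mathlib

/-! The singular point of a Weierstrass curve with discriminant `0`. -/

open WeierstrassCurve

namespace PE

variable {k : Type} [Field k]

/-- A cubic with discriminant `0` and leading coefficient `≠ 0` over an algebraically closed field has a double root. -/
private theorem nds_double [IsAlgClosed k] (P : Cubic k) (ha : P.a ≠ 0) (hd : P.discr = 0) :
    ∃ x : k, P.a * x ^ 3 + P.b * x ^ 2 + P.c * x + P.d = 0 ∧
      3 * P.a * x ^ 2 + 2 * P.b * x + P.c = 0 := by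
  obtain ⟨r, s, t, h3⟩ := (Cubic.splits_iff_roots_eq_three (φ := RingHom.id k) ha).1
    (IsAlgClosed.splits _)
  have hb := Cubic.b_eq_three_roots ha h3
  have hc := Cubic.c_eq_three_roots ha h3
  have hd' := Cubic.d_eq_three_roots ha h3
  have hD := Cubic.discr_eq_prod_three_roots ha h3
  simp only [RingHom.id_apply] at hb hc hd' hD
  rw [hd] at hD
  have h1 : P.a * P.a * (r - s) * (r - t) * (s - t) = 0 := by
    have := hD.symm
    exact pow_eq_zero_iff two_ne_zero |>.1 this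
  have h2 : r = s ∨ r = t ∨ s = t := by
    rcases mul_eq_zero.1 h1 with h | h
    · rcases mul_eq_zero.1 h with h | h
      · rcases mul_eq_zero.1 h with h | h
        · exact absurd (mul_self_eq_zero.1 h) ha
        · exact Or.inl (sub_eq_zero.1 h)
      · exact Or.inr (Or.inl (sub_eq_zero.1 h))
    · exact Or.inr (Or.inr (sub_eq_zero.1 h))
  rcases h2 with rfl | rfl | rfl
  · exact ⟨r, by rw [hb, hc, hd']; ring, by rw [hb, hc]; ring⟩
  · exact ⟨r, by rw [hb, hc, hd']; ring, by rw [hb, hc]; ring⟩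
  · exact ⟨s, by rw [hb, hc, hd']; ring, by rw [hb, hc]; ring⟩

theorem nds_exists [IsAlgClosed k] (W : WeierstrassCurve k) (h : W.Δ = 0) : ∃ x₀ y₀ : k,
    y₀ ^ 2 + W.a₁ * x₀ * y₀ + W.a₃ * y₀ = x₀ ^ 3 + W.a₂ * x₀ ^ 2 + W.a₄ * x₀ + W.a₆ ∧
      W.a₁ * y₀ = 3 * x₀ ^ 2 + 2 * W.a₂ * x₀ + W.a₄ ∧ 2 * y₀ + W.a₁ * x₀ + W.a₃ = 0 := by
  by_cases h2 : (2 : k) = 0
  · have hC : CharP k 2 := CharTwo.of_one_ne_zero_of_two_eq_zero one_ne_zero h2
    rw [WeierstrassCurve.Δ_of_char_two] at h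
    simp only [WeierstrassCurve.b₈] at h
    by_cases ha : W.a₁ = 0
    · rw [ha] at h ⊢
      have h3 : W.a₃ = 0 := by
        have h5 : W.a₃ ^ 4 = 0 := by
          linear_combination h
        exact pow_eq_zero_iff (by norm_num) |>.1 h5
      obtain ⟨x, hx⟩ := IsAlgClosed.exists_pow_nat_eq W.a₄ (n := 2) (by norm_num)
      obtain ⟨y, hy⟩ := IsAlgClosed.exists_pow_nat_eq
        (x ^ 3 + W.a₂ * x ^ 2 + W.a₄ * x + W.a₆) (n := 2) (by norm_num)
      refine ⟨x, y, ?_, ?_, ?_⟩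
      · rw [h3]
        linear_combination hy
      · linear_combination -(2 * x ^ 2 + W.a₂ * x) * h2 + hx
      · rw [h3]
        linear_combination y * h2
    · obtain ⟨x, hx⟩ : ∃ x, W.a₁ * x = W.a₃ := ⟨W.a₃ / W.a₁, mul_div_cancel₀ _ ha⟩
      obtain ⟨y, hy⟩ : ∃ y, W.a₁ * y = x ^ 2 + W.a₄ :=
        ⟨(x ^ 2 + W.a₄) / W.a₁, mul_div_cancel₀ _ ha⟩
      have h4 : W.a₄ = W.a₁ * y - x ^ 2 := by
        rw [hy]
        ring
      have hE : W.a₁ ^ 2 * W.a₆ + 4 * W.a₂ * W.a₆ - W.a₁ ^ 2 * x * W.a₄ +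
          W.a₂ * W.a₁ ^ 2 * x ^ 2 - (W.a₁ * y - x ^ 2) ^ 2 + x ^ 4 + W.a₁ ^ 2 * x ^ 3 = 0 := by
        apply mul_left_cancel₀ (pow_ne_zero 4 ha)
        rw [← hx] at h
        rw [← h4]
        linear_combination h
      refine ⟨x, y, ?_, ?_, ?_⟩
      · apply mul_left_cancel₀ (pow_ne_zero 2 ha)
        rw [← hx]
        linear_combination -hE + (W.a₁ ^ 3 * x * y - W.a₁ ^ 2 * W.a₄ * x + 2 * W.a₂ * W.a₆ +
          W.a₁ * y * x ^ 2) * h2
      · linear_combination hy - (x ^ 2 + W.a₂ * x) * h2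
      · rw [← hx]
        linear_combination (y + W.a₁ * x) * h2
  · have h4 : (4 : k) ≠ 0 := by
      have : (4 : k) = 2 * 2 := by norm_num
      rw [this]
      exact mul_ne_zero h2 h2
    obtain ⟨x, h5, h6⟩ := nds_double W.twoTorsionPolynomial h4
      (by rw [WeierstrassCurve.twoTorsionPolynomial_discr, h, mul_zero])
    simp only [WeierstrassCurve.twoTorsionPolynomial, WeierstrassCurve.b₂, WeierstrassCurve.b₄,
      WeierstrassCurve.b₆] at h5 h6
    obtain ⟨y, hy⟩ : ∃ y, 2 * y + W.a₁ * x + W.a₃ = 0 :=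
      ⟨-(W.a₁ * x + W.a₃) / 2, by field_simp; ring⟩
    refine ⟨x, y, ?_, ?_, hy⟩
    · apply mul_left_cancel₀ h4
      linear_combination -h5 + (2 * y + W.a₁ * x + W.a₃) * hy
    · apply mul_left_cancel₀ h4
      linear_combination -h6 + 2 * W.a₁ * hy

end PE
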