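import Pool.Agent.Lib.MP_f80667_ag.Pe.Pn
import Pool.Agent.Lib.MP_f80667_ag.Pe.NdA
import Pool.Agent.Lib.MP_f80667_ag.Pe.NdS

/-!
The group of the nonsingular points of a nodal cubic over an algebraically closed field is divisible.
-/

open WeierstrassCurve

namespace PE

variable {k : Type} [Field k]

/-- `(x₀, y₀)` is a singular point of `W`. -/
structure Sg (W : WeierstrassCurve k) (x₀ y₀ : k) : Prop where
  eqn : y₀ ^ 2 + W.a₁ * x₀ * y₀ + W.a₃ * y₀ = x₀ ^ 3 + W.a₂ * x₀ ^ 2 + W.a₄ * x₀ + W.a₆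
  dx : W.a₁ * y₀ = 3 * x₀ ^ 2 + 2 * W.a₂ * x₀ + W.a₄
  dy : 2 * y₀ + W.a₁ * x₀ + W.a₃ = 0

/-- A curve with discriminant `0` has a singular point. Proof: `2 ≠ 0`: the cubic `4 x³ + b₂ x² + 2 b₄ x + b₆` has a double root `x₀` (its
discriminant is `16 Δ`), `y₀ = - (a₁ x₀ + a₃) / 2`. `2 = 0`, `a₁ ≠ 0`: `x₀ = a₃ / a₁`, `y₀` from `dx`, and `eqn` is `Δ / a₁ ^ 6 = 0` up to a unit;
`2 = 0`, `a₁ = 0`: `Δ = a₃ ^ 4`, `x₀² = a₄`, `y₀` a square root. -/
theorem exists_sg [IsAlgClosed k] (W : WeierstrassCurve k) (h : W.Δ = 0) : ∃ x₀ y₀, Sg W x₀ y₀ := by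
  obtain ⟨x, y, h1, h2, h3⟩ := nds_exists W h
  exact ⟨x, y, h1, h2, h3⟩

/-- The tangents `Y = α X`, `Y = β X` at the node, `X = x - x₀`, `Y = y - y₀`: the equation is
`(Y - α X) (Y - β X) = X³`. -/
structure Tg (W : WeierstrassCurve k) (x₀ y₀ α β : k) : Prop extends Sg W x₀ y₀ where
  add : α + β = -W.a₁
  mul : α * β = -(W.a₂ + 3 * x₀)
  ne : α ≠ β

theorem exists_tg [IsAlgClosed k] {W : WeierstrassCurve k} {x₀ y₀ : k} (h : Sg W x₀ y₀)
    (h2 : W.a₁ ^ 2 + 4 * (W.a₂ + 3 * x₀) ≠ 0) : ∃ α β, Tg W x₀ y₀ α β := by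
  obtain ⟨α, hα⟩ := IsAlgClosed.exists_root (Polynomial.C (1 : k) * Polynomial.X ^ 2 +
    Polynomial.C W.a₁ * Polynomial.X + Polynomial.C (-(W.a₂ + 3 * x₀)))
    (by rw [Polynomial.degree_quadratic one_ne_zero]; decide)
  rw [Polynomial.IsRoot.def] at hα
  simp only [Polynomial.eval_add, Polynomial.eval_mul, Polynomial.eval_C, Polynomial.eval_pow,
    Polynomial.eval_X, one_mul] at hα
  refine ⟨α, -W.a₁ - α, h, by ring, by linear_combination -hα, fun e => h2 ?_⟩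
  linear_combination (W.a₁ + 2 * α) * e - 4 * hα

variable {W : WeierstrassCurve k} {x₀ y₀ α β : k}

/-- The function `u = (Y - α X) / (Y - β X)`. -/
def ndu (x₀ y₀ α β : k) : Pn W → k
  | .zero => 1
  | .some x y _ => ((y - y₀) - α * (x - x₀)) / ((y - y₀) - β * (x - x₀))

/-- A nonsingular point is not the node, and neither factor of `X³ = (Y - α X) (Y - β X)` vanishes. -/
theorem nd_ne (h : Tg W x₀ y₀ α β) {x y : k} (hP : W.toAffine.Nonsingular x y) :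
    x ≠ x₀ ∧ (y - y₀) - α * (x - x₀) ≠ 0 ∧ (y - y₀) - β * (x - x₀) ≠ 0 := by
  have hE : ((y - y₀) - α * (x - x₀)) * ((y - y₀) - β * (x - x₀)) = (x - x₀) ^ 3 := by
    linear_combination Pn.eqn hP - h.eqn - (y - y₀) * h.dy - (x - x₀) * h.dx -
      (x - x₀) * (y - y₀) * h.add + (x - x₀) ^ 2 * h.mul
  have hx : x ≠ x₀ := by
    rintro rfl
    have h1 : (y - y₀) ^ 2 = 0 := by
      linear_combination hE
    have h3 : y = y₀ := sub_eq_zero.1 (pow_eq_zero_iff two_ne_zero |>.1 h1)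
    subst h3
    rcases ((Affine.nonsingular_iff _ _).1 hP).2 with h4 | h4
    · exact h4 h.dx
    · exact h4 (by linear_combination h.dy)
  have h3 : (x - x₀) ^ 3 ≠ 0 := pow_ne_zero 3 (sub_ne_zero.2 hx)
  rw [← hE] at h3
  exact ⟨hx, left_ne_zero_of_mul h3, right_ne_zero_of_mul h3⟩

/-- `u` is multiplicative. Proof: `u(- P) = u(P)⁻¹` (`-(X, Y) = (X, - Y - a₁ X)`, the two factors are exchanged up to sign), and for
`P + Q = R` use `Pn.slope`: with `Y = l X + ν` (`ν = Y₁ - l X₁ ≠ 0` if ...) the slopes `w_i = Y_i / X_i` of the three points on the line satisfy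
`(w - α) (w - β) (w - l) - ν = ∏ (w - w_i)`, so `∏ (α - w_i) = - ν = ∏ (β - w_i)`. -/
theorem nd_add (h : Tg W x₀ y₀ α β) (P Q : Pn W) :
    ndu x₀ y₀ α β (P + Q) = ndu x₀ y₀ α β P * ndu x₀ y₀ α β Q := by
  have hz : ndu x₀ y₀ α β (0 : Pn W) = 1 := rfl
  have hu : ∀ {x y : k} (hP : W.toAffine.Nonsingular x y), ndu x₀ y₀ α β (Pn.aff x y hP) =
      ((y - y₀) - α * (x - x₀)) / ((y - y₀) - β * (x - x₀)) := fun _ => rfl
  have hE : ∀ {x y : k} (_ : W.toAffine.Nonsingular x y),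
      ((y - y₀) - α * (x - x₀)) * ((y - y₀) - β * (x - x₀)) = (x - x₀) ^ 3 := by
    intro x y hP
    linear_combination Pn.eqn hP - h.eqn - (y - y₀) * h.dy - (x - x₀) * h.dx -
      (x - x₀) * (y - y₀) * h.add + (x - x₀) ^ 2 * h.mul
  rcases P.cases' with rfl | ⟨x₁, y₁, h₁, rfl⟩
  · rw [zero_add, hz, one_mul]
  rcases Q.cases' with rfl | ⟨x₂, y₂, h₂, rfl⟩
  · rw [add_zero, hz, mul_one]
  obtain ⟨-, hA₁, hB₁⟩ := nd_ne h h₁
  obtain ⟨-, hA₂, hB₂⟩ := nd_ne h h₂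
  by_cases hne : x₁ = x₂ ∧ y₁ = -y₂ - W.a₁ * x₂ - W.a₃
  · obtain ⟨hx, hy⟩ := hne
    rw [Pn.add_opp h₁ h₂ hx hy, hz, hu, hu]
    have e1 : (y₁ - y₀) - α * (x₁ - x₀) = -((y₂ - y₀) - β * (x₂ - x₀)) := by
      rw [hx, hy]
      linear_combination -h.dy - (x₂ - x₀) * h.add
    have e2 : (y₁ - y₀) - β * (x₁ - x₀) = -((y₂ - y₀) - α * (x₂ - x₀)) := by
      rw [hx, hy]
      linear_combination -h.dy - (x₂ - x₀) * h.add
    rw [e1, e2, neg_div_neg_eq, div_mul_div_cancel₀ hA₂, div_self hB₂]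
  · obtain ⟨l, hl, hl2, h₃, hadd⟩ := Pn.slope h₁ h₂ hne
    rw [hadd, hu, hu, hu]
    obtain ⟨-, hA₃, hB₃⟩ := nd_ne h h₃
    have p1 := nda_prod h.dx h.dy h.add h.mul (hE h₁) hl hl2
    have p2 := nda_prod h.dx h.dy (by rw [add_comm]; exact h.add) (by rw [mul_comm]; exact h.mul)
      (by rw [mul_comm]; exact hE h₁) hl hl2
    rw [div_mul_div_comm, div_eq_div_iff hB₃ (mul_ne_zero hB₁ hB₂)]
    have e3 : ∀ γ δ : k, γ + δ = -W.a₁ →
        (-(l * ((l ^ 2 + W.a₁ * l - W.a₂ - x₁ - x₂) - x₁) + y₁) -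
          W.a₁ * (l ^ 2 + W.a₁ * l - W.a₂ - x₁ - x₂) - W.a₃ - y₀) -
            γ * (l ^ 2 + W.a₁ * l - W.a₂ - x₁ - x₂ - x₀) =
        -((l * ((l ^ 2 + W.a₁ * l - W.a₂ - x₁ - x₂) - x₁) + y₁ - y₀) -
          δ * ((l ^ 2 + W.a₁ * l - W.a₂ - x₁ - x₂) - x₀)) := by
      intro γ δ hγ
      linear_combination -h.dy - (l ^ 2 + W.a₁ * l - W.a₂ - x₁ - x₂ - x₀) * hγ
    rw [e3 α β h.add, e3 β α (by rw [add_comm]; exact h.add)]
    linear_combination p1 - p2

/-- `u` is injective and has all values `≠ 0`. Proof: `X = (α - β)² u / (1 - u)²`, `Y - β X = (α - β) X / (u - 1)`. -/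
theorem nd_bij (h : Tg W x₀ y₀ α β) :
    (∀ P Q : Pn W, ndu x₀ y₀ α β P = ndu x₀ y₀ α β Q → P = Q) ∧
      ∀ u : k, u ≠ 0 → ∃ P : Pn W, ndu x₀ y₀ α β P = u := by
  have hz : ndu x₀ y₀ α β (0 : Pn W) = 1 := rfl
  have hu : ∀ {x y : k} (hP : W.toAffine.Nonsingular x y), ndu x₀ y₀ α β (Pn.aff x y hP) =
      ((y - y₀) - α * (x - x₀)) / ((y - y₀) - β * (x - x₀)) := fun _ => rfl
  have hE : ∀ {x y : k} (_ : W.toAffine.Nonsingular x y),
      ((y - y₀) - α * (x - x₀)) * ((y - y₀) - β * (x - x₀)) = (x - x₀) ^ 3 := by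
    intro x y hP
    linear_combination Pn.eqn hP - h.eqn - (y - y₀) * h.dy - (x - x₀) * h.dx -
      (x - x₀) * (y - y₀) * h.add + (x - x₀) ^ 2 * h.mul
  have hd : α - β ≠ 0 := sub_ne_zero.2 h.ne
  have h1 : ∀ {x y : k} (hP : W.toAffine.Nonsingular x y), ndu x₀ y₀ α β (Pn.aff x y hP) ≠ 1 := by
    intro x y hP e
    obtain ⟨hx, -, hB⟩ := nd_ne h hP
    rw [hu, div_eq_one_iff_eq hB] at e
    exact mul_ne_zero hd (sub_ne_zero.2 hx) (by linear_combination -e)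
  -- the coordinates of the point in terms of `u`
  have hX : ∀ {x y : k} (hP : W.toAffine.Nonsingular x y) (u : k),
      ndu x₀ y₀ α β (Pn.aff x y hP) = u →
      (u - 1) ^ 2 * (x - x₀) = u * (α - β) ^ 2 ∧
      (u - 1) * ((y - y₀) - β * (x - x₀)) = (β - α) * (x - x₀) := by
    intro x y hP u e
    obtain ⟨hx, -, hB⟩ := nd_ne h hP
    rw [hu, div_eq_iff hB] at e
    have e2 : (u - 1) * ((y - y₀) - β * (x - x₀)) = (β - α) * (x - x₀) := by
      linear_combination -e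
    refine ⟨?_, e2⟩
    have e3 := hE hP
    rw [e] at e3
    have hx2 : (x - x₀) ^ 2 ≠ 0 := pow_ne_zero 2 (sub_ne_zero.2 hx)
    refine mul_right_cancel₀ hx2 ?_
    linear_combination -(u - 1) ^ 2 * e3 +
      u * ((u - 1) * ((y - y₀) - β * (x - x₀)) + (β - α) * (x - x₀)) * e2
  constructor
  · intro P Q e
    rcases P.cases' with rfl | ⟨x₁, y₁, h₁, rfl⟩
    · rcases Q.cases' with rfl | ⟨x₂, y₂, h₂, rfl⟩
      · rfl
      · exact absurd e.symm (h1 h₂)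
    · rcases Q.cases' with rfl | ⟨x₂, y₂, h₂, rfl⟩
      · exact absurd e (h1 h₁)
      · obtain ⟨u, hu'⟩ : ∃ u, ndu x₀ y₀ α β (Pn.aff x₁ y₁ h₁) = u := ⟨_, rfl⟩
        have hne : u - 1 ≠ 0 := sub_ne_zero.2 fun h0 => h1 h₁ (hu'.trans h0)
        obtain ⟨a1, a2⟩ := hX h₁ u hu'
        obtain ⟨b1, b2⟩ := hX h₂ u (e.symm.trans hu')
        have hx : x₁ = x₂ := by
          have h3 := mul_left_cancel₀ (pow_ne_zero 2 hne) (a1.trans b1.symm)
          linear_combination h3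
        have hy : y₁ = y₂ := by
          rw [← hx] at b2
          have h3 := mul_left_cancel₀ hne (a2.trans b2.symm)
          linear_combination h3
        exact Pn.aff_ext hx hy
  · intro u hu0
    by_cases hu1 : u = 1
    · exact ⟨0, hz.trans hu1.symm⟩
    have hne : u - 1 ≠ 0 := sub_ne_zero.2 hu1
    obtain ⟨X, hX0⟩ : ∃ X : k, (u - 1) ^ 2 * X = u * (α - β) ^ 2 :=
      ⟨u * (α - β) ^ 2 / (u - 1) ^ 2, mul_div_cancel₀ _ (pow_ne_zero 2 hne)⟩
    obtain ⟨B, hB0⟩ : ∃ B : k, (u - 1) * B = (β - α) * X :=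
      ⟨(β - α) * X / (u - 1), mul_div_cancel₀ _ hne⟩
    have hXn : X ≠ 0 := by
      rintro rfl
      rw [mul_zero] at hX0
      exact mul_ne_zero hu0 (pow_ne_zero 2 hd) hX0.symm
    have hBn : B ≠ 0 := by
      rintro rfl
      rw [mul_zero] at hB0
      exact mul_ne_zero hd hXn (by linear_combination hB0)
    have hAB : u * B * B = X ^ 3 := by
      refine mul_left_cancel₀ (pow_ne_zero 2 hne) ?_
      linear_combination u * ((u - 1) * B + (β - α) * X) * hB0 - X ^ 2 * hX0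
    have hA : (B + β * X) - α * X = u * B := by linear_combination -hB0
    have heq : (B + β * X + y₀) ^ 2 + W.a₁ * (X + x₀) * (B + β * X + y₀) +
        W.a₃ * (B + β * X + y₀) = (X + x₀) ^ 3 + W.a₂ * (X + x₀) ^ 2 + W.a₄ * (X + x₀) + W.a₆ := by
      linear_combination hAB + h.eqn + (B + β * X) * h.dy + X * h.dx +
        X * (B + β * X) * h.add - X ^ 2 * h.mul + B * hA
    have hns : W.toAffine.Nonsingular (X + x₀) (B + β * X + y₀) := by
      rw [Affine.nonsingular_iff]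
      refine ⟨(Affine.equation_iff _ _).2 heq, ?_⟩
      by_contra hcon
      push Not at hcon
      obtain ⟨c1, c2⟩ := hcon
      -- `A + B = 0`
      have d1 : u * B + B = 0 := by
        linear_combination -hA + c2 - h.dy - X * h.add
      -- `(α - β) A = 3 X²`
      have d2 : (α - β) * (u * B) = 3 * X ^ 2 := by
        linear_combination α * d1 + β * hA + c1 - h.dx - (B + β * X) * h.add + 2 * X * h.mul
      have d3 : 2 * (u * B) = (β - α) * X := by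
        linear_combination hB0 + d1
      have d4 : X ^ 2 * (3 * (u * B)) = X ^ 2 * ((β - α) * X) := by
        linear_combination -(u * B) * d2 + (α - β) * (u * B) * d1 - (α - β) * hAB
      have d5 := mul_left_cancel₀ (pow_ne_zero 2 hXn) d4
      exact mul_ne_zero hu0 hBn (by linear_combination d5 - d3)
    refine ⟨Pn.aff _ _ hns, ?_⟩
    rw [hu, div_eq_iff]
    · linear_combination hA
    · intro h0
      exact hBn (by linear_combination h0)

private theorem ndu_ne (h : Tg W x₀ y₀ α β) (P : Pn W) : ndu x₀ y₀ α β P ≠ 0 := by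
  match P with
  | .zero => exact one_ne_zero
  | .some x y hP => exact div_ne_zero (nd_ne h hP).2.1 (nd_ne h hP).2.2

private theorem ndu_nsmul (h : Tg W x₀ y₀ α β) (P : Pn W) (n : ℕ) :
    ndu x₀ y₀ α β (n • P) = ndu x₀ y₀ α β P ^ n := by
  induction n with
  | zero =>
    rw [zero_nsmul, pow_zero]
    rfl
  | succ n ih => rw [succ_nsmul, nd_add h, ih, pow_succ]

/-- **Divisibility.** -/
theorem nd_div [IsAlgClosed k] (h : Tg W x₀ y₀ α β) (n : ℕ) (hn : n ≠ 0) (P : Pn W) :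
    ∃ Q : Pn W, n • Q = P := by
  obtain ⟨v, hv⟩ := IsAlgClosed.exists_pow_nat_eq (ndu x₀ y₀ α β P) (Nat.pos_of_ne_zero hn)
  have hv0 : v ≠ 0 := by
    rintro rfl
    rw [zero_pow hn] at hv
    exact ndu_ne h P hv.symm
  obtain ⟨Q, hQ⟩ := (nd_bij h).2 v hv0
  exact ⟨Q, (nd_bij h).1 _ _ (by rw [ndu_nsmul h, hQ, hv])⟩

end PE
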