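import Pool.Agent.Lib.MP_f80667_ag.Pe.Lift
import Pool.Agent.Lib.MP_f80667_ag.Pe.Div
import Pool.Agent.Lib.MP_f80667_ag.Pe.Nd
import Pool.Agent.Lib.MP_f80667_ag.Pe.HhA

/-! The curve with discriminant of valuation at most `1`. -/

open ZC BE Polynomial IntermediateField

namespace PE

namespace Ld

variable {F : Type} [Field F] {K Ω : Type} [Field K] [CharZero K] [Field Ω] [Algebra K Ω]
  [Algebra F K] [Algebra F Ω] [IsScalarTower F K Ω] [IsAlgClosure K Ω] {L : Ld K Ω} [L.Unr]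
  {W : WeierstrassCurve F}

/-- The discriminant is in the ideal generated by the equation and the squares and the product of the derivatives. Proof: translate `(x, y)` to `(0, 0)`: `Δ` is the discriminant of the curve with the
coefficients `a₁`, `a₂ + 3 x`, `dy W x y`, `- (dx W x y)`... (check the signs), `- fe W x y`; in the formula for `Δ` every term contains `a₆`, `a₃²`, `a₃ a₄` or `a₄²`. -/
theorem disc_le (h : L.It W) {x y : Ω} (hx : L.nm x ≤ 1) (hy : L.nm y ≤ 1) {r : ℝ} (hr : 0 ≤ r)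
    (hf : L.nm (fe W x y) ≤ r ^ 2) (hdx : L.nm (dx W x y) ≤ r) (hdy : L.nm (dy W x y) ≤ r) :
    L.nm (algebraMap F Ω W.Δ) ≤ r ^ 2 :=
  hha_le h hx hy hr hf hdx hdy

/-- A singular point of the reduction with coordinates in `Ur ⊥ N`: the equation has the norm of `p` exactly. Proof: `disc_le` with `r = nm p` (`ur_lt`) if `nm (fe) ≤ nm p ^ 2`. -/
theorem nod_fe (h : L.Hd W) {N : ℕ} (hN : N ≠ 0) {x y : Ω} (hx : x ∈ L.Ur ⊥ N) (hy : y ∈ L.Ur ⊥ N)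
    (hx1 : L.nm x ≤ 1) (hy1 : L.nm y ≤ 1) (hf : L.nm (fe W x y) < 1)
    (hdx : L.nm (dx W x y) < 1) (hdy : L.nm (dy W x y) < 1) :
    L.nm (fe W x y) = L.nm (L.p : Ω) :=
  hha_nod h hN hx hy hx1 hy1 hf hdx hdy

/-- Points over unramified extensions have nonsingular reduction. Proof: `ns_aff`, `nod_fe`, `fe_zero`. -/
theorem cp (h : L.Hd W) {N : ℕ} (hN : N ≠ 0) {P : Pt W Ω} (hP : Fx (L.Ur ⊥ N) P) : L.Ns P :=
  hha_cp h hN hP

omit [CharZero K] [Algebra F K] [IsScalarTower F K Ω] [IsAlgClosure K Ω] in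
/-- The residue of the discriminant. -/
private theorem hh_dis (h : L.It W) : L.rs.Hv (algebraMap F Ω W.Δ) (L.rc W).Δ := by
  have h1 := L.hv_rr h.a₁
  have h2 := L.hv_rr h.a₂
  have h3 := L.hv_rr h.a₃
  have h4 := L.hv_rr h.a₄
  have h6 := L.hv_rr h.a₆
  have n2 := Rs.Hv.nat (w := L.rs) 2
  have n4 := Rs.Hv.nat (w := L.rs) 4
  have n8 := Rs.Hv.nat (w := L.rs) 8
  have n9 := Rs.Hv.nat (w := L.rs) 9
  have n27 := Rs.Hv.nat (w := L.rs) 27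
  rw [Nat.cast_ofNat, Nat.cast_ofNat] at n2 n4 n8 n9 n27
  have b2 := (h1.pow 2).add (n4.mul h2)
  have b4 := (n2.mul h4).add (h1.mul h3)
  have b6 := (h3.pow 2).add (n4.mul h6)
  have b8 := (((((h1.pow 2).mul h6).add ((n4.mul h2).mul h6)).sub ((h1.mul h3).mul h4)).add
    (h2.mul (h3.pow 2))).sub (h4.pow 2)
  have d := (((((b2.pow 2).neg).mul b8).sub (n8.mul (b4.pow 3))).sub (n27.mul (b6.pow 2))).add
    (((n9.mul b2).mul b4).mul b6)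
  simp only [WeierstrassCurve.Δ, WeierstrassCurve.b₂, WeierstrassCurve.b₄, WeierstrassCurve.b₆,
    WeierstrassCurve.b₈, map_add, map_sub, map_mul, map_pow, map_ofNat, map_neg]
  exact d

omit [CharZero K] [Algebra F K] [IsScalarTower F K Ω] [IsAlgClosure K Ω] in
/-- The residue of the discriminant of the tangents. -/
private theorem hh_b (h : L.It W) {x : Ω} {r : L.κ} (hx : L.rs.Hv x r) :
    L.rs.Hv (algebraMap F Ω W.a₁ ^ 2 + 4 * (algebraMap F Ω W.a₂ + 3 * x))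
      ((L.rc W).a₁ ^ 2 + 4 * ((L.rc W).a₂ + 3 * r)) := by
  have h1 := L.hv_rr h.a₁
  have h2 := L.hv_rr h.a₂
  have n3 := Rs.Hv.nat (w := L.rs) 3
  have n4 := Rs.Hv.nat (w := L.rs) 4
  rw [Nat.cast_ofNat, Nat.cast_ofNat] at n3 n4
  exact (h1.pow 2).add (n4.mul (h2.add (n3.mul hx)))

/-- The discriminant if the tangents agree modulo `p`. -/
private theorem hh_le (h : L.It W) {x y : Ω} (hx : L.nm x ≤ 1) (hy : L.nm y ≤ 1)
    (hf : L.nm (fe W x y) ≤ L.nm (L.p : Ω)) (hdx : L.nm (dx W x y) ≤ L.nm (L.p : Ω))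
    (hdy : L.nm (dy W x y) ≤ L.nm (L.p : Ω))
    (hb : L.nm (algebraMap F Ω W.a₁ ^ 2 + 4 * (algebraMap F Ω W.a₂ + 3 * x)) ≤
      L.nm (L.p : Ω)) :
    L.nm (algebraMap F Ω W.Δ) ≤ L.nm (L.p : Ω) ^ 2 := by
  have hr : 0 ≤ L.nm (L.p : Ω) := L.nonneg _
  have hr1 : L.nm (L.p : Ω) ≤ 1 := L.lt.le
  obtain ⟨hf1, hdx1, hdy1⟩ := hha_int h hx hy
  have hA : L.nm (algebraMap F Ω W.a₂ + 3 * x) ≤ 1 := dy_add_le h.a₂ (hha_mul (dy_num 3) hx)
  have hb4 : L.nm (2 * dx W x y + algebraMap F Ω W.a₁ * dy W x y) ≤ L.nm (L.p : Ω) :=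
    dy_add_le (hha_mul (dy_num 2) hdx) (hha_mul h.a₁ hdy)
  have hd2 : L.nm (dy W x y ^ 2) ≤ L.nm (L.p : Ω) := by
    rw [sq (dy W x y)]
    exact hha_mul hdy1 hdy
  have hx2 : L.nm (dx W x y ^ 2) ≤ 1 := dy_pow_one hdx1 2
  have hb6 : L.nm (dy W x y ^ 2 - 4 * fe W x y) ≤ L.nm (L.p : Ω) :=
    dy_sub_le hd2 (hha_mul (dy_num 4) hf)
  rw [hha_disc x y]
  refine dy_add_le (dy_sub_le (dy_sub_le ?_ ?_) ?_) ?_
  · rw [mul_comm]
    refine hha_mul ?_ ?_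
    · refine dy_sub_le (dy_add_le (dy_sub_le ?_ ?_) ?_) hx2
      · refine hha_mul ?_ hf1
        rw [L.neg]
        exact hb.trans hr1
      · exact hha_mul h.a₁ (hha_mul hdy1 hdx1)
      · exact hha_mul hA (hd2.trans hr1)
    · rw [L.neg, sq (algebraMap F Ω W.a₁ ^ 2 + 4 * (algebraMap F Ω W.a₂ + 3 * x))]
      exact hha_sq hr hb hb
  · rw [mul_comm]
    refine hha_mul (hb4.trans hr1) (hha_mul (dy_num 8) ?_)
    rw [sq (2 * dx W x y + algebraMap F Ω W.a₁ * dy W x y)]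
    exact hha_sq hr hb4 hb4
  · rw [mul_assoc]
    exact hha_mul (dy_num 27) (hha_sq hr hb6 hb6)
  · rw [mul_assoc]
    refine hha_sq hr (hha_mul (dy_num 9) hb) (hha_mul (hb4.trans hr1) hb6)

/-- If the reduction is singular it is nodal. Proof: `exists_sg` for `L.rc W` (`κ_closed`), `x₀`, `y₀` representatives of the coordinates in some `Ur ⊥ N` (`te_rep`). If the `b₂` of the curve translated by `x₀`,
`b = a₁² + 4 (a₂ + 3 x₀)`, has norm `< 1`, then it has norm `≤ nm p`, and with `a₃' = dy`, `a₄' = - dx`, `a₆' = - fe` of norm `≤ nm p` one gets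
`nm Δ ≤ nm p ^ 2` from the formula for `Δ` (`b₂'² b₈'`, `8 b₄'³`, `27 b₆'²`, `9 b₂' b₄' b₆'`). -/
theorem nod_tg (h : L.Hd W) (hs : L.nm (algebraMap F Ω W.Δ) < 1) :
    ∃ x₀ y₀ α β : L.κ, Tg (L.rc W) x₀ y₀ α β := by
  have hac : IsAlgClosed Ω := IsAlgClosure.isAlgClosed K
  have hκ : IsAlgClosed L.κ := L.κ_closed
  have hΔ : (L.rc W).Δ = 0 := (hh_dis h.toIt).uniq (L.hv_zero.2 hs)
  obtain ⟨r, s, hg⟩ := exists_sg (L.rc W) hΔ
  obtain ⟨x', hx'⟩ := L.hv_surj r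
  obtain ⟨y', hy'⟩ := L.hv_surj s
  obtain ⟨N₁, hN₁, x, hxT, hxx⟩ := te_rep (L := L) (L.hv_int hx')
  obtain ⟨N₂, hN₂, y, hyT, hyy⟩ := te_rep (L := L) (L.hv_int hy')
  have hx : L.rs.Hv x r := lifta_hv hx' (by rw [L.sub_comm]; exact hxx)
  have hy : L.rs.Hv y s := lifta_hv hy' (by rw [L.sub_comm]; exact hyy)
  have hx1 : L.nm x ≤ 1 := L.hv_int hx
  have hy1 : L.nm y ≤ 1 := L.hv_int hy
  have hN : N₁ * N₂ ≠ 0 := mul_ne_zero hN₁ hN₂
  have hxM : x ∈ L.Ur ⊥ (N₁ * N₂) := te_ur (te_dvd (dvd_mul_right N₁ N₂) hxT)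
  have hyM : y ∈ L.Ur ⊥ (N₁ * N₂) := te_ur (te_dvd (dvd_mul_left N₂ N₁) hyT)
  obtain ⟨m1, m2, m3⟩ := hha_mems (W := W) (L.Ur ⊥ (N₁ * N₂)) hxM hyM
  have f1 : L.nm (fe W x y) ≤ L.nm (L.p : Ω) := hha_lt hN m1 (by
    have h1 := lifta_fe h.toIt hx hy
    rw [show s ^ 2 + (L.rc W).a₁ * r * s + (L.rc W).a₃ * s -
      (r ^ 3 + (L.rc W).a₂ * r ^ 2 + (L.rc W).a₄ * r + (L.rc W).a₆) = 0 from
        sub_eq_zero.2 hg.eqn] at h1
    exact L.hv_zero.1 h1)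
  have f2 : L.nm (dx W x y) ≤ L.nm (L.p : Ω) := hha_lt hN m2 (by
    have h1 := lifta_dx h.toIt hx hy
    rw [show 3 * r ^ 2 + 2 * (L.rc W).a₂ * r + (L.rc W).a₄ - (L.rc W).a₁ * s = 0 from
        sub_eq_zero.2 hg.dx.symm] at h1
    exact L.hv_zero.1 h1)
  have f3 : L.nm (dy W x y) ≤ L.nm (L.p : Ω) := hha_lt hN m3 (by
    have h1 := lifta_dy h.toIt hx hy
    rw [hg.dy] at h1
    exact L.hv_zero.1 h1)
  have hb := hh_b h.toIt hx
  have hbM : algebraMap F Ω W.a₁ ^ 2 + 4 * (algebraMap F Ω W.a₂ + 3 * x) ∈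
      L.Ur ⊥ (N₁ * N₂) :=
    add_mem (pow_mem (hha_mem _ _) 2) (mul_mem (ofNat_mem _ 4)
      (add_mem (hha_mem _ _) (mul_mem (ofNat_mem _ 3) hxM)))
  have hne : (L.rc W).a₁ ^ 2 + 4 * ((L.rc W).a₂ + 3 * r) ≠ 0 := by
    intro h0
    rw [h0] at hb
    have f4 := hha_lt hN hbM (L.hv_zero.1 hb)
    have f5 := hh_le h.toIt hx1 hy1 f1 f2 f3 f4
    have f6 := h.disc.trans f5
    have f7 := L.p_pos
    have f8 := L.lt
    nlinarith
  obtain ⟨α, β, ht⟩ := exists_tg hg hne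
  exact ⟨r, s, α, β, ht⟩

omit [CharZero K] [Algebra F K] [IsScalarTower F K Ω] [IsAlgClosure K Ω] in
private theorem hh_disc (h : L.It W) : L.nm (algebraMap F Ω W.Δ) ≤ 1 := by
  let i : L.V →+* Ω := L.V.subtype
  let W' : WeierstrassCurve L.V := ⟨⟨_, h.a₁⟩, ⟨_, h.a₂⟩, ⟨_, h.a₃⟩, ⟨_, h.a₄⟩, ⟨_, h.a₆⟩⟩
  have e1 : W'.map i = W.map (algebraMap F Ω) := rfl
  have e3 : i W'.Δ = algebraMap F Ω W.Δ := by
    rw [← WeierstrassCurve.map_Δ, ← WeierstrassCurve.map_Δ, e1]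
  rw [← e3]
  exact W'.Δ.2

/-- **Divisibility modulo the formal group.** Proof: good reduction: `div'`, `ns_good`. Otherwise `nod_tg`, `nd_div` for the reduction of `a`, `rs_lift`, `rs_nsmul`, `cg_red`. -/
theorem dh [W.IsElliptic] (h : L.Hd W) {n : ℕ} (hn : n ≠ 0) {a : Pt W Ω} (ha : L.Ns a) :
    ∃ S : Pt W Ω, L.Ns S ∧ L.Cg (n • S) a := by
  have hac : IsAlgClosed Ω := IsAlgClosure.isAlgClosed K
  have hcz : CharZero Ω := charZero_of_injective_algebraMap (algebraMap K Ω).injective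
  rcases lt_or_ge (L.nm (algebraMap F Ω W.Δ)) 1 with hs | hs
  · obtain ⟨x₀, y₀, α, β, ht⟩ := nod_tg h hs
    obtain ⟨Q, hQ⟩ := ha
    have hκ : IsAlgClosed L.κ := L.κ_closed
    obtain ⟨Q', hQ'⟩ := nd_div ht n hn Q
    obtain ⟨S, hS⟩ := rs_lift h.toIt Q'
    refine ⟨S, ⟨Q', hS⟩, ?_⟩
    have h1 : L.Red (n • S) (n • Q') := rs_nsmul h.toIt.cv hS n
    exact (cg_red h.toIt h1 hQ).2 hQ'
  · obtain ⟨S, hS⟩ := div' n hn a
    refine ⟨S, ns_good ⟨h.toIt, le_antisymm (hh_disc h.toIt) hs⟩ S, ?_⟩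
    rw [hS]
    exact cg_refl a

end Ld

end PE
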