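import Pool.Agent.Lib.MP_f80667_ag.Pe.NsG
import Pool.Agent.Lib.MP_f80667_ag.Pe.Hh
import Pool.Agent.Lib.MP_f80667_ag.Pe.Zc

/-! Symbols are multiples of the prime numbers `l ≠ p`. -/

open ZC BE Polynomial IntermediateField

namespace PE

namespace Ld

variable {F : Type} [Field F] {K Ω : Type} [Field K] [CharZero K] [Field Ω] [Algebra K Ω]
  [Algebra F K] [Algebra F Ω] [IsScalarTower F K Ω] [IsAlgClosure K Ω] {L : Ld K Ω} [L.Unr]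
  {W₁ W₂ : WeierstrassCurve F} [W₁.IsElliptic] [W₂.IsElliptic] {G : Type} [AddCommGroup G]

/-- Division of points over `Ur ⊥ N` modulo the formal group: `P = n P' + P''`, `P''` in the formal group, over `Ur ⊥ N'` for all `N'` divisible by some `f`. Proof: `cp`, `dh`, `lift_ur`. -/
theorem dv_ur (h : L.Hd W₁) {N n : ℕ} (hN : N ≠ 0) (hn : n ≠ 0) {P : Pt W₁ Ω}
    (hP : Fx (L.Ur ⊥ N) P) : ∃ f ≠ 0, ∀ N' ≠ 0, f ∣ N' → N ∣ N' → ∃ P' P'' : Pt W₁ Ω,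
      Fx (L.Ur ⊥ N') P' ∧ Fx (L.Ur ⊥ N') P'' ∧ L.Fm P'' ∧ P = n • P' + P'' := by
  obtain ⟨R, hR, hc⟩ := dh h hn (cp h hN hP)
  obtain ⟨f, hf, hl⟩ := lift_ur h.toIt hR
  refine ⟨f, hf, fun N' hN' hfN hNN => ?_⟩
  obtain ⟨Q, hQ, hcQ⟩ := hl N' hN' hfN
  have hP' : Fx (L.Ur ⊥ N') P := hP.mono (ur_dvd ⊥ hNN)
  refine ⟨Q, P - n • Q, hQ, hP'.sub (hQ.nsmul n), ?_, by abel⟩
  have h1 : L.Cg (n • Q) (n • R) := by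
    unfold Cg
    rw [← nsmul_sub]
    exact (fm_nsmul h.toIt hcQ n).1
  exact cg_trans h.toIt (cg_symm h.toIt hc) (cg_symm h.toIt h1)

/-- **Theorem.** Proof: `exists_rf`: choose `N` with `Rf (Ur M N) N`; `Q = Nm Q'` (`nsg`), so replace `M` by `Ur M N` (`z_nm₂`). `Q' = Q₀ + l Q₁`, `Q₀` over `Ur ⊥ N` (`lift_rf`, `fm_div`). The
symbol `{P, Q₀}` is the symbol of `Nm P ∈ W₁(Ur ⊥ N)` (`z_nm₁`); `dv_ur`, `fm_div`: `Nm P = l P'` over some `Ur ⊥ N'`, `N ∣ N'`; `Q₀ = Nm Q₂` (`nsg`, `ur_ur`). -/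
theorem el (h₁ : L.Hd W₁) (h₂ : L.Gd W₂) (S : Sc K Ω (Pt W₁ Ω) (Pt W₂ Ω) G) {l : ℕ}
    (hl : l.Prime) (hlp : l ≠ L.p) (M : IntermediateField K Ω) [FiniteDimensional K M]
    {P : Pt W₁ Ω} {Q : Pt W₂ Ω} (hP : Fx M P) (hQ : Fx M Q) : S.Z l M P Q := by
  have hpl : ¬ L.p ∣ l := fun hd => hlp ((Nat.prime_dvd_prime_iff_eq L.pp hl).1 hd).symm
  obtain ⟨f, hf, hrf⟩ := exists_rf (L := L) M
  have hRf : L.Rf (L.Ur M f) f := hrf f hf dvd_rfl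
  have hfin : FiniteDimensional K (L.Ur M f) := ur_fin M f hf
  obtain ⟨Q', hQ', rfl⟩ := nsg h₂ M hf hQ
  rw [Sc.z_nm₂ ur_le hP hQ']
  have hP' : Fx (L.Ur M f) P := hP.mono ur_le
  obtain ⟨Q₀, hQ₀, hc⟩ := lift_rf h₂.toIt hRf (ns_good h₂ Q') hQ'
  have hQ₀' : Fx (L.Ur M f) Q₀ := hQ₀.mono (ur_bot_ur M f)
  obtain ⟨c, -, hc', he⟩ := fm_div h₂.toIt (L.Ur M f) hpl (cg_symm h₂.toIt hc) (hQ'.sub hQ₀')
  have hQe : Q' = Q₀ + l • c := by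
    rw [he]
    abel
  rw [hQe]
  refine Sc.z_add₂ hP' hQ₀' (hc'.nsmul l) ?_ (Sc.z_mul₂ hP' hc')
  have hfinB : FiniteDimensional K (L.Ur ⊥ f) := ur_fin ⊥ f hf
  rw [← Sc.z_nm₁ (ur_bot_ur M f) hP' hQ₀]
  have hP₁ : Fx (L.Ur ⊥ f) (Nm (L.Ur ⊥ f) (L.Ur M f) P) := nm_fx (ur_bot_ur M f) hP'
  obtain ⟨g, hg, hdv⟩ := dv_ur h₁ hf hl.ne_zero hP₁
  have hN' : f * g ≠ 0 := mul_ne_zero hf hg
  obtain ⟨P', P'', hP₂, hP₃, hfm, he₁⟩ := hdv (f * g) hN' (dvd_mul_left g f) (dvd_mul_right f g)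
  have hfinC : FiniteDimensional K (L.Ur ⊥ (f * g)) := ur_fin ⊥ (f * g) hN'
  obtain ⟨c₁, -, hc₁, he₂⟩ := fm_div h₁.toIt (L.Ur ⊥ (f * g)) hpl hfm hP₃
  obtain ⟨Q₂, hQ₂, he₃⟩ := nsg h₂ (L.Ur ⊥ f) hN' hQ₀
  rw [ur_ur ⊥ (dvd_mul_right f g)] at hQ₂ he₃
  have hle : L.Ur ⊥ f ≤ L.Ur ⊥ (f * g) := ur_dvd ⊥ (dvd_mul_right f g)
  rw [← he₃, Sc.z_nm₂ hle hP₁ hQ₂, he₁, ← he₂, ← nsmul_add]
  exact Sc.z_mul₁ (hP₂.add hc₁) hQ₂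

end Ld

end PE
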