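import Pool.Agent.Lib.MP_f80667_ag.Pe.Kd
import Pool.Agent.Lib.MP_f80667_ag.Pe.Lo

/-!
The K3 surface `f(x) s² = g(y) t²` and the product of two elliptic curves.

* `xh P`, `eta P`: homogeneous coordinates of the `x`-coordinate of a point, and the function `2 y + a₁ x + a₃`, as a section of
  the square of the line bundle: `eta P ^ 2 = pf W (xh P)`.
* `Qm f W`: a linear change of coordinates which moves the form `pf W` to `f` (up to a square).
* `kpi (P, Q)`: the point `(x(P), x(Q), (eta Q : eta P))` of the surface (`(1 : 0)` if both are `0`).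
* `knu`: the retraction of the exceptional curves `f(x) = g(y) = 0` to their points `(1 : 0)`.
-/

open ZC BE Polynomial

namespace PE

section wei

variable {M : Type} [Field M]

/-- The form `v₁ (4 v₀³ + b₂ v₀² v₁ + 2 b₄ v₀ v₁² + b₆ v₁³)`. -/
def pf (W : WeierstrassCurve M) {L : Type} [Field L] [Algebra M L] (v : L × L) : L :=
  v.2 * (4 * v.1 ^ 3 + algebraMap M L W.b₂ * v.1 ^ 2 * v.2 + 2 * algebraMap M L W.b₄ * v.1 * v.2 ^ 2 +
    algebraMap M L W.b₆ * v.2 ^ 3)

variable {W : WeierstrassCurve M} {L : Type} [Field L] [Algebra M L]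

/-- Homogeneous coordinates of the `x`-coordinate. -/
def xh : Pt W L → L × L
  | .zero => (1, 0)
  | .some x _ _ => (x, 1)

/-- The function `2 y + a₁ x + a₃`. -/
def eta : Pt W L → L
  | .zero => 0
  | .some x y _ => 2 * y + algebraMap M L W.a₁ * x + algebraMap M L W.a₃

private theorem eqn {x y : L} (h : (W.baseChange L).toAffine.Nonsingular x y) :
    y ^ 2 + algebraMap M L W.a₁ * x * y + algebraMap M L W.a₃ * y =
      x ^ 3 + algebraMap M L W.a₂ * x ^ 2 + algebraMap M L W.a₄ * x + algebraMap M L W.a₆ :=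
  (WeierstrassCurve.Affine.equation_iff x y).1 h.left

theorem xh_ne (P : Pt W L) : xh P ≠ 0 := by
  cases P with
  | zero => exact fun h => one_ne_zero (congrArg Prod.fst h)
  | some x y h => exact fun h => one_ne_zero (congrArg Prod.snd h)

theorem eta_sq (P : Pt W L) : eta P ^ 2 = pf W (xh P) := by
  cases P with
  | zero =>
    change (0 : L) ^ 2 = (0 : L) * _
    ring
  | some x y h =>
    have h1 := eqn h
    change (2 * y + algebraMap M L W.a₁ * x + algebraMap M L W.a₃) ^ 2 =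
      (1 : L) * (4 * x ^ 3 + algebraMap M L W.b₂ * x ^ 2 * 1 + 2 * algebraMap M L W.b₄ * x * 1 ^ 2 +
        algebraMap M L W.b₆ * 1 ^ 3)
    simp only [WeierstrassCurve.b₂, WeierstrassCurve.b₄, WeierstrassCurve.b₆, map_add, map_mul,
      map_pow, map_ofNat]
    linear_combination 4 * h1

theorem xh_map {N : Type} [Field N] [Algebra M N] (σ : L →ₐ[M] N) (P : Pt W L) :
    xh (Pt.map W σ P) = (σ (xh P).1, σ (xh P).2) := by
  cases P with
  | zero =>
    change ((1, 0) : N × N) = (σ 1, σ 0)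
    rw [map_one, map_zero]
  | some x y h =>
    change ((σ x, 1) : N × N) = (σ x, σ 1)
    rw [map_one]

theorem eta_map {N : Type} [Field N] [Algebra M N] (σ : L →ₐ[M] N) (P : Pt W L) :
    eta (Pt.map W σ P) = σ (eta P) := by
  cases P with
  | zero =>
    change (0 : N) = σ 0
    rw [map_zero]
  | some x y h =>
    change 2 * σ y + algebraMap M N W.a₁ * σ x + algebraMap M N W.a₃ =
      σ (2 * y + algebraMap M L W.a₁ * x + algebraMap M L W.a₃)
    rw [map_add, map_add, map_mul, map_mul, map_ofNat, AlgHom.commutes, AlgHom.commutes]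

theorem xh_neg (P : Pt W L) : xh (-P) = xh P := by
  cases P with
  | zero => rfl
  | some x y h => rfl

theorem eta_neg (P : Pt W L) : eta (-P) = -eta P := by
  cases P with
  | zero => exact neg_zero.symm
  | some x y h =>
    change 2 * (-y - algebraMap M L W.a₁ * x - algebraMap M L W.a₃) + algebraMap M L W.a₁ * x +
      algebraMap M L W.a₃ = -(2 * y + algebraMap M L W.a₁ * x + algebraMap M L W.a₃)
    ring

/-- Points with proportional `xh`. Proof: the same `x`-coordinate. -/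
theorem xh_eq {P P' : Pt W L} {a : L} (h : xh P' = (a * (xh P).1, a * (xh P).2)) :
    a = 1 ∧ (P' = P ∨ P' = -P) := by
  cases P with
  | zero =>
    cases P' with
    | zero =>
      have h1 : (1 : L) = a * 1 := congrArg Prod.fst h
      exact ⟨by rw [h1, mul_one], Or.inl rfl⟩
    | some x' y' hn' =>
      have h1 : (1 : L) = a * 0 := congrArg Prod.snd h
      rw [mul_zero] at h1
      exact absurd h1 one_ne_zero
  | some x y hn =>
    cases P' with
    | zero =>
      have h1 : (1 : L) = a * x := congrArg Prod.fst h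
      have h2 : (0 : L) = a * 1 := congrArg Prod.snd h
      rw [mul_one] at h2
      rw [← h2, zero_mul] at h1
      exact absurd h1 one_ne_zero
    | some x' y' hn' =>
      have h1 : x' = a * x := congrArg Prod.fst h
      have h2 : (1 : L) = a * 1 := congrArg Prod.snd h
      rw [mul_one] at h2
      rw [← h2, one_mul] at h1
      refine ⟨h2.symm, ?_⟩
      subst h1
      rcases WeierstrassCurve.Affine.Y_eq_of_X_eq hn'.left hn.left rfl with h3 | h3
      · left
        subst h3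
        rfl
      · right
        subst h3
        rfl

/-- Proof: `eta P = eta P'` for the points `P`, `P'` with the same `x`-coordinate. -/
theorem xh_eta [CharZero L] {P P' : Pt W L} (h : xh P' = xh P) (h' : eta P' = eta P) : P' = P := by
  cases P with
  | zero =>
    cases P' with
    | zero => rfl
    | some x' y' hn' =>
      have h1 : (1 : L) = 0 := congrArg Prod.snd h
      exact absurd h1 one_ne_zero
  | some x y hn =>
    cases P' with
    | zero =>
      have h1 : (0 : L) = 1 := congrArg Prod.snd h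
      exact absurd h1.symm one_ne_zero
    | some x' y' hn' =>
      have h1 : x' = x := congrArg Prod.fst h
      subst h1
      have h2 : 2 * y' + algebraMap M L W.a₁ * x' + algebraMap M L W.a₃ =
        2 * y + algebraMap M L W.a₁ * x' + algebraMap M L W.a₃ := h'
      have h3 : y' = y := by
        have h4 : (2 : L) * y' = 2 * y := by linear_combination h2
        exact mul_left_cancel₀ two_ne_zero h4
      subst h3
      rfl

/-- Every point of the projective line is the `x`-coordinate of a point. -/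
theorem xh_surj [CharZero L] [IsAlgClosed L] [W.IsElliptic] {v : L × L} (hv : v ≠ 0) :
    ∃ (P : Pt W L) (a : L), a ≠ 0 ∧ v = (a * (xh P).1, a * (xh P).2) := by
  by_cases h2 : v.2 = 0
  · refine ⟨WeierstrassCurve.Affine.Point.zero, v.1, ?_, ?_⟩
    · intro h1
      exact hv (Prod.ext h1 h2)
    · refine Prod.ext ?_ ?_
      · exact (mul_one _).symm
      · exact h2.trans (mul_zero _).symm
  · obtain ⟨x, hx⟩ : ∃ x : L, x = v.1 / v.2 := ⟨_, rfl⟩
    obtain ⟨s, hs⟩ := IsAlgClosed.exists_pow_nat_eq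
      (4 * (x ^ 3 + algebraMap M L W.a₂ * x ^ 2 + algebraMap M L W.a₄ * x + algebraMap M L W.a₆) +
        (algebraMap M L W.a₁ * x + algebraMap M L W.a₃) ^ 2) (n := 2) two_pos
    obtain ⟨y, hy⟩ : ∃ y : L, 2 * y = s - algebraMap M L W.a₁ * x - algebraMap M L W.a₃ :=
      ⟨(s - algebraMap M L W.a₁ * x - algebraMap M L W.a₃) / 2, mul_div_cancel₀ _ two_ne_zero⟩
    have hs' : s = 2 * y + algebraMap M L W.a₁ * x + algebraMap M L W.a₃ := by
      rw [hy]
      ring
    have he : (W.baseChange L).toAffine.Equation x y := by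
      refine (WeierstrassCurve.Affine.equation_iff x y).2 ?_
      change y ^ 2 + algebraMap M L W.a₁ * x * y + algebraMap M L W.a₃ * y =
        x ^ 3 + algebraMap M L W.a₂ * x ^ 2 + algebraMap M L W.a₄ * x + algebraMap M L W.a₆
      have h4 : (4 : L) ≠ 0 := by norm_num
      refine mul_left_cancel₀ h4 ?_
      rw [hs'] at hs
      linear_combination hs
    haveI he' : (W.baseChange L).toAffine.IsElliptic :=
      (inferInstance : (W.map (algebraMap M L)).IsElliptic)
    have hn : (W.baseChange L).toAffine.Nonsingular x y :=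
      WeierstrassCurve.Affine.equation_iff_nonsingular.1 he
    refine ⟨WeierstrassCurve.Affine.Point.some x y hn, v.2, h2, ?_⟩
    refine Prod.ext ?_ ?_
    · change v.1 = v.2 * x
      rw [hx, mul_div_cancel₀ _ h2]
    · exact (mul_one _).symm

end wei

section maps

variable {F : Type} [Field F] {f g : F[X]} {M : Type} [Field M] [Algebra F M]

/-- A linear change of coordinates. -/
structure Qm (f : F[X]) (W : WeierstrassCurve M) where
  /-- a coefficient of the matrix -/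
  p : M
  /-- a coefficient of the matrix -/
  q : M
  /-- a coefficient of the matrix -/
  r : M
  /-- a coefficient of the matrix -/
  s : M
  /-- the factor -/
  c : M
  det : p * s - q * r ≠ 0
  hc : c ≠ 0
  eq : ∀ (L : Type) [Field L] [Algebra F L] [Algebra M L] [IsScalarTower F M L] (v : L × L),
    qf f (algebraMap M L p * v.1 + algebraMap M L q * v.2,
      algebraMap M L r * v.1 + algebraMap M L s * v.2) = algebraMap M L c ^ 2 * pf W v

variable {W W₁ W₂ : WeierstrassCurve M} {L : Type} [Field L] [Algebra F L] [Algebra M L]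
  [IsScalarTower F M L]

/-- The linear map. -/
def Qm.mv (Q : Qm f W) (v : L × L) : L × L :=
  (algebraMap M L Q.p * v.1 + algebraMap M L Q.q * v.2,
    algebraMap M L Q.r * v.1 + algebraMap M L Q.s * v.2)

omit [Algebra F L] [IsScalarTower F M L] in
private theorem Qm.dne (Q : Qm f W) : algebraMap M L Q.p * algebraMap M L Q.s -
    algebraMap M L Q.q * algebraMap M L Q.r ≠ 0 := by
  rw [← map_mul, ← map_mul, ← map_sub]
  exact (map_ne_zero (algebraMap M L)).2 Q.det

omit [Algebra F L] [IsScalarTower F M L] in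
private theorem Qm.inj' (Q : Qm f W) {v v' : L × L}
    (h1 : algebraMap M L Q.p * v'.1 + algebraMap M L Q.q * v'.2 =
      algebraMap M L Q.p * v.1 + algebraMap M L Q.q * v.2)
    (h2 : algebraMap M L Q.r * v'.1 + algebraMap M L Q.s * v'.2 =
      algebraMap M L Q.r * v.1 + algebraMap M L Q.s * v.2) : v' = v := by
  have hd := Q.dne (L := L)
  refine Prod.ext ?_ ?_
  · refine mul_left_cancel₀ hd ?_
    linear_combination algebraMap M L Q.s * h1 - algebraMap M L Q.q * h2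
  · refine mul_left_cancel₀ hd ?_
    linear_combination algebraMap M L Q.p * h2 - algebraMap M L Q.r * h1

theorem Qm.mv_ne (Q : Qm f W) {v : L × L} (hv : v ≠ 0) : Q.mv v ≠ 0 := by
  intro h
  apply hv
  have h1 : algebraMap M L Q.p * v.1 + algebraMap M L Q.q * v.2 = 0 := congrArg Prod.fst h
  have h2 : algebraMap M L Q.r * v.1 + algebraMap M L Q.s * v.2 = 0 := congrArg Prod.snd h
  refine Q.inj' (v := (0 : L × L)) ?_ ?_
  · rw [h1]
    change (0 : L) = _ * 0 + _ * 0
    ring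
  · rw [h2]
    change (0 : L) = _ * 0 + _ * 0
    ring

/-- Proof: the inverse matrix. -/
theorem Qm.mv_surj (Q : Qm f W) (u : L × L) : ∃ v, Q.mv v = u := by
  have hd := Q.dne (L := L)
  obtain ⟨d, hd'⟩ : ∃ d : L, d = algebraMap M L Q.p * algebraMap M L Q.s -
    algebraMap M L Q.q * algebraMap M L Q.r := ⟨_, rfl⟩
  rw [← hd'] at hd
  refine ⟨((algebraMap M L Q.s * u.1 - algebraMap M L Q.q * u.2) / d,
    (algebraMap M L Q.p * u.2 - algebraMap M L Q.r * u.1) / d), ?_⟩
  unfold Qm.mv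
  refine Prod.ext ?_ ?_
  · dsimp only
    field_simp
    rw [hd']
    ring
  · dsimp only
    field_simp
    rw [hd']
    ring

/-- Proof: the determinant. -/
theorem Qm.mv_inj (Q : Qm f W) {v v' : L × L} {a : L}
    (h : Q.mv v' = (a * (Q.mv v).1, a * (Q.mv v).2)) : v' = (a * v.1, a * v.2) := by
  have h1 : algebraMap M L Q.p * v'.1 + algebraMap M L Q.q * v'.2 =
    a * (algebraMap M L Q.p * v.1 + algebraMap M L Q.q * v.2) := congrArg Prod.fst h
  have h2 : algebraMap M L Q.r * v'.1 + algebraMap M L Q.s * v'.2 =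
    a * (algebraMap M L Q.r * v.1 + algebraMap M L Q.s * v.2) := congrArg Prod.snd h
  refine Q.inj' ?_ ?_
  · dsimp only
    rw [h1]
    ring
  · dsimp only
    rw [h2]
    ring

theorem Qm.sq (Q : Qm f W) (P : Pt W L) :
    qf f (Q.mv (xh P)) = (algebraMap M L Q.c * eta P) ^ 2 := by
  refine (Q.eq L (xh P)).trans ?_
  rw [mul_pow, eta_sq]

open Classical in
/-- The coordinates `(s, t)` of `kpi (P, Q)`. -/
noncomputable def kt (Q₁ : Qm f W₁) (Q₂ : Qm g W₂) (P : Pt W₁ L × Pt W₂ L) : L × L :=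
  if eta P.1 = 0 ∧ eta P.2 = 0 then (1, 0) else
    (algebraMap M L Q₂.c * eta P.2, algebraMap M L Q₁.c * eta P.1)

omit [Algebra F L] [IsScalarTower F M L] in
private theorem Qm.cne (Q : Qm f W) : algebraMap M L Q.c ≠ 0 :=
  (map_ne_zero (algebraMap M L)).2 Q.hc

theorem kt_ne (Q₁ : Qm f W₁) (Q₂ : Qm g W₂) (P : Pt W₁ L × Pt W₂ L) : kt Q₁ Q₂ P ≠ 0 := by
  classical
  rw [kt]
  split_ifs with h
  · exact fun h0 => one_ne_zero (congrArg Prod.fst h0)
  · intro h0
    apply h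
    have h1 : algebraMap M L Q₂.c * eta P.2 = 0 := congrArg Prod.fst h0
    have h2 : algebraMap M L Q₁.c * eta P.1 = 0 := congrArg Prod.snd h0
    exact ⟨(mul_eq_zero.1 h2).resolve_left Q₁.cne, (mul_eq_zero.1 h1).resolve_left Q₂.cne⟩

/-- The coordinates of `kpi (P, Q)`. -/
noncomputable def kpc (Q₁ : Qm f W₁) (Q₂ : Qm g W₂) (P : Pt W₁ L × Pt W₂ L) : Kc f g L where
  x := Q₁.mv (xh P.1)
  y := Q₂.mv (xh P.2)
  t := kt Q₁ Q₂ P
  hx := Q₁.mv_ne (xh_ne _)
  hy := Q₂.mv_ne (xh_ne _)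
  ht := kt_ne _ _ _
  eq := by
    classical
    rw [Q₁.sq, Q₂.sq, kt]
    split_ifs with h
    · rw [h.1, h.2]
      ring
    · dsimp only
      ring

/-- The map from the product to the surface. -/
noncomputable def kpi (Q₁ : Qm f W₁) (Q₂ : Qm g W₂) (P : Pt W₁ L × Pt W₂ L) : (Kv f g).pt L :=
  Quotient.mk _ (kpc Q₁ Q₂ P)

open Classical in
/-- The retraction on coordinates. -/
noncomputable def Kc.nu (P : Kc f g L) : Kc f g L :=
  if h : qf f P.x = 0 ∧ qf g P.y = 0 then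
    { P with
      t := (1, 0)
      ht := fun h0 => one_ne_zero (congrArg Prod.fst h0)
      eq := by rw [h.1, h.2, zero_mul, zero_mul] }
  else P

omit [Algebra M L] [IsScalarTower F M L] in
private theorem kc_ext {P Q : Kc f g L} (hx : P.x = Q.x) (hy : P.y = Q.y) (ht : P.t = Q.t) :
    P = Q := by
  cases P
  cases Q
  dsimp only at hx hy ht
  subst hx hy ht
  rfl

omit [Algebra M L] [IsScalarTower F M L] in
private theorem Kc.rel_qx {P Q : Kc f g L} (h : P.Rel Q) :
    (qf f Q.x = 0 ↔ qf f P.x = 0) ∧ (qf g Q.y = 0 ↔ qf g P.y = 0) := by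
  obtain ⟨a, b, c, ha, hb, hc, h1, h2, h3⟩ := h
  rw [h1, h2, qf_mul, qf_mul]
  refine ⟨?_, ?_⟩
  · rw [mul_eq_zero, or_iff_right (pow_ne_zero 4 ha)]
  · rw [mul_eq_zero, or_iff_right (pow_ne_zero 4 hb)]

omit [Algebra M L] [IsScalarTower F M L] in
theorem Kc.nu_rel {P Q : Kc f g L} (h : P.Rel Q) : P.nu.Rel Q.nu := by
  classical
  have hq := Kc.rel_qx h
  obtain ⟨a, b, c, ha, hb, hc, h1, h2, h3⟩ := h
  by_cases h0 : qf f P.x = 0 ∧ qf g P.y = 0
  · have h0' : qf f Q.x = 0 ∧ qf g Q.y = 0 := ⟨hq.1.2 h0.1, hq.2.2 h0.2⟩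
    refine ⟨a, b, (b ^ 2)⁻¹, ha, hb, inv_ne_zero (pow_ne_zero 2 hb), ?_, ?_, ?_⟩
    · rw [Kc.nu, Kc.nu, dif_pos h0, dif_pos h0']
      exact h1
    · rw [Kc.nu, Kc.nu, dif_pos h0, dif_pos h0']
      exact h2
    · rw [Kc.nu, Kc.nu, dif_pos h0, dif_pos h0']
      change ((1, 0) : L × L) = ((b ^ 2)⁻¹ * b ^ 2 * 1, (b ^ 2)⁻¹ * a ^ 2 * 0)
      rw [inv_mul_cancel₀ (pow_ne_zero 2 hb), mul_one, mul_zero]
  · have h0' : ¬ (qf f Q.x = 0 ∧ qf g Q.y = 0) := fun h' => h0 ⟨hq.1.1 h'.1, hq.2.1 h'.2⟩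
    rw [Kc.nu, Kc.nu, dif_neg h0, dif_neg h0']
    exact ⟨a, b, c, ha, hb, hc, h1, h2, h3⟩

/-- The retraction. -/
noncomputable def knu : (Kv f g).pt L → (Kv f g).pt L :=
  Quotient.map Kc.nu fun _ _ h => Kc.nu_rel h

omit [Algebra M L] [IsScalarTower F M L] in
theorem knu_map {N : Type} [Field N] [Algebra F N] (σ : L →ₐ[F] N) (x : (Kv f g).pt L) :
    knu ((Kv f g).map σ x) = (Kv f g).map σ (knu x) := by
  classical
  induction x using Quotient.inductionOn with
  | h P =>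
    change (Quotient.mk (Kc.sd f g N) (Kc.nu (Kc.mp σ P)) : Quotient (Kc.sd f g N)) =
      Quotient.mk (Kc.sd f g N) (Kc.mp σ (Kc.nu P))
    congr 1
    have e1 : qf f (Kc.mp σ P).x = σ (qf f P.x) := qf_map f σ P.x
    have e2 : qf g (Kc.mp σ P).y = σ (qf g P.y) := qf_map g σ P.y
    by_cases h0 : qf f P.x = 0 ∧ qf g P.y = 0
    · have h0' : qf f (Kc.mp σ P).x = 0 ∧ qf g (Kc.mp σ P).y = 0 := by
        rw [e1, e2, h0.1, h0.2, map_zero]
        exact ⟨rfl, rfl⟩
      rw [Kc.nu, Kc.nu, dif_pos h0, dif_pos h0']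
      unfold Kc.mp
      simp only [map_one, map_zero]
    · have h0' : ¬ (qf f (Kc.mp σ P).x = 0 ∧ qf g (Kc.mp σ P).y = 0) := by
        rw [e1, e2]
        exact fun h' => h0 ⟨(map_eq_zero σ).1 h'.1, (map_eq_zero σ).1 h'.2⟩
      rw [Kc.nu, Kc.nu, dif_neg h0, dif_neg h0']

omit [Algebra M L] [IsScalarTower F M L] in
theorem knu_nu (x : (Kv f g).pt L) : knu (knu x) = knu x := by
  classical
  induction x using Quotient.inductionOn with
  | h P =>
    change (Quotient.mk (Kc.sd f g L) (Kc.nu (Kc.nu P)) : Quotient (Kc.sd f g L)) =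
      Quotient.mk (Kc.sd f g L) (Kc.nu P)
    congr 1
    by_cases h0 : qf f P.x = 0 ∧ qf g P.y = 0
    · have e1 : (Kc.nu P).x = P.x := by rw [Kc.nu, dif_pos h0]
      have e2 : (Kc.nu P).y = P.y := by rw [Kc.nu, dif_pos h0]
      have e3 : (Kc.nu P).t = (1, 0) := by rw [Kc.nu, dif_pos h0]
      obtain ⟨R, hR⟩ : ∃ R, R = Kc.nu P := ⟨_, rfl⟩
      rw [← hR] at e1 e2 e3 ⊢
      have h1 : qf f R.x = 0 ∧ qf g R.y = 0 := by
        rw [e1, e2]
        exact h0
      rw [Kc.nu, dif_pos h1]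
      exact kc_ext rfl rfl e3.symm
    · have e : Kc.nu P = P := by rw [Kc.nu, dif_neg h0]
      rw [e, e]

omit [Algebra F L] [IsScalarTower F M L] in
private theorem mv_map' (Q : Qm f W) {N : Type} [Field N] [Algebra M N] (σ : L →ₐ[M] N)
    (v : L × L) : Q.mv (σ v.1, σ v.2) = (σ (Q.mv v).1, σ (Q.mv v).2) := by
  unfold Qm.mv
  refine Prod.ext ?_ ?_
  · dsimp only
    rw [map_add, map_mul, map_mul, AlgHom.commutes, AlgHom.commutes]
  · dsimp only
    rw [map_add, map_mul, map_mul, AlgHom.commutes, AlgHom.commutes]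

theorem kpi_map (Q₁ : Qm f W₁) (Q₂ : Qm g W₂) {N : Type} [Field N] [Algebra F N] [Algebra M N]
    [IsScalarTower F M N] (σ : L →ₐ[M] N) (P : Pt W₁ L × Pt W₂ L) :
    (Kv f g).map (σ.restrictScalars F) (kpi Q₁ Q₂ P) =
      kpi Q₁ Q₂ (Pt.map W₁ σ P.1, Pt.map W₂ σ P.2) := by
  classical
  change (Quotient.mk (Kc.sd f g N) (Kc.mp (σ.restrictScalars F) (kpc Q₁ Q₂ P)) :
      Quotient (Kc.sd f g N)) =
    Quotient.mk (Kc.sd f g N) (kpc Q₁ Q₂ (Pt.map W₁ σ P.1, Pt.map W₂ σ P.2))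
  have hx : (Kc.mp (σ.restrictScalars F) (kpc Q₁ Q₂ P)).x =
      (kpc Q₁ Q₂ (Pt.map W₁ σ P.1, Pt.map W₂ σ P.2)).x := by
    change (σ (Q₁.mv (xh P.1)).1, σ (Q₁.mv (xh P.1)).2) = Q₁.mv (xh (Pt.map W₁ σ P.1))
    rw [xh_map, mv_map']
  have hy : (Kc.mp (σ.restrictScalars F) (kpc Q₁ Q₂ P)).y =
      (kpc Q₁ Q₂ (Pt.map W₁ σ P.1, Pt.map W₂ σ P.2)).y := by
    change (σ (Q₂.mv (xh P.2)).1, σ (Q₂.mv (xh P.2)).2) = Q₂.mv (xh (Pt.map W₂ σ P.2))
    rw [xh_map, mv_map']
  have ht : (Kc.mp (σ.restrictScalars F) (kpc Q₁ Q₂ P)).t =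
      (kpc Q₁ Q₂ (Pt.map W₁ σ P.1, Pt.map W₂ σ P.2)).t := by
    change (σ (kt Q₁ Q₂ P).1, σ (kt Q₁ Q₂ P).2) = kt Q₁ Q₂ (Pt.map W₁ σ P.1, Pt.map W₂ σ P.2)
    rw [kt, kt]
    simp only [eta_map, map_eq_zero]
    split_ifs with h
    · simp only [map_one, map_zero]
    · simp only [map_mul, AlgHom.commutes]
  congr 1
  exact kc_ext hx hy ht

/-- Proof: `Qm.sq`: both forms vanish if and only if both `eta` do. -/
theorem knu_kpi (Q₁ : Qm f W₁) (Q₂ : Qm g W₂) (P : Pt W₁ L × Pt W₂ L) :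
    knu (kpi Q₁ Q₂ P) = kpi Q₁ Q₂ P := by
  classical
  change (Quotient.mk (Kc.sd f g L) (Kc.nu (kpc Q₁ Q₂ P)) : Quotient (Kc.sd f g L)) =
    Quotient.mk (Kc.sd f g L) (kpc Q₁ Q₂ P)
  congr 1
  by_cases h0 : qf f (kpc Q₁ Q₂ P).x = 0 ∧ qf g (kpc Q₁ Q₂ P).y = 0
  · rw [Kc.nu, dif_pos h0]
    refine kc_ext rfl rfl ?_
    change ((1, 0) : L × L) = kt Q₁ Q₂ P
    have h1 : qf f (Q₁.mv (xh P.1)) = 0 := h0.1
    have h2 : qf g (Q₂.mv (xh P.2)) = 0 := h0.2
    rw [Qm.sq] at h1 h2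
    have h3 := (mul_eq_zero.1 (pow_eq_zero_iff two_ne_zero |>.1 h1)).resolve_left Q₁.cne
    have h4 := (mul_eq_zero.1 (pow_eq_zero_iff two_ne_zero |>.1 h2)).resolve_left Q₂.cne
    rw [kt, if_pos ⟨h3, h4⟩]
  · rw [Kc.nu, dif_neg h0]

theorem kpi_neg (Q₁ : Qm f W₁) (Q₂ : Qm g W₂) (P : Pt W₁ L × Pt W₂ L) :
    kpi Q₁ Q₂ (-P) = kpi Q₁ Q₂ P := by
  classical
  have hx1 : xh (-P).1 = xh P.1 := xh_neg P.1
  have hx2 : xh (-P).2 = xh P.2 := xh_neg P.2
  have he1 : eta (-P).1 = -eta P.1 := eta_neg P.1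
  have he2 : eta (-P).2 = -eta P.2 := eta_neg P.2
  refine Quotient.sound (s := Kc.sd f g L) ?_
  by_cases h : eta P.1 = 0 ∧ eta P.2 = 0
  · refine ⟨1, 1, 1, one_ne_zero, one_ne_zero, one_ne_zero, ?_, ?_, ?_⟩
    · change Q₁.mv (xh P.1) = (1 * (Q₁.mv (xh (-P).1)).1, 1 * (Q₁.mv (xh (-P).1)).2)
      rw [hx1, one_mul, one_mul]
    · change Q₂.mv (xh P.2) = (1 * (Q₂.mv (xh (-P).2)).1, 1 * (Q₂.mv (xh (-P).2)).2)
      rw [hx2, one_mul, one_mul]
    · change kt Q₁ Q₂ P = (1 * 1 ^ 2 * (kt Q₁ Q₂ (-P)).1, 1 * 1 ^ 2 * (kt Q₁ Q₂ (-P)).2)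
      rw [kt, kt, he1, he2, if_pos h, if_pos ⟨neg_eq_zero.2 h.1, neg_eq_zero.2 h.2⟩]
      simp only [one_pow, mul_one, mul_zero]
  · refine ⟨1, 1, -1, one_ne_zero, one_ne_zero, neg_ne_zero.2 one_ne_zero, ?_, ?_, ?_⟩
    · change Q₁.mv (xh P.1) = (1 * (Q₁.mv (xh (-P).1)).1, 1 * (Q₁.mv (xh (-P).1)).2)
      rw [hx1, one_mul, one_mul]
    · change Q₂.mv (xh P.2) = (1 * (Q₂.mv (xh (-P).2)).1, 1 * (Q₂.mv (xh (-P).2)).2)
      rw [hx2, one_mul, one_mul]
    · change kt Q₁ Q₂ P = (-1 * 1 ^ 2 * (kt Q₁ Q₂ (-P)).1, -1 * 1 ^ 2 * (kt Q₁ Q₂ (-P)).2)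
      have h' : ¬ (-eta P.1 = 0 ∧ -eta P.2 = 0) := fun h0 =>
        h ⟨neg_eq_zero.1 h0.1, neg_eq_zero.1 h0.2⟩
      rw [kt, kt, he1, he2, if_neg h, if_neg h']
      refine Prod.ext ?_ ?_
      · dsimp only
        ring
      · dsimp only
        ring

omit [Algebra F L] [IsScalarTower F M L] in
private theorem mv_smul' (Q : Qm f W) (a : L) (v : L × L) :
    Q.mv (a * v.1, a * v.2) = (a * (Q.mv v).1, a * (Q.mv v).2) := by
  unfold Qm.mv
  refine Prod.ext ?_ ?_
  · dsimp only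
    ring
  · dsimp only
    ring

/-- Proof: `mv_surj`, `xh_surj` for both coordinates: after scaling, `x = mv (xh P)`, `y = mv (xh Q)`, `(c₁ eta P t₀) ^ 2 = (c₂ eta Q t₁) ^ 2`; change the sign of `Q` if necessary: `c₁ eta P t₀ = c₂ eta Q t₁`, so `(t₀ : t₁) = (c₂ eta Q : c₁ eta P)` or both `eta` vanish. -/
theorem kpi_surj [CharZero L] [IsAlgClosed L] [W₁.IsElliptic] [W₂.IsElliptic] (Q₁ : Qm f W₁)
    (Q₂ : Qm g W₂) (x : (Kv f g).pt L) : ∃ P : Pt W₁ L × Pt W₂ L, kpi Q₁ Q₂ P = knu x := by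
  classical
  induction x using Quotient.inductionOn with
  | h K =>
    obtain ⟨v, hv⟩ := Q₁.mv_surj K.x
    obtain ⟨w, hw⟩ := Q₂.mv_surj K.y
    have hv0 : v ≠ 0 := by
      intro h0
      apply K.hx
      rw [← hv, h0]
      unfold Qm.mv
      simp only [Prod.fst_zero, Prod.snd_zero, mul_zero, add_zero]
      rfl
    have hw0 : w ≠ 0 := by
      intro h0
      apply K.hy
      rw [← hw, h0]
      unfold Qm.mv
      simp only [Prod.fst_zero, Prod.snd_zero, mul_zero, add_zero]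
      rfl
    obtain ⟨P, a, ha, hP⟩ := xh_surj (W := W₁) hv0
    obtain ⟨Q, b, hb, hQ⟩ := xh_surj (W := W₂) hw0
    have ex : K.x = (a * (Q₁.mv (xh P)).1, a * (Q₁.mv (xh P)).2) := by
      rw [← hv, hP, mv_smul']
    have ey : K.y = (b * (Q₂.mv (xh Q)).1, b * (Q₂.mv (xh Q)).2) := by
      rw [← hw, hQ, mv_smul']
    have e1 : qf f K.x = a ^ 4 * (algebraMap M L Q₁.c * eta P) ^ 2 := by
      rw [ex, qf_mul, Q₁.sq]
    have e2 : qf g K.y = b ^ 4 * (algebraMap M L Q₂.c * eta Q) ^ 2 := by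
      rw [ey, qf_mul, Q₂.sq]
    by_cases h0 : qf f K.x = 0 ∧ qf g K.y = 0
    · refine ⟨(P, Q), ?_⟩
      refine Quotient.sound (s := Kc.sd f g L) ?_
      have h1 : eta P = 0 := by
        have h2 := h0.1
        rw [e1] at h2
        have h3 := (mul_eq_zero.1 h2).resolve_left (pow_ne_zero 4 ha)
        exact (mul_eq_zero.1 (pow_eq_zero_iff two_ne_zero |>.1 h3)).resolve_left Q₁.cne
      have h2 : eta Q = 0 := by
        have h2 := h0.2
        rw [e2] at h2
        have h3 := (mul_eq_zero.1 h2).resolve_left (pow_ne_zero 4 hb)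
        exact (mul_eq_zero.1 (pow_eq_zero_iff two_ne_zero |>.1 h3)).resolve_left Q₂.cne
      rw [Kc.nu, dif_pos h0]
      refine ⟨a, b, (b ^ 2)⁻¹, ha, hb, inv_ne_zero (pow_ne_zero 2 hb), ex, ey, ?_⟩
      change ((1, 0) : L × L) = ((b ^ 2)⁻¹ * b ^ 2 * (kt Q₁ Q₂ (P, Q)).1,
        (b ^ 2)⁻¹ * a ^ 2 * (kt Q₁ Q₂ (P, Q)).2)
      rw [kt, if_pos ⟨h1, h2⟩]
      change ((1, 0) : L × L) = ((b ^ 2)⁻¹ * b ^ 2 * 1, (b ^ 2)⁻¹ * a ^ 2 * 0)
      rw [inv_mul_cancel₀ (pow_ne_zero 2 hb), mul_one, mul_zero]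
    · have hK := K.eq
      rw [e1, e2] at hK
      have hK2 : (a ^ 2 * (algebraMap M L Q₁.c * eta P) * K.t.1) ^ 2 =
          (b ^ 2 * (algebraMap M L Q₂.c * eta Q) * K.t.2) ^ 2 := by
        linear_combination hK
      have key : ∀ R : Pt W₂ L, xh R = xh Q → (eta R = eta Q ∨ eta R = -eta Q) →
          a ^ 2 * (algebraMap M L Q₁.c * eta P) * K.t.1 =
            b ^ 2 * (algebraMap M L Q₂.c * eta R) * K.t.2 → kpi Q₁ Q₂ (P, R) =
            knu (Quotient.mk (Kc.sd f g L) K) := by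
        intro R hR1 hR2 hR3
        refine Quotient.sound (s := Kc.sd f g L) ?_
        rw [Kc.nu, dif_neg h0]
        have hR4 : ¬ (eta P = 0 ∧ eta R = 0) := by
          intro h1
          apply h0
          rw [e1, e2]
          have h2 : eta Q = 0 := by
            rcases hR2 with h2 | h2
            · rw [← h2, h1.2]
            · rw [h1.2] at h2
              exact neg_eq_zero.1 h2.symm
          rw [h1.1, h2]
          constructor <;> ring
        obtain ⟨c, hc⟩ : ∃ c : L, K.t = (c * b ^ 2 * (algebraMap M L Q₂.c * eta R),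
            c * a ^ 2 * (algebraMap M L Q₁.c * eta P)) := by
          by_cases hP0 : eta P = 0
          · have hR0 : eta R ≠ 0 := fun h => hR4 ⟨hP0, h⟩
            have hne : b ^ 2 * (algebraMap M L Q₂.c * eta R) ≠ 0 :=
              mul_ne_zero (pow_ne_zero 2 hb) (mul_ne_zero Q₂.cne hR0)
            have ht2 : K.t.2 = 0 := by
              rw [hP0, mul_zero, mul_zero, zero_mul] at hR3
              exact (mul_eq_zero.1 hR3.symm).resolve_left hne
            refine ⟨K.t.1 / (b ^ 2 * (algebraMap M L Q₂.c * eta R)), Prod.ext ?_ ?_⟩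
            · dsimp only
              rw [mul_assoc, div_mul_cancel₀ _ hne]
            · dsimp only
              rw [hP0, mul_zero, mul_zero]
              exact ht2
          · have hne : a ^ 2 * (algebraMap M L Q₁.c * eta P) ≠ 0 :=
              mul_ne_zero (pow_ne_zero 2 ha) (mul_ne_zero Q₁.cne hP0)
            refine ⟨K.t.2 / (a ^ 2 * (algebraMap M L Q₁.c * eta P)), Prod.ext ?_ ?_⟩
            · dsimp only
              refine mul_left_cancel₀ hne ?_
              rw [hR3, mul_assoc (K.t.2 / _), ← mul_assoc (a ^ 2 * _), mul_div_cancel₀ _ hne]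
              ring
            · dsimp only
              rw [mul_assoc, div_mul_cancel₀ _ hne]
        have hc0 : c ≠ 0 := by
          intro h1
          apply K.ht
          rw [hc, h1, zero_mul, zero_mul, zero_mul, zero_mul]
          rfl
        refine ⟨a, b, c, ha, hb, hc0, ex, ?_, ?_⟩
        · change K.y = (b * (Q₂.mv (xh R)).1, b * (Q₂.mv (xh R)).2)
          rw [hR1]
          exact ey
        · change K.t = (c * b ^ 2 * (kt Q₁ Q₂ (P, R)).1, c * a ^ 2 * (kt Q₁ Q₂ (P, R)).2)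
          rw [kt, if_neg hR4]
          exact hc
      rcases sq_eq_sq_iff_eq_or_eq_neg.1 hK2 with h1 | h1
      · exact ⟨(P, Q), key Q rfl (Or.inl rfl) h1⟩
      · refine ⟨(P, -Q), key (-Q) (xh_neg Q) (Or.inr (eta_neg Q)) ?_⟩
        rw [eta_neg, h1]
        ring

/-- Proof: `mv_inj`, `xh_eq`: `P' = ± P`, `Q' = ± Q`, the factors `a`, `b` are `1`; compare `(s : t)`: the signs agree, or one of `eta P`, `eta Q` vanishes (then `P = - P` or `Q = - Q`: `xh_eta`). -/
theorem kpi_inj [CharZero L] (Q₁ : Qm f W₁) (Q₂ : Qm g W₂) {P P' : Pt W₁ L × Pt W₂ L}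
    (h : kpi Q₁ Q₂ P' = kpi Q₁ Q₂ P) : P' = P ∨ P' = -P := by
  classical
  obtain ⟨a, b, c, ha, hb, hc, h1, h2, h3⟩ : (kpc Q₁ Q₂ P).Rel (kpc Q₁ Q₂ P') :=
    Quotient.exact (s := Kc.sd f g L) h.symm
  have h1' : Q₁.mv (xh P'.1) = (a * (Q₁.mv (xh P.1)).1, a * (Q₁.mv (xh P.1)).2) := h1
  have h2' : Q₂.mv (xh P'.2) = (b * (Q₂.mv (xh P.2)).1, b * (Q₂.mv (xh P.2)).2) := h2
  obtain ⟨ea, hP⟩ := xh_eq (Q₁.mv_inj h1')
  obtain ⟨eb, hQ⟩ := xh_eq (Q₂.mv_inj h2')
  subst ea eb
  have h3' : kt Q₁ Q₂ P' = (c * 1 ^ 2 * (kt Q₁ Q₂ P).1, c * 1 ^ 2 * (kt Q₁ Q₂ P).2) := h3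
  rw [one_pow, mul_one] at h3'
  by_cases hz1 : eta P.1 = 0
  · have e1 : -P.1 = P.1 := xh_eta (xh_neg P.1) (by rw [eta_neg, hz1, neg_zero])
    have e2 : P'.1 = P.1 := by
      rcases hP with hP | hP
      · exact hP
      · rw [hP, e1]
    rcases hQ with hQ | hQ
    · exact Or.inl (Prod.ext e2 hQ)
    · exact Or.inr (Prod.ext (e2.trans e1.symm) hQ)
  · by_cases hz2 : eta P.2 = 0
    · have e1 : -P.2 = P.2 := xh_eta (xh_neg P.2) (by rw [eta_neg, hz2, neg_zero])
      have e2 : P'.2 = P.2 := by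
        rcases hQ with hQ | hQ
        · exact hQ
        · rw [hQ, e1]
      rcases hP with hP | hP
      · exact Or.inl (Prod.ext hP e2)
      · exact Or.inr (Prod.ext hP (e2.trans e1.symm))
    · have n1 : ¬ (eta P.1 = 0 ∧ eta P.2 = 0) := fun h => hz1 h.1
      have n2 : ¬ (eta P'.1 = 0 ∧ eta P'.2 = 0) := by
        intro h
        rcases hP with hP | hP
        · rw [hP] at h
          exact hz1 h.1
        · rw [hP, eta_neg] at h
          exact hz1 (neg_eq_zero.1 h.1)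
      rw [kt, kt, if_neg n1, if_neg n2] at h3'
      have t1 : algebraMap M L Q₂.c * eta P'.2 = c * (algebraMap M L Q₂.c * eta P.2) :=
        congrArg Prod.fst h3'
      have t2 : algebraMap M L Q₁.c * eta P'.1 = c * (algebraMap M L Q₁.c * eta P.1) :=
        congrArg Prod.snd h3'
      have u1 : eta P'.2 = c * eta P.2 := by
        refine mul_left_cancel₀ Q₂.cne (a := algebraMap M L Q₂.c) ?_
        rw [t1]
        ring
      have u2 : eta P'.1 = c * eta P.1 := by
        refine mul_left_cancel₀ Q₁.cne (a := algebraMap M L Q₁.c) ?_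
        rw [t2]
        ring
      rcases hP with hP | hP
      · rcases hQ with hQ | hQ
        · exact Or.inl (Prod.ext hP hQ)
        · exfalso
          rw [hP] at u2
          rw [hQ, eta_neg] at u1
          have c1 : c = 1 := (mul_left_eq_self₀.1 u2.symm).resolve_right hz1
          rw [c1, one_mul] at u1
          exact hz2 (self_eq_neg.1 u1.symm)
      · rcases hQ with hQ | hQ
        · exfalso
          rw [hP, eta_neg] at u2
          rw [hQ] at u1
          have c1 : c = 1 := (mul_left_eq_self₀.1 u1.symm).resolve_right hz2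
          rw [c1, one_mul] at u2
          exact hz1 (self_eq_neg.1 u2.symm)
        · exact Or.inr (Prod.ext hP hQ)

end maps

end PE
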