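import Pool.Agent.Lib.MP_f80667_ag.Pe.Pv

/-! The cycles `z × ([Q] - [0])`: group theory for the symbols. -/

open ZC BE Polynomial

namespace PE

section pts

variable {Γ A : Type} [Group Γ] [AddCommGroup A] [DistribMulAction Γ A]

/-- The cycle `[P] - [0]`. -/
noncomputable def siaP (P : A) : A →₀ ℤ := Finsupp.single P 1 - Finsupp.single 0 1

omit [AddCommGroup A] in
theorem sia_dg_single (P : A) (n : ℤ) : dg (Finsupp.single P n) = n := by
  unfold dg
  rw [Finsupp.liftAddHom_apply_single]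
  rfl

theorem sia_sm_single (P : A) (n : ℤ) : sm (Finsupp.single P n) = n • P := by
  unfold sm
  rw [Finsupp.liftAddHom_apply_single, zmultiplesHom_apply]

theorem sia_dg (P : A) : dg (siaP P) = 0 := by
  unfold siaP
  rw [map_sub, sia_dg_single, sia_dg_single, sub_self]

theorem sia_sm (P : A) : sm (siaP P) = P := by
  unfold siaP
  rw [map_sub, sia_sm_single, sia_sm_single, one_smul, smul_zero, sub_zero]

theorem sia_map (γ : Γ) (P : A) :
    Finsupp.mapDomain.addMonoidHom (M := ℤ) (fun x : A => γ • x) (siaP P) = siaP (γ • P) := by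
  unfold siaP
  rw [map_sub, Finsupp.mapDomain.addMonoidHom_apply, Finsupp.mapDomain.addMonoidHom_apply,
    Finsupp.mapDomain_single, Finsupp.mapDomain_single, smul_zero]

/-- Translation of the representatives. -/
theorem sia_perm {C : Type} [AddCommMonoid C] {H S : Subgroup Γ} {P : A}
    (hP : ∀ γ ∈ S, γ • P = P) (f : A → C) {γ : Γ} (hγ : γ ∈ H) :
    ∑ᶠ q : H ⧸ S.subgroupOf H, f (γ • ((q.out : H) : Γ) • P) =
      ∑ᶠ q : H ⧸ S.subgroupOf H, f (((q.out : H) : Γ) • P) := by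
  rw [← finsum_comp_equiv (MulAction.toPerm (⟨γ, hγ⟩ : H) : Equiv.Perm (H ⧸ S.subgroupOf H))
    (f := fun q => f (((q.out : H) : Γ) • P))]
  refine finsum_congr fun q => ?_
  congr 1
  have h1 : (((⟨γ, hγ⟩ : H) • q : H ⧸ S.subgroupOf H).out : H)⁻¹ * ((⟨γ, hγ⟩ : H) * q.out) ∈
      S.subgroupOf H := by
    rw [← QuotientGroup.eq, QuotientGroup.out_eq']
    conv_lhs => rw [← QuotientGroup.out_eq' q]
    rfl
  rw [Subgroup.mem_subgroupOf] at h1
  have h2 := hP _ h1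
  rw [← mul_smul]
  change (γ * ((q.out : H) : Γ)) • P =
    ((((⟨γ, hγ⟩ : H) • q : H ⧸ S.subgroupOf H).out : H) : Γ) • P
  conv_rhs => rw [← h2]
  rw [← mul_smul]
  congr 1
  rw [Subgroup.coe_mul, Subgroup.coe_mul, Subgroup.coe_inv, mul_inv_cancel_left]

/-- The cycle `∑ [P_q] - [∑ P_q]` of the conjugates, reduced. -/
theorem sia_cyc {H S : Subgroup Γ} [Finite (H ⧸ S.subgroupOf H)] {P : A}
    (hP : ∀ γ ∈ S, γ • P = P) :
    (∀ γ ∈ H, Finsupp.mapDomain (fun x => γ • x)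
      ((∑ᶠ q : H ⧸ S.subgroupOf H, siaP (((q.out : H) : Γ) • P)) -
        siaP (∑ᶠ q : H ⧸ S.subgroupOf H, ((q.out : H) : Γ) • P)) =
      (∑ᶠ q : H ⧸ S.subgroupOf H, siaP (((q.out : H) : Γ) • P)) -
        siaP (∑ᶠ q : H ⧸ S.subgroupOf H, ((q.out : H) : Γ) • P)) ∧
    dg ((∑ᶠ q : H ⧸ S.subgroupOf H, siaP (((q.out : H) : Γ) • P)) -
        siaP (∑ᶠ q : H ⧸ S.subgroupOf H, ((q.out : H) : Γ) • P)) = 0 ∧
    sm ((∑ᶠ q : H ⧸ S.subgroupOf H, siaP (((q.out : H) : Γ) • P)) -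
        siaP (∑ᶠ q : H ⧸ S.subgroupOf H, ((q.out : H) : Γ) • P)) = 0 := by
  have hfin : ∀ {C : Type} [AddCommMonoid C] (f : H ⧸ S.subgroupOf H → C),
      (Function.support f).Finite := fun f => Set.toFinite _
  refine ⟨fun γ hγ => ?_, ?_, ?_⟩
  · rw [← Finsupp.mapDomain.addMonoidHom_apply, map_sub, sia_map,
      AddMonoidHom.map_finsum _ (hfin _)]
    congr 1
    · simp only [sia_map]
      exact sia_perm hP siaP hγ
    · congr 1
      have h1 := AddMonoidHom.map_finsum (DistribSMul.toAddMonoidHom A γ)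
        (hfin fun q : H ⧸ S.subgroupOf H => ((q.out : H) : Γ) • P)
      refine (h1.trans ?_)
      exact sia_perm hP (fun x => x) hγ
  · rw [map_sub, sia_dg, sub_zero, AddMonoidHom.map_finsum _ (hfin _)]
    simp only [sia_dg, finsum_zero]
  · rw [map_sub, sia_sm, AddMonoidHom.map_finsum _ (hfin _)]
    simp only [sia_sm, sub_self]

end pts

section tau

variable {Γ A B : Type} [Group Γ] [AddCommGroup A] [AddCommGroup B] [DistribMulAction Γ A]
  [DistribMulAction Γ B]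

/-- The cycle `z × ([Q] - [0])`. -/
noncomputable def siaL (Q : B) : (A →₀ ℤ) →+ (A × B →₀ ℤ) :=
  Finsupp.mapDomain.addMonoidHom (fun P : A => (P, Q)) -
    Finsupp.mapDomain.addMonoidHom (fun P : A => (P, (0 : B)))

/-- The cycle `([P] - [0]) × z`. -/
noncomputable def siaR (P : A) : (B →₀ ℤ) →+ (A × B →₀ ℤ) :=
  Finsupp.mapDomain.addMonoidHom (fun Q : B => (P, Q)) -
    Finsupp.mapDomain.addMonoidHom (fun Q : B => ((0 : A), Q))

omit [AddCommGroup A] in
theorem siaL_apply (Q : B) (z : A →₀ ℤ) : siaL Q z =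
    Finsupp.mapDomain (fun P : A => (P, Q)) z - Finsupp.mapDomain (fun P : A => (P, (0 : B))) z :=
  rfl

omit [AddCommGroup B] in
theorem siaR_apply (P : A) (z : B →₀ ℤ) : siaR P z =
    Finsupp.mapDomain (fun Q : B => (P, Q)) z - Finsupp.mapDomain (fun Q : B => ((0 : A), Q)) z :=
  rfl

theorem siaL_pt (P : A) (Q : B) : siaL Q (siaP P) = tau P Q := by
  unfold siaP
  rw [map_sub, siaL_apply, siaL_apply]
  simp only [Finsupp.mapDomain_single]
  unfold tau
  abel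

theorem siaR_pt (P : A) (Q : B) : siaR P (siaP Q) = tau P Q := by
  unfold siaP
  rw [map_sub, siaR_apply, siaR_apply]
  simp only [Finsupp.mapDomain_single]
  unfold tau
  abel

theorem sia_map_tau (γ : Γ) (P : A) (Q : B) :
    Finsupp.mapDomain (fun x : A × B => γ • x) (tau P Q) = tau (γ • P) (γ • Q) := by
  unfold tau
  rw [← Finsupp.mapDomain.addMonoidHom_apply]
  simp only [map_add, map_sub, Finsupp.mapDomain.addMonoidHom_apply, Finsupp.mapDomain_single,
    Prod.smul_mk, smul_zero]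

/-- The sum of the conjugates of `tau P Q`, `Q` invariant. -/
theorem siaL_sum {H S : Subgroup Γ} [Finite (H ⧸ S.subgroupOf H)] (P : A) {Q : B}
    (hQ : ∀ γ ∈ H, γ • Q = Q) :
    ∑ᶠ q : H ⧸ S.subgroupOf H, Finsupp.mapDomain (fun x : A × B => ((q.out : H) : Γ) • x)
      (tau P Q) = siaL Q (∑ᶠ q : H ⧸ S.subgroupOf H, siaP (((q.out : H) : Γ) • P)) := by
  rw [AddMonoidHom.map_finsum _ (Set.toFinite _)]
  refine finsum_congr fun q => ?_
  rw [sia_map_tau, siaL_pt, hQ _ (q.out : H).2]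

theorem siaR_sum {H S : Subgroup Γ} [Finite (H ⧸ S.subgroupOf H)] {P : A} (Q : B)
    (hP : ∀ γ ∈ H, γ • P = P) :
    ∑ᶠ q : H ⧸ S.subgroupOf H, Finsupp.mapDomain (fun x : A × B => ((q.out : H) : Γ) • x)
      (tau P Q) = siaR P (∑ᶠ q : H ⧸ S.subgroupOf H, siaP (((q.out : H) : Γ) • Q)) := by
  rw [AddMonoidHom.map_finsum _ (Set.toFinite _)]
  refine finsum_congr fun q => ?_
  rw [sia_map_tau, siaR_pt, hP _ (q.out : H).2]

/-- The trace of `tau P Q` from `S` is, modulo the trace from `H` of a cycle `z × ([Q] - [0])`, the trace from `H` of the symbol of the norm. -/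
theorem siaL_nm {H S : Subgroup Γ} (hS : S.FiniteIndex) (hSH : S ≤ H) {P : A} {Q : B}
    (hP : ∀ γ ∈ S, γ • P = P) (hQ : ∀ γ ∈ H, γ • Q = Q) :
    ∃ z : A →₀ ℤ, (∀ γ ∈ H, Finsupp.mapDomain (fun x => γ • x) z = z) ∧ dg z = 0 ∧ sm z = 0 ∧
      trG (A × B) S (tau P Q) = trG (A × B) H
        (tau (∑ᶠ q : H ⧸ S.subgroupOf H, ((q.out : H) : Γ) • P) Q) +
          trG (A × B) H (siaL Q z) := by
  have hfin : Finite (H ⧸ S.subgroupOf H) := by
    have h0 : Finite (Γ ⧸ S) := Subgroup.finite_quotient_of_finiteIndex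
    have h1 : Finite ((Γ ⧸ H) × (H ⧸ S.subgroupOf H)) :=
      Finite.of_equiv _ (Subgroup.quotientEquivProdOfLE hSH)
    exact Finite.of_injective (fun q => (((1 : Γ) : Γ ⧸ H), q)) fun a b h => (Prod.ext_iff.1 h).2
  obtain ⟨h1, h2, h3⟩ := sia_cyc (H := H) hP
  refine ⟨_, h1, h2, h3, ?_⟩
  rw [trG_tr hS hSH (fun γ hγ => by rw [sia_map_tau, hP γ hγ, hQ γ (hSH hγ)]), siaL_sum P hQ,
    ← map_add, map_sub (siaL Q), siaL_pt, add_sub_cancel]

theorem siaR_nm {H S : Subgroup Γ} (hS : S.FiniteIndex) (hSH : S ≤ H) {P : A} {Q : B}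
    (hP : ∀ γ ∈ H, γ • P = P) (hQ : ∀ γ ∈ S, γ • Q = Q) :
    ∃ z : B →₀ ℤ, (∀ γ ∈ H, Finsupp.mapDomain (fun x => γ • x) z = z) ∧ dg z = 0 ∧ sm z = 0 ∧
      trG (A × B) S (tau P Q) = trG (A × B) H
        (tau P (∑ᶠ q : H ⧸ S.subgroupOf H, ((q.out : H) : Γ) • Q)) +
          trG (A × B) H (siaR P z) := by
  have hfin : Finite (H ⧸ S.subgroupOf H) := by
    have h0 : Finite (Γ ⧸ S) := Subgroup.finite_quotient_of_finiteIndex
    have h1 : Finite ((Γ ⧸ H) × (H ⧸ S.subgroupOf H)) :=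
      Finite.of_equiv _ (Subgroup.quotientEquivProdOfLE hSH)
    exact Finite.of_injective (fun q => (((1 : Γ) : Γ ⧸ H), q)) fun a b h => (Prod.ext_iff.1 h).2
  obtain ⟨h1, h2, h3⟩ := sia_cyc (H := H) hQ
  refine ⟨_, h1, h2, h3, ?_⟩
  rw [trG_tr hS hSH (fun γ hγ => by rw [sia_map_tau, hQ γ hγ, hP γ (hSH hγ)]), siaR_sum Q hP,
    ← map_add, map_sub (siaR P), siaR_pt, add_sub_cancel]

/-- Additivity. -/
theorem siaL_add {H : Subgroup Γ} {P P' : A} {Q : B} (hP : ∀ γ ∈ H, γ • P = P)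
    (hP' : ∀ γ ∈ H, γ • P' = P') :
    ∃ z : A →₀ ℤ, (∀ γ ∈ H, Finsupp.mapDomain (fun x => γ • x) z = z) ∧ dg z = 0 ∧ sm z = 0 ∧
      trG (A × B) H (tau (P + P') Q) = trG (A × B) H (tau P Q) + trG (A × B) H (tau P' Q) +
          trG (A × B) H (siaL Q z) := by
  refine ⟨siaP (P + P') - siaP P - siaP P', fun γ hγ => ?_, ?_, ?_, ?_⟩
  · rw [← Finsupp.mapDomain.addMonoidHom_apply, map_sub, map_sub, sia_map, sia_map, sia_map,
      smul_add, hP γ hγ, hP' γ hγ]
  · rw [map_sub, map_sub, sia_dg, sia_dg, sia_dg, sub_zero, sub_zero]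
  · rw [map_sub, map_sub, sia_sm, sia_sm, sia_sm, add_sub_cancel_left, sub_self]
  · rw [← map_add, ← map_add, map_sub, map_sub, siaL_pt, siaL_pt, siaL_pt]
    congr 1
    abel

theorem siaR_add {H : Subgroup Γ} {P : A} {Q Q' : B} (hQ : ∀ γ ∈ H, γ • Q = Q)
    (hQ' : ∀ γ ∈ H, γ • Q' = Q') :
    ∃ z : B →₀ ℤ, (∀ γ ∈ H, Finsupp.mapDomain (fun x => γ • x) z = z) ∧ dg z = 0 ∧ sm z = 0 ∧
      trG (A × B) H (tau P (Q + Q')) = trG (A × B) H (tau P Q) + trG (A × B) H (tau P Q') +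
          trG (A × B) H (siaR P z) := by
  refine ⟨siaP (Q + Q') - siaP Q - siaP Q', fun γ hγ => ?_, ?_, ?_, ?_⟩
  · rw [← Finsupp.mapDomain.addMonoidHom_apply, map_sub, map_sub, sia_map, sia_map, sia_map,
      smul_add, hQ γ hγ, hQ' γ hγ]
  · rw [map_sub, map_sub, sia_dg, sia_dg, sia_dg, sub_zero, sub_zero]
  · rw [map_sub, map_sub, sia_sm, sia_sm, sia_sm, add_sub_cancel_left, sub_self]
  · rw [← map_add, ← map_add, map_sub, map_sub, siaR_pt, siaR_pt, siaR_pt]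
    congr 1
    abel

end tau

section fix

variable {F : Type} [Field F] {W : WeierstrassCurve F} {K Ω : Type} [Field K] [Algebra F K]
  [Field Ω] [Algebra K Ω] [Algebra F Ω] [IsScalarTower F K Ω]

/-- The actions over `M` and over `K`. -/
theorem sia_smul (M : IntermediateField K Ω) [IsScalarTower F M Ω] (γ : Ω ≃ₐ[M] Ω)
    (P : Pt W Ω) : γ • P = (γ.restrictScalars K) • P := rfl

theorem sia_cyc_M (M : IntermediateField K Ω) [IsScalarTower F M Ω] {z : Pt W Ω →₀ ℤ}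
    {γ : Ω ≃ₐ[M] Ω}
    (h : Finsupp.mapDomain (fun P : Pt W Ω => γ.restrictScalars K • P) z = z) :
    Finsupp.mapDomain (fun P : Pt W Ω => γ • P) z = z := by
  have h1 : (fun P : Pt W Ω => γ • P) = fun P => (γ.restrictScalars K) • P :=
    funext fun P => sia_smul M γ P
  rw [h1]
  exact h


/-- An automorphism over `M` is an element of the fixing subgroup. -/
theorem sia_mem_fix (M : IntermediateField K Ω) (γ : Ω ≃ₐ[M] Ω) :
    γ.restrictScalars K ∈ M.fixingSubgroup := by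
  rw [IntermediateField.mem_fixingSubgroup_iff]
  intro x hx
  exact γ.commutes ⟨x, hx⟩

theorem sia_fin {M N : IntermediateField K Ω} (h : M ≤ N) [FiniteDimensional K N] :
    FiniteDimensional K M :=
  FiniteDimensional.of_injective (IntermediateField.inclusion h).toLinearMap
    (IntermediateField.inclusion_injective h)

end fix

end PE
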