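import Pool.Agent.Lib.MP_f80667_ag.Pe.Kw
import Pool.Agent.Lib.MP_f80667_ag.Pe.Kp
import Pool.Agent.Lib.MP_f80667_ag.Pe.SiA

/-! The retraction of the exceptional curves does not change classes of cycles. -/

open ZC BE Polynomial

namespace PE

section abs

variable {Γ X : Type} [Group Γ] [MulAction Γ X]

/-- Invariant cycles are combinations of traces of points. Proof: `cyc_gen` in `Be/Gen.lean`, `sib_cyc` in `Pe/SiB.lean`. -/
theorem inv_gen (hX : ∀ x : X, (MulAction.stabilizer Γ x).FiniteIndex) {z : X →₀ ℤ}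
    (hz : ∀ γ : Γ, Finsupp.mapDomain (fun x => γ • x) z = z) :
    z ∈ AddSubgroup.closure {z | ∃ x : X, z =
      trG X (MulAction.stabilizer Γ x) (Finsupp.single x 1)} := by
  classical
  induction hn : z.support.card using Nat.strong_induction_on generalizing z with
  | _ n ih =>
    by_cases h0 : z = 0
    · rw [h0]
      exact zero_mem _
    · obtain ⟨x, hx⟩ := Finsupp.support_nonempty_iff.2 h0
      have hH := hX x
      have hfix : ∀ γ ∈ MulAction.stabilizer Γ x, γ • x = x := fun γ hγ => hγ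
      have hinv : ∀ γ ∈ MulAction.stabilizer Γ x,
          Finsupp.mapDomain (fun x => γ • x) (Finsupp.single x (1 : ℤ)) = Finsupp.single x 1 := by
        intro γ hγ
        rw [Finsupp.mapDomain_single, hfix γ hγ]
      have hti : ∀ γ : Γ, Finsupp.mapDomain (fun x => γ • x)
          (trG X (MulAction.stabilizer Γ x) (Finsupp.single x 1)) =
          trG X (MulAction.stabilizer Γ x) (Finsupp.single x 1) :=
        fun σ => smul_trG hH hinv σ
      set t := trG X (MulAction.stabilizer Γ x) (Finsupp.single x 1) with ht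
      have hz' : ∀ γ : Γ, Finsupp.mapDomain (fun x => γ • x) (z - z x • t) = z - z x • t := by
        intro γ
        have e : Finsupp.mapDomain (fun x => γ • x) (z - z x • t) =
          Finsupp.mapDomain.addMonoidHom (M := ℤ) (fun x : X => γ • x) (z - z x • t) := rfl
        rw [e, map_sub, map_zsmul, Finsupp.mapDomain.addMonoidHom_apply,
          Finsupp.mapDomain.addMonoidHom_apply, hz γ, hti γ]
      have hval : ∀ x' ∈ MulAction.orbit Γ x, z x' = z x := by
        rintro _ ⟨σ, rfl⟩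
        have h1 := hz σ
        have hinj : Function.Injective (fun x : X => σ • x) :=
          fun p q hpq => smul_left_cancel σ hpq
        calc z (σ • x) = (Finsupp.mapDomain (fun x => σ • x) z) ((fun x => σ • x) x) := by
              rw [h1]
          _ = z x := Finsupp.mapDomain_apply hinj z _
      have hval' : ∀ x', (z - z x • t) x' =
          if x' ∈ MulAction.orbit Γ x then 0 else z x' := by
        intro x'
        rw [Finsupp.sub_apply, Finsupp.smul_apply, ht, trG_single_apply _ _ hH]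
        split_ifs with h
        · rw [hval x' h, smul_eq_mul, mul_one, sub_self]
        · rw [smul_zero, sub_zero]
      have hcard : (z - z x • t).support.card < n := by
        rw [← hn]
        refine Finset.card_lt_card ((Finset.ssubset_iff_of_subset ?_).2 ⟨x, hx, ?_⟩)
        · intro x' hx'
          rw [Finsupp.mem_support_iff, hval'] at hx'
          rw [Finsupp.mem_support_iff]
          intro h
          apply hx'
          rw [h, ite_self]
        · rw [Finsupp.mem_support_iff, hval', if_pos (MulAction.mem_orbit_self _)]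
          exact fun h => h rfl
      have h1 := ih _ hcard hz' rfl
      have h3 : t ∈ AddSubgroup.closure {z | ∃ x : X, z =
          trG X (MulAction.stabilizer Γ x) (Finsupp.single x 1)} :=
        AddSubgroup.subset_closure ⟨x, rfl⟩
      have h2 := add_mem h1 (zsmul_mem h3 (z x))
      rwa [sub_add_cancel] at h2

end abs

variable {F : Type} [Field F] {f g : F[X]} {K : Type} [Field K] [CharZero K] [Algebra F K]
  {Ω : Type} [Field Ω] [Algebra K Ω] [Algebra F Ω] [IsScalarTower F K Ω] [IsAlgClosure K Ω]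

/-- The points of an exceptional curve. Proof: `P = (x, y, t)`. If `t₁ = 0` then `knu x = x`. Otherwise `c = t₀ / t₁`, `exists_p1`, the point `(x, y, (θ, 1))` over `E`, `pvK_ratEq`: its values at
`w₀`, `w₁` are `(x, y, (c, 1))` and `(x, y, (1, 0))`. -/
theorem exc_ratEq (x : (Kv f g).pt K) :
    Finsupp.single (knu ((Kv f g).map (IsScalarTower.toAlgHom F K Ω) x)) 1 -
      Finsupp.single ((Kv f g).map (IsScalarTower.toAlgHom F K Ω) x) 1 ∈ (Kv f g).ratEq K Ω := by
  classical
  induction x using Quotient.inductionOn with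
  | h P =>
    have hac : IsAlgClosed Ω := IsAlgClosure.isAlgClosed K
    let σ : K →ₐ[F] Ω := IsScalarTower.toAlgHom F K Ω
    have hσ : ∀ a : K, σ a = algebraMap K Ω a := fun a => rfl
    by_cases h0 : qf f (P.mp σ).x = 0 ∧ qf g (P.mp σ).y = 0
    swap
    · have e : knu ((Kv f g).map σ (Quotient.mk _ P)) = (Kv f g).map σ (Quotient.mk _ P) := by
        change (Quotient.mk (Kc.sd f g Ω) (P.mp σ).nu : Quotient (Kc.sd f g Ω)) =
          Quotient.mk (Kc.sd f g Ω) (P.mp σ)
        rw [Kc.nu, dif_neg h0]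
      change Finsupp.single (knu ((Kv f g).map σ (Quotient.mk _ P))) 1 -
        Finsupp.single ((Kv f g).map σ (Quotient.mk _ P)) 1 ∈ _
      rw [e, sub_self]
      exact zero_mem _
    have nx : (P.mp σ).nu.x = (P.mp σ).x := by rw [Kc.nu, dif_pos h0]
    have ny : (P.mp σ).nu.y = (P.mp σ).y := by rw [Kc.nu, dif_pos h0]
    have nt : (P.mp σ).nu.t = (1, 0) := by rw [Kc.nu, dif_pos h0]
    by_cases h1 : P.t.2 = 0
    · have ht0 : P.t.1 ≠ 0 := fun h => P.ht (Prod.ext h h1)
      have e : knu ((Kv f g).map σ (Quotient.mk _ P)) = (Kv f g).map σ (Quotient.mk _ P) := by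
        refine Quotient.sound (s := Kc.sd f g Ω) ?_
        refine ⟨1, 1, σ P.t.1, one_ne_zero, one_ne_zero, (map_ne_zero σ).2 ht0, ?_, ?_, ?_⟩
        · rw [nx, one_mul, one_mul]
        · rw [ny, one_mul, one_mul]
        · rw [nt]
          change (σ P.t.1, σ P.t.2) = (σ P.t.1 * 1 ^ 2 * 1, σ P.t.1 * 1 ^ 2 * 0)
          rw [h1, map_zero, one_pow, mul_one, mul_one, mul_zero]
      change Finsupp.single (knu ((Kv f g).map σ (Quotient.mk _ P))) 1 -
        Finsupp.single ((Kv f g).map σ (Quotient.mk _ P)) 1 ∈ _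
      rw [e, sub_self]
      exact zero_mem _
    -- the exceptional curve
    obtain ⟨c, hc⟩ : ∃ c : K, c = P.t.1 / P.t.2 := ⟨_, rfl⟩
    obtain ⟨E, i1, i2, θ, w₀, w₁, hE, hne, hw, ho0, ho1, hv0, hv1, hu⟩ :=
      exists_p1 (K := K) (Ω := Ω) c
    let i3 : Algebra F E := ((algebraMap K E).comp (algebraMap F K)).toAlgebra
    have i4 : IsScalarTower F K E := IsScalarTower.of_algebraMap_eq fun _ => rfl
    have hθ : θ ≠ 0 := by
      intro h
      rw [h] at hv0
      have h2 : algebraMap K Ω c = 0 := hv0.uniq Hv.zero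
      have h3 : c = 0 := (map_eq_zero _).1 h2
      apply hne
      rw [h, h3, map_zero, sub_zero]
    let τ : K →ₐ[F] E := IsScalarTower.toAlgHom F K E
    have hq : ∀ v : K × K, ∀ p : F[X], qf p (σ v.1, σ v.2) = 0 → qf p (τ v.1, τ v.2) = 0 := by
      intro v p h
      rw [qf_map] at h ⊢
      rw [(map_eq_zero σ).1 h, map_zero]
    have hfx : qf f (P.mp τ).x = 0 := hq P.x f h0.1
    have hgy : qf g (P.mp τ).y = 0 := hq P.y g h0.2
    -- the generic point of the curve, in two coordinate systems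
    let A : Kc f g E :=
      { x := (P.mp τ).x
        y := (P.mp τ).y
        t := (θ, 1)
        hx := (P.mp τ).hx
        hy := (P.mp τ).hy
        ht := fun h => one_ne_zero (congrArg Prod.snd h)
        eq := by rw [hfx, hgy, zero_mul, zero_mul] }
    let B : Kc f g E :=
      { x := (P.mp τ).x
        y := (P.mp τ).y
        t := (1, θ⁻¹)
        hx := (P.mp τ).hx
        hy := (P.mp τ).hy
        ht := fun h => one_ne_zero (congrArg Prod.fst h)
        eq := by rw [hfx, hgy, zero_mul, zero_mul] }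
    let C : Kc f g Ω :=
      { x := (P.mp σ).x
        y := (P.mp σ).y
        t := (algebraMap K Ω c, 1)
        hx := (P.mp σ).hx
        hy := (P.mp σ).hy
        ht := fun h => one_ne_zero (congrArg Prod.snd h)
        eq := by rw [h0.1, h0.2, zero_mul, zero_mul] }
    have hAB : (Quotient.mk (Kc.sd f g E) A) = Quotient.mk (Kc.sd f g E) B := by
      refine Quotient.sound (s := Kc.sd f g E) ?_
      refine ⟨1, 1, θ⁻¹, one_ne_zero, one_ne_zero, inv_ne_zero hθ, ?_, ?_, ?_⟩
      · change (P.mp τ).x = (1 * (P.mp τ).x.1, 1 * (P.mp τ).x.2)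
        rw [one_mul, one_mul]
      · change (P.mp τ).y = (1 * (P.mp τ).y.1, 1 * (P.mp τ).y.2)
        rw [one_mul, one_mul]
      · change ((1 : E), θ⁻¹) = (θ⁻¹ * 1 ^ 2 * θ, θ⁻¹ * 1 ^ 2 * 1)
        rw [one_pow, mul_one, mul_one, inv_mul_cancel₀ hθ]
    have hCP : (Quotient.mk (Kc.sd f g Ω) C) = Quotient.mk (Kc.sd f g Ω) (P.mp σ) := by
      refine Quotient.sound (s := Kc.sd f g Ω) ?_
      refine ⟨1, 1, σ P.t.2, one_ne_zero, one_ne_zero, (map_ne_zero σ).2 h1, ?_, ?_, ?_⟩
      · change (P.mp σ).x = (1 * (P.mp σ).x.1, 1 * (P.mp σ).x.2)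
        rw [one_mul, one_mul]
      · change (P.mp σ).y = (1 * (P.mp σ).y.1, 1 * (P.mp σ).y.2)
        rw [one_mul, one_mul]
      · change (σ P.t.1, σ P.t.2) = (σ P.t.2 * 1 ^ 2 * algebraMap K Ω c, σ P.t.2 * 1 ^ 2 * 1)
        rw [one_pow, mul_one, mul_one, ← hσ, ← map_mul, hc, mul_div_cancel₀ _ h1]
    have hrd : ∀ (w : Place K E Ω) (v : K × K), Rd w (τ v.1, τ v.2) (σ v.1, σ v.2) := by
      intro w v
      exact ⟨w.mem v.1, w.mem v.2, w.res_k v.1, w.res_k v.2⟩
    obtain ⟨m, hm0, hm1⟩ : ∃ m : Place K E Ω → ℤ, m w₀ = 1 ∧ m w₁ = -1 :=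
      ⟨fun w => if w = w₀ then 1 else -1, if_pos rfl, if_neg hw.symm⟩
    obtain ⟨X0, hX0⟩ : ∃ X0 : (Kv f g).pt Ω, X0 = (Kv f g).map σ (Quotient.mk _ P) := ⟨_, rfl⟩
    obtain ⟨y, hy0, hy1⟩ : ∃ y : Place K E Ω → (Kv f g).pt Ω, y w₀ = X0 ∧ y w₁ = knu X0 :=
      ⟨fun w => if w = w₀ then X0 else knu X0, if_pos rfl, if_neg hw.symm⟩
    have key : Pv (Kv f g) K Ω (Finsupp.single X0 1 - Finsupp.single (knu X0) 1) := by
      refine ⟨E, i1, i2, i3, i4, hE, θ - algebraMap K E c, Quotient.mk (Kc.sd f g E) A, hne,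
        {w₀, w₁}, m, y, ?_, ?_, ?_⟩
      · intro w hw'
        rw [Finset.mem_insert, Finset.mem_singleton, not_or] at hw'
        exact hu w hw'.1 hw'.2
      · intro w hw'
        rw [Finset.mem_insert, Finset.mem_singleton] at hw'
        rcases hw' with h | h
        · subst h
          refine ⟨by rw [hm0]; exact ho0, A, C, rfl, ?_, hrd _ P.x, hrd _ P.y, ?_⟩
          · rw [hy0, hX0]
            exact hCP.symm
          · exact (rd_iff _ _ _).2 ⟨hv0, Hv.one⟩
        · subst h
          refine ⟨by rw [hm1]; exact ho1, B, (P.mp σ).nu, hAB, ?_, ?_, ?_, ?_⟩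
          · rw [hy1, hX0]
            rfl
          · rw [nx]
            exact hrd _ P.x
          · rw [ny]
            exact hrd _ P.y
          · rw [nt]
            exact (rd_iff _ _ _).2 ⟨Hv.one, hv1⟩
      · rw [Finset.sum_pair hw, hm0, hm1, hy0, hy1, Finsupp.single_neg, sub_eq_add_neg]
    have h3 := neg_mem (pvK_ratEq key)
    rw [neg_sub, hX0] at h3
    exact h3

omit [CharZero K] [IsAlgClosure K Ω] in
theorem nu_act (σ : Ω ≃ₐ[K] Ω) (x : (Kv f g).pt Ω) : knu (σ • x) = σ • knu x :=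
  knu_map _ x

/-- The retraction does not change classes. -/
theorem nu_ratEq {z : (Kv f g).pt Ω →₀ ℤ} (hz : z ∈ (Kv f g).cyc K Ω) :
    Finsupp.mapDomain knu z - z ∈ (Kv f g).ratEq K Ω := by
  classical
  have hX : ∀ x : (Kv f g).pt Ω, (MulAction.stabilizer (Ω ≃ₐ[K] Ω) x).FiniteIndex :=
    fun x => opn_fin _ (kv_stab x)
  let φ : ((Kv f g).pt Ω →₀ ℤ) →+ ((Kv f g).pt Ω →₀ ℤ) :=
    Finsupp.mapDomain.addMonoidHom knu - AddMonoidHom.id _
  have h2 : AddSubgroup.closure {z | ∃ x : (Kv f g).pt Ω, z = trG ((Kv f g).pt Ω)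
      (MulAction.stabilizer (Ω ≃ₐ[K] Ω) x) (Finsupp.single x 1)} ≤
      ((Kv f g).ratEq K Ω).comap φ := by
    rw [AddSubgroup.closure_le]
    rintro _ ⟨x, rfl⟩
    obtain ⟨M, hM, hMe⟩ := exists_fix (kv_stab (K := K) x)
    have i1 : IsAlgClosure M Ω := ⟨IsAlgClosure.isAlgClosed K, inferInstance⟩
    have i2 : IsScalarTower F M Ω := IsScalarTower.of_algebraMap_eq fun _ => rfl
    obtain ⟨P, hP⟩ : ∃ P : (Kv f g).pt M, x = (Kv f g).map (IsScalarTower.toAlgHom F M Ω) P := by
      refine exists_kdesc fun σ => ?_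
      have h3 : σ.restrictScalars K ∈ M.fixingSubgroup := sia_mem_fix M σ
      rw [hMe] at h3
      exact h3
    have h4 := tr_ratEqK M (exc_ratEq P)
    rw [← hP, map_sub, hMe] at h4
    change Finsupp.mapDomain knu (trG ((Kv f g).pt Ω) (MulAction.stabilizer (Ω ≃ₐ[K] Ω) x)
      (Finsupp.single x 1)) - trG ((Kv f g).pt Ω) (MulAction.stabilizer (Ω ≃ₐ[K] Ω) x)
      (Finsupp.single x 1) ∈ (Kv f g).ratEq K Ω
    rw [sib_map nu_act (hX x), Finsupp.mapDomain_single]
    exact h4
  exact h2 (inv_gen hX hz)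

end PE
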