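import Pool.Agent.Lib.MP_f80667_ag.Pe.SiB

/-! Places over a finite extension and places over the base field. -/

open ZC BE Polynomial

namespace PE

section fun'

variable {K M E : Type} [Field K] [Field M] [Field E] [Algebra K M] [Algebra M E] [Algebra K E]
  [IsScalarTower K M E] [FiniteDimensional K M]

/-- A function field over a finite extension. -/
theorem kw_fun (hE : IsFunField M E) : IsFunField K E := by
  obtain ⟨t, ht, hfin⟩ := hE
  refine ⟨t, fun h => ht (h.tower_top M), ?_⟩
  set K0 := IntermediateField.adjoin K {t} with hK0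
  let b := Module.finBasis K M
  let S : Set E := Set.range (fun i => algebraMap M E (b i))
  have hfin0 : FiniteDimensional K0 (IntermediateField.adjoin K0 S) := by
    have : Finite S := Set.finite_range _
    apply IntermediateField.finiteDimensional_adjoin
    rintro _ ⟨i, rfl⟩
    have h1 : IsIntegral K (b i) := IsIntegral.of_finite K (b i)
    have h2 : IsIntegral K (algebraMap M E (b i)) := h1.algebraMap
    exact h2.tower_top
  have hM : ∀ a : M, algebraMap M E a ∈ IntermediateField.adjoin K0 S := by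
    intro a
    rw [← b.sum_repr a, map_sum]
    refine sum_mem ?_
    intro i _
    rw [Algebra.smul_def, map_mul]
    refine mul_mem ?_ (IntermediateField.subset_adjoin _ _ ⟨i, rfl⟩)
    rw [← IsScalarTower.algebraMap_apply K M E]
    have : algebraMap K E (b.repr a i) = algebraMap K0 E (algebraMap K K0 (b.repr a i)) := by
      rw [← IsScalarTower.algebraMap_apply K K0 E]
    rw [this]
    exact IntermediateField.algebraMap_mem _ _
  have ht0 : t ∈ IntermediateField.adjoin K0 S := by
    have h1 : t ∈ K0 := IntermediateField.mem_adjoin_simple_self K _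
    exact IntermediateField.algebraMap_mem (IntermediateField.adjoin K0 S) (⟨t, h1⟩ : K0)
  set N := IntermediateField.adjoin K0 S with hN
  have hle : ∀ a ∈ IntermediateField.adjoin M {t}, a ∈ N := by
    have h1 : IntermediateField.adjoin M {t} ≤ N.toSubfield.toIntermediateField hM := by
      rw [IntermediateField.adjoin_le_iff, Set.singleton_subset_iff]
      exact ht0
    exact fun a ha => h1 ha
  have hNE : Module.Finite N E := by
    obtain ⟨T, hT⟩ := hfin.fg_top
    refine ⟨⟨T, ?_⟩⟩
    rw [eq_top_iff]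
    intro y _
    have hy : y ∈ Submodule.span (IntermediateField.adjoin M {t}) (T : Set E) := by
      rw [hT]
      trivial
    induction hy using Submodule.span_induction with
    | mem x hx => exact Submodule.subset_span hx
    | zero => exact zero_mem _
    | add x y _ _ hx hy => exact add_mem (hx trivial) (hy trivial)
    | smul a x _ hx =>
      exact Submodule.smul_mem _ (⟨(a : E), hle a a.2⟩ : N) (hx trivial)
  exact Module.Finite.trans N E

end fun'

section emb

variable {K Ω : Type} [Field K] [Field Ω] [Algebra K Ω] {M : IntermediateField K Ω} {E : Type}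
  [Field E] [Algebra M E] [Algebra K E] [IsScalarTower K M E]

/-- The composite of a place over `M` and an automorphism of `Ω` over `K`. -/
noncomputable def kw_emb (γ : Ω ≃ₐ[K] Ω) (w : Place M E Ω) : Place K E Ω where
  V := w.V
  ne_top := w.ne_top
  mem a := by
    rw [IsScalarTower.algebraMap_apply K M E]
    exact w.mem _
  res := (γ : Ω →+* Ω).comp w.res
  res_k a := by
    have h1 : (⟨algebraMap K E a, by
        rw [IsScalarTower.algebraMap_apply K M E]
        exact w.mem _⟩ : w.V) = ⟨algebraMap M E (algebraMap K M a), w.mem _⟩ :=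
      Subtype.ext (IsScalarTower.algebraMap_apply K M E a)
    change γ (w.res _) = _
    rw [h1, w.res_k]
    exact γ.commutes a
  res_zero x hx := by
    change γ (w.res x) = 0
    rw [w.res_zero x hx, map_zero]

theorem kw_res (γ : Ω ≃ₐ[K] Ω) (w : Place M E Ω) (x : w.V) :
    (kw_emb γ w).res x = γ (w.res x) := rfl

theorem kw_inj {γ γ' : Ω ≃ₐ[K] Ω} {w w' : Place M E Ω}
    (h : kw_emb γ w = kw_emb γ' w') :
    (∀ a ∈ M, γ a = γ' a) ∧ (γ = γ' → w = w') := by
  have hV : w.V = w'.V := congrArg (fun v : Place K E Ω => v.V) h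
  have key : ∀ (v v' : Place K E Ω) (h : v = v') (y : E) (h1 : y ∈ v.V) (h2 : y ∈ v'.V),
      v.res ⟨y, h1⟩ = v'.res ⟨y, h2⟩ := by
    rintro v _ rfl y h1 h2
    rfl
  have hr : ∀ (y : E) (h1 : y ∈ w.V) (h2 : y ∈ w'.V), γ (w.res ⟨y, h1⟩) = γ' (w'.res ⟨y, h2⟩) :=
    fun y h1 h2 => key _ _ h y h1 h2
  refine ⟨fun a ha => ?_, ?_⟩
  · have h1 := hr (algebraMap M E ⟨a, ha⟩) (w.mem _) (w'.mem _)
    rw [w.res_k, w'.res_k] at h1
    exact h1
  · rintro rfl
    exact Place.ext' hV fun x hx hx' => γ.injective (hr x hx hx')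

variable [FiniteDimensional K M]

theorem kw_surj (v : Place K E Ω) (γ : Ω ≃ₐ[K] Ω)
    (hγ : ∀ a : M, γ a = v.emb (M := M) a) : ∃ w : Place M E Ω, kw_emb γ w = v := by
  refine ⟨⟨v.V, v.ne_top, fun a => v.mem_M a, (γ.symm : Ω →+* Ω).comp v.res, fun a => ?_,
    fun x hx => ?_⟩, ?_⟩
  · change γ.symm (v.res _) = _
    rw [← Place.emb_apply, ← hγ, γ.symm_apply_apply]
    rfl
  · change γ.symm (v.res x) = 0
    rw [v.res_zero x hx, map_zero]
  · exact Place.ext' rfl fun x hx hx' => γ.apply_symm_apply _

/-- The places over `K` are the composites of the places over `M` and representatives of the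
classes of automorphisms. -/
theorem kw_bij [IsAlgClosure K Ω] :
    Function.Bijective fun p : ((Ω ≃ₐ[K] Ω) ⧸ M.fixingSubgroup) × Place M E Ω =>
      kw_emb p.1.out p.2 := by
  have hfix : ∀ {γ γ' : Ω ≃ₐ[K] Ω}, (∀ a ∈ M, γ a = γ' a) →
      ((γ : (Ω ≃ₐ[K] Ω) ⧸ M.fixingSubgroup) = γ') := by
    intro γ γ' h
    rw [QuotientGroup.eq]
    rintro ⟨a, ha⟩
    change γ⁻¹ (γ' a) = a
    rw [← h a ha]
    exact γ.symm_apply_apply a
  constructor
  · rintro ⟨q, w⟩ ⟨q', w'⟩ h
    obtain ⟨h1, h2⟩ := kw_inj h
    have h3 : q = q' := by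
      have h4 := hfix h1
      rwa [QuotientGroup.out_eq', QuotientGroup.out_eq'] at h4
    subst h3
    exact Prod.ext rfl (h2 rfl)
  · intro v
    have : Normal K Ω := IsAlgClosure.normal K Ω
    let γ₀ : Ω ≃ₐ[K] Ω := AlgEquiv.ofBijective ((v.emb (M := M)).liftNormal Ω)
      (AlgHom.normal_bijective K Ω Ω _)
    have h0 : ∀ a : M, γ₀ a = v.emb (M := M) a := fun a => by
      exact (v.emb (M := M)).liftNormal_commutes Ω a
    let q : (Ω ≃ₐ[K] Ω) ⧸ M.fixingSubgroup := γ₀
    have hq : ∀ a : M, q.out a = v.emb (M := M) a := by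
      intro a
      have h1 : γ₀⁻¹ * q.out ∈ M.fixingSubgroup := by
        rw [← QuotientGroup.eq, QuotientGroup.out_eq']
      have h2 : γ₀.symm (q.out a) = a := h1 a
      rw [← h0 a]
      conv_rhs => rw [← h2]
      exact (γ₀.apply_symm_apply _).symm
    obtain ⟨w, hw⟩ := kw_surj v q.out hq
    exact ⟨(q, w), hw⟩

end emb

end PE
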