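import Pool.Agent.Lib.MP_f80667_ag.Pe.Kt
import Pool.Agent.Lib.MP_f80667_ag.Fa.Inv

/-! Auxiliary file for `Kw.lean`: the cycles rationally equivalent to `0` are cycles over `K`. -/

open ZC BE Polynomial

namespace PE

variable {F : Type} [Field F] {f g : F[X]} {K : Type} [Field K] [CharZero K] [Algebra F K]
  {Ω : Type} [Field Ω] [Algebra K Ω] [Algebra F Ω] [IsScalarTower F K Ω]

theorem kwCyc_le : (Kv f g).ratEq K Ω ≤ (Kv f g).cyc K Ω := by
  refine (AddSubgroup.closure_le _).2 ?_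
  rintro z ⟨E, _, _, _, _, hE, G, x, hG, hx, S, m, y, h1, h2, rfl⟩
  have hc : CharZero E := charZero_of_injective_algebraMap (algebraMap K E).injective
  obtain ⟨ξ, rfl⟩ := exists_kdesc (f := f) (g := g) (K := E) (Ω := AlgebraicClosure E) hx
  have hval : ∀ w ∈ S, (Kv f g).red w ξ (y w) := by
    intro w hw
    obtain ⟨W, hW1, hW2, hred⟩ := (h2 w hw).2
    obtain ⟨y', hy'⟩ := kred_ex w ξ
    have h3 := kred_up (f := f) (g := g) (w := w) (W := W) ⟨hW1, hW2⟩ hy'
    have e : y w = y' := kred_uniq W hred h3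
    rw [e]
    exact hy'
  intro σ
  refine sum_inv σ ((Kv f g).act σ) S m y h1 (fun v hv => (h2 v hv).1) fun v hv hv' => ?_
  have h3 := kred_act (f := f) (g := g) (w := v) (w' := v.gal σ)
    (σ := (σ.restrictScalars F : Ω ≃ₐ[F] Ω)) rfl (fun a h h' => rfl) (hval v hv)
  exact kred_uniq _ (hval _ hv') h3

end PE
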