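import Pool.Agent.Lib.MP_f80667_ag.Pe.Kt
import Pool.Agent.Lib.MP_f80667_ag.Pe.KwCyc
import Pool.Agent.Lib.MP_f80667_ag.Pe.KwA

/-! Rational equivalence on the surface `f(x) s² = g(y) t²`. -/

open ZC BE Polynomial

namespace PE

variable {F : Type} [Field F] {f g : F[X]} {K : Type} [Field K] [CharZero K] [Algebra F K]
  {Ω : Type} [Field Ω] [Algebra K Ω] [Algebra F Ω] [IsScalarTower F K Ω] [IsAlgClosure K Ω]

/-- The composite of a place and an automorphism. -/
def plAct {E : Type} [Field E] [Algebra K E] (σ : Ω ≃ₐ[K] Ω) (w : Place K E Ω) : Place K E Ω where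
  V := w.V
  ne_top := w.ne_top
  mem := w.mem
  res := (σ : Ω →+* Ω).comp w.res
  res_k a := by
    change σ (w.res _) = _
    rw [w.res_k]
    exact σ.commutes a
  res_zero x hx := by
    change σ (w.res x) = 0
    rw [w.res_zero x hx, map_zero]

/-- The cycles rationally equivalent to `0` are cycles over `K`. Proof: let `(E, G, x, S, m, y)` be a generator, `x` comes from `ξ ∈ V(E)` (`exists_kdesc` over `E`). For every `w` the value of `ξ` at `w`
(`kred_ex`) is the value of `x` at the places above `w` (`kred_up`, `kred_uniq`): `(Kv f g).red w ξ (y w)` for `w ∈ S`. So `y (plAct σ w) = σ • y w` if both are in `S` (`kred_act`, `kred_uniq`), and `m (plAct σ w) = m w` (the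
order depends only on the valuation ring, and is unique: see `Place.IsOrd`); if `w ∈ S`, `plAct σ w ∉ S` then `m w = 0`. -/
theorem ratEq_cyc : (Kv f g).ratEq K Ω ≤ (Kv f g).cyc K Ω :=
  kwCyc_le

omit [CharZero K] [Algebra F K] [IsScalarTower F K Ω] [Algebra K Ω] [IsAlgClosure K Ω] [Field K]
  [Algebra F Ω] [Field Ω] in
/-- An automorphism over `E` fixes the points over `E`. -/
private theorem kw_fix {E : Type} [Field E] [Algebra F E]
    (σ : AlgebraicClosure E ≃ₐ[E] AlgebraicClosure E) (x : (Kv f g).pt E) :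
    (Kv f g).map (σ.restrictScalars F : AlgebraicClosure E →ₐ[F] AlgebraicClosure E)
      ((Kv f g).map (IsScalarTower.toAlgHom F E (AlgebraicClosure E)) x) =
      (Kv f g).map (IsScalarTower.toAlgHom F E (AlgebraicClosure E)) x := by
  induction x using Quotient.inductionOn with
  | h P =>
    have e : ∀ a : E, σ (algebraMap E (AlgebraicClosure E) a) = algebraMap E (AlgebraicClosure E) a :=
      fun a => σ.commutes a
    have h : (P.mp (IsScalarTower.toAlgHom F E (AlgebraicClosure E))).mp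
        (σ.restrictScalars F : AlgebraicClosure E →ₐ[F] AlgebraicClosure E) =
        P.mp (IsScalarTower.toAlgHom F E (AlgebraicClosure E)) := by
      obtain ⟨x, y, t, hx, hy, ht, heq⟩ := P
      unfold Kc.mp
      congr 1
      · exact Prod.ext (e x.1) (e x.2)
      · exact Prod.ext (e y.1) (e y.2)
      · exact Prod.ext (e t.1) (e t.2)
    exact congrArg (Quotient.mk _) h

/-- The sum of the divisors of `G` on the curve `E` for a point over `E`. Proof: `pv_ratEq`, `kred_up`. -/
theorem pvK_ratEq {z : (Kv f g).pt Ω →₀ ℤ} (h : Pv (Kv f g) K Ω z) : z ∈ (Kv f g).ratEq K Ω := by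
  have hac : IsAlgClosed Ω := IsAlgClosure.isAlgClosed K
  obtain ⟨E, i1, i2, i3, i4, hE, G, ξ, hG, S, m, y, hS, hv, rfl⟩ := h
  refine AddSubgroup.subset_closure ⟨E, i1, i2, i3, i4, hE, G,
    (Kv f g).map (IsScalarTower.toAlgHom F E (AlgebraicClosure E)) ξ, hG, fun σ => kw_fix σ ξ,
    S, m, y, hS, fun w hw => ⟨(hv w hw).1, ?_⟩, rfl⟩
  obtain ⟨W', hW'⟩ := exists_above w
  exact ⟨W', hW'.1, hW'.2, kred_up hW' (hv w hw).2⟩

omit [CharZero K] [IsAlgClosure K Ω] in
/-- The reduction is moved by `γ`. -/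
private theorem kw_red {M : IntermediateField K Ω} {E : Type} [Field E] [Algebra M E] [Algebra K E]
    [Algebra F E] [IsScalarTower K M E] (γ : Ω ≃ₐ[K] Ω) (w : Place M E Ω) {x : (Kv f g).pt E}
    {y : (Kv f g).pt Ω} (h : (Kv f g).red w x y) : (Kv f g).red (kw_emb γ w) x (γ • y) := by
  obtain ⟨P, Q, rfl, rfl, h1, h2, h3⟩ := h
  have key : ∀ {v : E × E} {u : Ω × Ω}, Rd w v u → Rd (kw_emb γ w) v (γ u.1, γ u.2) := by
    rintro v u ⟨m1, m2, e1, e2⟩
    exact ⟨m1, m2, congrArg γ e1, congrArg γ e2⟩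
  exact ⟨P, Q.mp (γ.restrictScalars F : Ω →ₐ[F] Ω), rfl, rfl, key h1, key h2, key h3⟩

/-- The trace of a cycle rationally equivalent to `0`. Proof: `tr_ratEqX` in `Pe/Tr.lean` (copy the proof; the reduction is
moved by `γ`: all coordinates of the representatives are moved by `γ`). -/
theorem tr_ratEqK (M : IntermediateField K Ω) [FiniteDimensional K M] {z : (Kv f g).pt Ω →₀ ℤ}
    (hz : z ∈ (Kv f g).ratEq M Ω) :
    trG ((Kv f g).pt Ω) M.fixingSubgroup z ∈ (Kv f g).ratEq K Ω := by
  classical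
  have hH : M.fixingSubgroup.FiniteIndex := opn_fin _ (opn_fix M)
  let i0 : Fintype ((Ω ≃ₐ[K] Ω) ⧸ M.fixingSubgroup) := Fintype.ofFinite _
  have h : (Kv f g).ratEq M Ω ≤
      ((Kv f g).ratEq K Ω).comap (trG ((Kv f g).pt Ω) M.fixingSubgroup) := by
    rw [Vr.ratEq, AddSubgroup.closure_le]
    rintro _ ⟨E, i1, i2, i3, i4, hE, G, x, hG, hx, S, m, y, hS, hv, rfl⟩
    change trG ((Kv f g).pt Ω) M.fixingSubgroup _ ∈ (Kv f g).ratEq K Ω
    let i5 : Algebra K E := ((algebraMap M E).comp (algebraMap K M)).toAlgebra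
    have i6 : IsScalarTower K M E := IsScalarTower.of_algebraMap_eq fun _ => rfl
    have i7 : IsScalarTower F K E := by
      refine IsScalarTower.of_algebraMap_eq fun a => ?_
      rw [IsScalarTower.algebraMap_apply F M E, IsScalarTower.algebraMap_apply K M E,
        ← IsScalarTower.algebraMap_apply F K M]
    let e := Equiv.ofBijective _ (kw_bij (K := K) (Ω := Ω) (M := M) (E := E))
    have he : ∀ p, e p = kw_emb p.1.out p.2 := fun p => rfl
    let y' : Place M E Ω → (Kv f g).pt Ω := y
    refine AddSubgroup.subset_closure ⟨E, i1, i5, i3, i7, kw_fun (M := M) hE, G, x, hG, hx,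
      (Finset.univ ×ˢ S).map e.toEmbedding, fun v => m (e.symm v).2,
      fun v => (e.symm v).1.out • y' (e.symm v).2, fun v hv' => ?_,
      fun v hv' => ?_, ?_⟩
    · obtain ⟨p, rfl⟩ := e.surjective v
      refine hS p.2 fun hp => hv' ?_
      rw [Finset.mem_map_equiv, e.symm_apply_apply, Finset.mem_product]
      exact ⟨Finset.mem_univ _, hp⟩
    · obtain ⟨p, rfl⟩ := e.surjective v
      rw [Finset.mem_map_equiv, e.symm_apply_apply, Finset.mem_product] at hv'
      obtain ⟨h1, W, h2, h3, h4⟩ := hv p.2 hv'.2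
      dsimp only
      rw [e.symm_apply_apply]
      refine ⟨h1, kw_emb p.1.out W, h2, fun a ha ha' => ?_, kw_red _ W h4⟩
      exact congrArg p.1.out (h3 a ha ha')
    · change trG ((Kv f g).pt Ω) M.fixingSubgroup
        (∑ w ∈ S, Finsupp.single (y' w) (m w)) = _
      rw [Finset.sum_map, Finset.sum_product, Finset.sum_comm]
      refine (map_sum (trG ((Kv f g).pt Ω) M.fixingSubgroup) _ _).trans ?_
      refine Finset.sum_congr rfl fun w _ => ?_
      rw [trG_apply hH, finsum_eq_sum_of_fintype]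
      refine Finset.sum_congr rfl fun q _ => ?_
      dsimp only
      rw [Finsupp.mapDomain_single, Equiv.coe_toEmbedding, e.symm_apply_apply]
  exact h hz

omit [CharZero K] [Algebra F K] [IsScalarTower F K Ω] [IsAlgClosure K Ω] [Algebra F Ω] [Field F] in
/-- A value at the place `s = 0`. -/
private theorem kw_val {E : Type} [Field E] [Algebra K E] {s : E} (H : Gen K s)
    (p q : K[X]) (hq : q.eval 0 ≠ 0) {x : E} (h : x * aeval s q = aeval s p) :
    Hv (H.place (Algebra.ofId K Ω)) x (algebraMap K Ω (p.eval 0 / q.eval 0)) := by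
  have hx : x ∈ (H.place (Algebra.ofId K Ω)).V := ⟨p, q, hq, h⟩
  refine ⟨hx, ?_⟩
  rw [H.place_res, H.val0_eq hq h]
  rfl

omit [CharZero K] [Algebra F K] [IsScalarTower F K Ω] in
/-- The divisor of `θ - c` on the projective line (`E = K(θ)`). Proof: `RatFunc K`; the two places `θ ↦ c`, `θ ↦ ∞`; a place where `θ - c` is not a unit is one of them.
See the places of `RatFunc` in `Be/Qe.lean`, `Pe/BqX.lean`, `Cr/Plc.lean`, `Tq/OneA.lean` (`gen_X`). -/
theorem exists_p1 (c : K) : ∃ (E : Type) (_ : Field E) (_ : Algebra K E) (θ : E) (w₀ w₁ : Place K E Ω),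
    IsFunField K E ∧ θ - algebraMap K E c ≠ 0 ∧ w₀ ≠ w₁ ∧ w₀.IsOrd (θ - algebraMap K E c) 1 ∧
    w₁.IsOrd (θ - algebraMap K E c) (-1) ∧ Hv w₀ θ (algebraMap K Ω c) ∧ Hv w₁ θ⁻¹ 0 ∧
    ∀ w : Place K E Ω, w ≠ w₀ → w ≠ w₁ → θ - algebraMap K E c ∈ w.V ∧
      (θ - algebraMap K E c)⁻¹ ∈ w.V := by
  have H := gen_X K
  have H' := H.inv
  have hX : (RatFunc.X : RatFunc K) ≠ 0 := H.ne_zero
  have e : (RatFunc.X : RatFunc K) + algebraMap K (RatFunc K) c - algebraMap K (RatFunc K) c =
      RatFunc.X := add_sub_cancel_right _ _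
  have hn1 : (RatFunc.X : RatFunc K) ∉ (H'.place (Algebra.ofId K Ω)).V.nonunits := by
    intro h
    have h1 := H'.place_mem_nonunits (Algebra.ofId K Ω)
    rw [ValuationSubring.inv_mem_nonunits_iff] at h1
    rcases h1 with h1 | h1
    · exact hX h1
    · exact h1 ((H'.place (Algebra.ofId K Ω)).V.nonunits_le h)
  have hemb : ∀ φ : K →ₐ[K] Ω, φ = Algebra.ofId K Ω := fun φ => Subsingleton.elim _ _
  refine ⟨RatFunc K, inferInstance, inferInstance,
    RatFunc.X + algebraMap K (RatFunc K) c, H.place (Algebra.ofId K Ω),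
    H'.place (Algebra.ofId K Ω), isFunField_ratFunc K K, ?_, ?_, ?_, ?_, ?_, ?_, ?_⟩
  · rw [e]
    exact hX
  · intro h
    apply hn1
    rw [← h]
    exact H.place_mem_nonunits _
  · rw [e]
    exact H.place_ord _
  · rw [e]
    have h := H'.place_ord_inv (Algebra.ofId K Ω)
    rwa [inv_inv] at h
  · have h := kw_val (Ω := Ω) H (X + C c) 1 (by simp)
      (x := RatFunc.X + algebraMap K (RatFunc K) c) (by simp)
    simpa using h
  · have h := kw_val (Ω := Ω) H' X (1 + C c * X) (by simp)
      (x := (RatFunc.X + algebraMap K (RatFunc K) c)⁻¹) (by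
        have hne : (RatFunc.X : RatFunc K) + algebraMap K (RatFunc K) c ≠ 0 := by
          have h := H.ne (X_add_C_ne_zero c)
          simpa using h
        simp only [map_add, map_mul, map_one, aeval_C, aeval_X]
        field_simp)
    simpa using h
  · intro w h0 h1
    rw [e]
    constructor
    · by_contra hcon
      have h2 : (RatFunc.X : RatFunc K)⁻¹ ∈ w.V.nonunits := by
        rw [ValuationSubring.inv_mem_nonunits_iff]
        exact Or.inr hcon
      apply h1
      rw [← hemb w.emb]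
      exact H'.eq_place w h2
    · by_contra hcon
      have h2 : (RatFunc.X : RatFunc K) ∈ w.V.nonunits := by
        rw [ValuationSubring.mem_nonunits_iff_or]
        exact Or.inr hcon
      apply h0
      rw [← hemb w.emb]
      exact H.eq_place w h2

end PE
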