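import Pool.Agent.Lib.MP_f80667_ag.Pe.Lo
import Pool.Agent.Lib.MP_f80667_ag.Pe.Ur
import Pool.Agent.Lib.MP_f80667_ag.Pe.NmL

/-! Lifting of nonsingular points of the reduction: Hensel's lemma. -/

open ZC BE Polynomial IntermediateField

namespace PE

section hens

variable {K : Type} [Field K] {Ω : Type} [Field Ω] [Algebra K Ω] (L : Lf K Ω)

/-- Hensel's lemma for a monic quadratic polynomial. -/
theorem lifta_quad (M : IntermediateField K Ω) [FiniteDimensional K M] {b c : Ω}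
    (hb : b ∈ M) (hc : c ∈ M) (hb1 : L.nm b ≤ 1) (hc1 : L.nm c ≤ 1)
    {x : Ω} (hx : x ∈ M) (hx1 : L.nm x ≤ 1) (h0 : L.nm (x ^ 2 + b * x + c) < 1)
    (h1 : L.nm (2 * x + b) = 1) :
    ∃ y ∈ M, y ^ 2 + b * y + c = 0 ∧ L.nm (y - x) < 1 := by
  have hd : derivative (Polynomial.X ^ 2 + Polynomial.C b * Polynomial.X + Polynomial.C c :
      Polynomial Ω) = 2 * Polynomial.X + Polynomial.C b := by
    simp only [derivative_add, derivative_mul, derivative_C, derivative_X_pow, derivative_X]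
    simp only [Nat.cast_ofNat, map_ofNat]
    ring
  obtain ⟨y, hy, hy0, hyx⟩ := L.hens M inferInstance (Polynomial.X ^ 2 +
    Polynomial.C b * Polynomial.X + Polynomial.C c)
    (by monicity!) (by
      intro i
      match i with
      | 0 =>
        have h2 : (Polynomial.X ^ 2 +
            Polynomial.C b * Polynomial.X + Polynomial.C c : Polynomial Ω).coeff 0 = c := by
          simp
        rw [h2]
        exact ⟨hc, hc1⟩
      | 1 =>
        have h2 : (Polynomial.X ^ 2 +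
            Polynomial.C b * Polynomial.X + Polynomial.C c : Polynomial Ω).coeff 1 = b := by
          simp [coeff_C]
        rw [h2]
        exact ⟨hb, hb1⟩
      | 2 =>
        have h2 : (Polynomial.X ^ 2 +
            Polynomial.C b * Polynomial.X + Polynomial.C c : Polynomial Ω).coeff 2 = 1 := by
          simp
        rw [h2, L.one]
        exact ⟨one_mem _, le_refl _⟩
      | n + 3 =>
        have h2 : (Polynomial.X ^ 2 +
            Polynomial.C b * Polynomial.X + Polynomial.C c : Polynomial Ω).coeff (n + 3) = 0 := by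
          simp [coeff_X_pow]
        rw [h2, (L.zero_iff 0).2 rfl]
        exact ⟨zero_mem _, zero_le_one⟩) x hx hx1 (by simpa using h0) (by
      rw [hd]
      simpa using h1)
  exact ⟨y, hy, by simpa using hy0, hyx⟩

/-- Hensel's lemma for a monic cubic polynomial. -/
theorem lifta_cub (M : IntermediateField K Ω) [FiniteDimensional K M] {a b c : Ω} (ha : a ∈ M)
    (hb : b ∈ M) (hc : c ∈ M) (ha1 : L.nm a ≤ 1) (hb1 : L.nm b ≤ 1) (hc1 : L.nm c ≤ 1)
    {x : Ω} (hx : x ∈ M) (hx1 : L.nm x ≤ 1) (h0 : L.nm (x ^ 3 + a * x ^ 2 + b * x + c) < 1)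
    (h1 : L.nm (3 * x ^ 2 + 2 * a * x + b) = 1) :
    ∃ y ∈ M, y ^ 3 + a * y ^ 2 + b * y + c = 0 ∧ L.nm (y - x) < 1 := by
  have hd : derivative (Polynomial.X ^ 3 + Polynomial.C a * Polynomial.X ^ 2 +
      Polynomial.C b * Polynomial.X + Polynomial.C c : Polynomial Ω) =
      3 * Polynomial.X ^ 2 + 2 * Polynomial.C a * Polynomial.X + Polynomial.C b := by
    simp only [derivative_add, derivative_mul, derivative_C, derivative_X_pow, derivative_X]
    simp only [Nat.cast_ofNat, map_ofNat]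
    ring
  obtain ⟨y, hy, hy0, hyx⟩ := L.hens M inferInstance (Polynomial.X ^ 3 +
    Polynomial.C a * Polynomial.X ^ 2 + Polynomial.C b * Polynomial.X + Polynomial.C c)
    (by monicity!) (by
      intro i
      match i with
      | 0 =>
        have h2 : (Polynomial.X ^ 3 + Polynomial.C a * Polynomial.X ^ 2 +
            Polynomial.C b * Polynomial.X + Polynomial.C c : Polynomial Ω).coeff 0 = c := by
          simp
        rw [h2]
        exact ⟨hc, hc1⟩
      | 1 =>
        have h2 : (Polynomial.X ^ 3 + Polynomial.C a * Polynomial.X ^ 2 +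
            Polynomial.C b * Polynomial.X + Polynomial.C c : Polynomial Ω).coeff 1 = b := by
          simp [coeff_C]
        rw [h2]
        exact ⟨hb, hb1⟩
      | 2 =>
        have h2 : (Polynomial.X ^ 3 + Polynomial.C a * Polynomial.X ^ 2 +
            Polynomial.C b * Polynomial.X + Polynomial.C c : Polynomial Ω).coeff 2 = a := by
          simp
        rw [h2]
        exact ⟨ha, ha1⟩
      | 3 =>
        have h2 : (Polynomial.X ^ 3 + Polynomial.C a * Polynomial.X ^ 2 +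
            Polynomial.C b * Polynomial.X + Polynomial.C c : Polynomial Ω).coeff 3 = 1 := by
          simp
        rw [h2, L.one]
        exact ⟨one_mem _, le_refl _⟩
      | n + 4 =>
        have h2 : (Polynomial.X ^ 3 + Polynomial.C a * Polynomial.X ^ 2 +
            Polynomial.C b * Polynomial.X + Polynomial.C c : Polynomial Ω).coeff (n + 4) = 0 := by
          simp [coeff_X_pow]
        rw [h2, (L.zero_iff 0).2 rfl]
        exact ⟨zero_mem _, zero_le_one⟩) x hx hx1 (by simpa using h0) (by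
      rw [hd]
      simpa using h1)
  exact ⟨y, hy, by simpa using hy0, hyx⟩

end hens

namespace Ld

variable {F : Type} [Field F] {K Ω : Type} [Field K] [Field Ω] [Algebra K Ω]
  [Algebra F K] [Algebra F Ω] [IsScalarTower F K Ω] {L : Ld K Ω} {W : WeierstrassCurve F}

theorem lifta_le {x y : Ω} (hx : L.nm x ≤ 1) (hy : L.nm y ≤ 1) : L.nm (x * y) ≤ 1 := by
  rw [L.mul]
  exact mul_le_one₀ hx (L.nonneg _) hy

theorem lifta_add {x y : Ω} (hx : L.nm x ≤ 1) (hy : L.nm y ≤ 1) : L.nm (x + y) ≤ 1 :=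
  (L.add x y).trans (max_le hx hy)

theorem lifta_sub {x y : Ω} (hx : L.nm x ≤ 1) (hy : L.nm y ≤ 1) : L.nm (x - y) ≤ 1 :=
  (L.sub x y).trans (max_le hx hy)

theorem lifta_mem (M : IntermediateField K Ω) (a : F) : algebraMap F Ω a ∈ M := by
  rw [IsScalarTower.algebraMap_apply F K Ω]
  exact M.algebraMap_mem _

/-- Lifting of a nonsingular point modulo the maximal ideal. -/
theorem lifta_pt (h : L.It W) (M : IntermediateField K Ω) [FiniteDimensional K M] {x y : Ω}
    (hxM : x ∈ M) (hyM : y ∈ M) (hx : L.nm x ≤ 1) (hy : L.nm y ≤ 1)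
    (hf : L.nm (fe W x y) < 1) (hd : L.nm (dx W x y) = 1 ∨ L.nm (dy W x y) = 1) :
    ∃ x' ∈ M, ∃ y' ∈ M, fe W x' y' = 0 ∧ L.nm (x' - x) < 1 ∧ L.nm (y' - y) < 1 := by
  have h0 : L.nm (0 : Ω) < 1 := by
    rw [L.zero]
    exact zero_lt_one
  have hx2 : L.nm (x * x) ≤ 1 := lifta_le hx hx
  rcases hd with hd | hd
  · obtain ⟨x', hx', he, hc⟩ := lifta_cub L.toLf M (a := algebraMap F Ω W.a₂)
      (b := algebraMap F Ω W.a₄ - algebraMap F Ω W.a₁ * y)
      (c := algebraMap F Ω W.a₆ - (y * y + algebraMap F Ω W.a₃ * y)) (lifta_mem M _)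
      (M.sub_mem (lifta_mem M _) (M.mul_mem (lifta_mem M _) hyM))
      (M.sub_mem (lifta_mem M _) (M.add_mem (M.mul_mem hyM hyM) (M.mul_mem (lifta_mem M _) hyM)))
      h.a₂ (lifta_sub h.a₄ (lifta_le h.a₁ hy)) (lifta_sub h.a₆ (lifta_add
        (lifta_le hy hy) (lifta_le h.a₃ hy))) hxM hx
      (by
        rw [← L.neg] at hf
        convert hf using 2
        unfold fe
        ring)
      (by
        convert hd using 2
        unfold dx
        ring)
    refine ⟨x', hx', y, hyM, ?_, hc, by rw [sub_self]; exact h0⟩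
    unfold fe
    linear_combination -he
  · obtain ⟨y', hy', he, hc⟩ := lifta_quad L.toLf M
      (b := algebraMap F Ω W.a₁ * x + algebraMap F Ω W.a₃)
      (c := -(x * (x * x) + algebraMap F Ω W.a₂ * (x * x) + algebraMap F Ω W.a₄ * x +
        algebraMap F Ω W.a₆))
      (M.add_mem (M.mul_mem (lifta_mem M _) hxM) (lifta_mem M _))
      (M.neg_mem (M.add_mem (M.add_mem (M.add_mem (M.mul_mem hxM (M.mul_mem hxM hxM))
        (M.mul_mem (lifta_mem M _) (M.mul_mem hxM hxM))) (M.mul_mem (lifta_mem M _) hxM))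
        (lifta_mem M _)))
      (lifta_add (lifta_le h.a₁ hx) h.a₃)
      (by
        rw [L.neg]
        exact lifta_add (lifta_add (lifta_add (lifta_le hx hx2) (lifta_le h.a₂ hx2))
          (lifta_le h.a₄ hx)) h.a₆) hyM hy
      (by
        convert hf using 2
        unfold fe
        ring)
      (by
        convert hd using 2
        unfold dy
        ring)
    refine ⟨x, hxM, y', hy', ?_, by rw [sub_self]; exact h0, hc⟩
    unfold fe
    linear_combination he

omit [Algebra F K] [IsScalarTower F K Ω] in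
/-- The residue of `fe`. -/
theorem lifta_fe (h : L.It W) {x y : Ω} {r s : L.κ} (hx : L.rs.Hv x r) (hy : L.rs.Hv y s) :
    L.rs.Hv (fe W x y) (s ^ 2 + (L.rc W).a₁ * r * s + (L.rc W).a₃ * s -
      (r ^ 3 + (L.rc W).a₂ * r ^ 2 + (L.rc W).a₄ * r + (L.rc W).a₆)) := by
  have h1 := L.hv_rr h.a₁
  have h2 := L.hv_rr h.a₂
  have h3 := L.hv_rr h.a₃
  have h4 := L.hv_rr h.a₄
  have h6 := L.hv_rr h.a₆
  exact (((hy.pow 2).add ((h1.mul hx).mul hy)).add (h3.mul hy)).sub
    ((((hx.pow 3).add (h2.mul (hx.pow 2))).add (h4.mul hx)).add h6)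

omit [Algebra F K] [IsScalarTower F K Ω] in
/-- The residue of `dy`. -/
theorem lifta_dy (h : L.It W) {x y : Ω} {r s : L.κ} (hx : L.rs.Hv x r) (hy : L.rs.Hv y s) :
    L.rs.Hv (dy W x y) (2 * s + (L.rc W).a₁ * r + (L.rc W).a₃) := by
  have h1 := L.hv_rr h.a₁
  have h3 := L.hv_rr h.a₃
  have h5 := Rs.Hv.nat (w := L.rs) 2
  rw [Nat.cast_ofNat, Nat.cast_ofNat] at h5
  exact ((h5.mul hy).add (h1.mul hx)).add h3

omit [Algebra F K] [IsScalarTower F K Ω] in
/-- The residue of `dx`. -/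
theorem lifta_dx (h : L.It W) {x y : Ω} {r s : L.κ} (hx : L.rs.Hv x r) (hy : L.rs.Hv y s) :
    L.rs.Hv (dx W x y) (3 * r ^ 2 + 2 * (L.rc W).a₂ * r + (L.rc W).a₄ - (L.rc W).a₁ * s) := by
  have h1 := L.hv_rr h.a₁
  have h2 := L.hv_rr h.a₂
  have h4 := L.hv_rr h.a₄
  have h5 := Rs.Hv.nat (w := L.rs) 2
  have h6 := Rs.Hv.nat (w := L.rs) 3
  rw [Nat.cast_ofNat, Nat.cast_ofNat] at h5 h6
  exact (((h6.mul (hx.pow 2)).add ((h5.mul h2).mul hx)).add h4).sub (h1.mul hy)

/-- Two close integral numbers have the same residue. -/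
theorem lifta_hv {x x' : Ω} {r : L.κ} (hx : L.rs.Hv x r) (h : L.nm (x' - x) < 1) :
    L.rs.Hv x' r := by
  have h1 : L.nm x' ≤ 1 := by
    have h2 := lifta_add (L := L) h.le (hv_int L hx)
    rwa [sub_add_cancel] at h2
  obtain ⟨r', hr'⟩ := hv_of L h1
  rwa [(hv_sub L hr' hx).2 h] at hr'

section

variable [CharZero K] [IsAlgClosure K Ω] [W.IsElliptic]

theorem lifta_aff (h : L.It W) (M : IntermediateField K Ω) [FiniteDimensional K M] {x y x₀ y₀ : Ω}
    (hP : (W.baseChange Ω).toAffine.Nonsingular x y) (hx : L.nm x ≤ 1)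
    (hns : L.Ns (Pt.aff x y hP : Pt W Ω)) (hx₀ : x₀ ∈ M) (hy₀ : y₀ ∈ M) (hx' : L.nm (x₀ - x) < 1)
    (hy' : L.nm (y₀ - y) < 1) :
    ∃ Q : Pt W Ω, Fx M Q ∧ L.Cg Q (Pt.aff x y hP) := by
  obtain ⟨hy, hns'⟩ := ns_aff h hP hx
  have hd := hns'.1 hns
  obtain ⟨r, hr⟩ := hv_of L hx
  obtain ⟨s, hs⟩ := hv_of L hy
  have hr₀ := lifta_hv hr hx'
  have hs₀ := lifta_hv hs hy'
  have hf : L.nm (fe W x₀ y₀) < 1 := by
    rw [← hv_zero L]
    refine (lifta_fe h hr₀ hs₀).congr rfl ?_
    have h1 := lifta_fe h hr hs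
    rw [fe_zero hP] at h1
    exact h1.uniq Rs.Hv.zero
  have hd₀ : L.nm (dx W x₀ y₀) = 1 ∨ L.nm (dy W x₀ y₀) = 1 := by
    rcases hd with hd | hd
    · left
      exact (hv_ne L (lifta_dx h hr₀ hs₀)).1 ((hv_ne L (lifta_dx h hr hs)).2 hd)
    · right
      exact (hv_ne L (lifta_dy h hr₀ hs₀)).1 ((hv_ne L (lifta_dy h hr hs)).2 hd)
  obtain ⟨x', hxM, y', hyM, he, hxx, hyy⟩ := lifta_pt h M hx₀ hy₀ (hv_int L hr₀) (hv_int L hs₀) hf hd₀
  have hQ := aff_of_fe he
  refine ⟨Pt.aff x' y' hQ, (fx_aff M hQ).2 ⟨hxM, hyM⟩, cg_symm h ?_⟩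
  rw [cg_aff h hP hQ hx hns]
  constructor
  · have h1 := L.add (x' - x₀) (x₀ - x)
    rw [sub_add_sub_cancel] at h1
    exact h1.trans_lt (max_lt hxx hx')
  · have h1 := L.add (y' - y₀) (y₀ - y)
    rw [sub_add_sub_cancel] at h1
    exact h1.trans_lt (max_lt hyy hy')

omit [CharZero K] in
theorem lifta_rs (h : L.It W) (Q : Pn (L.rc W)) : ∃ P : Pt W Ω, L.Red P Q := by
  obtain rfl | ⟨r, s, g, rfl⟩ := Pn.cases' Q
  · exact ⟨0, rs_red_zero⟩
  obtain ⟨x, hx⟩ := hv_surj L r
  obtain ⟨y, hy⟩ := hv_surj L s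
  have : Algebra.IsAlgebraic K Ω := IsAlgClosure.isAlgebraic
  let M : IntermediateField K Ω := adjoin K {x, y}
  have hfin : FiniteDimensional K M :=
    IntermediateField.finiteDimensional_adjoin fun z _ => (Algebra.IsAlgebraic.isAlgebraic z).isIntegral
  have hxM : x ∈ M := subset_adjoin K _ (by simp)
  have hyM : y ∈ M := subset_adjoin K _ (by simp)
  have hf : L.nm (fe W x y) < 1 := by
    rw [← hv_zero L]
    refine (lifta_fe h hx hy).congr rfl ?_
    rw [sub_eq_zero]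
    exact Pn.eqn g
  have hd : L.nm (dx W x y) = 1 ∨ L.nm (dy W x y) = 1 := by
    have h1 := ((WeierstrassCurve.Affine.nonsingular_iff _ _).1 g).2
    rcases h1 with h1 | h1
    · left
      refine (hv_ne L (lifta_dx h hx hy)).1 fun h2 => h1 ?_
      linear_combination -h2
    · right
      refine (hv_ne L (lifta_dy h hx hy)).1 fun h2 => h1 ?_
      linear_combination h2
  obtain ⟨x', hxM, y', hyM, he, hxx, hyy⟩ := lifta_pt h M hxM hyM (hv_int L hx) (hv_int L hy) hf hd
  exact ⟨Pt.aff x' y' (aff_of_fe he), Or.inr ⟨r, s, g, lifta_hv hx hxx, lifta_hv hy hyy, rfl⟩⟩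

end

end Ld

end PE
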