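import Pool.Agent.Lib.MP_f80667_ag.Pe.Lo

/-! A point with `dy` a unit. -/

open ZC BE Polynomial IntermediateField

namespace PE

namespace Ld

set_option linter.unusedSectionVars false

variable {F : Type} [Field F] {K Ω : Type} [Field K] [CharZero K] [Field Ω] [Algebra K Ω]
  [Algebra F K] [Algebra F Ω] [IsScalarTower F K Ω] [IsAlgClosure K Ω] {L : Ld K Ω} [L.Unr]
  {W : WeierstrassCurve F}

omit [Algebra F K] [IsScalarTower F K Ω] in
/-- Over each `x` there is a point. -/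
theorem dy_root (K : Type) [Field K] [CharZero K] [Algebra K Ω] [IsAlgClosure K Ω]
    (W : WeierstrassCurve F) (x : Ω) : ∃ y : Ω, fe W x y = 0 := by
  have h1 : IsAlgClosed Ω := IsAlgClosure.isAlgClosed K
  have h2 : CharZero Ω := charZero_of_injective_algebraMap (algebraMap K Ω).injective
  obtain ⟨z, hz⟩ := IsAlgClosed.exists_eq_mul_self
    ((algebraMap F Ω W.a₁ * x + algebraMap F Ω W.a₃) ^ 2 + 4 * (x ^ 3 +
      algebraMap F Ω W.a₂ * x ^ 2 + algebraMap F Ω W.a₄ * x + algebraMap F Ω W.a₆))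
  refine ⟨(-(algebraMap F Ω W.a₁ * x + algebraMap F Ω W.a₃) + z) / 2, ?_⟩
  unfold fe
  field_simp
  linear_combination -hz

/-- products of integral elements -/
theorem dy_mul_le {x y : Ω} {r s : ℝ} (hr : 0 ≤ r) (hx : L.nm x ≤ r) (hy : L.nm y ≤ s) :
    L.nm (x * y) ≤ r * s := by
  rw [L.mul]
  exact mul_le_mul hx hy (L.nonneg y) hr

theorem dy_mul_one {x y : Ω} (hx : L.nm x ≤ 1) (hy : L.nm y ≤ 1) : L.nm (x * y) ≤ 1 := by
  have h1 := dy_mul_le (L := L) zero_le_one hx hy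
  rwa [one_mul] at h1

theorem dy_pow_one {x : Ω} (hx : L.nm x ≤ 1) (n : ℕ) : L.nm (x ^ n) ≤ 1 := by
  rw [L.pow]
  exact pow_le_one₀ (L.nonneg x) hx

theorem dy_add_le {x y : Ω} {r : ℝ} (hx : L.nm x ≤ r) (hy : L.nm y ≤ r) : L.nm (x + y) ≤ r :=
  (L.add x y).trans (max_le hx hy)

theorem dy_sub_le {x y : Ω} {r : ℝ} (hx : L.nm x ≤ r) (hy : L.nm y ≤ r) : L.nm (x - y) ≤ r :=
  (L.sub x y).trans (max_le hx hy)

theorem dy_add_lt {x y : Ω} {r : ℝ} (hx : L.nm x < r) (hy : L.nm y < r) : L.nm (x + y) < r :=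
  (L.add x y).trans_lt (max_lt hx hy)

theorem dy_sub_lt {x y : Ω} {r : ℝ} (hx : L.nm x < r) (hy : L.nm y < r) : L.nm (x - y) < r :=
  (L.sub x y).trans_lt (max_lt hx hy)

theorem dy_num (n : ℕ) [n.AtLeastTwo] : L.nm (OfNat.ofNat n : Ω) ≤ 1 := by
  have h1 := L.nat_le n
  rwa [← Nat.cast_ofNat]

/-- The second coordinate is integral. -/
theorem dy_int (h : L.It W) {x y : Ω} (hx : L.nm x ≤ 1) (hf : fe W x y = 0) : L.nm y ≤ 1 := by
  by_contra hcon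
  rw [not_le] at hcon
  have hb : L.nm (algebraMap F Ω W.a₁ * x + algebraMap F Ω W.a₃) ≤ 1 :=
    dy_add_le (dy_mul_one h.a₁ hx) h.a₃
  have hc : L.nm (x ^ 3 + algebraMap F Ω W.a₂ * x ^ 2 + algebraMap F Ω W.a₄ * x +
      algebraMap F Ω W.a₆) ≤ 1 :=
    dy_add_le (dy_add_le (dy_add_le (dy_pow_one hx 3) (dy_mul_one h.a₂ (dy_pow_one hx 2)))
      (dy_mul_one h.a₄ hx)) h.a₆
  have h1 : y ^ 2 = (x ^ 3 + algebraMap F Ω W.a₂ * x ^ 2 + algebraMap F Ω W.a₄ * x +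
      algebraMap F Ω W.a₆) - (algebraMap F Ω W.a₁ * x + algebraMap F Ω W.a₃) * y := by
    unfold fe at hf
    linear_combination hf
  have h2 : L.nm (y ^ 2) ≤ L.nm y := by
    rw [h1]
    refine dy_sub_le (hc.trans hcon.le) ?_
    have h3 := dy_mul_le (L := L) zero_le_one hb (le_refl (L.nm y))
    rwa [one_mul] at h3
  rw [L.pow] at h2
  nlinarith

/-- For `p` odd. -/
theorem dy_odd (h : L.It W) (hp : L.p ≠ 2) : ∃ x : Ω, L.nm x ≤ 1 ∧
    L.nm ((algebraMap F Ω W.a₁ * x + algebraMap F Ω W.a₃) ^ 2 + 4 * (x ^ 3 +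
      algebraMap F Ω W.a₂ * x ^ 2 + algebraMap F Ω W.a₄ * x + algebraMap F Ω W.a₆)) = 1 := by
  have h1 : IsAlgClosed Ω := IsAlgClosure.isAlgClosed K
  obtain ⟨D, hD⟩ : ∃ D : Ω → Ω, ∀ x, D x = (algebraMap F Ω W.a₁ * x + algebraMap F Ω W.a₃) ^ 2 +
      4 * (x ^ 3 + algebraMap F Ω W.a₂ * x ^ 2 + algebraMap F Ω W.a₄ * x +
      algebraMap F Ω W.a₆) := ⟨_, fun x => rfl⟩
  simp only [← hD]
  have hle : ∀ x, L.nm x ≤ 1 → L.nm (D x) ≤ 1 := by
    intro x hx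
    rw [hD]
    refine dy_add_le (dy_pow_one (dy_add_le (dy_mul_one h.a₁ hx) h.a₃) 2) ?_
    exact dy_mul_one (dy_num 4) (dy_add_le (dy_add_le (dy_add_le (dy_pow_one hx 3)
      (dy_mul_one h.a₂ (dy_pow_one hx 2))) (dy_mul_one h.a₄ hx)) h.a₆)
  obtain ⟨i, hi⟩ := IsAlgClosed.exists_eq_mul_self (-1 : Ω)
  have hi1 : L.nm i = 1 := by
    have h2 : L.nm i * L.nm i = 1 := by
      rw [← L.mul, ← hi, L.neg, L.one]
    nlinarith [L.nonneg i]
  by_contra hcon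
  have hlt : ∀ x, L.nm x ≤ 1 → L.nm (D x) < 1 := by
    intro x hx
    refine lt_of_le_of_ne (hle x hx) fun h3 => hcon ⟨x, hx, h3⟩
  have h16 : (16 : Ω) = D 1 - D (-1) + i * (D i - D (-i)) := by
    rw [hD, hD, hD, hD]
    linear_combination (8 * i ^ 2 - 8 + 4 * (2 * algebraMap F Ω W.a₄ +
      algebraMap F Ω W.a₁ * algebraMap F Ω W.a₃)) * hi
  have hnot : ¬ L.p ∣ 16 := by
    intro h3
    have h4 : L.p ∣ 2 := L.pp.dvd_of_dvd_pow (n := 4) (by norm_num; exact h3)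
    exact hp ((Nat.prime_dvd_prime_iff_eq L.pp Nat.prime_two).1 h4)
  have h5 := L.nat_unit hnot
  have h6 : L.nm (16 : Ω) < 1 := by
    rw [h16]
    refine dy_add_lt (dy_sub_lt (hlt 1 L.one.le) (hlt (-1) (by rw [L.neg, L.one]))) ?_
    rw [L.mul, hi1, one_mul]
    exact dy_sub_lt (hlt i hi1.le) (hlt (-i) (by rw [L.neg, hi1]))
  have h7 : ((16 : ℕ) : Ω) = 16 := by norm_num
  rw [h7] at h5
  exact absurd h5 h6.ne

/-- Elements of `K` of norm `< 1` are divisible by `p`. -/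
theorem dy_small {a : K} (ha : L.nm (algebraMap K Ω a) < 1) :
    L.nm (algebraMap K Ω a) ≤ L.nm (L.p : Ω) := by
  by_cases h0 : a = 0
  · rw [h0, map_zero, L.zero]
    exact L.nonneg _
  · obtain ⟨n, hn⟩ := L.unr a h0
    rw [hn] at ha ⊢
    have hp := L.p_pos
    have h1 : 1 ≤ n := by
      by_contra hcon
      have h2 : n ≤ 0 := by omega
      have h3 : 1 ≤ L.nm (L.p : Ω) ^ n := one_le_zpow_of_nonpos₀ hp L.lt.le h2
      exact absurd ha (not_lt.2 h3)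
    have h4 := zpow_le_zpow_right_of_le_one₀ hp L.lt.le h1
    rwa [zpow_one] at h4

/-- For `p = 2`, `a₁` or `a₃` is a unit. -/
theorem dy_two (h : L.Hd W) (hp : L.p = 2) :
    L.nm (algebraMap F Ω W.a₁) = 1 ∨ L.nm (algebraMap F Ω W.a₃) = 1 := by
  by_contra hcon
  rw [not_or] at hcon
  have hpos := L.p_pos
  have hlt := L.lt
  have hd := h.disc
  rw [hp] at hpos hlt hd
  rw [Nat.cast_ofNat] at hpos hlt hd
  have hs : ∀ a : F, L.nm (algebraMap F Ω a) ≤ 1 → L.nm (algebraMap F Ω a) ≠ 1 →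
      L.nm (algebraMap F Ω a) ≤ L.nm (2 : Ω) := by
    intro a h1 h2
    have h3 := lt_of_le_of_ne h1 h2
    rw [IsScalarTower.algebraMap_apply F K Ω] at h3 ⊢
    have h4 := dy_small h3
    rwa [hp, Nat.cast_ofNat] at h4
  have ha1 := hs _ h.a₁ hcon.1
  have ha3 := hs _ h.a₃ hcon.2
  obtain ⟨t, ht⟩ : ∃ t, t = L.nm (2 : Ω) := ⟨_, rfl⟩
  rw [← ht] at hpos hlt hd ha1 ha3
  have h4 : L.nm (4 : Ω) ≤ t * t := by
    rw [ht, ← L.mul]
    norm_num
  have h2 : L.nm (2 : Ω) ≤ t := ht.symm.le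
  have hb2 : L.nm (algebraMap F Ω W.a₁ ^ 2 + 4 * algebraMap F Ω W.a₂) ≤ t * t := by
    refine dy_add_le ?_ ?_
    · rw [pow_two]
      exact dy_mul_le hpos.le ha1 ha1
    · have h5 := dy_mul_le (L := L) (mul_nonneg hpos.le hpos.le) h4 h.a₂
      rwa [mul_one] at h5
  have hb4 : L.nm (2 * algebraMap F Ω W.a₄ + algebraMap F Ω W.a₁ * algebraMap F Ω W.a₃) ≤ t := by
    refine dy_add_le ?_ ?_
    · have h5 := dy_mul_le (L := L) hpos.le h2 h.a₄
      rwa [mul_one] at h5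
    · have h5 := dy_mul_le (L := L) hpos.le ha1 h.a₃
      rwa [mul_one] at h5
  have hb6 : L.nm (algebraMap F Ω W.a₃ ^ 2 + 4 * algebraMap F Ω W.a₆) ≤ t * t := by
    refine dy_add_le ?_ ?_
    · rw [pow_two]
      exact dy_mul_le hpos.le ha3 ha3
    · have h5 := dy_mul_le (L := L) (mul_nonneg hpos.le hpos.le) h4 h.a₆
      rwa [mul_one] at h5
  have hb8 : L.nm (algebraMap F Ω W.b₈) ≤ 1 := by
    have h5 : algebraMap F Ω W.b₈ = algebraMap F Ω W.a₁ ^ 2 * algebraMap F Ω W.a₆ +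
        4 * algebraMap F Ω W.a₂ * algebraMap F Ω W.a₆ -
        algebraMap F Ω W.a₁ * algebraMap F Ω W.a₃ * algebraMap F Ω W.a₄ +
        algebraMap F Ω W.a₂ * algebraMap F Ω W.a₃ ^ 2 - algebraMap F Ω W.a₄ ^ 2 := by
      simp only [WeierstrassCurve.b₈, map_add, map_sub, map_mul, map_pow, map_ofNat]
    rw [h5]
    refine dy_sub_le (dy_add_le (dy_sub_le (dy_add_le ?_ ?_) ?_) ?_) ?_
    · exact dy_mul_one (dy_pow_one h.a₁ 2) h.a₆
    · exact dy_mul_one (dy_mul_one (dy_num 4) h.a₂) h.a₆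
    · exact dy_mul_one (dy_mul_one h.a₁ h.a₃) h.a₄
    · exact dy_mul_one h.a₂ (dy_pow_one h.a₃ 2)
    · exact dy_pow_one h.a₄ 2
  obtain ⟨b2, hb2'⟩ : ∃ b, b = algebraMap F Ω W.a₁ ^ 2 + 4 * algebraMap F Ω W.a₂ := ⟨_, rfl⟩
  obtain ⟨b4, hb4'⟩ : ∃ b, b = 2 * algebraMap F Ω W.a₄ +
    algebraMap F Ω W.a₁ * algebraMap F Ω W.a₃ := ⟨_, rfl⟩
  obtain ⟨b6, hb6'⟩ : ∃ b, b = algebraMap F Ω W.a₃ ^ 2 + 4 * algebraMap F Ω W.a₆ := ⟨_, rfl⟩
  obtain ⟨b8, hb8'⟩ : ∃ b, b = algebraMap F Ω W.b₈ := ⟨_, rfl⟩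
  have hΔ : algebraMap F Ω W.Δ = -b2 ^ 2 * b8 - 8 * b4 ^ 3 - 27 * b6 ^ 2 + 9 * b2 * b4 * b6 := by
    rw [hb2', hb4', hb6', hb8']
    simp only [WeierstrassCurve.Δ, WeierstrassCurve.b₂, WeierstrassCurve.b₄, WeierstrassCurve.b₆,
      map_add, map_sub, map_mul, map_pow, map_ofNat, map_neg]
  rw [← hb2'] at hb2
  rw [← hb4'] at hb4
  rw [← hb6'] at hb6
  rw [← hb8'] at hb8
  have ht2 : 0 ≤ t * t := mul_nonneg hpos.le hpos.le
  have h22 : L.nm (b2 ^ 2) ≤ (t * t) * (t * t) := by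
    rw [pow_two]
    exact dy_mul_le ht2 hb2 hb2
  have h66 : L.nm (b6 ^ 2) ≤ (t * t) * (t * t) := by
    rw [pow_two]
    exact dy_mul_le ht2 hb6 hb6
  have ht4 : 0 ≤ (t * t) * (t * t) := mul_nonneg ht2 ht2
  have htt : t * t ≤ 1 := by nlinarith
  have hΔle : L.nm (algebraMap F Ω W.Δ) ≤ (t * t) * (t * t) := by
    rw [hΔ]
    refine dy_add_le (dy_sub_le (dy_sub_le ?_ ?_) ?_) ?_
    · have h5 := dy_mul_le (L := L) ht4 (x := -b2 ^ 2) (by rw [L.neg]; exact h22) hb8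
      rwa [mul_one] at h5
    · have h5 : (8 : Ω) * b4 ^ 3 = (4 * 2) * (b4 ^ 3) := by ring
      rw [h5]
      have h6 : L.nm (b4 ^ 3) ≤ t := by
        have h7 := dy_mul_le (L := L) hpos.le hb4 (dy_pow_one (hb4.trans hlt.le) 2)
        rw [mul_one, ← pow_succ'] at h7
        exact h7
      have h8 := dy_mul_le (L := L) (mul_nonneg ht2 hpos.le) (dy_mul_le ht2 h4 h2) h6
      rwa [mul_assoc (t * t)] at h8
    · have h5 := dy_mul_le (L := L) (x := 27) (y := b6 ^ 2) zero_le_one (dy_num 27) h66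
      rwa [one_mul] at h5
    · have h5 : L.nm (9 * b2 * b4) ≤ t * t := by
        have h6 := dy_mul_le (L := L) (x := 9) zero_le_one (dy_num 9) hb2
        rw [one_mul] at h6
        have h7 := dy_mul_le (L := L) ht2 h6 (hb4.trans hlt.le)
        rwa [mul_one] at h7
      exact dy_mul_le ht2 h5 hb6
  have h9 : t ≤ (t * t) * (t * t) := hd.trans hΔle
  nlinarith [mul_pos hpos hpos]

theorem dy_exists [W.IsElliptic] (h : L.Hd W) :
    ∃ (x y : Ω) (_ : (W.baseChange Ω).toAffine.Nonsingular x y),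
    L.nm x ≤ 1 ∧ L.nm y ≤ 1 ∧ L.nm (dy W x y) = 1 := by
  by_cases hp : L.p = 2
  · have hlt := L.lt
    rw [hp, Nat.cast_ofNat] at hlt
    have key : ∀ x : Ω, L.nm x ≤ 1 → L.nm (algebraMap F Ω W.a₁ * x + algebraMap F Ω W.a₃) = 1 →
        ∃ (x y : Ω) (_ : (W.baseChange Ω).toAffine.Nonsingular x y),
        L.nm x ≤ 1 ∧ L.nm y ≤ 1 ∧ L.nm (dy W x y) = 1 := by
      intro x hx h1
      obtain ⟨y, hy⟩ := dy_root K W x
      have hy1 := dy_int h.toIt hx hy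
      refine ⟨x, y, aff_of_fe hy, hx, hy1, ?_⟩
      have h2 : L.nm (2 * y) < 1 := by
        rw [L.mul]
        exact mul_lt_one_of_nonneg_of_lt_one_left (L.nonneg _) hlt hy1
      have h3 : dy W x y = 2 * y + (algebraMap F Ω W.a₁ * x + algebraMap F Ω W.a₃) := by
        unfold dy
        ring
      rw [h3, L.add_eq (by rw [h1]; exact h2), h1]
    by_cases h3 : L.nm (algebraMap F Ω W.a₃) = 1
    · refine key 0 (by rw [L.zero]; exact zero_le_one) ?_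
      rw [mul_zero, zero_add, h3]
    · have h1 := (dy_two h hp).resolve_right h3
      refine key 1 L.one.le ?_
      have h4 := lt_of_le_of_ne h.a₃ h3
      rw [mul_one, L.add_eq' (by rw [h1]; exact h4), h1]
  · obtain ⟨x, hx, hD⟩ := dy_odd h.toIt hp
    obtain ⟨y, hy⟩ := dy_root K W x
    refine ⟨x, y, aff_of_fe hy, hx, dy_int h.toIt hx hy, ?_⟩
    have h1 : dy W x y ^ 2 = (algebraMap F Ω W.a₁ * x + algebraMap F Ω W.a₃) ^ 2 + 4 * (x ^ 3 +
        algebraMap F Ω W.a₂ * x ^ 2 + algebraMap F Ω W.a₄ * x + algebraMap F Ω W.a₆) := by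
      unfold dy
      unfold fe at hy
      linear_combination 4 * hy
    have h2 : L.nm (dy W x y) ^ 2 = 1 := by
      rw [← L.pow, h1, hD]
    nlinarith [L.nonneg (dy W x y)]

end Ld

end PE
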