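import Pool.Agent.Lib.MP_f80667_ag.Pe.Lo
import Pool.Agent.Lib.MP_f80667_ag.Pe.Ur
import Pool.Agent.Lib.MP_f80667_ag.Pe.NmL
import Pool.Agent.Lib.MP_f80667_ag.Pe.LiftDy
import Pool.Agent.Lib.MP_f80667_ag.Pe.LiftA

/-! Lifting of nonsingular points of the reduction. -/

open ZC BE Polynomial IntermediateField

namespace PE

namespace Ld

variable {F : Type} [Field F] {K Ω : Type} [Field K] [CharZero K] [Field Ω] [Algebra K Ω]
  [Algebra F K] [Algebra F Ω] [IsScalarTower F K Ω] [IsAlgClosure K Ω] {L : Ld K Ω}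
  {W : WeierstrassCurve F} [W.IsElliptic]

/-- A point whose residues are in `M`. Proof: if `dy W x₀ y₀` is a unit, `Hensel` for the monic polynomial
`Y² + (a₁ x₀ + a₃) Y - (x₀³ + ...)` over `M` at `y₀` (`hens`); if `dx W x₀ y₀` is a unit, for the monic polynomial `X³ + a₂ X² + (a₄ - a₁ y₀) X + a₆ - y₀² - a₃ y₀` at `x₀`.
`cg_aff`. -/
theorem lift_aff (h : L.It W) (M : IntermediateField K Ω) [FiniteDimensional K M] {x y x₀ y₀ : Ω}
    (hP : (W.baseChange Ω).toAffine.Nonsingular x y) (hx : L.nm x ≤ 1)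
    (hns : L.Ns (Pt.aff x y hP : Pt W Ω)) (hx₀ : x₀ ∈ M) (hy₀ : y₀ ∈ M) (hx' : L.nm (x₀ - x) < 1)
    (hy' : L.nm (y₀ - y) < 1) :
    ∃ Q : Pt W Ω, Fx M Q ∧ L.Cg Q (Pt.aff x y hP) :=
  lifta_aff h M hP hx hns hx₀ hy₀ hx' hy'

omit [CharZero K] [IsAlgClosure K Ω] [W.IsElliptic] in
/-- A point with nonsingular reduction is congruent to `0` or is integral. -/
private theorem lf_cases (h : L.It W) {S : Pt W Ω} (hS : L.Ns S) :
    L.Cg 0 S ∨ ∃ (x y : Ω) (hP : (W.baseChange Ω).toAffine.Nonsingular x y),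
      S = Pt.aff x y hP ∧ L.nm x ≤ 1 ∧ L.nm y ≤ 1 := by
  rcases Pt.cases' S with rfl | ⟨x, y, hP, rfl⟩
  · exact Or.inl (cg_refl 0)
  · rcases lt_or_ge 1 (L.nm x) with hx | hx
    · left
      have h1 := ((fm_aff h hP).1).2 hx
      unfold Cg
      rw [zero_sub]
      exact (fm_neg h h1).1
    · exact Or.inr ⟨x, y, hP, rfl, hx, (ns_aff h hP hx).1⟩

omit [CharZero K] [IsAlgClosure K Ω] in
private theorem lf_close {x z : Ω} {γ : Ω ≃ₐ[K] Ω} (hz : L.nm (x - z) < 1)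
    (hx : L.nm (x - γ x) < 1) : L.nm (γ z - z) < 1 := by
  have e : γ z - z = (x - z) - (x - γ x) - γ (x - z) := by
    rw [map_sub]
    ring
  rw [e]
  have h1 : L.nm (γ (x - z)) < 1 := by rw [L.act]; exact hz
  exact (L.sub _ _).trans_lt (max_lt ((L.sub _ _).trans_lt (max_lt hz hx)) h1)

/-- **Lifting.** A point whose reduction is fixed by the Galois group of `Ω / M` is congruent to a point over `M`. Proof: `0` if it is in the formal group. Otherwise
let `(x, y)` be the point, `x₀`, `y₀` the representatives (`te_rep`, `te_dvd`) of the residues; they are fixed by the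
automorphisms over `M` (`te_inj`), so they are in `M`; `lift_aff`. -/
theorem lift (h : L.It W) (M : IntermediateField K Ω) [FiniteDimensional K M] {S : Pt W Ω}
    (hS : L.Ns S) (hf : ∀ γ ∈ M.fixingSubgroup, L.Cg (γ • S) S) :
    ∃ Q : Pt W Ω, Fx M Q ∧ L.Cg Q S := by
  rcases lf_cases h hS with h0 | ⟨x, y, hP, rfl, hx, hy⟩
  · exact ⟨0, Fx.zero, h0⟩
  · obtain ⟨N, hN, x₀, hx₀, hx'⟩ := te_rep (L := L) hx
    obtain ⟨N', hN', y₀, hy₀, hy'⟩ := te_rep (L := L) hy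
    have hcg : ∀ γ ∈ M.fixingSubgroup, L.nm (x - γ x) < 1 ∧ L.nm (y - γ y) < 1 := by
      intro γ hγ
      have h1 := hf γ hγ
      have h2 := ns_act γ hS
      obtain ⟨h', e⟩ := act_aff γ hP
      rw [e] at h1 h2
      exact (cg_aff h h' hP (by rw [L.act]; exact hx) h2).1 h1
    refine lift_aff h M hP hx hS (fx_mem.1 fun γ hγ => ?_) (fx_mem.1 fun γ hγ => ?_)
      (by rw [L.sub_comm]; exact hx') (by rw [L.sub_comm]; exact hy')
    · exact te_inj hN (te_act γ hx₀) hx₀ (lf_close hx' (hcg γ hγ).1)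
    · exact te_inj hN' (te_act γ hy₀) hy₀ (lf_close hy' (hcg γ hγ).2)

/-- Every point with nonsingular reduction is congruent to a point over an unramified extension. -/
theorem lift_ur (h : L.It W) {S : Pt W Ω} (hS : L.Ns S) :
    ∃ f ≠ 0, ∀ N ≠ 0, f ∣ N → ∃ Q : Pt W Ω, Fx (L.Ur ⊥ N) Q ∧ L.Cg Q S := by
  rcases lf_cases h hS with h0 | ⟨x, y, hP, rfl, hx, hy⟩
  · exact ⟨1, one_ne_zero, fun N _ _ => ⟨0, Fx.zero, h0⟩⟩
  · obtain ⟨N₁, hN₁, x₀, hx₀, hx'⟩ := te_rep (L := L) hx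
    obtain ⟨N₂, hN₂, y₀, hy₀, hy'⟩ := te_rep (L := L) hy
    refine ⟨N₁ * N₂, mul_ne_zero hN₁ hN₂, fun N hN hd => ?_⟩
    have hfd : FiniteDimensional K (L.Ur ⊥ N) := ur_fin ⊥ N hN
    exact lift_aff h (L.Ur ⊥ N) hP hx hS
      (te_ur (te_dvd ((dvd_mul_right N₁ N₂).trans hd) hx₀))
      (te_ur (te_dvd ((dvd_mul_left N₂ N₁).trans hd) hy₀))
      (by rw [L.sub_comm]; exact hx') (by rw [L.sub_comm]; exact hy')

/-- A point over `M`, if the residues of `M` are in `Te N`. -/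
theorem lift_rf (h : L.It W) {M : IntermediateField K Ω} [FiniteDimensional K M] {N : ℕ}
    (hM : L.Rf M N) {S : Pt W Ω} (hS : L.Ns S) (hf : Fx M S) :
    ∃ Q : Pt W Ω, Fx (L.Ur ⊥ N) Q ∧ L.Cg Q S := by
  rcases lf_cases h hS with h0 | ⟨x, y, hP, rfl, hx, hy⟩
  · exact ⟨0, Fx.zero, h0⟩
  · obtain ⟨hxM, hyM⟩ := (fx_aff M hP).1 hf
    obtain ⟨x₀, hx₀, hx'⟩ := hM.res x hxM hx
    obtain ⟨y₀, hy₀, hy'⟩ := hM.res y hyM hy
    have hfd : FiniteDimensional K (L.Ur ⊥ N) := ur_fin ⊥ N hM.ne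
    exact lift_aff h (L.Ur ⊥ N) hP hx hS (te_ur hx₀) (te_ur hy₀)
      (by rw [L.sub_comm]; exact hx') (by rw [L.sub_comm]; exact hy')

/-- Every nonsingular point of the reduction is the reduction of a point. Proof: as `lift_aff` over a finite extension (`hv_surj`). -/
theorem rs_lift (h : L.It W) (Q : Pn (L.rc W)) : ∃ P : Pt W Ω, L.Red P Q :=
  lifta_rs h Q

/-- A point with `dy` a unit. Proof: choose the residue `r` of `x` with `D(r) ≠ 0`, `D = 4 x³ + b₂ x² + 2 b₄ x + b₆`; `dy² = D` (for a root `y` of the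
equation). `D ≠ 0` modulo `m`: for `p = 2` it is `(a₁ x + a₃)²`, and `a₁`, `a₃` are not both `≡ 0` since otherwise `16` divides the discriminant
(they are in `K`, so `nm a_i ≤ nm 2`). The number `r` can be chosen in the infinite field `κ`. -/
theorem exists_dy [L.Unr] (h : L.Hd W) : ∃ (x y : Ω) (hP : (W.baseChange Ω).toAffine.Nonsingular x y),
    L.nm x ≤ 1 ∧ L.nm y ≤ 1 ∧ L.nm (dy W x y) = 1 := by
  obtain ⟨x, y, hP, h1, h2, h3⟩ := dy_exists h
  exact ⟨x, y, hP, h1, h2, h3⟩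

end Ld

end PE
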