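import Mathlib

/-!
The discriminants `B² + 4 F` at `x = r` are not squares.
-/

open Polynomial

namespace PE

section rpa

variable {k : Type} [Field k]

theorem rpa_four [CharZero k] : (4 : k) ≠ 0 := by norm_num

/-- The discriminant as a polynomial in `r`. -/
theorem rpa_eq (a₁ a₂ a₃ a₄ a₆ : k) (r : k[X]) :
    (C a₁ * r + C a₃) ^ 2 + 4 * (r ^ 3 + C a₂ * r ^ 2 + C a₄ * r + C a₆) =
      (C (4 : k) * X ^ 3 + C (a₁ ^ 2 + 4 * a₂) * X ^ 2 + C (2 * a₁ * a₃ + 4 * a₄) * X +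
        C (a₃ ^ 2 + 4 * a₆)).comp r := by
  have h4 : (4 : k[X]) = C (4 : k) := (map_ofNat C 4).symm
  simp only [add_comp, mul_comp, C_comp, pow_comp, X_comp, h4]
  simp only [map_add, map_mul, map_pow, map_ofNat]
  ring

theorem rpa_deg [CharZero k] (a₁ a₂ a₃ a₄ a₆ : k) (r : k[X]) :
    ((C a₁ * r + C a₃) ^ 2 + 4 * (r ^ 3 + C a₂ * r ^ 2 + C a₄ * r + C a₆)).natDegree =
      3 * r.natDegree := by
  rw [rpa_eq, natDegree_comp, natDegree_cubic rpa_four]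

theorem rpa_lc [CharZero k] (a₁ a₂ a₃ a₄ a₆ : k) (r : k[X]) (hr : 0 < r.natDegree) :
    ((C a₁ * r + C a₃) ^ 2 + 4 * (r ^ 3 + C a₂ * r ^ 2 + C a₄ * r + C a₆)).leadingCoeff =
      4 * r.leadingCoeff ^ 3 := by
  rw [rpa_eq, leadingCoeff_comp hr.ne', natDegree_cubic rpa_four,
    leadingCoeff_cubic rpa_four]

theorem rpa_sq {p : k[X]} (h : IsSquare p) : IsSquare p.leadingCoeff ∧ Even p.natDegree := by
  obtain ⟨q, rfl⟩ := h
  refine ⟨⟨q.leadingCoeff, leadingCoeff_mul q q⟩, ?_⟩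
  by_cases hq : q = 0
  · rw [hq, mul_zero, natDegree_zero]
    exact Even.zero
  · rw [natDegree_mul hq hq]
    exact ⟨_, rfl⟩

theorem rpa_sq_lc {c x : k} (hc : c ≠ 0) (h : IsSquare (c ^ 2 * x ^ 3)) : IsSquare x := by
  obtain ⟨y, hy⟩ := h
  by_cases hx : x = 0
  · rw [hx]
    exact ⟨0, (mul_zero 0).symm⟩
  · refine ⟨y / (c * x), ?_⟩
    rw [div_mul_div_comm, eq_div_iff (mul_ne_zero (mul_ne_zero hc hx) (mul_ne_zero hc hx)), ← hy]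
    ring

theorem rpa_main [CharZero k] (a₁ a₂ a₃ a₄ a₆ b₁ b₂ b₃ b₄ b₆ : k) (r : k[X]) (hr : 0 < r.natDegree)
    (hlc : ¬ IsSquare r.leadingCoeff) :
    ¬ IsSquare ((C a₁ * r + C a₃) ^ 2 + 4 * (r ^ 3 + C a₂ * r ^ 2 + C a₄ * r + C a₆)) ∧
    ¬ IsSquare ((C b₁ * (X : k[X]) + C b₃) ^ 2 + 4 * (X ^ 3 + C b₂ * X ^ 2 + C b₄ * X + C b₆)) ∧
    ¬ IsSquare (((C a₁ * r + C a₃) ^ 2 + 4 * (r ^ 3 + C a₂ * r ^ 2 + C a₄ * r + C a₆)) *
      ((C b₁ * (X : k[X]) + C b₃) ^ 2 + 4 * (X ^ 3 + C b₂ * X ^ 2 + C b₄ * X + C b₆))) := by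
  refine ⟨fun h => ?_, fun h => ?_, fun h => ?_⟩
  · have h1 := (rpa_sq h).1
    rw [rpa_lc _ _ _ _ _ r hr] at h1
    apply hlc
    apply rpa_sq_lc (c := 2) two_ne_zero
    have e : (2 : k) ^ 2 * r.leadingCoeff ^ 3 = 4 * r.leadingCoeff ^ 3 := by ring
    rw [e]
    exact h1
  · have h1 := (rpa_sq h).2
    rw [rpa_deg, natDegree_X] at h1
    exact absurd h1 (by decide)
  · have h1 := (rpa_sq h).1
    rw [leadingCoeff_mul, rpa_lc _ _ _ _ _ r hr,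
      rpa_lc _ _ _ _ _ (X : k[X]) (by rw [natDegree_X]; exact one_pos), leadingCoeff_X] at h1
    apply hlc
    apply rpa_sq_lc (c := 4) rpa_four
    have e : (4 : k) ^ 2 * r.leadingCoeff ^ 3 = 4 * r.leadingCoeff ^ 3 * (4 * 1 ^ 3) := by ring
    rw [e]
    exact h1

end rpa

end PE
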