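import Pool.Agent.Lib.MP_f80667_ag.Pe.Tr
import Pool.Agent.Lib.MP_f80667_ag.Pe.Ab
import Pool.Agent.Lib.MP_f80667_ag.Pe.SiA
import Pool.Agent.Lib.MP_f80667_ag.Pe.SiB
import Pool.Agent.Lib.MP_f80667_ag.Pe.SiC

/-! The symbols of the product of two curves. -/

open ZC BE Polynomial

namespace PE

variable {F : Type} [Field F] {W₁ W₂ : WeierstrassCurve F} [W₁.IsElliptic] [W₂.IsElliptic]
  {K : Type} [Field K] [CharZero K] [Algebra F K] {Ω : Type} [Field Ω] [Algebra K Ω] [Algebra F Ω]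
  [IsScalarTower F K Ω] [IsAlgClosure K Ω]

/-- The image of a subgroup generated by a set under the push-forward. -/
private theorem si_push {A B : Type} (f : A → B) (R : AddSubgroup (B →₀ ℤ)) {s : Set (A →₀ ℤ)}
    (h : ∀ z ∈ s, Finsupp.mapDomain f z ∈ R) {z : A →₀ ℤ} (hz : z ∈ AddSubgroup.closure s) :
    Finsupp.mapDomain f z ∈ R := by
  have h1 : AddSubgroup.closure s ≤ R.comap (Finsupp.mapDomain.addMonoidHom (M := ℤ) f) :=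
    (AddSubgroup.closure_le _).2 fun z hz => h z hz
  exact h1 hz

/-- Abel's theorem on `E₁ × Q`. Proof: `Q` comes from a point over `K` (`exists_desc`); `abel`, `pv_left`, `pv_ratEq`. -/
theorem si_left (z : Pt W₁ Ω →₀ ℤ)
    (hz : ∀ γ : Ω ≃ₐ[K] Ω, Finsupp.mapDomain (fun P : Pt W₁ Ω => γ • P) z = z) (hd : dg z = 0)
    (hs : sm z = 0) (Q : Pt W₂ Ω) (hQ : ∀ γ : Ω ≃ₐ[K] Ω, γ • Q = Q) :
    Finsupp.mapDomain (fun P => ((P, Q) : Pt W₁ Ω × Pt W₂ Ω)) z ∈ (Xv W₁ W₂).ratEq K Ω := by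
  obtain ⟨Q₀, rfl⟩ := exists_desc (K := K) hQ
  have hK : IsAlgClosed Ω := IsAlgClosure.isAlgClosed K
  exact si_push _ _ (fun y hy => pv_ratEq (pv_left Q₀ hy)) (abel (K := K) z hz hd hs)

theorem si_right (z : Pt W₂ Ω →₀ ℤ)
    (hz : ∀ γ : Ω ≃ₐ[K] Ω, Finsupp.mapDomain (fun P : Pt W₂ Ω => γ • P) z = z) (hd : dg z = 0)
    (hs : sm z = 0) (P : Pt W₁ Ω) (hP : ∀ γ : Ω ≃ₐ[K] Ω, γ • P = P) :
    Finsupp.mapDomain (fun Q => ((P, Q) : Pt W₁ Ω × Pt W₂ Ω)) z ∈ (Xv W₁ W₂).ratEq K Ω := by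
  obtain ⟨P₀, rfl⟩ := exists_desc (K := K) hP
  have hK : IsAlgClosed Ω := IsAlgClosure.isAlgClosed K
  exact si_push _ _ (fun y hy => pv_ratEq (pv_right P₀ hy)) (abel (K := K) z hz hd hs)

private theorem si_relL (R : AddSubgroup (Pt W₁ Ω × Pt W₂ Ω →₀ ℤ))
    (hR : (Xv W₁ W₂).ratEq K Ω ≤ R) (M : IntermediateField K Ω) [FiniteDimensional K M]
    {z : Pt W₁ Ω →₀ ℤ}
    (hz : ∀ γ ∈ M.fixingSubgroup, Finsupp.mapDomain (fun x : Pt W₁ Ω => γ • x) z = z)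
    (hd : dg z = 0) (hs : sm z = 0) {Q : Pt W₂ Ω} (hQ : Fx M Q) :
    QuotientAddGroup.mk' R (trG (Pt W₁ Ω × Pt W₂ Ω) M.fixingSubgroup (siaL Q z)) = 0 := by
  have : IsAlgClosure M Ω := ⟨IsAlgClosure.isAlgClosed K, inferInstance⟩
  have : IsScalarTower F M Ω := IsScalarTower.of_algebraMap_eq fun _ => rfl
  have h1 : ∀ γ : Ω ≃ₐ[M] Ω, Finsupp.mapDomain (fun P : Pt W₁ Ω => γ • P) z = z :=
    fun γ => sia_cyc_M M (hz _ (sia_mem_fix M γ))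
  have h2 : ∀ γ : Ω ≃ₐ[M] Ω, γ • Q = Q := fun γ => hQ _ (sia_mem_fix M γ)
  have h3 : ∀ γ : Ω ≃ₐ[M] Ω, γ • (0 : Pt W₂ Ω) = 0 := fun γ => smul_zero γ
  have h5 : siaL Q z ∈ (Xv W₁ W₂).ratEq M Ω :=
    AddSubgroup.sub_mem _ (si_left (K := M) z h1 hd hs Q h2) (si_left (K := M) z h1 hd hs 0 h3)
  have h6 := tr_ratEqX M h5
  have h7 := hR h6
  exact (QuotientAddGroup.eq_zero_iff _).2 h7

private theorem si_relR (R : AddSubgroup (Pt W₁ Ω × Pt W₂ Ω →₀ ℤ))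
    (hR : (Xv W₁ W₂).ratEq K Ω ≤ R) (M : IntermediateField K Ω) [FiniteDimensional K M]
    {z : Pt W₂ Ω →₀ ℤ}
    (hz : ∀ γ ∈ M.fixingSubgroup, Finsupp.mapDomain (fun x : Pt W₂ Ω => γ • x) z = z)
    (hd : dg z = 0) (hs : sm z = 0) {P : Pt W₁ Ω} (hP : Fx M P) :
    QuotientAddGroup.mk' R (trG (Pt W₁ Ω × Pt W₂ Ω) M.fixingSubgroup (siaR P z)) = 0 := by
  have : IsAlgClosure M Ω := ⟨IsAlgClosure.isAlgClosed K, inferInstance⟩
  have : IsScalarTower F M Ω := IsScalarTower.of_algebraMap_eq fun _ => rfl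
  have h1 : ∀ γ : Ω ≃ₐ[M] Ω, Finsupp.mapDomain (fun Q : Pt W₂ Ω => γ • Q) z = z :=
    fun γ => sia_cyc_M M (hz _ (sia_mem_fix M γ))
  have h2 : ∀ γ : Ω ≃ₐ[M] Ω, γ • P = P := fun γ => hP _ (sia_mem_fix M γ)
  have h3 : ∀ γ : Ω ≃ₐ[M] Ω, γ • (0 : Pt W₁ Ω) = 0 := fun γ => smul_zero γ
  have h5 : siaR P z ∈ (Xv W₁ W₂).ratEq M Ω :=
    AddSubgroup.sub_mem _ (si_right (K := M) z h1 hd hs P h2) (si_right (K := M) z h1 hd hs 0 h3)
  have h6 := tr_ratEqX M h5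
  have h7 := hR h6
  exact (QuotientAddGroup.eq_zero_iff _).2 h7

/-- The symbols modulo a group `R` which contains the cycles rationally equivalent to `0`. Proofs: over the fixed field `M` (as `K`) the
difference is a difference of cycles as in `si_left`, `si_right` for `Q` and for `0` (`tau P Q = ([P] - [0]) × ([Q] - [0])`), `tr_ratEqX`; for the norms:
transitivity `trG_tr` first. Compare `Cf.th'` in `Be/ThK.lean`. -/
noncomputable def scX (R : AddSubgroup (Pt W₁ Ω × Pt W₂ Ω →₀ ℤ))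
    (hR : (Xv W₁ W₂).ratEq K Ω ≤ R) :
    Sc K Ω (Pt W₁ Ω) (Pt W₂ Ω) ((Pt W₁ Ω × Pt W₂ Ω →₀ ℤ) ⧸ R) where
  sy M P Q := QuotientAddGroup.mk' R (trG (Pt W₁ Ω × Pt W₂ Ω) M.fixingSubgroup (tau P Q))
  add₁ := by
    intro M _ P P' Q hP hP' hQ
    obtain ⟨z, h1, h2, h3, h4⟩ := siaL_add (Q := Q) hP hP'
    rw [h4, map_add, map_add, si_relL R hR M h1 h2 h3 hQ, add_zero]
  add₂ := by
    intro M _ P Q Q' hP hQ hQ'
    obtain ⟨z, h1, h2, h3, h4⟩ := siaR_add (P := P) hQ hQ'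
    rw [h4, map_add, map_add, si_relR R hR M h1 h2 h3 hP, add_zero]
  nm₁ := by
    intro M N _ P Q hMN hP hQ
    have := sia_fin hMN
    obtain ⟨z, h1, h2, h3, h4⟩ := siaL_nm (opn_fin _ (opn_fix N)) (fix_le hMN) hP hQ
    rw [h4, map_add, si_relL R hR M h1 h2 h3 hQ, add_zero]
    rfl
  nm₂ := by
    intro M N _ P Q hMN hP hQ
    have := sia_fin hMN
    obtain ⟨z, h1, h2, h3, h4⟩ := siaR_nm (opn_fin _ (opn_fix N)) (fix_le hMN) hP hQ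
    rw [h4, map_add, si_relR R hR M h1 h2 h3 hP, add_zero]
    rfl

/-- A relation over a finite extension. -/
theorem scX_rel (R : AddSubgroup (Pt W₁ Ω × Pt W₂ Ω →₀ ℤ)) (hR : (Xv W₁ W₂).ratEq K Ω ≤ R)
    (M : IntermediateField K Ω) [FiniteDimensional K M] {z : Pt W₁ Ω × Pt W₂ Ω →₀ ℤ}
    (hz : z ∈ (Xv W₁ W₂).ratEq M Ω) :
    QuotientAddGroup.mk' R (trG (Pt W₁ Ω × Pt W₂ Ω) M.fixingSubgroup z) = 0 :=
  (QuotientAddGroup.eq_zero_iff _).2 (hR (tr_ratEqX M hz))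

/-- The Albanese kernel is generated by the symbols. Proof: an invariant cycle is a combination of traces of points (`cyc_gen` in
`Be/Gen.lean`, copy the proof), so `z - i₁ p₁ z - i₂ p₂ z + deg z [0]` is a combination of traces of `tau P Q`; `p_i z` is rationally
equivalent to `0` by `abel` (`inl_ratEq`, `inr_ratEq`). -/
theorem scX_gen (R : AddSubgroup (Pt W₁ Ω × Pt W₂ Ω →₀ ℤ)) (hR : (Xv W₁ W₂).ratEq K Ω ≤ R)
    {z : Pt W₁ Ω × Pt W₂ Ω →₀ ℤ} (hz : z ∈ (Xv W₁ W₂).D0 K Ω)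
    (h₁ : sm (Finsupp.mapDomain Prod.fst z) = 0) (h₂ : sm (Finsupp.mapDomain Prod.snd z) = 0) :
    QuotientAddGroup.mk' R z ∈ (scX (K := K) (W₁ := W₁) (W₂ := W₂) R hR).T := by
  obtain ⟨w, hw, hzw⟩ := sib_gen hz h₁ h₂
  have h : QuotientAddGroup.mk' R z = QuotientAddGroup.mk' R w := by
    rw [← sub_eq_zero, ← map_sub]
    exact (QuotientAddGroup.eq_zero_iff _).2 (hR hzw)
  rw [h]
  refine ((AddSubgroup.closure_le ((scX (K := K) (W₁ := W₁) (W₂ := W₂) R hR).T.comap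
    (QuotientAddGroup.mk' R))).2 ?_) hw
  rintro _ ⟨M, P, Q, hM, hP, hQ, rfl⟩
  exact AddSubgroup.subset_closure ⟨M, P, Q, hM, hP, hQ, rfl⟩

/-- The symbols are classes of cycles in the Albanese kernel. Proof: `smul_trG`; degree and sums of `tau P Q` are `0`. -/
theorem scX_mem (R : AddSubgroup (Pt W₁ Ω × Pt W₂ Ω →₀ ℤ)) (hR : (Xv W₁ W₂).ratEq K Ω ≤ R)
    {x : (Pt W₁ Ω × Pt W₂ Ω →₀ ℤ) ⧸ R} (hx : x ∈ (scX (K := K) (W₁ := W₁) (W₂ := W₂) R hR).T) :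
    ∃ z ∈ (Xv W₁ W₂).D0 K Ω, sm (Finsupp.mapDomain Prod.fst z) = 0 ∧
      sm (Finsupp.mapDomain Prod.snd z) = 0 ∧ QuotientAddGroup.mk' R z = x := by
  let D : AddSubgroup (Pt W₁ Ω × Pt W₂ Ω →₀ ℤ) := (Xv W₁ W₂).D0 K Ω
  let S : AddSubgroup (Pt W₁ Ω × Pt W₂ Ω →₀ ℤ) := D ⊓
    (sm.comp (Finsupp.mapDomain.addMonoidHom (Prod.fst : Pt W₁ Ω × Pt W₂ Ω → Pt W₁ Ω))).ker ⊓
    (sm.comp (Finsupp.mapDomain.addMonoidHom (Prod.snd : Pt W₁ Ω × Pt W₂ Ω → Pt W₂ Ω))).ker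
  have key : (scX (K := K) (W₁ := W₁) (W₂ := W₂) R hR).T ≤ S.map (QuotientAddGroup.mk' R) := by
    refine (AddSubgroup.closure_le _).2 ?_
    rintro _ ⟨M, P, Q, hM, hP, hQ, rfl⟩
    refine ⟨_, ⟨⟨sib_mem M hP hQ, ?_⟩, ?_⟩, rfl⟩
    · change sm (Finsupp.mapDomain Prod.fst
        (trG (Pt W₁ Ω × Pt W₂ Ω) M.fixingSubgroup (tau P Q))) = 0
      rw [sib_fst_tr (opn_fin _ (opn_fix M)), map_zero]
    · change sm (Finsupp.mapDomain Prod.snd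
        (trG (Pt W₁ Ω × Pt W₂ Ω) M.fixingSubgroup (tau P Q))) = 0
      rw [sib_snd_tr (opn_fin _ (opn_fix M)), map_zero]
  obtain ⟨z, ⟨⟨hz, h₁⟩, h₂⟩, he⟩ := key hx
  exact ⟨z, hz, h₁, h₂, he⟩

/-- The sum of a stable finite set of points `(P, Q)`: it is a combination of the symbols of its elements over their
fields of definition over `M`. Proof: induction on the number of elements: the orbit of one element `(P, Q)` under `Gal(Ω / M)` gives (`trG_tr`) the trace of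
`tau P Q` from the fixed field of its stabilizer `≥ M`. -/
theorem scX_orb (R : AddSubgroup (Pt W₁ Ω × Pt W₂ Ω →₀ ℤ)) (hR : (Xv W₁ W₂).ratEq K Ω ≤ R)
    (M : IntermediateField K Ω) [FiniteDimensional K M] (s : Finset (Pt W₁ Ω × Pt W₂ Ω))
    (hs : ∀ γ ∈ M.fixingSubgroup, ∀ p ∈ s, γ • p ∈ s) :
    QuotientAddGroup.mk' R (trG (Pt W₁ Ω × Pt W₂ Ω) M.fixingSubgroup (∑ p ∈ s, tau p.1 p.2)) ∈
      AddSubgroup.closure {x | ∃ (p : Pt W₁ Ω × Pt W₂ Ω) (N : IntermediateField K Ω), p ∈ s ∧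
        FiniteDimensional K N ∧ M ≤ N ∧ Fx N p.1 ∧ Fx N p.2 ∧
        (∀ γ ∈ M.fixingSubgroup, γ • p = p → γ ∈ N.fixingSubgroup) ∧
        x = (scX (K := K) (W₁ := W₁) (W₂ := W₂) R hR).sy N p.1 p.2} := by
  set C := AddSubgroup.closure {x | ∃ (p : Pt W₁ Ω × Pt W₂ Ω) (N : IntermediateField K Ω), p ∈ s ∧
        FiniteDimensional K N ∧ M ≤ N ∧ Fx N p.1 ∧ Fx N p.2 ∧
        (∀ γ ∈ M.fixingSubgroup, γ • p = p → γ ∈ N.fixingSubgroup) ∧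
        x = (scX (K := K) (W₁ := W₁) (W₂ := W₂) R hR).sy N p.1 p.2} with hC
  have h := siC_ind M.fixingSubgroup (fun q : Pt W₁ Ω × Pt W₂ Ω =>
    QuotientAddGroup.mk' R (trG (Pt W₁ Ω × Pt W₂ Ω) M.fixingSubgroup (tau q.1 q.2))) C s ?_ s
    subset_rfl hs
  · rwa [← map_sum, ← map_sum] at h
  · intro p hp t ht
    obtain ⟨N, hN, hMN, hst⟩ := siC_fld M p
    have hle := fix_le hMN
    rw [← map_sum, ← map_sum, siC_tr M N hMN t p ht hst]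
    refine AddSubgroup.subset_closure ⟨p, N, hp, hN, hMN, fun γ hγ => ?_, fun γ hγ => ?_,
      fun γ hγ h => (hst γ hγ).1 h, rfl⟩
    · exact congrArg Prod.fst ((hst γ (hle hγ)).2 hγ)
    · exact congrArg Prod.snd ((hst γ (hle hγ)).2 hγ)

/-- The orbit of one element. Proof: `trG_tr`. -/
theorem scX_one (R : AddSubgroup (Pt W₁ Ω × Pt W₂ Ω →₀ ℤ)) (hR : (Xv W₁ W₂).ratEq K Ω ≤ R)
    (M N : IntermediateField K Ω) [FiniteDimensional K N] (hMN : M ≤ N)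
    (s : Finset (Pt W₁ Ω × Pt W₂ Ω)) (p : Pt W₁ Ω × Pt W₂ Ω)
    (hs : ∀ q, q ∈ s ↔ ∃ γ ∈ M.fixingSubgroup, q = γ • p)
    (hN : ∀ γ ∈ M.fixingSubgroup, γ • p = p ↔ γ ∈ N.fixingSubgroup) :
    QuotientAddGroup.mk' R (trG (Pt W₁ Ω × Pt W₂ Ω) M.fixingSubgroup (∑ p ∈ s, tau p.1 p.2)) =
      (scX (K := K) (W₁ := W₁) (W₂ := W₂) R hR).sy N p.1 p.2 := by
  rw [siC_tr M N hMN s p hs hN]
  rfl

end PE
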