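import Pool.Agent.Lib.MP_f80667_ag.Pe.Bq
import Pool.Agent.Lib.MP_f80667_ag.Pe.Si
import Pool.Agent.Lib.MP_f80667_ag.Be.PlR
import Pool.Agent.Lib.MP_f80667_ag.Qb.Disc
import Pool.Agent.Lib.MP_f80667_ag.Pe.RpA

/-!
The relation given by the function `y₁ - A(x₂) - w y₂` on the curve `x₁ = r(x₂)` in `E₁ × E₂`.
-/

open ZC BE Polynomial

namespace PE

section dfs

variable {F : Type} [Field F] (W : WeierstrassCurve F) (k : Type) [Field k] [Algebra F k]

/-- `y² + B y = F` is the equation of `W` at `x = r`. -/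
noncomputable def BW (r : k[X]) : k[X] :=
  C (algebraMap F k W.a₁) * r + C (algebraMap F k W.a₃)

/-- `y² + B y = F` is the equation of `W` at `x = r`. -/
noncomputable def FW (r : k[X]) : k[X] :=
  r ^ 3 + C (algebraMap F k W.a₂) * r ^ 2 + C (algebraMap F k W.a₄) * r + C (algebraMap F k W.a₆)

variable {k} in
/-- The norm of `y₁ - A(x₂) - w y₂` on the curve `x₁ = r(x₂)`. -/
noncomputable def nn (W₁ W₂ : WeierstrassCurve F) (r A : k[X]) (w : k) : k[X] :=
  nrm (BW W₁ k r) (FW W₁ k r) (BW W₂ k X) (FW W₂ k X) A (C w)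

end dfs

variable {F : Type} [Field F] {W₁ W₂ : WeierstrassCurve F} {k : Type} [Field k] [CharZero k]
  [Algebra F k] {Ω : Type} [Field Ω] [Algebra k Ω] [Algebra F Ω] [IsScalarTower F k Ω]

/-- The discriminants are not squares. Proof: degrees (`D₁ = 4 r³ + ...` has degree `3 deg r` and leading coefficient
`4 lc(r)³`, `D₂` has degree `3` and leading coefficient `4`); if the degree is even the leading coefficient is not a square. -/
theorem nsq_disc (W₁ W₂ : WeierstrassCurve F) (r : k[X]) (hr : 0 < r.natDegree)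
    (hlc : ¬ IsSquare r.leadingCoeff) :
    ¬ IsSquare ((BW W₁ k r) ^ 2 + 4 * FW W₁ k r) ∧ ¬ IsSquare ((BW W₂ k X) ^ 2 + 4 * FW W₂ k X) ∧
      ¬ IsSquare (((BW W₁ k r) ^ 2 + 4 * FW W₁ k r) * ((BW W₂ k X) ^ 2 + 4 * FW W₂ k X)) :=
  rpa_main _ _ _ _ _ _ _ _ _ _ r hr hlc

/-- `x` is regular at `v` with value `c`. -/
private def Vl {M E Ω : Type} [Field M] [Field E] [Algebra M E] [Field Ω] [Algebra M Ω]
    (v : Place M E Ω) (x : E) (c : Ω) : Prop :=
  ∃ h : x ∈ v.V, v.res ⟨x, h⟩ = c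

section vl

variable {M E Ω : Type} [Field M] [Field E] [Algebra M E] [Field Ω] [Algebra M Ω]
  {v : Place M E Ω} {x y : E} {a b : Ω}

private theorem Vl.add (hx : Vl v x a) (hy : Vl v y b) : Vl v (x + y) (a + b) := by
  obtain ⟨hx, rfl⟩ := hx
  obtain ⟨hy, rfl⟩ := hy
  exact ⟨add_mem hx hy, by rw [← map_add]; rfl⟩

private theorem Vl.sub (hx : Vl v x a) (hy : Vl v y b) : Vl v (x - y) (a - b) := by
  obtain ⟨hx, rfl⟩ := hx
  obtain ⟨hy, rfl⟩ := hy
  exact ⟨sub_mem hx hy, by rw [← map_sub]; rfl⟩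

private theorem Vl.mul (hx : Vl v x a) (hy : Vl v y b) : Vl v (x * y) (a * b) := by
  obtain ⟨hx, rfl⟩ := hx
  obtain ⟨hy, rfl⟩ := hy
  exact ⟨mul_mem hx hy, by rw [← map_mul]; rfl⟩

private theorem Vl.cst (v : Place M E Ω) (c : M) : Vl v (algebraMap M E c) (algebraMap M Ω c) :=
  ⟨v.mem c, v.res_k c⟩

private theorem Vl.pol [CharZero M] [IsAlgClosed Ω] {z : Ω} (hx : Vl v x z) (P : M[X]) : Vl v (aeval x P) (aeval z P) := by
  obtain ⟨hx, rfl⟩ := hx
  exact qe_res v hx P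

private theorem Vl.uniq (hx : Vl v x a) (hy : Vl v x b) : a = b := by
  obtain ⟨hx, rfl⟩ := hx
  obtain ⟨hy, rfl⟩ := hy
  rfl

private theorem Vl.zero_iff : Vl v x 0 ↔ x ∈ v.V.nonunits :=
  ⟨fun ⟨hx, h⟩ => (Fa.res_eq_zero_iff v ⟨x, hx⟩).1 h,
    fun h => ⟨v.V.nonunits_subset h, (Fa.res_eq_zero_iff v ⟨x, _⟩).2 h⟩⟩

private theorem Vl.root [CharZero M] [IsAlgClosed Ω] {T N : M[X]} {s ξ : E} {z : Ω} (hs : Vl v s z)
    (h : ξ ^ 2 - aeval s T * ξ + aeval s N = 0) :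
    ∃ c : Ω, Vl v ξ c ∧ c ^ 2 - aeval z T * c + aeval z N = 0 := by
  have hT := hs.pol T
  have hN := hs.pol N
  have hξ : ξ ∈ v.V := by
    rcases v.V.mem_or_inv_mem ξ with h1 | h1
    · exact h1
    · by_cases hξ0 : ξ = 0
      · rw [hξ0]
        exact v.V.zero_mem
      have h2 : ξ = aeval s T - aeval s N * ξ⁻¹ := by
        field_simp
        linear_combination h
      rw [h2]
      exact sub_mem hT.1 (mul_mem hN.1 h1)
  have hc : Vl v ξ (v.res ⟨ξ, hξ⟩) := ⟨hξ, rfl⟩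
  refine ⟨_, hc, ?_⟩
  have h1 := ((hc.mul hc).sub (hT.mul hc)).add hN
  have h2 : ξ * ξ - aeval s T * ξ + aeval s N = 0 := by rw [← pow_two]; exact h
  rw [h2] at h1
  have h3 : Vl v (0 : E) 0 := Vl.zero_iff.2 (ZeroMemClass.zero_mem v.V.nonunits)
  rw [pow_two]
  exact h1.uniq h3

private theorem Vl.cmp {σ : E ≃ₐ[M] E} (h : Vl v (σ x) a) : Vl (Qb.cmp σ v) x a := by
  obtain ⟨h1, h2⟩ := h
  exact ⟨h1, h2⟩

private theorem ord_one_nonunits {g : E} (h : v.IsOrd g 1) : g ∈ v.V.nonunits := by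
  obtain ⟨π, u, h0, h1, hu, -, -, rfl⟩ := h
  rw [h1, zpow_one, mul_div_assoc, div_self h0, mul_one]
  exact hu

end vl

omit [CharZero k] in
private theorem rp_natB (W : WeierstrassCurve F) (r : k[X]) :
    (BW W k r).natDegree ≤ r.natDegree := by
  unfold BW
  refine (natDegree_add_le _ _).trans (max_le (natDegree_C_mul_le _ _) ?_)
  rw [natDegree_C]
  exact Nat.zero_le _

omit [CharZero k] in
private theorem rp_natF (W : WeierstrassCurve F) (r : k[X]) :
    (FW W k r).natDegree ≤ 3 * r.natDegree := by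
  unfold FW
  refine (natDegree_add_le _ _).trans (max_le ((natDegree_add_le _ _).trans (max_le
    ((natDegree_add_le _ _).trans (max_le natDegree_pow_le ?_)) ?_)) ?_)
  · exact (natDegree_C_mul_le _ _).trans (natDegree_pow_le.trans (by omega))
  · exact (natDegree_C_mul_le _ _).trans (by omega)
  · rw [natDegree_C]
    exact Nat.zero_le _

omit [CharZero k] in
private theorem rp_eqn (W : WeierstrassCurve F) (r : k[X]) (z y : Ω) :
    (W.baseChange Ω).toAffine.Equation (aeval z r) y ↔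
      y ^ 2 - aeval z (-BW W k r) * y + aeval z (-FW W k r) = 0 := by
  rw [WeierstrassCurve.Affine.equation_iff]
  simp only [BW, FW, map_neg, map_add, map_mul, map_pow, aeval_C,
    ← IsScalarTower.algebraMap_apply F k Ω]
  change y ^ 2 + algebraMap F Ω W.a₁ * _ * y + algebraMap F Ω W.a₃ * y =
    _ ^ 3 + algebraMap F Ω W.a₂ * _ ^ 2 + algebraMap F Ω W.a₄ * _ + algebraMap F Ω W.a₆ ↔ _
  constructor <;> intro h <;> linear_combination h

variable [IsAlgClosure k Ω]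

/-- The `y`-coordinate of the zero over `z`. Proof: the place `p z` of `bq_zeros` gives the values of `ξ₂` and `ξ₁ = A(z) + w y`. Uniqueness: if `y'` also satisfies the
equations and `y' ≠ y` then `y'` is the other root of the second equation; a composite of `p z` with `σ₂` or `σ₁ σ₂` (`Qb.cmp`) has the values
`(A(z) + w y', y')`, so it is a zero of `g` over `z` different from `p z`. -/
theorem rp_y (r A : k[X]) (w : k) (hr : 0 < r.natDegree) (hlc : ¬ IsSquare r.leadingCoeff)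
    (hd : 3 * r.natDegree < 2 * A.natDegree) (hd2 : 3 < 2 * A.natDegree)
    (hn : Squarefree (nn W₁ W₂ r A w)) :
    ∃ yy : Ω → Ω, ∀ z : Ω, aeval z (nn W₁ W₂ r A w) = 0 →
      ((W₂.baseChange Ω).toAffine.Equation z (yy z) ∧
        (W₁.baseChange Ω).toAffine.Equation (aeval z r)
          (aeval z A + algebraMap k Ω w * yy z)) ∧
      ∀ y' : Ω, (W₂.baseChange Ω).toAffine.Equation z y' →
        (W₁.baseChange Ω).toAffine.Equation (aeval z r) (aeval z A + algebraMap k Ω w * y') →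
        y' = yy z := by
  have : IsAlgClosed Ω := IsAlgClosure.isAlgClosed k
  obtain ⟨hq₁, hq₂, hq₁₂⟩ := nsq_disc W₁ W₂ r hr hlc
  have e : ∀ B G : k[X], (-B) ^ 2 - 4 * (-G) = B ^ 2 + 4 * G := fun B G => by ring
  obtain ⟨E, _, _, s, ξ₁, ξ₂, σ₁, σ₂, hE⟩ := exists_bq (-BW W₁ k r) (-FW W₁ k r)
    (-BW W₂ k X) (-FW W₂ k X) (by rw [e]; exact hq₁) (by rw [e]; exact hq₂)
    (by rw [e, e]; exact hq₁₂)
  have hB₁ := rp_natB (k := k) W₁ r
  have hF₁ := rp_natF (k := k) W₁ r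
  have hB₂ := rp_natB (k := k) W₂ X
  have hF₂ := rp_natF (k := k) W₂ X
  rw [natDegree_X] at hB₂ hF₂
  obtain ⟨p, hp, hp'⟩ := bq_zeros (Ω := Ω) hE A w (by omega) (by omega) (by omega) (by omega) hn
  -- the values at the place `p z`
  have hval : ∀ z : Ω, aeval z (nn W₁ W₂ r A w) = 0 → ∃ y : Ω, Vl (p z) s z ∧ Vl (p z) ξ₂ y ∧
      Vl (p z) ξ₁ (aeval z A + algebraMap k Ω w * y) ∧
      (W₂.baseChange Ω).toAffine.Equation z y ∧
      (W₁.baseChange Ω).toAffine.Equation (aeval z r) (aeval z A + algebraMap k Ω w * y) := by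
    intro z hz
    obtain ⟨h1, h2⟩ := hp z hz
    have hs : Vl (p z) s z := h2
    obtain ⟨y, hy, hy'⟩ := hs.root hE.eq₂
    obtain ⟨y₁, hy₁, hy₁'⟩ := hs.root hE.eq₁
    have hg := Vl.zero_iff.2 (ord_one_nonunits h1)
    have hg' := (hy₁.sub (hs.pol A)).sub ((Vl.cst (p z) w).mul hy)
    have e1 : y₁ = aeval z A + algebraMap k Ω w * y := by
      have := hg'.uniq hg
      linear_combination this
    subst e1
    refine ⟨y, hs, hy, hy₁, ?_, (rp_eqn W₁ r z _).2 hy₁'⟩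
    have h3 := (rp_eqn W₂ (X : k[X]) z y).2 hy'
    rwa [aeval_X] at h3
  classical
  refine ⟨fun z => if h : aeval z (nn W₁ W₂ r A w) = 0 then (hval z h).choose else 0, ?_⟩
  intro z hz
  obtain ⟨hs, hy, hy₁, hq, hq'⟩ := (hval z hz).choose_spec
  have e0 : (if h : aeval z (nn W₁ W₂ r A w) = 0 then (hval z h).choose else 0) =
      (hval z hz).choose := dif_pos hz
  simp only [e0]
  generalize (hval z hz).choose = y at hs hy hy₁ hq hq'
  refine ⟨⟨hq, hq'⟩, fun y' h₂ h₁ => ?_⟩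
  by_contra hne
  have g₂ := (rp_eqn W₂ (X : k[X]) z y).1 (by rw [aeval_X]; exact hq)
  have g₂' := (rp_eqn W₂ (X : k[X]) z y').1 (by rw [aeval_X]; exact h₂)
  have g₁ := (rp_eqn W₁ r z _).1 hq'
  have g₁' := (rp_eqn W₁ r z _).1 h₁
  have hy' : y' = aeval z (-BW W₂ k X) - y := by
    have h3 : (y' - y) * (y' + y - aeval z (-BW W₂ k X)) = 0 := by linear_combination g₂' - g₂
    rcases mul_eq_zero.1 h3 with h4 | h4
    · exact absurd (sub_eq_zero.1 h4) hne
    · linear_combination h4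
  have hv₂ : ∀ v : Place k E Ω, Vl v s z → Vl v ξ₂ y' →
      Vl v ξ₁ (aeval z A + algebraMap k Ω w * y') → False := by
    intro v k1 k2 k3
    have k4 := (k3.sub (k1.pol A)).sub ((Vl.cst v w).mul k2)
    have k5 : aeval z A + algebraMap k Ω w * y' - aeval z A - algebraMap k Ω w * y' = 0 := by ring
    rw [k5, Vl.zero_iff] at k4
    obtain ⟨z', hz', hv⟩ := hp' v k4
    subst hv
    have k6 : Vl (p z') s z' := (hp z' hz').2
    obtain rfl := k1.uniq k6
    exact hne (k2.uniq hy)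
  have hs₂ : Vl (p z) (σ₂ ξ₂) y' := by
    rw [hE.x₂₂, hy']
    exact (hs.pol _).sub hy
  have h3 : (aeval z A + algebraMap k Ω w * y' - (aeval z A + algebraMap k Ω w * y)) *
      (aeval z A + algebraMap k Ω w * y' + (aeval z A + algebraMap k Ω w * y) -
        aeval z (-BW W₁ k r)) = 0 := by linear_combination g₁' - g₁
  rcases mul_eq_zero.1 h3 with h4 | h4
  · refine hv₂ (Qb.cmp σ₂ (p z)) (Vl.cmp ?_) (Vl.cmp hs₂) (Vl.cmp ?_)
    · rw [hE.s₂]
      exact hs
    · rw [hE.x₂₁, sub_eq_zero.1 h4]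
      exact hy₁
  · refine hv₂ (Qb.cmp σ₁ (Qb.cmp σ₂ (p z))) (Vl.cmp (Vl.cmp ?_)) (Vl.cmp (Vl.cmp ?_))
      (Vl.cmp (Vl.cmp ?_))
    · rw [hE.s₁, hE.s₂]
      exact hs
    · rw [hE.x₁₂]
      exact hs₂
    · rw [hE.x₁₁, map_sub, hE.x₂₁]
      have e5 : σ₂ (aeval s (-BW W₁ k r)) = aeval s (-BW W₁ k r) := by
        rw [← aeval_algHom_apply, hE.s₂]
      have e6 : aeval z A + algebraMap k Ω w * y' =
          aeval z (-BW W₁ k r) - (aeval z A + algebraMap k Ω w * y) := by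
        linear_combination h4
      rw [e5, e6]
      exact (hs.pol _).sub hy₁

variable [W₁.IsElliptic] [W₂.IsElliptic]

/-! ### Auxiliary lemmas for `rp` -/

section rpz

omit [CharZero k] [IsAlgClosure k Ω] [W₁.IsElliptic] [W₂.IsElliptic] [Algebra F Ω]
  [IsScalarTower F k Ω] [Algebra k Ω] [Field Ω]

private theorem rpz_degB (W : WeierstrassCurve F) (r : k[X]) :
    (BW W k r).natDegree ≤ r.natDegree := by
  refine (natDegree_add_le _ _).trans (max_le (natDegree_C_mul_le _ _) ?_)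
  rw [natDegree_C]
  exact Nat.zero_le _

private theorem rpz_degF (W : WeierstrassCurve F) (r : k[X]) :
    (FW W k r).natDegree ≤ 3 * r.natDegree := by
  refine (natDegree_add_le _ _).trans (max_le ((natDegree_add_le _ _).trans (max_le
    ((natDegree_add_le _ _).trans (max_le natDegree_pow_le ?_)) ?_)) ?_)
  · refine (natDegree_C_mul_le _ _).trans (natDegree_pow_le.trans ?_)
    omega
  · refine (natDegree_C_mul_le _ _).trans ?_
    omega
  · rw [natDegree_C]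
    exact Nat.zero_le _

/-- The equation in the form `y² + B y = F`. -/
private theorem rpz_eqn {W : WeierstrassCurve F} {L : Type} [Field L] [Algebra k L] [Algebra F L]
    [IsScalarTower F k L] {r : k[X]} {t y : L} :
    (W.baseChange L).toAffine.Equation (aeval t r) y ↔
      y ^ 2 + aeval t (BW W k r) * y = aeval t (FW W k r) := by
  rw [plr_eq_iff]
  simp only [BW, FW, map_add, map_mul, map_pow, aeval_C,
    ← IsScalarTower.algebraMap_apply F k L]
  constructor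
  · intro h
    linear_combination h
  · intro h
    linear_combination h

end rpz

omit [IsAlgClosure k Ω] [CharZero k] [Algebra F Ω] [IsScalarTower F k Ω] [Algebra k Ω]
  [Field Ω] [Algebra F k] [Field k] [W₁.IsElliptic] [W₂.IsElliptic] [Field F] in
private theorem rpz_md {I A B : Type} (S : Finset I) (m : I → ℤ) (a : I → A) (f : A → B) :
    Finsupp.mapDomain f (∑ v ∈ S, Finsupp.single (a v) (m v)) =
      ∑ v ∈ S, Finsupp.single (f (a v)) (m v) := by
  rw [Finsupp.mapDomain_finsetSum]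
  exact Finset.sum_congr rfl fun v _ => Finsupp.mapDomain_single

omit [CharZero k] [IsAlgClosure k Ω] [Algebra F Ω] [IsScalarTower F k Ω] [Algebra F k] in
private theorem rpz_hvk {E : Type} [Field E] [Algebra k E] (v : Place k E Ω) (a : k) :
    Hv v (algebraMap k E a) (algebraMap k Ω a) :=
  ⟨v.mem a, v.res_k a⟩

omit [W₁.IsElliptic] [W₂.IsElliptic] in
/-- The map `z ↦ z - i₁ p₁ z - i₂ p₂ z + deg z [0]`. -/
private theorem rpz_theta {I : Type} (S : Finset I) (m : I → ℤ) (y₁ : I → Pt W₁ Ω)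
    (y₂ : I → Pt W₂ Ω)
    (h : ∑ v ∈ S, Finsupp.single ((y₁ v, y₂ v) : Pt W₁ Ω × Pt W₂ Ω) (m v) ∈
      (Xv W₁ W₂).ratEq k Ω) :
    ∑ v ∈ S, m v • tau (y₁ v) (y₂ v) ∈ (Xv W₁ W₂).ratEq k Ω := by
  have h₁ := inl_ratEq (W₂ := W₂) (fst_ratEq h)
  have h₂ := inr_ratEq (W₁ := W₁) (snd_ratEq h)
  have h₃ := inl_ratEq (W₂ := W₂) (fst_ratEq h₂)
  rw [rpz_md, rpz_md] at h₁ h₂
  rw [rpz_md, rpz_md, rpz_md, rpz_md] at h₃
  have h₄ := AddSubgroup.add_mem _ (AddSubgroup.sub_mem _ (AddSubgroup.sub_mem _ h h₁) h₂) h₃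
  have key : ∑ v ∈ S, m v • tau (y₁ v) (y₂ v) =
      ∑ v ∈ S, Finsupp.single ((y₁ v, y₂ v) : Pt W₁ Ω × Pt W₂ Ω) (m v) -
      ∑ v ∈ S, Finsupp.single ((y₁ v, 0) : Pt W₁ Ω × Pt W₂ Ω) (m v) -
      ∑ v ∈ S, Finsupp.single ((0, y₂ v) : Pt W₁ Ω × Pt W₂ Ω) (m v) +
      ∑ v ∈ S, Finsupp.single ((0, 0) : Pt W₁ Ω × Pt W₂ Ω) (m v) := by
    rw [← Finset.sum_sub_distrib, ← Finset.sum_sub_distrib, ← Finset.sum_add_distrib]
    refine Finset.sum_congr rfl fun v _ => ?_
    simp only [tau, smul_add, smul_sub, Finsupp.smul_single, smul_eq_mul, mul_one]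
  rw [key]
  exact h₄

omit [IsAlgClosure k Ω] [CharZero k] [Algebra F Ω] [IsScalarTower F k Ω] [Algebra F k] in
/-- A zero of order one. -/
private theorem rpz_hv0 {E : Type} [Field E] [Algebra k E] {v : Place k E Ω} {g : E}
    (h : v.IsOrd g 1) : Hv v g 0 := by
  obtain ⟨π, u, hπ, hx, hu, -, -, rfl⟩ := h
  have h1 : π ∈ v.V.nonunits := by
    rw [hx, div_self hπ]
    exact v.V.one_mem
  have h2 := Hv.of_not_mem (w := v) (((ValuationSubring.mem_nonunits_iff_or _).1 h1).resolve_left hπ)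
  rw [inv_inv] at h2
  have h3 := (Hv.of_mem hu).mul h2
  rw [mul_zero] at h3
  rwa [zpow_one]

omit [IsAlgClosure k Ω] [CharZero k] [Algebra F Ω] [IsScalarTower F k Ω] [Algebra F k] in
/-- The values of polynomials. -/
private theorem rpz_hv {E : Type} [Field E] [Algebra k E] {v : Place k E Ω} {t : E} {z : Ω}
    (h : Hv v t z) (f : k[X]) : Hv v (aeval t f) (aeval z f) := by
  induction f using Polynomial.induction_on' with
  | add f g hf hg =>
    rw [map_add, map_add]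
    exact hf.add hg
  | monomial n a =>
    rw [aeval_monomial, aeval_monomial]
    exact (rpz_hvk v a).mul (h.pow n)

private theorem rpz_tau0 {A B : Type} [Zero A] [Zero B] (P : A) : tau P (0 : B) = 0 := by
  simp [tau]

/-- **The relation (R').** Proof: `exists_bq`, `nsq_disc`, `bq_zeros`; the cycle of `g` (with the `E`-points `(r(s), ξ₁)`, `(s, ξ₂)`) is the sum of the points `p z` and of
points `(P, 0)` (over `s = ∞`), `pv_ratEq`. Apply `z ↦ z - i₁ p₁ z - i₂ p₂ z + deg z [0]` (`fst_ratEq`, `inl_ratEq`, ...; the degree of a principal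
cycle is `0`, or: `p₁` of `i₁ p₁`... see that `z ↦ [0] deg z` is the composite of the push-forwards) which moves `[(P, Q)]` to `tau P Q` and
`[(P, 0)]` to `0`. -/
theorem rp (r A : k[X]) (w : k) (hr : 0 < r.natDegree) (hlc : ¬ IsSquare r.leadingCoeff)
    (hd : 3 * r.natDegree < 2 * A.natDegree) (hd2 : 3 < 2 * A.natDegree)
    (hn : Squarefree (nn W₁ W₂ r A w)) (s : Finset Ω)
    (hs : ∀ z, z ∈ s ↔ aeval z (nn W₁ W₂ r A w) = 0) (yy : Ω → Ω)
    (h₂ : ∀ z ∈ s, (W₂.baseChange Ω).toAffine.Nonsingular z (yy z))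
    (h₁ : ∀ z ∈ s, (W₁.baseChange Ω).toAffine.Nonsingular (aeval z r)
      (aeval z A + algebraMap k Ω w * yy z)) :
    ∑ z ∈ s.attach, tau (Pt.aff _ _ (h₁ z.1 z.2) : Pt W₁ Ω) (Pt.aff _ _ (h₂ z.1 z.2) : Pt W₂ Ω) ∈
      (Xv W₁ W₂).ratEq k Ω := by
  classical
  have hac : IsAlgClosed Ω := IsAlgClosure.isAlgClosed k
  obtain ⟨q1, q2, q3⟩ := nsq_disc W₁ W₂ r hr hlc
  have hsq : ∀ B G : k[X], (-B) ^ 2 - 4 * -G = B ^ 2 + 4 * G := fun B G => by ring
  obtain ⟨E, _, _, t, ξ₁, ξ₂, σ₁, σ₂, h⟩ := exists_bq (-BW W₁ k r) (-FW W₁ k r) (-BW W₂ k X)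
    (-FW W₂ k X) (by rw [hsq]; exact q1) (by rw [hsq]; exact q2) (by rw [hsq, hsq]; exact q3)
  let _ : Algebra F E := ((algebraMap k E).comp (algebraMap F k)).toAlgebra
  have hst : IsScalarTower F k E := IsScalarTower.of_algebraMap_eq' rfl
  -- the degrees
  have hB₁ : (BW W₁ k r).natDegree < A.natDegree := by
    have := rpz_degB (k := k) W₁ r
    omega
  have hF₁ : (FW W₁ k r).natDegree < 2 * A.natDegree := by
    have := rpz_degF (k := k) W₁ r
    omega
  have hB₂ : (BW W₂ k X).natDegree < A.natDegree := by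
    have := rpz_degB (k := k) W₂ X
    rw [natDegree_X] at this
    omega
  have hF₂ : (FW W₂ k X).natDegree < 2 * A.natDegree := by
    have := rpz_degF (k := k) W₂ X
    rw [natDegree_X] at this
    omega
  have hE₁ : (W₁.baseChange E).IsElliptic := inferInstanceAs (W₁.map (algebraMap F E)).IsElliptic
  have hE₂ : (W₂.baseChange E).IsElliptic := inferInstanceAs (W₂.map (algebraMap F E)).IsElliptic
  have hΩ₁ : (W₁.baseChange Ω).IsElliptic := inferInstanceAs (W₁.map (algebraMap F Ω)).IsElliptic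
  have hΩ₂ : (W₂.baseChange Ω).IsElliptic := inferInstanceAs (W₂.map (algebraMap F Ω)).IsElliptic
  -- the points over `E`
  have c₁ : (W₁.baseChange E).toAffine.Equation (aeval t r) ξ₁ := by
    rw [rpz_eqn (k := k)]
    have := h.eq₁
    rw [map_neg, map_neg] at this
    linear_combination this
  have c₂ : (W₂.baseChange E).toAffine.Equation t ξ₂ := by
    have h0 : (W₂.baseChange E).toAffine.Equation (aeval t (X : k[X])) ξ₂ := by
      rw [rpz_eqn (k := k)]
      have := h.eq₂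
      rw [map_neg, map_neg] at this
      linear_combination this
    rwa [aeval_X] at h0
  have d₁ := WeierstrassCurve.Affine.equation_iff_nonsingular.1 c₁
  have d₂ := WeierstrassCurve.Affine.equation_iff_nonsingular.1 c₂
  -- the zeros
  obtain ⟨p, hp1, hp2⟩ := bq_zeros (Ω := Ω) h A w hB₁ hF₁ hB₂ hF₂ hn
  obtain ⟨hi1, -⟩ := bq_inf (Ω := Ω) h A w hB₁ hF₁ hB₂ hF₂
  have hnm := bq_nrm h A w
  obtain ⟨g, hgd⟩ : ∃ g, g = ξ₁ - aeval t A - algebraMap k E w * ξ₂ := ⟨_, rfl⟩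
  rw [← hgd] at hp1 hp2 hi1 hnm
  have hg : g ≠ 0 := by
    intro h0
    rw [h0, map_zero, mul_zero, zero_mul] at hnm
    have h1 : nrm (BW W₁ k r) (FW W₁ k r) (BW W₂ k X) (FW W₂ k X) A (C w) = 0 := by
      by_contra hne
      exact h.tr ⟨_, hne, hnm.symm⟩
    exact hn.ne_zero h1
  obtain ⟨S, hS⟩ := Qb.exists_supp (Ω := Ω) h.ff hg
  have hord : ∀ v : Place k E Ω, ∃ m : ℤ, v.IsOrd g m := fun v => by
    obtain ⟨π, hπ⟩ := Qb.exists_unif h.ff v
    exact hπ.isOrd h.ff hg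
  choose m hm using hord
  choose y₁ hy₁ using fun v : Place k E Ω =>
    exists_red (W := W₁) v (Pt.aff (aeval t r) ξ₁ d₁)
  choose y₂ hy₂ using fun v : Place k E Ω => exists_red (W := W₂) v (Pt.aff t ξ₂ d₂)
  have hz : ∑ v ∈ S, Finsupp.single ((y₁ v, y₂ v) : Pt W₁ Ω × Pt W₂ Ω) (m v) ∈
      (Xv W₁ W₂).ratEq k Ω :=
    pv_ratEq (W₁ := W₁) (W₂ := W₂) (M := k) (Ω := Ω) ⟨E, _, _, _, hst, h.ff, g,
      (Pt.aff (aeval t r) ξ₁ d₁, Pt.aff t ξ₂ d₂), hg, S, m, fun v => (y₁ v, y₂ v), hS,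
      fun v _ => ⟨hm v, hy₁ v, hy₂ v⟩, rfl⟩
  have hth := rpz_theta S m y₁ y₂ hz
  refine (congrArg (· ∈ (Xv W₁ W₂).ratEq k Ω) ?_).mp hth
  have hnz : ∀ z : Ω, z ∈ s ↔
      aeval z (nrm (BW W₁ k r) (FW W₁ k r) (BW W₂ k X) (FW W₂ k X) A (C w)) = 0 := hs
  -- the places `p z`
  have hres : ∀ z ∈ s, Hv (p z) t z := by
    intro z hz
    obtain ⟨-, hs', hr'⟩ := hp1 z ((hnz z).1 hz)
    exact ⟨hs', hr'⟩
  have hinj : Set.InjOn p (s : Set Ω) := by
    intro z hz z' hz' he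
    have h1 := hres z hz
    rw [he] at h1
    exact h1.uniq (hres z' hz')
  have hpS : ∀ z ∈ s, p z ∈ S := by
    intro z hz
    by_contra hc
    obtain ⟨e1, e2⟩ := hS _ hc
    have := (hp1 z ((hnz z).1 hz)).1.eq_zero e1 e2
    omega
  have hsum : ∑ v ∈ S, m v • tau (y₁ v) (y₂ v) =
      ∑ v ∈ s.image p, m v • tau (y₁ v) (y₂ v) := by
    symm
    refine Finset.sum_subset (fun v hv => ?_) fun v _ hv' => ?_
    · obtain ⟨z, hz, rfl⟩ := Finset.mem_image.1 hv
      exact hpS z hz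
    · by_cases ht : t ∈ v.V
      · have hgV := hi1 v ht
        by_cases hgn : g ∈ v.V.nonunits
        · obtain ⟨z, hz, rfl⟩ := hp2 v hgn
          exact absurd (Finset.mem_image_of_mem p ((hnz z).2 hz)) hv'
        · have hgi : g⁻¹ ∈ v.V := by
            by_contra hc
            exact hgn ((ValuationSubring.mem_nonunits_iff_or _).2 (Or.inr hc))
          rw [(hm v).eq_zero hgV hgi, zero_smul]
      · have h0 : y₂ v = 0 := by
          rcases (red_aff_iff v d₂).1 (hy₂ v) with h1 | ⟨a, b, h1, h2, -⟩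
          · exact h1.2
          · exact absurd h2.1 ht
        rw [h0, rpz_tau0, smul_zero]
  rw [hsum, Finset.sum_image hinj, ← Finset.sum_attach]
  refine Finset.sum_congr rfl fun z _ => ?_
  obtain ⟨z, hz⟩ := z
  have hz0 := (hnz z).1 hz
  have hord1 := (hp1 z hz0).1
  have hm1 : m (p z) = 1 := (hm (p z)).unique rfl hord1
  rw [hm1, one_smul]
  -- the values
  have ht : Hv (p z) t z := hres z hz
  obtain ⟨u₂, v₂, e₂, f₂, g₂, i₂⟩ : ∃ (u v : Ω)
      (h' : (W₂.baseChange Ω).toAffine.Nonsingular u v), Hv (p z) t u ∧ Hv (p z) ξ₂ v ∧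
        y₂ (p z) = Pt.aff u v h' := by
    rcases (red_aff_iff (p z) d₂).1 (hy₂ (p z)) with h1 | h1
    · exact absurd ht.1 h1.1
    · exact h1
  have hrt : Hv (p z) (aeval t r) (aeval z r) := rpz_hv ht r
  obtain ⟨u₁, v₁, e₁, f₁, g₁, i₁⟩ : ∃ (u v : Ω)
      (h' : (W₁.baseChange Ω).toAffine.Nonsingular u v), Hv (p z) (aeval t r) u ∧
        Hv (p z) ξ₁ v ∧ y₁ (p z) = Pt.aff u v h' := by
    rcases (red_aff_iff (p z) d₁).1 (hy₁ (p z)) with h1 | h1
    · exact absurd hrt.1 h1.1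
    · exact h1
  have hu₂ : z = u₂ := ht.uniq f₂
  subst hu₂
  have hu₁ : aeval z r = u₁ := hrt.uniq f₁
  subst hu₁
  have hg0 : Hv (p z) g 0 := rpz_hv0 hord1
  have hv₁ : v₁ = aeval z A + algebraMap k Ω w * v₂ := by
    have h1 := (g₁.sub (rpz_hv ht A)).sub ((rpz_hvk (p z) w).mul g₂)
    rw [← hgd] at h1
    have h2 := h1.uniq hg0
    linear_combination h2
  obtain ⟨yy', hyy'⟩ := rp_y (Ω := Ω) (W₁ := W₁) (W₂ := W₂) r A w hr hlc hd hd2 hn
  have hv₂ : v₂ = yy z := by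
    have h1 := (hyy' z ((hs z).1 hz)).2
    have h2 := h1 v₂ e₂.1 (by rw [← hv₁]; exact e₁.1)
    have h3 := h1 (yy z) (h₂ z hz).1 (h₁ z hz).1
    rw [h2, h3]
  rw [i₁, i₂]
  congr 1
  · exact plr_aff_ext rfl (by rw [hv₁, hv₂])
  · exact plr_aff_ext rfl hv₂

end PE
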