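import Mathlib

/-!
The norm of `y₁ - A - w y₂` where `y₁² + B₁ y₁ = F₁`, `y₂² + B₂ y₂ = F₂`, and its simple zeros.
-/

open Polynomial

namespace PE

section def'

variable {R : Type} [CommRing R]

/-- The norm of `y₁ - A - w y₂` over `R`. -/
def nrm (B₁ F₁ B₂ F₂ A w : R) : R :=
  (A ^ 2 + B₁ * A - F₁ + w ^ 2 * F₂) ^ 2 -
    (A ^ 2 + B₁ * A - F₁ + w ^ 2 * F₂) * (w * (2 * A + B₁) - w ^ 2 * B₂) * B₂ -
    (w * (2 * A + B₁) - w ^ 2 * B₂) ^ 2 * F₂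

theorem nrm_eq {B₁ F₁ B₂ F₂ A w y₁ y₂ : R} (e₁ : y₁ ^ 2 + B₁ * y₁ = F₁)
    (e₂ : y₂ ^ 2 + B₂ * y₂ = F₂) :
    nrm B₁ F₁ B₂ F₂ A w = (y₁ - A - w * y₂) * (-B₁ - y₁ - A - w * y₂) *
      ((y₁ - A - w * (-B₂ - y₂)) * (-B₁ - y₁ - A - w * (-B₂ - y₂))) := by
  subst e₁ e₂
  unfold nrm
  ring

theorem nrm_map {S : Type} [CommRing S] (φ : R →+* S) (B₁ F₁ B₂ F₂ A w : R) :
    φ (nrm B₁ F₁ B₂ F₂ A w) = nrm (φ B₁) (φ F₁) (φ B₂) (φ F₂) (φ A) (φ w) := by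
  simp only [nrm, map_add, map_sub, map_mul, map_pow, map_ofNat]

end def'

section der

variable {k : Type} [Field k]

/-- `D y'` for `y² + B y = F`, `D = B² + 4 F`. -/
noncomputable def yd (B F : k[X]) (z y : k) : k :=
  ((derivative F).eval z * B.eval z - 2 * (derivative B).eval z * F.eval z) +
    (2 * (derivative F).eval z + B.eval z * (derivative B).eval z) * y

/-- The derivative of the norm at a zero. -/
theorem nrm_der (B₁ F₁ B₂ F₂ A : k[X]) (w z y₁ y₂ : k)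
    (e₁ : y₁ ^ 2 + B₁.eval z * y₁ = F₁.eval z) (e₂ : y₂ ^ 2 + B₂.eval z * y₂ = F₂.eval z)
    (e : y₁ = A.eval z + w * y₂) :
    ((B₁ ^ 2 + 4 * F₁).eval z) * ((B₂ ^ 2 + 4 * F₂).eval z) *
      (derivative (nrm B₁ F₁ B₂ F₂ A (C w))).eval z =
    (yd B₁ F₁ z y₁ * (B₂ ^ 2 + 4 * F₂).eval z -
      (derivative A).eval z * (B₁ ^ 2 + 4 * F₁).eval z * (B₂ ^ 2 + 4 * F₂).eval z -
      w * yd B₂ F₂ z y₂ * (B₁ ^ 2 + 4 * F₁).eval z) *
    (-(2 * y₁ + B₁.eval z) * (w * (2 * y₂ + B₂.eval z)) *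
      (w * (2 * y₂ + B₂.eval z) - (2 * y₁ + B₁.eval z))) := by
  have hA : A.eval z = y₁ - w * y₂ := by rw [e]; ring
  simp only [nrm, yd, derivative_add, derivative_sub, derivative_mul, derivative_pow, derivative_C,
    derivative_ofNat, eval_add, eval_sub, eval_mul, eval_pow, eval_C, eval_ofNat, hA, ← e₁, ← e₂,
    Nat.cast_ofNat, eval_natCast, map_ofNat, zero_mul, mul_zero, add_zero, zero_add, sub_zero]
  ring

end der

/-- The norm of `e₀ + e₁ y₁ + e₂ y₂`. -/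
private def nrl {R : Type} [CommRing R] (e₀ e₁ e₂ B₁ F₁ B₂ F₂ : R) : R :=
  (e₀ ^ 2 + e₂ ^ 2 * F₂ - e₀ * e₁ * B₁ - e₁ ^ 2 * F₁) ^ 2 -
    (e₀ ^ 2 + e₂ ^ 2 * F₂ - e₀ * e₁ * B₁ - e₁ ^ 2 * F₁) *
      (2 * e₀ * e₂ - e₂ ^ 2 * B₂ - e₁ * e₂ * B₁) * B₂ -
    (2 * e₀ * e₂ - e₂ ^ 2 * B₂ - e₁ * e₂ * B₁) ^ 2 * F₂

private theorem nrl_eq {R : Type} [CommRing R] {e₀ e₁ e₂ B₁ F₁ B₂ F₂ y₁ y₂ : R}
    (h₁ : y₁ ^ 2 + B₁ * y₁ = F₁) (h₂ : y₂ ^ 2 + B₂ * y₂ = F₂) :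
    nrl e₀ e₁ e₂ B₁ F₁ B₂ F₂ = (e₀ + e₁ * y₁ + e₂ * y₂) * (e₀ + e₁ * (-B₁ - y₁) + e₂ * y₂) *
      ((e₀ + e₁ * y₁ + e₂ * (-B₂ - y₂)) * (e₀ + e₁ * (-B₁ - y₁) + e₂ * (-B₂ - y₂))) := by
  subst h₁ h₂
  unfold nrl
  ring

private theorem nrl_map {R S : Type} [CommRing R] [CommRing S] (φ : R →+* S)
    (e₀ e₁ e₂ B₁ F₁ B₂ F₂ : R) :
    φ (nrl e₀ e₁ e₂ B₁ F₁ B₂ F₂) = nrl (φ e₀) (φ e₁) (φ e₂) (φ B₁) (φ F₁) (φ B₂) (φ F₂) := by
  simp only [nrl, map_add, map_sub, map_mul, map_pow, map_ofNat]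

private theorem sq_root {k : Type} [Field k] [IsAlgClosed k] (b f : k) :
    ∃ y : k, y ^ 2 + b * y = f := by
  have hd : ((X : k[X]) ^ 2 + (C b * X - C f)).natDegree = 2 := by
    rw [natDegree_add_eq_left_of_natDegree_lt, natDegree_X_pow]
    rw [natDegree_X_pow]
    refine lt_of_le_of_lt (natDegree_sub_C).le ?_
    exact lt_of_le_of_lt ((natDegree_C_mul_le b X).trans natDegree_X_le) (by norm_num)
  obtain ⟨y, hy⟩ := IsAlgClosed.exists_root ((X : k[X]) ^ 2 + (C b * X - C f)) (by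
    rw [degree_eq_natDegree (by intro h; rw [h] at hd; simp at hd), hd]
    norm_num)
  refine ⟨y, ?_⟩
  simp only [IsRoot.def, eval_add, eval_sub, eval_mul, eval_pow, eval_X, eval_C] at hy
  linear_combination hy

/-- **Generic perturbation, the first parameter.** Proof: for such `z`, `y₁`, `y₂` the norm of
`E = m (yd₁ D₂ - w yd₂ D₁) - D₁ D₂ (A₀' m + m' (y₁ - w y₂ - A₀) + m² (D z^(D-1) + μ)) = e₀ + e₁ y₁ + e₂ y₂` (a polynomial `N` in `z` and `μ`: the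
product of the four conjugates, `c₀² - c₀ c₁ B₂ - c₁² F₂`, `c₀ = e₀² + e₂² F₂ - e₀ e₁ B₁ - e₁² F₁`, `c₁ = 2 e₀ e₂ - e₂² B₂ - e₁ e₂ B₁`) is zero at `z`. As a
polynomial in `μ` it has degree `4` and leading coefficient `(m² D₁ D₂) ^ 4`. Choose `z₁` with `(m² D₁ D₂)(z₁) ≠ 0` and let `s`
be the roots of `N(z₁, μ)`; for `μ ∉ s` the polynomial `N(z, μ)` in `z` is not `0` and has finitely many roots. -/
theorem gen_mu {k : Type} [Field k] [IsAlgClosed k] (B₁ F₁ B₂ F₂ A₀ m : k[X]) (w : k) (D : ℕ)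
    (h₁ : B₁ ^ 2 + 4 * F₁ ≠ 0) (h₂ : B₂ ^ 2 + 4 * F₂ ≠ 0) (hm : m ≠ 0) :
    ∃ s : Finset k, ∀ μ, μ ∉ s → {z : k | ∃ y₁ y₂ : k, y₁ ^ 2 + B₁.eval z * y₁ = F₁.eval z ∧
      y₂ ^ 2 + B₂.eval z * y₂ = F₂.eval z ∧
      m.eval z * (yd B₁ F₁ z y₁ * (B₂ ^ 2 + 4 * F₂).eval z -
        w * yd B₂ F₂ z y₂ * (B₁ ^ 2 + 4 * F₁).eval z) =
      (B₁ ^ 2 + 4 * F₁).eval z * (B₂ ^ 2 + 4 * F₂).eval z *
        ((derivative A₀).eval z * m.eval z + (derivative m).eval z * (y₁ - w * y₂ - A₀.eval z) +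
          m.eval z ^ 2 * ((derivative (X ^ D : k[X])).eval z + μ))}.Finite := by
  classical
  -- the coefficients of the linear form
  let D₁ : k[X] := B₁ ^ 2 + 4 * F₁
  let D₂ : k[X] := B₂ ^ 2 + 4 * F₂
  let e₁ : k[X] := m * (2 * derivative F₁ + B₁ * derivative B₁) * D₂ - D₁ * D₂ * derivative m
  let e₂ : k[X] := -C w * m * (2 * derivative F₂ + B₂ * derivative B₂) * D₁ +
    D₁ * D₂ * derivative m * C w
  let e₀ : k → k[X] := fun μ =>
    m * ((derivative F₁ * B₁ - 2 * derivative B₁ * F₁) * D₂ -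
      C w * (derivative F₂ * B₂ - 2 * derivative B₂ * F₂) * D₁) -
    D₁ * D₂ * (derivative A₀ * m - derivative m * A₀ + m ^ 2 * (derivative (X ^ D : k[X]) + C μ))
  have hM : m ^ 2 * (D₁ * D₂) ≠ 0 := mul_ne_zero (pow_ne_zero 2 hm) (mul_ne_zero h₁ h₂)
  obtain ⟨z₁, hz₁⟩ : ∃ z₁ : k, (m ^ 2 * (D₁ * D₂)).eval z₁ ≠ 0 := by
    by_contra hc
    push Not at hc
    exact hM (Polynomial.funext (fun z => by rw [hc z, eval_zero]))
  obtain ⟨u₁, hu₁⟩ := sq_root (B₁.eval z₁) (F₁.eval z₁)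
  obtain ⟨u₂, hu₂⟩ := sq_root (B₂.eval z₁) (F₂.eval z₁)
  let f : k → k → k := fun y₁ y₂ => ((e₀ 0).eval z₁ + e₁.eval z₁ * y₁ + e₂.eval z₁ * y₂) /
    (m ^ 2 * (D₁ * D₂)).eval z₁
  have he0 : ∀ μ z, (e₀ μ).eval z = (e₀ 0).eval z - (m ^ 2 * (D₁ * D₂)).eval z * μ := by
    intro μ z
    simp only [e₀, eval_sub, eval_mul, eval_add, eval_pow, eval_C]
    ring
  refine ⟨{f u₁ u₂, f (-B₁.eval z₁ - u₁) u₂, f u₁ (-B₂.eval z₁ - u₂),
    f (-B₁.eval z₁ - u₁) (-B₂.eval z₁ - u₂)}, fun μ hμ => ?_⟩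
  have hN : nrl (e₀ μ) e₁ e₂ B₁ F₁ B₂ F₂ ≠ 0 := by
    intro h0
    have h := congrArg (Polynomial.eval z₁) h0
    rw [← coe_evalRingHom, nrl_map, coe_evalRingHom, eval_zero,
      nrl_eq hu₁ hu₂] at h
    have key : ∀ y₁ y₂ : k, μ ≠ f y₁ y₂ →
        (e₀ μ).eval z₁ + e₁.eval z₁ * y₁ + e₂.eval z₁ * y₂ ≠ 0 := by
      intro y₁ y₂ hne hc
      apply hne
      simp only [f]
      rw [eq_div_iff hz₁]
      rw [he0 μ z₁] at hc
      linear_combination -hc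
    simp only [Finset.mem_insert, Finset.mem_singleton, not_or] at hμ
    exact mul_ne_zero (mul_ne_zero (key _ _ hμ.1) (key _ _ hμ.2.1))
      (mul_ne_zero (key _ _ hμ.2.2.1) (key _ _ hμ.2.2.2)) h
  refine ((nrl (e₀ μ) e₁ e₂ B₁ F₁ B₂ F₂).roots.toFinset.finite_toSet).subset ?_
  rintro z ⟨y₁, y₂, hy₁, hy₂, hE⟩
  simp only [Finset.mem_coe, Multiset.mem_toFinset, mem_roots hN, IsRoot.def]
  rw [← coe_evalRingHom, nrl_map, coe_evalRingHom, nrl_eq hy₁ hy₂]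
  have h0 : (e₀ μ).eval z + e₁.eval z * y₁ + e₂.eval z * y₂ = 0 := by
    simp only [e₀, e₁, e₂, D₁, D₂, eval_sub, eval_mul, eval_add, eval_pow, eval_C, eval_neg,
      eval_ofNat]
    simp only [yd, eval_add, eval_mul, eval_pow, eval_ofNat] at hE
    linear_combination hE
  rw [h0]
  ring

private theorem gen_sq_root {k : Type} [Field k] [IsAlgClosed k] (b c : k) :
    ∃ y : k, y ^ 2 + b * y = c := by
  have hd : (C (1 : k) * X ^ 2 + C b * X + C (-c) : k[X]).degree = 2 :=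
    degree_quadratic one_ne_zero
  obtain ⟨y, hy⟩ := IsAlgClosed.exists_root (C (1 : k) * X ^ 2 + C b * X + C (-c) : k[X])
    (by rw [hd]; decide)
  refine ⟨y, ?_⟩
  rw [IsRoot.def, eval_add, eval_add, eval_mul, eval_mul, eval_C, eval_C, eval_C, eval_pow,
    eval_X] at hy
  linear_combination hy

private theorem gen_sq_conj {k : Type} [Field k] {B F y : k} (h : y ^ 2 + B * y = F) :
    (-B - y) ^ 2 + B * (-B - y) = F := by
  rw [← h]
  ring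

/-- **Generic perturbation.** Proof: `s₁` from `gen_mu`. For `μ ∉ s₁` let `S` be the union of the finite set there and of the zeros
of `D₁ D₂ (D₁ - w² D₂)`. For `b ∈ S` with `m(b) ≠ 0` the value of the norm at `b` is a polynomial in `l` of degree `4` (`nrm_eq`: product of four linear
factors `c - m(b) l`), so there are finitely many `l` such that the norm vanishes at such a `b`. For the other `l` let `z` be a
zero of the norm, `m(z) ≠ 0`: `z ∉ S`, one of the four factors in `nrm_eq` vanishes (choose `y₁`, `y₂` accordingly), and `nrm_der` is not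
zero: the factors `2 y_i + B_i` have square `D_i`, and the first factor times `m(z)` is the difference of the two sides in `gen_mu`, since
`m(z) (z^D + μ z + l) = y₁ - w y₂ - A₀(z)`. -/
theorem gen_sq {k : Type} [Field k] [IsAlgClosed k] (B₁ F₁ B₂ F₂ A₀ m : k[X]) (w : k) (D : ℕ)
    (hw : w ≠ 0) (h₁ : B₁ ^ 2 + 4 * F₁ ≠ 0) (h₂ : B₂ ^ 2 + 4 * F₂ ≠ 0)
    (h₁₂ : B₁ ^ 2 + 4 * F₁ ≠ C (w ^ 2) * (B₂ ^ 2 + 4 * F₂)) (hm : m ≠ 0) :
    ∃ s₁ : Finset k, ∀ μ, μ ∉ s₁ → ∃ s₂ : Finset k, ∀ l, l ∉ s₂ → ∀ z : k, m.eval z ≠ 0 →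
      (nrm B₁ F₁ B₂ F₂ (A₀ + m * (X ^ D + C μ * X + C l)) (C w)).eval z = 0 →
      (derivative (nrm B₁ F₁ B₂ F₂ (A₀ + m * (X ^ D + C μ * X + C l)) (C w))).eval z ≠ 0 := by
  classical
  obtain ⟨s₁, hs₁⟩ := gen_mu B₁ F₁ B₂ F₂ A₀ m w D h₁ h₂ hm
  refine ⟨s₁, fun μ hμ => ?_⟩
  have hfin := hs₁ μ hμ
  choose f₁ hf₁ using fun z : k => gen_sq_root (B₁.eval z) (F₁.eval z)
  choose f₂ hf₂ using fun z : k => gen_sq_root (B₂.eval z) (F₂.eval z)
  have h₁₂' : B₁ ^ 2 + 4 * F₁ - C (w ^ 2) * (B₂ ^ 2 + 4 * F₂) ≠ 0 := sub_ne_zero.2 h₁₂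
  let c : k → k := fun b => A₀.eval b + m.eval b * (b ^ D + μ * b)
  let g : k → Finset k := fun b =>
    {(f₁ b - w * f₂ b - c b) / m.eval b, (-B₁.eval b - f₁ b - w * f₂ b - c b) / m.eval b,
      (f₁ b - w * (-B₂.eval b - f₂ b) - c b) / m.eval b,
      (-B₁.eval b - f₁ b - w * (-B₂.eval b - f₂ b) - c b) / m.eval b}
  let S : Finset k := hfin.toFinset ∪ (B₁ ^ 2 + 4 * F₁).roots.toFinset ∪
    (B₂ ^ 2 + 4 * F₂).roots.toFinset ∪
    (B₁ ^ 2 + 4 * F₁ - C (w ^ 2) * (B₂ ^ 2 + 4 * F₂)).roots.toFinset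
  refine ⟨S.biUnion g, fun l hl z hz h0 => ?_⟩
  have hAz : (A₀ + m * (X ^ D + C μ * X + C l)).eval z = c z + m.eval z * l := by
    simp only [c, eval_add, eval_mul, eval_pow, eval_X, eval_C]
    ring
  have hev : nrm (B₁.eval z) (F₁.eval z) (B₂.eval z) (F₂.eval z) (c z + m.eval z * l) w = 0 := by
    have e := nrm_map (evalRingHom z) B₁ F₁ B₂ F₂ (A₀ + m * (X ^ D + C μ * X + C l)) (C w)
    simp only [coe_evalRingHom] at e
    rw [h0, hAz, eval_C] at e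
    exact e.symm
  -- the four factors
  have key : ∀ a : k, a - (c z + m.eval z * l) = 0 → l = (a - c z) / m.eval z := by
    intro a ha
    rw [eq_div_iff hz]
    linear_combination (-1 : k) * ha
  have hfac : ∃ y₁ y₂ : k, y₁ ^ 2 + B₁.eval z * y₁ = F₁.eval z ∧
      y₂ ^ 2 + B₂.eval z * y₂ = F₂.eval z ∧ y₁ - w * y₂ - (c z + m.eval z * l) = 0 ∧ l ∈ g z := by
    rw [nrm_eq (hf₁ z) (hf₂ z)] at hev
    rcases mul_eq_zero.1 hev with h | h
    · rcases mul_eq_zero.1 h with h | h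
      · have e : f₁ z - w * f₂ z - (c z + m.eval z * l) = 0 := by linear_combination h
        exact ⟨_, _, hf₁ z, hf₂ z, e, by simp only [g, Finset.mem_insert]; exact Or.inl (key _ e)⟩
      · have e : -B₁.eval z - f₁ z - w * f₂ z - (c z + m.eval z * l) = 0 := by
          linear_combination h
        exact ⟨_, _, gen_sq_conj (hf₁ z), hf₂ z, e, by
          simp only [g, Finset.mem_insert]; exact Or.inr (Or.inl (key _ e))⟩
    · rcases mul_eq_zero.1 h with h | h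
      · have e : f₁ z - w * (-B₂.eval z - f₂ z) - (c z + m.eval z * l) = 0 := by
          linear_combination h
        exact ⟨_, _, hf₁ z, gen_sq_conj (hf₂ z), e, by
          simp only [g, Finset.mem_insert]; exact Or.inr (Or.inr (Or.inl (key _ e)))⟩
      · have e : -B₁.eval z - f₁ z - w * (-B₂.eval z - f₂ z) - (c z + m.eval z * l) = 0 := by
          linear_combination h
        exact ⟨_, _, gen_sq_conj (hf₁ z), gen_sq_conj (hf₂ z), e, by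
          simp only [g, Finset.mem_insert, Finset.mem_singleton]
          exact Or.inr (Or.inr (Or.inr (key _ e)))⟩
  obtain ⟨y₁, y₂, e₁, e₂, e, hlg⟩ := hfac
  have hzS : z ∉ S := fun hzS => hl (Finset.mem_biUnion.2 ⟨z, hzS, hlg⟩)
  simp only [S, Finset.mem_union, not_or, Multiset.mem_toFinset, mem_roots h₁, mem_roots h₂,
    mem_roots h₁₂', IsRoot.def, Set.Finite.mem_toFinset] at hzS
  obtain ⟨⟨⟨hT, hD₁⟩, hD₂⟩, hD₁₂⟩ := hzS
  have e' : y₁ = (A₀ + m * (X ^ D + C μ * X + C l)).eval z + w * y₂ := by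
    rw [hAz]
    linear_combination e
  intro hder
  have hn := nrm_der B₁ F₁ B₂ F₂ (A₀ + m * (X ^ D + C μ * X + C l)) w z y₁ y₂ e₁ e₂ e'
  rw [hder, mul_zero] at hn
  have q₁ : (2 * y₁ + B₁.eval z) ^ 2 = (B₁ ^ 2 + 4 * F₁).eval z := by
    simp only [eval_add, eval_mul, eval_pow, eval_ofNat, ← e₁]
    ring
  have q₂ : (2 * y₂ + B₂.eval z) ^ 2 = (B₂ ^ 2 + 4 * F₂).eval z := by
    simp only [eval_add, eval_mul, eval_pow, eval_ofNat, ← e₂]
    ring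
  have n₁ : 2 * y₁ + B₁.eval z ≠ 0 := fun h => hD₁ (by rw [← q₁, h]; ring)
  have n₂ : 2 * y₂ + B₂.eval z ≠ 0 := fun h => hD₂ (by rw [← q₂, h]; ring)
  have n₃ : w * (2 * y₂ + B₂.eval z) - (2 * y₁ + B₁.eval z) ≠ 0 := by
    intro h
    apply hD₁₂
    rw [eval_sub, eval_mul, eval_C, ← q₁, ← q₂]
    linear_combination (-(w * (2 * y₂ + B₂.eval z) + (2 * y₁ + B₁.eval z))) * h
  rcases mul_eq_zero.1 hn.symm with h | h
  · apply hT
    refine ⟨y₁, y₂, e₁, e₂, ?_⟩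
    have hA' : (derivative (A₀ + m * (X ^ D + C μ * X + C l))).eval z =
        (derivative A₀).eval z + ((derivative m).eval z * (z ^ D + μ * z + l) +
          m.eval z * ((derivative (X ^ D : k[X])).eval z + μ)) := by
      simp only [derivative_add, derivative_mul, derivative_C, derivative_X, eval_add, eval_mul,
        eval_pow, eval_X, eval_C, zero_mul, zero_add, mul_one, add_zero]
    rw [hA'] at h
    have hc : c z = A₀.eval z + m.eval z * (z ^ D + μ * z) := rfl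
    rw [hc] at e
    generalize (derivative (X ^ D : k[X])).eval z = dX at h ⊢
    generalize yd B₁ F₁ z y₁ = Y₁ at h ⊢
    generalize yd B₂ F₂ z y₂ = Y₂ at h ⊢
    generalize (B₁ ^ 2 + 4 * F₁).eval z = d₁ at h ⊢
    generalize (B₂ ^ 2 + 4 * F₂).eval z = d₂ at h ⊢
    generalize (derivative A₀).eval z = a' at h ⊢
    generalize (derivative m).eval z = m' at h ⊢
    generalize m.eval z = mz at h e ⊢
    generalize A₀.eval z = az at h e ⊢
    generalize z ^ D = zD at h e ⊢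
    linear_combination mz * h - d₁ * d₂ * m' * e
  · rcases mul_eq_zero.1 h with h | h
    · rcases mul_eq_zero.1 h with h | h
      · exact n₁ (neg_eq_zero.1 h)
      · rcases mul_eq_zero.1 h with h | h
        · exact hw h
        · exact n₂ h
    · exact n₃ h

end PE
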