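import Pool.Agent.Lib.MP_f80667_ag.Pe.Tm
import Pool.Agent.Lib.MP_f80667_ag.Pe.Lift
import Pool.Agent.Lib.MP_f80667_ag.Pe.Hh
import Pool.Agent.Lib.MP_f80667_ag.Pe.Sq
import Pool.Agent.Lib.MP_f80667_ag.Pe.Rp

/-!
The choice of the function `y₁ - A(x₂) - w y₂` on the curve `x₁ = r(x₂)` for the points `P = (xP, yP)`, `Q = (z₀, y₀)` over a totally
ramified extension `M` of `Ur ⊥ N`.
-/

open ZC BE Polynomial IntermediateField

namespace PE

section pol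

variable {k : Type} [Field k] (W : WeierstrassCurve k)

/-- `y² + B y = F` is the equation of `W` at `x = r`. -/
noncomputable def bk (r : k[X]) : k[X] := C W.a₁ * r + C W.a₃

/-- `y² + B y = F` is the equation of `W` at `x = r`. -/
noncomputable def fk (r : k[X]) : k[X] := r ^ 3 + C W.a₂ * r ^ 2 + C W.a₄ * r + C W.a₆

end pol

namespace Ld

variable {F : Type} [Field F] {K Ω : Type} [Field K] [CharZero K] [Field Ω] [Algebra K Ω]
  [Algebra F K] [Algebra F Ω] [IsScalarTower F K Ω] [IsAlgClosure K Ω]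

/-- The situation: `P = (xP, yP) ∈ W₁(M)` is integral, and `dy` is a unit or the reduction is singular; `d = (xd, yd) ∈ W₂(Ur ⊥ N)`, `dy` a unit;
`Q = (z₀, y₀) ∈ W₂(M)` is congruent to `d`, `z₀ - xd` is a uniformizer of `M`. -/
structure Ga (L : Ld K Ω) (W₁ W₂ : WeierstrassCurve F) (M : IntermediateField K Ω) (N : ℕ)
    (xP yP xd yd z₀ y₀ : Ω) : Prop where
  h₁ : L.Hd W₁
  h₂ : L.Gd W₂
  ss : L.p = 2 → L.nm (algebraMap F Ω W₂.a₁) < 1
  rf : L.Rf M N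
  xP_mem : xP ∈ M
  yP_mem : yP ∈ M
  xP_le : L.nm xP ≤ 1
  yP_le : L.nm yP ≤ 1
  eP : fe W₁ xP yP = 0
  dP : L.nm (dy W₁ xP yP) = 1 ∨ L.nm (dx W₁ xP yP) < 1 ∧ L.nm (dy W₁ xP yP) < 1
  xd_mem : xd ∈ L.Ur ⊥ N
  yd_mem : yd ∈ L.Ur ⊥ N
  xd_le : L.nm xd ≤ 1
  yd_le : L.nm yd ≤ 1
  ed : fe W₂ xd yd = 0
  dd : L.nm (dy W₂ xd yd) = 1
  y_mem : y₀ ∈ M
  eQ : fe W₂ z₀ y₀ = 0
  yy : L.nm (y₀ - yd) < 1
  uf : L.Uf M (z₀ - xd)

variable {L : Ld K Ω} [L.Unr] {W₁ W₂ : WeierstrassCurve F} {M : IntermediateField K Ω} {N : ℕ}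
  {xP yP xd yd z₀ y₀ : Ω}

/-! ### Residues -/

omit [CharZero K] [Algebra F K] [IsScalarTower F K Ω] [IsAlgClosure K Ω] in
private theorem gab_a (h : L.It W₁) : L.rs.Hv (algebraMap F Ω W₁.a₁) (L.rc W₁).a₁ ∧
    L.rs.Hv (algebraMap F Ω W₁.a₂) (L.rc W₁).a₂ ∧ L.rs.Hv (algebraMap F Ω W₁.a₃) (L.rc W₁).a₃ ∧
    L.rs.Hv (algebraMap F Ω W₁.a₄) (L.rc W₁).a₄ ∧ L.rs.Hv (algebraMap F Ω W₁.a₆) (L.rc W₁).a₆ :=
  ⟨L.hv_rr h.a₁, L.hv_rr h.a₂, L.hv_rr h.a₃, L.hv_rr h.a₄, L.hv_rr h.a₆⟩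

/-- The discriminant polynomial is not `0`. -/
private theorem gab_disc (h : L.Hd W₁) :
    (bk (L.rc W₁) X) ^ 2 + 4 * fk (L.rc W₁) X ≠ 0 := by
  obtain ⟨b₁, -, b₃, -, -⟩ := gab_a h.toIt
  have hch := L.char_κ
  by_cases hp : L.p = 2
  · have h4 : (4 : (L.κ)[X]) = 0 := by
      have h5 : ((2 : ℕ) : L.κ) = 0 := by
        have h6 := CharP.cast_eq_zero L.κ L.p
        rwa [hp] at h6
      have h6 : (4 : (L.κ)[X]) = C (((2 : ℕ) : L.κ)) * 2 := by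
        rw [Nat.cast_ofNat, map_ofNat]
        norm_num
      rw [h6, h5, map_zero, zero_mul]
    rw [h4, zero_mul, add_zero]
    refine pow_ne_zero 2 fun h0 => ?_
    have c1 := congrArg (fun q => Polynomial.coeff q 1) h0
    have c0 := congrArg (fun q => Polynomial.coeff q 0) h0
    simp only [bk, coeff_add, coeff_C_mul, coeff_X_one, coeff_X_zero, coeff_C_zero, mul_one,
      mul_zero, zero_add, coeff_zero, coeff_C_succ, add_zero] at c1 c0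
    rcases dy_two h hp with h1 | h1
    · exact (L.hv_ne b₁).2 h1 c1
    · exact (L.hv_ne b₃).2 h1 c0
  · have h4 : (4 : L.κ) ≠ 0 := by
      intro h5
      have h6 : ((4 : ℕ) : L.κ) = 0 := by
        rw [Nat.cast_ofNat]
        exact h5
      have h7 := (CharP.cast_eq_zero_iff L.κ L.p 4).1 h6
      have h8 : L.p ∣ 2 := L.pp.dvd_of_dvd_pow (n := 2) (by norm_num; exact h7)
      exact hp ((Nat.prime_dvd_prime_iff_eq L.pp Nat.prime_two).1 h8)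
    have h5 : (bk (L.rc W₁) X) ^ 2 + 4 * fk (L.rc W₁) X =
        (⟨4, (L.rc W₁).a₁ ^ 2 + 4 * (L.rc W₁).a₂, 2 * (L.rc W₁).a₁ * (L.rc W₁).a₃ +
          4 * (L.rc W₁).a₄, (L.rc W₁).a₃ ^ 2 + 4 * (L.rc W₁).a₆⟩ : Cubic L.κ).toPoly := by
      simp only [bk, fk, Cubic.toPoly, map_add, map_mul, map_pow, map_ofNat]
      ring
    rw [h5]
    exact Cubic.ne_zero_of_a_ne_zero h4

/-- The discriminant polynomials over the residue field are not `0`. Proof: `p` odd: they have degree `3 deg r` and `3` (leading coefficients `4 lc(r)³`, `4`). `p = 2`: they are the squares of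
`a₁ r + a₃`; `a₁(W₂) ≡ 0` and `a₃(W₂)` is a unit (good reduction); `a₁(W₁)`, `a₃(W₁)` are not both `≡ 0` since otherwise `16` divides `Δ`. -/
theorem ga_d (h : Ga L W₁ W₂ M N xP yP xd yd z₀ y₀) {r : L.κ[X]} (hr : 0 < r.natDegree) :
    (bk (L.rc W₁) r) ^ 2 + 4 * fk (L.rc W₁) r ≠ 0 ∧
      (bk (L.rc W₂) X) ^ 2 + 4 * fk (L.rc W₂) X ≠ 0 := by
  refine ⟨fun h0 => ?_, gab_disc h.h₂.hd⟩
  have h1 : (bk (L.rc W₁) r) ^ 2 + 4 * fk (L.rc W₁) r =
      ((bk (L.rc W₁) X) ^ 2 + 4 * fk (L.rc W₁) X).comp r := by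
    simp only [bk, fk, add_comp, mul_comp, pow_comp, C_comp, X_comp, ofNat_comp, Nat.cast_ofNat]
  rw [h1, Polynomial.comp_eq_zero_iff] at h0
  rcases h0 with h0 | h0
  · exact gab_disc h.h₁ h0
  · have h2 := h0.2
    rw [h2, natDegree_C] at hr
    exact lt_irrefl _ hr

/-- The choice of `w`. Proof: `D₁ = ρ² D₂` for at most two `ρ` (`ga_d`); `fe W₁ xP (yP - w c) = fe W₁ xP yP - w c dy + w² c²` with the unit `c = dy W₂ xd yd`. -/
theorem ga_w (h : Ga L W₁ W₂ M N xP yP xd yd z₀ y₀) {r : L.κ[X]} (hr : 0 < r.natDegree) :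
    ∃ s : Finset L.κ, ∀ (w : Ω) (ρ : L.κ), L.rs.Hv w ρ → ρ ∉ s → ρ ≠ 0 ∧
      (bk (L.rc W₁) r) ^ 2 + 4 * fk (L.rc W₁) r ≠
        C (ρ ^ 2) * ((bk (L.rc W₂) X) ^ 2 + 4 * fk (L.rc W₂) X) ∧
      L.nm (fe W₁ xP (yP - w * dy W₂ xd yd)) = 1 := by
  classical
  have hac : IsAlgClosed Ω := IsAlgClosure.isAlgClosed K
  have hκ : IsAlgClosed L.κ := L.κ_closed
  obtain ⟨hd₁, hd₂⟩ := ga_d h hr
  obtain ⟨z₁, hz₁⟩ : ∃ z₁ : L.κ, ((bk (L.rc W₂) X) ^ 2 + 4 * fk (L.rc W₂) X).eval z₁ ≠ 0 := by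
    by_contra hc
    push Not at hc
    exact hd₂ (Polynomial.funext (fun z => by rw [hc z, eval_zero]))
  obtain ⟨γ, hγ⟩ := L.hv_of h.dd.le
  have hγ0 : γ ≠ 0 := (L.hv_ne hγ).2 h.dd
  have hdy : L.nm (dy W₁ xP yP) ≤ 1 := by
    rcases h.dP with h1 | h1
    · exact h1.le
    · exact h1.2.le
  obtain ⟨δ, hδ⟩ := L.hv_of hdy
  have hq : (X ^ 2 - C (((bk (L.rc W₁) r) ^ 2 + 4 * fk (L.rc W₁) r).eval z₁ /
      ((bk (L.rc W₂) X) ^ 2 + 4 * fk (L.rc W₂) X).eval z₁) : (L.κ)[X]) ≠ 0 :=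
    X_pow_sub_C_ne_zero two_pos _
  refine ⟨{0, δ / γ} ∪ (X ^ 2 - C (((bk (L.rc W₁) r) ^ 2 + 4 * fk (L.rc W₁) r).eval z₁ /
      ((bk (L.rc W₂) X) ^ 2 + 4 * fk (L.rc W₂) X).eval z₁) : (L.κ)[X]).roots.toFinset,
    fun w ρ hw hρ => ?_⟩
  rw [Finset.mem_union, Finset.mem_insert, Finset.mem_singleton, Multiset.mem_toFinset,
    mem_roots hq, not_or, not_or] at hρ
  obtain ⟨⟨hρ0, hρ1⟩, hρ2⟩ := hρ
  refine ⟨hρ0, fun he => hρ2 ?_, ?_⟩
  · have h1 := congrArg (Polynomial.eval z₁) he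
    rw [eval_mul, eval_C] at h1
    rw [IsRoot.def, eval_sub, eval_pow, eval_X, eval_C, h1, mul_div_cancel_right₀ _ hz₁, sub_self]
  · have h1 : fe W₁ xP (yP - w * dy W₂ xd yd) =
        w * dy W₂ xd yd * (w * dy W₂ xd yd - dy W₁ xP yP) := by
      have h2 := h.eP
      unfold fe at h2 ⊢
      unfold dy
      linear_combination h2
    have h3 := hw.mul hγ
    rw [h1, ← L.hv_ne (h3.mul (h3.sub hδ))]
    refine mul_ne_zero (mul_ne_zero hρ0 hγ0) fun h4 => hρ1 ?_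
    rw [eq_div_iff hγ0]
    exact sub_eq_zero.1 h4

omit [CharZero K] [Algebra F K] [IsScalarTower F K Ω] [IsAlgClosure K Ω] in
private theorem gab_two : L.Hp (2 : Polynomial Ω) (2 : (L.κ)[X]) := by
  have h1 := Hp.C (Rs.Hv.nat (w := L.rs) 2)
  rwa [Nat.cast_ofNat, Nat.cast_ofNat, map_ofNat, map_ofNat] at h1

omit [CharZero K] [Algebra F K] [IsScalarTower F K Ω] [IsAlgClosure K Ω] in
private theorem gab_bw (h : L.It W₁) {r : Polynomial Ω} {r' : L.κ[X]} (hr : L.Hp r r') :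
    L.Hp (BW W₁ Ω r) (bk (L.rc W₁) r') ∧ L.Hp (FW W₁ Ω r) (fk (L.rc W₁) r') := by
  obtain ⟨b₁, b₂, b₃, b₄, b₆⟩ := gab_a h
  exact ⟨((Hp.C b₁).mul hr).add (Hp.C b₃),
    (((hr.pow 3).add ((Hp.C b₂).mul (hr.pow 2))).add ((Hp.C b₄).mul hr)).add (Hp.C b₆)⟩

/-- The reduction of the norm polynomial. -/
theorem ga_nn (h : Ga L W₁ W₂ M N xP yP xd yd z₀ y₀) {r A : Polynomial Ω} {r' A' : L.κ[X]}
    (hr : L.Hp r r') (hA : L.Hp A A') {w : Ω} {ρ : L.κ} (hw : L.rs.Hv w ρ) :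
    L.Hp (nn W₁ W₂ r A w) (nrm (bk (L.rc W₁) r') (fk (L.rc W₁) r') (bk (L.rc W₂) X)
      (fk (L.rc W₂) X) A' (C ρ)) := by
  obtain ⟨hB₁, hF₁⟩ := gab_bw h.h₁.toIt hr
  obtain ⟨hB₂, hF₂⟩ := gab_bw h.h₂.toIt (Hp.X (L := L))
  have hw' := Hp.C hw
  have h2 := gab_two (L := L)
  have c₀ := (((hA.pow 2).add (hB₁.mul hA)).sub hF₁).add ((hw'.pow 2).mul hF₂)
  have c₁ := (hw'.mul ((h2.mul hA).add hB₁)).sub ((hw'.pow 2).mul hB₂)
  exact ((c₀.pow 2).sub ((c₀.mul c₁).mul hB₂)).sub ((c₁.pow 2).mul hF₂)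

/-! ### The value at `xd` -/

/-- The norm is a product of two values. Proof: `nrm` is `(v² + B₁ v - F₁) (v'² + B₁ v' - F₁)`, `v = A + w y`, `v' = A + w (- B₂ - y)` if `y² + B₂ y = F₂`. -/
theorem ga_val (h : Ga L W₁ W₂ M N xP yP xd yd z₀ y₀) (r A : Polynomial Ω) (w : Ω) :
    (nn W₁ W₂ r A w).eval xd = fe W₁ (r.eval xd) (A.eval xd + w * yd) *
      fe W₁ (r.eval xd) (A.eval xd + w * yd - w * dy W₂ xd yd) := by
  have h1 : (nn W₁ W₂ r A w).eval xd = nrm ((BW W₁ Ω r).eval xd) ((FW W₁ Ω r).eval xd)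
      ((BW W₂ Ω X).eval xd) ((FW W₂ Ω X).eval xd) (A.eval xd) w := by
    have h2 := nrm_map (evalRingHom xd) (BW W₁ Ω r) (FW W₁ Ω r) (BW W₂ Ω X) (FW W₂ Ω X) A (C w)
    simp only [coe_evalRingHom, eval_C] at h2
    exact h2
  have h3 : (FW W₂ Ω X).eval xd = yd ^ 2 + (BW W₂ Ω X).eval xd * yd := by
    have h2 := h.ed
    unfold fe at h2
    simp only [BW, FW, eval_add, eval_mul, eval_pow, eval_C, eval_X]
    linear_combination -h2
  have h4 : dy W₂ xd yd = 2 * yd + (BW W₂ Ω X).eval xd := by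
    simp only [BW, dy, eval_add, eval_mul, eval_C, eval_X]
    ring
  have h5 : ∀ y, fe W₁ (r.eval xd) y = y ^ 2 + (BW W₁ Ω r).eval xd * y - (FW W₁ Ω r).eval xd := by
    intro y
    simp only [BW, FW, fe, eval_add, eval_mul, eval_pow, eval_C]
    ring
  rw [h1, h3, h4, h5, h5]
  unfold nrm
  ring

omit [CharZero K] [Algebra F K] [Algebra F Ω] [IsScalarTower F K Ω] [IsAlgClosure K Ω] in
private theorem gal_comb {u v s t : Ω} (hu : u ∈ L.V) (hv : v ∈ L.V) (hs : L.nm s < 1)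
    (ht : L.nm t < 1) : L.nm (u * s + v * t) < 1 := by
  refine (L.add _ _).trans_lt (max_lt ?_ ?_)
  · rw [L.mul]
    exact mul_lt_one_of_nonneg_of_lt_one_right hu (L.nonneg _) hs
  · rw [L.mul]
    exact mul_lt_one_of_nonneg_of_lt_one_right hv (L.nonneg _) ht

omit [CharZero K] [Algebra F K] [IsScalarTower F K Ω] [IsAlgClosure K Ω] in
/-- The equation and its derivatives at two close points. -/
private theorem gal_cg {W : WeierstrassCurve F} (h : L.It W) {x y x' y' : Ω} (hx : L.nm x ≤ 1)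
    (hy : L.nm y ≤ 1) (hx' : L.nm x' ≤ 1) (hy' : L.nm y' ≤ 1) (hxx : L.nm (x - x') < 1)
    (hyy : L.nm (y - y') < 1) : L.nm (fe W x y - fe W x' y') < 1 ∧
      L.nm (dx W x y - dx W x' y') < 1 ∧ L.nm (dy W x y - dy W x' y') < 1 := by
  have hx : x ∈ L.V := hx
  have hy : y ∈ L.V := hy
  have hx' : x' ∈ L.V := hx'
  have hy' : y' ∈ L.V := hy'
  have h1 : algebraMap F Ω W.a₁ ∈ L.V := h.a₁
  have h2 : algebraMap F Ω W.a₂ ∈ L.V := h.a₂
  have h3 : algebraMap F Ω W.a₃ ∈ L.V := h.a₃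
  have h4 : algebraMap F Ω W.a₄ ∈ L.V := h.a₄
  have e2 : (2 : Ω) ∈ L.V := ofNat_mem L.V 2
  have e3 : (3 : Ω) ∈ L.V := ofNat_mem L.V 3
  refine ⟨?_, ?_, ?_⟩
  · have e : fe W x y - fe W x' y' = (algebraMap F Ω W.a₁ * y' - (x ^ 2 + x * x' + x' ^ 2) -
        algebraMap F Ω W.a₂ * (x + x') - algebraMap F Ω W.a₄) * (x - x') +
        (y + y' + algebraMap F Ω W.a₁ * x + algebraMap F Ω W.a₃) * (y - y') := by
      simp only [fe]
      ring
    rw [e]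
    refine gal_comb ?_ ?_ hxx hyy
    · exact sub_mem (sub_mem (sub_mem (mul_mem h1 hy') (add_mem (add_mem (pow_mem hx 2)
        (mul_mem hx hx')) (pow_mem hx' 2))) (mul_mem h2 (add_mem hx hx'))) h4
    · exact add_mem (add_mem (add_mem hy hy') (mul_mem h1 hx)) h3
  · have e : dx W x y - dx W x' y' = (3 * (x + x') + 2 * algebraMap F Ω W.a₂) * (x - x') +
        (-algebraMap F Ω W.a₁) * (y - y') := by
      simp only [dx]
      ring
    rw [e]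
    exact gal_comb (add_mem (mul_mem e3 (add_mem hx hx')) (mul_mem e2 h2)) (neg_mem h1) hxx hyy
  · have e : dy W x y - dy W x' y' = algebraMap F Ω W.a₁ * (x - x') + 2 * (y - y') := by
      simp only [dy]
      ring
    rw [e]
    exact gal_comb h1 e2 hxx hyy

omit [CharZero K] [Algebra F K] [Algebra F Ω] [IsScalarTower F K Ω] [IsAlgClosure K Ω] in
private theorem gal_lt {u v : Ω} (h : L.nm (u - v) < 1) (hv : L.nm v < 1) : L.nm u < 1 := by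
  have h1 := L.add (u - v) v
  rw [sub_add_cancel] at h1
  exact h1.trans_lt (max_lt h hv)

omit [CharZero K] [Algebra F K] [Algebra F Ω] [IsScalarTower F K Ω] [IsAlgClosure K Ω] in
private theorem gal_one {u v : Ω} (h : L.nm (u - v) < 1) (hv : L.nm v = 1) : L.nm u = 1 := by
  rw [← hv]
  exact L.eq_of_close (by rw [hv]; exact h)

omit [CharZero K] [Algebra F K] [Algebra F Ω] [IsScalarTower F K Ω] [IsAlgClosure K Ω] in
private theorem gal_tri {u v z : Ω} (h : L.nm (u - v) < 1) (h' : L.nm (v - z) < 1) :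
    L.nm (u - z) < 1 := by
  have h1 := L.add (u - v) (v - z)
  rw [sub_add_sub_cancel] at h1
  exact h1.trans_lt (max_lt h h')

omit [IsAlgClosure K Ω] [CharZero K] in
private theorem gal_mem (U : IntermediateField K Ω) (a : F) : algebraMap F Ω a ∈ U := by
  rw [IsScalarTower.algebraMap_apply F K Ω]
  exact U.algebraMap_mem _

/-- The first factor, and the choice of `l`. Here `k = Ur ⊥ (N D)`, `A = A₁ + l m`, `A(z₀) = A₁(z₀) = yP - w y₀`. Proof: `r(xd) ≡ r(z₀) = xP`, `A(xd) + w yd ≡ yP`. If the reduction of `P` is singular: `nod_fe`.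
If `dy W₁ xP yP` is a unit: let `Y ∈ k` be the root near `yP` of the equation over `x = r(xd)` (`hens`; `yP ≡ A(xd) + w yd ∈ k`); the first factor is a unit times `A₁(xd) + w yd - Y + l m(xd)`; `A₁(xd) + w yd - Y ∈ k` has norm
`< 1`, so `≤ nm p = nm (m(xd))` (`ur_lt`): for `l` outside one residue the norm is `nm p`. -/
theorem ga_l (h : Ga L W₁ W₂ M N xP yP xd yd z₀ y₀) {e : ℕ} {m : Polynomial Ω}
    (hm : L.Tm M N xd z₀ e m) {D : ℕ} (hD : D ≠ 0) {r A₁ : Polynomial Ω} {w : Ω}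
    (hr : L.Ip (L.Ur ⊥ (N * D)) r) (hr₀ : r.eval z₀ = xP) (hA : L.Ip (L.Ur ⊥ (N * D)) A₁)
    (hw : w ∈ L.Ur ⊥ (N * D)) (hw1 : L.nm w ≤ 1) (hA₀ : A₁.eval z₀ + w * y₀ = yP) :
    ∃ s : Finset L.κ, ∀ (l : Ω) (ρ : L.κ), (∃ D', D' ≠ 0 ∧ D ∣ D' ∧ l ∈ L.Ur ⊥ (N * D')) →
      L.rs.Hv l ρ → ρ ∉ s →
      L.nm (fe W₁ (r.eval xd) ((A₁ + C l * m).eval xd + w * yd)) = L.nm (L.p : Ω) := by
  have hN : N ≠ 0 := h.rf.ne
  have hND : N * D ≠ 0 := mul_ne_zero hN hD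
  have hle : L.Ur ⊥ N ≤ L.Ur ⊥ (N * D) := ur_dvd ⊥ (Dvd.intro D rfl)
  have hI : L.It W₁ := h.h₁.toIt
  have hxz : L.nm (xd - z₀) < 1 := by
    rw [L.sub_comm]
    exact h.uf.lt
  obtain ⟨hx1, hx1'⟩ := hr.eval (hle h.xd_mem) h.xd_le
  obtain ⟨hA1, hA1'⟩ := hA.eval (hle h.xd_mem) h.xd_le
  obtain ⟨hm1, hm1'⟩ := hm.ip.eval h.xd_mem h.xd_le
  have hxx : L.nm (r.eval xd - xP) < 1 := by
    rw [← hr₀]
    exact hr.close h.xd_le hxz
  have hyy₀ : L.nm (yd - y₀) < 1 := by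
    rw [L.sub_comm]
    exact h.yy
  obtain ⟨v₀, hv₀⟩ : ∃ v₀, v₀ = A₁.eval xd + w * yd := ⟨_, rfl⟩
  have hv₀m : v₀ ∈ L.Ur ⊥ (N * D) := by
    rw [hv₀]
    exact add_mem hA1 (mul_mem hw (hle h.yd_mem))
  have hv₀1 : L.nm v₀ ≤ 1 := by
    have hw' : w ∈ L.V := hw1
    have hyd' : yd ∈ L.V := h.yd_le
    have hA' : A₁.eval xd ∈ L.V := hA1'
    rw [hv₀]
    exact add_mem hA' (mul_mem hw' hyd')
  have hvP : L.nm (v₀ - yP) < 1 := by
    have e : v₀ - yP = 1 * (A₁.eval xd - A₁.eval z₀) + w * (yd - y₀) := by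
      rw [hv₀, ← hA₀]
      ring
    rw [e]
    exact gal_comb (one_mem L.V) hw1 (hA.close h.xd_le hxz) hyy₀
  have hp : L.nm (L.p : Ω) < 1 := L.lt
  have hmv := hm.val
  -- the value
  have hev : ∀ l : Ω, (A₁ + C l * m).eval xd + w * yd = v₀ + l * m.eval xd := by
    intro l
    rw [eval_add, eval_mul, eval_C, hv₀]
    ring
  have hlm : ∀ l : Ω, L.nm l ≤ 1 → L.nm (l * m.eval xd) < 1 := by
    intro l hl
    rw [L.mul, hmv]
    exact mul_lt_one_of_nonneg_of_lt_one_right hl (L.nonneg _) hp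
  have hclose : ∀ l : Ω, L.nm l ≤ 1 → L.nm (v₀ + l * m.eval xd - v₀) < 1 := by
    intro l hl
    rw [add_sub_cancel_left]
    exact hlm l hl
  rcases h.dP with hd | ⟨hd1, hd2⟩
  · -- the root
    have hdy : L.nm (dy W₁ (r.eval xd) v₀) = 1 :=
      gal_one (gal_cg hI hx1' hv₀1 h.xP_le h.yP_le hxx hvP).2.2 hd
    have hfe : L.nm (fe W₁ (r.eval xd) v₀) < 1 :=
      gal_lt (gal_cg hI hx1' hv₀1 h.xP_le h.yP_le hxx hvP).1 (by
        rw [h.eP, L.zero]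
        exact zero_lt_one)
    have hfd : FiniteDimensional K (L.Ur ⊥ (N * D)) := ur_fin ⊥ (N * D) hND
    obtain ⟨x1, hx1e⟩ : ∃ x1, x1 = r.eval xd := ⟨_, rfl⟩
    rw [← hx1e] at hx1 hx1' hxx hdy hfe ⊢
    obtain ⟨B, hB⟩ : ∃ B, B = algebraMap F Ω W₁.a₁ * x1 + algebraMap F Ω W₁.a₃ := ⟨_, rfl⟩
    obtain ⟨G, hG⟩ : ∃ G, G = x1 ^ 3 + algebraMap F Ω W₁.a₂ * x1 ^ 2 +
      algebraMap F Ω W₁.a₄ * x1 + algebraMap F Ω W₁.a₆ := ⟨_, rfl⟩
    have hx1V : x1 ∈ L.V := hx1'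
    have hBm : B ∈ L.Ur ⊥ (N * D) := by
      rw [hB]
      exact add_mem (mul_mem (gal_mem _ _) hx1) (gal_mem _ _)
    have hB1 : L.nm B ≤ 1 := by
      have h1 : algebraMap F Ω W₁.a₁ ∈ L.V := hI.a₁
      have h3 : algebraMap F Ω W₁.a₃ ∈ L.V := hI.a₃
      rw [hB]
      exact add_mem (mul_mem h1 hx1V) h3
    have hGm : G ∈ L.Ur ⊥ (N * D) := by
      rw [hG]
      exact add_mem (add_mem (add_mem (pow_mem hx1 3) (mul_mem (gal_mem _ _) (pow_mem hx1 2)))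
        (mul_mem (gal_mem _ _) hx1)) (gal_mem _ _)
    have hG1 : L.nm G ≤ 1 := by
      have h2 : algebraMap F Ω W₁.a₂ ∈ L.V := hI.a₂
      have h4 : algebraMap F Ω W₁.a₄ ∈ L.V := hI.a₄
      have h6 : algebraMap F Ω W₁.a₆ ∈ L.V := hI.a₆
      rw [hG]
      exact add_mem (add_mem (add_mem (pow_mem hx1V 3) (mul_mem h2 (pow_mem hx1V 2)))
        (mul_mem h4 hx1V)) h6
    have hfeq : ∀ y, fe W₁ x1 y = y ^ 2 + B * y - G := by
      intro y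
      rw [hB, hG, fe]
      ring
    have hdeq : ∀ y, dy W₁ x1 y = 2 * y + B := by
      intro y
      rw [hB, dy]
      ring
    have hmon : (X ^ 2 + (C B * X - C G) : Polynomial Ω).Monic := by
      refine monic_X_pow_add (n := 2) ?_
      refine (degree_sub_le _ _).trans_lt (max_lt ?_ ?_)
      · refine (degree_C_mul_X_le B).trans_lt ?_
        exact_mod_cast (by norm_num : (1 : ℕ) < 2)
      · refine degree_C_le.trans_lt ?_
        exact_mod_cast (by norm_num : (0 : ℕ) < 2)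
    have hgip : L.Ip (L.Ur ⊥ (N * D)) (X ^ 2 + (C B * X - C G) : Polynomial Ω) :=
      (Ip.X.pow 2).add (((Ip.C hBm hB1).mul Ip.X).sub (Ip.C hGm hG1))
    have hge : ∀ y, (X ^ 2 + (C B * X - C G) : Polynomial Ω).eval y = fe W₁ x1 y := by
      intro y
      rw [hfeq]
      simp only [eval_add, eval_sub, eval_mul, eval_pow, eval_X, eval_C]
      ring
    have hgd : ∀ y, (derivative (X ^ 2 + (C B * X - C G) : Polynomial Ω)).eval y =
        dy W₁ x1 y := by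
      intro y
      rw [hdeq]
      simp [derivative_pow]
    obtain ⟨Y, hY, hY0, hYv⟩ := L.hens _ hfd _ hmon hgip v₀ hv₀m hv₀1 (by rw [hge]; exact hfe)
      (by rw [hgd]; exact hdy)
    rw [hge] at hY0
    have hm0 : m.eval xd ≠ 0 := L.ne_zero (by rw [hmv]; exact L.p_pos)
    have hvY : L.nm (v₀ - Y) ≤ L.nm (L.p : Ω) := by
      have h1 := ur_lt hND (sub_mem hv₀m hY) (i := 0) (by
        rw [pow_zero, L.sub_comm]
        exact hYv)
      rwa [zero_add, pow_one] at h1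
    obtain ⟨c, hc⟩ : ∃ c, c = (v₀ - Y) / m.eval xd := ⟨_, rfl⟩
    have hc1 : L.nm c ≤ 1 := by
      rw [hc, L.div, hmv]
      exact div_le_one_of_le₀ hvY (L.nonneg _)
    refine ⟨{-L.rr c}, ?_⟩
    intro l ρ _ hl hρ
    rw [Finset.mem_singleton] at hρ
    have hl1 : L.nm l ≤ 1 := L.hv_int hl
    have hcl : L.nm (c + l) = 1 := by
      rw [← L.hv_ne ((L.hv_rr hc1).add hl)]
      intro h0
      exact hρ (eq_neg_of_add_eq_zero_right h0)
    rw [hev]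
    have hfac : fe W₁ x1 (v₀ + l * m.eval xd) = (m.eval xd * (c + l)) *
        (v₀ + l * m.eval xd + Y + B) := by
      have h1 : m.eval xd * (c + l) = v₀ + l * m.eval xd - Y := by
        rw [mul_add, hc, mul_div_cancel₀ _ hm0]
        ring
      rw [h1, ← sub_zero (fe W₁ x1 _), ← hY0, hfeq, hfeq]
      ring
    have hun : L.nm (v₀ + l * m.eval xd + Y + B) = 1 := by
      refine gal_one (v := dy W₁ x1 v₀) ?_ hdy
      have h1 : v₀ + l * m.eval xd + Y + B - dy W₁ x1 v₀ = 1 * (l * m.eval xd) +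
          1 * (Y - v₀) := by
        rw [hdeq]
        ring
      rw [h1]
      exact gal_comb (one_mem L.V) (one_mem L.V) (hlm l hl1) hYv
    rw [hfac, L.mul, L.mul, hcl, hun, hmv, mul_one, mul_one]
  · refine ⟨∅, ?_⟩
    rintro l ρ ⟨D', hD', hDD, hlD⟩ hl -
    have hl1 : L.nm l ≤ 1 := L.hv_int hl
    rw [hev]
    have hle1 : L.Ur ⊥ (N * D) ≤ L.Ur ⊥ (N * D') := ur_dvd ⊥ (Nat.mul_dvd_mul_left N hDD)
    have hvm : v₀ + l * m.eval xd ∈ L.Ur ⊥ (N * D') :=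
      add_mem (hle1 hv₀m) (mul_mem hlD (hle1 (hle hm1)))
    have hv1 : L.nm (v₀ + l * m.eval xd) ≤ 1 :=
      (L.add _ _).trans (max_le hv₀1 (hlm l hl1).le)
    have hvP' : L.nm (v₀ + l * m.eval xd - yP) < 1 := gal_tri (hclose l hl1) hvP
    obtain ⟨k1, k2, k3⟩ := gal_cg hI hx1' hv1 h.xP_le h.yP_le hxx hvP'
    refine nod_fe h.h₁ (mul_ne_zero hN hD') (hle1 hx1) hvm hx1' hv1 ?_ (gal_lt k2 hd1)
      (gal_lt k3 hd2)
    refine gal_lt k1 ?_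
    rw [h.eP, L.zero]
    exact zero_lt_one

omit [CharZero K] [Algebra F K] [IsScalarTower F K Ω] [IsAlgClosure K Ω] in
/-- The value of the equation depends on the residues only. -/
private theorem gab_fe (h : L.It W₁) {x y x' y' : Ω} (hx : L.nm x ≤ 1) (hy : L.nm y ≤ 1)
    (hx' : L.nm (x' - x) < 1) (hy' : L.nm (y' - y) < 1) (h1 : L.nm (fe W₁ x y) = 1) :
    L.nm (fe W₁ x' y') = 1 := by
  obtain ⟨b₁, b₂, b₃, b₄, b₆⟩ := gab_a h
  have key : ∀ (u v : Ω) (ρ σ : L.κ), L.rs.Hv u ρ → L.rs.Hv v σ → L.rs.Hv (fe W₁ u v)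
      (σ ^ 2 + (L.rc W₁).a₁ * ρ * σ + (L.rc W₁).a₃ * σ -
        (ρ ^ 3 + (L.rc W₁).a₂ * ρ ^ 2 + (L.rc W₁).a₄ * ρ + (L.rc W₁).a₆)) := by
    intro u v ρ σ hu hv
    exact (((hv.pow 2).add ((b₁.mul hu).mul hv)).add (b₃.mul hv)).sub
      ((((hu.pow 3).add (b₂.mul (hu.pow 2))).add (b₄.mul hu)).add b₆)
  obtain ⟨ρ, hρ⟩ := L.hv_of hx
  obtain ⟨σ, hσ⟩ := L.hv_of hy
  have hρ' : L.rs.Hv x' ρ := by
    have h2 := (L.hv_zero.2 hx').add hρ
    rwa [sub_add_cancel, zero_add] at h2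
  have hσ' : L.rs.Hv y' σ := by
    have h2 := (L.hv_zero.2 hy').add hσ
    rwa [sub_add_cancel, zero_add] at h2
  exact (L.hv_ne (key _ _ _ _ hρ' hσ')).1 ((L.hv_ne (key _ _ _ _ hρ hσ)).2 h1)

/-- The second factor. Proof: the arguments are congruent to `xP`, `yP - w dy W₂ xd yd`. -/
theorem ga_two (h : Ga L W₁ W₂ M N xP yP xd yd z₀ y₀) {D : ℕ} (hD : D ≠ 0)
    {r A : Polynomial Ω} {w : Ω}
    (hr : L.Ip (L.Ur ⊥ (N * D)) r) (hr₀ : r.eval z₀ = xP) (hA : L.Ip (L.Ur ⊥ (N * D)) A)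
    (hw1 : L.nm w ≤ 1) (hA₀ : A.eval z₀ + w * y₀ = yP)
    (h1 : L.nm (fe W₁ xP (yP - w * dy W₂ xd yd)) = 1) :
    L.nm (fe W₁ (r.eval xd) (A.eval xd + w * yd - w * dy W₂ xd yd)) = 1 := by
  have hzd : L.nm (xd - z₀) < 1 := by
    rw [L.sub_comm]
    exact h.uf.lt
  have h2 : L.nm (r.eval xd - xP) < 1 := by
    rw [← hr₀]
    exact hr.close h.xd_le hzd
  have h3 : L.nm (A.eval xd + w * yd - w * dy W₂ xd yd - (yP - w * dy W₂ xd yd)) < 1 := by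
    have e : A.eval xd + w * yd - w * dy W₂ xd yd - (yP - w * dy W₂ xd yd) =
        (A.eval xd - A.eval z₀) - w * (y₀ - yd) := by
      rw [← hA₀]
      ring
    rw [e]
    refine dy_sub_lt (hA.close h.xd_le hzd) ?_
    rw [L.mul]
    exact mul_lt_one_of_nonneg_of_lt_one_right hw1 (L.nonneg _) h.yy
  have h4 : L.nm (yP - w * dy W₂ xd yd) ≤ 1 :=
    dy_sub_le h.yP_le (dy_mul_one hw1 h.dd.le)
  exact gab_fe h.h₁.toIt h.xP_le h4 h2 h3 h1

/-! ### The roots -/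

omit [CharZero K] [IsAlgClosure K Ω] in
private theorem gaf_mem (M : IntermediateField K Ω) (a : F) : algebraMap F Ω a ∈ M := by
  rw [IsScalarTower.algebraMap_apply F K Ω]
  exact M.algebraMap_mem _

omit [CharZero K] [IsAlgClosure K Ω] in
/-- The norm polynomial is integral. -/
private theorem gaf_ip {M : IntermediateField K Ω} (h₁ : L.It W₁) (h₂ : L.It W₂)
    {r A : Polynomial Ω} {w : Ω} (hr : L.Ip M r) (hA : L.Ip M A) (hw : w ∈ M)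
    (hw1 : L.nm w ≤ 1) : L.Ip M (nn W₁ W₂ r A w) := by
  have hB : ∀ {W : WeierstrassCurve F}, L.It W → ∀ {r : Polynomial Ω}, L.Ip M r →
      L.Ip M (BW W Ω r) := by
    intro W h r hr
    exact ((Ip.C (gaf_mem M _) h.a₁).mul hr).add (Ip.C (gaf_mem M _) h.a₃)
  have hF : ∀ {W : WeierstrassCurve F}, L.It W → ∀ {r : Polynomial Ω}, L.Ip M r →
      L.Ip M (FW W Ω r) := by
    intro W h r hr
    exact (((hr.pow 3).add ((Ip.C (gaf_mem M _) h.a₂).mul (hr.pow 2))).add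
      ((Ip.C (gaf_mem M _) h.a₄).mul hr)).add (Ip.C (gaf_mem M _) h.a₆)
  have hW : L.Ip M (C w) := Ip.C hw hw1
  have h2A : L.Ip M (2 * A) := by
    rw [two_mul]
    exact hA.add hA
  have hu : L.Ip M (A ^ 2 + BW W₁ Ω r * A - FW W₁ Ω r + C w ^ 2 * FW W₂ Ω X) :=
    (((hA.pow 2).add ((hB h₁ hr).mul hA)).sub (hF h₁ hr)).add ((hW.pow 2).mul (hF h₂ Ip.X))
  have hv : L.Ip M (C w * (2 * A + BW W₁ Ω r) - C w ^ 2 * BW W₂ Ω X) :=
    (hW.mul (h2A.add (hB h₁ hr))).sub ((hW.pow 2).mul (hB h₂ Ip.X))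
  exact ((hu.pow 2).sub ((hu.mul hv).mul (hB h₂ Ip.X))).sub ((hv.pow 2).mul (hF h₂ Ip.X))

omit [Algebra K Ω] [Algebra F K] [IsScalarTower F K Ω] [CharZero K] [IsAlgClosure K Ω] [Field K] in
/-- The value of the norm polynomial at a point of the second curve. -/
private theorem gaf_val {x y : Ω} (he : fe W₂ x y = 0) (r A : Polynomial Ω) (w : Ω) :
    (nn W₁ W₂ r A w).eval x = fe W₁ (r.eval x) (A.eval x + w * y) *
      fe W₁ (r.eval x) (A.eval x + w * y - w * dy W₂ x y) := by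
  have hF : x ^ 3 + algebraMap F Ω W₂.a₂ * x ^ 2 + algebraMap F Ω W₂.a₄ * x +
      algebraMap F Ω W₂.a₆ = y ^ 2 + algebraMap F Ω W₂.a₁ * x * y + algebraMap F Ω W₂.a₃ * y :=
    (sub_eq_zero.1 he).symm
  simp only [nn, nrm, BW, FW, eval_add, eval_sub, eval_mul, eval_pow, eval_C, eval_X,
    eval_ofNat]
  rw [hF]
  unfold fe dy
  ring

/-- The norm polynomial vanishes at `z₀`, so it is `m m'` (`Tm.dvd`, `Ip.dvd`), and `m'(xd)` is a unit. -/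
theorem ga_fac (h : Ga L W₁ W₂ M N xP yP xd yd z₀ y₀) {e : ℕ} {m : Polynomial Ω}
    (hm : L.Tm M N xd z₀ e m) {D : ℕ} (hD : D ≠ 0) {r A : Polynomial Ω} {w : Ω}
    (hr : L.Ip (L.Ur ⊥ (N * D)) r) (hr₀ : r.eval z₀ = xP) (hA : L.Ip (L.Ur ⊥ (N * D)) A)
    (hw : w ∈ L.Ur ⊥ (N * D)) (hw1 : L.nm w ≤ 1) (hA₀ : A.eval z₀ + w * y₀ = yP)
    (h1 : L.nm (fe W₁ (r.eval xd) (A.eval xd + w * yd)) = L.nm (L.p : Ω))
    (h2 : L.nm (fe W₁ (r.eval xd) (A.eval xd + w * yd - w * dy W₂ xd yd)) = 1) :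
    ∃ m', L.Ip (L.Ur ⊥ (N * D)) m' ∧ nn W₁ W₂ r A w = m * m' ∧ L.nm (m'.eval xd) = 1 := by
  have hip := gaf_ip (M := L.Ur ⊥ (N * D)) h.h₁.toIt h.h₂.toIt hr hA hw hw1
  have hev : (nn W₁ W₂ r A w).eval z₀ = 0 := by
    rw [gaf_val h.eQ, hr₀, hA₀, h.eP, zero_mul]
  have hd := hm.dvd D hD _ (fun i => (hip i).1) hev
  obtain ⟨q, hq, he⟩ := hip.dvd (hm.ip.mono (ur_dvd ⊥ (dvd_mul_right N D))) hm.monic hd
  refine ⟨q, hq, he, ?_⟩
  have h3 := gaf_val (W₁ := W₁) h.ed r A w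
  rw [he, eval_mul] at h3
  have h4 := congrArg L.nm h3
  rw [L.mul, L.mul, h1, h2, mul_one, hm.val] at h4
  exact (mul_eq_left₀ L.p_pos.ne').1 h4

/-- The roots of the norm polynomial. `r'`, `A'`, `ρ` are the reductions; `hs` is the conclusion of `gen_sq`. Proof: a root `z` is integral. If `z ≡ xd`: `m'(z) ≡ m'(xd)` is a unit, so `m(z) = 0` and the derivative is
`m'(z)` times the derivative of `m`. Otherwise `m` does not vanish at the residue of `z` (`Tm.red`), `hs` and `ga_nn`. -/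
theorem ga_roots (h : Ga L W₁ W₂ M N xP yP xd yd z₀ y₀) {e : ℕ} {m m' : Polynomial Ω}
    (hm : L.Tm M N xd z₀ e m) {D : ℕ} (hD : D ≠ 0) {r A : Polynomial Ω} {w : Ω}
    {r' A' mr : L.κ[X]} {ρ : L.κ} (hr : L.Ip (L.Ur ⊥ (N * D)) r) (hA : L.Ip (L.Ur ⊥ (N * D)) A)
    (hw : L.rs.Hv w ρ) (hrr : L.Hp r r') (hAA : L.Hp A A') (hmm : L.Hp m mr)
    (hm' : L.Ip (L.Ur ⊥ (N * D)) m') (hf : nn W₁ W₂ r A w = m * m') (hu : L.nm (m'.eval xd) = 1)
    (hmo : (nn W₁ W₂ r A w).Monic)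
    (hs : ∀ z : L.κ, mr.eval z ≠ 0 → (nrm (bk (L.rc W₁) r') (fk (L.rc W₁) r') (bk (L.rc W₂) X)
      (fk (L.rc W₂) X) A' (C ρ)).eval z = 0 → (derivative (nrm (bk (L.rc W₁) r')
        (fk (L.rc W₁) r') (bk (L.rc W₂) X) (fk (L.rc W₂) X) A' (C ρ))).eval z ≠ 0)
    {z : Ω} (hz : (nn W₁ W₂ r A w).eval z = 0) :
    (derivative (nn W₁ W₂ r A w)).eval z ≠ 0 ∧ L.nm z ≤ 1 ∧
      (m.eval z = 0 ∨ L.nm ((derivative (nn W₁ W₂ r A w)).eval z) = 1) := by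
  have hip : L.Ip (L.Ur ⊥ (N * D)) (nn W₁ W₂ r A w) := by
    rw [hf]
    exact (hm.ip.mono (ur_dvd ⊥ (dvd_mul_right N D))).mul hm'
  have hz1 : L.nm z ≤ 1 := L.root_le hmo (fun i => (hip i).2) hz
  by_cases hc : L.nm (z - xd) < 1
  · have h1 : L.nm (m'.eval z) = 1 := by
      rw [← hu]
      refine L.eq_of_close ?_
      rw [hu]
      exact hm'.close hz1 hc
    have h2 : m'.eval z ≠ 0 := L.ne_zero (by rw [h1]; exact zero_lt_one)
    have h3 : m.eval z = 0 := by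
      rw [hf, eval_mul] at hz
      exact (mul_eq_zero.1 hz).resolve_right h2
    refine ⟨?_, hz1, Or.inl h3⟩
    rw [hf, derivative_mul, eval_add, eval_mul, eval_mul, h3, zero_mul, add_zero]
    exact mul_ne_zero (hm.sep z h3) h2
  · obtain ⟨ζ, hζ⟩ := L.hv_of hz1
    obtain ⟨δ, hδ⟩ := L.hv_of h.xd_le
    have hne : ζ ≠ δ := fun e => hc ((L.hv_sub hζ hδ).1 e)
    have hmr : mr = (X - C δ) ^ e := Hp.uniq hmm (hm.red δ hδ)
    have h1 : mr.eval ζ ≠ 0 := by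
      rw [hmr, eval_pow, eval_sub, eval_X, eval_C]
      exact pow_ne_zero _ (sub_ne_zero.2 hne)
    have hnn := ga_nn h hrr hAA hw
    have h2 := hnn.eval hζ
    rw [hz] at h2
    have h3 := hs ζ h1 (h2.uniq Rs.Hv.zero)
    have h4 := (L.hv_ne (hnn.der.eval hζ)).1 h3
    exact ⟨L.ne_zero (by rw [h4]; exact zero_lt_one), hz1, Or.inr h4⟩

/-- The norm polynomial is monic. -/
theorem ga_monic {k : Type} [Field k] [Algebra F k] (W₁ W₂ : WeierstrassCurve F) {r A : k[X]}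
    {w : k} (hA : A.Monic) (h1 : 3 * r.natDegree < 2 * A.natDegree) (h2 : 3 < 2 * A.natDegree) :
    (nn W₁ W₂ r A w).Monic := by
  have degB : ∀ (W : WeierstrassCurve F) (q : k[X]), (BW W k q).natDegree ≤ q.natDegree := by
    intro W q
    refine (natDegree_add_le _ _).trans (max_le (natDegree_C_mul_le _ _) ?_)
    rw [natDegree_C]
    exact Nat.zero_le _
  have degF : ∀ (W : WeierstrassCurve F) (q : k[X]),
      (FW W k q).natDegree ≤ 3 * q.natDegree := by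
    intro W q
    refine (natDegree_add_le _ _).trans (max_le ((natDegree_add_le _ _).trans (max_le
      ((natDegree_add_le _ _).trans (max_le natDegree_pow_le ?_)) ?_)) ?_)
    · refine (natDegree_C_mul_le _ _).trans (natDegree_pow_le.trans ?_)
      omega
    · refine (natDegree_C_mul_le _ _).trans ?_
      omega
    · rw [natDegree_C]
      exact Nat.zero_le _
  have dB₁ := degB W₁ r
  have dF₁ := degF W₁ r
  have dB₂ := degB W₂ X
  have dF₂ := degF W₂ X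
  rw [natDegree_X] at dB₂ dF₂
  have dw2 : (C w ^ 2 : k[X]).natDegree = 0 := by
    rw [← C_pow, natDegree_C]
  set a := A.natDegree with ha
  -- the first term
  obtain ⟨c₀, hc₀⟩ : ∃ c, c = A ^ 2 + BW W₁ k r * A - FW W₁ k r + C w ^ 2 * FW W₂ k X := ⟨_, rfl⟩
  obtain ⟨c₁, hc₁⟩ : ∃ c, c = C w * (2 * A + BW W₁ k r) - C w ^ 2 * BW W₂ k X := ⟨_, rfl⟩
  have hA2 : (A ^ 2).Monic := hA.pow 2
  have dA2 : (A ^ 2).natDegree = 2 * a := hA.natDegree_pow 2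
  have e1 : c₀ = A ^ 2 + (BW W₁ k r * A - FW W₁ k r + C w ^ 2 * FW W₂ k X) := by
    rw [hc₀]
    ring
  have d1 : (BW W₁ k r * A - FW W₁ k r + C w ^ 2 * FW W₂ k X).natDegree < (A ^ 2).natDegree := by
    rw [dA2]
    refine lt_of_le_of_lt (natDegree_add_le _ _) (max_lt (lt_of_le_of_lt (natDegree_sub_le _ _)
      (max_lt ?_ ?_)) ?_)
    · refine lt_of_le_of_lt natDegree_mul_le ?_
      omega
    · omega
    · refine lt_of_le_of_lt natDegree_mul_le ?_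
      omega
  have m0 : c₀.Monic := by
    rw [e1]
    exact hA2.add_of_left (degree_lt_degree d1)
  have n0 : c₀.natDegree = 2 * a := by
    rw [e1, natDegree_add_eq_left_of_natDegree_lt d1, dA2]
  have n1 : c₁.natDegree ≤ a := by
    rw [hc₁]
    refine (natDegree_sub_le _ _).trans (max_le ?_ ?_)
    · refine (natDegree_C_mul_le _ _).trans ((natDegree_add_le _ _).trans (max_le ?_ ?_))
      · have h5 : (2 * A : k[X]) = C 2 * A := by rw [map_ofNat]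
        rw [h5]
        exact natDegree_C_mul_le _ _
      · omega
    · refine natDegree_mul_le.trans ?_
      omega
  have e2 : nn W₁ W₂ r A w = c₀ ^ 2 - (c₀ * c₁ * BW W₂ k X + c₁ ^ 2 * FW W₂ k X) := by
    rw [hc₀, hc₁]
    unfold nn nrm
    ring
  rw [e2]
  refine (m0.pow 2).sub_of_left (degree_lt_degree ?_)
  rw [m0.natDegree_pow, n0]
  refine lt_of_le_of_lt (natDegree_add_le _ _) (max_lt ?_ ?_)
  · refine lt_of_le_of_lt natDegree_mul_le ?_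
    have h5 : (c₀ * c₁).natDegree ≤ 2 * a + a :=
      natDegree_mul_le.trans (by omega)
    omega
  · refine lt_of_le_of_lt natDegree_mul_le ?_
    have h5 : (c₁ ^ 2).natDegree ≤ 2 * a := natDegree_pow_le.trans (by omega)
    omega

/-- **The choice.** Proof: `exists_tm` (given as `hm`), `r = r₀ + ε m`, `r₀(z₀) = xP` (`Tm.gen`), `ε` from `exists_eps` (`Rf (Ur ⊥ N) N` follows from `Rf M N`); `a(z₀) = yP`, `b(z₀) = y₀` (`Tm.gen`). `E = e + 2`. `w` by `ga_w` and `exists_res`,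
then `gen_sq` over `κ` for `A₀ = a - w b`, `m`, `D = E`: `μ` by `exists_res`, then `l` by `exists_res` outside the sets of `gen_sq` and `ga_l` (with `A₁ = A₀ + m (X ^ E + μ X)`); `A = A₁ + l m`. All of `w`, `μ`, `l` are in `Te (N l ^ j)` for some
`j` (`te_dvd`, take the maximum). `ga_val`, `ga_two`, `ga_fac`, `ga_monic`, `ga_roots`. `l ^ j` is odd. -/
theorem ga_main (h : Ga L W₁ W₂ M N xP yP xd yd z₀ y₀) {e : ℕ} {m : Polynomial Ω}
    (hm : L.Tm M N xd z₀ e m) {l : ℕ} (hl : l.Prime) (hl2 : l ≠ 2) :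
    ∃ (j : ℕ) (r A : Polynomial Ω) (w : Ω), L.Ip (L.Ur ⊥ (N * l ^ j)) r ∧
      L.Ip (L.Ur ⊥ (N * l ^ j)) A ∧ w ∈ L.Ur ⊥ (N * l ^ j) ∧ 0 < r.natDegree ∧
      (∀ x ∈ L.Ur ⊥ (N * l ^ j), x ^ 2 ≠ r.leadingCoeff) ∧ 3 * r.natDegree < 2 * A.natDegree ∧
      3 < 2 * A.natDegree ∧ r.eval z₀ = xP ∧ A.eval z₀ + w * y₀ = yP ∧
      (nn W₁ W₂ r A w).Monic ∧ L.Ip (L.Ur ⊥ (N * l ^ j)) (nn W₁ W₂ r A w) ∧
      ∀ z : Ω, (nn W₁ W₂ r A w).eval z = 0 → (derivative (nn W₁ W₂ r A w)).eval z ≠ 0 ∧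
        (m.eval z = 0 ∨ L.nm ((derivative (nn W₁ W₂ r A w)).eval z) = 1) := by
  have hac : IsAlgClosed Ω := IsAlgClosure.isAlgClosed K
  have hcl : IsAlgClosed L.κ := L.κ_closed
  have hN : N ≠ 0 := h.rf.ne
  have hl0 : l ≠ 0 := hl.ne_zero
  have hRf : L.Rf (L.Ur ⊥ N) N := ⟨hN, le_rfl, fun x hx => h.rf.res x (h.rf.le hx)⟩
  obtain ⟨ε, hε, hε1, hεs⟩ := exists_eps hRf
  have hε0 : ε ≠ 0 := L.ne_zero (by rw [hε1]; exact zero_lt_one)
  have hy₀ : L.nm y₀ ≤ 1 := by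
    have h1 : y₀ = (y₀ - yd) + yd := by ring
    rw [h1]
    exact (L.add _ _).trans (max_le h.yy.le h.yd_le)
  obtain ⟨f₀, hf₀, hf₀d, hf₀z⟩ := hm.gen xP h.xP_mem h.xP_le
  obtain ⟨a, ha, had, haz⟩ := hm.gen yP h.yP_mem h.yP_le
  obtain ⟨b, hb, hbd, hbz⟩ := hm.gen y₀ h.y_mem hy₀
  -- the polynomial `r`
  obtain ⟨r, hr⟩ : ∃ r, r = f₀ + C ε * m := ⟨_, rfl⟩
  have hrI : L.Ip (L.Ur ⊥ N) r := by
    rw [hr]
    exact hf₀.add ((Ip.C hε hε1.le).mul hm.ip)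
  have hrc : r.coeff e = ε := by
    rw [hr, coeff_add, coeff_C_mul, coeff_eq_zero_of_natDegree_lt hf₀d, zero_add]
    have h1 : m.coeff e = 1 := by
      have h2 := hm.monic.coeff_natDegree
      rwa [hm.deg] at h2
    rw [h1, mul_one]
  have hrd : r.natDegree = e := by
    refine le_antisymm ?_ (le_natDegree_of_ne_zero (by rw [hrc]; exact hε0))
    rw [hr]
    refine (natDegree_add_le _ _).trans (max_le hf₀d.le ?_)
    exact (natDegree_C_mul_le _ _).trans hm.deg.le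
  have hrl : r.leadingCoeff = ε := by rw [leadingCoeff, hrd, hrc]
  have hrz : r.eval z₀ = xP := by
    rw [hr, eval_add, eval_mul, hm.root, mul_zero, add_zero, hf₀z]
  obtain ⟨r', hrr⟩ := hrI.hp
  have hr'd : 0 < r'.natDegree := by
    have h1 : r'.coeff e ≠ 0 := by
      refine (L.hv_ne (hrr e)).2 ?_
      rw [hrc, hε1]
    exact (Nat.pos_of_ne_zero hm.e0).trans_le (le_natDegree_of_ne_zero h1)
  -- `w`
  obtain ⟨s, hs⟩ := ga_w h hr'd
  obtain ⟨j₁, w, hw, ρ, hρ, hρs⟩ := exists_res s hN hl.one_lt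
  obtain ⟨hρ0, hρ12, hρw⟩ := hs w ρ hρ hρs
  have hw1 : L.nm w ≤ 1 := L.hv_int hρ
  obtain ⟨a', haa⟩ := ha.hp
  obtain ⟨b', hbb⟩ := hb.hp
  obtain ⟨mr, hmm⟩ := hm.ip.hp
  have hmr0 : mr ≠ 0 := (hmm.monic hm.monic).1.ne_zero
  -- `μ`
  obtain ⟨s₁, hs₁⟩ := gen_sq (bk (L.rc W₁) r') (fk (L.rc W₁) r') (bk (L.rc W₂) X)
    (fk (L.rc W₂) X) (a' - C ρ * b') mr ρ (e + 2) hρ0 (ga_d h hr'd).1 (ga_d h hr'd).2 hρ12 hmr0
  obtain ⟨j₂, μ, hμ, μ', hμ', hμs⟩ := exists_res s₁ hN hl.one_lt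
  obtain ⟨s₂, hs₂⟩ := hs₁ μ' hμs
  have hμ1 : L.nm μ ≤ 1 := L.hv_int hμ'
  -- fields
  have hpw : ∀ i j : ℕ, i ≤ j → N * l ^ i ∣ N * l ^ j := fun i j hij =>
    Nat.mul_dvd_mul_left N (pow_dvd_pow l hij)
  have hle0 : ∀ j : ℕ, L.Ur (⊥ : IntermediateField K Ω) N ≤ L.Ur ⊥ (N * l ^ j) := fun j =>
    ur_dvd ⊥ (dvd_mul_right N _)
  obtain ⟨A₁, hA₁⟩ : ∃ A₁ : Polynomial Ω, A₁ = a - C w * b + m * (X ^ (e + 2) + C μ * X) :=
    ⟨_, rfl⟩
  have hA₁I : ∀ j, j₁ ≤ j → j₂ ≤ j → L.Ip (L.Ur ⊥ (N * l ^ j)) A₁ := by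
    intro j h1 h2
    rw [hA₁]
    have hwj : w ∈ L.Ur (⊥ : IntermediateField K Ω) (N * l ^ j) := te_ur (te_dvd (hpw _ _ h1) hw)
    have hμj : μ ∈ L.Ur (⊥ : IntermediateField K Ω) (N * l ^ j) := te_ur (te_dvd (hpw _ _ h2) hμ)
    refine Ip.add (Ip.sub (ha.mono (hle0 j)) (Ip.mul (Ip.C hwj hw1) (hb.mono (hle0 j)))) ?_
    exact Ip.mul (hm.ip.mono (hle0 j)) (Ip.add (Ip.pow Ip.X _) (Ip.mul (Ip.C hμj hμ1) Ip.X))
  have hA₁z : A₁.eval z₀ + w * y₀ = yP := by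
    rw [hA₁, eval_add, eval_sub, eval_mul, eval_mul, hm.root, haz, hbz, eval_C]
    ring
  have hj12 : j₁ ≤ max j₁ j₂ ∧ j₂ ≤ max j₁ j₂ := ⟨le_max_left _ _, le_max_right _ _⟩
  have hD₀ : l ^ max j₁ j₂ ≠ 0 := pow_ne_zero _ hl0
  obtain ⟨s₃, hs₃⟩ := ga_l h hm hD₀ (hrI.mono (hle0 _)) hrz (hA₁I _ hj12.1 hj12.2)
    (te_ur (te_dvd (hpw _ _ hj12.1) hw)) hw1 hA₁z
  classical
  obtain ⟨j₃, lam, hlam, lam', hlam', hlams⟩ := exists_res (s₂ ∪ s₃) hN hl.one_lt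
  rw [Finset.mem_union, not_or] at hlams
  obtain ⟨j, hj⟩ : ∃ j, j = max (max j₁ j₂) j₃ := ⟨_, rfl⟩
  have hj1 : max j₁ j₂ ≤ j := by rw [hj]; exact le_max_left _ _
  have hj3 : j₃ ≤ j := by rw [hj]; exact le_max_right _ _
  have hlj : l ^ j ≠ 0 := pow_ne_zero _ hl0
  have hlam1 : L.nm lam ≤ 1 := L.hv_int hlam'
  have hlamj : lam ∈ L.Ur (⊥ : IntermediateField K Ω) (N * l ^ j) :=
    te_ur (te_dvd (hpw _ _ hj3) hlam)
  have hwj : w ∈ L.Ur (⊥ : IntermediateField K Ω) (N * l ^ j) :=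
    te_ur (te_dvd (hpw _ _ (hj12.1.trans hj1)) hw)
  have hv1 := hs₃ lam lam' ⟨l ^ j, hlj, pow_dvd_pow l hj1, hlamj⟩ hlam' hlams.2
  obtain ⟨A, hA⟩ : ∃ A, A = A₁ + C lam * m := ⟨_, rfl⟩
  rw [← hA] at hv1
  have hAI : L.Ip (L.Ur ⊥ (N * l ^ j)) A := by
    rw [hA]
    exact Ip.add (hA₁I j (hj12.1.trans hj1) (hj12.2.trans hj1))
      (Ip.mul (Ip.C hlamj hlam1) (hm.ip.mono (hle0 j)))
  have hrIj : L.Ip (L.Ur ⊥ (N * l ^ j)) r := hrI.mono (hle0 j)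
  have hAz : A.eval z₀ + w * y₀ = yP := by
    rw [hA, eval_add, eval_mul, hm.root, mul_zero, add_zero, hA₁z]
  -- the reduction of `A`
  have hAA : L.Hp A (a' - C ρ * b' + mr * (X ^ (e + 2) + C μ' * X + C lam')) := by
    have h1 : A = a - C w * b + m * (X ^ (e + 2) + C μ * X + C lam) := by
      rw [hA, hA₁]
      ring
    rw [h1]
    exact Hp.add (Hp.sub haa (Hp.mul (Hp.C hρ) hbb)) (Hp.mul hmm (Hp.add (Hp.add (Hp.pow Hp.X _)
      (Hp.mul (Hp.C hμ') Hp.X)) (Hp.C hlam')))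
  -- the degree of `A`
  have hAm : A.Monic ∧ A.natDegree = 2 * e + 2 := by
    have h1 : A = m * (X ^ (e + 2) + (C μ * X + C lam)) + (a - C w * b) := by
      rw [hA, hA₁]
      ring
    have h2 : (C μ * X + C lam : Polynomial Ω).degree < ((e + 2 : ℕ) : WithBot ℕ) :=
      lt_of_le_of_lt degree_linear_le (by exact_mod_cast (by omega : 1 < e + 2))
    have h3 : (X ^ (e + 2) + (C μ * X + C lam) : Polynomial Ω).Monic :=
      monic_X_pow_add h2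
    have h4 : (X ^ (e + 2) + (C μ * X + C lam) : Polynomial Ω).natDegree = e + 2 := by
      rw [natDegree_add_eq_left_of_degree_lt, natDegree_X_pow]
      rw [degree_X_pow]
      exact h2
    have h5 : (m * (X ^ (e + 2) + (C μ * X + C lam))).Monic := hm.monic.mul h3
    have h6 : (m * (X ^ (e + 2) + (C μ * X + C lam))).natDegree = 2 * e + 2 := by
      rw [hm.monic.natDegree_mul h3, hm.deg, h4]
      ring
    have h7 : (a - C w * b).natDegree < 2 * e + 2 := by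
      refine lt_of_le_of_lt (natDegree_sub_le _ _) (max_lt (by omega) ?_)
      refine lt_of_le_of_lt (natDegree_C_mul_le _ _) (by omega)
    have h8 : (a - C w * b).degree < (m * (X ^ (e + 2) + (C μ * X + C lam))).degree := by
      rw [degree_eq_natDegree h5.ne_zero, h6]
      exact lt_of_le_of_lt degree_le_natDegree (by exact_mod_cast h7)
    rw [h1]
    refine ⟨h5.add_of_left h8, ?_⟩
    rw [natDegree_add_eq_left_of_degree_lt h8, h6]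
  have hd1 : 3 * r.natDegree < 2 * A.natDegree := by
    rw [hrd, hAm.2]
    omega
  have hd2 : 3 < 2 * A.natDegree := by
    rw [hAm.2]
    omega
  have hmo : (nn W₁ W₂ r A w).Monic := ga_monic W₁ W₂ hAm.1 hd1 hd2
  have hv2 := ga_two h hlj hrIj hrz hAI hw1 hAz hρw
  obtain ⟨m', hm', hf, hu⟩ := ga_fac h hm hlj hrIj hrz hAI hwj hw1 hAz hv1 hv2
  refine ⟨j, r, A, w, hrIj, hAI, hwj, ?_, ?_, hd1, hd2, hrz, hAz, hmo, ?_, ?_⟩
  · rw [hrd]
    exact Nat.pos_of_ne_zero hm.e0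
  · rw [hrl]
    exact hεs (l ^ j) ((hl.odd_of_ne_two hl2).pow)
  · rw [hf]
    exact (hm.ip.mono (hle0 j)).mul hm'
  · intro z hz
    have h1 := ga_roots h hm hlj hrIj hAI hρ hrr hAA hmm hm' hf hu hmo
      (fun t ht ht' => hs₂ lam' hlams.1 t ht ht') hz
    exact ⟨h1.1, h1.2.2⟩

end Ld

end PE
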