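import Pool.Agent.Lib.MP_f80667_ag.Pe.Ip
import Pool.Agent.Lib.MP_f80667_ag.Pe.NmL

/-! Minimal polynomials of uniformizers: auxiliary lemmas. -/

open ZC BE Polynomial IntermediateField

namespace PE

namespace Ld

variable {K Ω : Type} [Field K] [Field Ω] [Algebra K Ω] {L : Ld K Ω} [L.Unr]

theorem tme_zero {U : IntermediateField K Ω} : L.Ip U (0 : Polynomial Ω) := by
  intro i
  rw [coeff_zero]
  refine ⟨zero_mem _, ?_⟩
  rw [L.zero]
  exact zero_le_one

theorem tme_comp {U : IntermediateField K Ω} {f g : Polynomial Ω} (hf : L.Ip U f)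
    (hg : L.Ip U g) : L.Ip U (f.comp g) := by
  rw [comp, eval₂_eq_sum_range]
  exact Finset.sum_induction _ (L.Ip U) (fun _ _ => Ip.add) tme_zero
    fun i _ => (Ip.C (hf i).1 (hf i).2).mul (hg.pow i)

theorem tme_lift {U : IntermediateField K Ω} {f : Polynomial Ω} (hf : ∀ i, f.coeff i ∈ U) :
    ∃ F : Polynomial U, F.map (algebraMap U Ω) = f := by
  have h : f ∈ lifts (algebraMap U Ω) := by
    rw [lifts_iff_coeff_lifts]
    intro n
    exact ⟨⟨f.coeff n, hf n⟩, rfl⟩
  exact (mem_lifts f).1 h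

theorem tme_coeff {U : IntermediateField K Ω} (F : Polynomial U) (i : ℕ) :
    (F.map (algebraMap U Ω)).coeff i ∈ U := by
  rw [coeff_map]
  exact (F.coeff i).2

/-- Divisibility by the minimal polynomial. -/
theorem tme_dvd {U : IntermediateField K Ω} {π d : Ω} {e : ℕ} (hd : d ∈ U)
    (H : ∀ g : Polynomial Ω, (∀ i, g.coeff i ∈ U) → g.natDegree < e → g.eval π = 0 → g = 0)
    (he : e ≠ 0) {m : Polynomial Ω} (hm : m.Monic) (hdeg : m.natDegree = e)
    (hmU : ∀ i, m.coeff i ∈ U) (hm0 : m.eval (π + d) = 0) {f : Polynomial Ω}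
    (hf : ∀ i, f.coeff i ∈ U) (h0 : f.eval (π + d) = 0) : m ∣ f := by
  obtain ⟨F, hF⟩ := tme_lift hf
  obtain ⟨G, hG⟩ := tme_lift hmU
  have hGm : G.Monic := by
    rw [← hG] at hm
    exact Polynomial.monic_of_injective (algebraMap U Ω).injective hm
  have hr : (F %ₘ G).map (algebraMap U Ω) = f %ₘ m := by
    rw [map_modByMonic _ hGm, hF, hG]
  have hm1 : m ≠ 1 := by
    rintro rfl
    rw [natDegree_one] at hdeg
    exact he hdeg.symm
  have hlt : (f %ₘ m).natDegree < e := by
    rw [← hdeg]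
    exact natDegree_modByMonic_lt f hm hm1
  have hr0 : (f %ₘ m).eval (π + d) = 0 := by
    have h1 := congrArg (Polynomial.eval (π + d)) (modByMonic_add_div f m)
    rw [eval_add, eval_mul, hm0, zero_mul, add_zero, h0] at h1
    exact h1
  have h2 : (f %ₘ m).comp (X + C d) = 0 := by
    refine H _ ?_ ?_ ?_
    · intro i
      have h3 : (f %ₘ m).comp (X + C d) =
          ((F %ₘ G).comp (X + C (⟨d, hd⟩ : U))).map (algebraMap U Ω) := by
        rw [map_comp, hr, Polynomial.map_add, map_X, map_C]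
        rfl
      rw [h3]
      exact tme_coeff _ i
    · rw [natDegree_comp, natDegree_X_add_C, mul_one]
      exact hlt
    · rw [eval_comp, eval_add, eval_X, eval_C]
      exact hr0
  have h3 : f %ₘ m = 0 := comp_X_add_C_eq_zero_iff.1 h2
  exact (modByMonic_eq_zero_iff_dvd hm).1 h3

/-- The roots of the minimal polynomial are conjugate. -/
theorem tme_conj [CharZero K] [IsAlgClosure K Ω] {U : IntermediateField K Ω} {z : Ω}
    {m : Polynomial Ω}
    (H : ∀ f : Polynomial Ω, (∀ i, f.coeff i ∈ U) → f.eval z = 0 → m ∣ f) {x : Ω}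
    (hx : m.eval x = 0) : ∃ γ ∈ U.fixingSubgroup, x = γ z := by
  have hac : IsAlgClosed Ω := IsAlgClosure.isAlgClosed K
  have halg : Algebra.IsAlgebraic K Ω := IsAlgClosure.isAlgebraic
  have halg' : Algebra.IsAlgebraic U Ω := Algebra.IsAlgebraic.tower_top (K := K) U
  have hcl : IsAlgClosure U Ω := ⟨hac, halg'⟩
  have hn : Normal U Ω := inferInstance
  have hz : IsAlgebraic U z := halg'.isAlgebraic z
  have h1 : m ∣ (minpoly U z).map (algebraMap U Ω) := by
    refine H _ (tme_coeff _) ?_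
    rw [eval_map, ← aeval_def]
    exact minpoly.aeval U z
  have h2 : (aeval x) (minpoly U z) = 0 := by
    rw [aeval_def, ← eval_map]
    obtain ⟨q, hq⟩ := h1
    rw [hq, eval_mul, hx, zero_mul]
  obtain ⟨σ, hσ⟩ := minpoly.exists_algEquiv_of_root' hz h2
  refine ⟨σ.restrictScalars K, ?_, hσ.symm⟩
  rw [IntermediateField.mem_fixingSubgroup_iff]
  intro y hy
  exact σ.commutes ⟨y, hy⟩

/-- The product over points which are congruent to `d`. -/
theorem tme_prod {d : Ω} {δ : L.κ} (hδ : L.rs.Hv d δ) {r : ℝ} (hr : r < 1) (S : Multiset Ω)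
    (hS : ∀ x ∈ S, L.nm (d - x) = r) :
    L.Hp ((S.map fun x => X - C x).prod) ((X - C δ) ^ Multiset.card S) ∧
      L.nm (((S.map fun x => X - C x).prod).eval d) = r ^ Multiset.card S := by
  induction S using Multiset.induction_on with
  | empty =>
    rw [Multiset.map_zero, Multiset.prod_zero, Multiset.card_zero, pow_zero, pow_zero, eval_one,
      L.one]
    refine ⟨?_, rfl⟩
    have h := Hp.pow (L := L) (Hp.X (L := L)) 0
    rwa [pow_zero, pow_zero] at h
  | cons x S ih =>
    obtain ⟨h1, h2⟩ := ih fun y hy => hS y (Multiset.mem_cons_of_mem hy)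
    have hx := hS x (Multiset.mem_cons_self x S)
    rw [Multiset.map_cons, Multiset.prod_cons, Multiset.card_cons, pow_succ', pow_succ', eval_mul,
      eval_sub, eval_X, eval_C, L.mul, hx, h2]
    refine ⟨?_, rfl⟩
    have hv : L.rs.Hv x δ := by
      have h3 : L.rs.Hv (d - x) 0 := L.hv_zero.2 (by rw [hx]; exact hr)
      exact (hδ.sub h3).congr (sub_sub_cancel d x) (sub_zero δ)
    exact (Hp.X.sub (Hp.C hv)).mul h1

end Ld

end PE
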