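import Pool.Agent.Lib.MP_f80667_ag.Pe.Ip
import Pool.Agent.Lib.MP_f80667_ag.Pe.NmL
import Pool.Agent.Lib.MP_f80667_ag.Pe.TmE

/-!
Totally ramified extensions `M` of `Ur ⊥ N`: the integers of `M` are the polynomials in `z`, where `z - d` is a uniformizer, and
the minimal polynomial of `z`.
-/

open ZC BE Polynomial IntermediateField

namespace PE

namespace Ld

variable {K Ω : Type} [Field K] [Field Ω] [Algebra K Ω] (L : Ld K Ω)

/-- `π` is a uniformizer of `M`. -/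
structure Uf (M : IntermediateField K Ω) (π : Ω) : Prop where
  mem : π ∈ M
  pos : 0 < L.nm π
  lt : L.nm π < 1
  max : ∀ x ∈ M, L.nm x < 1 → L.nm x ≤ L.nm π

/-- `m` is the minimal polynomial of `z` over the fields `Ur ⊥ (N D)`, `z - d` a uniformizer of `M`. -/
structure Tm (M : IntermediateField K Ω) (N : ℕ) (d z : Ω) (e : ℕ) (m : Polynomial Ω) : Prop where
  e0 : e ≠ 0
  monic : m.Monic
  deg : m.natDegree = e
  ip : L.Ip (L.Ur ⊥ N) m
  root : m.eval z = 0
  val : L.nm (m.eval d) = L.nm (L.p : Ω)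
  red : ∀ δ, L.rs.Hv d δ → L.Hp m ((Polynomial.X - Polynomial.C δ) ^ e)
  conj : ∀ D ≠ 0, ∀ x, m.eval x = 0 → ∃ γ ∈ (L.Ur ⊥ (N * D)).fixingSubgroup, x = γ z
  dvd : ∀ D ≠ 0, ∀ f : Polynomial Ω, (∀ i, f.coeff i ∈ L.Ur ⊥ (N * D)) → f.eval z = 0 → m ∣ f
  sep : ∀ x, m.eval x = 0 → (derivative m).eval x ≠ 0
  gen : ∀ x ∈ M, L.nm x ≤ 1 → ∃ f : Polynomial Ω, L.Ip (L.Ur ⊥ N) f ∧ f.natDegree < e ∧
    f.eval z = x
  fld : ∀ D ≠ 0, ∀ γ ∈ (L.Ur ⊥ (N * D)).fixingSubgroup, γ z = z →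
    γ ∈ (L.Ur M (N * D)).fixingSubgroup

variable {L} [L.Unr] [CharZero K] [IsAlgClosure K Ω]

/-- Every value of `M` is a power of the value of the uniformizer. -/
theorem Uf.val {M : IntermediateField K Ω} {π : Ω} (h : L.Uf M π) {x : Ω} (hx : x ∈ M)
    (h0 : x ≠ 0) : ∃ n : ℤ, L.nm x = L.nm π ^ n := by
  have hπ0 : π ≠ 0 := L.toLf.ne_zero h.pos
  obtain ⟨n, hn1, hn2⟩ := exists_mem_Ico_zpow (L.toLf.pos h0) (one_lt_inv₀ h.pos |>.2 h.lt)
  have hpos : 0 < L.nm π ^ (n + 1) := zpow_pos h.pos _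
  have hz : L.nm (x * π ^ (n + 1)) = L.nm x * L.nm π ^ (n + 1) := by
    rw [L.mul, L.toLf.zpow]
  have hlt : L.nm (x * π ^ (n + 1)) < 1 := by
    rw [hz]
    rw [inv_zpow, lt_inv_comm₀ (L.toLf.pos h0) hpos] at hn2
    calc L.nm x * L.nm π ^ (n + 1) < L.nm x * (L.nm x)⁻¹ :=
        mul_lt_mul_of_pos_left hn2 (L.toLf.pos h0)
      _ = 1 := mul_inv_cancel₀ (L.toLf.pos h0).ne'
  have hle := h.max _ (mul_mem hx (zpow_mem h.mem (n + 1))) hlt
  have hge : L.nm π ≤ L.nm (x * π ^ (n + 1)) := by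
    rw [hz]
    rw [inv_zpow] at hn1
    calc L.nm π = (L.nm π ^ n)⁻¹ * L.nm π ^ (n + 1) := by
          rw [zpow_add_one₀ h.pos.ne', ← mul_assoc, inv_mul_cancel₀ (zpow_pos h.pos n).ne',
            one_mul]
      _ ≤ L.nm x * L.nm π ^ (n + 1) := mul_le_mul_of_nonneg_right hn1 hpos.le
  have heq : L.nm x * L.nm π ^ (n + 1) = L.nm π := by
    rw [← hz]
    exact le_antisymm hle hge
  refine ⟨-n, ?_⟩
  rw [zpow_add_one₀ h.pos.ne', ← mul_assoc] at heq
  have h2 : L.nm x * L.nm π ^ n = 1 := mul_right_cancel₀ h.pos.ne' (by rw [heq, one_mul])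
  rw [zpow_neg]
  exact eq_inv_of_mul_eq_one_left h2

/-- The uniformizer of `M` is a uniformizer of `Ur M (N D)`. Proof: `ur_val` (`exists_frob`, `rf_frob`). -/
theorem Uf.ur {M : IntermediateField K Ω} [FiniteDimensional K M] {N D : ℕ} (hM : L.Rf M N)
    (hD : D ≠ 0) {π : Ω} (h : L.Uf M π) : L.Uf (L.Ur M (N * D)) π := by
  obtain ⟨φ, q, hφ⟩ := exists_frob L.toLf M
  rw [rf_frob hM hφ] at hφ
  refine ⟨ur_le h.mem, h.pos, h.lt, fun x hx hx1 => ?_⟩
  obtain ⟨y, hy, hyx⟩ := ur_val hφ hM.ne hD hx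
  rw [← hyx]
  exact h.max y hy (by rw [hyx]; exact hx1)

/-- Independence. Proof: for `f ≠ 0` the nonzero values `nm (a_i π ^ i)`, `i < e`, are distinct (`ur_unr`), so `f.eval π ≠ 0`. -/
theorem tm_indep {M : IntermediateField K Ω} {N : ℕ} (hN : N ≠ 0) {π : Ω} (h : L.Uf M π) {e : ℕ}
    (he : L.nm π ^ e = L.nm (L.p : Ω)) {f : Polynomial Ω} (hf : ∀ i, f.coeff i ∈ L.Ur ⊥ N)
    (hd : f.natDegree < e) (h0 : f.eval π = 0) : f = 0 := by
  classical
  by_contra hf0
  have hπ0 : π ≠ 0 := L.toLf.ne_zero h.pos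
  have hterm : ∀ i ∈ f.support, f.coeff i * π ^ i ≠ 0 := fun i hi =>
    mul_ne_zero (mem_support_iff.1 hi) (pow_ne_zero _ hπ0)
  -- the values of the terms
  have hval : ∀ i ∈ f.support, ∃ n : ℤ, L.nm (f.coeff i * π ^ i) = L.nm π ^ ((e : ℤ) * n + i) := by
    intro i hi
    obtain ⟨n, hn⟩ := ur_unr hN (hf i) (mem_support_iff.1 hi)
    refine ⟨n, ?_⟩
    rw [L.mul, L.toLf.pow, hn, ← he, zpow_add₀ h.pos.ne', zpow_mul, zpow_natCast, zpow_natCast]
  obtain ⟨k, hk, hmax⟩ := f.support.exists_max_image (fun i => L.nm (f.coeff i * π ^ i))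
    (support_nonempty.2 hf0)
  have hlt : ∀ i ∈ f.support.erase k, L.nm (f.coeff i * π ^ i) < L.nm (f.coeff k * π ^ k) := by
    intro i hi
    have hi' := Finset.mem_of_mem_erase hi
    refine lt_of_le_of_ne (hmax i hi') fun heq => ?_
    obtain ⟨a, ha⟩ := hval i hi'
    obtain ⟨b, hb⟩ := hval k hk
    rw [ha, hb] at heq
    have h1 := zpow_right_injective₀ h.pos h.lt.ne heq
    have h2 : i < e := (le_natDegree_of_mem_supp i hi').trans_lt hd
    have h3 : k < e := (le_natDegree_of_mem_supp k hk).trans_lt hd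
    have h4 : i = k := by
      have h5 : ((e : ℤ) * a + i) % e = ((e : ℤ) * b + k) % e := by rw [h1]
      rw [add_comm, Int.add_mul_emod_self_left, add_comm ((e : ℤ) * b),
        Int.add_mul_emod_self_left, Int.emod_eq_of_lt (by omega) (by omega),
        Int.emod_eq_of_lt (by omega) (by omega)] at h5
      exact_mod_cast h5
    exact Finset.ne_of_mem_erase hi h4
  have hsum : f.eval π = f.coeff k * π ^ k + ∑ i ∈ f.support.erase k, f.coeff i * π ^ i := by
    rw [eval_eq_sum, sum_def]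
    exact (Finset.add_sum_erase f.support (fun i => f.coeff i * π ^ i) hk).symm
  have hkpos := L.toLf.pos (hterm k hk)
  have hrest : L.nm (∑ i ∈ f.support.erase k, f.coeff i * π ^ i) <
      L.nm (f.coeff k * π ^ k) := by
    rcases (f.support.erase k).eq_empty_or_nonempty with he' | hne
    · rw [he', Finset.sum_empty, L.zero]
      exact hkpos
    · obtain ⟨j, hj, hjmax⟩ := (f.support.erase k).exists_max_image
        (fun i => L.nm (f.coeff i * π ^ i)) hne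
      exact (L.toLf.sum_le _ _ (L.nonneg _) hjmax).trans_lt (hlt j hj)
  rw [h0] at hsum
  have h1 := L.toLf.add_eq' hrest
  rw [← hsum, L.zero] at h1
  exact hkpos.ne h1

omit [CharZero K] [IsAlgClosure K Ω] in
private theorem tg_step {M : IntermediateField K Ω} {N : ℕ} (hM : L.Rf M N) {π : Ω}
    (h : L.Uf M π) {x : Ω} (hx : x ∈ M) (hx1 : L.nm x ≤ 1) (i : ℕ) :
    ∃ f : Polynomial Ω, L.Ip (L.Ur ⊥ N) f ∧ (∀ j, i ≤ j → f.coeff j = 0) ∧
      L.nm (x - f.eval π) ≤ L.nm π ^ i := by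
  induction i with
  | zero =>
    refine ⟨0, fun j => ?_, fun j _ => coeff_zero j, ?_⟩
    · rw [coeff_zero]
      exact ⟨zero_mem _, by rw [L.zero]; exact zero_le_one⟩
    · rw [eval_zero, sub_zero, pow_zero]
      exact hx1
  | succ i ih =>
    obtain ⟨f, h1, h2, h3⟩ := ih
    have hπ0 : π ≠ 0 := L.ne_zero h.pos
    have hpi : 0 < L.nm π ^ i := pow_pos h.pos i
    have hfM : f.eval π ∈ M := ((h1.mono hM.le).eval h.mem h.lt.le).1
    have hyM : (x - f.eval π) / π ^ i ∈ M := div_mem (sub_mem hx hfM) (pow_mem h.mem i)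
    have hy1 : L.nm ((x - f.eval π) / π ^ i) ≤ 1 := by
      rw [L.div, L.pow, div_le_one hpi]
      exact h3
    obtain ⟨z, hz, hyz⟩ := hM.res _ hyM hy1
    have hzU : z ∈ L.Ur ⊥ N := te_ur hz
    have hyz' := h.max _ (sub_mem hyM (hM.le hzU)) hyz
    refine ⟨f + Polynomial.C z * Polynomial.X ^ i, ?_, fun j hj => ?_, ?_⟩
    · refine h1.add fun j => ?_
      rw [coeff_C_mul, coeff_X_pow]
      split_ifs
      · rw [mul_one]
        exact ⟨hzU, te_int hM.ne hz⟩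
      · rw [mul_zero]
        exact ⟨zero_mem _, by rw [L.zero]; exact zero_le_one⟩
    · rw [coeff_add, h2 j (by omega), coeff_C_mul, coeff_X_pow, if_neg (by omega), mul_zero, add_zero]
    · have h4 : x - (f + Polynomial.C z * Polynomial.X ^ i).eval π
          = π ^ i * ((x - f.eval π) / π ^ i - z) := by
        rw [eval_add, eval_mul, eval_C, eval_pow, eval_X]
        have hπi : π ^ i ≠ 0 := pow_ne_zero i hπ0
        field_simp
        ring
      rw [h4, L.mul, L.pow, pow_succ]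
      exact mul_le_mul_of_nonneg_left hyz' hpi.le

/-- Generation. Proof: successive approximation: the numbers `z π ^ i p ^ k`, `z ∈ Te N`, represent the values (`Rf.res`): `x = ∑_{i < e} c_i^{(n)} π ^ i` modulo norm
`≤ nm p ^ n`, with integral `c_i^{(n)} ∈ Ur ⊥ N`, `nm (c_i^{(n + 1)} - c_i^{(n)}) ≤ nm p ^ n`; limits by `cpl`. -/
theorem tm_gen {M : IntermediateField K Ω} [FiniteDimensional K M] {N : ℕ} (hM : L.Rf M N) {π : Ω}
    (h : L.Uf M π) {e : ℕ} (he : L.nm π ^ e = L.nm (L.p : Ω)) {x : Ω} (hx : x ∈ M)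
    (hx1 : L.nm x ≤ 1) : ∃ f : Polynomial Ω, L.Ip (L.Ur ⊥ N) f ∧ f.natDegree < e ∧
      f.eval π = x := by
  classical
  have hp0 := L.p_pos
  have hp1 := L.lt
  have he0 : e ≠ 0 := by
    rintro rfl
    rw [pow_zero] at he
    exact absurd he.symm hp1.ne
  have hpM : (L.p : Ω) ∈ M := _root_.natCast_mem M _
  have hstep : ∀ y : {y : Ω // y ∈ M ∧ L.nm y ≤ 1}, ∃ f : Polynomial Ω, ∃ y' : {y : Ω // y ∈ M ∧ L.nm y ≤ 1},
      L.Ip (L.Ur ⊥ N) f ∧ (∀ j, e ≤ j → f.coeff j = 0) ∧ y.1 = f.eval π + (L.p : Ω) * y'.1 := by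
    rintro ⟨y, hy, hy1⟩
    obtain ⟨f, h1, h2, h3⟩ := tg_step hM h hy hy1 e
    have hfM : f.eval π ∈ M := ((h1.mono hM.le).eval h.mem h.lt.le).1
    refine ⟨f, ⟨(y - f.eval π) / (L.p : Ω), div_mem (sub_mem hy hfM) hpM, ?_⟩, h1, h2, ?_⟩
    · rw [L.div, div_le_one hp0, ← he]
      exact h3
    · have : (L.p : Ω) ≠ 0 := L.ne_zero hp0
      change y = f.eval π + (L.p : Ω) * ((y - f.eval π) / (L.p : Ω))
      field_simp
      ring
  choose F G hF hFd hFG using hstep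
  -- the remainders
  let y : ℕ → {y : Ω // y ∈ M ∧ L.nm y ≤ 1} := fun n => G^[n] ⟨x, hx, hx1⟩
  have hy0 : (y 0).1 = x := rfl
  have hys : ∀ n, (y n).1 = (F (y n)).eval π + (L.p : Ω) * (y (n + 1)).1 := by
    intro n
    have h1 : y (n + 1) = G (y n) := Function.iterate_succ_apply' G n _
    rw [h1]
    exact hFG (y n)
  let g : ℕ → Polynomial Ω := fun n => ∑ k ∈ Finset.range n, Polynomial.C ((L.p : Ω) ^ k) * F (y k)
  have hg : ∀ n, x = (g n).eval π + (L.p : Ω) ^ n * (y n).1 := by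
    intro n
    induction n with
    | zero =>
      change x = (∑ k ∈ Finset.range 0, Polynomial.C ((L.p : Ω) ^ k) * F (y k)).eval π + _
      rw [Finset.sum_range_zero, eval_zero, pow_zero, one_mul, zero_add, hy0]
    | succ n ih =>
      have h1 : g (n + 1) = g n + Polynomial.C ((L.p : Ω) ^ n) * F (y n) := Finset.sum_range_succ _ n
      rw [h1, eval_add, eval_mul, eval_C]
      conv_lhs => rw [ih, hys n]
      ring
  have hgU : ∀ n j, (g n).coeff j ∈ L.Ur ⊥ N := by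
    intro n j
    change (∑ k ∈ Finset.range n, Polynomial.C ((L.p : Ω) ^ k) * F (y k)).coeff j ∈ _
    rw [finsetSum_coeff]
    refine sum_mem fun k _ => ?_
    rw [coeff_C_mul]
    exact mul_mem (pow_mem (_root_.natCast_mem _ _) _) (hF (y k) j).1
  have hgs : ∀ j n, L.nm ((g (n + 1)).coeff j - (g n).coeff j) ≤ L.nm (L.p : Ω) ^ n := by
    intro j n
    have h1 : g (n + 1) = g n + Polynomial.C ((L.p : Ω) ^ n) * F (y n) := Finset.sum_range_succ _ n
    rw [h1, coeff_add, add_sub_cancel_left, coeff_C_mul, L.mul, L.pow]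
    exact mul_le_of_le_one_right (pow_nonneg (L.nonneg _) n) (hF (y n) j).2
  have hfd : FiniteDimensional K (L.Ur ⊥ N) := ur_fin ⊥ N hM.ne
  have hlim : ∀ j, ∃ c ∈ L.Ur ⊥ N, ∀ n, L.nm (c - (g n).coeff j) ≤ L.nm (L.p : Ω) ^ n := fun j =>
    L.cpl (L.Ur ⊥ N) hfd (L.nm (L.p : Ω)) (L.nonneg _) L.lt (fun n => (g n).coeff j)
      (fun n => hgU n j) (hgs j)
  choose c hc hcl using hlim
  have hc1 : ∀ j, L.nm (c j) ≤ 1 := by
    intro j
    have h1 := hcl j 0
    have h2 : (g 0).coeff j = 0 := by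
      change (∑ k ∈ Finset.range 0, Polynomial.C ((L.p : Ω) ^ k) * F (y k)).coeff j = 0
      rw [Finset.sum_range_zero, coeff_zero]
    rwa [h2, sub_zero, pow_zero] at h1
  have hgd : ∀ n j, e ≤ j → (g n).coeff j = 0 := by
    intro n j hj
    change (∑ k ∈ Finset.range n, Polynomial.C ((L.p : Ω) ^ k) * F (y k)).coeff j = 0
    rw [finsetSum_coeff]
    refine Finset.sum_eq_zero fun k _ => ?_
    rw [coeff_C_mul, hFd (y k) j hj, mul_zero]
  let f : Polynomial Ω := ∑ j ∈ Finset.range e, Polynomial.C (c j) * Polynomial.X ^ j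
  have hfc : ∀ j, f.coeff j = if j < e then c j else 0 := by
    intro j
    change (∑ j ∈ Finset.range e, Polynomial.C (c j) * Polynomial.X ^ j).coeff j = _
    rw [finsetSum_coeff]
    simp only [coeff_C_mul, coeff_X_pow, mul_ite, mul_one, mul_zero]
    rw [Finset.sum_ite_eq (Finset.range e) j c]
    simp only [Finset.mem_range]
  refine ⟨f, fun j => ?_, ?_, ?_⟩
  · rw [hfc]
    split_ifs
    · exact ⟨hc j, hc1 j⟩
    · exact ⟨zero_mem _, by rw [L.zero]; exact zero_le_one⟩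
  · by_contra hcon
    rw [not_lt] at hcon
    have h1 : f.leadingCoeff = 0 := by
      rw [leadingCoeff, hfc, if_neg (not_lt.2 hcon)]
    have h2 : f = 0 := leadingCoeff_eq_zero.1 h1
    rw [h2, natDegree_zero] at hcon
    exact he0 (Nat.le_zero.1 hcon)
  · have hle : ∀ n : ℕ, L.nm (x - f.eval π) ≤ L.nm (L.p : Ω) ^ n := by
      intro n
      have hpn : 0 ≤ L.nm (L.p : Ω) ^ n := pow_nonneg (L.nonneg _) n
      have h1 : x - f.eval π = (L.p : Ω) ^ n * (y n).1 - (f - g n).eval π := by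
        conv_lhs => rw [hg n]
        rw [eval_sub]
        ring
      rw [h1]
      refine (L.sub _ _).trans (max_le ?_ ?_)
      · rw [L.mul, L.pow]
        exact mul_le_of_le_one_right hpn (y n).2.2
      · rw [eval_eq_sum_range]
        refine L.sum_le _ _ hpn fun j _ => ?_
        rw [L.mul, L.pow, coeff_sub, hfc]
        have h2 : L.nm π ^ j ≤ 1 := pow_le_one₀ (L.nonneg _) h.lt.le
        have h3 : L.nm ((if j < e then c j else 0) - (g n).coeff j) ≤ L.nm (L.p : Ω) ^ n := by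
          split_ifs with hj
          · exact hcl j n
          · rw [hgd n j (not_lt.1 hj), sub_self, L.zero]
            exact hpn
        exact (mul_le_of_le_one_right (L.nonneg _) h2).trans h3
    by_contra hne
    have hpos : 0 < L.nm (x - f.eval π) := L.pos fun h1 => hne (sub_eq_zero.1 h1).symm
    obtain ⟨n, hn⟩ := exists_pow_lt_of_lt_one hpos L.lt
    exact absurd (hle n) (not_le.2 hn)

/-- **Existence.** Proof: `π = z - d`, `nm π ^ e = nm p` (`Uf.val`). `gen`: `tm_gen` composed with `X - d`. `m` is the minimal polynomial of `z` over `Ur ⊥ N`: it has degree `≤ e` by `gen` for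
`π ^ e` and `≥ e` by `tm_indep`; the same for `Ur ⊥ (N D)` and `Ur M (N D)` (`rf_ur`, `Uf.ur`), so it is the minimal polynomial over `Ur ⊥ (N D)`; its roots are the conjugates `γ z`,
`nm (γ z - d) = nm π`: `val`, `red`. `fld`: a number of `M` is a quotient of integral numbers `f(z)`. -/
theorem exists_tm {M : IntermediateField K Ω} [FiniteDimensional K M] {N : ℕ} (hM : L.Rf M N)
    {d z : Ω} (hd : d ∈ L.Ur ⊥ N) (hd1 : L.nm d ≤ 1) (h : L.Uf M (z - d)) :
    ∃ e m, L.Tm M N d z e m := by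
  have hac : IsAlgClosed Ω := IsAlgClosure.isAlgClosed K
  have hΩ : CharZero Ω := charZero_of_injective_algebraMap (algebraMap K Ω).injective
  have hp0 : 0 < L.nm (L.p : Ω) := L.p_pos
  obtain ⟨π, hπ⟩ : ∃ π : Ω, π = z - d := ⟨_, rfl⟩
  rw [← hπ] at h
  have hz : z = π + d := by
    rw [hπ, sub_add_cancel]
  -- the ramification index
  obtain ⟨n, hn⟩ := h.val (_root_.natCast_mem M L.p) (Nat.cast_ne_zero.2 L.pp.ne_zero)
  have hn0 : 0 < n := by
    by_contra hn0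
    have h1 : 1 ≤ L.nm π ^ n := one_le_zpow_of_nonpos₀ h.pos h.lt.le (by omega)
    rw [← hn] at h1
    exact absurd L.lt (not_lt.2 h1)
  obtain ⟨e, rfl⟩ : ∃ e : ℕ, n = e := ⟨n.toNat, (Int.toNat_of_nonneg hn0.le).symm⟩
  rw [zpow_natCast] at hn
  have he : L.nm π ^ e = L.nm (L.p : Ω) := hn.symm
  have he0 : e ≠ 0 := by
    rintro rfl
    exact lt_irrefl _ hn0
  -- independence
  have hind : ∀ D ≠ 0, ∀ g : Polynomial Ω, (∀ i, g.coeff i ∈ L.Ur ⊥ (N * D)) →
      g.natDegree < e → g.eval π = 0 → g = 0 := fun D hD g hg hg1 hg2 =>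
    tm_indep (mul_ne_zero hM.ne hD) h he hg hg1 hg2
  have hUD : ∀ D : ℕ, L.Ur (⊥ : IntermediateField K Ω) N ≤ L.Ur ⊥ (N * D) := fun D =>
    ur_dvd ⊥ (dvd_mul_right N D)
  -- the polynomial
  obtain ⟨f, hf, hfd, hf0⟩ := tm_gen hM h he (pow_mem h.mem e)
    (by rw [L.pow]; exact pow_le_one₀ h.pos.le h.lt.le)
  have hXd : L.Ip (L.Ur ⊥ N) (X - C d : Polynomial Ω) := Ip.X.sub (Ip.C hd hd1)
  have hm₀ : (X ^ e - f : Polynomial Ω).Monic := by
    refine (monic_X_pow e).sub_of_left ?_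
    rw [degree_X_pow]
    exact degree_le_natDegree.trans_lt (by exact_mod_cast hfd)
  have hm₀d : (X ^ e - f : Polynomial Ω).natDegree = e := by
    rw [natDegree_sub_eq_left_of_natDegree_lt (by rw [natDegree_X_pow]; exact hfd),
      natDegree_X_pow]
  obtain ⟨m, hmdef⟩ : ∃ m : Polynomial Ω, m = (X ^ e - f).comp (X - C d) := ⟨_, rfl⟩
  have hXd1 : (X - C d : Polynomial Ω).natDegree ≠ 0 := by
    rw [natDegree_X_sub_C]
    exact one_ne_zero
  have hm : m.Monic := by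
    rw [hmdef]
    exact hm₀.comp (monic_X_sub_C d) hXd1
  have hdeg : m.natDegree = e := by
    rw [hmdef, natDegree_comp, natDegree_X_sub_C, mul_one, hm₀d]
  have hip : L.Ip (L.Ur ⊥ N) m := by
    rw [hmdef]
    exact tme_comp ((Ip.X.pow e).sub hf) hXd
  have hroot : m.eval z = 0 := by
    have h1 : (X - C d : Polynomial Ω).eval z = π := by
      rw [eval_sub, eval_X, eval_C, hπ]
    rw [hmdef, eval_comp, h1, eval_sub, eval_pow, eval_X, hf0, sub_self]
  have hdvd : ∀ D ≠ 0, ∀ f : Polynomial Ω, (∀ i, f.coeff i ∈ L.Ur ⊥ (N * D)) → f.eval z = 0 →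
      m ∣ f := by
    intro D hD g hg hg0
    exact tme_dvd (hUD D hd) (hind D hD) he0 hm hdeg (fun i => hUD D (hip i).1)
      (by rw [← hz]; exact hroot) hg (by rw [← hz]; exact hg0)
  have hconj : ∀ D ≠ 0, ∀ x, m.eval x = 0 → ∃ γ ∈ (L.Ur ⊥ (N * D)).fixingSubgroup, x = γ z :=
    fun D hD x hx => tme_conj (hdvd D hD) hx
  have hN1 : ∀ γ : Ω ≃ₐ[K] Ω, γ ∈ (L.Ur ⊥ (N * 1)).fixingSubgroup →
      γ ∈ (L.Ur ⊥ N).fixingSubgroup := fun γ hγ => by rwa [mul_one] at hγ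
  -- the distances of the roots
  have hdist : ∀ x ∈ m.roots, L.nm (d - x) = L.nm π := by
    intro x hx
    obtain ⟨γ, hγ, rfl⟩ := hconj 1 one_ne_zero x (isRoot_of_mem_roots hx)
    have h1 : γ d = d := (IntermediateField.mem_fixingSubgroup_iff _ γ).1 (hN1 γ hγ) d hd
    rw [L.sub_comm, hπ, ← L.act γ (z - d), map_sub, h1]
  have hsp : m.Splits := IsAlgClosed.splits m
  have hcard : Multiset.card m.roots = e := by
    rw [← hsp.natDegree_eq_card_roots, hdeg]
  have hprod : m = (m.roots.map fun x => X - C x).prod := hsp.eq_prod_roots_of_monic hm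
  refine ⟨e, m, ⟨he0, hm, hdeg, hip, hroot, ?_, ?_, hconj, hdvd, ?_, ?_, ?_⟩⟩
  · obtain ⟨δ, hδ⟩ := L.hv_of hd1
    have h1 := (tme_prod hδ h.lt m.roots hdist).2
    rw [← hprod, hcard, he] at h1
    exact h1
  · intro δ hδ
    have h1 := (tme_prod hδ h.lt m.roots hdist).1
    rw [← hprod, hcard] at h1
    exact h1
  · intro x hx hx'
    obtain ⟨γ, hγ, rfl⟩ := hconj 1 one_ne_zero x hx
    have h1 : m ∣ derivative m := by
      refine hdvd 1 one_ne_zero _ (fun i => ?_) ?_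
      · rw [mul_one]
        exact (hip.der i).1
      · have h2 : ∀ i, γ ((derivative m).coeff i) = (derivative m).coeff i := fun i =>
          (IntermediateField.mem_fixingSubgroup_iff _ γ).1 (hN1 γ hγ) _ (hip.der i).1
        have h3 : γ ((derivative m).eval z) = (derivative m).eval (γ z) := by
          rw [eval_eq_sum_range, eval_eq_sum_range, map_sum]
          exact Finset.sum_congr rfl fun i _ => by rw [map_mul, map_pow, h2]
        rw [hx'] at h3
        exact (map_eq_zero γ).1 h3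
    have h2 : (derivative m).natDegree < m.natDegree :=
      natDegree_derivative_lt (by rw [hdeg]; exact he0)
    have h3 : derivative m = 0 := eq_zero_of_dvd_of_natDegree_lt h1 h2
    rw [derivative_eq_zero, hdeg] at h3
    exact he0 h3
  · intro x hx hx1
    obtain ⟨g, hg, hgd, hg0⟩ := tm_gen hM h he hx hx1
    refine ⟨g.comp (X - C d), tme_comp hg hXd, ?_, ?_⟩
    · rw [natDegree_comp, natDegree_X_sub_C, mul_one]
      exact hgd
    · rw [eval_comp, eval_sub, eval_X, eval_C, ← hπ, hg0]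
  · intro D hD γ hγ hγz
    have hfx : ∀ y ∈ L.Ur (⊥ : IntermediateField K Ω) (N * D), γ y = y :=
      (IntermediateField.mem_fixingSubgroup_iff _ γ).1 hγ
    have hint : ∀ x ∈ M, L.nm x ≤ 1 → γ x = x := by
      intro x hx hx1
      obtain ⟨g, hg, -, rfl⟩ := tm_gen hM h he hx hx1
      have hγπ : γ π = π := by
        rw [hπ, map_sub, hγz, hfx d (hUD D hd)]
      rw [eval_eq_sum_range, map_sum]
      exact Finset.sum_congr rfl fun i _ => by
        rw [map_mul, map_pow, hγπ, hfx _ (hUD D (hg i).1)]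
    have hγM : γ ∈ M.fixingSubgroup := by
      rw [IntermediateField.mem_fixingSubgroup_iff]
      intro x hx
      rcases le_total (L.nm x) 1 with h1 | h1
      · exact hint x hx h1
      · have h2 := hint x⁻¹ (inv_mem hx) (by rw [L.inv]; exact inv_le_one_of_one_le₀ h1)
        rw [map_inv₀] at h2
        exact inv_injective h2
    rw [ur_fix hγM]
    intro x hx
    exact hfx x (te_ur hx)

omit [CharZero K] [IsAlgClosure K Ω] in
/-- The norm of a square root of a unit. -/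
private theorem eps_nm {x ε : Ω} (h : L.nm ε = 1) (hx : x ^ 2 = ε) : L.nm x = 1 := by
  have h1 : L.nm x ^ 2 = 1 := by rw [← L.pow, hx, h]
  have h2 := L.nonneg x
  nlinarith [sq_nonneg (L.nm x - 1)]

private theorem eps_two {N : ℕ} (hN : N ≠ 0) (h2 : L.p = 2) {x : Ω} (hx : x ∈ L.Ur ⊥ N)
    (hx2 : x ^ 2 = -1) : False := by
  have h1 : L.nm x = 1 := eps_nm (by rw [L.neg, L.one]) hx2
  have h3 : (1 + x) ^ 2 = 2 * x := by linear_combination hx2
  have hp := L.p_pos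
  have hlt := L.lt
  have h4 : L.nm (1 + x) ^ 2 = L.nm (L.p : Ω) := by
    rw [← L.pow, h3, L.mul, h1, mul_one, h2, Nat.cast_ofNat]
  have h5 : (1 + x) ≠ 0 := by
    intro h
    rw [h, L.zero] at h4
    rw [← h4] at hp
    norm_num at hp
  obtain ⟨n, hn⟩ := ur_unr hN (add_mem (one_mem _) hx) h5
  rw [hn, ← zpow_natCast, ← zpow_mul] at h4
  have h6 : L.nm (L.p : Ω) ^ (n * (2 : ℕ)) = L.nm (L.p : Ω) ^ (1 : ℤ) := by
    rw [h4, zpow_one]
  have h7 := (zpow_right_injective₀ hp hlt.ne) h6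
  push_cast at h7
  omega

/-- The quotient `(p^(ND) - 1)/(p^N - 1)` is odd. -/
private theorem eps_odd {p N D k : ℕ} (hp : Odd p) (hp1 : 1 < p) (hN : N ≠ 0) (hD : Odd D)
    (h : 2 * ((p ^ N - 1) * k) = p ^ (N * D) - 1) : False := by
  have hP1 : 1 < p ^ N := Nat.one_lt_pow hN hp1
  have hPo : Odd (p ^ N) := hp.pow
  rw [pow_mul] at h
  generalize p ^ N = P at *
  have h1 : ∑ i ∈ Finset.range D, P ^ i = 2 * k := by
    have h2 := Nat.geomSum_eq (m := P) hP1 D
    rw [h2, ← h]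
    rw [show 2 * ((P - 1) * k) = (P - 1) * (2 * k) by ring]
    exact Nat.mul_div_cancel_left _ (by omega)
  have h3 : Odd (∑ i ∈ Finset.range D, P ^ i) := by
    rw [Finset.odd_sum_iff_odd_card_odd]
    have : (Finset.range D).filter (fun i => Odd (P ^ i)) = Finset.range D := by
      refine Finset.filter_true_of_mem fun i _ => hPo.pow
    rw [this, Finset.card_range]
    exact hD
  rw [h1] at h3
  exact (Nat.not_even_iff_odd.2 h3) (even_two_mul k)

/-- A unit which is not a square. Proof: `p = 2`: `ε = - 1`: `(1 + i)² = 2 i`, but `nm 2` is not a square in the values of `Ur ⊥ (N D)` (`ur_unr`). `p` odd: a generator of the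
cyclic group `Te N - 0` of order `p ^ N - 1`: a square root in `Ur ⊥ (N D)` is congruent to a `z' ∈ Te N'`, `z'² = ε` (`te_inj`), `z' ∈ Ur ⊥ (N D)`, ... ; choose `N'` a multiple of `N D` and use that an
automorphism over `Ur ⊥ (N D)` fixes `z'`: `z' ^ (p ^ (N D) - 1) = 1` if the residues of `Ur ⊥ (N D)` are in `Te (N D)` (`Rf`). `ε ^ ((p ^ (N D) - 1) / 2) = - 1` since
`(p ^ (N D) - 1) / (p ^ N - 1)` is odd. -/
theorem exists_eps {N : ℕ} (hN : L.Rf (L.Ur ⊥ N) N) :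
    ∃ ε ∈ L.Ur ⊥ N, L.nm ε = 1 ∧ ∀ D : ℕ, Odd D → ∀ x ∈ L.Ur ⊥ (N * D), x ^ 2 ≠ ε := by
  have hN0 : N ≠ 0 := hN.ne
  by_cases h2 : L.p = 2
  · refine ⟨-1, neg_mem (one_mem _), by rw [L.neg, L.one], ?_⟩
    intro D hD x hx hx2
    have hD0 : D ≠ 0 := by
      rintro rfl
      exact absurd hD (by decide)
    exact eps_two (mul_ne_zero hN0 hD0) h2 hx hx2
  have hΩ : IsAlgClosed Ω := IsAlgClosure.isAlgClosed K
  have hc : CharZero Ω := charZero_of_injective_algebraMap (algebraMap K Ω).injective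
  have hp1 : 1 < L.p := L.pp.one_lt
  have hP1 : 1 < L.p ^ N := Nat.one_lt_pow hN0 hp1
  have hne : L.p ^ N - 1 ≠ 0 := by omega
  have hnz : NeZero ((L.p ^ N - 1 : ℕ) : Ω) := ⟨Nat.cast_ne_zero.2 hne⟩
  obtain ⟨ζ, hζ⟩ := HasEnoughRootsOfUnity.exists_primitiveRoot Ω (L.p ^ N - 1)
  have hζT : ζ ∈ L.Te N := by
    change ζ ^ L.p ^ N = ζ
    have h3 : L.p ^ N = (L.p ^ N - 1) + 1 := by omega
    rw [h3, pow_succ, hζ.pow_eq_one, one_mul]
  have hζ1 : L.nm ζ = 1 := by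
    have h3 : L.nm ζ ^ (L.p ^ N - 1) = 1 := by rw [← L.pow, hζ.pow_eq_one, L.one]
    exact (pow_eq_one_iff_of_nonneg (L.nonneg _) hne).1 h3
  refine ⟨ζ, te_ur hζT, hζ1, ?_⟩
  intro D hD x hx hx2
  have hD0 : D ≠ 0 := by
    rintro rfl
    exact absurd hD (by decide)
  have hND : N * D ≠ 0 := mul_ne_zero hN0 hD0
  have hfd : FiniteDimensional K (L.Ur ⊥ N) := ur_fin ⊥ N hN0
  have h3 := rf_ur hN hD0
  rw [ur_ur ⊥ (Dvd.intro D rfl)] at h3
  have hx1 : L.nm x = 1 := eps_nm hζ1 hx2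
  obtain ⟨z, hz, hzx⟩ := h3.res x hx hx1.le
  have hz1 : L.nm z ≤ 1 := te_int hND hz
  have hzz : z ^ 2 = ζ := by
    refine te_inj hND ?_ (te_dvd (Dvd.intro D rfl) hζT) ?_
    · rw [sq]
      exact te_mul hz hz
    · rw [← hx2]
      have h4 : z ^ 2 - x ^ 2 = -(x - z) * (z + x) := by ring
      rw [h4, L.mul, L.neg]
      have h5 : L.nm (z + x) ≤ 1 := (L.add z x).trans (max_le hz1 hx1.le)
      exact mul_lt_one_of_nonneg_of_lt_one_left (L.nonneg _) hzx h5
  have hζ0 : ζ ≠ 0 := L.ne_zero (by rw [hζ1]; exact zero_lt_one)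
  have hz0 : z ≠ 0 := by
    rintro rfl
    exact hζ0 (by rw [← hzz]; ring)
  have hPD1 : 1 < L.p ^ (N * D) := Nat.one_lt_pow hND hp1
  have hzT : z ^ (L.p ^ (N * D) - 1) = 1 := by
    have h4 : z ^ L.p ^ (N * D) = z := hz
    have h5 : L.p ^ (N * D) = (L.p ^ (N * D) - 1) + 1 := by omega
    rw [h5, pow_succ] at h4
    exact mul_right_cancel₀ hz0 (by rw [h4, one_mul])
  have hpo : Odd L.p := L.pp.odd_of_ne_two h2
  have hev : Even (L.p ^ (N * D) - 1) := by
    obtain ⟨m, hm⟩ := hpo.pow (n := N * D)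
    exact ⟨m, by omega⟩
  obtain ⟨m, hm⟩ := hev
  have hζm : ζ ^ m = 1 := by
    rw [← hzz, ← pow_mul, two_mul, ← hm]
    exact hzT
  obtain ⟨k, hk⟩ := hζ.dvd_of_pow_eq_one _ hζm
  refine eps_odd (k := k) hpo hp1 hN0 hD ?_
  rw [hm, ← hk, two_mul]

/-- Representatives outside a finite set of residues. -/
theorem exists_res (s : Finset L.κ) {N l : ℕ} (hN : N ≠ 0) (hl : 1 < l) :
    ∃ j : ℕ, ∃ w ∈ L.Te (N * l ^ j), ∃ r, L.rs.Hv w r ∧ r ∉ s := by
  classical
  have hac : IsAlgClosed Ω := IsAlgClosure.isAlgClosed K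
  have hcz : CharZero Ω := charZero_of_injective_algebraMap (algebraMap K Ω).injective
  obtain ⟨j, hj⟩ : ∃ j, j = s.card := ⟨_, rfl⟩
  obtain ⟨m, hm⟩ : ∃ m, m = N * l ^ j := ⟨_, rfl⟩
  have hm1 : j < m := by
    rw [hm]
    exact (Nat.lt_pow_self hl).trans_le (Nat.le_mul_of_pos_left _ (Nat.pos_of_ne_zero hN))
  have hm0 : m ≠ 0 := by omega
  have hpm : m < L.p ^ m := Nat.lt_pow_self L.pp.one_lt
  obtain ⟨ζ, hζ⟩ : ∃ ζ : Ω, IsPrimitiveRoot ζ (L.p ^ m - 1) := by
    have h2 : NeZero ((L.p ^ m - 1 : ℕ) : Ω) := ⟨Nat.cast_ne_zero.2 (by omega)⟩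
    exact HasEnoughRootsOfUnity.exists_primitiveRoot Ω (L.p ^ m - 1)
  have hT : ∀ i : ℕ, ζ ^ i ∈ L.Te m := by
    intro i
    change (ζ ^ i) ^ L.p ^ m = ζ ^ i
    have h4 : L.p ^ m = L.p ^ m - 1 + 1 := by omega
    have h5 : (ζ ^ i) ^ (L.p ^ m - 1) = 1 := by
      rw [← pow_mul, mul_comm, pow_mul, hζ.pow_eq_one, one_pow]
    rw [h4, pow_succ, h5, one_mul]
  by_contra hcon
  push Not at hcon
  have h1 : ∀ i ∈ Finset.range (L.p ^ m - 1), L.rr (ζ ^ i) ∈ s := by
    intro i _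
    have h2 := hT i
    rw [hm] at h2
    exact hcon j _ h2 _ (L.hv_rr (te_int hm0 (hT i)))
  have h2 : Set.InjOn (fun i => L.rr (ζ ^ i)) (Finset.range (L.p ^ m - 1)) := by
    intro a ha b hb hab
    have h3 := (L.hv_sub (L.hv_rr (te_int hm0 (hT a))) (L.hv_rr (te_int hm0 (hT b)))).1 hab
    have h4 := te_inj hm0 (hT a) (hT b) h3
    exact hζ.pow_inj (Finset.mem_range.1 ha) (Finset.mem_range.1 hb) h4
  have h3 := Finset.card_le_card_of_injOn _ h1 h2
  rw [Finset.card_range] at h3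
  omega

/-- A simple root modulo `m` is in an unramified extension. Proof: `te_rep`: `z ≡ ζ ∈ Te N₁`, `N' = N N₁`; `hens` over `Ur ⊥ N'` at `ζ` gives a root `y ≡ z`; `y = z` since `f(y) - f(z) = (y - z) (f'(z) + (y - z) ...)`. -/
theorem root_ur {N : ℕ} (hN : N ≠ 0) {f : Polynomial Ω} (hf : L.Ip (L.Ur ⊥ N) f)
    (hm : f.Monic) {z : Ω} (hz : f.eval z = 0) (hd : L.nm ((derivative f).eval z) = 1) :
    ∃ N' ≠ 0, N ∣ N' ∧ z ∈ L.Ur ⊥ N' := by
  have hz1 : L.nm z ≤ 1 := L.root_le hm (fun i => (hf i).2) hz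
  obtain ⟨N₁, hN₁, ζ, hζ, hzζ⟩ := te_rep (L := L) hz1
  refine ⟨N * N₁, mul_ne_zero hN hN₁, dvd_mul_right N N₁, ?_⟩
  have hfd : FiniteDimensional K (L.Ur ⊥ (N * N₁)) := ur_fin ⊥ _ (mul_ne_zero hN hN₁)
  have hζM : ζ ∈ L.Ur ⊥ (N * N₁) := te_ur (te_dvd (dvd_mul_left N₁ N) hζ)
  have hfM : L.Ip (L.Ur ⊥ (N * N₁)) f := hf.mono (ur_dvd ⊥ (dvd_mul_right N N₁))
  have hun : ∀ a b : Ω, L.nm a = 1 → L.nm (a - b) < 1 → L.nm b = 1 := by
    intro a b ha hab
    have hb : b ≠ 0 := by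
      rintro rfl
      rw [sub_zero, ha] at hab
      exact lt_irrefl _ hab
    have ha0 : a ≠ 0 := L.ne_zero (by rw [ha]; exact zero_lt_one)
    have e : b = a * (1 + -(a - b) / a) := by
      field_simp
      ring
    rw [e, L.mul, ha, one_mul]
    refine L.one_add ?_
    rw [div_eq_mul_inv, L.mul, L.neg, L.inv, ha, inv_one, mul_one]
    exact hab
  have h1 : L.nm (f.eval ζ) < 1 := by
    have h2 := hf.close hz1 hzζ
    rw [hz, zero_sub, L.neg] at h2
    exact h2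
  have h2 : L.nm ((derivative f).eval ζ) = 1 := hun _ _ hd (hf.der.close hz1 hzζ)
  obtain ⟨y, hy, hy0, hyζ⟩ := L.hens _ hfd f hm hfM ζ hζM (te_int hN₁ hζ) h1 h2
  have hzy : L.nm (z - y) < 1 := by
    have e : z - y = (z - ζ) - (y - ζ) := by ring
    rw [e]
    exact (L.sub _ _).trans_lt (max_lt hzζ hyζ)
  have hft : L.Ip ⊤ f := hf.mono le_top
  have hgt : L.Ip ⊤ (X - C z) := Ip.X.sub (Ip.C IntermediateField.mem_top hz1)
  obtain ⟨q, hq, e⟩ := hft.dvd hgt (monic_X_sub_C z) (dvd_iff_isRoot.2 hz)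
  have hqz : q.eval z = (derivative f).eval z := by
    rw [e, derivative_mul, eval_add, eval_mul, eval_mul, derivative_sub, derivative_X,
      derivative_C, sub_zero, eval_one, one_mul, eval_sub, eval_X, eval_C, sub_self, zero_mul,
      add_zero]
  have hqy : L.nm (q.eval y) = 1 := hun _ _ (by rw [hqz]; exact hd) (hq.close hz1 hzy)
  have h3 : (y - z) * q.eval y = 0 := by
    rw [← hy0, e, eval_mul, eval_sub, eval_X, eval_C]
  rcases mul_eq_zero.1 h3 with h4 | h4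
  · rw [← sub_eq_zero.1 h4]
    exact hy
  · rw [h4, L.zero] at hqy
    exact absurd hqy zero_ne_one

end Ld

end PE
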