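import Mathlib

/-! Euler's formula. -/

namespace PE

/-- Proof: `x ^ (n - 1)` is its own Lagrange interpolation polynomial at the `n` points `v i`; compare the coefficients of
`x ^ (n - 1)`. -/
theorem euler {L ι : Type} [Field L] [DecidableEq ι] (s : Finset ι) (v : ι → L)
    (hv : Set.InjOn v s) (hs : s.Nonempty) :
    ∑ i ∈ s, v i ^ (s.card - 1) / ∏ j ∈ s.erase i, (v i - v j) = 1 := by
  have hc : 0 < s.card := hs.card_pos
  have hd : (Polynomial.X ^ (s.card - 1) : Polynomial L).degree < s.card := by
    rw [Polynomial.degree_X_pow]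
    exact_mod_cast Nat.sub_lt hc one_pos
  have h := Lagrange.coeff_eq_sum hv hd
  rw [Polynomial.coeff_X_pow_self] at h
  simp only [Polynomial.eval_pow, Polynomial.eval_X] at h
  exact h.symm

end PE
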