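import Pool.Agent.Lib.MP_f80667_ag.Pe.Lo

/-! The norm of the parameter of a point `b` with `2 b` of norm `nm 2` (supersingular reduction, `p = 2`). -/

open ZC BE Polynomial IntermediateField

namespace PE

/-- The doubling formula. -/
theorem wt_alg {R : Type} [CommRing R] (x y l A1 A2 A3 A4 A6 : R)
    (h1 : l * (y + y + A1 * x + A3) = x ^ 2 + x * x + x ^ 2 + A2 * (x + x) + A4 - A1 * y)
    (hE : y ^ 2 + A1 * x * y + A3 * y = x ^ 3 + A2 * x ^ 2 + A4 * x + A6) :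
    (l ^ 2 + A1 * l - A2 - x - x) *
      (4 * x ^ 3 + (A1 ^ 2 + 4 * A2) * x ^ 2 + 2 * (2 * A4 + A1 * A3) * x + (A3 ^ 2 + 4 * A6)) =
    x ^ 4 - (2 * A4 + A1 * A3) * x ^ 2 - 2 * (A3 ^ 2 + 4 * A6) * x -
      (A1 ^ 2 * A6 + 4 * A2 * A6 - A1 * A3 * A4 + A2 * A3 ^ 2 - A4 ^ 2) := by
  linear_combination (l * (y + y + A1 * x + A3) + (x ^ 2 + x * x + x ^ 2 + A2 * (x + x) + A4 -
    A1 * y) + A1 * (y + y + A1 * x + A3)) * h1 +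
    (-(A1 ^ 2 + 4 * A2 + 8 * x) - 4 * (l ^ 2 + A1 * l - A2 - x - x)) * hE

variable {K Ω : Type} [Field K] [Field Ω] [Algebra K Ω]

section lf

variable (L : Lf K Ω)

theorem wt_mul_le {x y : Ω} {a b : ℝ} (ha : 0 ≤ a) (hx : L.nm x ≤ a) (hy : L.nm y ≤ b) :
    L.nm (x * y) ≤ a * b := by
  rw [L.mul]
  exact mul_le_mul hx hy (L.nonneg _) ha

theorem wt_mul_one {x y : Ω} {a : ℝ} (ha : 0 ≤ a) (hx : L.nm x ≤ a) (hy : L.nm y ≤ 1) :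
    L.nm (x * y) ≤ a := by
  have h := wt_mul_le L ha hx hy
  rwa [mul_one] at h

theorem wt_add_le {x y : Ω} {a : ℝ} (hx : L.nm x ≤ a) (hy : L.nm y ≤ a) : L.nm (x + y) ≤ a :=
  (L.add x y).trans (max_le hx hy)

theorem wt_sub_le {x y : Ω} {a : ℝ} (hx : L.nm x ≤ a) (hy : L.nm y ≤ a) : L.nm (x - y) ≤ a :=
  (L.sub x y).trans (max_le hx hy)

/-- The norms of the coefficients. -/
theorem wt_coef {e : ℝ} (he : L.nm 2 = e) (he1 : e < 1) {A1 A2 A3 A4 A6 : Ω}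
    (h1 : L.nm A1 ≤ e) (h2 : L.nm A2 ≤ 1) (h3 : L.nm A3 ≤ 1) (h4 : L.nm A4 ≤ 1)
    (h6 : L.nm A6 ≤ 1)
    (hD : L.nm (-(A1 ^ 2 + 4 * A2) ^ 2 * (A1 ^ 2 * A6 + 4 * A2 * A6 - A1 * A3 * A4 + A2 * A3 ^ 2 -
      A4 ^ 2) - 8 * (2 * A4 + A1 * A3) ^ 3 - 27 * (A3 ^ 2 + 4 * A6) ^ 2 +
      9 * (A1 ^ 2 + 4 * A2) * (2 * A4 + A1 * A3) * (A3 ^ 2 + 4 * A6)) = 1) :
    L.nm (A1 ^ 2 + 4 * A2) ≤ e ^ 2 ∧ L.nm (2 * A4 + A1 * A3) ≤ e ∧
      L.nm (A3 ^ 2 + 4 * A6) = 1 ∧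
      L.nm (A1 ^ 2 * A6 + 4 * A2 * A6 - A1 * A3 * A4 + A2 * A3 ^ 2 - A4 ^ 2) ≤ 1 := by
  have he0 : 0 ≤ e := he ▸ L.nonneg _
  have e4 : L.nm 4 = e ^ 2 := by
    have h : (4 : Ω) = 2 * 2 := by norm_num
    rw [h, L.mul, he, sq]
  have hee : e ^ 2 ≤ e := by nlinarith
  have h1' : L.nm A1 ≤ 1 := h1.trans he1.le
  have hB2 : L.nm (A1 ^ 2 + 4 * A2) ≤ e ^ 2 := by
    refine wt_add_le L ?_ ?_
    · rw [L.pow]
      exact pow_le_pow_left₀ (L.nonneg _) h1 2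
    · exact wt_mul_one L (sq_nonneg e) e4.le h2
  have hB4 : L.nm (2 * A4 + A1 * A3) ≤ e :=
    wt_add_le L (wt_mul_one L he0 he.le h4) (wt_mul_one L he0 h1 h3)
  have p3 : L.nm (A3 ^ 2) ≤ 1 := by
    rw [L.pow]
    exact pow_le_one₀ (L.nonneg _) h3
  have p4 : L.nm (A4 ^ 2) ≤ 1 := by
    rw [L.pow]
    exact pow_le_one₀ (L.nonneg _) h4
  have p1 : L.nm (A1 ^ 2) ≤ 1 := by
    rw [L.pow]
    exact pow_le_one₀ (L.nonneg _) h1'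
  have q4 : L.nm (4 : Ω) ≤ 1 := by
    rw [e4]
    exact pow_le_one₀ he0 he1.le
  have hB6 : L.nm (A3 ^ 2 + 4 * A6) ≤ 1 :=
    wt_add_le L p3 (wt_mul_one L zero_le_one q4 h6)
  have hB8 : L.nm (A1 ^ 2 * A6 + 4 * A2 * A6 - A1 * A3 * A4 + A2 * A3 ^ 2 - A4 ^ 2) ≤ 1 := by
    refine wt_sub_le L (wt_add_le L (wt_sub_le L (wt_add_le L ?_ ?_) ?_) ?_) p4
    · exact wt_mul_one L zero_le_one p1 h6
    · exact wt_mul_one L zero_le_one (wt_mul_one L zero_le_one q4 h2) h6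
    · exact wt_mul_one L zero_le_one (wt_mul_one L zero_le_one h1' h3) h4
    · exact wt_mul_one L zero_le_one h2 p3
  refine ⟨hB2, hB4, ?_, hB8⟩
  by_contra hne
  have hlt : L.nm (A3 ^ 2 + 4 * A6) < 1 := lt_of_le_of_ne hB6 hne
  have t1 : L.nm (-(A1 ^ 2 + 4 * A2) ^ 2 * (A1 ^ 2 * A6 + 4 * A2 * A6 - A1 * A3 * A4 +
      A2 * A3 ^ 2 - A4 ^ 2)) ≤ e := by
    refine wt_mul_one L he0 ?_ hB8
    rw [L.neg, L.pow]
    calc L.nm (A1 ^ 2 + 4 * A2) ^ 2 ≤ (e ^ 2) ^ 2 := pow_le_pow_left₀ (L.nonneg _) hB2 2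
      _ ≤ e ^ 2 := by nlinarith [sq_nonneg e]
      _ ≤ e := hee
  have t2 : L.nm (8 * (2 * A4 + A1 * A3) ^ 3) ≤ e := by
    have h : (8 : Ω) * (2 * A4 + A1 * A3) ^ 3 = 2 * (4 * (2 * A4 + A1 * A3) ^ 3) := by ring
    rw [h]
    refine wt_mul_one L he0 he.le (wt_mul_one L zero_le_one q4 ?_)
    rw [L.pow]
    exact pow_le_one₀ (L.nonneg _) (hB4.trans he1.le)
  have t3 : L.nm (27 * (A3 ^ 2 + 4 * A6) ^ 2) ≤ L.nm (A3 ^ 2 + 4 * A6) := by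
    have h27 : L.nm (27 : Ω) ≤ 1 := by exact_mod_cast L.nat_le 27
    rw [L.mul, L.pow]
    have h0 := L.nonneg (A3 ^ 2 + 4 * A6)
    nlinarith [L.nonneg (27 : Ω), mul_nonneg h0 h0]
  have t4 : L.nm (9 * (A1 ^ 2 + 4 * A2) * (2 * A4 + A1 * A3) * (A3 ^ 2 + 4 * A6)) ≤ e := by
    have h9 : L.nm (9 : Ω) ≤ 1 := by exact_mod_cast L.nat_le 9
    have h : (9 : Ω) * (A1 ^ 2 + 4 * A2) * (2 * A4 + A1 * A3) * (A3 ^ 2 + 4 * A6) =
      (A1 ^ 2 + 4 * A2) * (9 * (2 * A4 + A1 * A3) * (A3 ^ 2 + 4 * A6)) := by ring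
    rw [h]
    refine wt_mul_one L he0 (hB2.trans hee) (wt_mul_one L zero_le_one
      (wt_mul_one L zero_le_one h9 (hB4.trans he1.le)) hB6)
  have hmax : L.nm (-(A1 ^ 2 + 4 * A2) ^ 2 * (A1 ^ 2 * A6 + 4 * A2 * A6 - A1 * A3 * A4 +
      A2 * A3 ^ 2 - A4 ^ 2) - 8 * (2 * A4 + A1 * A3) ^ 3 - 27 * (A3 ^ 2 + 4 * A6) ^ 2 +
      9 * (A1 ^ 2 + 4 * A2) * (2 * A4 + A1 * A3) * (A3 ^ 2 + 4 * A6)) ≤
      max e (L.nm (A3 ^ 2 + 4 * A6)) := by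
    refine wt_add_le L (wt_sub_le L (wt_sub_le L ?_ ?_) ?_) ?_
    · exact t1.trans (le_max_left _ _)
    · exact t2.trans (le_max_left _ _)
    · exact t3.trans (le_max_right _ _)
    · exact t4.trans (le_max_left _ _)
  rw [hD] at hmax
  exact absurd hmax (not_le.2 (max_lt he1 hlt))

/-- The norm of `x`. -/
theorem wt_norm {e : ℝ} (he : L.nm 2 = e) (he0 : 0 < e) (he1 : e < 1) {x x3 B2 B4 B6 B8 : Ω}
    (h2 : L.nm B2 ≤ e ^ 2) (h4 : L.nm B4 ≤ e) (h6 : L.nm B6 = 1) (h8 : L.nm B8 ≤ 1)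
    (hx : 1 < L.nm x) (hx3 : e ^ 2 * L.nm x3 = 1)
    (h : x3 * (4 * x ^ 3 + B2 * x ^ 2 + 2 * B4 * x + B6) =
      x ^ 4 - B4 * x ^ 2 - 2 * B6 * x - B8) : e ^ 2 * L.nm x ^ 4 = 1 := by
  have e4 : L.nm (4 : Ω) = e ^ 2 := by
    have h : (4 : Ω) = 2 * 2 := by norm_num
    rw [h, L.mul, he, sq]
  have hX0 : 0 < L.nm x := zero_lt_one.trans hx
  have hX2 : L.nm x ^ 2 < L.nm x ^ 4 := pow_lt_pow_right₀ hx (by norm_num)
  have hX1 : L.nm x ≤ L.nm x ^ 2 := by nlinarith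
  -- the numerator
  have hN : L.nm (x ^ 4 - B4 * x ^ 2 - 2 * B6 * x - B8) = L.nm x ^ 4 := by
    have hr : x ^ 4 - B4 * x ^ 2 - 2 * B6 * x - B8 = (-(B4 * x ^ 2 + 2 * B6 * x + B8)) + x ^ 4 := by
      ring
    have hle : L.nm (-(B4 * x ^ 2 + 2 * B6 * x + B8)) ≤ L.nm x ^ 2 := by
      rw [L.neg]
      refine wt_add_le L (wt_add_le L ?_ ?_) ?_
      · rw [mul_comm]
        refine wt_mul_one L (sq_nonneg _) (L.pow x 2).le (h4.trans he1.le)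
      · have h26 : L.nm (2 * B6) ≤ 1 :=
          wt_mul_one L zero_le_one (he.le.trans he1.le) h6.le
        rw [mul_comm]
        exact (wt_mul_one L hX0.le le_rfl h26).trans hX1
      · exact h8.trans (one_le_pow₀ hx.le)
    rw [hr, L.add_eq (hle.trans_lt (by rw [L.pow]; exact hX2)), L.pow]
  have hD : L.nm (4 * x ^ 3 + B2 * x ^ 2 + 2 * B4 * x + B6) = e ^ 2 * L.nm x ^ 4 := by
    have h5 := congrArg L.nm h
    rw [hN, L.mul] at h5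
    have h7 : L.nm (4 * x ^ 3 + B2 * x ^ 2 + 2 * B4 * x + B6) =
        (e ^ 2 * L.nm x3) * L.nm (4 * x ^ 3 + B2 * x ^ 2 + 2 * B4 * x + B6) := by
      rw [hx3, one_mul]
    rw [h7, mul_assoc, h5]
  -- the denominator
  have k3 : L.nm (4 * x ^ 3) = e ^ 2 * L.nm x ^ 3 := by rw [L.mul, e4, L.pow]
  have k2 : L.nm (B2 * x ^ 2) ≤ e ^ 2 * L.nm x ^ 2 :=
    wt_mul_le L (sq_nonneg e) h2 (L.pow x 2).le
  have k1 : L.nm (2 * B4 * x) ≤ e ^ 2 * L.nm x ^ 2 := by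
    have h24 : L.nm (2 * B4) ≤ e ^ 2 := by
      rw [sq]
      exact wt_mul_le L he0.le he.le h4
    exact wt_mul_le L (sq_nonneg e) h24 hX1
  have hX23 : e ^ 2 * L.nm x ^ 2 < e ^ 2 * L.nm x ^ 3 :=
    mul_lt_mul_of_pos_left (pow_lt_pow_right₀ hx (by norm_num)) (by positivity)
  have hX34 : e ^ 2 * L.nm x ^ 3 < e ^ 2 * L.nm x ^ 4 :=
    mul_lt_mul_of_pos_left (pow_lt_pow_right₀ hx (by norm_num)) (by positivity)
  rcases lt_or_ge 1 (e ^ 2 * L.nm x ^ 3) with hc | hc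
  · exfalso
    have hr : 4 * x ^ 3 + B2 * x ^ 2 + 2 * B4 * x + B6 =
        (B2 * x ^ 2 + 2 * B4 * x + B6) + 4 * x ^ 3 := by ring
    have hlt : L.nm (B2 * x ^ 2 + 2 * B4 * x + B6) < L.nm (4 * x ^ 3) := by
      rw [k3]
      refine (L.add _ _).trans_lt (max_lt ((wt_add_le L k2 k1).trans_lt hX23) ?_)
      rw [h6]
      exact hc
    rw [hr, L.add_eq hlt, k3] at hD
    exact absurd hD hX34.ne
  · have hle1 : L.nm (4 * x ^ 3 + B2 * x ^ 2 + 2 * B4 * x + B6) ≤ 1 := by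
      refine wt_add_le L (wt_add_le L (wt_add_le L ?_ ?_) ?_) h6.le
      · rw [k3]
        exact hc
      · exact k2.trans (hX23.le.trans hc)
      · exact k1.trans (hX23.le.trans hc)
    rw [hD] at hle1
    have hs : e ^ 2 * L.nm x ^ 3 < 1 := hX34.trans_le hle1
    have hlt : L.nm (4 * x ^ 3 + B2 * x ^ 2 + 2 * B4 * x) < L.nm B6 := by
      rw [h6]
      refine (L.add _ _).trans_lt (max_lt ((L.add _ _).trans_lt (max_lt ?_ ?_)) ?_)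
      · rw [k3]
        exact hs
      · exact (k2.trans hX23.le).trans_lt hs
      · exact (k1.trans hX23.le).trans_lt hs
    rw [L.add_eq hlt, h6] at hD
    exact hD.symm

end lf

end PE
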