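import Pool.Agent.Lib.MP_f80667_ag.Pe.Key
import Pool.Agent.Lib.MP_f80667_ag.Pe.Lag
import Pool.Agent.Lib.MP_f80667_ag.Pe.Ap
import Pool.Agent.Lib.MP_f80667_ag.Pe.WildT

/-! The norm of the extension generated by a `p`-division point of the formal group. -/

open ZC BE Polynomial IntermediateField

namespace PE

namespace Ld

variable {F : Type} [Field F] {K Ω : Type} [Field K] [CharZero K] [Field Ω] [Algebra K Ω]
  [Algebra F K] [Algebra F Ω] [IsScalarTower F K Ω] [IsAlgClosure K Ω] {L : Ld K Ω} [L.Unr]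
  {W₁ W₂ : WeierstrassCurve F} [W₁.IsElliptic] [W₂.IsElliptic]

/-- The field generated by the parameter of a point of the formal group. -/
noncomputable def Pf (U : IntermediateField K Ω) (b : Pt W₂ Ω) : IntermediateField K Ω :=
  U ⊔ adjoin K {tp b}

theorem pf_le (U : IntermediateField K Ω) (b : Pt W₂ Ω) : U ≤ Pf U b := le_sup_left

theorem pf_fin (U : IntermediateField K Ω) [FiniteDimensional K U] (b : Pt W₂ Ω) :
    FiniteDimensional K (Pf U b) := by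
  have halg : Algebra.IsAlgebraic K Ω := IsAlgClosure.isAlgebraic
  have hfd : FiniteDimensional K (IntermediateField.adjoin K {tp b}) :=
    IntermediateField.finiteDimensional_adjoin fun z _ => (halg.isAlgebraic z).isIntegral
  unfold Pf
  infer_instance

theorem pf_fx (h : L.It W₂) (U : IntermediateField K Ω) {b : Pt W₂ Ω} (hb : L.Fm b) :
    (∀ γ ∈ U.fixingSubgroup, γ • b = b ↔ γ ∈ (Pf U b).fixingSubgroup) ∧
      (∀ γ ∈ U.fixingSubgroup, γ (tp b) = tp b ↔ γ ∈ (Pf U b).fixingSubgroup) ∧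
      Fx (Pf U b) b ∧ tp b ∈ Pf U b := by
  have ht : tp b ∈ Pf U b :=
    (le_sup_right : _ ≤ U ⊔ adjoin K {tp b}) (IntermediateField.mem_adjoin_simple_self K (tp b))
  have h2 : ∀ γ ∈ U.fixingSubgroup, γ (tp b) = tp b ↔ γ ∈ (Pf U b).fixingSubgroup := by
    intro γ hγ
    constructor
    · intro e
      unfold Pf
      rw [IntermediateField.fixingSubgroup_sup]
      refine ⟨hγ, ?_⟩
      have h3 := (IntermediateField.forall_mem_adjoin_smul_eq_self_iff K (S := {tp b}) γ).2 (by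
        intro x hx
        rw [Set.mem_singleton_iff] at hx
        rw [hx]
        exact e)
      exact (IntermediateField.mem_fixingSubgroup_iff _ γ).2 h3
    · intro e
      exact (IntermediateField.mem_fixingSubgroup_iff _ γ).1 e _ ht
  refine ⟨fun γ hγ => ?_, h2, (fm_fx h hb _).2 ht, ht⟩
  rw [← h2 γ hγ]
  constructor
  · intro e
    rw [← tp_act, e]
  · intro e
    refine fm_ext h (fm_act γ hb) hb ?_
    rw [tp_act, e]

/-! Auxiliary lemmas. -/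

private theorem wd_prod (L : Ld K Ω) {ι : Type} (s : Finset ι) (f : ι → Ω) :
    L.nm (∏ x ∈ s, f x) = ∏ x ∈ s, L.nm (f x) := by
  classical
  induction s using Finset.induction_on with
  | empty => rw [Finset.prod_empty, Finset.prod_empty, L.one]
  | insert a s ha ih => rw [Finset.prod_insert ha, Finset.prod_insert ha, L.mul, ih]

/-- The conjugates of `tp b`. -/
private theorem wd_conj [DecidableEq Ω] (h : L.It W₂) (U : IntermediateField K Ω)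
    [FiniteDimensional K U] {b : Pt W₂ Ω} (hb : L.Fm b) :
    ∃ (s₀ : Finset (Ω ≃ₐ[K] Ω)) (s : Finset Ω),
      s.card = (Pf U b).fixingSubgroup.relIndex U.fixingSubgroup ∧
      (∀ γ ∈ s₀, γ ∈ U.fixingSubgroup) ∧
      (∀ x, x ∈ s ↔ ∃ γ ∈ U.fixingSubgroup, x = γ (tp b)) ∧
      (∀ (f : Ω → Ω), ∑ γ ∈ s₀, f (γ (tp b)) = ∑ x ∈ s, f x) ∧
      ∀ (A : Type) [AddCommGroup A] [DistribMulAction (Ω ≃ₐ[K] Ω) A] (P : A),
        Nm U (Pf U b) P = ∑ γ ∈ s₀, γ • P := by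
  have hfin := pf_fin U b
  obtain ⟨s₀, h0, h1, h2, h3⟩ := nm_rep (pf_le U b)
  obtain ⟨-, h4, -, -⟩ := pf_fx h U hb
  have hinj : ∀ γ ∈ s₀, ∀ γ' ∈ s₀, γ (tp b) = γ' (tp b) → γ = γ' := by
    intro γ hγ γ' hγ' e
    have e1 : (γ⁻¹ * γ') (tp b) = tp b := by
      rw [AlgEquiv.mul_apply, ← e]
      exact γ.symm_apply_apply _
    have e2 := (h4 _ (U.fixingSubgroup.mul_mem (U.fixingSubgroup.inv_mem (h1 γ hγ))
      (h1 γ' hγ'))).1 e1
    have e3 : γ'⁻¹ * γ' ∈ (Pf U b).fixingSubgroup := by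
      rw [inv_mul_cancel]
      exact (Pf U b).fixingSubgroup.one_mem
    exact (h2 γ' (h1 γ' hγ')).unique ⟨hγ, e2⟩ ⟨hγ', e3⟩
  refine ⟨s₀, s₀.image fun γ => γ (tp b), ?_, h1, ?_, ?_, fun A _ _ P => h3 A P⟩
  · rw [← h0]
    exact Finset.card_image_of_injOn fun γ hγ γ' hγ' e => hinj γ hγ γ' hγ' e
  · intro x
    rw [Finset.mem_image]
    constructor
    · rintro ⟨γ, hγ, rfl⟩
      exact ⟨γ, h1 γ hγ, rfl⟩
    · rintro ⟨γ, hγ, rfl⟩
      obtain ⟨δ, ⟨hδ, e1⟩, -⟩ := h2 γ hγ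
      refine ⟨δ, hδ, ?_⟩
      have e2 := (h4 _ (fix_le (pf_le U b) e1)).2 e1
      rw [AlgEquiv.mul_apply] at e2
      have e3 := congrArg δ e2
      rw [← AlgEquiv.mul_apply, mul_inv_cancel, AlgEquiv.one_apply] at e3
      exact e3.symm
  · intro f
    exact (Finset.sum_image fun γ hγ γ' hγ' e => hinj γ hγ γ' hγ' e).symm

/-- The different. Let `t = tp b`, `γ_i t` the distinct conjugates of `t` over `U`. The product of the norms of the `t - γ_i t`, `γ_i t ≠ t`, is at least `nm p`. Proof: `nm (t - γ t) = nm (tp (b - γ b))` (`fm_sub`), the points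
`b - γ b` are distinct and `≠ 0`, `p (b - γ b) = 0`: `key`. -/
theorem wild_dif [DecidableEq Ω] (h : L.It W₂) (U : IntermediateField K Ω) [FiniteDimensional K U] {b : Pt W₂ Ω}
    (hb : L.Fm b) (hp : Fx U (L.p • b)) (s : Finset Ω)
    (hs : ∀ x, x ∈ s ↔ ∃ γ ∈ U.fixingSubgroup, x = γ (tp b)) :
    L.nm (L.p : Ω) ≤ ∏ x ∈ s.erase (tp b), L.nm (tp b - x) := by
  classical
  have hch : ∀ x : Ω, ∃ γ : Ω ≃ₐ[K] Ω, x ∈ s → γ ∈ U.fixingSubgroup ∧ x = γ (tp b) := by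
    intro x
    by_cases hx : x ∈ s
    · obtain ⟨γ, hγ, e⟩ := (hs x).1 hx
      exact ⟨γ, fun _ => ⟨hγ, e⟩⟩
    · exact ⟨1, fun h => (hx h).elim⟩
  choose g hg using hch
  have hnm : ∀ x ∈ s, L.nm (tp (b - g x • b)) = L.nm (tp b - x) := by
    intro x hx
    rw [(fm_sub h hb (fm_act (g x) hb)).2, tp_act, ← (hg x hx).2]
  have hinj : Set.InjOn (fun x => b - g x • b) (s.erase (tp b) : Finset Ω) := by
    intro x hx y hy e
    have hx' := Finset.mem_of_mem_erase (Finset.mem_coe.1 hx)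
    have hy' := Finset.mem_of_mem_erase (Finset.mem_coe.1 hy)
    have e1 : g x • b = g y • b := sub_right_injective e
    rw [(hg x hx').2, (hg y hy').2, ← tp_act, ← tp_act, e1]
  have hk := key L h ((s.erase (tp b)).image fun x => b - g x • b) (by
    intro R hR
    obtain ⟨x, hx, rfl⟩ := Finset.mem_image.1 hR
    obtain ⟨hx1, hx2⟩ := Finset.mem_erase.1 hx
    obtain ⟨h1, h2⟩ := hg x hx2
    have h3 := fm_sub h hb (fm_act (g x) hb)
    refine ⟨h3.1, fun e => hx1 ?_, ?_⟩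
    · rw [h2, ← tp_act, ← sub_eq_zero.1 e]
    · rw [nsmul_sub, ← smul_comm, hp _ h1, sub_self])
  rw [Finset.prod_image hinj] at hk
  refine hk.trans (le_of_eq (Finset.prod_congr rfl fun x hx => ?_))
  exact hnm x (Finset.mem_of_mem_erase hx)

/-- There is `y ∈ U(b)` with norm `1` (trace) and `nm y ≤ nm t ^ (n - 1) / nm p`. Proof: `y = t ^ (n - 1) / ∏ (t - γ_i t)`, `euler`, `nm_conj`. -/
theorem wild_one (h : L.It W₂) (U : IntermediateField K Ω) [FiniteDimensional K U] {b : Pt W₂ Ω}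
    (hb : L.Fm b) (hp : Fx U (L.p • b)) :
    ∃ y ∈ Pf U b, Nm U (Pf U b) y = 1 ∧ L.nm y * L.nm (L.p : Ω) ≤
      L.nm (tp b) ^ ((Pf U b).fixingSubgroup.relIndex U.fixingSubgroup - 1) := by
  classical
  obtain ⟨s₀, s, hc, h1, hs, hsum, hN⟩ := wd_conj h U hb
  obtain ⟨-, h2, -, -⟩ := pf_fx h U hb
  obtain ⟨t, ht⟩ : ∃ t, t = tp b := ⟨_, rfl⟩
  have hts : t ∈ s := (hs t).2 ⟨1, U.fixingSubgroup.one_mem, by rw [ht, AlgEquiv.one_apply]⟩
  -- the function whose values at the conjugates are the conjugates of `y`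
  obtain ⟨f, hf⟩ : ∃ f : Ω → Ω, ∀ v, f v = v ^ (s.card - 1) / ∏ x ∈ s.erase v, (v - x) :=
    ⟨_, fun _ => rfl⟩
  have hγs : ∀ γ ∈ U.fixingSubgroup, ∀ x, γ x ∈ s ↔ x ∈ s := by
    intro γ hγ x
    rw [hs, hs]
    constructor
    · rintro ⟨δ, hδ, e⟩
      refine ⟨γ⁻¹ * δ, U.fixingSubgroup.mul_mem (U.fixingSubgroup.inv_mem hγ) hδ, ?_⟩
      rw [AlgEquiv.mul_apply, ← e]
      exact (γ.symm_apply_apply x).symm
    · rintro ⟨δ, hδ, e⟩
      exact ⟨γ * δ, U.fixingSubgroup.mul_mem hγ hδ, by rw [AlgEquiv.mul_apply, ← e]⟩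
  have hγf : ∀ γ ∈ U.fixingSubgroup, ∀ v, γ (f v) = f (γ v) := by
    intro γ hγ v
    rw [hf, hf, map_div₀, map_pow, map_prod]
    congr 1
    refine Finset.prod_bij (fun x _ => γ x) ?_ ?_ ?_ ?_
    · intro x hx
      obtain ⟨hx1, hx2⟩ := Finset.mem_erase.1 hx
      exact Finset.mem_erase.2 ⟨fun e => hx1 (γ.injective e), (hγs γ hγ x).2 hx2⟩
    · intro x _ y _ e
      exact γ.injective e
    · intro x hx
      obtain ⟨hx1, hx2⟩ := Finset.mem_erase.1 hx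
      refine ⟨γ.symm x, Finset.mem_erase.2 ⟨fun e => hx1 ?_, ?_⟩, γ.apply_symm_apply x⟩
      · rw [← e, γ.apply_symm_apply]
      · rw [← hγs γ hγ, γ.apply_symm_apply]
        exact hx2
    · intro x _
      rw [map_sub]
  refine ⟨f t, ?_, ?_, ?_⟩
  · refine mem_of_fix _ fun γ hγ => ?_
    have hγU := fix_le (pf_le U b) hγ
    rw [hγf γ hγU, ht, (h2 γ hγU).2 hγ]
  · have h3 : ∀ γ ∈ s₀, γ • f t = f (γ (tp b)) := by
      intro γ hγ
      rw [← ht]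
      exact hγf γ (h1 γ hγ) t
    rw [hN, Finset.sum_congr rfl h3, hsum f]
    have h4 := euler s (fun x => x) (fun x _ y _ e => e) ⟨t, hts⟩
    rw [← h4]
    exact Finset.sum_congr rfl fun x _ => hf x
  · have h3 := wild_dif h U hb hp s hs
    have h4 : ∏ x ∈ s.erase t, (t - x) ≠ 0 := by
      rw [Finset.prod_ne_zero_iff]
      intro x hx e
      exact (Finset.mem_erase.1 hx).1 (sub_eq_zero.1 e).symm
    have h5 : L.nm (f t) * ∏ x ∈ s.erase t, L.nm (t - x) = L.nm t ^ (s.card - 1) := by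
      rw [← wd_prod, ← L.mul, hf, div_mul_cancel₀ _ h4, L.pow]
    rw [← hc, ← ht, ← h5]
    refine mul_le_mul_of_nonneg_left ?_ (L.nonneg _)
    rw [ht]
    exact h3

/-- `nm t ^ n ≤ nm p` for `U = Ur ⊥ N`. Proof: the product of the `n` conjugates of `t` is in `U`, its norm is `< 1`, so `≤ nm p` by `ur_lt`. For `b = 0` trivial. -/
theorem wild_deg (h : L.It W₂) {N : ℕ} (hN : N ≠ 0) {b : Pt W₂ Ω} (hb : L.Fm b) :
    L.nm (tp b) ^ ((Pf (L.Ur ⊥ N) b).fixingSubgroup.relIndex (L.Ur ⊥ N).fixingSubgroup) ≤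
      L.nm (L.p : Ω) := by
  classical
  have hfd : FiniteDimensional K (L.Ur ⊥ N) := ur_fin ⊥ N hN
  obtain ⟨s₀, s, hc, -, hs, -, -⟩ := wd_conj h (L.Ur ⊥ N) hb
  have hts : tp b ∈ s := (hs _).2 ⟨1, (L.Ur ⊥ N).fixingSubgroup.one_mem, by
    rw [AlgEquiv.one_apply]⟩
  have hU : ∏ x ∈ s, x ∈ L.Ur ⊥ N := by
    refine mem_of_fix _ fun γ hγ => ?_
    rw [map_prod]
    refine Finset.prod_bij (fun x _ => γ x) ?_ ?_ ?_ ?_
    · intro x hx
      obtain ⟨δ, hδ, e⟩ := (hs x).1 hx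
      exact (hs _).2 ⟨γ * δ, (L.Ur ⊥ N).fixingSubgroup.mul_mem hγ hδ, by
        rw [AlgEquiv.mul_apply, ← e]⟩
    · intro x _ y _ e
      exact γ.injective e
    · intro x hx
      obtain ⟨δ, hδ, e⟩ := (hs x).1 hx
      refine ⟨γ.symm x, (hs _).2 ⟨γ⁻¹ * δ, (L.Ur ⊥ N).fixingSubgroup.mul_mem
        ((L.Ur ⊥ N).fixingSubgroup.inv_mem hγ) hδ, ?_⟩, γ.apply_symm_apply x⟩
      rw [AlgEquiv.mul_apply, ← e]
      rfl
    · intro x _
      rfl
  have hnm : L.nm (∏ x ∈ s, x) = L.nm (tp b) ^ s.card := by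
    rw [wd_prod, ← Finset.prod_const]
    refine Finset.prod_congr rfl fun x hx => ?_
    obtain ⟨δ, -, e⟩ := (hs x).1 hx
    rw [e, L.act]
  have hlt : L.nm (∏ x ∈ s, x) < L.nm (L.p : Ω) ^ 0 := by
    rw [hnm, pow_zero]
    exact pow_lt_one₀ (L.nonneg _) (fm_lt hb) (Finset.card_pos.2 ⟨_, hts⟩).ne'
  have h1 := ur_lt hN hU hlt
  rw [hnm, zero_add, pow_one, hc] at h1
  exact h1

/-- **The norm.** Proof: `y` of `wild_one`, `n` the degree, `a' ` the point with parameter `tp a * y`: `nm (tp a y) ≤ nm p ^ (i - 1) nm t ^ (n - 1)`, and its square is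
`< nm p ^ i`: `n (2 (i - 1)) + 2 (n - 1) > n i` for `n ≥ 3`, `i ≥ 1` (`wild_deg`). `fm_nm`: `tp (Nm a') = tp a + (norm < nm p ^ i)`. The difference is in `U`: `ur_lt`. -/
theorem wild_norm (h₁ : L.It W₁) (h₂ : L.It W₂) {N : ℕ} (hN : N ≠ 0) {b : Pt W₂ Ω}
    (hb : L.Fm b) (hp : Fx (L.Ur ⊥ N) (L.p • b))
    (hn : 3 ≤ (Pf (L.Ur ⊥ N) b).fixingSubgroup.relIndex (L.Ur ⊥ N).fixingSubgroup) {i : ℕ}
    (hi : 1 ≤ i) {a : Pt W₁ Ω} (ha : L.Fm a) (ha' : Fx (L.Ur ⊥ N) a)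
    (hai : L.nm (tp a) ≤ L.nm (L.p : Ω) ^ i) :
    ∃ a' : Pt W₁ Ω, L.Fm a' ∧ Fx (Pf (L.Ur ⊥ N) b) a' ∧
      L.nm (tp (a - Nm (L.Ur ⊥ N) (Pf (L.Ur ⊥ N) b) a')) ≤ L.nm (L.p : Ω) ^ (i + 1) := by
  have hfd : FiniteDimensional K (L.Ur ⊥ N) := ur_fin ⊥ N hN
  obtain ⟨U, hU⟩ : ∃ U, U = L.Ur ⊥ N := ⟨_, rfl⟩
  have hdeg := wild_deg (L := L) h₂ hN hb
  rw [← hU] at hdeg hfd hp hn ha' ⊢
  obtain ⟨y, hy, hy1, hy2⟩ := wild_one h₂ U hb hp
  have hfd' := pf_fin U b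
  obtain ⟨n, hn'⟩ : ∃ n, n = (Pf U b).fixingSubgroup.relIndex U.fixingSubgroup := ⟨_, rfl⟩
  rw [← hn'] at hdeg hn hy2
  obtain ⟨q, hq⟩ : ∃ q, q = L.nm (L.p : Ω) := ⟨_, rfl⟩
  obtain ⟨τ, hτ⟩ : ∃ τ, τ = L.nm (tp b) := ⟨_, rfl⟩
  have hq0 : 0 < q := by rw [hq]; exact L.p_pos
  have hq1 : q < 1 := by rw [hq]; exact L.lt
  have hτ0 : 0 ≤ τ := by rw [hτ]; exact L.nonneg _
  have hτ1 : τ < 1 := by rw [hτ]; exact fm_lt hb
  rw [← hq, ← hτ] at hdeg hy2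
  rw [← hq] at hai
  have haU : tp a ∈ U := (fm_fx h₁ ha U).1 ha'
  -- the norm of `tp a * y`
  have he : L.nm (tp a * y) ≤ q ^ (i - 1) * τ ^ (n - 1) := by
    rw [L.mul]
    have h1 : L.nm (tp a) * L.nm y ≤ q ^ i * L.nm y :=
      mul_le_mul_of_nonneg_right hai (L.nonneg _)
    refine h1.trans ?_
    have h2 : q ^ i * L.nm y = q ^ (i - 1) * (L.nm y * q) := by
      obtain ⟨k, rfl⟩ : ∃ k, i = k + 1 := ⟨i - 1, by omega⟩
      rw [Nat.add_sub_cancel, pow_succ]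
      ring
    rw [h2]
    exact mul_le_mul_of_nonneg_left hy2 (pow_nonneg hq0.le _)
  have hτn : τ ^ (n - 1) < 1 := pow_lt_one₀ hτ0 hτ1 (by omega)
  have hlt : L.nm (tp a * y) < 1 := by
    refine he.trans_lt ?_
    exact mul_lt_one_of_nonneg_of_lt_one_right (pow_le_one₀ hq0.le hq1.le)
      (pow_nonneg hτ0 _) hτn
  obtain ⟨a', ha1, ha2⟩ := fm_exists (L := L) h₁ hlt
  have haN : Fx (Pf U b) a' := by
    rw [fm_fx h₁ ha1, ha2]
    exact mul_mem (pf_le U b haU) hy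
  refine ⟨a', ha1, haN, ?_⟩
  obtain ⟨h3, -, h5⟩ := fm_nm h₁ (pf_le U b) ha1
  have hNm : Nm U (Pf U b) (tp a') = tp a := by
    obtain ⟨s, -, h6, -, h8⟩ := nm_rep (pf_le U b)
    rw [h8, ha2]
    rw [h8] at hy1
    have h9 : ∀ γ ∈ s, γ • (tp a * y) = tp a * γ • y := by
      intro γ hγ
      have h9 : γ (tp a) = tp a :=
        (IntermediateField.mem_fixingSubgroup_iff U γ).1 (h6 γ hγ) _ haU
      show γ (tp a * y) = tp a * γ y
      rw [map_mul, h9]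
    rw [Finset.sum_congr rfl h9, ← Finset.mul_sum, hy1, mul_one]
  rw [hNm] at h5
  have h7 := fm_sub h₁ ha h3
  have h8 : Fx U (a - Nm U (Pf U b) a') := Fx.sub ha' (nm_fx (pf_le U b) haN)
  have h9 : tp (a - Nm U (Pf U b) a') ∈ U := (fm_fx h₁ h7.1 U).1 h8
  have h10 : L.nm (tp (a - Nm U (Pf U b) a')) ≤ (q ^ (i - 1) * τ ^ (n - 1)) ^ 2 := by
    rw [h7.2, L.sub_comm]
    refine h5.trans ?_
    rw [ha2]
    exact pow_le_pow_left₀ (L.nonneg _) he 2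
  have h11 : (q ^ (i - 1) * τ ^ (n - 1)) ^ 2 < q ^ i := by
    refine lt_of_pow_lt_pow_left₀ n (pow_nonneg hq0.le i) ?_
    obtain ⟨k, rfl⟩ : ∃ k, i = k + 1 := ⟨i - 1, by omega⟩
    obtain ⟨m, rfl⟩ : ∃ m, n = m + 1 := ⟨n - 1, by omega⟩
    rw [Nat.add_sub_cancel, Nat.add_sub_cancel]
    have e1 : ((q ^ k * τ ^ m) ^ 2) ^ (m + 1) = q ^ (k * 2 * (m + 1)) * (τ ^ (m + 1)) ^ (2 * m) := by
      rw [mul_pow, mul_pow, ← pow_mul, ← pow_mul, ← pow_mul, ← pow_mul, ← pow_mul]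
      congr 2 <;> ring
    rw [e1]
    have e2 : (τ ^ (m + 1)) ^ (2 * m) ≤ q ^ (2 * m) :=
      pow_le_pow_left₀ (pow_nonneg hτ0 _) hdeg _
    refine (mul_le_mul_of_nonneg_left e2 (pow_nonneg hq0.le _)).trans_lt ?_
    rw [← pow_add, ← pow_mul]
    refine pow_lt_pow_right_of_lt_one₀ hq0 hq1 ?_
    nlinarith [Nat.zero_le (k * m)]
  rw [hU] at h9
  have h12 := ur_lt (i := i) hN h9 (by rw [← hU, ← hq]; exact h10.trans_lt h11)
  rw [← hU, ← hq] at h12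
  rw [← hq]
  exact h12

/-- `p = 2`, supersingular: the norm of `tp b`. Proof: let `b = (x, y)`, `nm x > 1`, `x(2 b) = (x⁴ - b₄ x² - 2 b₆ x - b₈) / (4 x³ + b₂ x² + 2 b₄ x + b₆)` (`Pn.slope`; or `WeierstrassCurve` formulas), `nm b₂ ≤ nm 4`,
`nm b₄ ≤ nm 2`, `nm b₆ = 1`, `nm (x(2 b)) = nm 2 ^ (-2)`: if `nm (4 x³) > 1`, `= 1` or `< 1`, ... only the last case is possible and `nm x ^ 4 = nm 2 ^ (-2)`. -/
theorem wild_two (h : L.Gd W₂) (h2 : L.p = 2) (ha : L.nm (algebraMap F Ω W₂.a₁) < 1)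
    {b : Pt W₂ Ω} (hb : L.Fm b) (ht : L.nm (tp ((2 : ℕ) • b)) = L.nm (2 : Ω)) :
    L.nm (tp b) ^ 4 = L.nm (2 : Ω) := by
  have hp2 : (L.p : Ω) = 2 := by rw [h2, Nat.cast_ofNat]
  have he0 : 0 < L.nm (2 : Ω) := by
    have h := L.p_pos
    rwa [hp2] at h
  have he1 : L.nm (2 : Ω) < 1 := by
    have h := L.lt
    rwa [hp2] at h
  -- the point `2 b`
  have h20 : (2 : ℕ) • b ≠ 0 := by
    intro h0
    rw [h0] at ht
    have h1 : tp (0 : Pt W₂ Ω) = 0 := rfl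
    rw [h1, L.zero] at ht
    exact he0.ne ht
  rcases Pt.cases' b with rfl | ⟨x, y, hP, rfl⟩
  · exact absurd (smul_zero _) h20
  have hF := fm_add h.toIt hb hb
  rw [two_nsmul] at ht h20
  have hne : ¬(x = x ∧ y = -y - (W₂.baseChange Ω).a₁ * x - (W₂.baseChange Ω).a₃) := by
    rintro ⟨_, hy⟩
    exact h20 (Pn.add_opp hP hP rfl hy)
  obtain ⟨l, -, hl, h'', hadd⟩ := Pn.slope hP hP hne
  have hadd' : (Pt.aff x y hP + Pt.aff x y hP : Pt W₂ Ω) = Pt.aff _ _ h'' := hadd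
  have hE := Pn.eqn hP
  have hF2 := hF.1
  rw [hadd'] at hF2 ht
  have e3 := (fm_aff h.toIt h'').2 hF2
  rw [ht] at e3
  have e1 := (fm_aff h.toIt hP).2 hb
  have hx := ((fm_aff h.toIt hP).1).1 hb
  -- the coefficients
  have hA1 : L.nm (algebraMap F Ω W₂.a₁) ≤ L.nm (2 : Ω) := by
    rcases eq_or_ne (algebraMap F K W₂.a₁) 0 with h0 | h0
    · rw [IsScalarTower.algebraMap_apply F K Ω, h0, map_zero, L.zero]
      exact he0.le
    · obtain ⟨n, hn⟩ := L.unr _ h0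
      rw [← IsScalarTower.algebraMap_apply F K Ω, hp2] at hn
      rw [hn] at ha ⊢
      have hn1 : 1 ≤ n := by
        by_contra hcon
        have h3 : n ≤ 0 := by omega
        exact absurd ha (not_lt.2 (one_le_zpow_of_nonpos₀ he0 he1.le h3))
      calc L.nm (2 : Ω) ^ n ≤ L.nm (2 : Ω) ^ (1 : ℤ) := zpow_le_zpow_right_of_le_one₀ he0 he1.le hn1
        _ = L.nm (2 : Ω) := zpow_one _
  obtain ⟨b2, b4, b6, b8⟩ := wt_coef L.toLf rfl he1 hA1 h.a₂ h.a₃ h.a₄ h.a₆ (by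
    have h3 := h.disc
    rw [WeierstrassCurve.Δ, WeierstrassCurve.b₂, WeierstrassCurve.b₄, WeierstrassCurve.b₆,
      WeierstrassCurve.b₈] at h3
    simp only [map_add, map_sub, map_mul, map_neg, map_pow, map_ofNat] at h3
    exact h3)
  have key := wt_norm L.toLf rfl he0 he1 b2 b4 b6 b8 hx e3 (wt_alg x y l _ _ _ _ _ hl hE)
  -- the parameter
  have h8 : (L.nm (tp (Pt.aff x y hP : Pt W₂ Ω)) ^ 4) ^ 2 = L.nm (2 : Ω) ^ 2 := by
    have hX0 : 0 < L.nm x := zero_lt_one.trans hx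
    have h9 : (L.nm (tp (Pt.aff x y hP : Pt W₂ Ω)) ^ 4) ^ 2 * L.nm x ^ 4 =
        L.nm (2 : Ω) ^ 2 * L.nm x ^ 4 := by
      rw [key]
      calc (L.nm (tp (Pt.aff x y hP : Pt W₂ Ω)) ^ 4) ^ 2 * L.nm x ^ 4
          = (L.nm (tp (Pt.aff x y hP : Pt W₂ Ω)) ^ 2 * L.nm x) ^ 4 := by ring
        _ = 1 := by rw [e1, one_pow]
    exact mul_right_cancel₀ (pow_ne_zero 4 hX0.ne') h9
  exact (pow_left_inj₀ (pow_nonneg (L.nonneg _) 4) (L.nonneg _) two_ne_zero).1 h8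

/-- The degree is not `1` or `2` if it is divisible by `p`. Proof: `p` odd: clear. `p = 2`: the norm of `tp b` is `nm 2 ^ (1 / 4)` (`wild_two`), its `n`-th power is a power of `nm 2` (product of the
conjugates, `ur_unr`), so `4 ∣ n`. -/
theorem wild_three (h : L.Gd W₂) (hss : L.p = 2 → L.nm (algebraMap F Ω W₂.a₁) < 1) {N : ℕ}
    (hN : N ≠ 0) {b : Pt W₂ Ω} (hb : L.Fm b) (ht : L.nm (tp (L.p • b)) = L.nm (L.p : Ω))
    (hd : L.p ∣ (Pf (L.Ur ⊥ N) b).fixingSubgroup.relIndex (L.Ur ⊥ N).fixingSubgroup) :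
    3 ≤ (Pf (L.Ur ⊥ N) b).fixingSubgroup.relIndex (L.Ur ⊥ N).fixingSubgroup := by
  have hdeg := wild_deg h.toIt hN hb
  have hpos : 0 < (Pf (L.Ur ⊥ N) b).fixingSubgroup.relIndex (L.Ur ⊥ N).fixingSubgroup := by
    rcases Nat.eq_zero_or_pos
      ((Pf (L.Ur ⊥ N) b).fixingSubgroup.relIndex (L.Ur ⊥ N).fixingSubgroup) with h0 | h0
    · rw [h0, pow_zero] at hdeg
      exact absurd hdeg (not_le.2 L.lt)
    · exact h0
  have hle := Nat.le_of_dvd hpos hd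
  rcases L.pp.two_le.eq_or_lt with h2 | h2
  · have hp2 : (L.p : Ω) = 2 := by rw [← h2, Nat.cast_ofNat]
    rw [← h2] at ht
    have ht' : L.nm (tp ((2 : ℕ) • b)) = L.nm (2 : Ω) := by
      rw [ht]
      rfl
    have h4 := wild_two h h2.symm (hss h2.symm) hb ht'
    have hlt := fm_lt hb
    have he0 : 0 < L.nm (2 : Ω) := by
      have h := L.p_pos
      rwa [hp2] at h
    have ht0 : 0 < L.nm (tp b) := by
      rcases (L.nonneg (tp b)).eq_or_lt with h0 | h0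
      · rw [← h0, zero_pow (by norm_num)] at h4
        exact absurd h4 he0.ne
      · exact h0
    rw [hp2, ← h4] at hdeg
    have h5 := (pow_le_pow_iff_right_of_lt_one₀ ht0 hlt).1 hdeg
    omega
  · omega

end Ld

end PE
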