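import Pool.Agent.Lib.MP_f80667_ag.Pe.El
import Pool.Agent.Lib.MP_f80667_ag.Pe.Wild

/-! Symbols over unramified extensions are multiples of `p`. -/

open ZC BE Polynomial IntermediateField

namespace PE

namespace Ld

variable {F : Type} [Field F] {K Ω : Type} [Field K] [CharZero K] [Field Ω] [Algebra K Ω]
  [Algebra F K] [Algebra F Ω] [IsScalarTower F K Ω] [IsAlgClosure K Ω] {L : Ld K Ω} [L.Unr]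
  {W₁ W₂ : WeierstrassCurve F} [W₁.IsElliptic] [W₂.IsElliptic] {G : Type} [AddCommGroup G]

/-- `Q = p b`, `b` in the formal group, the parameter of `Q` has norm `nm p`. Proof: let `M = Pf (Ur ⊥ N) b` have degree `n` over `Ur ⊥ N`. `p ∤ n`: `z_cop`, `Q = p b` over `M` (`pf_fx`). Otherwise `n ≥ 3` (`wild_three`);
`wild_norm` for `i = 1` and `i = 2`: `P = Nm P₁ + Nm P₂ + P₃`, `P₃ = p P₄` (`fm_p` with `i = 2`); `z_nm₁`, `z_mul₂`. -/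
theorem un_wild (h₁ : L.Hd W₁) (h₂ : L.Gd W₂)
    (hss : L.p = 2 → L.nm (algebraMap F Ω W₂.a₁) < 1) (S : Sc K Ω (Pt W₁ Ω) (Pt W₂ Ω) G) {N : ℕ}
    (hN : N ≠ 0) {P : Pt W₁ Ω} {b : Pt W₂ Ω} (hP : Fx (L.Ur ⊥ N) P) (hPf : L.Fm P)
    (hb : L.Fm b) (hQ : Fx (L.Ur ⊥ N) (L.p • b)) (ht : L.nm (tp (L.p • b)) = L.nm (L.p : Ω)) :
    S.Z L.p (L.Ur ⊥ N) P (L.p • b) := by
  have hfU : FiniteDimensional K (L.Ur ⊥ N) := ur_fin ⊥ N hN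
  have hfM : FiniteDimensional K (Pf (L.Ur ⊥ N) b) := pf_fin _ b
  have hle : L.Ur ⊥ N ≤ Pf (L.Ur ⊥ N) b := pf_le _ b
  have hbM : Fx (Pf (L.Ur ⊥ N) b) b := (pf_fx h₂.toIt _ hb).2.2.1
  by_cases hd : L.p ∣ (Pf (L.Ur ⊥ N) b).fixingSubgroup.relIndex (L.Ur ⊥ N).fixingSubgroup
  · have hn := wild_three h₂ hss hN hb ht hd
    have step : ∀ i : ℕ, 1 ≤ i → ∀ a : Pt W₁ Ω, L.Fm a → Fx (L.Ur ⊥ N) a →
        L.nm (tp a) ≤ L.nm (L.p : Ω) ^ i → ∃ a' a'' : Pt W₁ Ω, a = a' + a'' ∧ L.Fm a'' ∧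
          Fx (L.Ur ⊥ N) a'' ∧ L.nm (tp a'') ≤ L.nm (L.p : Ω) ^ (i + 1) ∧
          Fx (L.Ur ⊥ N) a' ∧ S.Z L.p (L.Ur ⊥ N) a' (L.p • b) := by
      intro i hi a ha ha' hai
      obtain ⟨c, hc, hc', hct⟩ := wild_norm h₁.toIt h₂.toIt hN hb hQ hn hi ha ha' hai
      have hNm : Fx (L.Ur ⊥ N) (Nm (L.Ur ⊥ N) (Pf (L.Ur ⊥ N) b) c) := nm_fx hle hc'
      refine ⟨Nm (L.Ur ⊥ N) (Pf (L.Ur ⊥ N) b) c, a - Nm (L.Ur ⊥ N) (Pf (L.Ur ⊥ N) b) c,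
        (add_sub_cancel _ _).symm, (fm_sub h₁.toIt ha (fm_nm h₁.toIt hle hc).1).1,
        ha'.sub hNm, hct, hNm, ?_⟩
      exact (Sc.z_nm₁ hle hc' hQ).2 (Sc.z_mul₂ hc' hbM)
    have h0 : L.nm (tp P) ≤ L.nm (L.p : Ω) ^ (0 + 1) :=
      ur_lt hN ((fm_fx h₁.toIt hPf _).1 hP) (by rw [pow_zero]; exact fm_lt hPf)
    obtain ⟨a₁, b₁, e₁, f₁, g₁, t₁, k₁, z₁⟩ := step 1 le_rfl P hPf hP h0
    obtain ⟨a₂, b₂, e₂, f₂, g₂, t₂, k₂, z₂⟩ := step 2 one_le_two b₁ f₁ g₁ t₁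
    obtain ⟨c, -, hc, -, e₃⟩ := fm_p h₁.toIt hN one_le_two (Or.inl le_rfl) f₂ g₂ t₂
    rw [e₁]
    refine Sc.z_add₁ k₁ g₁ hQ z₁ ?_
    rw [e₂]
    refine Sc.z_add₁ k₂ g₂ hQ z₂ ?_
    rw [← e₃]
    exact Sc.z_mul₁ hc hQ
  · exact Sc.z_cop hle hP hQ (Nat.Coprime.symm ((Nat.Prime.coprime_iff_not_dvd L.pp).2 hd))
      (Sc.z_mul₂ (hP.mono hle) hbM)

/-- Both points in the formal group. Proof: `div'`: `Q = p b`; `lift_ur` for `b`: `c` over `Ur ⊥ N'`, `N ∣ N'`, congruent to `b`; `b' = b - c` is in the formal group, `Q - p c = p b'`. `P = Nm P'`, `P'` in the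
formal group over `Ur ⊥ N'` (`fm_norm`, `ur_ur`). `z_nm₁`, `z_add₂`, `z_mul₂`: it remains `{P', p b'}` over `Ur ⊥ N'`: `nm (tp (p b')) ≤ nm p` (`ur_lt`); if it is `nm p`: `un_wild`; otherwise
it is `≤ nm p ^ 2` and `p b' = p c'` (`fm_p` with `i = 1`). -/
theorem un_fm (h₁ : L.Hd W₁) (h₂ : L.Gd W₂)
    (hss : L.p = 2 → L.nm (algebraMap F Ω W₂.a₁) < 1) (S : Sc K Ω (Pt W₁ Ω) (Pt W₂ Ω) G) {N : ℕ}
    (hN : N ≠ 0) {P : Pt W₁ Ω} {Q : Pt W₂ Ω} (hP : Fx (L.Ur ⊥ N) P) (hPf : L.Fm P)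
    (hQ : Fx (L.Ur ⊥ N) Q) (hQf : L.Fm Q) : S.Z L.p (L.Ur ⊥ N) P Q := by
  have hac : IsAlgClosed Ω := IsAlgClosure.isAlgClosed K
  have hcz : CharZero Ω := charZero_of_injective_algebraMap (algebraMap K Ω).injective
  have hfin : FiniteDimensional K (L.Ur ⊥ N) := ur_fin ⊥ N hN
  obtain ⟨b, hb⟩ := div' L.p L.pp.ne_zero Q
  obtain ⟨f, hf, hlift⟩ := lift_ur h₂.toIt (ns_good h₂ b)
  have hN' : f * N ≠ 0 := mul_ne_zero hf hN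
  obtain ⟨c, hc, hcb⟩ := hlift (f * N) hN' (Dvd.intro _ rfl)
  have hle : L.Ur ⊥ N ≤ L.Ur ⊥ (f * N) := ur_dvd ⊥ (Dvd.intro_left _ rfl)
  have hfin' : FiniteDimensional K (L.Ur ⊥ (f * N)) := ur_fin ⊥ (f * N) hN'
  have hb'f : L.Fm (b - c) := cg_symm h₂.toIt hcb
  have hpb : L.p • (b - c) = Q - L.p • c := by rw [smul_sub, hb]
  have hpbx : Fx (L.Ur ⊥ (f * N)) (L.p • (b - c)) := by
    rw [hpb]
    exact (hQ.mono hle).sub (hc.nsmul _)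
  obtain ⟨P', hP'f, hP', hPP'⟩ := fm_norm h₁.toIt (L.Ur ⊥ N) hN' hPf hP
  rw [ur_ur ⊥ (Dvd.intro_left _ rfl)] at hP' hPP'
  rw [← hPP', Sc.z_nm₁ hle hP' hQ]
  have hQe : Q = L.p • c + L.p • (b - c) := by rw [hpb, add_sub_cancel]
  rw [hQe]
  refine Sc.z_add₂ hP' (hc.nsmul _) hpbx (Sc.z_mul₂ hP' hc) ?_
  have hpbf : L.Fm (L.p • (b - c)) := (fm_nsmul h₂.toIt hb'f L.p).1
  have hmem : tp (L.p • (b - c)) ∈ L.Ur ⊥ (f * N) := (fm_fx h₂.toIt hpbf _).1 hpbx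
  have h1 : L.nm (tp (L.p • (b - c))) ≤ L.nm (L.p : Ω) ^ (0 + 1) := by
    refine ur_lt hN' hmem ?_
    rw [pow_zero]
    exact fm_lt hpbf
  rw [zero_add, pow_one] at h1
  rcases h1.eq_or_lt with h2 | h2
  · exact un_wild h₁ h₂ hss S hN' hP' hP'f hb'f hpbx h2
  · have h3 : L.nm (tp (L.p • (b - c))) ≤ L.nm (L.p : Ω) ^ (1 + 1) := by
      refine ur_lt hN' hmem ?_
      rwa [pow_one]
    have h4 : 2 ≤ 1 ∨ L.p ≠ 2 ∨ L.nm (algebraMap F Ω W₂.a₁) < 1 := by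
      by_cases h5 : L.p = 2
      · exact Or.inr (Or.inr (hss h5))
      · exact Or.inr (Or.inl h5)
    obtain ⟨c', -, hc', -, hcc'⟩ := fm_p h₂.toIt hN' le_rfl h4 hpbf hpbx h3
    rw [← hcc']
    exact Sc.z_mul₂ hP' hc'

/-- **Unramified symbols.** Proof: `dv_ur` for `P` with `n = p`: `P = p P' + P''` over `Ur ⊥ N'`; `Q = Nm Q'` (`nsg`, `ur_ur`), `z_nm₂`: it remains `{P'', Q'}` over `Ur ⊥ N'`. `dv_ur` for `Q'` (`Gd.hd`):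
`Q' = p Q₁ + Q₂` over `Ur ⊥ N''`; `P'' = Nm P₁`, `P₁` in the formal group (`fm_norm`); `z_nm₁`: it remains `{P₁, Q₂}`: `un_fm`. -/
theorem un (h₁ : L.Hd W₁) (h₂ : L.Gd W₂)
    (hss : L.p = 2 → L.nm (algebraMap F Ω W₂.a₁) < 1) (S : Sc K Ω (Pt W₁ Ω) (Pt W₂ Ω) G) {N : ℕ}
    (hN : N ≠ 0) {P : Pt W₁ Ω} {Q : Pt W₂ Ω} (hP : Fx (L.Ur ⊥ N) P) (hQ : Fx (L.Ur ⊥ N) Q) :
    S.Z L.p (L.Ur ⊥ N) P Q := by
  have hfin : FiniteDimensional K (L.Ur ⊥ N) := ur_fin ⊥ N hN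
  obtain ⟨f, hf, hdv⟩ := dv_ur h₁ hN L.pp.ne_zero hP
  have hN' : f * N ≠ 0 := mul_ne_zero hf hN
  obtain ⟨P', P'', hP', hP'', hPf, hPe⟩ := hdv (f * N) hN' (Dvd.intro _ rfl)
    (Dvd.intro_left _ rfl)
  have hle : L.Ur ⊥ N ≤ L.Ur ⊥ (f * N) := ur_dvd ⊥ (Dvd.intro_left _ rfl)
  have hfin' : FiniteDimensional K (L.Ur ⊥ (f * N)) := ur_fin ⊥ (f * N) hN'
  obtain ⟨Q', hQ', hQQ'⟩ := nsg h₂ (L.Ur ⊥ N) hN' hQ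
  rw [ur_ur ⊥ (Dvd.intro_left _ rfl)] at hQ' hQQ'
  rw [← hQQ', Sc.z_nm₂ hle hP hQ', hPe]
  refine Sc.z_add₁ (hP'.nsmul _) hP'' hQ' (Sc.z_mul₁ hP' hQ') ?_
  obtain ⟨g, hg, hdv'⟩ := dv_ur h₂.hd hN' L.pp.ne_zero hQ'
  have hN'' : g * (f * N) ≠ 0 := mul_ne_zero hg hN'
  obtain ⟨Q₁, Q₂, hQ₁, hQ₂, hQ₂f, hQe⟩ := hdv' (g * (f * N)) hN'' (Dvd.intro _ rfl)
    (Dvd.intro_left _ rfl)
  have hle' : L.Ur ⊥ (f * N) ≤ L.Ur ⊥ (g * (f * N)) := ur_dvd ⊥ (Dvd.intro_left _ rfl)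
  have hfin'' : FiniteDimensional K (L.Ur ⊥ (g * (f * N))) := ur_fin ⊥ (g * (f * N)) hN''
  obtain ⟨P₁, hP₁f, hP₁, hPP₁⟩ := fm_norm h₁.toIt (L.Ur ⊥ (f * N)) hN'' hPf hP''
  rw [ur_ur ⊥ (Dvd.intro_left _ rfl)] at hP₁ hPP₁
  rw [← hPP₁, Sc.z_nm₁ hle' hP₁ hQ', hQe]
  exact Sc.z_add₂ hP₁ (hQ₁.nsmul _) hQ₂ (Sc.z_mul₂ hP₁ hQ₁)
    (un_fm h₁ h₂ hss S hN'' hP₁ hP₁f hQ₂ hQ₂f)

/-- The symbols over fields between `K` and an unramified extension. Proof: `Q = Nm Q'` (`nsg`), `Ur N N' = Ur ⊥ N'` (`ur_bot`, ...), `z_nm₂`. -/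
theorem un' (h₁ : L.Hd W₁) (h₂ : L.Gd W₂)
    (hss : L.p = 2 → L.nm (algebraMap F Ω W₂.a₁) < 1) (S : Sc K Ω (Pt W₁ Ω) (Pt W₂ Ω) G)
    {M : IntermediateField K Ω} [FiniteDimensional K M] {N : ℕ} (hN : N ≠ 0)
    (hM : M ≤ L.Ur ⊥ N) {P : Pt W₁ Ω} {Q : Pt W₂ Ω} (hP : Fx M P) (hQ : Fx M Q) :
    S.Z L.p M P Q := by
  have hfin : FiniteDimensional K (L.Ur ⊥ N) := ur_fin ⊥ N hN
  have hur : L.Ur M N = L.Ur ⊥ N := by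
    refine le_antisymm ?_ (ur_bot_ur M N)
    unfold Ur at hM ⊢
    exact sup_le hM le_sup_right
  obtain ⟨Q', hQ', hQQ'⟩ := nsg h₂ M hN hQ
  rw [hur] at hQ' hQQ'
  rw [← hQQ', Sc.z_nm₂ hM hP hQ']
  exact un h₁ h₂ hss S hN (hP.mono hM) hQ'

end Ld

end PE
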