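import Pool.Agent.Lib.MP_f80667_ag.Pe.Ga
import Pool.Agent.Lib.MP_f80667_ag.Pe.Un
import Pool.Agent.Lib.MP_f80667_ag.Pe.Si

/-! Auxiliary lemmas for `ga_z` in `Gb.lean`. -/

open ZC BE Polynomial IntermediateField

namespace PE

namespace Ld

variable {F : Type} [Field F] {K Ω : Type} [Field K] [CharZero K] [Field Ω] [Algebra K Ω]
  [Algebra F K] [Algebra F Ω] [IsScalarTower F K Ω] [IsAlgClosure K Ω] {L : Ld K Ω} [L.Unr]
  {W₁ W₂ : WeierstrassCurve F}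

omit [Algebra F K] [Algebra F Ω] [IsScalarTower F K Ω] in
/-- The degree of `Ur M (N D)` over `M`. -/
theorem gbz_deg {M : IntermediateField K Ω} [FiniteDimensional K M] {N D : ℕ} (hM : L.Rf M N)
    (hD : D ≠ 0) :
    (L.Ur M (N * D)).fixingSubgroup.relIndex M.fixingSubgroup = D := by
  obtain ⟨φ, q, hφ⟩ := exists_frob L.toLf M
  have hq := rf_frob hM hφ
  subst hq
  obtain ⟨h1, h2⟩ := ur_cyc hφ hM.ne hD
  let f : Fin D → M.fixingSubgroup ⧸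
      (L.Ur M (N * D)).fixingSubgroup.subgroupOf M.fixingSubgroup :=
    fun i => QuotientGroup.mk ((⟨φ, hφ.mem⟩ : M.fixingSubgroup) ^ (i : ℕ))
  have hle : ∀ i i' : Fin D, (i : ℕ) ≤ i' → f i = f i' → i = i' := by
    intro i i' hii h
    have h3 := QuotientGroup.eq.1 h
    rw [Subgroup.mem_subgroupOf] at h3
    have h4 : φ ^ ((i' : ℕ) - i) ∈ (L.Ur M (N * D)).fixingSubgroup := by
      have e : φ ^ ((i' : ℕ) - i) = (φ ^ (i : ℕ))⁻¹ * φ ^ (i' : ℕ) := by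
        rw [eq_inv_mul_iff_mul_eq, ← pow_add, Nat.add_sub_cancel' hii]
      rw [e]
      exact h3
    have h5 := (h1 _).1 h4
    have h6 : (i' : ℕ) - i = 0 := by
      refine Nat.eq_zero_of_dvd_of_lt h5 ?_
      have := i'.2
      omega
    exact Fin.ext (by omega)
  have hf : Function.Bijective f := by
    constructor
    · intro i i' h
      rcases le_total (i : ℕ) i' with h3 | h3
      · exact hle i i' h3 h
      · exact (hle i' i h3 h.symm).symm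
    · intro x
      obtain ⟨⟨γ, hγ⟩, rfl⟩ := QuotientGroup.mk_surjective x
      obtain ⟨i, hi, h3⟩ := h2 γ hγ
      exact ⟨⟨i, hi⟩, QuotientGroup.eq.2 (Subgroup.mem_subgroupOf.2 h3)⟩
  rw [Subgroup.relIndex, Subgroup.index, ← Nat.card_congr (Equiv.ofBijective f hf),
    Nat.card_eq_fintype_card, Fintype.card_fin]

omit [CharZero K] [IsAlgClosure K Ω] [Algebra K Ω] [Field K] [Algebra F K] [IsScalarTower F K Ω] in
private theorem gbz_alg {B₁ F₁ B₂ F₂ A w y : Ω} (h : y ^ 2 + B₂ * y - F₂ = 0) :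
    nrm B₁ F₁ B₂ F₂ A w = ((A + w * y) ^ 2 + B₁ * (A + w * y) - F₁) *
      ((A + w * y - w * (2 * y + B₂)) ^ 2 + B₁ * (A + w * y - w * (2 * y + B₂)) - F₁) := by
  have e : F₂ = y ^ 2 + B₂ * y := by linear_combination -h
  subst e
  unfold nrm
  ring

omit [CharZero K] [IsAlgClosure K Ω] [Algebra K Ω] [Field K] [Algebra F K] [IsScalarTower F K Ω] in
/-- The norm is a product of two values. -/
theorem gbz_val (r A : Polynomial Ω) (w : Ω) {z y : Ω} (h : fe W₂ z y = 0) :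
    (nn W₁ W₂ r A w).eval z = fe W₁ (r.eval z) (A.eval z + w * y) *
      fe W₁ (r.eval z) (A.eval z + w * y - w * dy W₂ z y) := by
  have h1 : (nn W₁ W₂ r A w).eval z = nrm ((BW W₁ Ω r).eval z) ((FW W₁ Ω r).eval z)
      ((BW W₂ Ω X).eval z) ((FW W₂ Ω X).eval z) (A.eval z) w := by
    have h2 := nrm_map (evalRingHom z) (BW W₁ Ω r) (FW W₁ Ω r) (BW W₂ Ω X) (FW W₂ Ω X) A (C w)
    simp only [coe_evalRingHom, eval_C] at h2
    exact h2
  rw [h1, gbz_alg (y := y)]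
  · simp only [BW, FW, fe, dy, eval_add, eval_mul, eval_C, eval_X, eval_pow]
    ring
  · simp only [BW, FW, eval_add, eval_mul, eval_C, eval_X, eval_pow]
    unfold fe at h
    linear_combination h

omit [CharZero K] [IsAlgClosure K Ω] in
/-- Automorphisms commute with the equation. -/
theorem gbz_fe (W : WeierstrassCurve F) (γ : Ω ≃ₐ[K] Ω) (x y : Ω) :
    fe W (γ x) (γ y) = γ (fe W x y) := by
  have h1 : ∀ a : F, γ (algebraMap F Ω a) = algebraMap F Ω a := by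
    intro a
    rw [IsScalarTower.algebraMap_apply F K Ω, γ.commutes]
  simp only [fe, map_sub, map_add, map_mul, map_pow, h1]

omit [CharZero K] [IsAlgClosure K Ω] [Algebra F K] [Algebra F Ω] [IsScalarTower F K Ω] in
/-- Automorphisms over the field of the coefficients commute with the evaluation. -/
theorem gbz_ev {k : IntermediateField K Ω} {γ : Ω ≃ₐ[K] Ω} (hγ : γ ∈ k.fixingSubgroup)
    {f : Polynomial Ω} (hf : ∀ i, f.coeff i ∈ k) (x : Ω) : f.eval (γ x) = γ (f.eval x) := by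
  have h1 : f.map (γ : Ω →+* Ω) = f := by
    ext i
    rw [coeff_map]
    exact (IntermediateField.mem_fixingSubgroup_iff k γ).1 hγ _ (hf i)
  have h2 := eval_map_apply (p := f) (f := (γ : Ω →+* Ω)) x
  rw [h1] at h2
  exact h2

variable [W₁.IsElliptic] [W₂.IsElliptic]

omit [CharZero K] [IsAlgClosure K Ω] [W₁.IsElliptic] in
private theorem gbz_inj {W : WeierstrassCurve F} {x y x' y' : Ω}
    {h : (W.baseChange Ω).toAffine.Nonsingular x y}
    {h' : (W.baseChange Ω).toAffine.Nonsingular x' y'}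
    (e : (Pt.aff x y h : Pt W Ω) = Pt.aff x' y' h') : x = x' ∧ y = y' :=
  Pn.aff_inj (W := W.baseChange Ω) e

/-- The symbol over `Ur M (N D)`. -/
theorem gbz_main (R : AddSubgroup (Pt W₁ Ω × Pt W₂ Ω →₀ ℤ)) (hR : (Xv W₁ W₂).ratEq K Ω ≤ R)
    {M : IntermediateField K Ω} [FiniteDimensional K M] {N : ℕ} {xP yP xd yd z₀ y₀ : Ω}
    (h : Ga L W₁ W₂ M N xP yP xd yd z₀ y₀)
    (hP : (W₁.baseChange Ω).toAffine.Nonsingular xP yP)
    (hQ : (W₂.baseChange Ω).toAffine.Nonsingular z₀ y₀) {e : ℕ} {m : Polynomial Ω}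
    (hm : L.Tm M N xd z₀ e m) {D : ℕ} (hD : D ≠ 0) {r A : Polynomial Ω} {w : Ω}
    (hr : L.Ip (L.Ur ⊥ (N * D)) r) (hA : L.Ip (L.Ur ⊥ (N * D)) A) (hw : w ∈ L.Ur ⊥ (N * D))
    (hr₀ : r.eval z₀ = xP) (hA₀ : A.eval z₀ + w * y₀ = yP) (hmo : (nn W₁ W₂ r A w).Monic)
    (hip : L.Ip (L.Ur ⊥ (N * D)) (nn W₁ W₂ r A w))
    (hro : ∀ z : Ω, (nn W₁ W₂ r A w).eval z = 0 →
      m.eval z = 0 ∨ L.nm ((derivative (nn W₁ W₂ r A w)).eval z) = 1)
    {s : Finset (Pt W₁ Ω × Pt W₂ Ω)}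
    (hs : ∀ q, q ∈ s ↔ ∃ (z y : Ω) (g₁ : (W₁.baseChange Ω).toAffine.Nonsingular (r.eval z)
        (A.eval z + w * y)) (g₂ : (W₂.baseChange Ω).toAffine.Nonsingular z y),
        (nn W₁ W₂ r A w).eval z = 0 ∧ q = (Pt.aff _ _ g₁, Pt.aff z y g₂))
    (hu : ∀ (z y y' : Ω), (nn W₁ W₂ r A w).eval z = 0 → fe W₂ z y = 0 →
        fe W₁ (r.eval z) (A.eval z + w * y) = 0 → fe W₂ z y' = 0 →
        fe W₁ (r.eval z) (A.eval z + w * y') = 0 → y = y')
    (hst : ∀ γ ∈ (L.Ur ⊥ (N * D)).fixingSubgroup, ∀ q ∈ s, γ • q ∈ s)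
    (hrel : ∑ q ∈ s, tau q.1 q.2 ∈ (Xv W₁ W₂).ratEq (L.Ur ⊥ (N * D)) Ω) :
    (scX (K := K) (W₁ := W₁) (W₂ := W₂) R hR).Z L.p (L.Ur M (N * D)) (Pt.aff xP yP hP)
      (Pt.aff z₀ y₀ hQ) := by
  classical
  have hND : N * D ≠ 0 := mul_ne_zero h.rf.ne hD
  obtain ⟨k, hk⟩ : ∃ k, k = L.Ur ⊥ (N * D) := ⟨_, rfl⟩
  rw [← hk] at hr hA hw hip hst hrel
  have hkf : FiniteDimensional K k := by
    rw [hk]
    exact ur_fin ⊥ _ hND
  have hMf : FiniteDimensional K (L.Ur M (N * D)) := ur_fin M _ hND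
  have hkM : k ≤ L.Ur M (N * D) := by
    rw [hk]
    exact ur_bot_ur M (N * D)
  have hMM : M ≤ L.Ur M (N * D) := ur_le
  have hz₀M : z₀ ∈ M := by
    have h1 : (z₀ - xd) + xd ∈ M := M.add_mem h.uf.mem (h.rf.le h.xd_mem)
    rwa [sub_add_cancel] at h1
  have hz₀ : (nn W₁ W₂ r A w).eval z₀ = 0 := by
    rw [gbz_val r A w h.eQ, hr₀, hA₀, h.eP, zero_mul]
  obtain ⟨p, hp⟩ : ∃ p : Pt W₁ Ω × Pt W₂ Ω, p = (Pt.aff xP yP hP, Pt.aff z₀ y₀ hQ) := ⟨_, rfl⟩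
  have hps : p ∈ s := by
    refine (hs p).2 ⟨z₀, y₀, by rw [hr₀, hA₀]; exact hP, hQ, hz₀, ?_⟩
    rw [hp]
    exact Prod.ext (plr_aff_ext hr₀.symm hA₀.symm) rfl
  have hfix : ∀ γ ∈ k.fixingSubgroup, γ • p = p ↔ γ ∈ (L.Ur M (N * D)).fixingSubgroup := by
    intro γ hγ
    constructor
    · intro h1
      have h2 : γ • (Pt.aff z₀ y₀ hQ : Pt W₂ Ω) = Pt.aff z₀ y₀ hQ := by
        have h3 := congrArg Prod.snd h1
        rw [hp] at h3
        exact h3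
      obtain ⟨h', e'⟩ := act_aff γ hQ
      rw [e'] at h2
      rw [hk] at hγ
      exact hm.fld D hD γ hγ (gbz_inj h2).1
    · intro h1
      have h2 : γ ∈ M.fixingSubgroup := fix_le hMM h1
      rw [hp]
      exact Prod.ext ((fx_aff M hP).2 ⟨h.xP_mem, h.yP_mem⟩ γ h2)
        ((fx_aff M hQ).2 ⟨hz₀M, h.y_mem⟩ γ h2)
  -- the equations for the conjugates
  have hcj : ∀ γ ∈ k.fixingSubgroup, ∀ z y : Ω, fe W₂ z y = 0 →
      fe W₁ (r.eval z) (A.eval z + w * y) = 0 → fe W₂ (γ z) (γ y) = 0 ∧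
        fe W₁ (r.eval (γ z)) (A.eval (γ z) + w * γ y) = 0 := by
    intro γ hγ z y h1 h2
    have hw' : γ w = w := (IntermediateField.mem_fixingSubgroup_iff k γ).1 hγ w hw
    rw [gbz_fe, h1, map_zero, gbz_ev hγ (fun i => (hr i).1), gbz_ev hγ (fun i => (hA i).1)]
    refine ⟨rfl, ?_⟩
    have e1 : γ (A.eval z) + w * γ y = γ (A.eval z + w * y) := by
      rw [map_add, map_mul, hw']
    rw [e1, gbz_fe, h2, map_zero]
  have hconj : ∀ q ∈ s, ∀ (z y : Ω) (g₁ : (W₁.baseChange Ω).toAffine.Nonsingular (r.eval z)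
        (A.eval z + w * y)) (g₂ : (W₂.baseChange Ω).toAffine.Nonsingular z y),
        (nn W₁ W₂ r A w).eval z = 0 → q = (Pt.aff _ _ g₁, Pt.aff z y g₂) → m.eval z = 0 →
        ∃ γ ∈ k.fixingSubgroup, q = γ • p := by
    intro q _ z y g₁ g₂ hz hq hmz
    obtain ⟨γ, hγ, hγz⟩ := hm.conj D hD z hmz
    rw [← hk] at hγ
    refine ⟨γ, hγ, ?_⟩
    subst hγz
    have e0 : fe W₁ (r.eval z₀) (A.eval z₀ + w * y₀) = 0 := by
      rw [hr₀, hA₀]
      exact h.eP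
    have e1 := hcj γ hγ z₀ y₀ h.eQ e0
    have e2 : y = γ y₀ := hu (γ z₀) y (γ y₀) hz (fe_zero g₂) (fe_zero g₁) e1.1 e1.2
    subst e2
    obtain ⟨h', e'⟩ := act_aff γ hQ
    obtain ⟨h'', e''⟩ := act_aff γ hP
    have hw' : γ w = w := (IntermediateField.mem_fixingSubgroup_iff k γ).1 hγ w hw
    rw [hq, hp]
    refine Prod.ext ?_ ?_
    · change Pt.aff _ _ g₁ = γ • (Pt.aff xP yP hP : Pt W₁ Ω)
      rw [e'']
      refine plr_aff_ext ?_ ?_
      · rw [gbz_ev hγ (fun i => (hr i).1), hr₀]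
      · rw [gbz_ev hγ (fun i => (hA i).1), ← hA₀, map_add, map_mul, hw']
    · change Pt.aff _ _ g₂ = γ • (Pt.aff z₀ y₀ hQ : Pt W₂ Ω)
      rw [e']
  -- the two parts
  have e1 := scX_one R hR k (L.Ur M (N * D)) hkM
    (s.filter fun q => ∃ γ ∈ k.fixingSubgroup, q = γ • p) p (fun q => by
      rw [Finset.mem_filter]
      refine ⟨And.right, fun hq => ⟨?_, hq⟩⟩
      obtain ⟨γ, hγ, rfl⟩ := hq
      exact hst γ hγ p hps) hfix
  have e2 := scX_orb R hR k (s.filter fun q => ¬ ∃ γ ∈ k.fixingSubgroup, q = γ • p)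
    (fun γ hγ q hq => by
      rw [Finset.mem_filter] at hq ⊢
      refine ⟨hst γ hγ q hq.1, fun h1 => hq.2 ?_⟩
      obtain ⟨δ, hδ, he⟩ := h1
      refine ⟨γ⁻¹ * δ, k.fixingSubgroup.mul_mem (k.fixingSubgroup.inv_mem hγ) hδ, ?_⟩
      rw [mul_smul, ← he, inv_smul_smul])
  have e0 := scX_rel R hR k hrel
  rw [← Finset.sum_filter_add_sum_filter_not s (fun q => ∃ γ ∈ k.fixingSubgroup, q = γ • p),
    map_add, map_add, e1] at e0
  obtain ⟨B, hB⟩ : ∃ B : AddSubgroup ((Pt W₁ Ω × Pt W₂ Ω →₀ ℤ) ⧸ R),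
      B = (scX (K := K) (W₁ := W₁) (W₂ := W₂) R hR).T.map (nsmulAddMonoidHom L.p) := ⟨_, rfl⟩
  have e4 : QuotientAddGroup.mk' R (trG (Pt W₁ Ω × Pt W₂ Ω) k.fixingSubgroup
      (∑ q ∈ s.filter fun q => ¬ ∃ γ ∈ k.fixingSubgroup, q = γ • p, tau q.1 q.2)) ∈ B := by
    refine (AddSubgroup.closure_le B).2 ?_ e2
    rintro _ ⟨q, N', hq, hN'f, hkN', hq1, hq2, hstab, rfl⟩
    rw [Finset.mem_filter] at hq
    obtain ⟨z, y, g₁, g₂, hz, hqe⟩ := (hs q).1 hq.1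
    have hder : L.nm ((derivative (nn W₁ W₂ r A w)).eval z) = 1 := by
      rcases hro z hz with h1 | h1
      · exact absurd (hconj q hq.1 z y g₁ g₂ hz hqe h1) hq.2
      · exact h1
    rw [hk] at hip
    obtain ⟨N'', hN'', hdvd, hzU⟩ := root_ur hND hip hmo hz hder
    have hkU : k ≤ L.Ur ⊥ N'' := by
      rw [hk]
      exact ur_dvd ⊥ hdvd
    have hle : N' ≤ L.Ur ⊥ N'' := by
      refine le_of_fix_le fun γ hγ => hstab γ (fix_le hkU hγ) ?_
      have hγz : γ z = z :=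
        (IntermediateField.mem_fixingSubgroup_iff (L.Ur ⊥ N'') γ).1 hγ z hzU
      have h1 := hcj γ (fix_le hkU hγ) z y (fe_zero g₂) (fe_zero g₁)
      rw [hγz] at h1
      have hγy : y = γ y := hu z y (γ y) hz (fe_zero g₂) (fe_zero g₁) h1.1 h1.2
      have hw' : γ w = w :=
        (IntermediateField.mem_fixingSubgroup_iff k γ).1 (fix_le hkU hγ) w hw
      obtain ⟨h', e'⟩ := act_aff γ g₁
      obtain ⟨h'', e''⟩ := act_aff γ g₂
      rw [hqe]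
      refine Prod.ext ?_ ?_
      · change γ • (Pt.aff _ _ g₁ : Pt W₁ Ω) = Pt.aff _ _ g₁
        rw [e']
        refine plr_aff_ext ?_ ?_
        · rw [← gbz_ev (fix_le hkU hγ) (fun i => (hr i).1), hγz]
        · rw [map_add, map_mul, hw', ← gbz_ev (fix_le hkU hγ) (fun i => (hA i).1), hγz, ← hγy]
      · change γ • (Pt.aff _ _ g₂ : Pt W₂ Ω) = Pt.aff _ _ g₂
        rw [e'']
        exact plr_aff_ext hγz hγy.symm
    obtain ⟨x, hx, hx'⟩ := un' h.h₁ h.h₂ h.ss (scX (K := K) (W₁ := W₁) (W₂ := W₂) R hR) hN'' hle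
      hq1 hq2
    rw [hB]
    exact ⟨x, hx, hx'.symm⟩
  have e5 : (scX (K := K) (W₁ := W₁) (W₂ := W₂) R hR).sy (L.Ur M (N * D)) p.1 p.2 ∈ B := by
    have h1 := eq_neg_of_add_eq_zero_left e0
    rw [h1]
    exact B.neg_mem e4
  rw [hB] at e5
  obtain ⟨x, hx, hx'⟩ := e5
  refine ⟨x, hx, ?_⟩
  have h2 := hx'.symm
  rw [hp] at h2
  exact h2

end Ld

end PE
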