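import Pool.Agent.Lib.MP_f80667_ag.Pe.St

/-! The curves 11a3 and 43a1. -/

namespace PE

theorem ok_ex : Ok ⟨0, -1, 1, 0, 0⟩ ⟨0, 1, 1, 0, 0⟩ := by
  have h1 : (⟨0, -1, 1, 0, 0⟩ : WeierstrassCurve ℤ).Δ = -11 := by
    simp [WeierstrassCurve.Δ, WeierstrassCurve.b₂, WeierstrassCurve.b₄, WeierstrassCurve.b₆,
      WeierstrassCurve.b₈]
  have h2 : (⟨0, 1, 1, 0, 0⟩ : WeierstrassCurve ℤ).Δ = -43 := by
    simp [WeierstrassCurve.Δ, WeierstrassCurve.b₂, WeierstrassCurve.b₄, WeierstrassCurve.b₆,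
      WeierstrassCurve.b₈]
  refine ⟨?_, Or.inl ⟨Even.zero, odd_one⟩, Or.inl ?_⟩
  · rw [h1, h2]
    have h3 : Squarefree (473 : ℕ) := by
      rw [show (473 : ℕ) = 11 * 43 by norm_num, Nat.squarefree_mul (by norm_num)]
      exact ⟨(by norm_num : Nat.Prime 11).squarefree, (by norm_num : Nat.Prime 43).squarefree⟩
    have h4 : ((-11 : ℤ) * -43) = ((473 : ℕ) : ℤ) := by norm_num
    rw [h4, Int.squarefree_natCast]
    exact h3
  · rw [h1]
    norm_num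

end PE
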