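import Pool.Agent.Lib.MP_f80667_ag.ZC.Defs

/-! Construction of biquadratic extensions of a rational function field (for `exists_bq`). -/

open ZC Polynomial

namespace PE

/-- A quadratic extension, with the lifting property. -/
theorem quad_ext {L : Type} [Field L] [CharZero L] (t n : L) (h : ¬ IsSquare (t ^ 2 - 4 * n)) :
    ∃ (E : Type) (_ : Field E) (_ : Algebra L E) (ξ : E),
      ξ ^ 2 - algebraMap L E t * ξ + algebraMap L E n = 0 ∧ Module.finrank L E = 2 ∧
      (∀ x : E, ∃ a b : L, x = algebraMap L E a + algebraMap L E b * ξ) ∧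
      ∀ (f : L →+* E) (y : E), y ^ 2 - f t * y + f n = 0 →
        ∃ g : E →+* E, (∀ x, g (algebraMap L E x) = f x) ∧ g ξ = y := by
  classical
  let q : L[X] := X ^ 2 - C t * X + C n
  have hq : q = X ^ 2 - C t * X + C n := rfl
  have hqd : q.natDegree = 2 := by
    rw [hq]
    compute_degree!
  have hqm : q.Monic := by
    rw [hq]
    monicity!
  have hirr : Irreducible q := by
    rw [hqm.irreducible_iff_roots_eq_zero_of_degree_le_three (by omega) (by omega),
      Multiset.eq_zero_iff_forall_notMem]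
    intro x hx
    have hx1 : x ^ 2 - t * x + n = 0 := by
      have h1 := (mem_roots'.1 hx).2
      rw [IsRoot, hq] at h1
      simpa using h1
    apply h
    refine ⟨2 * x - t, ?_⟩
    linear_combination -4 * hx1
  have hfact : Fact (Irreducible q) := ⟨hirr⟩
  refine ⟨AdjoinRoot q, inferInstance, inferInstance, AdjoinRoot.root q, ?_, ?_, ?_, ?_⟩
  · have h1 : aeval (AdjoinRoot.root q) (X ^ 2 - C t * X + C n : L[X]) = 0 := by
      change aeval (AdjoinRoot.root q) q = 0
      rw [AdjoinRoot.aeval_eq, AdjoinRoot.mk_self]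
    simpa only [map_add, map_sub, map_mul, map_pow, aeval_X, aeval_C] using h1
  · rw [(AdjoinRoot.powerBasis hirr.ne_zero).finrank, AdjoinRoot.powerBasis_dim, hqd]
  · intro x
    obtain ⟨p, rfl⟩ := AdjoinRoot.mk_surjective x
    have h1 : AdjoinRoot.mk q p = AdjoinRoot.mk q (p %ₘ q) := by
      conv_lhs => rw [← modByMonic_add_div p q]
      rw [map_add, map_mul, AdjoinRoot.mk_self, zero_mul, add_zero]
    have h2 : (p %ₘ q).natDegree ≤ 1 := by
      have h3 := natDegree_modByMonic_lt p hqm (by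
        intro h4
        rw [h4, natDegree_one] at hqd
        omega)
      omega
    obtain ⟨b, a, hab⟩ := exists_eq_X_add_C_of_natDegree_le_one h2
    refine ⟨a, b, ?_⟩
    rw [h1, hab, map_add, map_mul, AdjoinRoot.mk_X, AdjoinRoot.mk_C, AdjoinRoot.mk_C,
      AdjoinRoot.algebraMap_eq, add_comm]
  · intro f y hy
    have hroot : eval₂ f y q = 0 := by
      change eval₂ f y (X ^ 2 - C t * X + C n : L[X]) = 0
      simp only [eval₂_add, eval₂_sub, eval₂_mul, eval₂_pow, eval₂_X, eval₂_C]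
      exact hy
    exact ⟨AdjoinRoot.lift f y hroot, fun x => AdjoinRoot.lift_of hroot,
      AdjoinRoot.lift_root hroot⟩

/-- A polynomial which is a square in the field of rational functions. -/
theorem isSquare_of_ratFunc {k : Type} [Field k] {P : k[X]}
    (h : IsSquare (algebraMap k[X] (RatFunc k) P)) : IsSquare P := by
  obtain ⟨x, hx⟩ := h
  have hint : IsIntegral k[X] x := by
    refine ⟨X ^ 2 - C P, monic_X_pow_sub_C _ two_ne_zero, ?_⟩
    rw [eval₂_sub, eval₂_X_pow, eval₂_C, hx]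
    ring
  obtain ⟨r, hr⟩ := IsIntegrallyClosed.isIntegral_iff.1 hint
  refine ⟨r, FaithfulSMul.algebraMap_injective k[X] (RatFunc k) ?_⟩
  rw [map_mul, hr, hx]

/-- An involution over `k`. -/
theorem exists_invol {k E : Type} [Field k] [Field E] [Algebra k E] (g : E →+* E)
    (hk : ∀ x : k, g (algebraMap k E x) = algebraMap k E x) (hg : ∀ x, g (g x) = x) :
    ∃ σ : E ≃ₐ[k] E, ∀ x, σ x = g x := by
  let f : E →ₐ[k] E := { g with commutes' := hk }
  refine ⟨AlgEquiv.ofAlgHom f f (AlgHom.ext hg) (AlgHom.ext hg), fun x => rfl⟩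

/-- The discriminant is not a square in the quadratic extension. -/
theorem not_isSquare_quad {K L : Type} [Field K] [CharZero K] [Field L] [Algebra K L]
    {t n d : K} {ξ : L} (hξ : ξ ^ 2 - algebraMap K L t * ξ + algebraMap K L n = 0)
    (hx : ∀ x : L, ∃ a b : K, x = algebraMap K L a + algebraMap K L b * ξ)
    (h₁ : ¬ IsSquare d) (h₂ : ¬ IsSquare (t ^ 2 - 4 * n)) (h₁₂ : ¬ IsSquare (d * (t ^ 2 - 4 * n))) :
    ¬ IsSquare (algebraMap K L d) := by
  rintro ⟨x, hxx⟩
  obtain ⟨a, b, rfl⟩ := hx x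
  have hinj : Function.Injective (algebraMap K L) := (algebraMap K L).injective
  have h2 : (2 : K) ≠ 0 := two_ne_zero
  have h4 : (4 : K) ≠ 0 := by norm_num
  -- `x = a' + b' δ`
  have e1 : algebraMap K L (4 * d - (2 * a + b * t) ^ 2 - b ^ 2 * (t ^ 2 - 4 * n)) =
      algebraMap K L (2 * (2 * a + b * t) * b) * (2 * ξ - algebraMap K L t) := by
    simp only [map_sub, map_mul, map_pow, map_add, map_ofNat]
    rw [hxx]
    linear_combination (4 * (algebraMap K L b) ^ 2) * hξ
  by_cases hc : 2 * (2 * a + b * t) * b = 0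
  · rw [hc, map_zero, zero_mul, ← map_zero (algebraMap K L)] at e1
    have e2 := hinj e1
    rcases mul_eq_zero.1 hc with hc | hc
    · have hc' : 2 * a + b * t = 0 := by
        rcases mul_eq_zero.1 hc with h | h
        · exact absurd h h2
        · exact h
      rw [hc'] at e2
      apply h₁₂
      refine ⟨b / 2 * (t ^ 2 - 4 * n), ?_⟩
      have e3 : d = b ^ 2 * (t ^ 2 - 4 * n) / 4 := by
        rw [eq_div_iff h4]
        linear_combination e2
      rw [e3]
      ring
    · rw [hc] at e2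
      apply h₁
      refine ⟨a, ?_⟩
      have e3 : (4 : K) * d = 4 * (a * a) := by linear_combination e2
      exact mul_left_cancel₀ h4 e3
  · apply h₂
    have e3 : 2 * ξ - algebraMap K L t = algebraMap K L
        ((4 * d - (2 * a + b * t) ^ 2 - b ^ 2 * (t ^ 2 - 4 * n)) / (2 * (2 * a + b * t) * b)) := by
      rw [map_div₀, e1, mul_div_cancel_left₀]
      intro h
      rw [← map_zero (algebraMap K L)] at h
      exact hc (hinj h)
    refine ⟨(4 * d - (2 * a + b * t) ^ 2 - b ^ 2 * (t ^ 2 - 4 * n)) / (2 * (2 * a + b * t) * b),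
      hinj ?_⟩
    rw [map_mul, ← e3]
    simp only [map_sub, map_mul, map_pow, map_ofNat]
    linear_combination -4 * hξ

/-- The biquadratic extension. -/
theorem exists_bqA {k : Type} [Field k] [CharZero k] (T₁ N₁ T₂ N₂ : k[X])
    (h₁ : ¬ IsSquare (T₁ ^ 2 - 4 * N₁)) (h₂ : ¬ IsSquare (T₂ ^ 2 - 4 * N₂))
    (h₁₂ : ¬ IsSquare ((T₁ ^ 2 - 4 * N₁) * (T₂ ^ 2 - 4 * N₂))) :
    ∃ (E : Type) (_ : Field E) (_ : Algebra k E) (s ξ₁ ξ₂ : E) (σ₁ σ₂ : E ≃ₐ[k] E),
      IsFunField k E ∧ Transcendental k s ∧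
      Module.finrank (IntermediateField.adjoin k {s}) E = 4 ∧
      ξ₁ ^ 2 - aeval s T₁ * ξ₁ + aeval s N₁ = 0 ∧ ξ₂ ^ 2 - aeval s T₂ * ξ₂ + aeval s N₂ = 0 ∧
      σ₁ s = s ∧ σ₂ s = s ∧ σ₁ ξ₁ = aeval s T₁ - ξ₁ ∧ σ₁ ξ₂ = ξ₂ ∧ σ₂ ξ₁ = ξ₁ ∧
      σ₂ ξ₂ = aeval s T₂ - ξ₂ := by
  classical
  let K := RatFunc k
  let a := algebraMap k[X] K
  have hK : CharZero K := charZero_of_injective_algebraMap (algebraMap k K).injective
  have q₁ : ¬ IsSquare (a T₁ ^ 2 - 4 * a N₁) := by
    intro h
    apply h₁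
    apply isSquare_of_ratFunc
    simpa only [map_sub, map_mul, map_pow, map_ofNat] using h
  have q₂ : ¬ IsSquare (a T₂ ^ 2 - 4 * a N₂) := by
    intro h
    apply h₂
    apply isSquare_of_ratFunc
    simpa only [map_sub, map_mul, map_pow, map_ofNat] using h
  have q₁₂ : ¬ IsSquare ((a T₁ ^ 2 - 4 * a N₁) * (a T₂ ^ 2 - 4 * a N₂)) := by
    intro h
    apply h₁₂
    apply isSquare_of_ratFunc
    simpa only [map_sub, map_mul, map_pow, map_ofNat] using h
  obtain ⟨L, _, _, η, hη, hLr, hLx, hLl⟩ := quad_ext (a T₂) (a N₂) q₂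
  have hL : CharZero L := charZero_of_injective_algebraMap (algebraMap K L).injective
  have hq : ¬ IsSquare (algebraMap K L (a T₁) ^ 2 - 4 * algebraMap K L (a N₁)) := by
    have h := not_isSquare_quad hη hLx q₁ q₂ q₁₂
    simpa only [map_sub, map_mul, map_pow, map_ofNat] using h
  obtain ⟨E, _, _, ξ, hξ, hEr, hEx, hEl⟩ :=
    quad_ext (algebraMap K L (a T₁)) (algebraMap K L (a N₁)) hq
  let aKE : Algebra K E := ((algebraMap L E).comp (algebraMap K L)).toAlgebra
  have tKE : IsScalarTower K L E := IsScalarTower.of_algebraMap_eq fun x => rfl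
  let akE : Algebra k E := ((algebraMap K E).comp (algebraMap k K)).toAlgebra
  have tkE : IsScalarTower k K E := IsScalarTower.of_algebraMap_eq fun x => rfl
  have hKE : ∀ x : K, algebraMap K E x = algebraMap L E (algebraMap K L x) := fun _ => rfl
  have hkE : ∀ x : k, algebraMap k E x = algebraMap K E (algebraMap k K x) := fun _ => rfl
  let s : E := algebraMap K E RatFunc.X
  have haev : ∀ P : k[X], aeval s P = algebraMap K E (a P) := by
    intro P
    change _ = algebraMap K E (algebraMap k[X] K P)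
    rw [← RatFunc.aeval_X_left_eq_algebraMap, ← aeval_algebraMap_apply]
  -- the automorphism of `L`
  obtain ⟨τ, hτ, hτη⟩ : ∃ τ : L →+* L, (∀ x, τ (algebraMap K L x) = algebraMap K L x) ∧
      τ η = algebraMap K L (a T₂) - η :=
    hLl (algebraMap K L) (algebraMap K L (a T₂) - η) (by linear_combination hη)
  have hττ : ∀ x, τ (τ x) = x := by
    intro x
    obtain ⟨b, c, rfl⟩ := hLx x
    simp only [map_add, map_mul, map_sub, hτ, hτη]
    ring
  obtain ⟨g₁, hg₁, hg₁ξ⟩ := hEl (algebraMap L E) (algebraMap L E (algebraMap K L (a T₁)) - ξ)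
    (by linear_combination hξ)
  have hgg₁ : ∀ x, g₁ (g₁ x) = x := by
    intro x
    obtain ⟨b, c, rfl⟩ := hEx x
    simp only [map_add, map_mul, map_sub, hg₁, hg₁ξ]
    ring
  obtain ⟨g₂, hg₂, hg₂ξ⟩ := hEl ((algebraMap L E).comp τ) ξ (by
    rw [RingHom.comp_apply, RingHom.comp_apply, hτ, hτ]
    exact hξ)
  have hgg₂ : ∀ x, g₂ (g₂ x) = x := by
    intro x
    obtain ⟨b, c, rfl⟩ := hEx x
    simp only [map_add, map_mul, hg₂, hg₂ξ, RingHom.comp_apply, hττ]
  have hg₁K : ∀ x : K, g₁ (algebraMap K E x) = algebraMap K E x := by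
    intro x
    rw [hKE, hg₁]
  have hg₂K : ∀ x : K, g₂ (algebraMap K E x) = algebraMap K E x := by
    intro x
    rw [hKE, hg₂, RingHom.comp_apply, hτ]
  obtain ⟨σ₁, hσ₁⟩ := exists_invol (k := k) g₁ (fun x => by rw [hkE, hg₁K]) hgg₁
  obtain ⟨σ₂, hσ₂⟩ := exists_invol (k := k) g₂ (fun x => by rw [hkE, hg₂K]) hgg₂
  -- the rank
  have hrK : Module.finrank K E = 4 := by
    have : Module.finrank K L * Module.finrank L E = Module.finrank K E :=
      Module.finrank_mul_finrank K L E
    rw [← this, hLr, hEr]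
  let f : K →ₐ[k] E := IsScalarTower.toAlgHom k K E
  have hf : ∀ x : K, f x = algebraMap K E x := fun x => rfl
  have hA : IntermediateField.adjoin k {s} = (⊤ : IntermediateField k K).map f := by
    rw [← RatFunc.adjoin_X, IntermediateField.adjoin_map, Set.image_singleton]
    rfl
  have hrank : Module.finrank (IntermediateField.adjoin k {s}) E = 4 := by
    rw [← hrK]
    symm
    let g : K →+* IntermediateField.adjoin k {s} :=
      (algebraMap K E).codRestrict (IntermediateField.adjoin k {s}).toSubfield (fun x => by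
        change algebraMap K E x ∈ IntermediateField.adjoin k {s}
        rw [hA]
        exact ⟨x, Set.mem_univ _, rfl⟩)
    have hg : Function.Bijective g := by
      refine ⟨g.injective, fun y => ?_⟩
      have h2 : (y : E) ∈ (⊤ : IntermediateField k K).map f := by
        rw [← hA]
        exact y.2
      obtain ⟨x, -, hx⟩ := h2
      exact ⟨x, Subtype.ext hx⟩
    exact Algebra.finrank_eq_of_equiv_equiv (RingEquiv.ofBijective g hg) (RingEquiv.refl E) rfl
  have htr : Transcendental k s := by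
    have h1 : Transcendental k (RatFunc.X : K) := RatFunc.transcendental_X
    exact (transcendental_algebraMap_iff (algebraMap K E).injective).2 h1
  refine ⟨E, inferInstance, akE, s, ξ, algebraMap L E η, σ₁, σ₂, ?_, htr, hrank, ?_, ?_, ?_, ?_,
    ?_, ?_, ?_, ?_⟩
  · exact ⟨s, htr, Module.finite_of_finrank_pos (by rw [hrank]; norm_num)⟩
  · rw [haev, haev, hKE, hKE]
    exact hξ
  · rw [haev, haev, hKE, hKE, ← map_pow, ← map_mul, ← map_sub, ← map_add, hη, map_zero]
  · rw [hσ₁, hg₁K]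
  · rw [hσ₂, hg₂K]
  · rw [hσ₁, hg₁ξ, haev, hKE]
  · rw [hσ₁, hg₁]
  · rw [hσ₂, hg₂ξ]
  · rw [hσ₂, hg₂, RingHom.comp_apply, hτη, haev, hKE, map_sub]

end PE
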