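import Pool.Agent.Lib.MP_f80667_ag.Pe.BqA
import Pool.Agent.Lib.MP_f80667_ag.Pe.BqX
import Pool.Agent.Lib.MP_f80667_ag.Pe.Plc
import Pool.Agent.Lib.MP_f80667_ag.Pe.Sq

/-! Biquadratic extensions `E = k(s)(ξ₁, ξ₂)` of a rational function field, and the function
`g = ξ₁ - A(s) - w ξ₂`. -/

open ZC BE Polynomial

namespace PE

/-- `E = k(s)(ξ₁, ξ₂)`, `ξ_i² - T_i(s) ξ_i + N_i(s) = 0`, of degree `4` over `k(s)`, with two automorphisms. -/
structure Bq {k E : Type} [Field k] [Field E] [Algebra k E] (s ξ₁ ξ₂ : E) (T₁ N₁ T₂ N₂ : k[X])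
    (σ₁ σ₂ : E ≃ₐ[k] E) : Prop where
  ff : IsFunField k E
  tr : Transcendental k s
  rank : Module.finrank (IntermediateField.adjoin k {s}) E = 4
  eq₁ : ξ₁ ^ 2 - aeval s T₁ * ξ₁ + aeval s N₁ = 0
  eq₂ : ξ₂ ^ 2 - aeval s T₂ * ξ₂ + aeval s N₂ = 0
  s₁ : σ₁ s = s
  s₂ : σ₂ s = s
  x₁₁ : σ₁ ξ₁ = aeval s T₁ - ξ₁
  x₁₂ : σ₁ ξ₂ = ξ₂
  x₂₁ : σ₂ ξ₁ = ξ₁
  x₂₂ : σ₂ ξ₂ = aeval s T₂ - ξ₂

/-- Proof: `exists_qd` for `T₂`, `N₂` gives `E₂ = k(s)(ξ₂)`. The discriminant `D₁ = T₁² - 4 N₁` is not a square in `E₂`: if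
`D₁ = (a + b δ)²`, `δ² = D₂`, `a, b ∈ k(s)`, then `a b = 0`, so `D₁` or `D₁ D₂` is a square in `k(s)`, hence in `k[s]`. So
`X² - T₁ X + N₁` is irreducible over `E₂`, `E = E₂(ξ₁)` (`AdjoinRoot`), and `σ₁` is the automorphism over `E₂`, `σ₂` the extension of that of `E₂` with
`ξ₁` fixed (compare the proof of `exists_qd` in `Be/Qe.lean`). -/
theorem exists_bq {k : Type} [Field k] [CharZero k] (T₁ N₁ T₂ N₂ : k[X])
    (h₁ : ¬ IsSquare (T₁ ^ 2 - 4 * N₁)) (h₂ : ¬ IsSquare (T₂ ^ 2 - 4 * N₂))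
    (h₁₂ : ¬ IsSquare ((T₁ ^ 2 - 4 * N₁) * (T₂ ^ 2 - 4 * N₂))) :
    ∃ (E : Type) (_ : Field E) (_ : Algebra k E) (s ξ₁ ξ₂ : E) (σ₁ σ₂ : E ≃ₐ[k] E),
      Bq s ξ₁ ξ₂ T₁ N₁ T₂ N₂ σ₁ σ₂ := by
  obtain ⟨E, iE, iA, s, ξ₁, ξ₂, σ₁, σ₂, c1, c2, c3, c4, c5, c6, c7, c8, c9, c10, c11⟩ :=
    exists_bqA T₁ N₁ T₂ N₂ h₁ h₂ h₁₂
  exact ⟨E, iE, iA, s, ξ₁, ξ₂, σ₁, σ₂, ⟨c1, c2, c3, c4, c5, c6, c7, c8, c9, c10, c11⟩⟩

variable {k E Ω : Type} [Field k] [CharZero k] [Field E] [Algebra k E] [Field Ω] [Algebra k Ω]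
  [IsAlgClosed Ω] {s ξ₁ ξ₂ : E} {B₁ F₁ B₂ F₂ : k[X]} {σ₁ σ₂ : E ≃ₐ[k] E}

/-- The norm. Proof: `nrm_eq` (`ξ_i² + B_i ξ_i = F_i`). -/
theorem bq_nrm (h : Bq s ξ₁ ξ₂ (-B₁) (-F₁) (-B₂) (-F₂) σ₁ σ₂) (A : k[X]) (w : k) :
    (ξ₁ - aeval s A - algebraMap k E w * ξ₂) * σ₁ (ξ₁ - aeval s A - algebraMap k E w * ξ₂) *
      (σ₂ (ξ₁ - aeval s A - algebraMap k E w * ξ₂) *
        σ₁ (σ₂ (ξ₁ - aeval s A - algebraMap k E w * ξ₂))) =
      aeval s (nrm B₁ F₁ B₂ F₂ A (C w)) := by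
  have e₁ : ξ₁ ^ 2 + aeval s B₁ * ξ₁ = aeval s F₁ := by
    have h1 := h.eq₁
    rw [map_neg, map_neg] at h1
    linear_combination h1
  have e₂ : ξ₂ ^ 2 + aeval s B₂ * ξ₂ = aeval s F₂ := by
    have h1 := h.eq₂
    rw [map_neg, map_neg] at h1
    linear_combination h1
  have ha₁ : ∀ P : k[X], σ₁ (aeval s P) = aeval s P := fun P => by
    rw [← Polynomial.aeval_algHom_apply σ₁ s P, h.s₁]
  have ha₂ : ∀ P : k[X], σ₂ (aeval s P) = aeval s P := fun P => by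
    rw [← Polynomial.aeval_algHom_apply σ₂ s P, h.s₂]
  have hN := nrm_map (aeval s : k[X] →ₐ[k] E).toRingHom B₁ F₁ B₂ F₂ A (C w)
  have hN' : aeval s (nrm B₁ F₁ B₂ F₂ A (C w)) = nrm (aeval s B₁) (aeval s F₁) (aeval s B₂)
      (aeval s F₂) (aeval s A) (algebraMap k E w) := by
    rw [← Polynomial.aeval_C s w]
    exact hN
  rw [hN', nrm_eq e₁ e₂]
  simp only [map_sub, map_mul, h.x₁₁, h.x₁₂, h.x₂₁, h.x₂₂, ha₁, ha₂, AlgEquiv.commutes, map_neg]

/-- The norm has degree `4 deg A` (if `A` dominates). -/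
theorem bq_deg (A : k[X]) (w : k) (h₁ : B₁.natDegree < A.natDegree)
    (h₂ : F₁.natDegree < 2 * A.natDegree) (h₃ : B₂.natDegree < A.natDegree)
    (h₄ : F₂.natDegree < 2 * A.natDegree) :
    (nrm B₁ F₁ B₂ F₂ A (C w)).natDegree = 4 * A.natDegree := by
  have hA : 0 < A.natDegree := lt_of_le_of_lt (Nat.zero_le _) h₁
  have hA0 : A ≠ 0 := by
    rintro rfl
    rw [natDegree_zero] at hA
    exact absurd hA (lt_irrefl 0)
  have hw : ∀ P : k[X], (C w * P).natDegree ≤ P.natDegree := fun P => natDegree_C_mul_le w P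
  have hw2 : ∀ P : k[X], ((C w) ^ 2 * P).natDegree ≤ P.natDegree := fun P => by
    rw [← map_pow]
    exact natDegree_C_mul_le _ P
  -- the first part
  have hP : (A ^ 2 + B₁ * A - F₁ + (C w) ^ 2 * F₂).natDegree = 2 * A.natDegree := by
    have e : A ^ 2 + B₁ * A - F₁ + (C w) ^ 2 * F₂ = A ^ 2 + (B₁ * A - F₁ + (C w) ^ 2 * F₂) := by
      ring
    rw [e, natDegree_add_eq_left_of_natDegree_lt, natDegree_pow]
    rw [natDegree_pow]
    refine lt_of_le_of_lt (natDegree_add_le _ _) (max_lt ?_ ?_)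
    · refine lt_of_le_of_lt (natDegree_sub_le _ _) (max_lt ?_ h₂)
      refine lt_of_le_of_lt (natDegree_mul_le) ?_
      omega
    · exact lt_of_le_of_lt (hw2 F₂) h₄
  have hQ : (C w * (2 * A + B₁) - (C w) ^ 2 * B₂).natDegree ≤ A.natDegree := by
    refine (natDegree_sub_le _ _).trans (max_le ?_ ?_)
    · refine (hw _).trans ((natDegree_add_le _ _).trans (max_le ?_ h₁.le))
      have e : (2 : k[X]) * A = C (2 : k) * A := by rw [map_ofNat]
      rw [e]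
      exact natDegree_C_mul_le _ _
    · exact (hw2 B₂).trans h₃.le
  unfold nrm
  have hP2 : ((A ^ 2 + B₁ * A - F₁ + (C w) ^ 2 * F₂) ^ 2).natDegree = 4 * A.natDegree := by
    rw [natDegree_pow, hP]
    ring
  rw [sub_sub, sub_eq_add_neg, natDegree_add_eq_left_of_natDegree_lt, hP2]
  rw [natDegree_neg, hP2]
  refine lt_of_le_of_lt (natDegree_add_le _ _) (max_lt ?_ ?_)
  · refine lt_of_le_of_lt (natDegree_mul_le) ?_
    have h5 := natDegree_mul_le (p := A ^ 2 + B₁ * A - F₁ + (C w) ^ 2 * F₂)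
      (q := C w * (2 * A + B₁) - (C w) ^ 2 * B₂)
    rw [hP] at h5
    omega
  · refine lt_of_le_of_lt (natDegree_mul_le) ?_
    rw [natDegree_pow]
    omega

private theorem bq_con (v : Place k E Ω) (a : k) : v.V.valuation (algebraMap k E a) ≤ 1 :=
  (v.V.valuation_le_one_iff _).2 (v.mem a)

private theorem bq_con_eq (v : Place k E Ω) {a : k} (ha : a ≠ 0) :
    v.V.valuation (algebraMap k E a) = 1 := by
  refine le_antisymm (bq_con v a) ?_
  have h1 := bq_con v a⁻¹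
  rw [map_inv₀, map_inv₀] at h1
  have h2 : v.V.valuation (algebraMap k E a) ≠ 0 := by
    rw [Ne, map_eq_zero, map_eq_zero]
    exact ha
  exact (inv_le_one₀ (zero_lt_iff.2 h2)).1 h1

private theorem bq_le (v : Place k E Ω) {s : E} (hs : 1 < v.V.valuation s) (P : k[X]) (n : ℕ)
    (hn : P.natDegree ≤ n) : v.V.valuation (aeval s P * s⁻¹ ^ n) ≤ 1 := by
  have hs0 : s ≠ 0 := by
    rintro rfl
    rw [map_zero] at hs
    exact absurd hs (not_lt.2 zero_le_one)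
  have hi : v.V.valuation s⁻¹ ≤ 1 := by
    rw [map_inv₀]
    exact inv_le_one_of_one_le₀ hs.le
  rw [Polynomial.aeval_eq_sum_range' (Nat.lt_succ_of_le hn), Finset.sum_mul]
  refine Valuation.map_sum_le _ fun i hi' => ?_
  have hin : i ≤ n := Nat.lt_succ_iff.1 (Finset.mem_range.1 hi')
  have e : P.coeff i • s ^ i * s⁻¹ ^ n = algebraMap k E (P.coeff i) * s⁻¹ ^ (n - i) := by
    rw [Algebra.smul_def, mul_assoc]
    congr 1
    obtain ⟨j, rfl⟩ := Nat.exists_eq_add_of_le hin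
    rw [Nat.add_sub_cancel_left, pow_add, ← mul_assoc, ← mul_pow, mul_inv_cancel₀ hs0, one_pow,
      one_mul]
  rw [e, map_mul, map_pow]
  exact mul_le_one' (bq_con v _) (pow_le_one' hi _)

private theorem bq_lt (v : Place k E Ω) {s : E} (hs : 1 < v.V.valuation s) (P : k[X]) (n : ℕ)
    (hn : P.natDegree < n) : v.V.valuation (aeval s P * s⁻¹ ^ n) < 1 := by
  obtain ⟨j, rfl⟩ : ∃ j, n = j + 1 := ⟨n - 1, by omega⟩
  have hi : v.V.valuation s⁻¹ < 1 := by
    rw [map_inv₀]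
    exact inv_lt_one_of_one_lt₀ hs
  rw [pow_succ, ← mul_assoc, map_mul]
  exact lt_of_le_of_lt (mul_le_of_le_one_left' (bq_le v hs P j (Nat.lt_succ_iff.1 hn))) hi

private theorem bq_lead (v : Place k E Ω) {s : E} (hs : 1 < v.V.valuation s) (A : k[X])
    (hA : 0 < A.natDegree) : v.V.valuation (aeval s A * s⁻¹ ^ A.natDegree) = 1 := by
  have hs0 : s ≠ 0 := by
    rintro rfl
    rw [map_zero] at hs
    exact absurd hs (not_lt.2 zero_le_one)
  have hA0 : A ≠ 0 := by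
    rintro rfl
    rw [natDegree_zero] at hA
    exact absurd hA (lt_irrefl 0)
  have h1 : v.V.valuation (aeval s A.eraseLead * s⁻¹ ^ A.natDegree) < 1 :=
    bq_lt v hs _ _ (lt_of_le_of_lt (eraseLead_natDegree_le A) (by omega))
  have h2 : v.V.valuation (algebraMap k E A.leadingCoeff) = 1 :=
    bq_con_eq v (leadingCoeff_ne_zero.2 hA0)
  have e : aeval s A * s⁻¹ ^ A.natDegree =
      aeval s A.eraseLead * s⁻¹ ^ A.natDegree + algebraMap k E A.leadingCoeff := by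
    have h3 := congrArg (aeval s) (eraseLead_add_C_mul_X_pow A)
    rw [map_add, map_mul, map_pow, aeval_C, aeval_X] at h3
    rw [← h3, add_mul, mul_assoc (algebraMap k E A.leadingCoeff), ← mul_pow, mul_inv_cancel₀ hs0,
      one_pow, mul_one]
  rw [e, Valuation.map_add_eq_of_lt_right _ (by rw [h2]; exact h1), h2]

private theorem bq_quad_lt (v : Place k E Ω) {y b f : E} (h : y ^ 2 + b * y = f)
    (hb : v.V.valuation b < 1) (hf : v.V.valuation f < 1) : v.V.valuation y < 1 := by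
  by_contra hc
  have h1 : 1 ≤ v.V.valuation y := not_lt.1 hc
  have h0 : 0 < v.V.valuation y := lt_of_lt_of_le zero_lt_one h1
  have h2 : v.V.valuation y ≤ v.V.valuation y ^ 2 := by
    rw [sq]
    exact le_mul_of_one_le_left' h1
  have h3 : v.V.valuation (y ^ 2) < v.V.valuation y ^ 2 := by
    have e : y ^ 2 = f + -(b * y) := by rw [← h]; ring
    rw [e]
    refine Valuation.map_add_lt _ (lt_of_lt_of_le hf (h1.trans h2)) ?_
    rw [Valuation.map_neg, map_mul]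
    refine lt_of_lt_of_le ?_ h2
    calc v.V.valuation b * v.V.valuation y < 1 * v.V.valuation y :=
          mul_lt_mul_of_pos_right hb h0
      _ = v.V.valuation y := one_mul _
  rw [map_pow] at h3
  exact lt_irrefl _ h3

private theorem bq_quad_le (v : Place k E Ω) {y b f : E} (h : y ^ 2 + b * y = f)
    (hb : v.V.valuation b ≤ 1) (hf : v.V.valuation f ≤ 1) : v.V.valuation y ≤ 1 := by
  by_contra hc
  have h1 : 1 < v.V.valuation y := not_le.1 hc
  have h0 : 0 < v.V.valuation y := lt_trans zero_lt_one h1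
  have h3 : v.V.valuation (y ^ 2) ≤ v.V.valuation y := by
    have e : y ^ 2 = f + -(b * y) := by rw [← h]; ring
    rw [e]
    refine Valuation.map_add_le _ (hf.trans h1.le) ?_
    rw [Valuation.map_neg, map_mul]
    exact mul_le_of_le_one_left' hb
  rw [map_pow, sq] at h3
  have h4 : 1 * v.V.valuation y < v.V.valuation y * v.V.valuation y :=
    mul_lt_mul_of_pos_right h1 h0
  rw [one_mul] at h4
  exact absurd h3 (not_le.2 h4)

private theorem bq_poly (v : Place k E Ω) {s : E} (hs : s ∈ v.V) (P : k[X]) :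
    v.V.valuation (aeval s P) ≤ 1 := by
  have hs' := (v.V.valuation_le_one_iff s).2 hs
  rw [Polynomial.aeval_eq_sum_range]
  refine Valuation.map_sum_le _ fun i _ => ?_
  rw [Algebra.smul_def, map_mul, map_pow]
  exact mul_le_one' (bq_con v _) (pow_le_one' hs' _)

private theorem bq_scale {y b f c : E} (d : ℕ) (h : y ^ 2 + b * y = f) :
    (y * c ^ d) ^ 2 + (b * c ^ d) * (y * c ^ d) = f * c ^ (2 * d) := by
  rw [← h]
  ring

/-- The poles: over `s = ∞` the order of `g` is `deg A` times the order of `s`. Proof: `A(s)` has the order `deg A · ord s < 0`, and `ξ_i` has a larger order by the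
equations (`ξ_i² = F_i - B_i ξ_i`: otherwise the term `ξ_i²` has strictly the smallest order). -/
theorem bq_inf (h : Bq s ξ₁ ξ₂ (-B₁) (-F₁) (-B₂) (-F₂) σ₁ σ₂) (A : k[X]) (w : k)
    (h₁ : B₁.natDegree < A.natDegree) (h₂ : F₁.natDegree < 2 * A.natDegree)
    (h₃ : B₂.natDegree < A.natDegree) (h₄ : F₂.natDegree < 2 * A.natDegree) :
    (∀ v : Place k E Ω, s ∈ v.V → ξ₁ - aeval s A - algebraMap k E w * ξ₂ ∈ v.V) ∧
      ∀ (v : Place k E Ω) (m : ℤ), s ∉ v.V → v.IsOrd s m →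
        v.IsOrd (ξ₁ - aeval s A - algebraMap k E w * ξ₂) (A.natDegree * m) := by
  have e₁ : ξ₁ ^ 2 + aeval s B₁ * ξ₁ = aeval s F₁ := by
    have h5 := h.eq₁
    rw [map_neg, map_neg] at h5
    linear_combination h5
  have e₂ : ξ₂ ^ 2 + aeval s B₂ * ξ₂ = aeval s F₂ := by
    have h5 := h.eq₂
    rw [map_neg, map_neg] at h5
    linear_combination h5
  refine ⟨fun v hs => ?_, fun v m hs hm => ?_⟩
  · rw [← v.V.valuation_le_one_iff]
    have y₁ := bq_quad_le v e₁ (bq_poly v hs B₁) (bq_poly v hs F₁)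
    have y₂ := bq_quad_le v e₂ (bq_poly v hs B₂) (bq_poly v hs F₂)
    rw [sub_eq_add_neg, sub_eq_add_neg]
    refine Valuation.map_add_le _ (Valuation.map_add_le _ y₁ ?_) ?_
    · rw [Valuation.map_neg]
      exact bq_poly v hs A
    · rw [Valuation.map_neg, map_mul]
      exact mul_le_one' (bq_con v w) y₂
  · have hs1 : 1 < v.V.valuation s := by
      rw [← not_le, v.V.valuation_le_one_iff]
      exact hs
    have hs0 : s ≠ 0 := by
      rintro rfl
      exact hs (zero_mem _)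
    have hA : 0 < A.natDegree := lt_of_le_of_lt (Nat.zero_le _) h₁
    have y₁ := bq_quad_lt v (bq_scale (c := s⁻¹) A.natDegree e₁)
      (bq_lt v hs1 B₁ _ h₁) (bq_lt v hs1 F₁ _ h₂)
    have y₂ := bq_quad_lt v (bq_scale (c := s⁻¹) A.natDegree e₂)
      (bq_lt v hs1 B₂ _ h₃) (bq_lt v hs1 F₂ _ h₄)
    have hu : v.V.valuation ((ξ₁ - aeval s A - algebraMap k E w * ξ₂) * s⁻¹ ^ A.natDegree) = 1 := by
      have e : (ξ₁ - aeval s A - algebraMap k E w * ξ₂) * s⁻¹ ^ A.natDegree =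
          (ξ₁ * s⁻¹ ^ A.natDegree + -(algebraMap k E w * (ξ₂ * s⁻¹ ^ A.natDegree))) +
            -(aeval s A * s⁻¹ ^ A.natDegree) := by ring
      have h6 : v.V.valuation (-(aeval s A * s⁻¹ ^ A.natDegree)) = 1 := by
        rw [Valuation.map_neg]
        exact bq_lead v hs1 A hA
      rw [e, Valuation.map_add_eq_of_lt_right, h6]
      rw [h6]
      refine Valuation.map_add_lt _ y₁ ?_
      rw [Valuation.map_neg, map_mul]
      exact lt_of_le_of_lt (mul_le_of_le_one_left' (bq_con v w)) y₂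
    obtain ⟨π, u, hπ, hπ', hu1, hu2, hu0, hsu⟩ := hm
    have hg : ξ₁ - aeval s A - algebraMap k E w * ξ₂ =
        ((ξ₁ - aeval s A - algebraMap k E w * ξ₂) * s⁻¹ ^ A.natDegree * u ^ A.natDegree) *
          π ^ ((A.natDegree : ℤ) * m) := by
      have h7 : s ^ A.natDegree = u ^ A.natDegree * π ^ ((A.natDegree : ℤ) * m) := by
        rw [hsu, mul_pow, mul_comm (A.natDegree : ℤ) m, zpow_mul, zpow_natCast]
      rw [mul_assoc, ← h7, mul_assoc, ← mul_pow, inv_mul_cancel₀ hs0, one_pow, mul_one]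
    have hne : (ξ₁ - aeval s A - algebraMap k E w * ξ₂) * s⁻¹ ^ A.natDegree ≠ 0 := by
      intro h8
      rw [h8, map_zero] at hu
      exact zero_ne_one hu
    refine ⟨π, _, hπ, hπ', ?_, ?_, mul_ne_zero hne (pow_ne_zero _ hu0), hg⟩
    · exact mul_mem ((v.V.valuation_le_one_iff _).1 hu.le) (pow_mem hu1 _)
    · rw [mul_inv, ← inv_pow]
      refine mul_mem ((v.V.valuation_le_one_iff _).1 ?_) (pow_mem hu2 _)
      rw [map_inv₀, hu, inv_one]

/-- **The zeros.** `n` is the norm, assumed to be squarefree. Every zero `z` of `n` is the value of `s` at exactly one place `p z` where `g`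
vanishes; the order of `g` there is `1`; these are all zeros of `g`. Proof: let `d = deg A`; `n` has `4 d` distinct zeros in `Ω`. For a
zero `z` there is a place over `s = z` (`exists_plc` for `k[s]`); the norm vanishes there, so one of the four conjugates of `g` does
(`bq_nrm`), and a composite of the place with an automorphism (`Qb.cmp`) is a place over `s = z` where `g` vanishes. The sum of the orders of the zeros of
`g` is the sum of the orders of its poles (`Dz.sum_zeros` for `g` and `g⁻¹`; `g` is transcendental since it has a zero), which is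
`d` times the sum of the orders of the poles of `s`, `= 4 d`. -/
theorem bq_zeros (h : Bq s ξ₁ ξ₂ (-B₁) (-F₁) (-B₂) (-F₂) σ₁ σ₂) (A : k[X]) (w : k)
    (h₁ : B₁.natDegree < A.natDegree) (h₂ : F₁.natDegree < 2 * A.natDegree)
    (h₃ : B₂.natDegree < A.natDegree) (h₄ : F₂.natDegree < 2 * A.natDegree)
    (hn : Squarefree (nrm B₁ F₁ B₂ F₂ A (C w))) :
    ∃ p : Ω → Place k E Ω,
      (∀ z : Ω, aeval z (nrm B₁ F₁ B₂ F₂ A (C w)) = 0 →
        (p z).IsOrd (ξ₁ - aeval s A - algebraMap k E w * ξ₂) 1 ∧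
          ∃ hs : s ∈ (p z).V, (p z).res ⟨s, hs⟩ = z) ∧
      ∀ v : Place k E Ω, ξ₁ - aeval s A - algebraMap k E w * ξ₂ ∈ v.V.nonunits →
        ∃ z : Ω, aeval z (nrm B₁ F₁ B₂ F₂ A (C w)) = 0 ∧ v = p z := by
  obtain ⟨h5, h6⟩ := bq_inf (Ω := Ω) h A w h₁ h₂ h₃ h₄
  have hnrm := bq_nrm h A w
  have g0 : ξ₁ - aeval s A - algebraMap k E w * ξ₂ ≠ 0 := by
    intro h0
    rw [h0, zero_mul, zero_mul] at hnrm
    exact hn.ne_zero ((transcendental_iff.1 h.tr) _ hnrm.symm)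
  refine bqa_count h.ff h.tr h.rank (by omega) g0 hn (bq_deg A w h₁ h₂ h₃ h₄) ?_ h5 h6
  intro z hz
  obtain ⟨v, hv, hv'⟩ := bqa_plc h.ff h.tr hn.ne_zero hz
  rw [← hnrm, ValuationSubring.mem_nonunits_iff, map_mul, map_mul, map_mul] at hv'
  generalize ξ₁ - aeval s A - algebraMap k E w * ξ₂ = g at hv' ⊢
  by_cases c1 : g ∈ v.V.nonunits
  · exact ⟨v, c1, hv⟩
  by_cases c2 : σ₁ g ∈ v.V.nonunits
  · exact ⟨Qb.cmp σ₁ v, (Qb.nonunits_cmp _ _ _).2 c2, bqa_cmp h.s₁ hv⟩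
  by_cases c3 : σ₂ g ∈ v.V.nonunits
  · exact ⟨Qb.cmp σ₂ v, (Qb.nonunits_cmp _ _ _).2 c3, bqa_cmp h.s₂ hv⟩
  by_cases c4 : σ₁ (σ₂ g) ∈ v.V.nonunits
  · exact ⟨Qb.cmp σ₂ (Qb.cmp σ₁ v), (Qb.nonunits_cmp _ _ _).2 ((Qb.nonunits_cmp _ _ _).2 c4),
      bqa_cmp h.s₂ (bqa_cmp h.s₁ hv)⟩
  rw [ValuationSubring.mem_nonunits_iff, not_lt] at c1 c2 c3 c4
  exact absurd hv' (not_lt.2 (one_le_mul (one_le_mul c1 c2) (one_le_mul c3 c4)))

end PE
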