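import Pool.Agent.Lib.MP_f80667_ag.Pe.Kn

/-! The map from the product to the surface and rational equivalence. -/

open ZC BE Polynomial

namespace PE

section val

variable {F M : Type} [Field F] [Field M] [Algebra F M] {f g : F[X]} {W W₁ W₂ : WeierstrassCurve M}
  {K L Ω : Type} [Field K] [Field L] [Field Ω] [Algebra K L] [Algebra K Ω] [Algebra M K]
  [Algebra M L] [Algebra M Ω] [IsScalarTower M K L] [IsScalarTower M K Ω] [Algebra F K]
  [Algebra F L] [Algebra F Ω] [IsScalarTower F K L] [IsScalarTower F K Ω] [IsScalarTower F M L]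
  [IsScalarTower F M Ω]

omit [Algebra F K] [Algebra F L] [Algebra F Ω] [IsScalarTower F K L] [IsScalarTower F K Ω]
  [IsScalarTower F M L] [IsScalarTower F M Ω] [Algebra M K] [IsScalarTower M K L]
  [IsScalarTower M K Ω] [Algebra M L] [Algebra M Ω] [Algebra F M] [Field F] [Field M] in
private theorem kr_rd {w : Place K L Ω} {v : L × L} {u : Ω × Ω} (h₁ : Hv w v.1 u.1)
    (h₂ : Hv w v.2 u.2) : Rd w v u :=
  ⟨h₁.1, h₂.1, h₁.2, h₂.2⟩

/-- The value of the `x`-coordinate. Proof: `P = (x, y)`, `x` not in the valuation ring: `a = x⁻¹`; `(a ^ 2 eta P) ^ 2 = pf W (1, a)` (`eta_sq`) has value `0`, so `a ^ 2 eta P` has value `0` (a valuation ring is integrally closed). In the other cases `a = 1`. -/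
theorem xh_red (w : Place K L Ω) {P : Pt W L} {Q : Pt W Ω} (h : Pt.Red W w P Q) :
    ∃ a : L, a ≠ 0 ∧ Rd w (a * (xh P).1, a * (xh P).2) (xh Q) ∧ Hv w (a ^ 2 * eta P) (eta Q) := by
  obtain rfl | ⟨x, y, hxy, rfl⟩ := plr_cases P
  · rw [red_zero_iff] at h
    subst h
    refine ⟨1, one_ne_zero, kr_rd ?_ ?_, ?_⟩
    · change Hv w (1 * 1 : L) (1 : Ω)
      rw [mul_one]
      exact Hv.one
    · change Hv w (1 * 0 : L) (0 : Ω)
      rw [mul_zero]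
      exact Hv.zero
    · change Hv w (1 ^ 2 * 0 : L) (0 : Ω)
      rw [mul_zero]
      exact Hv.zero
  · rw [red_aff_iff] at h
    obtain ⟨hx, rfl⟩ | ⟨r, t, h', hr, ht, rfl⟩ := h
    · have hx0 : x ≠ 0 := by
        rintro rfl
        exact hx (zero_mem _)
      have hi : Hv w x⁻¹ (0 : Ω) := Hv.of_not_mem hx
      refine ⟨x⁻¹, inv_ne_zero hx0, kr_rd ?_ ?_, ?_⟩
      · change Hv w (x⁻¹ * x : L) (1 : Ω)
        rw [inv_mul_cancel₀ hx0]
        exact Hv.one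
      · change Hv w (x⁻¹ * 1 : L) (0 : Ω)
        rw [mul_one]
        exact hi
      · change Hv w (x⁻¹ ^ 2 * eta (Pt.aff x y hxy) : L) (0 : Ω)
        apply Hv.of_sq
        have e1 : (x⁻¹ ^ 2 * eta (Pt.aff x y hxy)) ^ 2 = x⁻¹ * (4 + algebraMap M L W.b₂ * x⁻¹ +
            2 * algebraMap M L W.b₄ * x⁻¹ ^ 2 + algebraMap M L W.b₆ * x⁻¹ ^ 3) := by
          rw [mul_pow, eta_sq]
          change (x⁻¹ ^ 2) ^ 2 * (1 * (4 * x ^ 3 + algebraMap M L W.b₂ * x ^ 2 * 1 +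
            2 * algebraMap M L W.b₄ * x * 1 ^ 2 + algebraMap M L W.b₆ * 1 ^ 3)) = _
          field_simp
        rw [e1]
        have h4 : Hv w (4 : L) (4 : Ω) := by
          have h5 := (Hv.two (w := w)).mul (Hv.two (w := w))
          have e4 : (2 : L) * 2 = 4 := by norm_num
          have e4' : (2 : Ω) * 2 = 4 := by norm_num
          rwa [e4, e4'] at h5
        have h6 := hi.mul (((h4.add ((plr_hv w W.b₂).mul hi)).add
          ((Hv.two.mul (plr_hv w W.b₄)).mul (hi.pow 2))).add ((plr_hv w W.b₆).mul (hi.pow 3)))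
        rwa [zero_mul] at h6
    · refine ⟨1, one_ne_zero, kr_rd ?_ ?_, ?_⟩
      · change Hv w (1 * x : L) (r : Ω)
        rw [one_mul]
        exact hr
      · change Hv w (1 * 1 : L) (1 : Ω)
        rw [mul_one]
        exact Hv.one
      · change Hv w (1 ^ 2 * (2 * y + algebraMap M L W.a₁ * x + algebraMap M L W.a₃) : L)
          (2 * t + algebraMap M Ω W.a₁ * r + algebraMap M Ω W.a₃ : Ω)
        rw [one_pow, one_mul]
        exact ((Hv.two.mul ht).add ((plr_hv w W.a₁).mul hr)).add (plr_hv w W.a₃)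

theorem mv_red (w : Place K L Ω) (Q : Qm f W) {v : L × L} {u : Ω × Ω} (h : Rd w v u) :
    Rd w (Q.mv v) (Q.mv u) := by
  obtain ⟨h₁, h₂, e₁, e₂⟩ := h
  have k₁ : Hv w v.1 u.1 := ⟨h₁, e₁⟩
  have k₂ : Hv w v.2 u.2 := ⟨h₂, e₂⟩
  exact kr_rd (((plr_hv w Q.p).mul k₁).add ((plr_hv w Q.q).mul k₂))
    (((plr_hv w Q.r).mul k₁).add ((plr_hv w Q.s).mul k₂))

omit [Algebra M K] [IsScalarTower M K L] [IsScalarTower M K Ω] [Algebra F K] [Algebra F L]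
  [Algebra F Ω] [IsScalarTower F K L] [IsScalarTower F K Ω] [IsScalarTower F M L]
  [IsScalarTower F M Ω] [Field K] [Algebra K L] [Algebra K Ω] [Field Ω] [Algebra M Ω] in
private theorem kr_mv (Q : Qm f W) (a : L) (v : L × L) :
    Q.mv (a * v.1, a * v.2) = (a * (Q.mv v).1, a * (Q.mv v).2) := by
  unfold Qm.mv
  refine Prod.ext ?_ ?_
  · dsimp only
    ring
  · dsimp only
    ring

private theorem kr_ne {N : Type} [Field N] {a : N} (ha : a ≠ 0) {v : N × N} (hv : v ≠ 0) :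
    ((a * v.1, a * v.2) : N × N) ≠ 0 := by
  intro h0
  apply hv
  exact Prod.ext ((mul_eq_zero.1 (congrArg Prod.fst h0)).resolve_left ha)
    ((mul_eq_zero.1 (congrArg Prod.snd h0)).resolve_left ha)

private theorem kr_prop {N : Type} [Field N] {u t : N × N} (hu : u ≠ 0) (ht : t ≠ 0)
    (h : t.1 * u.2 = t.2 * u.1) : ∃ e : N, e ≠ 0 ∧ u = (e * t.1, e * t.2) := by
  by_cases h1 : t.1 = 0
  · have h2 : t.2 ≠ 0 := fun h2 => ht (Prod.ext h1 h2)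
    have h3 : u.1 = 0 := by
      rw [h1, zero_mul] at h
      exact (mul_eq_zero.1 h.symm).resolve_left h2
    have h4 : u.2 ≠ 0 := fun h4 => hu (Prod.ext h3 h4)
    refine ⟨u.2 / t.2, div_ne_zero h4 h2, Prod.ext ?_ ?_⟩
    · change u.1 = u.2 / t.2 * t.1
      rw [h1, mul_zero, h3]
    · change u.2 = u.2 / t.2 * t.2
      rw [div_mul_cancel₀ _ h2]
  · have h4 : u.1 ≠ 0 := by
      intro h4
      rw [h4, mul_zero] at h
      exact hu (Prod.ext h4 ((mul_eq_zero.1 h).resolve_left h1))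
    refine ⟨u.1 / t.1, div_ne_zero h4 h1, Prod.ext ?_ ?_⟩
    · change u.1 = u.1 / t.1 * t.1
      rw [div_mul_cancel₀ _ h1]
    · change u.2 = u.1 / t.1 * t.2
      rw [div_mul_eq_mul_div, eq_div_iff h1, mul_comm u.1, ← h, mul_comm]

/-- The value of `kpi P`. Proof: `xh_red` for both components with factors `a`, `b`; choose `c` with `(T₀, T₁) = (c b ^ 2 t₀, c a ^ 2 t₁)` primitive with value `(τ₀, τ₁)` (`rd_prim`, `(t₀, t₁) = kt P`); `y` has the coordinates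
`mv (xh P'.1)`, `mv (xh P'.2)`, `(τ₀, τ₁)`. `T₀ (a ^ 2 c₁ eta P.1) = T₁ (b ^ 2 c₂ eta P.2)`, hence `τ₀ c₁ eta P'.1 = τ₁ c₂ eta P'.2`. If `eta P'.1 = eta P'.2 = 0` then `knu y` has
`t = (1, 0)`; otherwise (`(τ₀, τ₁)` is a multiple of `kt P'`) `knu y = y` is `kpi P'`. -/
theorem kpi_red (w : Place K L Ω) (Q₁ : Qm f W₁) (Q₂ : Qm g W₂) {P : Pt W₁ L × Pt W₂ L}
    {P' : Pt W₁ Ω × Pt W₂ Ω} (h₁ : Pt.Red W₁ w P.1 P'.1) (h₂ : Pt.Red W₂ w P.2 P'.2) :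
    ∃ y, (Kv f g).red w (kpi Q₁ Q₂ P) y ∧ knu y = kpi Q₁ Q₂ P' := by
  classical
  obtain ⟨a, ha, hax, hae⟩ := xh_red w h₁
  obtain ⟨b, hb, hbx, hbe⟩ := xh_red w h₂
  have ht0 : ((b ^ 2 * (kt Q₁ Q₂ P).1, a ^ 2 * (kt Q₁ Q₂ P).2) : L × L) ≠ 0 := by
    intro h0
    apply kt_ne Q₁ Q₂ P
    exact Prod.ext ((mul_eq_zero.1 (congrArg Prod.fst h0)).resolve_left (pow_ne_zero 2 hb))
      ((mul_eq_zero.1 (congrArg Prod.snd h0)).resolve_left (pow_ne_zero 2 ha))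
  obtain ⟨c, τ, hc, hτ, hct⟩ := rd_prim w ht0
  obtain ⟨hct1, hct2⟩ := (rd_iff w _ _).1 hct
  dsimp only at hct1 hct2
  have rx : Rd w (a * (Q₁.mv (xh P.1)).1, a * (Q₁.mv (xh P.1)).2) (Q₁.mv (xh P'.1)) := by
    rw [← kr_mv]
    exact mv_red w Q₁ hax
  have ry : Rd w (b * (Q₂.mv (xh P.2)).1, b * (Q₂.mv (xh P.2)).2) (Q₂.mv (xh P'.2)) := by
    rw [← kr_mv]
    exact mv_red w Q₂ hbx
  have ePL : qf f (Q₁.mv (xh P.1)) * (kt Q₁ Q₂ P).1 ^ 2 =
      qf g (Q₂.mv (xh P.2)) * (kt Q₁ Q₂ P).2 ^ 2 := (kpc Q₁ Q₂ P).eq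
  have eL : qf f (a * (Q₁.mv (xh P.1)).1, a * (Q₁.mv (xh P.1)).2) *
      (c * (b ^ 2 * (kt Q₁ Q₂ P).1)) ^ 2 =
      qf g (b * (Q₂.mv (xh P.2)).1, b * (Q₂.mv (xh P.2)).2) *
      (c * (a ^ 2 * (kt Q₁ Q₂ P).2)) ^ 2 := by
    rw [qf_mul, qf_mul]
    linear_combination (a ^ 4 * b ^ 4 * c ^ 2) * ePL
  have eO : qf f (Q₁.mv (xh P'.1)) * τ.1 ^ 2 = qf g (Q₂.mv (xh P'.2)) * τ.2 ^ 2 := by
    have k1 := (rd_qf w f rx).mul (hct1.pow 2)
    have k2 := (rd_qf w g ry).mul (hct2.pow 2)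
    rw [eL] at k1
    exact k1.uniq k2
  let R : Kc f g L :=
    { x := (a * (Q₁.mv (xh P.1)).1, a * (Q₁.mv (xh P.1)).2)
      y := (b * (Q₂.mv (xh P.2)).1, b * (Q₂.mv (xh P.2)).2)
      t := (c * (b ^ 2 * (kt Q₁ Q₂ P).1), c * (a ^ 2 * (kt Q₁ Q₂ P).2))
      hx := kr_ne ha (Q₁.mv_ne (xh_ne _))
      hy := kr_ne hb (Q₂.mv_ne (xh_ne _))
      ht := kr_ne hc ht0
      eq := eL }
  let Y : Kc f g Ω :=
    { x := Q₁.mv (xh P'.1)
      y := Q₂.mv (xh P'.2)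
      t := τ
      hx := Q₁.mv_ne (xh_ne _)
      hy := Q₂.mv_ne (xh_ne _)
      ht := hτ
      eq := eO }
  have hR : (kpc Q₁ Q₂ P).Rel R := by
    refine ⟨a, b, c, ha, hb, hc, rfl, rfl, ?_⟩
    change ((c * (b ^ 2 * (kt Q₁ Q₂ P).1), c * (a ^ 2 * (kt Q₁ Q₂ P).2)) : L × L) =
      (c * b ^ 2 * (kt Q₁ Q₂ P).1, c * a ^ 2 * (kt Q₁ Q₂ P).2)
    rw [mul_assoc, mul_assoc]
  refine ⟨Quotient.mk _ Y, ⟨R, Y, Quotient.sound hR, rfl, rx, ry, hct⟩, ?_⟩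
  change (Quotient.mk (Kc.sd f g Ω) (Kc.nu Y) : Quotient (Kc.sd f g Ω)) =
    Quotient.mk (Kc.sd f g Ω) (kpc Q₁ Q₂ P')
  have qx : qf f Y.x = (algebraMap M Ω Q₁.c * eta P'.1) ^ 2 := Q₁.sq P'.1
  have qy : qf g Y.y = (algebraMap M Ω Q₂.c * eta P'.2) ^ 2 := Q₂.sq P'.2
  have hc1 : algebraMap M Ω Q₁.c ≠ 0 := (map_ne_zero (algebraMap M Ω)).2 Q₁.hc
  have hc2 : algebraMap M Ω Q₂.c ≠ 0 := (map_ne_zero (algebraMap M Ω)).2 Q₂.hc
  by_cases h0 : eta P'.1 = 0 ∧ eta P'.2 = 0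
  · have h1 : qf f Y.x = 0 ∧ qf g Y.y = 0 := by
      rw [qx, qy, h0.1, h0.2, mul_zero, mul_zero]
      exact ⟨zero_pow two_ne_zero, zero_pow two_ne_zero⟩
    refine Quotient.sound ⟨1, 1, 1, one_ne_zero, one_ne_zero, one_ne_zero, ?_, ?_, ?_⟩
    · rw [Kc.nu, dif_pos h1]
      change Q₁.mv (xh P'.1) = (1 * (Q₁.mv (xh P'.1)).1, 1 * (Q₁.mv (xh P'.1)).2)
      rw [one_mul, one_mul]
    · rw [Kc.nu, dif_pos h1]
      change Q₂.mv (xh P'.2) = (1 * (Q₂.mv (xh P'.2)).1, 1 * (Q₂.mv (xh P'.2)).2)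
      rw [one_mul, one_mul]
    · rw [Kc.nu, dif_pos h1]
      change kt Q₁ Q₂ P' = (1 * 1 ^ 2 * 1, 1 * 1 ^ 2 * 0)
      rw [kt, if_pos h0, one_pow, mul_one, mul_one, mul_zero]
  · have h1 : ¬ (qf f Y.x = 0 ∧ qf g Y.y = 0) := by
      rintro ⟨h2, h3⟩
      rw [qx] at h2
      rw [qy] at h3
      exact h0 ⟨(mul_eq_zero.1 (pow_eq_zero_iff two_ne_zero |>.1 h2)).resolve_left hc1,
        (mul_eq_zero.1 (pow_eq_zero_iff two_ne_zero |>.1 h3)).resolve_left hc2⟩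
    have kO : kt Q₁ Q₂ P' = (algebraMap M Ω Q₂.c * eta P'.2, algebraMap M Ω Q₁.c * eta P'.1) := by
      rw [kt, if_neg h0]
    have eT : c * (b ^ 2 * (kt Q₁ Q₂ P).1) * (algebraMap M L Q₁.c * (a ^ 2 * eta P.1)) =
        c * (a ^ 2 * (kt Q₁ Q₂ P).2) * (algebraMap M L Q₂.c * (b ^ 2 * eta P.2)) := by
      rw [kt]
      split_ifs with h
      · rw [h.1, h.2]
        ring
      · dsimp only
        ring
    have eτ : τ.1 * (kt Q₁ Q₂ P').2 = τ.2 * (kt Q₁ Q₂ P').1 := by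
      rw [kO]
      have k1 := hct1.mul ((plr_hv w Q₁.c).mul hae)
      have k2 := hct2.mul ((plr_hv w Q₂.c).mul hbe)
      rw [eT] at k1
      exact k1.uniq k2
    obtain ⟨e, he, hte⟩ := kr_prop (kt_ne Q₁ Q₂ P') hτ eτ
    refine Quotient.sound ⟨1, 1, e, one_ne_zero, one_ne_zero, he, ?_, ?_, ?_⟩
    · rw [Kc.nu, dif_neg h1]
      change Q₁.mv (xh P'.1) = (1 * (Q₁.mv (xh P'.1)).1, 1 * (Q₁.mv (xh P'.1)).2)
      rw [one_mul, one_mul]
    · rw [Kc.nu, dif_neg h1]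
      change Q₂.mv (xh P'.2) = (1 * (Q₂.mv (xh P'.2)).1, 1 * (Q₂.mv (xh P'.2)).2)
      rw [one_mul, one_mul]
    · rw [Kc.nu, dif_neg h1]
      change kt Q₁ Q₂ P' = (e * 1 ^ 2 * τ.1, e * 1 ^ 2 * τ.2)
      rw [one_pow, mul_one, hte]

end val

section rat

variable {F M : Type} [Field F] [Field M] [Algebra F M] {f g : F[X]} {W₁ W₂ : WeierstrassCurve M}
  {K : Type} [Field K] [CharZero K] [Algebra F K] [Algebra M K] [IsScalarTower F M K] {Ω : Type}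
  [Field Ω] [Algebra K Ω] [Algebra F Ω] [Algebra M Ω] [IsScalarTower F K Ω] [IsScalarTower M K Ω]
  [IsScalarTower F M Ω] [IsAlgClosure K Ω]

/-- The push-forward of a cycle rationally equivalent to `0`. -/
theorem kpi_ratEq (Q₁ : Qm f W₁) (Q₂ : Qm g W₂) {z : (Xv W₁ W₂).pt Ω →₀ ℤ}
    (hz : z ∈ (Xv W₁ W₂).ratEq K Ω) :
    Finsupp.mapDomain (kpi Q₁ Q₂) z ∈ (Kv f g).ratEq K Ω := by
  classical
  have h : (Xv W₁ W₂).ratEq K Ω ≤ ((Kv f g).ratEq K Ω).comap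
      (Finsupp.mapDomain.addMonoidHom (kpi Q₁ Q₂)) := by
    rw [Vr.ratEq, AddSubgroup.closure_le]
    rintro _ ⟨E, i1, i2, i3, i4, hE, G, x, hG, hx, S, m, y, hS, hv, rfl⟩
    change Finsupp.mapDomain (kpi Q₁ Q₂) _ ∈ (Kv f g).ratEq K Ω
    let i5 : Algebra F E := ((algebraMap K E).comp (algebraMap F K)).toAlgebra
    have i6 : IsScalarTower F K E := IsScalarTower.of_algebraMap_eq fun _ => rfl
    have i7 : IsScalarTower F M E := by
      refine IsScalarTower.of_algebraMap_eq fun a => ?_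
      rw [IsScalarTower.algebraMap_apply F K E, IsScalarTower.algebraMap_apply M K E,
        ← IsScalarTower.algebraMap_apply F M K]
    have i8 : IsScalarTower F M (AlgebraicClosure E) := by
      refine IsScalarTower.of_algebraMap_eq fun a => ?_
      rw [IsScalarTower.algebraMap_apply F E (AlgebraicClosure E),
        IsScalarTower.algebraMap_apply M E (AlgebraicClosure E),
        ← IsScalarTower.algebraMap_apply F M E]
    let x' : Pt W₁ (AlgebraicClosure E) × Pt W₂ (AlgebraicClosure E) := x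
    let y' : Place K E Ω → Pt W₁ Ω × Pt W₂ Ω := y
    have h1 : ∀ w ∈ S, ∃ u : (Kv f g).pt Ω, (Kv f g).IsVal w (kpi Q₁ Q₂ x') u ∧
        knu u = kpi Q₁ Q₂ (y' w) := by
      intro w hw
      obtain ⟨W, h2, h3, h4⟩ := (hv w hw).2
      obtain ⟨u, hu, hu'⟩ := kpi_red W Q₁ Q₂ (P := x') (P' := y' w) h4.1 h4.2
      exact ⟨u, ⟨W, h2, h3, hu⟩, hu'⟩
    have hne : Nonempty ((Kv f g).pt Ω) := ⟨kpi Q₁ Q₂ ((0, 0) : Pt W₁ Ω × Pt W₂ Ω)⟩
    choose! u hu hu' using h1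
    have h2 : ∑ w ∈ S, Finsupp.single (u w) (m w) ∈ (Kv f g).ratEq K Ω := by
      refine AddSubgroup.subset_closure ⟨E, i1, i2, i5, i6, hE, G, kpi Q₁ Q₂ x', hG, fun σ => ?_, S,
        m, u, hS, fun w hw => ⟨(hv w hw).1, hu w hw⟩, rfl⟩
      have h3 := kpi_map Q₁ Q₂ (σ.restrictScalars M : AlgebraicClosure E →ₐ[M] AlgebraicClosure E) x'
      refine Eq.trans h3 ?_
      exact congrArg (kpi Q₁ Q₂) (hx σ)
    have h3 := add_mem (nu_ratEq (ratEq_cyc h2)) h2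
    rw [sub_add_cancel] at h3
    have e : Finsupp.mapDomain (kpi Q₁ Q₂) (∑ w ∈ S, Finsupp.single (y' w) (m w)) =
        Finsupp.mapDomain knu (∑ w ∈ S, Finsupp.single (u w) (m w)) := by
      rw [Finsupp.mapDomain_finsetSum, Finsupp.mapDomain_finsetSum]
      refine Finset.sum_congr rfl fun w hw => ?_
      rw [Finsupp.mapDomain_single, Finsupp.mapDomain_single, hu' w hw]
    exact e ▸ h3
  exact h hz

end rat

end PE
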