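import Pool.Agent.Lib.MP_f80667_ag.Pe.Pv

/-! Averages of functions. -/

open ZC BE Polynomial

namespace PE

/-- Coefficientwise traces of a polynomial. -/
private theorem avg_poly {K Ω : Type} [Field K] [CharZero K] [Field Ω] [Algebra K Ω]
    [IsAlgClosed Ω] (M : IntermediateField K Ω) [FiniteDimensional K M] (a : Polynomial Ω) (f : ℕ → M)
    (c : Ω) (hf : ∀ i, (f i : Ω) = c * a.coeff i) :
    ∃ a₀ : K[X], a₀.natDegree ≤ a.natDegree ∧ (∀ i, a₀.coeff i = Algebra.trace K M (f i)) ∧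
      ∀ x : Ω, aeval x a₀ = ∑ σ : M →ₐ[K] Ω,
        ∑ i ∈ Finset.range (a.natDegree + 1), σ (f i) * x ^ i := by
  classical
  have h0 : ∀ i, a.natDegree < i → f i = 0 := by
    intro i hi
    apply Subtype.ext
    rw [hf, Polynomial.coeff_eq_zero_of_natDegree_lt hi, mul_zero]
    rfl
  refine ⟨∑ i ∈ Finset.range (a.natDegree + 1), monomial i (Algebra.trace K M (f i)), ?_, ?_, ?_⟩
  · refine Polynomial.natDegree_sum_le_of_forall_le _ _ fun i hi => ?_
    exact (Polynomial.natDegree_monomial_le _).trans (Nat.lt_succ_iff.1 (Finset.mem_range.1 hi))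
  · intro i
    rw [Polynomial.finsetSum_coeff]
    simp only [Polynomial.coeff_monomial]
    rw [Finset.sum_ite_eq' (Finset.range (a.natDegree + 1)) i]
    split_ifs with h
    · rfl
    · rw [h0 i (by simpa using h), map_zero]
  · intro x
    rw [map_sum, Finset.sum_comm]
    refine Finset.sum_congr rfl fun i _ => ?_
    rw [aeval_monomial, trace_eq_sum_embeddings Ω, Finset.sum_mul]

/-- **Galois average.** `s` is a stable set of points. Proof: choose a nonzero coefficient of `a` or `b` and divide by it, so that it is `1`. The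
coefficients are in a finite Galois extension `M' ≤ Ω` of `M`; let `a₀`, `b₀` be the traces (coefficientwise) of `a`, `b` from `M'` to `M`: one
coefficient is `[M' : M] ≠ 0`, the degrees do not increase, and the conjugates of `(a, b)` vanish at the same stable set `s`. -/
theorem avg {F : Type} [Field F] {W : WeierstrassCurve F} {K Ω : Type} [Field K] [CharZero K]
    [Field Ω] [Algebra K Ω] [Algebra F K] [Algebra F Ω] [IsScalarTower F K Ω] [IsAlgClosure K Ω]
    (s : Set (Ω × Ω)) (hs : ∀ (γ : Ω ≃ₐ[K] Ω) (p : Ω × Ω), p ∈ s → (γ p.1, γ p.2) ∈ s)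
    (d : ℕ) {a b : Polynomial Ω} (hab : ¬(a = 0 ∧ b = 0)) (ha : 2 * a.natDegree ≤ d)
    (hb : b ≠ 0 → 2 * b.natDegree + 3 ≤ d) (h : ∀ p ∈ s, a.eval p.1 + b.eval p.1 * p.2 = 0) :
    ∃ a₀ b₀ : K[X], ¬(a₀ = 0 ∧ b₀ = 0) ∧ 2 * a₀.natDegree ≤ d ∧
      (b₀ ≠ 0 → 2 * b₀.natDegree + 3 ≤ d) ∧
      ∀ p ∈ s, aeval p.1 a₀ + aeval p.1 b₀ * p.2 = 0 := by
  classical
  have : IsAlgClosed Ω := IsAlgClosure.isAlgClosed K
  have : Algebra.IsAlgebraic K Ω := IsAlgClosure.isAlgebraic
  have : Normal K Ω := IsAlgClosure.normal K Ω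
  -- a nonzero coefficient
  obtain ⟨i₀, hi₀⟩ : ∃ i, a.coeff i ≠ 0 ∨ b.coeff i ≠ 0 := by
    by_contra hcon
    push Not at hcon
    exact hab ⟨Polynomial.ext fun i => (hcon i).1, Polynomial.ext fun i => (hcon i).2⟩
  obtain ⟨c, hc, hc'⟩ : ∃ c : Ω, c ≠ 0 ∧ (c = a.coeff i₀ ∨ c = b.coeff i₀) := by
    rcases hi₀ with h1 | h1
    · exact ⟨_, h1, Or.inl rfl⟩
    · exact ⟨_, h1, Or.inr rfl⟩
  -- the field of the coefficients
  obtain ⟨T, hT⟩ : ∃ T : Finset Ω, T = (Finset.range (a.natDegree + 1)).image (fun i => a.coeff i) ∪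
      (Finset.range (b.natDegree + 1)).image (fun i => b.coeff i) := ⟨_, rfl⟩
  obtain ⟨M, hM⟩ : ∃ M : IntermediateField K Ω, M = IntermediateField.adjoin K (T : Set Ω) :=
    ⟨_, rfl⟩
  have hfin : FiniteDimensional K M := by
    rw [hM]
    exact IntermediateField.finiteDimensional_adjoin fun x _ => Algebra.IsIntegral.isIntegral x
  have haM : ∀ i, a.coeff i ∈ M := by
    intro i
    by_cases hi : i ≤ a.natDegree
    · rw [hM]
      apply IntermediateField.subset_adjoin
      rw [hT]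
      simp only [Finset.coe_union, Set.mem_union, Finset.mem_coe, Finset.mem_image,
        Finset.mem_range]
      exact Or.inl ⟨i, by omega, rfl⟩
    · rw [Polynomial.coeff_eq_zero_of_natDegree_lt (by omega)]
      exact M.zero_mem
  have hbM : ∀ i, b.coeff i ∈ M := by
    intro i
    by_cases hi : i ≤ b.natDegree
    · rw [hM]
      apply IntermediateField.subset_adjoin
      rw [hT]
      simp only [Finset.coe_union, Set.mem_union, Finset.mem_coe, Finset.mem_image,
        Finset.mem_range]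
      exact Or.inr ⟨i, by omega, rfl⟩
    · rw [Polynomial.coeff_eq_zero_of_natDegree_lt (by omega)]
      exact M.zero_mem
  have hcM : c⁻¹ ∈ M := by
    apply M.inv_mem
    rcases hc' with h1 | h1
    · rw [h1]
      exact haM _
    · rw [h1]
      exact hbM _
  obtain ⟨f, hf⟩ : ∃ f : ℕ → M, ∀ i, (f i : Ω) = c⁻¹ * a.coeff i :=
    ⟨fun i => ⟨_, M.mul_mem hcM (haM i)⟩, fun _ => rfl⟩
  obtain ⟨g, hg⟩ : ∃ g : ℕ → M, ∀ i, (g i : Ω) = c⁻¹ * b.coeff i :=
    ⟨fun i => ⟨_, M.mul_mem hcM (hbM i)⟩, fun _ => rfl⟩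
  obtain ⟨a₀, ha1, ha2, ha3⟩ := avg_poly M a f c⁻¹ hf
  obtain ⟨b₀, hb1, hb2, hb3⟩ := avg_poly M b g c⁻¹ hg
  have htr : Algebra.trace K M 1 ≠ 0 := by
    have h1 := Algebra.trace_algebraMap (S := M) (1 : K)
    rw [map_one] at h1
    rw [h1, nsmul_eq_mul, mul_one]
    exact Nat.cast_ne_zero.2 Module.finrank_pos.ne'
  refine ⟨a₀, b₀, ?_, ?_, ?_, ?_⟩
  · rintro ⟨h1, h2⟩
    rcases hc' with h3 | h3
    · have h4 : f i₀ = 1 := by
        apply Subtype.ext
        rw [hf, ← h3, inv_mul_cancel₀ hc]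
        rfl
      have h5 := ha2 i₀
      rw [h1, h4, Polynomial.coeff_zero] at h5
      exact htr h5.symm
    · have h4 : g i₀ = 1 := by
        apply Subtype.ext
        rw [hg, ← h3, inv_mul_cancel₀ hc]
        rfl
      have h5 := hb2 i₀
      rw [h2, h4, Polynomial.coeff_zero] at h5
      exact htr h5.symm
  · omega
  · intro h1
    have h2 : b ≠ 0 := by
      intro h2
      apply h1
      ext i
      rw [hb2]
      have h3 : g i = 0 := by
        apply Subtype.ext
        rw [hg, h2, Polynomial.coeff_zero, mul_zero]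
        rfl
      rw [h3, map_zero, Polynomial.coeff_zero]
    have := hb h2
    omega
  · intro p hp
    rw [ha3, hb3, Finset.sum_mul, ← Finset.sum_add_distrib]
    refine Finset.sum_eq_zero fun σ _ => ?_
    -- extend the embedding
    obtain ⟨γ, hγ⟩ : ∃ γ : Ω ≃ₐ[K] Ω, ∀ x : M, γ x = σ x := by
      refine ⟨AlgEquiv.ofBijective (σ.liftNormal Ω) (Algebra.IsAlgebraic.algHom_bijective _), ?_⟩
      intro x
      exact σ.liftNormal_commutes Ω x
    have h1 := h _ (hs γ.symm p hp)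
    have h2 := congrArg γ h1
    rw [map_zero, map_add, map_mul, AlgEquiv.apply_symm_apply] at h2
    have key : ∀ (q : Polynomial Ω) (u : ℕ → M), (∀ i, (u i : Ω) = c⁻¹ * q.coeff i) →
        ∑ i ∈ Finset.range (q.natDegree + 1), σ (u i) * p.1 ^ i =
          γ c⁻¹ * γ (q.eval (γ.symm p.1)) := by
      intro q u hu
      rw [Polynomial.eval_eq_sum_range, map_sum, Finset.mul_sum]
      refine Finset.sum_congr rfl fun i _ => ?_
      rw [← hγ, hu, map_mul, map_mul, map_pow, AlgEquiv.apply_symm_apply]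
      ring
    rw [key a f hf, key b g hg]
    have h3 : γ c⁻¹ * γ (a.eval (γ.symm p.1)) + γ c⁻¹ * γ (b.eval (γ.symm p.1)) * p.2 =
        γ c⁻¹ * (γ (a.eval (γ.symm p.1)) + γ (b.eval (γ.symm p.1)) * p.2) := by ring
    rw [h3, h2, mul_zero]

end PE
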