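import Pool.Agent.Lib.MP_f80667_ag.Pe.Dv
import Pool.Agent.Lib.MP_f80667_ag.Pe.Avg

/-! Lemmas for Abel's theorem. -/

open ZC BE Polynomial

namespace PE

section ord

variable {K E Ω : Type} [Field K] [Field E] [Algebra K E] [Field Ω] [Algebra K Ω]

/-- The order of a regular function. -/
theorem aba_nonneg {w : Place K E Ω} {g : E} {k : ℤ} (h : w.IsOrd g k) (hg : g ∈ w.V) :
    0 ≤ k := by
  obtain ⟨π, h1, h2, -, h4⟩ := Place.ord_aux h
  by_contra hk
  have h5 := (w.V.valuation_le_one_iff g).2 hg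
  rw [h4] at h5
  exact absurd h5 (not_le.2 (one_lt_zpow_of_neg₀ (zero_lt_iff.2 h2) h1 (not_le.1 hk)))

/-- The order of the elements of a power of the maximal ideal. -/
theorem aba_pow {w : Place K E Ω} {n : ℕ} {x : w.V}
    (hx : x ∈ IsLocalRing.maximalIdeal w.V ^ n) {k : ℤ} (h : w.IsOrd (x : E) k) : (n : ℤ) ≤ k := by
  obtain ⟨π, h1, h2, h3, h4⟩ := Place.ord_aux h
  have key : ∀ n : ℕ, ∀ y ∈ IsLocalRing.maximalIdeal w.V ^ n,
      w.V.valuation (y : E) ≤ w.V.valuation π ^ n := by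
    intro n
    induction n with
    | zero =>
      intro y _
      rw [pow_zero]
      exact (w.V.valuation_le_one_iff _).2 y.2
    | succ n ih =>
      intro y hy
      rw [pow_succ] at hy
      refine Submodule.mul_induction_on hy ?_ ?_
      · intro a ha b hb
        rw [pow_succ]
        have h5 : ((a * b : w.V) : E) = (a : E) * (b : E) := rfl
        rw [h5, map_mul]
        refine mul_le_mul' (ih a ha) (h3 _ ?_)
        rw [IsLocalRing.mem_maximalIdeal, mem_nonunits_iff] at hb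
        exact (w.V.valuation_lt_one_iff b).1 (by
          rw [IsLocalRing.mem_maximalIdeal, mem_nonunits_iff]
          exact hb)
      · intro a b ha hb
        have h5 : ((a + b : w.V) : E) = (a : E) + (b : E) := rfl
        rw [h5]
        exact (Valuation.map_add _ _ _).trans (max_le ha hb)
  by_contra hk
  have h5 := key n x hx
  rw [h4, ← zpow_natCast] at h5
  exact absurd h5 (not_le.2 (zpow_right_strictAnti₀ (zero_lt_iff.2 h2) h1 (not_le.1 hk)))

/-- An element with value `0` is in the maximal ideal. -/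
theorem aba_mem {w : Place K E Ω} {x : w.V} (hx : w.res x = 0) :
    x ∈ IsLocalRing.maximalIdeal w.V := by
  rw [IsLocalRing.mem_maximalIdeal, mem_nonunits_iff]
  intro hu
  exact (hu.map w.res).ne_zero hx

end ord

section val

variable {F : Type} [Field F] {W : WeierstrassCurve F} [W.IsElliptic] {M E Ω : Type} [Field M]
  [CharZero M] [Algebra F M] [Field E] [Algebra M E] [Algebra F E] [IsScalarTower F M E] {s η : E}
  {σ : E ≃ₐ[M] E} [Field Ω] [Algebra M Ω] [Algebra F Ω] [IsScalarTower F M Ω] [IsAlgClosed Ω]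

/-- The value of the generic point. -/
theorem aba_red (h : Qd s η (TW W M) (NW W M) σ) {w : Place M E Ω} {P : Pt W Ω} (hP : P ≠ 0)
    (hr : Pt.Red W w (gp h) P) : ∃ (hs : s ∈ w.V) (hη : η ∈ w.V)
      (hn : (W.baseChange Ω).toAffine.Nonsingular (w.res ⟨s, hs⟩) (w.res ⟨η, hη⟩)),
      P = Pt.aff _ _ hn := by
  have hr' : (s ∉ w.V ∧ P = 0) ∨
      ∃ (hx : s ∈ w.V) (hy : η ∈ w.V)
        (h : (W.baseChange Ω).toAffine.Nonsingular (w.res ⟨s, hx⟩) (w.res ⟨η, hy⟩)),
        P = Pt.aff _ _ h := hr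
  rcases hr' with ⟨-, h0⟩ | h1
  · exact (hP h0).elim
  · exact h1

/-- The value of a function. -/
theorem aba_res (w : Place M E Ω) (hs : s ∈ w.V) (hη : η ∈ w.V) (a b : M[X]) :
    ∃ hf : aeval s a + aeval s b * η ∈ w.V, w.res ⟨_, hf⟩ =
      aeval (w.res ⟨s, hs⟩) a + aeval (w.res ⟨s, hs⟩) b * w.res ⟨η, hη⟩ := by
  obtain ⟨h1, h2⟩ := qe_res w hs a
  obtain ⟨h3, h4⟩ := qe_res w hs b
  have h5 : aeval s a + aeval s b * η ∈ w.V := w.V.add_mem _ _ h1 (w.V.mul_mem _ _ h3 hη)
  refine ⟨h5, ?_⟩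
  have h6 : (⟨_, h5⟩ : w.V) = ⟨_, h1⟩ + ⟨_, h3⟩ * ⟨η, hη⟩ := rfl
  rw [h6, map_add, map_mul, h2, h4]

/-- The equation. -/
theorem aba_eqn (h : Qd s η (TW W M) (NW W M) σ) :
    η ^ 2 + algebraMap M E (algebraMap F M W.a₁) * s * η +
        algebraMap M E (algebraMap F M W.a₃) * η =
      s ^ 3 + algebraMap M E (algebraMap F M W.a₂) * s ^ 2 +
        algebraMap M E (algebraMap F M W.a₄) * s + algebraMap M E (algebraMap F M W.a₆) := by
  have h1 := h.eq
  unfold TW NW at h1
  simp only [map_neg, map_add, map_mul, map_pow, aeval_X, aeval_C] at h1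
  linear_combination h1

end val

/-- The function field with its structures. -/
theorem aba_fw {F : Type} [Field F] (W : WeierstrassCurve F) (K : Type) [Field K] [CharZero K]
    [Algebra F K] : ∃ (E : Type) (_ : Field E) (_ : Algebra K E) (_ : Algebra F E)
      (_ : IsScalarTower F K E) (s η : E) (σ : E ≃ₐ[K] E), Qd s η (TW W K) (NW W K) σ := by
  obtain ⟨E, i1, i2, s, η, σ, h⟩ := exists_fw W K
  let : Algebra F E := ((algebraMap K E).comp (algebraMap F K)).toAlgebra
  exact ⟨E, i1, i2, inferInstance, IsScalarTower.of_algebraMap_eq fun _ => rfl, s, η, σ, h⟩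

end PE
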