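import Pool.Agent.Lib.MP_f80667_ag.Pe.Plc

/-! Zeros of an element of a function field from its norm (used in `Bq.lean`). -/

open ZC BE Polynomial

namespace PE

section

variable {k E Ω : Type} [Field k] [Field E] [Algebra k E] [Field Ω] [Algebra k Ω]

/-- Algebraic elements are in all valuation rings over `k`. -/
theorem bqa_alg (w : Place k E Ω) {a : E} (ha : IsAlgebraic k a) : a ∈ w.V := by
  obtain ⟨p, hp, hy⟩ := isAlgebraic_iff_isIntegral.1 ha
  let φ : k →+* w.V := (algebraMap k E).codRestrict w.V.toSubring w.mem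
  have h1 : IsIntegral w.V a := by
    refine ⟨p.map φ, hp.map φ, ?_⟩
    rw [Polynomial.eval₂_map]
    exact hy
  obtain ⟨z, hz⟩ := IsIntegrallyClosed.isIntegral_iff.1 h1
  rw [← hz]
  exact z.2

theorem bqa_tr {w : Place k E Ω} {g : E} (h0 : g ≠ 0) (h : g ∈ w.V.nonunits) :
    Transcendental k g := by
  intro ha
  rcases (ValuationSubring.mem_nonunits_iff_or _).1 h with h1 | h1
  · exact h0 h1
  · exact h1 (bqa_alg w ha.inv)

/-- Positive order means zero. -/
theorem bqa_non {w : Place k E Ω} {g : E} {m : ℤ} (h : w.IsOrd g m) (hm : 0 < m) :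
    g ∈ w.V.nonunits := by
  obtain ⟨π, h1, h2, -, h4⟩ := Place.ord_aux h
  rw [ValuationSubring.mem_nonunits_iff, h4]
  exact zpow_lt_one₀ (zero_lt_iff.2 h2) h1 hm

/-- The value of `s` at the composite of a place and an automorphism which fixes `s`. -/
theorem bqa_cmp {σ : E ≃ₐ[k] E} {s : E} (hσ : σ s = s) {v : Place k E Ω} {z : Ω}
    (h : ∃ h : s ∈ v.V, v.res ⟨s, h⟩ = z) :
    ∃ h : s ∈ (Qb.cmp σ v).V, (Qb.cmp σ v).res ⟨s, h⟩ = z := by
  obtain ⟨h1, h2⟩ := h
  have h3 : σ s ∈ v.V := by rwa [hσ]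
  refine ⟨h3, ?_⟩
  change v.res ⟨σ s, h3⟩ = z
  rw [← h2]
  congr 1
  exact Subtype.ext hσ

end

variable {k E Ω : Type} [Field k] [CharZero k] [Field E] [Algebra k E] [Field Ω] [Algebra k Ω]
  [IsAlgClosed Ω]

/-- A place over `s = z`. -/
theorem bqa_plc (hE : IsFunField k E) {s : E} (hs : Transcendental k s) {n : k[X]} (hn : n ≠ 0)
    {z : Ω} (hz : aeval z n = 0) : ∃ v : Place k E Ω,
      (∃ h : s ∈ v.V, v.res ⟨s, h⟩ = z) ∧ aeval s n ∈ v.V.nonunits := by
  have hinj : Function.Injective (aeval s : k[X] →ₐ[k] E) :=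
    transcendental_iff_injective.1 hs
  let R : Subalgebra k E := (aeval s : k[X] →ₐ[k] E).range
  let ι : k[X] ≃ₐ[k] R := AlgEquiv.ofInjective _ hinj
  let φ : R →ₐ[k] Ω := (aeval z).comp (ι.symm : R →ₐ[k] k[X])
  have hι : ∀ P : k[X], ((ι P : R) : E) = aeval s P := fun P => rfl
  have hφ : ∀ P : k[X], φ (ι P) = aeval z P := by
    intro P
    change aeval z (ι.symm (ι P)) = _
    rw [ι.symm_apply_apply]
  obtain ⟨v, hv⟩ := exists_plc hE R φ (ι n) (by
    rw [Ne, EmbeddingLike.map_eq_zero_iff]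
    exact hn) (by rw [hφ, hz])
  refine ⟨v, ?_, ?_⟩
  · obtain ⟨h1, h2⟩ := hv (ι X)
    have h3 : ((ι X : R) : E) = s := by rw [hι, aeval_X]
    have h4 : s ∈ v.V := by
      rw [← h3]
      exact h1
    refine ⟨h4, ?_⟩
    have h5 : (⟨s, h4⟩ : v.V) = ⟨_, h1⟩ := Subtype.ext h3.symm
    rw [h5, h2, hφ, aeval_X]
  · obtain ⟨h1, h2⟩ := hv (ι n)
    rw [hφ, hz, Fa.res_eq_zero_iff] at h2
    exact h2

/-- Counting: the zeros of `g` from those of the norm. -/
theorem bqa_count (hE : IsFunField k E) {s g : E} (hs : Transcendental k s) {N d : ℕ}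
    (hN : Module.finrank (IntermediateField.adjoin k {s}) E = N) (hd : 0 < d) (g0 : g ≠ 0)
    {n : k[X]} (hn : Squarefree n) (hdeg : n.natDegree = N * d)
    (h1 : ∀ z : Ω, aeval z n = 0 → ∃ v : Place k E Ω, g ∈ v.V.nonunits ∧
      ∃ hs : s ∈ v.V, v.res ⟨s, hs⟩ = z)
    (h2 : ∀ v : Place k E Ω, s ∈ v.V → g ∈ v.V)
    (h3 : ∀ (v : Place k E Ω) (m : ℤ), s ∉ v.V → v.IsOrd s m → v.IsOrd g (d * m)) :
    ∃ p : Ω → Place k E Ω,
      (∀ z : Ω, aeval z n = 0 → (p z).IsOrd g 1 ∧ ∃ hs : s ∈ (p z).V, (p z).res ⟨s, hs⟩ = z) ∧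
      ∀ v : Place k E Ω, g ∈ v.V.nonunits → ∃ z : Ω, aeval z n = 0 ∧ v = p z := by
  classical
  have hn0 : n ≠ 0 := hn.ne_zero
  have hfin := Dz.finite_adjoin hE hs
  have hN0 : 0 < N := by
    rw [← hN]
    exact Module.finrank_pos
  -- the roots
  let Z : Finset Ω := (n.aroots Ω).toFinset
  have hZ : ∀ z, z ∈ Z ↔ aeval z n = 0 := by
    intro z
    rw [Multiset.mem_toFinset, mem_aroots]
    exact ⟨fun h => h.2, fun h => ⟨hn0, h⟩⟩
  have hsep : n.Separable := PerfectField.separable_iff_squarefree.2 hn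
  have hZc : Z.card = N * d := by
    have h4 := card_rootSet_eq_natDegree (K := Ω) hsep (IsAlgClosed.splits _)
    rw [← hdeg, ← h4]
    simp only [rootSet_def, Finset.coe_sort_coe, Fintype.card_coe, Z]
  -- transcendence
  have hg : Transcendental k g := by
    have h4 : Z.Nonempty := by
      rw [← Finset.card_pos, hZc]
      positivity
    obtain ⟨z, hz⟩ := h4
    obtain ⟨v, hv, -⟩ := h1 z ((hZ z).1 hz)
    exact bqa_tr g0 hv
  have hsi : Transcendental k s⁻¹ := fun ha => hs (by simpa using ha.inv)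
  have hgi : Transcendental k g⁻¹ := fun ha => hg (by simpa using ha.inv)
  have hs0 : s ≠ 0 := by
    rintro rfl
    exact hs isAlgebraic_zero
  -- the zeros
  obtain ⟨T, m, hT, hm⟩ := Bx.exists_zeros (Ω := Ω) hE hg
  have hTs := Dz.sum_zeros hE hg T m hT hm
  -- the poles
  obtain ⟨S, l, hS, hl⟩ := Bx.exists_zeros (Ω := Ω) hE hsi
  have hSs := Dz.sum_zeros hE hsi S l hS hl
  rw [qe_adj', hN] at hSs
  have hSV : ∀ w, w ∈ S ↔ s ∉ w.V := by
    intro w
    rw [hS, ValuationSubring.mem_nonunits_iff_or, inv_inv]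
    constructor
    · rintro (h | h)
      · exact absurd h (inv_ne_zero hs0)
      · exact h
    · exact Or.inr
  have hSg : ∀ w ∈ S, w.IsOrd g⁻¹ (d * l w) := by
    intro w hw
    have h4 := Dz.ord_inv (hl w hw)
    rw [inv_inv] at h4
    have h5 := Dz.ord_inv (h3 w _ ((hSV w).1 hw) h4)
    rwa [mul_neg, neg_neg] at h5
  have hSp : ∀ w ∈ S, 0 < l w := fun w hw => qe_pos (hl w hw) ((hS w).1 hw)
  have hSg' : ∀ w, w ∈ S ↔ g⁻¹ ∈ w.V.nonunits := by
    intro w
    constructor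
    · intro hw
      refine bqa_non (hSg w hw) ?_
      have := hSp w hw
      positivity
    · intro hw
      rw [hSV]
      intro h4
      rcases (ValuationSubring.mem_nonunits_iff_or _).1 hw with h5 | h5
      · exact g0 (inv_eq_zero.1 h5)
      · rw [inv_inv] at h5
        exact h5 (h2 w h4)
  have hPs := Dz.sum_zeros hE hgi S (fun w => d * l w) hSg' hSg
  rw [qe_adj', ← hTs, ← Finset.mul_sum, hSs] at hPs
  -- the points
  have hex : ∀ z : Ω, ∃ v : Place k E Ω, aeval z n = 0 → (g ∈ v.V.nonunits ∧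
      ∃ hs : s ∈ v.V, v.res ⟨s, hs⟩ = z) := by
    intro z
    by_cases hz : aeval z n = 0
    · obtain ⟨v, hv⟩ := h1 z hz
      exact ⟨v, fun _ => hv⟩
    · have h4 : Z.Nonempty := by
        rw [← Finset.card_pos, hZc]
        positivity
      obtain ⟨z', hz'⟩ := h4
      obtain ⟨v, -⟩ := h1 z' ((hZ z').1 hz')
      exact ⟨v, fun h => absurd h hz⟩
  choose p hp using hex
  have hpi : Set.InjOn p Z := by
    intro z hz z' hz' he
    obtain ⟨-, h4, h5⟩ := hp z ((hZ z).1 hz)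
    obtain ⟨-, h6, h7⟩ := hp z' ((hZ z').1 hz')
    rw [← h5, ← h7]
    have h8 : ∀ (v v' : Place k E Ω) (a : s ∈ v.V) (b : s ∈ v'.V), v = v' →
        v.res ⟨s, a⟩ = v'.res ⟨s, b⟩ := by
      rintro v v' a b rfl
      rfl
    exact h8 _ _ _ _ he
  have hsub : Z.image p ⊆ T := by
    intro v hv
    obtain ⟨z, hz, rfl⟩ := Finset.mem_image.1 hv
    exact (hT _).2 (hp z ((hZ z).1 hz)).1
  have hmp : ∀ w ∈ T, 0 < m w := fun w hw => qe_pos (hm w hw) ((hT w).1 hw)
  have hci : (Z.image p).card = N * d := by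
    rw [Finset.card_image_of_injOn hpi, hZc]
  have hle : (T.card : ℤ) ≤ ∑ w ∈ T, m w := by
    rw [Finset.card_eq_sum_ones, Nat.cast_sum]
    refine Finset.sum_le_sum fun w hw => ?_
    have := hmp w hw
    push_cast
    omega
  have hTc : T.card ≤ (Z.image p).card := by
    rw [← hPs] at hle
    rw [hci]
    have h4 : ((T.card : ℕ) : ℤ) ≤ ((N * d : ℕ) : ℤ) := by
      push_cast
      linarith
    exact_mod_cast h4
  have hTe : Z.image p = T := Finset.eq_of_subset_of_card_le hsub hTc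
  have hone : ∀ w ∈ T, m w - 1 = 0 := by
    refine (Finset.sum_eq_zero_iff_of_nonneg fun w hw => ?_).1 ?_
    · have := hmp w hw
      omega
    · rw [Finset.sum_sub_distrib, ← hPs, Finset.sum_const, nsmul_eq_mul, mul_one, ← hTe, hci]
      push_cast
      ring
  refine ⟨p, fun z hz => ⟨?_, (hp z hz).2⟩, fun v hv => ?_⟩
  · have h4 : p z ∈ T := (hT _).2 (hp z hz).1
    have h5 := hone _ h4
    have h6 := hm _ h4
    rwa [show m (p z) = 1 by omega] at h6
  · have h4 := (hT v).2 hv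
    rw [← hTe] at h4
    obtain ⟨z, hz, rfl⟩ := Finset.mem_image.1 h4
    exact ⟨z, (hZ z).1 hz, rfl⟩

end PE
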