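import Pool.Agent.Lib.MP_f80667_ag.Pe.Plc

/-! The `x`-coordinate of `n ξ` (for `Pe/Div.lean`). -/

open ZC BE Polynomial IntermediateField

namespace PE

section divcop

private theorem div_cop {M : Type} [Field M] (a : M[X]) {c : M[X]} (hc : c ≠ 0) :
    ∃ g U V : M[X], a = g * U ∧ c = g * V ∧ IsCoprime U V := by
  classical
  obtain ⟨g, hg⟩ : ∃ g : M[X], g = EuclideanDomain.gcd a c := ⟨_, rfl⟩
  obtain ⟨U, hU⟩ : g ∣ a := by rw [hg]; exact EuclideanDomain.gcd_dvd_left a c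
  obtain ⟨V, hV⟩ : g ∣ c := by rw [hg]; exact EuclideanDomain.gcd_dvd_right a c
  refine ⟨g, U, V, hU, hV, ?_⟩
  have hg0 : g ≠ 0 := by
    rintro rfl
    exact hc (by rw [hV, zero_mul])
  have h1 := EuclideanDomain.gcd_eq_gcd_ab a c
  rw [← hg] at h1
  refine ⟨EuclideanDomain.gcdA a c, EuclideanDomain.gcdB a c, ?_⟩
  apply mul_left_cancel₀ hg0
  generalize EuclideanDomain.gcdA a c = A at h1 ⊢
  generalize EuclideanDomain.gcdB a c = B at h1 ⊢
  rw [hU, hV] at h1
  linear_combination -h1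

end divcop

section divaux

variable {M E Ω : Type} [Field M] [Field E] [Field Ω] [Algebra M E] [Algebra M Ω]

private theorem div_aeval (w : Place M E Ω) {s : E} {x : Ω} (h : Hv w s x) (p : M[X]) :
    Hv w (aeval s p) (aeval x p) := by
  induction p using Polynomial.induction_on' with
  | add p q hp hq =>
    rw [map_add, map_add]
    exact hp.add hq
  | monomial n a =>
    rw [aeval_monomial, aeval_monomial]
    exact (show Hv w (algebraMap M E a) (algebraMap M Ω a) from ⟨w.mem a, w.res_k a⟩).mul (h.pow n)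

private theorem div_pole (w : Place M E Ω) {s : E} (h : s ∉ w.V) (p : M[X]) (hp : p ≠ 0) :
    ∃ A : E, ∃ α : Ω, Hv w A α ∧ α ≠ 0 ∧ aeval s p = A * s ^ p.natDegree := by
  have hs : s ≠ 0 := by
    rintro rfl
    exact h (zero_mem _)
  have h0 := Hv.of_not_mem h
  refine ⟨aeval s⁻¹ p.reverse, _, div_aeval w h0 p.reverse, ?_, ?_⟩
  · rw [← coeff_zero_eq_aeval_zero', coeff_zero_reverse]
    exact (_root_.map_ne_zero _).2 (leadingCoeff_ne_zero.2 hp)
  · have := invertibleOfNonzero hs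
    have h1 := eval₂_reverse_mul_pow (algebraMap M E) s p
    rw [invOf_eq_inv] at h1
    rw [aeval_def, aeval_def, h1]

end divaux

section divf

variable {F : Type} [Field F] {W : WeierstrassCurve F} {M E : Type} [Field M] [CharZero M]
  [Algebra F M] [Field E] [Algebra M E] [Algebra F E] [IsScalarTower F M E] {s η : E}
  {σ : E ≃ₐ[M] E}

private theorem div_frac (h : Qd s η (TW W M) (NW W M) σ) {X : E} (hX : σ X = X) :
    ∃ U V : M[X], IsCoprime U V ∧ V ≠ 0 ∧ X * aeval s V = aeval s U := by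
  have htr := transcendental_iff.1 h.tr
  obtain ⟨a, b, c, hc, e⟩ := fw_gen h X
  have hsig : ∀ p : M[X], σ (aeval s p) = aeval s p := by
    intro p
    have h1 := aeval_algHom_apply (σ : E →ₐ[M] E) s p
    rw [AlgEquiv.coe_toAlgHom, h.sig_s] at h1
    exact h1.symm
  have h1 := congrArg σ e
  rw [map_mul, map_add, map_mul, hsig, hsig, hsig, hX, h.sig_xi] at h1
  have h2 : aeval s (-(b * TW W M)) + aeval s (2 * b) * η = 0 := by
    rw [map_neg, map_mul, map_mul, map_ofNat]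
    linear_combination h1 - e
  have h3 := (fw_indep h h2).2
  have hb : b = 0 := by
    rcases mul_eq_zero.1 h3 with h4 | h4
    · exact absurd h4 two_ne_zero
    · exact h4
  rw [hb, map_zero, zero_mul, add_zero] at e
  obtain ⟨g, U, V, hU, hV, hco⟩ := div_cop a hc
  have hV0 : V ≠ 0 := by
    rintro rfl
    exact hc (by rw [hV, mul_zero])
  have hg0 : g ≠ 0 := by
    rintro rfl
    exact hc (by rw [hV, zero_mul])
  have hgs : aeval s g ≠ 0 := fun h4 => hg0 (htr g h4)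
  refine ⟨U, V, hco, hV0, ?_⟩
  apply mul_left_cancel₀ hgs
  rw [hU, hV, map_mul, map_mul] at e
  linear_combination e

end divf

section divpole

variable {F : Type} [Field F] {W : WeierstrassCurve F} [W.IsElliptic] {M E Ω : Type} [Field M]
  [CharZero M] [Algebra F M] [Field E] [Algebra M E] [Algebra F E] [IsScalarTower F M E] {s η : E}
  {σ : E ≃ₐ[M] E} [Field Ω] [CharZero Ω] [Algebra M Ω] [Algebra F Ω] [IsScalarTower F M Ω]

/-- A point which reduces to `0`. -/
private theorem div_red0 (w : Place M E Ω) {x y : E}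
    (hxy : (W.baseChange E).toAffine.Nonsingular x y)
    (hfm : (rsP w).J.Fm (W := W.baseChange E) (Pt.aff x y hxy)) :
    x ∉ w.V ∧ x ≠ 0 ∧ y ≠ 0 ∧ ∃ μ : E, Hv w μ 0 ∧ x * (-x / y) ^ 2 = 1 + μ := by
  have hred : (rsP w).Red (W := W.baseChange E) (W' := W.baseChange Ω) (Pt.aff x y hxy) 0 :=
    (rs_fm (rsP_cv (W := W) w)).2 hfm
  have hy : y ≠ 0 := hfm.1
  obtain ⟨μ, hμ, e⟩ := fg_w (rsP_cv (W := W) w).J hfm
  have e' : (-1 / y) * (1 + μ) = (-x / y) ^ 3 := e
  have e2 : x * (-x / y) ^ 2 = 1 + μ := by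
    field_simp at e' ⊢
    linear_combination e'
  have hμ' : Hv w μ 0 := hμ
  have h1 : x ∉ w.V := by
    rcases (red_aff_iff (W := W) w hxy (Q := 0)).1 ((rsP_red w).2 hred) with h2 | h2
    · exact h2.1
    · obtain ⟨r, s, h3, -, -, h4⟩ := h2
      exact absurd h4.symm (Pn.aff_ne (W := W.baseChange Ω) h3)
  refine ⟨h1, ?_, hy, μ, hμ', e2⟩
  rintro rfl
  exact h1 (zero_mem _)

/-- The multiple of the generic point at a place over `0`. -/
private theorem div_inf (h : Qd s η (TW W M) (NW W M) σ) (w : Place M E Ω)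
    (hw : Pt.Red W w (gp h) 0) (n : ℕ) (hn : n ≠ 0) :
    s ∉ w.V ∧ ∃ (X Y : E) (hXY : (W.baseChange E).toAffine.Nonsingular X Y),
      n • gp h = Pt.aff X Y hXY ∧ X ≠ 0 ∧ ∃ (ρ : E) (r : Ω), Hv w ρ r ∧ r ≠ 0 ∧ X = s * ρ := by
  have hfm : (rsP w).J.Fm (W := W.baseChange E) (gp h) :=
    (rs_fm (rsP_cv (W := W) w)).1 ((rsP_red w).1 hw)
  obtain ⟨hsV, hs0, hη, μ, hμ, e1⟩ := div_red0 w (fw_ns h) hfm
  have hcf := (rsP_cv (W := W) w).J
  obtain ⟨hfn, c, hc, e⟩ := fg_nsmul hcf hfm n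
  have ht : Hv w (-s / η) 0 := hfm.2.1
  have hta : Hv w (algebraMap F E W.a₁) (algebraMap F Ω W.a₁) := plr_hv w W.a₁
  have hcV : Hv w c (w.res ⟨c, hc⟩) := ⟨hc, rfl⟩
  have hnV : ∀ m : ℕ, Hv w (m : E) (m : Ω) := fun m => Rs.Hv.nat (w := rsP w) m
  obtain ⟨u, hu⟩ : ∃ u : E, u = (n : E) - algebraMap F E W.a₁ * ((n.choose 2 : ℕ) : E) * (-s / η) +
    (-s / η) ^ 2 * c := ⟨_, rfl⟩
  have huv : Hv w u (n : Ω) := by
    have h1 := ((hnV n).sub ((hta.mul (hnV (n.choose 2))).mul ht)).add ((ht.pow 2).mul hcV)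
    rw [← hu, mul_zero, sub_zero, zero_pow two_ne_zero, zero_mul, add_zero] at h1
    exact h1
  have hn' : (n : Ω) ≠ 0 := Nat.cast_ne_zero.2 hn
  have hu0 : u ≠ 0 := huv.ne hn'
  have ht0 : -s / η ≠ 0 := div_ne_zero (neg_ne_zero.2 hs0) hη
  have e' : Pn.t (n • (gp h : Pn (W.baseChange E))) = -s / η * u := by
    refine e.trans ?_
    change (n : E) * (-s / η) - algebraMap F E W.a₁ * ((n.choose 2 : ℕ) : E) * (-s / η) ^ 2 +
      (-s / η) ^ 3 * c = -s / η * u
    rw [hu]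
    ring
  refine ⟨hsV, ?_⟩
  rcases plr_cases (n • gp h) with h0 | ⟨X, Y, hXY, h1⟩
  · exfalso
    have h2 : Pn.t (n • (gp h : Pn (W.baseChange E))) = 0 := by
      have h3 : (n • (gp h : Pn (W.baseChange E)) : Pn (W.baseChange E)) = 0 := h0
      rw [h3]
      rfl
    rw [e'] at h2
    exact mul_ne_zero ht0 hu0 h2
  · have h3 : (n • (gp h : Pn (W.baseChange E)) : Pn (W.baseChange E)) = Pt.aff X Y hXY := h1
    have hfn' : (rsP w).J.Fm (W := W.baseChange E) (Pt.aff X Y hXY) := by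
      rw [← h3]
      exact hfn
    rw [h3] at e'
    have e3 : -X / Y = -s / η * u := e'
    obtain ⟨-, hX0, hY, μ', hμ', e4⟩ := div_red0 w hXY hfn'
    refine ⟨X, Y, hXY, h1, hX0, (1 + μ') / ((1 + μ) * u ^ 2), _,
      (Hv.one.add hμ').div ((Hv.one.add hμ).mul (huv.pow 2)) ?_, ?_, ?_⟩
    · rw [add_zero, one_mul]
      exact pow_ne_zero 2 hn'
    · rw [add_zero, one_mul]
      exact div_ne_zero one_ne_zero (pow_ne_zero 2 hn')
    · rw [e3] at e4
      rw [← e4, ← e1]
      field_simp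

end divpole

section divdeg

variable {M E Ω : Type} [Field M] [Field E] [Field Ω] [Algebra M E] [Algebra M Ω]

private theorem div_pow0 (w : Place M E Ω) {s : E} (h : s ∉ w.V) {j : ℕ} (hj : j ≠ 0) :
    Hv w ((s⁻¹) ^ j) 0 := by
  have h1 := (Hv.of_not_mem h).pow j
  rwa [zero_pow hj] at h1

private theorem div_deg (w : Place M E Ω) {s : E} (h : s ∉ w.V) {U V : M[X]} (hU : U ≠ 0)
    (hV : V ≠ 0) {ρ : E} {r : Ω} (hρ : Hv w ρ r) (hr : r ≠ 0)
    (e : s * ρ * aeval s V = aeval s U) : U.natDegree = V.natDegree + 1 := by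
  have hs : s ≠ 0 := by
    rintro rfl
    exact h (zero_mem _)
  obtain ⟨A, α, hA, hα, eA⟩ := div_pole w h U hU
  obtain ⟨B, β, hB, hβ, eB⟩ := div_pole w h V hV
  rw [eA, eB] at e
  rcases lt_trichotomy U.natDegree (V.natDegree + 1) with h1 | h1 | h1
  · exfalso
    obtain ⟨j, hj⟩ := Nat.exists_eq_add_of_lt h1
    have h2 : V.natDegree = U.natDegree + j := by omega
    have h3 : ρ * B = A * (s⁻¹) ^ (j + 1) := by
      rw [h2, pow_add] at e
      have hsU : s ^ U.natDegree ≠ 0 := pow_ne_zero _ hs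
      have e2 : s ^ U.natDegree * (s ^ (j + 1) * (ρ * B)) = s ^ U.natDegree * A := by
        rw [pow_succ]
        linear_combination e
      have e3 := mul_left_cancel₀ hsU e2
      rw [← e3, inv_pow]
      field_simp
    have h4 := hρ.mul hB
    rw [h3] at h4
    have h5 := (hA.mul (div_pow0 w h (Nat.succ_ne_zero j))).uniq h4
    rw [mul_zero] at h5
    exact mul_ne_zero hr hβ h5.symm
  · exact h1
  · exfalso
    obtain ⟨j, hj⟩ := Nat.exists_eq_add_of_lt h1
    have h3 : A = ρ * B * (s⁻¹) ^ (j + 1) := by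
      rw [hj] at e
      have hsU : s ^ (V.natDegree + 1) ≠ 0 := pow_ne_zero _ hs
      have e2 : s ^ (V.natDegree + 1) * (s ^ (j + 1) * A) = s ^ (V.natDegree + 1) * (ρ * B) := by
        rw [← mul_assoc, ← pow_add, ← add_assoc, pow_succ s V.natDegree]
        linear_combination -e
      have e3 := mul_left_cancel₀ hsU e2
      rw [← e3, inv_pow]
      field_simp
    have h5 := ((hρ.mul hB).mul (div_pow0 w h (Nat.succ_ne_zero j)))
    rw [← h3, mul_zero] at h5
    exact hα (hA.uniq h5)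

end divdeg

section divmain

variable {F : Type} [Field F] {W : WeierstrassCurve F} [W.IsElliptic] {Ω : Type} [Field Ω]
  [CharZero Ω] [IsAlgClosed Ω] [Algebra F Ω]

private theorem div_aff_congr {x y x' y' : Ω} {h : (W.baseChange Ω).toAffine.Nonsingular x y}
    {h' : (W.baseChange Ω).toAffine.Nonsingular x' y'}
    (e : (Pt.aff x y h : Pt W Ω) = Pt.aff x' y' h') : x = x' ∧ y = y' :=
  Pn.aff_inj (W := W.baseChange Ω) e

theorem divA_xn (n : ℕ) (hn : n ≠ 0) : ∃ U V : Polynomial Ω, IsCoprime U V ∧ U.natDegree = V.natDegree + 1 ∧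
    ∀ (x y : Ω) (h : (W.baseChange Ω).toAffine.Nonsingular x y),
      (V.eval x = 0 → n • (Pt.aff x y h : Pt W Ω) = 0) ∧
      (V.eval x ≠ 0 → ∃ (y' : Ω) (h' : (W.baseChange Ω).toAffine.Nonsingular
        (U.eval x / V.eval x) y'), n • (Pt.aff x y h : Pt W Ω) = Pt.aff _ y' h') := by
  obtain ⟨E, iF, iA, s, η, σ, h⟩ := exists_fw W Ω
  letI iFE : Algebra F E := ((algebraMap Ω E).comp (algebraMap F Ω)).toAlgebra
  have iT : IsScalarTower F Ω E := IsScalarTower.of_algebraMap_eq (fun _ => rfl)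
  obtain ⟨w, hw⟩ := fw_plc (W := W) (Ω := Ω) h 0
  obtain ⟨hsV, X, Y, hXY, hnX, hX0, ρ, r, hρ, hr, hXρ⟩ := div_inf h w hw n hn
  have hσX : σ X = X := by
    have h1 : Pt.map W (σ.restrictScalars F : E →ₐ[F] E) (n • gp h) = -(n • gp h) := by
      rw [map_nsmul, gp_sig, smul_neg]
    rw [hnX] at h1
    obtain ⟨h', h2⟩ : ∃ h' : (W.baseChange E).toAffine.Nonsingular (σ X) (σ Y),
        Pt.map W (σ.restrictScalars F : E →ₐ[F] E) (Pt.aff X Y hXY) = Pt.aff (σ X) (σ Y) h' :=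
      ⟨_, rfl⟩
    obtain ⟨h'', h3⟩ := plr_neg_aff (W := W) hXY
    rw [h2, h3] at h1
    exact (Pn.aff_inj (W := W.baseChange E) h1).1
  obtain ⟨U, V, hUV, hV, e⟩ := div_frac h hσX
  have htr := transcendental_iff.1 h.tr
  have hVs : aeval s V ≠ 0 := fun h1 => hV (htr V h1)
  have hU : U ≠ 0 := by
    rintro rfl
    rw [map_zero] at e
    exact mul_ne_zero hX0 hVs e
  have hdeg : U.natDegree = V.natDegree + 1 := by
    rw [hXρ] at e
    exact div_deg w hsV hU hV hρ hr e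
  refine ⟨U, V, hUV, hdeg, ?_⟩
  intro x y hxy
  obtain ⟨v, hv⟩ := fw_plc (W := W) (Ω := Ω) h (Pt.aff x y hxy)
  have hnv := red_nsmul' v hv n
  rw [hnX, red_aff_iff v hXY] at hnv
  have hsx : Hv v s x := by
    rcases (red_aff_iff v (fw_ns h)).1 hv with h1 | ⟨r', s', h1, h2, -, h3⟩
    · exact absurd h1.2 (Pn.aff_ne (W := W.baseChange Ω) hxy)
    · rw [(div_aff_congr h3).1]
      exact h2
  have hUv : Hv v (aeval s U) (U.eval x) := by
    have h1 := div_aeval v hsx U
    rwa [coe_aeval_eq_eval] at h1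
  have hVv : Hv v (aeval s V) (V.eval x) := by
    have h1 := div_aeval v hsx V
    rwa [coe_aeval_eq_eval] at h1
  constructor
  · intro hV0
    rcases hnv with h1 | ⟨r', s', h1, h2, -, h3⟩
    · exact h1.2
    · exfalso
      have h4 := h2.mul hVv
      rw [e, hV0, mul_zero] at h4
      have h5 := hUv.uniq h4
      obtain ⟨a, b, hab⟩ := hUV
      have h6 := congrArg (eval x) hab
      rw [eval_add, eval_mul, eval_mul, h5, hV0, mul_zero, mul_zero, add_zero, eval_one] at h6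
      exact zero_ne_one h6
  · intro hV0
    have h0 : Hv v X (U.eval x / V.eval x) := by
      have h1 := hUv.div hVv hV0
      have h2 : aeval s U / aeval s V = X := by
        rw [← e, mul_div_cancel_right₀ _ hVs]
      rwa [h2] at h1
    rcases hnv with h1 | ⟨r', s', h1, h2, -, h3⟩
    · exact absurd h0.1 h1.1
    · have h4 := h2.uniq h0
      subst h4
      exact ⟨s', h1, h3⟩

end divmain

end PE
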