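import Pool.Agent.Lib.MP_f80667_ag.Pe.Pv
import Pool.Agent.Lib.MP_f80667_ag.Be.PlR
import Pool.Agent.Lib.MP_f80667_ag.Qb.Disc

/-! The divisor of a function with known zeros: the counting argument. -/

open ZC BE Polynomial

namespace PE

section gen

variable {M E Ω : Type} [Field M] [Field E] [Algebra M E] [Field Ω] [Algebra M Ω]

/-- Algebraic elements are regular. -/
theorem dvA_alg (w : Place M E Ω) {y : E} (hy : IsAlgebraic M y) : y ∈ w.V := by
  obtain ⟨p, hp, hpy⟩ := hy.isIntegral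
  have h3 : IsIntegral w.V.valuation.integer y := by
    let φ : M →+* w.V.valuation.integer :=
      { toFun := fun c => ⟨algebraMap M E c, (w.V.valuation_le_one_iff _).2 (w.mem c)⟩
        map_one' := by ext; simp
        map_zero' := by ext; simp
        map_mul' := by intro x y; ext; simp
        map_add' := by intro x y; ext; simp }
    refine ⟨p.map φ, hp.map φ, ?_⟩
    rw [Polynomial.eval₂_map]
    exact hpy
  have h4 := (Valuation.Integers.mem_of_integral (Valuation.integer.integers w.V.valuation) h3)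
  exact (w.V.valuation_le_one_iff _).1 h4

/-- Elements of positive order are not units. -/
theorem dvA_nonunit {w : Place M E Ω} {g : E} {m : ℤ} (h : w.IsOrd g m) (hm : 0 < m) :
    g ∈ w.V.nonunits := by
  obtain ⟨π, h1, h2, -, h4⟩ := Place.ord_aux h
  rw [ValuationSubring.mem_nonunits_iff, h4]
  obtain ⟨n, rfl⟩ := Int.eq_ofNat_of_zero_le hm.le
  rw [zpow_natCast]
  exact pow_lt_one₀ zero_le h1 (by omega)

theorem dvA_not_both {w : Place M E Ω} {g : E} (hg : g ∈ w.V) (h : g⁻¹ ∈ w.V.nonunits)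
    (h0 : g ≠ 0) : False := by
  rw [ValuationSubring.mem_nonunits_iff_or] at h
  rcases h with h | h
  · exact h0 (inv_eq_zero.1 h)
  · rw [inv_inv] at h
    exact h hg

end gen

theorem dvA_dg {A : Type} (z : A →₀ ℤ) : dg z = ∑ P ∈ z.support, z P := rfl

/-- The counting argument. -/
theorem dvA_count {A B : Type} [DecidableEq B] (s : Finset A) (z : A → ℤ) (φ : A → B)
    (hφ : Function.Injective φ) (S : Finset B) (m : B → ℤ) (hS : ∀ P ∈ s, φ P ∈ S)
    (hm : ∀ P ∈ s, z P ≤ m (φ P)) (hp : ∀ w ∈ S, 0 < m w) (hle : ∑ w ∈ S, m w ≤ ∑ P ∈ s, z P) :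
    S = s.image φ ∧ (∀ P ∈ s, m (φ P) = z P) ∧ ∑ w ∈ S, m w = ∑ P ∈ s, z P := by
  have hsub : s.image φ ⊆ S := by
    intro w hw
    obtain ⟨P, hP, rfl⟩ := Finset.mem_image.1 hw
    exact hS P hP
  have h1 : ∑ w ∈ s.image φ, m w = ∑ P ∈ s, m (φ P) :=
    Finset.sum_image fun a _ b _ hab => hφ hab
  have h2 := Finset.sum_sdiff hsub (f := m)
  have h3 : ∑ P ∈ s, z P ≤ ∑ P ∈ s, m (φ P) := Finset.sum_le_sum hm
  have h4 : 0 ≤ ∑ w ∈ S \ s.image φ, m w :=
    Finset.sum_nonneg fun w hw => (hp w (Finset.mem_sdiff.1 hw).1).le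
  have h5 : ∑ w ∈ S \ s.image φ, m w = 0 := by
    rw [h1] at h2
    linarith
  have h6 : ∑ P ∈ s, z P = ∑ P ∈ s, m (φ P) := by
    rw [h1] at h2
    linarith
  refine ⟨?_, ?_, ?_⟩
  · refine Finset.Subset.antisymm ?_ hsub
    rw [← Finset.sdiff_eq_empty_iff_subset]
    by_contra hne
    obtain ⟨w, hw⟩ := Finset.nonempty_iff_ne_empty.2 hne
    have h7 := (Finset.sum_eq_zero_iff_of_nonneg
      (fun w hw => (hp w (Finset.mem_sdiff.1 hw).1).le)).1 h5 w hw
    have h8 := hp w (Finset.mem_sdiff.1 hw).1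
    omega
  · intro P hP
    exact ((Finset.sum_eq_sum_iff_of_le hm).1 h6 P hP).symm
  · rw [h1] at h2
    linarith

variable {F : Type} [Field F] {W : WeierstrassCurve F} [W.IsElliptic] {M E Ω : Type} [Field M]
  [CharZero M] [Algebra F M] [Field E] [Algebra M E] [Algebra F E] [IsScalarTower F M E] {s η : E}
  {σ : E ≃ₐ[M] E} [Field Ω] [Algebra M Ω] [Algebra F Ω] [IsScalarTower F M Ω] [IsAlgClosed Ω]

theorem dvA_main [Algebra.IsAlgebraic M Ω] (h : Qd s η (TW W M) (NW W M) σ) {f : E} (hf : f ≠ 0)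
    {w₀ : Place M E Ω} (hs : s ∉ w₀.V) (hp : ∀ w : Place M E Ω, w ≠ w₀ → f ∈ w.V) {d : ℕ}
    (hd : w₀.IsOrd f (-d)) (z : Pt W Ω →₀ ℤ) (h0 : ∀ P, 0 ≤ z P) (h00 : z 0 = 0)
    (hdz : (d : ℤ) ≤ dg z)
    (hz : ∀ (w : Place M E Ω) (P : Pt W Ω) (k : ℤ), P ≠ 0 → Pt.Red W w (gp h) P →
      w.IsOrd f k → z P ≤ k) :
    Pv (Ev W) M Ω (z - Finsupp.single (0 : Pt W Ω) (dg z)) := by
  classical
  have hfw : ∀ P : Pt W Ω, ∃ w : Place M E Ω, Pt.Red W w (gp h) P := fun P => fw_plc h P
  choose φ hφ using hfw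
  have hφi : Function.Injective φ := by
    intro P P' hPP
    have h1 := hφ P
    rw [hPP] at h1
    exact red_unique _ h1 (hφ P')
  have hord : ∀ w : Place M E Ω, ∃ k : ℤ, w.IsOrd f k := by
    intro w
    obtain ⟨π, hπ⟩ := Qb.exists_unif h.ff w
    exact hπ.isOrd h.ff hf
  refine ⟨E, inferInstance, inferInstance, inferInstance, inferInstance, h.ff, f, gp h, hf, ?_⟩
  by_cases htr : Transcendental M f
  swap
  · -- constants
    rw [Transcendental, not_not] at htr
    have hz0 : z = 0 := by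
      ext P
      by_cases hP : P = 0
      · rw [hP, h00]
        rfl
      · obtain ⟨k, hk⟩ := hord (φ P)
        have h1 := hk.eq_zero (dvA_alg _ htr) (dvA_alg _ htr.inv)
        have h2 := hz (φ P) P k hP (hφ P) hk
        have h3 := h0 P
        change z P = 0
        omega
    refine ⟨∅, fun _ => 0, fun _ => (0 : Pt W Ω), fun w _ => ⟨dvA_alg _ htr, dvA_alg _ htr.inv⟩,
      fun w hw => absurd hw (Finset.notMem_empty w), ?_⟩
    rw [hz0, map_zero, Finsupp.single_zero, sub_zero, Finset.sum_empty]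
    rfl
  have htr' : Transcendental M f⁻¹ := fun hal => htr (by simpa using hal.inv)
  obtain ⟨S, m, hS, hm⟩ := Bx.exists_zeros (Ω := Ω) h.ff htr
  obtain ⟨S', m', hS', hm'⟩ := Bx.exists_zeros (Ω := Ω) h.ff htr'
  have hsum := Dz.sum_zeros h.ff htr S m hS hm
  have hsum' := Dz.sum_zeros h.ff htr' S' m' hS' hm'
  rw [qe_adj', ← hsum] at hsum'
  have hpos : ∀ w ∈ S, 0 < m w := fun w hw => qe_pos (hm w hw) ((hS w).1 hw)
  have hdg0 : 0 ≤ dg z := by
    rw [dvA_dg]
    exact Finset.sum_nonneg fun P _ => h0 P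
  -- the poles
  have hS0 : ∀ w ∈ S', w = w₀ := by
    intro w hw
    by_contra hne
    exact dvA_not_both (hp w hne) ((hS' w).1 hw) hf
  have hle : ∑ w ∈ S, m w ≤ ∑ P ∈ z.support, z P := by
    rw [← hsum', ← dvA_dg]
    by_cases hw₀ : w₀ ∈ S'
    · have h1 : S' = {w₀} := by
        ext w
        rw [Finset.mem_singleton]
        exact ⟨hS0 w, fun h2 => h2 ▸ hw₀⟩
      rw [h1, Finset.sum_singleton]
      have h2 := Place.IsOrd.unique rfl (Dz.ord_inv hd) (hm' w₀ hw₀)
      rw [← h2]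
      omega
    · have h1 : S' = ∅ := by
        rw [Finset.eq_empty_iff_forall_notMem]
        intro w hw
        exact hw₀ (hS0 w hw ▸ hw)
      rw [h1, Finset.sum_empty]
      exact hdg0
  -- the zeros
  have hsupp : ∀ P ∈ z.support, P ≠ 0 ∧ 0 < z P := by
    intro P hP
    rw [Finsupp.mem_support_iff] at hP
    refine ⟨?_, lt_of_le_of_ne (h0 P) (Ne.symm hP)⟩
    rintro rfl
    exact hP h00
  have hPS : ∀ P ∈ z.support, φ P ∈ S := by
    intro P hP
    obtain ⟨h1, h2⟩ := hsupp P hP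
    obtain ⟨k, hk⟩ := hord (φ P)
    have h3 := hz (φ P) P k h1 (hφ P) hk
    rw [hS]
    exact dvA_nonunit hk (by omega)
  have hPm : ∀ P ∈ z.support, z P ≤ m (φ P) := fun P hP =>
    hz (φ P) P _ (hsupp P hP).1 (hφ P) (hm _ (hPS P hP))
  obtain ⟨hc1, hc2, hc3⟩ := dvA_count z.support z φ hφi S m hPS hPm hpos hle
  -- the values
  have hell : (W.baseChange Ω).IsElliptic :=
    inferInstanceAs (W.map (algebraMap F Ω)).IsElliptic
  have hy : ∀ w : Place M E Ω, ∃ P : Pt W Ω, Pt.Red W w (gp h) P := fun w => exists_red w (gp h)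
  choose y hy using hy
  have hyφ : ∀ P, y (φ P) = P := fun P => red_unique _ (hy (φ P)) (hφ P)
  have hy0 : y w₀ = 0 := by
    refine red_unique w₀ (hy w₀) ?_
    exact Or.inl ⟨hs, rfl⟩
  have hdisj : Disjoint S S' := by
    rw [Finset.disjoint_left]
    intro w hw hw'
    exact dvA_not_both (w.V.nonunits_subset ((hS w).1 hw)) ((hS' w).1 hw') hf
  refine ⟨S ∪ S', fun w => if w ∈ S then m w else -(m' w), y, ?_, ?_, ?_⟩
  · intro w hw
    rw [Finset.mem_union, not_or, hS, hS', ValuationSubring.mem_nonunits_iff_or,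
      ValuationSubring.mem_nonunits_iff_or, inv_inv, not_or, not_or, not_not, not_not] at hw
    exact ⟨hw.2.2, hw.1.2⟩
  · intro w hw
    refine ⟨?_, hy w⟩
    change w.IsOrd f (if w ∈ S then m w else -(m' w))
    by_cases hwS : w ∈ S
    · rw [if_pos hwS]
      exact hm w hwS
    · rw [if_neg hwS]
      have h1 := Dz.ord_inv (hm' w ((Finset.mem_union.1 hw).resolve_left hwS))
      rwa [inv_inv] at h1
  · have hA : ∑ w ∈ S, Finsupp.single (y w) (if w ∈ S then m w else -(m' w)) = z := by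
      have h1 : ∀ w ∈ S, Finsupp.single (y w) (if w ∈ S then m w else -(m' w)) =
          Finsupp.single (y w) (m w) := fun w hw => by rw [if_pos hw]
      rw [Finset.sum_congr rfl h1, hc1, Finset.sum_image fun a _ b _ hab => hφi hab]
      have h2 : ∀ P ∈ z.support, Finsupp.single (y (φ P)) (m (φ P)) = Finsupp.single P (z P) :=
        fun P hP => by rw [hyφ, hc2 P hP]
      rw [Finset.sum_congr rfl h2]
      exact Finsupp.sum_single z
    have hB : ∑ w ∈ S', Finsupp.single (y w) (if w ∈ S then m w else -(m' w)) =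
        Finsupp.single (0 : Pt W Ω) (-dg z) := by
      have h1 : ∀ w ∈ S', Finsupp.single (y w) (if w ∈ S then m w else -(m' w)) =
          Finsupp.single (0 : Pt W Ω) (-(m' w)) := by
        intro w hw
        rw [if_neg (fun h2 => Finset.disjoint_left.1 hdisj h2 hw), hS0 w hw, hy0]
      rw [Finset.sum_congr rfl h1, ← Finsupp.single_finsetSum, Finset.sum_neg_distrib, hsum',
        hc3, dvA_dg]
    change z - Finsupp.single (0 : Pt W Ω) (dg z) = _
    rw [Finset.sum_union hdisj]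
    refine Eq.trans ?_ (congrArg₂ (· + ·) hA hB).symm
    rw [Finsupp.single_neg, sub_eq_add_neg]

end PE
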