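import Pool.Agent.Lib.MP_f80667_ag.Pe.Pv

/-! Orders of polynomials in `s`, `η` at the places over infinity. -/

open ZC BE Polynomial

namespace PE

section vals

variable {M E Ω : Type} [Field M] [Field E] [Algebra M E] [Field Ω] [Algebra M Ω]

theorem dvI_c (w : Place M E Ω) {c : M} (hc : c ≠ 0) :
    w.V.valuation (algebraMap M E c) = 1 := by
  apply le_antisymm ((w.V.valuation_le_one_iff _).2 (w.mem c))
  have h1 := (w.V.valuation_le_one_iff _).2 (w.mem c⁻¹)
  rw [map_inv₀, map_inv₀,
    inv_le_one₀ (zero_lt_iff.2 ((_root_.map_ne_zero _).2 ((_root_.map_ne_zero _).2 hc)))] at h1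
  exact h1

theorem dvI_lt (w : Place M E Ω) {s : E} (hs : s ∉ w.V) : 1 < w.V.valuation s :=
  not_le.1 (mt (w.V.valuation_le_one_iff s).1 hs)

/-- A polynomial of degree less than `n`. -/
theorem dvI_low (w : Place M E Ω) {s : E} (hs : s ∉ w.V) {P : M[X]} {n : ℕ}
    (hP : P = 0 ∨ P.natDegree < n) : w.V.valuation (aeval s P) < w.V.valuation s ^ n := by
  have h1 := dvI_lt w hs
  have h0 : w.V.valuation s ≠ 0 := (zero_lt_one.trans h1).ne'
  rcases hP with rfl | hP
  · rw [map_zero, map_zero]
    exact zero_lt_iff.2 (pow_ne_zero _ h0)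
  rw [aeval_eq_sum_range' hP]
  refine Valuation.map_sum_lt _ (pow_ne_zero _ h0) fun i hi => ?_
  rw [Finset.mem_range] at hi
  rw [Algebra.smul_def, map_mul, map_pow]
  refine lt_of_le_of_lt (mul_le_of_le_one_left' ?_) (pow_lt_pow_right₀ h1 hi)
  exact (w.V.valuation_le_one_iff _).2 (w.mem _)

/-- The valuation of a polynomial at `s`, if `s` has a pole. -/
theorem dvI_pol (w : Place M E Ω) {s : E} (hs : s ∉ w.V) {P : M[X]} (hP : P ≠ 0) :
    w.V.valuation (aeval s P) = w.V.valuation s ^ P.natDegree := by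
  have h1 : P.eraseLead + monomial P.natDegree P.leadingCoeff = P :=
    P.eraseLead_add_monomial_natDegree_leadingCoeff
  have h2 : w.V.valuation (aeval s (monomial P.natDegree P.leadingCoeff)) =
      w.V.valuation s ^ P.natDegree := by
    rw [aeval_monomial, map_mul, map_pow, dvI_c w (leadingCoeff_ne_zero.2 hP), one_mul]
  have h3 : w.V.valuation (aeval s P.eraseLead) < w.V.valuation s ^ P.natDegree := by
    apply dvI_low w hs
    by_cases h : P.eraseLead = 0
    · exact Or.inl h
    · right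
      have h4 : P.natDegree ≠ 0 := by
        intro h5
        apply h
        rw [eq_C_of_natDegree_eq_zero h5, eraseLead_C]
      exact lt_of_le_of_lt (eraseLead_natDegree_le P) (by omega)
  conv_lhs => rw [← h1]
  rw [map_add, Valuation.map_add_eq_of_lt_right _ (by rw [h2]; exact h3), h2]

/-- Orders and valuations. -/
theorem dvI_ord {w : Place M E Ω} {π : E} (h : Qb.Unif w π) {x : E} {m : ℤ} :
    w.IsOrd x m ↔ w.V.valuation x = w.V.valuation π ^ m := by
  constructor
  · intro hx
    obtain ⟨ρ, h1, h2, h3, h4⟩ := Place.ord_aux hx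
    obtain ⟨ρ', h1', h2', h3', h4'⟩ := Place.ord_aux (Qb.ord_unif h)
    rw [zpow_one] at h4'
    have h5 : w.V.valuation ρ = w.V.valuation ρ' := le_antisymm (h3' _ h1) (h3 _ h1')
    rw [h4, h4', h5]
  · intro hx
    have h0 : w.V.valuation π ≠ 0 := (_root_.map_ne_zero _).2 h.1
    have h1 : w.V.valuation (x / π ^ m) = 1 := by
      rw [map_div₀, map_zpow₀, hx, div_self (zpow_ne_zero _ h0)]
    refine ⟨π, x / π ^ m, h.1, h.2, (w.V.valuation_le_one_iff _).1 h1.le,
      (w.V.valuation_le_one_iff _).1 (by rw [map_inv₀, h1, inv_one]), ?_, ?_⟩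
    · intro h2
      rw [h2, map_zero] at h1
      exact zero_ne_one h1
    · rw [div_mul_cancel₀ _ (zpow_ne_zero _ h.1)]

theorem dvI_unif {w : Place M E Ω} {π : E} (h : Qb.Unif w π) :
    w.V.valuation π < 1 ∧ w.V.valuation π ≠ 0 := by
  refine ⟨?_, (_root_.map_ne_zero _).2 h.1⟩
  rw [← ValuationSubring.mem_nonunits_iff]
  exact h.mem_nonunits

theorem dvI_inj {Γ : Type*} [LinearOrderedCommGroupWithZero Γ] {a : Γ} (ha : a < 1)
    (ha0 : a ≠ 0) {m m' : ℤ} (h : a ^ m < a ^ m') : m' < m := by
  by_contra hc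
  push Not at hc
  have h1 : a ^ m' ≤ a ^ m := by
    obtain ⟨d, hd⟩ := Int.eq_ofNat_of_zero_le (sub_nonneg.2 hc)
    have h2 : m' = m + d := by omega
    rw [h2, zpow_add₀ ha0, zpow_natCast]
    exact mul_le_of_le_one_right' (pow_le_one' ha.le d)
  exact absurd h1 (not_le.2 h)

end vals

variable {F : Type} [Field F] {W : WeierstrassCurve F} {M E Ω : Type} [Field M]
  [CharZero M] [Algebra F M] [Field E] [Algebra M E] [Algebra F E] [IsScalarTower F M E] {s η : E}
  {σ : E ≃ₐ[M] E} [Field Ω] [Algebra M Ω] [Algebra F Ω] [IsScalarTower F M Ω]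

theorem dvI_eq (h : Qd s η (TW W M) (NW W M) σ) :
    η ^ 2 - aeval s (TW W M) * η = -aeval s (NW W M) := by
  linear_combination h.eq

theorem dvI_mem [IsAlgClosed Ω] (h : Qd s η (TW W M) (NW W M) σ) {w : Place M E Ω} (hs : s ∈ w.V) : η ∈ w.V := by
  obtain ⟨hT, -⟩ := qe_res w hs (TW W M)
  obtain ⟨hN, -⟩ := qe_res w hs (NW W M)
  rcases w.V.mem_or_inv_mem η with h1 | h1
  · exact h1
  · by_cases hξ0 : η = 0
    · rw [hξ0]
      exact w.V.zero_mem
    have h2 : η = aeval s (TW W M) - aeval s (NW W M) * η⁻¹ := by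
      have h3 := h.eq
      field_simp
      linear_combination h3
    rw [h2]
    exact sub_mem hT (mul_mem hN h1)

theorem dvI_T : (TW W M).natDegree < 2 := by
  have h1 : (TW W M).natDegree ≤ 1 := by
    unfold TW
    compute_degree
  omega

theorem dvI_N : (NW W M).natDegree = 3 := by
  unfold NW
  compute_degree!

/-- The orders of `s` and `η` at a pole. -/
theorem dvI_val (h : Qd s η (TW W M) (NW W M) σ) {w : Place M E Ω} (hs : s ∉ w.V) :
    w.V.valuation η ^ 2 = w.V.valuation s ^ 3 := by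
  have h1 := dvI_lt w hs
  have h0 : w.V.valuation s ≠ 0 := (zero_lt_one.trans h1).ne'
  have hN0 : NW W M ≠ 0 := by
    intro hc
    have := dvI_N (W := W) (M := M)
    rw [hc, natDegree_zero] at this
    omega
  have hN : w.V.valuation (-aeval s (NW W M)) = w.V.valuation s ^ 3 := by
    rw [Valuation.map_neg, dvI_pol w hs hN0, dvI_N]
  have hT : w.V.valuation (aeval s (TW W M)) < w.V.valuation s ^ 2 :=
    dvI_low w hs (Or.inr dvI_T)
  have hT' : w.V.valuation (aeval s (TW W M)) ≤ w.V.valuation s := by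
    by_cases hT0 : TW W M = 0
    · rw [hT0, map_zero, map_zero]
      exact zero_le
    · rw [dvI_pol w hs hT0]
      calc w.V.valuation s ^ (TW W M).natDegree ≤ w.V.valuation s ^ 1 :=
            pow_le_pow_right₀ h1.le (by have := dvI_T (W := W) (M := M); omega)
        _ = w.V.valuation s := pow_one _
  have hlt : w.V.valuation s < w.V.valuation η := by
    by_contra hc
    push Not at hc
    have h2 : w.V.valuation (η ^ 2 - aeval s (TW W M) * η) ≤ w.V.valuation s ^ 2 := by
      refine (Valuation.map_sub _ _ _).trans (max_le ?_ ?_)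
      · rw [map_pow]
        exact pow_le_pow_left₀ zero_le hc 2
      · rw [map_mul, pow_two]
        exact mul_le_mul' hT' hc
    rw [dvI_eq h, hN] at h2
    exact absurd h2 (not_le.2 (pow_lt_pow_right₀ h1 (by norm_num)))
  have h2 : w.V.valuation (aeval s (TW W M) * η) < w.V.valuation (η ^ 2) := by
    rw [map_mul, map_pow, pow_two]
    exact mul_lt_mul_of_pos_right (lt_of_le_of_lt hT' hlt) (zero_lt_iff.2 (by
      intro h3
      rw [h3] at hlt
      exact absurd hlt (not_lt.2 zero_le)))
  rw [← hN, ← dvI_eq h, sub_eq_add_neg, Valuation.map_add_eq_of_lt_left _ (by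
    rw [Valuation.map_neg]; exact h2), map_pow]

end PE
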