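import Pool.Agent.Lib.MP_f80667_ag.Pe.Pv
import Pool.Agent.Lib.MP_f80667_ag.Pe.DvA
import Pool.Agent.Lib.MP_f80667_ag.Pe.DvI

/-! The divisor of a function with known zeros. -/

open ZC BE Polynomial

namespace PE

variable {F : Type} [Field F] {W : WeierstrassCurve F} [W.IsElliptic] {M E Ω : Type} [Field M]
  [CharZero M] [Algebra F M] [Field E] [Algebra M E] [Algebra F E] [IsScalarTower F M E] {s η : E}
  {σ : E ≃ₐ[M] E} [Field Ω] [Algebra M Ω] [Algebra F Ω] [IsScalarTower F M Ω] [IsAlgClosed Ω]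

/-- The place at infinity: there is exactly one, `ord s = - 2`, `ord η = - 3`. Proof: `Qd.inf`: the sum of the `m w` is
`2`, and the equation gives `2 ord η = 3 ord s`, so `m w` is even. -/
theorem dv_inf (h : Qd s η (TW W M) (NW W M) σ) :
    ∃ w₀ : Place M E Ω, (∀ w : Place M E Ω, s ∉ w.V ↔ w = w₀) ∧ w₀.IsOrd s (-2) ∧
      w₀.IsOrd η (-3) := by
  classical
  obtain ⟨S, m, hS, hm, hsum, -⟩ := Qd.inf (Ω := Ω) h
  have key : ∀ w ∈ S, 2 ≤ m w ∧ (m w = 2 → w.IsOrd η (-3)) := by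
    intro w hw
    have hs := (hS w).1 hw
    obtain ⟨π, hπ⟩ := Qb.exists_unif h.ff w
    obtain ⟨p1, p0⟩ := dvI_unif hπ
    have hv := dvI_val h hs
    have h1 := (dvI_ord hπ).1 (hm w hw).1
    have hη0 : η ≠ 0 := by
      intro hc
      rw [hc, map_zero, zero_pow two_ne_zero, h1] at hv
      exact pow_ne_zero 3 (zpow_ne_zero _ p0) hv.symm
    obtain ⟨n, hn⟩ := hπ.isOrd h.ff hη0
    have h2 := (dvI_ord hπ).1 hn
    rw [h1, h2, ← zpow_natCast, ← zpow_natCast, ← zpow_mul, ← zpow_mul] at hv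
    have h3 := zpow_inj_aux p1 p0 hv
    push_cast at h3
    have h4 := (hm w hw).2
    refine ⟨by omega, fun h5 => ?_⟩
    have h6 : n = -3 := by omega
    rw [← h6]
    exact hn
  have hne : S.Nonempty := by
    rw [Finset.nonempty_iff_ne_empty]
    rintro rfl
    rw [Finset.sum_empty] at hsum
    norm_num at hsum
  obtain ⟨w₀, hw₀⟩ := hne
  have hsub : ({w₀} : Finset (Place M E Ω)) ⊆ S := Finset.singleton_subset_iff.2 hw₀
  have hge : m w₀ + ((S \ {w₀}).card : ℤ) ≤ 2 := by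
    have h1 := Finset.sum_sdiff hsub (f := m)
    rw [hsum, Finset.sum_singleton] at h1
    have h2 : ((S \ {w₀}).card : ℤ) ≤ ∑ w ∈ S \ {w₀}, m w := by
      rw [Finset.card_eq_sum_ones, Nat.cast_sum]
      refine Finset.sum_le_sum fun w hw => ?_
      have h3 := (key w (Finset.mem_sdiff.1 hw).1).1
      push_cast
      omega
    omega
  have h1 := (key w₀ hw₀).1
  have h3 : (S \ {w₀}).card = 0 := by omega
  have h4 : S = {w₀} := by
    refine le_antisymm ?_ hsub
    rw [Finset.card_eq_zero, Finset.sdiff_eq_empty_iff_subset] at h3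
    exact h3
  have h5 : m w₀ = 2 := by omega
  refine ⟨w₀, fun w => ?_, ?_, (key w₀ hw₀).2 h5⟩
  · rw [← hS w, h4, Finset.mem_singleton]
  · have h6 := (hm w₀ hw₀).1
    rwa [h5] at h6

/-- The poles. Proof: `s`, `η` are regular at the other places, and at `w₀` the two summands have different orders
`- 2 deg a`, `- 2 deg b - 3`. -/
theorem dv_pole (h : Qd s η (TW W M) (NW W M) σ) {a b : M[X]} (hab : ¬(a = 0 ∧ b = 0))
    {w₀ : Place M E Ω} (hw₀ : ∀ w : Place M E Ω, s ∉ w.V ↔ w = w₀) (h1 : w₀.IsOrd s (-2))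
    (h2 : w₀.IsOrd η (-3)) :
    (∀ w : Place M E Ω, w ≠ w₀ → aeval s a + aeval s b * η ∈ w.V) ∧
      ∃ d : ℕ, w₀.IsOrd (aeval s a + aeval s b * η) (-d) ∧
        (d ≤ 2 * a.natDegree ∨ (b ≠ 0 ∧ d ≤ 2 * b.natDegree + 3)) := by
  constructor
  · intro w hw
    have hs : s ∈ w.V := by
      by_contra hc
      exact hw ((hw₀ w).1 hc)
    obtain ⟨ha, -⟩ := qe_res w hs a
    obtain ⟨hb, -⟩ := qe_res w hs b
    exact add_mem ha (mul_mem hb (dvI_mem h hs))
  · have hs : s ∉ w₀.V := (hw₀ w₀).2 rfl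
    obtain ⟨π, hπ⟩ := Qb.exists_unif h.ff w₀
    obtain ⟨p1, p0⟩ := dvI_unif hπ
    have e1 := (dvI_ord hπ).1 h1
    have e2 := (dvI_ord hπ).1 h2
    have va : a ≠ 0 → w₀.V.valuation (aeval s a) =
        w₀.V.valuation π ^ (-((2 * a.natDegree : ℕ) : ℤ)) := by
      intro ha
      rw [dvI_pol w₀ hs ha, e1, ← zpow_natCast, ← zpow_mul]
      exact congrArg _ (by push_cast; ring)
    have vb : b ≠ 0 → w₀.V.valuation (aeval s b * η) =
        w₀.V.valuation π ^ (-((2 * b.natDegree + 3 : ℕ) : ℤ)) := by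
      intro hb
      rw [map_mul, dvI_pol w₀ hs hb, e1, e2, ← zpow_natCast, ← zpow_mul, ← zpow_add₀ p0]
      exact congrArg _ (by push_cast; ring)
    by_cases ha : a = 0
    · have hb : b ≠ 0 := fun hb => hab ⟨ha, hb⟩
      refine ⟨2 * b.natDegree + 3, ?_, Or.inr ⟨hb, le_rfl⟩⟩
      rw [ha, map_zero, zero_add]
      exact (dvI_ord hπ).2 (vb hb)
    by_cases hb : b = 0
    · refine ⟨2 * a.natDegree, ?_, Or.inl le_rfl⟩
      rw [hb, map_zero, zero_mul, add_zero]
      exact (dvI_ord hπ).2 (va ha)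
    have hne : w₀.V.valuation (aeval s a) ≠ w₀.V.valuation (aeval s b * η) := by
      rw [va ha, vb hb]
      intro hc
      have h3 := zpow_inj_aux p1 p0 hc
      omega
    rcases lt_or_gt_of_ne hne with h3 | h3
    · refine ⟨2 * b.natDegree + 3, ?_, Or.inr ⟨hb, le_rfl⟩⟩
      rw [dvI_ord hπ, Valuation.map_add_eq_of_lt_right _ h3]
      exact vb hb
    · refine ⟨2 * a.natDegree, ?_, Or.inl le_rfl⟩
      rw [dvI_ord hπ, Valuation.map_add_eq_of_lt_left _ h3]
      exact va ha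

/-- **The divisor.** `z` is a cycle of points `≠ 0` with coefficients `≥ 0` which is at most the divisor of zeros of `f = a(s) + b(s) η`, and whose
degree is at least the degree of the poles. Then `z - deg z [0]` is the divisor of `f`. Proof: if `f` is algebraic over `M` it is a constant and `z = 0`
(`fw_plc`). Else the sum of the orders of the zeros is the sum of the orders of the poles (`Dz.sum_zeros` for `f` and for `f⁻¹`), which is at most
`deg z` (`dv_pole`), and `z P ≤ ord` at a place with value `P` (`fw_plc`), different points give different places: equality. -/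
theorem dv [Algebra.IsAlgebraic M Ω] (h : Qd s η (TW W M) (NW W M) σ) {a b : M[X]}
    (hab : ¬(a = 0 ∧ b = 0)) (z : Pt W Ω →₀ ℤ) (h0 : ∀ P, 0 ≤ z P) (h00 : z 0 = 0)
    (hd : (2 * a.natDegree : ℤ) ≤ dg z) (hd' : b ≠ 0 → (2 * b.natDegree + 3 : ℤ) ≤ dg z)
    (hz : ∀ (w : Place M E Ω) (P : Pt W Ω) (k : ℤ), P ≠ 0 → Pt.Red W w (gp h) P →
      w.IsOrd (aeval s a + aeval s b * η) k → z P ≤ k) :
    Pv (Ev W) M Ω (z - Finsupp.single (0 : Pt W Ω) (dg z)) := by
  have hf : aeval s a + aeval s b * η ≠ 0 := fun hf => hab (fw_indep h hf)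
  obtain ⟨w₀, hw₀, h1, h2⟩ := dv_inf (Ω := Ω) h
  obtain ⟨hp, d, hd1, hd2⟩ := dv_pole h hab hw₀ h1 h2
  refine dvA_main h hf ((hw₀ w₀).2 rfl) hp hd1 z h0 h00 ?_ hz
  rcases hd2 with h3 | ⟨h3, h4⟩
  · omega
  · have h5 := hd' h3
    omega

end PE
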