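import Pool.Agent.Lib.MP_f80667_ag.Pe.Df
import Pool.Agent.Lib.MP_f80667_ag.Pe.RsM
import Pool.Agent.Lib.MP_f80667_ag.Be.Qe

/-! The function field of a Weierstrass curve over a field of characteristic `0`. -/

open ZC BE Polynomial

namespace PE

section pols

variable {F : Type} [Field F] (W : WeierstrassCurve F) (M : Type) [Field M] [Algebra F M]

/-- `y² - T y + N = 0`. -/
noncomputable def TW : M[X] :=
  -(C (algebraMap F M W.a₁) * X + C (algebraMap F M W.a₃))

/-- `y² - T y + N = 0`. -/
noncomputable def NW : M[X] :=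
  -(X ^ 3 + C (algebraMap F M W.a₂) * X ^ 2 + C (algebraMap F M W.a₄) * X + C (algebraMap F M W.a₆))

/-- The discriminant has degree `3`. -/
private theorem disc_deg [CharZero M] : (TW W M ^ 2 - 4 * NW W M).natDegree = 3 := by
  have h : TW W M ^ 2 - 4 * NW W M = C (4 : M) * X ^ 3 +
      C (algebraMap F M W.a₁ ^ 2 + 4 * algebraMap F M W.a₂) * X ^ 2 +
      C (2 * algebraMap F M W.a₁ * algebraMap F M W.a₃ + 4 * algebraMap F M W.a₄) * X +
      C (algebraMap F M W.a₃ ^ 2 + 4 * algebraMap F M W.a₆) := by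
    have h4 : (C (4 : M) : M[X]) = 4 := by
      rw [show (4 : M) = ((4 : ℕ) : M) by norm_num, C_eq_natCast]
      norm_num
    have h2 : (C (2 : M) : M[X]) = 2 := by
      rw [show (2 : M) = ((2 : ℕ) : M) by norm_num, C_eq_natCast]
      norm_num
    simp only [TW, NW, C_add, C_mul, C_pow, h4, h2]
    ring
  rw [h, natDegree_cubic (by norm_num)]

/-- Proof: `exists_qd`; `T² - 4 N` has degree `3`. -/
theorem exists_fw [CharZero M] :
    ∃ (E : Type) (_ : Field E) (_ : Algebra M E) (s η : E) (σ : E ≃ₐ[M] E),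
      Qd s η (TW W M) (NW W M) σ := by
  apply exists_qd
  intro r hr
  have h := disc_deg W M
  rw [← hr, natDegree_pow] at h
  omega

end pols

variable {F : Type} [Field F] {W : WeierstrassCurve F} {M E : Type} [Field M] [CharZero M]
  [Algebra F M] [Field E] [Algebra M E] [Algebra F E] [IsScalarTower F M E] {s η : E}
  {σ : E ≃ₐ[M] E}

/-- The elements `1`, `η` are independent over `M(s)`. Proof: otherwise `η ∈ M(s)`, `σ η = η`, `2 η = T`, `T² = 4 N`, but the degree of
`T² - 4 N` is `3`. -/
theorem fw_indep (h : Qd s η (TW W M) (NW W M) σ) {a b : M[X]} (hab : aeval s a + aeval s b * η = 0) :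
    a = 0 ∧ b = 0 := by
  have htr := transcendental_iff.1 h.tr
  by_cases hb : b = 0
  · rw [hb, map_zero, zero_mul, add_zero] at hab
    exact ⟨htr a hab, hb⟩
  · exfalso
    have hb' : aeval s b ≠ 0 := fun e => hb (htr b e)
    have hsig : ∀ p : M[X], σ (aeval s p) = aeval s p := by
      intro p
      have h1 := aeval_algHom_apply (σ : E →ₐ[M] E) s p
      rw [AlgEquiv.coe_toAlgHom, h.sig_s] at h1
      exact h1.symm
    have h1 := congrArg σ hab
    rw [map_add, map_mul, hsig, hsig, h.sig_xi, map_zero] at h1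
    have h2 : aeval s b * (aeval s (TW W M) - 2 * η) = 0 := by linear_combination h1 - hab
    have h3 : aeval s (TW W M) = 2 * η := by
      rcases mul_eq_zero.1 h2 with h3 | h3
      · exact absurd h3 hb'
      · linear_combination h3
    have h4 : aeval s (TW W M ^ 2 - 4 * NW W M) = 0 := by
      have h5 := h.eq
      rw [map_sub, map_mul, map_pow, map_ofNat]
      rw [h3] at h5 ⊢
      linear_combination (-4) * h5
    have h5 := disc_deg W M
    rw [htr _ h4, natDegree_zero] at h5
    omega

/-- Elements of `M(s)` are fractions. -/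
private theorem frac_mem (s : E) {x : E} (hx : x ∈ IntermediateField.adjoin M {s}) :
    ∃ p q : M[X], aeval s q ≠ 0 ∧ x * aeval s q = aeval s p := by
  obtain ⟨p, q, h⟩ := (IntermediateField.mem_adjoin_simple_iff M x).1 hx
  by_cases hq : aeval s q = 0
  · refine ⟨0, 1, ?_, ?_⟩
    · rw [map_one]
      exact one_ne_zero
    · rw [h, hq, div_zero, zero_mul, map_zero]
  · exact ⟨p, q, hq, by rw [h, div_mul_cancel₀ _ hq]⟩

/-- Every function. Proof: `1`, `η` is a basis over `M(s)`. -/
theorem fw_gen (h : Qd s η (TW W M) (NW W M) σ) (f : E) :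
    ∃ a b c : M[X], c ≠ 0 ∧ f * aeval s c = aeval s a + aeval s b * η := by
  have htr := transcendental_iff.1 h.tr
  have hli : LinearIndependent (IntermediateField.adjoin M {s}) ![(1 : E), η] := by
    rw [LinearIndependent.pair_iff]
    intro α β hαβ
    obtain ⟨p₁, q₁, hq₁, h₁⟩ := frac_mem s α.2
    obtain ⟨p₂, q₂, hq₂, h₂⟩ := frac_mem s β.2
    have h0 : (α : E) + (β : E) * η = 0 := by
      have h1 : (α : E) * 1 + (β : E) * η = 0 := hαβ
      rwa [mul_one] at h1
    have h3 : aeval s (p₁ * q₂) + aeval s (p₂ * q₁) * η = 0 := by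
      rw [map_mul, map_mul, ← h₁, ← h₂]
      linear_combination (aeval s q₁ * aeval s q₂) * h0
    obtain ⟨h4, h5⟩ := fw_indep h h3
    have h6 : aeval s p₁ * aeval s q₂ = 0 := by rw [← map_mul, h4, map_zero]
    have h7 : aeval s p₂ * aeval s q₁ = 0 := by rw [← map_mul, h5, map_zero]
    have h8 : aeval s p₁ = 0 := (mul_eq_zero.1 h6).resolve_right hq₂
    have h9 : aeval s p₂ = 0 := (mul_eq_zero.1 h7).resolve_right hq₁
    rw [h8] at h₁
    rw [h9] at h₂
    exact ⟨Subtype.ext ((mul_eq_zero.1 h₁).resolve_right hq₁),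
      Subtype.ext ((mul_eq_zero.1 h₂).resolve_right hq₂)⟩
  haveI : FiniteDimensional (IntermediateField.adjoin M {s}) E :=
    Module.finite_of_finrank_pos (by rw [h.rank]; norm_num)
  have hspan := hli.span_eq_top_of_card_eq_finrank' (by rw [Fintype.card_fin, h.rank])
  have hf : f ∈ Submodule.span (IntermediateField.adjoin M {s}) (Set.range ![(1 : E), η]) := by
    rw [hspan]
    exact Submodule.mem_top
  rw [Matrix.range_cons, Matrix.range_cons, Matrix.range_empty, Set.union_empty,
    Set.singleton_union, Submodule.mem_span_pair] at hf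
  obtain ⟨α, β, hαβ⟩ := hf
  obtain ⟨p₁, q₁, hq₁, h₁⟩ := frac_mem s α.2
  obtain ⟨p₂, q₂, hq₂, h₂⟩ := frac_mem s β.2
  have h0 : f = (α : E) + (β : E) * η := by
    have h1 : (α : E) * 1 + (β : E) * η = f := hαβ
    rw [← h1, mul_one]
  refine ⟨p₁ * q₂, p₂ * q₁, q₁ * q₂, ?_, ?_⟩
  · intro e
    have h1 : aeval s (q₁ * q₂) = 0 := by rw [e, map_zero]
    rw [map_mul] at h1
    rcases mul_eq_zero.1 h1 with h2 | h2
    · exact hq₁ h2
    · exact hq₂ h2
  · rw [map_mul, map_mul, map_mul, ← h₁, ← h₂, h0]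
    ring

omit [CharZero M] in
private theorem fw_aevalT (s : E) : aeval s (TW W M) =
    -(algebraMap F E W.a₁ * s + algebraMap F E W.a₃) := by
  simp only [TW, map_neg, map_add, map_mul, aeval_C, aeval_X,
    IsScalarTower.algebraMap_apply F M E]

omit [CharZero M] in
private theorem fw_aevalN (s : E) : aeval s (NW W M) =
    -(s ^ 3 + algebraMap F E W.a₂ * s ^ 2 + algebraMap F E W.a₄ * s + algebraMap F E W.a₆) := by
  simp only [NW, map_neg, map_add, map_mul, map_pow, aeval_C, aeval_X,
    IsScalarTower.algebraMap_apply F M E]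

/-- The equation of the generic point. -/
theorem fw_ns [W.IsElliptic] (h : Qd s η (TW W M) (NW W M) σ) :
    (W.baseChange E).toAffine.Nonsingular s η := by
  have h1 : (W.baseChange E).toAffine.Equation s η := by
    rw [WeierstrassCurve.Affine.equation_iff]
    have h2 := h.eq
    rw [fw_aevalT, fw_aevalN] at h2
    change η ^ 2 + algebraMap F E W.a₁ * s * η + algebraMap F E W.a₃ * η =
      s ^ 3 + algebraMap F E W.a₂ * s ^ 2 + algebraMap F E W.a₄ * s + algebraMap F E W.a₆
    linear_combination h2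
  have h3 : (W.baseChange E).IsElliptic :=
    (inferInstance : (W.map (algebraMap F E)).IsElliptic)
  exact WeierstrassCurve.Affine.equation_iff_nonsingular.1 h1

/-- The generic point. -/
noncomputable def gp [W.IsElliptic] (h : Qd s η (TW W M) (NW W M) σ) : Pt W E :=
  Pt.aff s η (fw_ns h)

/-- The automorphism `σ` is the negation: it moves the generic point to its negative. -/
theorem gp_sig [W.IsElliptic] (h : Qd s η (TW W M) (NW W M) σ) :
    Pt.map W (σ.restrictScalars F : E →ₐ[F] E) (gp h) = -gp h := by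
  classical
  have key : ∀ (x y x' y' : E) (h₁ : (W.baseChange E).toAffine.Nonsingular x y)
      (h₂ : (W.baseChange E).toAffine.Nonsingular x' y'), x = x' → y = y' →
      (Pt.aff x y h₁ : Pt W E) = Pt.aff x' y' h₂ := by
    intro x y x' y' h₁ h₂ e₁ e₂
    subst e₁ e₂
    rfl
  have h1 : ∃ h' : (W.baseChange E).toAffine.Nonsingular (σ s) (σ η),
      Pt.map W (σ.restrictScalars F : E →ₐ[F] E) (gp h) = Pt.aff (σ s) (σ η) h' := ⟨_, rfl⟩
  obtain ⟨h', h2⟩ := h1
  have h3 : ∃ h'' : (W.baseChange E).toAffine.Nonsingular s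
      ((W.baseChange E).toAffine.negY s η), -gp h = Pt.aff s _ h'' :=
    ⟨(WeierstrassCurve.Affine.nonsingular_neg ..).mpr (fw_ns h), rfl⟩
  obtain ⟨h'', h4⟩ := h3
  rw [h2, h4]
  refine key _ _ _ _ _ _ h.sig_s ?_
  rw [h.sig_xi, fw_aevalT]
  change _ = -η - algebraMap F E W.a₁ * s - algebraMap F E W.a₃
  ring

end PE
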