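import Mathlib

/-!
The group of the nonsingular points of a Weierstrass curve (possibly singular) over a field, the
parameters `t = - x / y`, `w = - 1 / y` at the point at infinity.
-/

open WeierstrassCurve

namespace PE

/-- The nonsingular points of `W`. -/
def Pn {L : Type} [Field L] (W : WeierstrassCurve L) : Type := W.toAffine.Point

/-- The group structure. -/
noncomputable instance Pn.group {L : Type} [Field L] (W : WeierstrassCurve L) :
    AddCommGroup (Pn W) := by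
  classical
  exact (inferInstance : AddCommGroup W.toAffine.Point)

section pn

variable {L : Type} [Field L] {W : WeierstrassCurve L}

/-- The point `(x, y)`. -/
def Pn.aff (x y : L) (h : W.toAffine.Nonsingular x y) : Pn W := Affine.Point.some x y h

theorem Pn.cases' (P : Pn W) : P = 0 ∨ ∃ x y h, P = Pn.aff x y h := by
  match P with
  | .zero => exact Or.inl rfl
  | .some x y h => exact Or.inr ⟨x, y, h, rfl⟩

theorem Pn.aff_ne {x y : L} (h : W.toAffine.Nonsingular x y) : Pn.aff x y h ≠ 0 :=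
  Affine.Point.some_ne_zero h

theorem Pn.aff_inj {x y x' y' : L} {h : W.toAffine.Nonsingular x y}
    {h' : W.toAffine.Nonsingular x' y'} (e : Pn.aff x y h = Pn.aff x' y' h') : x = x' ∧ y = y' := by
  unfold Pn.aff at e
  injection e with e1 e2
  exact ⟨e1, e2⟩

theorem Pn.aff_ext {x y x' y' : L} {h : W.toAffine.Nonsingular x y}
    {h' : W.toAffine.Nonsingular x' y'} (hx : x = x') (hy : y = y') :
    Pn.aff x y h = Pn.aff x' y' h' := by
  subst hx hy
  rfl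

theorem Pn.eqn {x y : L} (h : W.toAffine.Nonsingular x y) :
    y ^ 2 + W.a₁ * x * y + W.a₃ * y = x ^ 3 + W.a₂ * x ^ 2 + W.a₄ * x + W.a₆ :=
  (Affine.equation_iff _ _).1 h.1

theorem Pn.neg_aff {x y : L} (h : W.toAffine.Nonsingular x y) :
    ∃ h' : W.toAffine.Nonsingular x (-y - W.a₁ * x - W.a₃),
      -(Pn.aff x y h) = Pn.aff x (-y - W.a₁ * x - W.a₃) h' :=
  ⟨(Affine.nonsingular_neg ..).2 h, rfl⟩

/-- Two points with sum `0`. -/
theorem Pn.add_opp {x y x' y' : L} (h : W.toAffine.Nonsingular x y)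
    (h' : W.toAffine.Nonsingular x' y') (hx : x = x') (hy : y = -y' - W.a₁ * x' - W.a₃) :
    Pn.aff x y h + Pn.aff x' y' h' = 0 := by
  classical
  exact Affine.Point.add_of_Y_eq (h₁ := h) (h₂ := h') hx hy

/-- The addition formula with the slope `l`: `l` satisfies both equations. -/
theorem Pn.slope {x₁ y₁ x₂ y₂ : L} (h : W.toAffine.Nonsingular x₁ y₁)
    (h' : W.toAffine.Nonsingular x₂ y₂) (hne : ¬(x₁ = x₂ ∧ y₁ = -y₂ - W.a₁ * x₂ - W.a₃)) :
    ∃ l : L, l * (x₁ - x₂) = y₁ - y₂ ∧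
      l * (y₁ + y₂ + W.a₁ * x₂ + W.a₃) = x₁ ^ 2 + x₁ * x₂ + x₂ ^ 2 + W.a₂ * (x₁ + x₂) +
        W.a₄ - W.a₁ * y₁ ∧
      ∃ h'' : W.toAffine.Nonsingular (l ^ 2 + W.a₁ * l - W.a₂ - x₁ - x₂)
        (-(l * ((l ^ 2 + W.a₁ * l - W.a₂ - x₁ - x₂) - x₁) + y₁) -
          W.a₁ * (l ^ 2 + W.a₁ * l - W.a₂ - x₁ - x₂) - W.a₃),
        Pn.aff x₁ y₁ h + Pn.aff x₂ y₂ h' = Pn.aff _ _ h'' := by
  classical
  have hxy : ¬(x₁ = x₂ ∧ y₁ = W.toAffine.negY x₂ y₂) := hne
  have e₁ := Pn.eqn h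
  have e₂ := Pn.eqn h'
  refine ⟨W.toAffine.slope x₁ x₂ y₁ y₂, ?_, ?_, Affine.nonsingular_add h h' hxy,
    Affine.Point.add_some hxy⟩
  · by_cases hx : x₁ = x₂
    · have hy : y₁ = y₂ := Affine.Y_eq_of_Y_ne h.1 h'.1 hx fun e => hxy ⟨hx, e⟩
      rw [hx, hy, sub_self, sub_self, mul_zero]
    · rw [Affine.slope_of_X_ne hx, div_mul_cancel₀ _ (sub_ne_zero.2 hx)]
  · by_cases hx : x₁ = x₂
    · have hyn : y₁ ≠ W.toAffine.negY x₂ y₂ := fun e => hxy ⟨hx, e⟩
      have hy : y₁ = y₂ := Affine.Y_eq_of_Y_ne h.1 h'.1 hx hyn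
      subst hx hy
      have h0 : y₁ - W.toAffine.negY x₁ y₁ ≠ 0 := sub_ne_zero.2 hyn
      have h1 : y₁ + y₁ + W.a₁ * x₁ + W.a₃ = y₁ - W.toAffine.negY x₁ y₁ := by
        rw [Affine.negY]
        ring
      rw [Affine.slope_of_Y_ne rfl hyn, h1, div_mul_cancel₀ _ h0]
      ring
    · have h0 : x₁ - x₂ ≠ 0 := sub_ne_zero.2 hx
      rw [Affine.slope_of_X_ne hx, div_mul_eq_mul_div, div_eq_iff h0]
      linear_combination e₁ - e₂

/-- The parameter `t = - x / y`. -/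
def Pn.t : Pn W → L
  | .zero => 0
  | .some x y _ => -x / y

/-- The function `w = - 1 / y`. -/
def Pn.w : Pn W → L
  | .zero => 0
  | .some _ y _ => -1 / y

/-- `y ≠ 0`. -/
def Pn.y0 : Pn W → Prop
  | .zero => True
  | .some _ y _ => y ≠ 0

end pn

end PE
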