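import Pool.Agent.Lib.MP_f80667_ag.Pe.FgB
import Pool.Agent.Lib.MP_f80667_ag.Pe.Pn

/-!
The sum of two points near the origin of a Weierstrass curve.
-/

open WeierstrassCurve

namespace PE

section fgc

variable {L : Type} [Field L]

/-- The slope, different parameters. -/
theorem fgc_ne {x₁ y₁ x₂ y₂ t₁ t₂ w₁ w₂ m l n : L} (hy₁ : y₁ * w₁ = -1) (hy₂ : y₂ * w₂ = -1)
    (hx₁ : x₁ * w₁ = t₁) (hx₂ : x₂ * w₂ = t₂) (hs : m * (x₁ - x₂) = y₁ - y₂)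
    (h1 : w₁ = l * t₁ + n) (h2 : w₂ = l * t₂ + n) (hne : t₁ ≠ t₂) :
    m * n = l ∧ (y₁ - m * x₁) * n = -1 := by
  have hq : (m + (y₁ - m * x₁) * l) * (t₁ - t₂) = 0 := by
    have e1 : (y₁ - m * x₁) * w₁ = -1 - m * t₁ := by linear_combination hy₁ - m * hx₁
    have e2 : (y₁ - m * x₁) * w₂ = -1 - m * t₂ := by
      linear_combination hy₂ - m * hx₂ - w₂ * hs
    linear_combination e1 - e2 - (y₁ - m * x₁) * h1 + (y₁ - m * x₁) * h2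
  have hm : m + (y₁ - m * x₁) * l = 0 :=
    (mul_eq_zero.1 hq).resolve_right (sub_ne_zero.2 hne)
  have hqn : (y₁ - m * x₁) * n = -1 := by
    linear_combination hy₁ - m * hx₁ - (y₁ - m * x₁) * h1 - t₁ * hm
  refine ⟨?_, hqn⟩
  linear_combination n * hm - l * hqn

/-- The slope, equal points. -/
theorem fgc_eq {a₁ a₂ a₃ a₄ a₆ x y t w m l n D : L} (hy : y * w = -1) (hx : x * w = t)
    (hs : m * (y + y + a₁ * x + a₃) = x ^ 2 + x * x + x ^ 2 + a₂ * (x + x) + a₄ - a₁ * y)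
    (he : w = t ^ 3 + a₁ * t * w + a₂ * t ^ 2 * w + a₃ * w ^ 2 + a₄ * t * w ^ 2 + a₆ * w ^ 3)
    (hD : D = 1 - a₁ * t - a₂ * t ^ 2 - a₃ * (w + w) - a₄ * t * (w + w) -
        a₆ * (w ^ 2 + w * w + w ^ 2)) (hD0 : D ≠ 0)
    (hN : t ^ 2 + t * t + t ^ 2 + a₁ * w + a₂ * (t + t) * w + a₄ * w ^ 2 = l * D)
    (h1 : w = l * t + n) :
    m * n = l ∧ (y - m * x) * n = -1 := by
  have e1 : m * w * (-2 + a₁ * t + a₃ * w) = l * D := by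
    rw [← hN]
    have e2 : m * w * (-2 + a₁ * t + a₃ * w) = w ^ 2 * (m * (y + y + a₁ * x + a₃)) := by
      linear_combination (-2 * m * w) * hy - m * w * a₁ * hx
    have e3 : w ^ 2 * (x ^ 2 + x * x + x ^ 2 + a₂ * (x + x) + a₄ - a₁ * y) =
        3 * (x * w) ^ 2 + 2 * a₂ * (x * w) * w + a₄ * w ^ 2 - a₁ * w * (y * w) := by ring
    rw [e2, hs, e3, hx, hy]
    ring
  have e4 : w * D - t * (l * D) = w * (-2 + a₁ * t + a₃ * w) := by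
    rw [← hN, hD]
    linear_combination 3 * he
  have e5 : D * (m * n - l) = 0 := by
    linear_combination m * e4 + e1 - m * D * h1
  have hmn : m * n = l := by
    rcases mul_eq_zero.1 e5 with h | h
    · exact absurd h hD0
    · exact sub_eq_zero.1 h
  refine ⟨hmn, ?_⟩
  have e6 : y * t = -x := by
    rw [← hx]
    linear_combination x * hy
  linear_combination hy - y * h1 - x * hmn - l * e6

/-- The third point. -/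
theorem fgc_third {a₁ a₂ a₃ x₁ y₁ x₂ t₁ t₂ w₁ w₂ m l n t₃ w₃ u ui A X Y : L} (hw₁ : w₁ ≠ 0)
    (hw₂ : w₂ ≠ 0) (hx₁ : x₁ * w₁ = t₁) (hx₂ : x₂ * w₂ = t₂)
    (hmn : m * n = l) (hqn : (y₁ - m * x₁) * n = -1) (h4 : w₃ = l * t₃ + n)
    (h7 : A * (w₁ * w₂ * w₃) = n ^ 3)
    (h8 : A * (t₁ * w₂ * w₃ + t₂ * w₁ * w₃ + t₃ * w₁ * w₂) =
        n * (l ^ 2 + a₁ * l * n - a₂ * n ^ 2)) (hu : u = 1 - a₁ * t₃ - a₃ * w₃)
    (hui : u * ui = 1) (hX : X = m ^ 2 + a₁ * m - a₂ - x₁ - x₂)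
    (hY : Y = -(m * (X - x₁) + y₁) - a₁ * X - a₃) :
    Y ≠ 0 ∧ -X / Y = -t₃ * ui ∧ -1 / Y = -w₃ * ui := by
  have hn : n ≠ 0 := by
    rintro rfl
    rw [mul_zero] at hqn
    exact one_ne_zero (neg_eq_zero.1 hqn.symm)
  have hA : A ≠ 0 := by
    rintro rfl
    rw [zero_mul] at h7
    exact pow_ne_zero 3 hn h7.symm
  have hXw : X * w₃ = t₃ := by
    have e : (A * w₁ * w₂ * n ^ 2) * (X * w₃ - t₃) = 0 := by
      have e1 : n ^ 2 * X = l ^ 2 + a₁ * l * n - a₂ * n ^ 2 - n ^ 2 * x₁ - n ^ 2 * x₂ := by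
        rw [hX, ← hmn]
        ring
      have e2 : (A * w₁ * w₂ * n ^ 2) * (X * w₃ - t₃) =
          (A * (w₁ * w₂ * w₃)) * (n ^ 2 * X) - A * w₁ * w₂ * n ^ 2 * t₃ := by ring
      rw [e2, h7, e1]
      linear_combination (-n ^ 2) * h8 + (n ^ 2 * (x₁ + x₂)) * h7 -
        (n ^ 2 * A * w₂ * w₃) * hx₁ - (n ^ 2 * A * w₁ * w₃) * hx₂
    have e3 : A * w₁ * w₂ * n ^ 2 ≠ 0 := mul_ne_zero (mul_ne_zero (mul_ne_zero hA hw₁) hw₂)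
      (pow_ne_zero 2 hn)
    exact sub_eq_zero.1 ((mul_eq_zero.1 e).resolve_left e3)
  have hml : m + (y₁ - m * x₁) * l = 0 := by
    have e : n * (m + (y₁ - m * x₁) * l) = 0 := by
      linear_combination hmn + l * hqn
    exact (mul_eq_zero.1 e).resolve_left hn
  have hYw : Y * w₃ = u := by
    rw [hY, hu]
    have e : (m * (X - x₁) + y₁) * w₃ = -1 := by
      linear_combination m * hXw + t₃ * hml + hqn + (y₁ - m * x₁) * h4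
    linear_combination -e - a₁ * hXw
  have hu0 : u ≠ 0 := by
    rintro rfl
    rw [zero_mul] at hui
    exact zero_ne_one hui
  have hY0 : Y ≠ 0 := by
    intro h
    rw [h, zero_mul] at hYw
    exact hu0 hYw.symm
  refine ⟨hY0, ?_, ?_⟩
  · rw [div_eq_iff hY0, ← hXw]
    linear_combination X * hui + X * ui * hYw
  · rw [div_eq_iff hY0]
    linear_combination hui + ui * hYw

/-- **The sum of two points.** -/
theorem fgc_add {W : WeierstrassCurve L} {V : Subring L} (ha₁ : W.a₁ ∈ V) (ha₂ : W.a₂ ∈ V)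
    (ha₃ : W.a₃ ∈ V) (ha₄ : W.a₄ ∈ V) (ha₆ : W.a₆ ∈ V) {P Q : Pn W} (hP : P.y0) (hQ : Q.y0)
    (hPt : P.t ∈ V) (hQt : Q.t ∈ V) (hPw : ∃ v ∈ V, P.w = v * P.t)
    (hQw : ∃ v ∈ V, Q.w = v * Q.t)
    (hI : ∀ α ∈ V, ∀ β ∈ V, 1 + (α * P.t + β * Q.t) ≠ 0 ∧ (1 + (α * P.t + β * Q.t))⁻¹ ∈ V)
    (heP : P.w = P.t ^ 3 + W.a₁ * P.t * P.w + W.a₂ * P.t ^ 2 * P.w +
      W.a₃ * P.w ^ 2 + W.a₄ * P.t * P.w ^ 2 + W.a₆ * P.w ^ 3)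
    (heQ : Q.w = Q.t ^ 3 + W.a₁ * Q.t * Q.w + W.a₂ * Q.t ^ 2 * Q.w +
      W.a₃ * Q.w ^ 2 + W.a₄ * Q.t * Q.w ^ 2 + W.a₆ * Q.w ^ 3)
    (hex : P.t = Q.t → P = Q) :
    (P + Q).y0 ∧ (∃ α ∈ V, ∃ β ∈ V, (P + Q).t = α * P.t + β * Q.t) ∧
      (∃ α ∈ V, ∃ β ∈ V, (P + Q).w = α * P.t + β * Q.t) ∧
      ∃ c₁ ∈ V, ∃ c₂ ∈ V,
        (P + Q).t = P.t + Q.t - W.a₁ * P.t * Q.t + P.t * Q.t * (c₁ * P.t + c₂ * Q.t) := by
  obtain ⟨v₁, hv₁, hw₁⟩ := hPw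
  obtain ⟨v₂, hv₂, hw₂⟩ := hQw
  rcases P.cases' with rfl | ⟨x₁, y₁, h₁, rfl⟩
  · have hz : (0 : Pn W).t = 0 := rfl
    refine ⟨by rw [zero_add]; exact hQ, ⟨0, V.zero_mem, 1, V.one_mem, ?_⟩,
      ⟨0, V.zero_mem, v₂, hv₂, ?_⟩, 0, V.zero_mem, 0, V.zero_mem, ?_⟩
    · rw [zero_add]; ring
    · rw [zero_add, hw₂]; ring
    · rw [zero_add, hz]; ring
  rcases Q.cases' with rfl | ⟨x₂, y₂, h₂, rfl⟩
  · have hz : (0 : Pn W).t = 0 := rfl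
    refine ⟨by rw [add_zero]; exact hP, ⟨1, V.one_mem, 0, V.zero_mem, ?_⟩,
      ⟨v₁, hv₁, 0, V.zero_mem, ?_⟩, 0, V.zero_mem, 0, V.zero_mem, ?_⟩
    · rw [add_zero]; ring
    · rw [add_zero, hw₁]; ring
    · rw [add_zero, hz]; ring
  have hy₁ : y₁ ≠ 0 := hP
  have hy₂ : y₂ ≠ 0 := hQ
  obtain ⟨t₁, ht₁⟩ : ∃ t, t = (Pn.aff x₁ y₁ h₁).t := ⟨_, rfl⟩
  obtain ⟨w₁, hw1⟩ : ∃ w, w = (Pn.aff x₁ y₁ h₁).w := ⟨_, rfl⟩
  obtain ⟨t₂, ht₂⟩ : ∃ t, t = (Pn.aff x₂ y₂ h₂).t := ⟨_, rfl⟩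
  obtain ⟨w₂, hw2⟩ : ∃ w, w = (Pn.aff x₂ y₂ h₂).w := ⟨_, rfl⟩
  rw [← ht₁] at hPt hw₁ hI heP hex ⊢
  rw [← ht₂] at hQt hw₂ hI heQ hex ⊢
  rw [← hw1] at hw₁ heP
  rw [← hw2] at hw₂ heQ
  have ht₁' : t₁ = -x₁ / y₁ := ht₁
  have ht₂' : t₂ = -x₂ / y₂ := ht₂
  have hw1' : w₁ = -1 / y₁ := hw1
  have hw2' : w₂ = -1 / y₂ := hw2
  have hyw₁ : y₁ * w₁ = -1 := by rw [hw1']; field_simp
  have hyw₂ : y₂ * w₂ = -1 := by rw [hw2']; field_simp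
  have hxw₁ : x₁ * w₁ = t₁ := by rw [hw1', ht₁']; field_simp
  have hxw₂ : x₂ * w₂ = t₂ := by rw [hw2', ht₂']; field_simp
  have hw₁0 : w₁ ≠ 0 := by
    rintro h
    rw [h, mul_zero] at hyw₁
    exact one_ne_zero (neg_eq_zero.1 hyw₁.symm)
  have hw₂0 : w₂ ≠ 0 := by
    rintro h
    rw [h, mul_zero] at hyw₂
    exact one_ne_zero (neg_eq_zero.1 hyw₂.symm)
  have hw₁V : w₁ ∈ V := by rw [hw₁]; exact V.mul_mem hv₁ hPt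
  have hw₂V : w₂ ∈ V := by rw [hw₂]; exact V.mul_mem hv₂ hQt
  by_cases hopp : x₁ = x₂ ∧ y₁ = -y₂ - W.a₁ * x₂ - W.a₃
  · -- opposite points
    have h0 : Pn.aff x₁ y₁ h₁ + Pn.aff x₂ y₂ h₂ = 0 := Pn.add_opp h₁ h₂ hopp.1 hopp.2
    rw [h0]
    have hz : (0 : Pn W).t = 0 := rfl
    have hzw : (0 : Pn W).w = 0 := rfl
    refine ⟨trivial, ⟨0, V.zero_mem, 0, V.zero_mem, by rw [hz]; ring⟩,
      ⟨0, V.zero_mem, 0, V.zero_mem, by rw [hzw]; ring⟩, ?_⟩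
    -- `w₁ = t₁² (...)`
    obtain ⟨α, hα⟩ : ∃ α, α = -(W.a₁ + W.a₂ * t₁ + W.a₃ * v₁ + W.a₄ * w₁ + W.a₆ * w₁ * v₁) :=
      ⟨_, rfl⟩
    have hαV : α ∈ V := by
      rw [hα]
      exact V.neg_mem (V.add_mem (V.add_mem (V.add_mem (V.add_mem ha₁ (V.mul_mem ha₂ hPt))
        (V.mul_mem ha₃ hv₁)) (V.mul_mem ha₄ hw₁V)) (V.mul_mem (V.mul_mem ha₆ hw₁V) hv₁))
    obtain ⟨hne, hinv⟩ := hI α hαV 0 V.zero_mem
    obtain ⟨r, hr⟩ : ∃ r, r = (1 + (α * t₁ + 0 * t₂))⁻¹ := ⟨_, rfl⟩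
    rw [← hr] at hinv
    have hr1 : (1 + α * t₁) * r = 1 := by
      rw [hr]
      have : 1 + α * t₁ = 1 + (α * t₁ + 0 * t₂) := by ring
      rw [this]
      exact mul_inv_cancel₀ hne
    have hw₁r : w₁ = t₁ ^ 3 * r := by
      have e1 : w₁ * (1 + α * t₁) = t₁ ^ 3 := by
        rw [hα]
        linear_combination heP + (W.a₃ * w₁ + W.a₆ * w₁ ^ 2) * hw₁
      linear_combination r * e1 - w₁ * hr1
    refine ⟨W.a₃ * (-1) * t₁ * r, V.mul_mem (V.mul_mem (V.mul_mem ha₃ (V.neg_mem V.one_mem)) hPt)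
      hinv, 0, V.zero_mem, ?_⟩
    rw [hz]
    have e2 : t₂ * (1 - W.a₁ * t₁ - W.a₃ * w₁) = -t₁ := by
      obtain ⟨hx, hy⟩ := hopp
      have e3 : t₂ * y₂ = -x₂ := by rw [ht₂']; field_simp
      have e4 : t₁ * y₁ = -x₁ := by rw [ht₁']; field_simp
      have e5 : y₁ * (t₂ * (1 - W.a₁ * t₁ - W.a₃ * w₁) + t₁) = 0 := by
        linear_combination t₂ * hy - W.a₁ * t₂ * e4 - W.a₃ * t₂ * hyw₁ - e3 + e4 +
          (-1 + W.a₁ * t₂) * hx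
      have e6 := (mul_eq_zero.1 e5).resolve_left hy₁
      linear_combination e6
    linear_combination -e2 - (W.a₃ * t₂) * hw₁r
  · obtain ⟨m, hs1, hs2, h₃, hsum⟩ := Pn.slope h₁ h₂ hopp
    obtain ⟨φ, hφ⟩ : ∃ φ : V →+* (V ⧸ Ideal.span {(⟨t₁, hPt⟩ : V), (⟨t₂, hQt⟩ : V)}),
        φ = Ideal.Quotient.mk _ := ⟨_, rfl⟩
    have li : ∀ x : V, φ x = 0 → ∃ α β : V, x = α * ⟨t₁, hPt⟩ + β * ⟨t₂, hQt⟩ := by
      intro x hx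
      rw [hφ] at hx
      have h0 := Ideal.Quotient.eq_zero_iff_mem.1 hx
      obtain ⟨α, β, h⟩ := Ideal.mem_span_pair.1 h0
      exact ⟨α, β, h.symm⟩
    have f₁ : φ ⟨t₁, hPt⟩ = 0 := by
      rw [hφ]
      exact Ideal.Quotient.eq_zero_iff_mem.2 (Ideal.subset_span (by simp))
    have f₂ : φ ⟨t₂, hQt⟩ = 0 := by
      rw [hφ]
      exact Ideal.Quotient.eq_zero_iff_mem.2 (Ideal.subset_span (by simp))
    have g₁ : φ ⟨w₁, hw₁V⟩ = 0 := by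
      have e : (⟨w₁, hw₁V⟩ : V) = ⟨v₁, hv₁⟩ * ⟨t₁, hPt⟩ := Subtype.ext hw₁
      rw [e, map_mul, f₁, mul_zero]
    have g₂ : φ ⟨w₂, hw₂V⟩ = 0 := by
      have e : (⟨w₂, hw₂V⟩ : V) = ⟨v₂, hv₂⟩ * ⟨t₂, hQt⟩ := Subtype.ext hw₂
      rw [e, map_mul, f₂, mul_zero]
    have un : ∀ x : V, φ x = 1 → ∃ y : V, x * y = 1 := by
      intro x hx
      obtain ⟨α, β, h⟩ := li (x - 1) (by rw [map_sub, map_one, hx, sub_self])
      obtain ⟨hne, hinv⟩ := hI α α.2 β β.2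
      refine ⟨⟨_, hinv⟩, Subtype.ext ?_⟩
      have e : (x : L) = 1 + ((α : L) * t₁ + (β : L) * t₂) := by
        have := congrArg Subtype.val h
        have e' : (x : L) - 1 = (α : L) * t₁ + (β : L) * t₂ := this
        rw [← e']
        ring
      show (x : L) * _ = 1
      rw [e]
      exact mul_inv_cancel₀ hne
    obtain ⟨l, n, t₃, w₃, u, ui, A, e1, e2, e3, e4, e5, e6, e7, e8, ⟨α, β, e9⟩, ⟨γ, δ, e10⟩,
      ⟨Di, e11⟩, c₁, c₂, e12⟩ := fgb_core φ (a₁ := ⟨W.a₁, ha₁⟩) (a₂ := ⟨W.a₂, ha₂⟩)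
        (a₃ := ⟨W.a₃, ha₃⟩) (a₄ := ⟨W.a₄, ha₄⟩) (a₆ := ⟨W.a₆, ha₆⟩) f₁ f₂ g₁ g₂ un li
        (Subtype.ext heP) (Subtype.ext heQ)
    have E1 : w₁ = (l : L) * t₁ + n := congrArg Subtype.val e1
    have E2 : w₂ = (l : L) * t₂ + n := congrArg Subtype.val e2
    have E3 : (w₃ : L) = (l : L) * t₃ + n := congrArg Subtype.val e3
    have E4 : t₁ ^ 2 + t₁ * t₂ + t₂ ^ 2 + W.a₁ * w₁ + W.a₂ * (t₁ + t₂) * w₁ + W.a₄ * w₁ ^ 2 =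
      (l : L) * (1 - W.a₁ * t₂ - W.a₂ * t₂ ^ 2 - W.a₃ * (w₁ + w₂) - W.a₄ * t₂ * (w₁ + w₂) -
        W.a₆ * (w₁ ^ 2 + w₁ * w₂ + w₂ ^ 2)) := congrArg Subtype.val e4
    have E5 : (A : L) * (w₁ * w₂ * w₃) = (n : L) ^ 3 := congrArg Subtype.val e5
    have E6 : (A : L) * (t₁ * w₂ * w₃ + t₂ * w₁ * w₃ + t₃ * w₁ * w₂) =
        (n : L) * ((l : L) ^ 2 + W.a₁ * l * n - W.a₂ * (n : L) ^ 2) := congrArg Subtype.val e6
    have E7 : (u : L) = 1 - W.a₁ * t₃ - W.a₃ * w₃ := congrArg Subtype.val e7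
    have E8 : (u : L) * ui = 1 := congrArg Subtype.val e8
    have E9 : (t₃ : L) = α * t₁ + β * t₂ := congrArg Subtype.val e9
    have E10 : (w₃ : L) = γ * t₁ + δ * t₂ := congrArg Subtype.val e10
    have E11 : (1 - W.a₁ * t₂ - W.a₂ * t₂ ^ 2 - W.a₃ * (w₁ + w₂) - W.a₄ * t₂ * (w₁ + w₂) -
        W.a₆ * (w₁ ^ 2 + w₁ * w₂ + w₂ ^ 2)) * (Di : L) = 1 := congrArg Subtype.val e11
    have E12 : -(t₃ : L) * ui = t₁ + t₂ - W.a₁ * t₁ * t₂ + t₁ * t₂ * (c₁ * t₁ + c₂ * t₂) :=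
      congrArg Subtype.val e12
    have hmn : m * n = l ∧ (y₁ - m * x₁) * n = -1 := by
      by_cases hne : t₁ = t₂
      · obtain ⟨hx, hy⟩ := Pn.aff_inj (hex hne)
        have hww : w₂ = w₁ := by rw [hw1', hw2', hy]
        subst hx hy hne
        rw [hww] at E4 E11
        refine fgc_eq hyw₁ hxw₁ hs2 heP rfl ?_ E4 E1
        intro h
        rw [h, zero_mul] at E11
        exact zero_ne_one E11
      · exact fgc_ne hyw₁ hyw₂ hxw₁ hxw₂ hs1 E1 E2 hne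
    obtain ⟨hY0, hT, hWW⟩ := fgc_third hw₁0 hw₂0 hxw₁ hxw₂ hmn.1 hmn.2 E3 E5 E6 E7 E8 rfl rfl
    rw [hsum]
    have hT' : (Pn.aff _ _ h₃).t = -(t₃ : L) * ui := hT
    have hW' : (Pn.aff _ _ h₃).w = -(w₃ : L) * ui := hWW
    refine ⟨hY0, ⟨-(α * ui : V), (-(α * ui : V)).2, -(β * ui : V), (-(β * ui : V)).2, ?_⟩,
      ⟨-(γ * ui : V), (-(γ * ui : V)).2, -(δ * ui : V), (-(δ * ui : V)).2, ?_⟩,
      c₁, c₁.2, c₂, c₂.2, ?_⟩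
    · rw [hT', E9]
      push_cast
      ring
    · rw [hW', E10]
      push_cast
      ring
    · rw [hT', E12]

end fgc

end PE
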