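import Pool.Agent.Lib.MP_f80667_ag.Pe.Pn
import Pool.Agent.Lib.MP_f80667_ag.Pe.FgC

/-!
The formal group of a Weierstrass curve: a subring `V` of a field `L` with an ideal `m`, `1 + m` invertible in `V`; the
points with `t, w ∈ m` form a group.
-/

open WeierstrassCurve

namespace PE

/-- A subring `V` with an ideal `m` such that the elements of `1 + m` are invertible in `V`. -/
structure Jr (L : Type) [Field L] where
  /-- the ring -/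
  V : Subring L
  /-- the ideal -/
  m : Set L
  zero_m : (0 : L) ∈ m
  add_m : ∀ x ∈ m, ∀ y ∈ m, x + y ∈ m
  mul_m : ∀ a ∈ V, ∀ x ∈ m, a * x ∈ m
  le : ∀ x ∈ m, x ∈ V
  inv : ∀ x ∈ m, 1 + x ≠ 0 ∧ (1 + x)⁻¹ ∈ V

section fg

variable {L : Type} [Field L] {W : WeierstrassCurve L} (J : Jr L)

/-- The coefficients of `W` are in `V`. -/
structure Jr.Cf (W : WeierstrassCurve L) : Prop where
  a₁ : W.a₁ ∈ J.V
  a₂ : W.a₂ ∈ J.V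
  a₃ : W.a₃ ∈ J.V
  a₄ : W.a₄ ∈ J.V
  a₆ : W.a₆ ∈ J.V

/-- The points of the formal group. -/
def Jr.Fm (P : Pn W) : Prop := P.y0 ∧ P.t ∈ J.m ∧ P.w ∈ J.m

theorem Jr.fm_zero : J.Fm (0 : Pn W) := ⟨trivial, J.zero_m, J.zero_m⟩

variable {J}

/-- The equation for `w`. -/
theorem fg_eqn {P : Pn W} (h : P.y0) : P.w = P.t ^ 3 + W.a₁ * P.t * P.w + W.a₂ * P.t ^ 2 * P.w +
    W.a₃ * P.w ^ 2 + W.a₄ * P.t * P.w ^ 2 + W.a₆ * P.w ^ 3 := by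
  rcases P.cases' with rfl | ⟨x, y, hn, rfl⟩
  · change (0 : L) = 0 ^ 3 + W.a₁ * 0 * 0 + W.a₂ * 0 ^ 2 * 0 + W.a₃ * 0 ^ 2 + W.a₄ * 0 * 0 ^ 2 +
      W.a₆ * 0 ^ 3
    ring
  · have hy : y ≠ 0 := h
    have e := Pn.eqn hn
    change -1 / y = (-x / y) ^ 3 + W.a₁ * (-x / y) * (-1 / y) + W.a₂ * (-x / y) ^ 2 * (-1 / y) +
      W.a₃ * (-1 / y) ^ 2 + W.a₄ * (-x / y) * (-1 / y) ^ 2 + W.a₆ * (-1 / y) ^ 3
    field_simp
    linear_combination (-1 : L) * e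

private theorem fg_add4 {a b c : L} (ha : a ∈ J.m) (hb : b ∈ J.m) (hc : c ∈ J.m) :
    a + b + c ∈ J.m := J.add_m _ (J.add_m _ ha _ hb) _ hc

private theorem fg_neg_m {a : L} (ha : a ∈ J.m) : -a ∈ J.m := by
  have h := J.mul_m (-1) (J.V.neg_mem J.V.one_mem) a ha
  rwa [neg_one_mul] at h

private theorem fg_w0 {P : Pn W} (h : P.y0) (hw : P.w = 0) : P = 0 := by
  rcases P.cases' with rfl | ⟨x, y, hn, rfl⟩
  · rfl
  · have hy : y ≠ 0 := h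
    have hw' : -1 / y = 0 := hw
    rw [div_eq_zero_iff] at hw'
    rcases hw' with h1 | h1
    · exact absurd h1 (by simp)
    · exact absurd h1 hy

private theorem fg_ext_w {P Q : Pn W} (hP : P.y0) (hQ : Q.y0) (h : P.t = Q.t) (hw : P.w = Q.w) :
    P = Q := by
  rcases Q.cases' with rfl | ⟨x', y', hn', rfl⟩
  · exact fg_w0 hP hw
  · rcases P.cases' with rfl | ⟨x, y, hn, rfl⟩
    · exact (fg_w0 hQ hw.symm).symm
    · have hy : y ≠ 0 := hP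
      have hy' : y' ≠ 0 := hQ
      have h1 : -1 / y = -1 / y' := hw
      have h2 : -x / y = -x' / y' := h
      have e1 : y = y' := by
        field_simp at h1
        exact (neg_injective h1).symm
      subst e1
      refine Pn.aff_ext ?_ rfl
      field_simp at h2
      first
        | exact h2
        | linear_combination (-1 : L) * h2

/-- A point is determined by `t`. Proof: the difference of the two equations of `fg_eqn` is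
`(w - w') (1 + μ) = 0` with `μ ∈ m`. -/
theorem fg_ext (hW : J.Cf W) {P Q : Pn W} (hP : J.Fm P) (hQ : J.Fm Q) (h : P.t = Q.t) : P = Q := by
  refine fg_ext_w hP.1 hQ.1 h ?_
  have e1 := fg_eqn hP.1
  have e2 := fg_eqn hQ.1
  have tV := J.le _ hP.2.1
  have wV := J.le _ hP.2.2
  have wV' := J.le _ hQ.2.2
  have hμ : -(W.a₁ * P.t + W.a₂ * P.t ^ 2 + W.a₃ * (P.w + Q.w) + W.a₄ * P.t * (P.w + Q.w) +
      W.a₆ * (P.w ^ 2 + P.w * Q.w + Q.w ^ 2)) ∈ J.m := by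
    have e : -(W.a₁ * P.t + W.a₂ * P.t ^ 2 + W.a₃ * (P.w + Q.w) + W.a₄ * P.t * (P.w + Q.w) +
      W.a₆ * (P.w ^ 2 + P.w * Q.w + Q.w ^ 2)) =
      -((W.a₁ + W.a₂ * P.t + W.a₄ * (P.w + Q.w)) * P.t + (W.a₃ + W.a₆ * (P.w + Q.w)) * P.w +
        (W.a₃ + W.a₆ * Q.w) * Q.w) := by ring
    rw [e]
    refine fg_neg_m (fg_add4 (J.mul_m _ ?_ _ hP.2.1) (J.mul_m _ ?_ _ hP.2.2)
      (J.mul_m _ ?_ _ hQ.2.2))
    · exact J.V.add_mem (J.V.add_mem hW.a₁ (J.V.mul_mem hW.a₂ tV))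
        (J.V.mul_mem hW.a₄ (J.V.add_mem wV wV'))
    · exact J.V.add_mem hW.a₃ (J.V.mul_mem hW.a₆ (J.V.add_mem wV wV'))
    · exact J.V.add_mem hW.a₃ (J.V.mul_mem hW.a₆ wV')
  have h1 := (J.inv _ hμ).1
  rw [← h] at e2
  have h2 : (P.w - Q.w) * (1 + -(W.a₁ * P.t + W.a₂ * P.t ^ 2 + W.a₃ * (P.w + Q.w) +
      W.a₄ * P.t * (P.w + Q.w) + W.a₆ * (P.w ^ 2 + P.w * Q.w + Q.w ^ 2))) = 0 := by
    linear_combination e1 - e2
  rcases mul_eq_zero.1 h2 with h3 | h3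
  · exact sub_eq_zero.1 h3
  · exact absurd h3 h1

/-- `w = t ^ 3 / (1 + μ)`. -/
theorem fg_w (hW : J.Cf W) {P : Pn W} (hP : J.Fm P) :
    ∃ μ ∈ J.m, P.w * (1 + μ) = P.t ^ 3 := by
  have e1 := fg_eqn hP.1
  have tV := J.le _ hP.2.1
  have wV := J.le _ hP.2.2
  refine ⟨-((W.a₁ + W.a₂ * P.t + W.a₄ * P.w) * P.t + (W.a₃ + W.a₆ * P.w) * P.w), ?_, ?_⟩
  · refine fg_neg_m (J.add_m _ (J.mul_m _ ?_ _ hP.2.1) _ (J.mul_m _ ?_ _ hP.2.2))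
    · exact J.V.add_mem (J.V.add_mem hW.a₁ (J.V.mul_mem hW.a₂ tV)) (J.V.mul_mem hW.a₄ wV)
    · exact J.V.add_mem hW.a₃ (J.V.mul_mem hW.a₆ wV)
  · linear_combination e1

/-- The negative. -/
theorem fg_neg (hW : J.Cf W) {P : Pn W} (hP : J.Fm P) :
    J.Fm (-P) ∧ ∃ μ ∈ J.m, (-P).t * (1 + μ) = -P.t := by
  rcases P.cases' with rfl | ⟨x, y, hn, rfl⟩
  · rw [neg_zero]
    refine ⟨J.fm_zero, 0, J.zero_m, ?_⟩
    change (0 : L) * (1 + 0) = -0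
    ring
  · obtain ⟨hn', e⟩ := Pn.neg_aff hn
    have hy : y ≠ 0 := hP.1
    have ht : -x / y ∈ J.m := hP.2.1
    have hw : -1 / y ∈ J.m := hP.2.2
    have hμ : -(W.a₁ * (-x / y) + W.a₃ * (-1 / y)) ∈ J.m :=
      fg_neg_m (J.add_m _ (J.mul_m _ hW.a₁ _ ht) _ (J.mul_m _ hW.a₃ _ hw))
    obtain ⟨h1, h2⟩ := J.inv _ hμ
    have e1 : -y - W.a₁ * x - W.a₃ = -y * (1 + -(W.a₁ * (-x / y) + W.a₃ * (-1 / y))) := by
      field_simp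
      ring
    have hy' : -y - W.a₁ * x - W.a₃ ≠ 0 := by
      rw [e1]
      exact mul_ne_zero (neg_ne_zero.2 hy) h1
    have e2 : -x / (-y - W.a₁ * x - W.a₃) =
        -((1 + -(W.a₁ * (-x / y) + W.a₃ * (-1 / y)))⁻¹ * (-x / y)) := by
      rw [e1]
      generalize 1 + -(W.a₁ * (-x / y) + W.a₃ * (-1 / y)) = u at h1 ⊢
      field_simp
    have e3 : -1 / (-y - W.a₁ * x - W.a₃) =
        -((1 + -(W.a₁ * (-x / y) + W.a₃ * (-1 / y)))⁻¹ * (-1 / y)) := by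
      rw [e1]
      generalize 1 + -(W.a₁ * (-x / y) + W.a₃ * (-1 / y)) = u at h1 ⊢
      field_simp
    rw [e]
    refine ⟨⟨hy', ?_, ?_⟩, _, hμ, ?_⟩
    · change -x / (-y - W.a₁ * x - W.a₃) ∈ J.m
      rw [e2]
      exact fg_neg_m (J.mul_m _ h2 _ ht)
    · change -1 / (-y - W.a₁ * x - W.a₃) ∈ J.m
      rw [e3]
      exact fg_neg_m (J.mul_m _ h2 _ hw)
    · change -x / (-y - W.a₁ * x - W.a₃) * (1 + -(W.a₁ * (-x / y) + W.a₃ * (-1 / y))) =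
        -(-x / y)
      rw [e2]
      generalize 1 + -(W.a₁ * (-x / y) + W.a₃ * (-1 / y)) = u at h1 ⊢
      field_simp

/-- **The addition.** Proof: if `P = 0` or `Q = 0` trivial. Let `(t₁, w₁)`, `(t₂, w₂)` be the parameters. There is a slope
`λ ∈ V` with `w₁ - w₂ = λ (t₁ - t₂)`, `λ = N / D` with `N = t₁² + t₁ t₂ + t₂² + a₁ w₁ + a₂ (t₁ + t₂) w₁ + a₄ w₁²`,
`D = 1 - a₁ t₂ - a₂ t₂² - a₃ (w₁ + w₂) - a₄ t₂ (w₁ + w₂) - a₆ (w₁² + w₁ w₂ + w₂²)` (difference of the two equations of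
`fg_eqn`; for `P = Q` it is the slope of the tangent), `ν = w₁ - λ t₁`; `D ∈ 1 + m`, `λ ∈ m`, more precisely
`λ` is in the ideal `(t₁², t₁ t₂, t₂²)`, `ν ∈ t₁ t₂ (t₁, t₂)`. The line `w = λ t + ν` meets the curve in a third
point `R = (t₃, w₃)` with `t₁ + t₂ + t₃ = - (a₁ λ + a₃ λ² + a₂ ν + 2 a₄ λ ν + 3 a₆ λ² ν) / (1 + a₂ λ + a₄ λ² + a₆ λ³)`, and `P + Q = - R`,
`t(- R) = - t₃ / (1 - a₁ t₃ - a₃ w₃)`. (Compare with `Pn.slope`: the line is `y = l x + n`, `λ = ...`; or verify directly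
that the two formulas agree.) -/
theorem fg_add (hW : J.Cf W) {P Q : Pn W} (hP : J.Fm P) (hQ : J.Fm Q) :
    J.Fm (P + Q) ∧ ∃ c₁ ∈ J.V, ∃ c₂ ∈ J.V,
      (P + Q).t = P.t + Q.t - W.a₁ * P.t * Q.t + P.t * Q.t * (c₁ * P.t + c₂ * Q.t) := by
  have key : ∀ R : Pn W, J.Fm R → ∃ v ∈ J.V, R.w = v * R.t := by
    intro R hR
    obtain ⟨μ, hμ, e⟩ := fg_w hW hR
    obtain ⟨h1, h2⟩ := J.inv μ hμ
    refine ⟨R.t ^ 2 * (1 + μ)⁻¹, J.V.mul_mem (J.V.pow_mem (J.le _ hR.2.1) 2) h2, ?_⟩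
    have e1 : R.w = R.t ^ 3 * (1 + μ)⁻¹ := by
      rw [← e]
      field_simp
    rw [e1]
    ring
  have hI : ∀ α ∈ J.V, ∀ β ∈ J.V, α * P.t + β * Q.t ∈ J.m := fun α hα β hβ =>
    J.add_m _ (J.mul_m _ hα _ hP.2.1) _ (J.mul_m _ hβ _ hQ.2.1)
  obtain ⟨h1, ⟨α, hα, β, hβ, h2⟩, ⟨γ, hγ, δ, hδ, h3⟩, h4⟩ := fgc_add hW.a₁ hW.a₂ hW.a₃ hW.a₄ hW.a₆
    hP.1 hQ.1 (J.le _ hP.2.1) (J.le _ hQ.2.1) (key P hP) (key Q hQ)
    (fun α hα β hβ => J.inv _ (hI α hα β hβ)) (fg_eqn hP.1) (fg_eqn hQ.1) (fg_ext hW hP hQ)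
  exact ⟨⟨h1, by rw [h2]; exact hI α hα β hβ, by rw [h3]; exact hI γ hγ δ hδ⟩, h4⟩

end fg

end PE
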