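import Mathlib

/-!
Polynomial identities for the addition in the formal group.
-/

namespace PE

section fga

variable {R : Type} [CommRing R]

/-- Vieta for the cubic on the line `w = l t + n`. -/
theorem fga_vieta {a₁ a₂ a₃ a₄ a₆ t₁ t₂ w₁ w₂ l n t₃ A : R}
    (h1 : w₁ = l * t₁ + n) (h2 : w₂ = l * t₂ + n)
    (he : w₁ = t₁ ^ 3 + a₁ * t₁ * w₁ + a₂ * t₁ ^ 2 * w₁ + a₃ * w₁ ^ 2 + a₄ * t₁ * w₁ ^ 2 +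
      a₆ * w₁ ^ 3)
    (hN : t₁ ^ 2 + t₁ * t₂ + t₂ ^ 2 + a₁ * w₁ + a₂ * (t₁ + t₂) * w₁ + a₄ * w₁ ^ 2 =
      l * (1 - a₁ * t₂ - a₂ * t₂ ^ 2 - a₃ * (w₁ + w₂) - a₄ * t₂ * (w₁ + w₂) -
        a₆ * (w₁ ^ 2 + w₁ * w₂ + w₂ ^ 2)))
    (hA : A = 1 + a₂ * l + a₄ * l ^ 2 + a₆ * l ^ 3)
    (h3 : A * (t₁ + t₂ + t₃) =
      -(a₁ * l + a₃ * l ^ 2 + n * (a₂ + 2 * a₄ * l + 3 * a₆ * l ^ 2))) :
    A * (t₁ * t₂ + t₁ * t₃ + t₂ * t₃) =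
      -l + n * (a₁ + 2 * a₃ * l + a₄ * n + 3 * a₆ * l * n) ∧
    A * (t₁ * t₂ * t₃) = n * (1 - a₃ * n - a₆ * n ^ 2) := by
  subst h1 h2 hA
  constructor
  · linear_combination (t₁ + t₂) * h3 - hN
  · linear_combination t₁ * t₂ * h3 - he - t₁ * hN

/-- The third point of the line. -/
theorem fga_third {a₁ a₂ a₃ a₄ a₆ t₁ t₂ w₁ w₂ l n t₃ w₃ A : R}
    (h1 : w₁ = l * t₁ + n) (h2 : w₂ = l * t₂ + n) (h4 : w₃ = l * t₃ + n)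
    (hA : A = 1 + a₂ * l + a₄ * l ^ 2 + a₆ * l ^ 3)
    (h3 : A * (t₁ + t₂ + t₃) =
      -(a₁ * l + a₃ * l ^ 2 + n * (a₂ + 2 * a₄ * l + 3 * a₆ * l ^ 2)))
    (h5 : A * (t₁ * t₂ + t₁ * t₃ + t₂ * t₃) =
      -l + n * (a₁ + 2 * a₃ * l + a₄ * n + 3 * a₆ * l * n))
    (h6 : A * (t₁ * t₂ * t₃) = n * (1 - a₃ * n - a₆ * n ^ 2)) :
    A * (w₁ * w₂ * w₃) = n ^ 3 ∧
      A * (t₁ * w₂ * w₃ + t₂ * w₁ * w₃ + t₃ * w₁ * w₂) =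
        n * (l ^ 2 + a₁ * l * n - a₂ * n ^ 2) := by
  subst h1 h2 h4
  constructor
  · linear_combination n ^ 3 * hA + l * n ^ 2 * h3 + l ^ 2 * n * h5 + l ^ 3 * h6
  · linear_combination n ^ 2 * h3 + 2 * l * n * h5 + 3 * l ^ 2 * h6

/-- The parameter of the sum. -/
theorem fga_sum {a₁ a₂ a₃ a₄ a₆ t₁ t₂ l n t₃ w₃ u A : R}
    (h4 : w₃ = l * t₃ + n) (hu : u = 1 - a₁ * t₃ - a₃ * w₃)
    (h3 : A * (t₁ + t₂ + t₃) =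
      -(a₁ * l + a₃ * l ^ 2 + n * (a₂ + 2 * a₄ * l + 3 * a₆ * l ^ 2)))
    (h5 : A * (t₁ * t₂ + t₁ * t₃ + t₂ * t₃) =
      -l + n * (a₁ + 2 * a₃ * l + a₄ * n + 3 * a₆ * l * n)) :
    A * (-t₃ - (t₁ + t₂) * u + a₁ * t₁ * t₂ * u) =
      n * ((a₂ + 2 * a₄ * l + 3 * a₆ * l ^ 2) +
        (a₁ + a₃ * l) * (a₁ + 2 * a₃ * l + a₄ * n + 3 * a₆ * l * n) + a₃ * A * (t₁ + t₂)) +
      t₁ * t₂ * (A * (a₁ * (u - 1) - a₃ * l)) := by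
  subst h4 hu
  linear_combination -h3 + (a₁ + a₃ * l) * h5

end fga

end PE
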