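import Pool.Agent.Lib.MP_f80667_ag.Pe.FgA

/-!
The line through two points in the formal group.
-/

namespace PE

section fgb

variable {R S : Type} [CommRing R] [CommRing S]

/-- **The line**: slope, third point, the parameter of the sum. -/
theorem fgb_core (φ : R →+* S) {a₁ a₂ a₃ a₄ a₆ t₁ t₂ w₁ w₂ : R}
    (f₁ : φ t₁ = 0) (f₂ : φ t₂ = 0) (g₁ : φ w₁ = 0) (g₂ : φ w₂ = 0)
    (un : ∀ x : R, φ x = 1 → ∃ y : R, x * y = 1)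
    (li : ∀ x : R, φ x = 0 → ∃ α β : R, x = α * t₁ + β * t₂)
    (he : w₁ = t₁ ^ 3 + a₁ * t₁ * w₁ + a₂ * t₁ ^ 2 * w₁ + a₃ * w₁ ^ 2 + a₄ * t₁ * w₁ ^ 2 +
      a₆ * w₁ ^ 3)
    (he' : w₂ = t₂ ^ 3 + a₁ * t₂ * w₂ + a₂ * t₂ ^ 2 * w₂ + a₃ * w₂ ^ 2 + a₄ * t₂ * w₂ ^ 2 +
      a₆ * w₂ ^ 3) :
    ∃ l n t₃ w₃ u ui A : R, w₁ = l * t₁ + n ∧ w₂ = l * t₂ + n ∧ w₃ = l * t₃ + n ∧
      t₁ ^ 2 + t₁ * t₂ + t₂ ^ 2 + a₁ * w₁ + a₂ * (t₁ + t₂) * w₁ + a₄ * w₁ ^ 2 =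
      l * (1 - a₁ * t₂ - a₂ * t₂ ^ 2 - a₃ * (w₁ + w₂) - a₄ * t₂ * (w₁ + w₂) -
        a₆ * (w₁ ^ 2 + w₁ * w₂ + w₂ ^ 2)) ∧
      A * (w₁ * w₂ * w₃) = n ^ 3 ∧
      A * (t₁ * w₂ * w₃ + t₂ * w₁ * w₃ + t₃ * w₁ * w₂) =
        n * (l ^ 2 + a₁ * l * n - a₂ * n ^ 2) ∧
      u = 1 - a₁ * t₃ - a₃ * w₃ ∧ u * ui = 1 ∧ (∃ α β : R, t₃ = α * t₁ + β * t₂) ∧
      (∃ α β : R, w₃ = α * t₁ + β * t₂) ∧
      (∃ y : R, (1 - a₁ * t₂ - a₂ * t₂ ^ 2 - a₃ * (w₁ + w₂) - a₄ * t₂ * (w₁ + w₂) -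
        a₆ * (w₁ ^ 2 + w₁ * w₂ + w₂ ^ 2)) * y = 1) ∧
      ∃ c₁ c₂ : R, -t₃ * ui = t₁ + t₂ - a₁ * t₁ * t₂ + t₁ * t₂ * (c₁ * t₁ + c₂ * t₂) := by
  -- the slope
  obtain ⟨D, hD⟩ : ∃ D, D = 1 - a₁ * t₂ - a₂ * t₂ ^ 2 - a₃ * (w₁ + w₂) -
    a₄ * t₂ * (w₁ + w₂) - a₆ * (w₁ ^ 2 + w₁ * w₂ + w₂ ^ 2) := ⟨_, rfl⟩
  obtain ⟨N, hN⟩ : ∃ N, N = t₁ ^ 2 + t₁ * t₂ + t₂ ^ 2 + a₁ * w₁ + a₂ * (t₁ + t₂) * w₁ +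
    a₄ * w₁ ^ 2 := ⟨_, rfl⟩
  have hφD : φ D = 1 := by
    rw [hD]
    simp only [map_sub, map_add, map_mul, map_pow, map_one, f₂, g₁, g₂]
    ring
  have hφN : φ N = 0 := by
    rw [hN]
    simp only [map_add, map_mul, map_pow, f₁, f₂, g₁]
    ring
  obtain ⟨Di, hDi⟩ := un D hφD
  have hND : N * (t₁ - t₂) = D * (w₁ - w₂) := by
    rw [hN, hD]
    linear_combination -he + he'
  obtain ⟨l, hl⟩ : ∃ l, l = N * Di := ⟨_, rfl⟩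
  obtain ⟨n, hn⟩ : ∃ n, n = w₁ - l * t₁ := ⟨_, rfl⟩
  have hφl : φ l = 0 := by rw [hl, map_mul, hφN, zero_mul]
  have hφn : φ n = 0 := by rw [hn, map_sub, map_mul, g₁, f₁, mul_zero, sub_zero]
  have e1 : w₁ = l * t₁ + n := by rw [hn]; ring
  have e2 : w₂ = l * t₂ + n := by
    rw [hn, hl]
    linear_combination (w₁ - w₂) * hDi + Di * hND
  have e3 : N = l * D := by
    rw [hl]
    linear_combination -N * hDi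
  -- the third point
  obtain ⟨A, hA⟩ : ∃ A, A = 1 + a₂ * l + a₄ * l ^ 2 + a₆ * l ^ 3 := ⟨_, rfl⟩
  have hφA : φ A = 1 := by
    rw [hA]
    simp only [map_add, map_mul, map_pow, map_one, hφl]
    ring
  obtain ⟨Ai, hAi⟩ := un A hφA
  obtain ⟨B, hB⟩ : ∃ B, B = a₁ * l + a₃ * l ^ 2 + n * (a₂ + 2 * a₄ * l + 3 * a₆ * l ^ 2) :=
    ⟨_, rfl⟩
  obtain ⟨t₃, ht₃⟩ : ∃ t₃, t₃ = -(t₁ + t₂) - B * Ai := ⟨_, rfl⟩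
  obtain ⟨w₃, hw₃⟩ : ∃ w₃, w₃ = l * t₃ + n := ⟨_, rfl⟩
  obtain ⟨u, hu⟩ : ∃ u, u = 1 - a₁ * t₃ - a₃ * w₃ := ⟨_, rfl⟩
  have hφB : φ B = 0 := by
    rw [hB]
    simp only [map_add, map_mul, map_pow, hφl, hφn]
    ring
  have hφt₃ : φ t₃ = 0 := by
    rw [ht₃]
    simp only [map_sub, map_neg, map_add, map_mul, f₁, f₂, hφB]
    ring
  have hφw₃ : φ w₃ = 0 := by
    rw [hw₃]
    simp only [map_add, map_mul, hφl, hφn]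
    ring
  have hφu : φ u = 1 := by
    rw [hu]
    simp only [map_sub, map_mul, map_one, hφt₃, hφw₃]
    ring
  have e4 : A * (t₁ + t₂ + t₃) = -B := by
    rw [ht₃]
    linear_combination -B * hAi
  have e4' : A * (t₁ + t₂ + t₃) =
      -(a₁ * l + a₃ * l ^ 2 + n * (a₂ + 2 * a₄ * l + 3 * a₆ * l ^ 2)) := by rw [e4, hB]
  have e3' : t₁ ^ 2 + t₁ * t₂ + t₂ ^ 2 + a₁ * w₁ + a₂ * (t₁ + t₂) * w₁ + a₄ * w₁ ^ 2 =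
      l * (1 - a₁ * t₂ - a₂ * t₂ ^ 2 - a₃ * (w₁ + w₂) - a₄ * t₂ * (w₁ + w₂) -
        a₆ * (w₁ ^ 2 + w₁ * w₂ + w₂ ^ 2)) := by rw [← hN, ← hD, e3]
  obtain ⟨e5, e6⟩ := fga_vieta e1 e2 he e3' hA e4'
  obtain ⟨e7, e8⟩ := fga_third e1 e2 hw₃ hA e4' e5 e6
  have e9 := fga_sum (a₁ := a₁) (a₂ := a₂) (a₃ := a₃) (a₄ := a₄) (a₆ := a₆) hw₃ hu e4' e5
  obtain ⟨ui, hui⟩ := un u hφu
  obtain ⟨z, hz⟩ : ∃ z, z = 1 - a₃ * n - a₆ * n ^ 2 := ⟨_, rfl⟩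
  obtain ⟨zi, hzi⟩ := un z (by
    rw [hz]
    simp only [map_sub, map_mul, map_pow, map_one, hφn]
    ring)
  rw [← hz] at e6
  have e10 : n = t₁ * t₂ * (t₃ * A * zi) := by
    linear_combination -n * hzi - zi * e6
  obtain ⟨v, hv⟩ : ∃ v, v = (a₂ + 2 * a₄ * l + 3 * a₆ * l ^ 2) +
    (a₁ + a₃ * l) * (a₁ + 2 * a₃ * l + a₄ * n + 3 * a₆ * l * n) + a₃ * A * (t₁ + t₂) := ⟨_, rfl⟩
  rw [← hv] at e9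
  obtain ⟨r, hr⟩ : ∃ r, r = A * (a₁ * (u - 1) - a₃ * l) := ⟨_, rfl⟩
  rw [← hr] at e9
  have hφr : φ r = 0 := by
    rw [hr]
    simp only [map_mul, map_sub, map_one, hφu, hφl]
    ring
  obtain ⟨c₁, c₂, hc⟩ := li (Ai * ui * (t₃ * A * zi * v + r)) (by
    simp only [map_add, map_mul, hφt₃, hφr]
    ring)
  refine ⟨l, n, t₃, w₃, u, ui, A, e1, e2, hw₃, e3', e7, e8, hu, hui, li _ hφt₃, li _ hφw₃,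
    ⟨Di, by rw [← hD]; exact hDi⟩, c₁, c₂, ?_⟩
  rw [← hc]
  have e12 : A * (-t₃ - (t₁ + t₂) * u + a₁ * t₁ * t₂ * u) =
      t₁ * t₂ * (t₃ * A * zi) * v + t₁ * t₂ * r := by
    rw [e9]
    exact congrArg (fun z => z * v + t₁ * t₂ * r) e10
  have e13 : -t₃ * ui = (t₁ + t₂) * (u * ui) - a₁ * t₁ * t₂ * (u * ui) +
      (A * Ai) * ui * (-t₃ - (t₁ + t₂) * u + a₁ * t₁ * t₂ * u) := by
    rw [hAi]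
    ring
  rw [e13, hui]
  linear_combination Ai * ui * e12

end fgb

end PE
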