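import Pool.Agent.Lib.MP_f80667_ag.Pe.Fg

/-! Consequences of the addition formula. -/

open WeierstrassCurve

namespace PE

variable {L : Type} [Field L] {W : WeierstrassCurve L} {J : Jr L}

/-- The sum to first order. -/
theorem fg_add' (hW : J.Cf W) {P Q : Pn W} (hP : J.Fm P) (hQ : J.Fm Q) :
    J.Fm (P + Q) ∧ ∃ c ∈ J.V, (P + Q).t = P.t + Q.t + P.t * Q.t * c := by
  obtain ⟨h1, c₁, hc₁, c₂, hc₂, h2⟩ := fg_add hW hP hQ
  refine ⟨h1, -W.a₁ + (c₁ * P.t + c₂ * Q.t), ?_, ?_⟩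
  · exact add_mem (neg_mem hW.a₁) (add_mem (mul_mem hc₁ (J.le _ hP.2.1))
      (mul_mem hc₂ (J.le _ hQ.2.1)))
  · rw [h2]
    ring

/-- Multiples. Proof: induction with `fg_add`. -/
theorem fg_nsmul (hW : J.Cf W) {P : Pn W} (hP : J.Fm P) (n : ℕ) :
    J.Fm (n • P) ∧ ∃ c ∈ J.V, (n • P).t = n * P.t - W.a₁ * (n.choose 2 : ℕ) * P.t ^ 2 + P.t ^ 3 * c := by
  induction n with
  | zero =>
    rw [zero_smul]
    refine ⟨J.fm_zero, 0, zero_mem _, ?_⟩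
    have h0 : (0 : Pn W).t = 0 := rfl
    rw [h0, Nat.choose_zero_succ, Nat.cast_zero]
    ring
  | succ n ih =>
    obtain ⟨h1, c, hc, h2⟩ := ih
    obtain ⟨h3, c₁, hc₁, c₂, hc₂, h4⟩ := fg_add hW h1 hP
    have ht : P.t ∈ J.V := J.le _ hP.2.1
    rw [succ_nsmul]
    have hu : (n : L) - W.a₁ * (n.choose 2 : ℕ) * P.t + P.t ^ 2 * c ∈ J.V :=
      add_mem (sub_mem (natCast_mem _ _) (mul_mem (mul_mem hW.a₁ (natCast_mem _ _)) ht))
        (mul_mem (pow_mem ht 2) hc)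
    refine ⟨h3, c - W.a₁ * (-(W.a₁ * (n.choose 2 : ℕ)) + P.t * c) +
      ((n : L) - W.a₁ * (n.choose 2 : ℕ) * P.t + P.t ^ 2 * c) *
        (c₁ * ((n : L) - W.a₁ * (n.choose 2 : ℕ) * P.t + P.t ^ 2 * c) + c₂), ?_, ?_⟩
    · exact add_mem (sub_mem hc (mul_mem hW.a₁ (add_mem (neg_mem (mul_mem hW.a₁
        (natCast_mem _ _))) (mul_mem ht hc)))) (mul_mem hu (add_mem (mul_mem hc₁ hu) hc₂))
    · rw [h4, h2, Nat.choose_succ_succ' n 1, Nat.choose_one_right]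
      push_cast
      ring

/-- The difference of two points: `P = Q + (P - Q)` and `fg_add'`. -/
theorem fg_sub (hW : J.Cf W) {P Q : Pn W} (hP : J.Fm P) (hQ : J.Fm Q) :
    J.Fm (P - Q) ∧ ∃ μ ∈ J.m, (P - Q).t * (1 + μ) = P.t - Q.t := by
  have h1 : J.Fm (P - Q) := by
    rw [sub_eq_add_neg]
    exact (fg_add' hW hP (fg_neg hW hQ).1).1
  obtain ⟨-, c, hc, h2⟩ := fg_add' hW hQ h1
  rw [add_sub_cancel] at h2
  refine ⟨h1, c * Q.t, J.mul_m c hc _ hQ.2.1, ?_⟩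
  rw [h2]
  ring

end PE
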