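import Pool.Agent.Lib.MP_f80667_ag.Pe.Rp
import Pool.Agent.Lib.MP_f80667_ag.Pe.Lo

/-! The proof of `Ld.ga_rel`. -/

open ZC BE Polynomial IntermediateField

namespace PE

section lift

variable {F : Type} [Field F] {k Ω : Type} [Field k] [Field Ω] [Algebra k Ω] [Algebra F k]
  [Algebra F Ω] [IsScalarTower F k Ω]

/-- The norm polynomial of the lifts. -/
private theorem gba_nn (W₁ W₂ : WeierstrassCurve F) (r A : k[X]) (w : k) :
    (nn W₁ W₂ r A w).map (algebraMap k Ω) =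
      nn W₁ W₂ (r.map (algebraMap k Ω)) (A.map (algebraMap k Ω)) (algebraMap k Ω w) := by
  have hB : ∀ (W : WeierstrassCurve F) (r : k[X]), (BW W k r).map (algebraMap k Ω) =
      BW W Ω (r.map (algebraMap k Ω)) := by
    intro W r
    simp only [BW, Polynomial.map_add, Polynomial.map_mul, map_C,
      ← IsScalarTower.algebraMap_apply F k Ω]
  have hF : ∀ (W : WeierstrassCurve F) (r : k[X]), (FW W k r).map (algebraMap k Ω) =
      FW W Ω (r.map (algebraMap k Ω)) := by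
    intro W r
    simp only [FW, Polynomial.map_add, Polynomial.map_mul, Polynomial.map_pow, map_C,
      ← IsScalarTower.algebraMap_apply F k Ω]
  have h := nrm_map (Polynomial.mapRingHom (algebraMap k Ω)) (BW W₁ k r) (FW W₁ k r)
    (BW W₂ k X) (FW W₂ k X) A (C w)
  simp only [coe_mapRingHom, hB, hF, map_X, map_C] at h
  exact h

end lift

variable {F : Type} [Field F] {K Ω : Type} [Field K] [CharZero K] [Field Ω] [Algebra K Ω]
  [Algebra F K] [Algebra F Ω] [IsScalarTower F K Ω] [IsAlgClosure K Ω]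
  {W₁ W₂ : WeierstrassCurve F} [W₁.IsElliptic] [W₂.IsElliptic]

omit [CharZero K] [Algebra F K] [Algebra F Ω] [IsScalarTower F K Ω] [IsAlgClosure K Ω] in
private theorem gba_lift (k : IntermediateField K Ω) {r : Polynomial Ω}
    (hr : ∀ i, r.coeff i ∈ k) : ∃ r' : Polynomial k, r'.map (algebraMap k Ω) = r := by
  have h := (Polynomial.lifts_iff_coeff_lifts (f := algebraMap k Ω) r).2 fun n =>
    ⟨⟨r.coeff n, hr n⟩, rfl⟩
  exact (Polynomial.mem_lifts _).1 h

omit [CharZero K] [Algebra F K] [Algebra F Ω] [IsScalarTower F K Ω] [IsAlgClosure K Ω] in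
private theorem gba_fix (k : IntermediateField K Ω) {r : Polynomial Ω}
    (hr : ∀ i, r.coeff i ∈ k) {γ : Ω ≃ₐ[K] Ω} (hγ : γ ∈ k.fixingSubgroup) (z : Ω) :
    γ (r.eval z) = r.eval (γ z) := by
  have hγ' : ∀ x ∈ k, γ x = x := (IntermediateField.mem_fixingSubgroup_iff k γ).1 hγ
  rw [eval_eq_sum_range, eval_eq_sum_range, map_sum]
  refine Finset.sum_congr rfl fun i _ => ?_
  rw [map_mul, map_pow, hγ' _ (hr i)]

/-- **The relation.** -/
theorem gba_rel (k : IntermediateField K Ω) [FiniteDimensional K k] {r A : Polynomial Ω} {w : Ω}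
    (hr : ∀ i, r.coeff i ∈ k) (hA : ∀ i, A.coeff i ∈ k) (hw : w ∈ k) (hr0 : 0 < r.natDegree)
    (hlc : ∀ x ∈ k, x ^ 2 ≠ r.leadingCoeff) (h1 : 3 * r.natDegree < 2 * A.natDegree)
    (h2 : 3 < 2 * A.natDegree)
    (hn : ∀ z : Ω, (nn W₁ W₂ r A w).eval z = 0 → (derivative (nn W₁ W₂ r A w)).eval z ≠ 0) :
    ∃ (s : Finset (Pt W₁ Ω × Pt W₂ Ω)),
      (∀ q, q ∈ s ↔ ∃ (z y : Ω) (g₁ : (W₁.baseChange Ω).toAffine.Nonsingular (r.eval z)
        (A.eval z + w * y)) (g₂ : (W₂.baseChange Ω).toAffine.Nonsingular z y),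
        (nn W₁ W₂ r A w).eval z = 0 ∧ q = (Pt.aff _ _ g₁, Pt.aff z y g₂)) ∧
      (∀ (z y y' : Ω), (nn W₁ W₂ r A w).eval z = 0 → fe W₂ z y = 0 →
        fe W₁ (r.eval z) (A.eval z + w * y) = 0 → fe W₂ z y' = 0 →
        fe W₁ (r.eval z) (A.eval z + w * y') = 0 → y = y') ∧
      (∀ γ ∈ k.fixingSubgroup, ∀ q ∈ s, γ • q ∈ s) ∧
      ∑ q ∈ s, tau q.1 q.2 ∈ (Xv W₁ W₂).ratEq k Ω := by
  classical
  have hacK : IsAlgClosed Ω := IsAlgClosure.isAlgClosed K
  have hac : IsAlgClosure k Ω := ⟨hacK, inferInstance⟩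
  have hst : IsScalarTower F k Ω := IsScalarTower.of_algebraMap_eq fun _ => rfl
  have hck : CharZero k := charZero_of_injective_algebraMap (algebraMap K k).injective
  have hinj : Function.Injective (algebraMap k Ω) := (algebraMap k Ω).injective
  -- the lifts
  obtain ⟨r', rfl⟩ := gba_lift k hr
  obtain ⟨A', rfl⟩ := gba_lift k hA
  obtain ⟨w', rfl⟩ : ∃ w' : k, algebraMap k Ω w' = w := ⟨⟨w, hw⟩, rfl⟩
  rw [natDegree_map_eq_of_injective hinj] at hr0 h1
  rw [natDegree_map_eq_of_injective hinj] at h1 h2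
  rw [leadingCoeff_map_of_injective hinj] at hlc
  have hlc' : ¬ IsSquare r'.leadingCoeff := by
    rintro ⟨x, hx⟩
    apply hlc (algebraMap k Ω x) x.2
    rw [hx, map_mul, pow_two]
  rw [← gba_nn (k := k) W₁ W₂ r' A' w'] at hn ⊢
  have hev : ∀ (p : Polynomial k) (z : Ω), (p.map (algebraMap k Ω)).eval z = aeval z p :=
    fun p z => by rw [eval_map_algebraMap]
  have hde : ∀ (p : Polynomial k) (z : Ω), (derivative (p.map (algebraMap k Ω))).eval z =
      aeval z (derivative p) := fun p z => by rw [derivative_map, eval_map_algebraMap]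
  simp only [hev, hde] at hn ⊢
  have hsep : (nn W₁ W₂ r' A' w').Separable := by
    rw [Polynomial.separable_def,
      Polynomial.isCoprime_iff_aeval_ne_zero_of_isAlgClosed k Ω]
    intro a
    by_cases ha : aeval a (nn W₁ W₂ r' A' w') = 0
    · exact Or.inr (hn a ha)
    · exact Or.inl ha
  have hsq : Squarefree (nn W₁ W₂ r' A' w') := hsep.squarefree
  have hne : nn W₁ W₂ r' A' w' ≠ 0 := hsq.ne_zero
  obtain ⟨yy, hyy⟩ := rp_y (Ω := Ω) (W₁ := W₁) (W₂ := W₂) r' A' w' hr0 hlc' h1 h2 hsq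
  let sz : Finset Ω := ((nn W₁ W₂ r' A' w').map (algebraMap k Ω)).roots.toFinset
  have hsz : ∀ z, z ∈ sz ↔ aeval z (nn W₁ W₂ r' A' w') = 0 := by
    intro z
    rw [Multiset.mem_toFinset, mem_roots ((Polynomial.map_ne_zero_iff hinj).2 hne), IsRoot.def,
      hev]
  have hΩ₁ : (W₁.baseChange Ω).IsElliptic := inferInstanceAs (W₁.map (algebraMap F Ω)).IsElliptic
  have hΩ₂ : (W₂.baseChange Ω).IsElliptic := inferInstanceAs (W₂.map (algebraMap F Ω)).IsElliptic
  have n₂ : ∀ z ∈ sz, (W₂.baseChange Ω).toAffine.Nonsingular z (yy z) := fun z hz =>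
    WeierstrassCurve.Affine.equation_iff_nonsingular.1 (hyy z ((hsz z).1 hz)).1.1
  have n₁ : ∀ z ∈ sz, (W₁.baseChange Ω).toAffine.Nonsingular (aeval z r')
      (aeval z A' + algebraMap k Ω w' * yy z) := fun z hz =>
    WeierstrassCurve.Affine.equation_iff_nonsingular.1 (hyy z ((hsz z).1 hz)).1.2
  have hrel := rp (Ω := Ω) r' A' w' hr0 hlc' h1 h2 hsq sz hsz yy n₂ n₁
  let pt : {z // z ∈ sz} → Pt W₁ Ω × Pt W₂ Ω := fun z =>
    (Pt.aff _ _ (n₁ z.1 z.2), Pt.aff _ _ (n₂ z.1 z.2))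
  have hmem : ∀ q, q ∈ sz.attach.image pt ↔ ∃ (z y : Ω)
      (g₁ : (W₁.baseChange Ω).toAffine.Nonsingular (aeval z r')
        (aeval z A' + algebraMap k Ω w' * y))
      (g₂ : (W₂.baseChange Ω).toAffine.Nonsingular z y),
      aeval z (nn W₁ W₂ r' A' w') = 0 ∧ q = (Pt.aff _ _ g₁, Pt.aff z y g₂) := by
    intro q
    rw [Finset.mem_image]
    constructor
    · rintro ⟨z, _, rfl⟩
      exact ⟨z.1, yy z.1, n₁ z.1 z.2, n₂ z.1 z.2, (hsz _).1 z.2, rfl⟩
    · rintro ⟨z, y, g₁, g₂, hz, rfl⟩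
      have hy : y = yy z := (hyy z hz).2 y g₂.1 g₁.1
      subst hy
      exact ⟨⟨z, (hsz z).2 hz⟩, Finset.mem_attach _ _, rfl⟩
  refine ⟨sz.attach.image pt, hmem, ?_, ?_, ?_⟩
  · intro z y y' hz a1 a2 a3 a4
    have b1 := (hyy z hz).2 y (aff_of_fe a1).1 (aff_of_fe a2).1
    have b2 := (hyy z hz).2 y' (aff_of_fe a3).1 (aff_of_fe a4).1
    rw [b1, b2]
  · intro γ hγ q hq
    obtain ⟨z, y, g₁, g₂, hz, rfl⟩ := (hmem q).1 hq
    rw [hmem]
    have hγ' : ∀ x : k, γ (algebraMap k Ω x) = algebraMap k Ω x := fun x =>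
      (IntermediateField.mem_fixingSubgroup_iff k γ).1 hγ _ x.2
    have hfix : ∀ p : Polynomial k, γ (aeval z p) = aeval (γ z) p := by
      intro p
      rw [aeval_eq_sum_range, aeval_eq_sum_range, map_sum]
      refine Finset.sum_congr rfl fun i _ => ?_
      rw [Algebra.smul_def, Algebra.smul_def, map_mul, map_pow, hγ']
    obtain ⟨c₁, d₁⟩ := act_aff γ g₁
    obtain ⟨c₂, d₂⟩ := act_aff γ g₂
    have e1 : γ (aeval z A' + algebraMap k Ω w' * y) =
        aeval (γ z) A' + algebraMap k Ω w' * γ y := by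
      rw [map_add, map_mul, hγ', hfix]
    have g₁' : (W₁.baseChange Ω).toAffine.Nonsingular (aeval (γ z) r')
        (aeval (γ z) A' + algebraMap k Ω w' * γ y) := by
      rw [← e1, ← hfix]
      exact c₁
    refine ⟨γ z, γ y, g₁', c₂, ?_, ?_⟩
    · rw [← hfix, hz, map_zero]
    · refine Prod.ext ?_ ?_
      · change γ • (Pt.aff _ _ g₁ : Pt W₁ Ω) = Pt.aff _ _ g₁'
        rw [d₁]
        exact plr_aff_ext (hfix r') e1
      · exact d₂
  · rw [Finset.sum_image]
    · exact hrel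
    · intro z _ z' _ hzz
      have h3 := (Prod.mk.inj hzz).2
      exact Subtype.ext (WeierstrassCurve.Affine.Point.some.inj h3).1

end PE
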