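import Pool.Agent.Lib.MP_f80667_ag.Pe.Ga
import Pool.Agent.Lib.MP_f80667_ag.Pe.Un
import Pool.Agent.Lib.MP_f80667_ag.Pe.Si
import Pool.Agent.Lib.MP_f80667_ag.Pe.GbZ
import Pool.Agent.Lib.MP_f80667_ag.Pe.GbA

/-! The symbol of two points over a totally ramified extension is a sum of symbols over unramified extensions. -/

open ZC BE Polynomial IntermediateField

namespace PE

namespace Ld

variable {F : Type} [Field F] {K Ω : Type} [Field K] [CharZero K] [Field Ω] [Algebra K Ω]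
  [Algebra F K] [Algebra F Ω] [IsScalarTower F K Ω] [IsAlgClosure K Ω] {L : Ld K Ω} [L.Unr]
  {W₁ W₂ : WeierstrassCurve F} [W₁.IsElliptic] [W₂.IsElliptic]

/-- **The relation** for polynomials over a finite extension `k` of `K` (in `Ω`). Proof: lift `r`, `A`, `w` to `k`; the norm polynomial is squarefree over `k` (no common root with its derivative);
`rp_y`, `rp`; `s` is the set of the points `(r(z), A(z) + w y)`, `(z, y)`, `y = yy z`. `s` is stable: `γ y` has the property which characterizes `yy (γ z)`. -/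
theorem ga_rel (k : IntermediateField K Ω) [FiniteDimensional K k] {r A : Polynomial Ω} {w : Ω}
    (hr : ∀ i, r.coeff i ∈ k) (hA : ∀ i, A.coeff i ∈ k) (hw : w ∈ k) (hr0 : 0 < r.natDegree)
    (hlc : ∀ x ∈ k, x ^ 2 ≠ r.leadingCoeff) (h1 : 3 * r.natDegree < 2 * A.natDegree)
    (h2 : 3 < 2 * A.natDegree)
    (hn : ∀ z : Ω, (nn W₁ W₂ r A w).eval z = 0 → (derivative (nn W₁ W₂ r A w)).eval z ≠ 0) :
    ∃ (s : Finset (Pt W₁ Ω × Pt W₂ Ω)),
      (∀ q, q ∈ s ↔ ∃ (z y : Ω) (g₁ : (W₁.baseChange Ω).toAffine.Nonsingular (r.eval z)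
        (A.eval z + w * y)) (g₂ : (W₂.baseChange Ω).toAffine.Nonsingular z y),
        (nn W₁ W₂ r A w).eval z = 0 ∧ q = (Pt.aff _ _ g₁, Pt.aff z y g₂)) ∧
      (∀ (z y y' : Ω), (nn W₁ W₂ r A w).eval z = 0 → fe W₂ z y = 0 →
        fe W₁ (r.eval z) (A.eval z + w * y) = 0 → fe W₂ z y' = 0 →
        fe W₁ (r.eval z) (A.eval z + w * y') = 0 → y = y') ∧
      (∀ γ ∈ k.fixingSubgroup, ∀ q ∈ s, γ • q ∈ s) ∧
      ∑ q ∈ s, tau q.1 q.2 ∈ (Xv W₁ W₂).ratEq k Ω :=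
  gba_rel k hr hA hw hr0 hlc h1 h2 hn

/-- **Ramified symbols.** Proof: `exists_tm`, `ga_main` for an odd prime number `l ≠ p`, `k = Ur ⊥ (N l ^ j)`, `s` of `ga_rel`. Let `M' = Ur M (N l ^ j)`. The elements of `s` with `m(z) = 0` are the conjugates
`γ (P, Q)`, `γ` over `k` (`Tm.conj`, uniqueness of `y`), the stabilizer of `(P, Q)` is `M'` (`Tm.fld`): `scX_one` gives `{P, Q}_M'`. The others: `scX_orb`; their coordinates are in some `Ur ⊥ N'` (`root_ur`, and `y` is fixed by the automorphisms which fix `z`):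
`un'` for the field `N` of `scX_orb` (it is `≤ Ur ⊥ N'`). The sum is `0` by `scX_rel`. So `{P, Q}_M'` is a multiple of `p`; `z_cop` with the degree `l ^ j` of `M'` over `M` (`ur_cyc`). -/
theorem ga_z (R : AddSubgroup (Pt W₁ Ω × Pt W₂ Ω →₀ ℤ)) (hR : (Xv W₁ W₂).ratEq K Ω ≤ R)
    {M : IntermediateField K Ω} [FiniteDimensional K M] {N : ℕ} {xP yP xd yd z₀ y₀ : Ω}
    (h : Ga L W₁ W₂ M N xP yP xd yd z₀ y₀)
    (hP : (W₁.baseChange Ω).toAffine.Nonsingular xP yP)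
    (hQ : (W₂.baseChange Ω).toAffine.Nonsingular z₀ y₀) :
    (scX (K := K) (W₁ := W₁) (W₂ := W₂) R hR).Z L.p M (Pt.aff xP yP hP) (Pt.aff z₀ y₀ hQ) := by
  obtain ⟨e, m, hm⟩ := exists_tm h.rf h.xd_mem h.xd_le h.uf
  obtain ⟨l, hlp, hl⟩ := Nat.exists_infinite_primes (L.p + 3)
  obtain ⟨j, r, A, w, a1, a2, a3, a4, a5, a6, a7, a8, a9, a10, a11, a12⟩ :=
    ga_main h hm hl (by omega)
  have hD : l ^ j ≠ 0 := pow_ne_zero j hl.ne_zero
  have hND : N * l ^ j ≠ 0 := mul_ne_zero h.rf.ne hD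
  have hkf : FiniteDimensional K (L.Ur ⊥ (N * l ^ j)) := ur_fin ⊥ _ hND
  have hMf : FiniteDimensional K (L.Ur M (N * l ^ j)) := ur_fin M _ hND
  obtain ⟨s, s1, s2, s3, s4⟩ := ga_rel (W₁ := W₁) (W₂ := W₂) (L.Ur ⊥ (N * l ^ j))
    (fun i => (a1 i).1) (fun i => (a2 i).1) a3 a4 a5 a6 a7 (fun z hz => (a12 z hz).1)
  have h1 := gbz_main R hR h hP hQ hm hD a1 a2 a3 a8 a9 a10 a11 (fun z hz => (a12 z hz).2) s1 s2
    s3 s4
  have hz₀M : z₀ ∈ M := by
    have h2 : (z₀ - xd) + xd ∈ M := M.add_mem h.uf.mem (h.rf.le h.xd_mem)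
    rwa [sub_add_cancel] at h2
  refine Sc.z_cop (N := L.Ur M (N * l ^ j)) ur_le ((fx_aff M hP).2 ⟨h.xP_mem, h.yP_mem⟩)
    ((fx_aff M hQ).2 ⟨hz₀M, h.y_mem⟩) ?_ h1
  rw [gbz_deg h.rf hD]
  refine Nat.Coprime.pow_left j ((Nat.coprime_primes hl L.pp).2 ?_)
  omega

end Ld

end PE
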