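import Pool.Agent.Lib.MP_f80667_ag.Pe.Glo
import Pool.Agent.Lib.MP_f80667_ag.Pe.GloBA

/-! The push-forward of elements in the image of `Δ`. -/

open ZC BE Polynomial IntermediateField IsDedekindDomain NumberField

namespace PE

variable {F : Type} [Field F] [NumberField F] {W₁ W₂ : WeierstrassCurve F}

/-- Proof: let `x`, `c`, `c'` be as in `ImDe z`; the push-forward of `x` (`LHat.map`, `Gp.map`, `fst_ratEq`) is represented by `p₁ c`, and `pA₁ c'` is the family of its base changes. -/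
theorem imDe₁ {z : LHat (FA (Xv W₁ W₂))} {z₁ : LHat (FA (Ev W₁))} (h₁ : Is₁ z z₁) (h : ImDe z) :
    ImDe z₁ := imDeA₁ h₁ h

theorem imDe₂ {z : LHat (FA (Xv W₁ W₂))} {z₂ : LHat (FA (Ev W₂))} (h₂ : Is₂ z z₂) (h : ImDe z) :
    ImDe z₂ := imDeA₂ h₂ h

end PE
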