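import Pool.Agent.Lib.MP_f80667_ag.Be.Defs

/-!
The K3 surfaces `f(x) s² = g(y) t²` (the smooth model of `z² = f(x) g(y)`), `f`, `g` separable polynomials of degree
three or four.

* `qf f v`: the value at `v` of the binary quartic form `∑ c_i X₀ ^ i X₁ ^ (4 - i)` of `f = ∑ c_i X ^ i`.
* `Kc f g L`: homogeneous coordinates of the `L`-points: `x`, `y`, `t` in `L² \ 0` with `f(x) t₀² = g(y) t₁²`.
* `Kc.Rel`: the same point: `x`, `y`, `t` are multiplied by `a`, `b`, and `t₀`, `t₁` by `c b²`, `c a²`.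
* `Qf f`: `f` is separable of degree three or four.
* `Kv f g`: the surface. The reduction of a point at a place: all coordinates are integral and the residues are the
  coordinates of the value.
-/

open ZC Polynomial

namespace PE

/-- The value of the binary quartic form. -/
noncomputable def qf {F L : Type} [Field F] [Field L] [Algebra F L] (f : F[X]) (v : L × L) : L :=
  ∑ i ∈ Finset.range 5, algebraMap F L (f.coeff i) * v.1 ^ i * v.2 ^ (4 - i)

theorem qf_map {F L M : Type} [Field F] [Field L] [Field M] [Algebra F L] [Algebra F M]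
    (f : F[X]) (σ : L →ₐ[F] M) (v : L × L) : qf f (σ v.1, σ v.2) = σ (qf f v) := by
  unfold qf
  rw [map_sum]
  refine Finset.sum_congr rfl fun i _ => ?_
  rw [map_mul, map_mul, map_pow, map_pow, AlgHom.commutes]

theorem qf_mul {F L : Type} [Field F] [Field L] [Algebra F L] (f : F[X]) (a : L) (v : L × L) :
    qf f (a * v.1, a * v.2) = a ^ 4 * qf f v := by
  unfold qf
  rw [Finset.mul_sum]
  refine Finset.sum_congr rfl fun i hi => ?_
  have h : i + (4 - i) = 4 := by
    have := Finset.mem_range.1 hi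
    omega
  have e : a ^ 4 = a ^ i * a ^ (4 - i) := by rw [← pow_add, h]
  rw [e, mul_pow, mul_pow]
  ring

/-- Homogeneous coordinates. -/
structure Kc {F : Type} [Field F] (f g : F[X]) (L : Type) [Field L] [Algebra F L] where
  /-- the coordinates `x` -/
  x : L × L
  /-- the coordinates `y` -/
  y : L × L
  /-- the coordinates `s`, `t` -/
  t : L × L
  hx : x ≠ 0
  hy : y ≠ 0
  ht : t ≠ 0
  eq : qf f x * t.1 ^ 2 = qf g y * t.2 ^ 2

namespace Kc

variable {F : Type} [Field F] {f g : F[X]} {L : Type} [Field L] [Algebra F L]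

/-- Coordinates of the same point. -/
def Rel (P Q : Kc f g L) : Prop := ∃ a b c : L, a ≠ 0 ∧ b ≠ 0 ∧ c ≠ 0 ∧
  Q.x = (a * P.x.1, a * P.x.2) ∧ Q.y = (b * P.y.1, b * P.y.2) ∧
  Q.t = (c * b ^ 2 * P.t.1, c * a ^ 2 * P.t.2)

theorem rel_refl (P : Kc f g L) : P.Rel P :=
  ⟨1, 1, 1, one_ne_zero, one_ne_zero, one_ne_zero, by simp, by simp, by simp⟩

theorem rel_symm {P Q : Kc f g L} (h : P.Rel Q) : Q.Rel P := by
  obtain ⟨a, b, c, ha, hb, hc, h1, h2, h3⟩ := h
  refine ⟨a⁻¹, b⁻¹, c⁻¹, inv_ne_zero ha, inv_ne_zero hb, inv_ne_zero hc, ?_, ?_, ?_⟩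
  · rw [h1]
    exact Prod.ext (inv_mul_cancel_left₀ ha _).symm (inv_mul_cancel_left₀ ha _).symm
  · rw [h2]
    exact Prod.ext (inv_mul_cancel_left₀ hb _).symm (inv_mul_cancel_left₀ hb _).symm
  · rw [h3]
    refine Prod.ext ?_ ?_
    · field_simp
    · field_simp

theorem rel_trans {P Q R : Kc f g L} (h : P.Rel Q) (h' : Q.Rel R) : P.Rel R := by
  obtain ⟨a, b, c, ha, hb, hc, h1, h2, h3⟩ := h
  obtain ⟨a', b', c', ha', hb', hc', h1', h2', h3'⟩ := h'
  refine ⟨a' * a, b' * b, c' * c, mul_ne_zero ha' ha, mul_ne_zero hb' hb, mul_ne_zero hc' hc,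
    ?_, ?_, ?_⟩
  · rw [h1', h1]
    exact Prod.ext (mul_assoc _ _ _).symm (mul_assoc _ _ _).symm
  · rw [h2', h2]
    exact Prod.ext (mul_assoc _ _ _).symm (mul_assoc _ _ _).symm
  · rw [h3', h3]
    refine Prod.ext ?_ ?_
    · dsimp only
      ring
    · dsimp only
      ring

variable (f g L) in
/-- The equality of points. -/
def sd : Setoid (Kc f g L) where
  r := Rel
  iseqv := ⟨rel_refl, rel_symm, rel_trans⟩

theorem mp_ne {M : Type} [Field M] [Algebra F M] (σ : L →ₐ[F] M) {v : L × L} (h : v ≠ 0) :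
    ((σ v.1, σ v.2) : M × M) ≠ 0 := by
  intro h0
  apply h
  have h1 := congrArg Prod.fst h0
  have h2 := congrArg Prod.snd h0
  exact Prod.ext ((map_eq_zero σ).1 h1) ((map_eq_zero σ).1 h2)

/-- The map induced by a homomorphism. -/
def mp {M : Type} [Field M] [Algebra F M] (σ : L →ₐ[F] M) (P : Kc f g L) : Kc f g M where
  x := (σ P.x.1, σ P.x.2)
  y := (σ P.y.1, σ P.y.2)
  t := (σ P.t.1, σ P.t.2)
  hx := mp_ne σ P.hx
  hy := mp_ne σ P.hy
  ht := mp_ne σ P.ht
  eq := by rw [qf_map, qf_map, ← map_pow, ← map_pow, ← map_mul, ← map_mul, P.eq]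

theorem mp_rel {M : Type} [Field M] [Algebra F M] (σ : L →ₐ[F] M) {P Q : Kc f g L}
    (h : P.Rel Q) : (P.mp σ).Rel (Q.mp σ) := by
  obtain ⟨a, b, c, ha, hb, hc, h1, h2, h3⟩ := h
  refine ⟨σ a, σ b, σ c, (map_ne_zero σ).2 ha, (map_ne_zero σ).2 hb, (map_ne_zero σ).2 hc,
    ?_, ?_, ?_⟩
  · change (σ Q.x.1, σ Q.x.2) = (σ a * σ P.x.1, σ a * σ P.x.2)
    rw [h1, map_mul, map_mul]
  · change (σ Q.y.1, σ Q.y.2) = (σ b * σ P.y.1, σ b * σ P.y.2)
    rw [h2, map_mul, map_mul]
  · change (σ Q.t.1, σ Q.t.2) = (σ c * σ b ^ 2 * σ P.t.1, σ c * σ a ^ 2 * σ P.t.2)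
    rw [h3, map_mul, map_mul, map_mul, map_mul, map_pow, map_pow]

end Kc

/-- A separable polynomial of degree three or four. -/
structure Qf {F : Type} [Field F] (f : F[X]) : Prop where
  sep : f.Separable
  deg : f.natDegree = 3 ∨ f.natDegree = 4

/-- The coordinates `v` are integral and reduce to `u`. -/
def Rd {K L Ω : Type} [Field K] [Field L] [Field Ω] [Algebra K L] [Algebra K Ω]
    (w : Place K L Ω) (v : L × L) (u : Ω × Ω) : Prop :=
  ∃ (h₁ : v.1 ∈ w.V) (h₂ : v.2 ∈ w.V), w.res ⟨v.1, h₁⟩ = u.1 ∧ w.res ⟨v.2, h₂⟩ = u.2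

/-- The surface `f(x) s² = g(y) t²`. -/
def Kv {F : Type} [Field F] (f g : F[X]) : BE.Vr F where
  pt L _ _ := Quotient (Kc.sd f g L)
  map σ := Quotient.map (Kc.mp σ) fun _ _ h => Kc.mp_rel σ h
  red w x y := ∃ P Q, x = Quotient.mk _ P ∧ y = Quotient.mk _ Q ∧ Rd w P.x Q.x ∧ Rd w P.y Q.y ∧
    Rd w P.t Q.t

section act

variable {F : Type} [Field F] {K : Type} [Field K] [Algebra F K] {Ω : Type} [Field Ω] [Algebra K Ω]
  [Algebra F Ω] [IsScalarTower F K Ω]

/-- The action on the points. -/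
noncomputable instance Kv.mact (f g : F[X]) : MulAction (Ω ≃ₐ[K] Ω) ((Kv f g).pt Ω) where
  smul σ x := (Kv f g).act σ x
  one_smul x := by
    induction x using Quotient.inductionOn with
    | h P => rfl
  mul_smul σ τ x := by
    induction x using Quotient.inductionOn with
    | h P => rfl

theorem Kv.smul_def (f g : F[X]) (σ : Ω ≃ₐ[K] Ω) (x : (Kv f g).pt Ω) :
    σ • x = (Kv f g).act σ x := rfl

end act

end PE
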