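import Pool.Agent.Lib.MP_f80667_ag.Pe.Lo
import Pool.Agent.Lib.MP_f80667_ag.Pe.Plc

/-!
The product of the norms of the parameters of the `p`-torsion points of the formal group is at least `nm p`.
-/

open ZC BE Polynomial IntermediateField

namespace PE

namespace Ld

variable {F : Type} [Field F] {K Ω : Type} [Field K] [CharZero K] [Field Ω] [Algebra K Ω]
  [Algebra F K] [Algebra F Ω] [IsScalarTower F K Ω] [IsAlgClosure K Ω] (L : Ld K Ω)
  {W : WeierstrassCurve F} [W.IsElliptic] {E : Type} [Field E] [Algebra Ω E] [Algebra F E]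
  [IsScalarTower F Ω E] {s η : E} {σ : E ≃ₐ[Ω] E}

/-- The polynomials in `t = - s / η`, `w = - 1 / η` with integral coefficients. -/
def KA (s η : E) : Subring E :=
  Subring.closure ({z | ∃ x : Ω, L.nm x ≤ 1 ∧ z = algebraMap Ω E x} ∪ {-s / η, -1 / η})

/-- The ideal generated by `t`, `w` and the numbers of norm `< 1`, as an additive group. -/
def KI (s η : E) : AddSubgroup E :=
  AddSubgroup.closure {z | ∃ a ∈ L.KA s η, ∃ b, (b = -s / η ∨ b = -1 / η ∨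
    ∃ x : Ω, L.nm x < 1 ∧ b = algebraMap Ω E x) ∧ z = a * b}

section

variable [CharZero Ω]

/-- The value at a point `R` of the formal group: there is a place with `ξ ↦ R`; `t`, `w` have the values `tp R`, `w(R)`, so
the elements of `KA` have integral values, those of `KI` values of norm `< 1`. Proof: `fw_plc`, `rsP_red`, `rs_fm`. -/
theorem key_plc (hW : L.It W) (h : Qd s η (TW W Ω) (NW W Ω) σ) (R : Pt W Ω) (hR : L.Fm R) :
    ∃ v : Place Ω E Ω, Pt.Red W v (gp h) R ∧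
      (∀ z ∈ L.KA s η, ∃ hz : z ∈ v.V, L.nm (v.res ⟨z, hz⟩) ≤ 1) ∧
      (∀ z ∈ L.KI s η, ∃ hz : z ∈ v.V, L.nm (v.res ⟨z, hz⟩) < 1) ∧
      (∃ hz : -s / η ∈ v.V, v.res ⟨_, hz⟩ = tp R) := by
  have hac : IsAlgClosed Ω := IsAlgClosure.isAlgClosed K
  obtain ⟨v, hv⟩ := fw_plc h R
  refine ⟨v, hv, ?_⟩
  obtain ⟨τ, ω, ht, hw, hτ, hω, hτR⟩ : ∃ τ ω : Ω, (rsP v).Hv (-s / η) τ ∧
      (rsP v).Hv (-1 / η) ω ∧ L.nm τ < 1 ∧ L.nm ω < 1 ∧ τ = tp R := by
    rcases plr_cases R with rfl | ⟨x, y, hxy, rfl⟩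
    · have h1 := (rs_fm (rsP_cv v)).1 ((rsP_red v).1 hv)
      refine ⟨0, 0, h1.2.1, h1.2.2, ?_, ?_, rfl⟩
      · rw [L.zero]
        exact zero_lt_one
      · rw [L.zero]
        exact zero_lt_one
    · have hy : y ≠ 0 := hR.1
      have e1 : L.nm (-x / y) < 1 := L.mem_jm.1 hR.2.1
      have e2 : L.nm (-1 / y) < 1 := L.mem_jm.1 hR.2.2
      have hv' : (s ∉ v.V ∧ (Pt.aff x y hxy : Pt W Ω) = 0) ∨
          ∃ (hx : s ∈ v.V) (hy : η ∈ v.V)
            (h : (W.baseChange Ω).toAffine.Nonsingular (v.res ⟨s, hx⟩) (v.res ⟨η, hy⟩)),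
            (Pt.aff x y hxy : Pt W Ω) = Pt.aff _ _ h := hv
      rcases hv' with ⟨-, h1⟩ | ⟨h1, h2, h3, h4⟩
      · exact absurd h1 (WeierstrassCurve.Affine.Point.some_ne_zero hxy)
      · obtain ⟨h5, h6⟩ := WeierstrassCurve.Affine.Point.some.inj h4
        have hs : (rsP v).Hv s x := ⟨h1, h5.symm⟩
        have hη : (rsP v).Hv η y := ⟨h2, h6.symm⟩
        exact ⟨-x / y, -1 / y, hs.neg.div hη hy, Rs.Hv.one.neg.div hη hy, e1, e2, rfl⟩
  have hc : ∀ x : Ω, (rsP v).Hv (algebraMap Ω E x) x := fun x => ⟨v.mem x, v.res_k x⟩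
  have hA : ∀ z ∈ L.KA s η, ∃ r : Ω, (rsP v).Hv z r ∧ L.nm r ≤ 1 := by
    intro z hz
    refine Subring.closure_induction ?_ ?_ ?_ ?_ ?_ ?_ hz
    · rintro z (⟨x, hx, rfl⟩ | hz | hz)
      · exact ⟨x, hc x, hx⟩
      · rw [hz]
        exact ⟨τ, ht, hτ.le⟩
      · have hz' : z = -1 / η := hz
        rw [hz']
        exact ⟨ω, hw, hω.le⟩
    · exact ⟨0, Rs.Hv.zero, by rw [L.zero]; exact zero_le_one⟩
    · exact ⟨1, Rs.Hv.one, L.one.le⟩
    · rintro a b - - ⟨r, hr, hr1⟩ ⟨r', hr', hr1'⟩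
      exact ⟨r + r', hr.add hr', (L.add r r').trans (max_le hr1 hr1')⟩
    · rintro a - ⟨r, hr, hr1⟩
      exact ⟨-r, hr.neg, by rw [L.neg]; exact hr1⟩
    · rintro a b - - ⟨r, hr, hr1⟩ ⟨r', hr', hr1'⟩
      refine ⟨r * r', hr.mul hr', ?_⟩
      rw [L.mul]
      exact mul_le_one₀ hr1 (L.nonneg _) hr1'
  have hI : ∀ z ∈ L.KI s η, ∃ r : Ω, (rsP v).Hv z r ∧ L.nm r < 1 := by
    intro z hz
    refine AddSubgroup.closure_induction ?_ ?_ ?_ ?_ hz
    · rintro z ⟨a, ha, b, hb, rfl⟩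
      obtain ⟨r, hr, hr1⟩ := hA a ha
      obtain ⟨r', hr', hr1'⟩ : ∃ r' : Ω, (rsP v).Hv b r' ∧ L.nm r' < 1 := by
        rcases hb with rfl | rfl | ⟨x, hx, rfl⟩
        · exact ⟨τ, ht, hτ⟩
        · exact ⟨ω, hw, hω⟩
        · exact ⟨x, hc x, hx⟩
      refine ⟨r * r', hr.mul hr', ?_⟩
      rw [L.mul]
      exact (mul_le_of_le_one_left (L.nonneg _) hr1).trans_lt hr1'
    · exact ⟨0, Rs.Hv.zero, by rw [L.zero]; exact zero_lt_one⟩
    · rintro a b - - ⟨r, hr, hr1⟩ ⟨r', hr', hr1'⟩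
      exact ⟨r + r', hr.add hr', (L.add r r').trans_lt (max_lt hr1 hr1')⟩
    · rintro a - ⟨r, hr, hr1⟩
      exact ⟨-r, hr.neg, by rw [L.neg]; exact hr1⟩
  refine ⟨?_, ?_, ?_⟩
  · intro z hz
    obtain ⟨r, ⟨h1, h2⟩, h3⟩ := hA z hz
    exact ⟨h1, by rw [show v.res ⟨z, h1⟩ = r from h2]; exact h3⟩
  · intro z hz
    obtain ⟨r, ⟨h1, h2⟩, h3⟩ := hI z hz
    exact ⟨h1, by rw [show v.res ⟨z, h1⟩ = r from h2]; exact h3⟩
  · obtain ⟨h1, h2⟩ := ht
    exact ⟨h1, h2.trans hτR⟩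

/-- The local ring. -/
theorem key_jr (hW : L.It W) (h : Qd s η (TW W Ω) (NW W Ω) σ) :
    ∃ J : Jr E, (∀ z, z ∈ J.V ↔ ∃ a ∈ L.KA s η, ∃ b ∈ L.KI s η, 1 + b ≠ 0 ∧ z * (1 + b) = a) ∧
      (∀ z, z ∈ J.m ↔ ∃ a ∈ L.KI s η, ∃ b ∈ L.KI s η, 1 + b ≠ 0 ∧ z * (1 + b) = a) ∧
      J.Cf (W.baseChange E) ∧ J.Fm (W := W.baseChange E) (gp h) := by
  -- the elements of `KI`
  have hcA : ∀ x : Ω, L.nm x ≤ 1 → algebraMap Ω E x ∈ L.KA s η := fun x hx =>
    Subring.subset_closure (Or.inl ⟨x, hx, rfl⟩)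
  have htA : -s / η ∈ L.KA s η := Subring.subset_closure (Or.inr (Or.inl rfl))
  have hwA : -1 / η ∈ L.KA s η := Subring.subset_closure (Or.inr (Or.inr rfl))
  have hIA : ∀ z ∈ L.KI s η, z ∈ L.KA s η := by
    intro z hz
    refine AddSubgroup.closure_induction ?_ (zero_mem _) (fun a b _ _ ha hb => add_mem ha hb)
      (fun a _ ha => neg_mem ha) hz
    rintro z ⟨a, ha, b, hb, rfl⟩
    refine mul_mem ha ?_
    rcases hb with rfl | rfl | ⟨x, hx, rfl⟩
    · exact htA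
    · exact hwA
    · exact hcA x hx.le
  have hmul : ∀ a ∈ L.KA s η, ∀ z ∈ L.KI s η, a * z ∈ L.KI s η := by
    intro a ha z hz
    refine AddSubgroup.closure_induction ?_ ?_ ?_ ?_ hz
    · rintro z ⟨a', ha', b, hb, rfl⟩
      refine AddSubgroup.subset_closure ⟨a * a', mul_mem ha ha', b, hb, ?_⟩
      rw [mul_assoc]
    · rw [mul_zero]
      exact zero_mem _
    · intro x y _ _ hx hy
      rw [mul_add]
      exact add_mem hx hy
    · intro x _ hx
      rw [mul_neg]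
      exact neg_mem hx
  have hne : ∀ b ∈ L.KI s η, 1 + b ≠ 0 := by
    intro b hb h0
    obtain ⟨v, -, -, h1, -⟩ := L.key_plc hW h 0 fm_zero
    obtain ⟨h2, h3⟩ := h1 b hb
    have h4 : (⟨b, h2⟩ : v.V) = -1 := Subtype.ext (by
      change b = -1
      linear_combination h0)
    rw [h4, map_neg, map_one, L.neg, L.one] at h3
    exact lt_irrefl _ h3
  have hone : ∀ b ∈ L.KI s η, ∀ b' ∈ L.KI s η, b + b' + b * b' ∈ L.KI s η := fun b hb b' hb' =>
    add_mem (add_mem hb hb') (hmul b (hIA b hb) b' hb')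
  have h1A : ∀ b ∈ L.KI s η, 1 + b ∈ L.KA s η := fun b hb => add_mem (one_mem _) (hIA b hb)
  have hmul' : ∀ z ∈ L.KI s η, ∀ a ∈ L.KA s η, z * a ∈ L.KI s η := fun z hz a ha => by
    rw [mul_comm]
    exact hmul a ha z hz
  obtain ⟨V, hV⟩ : ∃ V : Subring E, ∀ z, z ∈ V ↔
      ∃ a ∈ L.KA s η, ∃ b ∈ L.KI s η, 1 + b ≠ 0 ∧ z * (1 + b) = a := by
    refine ⟨{ carrier := {z | ∃ a ∈ L.KA s η, ∃ b ∈ L.KI s η, 1 + b ≠ 0 ∧ z * (1 + b) = a}
              mul_mem' := ?_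
              one_mem' := ?_
              add_mem' := ?_
              zero_mem' := ?_
              neg_mem' := ?_ }, fun z => Iff.rfl⟩
    · rintro z z' ⟨a, ha, b, hb, -, e⟩ ⟨a', ha', b', hb', -, e'⟩
      refine ⟨a * a', mul_mem ha ha', _, hone b hb b' hb', hne _ (hone b hb b' hb'), ?_⟩
      rw [← e, ← e']
      ring
    · exact ⟨1, one_mem _, 0, zero_mem _, hne 0 (zero_mem _), by rw [add_zero, mul_one]⟩
    · rintro z z' ⟨a, ha, b, hb, -, e⟩ ⟨a', ha', b', hb', -, e'⟩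
      refine ⟨a * (1 + b') + a' * (1 + b), add_mem (mul_mem ha (h1A b' hb'))
        (mul_mem ha' (h1A b hb)), _, hone b hb b' hb', hne _ (hone b hb b' hb'), ?_⟩
      rw [← e, ← e']
      ring
    · exact ⟨0, zero_mem _, 0, zero_mem _, hne 0 (zero_mem _), by rw [zero_mul]⟩
    · rintro z ⟨a, ha, b, hb, hb0, e⟩
      exact ⟨-a, neg_mem ha, b, hb, hb0, by rw [← e, neg_mul]⟩
  have hAV : ∀ a ∈ L.KA s η, a ∈ V := fun a ha =>
    (hV a).2 ⟨a, ha, 0, zero_mem _, hne 0 (zero_mem _), by rw [add_zero, mul_one]⟩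
  obtain ⟨m, hm⟩ : ∃ m : Set E, ∀ z, z ∈ m ↔
      ∃ a ∈ L.KI s η, ∃ b ∈ L.KI s η, 1 + b ≠ 0 ∧ z * (1 + b) = a := ⟨_, fun z => Iff.rfl⟩
  have hIm : ∀ a ∈ L.KI s η, a ∈ m := fun a ha =>
    (hm a).2 ⟨a, ha, 0, zero_mem _, hne 0 (zero_mem _), by rw [add_zero, mul_one]⟩
  refine ⟨{ V := V
            m := m
            zero_m := hIm 0 (zero_mem _)
            add_m := ?_
            mul_m := ?_
            le := ?_
            inv := ?_ }, hV, hm, ⟨?_, ?_, ?_, ?_, ?_⟩, ?_, ?_, ?_⟩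
  · intro z hz z' hz'
    obtain ⟨a, ha, b, hb, -, e⟩ := (hm z).1 hz
    obtain ⟨a', ha', b', hb', -, e'⟩ := (hm z').1 hz'
    refine (hm _).2 ⟨a * (1 + b') + a' * (1 + b), add_mem (hmul' a ha _ (h1A b' hb'))
      (hmul' a' ha' _ (h1A b hb)), _, hone b hb b' hb', hne _ (hone b hb b' hb'), ?_⟩
    rw [← e, ← e']
    ring
  · intro z hz z' hz'
    obtain ⟨a, ha, b, hb, -, e⟩ := (hV z).1 hz
    obtain ⟨a', ha', b', hb', -, e'⟩ := (hm z').1 hz'
    refine (hm _).2 ⟨a * a', hmul a ha a' ha', _, hone b hb b' hb', hne _ (hone b hb b' hb'), ?_⟩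
    rw [← e, ← e']
    ring
  · intro z hz
    obtain ⟨a, ha, b, hb, hb0, e⟩ := (hm z).1 hz
    exact (hV z).2 ⟨a, hIA a ha, b, hb, hb0, e⟩
  · intro z hz
    obtain ⟨a, ha, b, hb, hb0, e⟩ := (hm z).1 hz
    have h1 : (1 + z) * (1 + b) = 1 + (b + a) := by
      rw [← e]
      ring
    have h2 : 1 + (b + a) ≠ 0 := hne _ (add_mem hb ha)
    have h3 : 1 + z ≠ 0 := by
      intro h4
      rw [h4, zero_mul] at h1
      exact h2 h1.symm
    refine ⟨h3, (hV _).2 ⟨1 + b, h1A b hb, b + a, add_mem hb ha, h2, ?_⟩⟩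
    rw [← h1, inv_mul_cancel_left₀ h3]
  · exact hAV _ (by
      change algebraMap F E W.a₁ ∈ _
      rw [IsScalarTower.algebraMap_apply F Ω E]
      exact hcA _ hW.a₁)
  · exact hAV _ (by
      change algebraMap F E W.a₂ ∈ _
      rw [IsScalarTower.algebraMap_apply F Ω E]
      exact hcA _ hW.a₂)
  · exact hAV _ (by
      change algebraMap F E W.a₃ ∈ _
      rw [IsScalarTower.algebraMap_apply F Ω E]
      exact hcA _ hW.a₃)
  · exact hAV _ (by
      change algebraMap F E W.a₄ ∈ _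
      rw [IsScalarTower.algebraMap_apply F Ω E]
      exact hcA _ hW.a₄)
  · exact hAV _ (by
      change algebraMap F E W.a₆ ∈ _
      rw [IsScalarTower.algebraMap_apply F Ω E]
      exact hcA _ hW.a₆)
  · change η ≠ 0
    intro h0
    have h1 := fw_indep h (a := 0) (b := 1) (by rw [h0, mul_zero, map_zero, add_zero])
    exact one_ne_zero h1.2
  · exact hIm _ (AddSubgroup.subset_closure ⟨1, one_mem _, -s / η, Or.inl rfl, (one_mul _).symm⟩)
  · exact hIm _ (AddSubgroup.subset_closure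
      ⟨1, one_mem _, -1 / η, Or.inr (Or.inl rfl), (one_mul _).symm⟩)

omit [CharZero K] [Algebra F K] [IsScalarTower F K Ω] [IsAlgClosure K Ω] [W.IsElliptic]
  [Algebra F Ω] [Algebra F E] [IsScalarTower F Ω E] [CharZero Ω] in
private theorem ka_c {x : Ω} (hx : L.nm x ≤ 1) : algebraMap Ω E x ∈ L.KA s η :=
  Subring.subset_closure (Or.inl ⟨x, hx, rfl⟩)

omit [CharZero K] [Algebra F K] [IsScalarTower F K Ω] [IsAlgClosure K Ω] [W.IsElliptic]
  [Algebra F Ω] [Algebra F E] [IsScalarTower F Ω E] [CharZero Ω] in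
private theorem ka_t : -s / η ∈ L.KA s η := Subring.subset_closure (Or.inr (Or.inl rfl))

omit [CharZero K] [Algebra F K] [IsScalarTower F K Ω] [IsAlgClosure K Ω] [W.IsElliptic]
  [Algebra F Ω] [Algebra F E] [IsScalarTower F Ω E] [CharZero Ω] in
private theorem ka_w : -1 / η ∈ L.KA s η := Subring.subset_closure (Or.inr (Or.inr rfl))

omit [CharZero K] [Algebra F K] [IsScalarTower F K Ω] [IsAlgClosure K Ω] [W.IsElliptic]
  [Algebra F Ω] [Algebra F E] [IsScalarTower F Ω E] [CharZero Ω] in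
private theorem ki_w : -1 / η ∈ L.KI s η :=
  AddSubgroup.subset_closure ⟨1, one_mem _, _, Or.inr (Or.inl rfl), (one_mul _).symm⟩

omit [CharZero K] [Algebra F K] [IsScalarTower F K Ω] [IsAlgClosure K Ω] [W.IsElliptic]
  [Algebra F Ω] [Algebra F E] [IsScalarTower F Ω E] [CharZero Ω] in
private theorem ki_c {x : Ω} (hx : L.nm x < 1) : algebraMap Ω E x ∈ L.KI s η :=
  AddSubgroup.subset_closure ⟨1, one_mem _, _, Or.inr (Or.inr ⟨x, hx, rfl⟩), (one_mul _).symm⟩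

omit [CharZero K] [Algebra F K] [IsScalarTower F K Ω] [IsAlgClosure K Ω] [W.IsElliptic]
  [Algebra F Ω] [Algebra F E] [IsScalarTower F Ω E] [CharZero Ω] in
private theorem ki_mul {a z : E} (ha : a ∈ L.KA s η) (hz : z ∈ L.KI s η) : a * z ∈ L.KI s η := by
  induction hz using AddSubgroup.closure_induction with
  | mem x hx =>
    obtain ⟨a', ha', b, hb, rfl⟩ := hx
    exact AddSubgroup.subset_closure ⟨a * a', mul_mem ha ha', b, hb, (mul_assoc _ _ _).symm⟩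
  | zero =>
    rw [mul_zero]
    exact zero_mem _
  | add x y _ _ hx hy =>
    rw [mul_add]
    exact add_mem hx hy
  | neg x _ hx =>
    rw [mul_neg]
    exact neg_mem hx

omit [CharZero K] [Algebra F K] [IsScalarTower F K Ω] [IsAlgClosure K Ω] in
/-- The values of `t`, `w` at a place with `ξ ↦ R`. -/
private theorem key_tw (h : Qd s η (TW W Ω) (NW W Ω) σ) {R : Pt W Ω} (hR : L.Fm R)
    {v : Place Ω E Ω} (hv : Pt.Red W v (gp h) R) :
    (rsP v).Hv (-s / η) (Pn.t (W := W.baseChange Ω) R) ∧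
      (rsP v).Hv (-1 / η) (Pn.w (W := W.baseChange Ω) R) := by
  have hv' := (rsP_red v).1 hv
  rcases (rs_red_aff (W := W.baseChange E) (W' := W.baseChange Ω) (fw_ns h)).1 hv' with
    ⟨h1, h2⟩ | ⟨r, r', h1, h2, h3, h4⟩
  · subst h2
    have h3 := (rs_fm (rsP_cv (W := W) v)).1 hv'
    exact ⟨h3.2.1, h3.2.2⟩
  · subst h4
    have hr' : r' ≠ 0 := hR.1
    exact ⟨h2.neg.div h3 hr', Rs.Hv.one.neg.div h3 hr'⟩

omit [CharZero Ω] in
private theorem key_ka (v : Place Ω E Ω) (c : Ω) : (rsP v).Hv (algebraMap Ω E c) c :=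
  ⟨v.mem c, v.res_k c⟩

/-- The elements of `KA` are constants modulo `t - tp R`. -/
private theorem key_mod (hW : L.It W) (h : Qd s η (TW W Ω) (NW W Ω) σ) {R : Pt W Ω}
    (hR : L.Fm R)
    {J : Jr E} (hJ : ∀ z, z ∈ J.V ↔ ∃ a ∈ L.KA s η, ∃ b ∈ L.KI s η, 1 + b ≠ 0 ∧ z * (1 + b) = a)
    {v : Place Ω E Ω} (hv : Pt.Red W v (gp h) R) {a : E} (ha : a ∈ L.KA s η) :
    ∃ c : Ω, L.nm c ≤ 1 ∧ (rsP v).Hv a c ∧ ∃ g ∈ J.V,
      a - algebraMap Ω E c = (-s / η - algebraMap Ω E (tp R)) * g := by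
  have hAV : ∀ a ∈ L.KA s η, a ∈ J.V := fun a ha => (hJ a).2 ⟨a, ha, 0, zero_mem _, by
    rw [add_zero]
    exact one_ne_zero, by rw [add_zero, mul_one]⟩
  obtain ⟨ht, hw⟩ := key_tw L h hR hv
  have ht1 : L.nm (tp R) < 1 := L.mem_jm.1 hR.2.1
  have hw1 : L.nm (Pn.w (W := W.baseChange Ω) R) < 1 := L.mem_jm.1 hR.2.2
  -- the values of the elements of `KA`, `KI`
  have hval : ∀ a ∈ L.KA s η, ∃ c : Ω, L.nm c ≤ 1 ∧ (rsP v).Hv a c := by
    intro a ha
    induction ha using Subring.closure_induction with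
    | mem x hx =>
      rcases hx with ⟨c, hc, rfl⟩ | rfl | rfl
      · exact ⟨c, hc, key_ka v c⟩
      · exact ⟨_, ht1.le, ht⟩
      · exact ⟨_, hw1.le, hw⟩
    | zero => exact ⟨0, by rw [L.zero]; exact zero_le_one, Rs.Hv.zero⟩
    | one => exact ⟨1, L.one.le, Rs.Hv.one⟩
    | add x y _ _ hx hy =>
      obtain ⟨c, hc, hc'⟩ := hx
      obtain ⟨d, hd, hd'⟩ := hy
      exact ⟨c + d, (L.add _ _).trans (max_le hc hd), hc'.add hd'⟩
    | neg x _ hx =>
      obtain ⟨c, hc, hc'⟩ := hx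
      exact ⟨-c, by rw [L.neg]; exact hc, hc'.neg⟩
    | mul x y _ _ hx hy =>
      obtain ⟨c, hc, hc'⟩ := hx
      obtain ⟨d, hd, hd'⟩ := hy
      exact ⟨c * d, by rw [L.mul]; exact mul_le_one₀ hc (L.nonneg _) hd, hc'.mul hd'⟩
  have hvalI : ∀ a ∈ L.KI s η, ∃ c : Ω, L.nm c < 1 ∧ (rsP v).Hv a c := by
    intro a ha
    induction ha using AddSubgroup.closure_induction with
    | mem x hx =>
      obtain ⟨a, ha, b, hb, rfl⟩ := hx
      obtain ⟨c, hc, hc'⟩ := hval a ha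
      obtain ⟨d, hd, hd'⟩ : ∃ d : Ω, L.nm d < 1 ∧ (rsP v).Hv b d := by
        rcases hb with rfl | rfl | ⟨d, hd, rfl⟩
        · exact ⟨_, ht1, ht⟩
        · exact ⟨_, hw1, hw⟩
        · exact ⟨d, hd, key_ka v d⟩
      refine ⟨c * d, ?_, hc'.mul hd'⟩
      rw [L.mul]
      exact (mul_le_of_le_one_left (L.nonneg _) hc).trans_lt hd
    | zero => exact ⟨0, by rw [L.zero]; exact zero_lt_one, Rs.Hv.zero⟩
    | add x y _ _ hx hy =>
      obtain ⟨c, hc, hc'⟩ := hx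
      obtain ⟨d, hd, hd'⟩ := hy
      exact ⟨c + d, (L.add _ _).trans_lt (max_lt hc hd), hc'.add hd'⟩
    | neg x _ hx =>
      obtain ⟨c, hc, hc'⟩ := hx
      exact ⟨-c, by rw [L.neg]; exact hc, hc'.neg⟩
  have hone : ∀ b ∈ L.KI s η, 1 + b ≠ 0 := by
    intro b hb h0
    obtain ⟨c, hc, hc'⟩ := hvalI b hb
    have h1 := Rs.Hv.one.add hc'
    rw [h0] at h1
    have h2 := h1.uniq Rs.Hv.zero
    have h3 := L.one_add hc
    rw [h2, L.zero] at h3
    exact zero_ne_one h3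
  -- `w`
  have hη : η ≠ 0 := by
    intro h0
    have h1 := (fw_indep h (a := 0) (b := 1) (by rw [map_zero, map_one, h0]; ring)).2
    exact one_ne_zero h1
  have hmw : ∃ g ∈ J.V, -1 / η - algebraMap Ω E (Pn.w (W := W.baseChange Ω) R) =
      (-s / η - algebraMap Ω E (tp R)) * g := by
    have e1 : -1 / η = (-s / η) ^ 3 + algebraMap F E W.a₁ * (-s / η) * (-1 / η) +
        algebraMap F E W.a₂ * (-s / η) ^ 2 * (-1 / η) + algebraMap F E W.a₃ * (-1 / η) ^ 2 +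
        algebraMap F E W.a₄ * (-s / η) * (-1 / η) ^ 2 + algebraMap F E W.a₆ * (-1 / η) ^ 3 :=
      fg_eqn (W := W.baseChange E) (P := gp h) hη
    have e2 := fg_eqn (W := W.baseChange Ω) (P := R) hR.1
    have e3 : Pn.w (W := W.baseChange Ω) R = tp R ^ 3 +
        algebraMap F Ω W.a₁ * tp R * Pn.w (W := W.baseChange Ω) R +
        algebraMap F Ω W.a₂ * tp R ^ 2 * Pn.w (W := W.baseChange Ω) R +
        algebraMap F Ω W.a₃ * Pn.w (W := W.baseChange Ω) R ^ 2 +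
        algebraMap F Ω W.a₄ * tp R * Pn.w (W := W.baseChange Ω) R ^ 2 +
        algebraMap F Ω W.a₆ * Pn.w (W := W.baseChange Ω) R ^ 3 := e2
    have e4 := congrArg (algebraMap Ω E) e3
    simp only [map_add, map_mul, map_pow] at e4
    simp only [IsScalarTower.algebraMap_apply F Ω E] at e1
    obtain ⟨t, ht'⟩ : ∃ t, t = -s / η := ⟨_, rfl⟩
    obtain ⟨w, hw'⟩ : ∃ w, w = -1 / η := ⟨_, rfl⟩
    obtain ⟨t₀, ht₀⟩ : ∃ t₀, t₀ = algebraMap Ω E (tp R) := ⟨_, rfl⟩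
    obtain ⟨w₀, hw₀⟩ : ∃ w₀, w₀ = algebraMap Ω E (Pn.w (W := W.baseChange Ω) R) := ⟨_, rfl⟩
    have kt : t ∈ L.KA s η := by rw [ht']; exact ka_t L
    have kw : w ∈ L.KA s η := by rw [hw']; exact ka_w L
    have kt₀ : t₀ ∈ L.KA s η := by rw [ht₀]; exact ka_c L ht1.le
    have kw₀ : w₀ ∈ L.KA s η := by rw [hw₀]; exact ka_c L hw1.le
    have iw : w ∈ L.KI s η := by rw [hw']; exact ki_w L
    have it₀ : t₀ ∈ L.KI s η := by rw [ht₀]; exact ki_c L ht1
    have iw₀ : w₀ ∈ L.KI s η := by rw [hw₀]; exact ki_c L hw1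
    rw [← ht', ← hw'] at e1
    rw [← ht₀, ← hw₀] at e4
    rw [← ht', ← hw', ← ht₀, ← hw₀]
    have k₁ := ka_c (E := E) (s := s) (η := η) L hW.a₁
    have k₂ := ka_c (E := E) (s := s) (η := η) L hW.a₂
    have k₃ := ka_c (E := E) (s := s) (η := η) L hW.a₃
    have k₄ := ka_c (E := E) (s := s) (η := η) L hW.a₄
    have k₆ := ka_c (E := E) (s := s) (η := η) L hW.a₆
    generalize algebraMap Ω E (algebraMap F Ω W.a₁) = A₁ at e1 e4 k₁
    generalize algebraMap Ω E (algebraMap F Ω W.a₂) = A₂ at e1 e4 k₂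
    generalize algebraMap Ω E (algebraMap F Ω W.a₃) = A₃ at e1 e4 k₃
    generalize algebraMap Ω E (algebraMap F Ω W.a₄) = A₄ at e1 e4 k₄
    generalize algebraMap Ω E (algebraMap F Ω W.a₆) = A₆ at e1 e4 k₆
    have hB : -(A₁ * t₀ + A₂ * t₀ * t₀ + A₃ * (w + w₀) + A₄ * t₀ * (w + w₀) +
        (A₆ * w * w + A₆ * w₀ * w + A₆ * w₀ * w₀)) ∈ L.KI s η := by
      refine neg_mem (add_mem (add_mem (add_mem (add_mem ?_ ?_) ?_) ?_) (add_mem (add_mem ?_ ?_) ?_))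
      · exact ki_mul L k₁ it₀
      · exact ki_mul L (mul_mem k₂ kt₀) it₀
      · exact ki_mul L k₃ (add_mem iw iw₀)
      · exact ki_mul L (mul_mem k₄ kt₀) (add_mem iw iw₀)
      · exact ki_mul L (mul_mem k₆ kw) iw
      · exact ki_mul L (mul_mem k₆ kw₀) iw
      · exact ki_mul L (mul_mem k₆ kw₀) iw₀
    have hA : t ^ 2 + t * t₀ + t₀ ^ 2 + A₁ * w + A₂ * (t + t₀) * w + A₄ * w ^ 2 ∈ L.KA s η := by
      refine add_mem (add_mem (add_mem (add_mem (add_mem (pow_mem kt 2) (mul_mem kt kt₀))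
        (pow_mem kt₀ 2)) (mul_mem k₁ kw)) (mul_mem (mul_mem k₂ (add_mem kt kt₀)) kw))
        (mul_mem k₄ (pow_mem kw 2))
    have h1B := hone _ hB
    refine ⟨_ / _, (hJ _).2 ⟨_, hA, _, hB, h1B, div_mul_cancel₀ _ h1B⟩, ?_⟩
    rw [← mul_div_assoc, eq_div_iff h1B]
    linear_combination e1 - e4
  -- the induction
  induction ha using Subring.closure_induction with
  | mem x hx =>
    rcases hx with ⟨c, hc, rfl⟩ | rfl | rfl
    · exact ⟨c, hc, key_ka v c, 0, zero_mem _, by rw [sub_self, mul_zero]⟩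
    · exact ⟨_, ht1.le, ht, 1, one_mem _, (mul_one _).symm⟩
    · exact ⟨_, hw1.le, hw, hmw⟩
  | zero => exact ⟨0, by rw [L.zero]; exact zero_le_one, Rs.Hv.zero, 0, zero_mem _, by
      rw [map_zero, mul_zero, sub_zero]⟩
  | one => exact ⟨1, L.one.le, Rs.Hv.one, 0, zero_mem _, by rw [map_one, mul_zero, sub_self]⟩
  | add x y _ _ hx hy =>
    obtain ⟨c, hc, hc', g, hg, e⟩ := hx
    obtain ⟨d, hd, hd', k, hk, e'⟩ := hy
    refine ⟨c + d, (L.add _ _).trans (max_le hc hd), hc'.add hd', g + k, add_mem hg hk, ?_⟩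
    rw [map_add, mul_add, ← e, ← e']
    ring
  | neg x _ hx =>
    obtain ⟨c, hc, hc', g, hg, e⟩ := hx
    refine ⟨-c, by rw [L.neg]; exact hc, hc'.neg, -g, neg_mem hg, ?_⟩
    rw [map_neg, mul_neg, ← e]
    ring
  | mul x y hxm hym hx hy =>
    obtain ⟨c, hc, hc', g, hg, e⟩ := hx
    obtain ⟨d, hd, hd', k, hk, e'⟩ := hy
    refine ⟨c * d, by rw [L.mul]; exact mul_le_one₀ hc (L.nonneg _) hd, hc'.mul hd',
      g * y + algebraMap Ω E c * k, add_mem (mul_mem hg (hAV _ hym))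
        (mul_mem (hAV _ (ka_c L hc)) hk), ?_⟩
    rw [map_mul]
    linear_combination y * e + algebraMap Ω E c * e'

/-- Division. If the value of `f ∈ V` at `R` is `0` then `f` is divisible by `t - tp R`. Proof: `f (1 + b) = a = a(t, w)`; modulo `t - tp R` and `w - w(R)` the element `a` is the constant
`a(tp R, w(R)) = 0`; `w - w(R)` is divisible by `t - tp R` in `V`: the difference of the equations `fg_eqn` for `w` and for `w(R)` is `(w - w(R)) (1 + b) = (t - tp R) a`. -/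
theorem key_dvd (hW : L.It W) (h : Qd s η (TW W Ω) (NW W Ω) σ) (R : Pt W Ω) (hR : L.Fm R)
    {J : Jr E} (hJ : ∀ z, z ∈ J.V ↔ ∃ a ∈ L.KA s η, ∃ b ∈ L.KI s η, 1 + b ≠ 0 ∧ z * (1 + b) = a)
    {v : Place Ω E Ω} (hv : Pt.Red W v (gp h) R) {f : E} (hf : f ∈ J.V) (hf' : f ∈ v.V)
    (h0 : v.res ⟨f, hf'⟩ = 0) :
    ∃ g ∈ J.V, f = (-s / η - algebraMap Ω E (tp R)) * g := by
  obtain ⟨a, ha, b, hb, h1, h2⟩ := (hJ f).1 hf
  obtain ⟨c, hc, hc', g, hg, e⟩ := key_mod L hW h hR hJ hv ha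
  have hbA : b ∈ L.KA s η := by
    clear h1 h2
    induction hb using AddSubgroup.closure_induction with
    | mem x hx =>
      obtain ⟨a', ha', b', hb', rfl⟩ := hx
      refine mul_mem ha' ?_
      rcases hb' with rfl | rfl | ⟨d, hd, rfl⟩
      · exact ka_t L
      · exact ka_w L
      · exact ka_c L hd.le
    | zero => exact zero_mem _
    | add x y _ _ hx hy => exact add_mem hx hy
    | neg x _ hx => exact neg_mem hx
  obtain ⟨d, -, hd', -⟩ := key_mod L hW h hR hJ hv (add_mem (one_mem (L.KA s η)) hbA)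
  have h3 : (rsP v).Hv f 0 := ⟨hf', h0⟩
  have h4 := h3.mul hd'
  rw [h2, zero_mul] at h4
  have h5 := hc'.uniq h4
  rw [h5, map_zero, sub_zero] at e
  refine ⟨g * (1 + b)⁻¹, mul_mem hg ((hJ _).2 ⟨1, one_mem _, b, hb, h1, inv_mul_cancel₀ h1⟩), ?_⟩
  rw [← mul_assoc, ← e, ← h2, mul_assoc, mul_inv_cancel₀ h1, mul_one]

end

/-- Products of values. -/
private theorem key_prod {L' κ : Type} [Field L'] [Field κ] {w : Rs L' κ} {ι : Type} (s : Finset ι)
    (f : ι → L') (g : ι → κ) (h : ∀ i ∈ s, w.Hv (f i) (g i)) :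
    w.Hv (∏ i ∈ s, f i) (∏ i ∈ s, g i) := by
  classical
  induction s using Finset.induction_on with
  | empty =>
    rw [Finset.prod_empty, Finset.prod_empty]
    exact Rs.Hv.one
  | insert i s hi ih =>
    rw [Finset.prod_insert hi, Finset.prod_insert hi]
    exact (h i (Finset.mem_insert_self i s)).mul
      (ih fun j hj => h j (Finset.mem_insert_of_mem hj))

private theorem key_nmprod {ι : Type} (s : Finset ι) (f : ι → Ω) :
    L.nm (∏ i ∈ s, f i) = ∏ i ∈ s, L.nm (f i) := by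
  classical
  induction s using Finset.induction_on with
  | empty => rw [Finset.prod_empty, Finset.prod_empty, L.one]
  | insert i s hi ih => rw [Finset.prod_insert hi, Finset.prod_insert hi, L.mul, ih]

/-- The elements of the local ring have integral values. -/
private theorem key_val {J : Jr E}
    (hJ : ∀ z, z ∈ J.V ↔ ∃ a ∈ L.KA s η, ∃ b ∈ L.KI s η, 1 + b ≠ 0 ∧ z * (1 + b) = a)
    {v : Place Ω E Ω} (h1 : ∀ z ∈ L.KA s η, ∃ hz : z ∈ v.V, L.nm (v.res ⟨z, hz⟩) ≤ 1)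
    (h2 : ∀ z ∈ L.KI s η, ∃ hz : z ∈ v.V, L.nm (v.res ⟨z, hz⟩) < 1) {z : E} (hz : z ∈ J.V) :
    ∃ r, (rsP v).Hv z r ∧ L.nm r ≤ 1 := by
  obtain ⟨a, ha, b, hb, hb0, e⟩ := (hJ z).1 hz
  obtain ⟨ha1, ha2⟩ := h1 a ha
  obtain ⟨hb1, hb2⟩ := h2 b hb
  have hA : (rsP v).Hv a (v.res ⟨a, ha1⟩) := ⟨ha1, rfl⟩
  have hB : (rsP v).Hv b (v.res ⟨b, hb1⟩) := ⟨hb1, rfl⟩
  have hn : L.nm (1 + v.res ⟨b, hb1⟩) = 1 := L.one_add hb2
  have hne : 1 + v.res ⟨b, hb1⟩ ≠ 0 := by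
    intro h
    rw [h, L.zero] at hn
    exact zero_ne_one hn
  refine ⟨_, (hA.div (Rs.Hv.one.add hB) hne).congr ?_ rfl, ?_⟩
  · rw [← e, mul_div_cancel_right₀ _ hb0]
  · rw [L.div, hn, div_one]
    exact ha2

/-- The function field with its structures. -/
private theorem key_fw {F : Type} [Field F] (W : WeierstrassCurve F) (M : Type) [Field M]
    [CharZero M] [Algebra F M] : ∃ (E : Type) (_ : Field E) (_ : Algebra M E) (_ : Algebra F E)
      (_ : IsScalarTower F M E) (s η : E) (σ : E ≃ₐ[M] E), Qd s η (TW W M) (NW W M) σ := by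
  obtain ⟨E, i1, i2, s, η, σ, h⟩ := exists_fw W M
  let : Algebra F E := ((algebraMap M E).comp (algebraMap F M)).toAlgebra
  exact ⟨E, i1, i2, inferInstance, IsScalarTower.of_algebraMap_eq fun _ => rfl, s, η, σ, h⟩

/-- **The key estimate.** Proof: `exists_fw` for `M = Ω`; `g = t(p ξ) = p t + t² c`, `c ∈ V` (`fg_nsmul`), has the value `t(p R) = 0` at the places of `key_plc` for `0` and for the `R ∈ s`
(`red_nsmul'`); `g = t ∏ (t - tp R) g'`, `g' ∈ V`, by induction with `key_dvd` (the numbers `0`, `tp R` are distinct, `fm_ext`). Divide by `t` and take the values at the place of `0`: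
`p = ∏ (- tp R) g'(0)`, `nm (g'(0)) ≤ 1`. -/
theorem key (hW : L.It W) (s : Finset (Pt W Ω))
    (hs : ∀ R ∈ s, L.Fm R ∧ R ≠ 0 ∧ L.p • R = 0) : L.nm (L.p : Ω) ≤ ∏ R ∈ s, L.nm (tp R) := by
  classical
  have hO : CharZero Ω := charZero_of_injective_algebraMap (algebraMap K Ω).injective
  have hcl : IsAlgClosed Ω := IsAlgClosure.isAlgClosed K
  obtain ⟨E, _, _, _, _, x, y, σ, h⟩ := key_fw W Ω
  obtain ⟨J, hJV, -, hCf, hFm⟩ := L.key_jr hW h
  have hTV : -x / y ∈ J.V := J.le _ hFm.2.1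
  obtain ⟨P, hP⟩ : ∃ P : Pn (W.baseChange E), P = gp h := ⟨_, rfl⟩
  have hFm' : J.Fm P := by
    rw [hP]
    exact hFm
  obtain ⟨-, c, hc, hns⟩ := fg_nsmul hCf hFm' L.p
  obtain ⟨T, hT⟩ : ∃ T : E, T = -x / y := ⟨_, rfl⟩
  obtain ⟨u, hu⟩ : ∃ u : E, u = (L.p : E) - (W.baseChange E).a₁ * (L.p.choose 2 : ℕ) * T +
    T ^ 2 * c := ⟨_, rfl⟩
  have huV : u ∈ J.V := by
    rw [hu, hT]
    exact add_mem (sub_mem (natCast_mem _ _) (mul_mem (mul_mem hCf.a₁ (natCast_mem _ _)) hTV))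
      (mul_mem (pow_mem hTV 2) hc)
  have hgt : P.t = T := by
    rw [hP, hT]
    rfl
  rw [hgt] at hns
  have hTu : (L.p • P).t = T * u := by
    rw [hns, hu]
    ring
  -- the value of `T u` at a place over a torsion point
  have hv0 : ∀ (v : Place Ω E Ω) (R : Pt W Ω), Pt.Red W v (gp h) R → L.p • R = 0 →
      (rsP v).Hv (T * u) 0 := by
    intro v R hR hp
    have r1 := red_nsmul' v hR L.p
    rw [hp] at r1
    have r2 := (rs_fm (rsP_cv v)).1 ((rsP_red v).1 r1)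
    have r3 : (rsP v).Hv (L.p • P).t 0 := by
      rw [hP]
      exact r2.2.1
    rwa [hTu] at r3
  have hva : ∀ (v : Place Ω E Ω) (a : Ω), (rsP v).Hv (algebraMap Ω E a) a := by
    intro v a
    exact ⟨v.mem a, v.res_k a⟩
  have claim : ∀ s' : Finset (Pt W Ω), s' ⊆ s →
      ∃ g ∈ J.V, u = (∏ R ∈ s', (T - algebraMap Ω E (tp R))) * g := by
    intro s'
    induction s' using Finset.induction_on with
    | empty =>
      intro _
      refine ⟨u, huV, ?_⟩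
      rw [Finset.prod_empty, one_mul]
    | insert R s' hR ih =>
      intro hsub
      obtain ⟨g, hg, e⟩ := ih fun a ha => hsub (Finset.mem_insert_of_mem ha)
      obtain ⟨hF, hR0, hpR⟩ := hs R (hsub (Finset.mem_insert_self R s'))
      obtain ⟨v, hred, hA, hI, hTm, hTe⟩ := L.key_plc hW h R hF
      have vT : (rsP v).Hv T (tp R) := by
        rw [hT]
        exact ⟨hTm, hTe⟩
      obtain ⟨r, hr, -⟩ := L.key_val hJV hA hI hg
      have vp := key_prod (w := rsP v) s' (fun R' => T - algebraMap Ω E (tp R'))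
        (fun R' => tp R - tp R') fun R' _ => vT.sub (hva v _)
      have h1 := vT.mul (vp.mul hr)
      rw [← e] at h1
      have h2 := h1.uniq (hv0 v R hred hpR)
      have h3 : tp R ≠ 0 := fun h0 => hR0 ((fm_tp_zero hW hF).1 h0)
      have h4 : ∏ R' ∈ s', (tp R - tp R') ≠ 0 := by
        rw [Finset.prod_ne_zero_iff]
        intro R' hR' h0
        have h5 := fm_ext hW hF (hs R' (hsub (Finset.mem_insert_of_mem hR'))).1 (sub_eq_zero.1 h0)
        rw [h5] at hR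
        exact hR hR'
      have h6 : r = 0 := by
        rcases mul_eq_zero.1 h2 with h7 | h7
        · exact absurd h7 h3
        · exact (mul_eq_zero.1 h7).resolve_left h4
      obtain ⟨hr1, hr2⟩ := hr
      obtain ⟨g', hg', e'⟩ := L.key_dvd hW h R hF hJV hred hg hr1 (hr2.trans h6)
      refine ⟨g', hg', ?_⟩
      rw [Finset.prod_insert hR, e, e', ← hT]
      ring
  obtain ⟨g, hg, e⟩ := claim s subset_rfl
  obtain ⟨v, hred, hA, hI, hTm, hTe⟩ := L.key_plc hW h 0 fm_zero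
  have ht0 : tp (0 : Pt W Ω) = 0 := rfl
  have vT : (rsP v).Hv T 0 := by
    rw [hT, ← ht0]
    exact ⟨hTm, hTe⟩
  obtain ⟨r, hr, hr1⟩ := L.key_val hJV hA hI hg
  obtain ⟨q, hq, -⟩ := L.key_val hJV hA hI hc
  have vu : (rsP v).Hv u (L.p : Ω) := by
    refine ((((Rs.Hv.nat L.p).sub (((rsP_cv v).a₁.mul (Rs.Hv.nat (L.p.choose 2))).mul vT)).add
      ((vT.pow 2).mul hq))).congr hu.symm ?_
    ring
  have vp := key_prod (w := rsP v) s (fun R' => T - algebraMap Ω E (tp R'))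
    (fun R' => 0 - tp R') fun R' _ => vT.sub (hva v _)
  have h1 := vp.mul hr
  rw [← e] at h1
  have h2 := vu.uniq h1
  rw [h2, L.mul, L.key_nmprod]
  have h3 : ∏ R ∈ s, L.nm (0 - tp R) = ∏ R ∈ s, L.nm (tp R) :=
    Finset.prod_congr rfl fun R _ => by rw [zero_sub, L.neg]
  rw [h3]
  exact mul_le_of_le_one_right (Finset.prod_nonneg fun R _ => L.nonneg _) hr1

end Ld

end PE
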