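import Pool.Agent.Lib.MP_f80667_ag.Pe.Lift
import Pool.Agent.Lib.MP_f80667_ag.Pe.Div

/-! The points `P` with `l P` in the formal group: auxiliary statements. -/

open ZC BE Polynomial IntermediateField

namespace PE

namespace Ld

section field

variable {K Ω : Type} [Field K] [CharZero K] [Field Ω] [Algebra K Ω] [IsAlgClosure K Ω] {L : Ld K Ω}

omit [CharZero K] in
/-- Infinitely many residues. -/
theorem lgB_inf (S : Finset Ω) : ∃ x : Ω, L.nm x ≤ 1 ∧ ∀ z ∈ S, ¬ L.nm (x - z) < 1 := by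
  classical
  have h0 : IsAlgClosed Ω := IsAlgClosure.isAlgClosed K
  have h1 : IsAlgClosed L.κ := L.κ_closed
  obtain ⟨r, hr⟩ := Infinite.exists_notMem_finset (S.image L.rr)
  obtain ⟨x, hx⟩ := L.hv_surj r
  refine ⟨x, L.hv_int hx, fun z hz hlt => hr ?_⟩
  have hz1 : L.nm z ≤ 1 := by
    have e : z = x - (x - z) := by ring
    rw [e]
    exact (L.sub _ _).trans (max_le (L.hv_int hx) hlt.le)
  rw [Finset.mem_image]
  exact ⟨z, hz, ((L.hv_sub hx (L.hv_rr hz1)).2 hlt).symm⟩

omit [CharZero K] [IsAlgClosure K Ω] in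
/-- The zeros of a polynomial modulo `m`. -/
theorem lgB_poly {P : Polynomial Ω} (h1 : ∀ i, L.nm (P.coeff i) ≤ 1) (h2 : ∃ i, L.nm (P.coeff i) = 1) :
    ∃ S : Finset Ω, ∀ x, L.nm x ≤ 1 → L.nm (P.eval x) < 1 → ∃ z ∈ S, L.nm (x - z) < 1 := by
  classical
  choose f hf using L.hv_surj
  let Q : Polynomial L.κ := ∑ i ∈ Finset.range (P.natDegree + 1), C (L.rr (P.coeff i)) * X ^ i
  have hQc : ∀ i ≤ P.natDegree, Q.coeff i = L.rr (P.coeff i) := by
    intro i hi
    simp only [Q, finset_sum_coeff, coeff_C_mul, coeff_X_pow, mul_ite, mul_one, mul_zero]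
    rw [Finset.sum_ite_eq]
    exact if_pos (Finset.mem_range.2 (by omega))
  have hQ : Q ≠ 0 := by
    obtain ⟨i, hi⟩ := h2
    intro hc
    have h3 : i ≤ P.natDegree := by
      by_contra h4
      rw [coeff_eq_zero_of_natDegree_lt (not_le.1 h4), L.zero] at hi
      exact zero_ne_one hi
    have h4 := hQc i h3
    rw [hc, coeff_zero] at h4
    exact (L.hv_ne (L.hv_rr (h1 i))).2 hi h4.symm
  have hev : ∀ (x : Ω) (r : L.κ), L.rs.Hv x r → L.rs.Hv (P.eval x) (Q.eval r) := by
    intro x r hx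
    rw [eval_eq_sum_range]
    simp only [Q, eval_finset_sum, eval_mul, eval_C, eval_pow, eval_X]
    have key : ∀ n : ℕ, L.rs.Hv (∑ i ∈ Finset.range n, P.coeff i * x ^ i)
        (∑ i ∈ Finset.range n, L.rr (P.coeff i) * r ^ i) := by
      intro n
      induction n with
      | zero =>
        rw [Finset.sum_range_zero, Finset.sum_range_zero]
        exact Rs.Hv.zero
      | succ n ih =>
        rw [Finset.sum_range_succ, Finset.sum_range_succ]
        exact ih.add ((L.hv_rr (h1 n)).mul (hx.pow n))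
    exact key _
  refine ⟨Q.roots.toFinset.image f, fun x hx hlt => ?_⟩
  have h3 := hev x _ (L.hv_rr hx)
  have h4 : Q.eval (L.rr x) = 0 := h3.uniq (L.hv_zero.2 hlt)
  refine ⟨f (L.rr x), ?_, ?_⟩
  · rw [Finset.mem_image]
    exact ⟨L.rr x, by
      rw [Multiset.mem_toFinset, mem_roots hQ]
      exact h4, rfl⟩
  · exact (L.hv_sub (L.hv_rr hx) (hf _)).1 rfl

omit [CharZero K] [IsAlgClosure K Ω] in
theorem lgB_eval {P : Polynomial Ω} (h1 : ∀ i, L.nm (P.coeff i) < 1) {x : Ω} (hx : L.nm x ≤ 1) :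
    L.nm (P.eval x) < 1 := by
  rw [eval_eq_sum_range]
  refine Finset.sum_induction _ (fun z => L.nm z < 1) (fun a b ha hb => ?_) ?_ fun i _ => ?_
  · exact lt_of_le_of_lt (L.add a b) (max_lt ha hb)
  · change L.nm 0 < 1
    rw [L.zero]
    exact zero_lt_one
  · change L.nm (P.coeff i * x ^ i) < 1
    rw [L.mul, L.pow]
    exact lt_of_le_of_lt (mul_le_of_le_one_right (L.nonneg _) (pow_le_one₀ (L.nonneg _) hx)) (h1 i)

theorem lgB_root {Ω : Type} [Field Ω] [IsAlgClosed Ω] (b c : Ω) : ∃ y : Ω, y ^ 2 + b * y = c := by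
  have hd : ((X : Polynomial Ω) ^ 2 + (C b * X - C c)).natDegree = 2 := by
    rw [natDegree_add_eq_left_of_natDegree_lt, natDegree_X_pow]
    rw [natDegree_X_pow]
    refine lt_of_le_of_lt (natDegree_sub_C).le ?_
    exact lt_of_le_of_lt ((natDegree_C_mul_le b X).trans natDegree_X_le) (by norm_num)
  obtain ⟨y, hy⟩ := IsAlgClosed.exists_root ((X : Polynomial Ω) ^ 2 + (C b * X - C c)) (by
    rw [degree_eq_natDegree (by intro h; rw [h] at hd; simp at hd), hd]
    norm_num)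
  refine ⟨y, ?_⟩
  simp only [IsRoot.def, eval_add, eval_sub, eval_mul, eval_pow, eval_X, eval_C] at hy
  linear_combination hy

omit [CharZero K] [IsAlgClosure K Ω] in
/-- Scaling. -/
theorem lgB_scale {U V : Polynomial Ω} (hU : U ≠ 0) : ∃ c : Ω, c ≠ 0 ∧
    (∀ i, L.nm ((C c * U).coeff i) ≤ 1) ∧ (∀ i, L.nm ((C c * V).coeff i) ≤ 1) ∧
      ((∃ i, L.nm ((C c * U).coeff i) = 1) ∨ ∃ i, L.nm ((C c * V).coeff i) = 1) := by
  classical
  let g : ℕ × Bool → Ω := fun i => if i.2 then U.coeff i.1 else V.coeff i.1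
  let N := max U.natDegree V.natDegree
  obtain ⟨m, -, hm⟩ := Finset.exists_max_image (Finset.range (N + 1) ×ˢ (Finset.univ : Finset Bool))
    (fun i => L.nm (g i)) ⟨(0, true), by simp⟩
  have hall : ∀ i, L.nm (g i) ≤ L.nm (g m) := by
    intro i
    by_cases hi : i.1 ≤ N
    · exact hm i (by simp; omega)
    · have h1 : g i = 0 := by
        simp only [g]
        split_ifs
        · exact coeff_eq_zero_of_natDegree_lt (by omega)
        · exact coeff_eq_zero_of_natDegree_lt (by omega)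
      rw [h1, L.zero]
      exact L.nonneg _
  have h0 : g m ≠ 0 := by
    intro hc
    have h1 := hall (U.natDegree, true)
    rw [hc, L.zero] at h1
    have h2 : g (U.natDegree, true) = U.leadingCoeff := rfl
    rw [h2] at h1
    exact absurd (L.pos (leadingCoeff_ne_zero.2 hU)) (not_lt.2 h1)
  have hp := L.pos h0
  refine ⟨(g m)⁻¹, inv_ne_zero h0, fun i => ?_, fun i => ?_, ?_⟩
  · rw [coeff_C_mul, L.mul, L.inv, inv_mul_le_iff₀ hp, mul_one]
    exact hall (i, true)
  · rw [coeff_C_mul, L.mul, L.inv, inv_mul_le_iff₀ hp, mul_one]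
    exact hall (i, false)
  · rcases hb : m.2 with _ | _
    · right
      refine ⟨m.1, ?_⟩
      have h1 : g m = V.coeff m.1 := by simp [g, hb]
      rw [coeff_C_mul, ← h1, inv_mul_cancel₀ h0, L.one]
    · left
      refine ⟨m.1, ?_⟩
      have h1 : g m = U.coeff m.1 := by simp [g, hb]
      rw [coeff_C_mul, ← h1, inv_mul_cancel₀ h0, L.one]

end field

variable {F : Type} [Field F] {K Ω : Type} [Field K] [CharZero K] [Field Ω] [Algebra K Ω]
  [Algebra F K] [Algebra F Ω] [IsScalarTower F K Ω] [IsAlgClosure K Ω] {L : Ld K Ω}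
  {W : WeierstrassCurve F} [W.IsElliptic]

/-- There are infinitely many classes of points. -/
theorem lgB_new (h : L.Gd W) (R : Finset (Pt W Ω)) : ∃ Q : Pt W Ω, ∀ Q' ∈ R, ¬ L.Cg Q Q' := by
  classical
  have hx : ∀ P : Pt W Ω, ∃ z : Ω, ∀ (x y : Ω)
      (hP : (W.baseChange Ω).toAffine.Nonsingular x y), P = Pt.aff x y hP → x = z := by
    intro P
    rcases Pt.cases' P with rfl | ⟨x, y, hP, rfl⟩
    · exact ⟨0, fun x y hP he =>
        absurd he.symm (WeierstrassCurve.Affine.Point.some_ne_zero (W' := (W.baseChange Ω).toAffine) _)⟩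
    · exact ⟨x, fun x' y' hP' he => ((WeierstrassCurve.Affine.Point.some.inj he).1).symm⟩
  choose xc hxc using hx
  obtain ⟨x, hx1, hx2⟩ := lgB_inf (L := L) (R.image xc)
  have h0 : IsAlgClosed Ω := IsAlgClosure.isAlgClosed K
  obtain ⟨y, hy⟩ := lgB_root (algebraMap F Ω W.a₁ * x + algebraMap F Ω W.a₃)
    (x ^ 3 + algebraMap F Ω W.a₂ * x ^ 2 + algebraMap F Ω W.a₄ * x + algebraMap F Ω W.a₆)
  have hfe : fe W x y = 0 := by
    unfold fe
    linear_combination hy
  have hP := aff_of_fe hfe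
  refine ⟨Pt.aff x y hP, fun Q hQ hc => ?_⟩
  rcases Pt.cases' Q with rfl | ⟨x', y', hP', rfl⟩
  · have h1 : L.Fm (Pt.aff x y hP : Pt W Ω) := by
      have h2 := hc
      unfold Cg at h2
      rwa [sub_zero] at h2
    exact absurd ((fm_aff h.toIt hP).1.1 h1) (not_lt.2 hx1)
  · have h1 := ((cg_aff h.toIt hP hP' hx1 (ns_good h _)).1 hc).1
    refine hx2 x' ?_ (by rw [L.sub_comm]; exact h1)
    rw [Finset.mem_image]
    exact ⟨_, hQ, (hxc _ x' y' hP' rfl).symm⟩

end Ld

end PE
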