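import Mathlib

/-! Torsion groups. -/

namespace PE

/-- The `m`-torsion is finite for all `m`. Proof: induction on the number of prime factors: multiplication by a prime `l` maps the
`l m`-torsion to the `m`-torsion with finite fibres. -/
theorem tor_fin {T : Type} [AddCommGroup T]
    (hf : ∀ l : ℕ, l.Prime → {x : T | l • x = 0}.Finite) (m : ℕ) (hm : m ≠ 0) :
    {x : T | m • x = 0}.Finite := by
  induction m using induction_on_primes with
  | zero => exact absurd rfl hm
  | one => exact (Set.finite_singleton (0 : T)).subset (fun x hx => by simpa using hx)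
  | prime_mul p a hp ih =>
    have ha : a ≠ 0 := fun h => hm (by rw [h, mul_zero])
    have h1 := ih ha
    have h2 : {x : T | (p * a) • x = 0} = (fun x : T => p • x) ⁻¹' {y : T | a • y = 0} := by
      ext x
      show (p * a) • x = 0 ↔ a • p • x = 0
      rw [mul_comm, mul_smul]
    rw [h2]
    refine h1.preimage' (fun b _ => ?_)
    by_cases hb : ∃ x0 : T, p • x0 = b
    · obtain ⟨x0, hx0⟩ := hb
      refine ((hf p hp).image (fun x => x + x0)).subset (fun x hx => ?_)
      have hx' : p • x = b := hx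
      exact ⟨x - x0, by
        show p • (x - x0) = 0
        rw [smul_sub, hx', hx0, sub_self], sub_add_cancel x x0⟩
    · exact Set.finite_empty.subset (fun x hx => hb ⟨x, hx⟩)

private theorem to_div {T : Type} [AddCommGroup T]
    (hd : ∀ l : ℕ, l.Prime → ∀ x : T, ∃ y, l • y = x) (m : ℕ) (hm : m ≠ 0) :
    ∀ x : T, ∃ y, m • y = x := by
  induction m using induction_on_primes with
  | zero => exact absurd rfl hm
  | one => exact fun x => ⟨x, one_smul _ x⟩
  | prime_mul p a hp ih =>
    intro x
    have ha : a ≠ 0 := fun h => hm (by rw [h, mul_zero])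
    obtain ⟨y, hy⟩ := hd p hp x
    obtain ⟨z, hz⟩ := ih ha y
    exact ⟨z, by rw [mul_smul, hz, hy]⟩

private theorem to_le {T : Type} [AddCommGroup T] (ψ : T →+ T) (hk : {x : T | ψ x = 0}.Finite)
    (n : ℕ) (hn : {x : T | n • x = 0}.Finite) (F : Finset (T ⧸ ψ.range))
    (hF : ∀ z ∈ F, ∃ x : T, n • x = 0 ∧ QuotientAddGroup.mk x = z) :
    F.card ≤ Nat.card ψ.ker := by
  let A : AddSubgroup T := (nsmulAddMonoidHom n : T →+ T).ker
  have hA : ∀ x : T, x ∈ A ↔ n • x = 0 := fun x => Iff.rfl
  have : Finite A := hn.to_subtype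
  have : Finite ψ.ker := hk.to_subtype
  let f : A →+ T ⧸ ψ.range := (QuotientAddGroup.mk' ψ.range).comp A.subtype
  let g : A →+ A := (ψ.comp A.subtype).codRestrict A (fun x => by
    rw [hA]
    show n • ψ x.1 = 0
    rw [← map_nsmul, (hA _).1 x.2, map_zero])
  have hgf : g.range ≤ f.ker := by
    rintro _ ⟨x, rfl⟩
    show QuotientAddGroup.mk (ψ x.1) = (0 : T ⧸ ψ.range)
    rw [QuotientAddGroup.eq_zero_iff]
    exact ⟨x.1, rfl⟩
  have h1 : Nat.card f.range * Nat.card f.ker = Nat.card A := by
    rw [mul_comm, ← AddSubgroup.card_mul_index f.ker, AddSubgroup.index_ker]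
  have h2 : Nat.card g.range * Nat.card g.ker = Nat.card A := by
    rw [mul_comm, ← AddSubgroup.card_mul_index g.ker, AddSubgroup.index_ker]
  have h3 : Nat.card g.range ≤ Nat.card f.ker :=
    Nat.card_le_card_of_injective (AddSubgroup.inclusion hgf) (AddSubgroup.inclusion_injective hgf)
  have h4 : Nat.card g.ker ≤ Nat.card ψ.ker := by
    refine Nat.card_le_card_of_injective (fun x : g.ker => (⟨x.1.1, ?_⟩ : ψ.ker)) ?_
    · have := congrArg Subtype.val (show g x.1 = 0 from x.2)
      exact this
    · intro x y hxy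
      apply Subtype.ext
      apply Subtype.ext
      exact congrArg (fun z : ψ.ker => z.1) hxy
  have h5 : 0 < Nat.card f.ker := Nat.card_pos
  have h6 : Nat.card f.range ≤ Nat.card g.ker := by
    by_contra hlt
    push Not at hlt
    have h7 : Nat.card f.ker * Nat.card g.ker < Nat.card f.range * Nat.card f.ker := by
      rw [mul_comm (Nat.card f.range)]
      exact Nat.mul_lt_mul_of_pos_left hlt h5
    have h8 : Nat.card g.range * Nat.card g.ker ≤ Nat.card f.ker * Nat.card g.ker :=
      Nat.mul_le_mul_right _ h3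
    omega
  have : Finite f.range := Finite.of_surjective f.rangeRestrict f.rangeRestrict_surjective
  have h9 : F.card ≤ Nat.card f.range := by
    rw [← Nat.card_eq_finsetCard F]
    refine Nat.card_le_card_of_injective (fun z : F => (⟨z.1, ?_⟩ : f.range)) ?_
    · obtain ⟨x, hx, hxz⟩ := hF z.1 z.2
      exact ⟨⟨x, hx⟩, hxz⟩
    · intro x y hxy
      apply Subtype.ext
      exact congrArg (fun z : f.range => z.1) hxy
  omega

/-- An endomorphism with finite kernel of a divisible torsion group with finite `l`-torsion for all primes `l` is surjective. Proof (compare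
`Be/TorA.lean`): let `D = T / ψ T`, `c = |ker ψ|`. The image of `T[n]` in `D` has at most `|T[n] / ψ T[n]| = |T[n] ∩ ker ψ| ≤ c`
elements. If `z ∉ ψ T`, `m z = 0`, `m > 1`: choose `z_j` with `m ^ j z_j = z`; it is in `T[m ^ (j + 1)]`; the image of `z_j` in `D` has an
order which divides `m ^ (j + 1)` and not `m ^ j`, so it is at least `2 ^ (j + 1)` (some prime occurs more than `j` times): contradiction for
`2 ^ (j + 1) > c`. -/
theorem tor_surj {T : Type} [AddCommGroup T] (ht : ∀ x : T, ∃ n : ℕ, n ≠ 0 ∧ n • x = 0)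
    (hd : ∀ l : ℕ, l.Prime → ∀ x : T, ∃ y, l • y = x)
    (hf : ∀ l : ℕ, l.Prime → {x : T | l • x = 0}.Finite) (ψ : T →+ T)
    (hk : {x : T | ψ x = 0}.Finite) : Function.Surjective ψ := by
  have hcard : ∀ F : Finset (T ⧸ ψ.range), F.card ≤ Nat.card ψ.ker := by
    intro F
    have hn : ∃ n : ℕ, n ≠ 0 ∧ ∀ z ∈ F, ∃ x : T, n • x = 0 ∧ QuotientAddGroup.mk x = z := by
      classical
      induction F using Finset.induction_on with
      | empty => exact ⟨1, one_ne_zero, fun z hz => absurd hz (Finset.notMem_empty z)⟩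
      | insert a F _ ih =>
        obtain ⟨n, hn, h⟩ := ih
        obtain ⟨x, hx⟩ := QuotientAddGroup.mk_surjective a
        obtain ⟨k, hk0, hkx⟩ := ht x
        refine ⟨n * k, mul_ne_zero hn hk0, fun z hz => ?_⟩
        rcases Finset.mem_insert.1 hz with rfl | hz
        · exact ⟨x, by rw [mul_smul, hkx, smul_zero], hx⟩
        · obtain ⟨y, hy, hyz⟩ := h z hz
          exact ⟨y, by rw [mul_comm, mul_smul, hy, smul_zero], hyz⟩
    obtain ⟨n, hn0, h⟩ := hn
    exact to_le ψ hk n (tor_fin hf n hn0) F h
  have hfin : Finite (T ⧸ ψ.range) := by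
    by_contra hinf
    rw [not_finite_iff_infinite] at hinf
    obtain ⟨F, hF⟩ := Infinite.exists_subset_card_eq (T ⧸ ψ.range) (Nat.card ψ.ker + 1)
    have := hcard F
    omega
  intro x
  have hN : Nat.card (T ⧸ ψ.range) ≠ 0 := Nat.card_pos.ne'
  obtain ⟨y, hy⟩ := to_div hd _ hN x
  have h1 : (QuotientAddGroup.mk x : T ⧸ ψ.range) = 0 := by
    rw [← hy, QuotientAddGroup.mk_nsmul]
    exact card_nsmul_eq_zero'
  rw [QuotientAddGroup.eq_zero_iff] at h1
  exact h1

end PE
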