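import Pool.Agent.Lib.MP_f80667_ag.Pe.Lift
import Pool.Agent.Lib.MP_f80667_ag.Pe.Div
import Pool.Agent.Lib.MP_f80667_ag.Pe.To
import Pool.Agent.Lib.MP_f80667_ag.Pe.LangB

/-! `φ ^ n - 1` is surjective modulo the formal group (good reduction). -/

open ZC BE Polynomial IntermediateField

namespace PE

namespace Ld

variable {F : Type} [Field F] {K Ω : Type} [Field K] [CharZero K] [Field Ω] [Algebra K Ω]
  [Algebra F K] [Algebra F Ω] [IsScalarTower F K Ω] [IsAlgClosure K Ω] {L : Ld K Ω}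
  {W : WeierstrassCurve F} [W.IsElliptic]

/-! ### Auxiliary lemmas for `cg_fin`, `cg_frob`, `cg_torsion` -/

/-- The points whose `x`-coordinate is congruent to `z` are in at most two classes. -/
private theorem lga_fin1 (h : L.Gd W) (T : Set (Pt W Ω)) (z : Ω)
    (hT : ∀ P ∈ T, ∃ (x y : Ω) (hP : (W.baseChange Ω).toAffine.Nonsingular x y),
      P = Pt.aff x y hP ∧ L.nm x ≤ 1 ∧ L.nm (x - z) < 1) :
    ∃ R : Finset (Pt W Ω), ∀ P ∈ T, ∃ Q ∈ R, L.Cg P Q := by
  classical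
  rcases T.eq_empty_or_nonempty with rfl | ⟨P₀, hP₀⟩
  · exact ⟨∅, fun P hP => absurd hP (Set.notMem_empty _)⟩
  obtain ⟨x₀, y₀, h₀, rfl, hx₀, hz₀⟩ := hT P₀ hP₀
  refine ⟨{Pt.aff x₀ y₀ h₀, -Pt.aff x₀ y₀ h₀}, fun P hP => ?_⟩
  obtain ⟨x, y, h₁, rfl, hx, hz⟩ := hT P hP
  have hy₀ := (ns_aff h.toIt h₀ hx₀).1
  have hy := (ns_aff h.toIt h₁ hx).1
  have hd : L.nm (x₀ - x) < 1 := by
    have e : x₀ - x = (x₀ - z) - (x - z) := by ring
    rw [e]
    exact (L.sub _ _).trans_lt (max_lt hz₀ hz)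
  have e₀ := fe_zero h₀
  have e₁ := fe_zero h₁
  unfold fe at e₀ e₁
  have key : (y₀ - y) * (y + y₀ + algebraMap F Ω W.a₁ * x + algebraMap F Ω W.a₃) =
      (x₀ - x) * (x ^ 2 + x * x₀ + x₀ ^ 2 + algebraMap F Ω W.a₂ * (x + x₀) +
        algebraMap F Ω W.a₄ - algebraMap F Ω W.a₁ * y₀) := by
    linear_combination e₀ - e₁
  have hc : L.nm (x ^ 2 + x * x₀ + x₀ ^ 2 + algebraMap F Ω W.a₂ * (x + x₀) +
        algebraMap F Ω W.a₄ - algebraMap F Ω W.a₁ * y₀) ≤ 1 := by
    have hx' : x ∈ L.V := hx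
    have hx₀' : x₀ ∈ L.V := hx₀
    have hy₀' : y₀ ∈ L.V := hy₀
    have a₁' : algebraMap F Ω W.a₁ ∈ L.V := h.a₁
    have a₂' : algebraMap F Ω W.a₂ ∈ L.V := h.a₂
    have a₄' : algebraMap F Ω W.a₄ ∈ L.V := h.a₄
    exact sub_mem (add_mem (add_mem (add_mem (add_mem (pow_mem hx' 2) (mul_mem hx' hx₀'))
      (pow_mem hx₀' 2)) (mul_mem a₂' (add_mem hx' hx₀'))) a₄') (mul_mem a₁' hy₀')
  have hlt : L.nm (y₀ - y) * L.nm (y + y₀ + algebraMap F Ω W.a₁ * x + algebraMap F Ω W.a₃) < 1 := by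
    rw [← L.mul, key, L.mul]
    exact mul_lt_one_of_nonneg_of_lt_one_left (L.nonneg _) hd hc
  have hor : L.nm (y₀ - y) < 1 ∨
      L.nm (y + y₀ + algebraMap F Ω W.a₁ * x + algebraMap F Ω W.a₃) < 1 := by
    by_contra hcon
    push Not at hcon
    exact absurd (one_le_mul_of_one_le_of_one_le hcon.1 hcon.2) (not_le.2 hlt)
  rcases hor with h2 | h2
  · refine ⟨Pt.aff x₀ y₀ h₀, Finset.mem_insert_self _ _, ?_⟩
    exact (cg_aff h.toIt h₁ h₀ hx (ns_good h _)).2 ⟨hd, h2⟩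
  · obtain ⟨h₀', e⟩ := Pn.neg_aff (W := W.baseChange Ω) h₀
    refine ⟨-Pt.aff x₀ y₀ h₀, Finset.mem_insert_of_mem (Finset.mem_singleton_self _), ?_⟩
    have e' : -(Pt.aff x₀ y₀ h₀ : Pt W Ω) = Pt.aff x₀ _ h₀' := e
    rw [e']
    refine (cg_aff h.toIt h₁ h₀' hx (ns_good h _)).2 ⟨hd, ?_⟩
    have e2 : -y₀ - (W.baseChange Ω).a₁ * x₀ - (W.baseChange Ω).a₃ - y =
        -(y + y₀ + algebraMap F Ω W.a₁ * x + algebraMap F Ω W.a₃) -
          algebraMap F Ω W.a₁ * (x₀ - x) := by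
      change -y₀ - algebraMap F Ω W.a₁ * x₀ - algebraMap F Ω W.a₃ - y = _
      ring
    rw [e2]
    refine (L.sub _ _).trans_lt (max_lt ?_ ?_)
    · rwa [L.neg]
    · rw [L.mul]
      exact mul_lt_one_of_nonneg_of_lt_one_right h.a₁ (L.nonneg _) hd

/-- Finitely many residues: if the points of a set have their coordinates modulo `m` in a finite set, they are in finitely many classes. -/
theorem cg_fin (h : L.Gd W) (T : Set (Pt W Ω)) (S : Finset Ω)
    (hT : ∀ P ∈ T, L.Fm P ∨ ∃ (x y : Ω) (hP : (W.baseChange Ω).toAffine.Nonsingular x y),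
      P = Pt.aff x y hP ∧ ∃ z ∈ S, L.nm (x - z) < 1) :
    ∃ R : Finset (Pt W Ω), ∀ P ∈ T, ∃ Q ∈ R, L.Cg P Q := by
  classical
  have key : ∀ z : Ω, ∃ R : Finset (Pt W Ω), ∀ P ∈ T,
      (∃ (x y : Ω) (hP : (W.baseChange Ω).toAffine.Nonsingular x y),
        P = Pt.aff x y hP ∧ L.nm x ≤ 1 ∧ L.nm (x - z) < 1) → ∃ Q ∈ R, L.Cg P Q := by
    intro z
    obtain ⟨R, hR⟩ := lga_fin1 h {P | P ∈ T ∧
      ∃ (x y : Ω) (hP : (W.baseChange Ω).toAffine.Nonsingular x y),
        P = Pt.aff x y hP ∧ L.nm x ≤ 1 ∧ L.nm (x - z) < 1} z (fun P hP => hP.2)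
    exact ⟨R, fun P hP hP' => hR P ⟨hP, hP'⟩⟩
  choose R hR using key
  refine ⟨insert 0 (S.biUnion R), fun P hP => ?_⟩
  rcases hT P hP with h0 | ⟨x, y, hxy, rfl, z, hz, hxz⟩
  · refine ⟨0, Finset.mem_insert_self _ _, ?_⟩
    unfold Cg
    rwa [sub_zero]
  · by_cases hx : L.nm x ≤ 1
    · obtain ⟨Q, hQ, hQ'⟩ := hR z _ hP ⟨x, y, hxy, rfl, hx, hxz⟩
      exact ⟨Q, Finset.mem_insert_of_mem (Finset.mem_biUnion.2 ⟨z, hz, hQ⟩), hQ'⟩
    · refine ⟨0, Finset.mem_insert_self _ _, ?_⟩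
      unfold Cg
      rw [sub_zero]
      exact ((fm_aff h.toIt hxy).1).2 (not_le.1 hx)

/-- The points `P` with `l P` in the formal group. Proof: `div_xn` with `U`, `V` scaled such that the maximal norm of their coefficients is `1`. If some
coefficient of `V` is a unit: for `P = (x, y)` with `nm x ≤ 1`, `l P` in the formal group one has `nm V(x) < 1`, so `x` is modulo `m` a root of the reduction of `V`; `cg_fin`. If all
coefficients of `V` have norm `< 1`: then `l P` is in the formal group for all `P` outside finitely many classes (the roots of the reduction of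
`U`), hence for all `P` (every `P` is the difference of two points outside: there are infinitely many classes), contradiction to
`div'` (not all points are in the formal group). -/
theorem cg_tor (h : L.Gd W) (l : ℕ) (hl : l ≠ 0) :
    ∃ R : Finset (Pt W Ω), ∀ P : Pt W Ω, L.Fm (l • P) → ∃ Q ∈ R, L.Cg P Q := by
  classical
  have h00 : IsAlgClosed Ω := IsAlgClosure.isAlgClosed K
  have hchar : CharZero Ω := charZero_of_injective_algebraMap (algebraMap K Ω).injective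
  obtain ⟨U₀, V₀, -, hdeg, hUV⟩ := div_xn (W := W) (Ω := Ω) l hl
  have hU0 : U₀ ≠ 0 := by
    rintro rfl
    rw [natDegree_zero] at hdeg
    omega
  obtain ⟨c, hc0, hU, hV, hone⟩ := lgB_scale (L := L) (V := V₀) hU0
  have key : ∀ (x y : Ω) (hP : (W.baseChange Ω).toAffine.Nonsingular x y), L.nm x ≤ 1 →
      (L.Fm (l • (Pt.aff x y hP : Pt W Ω)) → L.nm ((C c * V₀).eval x) < 1) ∧
      (L.nm ((C c * V₀).eval x) < 1 → L.nm ((C c * U₀).eval x) = 1 →
        L.Fm (l • (Pt.aff x y hP : Pt W Ω))) := by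
    intro x y hP hx
    obtain ⟨k1, k2⟩ := hUV x y hP
    have hVx : (C c * V₀).eval x = c * V₀.eval x := by rw [eval_mul, eval_C]
    have hUx : (C c * U₀).eval x = c * U₀.eval x := by rw [eval_mul, eval_C]
    by_cases hv : V₀.eval x = 0
    · refine ⟨fun _ => ?_, fun _ _ => ?_⟩
      · rw [hVx, hv, mul_zero, L.zero]
        exact zero_lt_one
      · rw [k1 hv]
        exact fm_zero
    · obtain ⟨y', h', he⟩ := k2 hv
      have hv' : 0 < L.nm ((C c * V₀).eval x) := by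
        rw [hVx]
        exact L.pos (mul_ne_zero hc0 hv)
      have hq : L.nm (U₀.eval x / V₀.eval x) =
          L.nm ((C c * U₀).eval x) / L.nm ((C c * V₀).eval x) := by
        rw [← L.div, hUx, hVx, mul_div_mul_left _ _ hc0]
      rw [he, (fm_aff h.toIt h').1, hq, one_lt_div hv']
      refine ⟨fun h1 => lt_of_lt_of_le h1 (L.eval_le hU hx), fun h1 h2 => ?_⟩
      rw [h2]
      exact h1
  by_cases hVone : ∃ i, L.nm ((C c * V₀).coeff i) = 1
  · obtain ⟨S, hS⟩ := lgB_poly hV hVone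
    obtain ⟨R, hR⟩ := cg_fin h {P : Pt W Ω | L.Fm (l • P)} S (by
      intro P hP
      rcases Pt.cases' P with rfl | ⟨x, y, hP', rfl⟩
      · exact Or.inl fm_zero
      by_cases hx : L.nm x ≤ 1
      · exact Or.inr ⟨x, y, hP', rfl, hS x hx ((key x y hP' hx).1 hP)⟩
      · exact Or.inl ((fm_aff h.toIt hP').1.2 (not_le.1 hx)))
    exact ⟨R, fun P hP => hR P hP⟩
  · have hUone := hone.resolve_right hVone
    have hVlt : ∀ i, L.nm ((C c * V₀).coeff i) < 1 :=
      fun i => lt_of_le_of_ne (hV i) fun hc => hVone ⟨i, hc⟩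
    obtain ⟨S, hS⟩ := lgB_poly hU hUone
    obtain ⟨R, hR⟩ := cg_fin h {P : Pt W Ω | ¬ L.Fm (l • P)} S (by
      intro P hP
      rcases Pt.cases' P with rfl | ⟨x, y, hP', rfl⟩
      · exact Or.inl fm_zero
      by_cases hx : L.nm x ≤ 1
      · have h1 := lgB_eval hVlt hx
        have h2 : L.nm ((C c * U₀).eval x) < 1 :=
          lt_of_le_of_ne (L.eval_le hU hx) fun hc => hP ((key x y hP' hx).2 h1 hc)
        exact Or.inr ⟨x, y, hP', rfl, hS x hx h2⟩
      · exact Or.inl ((fm_aff h.toIt hP').1.2 (not_le.1 hx)))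
    exfalso
    have hall : ∀ P : Pt W Ω, L.Fm (l • P) := by
      intro P
      by_contra hP
      obtain ⟨Q, hQ⟩ := lgB_new h (R ∪ R.image fun Q => P - Q)
      by_cases hQ1 : L.Fm (l • Q)
      · have hQ2 : ¬ L.Fm (l • (P - Q)) := by
          intro hc
          apply hP
          have h1 := (fm_add h.toIt hc hQ1).1
          rwa [← smul_add, sub_add_cancel] at h1
        obtain ⟨Q', hQ', hc⟩ := hR (P - Q) hQ2
        refine hQ (P - Q') (Finset.mem_union_right _ (Finset.mem_image_of_mem _ hQ')) ?_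
        have h1 := (fm_neg h.toIt hc).1
        have h2 : -(P - Q - Q') = Q - (P - Q') := by abel
        rw [h2] at h1
        exact h1
      · obtain ⟨Q', hQ', hc⟩ := hR Q hQ1
        exact hQ Q' (Finset.mem_union_left _ hQ') hc
    obtain ⟨Q, hQ⟩ := lgB_new (L := L) (W := W) h {0}
    obtain ⟨Q', rfl⟩ := div' (W := W) (Ω := Ω) l hl Q
    refine hQ 0 (Finset.mem_singleton_self _) ?_
    unfold Cg
    rw [sub_zero]
    exact hall Q'

/-- The iterates of the Frobenius automorphism on the residues. -/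
private theorem lga_iter {M : IntermediateField K Ω} {φ : Ω ≃ₐ[K] Ω} {q : ℕ}
    (hφ : Frob L.toLf M φ q) (n : ℕ) :
    ∀ {x : Ω}, L.nm x ≤ 1 → L.nm ((φ ^ n) x - x ^ q ^ n) < 1 := by
  induction n with
  | zero =>
    intro x _
    rw [pow_zero, pow_zero, pow_one, AlgEquiv.one_apply, sub_self, L.zero]
    exact zero_lt_one
  | succ n ih =>
    intro x hx
    have e : (φ ^ (n + 1)) x - x ^ q ^ (n + 1) =
        (φ ^ n) (φ x - x ^ q) + ((φ ^ n) (x ^ q) - (x ^ q) ^ q ^ n) := by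
      rw [pow_succ, AlgEquiv.mul_apply, map_sub, ← pow_mul x, pow_succ' q]
      ring
    rw [e]
    refine (L.add _ _).trans_lt (max_lt ?_ (ih ?_))
    · rw [L.act]
      exact hφ.frob x hx
    · exact pow_mem (show x ∈ L.V from hx) q

/-- If the value of a monic polynomial is in the maximal ideal, then a root is congruent to the argument. -/
private theorem lga_root [DecidableEq Ω] {f : Polynomial Ω} (hf : f.Monic) {x : Ω}
    (hx : L.nm (f.eval x) < 1) :
    ∃ z ∈ f.roots.toFinset, L.nm (x - z) < 1 := by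
  have hac : IsAlgClosed Ω := IsAlgClosure.isAlgClosed K
  by_contra hcon
  push Not at hcon
  have h1 : f = (f.roots.map fun a => X - C a).prod :=
    (IsAlgClosed.splits f).eq_prod_roots_of_monic hf
  have h2 : ∀ s : Multiset Ω, (∀ z ∈ s, 1 ≤ L.nm (x - z)) →
      1 ≤ L.nm ((s.map fun a => X - C a).prod.eval x) := by
    intro s
    induction s using Multiset.induction_on with
    | empty =>
      intro _
      rw [Multiset.map_zero, Multiset.prod_zero, eval_one, L.one]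
    | cons a s ih =>
      intro hs
      rw [Multiset.map_cons, Multiset.prod_cons, eval_mul, L.mul, eval_sub, eval_X, eval_C]
      exact one_le_mul_of_one_le_of_one_le (hs a (Multiset.mem_cons_self a s))
        (ih fun z hz => hs z (Multiset.mem_cons_of_mem hz))
  have h3 := h2 f.roots fun z hz => hcon z (Multiset.mem_toFinset.2 hz)
  rw [← h1] at h3
  exact absurd h3 (not_le.2 hx)

/-- The points `P` congruent to `φ ^ n P`: the residues satisfy `r ^ (q ^ n) = r`; `cg_fin`. -/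
theorem cg_frob (h : L.Gd W) {M : IntermediateField K Ω} [FiniteDimensional K M]
    {φ : Ω ≃ₐ[K] Ω} {q : ℕ} (hφ : Frob L.toLf M φ q) (n : ℕ) (hn : n ≠ 0) :
    ∃ R : Finset (Pt W Ω), ∀ P : Pt W Ω, L.Cg ((φ ^ n) • P) P → ∃ Q ∈ R, L.Cg P Q := by
  classical
  have hac : IsAlgClosed Ω := IsAlgClosure.isAlgClosed K
  have hq : 1 < q ^ n := Nat.one_lt_pow hn hφ.one_lt
  have hm : (X ^ (q ^ n) - X : Polynomial Ω).Monic := by
    refine monic_X_pow_sub ?_
    rw [degree_X]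
    exact_mod_cast hq
  obtain ⟨R, hR⟩ := cg_fin h {P : Pt W Ω | L.Cg ((φ ^ n) • P) P}
    (X ^ (q ^ n) - X : Polynomial Ω).roots.toFinset (fun P hP => by
      rcases Pt.cases' P with rfl | ⟨x, y, hxy, rfl⟩
      · exact Or.inl fm_zero
      by_cases hx : 1 < L.nm x
      · exact Or.inl ((fm_aff h.toIt hxy).1.2 hx)
      push Not at hx
      refine Or.inr ⟨x, y, hxy, rfl, ?_⟩
      obtain ⟨h', e⟩ := act_aff (φ ^ n) hxy
      have hP' : L.Cg ((φ ^ n) • (Pt.aff x y hxy : Pt W Ω)) (Pt.aff x y hxy) := hP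
      rw [e] at hP'
      have h1 := ((cg_aff h.toIt h' hxy (by rw [L.act]; exact hx) (ns_good h _)).1 hP').1
      have h2 := lga_iter hφ n hx
      have h3 : L.nm ((X ^ (q ^ n) - X : Polynomial Ω).eval x) < 1 := by
        rw [eval_sub, eval_pow, eval_X]
        have e1 : x ^ q ^ n - x = -((φ ^ n) x - x ^ q ^ n) - (x - (φ ^ n) x) := by ring
        rw [e1]
        refine (L.sub _ _).trans_lt (max_lt ?_ h1)
        rwa [L.neg]
      exact lga_root hm h3)
  exact ⟨R, fun P hP => hR P hP⟩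

/-- Torsion: `n P` is in the formal group for some `n ≠ 0`. Proof: the residues of the coordinates of `P` satisfy `r ^ (q ^ n) = r` for some `n` (`te_rep`, `frob_q`), so
`φ ^ n P` is congruent to `P`, and the same is true for the multiples of `P`; two of them are congruent by `cg_frob`. -/
theorem cg_torsion (h : L.Gd W) (P : Pt W Ω) : ∃ n ≠ 0, L.Fm (n • P) := by
  classical
  rcases Pt.cases' P with rfl | ⟨x, y, hxy, rfl⟩
  · exact ⟨1, one_ne_zero, by rw [smul_zero]; exact fm_zero⟩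
  by_cases hx : 1 < L.nm x
  · exact ⟨1, one_ne_zero, by rw [one_smul]; exact (fm_aff h.toIt hxy).1.2 hx⟩
  push Not at hx
  have hy := (ns_aff h.toIt hxy hx).1
  obtain ⟨N, hN, z, hz, hxz⟩ := te_rep hx
  obtain ⟨N', hN', z', hz', hyz⟩ := te_rep hy
  obtain ⟨φ, q, hφ⟩ := exists_frob L.toLf (⊥ : IntermediateField K Ω)
  obtain ⟨f, hf, hq, hfr⟩ := frob_q hφ
  have hit : ∀ (N : ℕ), N ≠ 0 → ∀ z ∈ L.Te N, ∀ i : ℕ, (φ ^ i) z = z ^ q ^ i := by
    intro N hN z hz i
    induction i with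
    | zero => rw [pow_zero, pow_zero, pow_one, AlgEquiv.one_apply]
    | succ i ih => rw [pow_succ, AlgEquiv.mul_apply, hfr N hN z hz, map_pow, ih, ← pow_mul,
        ← pow_succ]
  have hfix : ∀ (N : ℕ), N ≠ 0 → ∀ z ∈ L.Te N, ∀ i : ℕ, N ∣ i → (φ ^ i) z = z := by
    intro N hN z hz i hi
    rw [hit N hN z hz i, hq, ← pow_mul]
    exact te_dvd (dvd_mul_of_dvd_right hi f) hz
  have hcong : ∀ {x z : Ω} {N : ℕ}, N ≠ 0 → z ∈ L.Te N → L.nm (x - z) < 1 → ∀ i, N ∣ i →
      L.nm (x - (φ ^ i) x) < 1 := by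
    intro x z N hN hz hxz i hi
    have e : x - (φ ^ i) x = (x - z) - (φ ^ i) (x - z) := by
      rw [map_sub, hfix N hN z hz i hi]
      ring
    rw [e]
    refine (L.sub _ _).trans_lt (max_lt hxz ?_)
    rwa [L.act]
  have hn : N * N' ≠ 0 := mul_ne_zero hN hN'
  obtain ⟨h', e⟩ := act_aff (φ ^ (N * N')) hxy
  have hP : L.Cg ((φ ^ (N * N')) • (Pt.aff x y hxy : Pt W Ω)) (Pt.aff x y hxy) := by
    rw [e]
    exact (cg_aff h.toIt h' hxy (by rw [L.act]; exact hx) (ns_good h _)).2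
      ⟨hcong hN hz hxz _ (dvd_mul_right N N'), hcong hN' hz' hyz _ (dvd_mul_left N' N)⟩
  obtain ⟨R, hR⟩ := cg_frob h hφ (N * N') hn
  have hk : ∀ k : ℕ, ∃ Q ∈ R, L.Cg (k • (Pt.aff x y hxy : Pt W Ω)) Q := by
    intro k
    refine hR _ ?_
    unfold Cg at hP ⊢
    rw [smul_comm, ← smul_sub]
    exact (fm_nsmul h.toIt hP k).1
  choose g hg hg' using hk
  obtain ⟨k, k', hne, he⟩ := Finite.exists_ne_map_eq_of_infinite (fun k => (⟨g k, hg k⟩ : R))
  have he' : g k = g k' := congrArg Subtype.val he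
  have hlt : ∀ {k k' : ℕ}, k < k' → g k = g k' →
      ∃ n ≠ 0, L.Fm (n • (Pt.aff x y hxy : Pt W Ω)) := by
    intro k k' hkk he
    refine ⟨k' - k, by omega, ?_⟩
    have h1 := cg_trans h.toIt (hg' k') (cg_symm h.toIt (he ▸ hg' k))
    unfold Cg at h1
    have e2 : k' • (Pt.aff x y hxy : Pt W Ω) - k • (Pt.aff x y hxy : Pt W Ω) =
        (k' - k) • (Pt.aff x y hxy : Pt W Ω) := by
      rw [sub_eq_iff_eq_add, ← add_smul, Nat.sub_add_cancel hkk.le]
    rwa [e2] at h1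
  rcases lt_or_gt_of_ne hne with h1 | h1
  · exact hlt h1 he'
  · exact hlt h1 he'.symm

/-- **Lang's theorem.** Proof: `tor_surj` for the quotient group of `Pt W Ω` by the subgroup of the points of the formal group, `ψ = φ ^ n - 1`. -/
theorem lang (h : L.Gd W) {M : IntermediateField K Ω} [FiniteDimensional K M]
    {φ : Ω ≃ₐ[K] Ω} {q : ℕ} (hφ : Frob L.toLf M φ q) (n : ℕ) (hn : n ≠ 0) (b : Pt W Ω) :
    ∃ c : Pt W Ω, L.Cg ((φ ^ n) • c - c) b := by
  have : CharZero Ω := charZero_of_injective_algebraMap (algebraMap K Ω).injective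
  have : IsAlgClosed Ω := IsAlgClosure.isAlgClosed K
  have hI : L.It W := h.toIt
  let A : AddSubgroup (Pt W Ω) :=
    { carrier := {P | L.Fm P}
      zero_mem' := fm_zero
      add_mem' := fun {P Q} hP hQ => (fm_add hI hP hQ).1
      neg_mem' := fun {P} hP => (fm_neg hI hP).1 }
  let g : Pt W Ω →+ Pt W Ω :=
    DistribSMul.toAddMonoidHom (Pt W Ω) (φ ^ n) - AddMonoidHom.id (Pt W Ω)
  have hg : ∀ P, g P = (φ ^ n) • P - P := fun P => rfl
  let ψ : Pt W Ω ⧸ A →+ Pt W Ω ⧸ A := QuotientAddGroup.map A A g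
    (fun P hP => (fm_sub hI (fm_act _ hP) hP).1)
  have hψ : ∀ P : Pt W Ω, ψ (QuotientAddGroup.mk P) = QuotientAddGroup.mk (g P) := fun P => rfl
  have hmk : ∀ P Q : Pt W Ω, L.Cg P Q →
      (QuotientAddGroup.mk P : Pt W Ω ⧸ A) = QuotientAddGroup.mk Q := by
    intro P Q hPQ
    rw [QuotientAddGroup.eq]
    have h1 : L.Fm (-(P - Q)) := (fm_neg hI hPQ).1
    have h2 : -(P - Q) = -P + Q := by abel
    rw [h2] at h1
    exact h1
  have hfin : ∀ (S : Set (Pt W Ω ⧸ A)) (R : Finset (Pt W Ω)),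
      (∀ P : Pt W Ω, (QuotientAddGroup.mk P : Pt W Ω ⧸ A) ∈ S → ∃ Q ∈ R, L.Cg P Q) →
      S.Finite := by
    intro S R hR
    refine (R.finite_toSet.image (QuotientAddGroup.mk : Pt W Ω → Pt W Ω ⧸ A)).subset ?_
    intro x hx
    obtain ⟨P, rfl⟩ := QuotientAddGroup.mk_surjective x
    obtain ⟨Q, hQ, hc⟩ := hR P hx
    exact ⟨Q, hQ, (hmk P Q hc).symm⟩
  have hsurj : Function.Surjective ψ := by
    refine tor_surj ?_ ?_ ?_ ψ ?_
    · intro x
      obtain ⟨P, rfl⟩ := QuotientAddGroup.mk_surjective x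
      obtain ⟨m, hm, hP⟩ := cg_torsion h P
      refine ⟨m, hm, ?_⟩
      rw [← QuotientAddGroup.mk_nsmul, QuotientAddGroup.eq_zero_iff]
      exact hP
    · intro l hl x
      obtain ⟨P, rfl⟩ := QuotientAddGroup.mk_surjective x
      obtain ⟨Q, hQ⟩ := div' l hl.ne_zero P
      exact ⟨QuotientAddGroup.mk Q, by rw [← QuotientAddGroup.mk_nsmul, hQ]⟩
    · intro l hl
      obtain ⟨R, hR⟩ := cg_tor h l hl.ne_zero
      refine hfin _ R fun P hP => hR P ?_
      have h1 : l • (QuotientAddGroup.mk P : Pt W Ω ⧸ A) = 0 := hP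
      rw [← QuotientAddGroup.mk_nsmul, QuotientAddGroup.eq_zero_iff] at h1
      exact h1
    · obtain ⟨R, hR⟩ := cg_frob h hφ n hn
      refine hfin _ R fun P hP => hR P ?_
      have h1 : ψ (QuotientAddGroup.mk P) = 0 := hP
      rw [hψ, QuotientAddGroup.eq_zero_iff] at h1
      exact h1
  obtain ⟨z, hz⟩ := hsurj (QuotientAddGroup.mk b)
  obtain ⟨c, rfl⟩ := QuotientAddGroup.mk_surjective z
  refine ⟨c, ?_⟩
  rw [hψ, QuotientAddGroup.eq] at hz
  have h2 : L.Fm (-(-(g c) + b)) := (fm_neg hI hz).1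
  have h3 : -(-(g c) + b) = g c - b := by abel
  rw [h3, hg] at h2
  exact h2

end Ld

end PE
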