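import Pool.Agent.Lib.MP_f80667_ag.Pe.Pha
import Pool.Agent.Lib.MP_f80667_ag.Pe.Ram
import Pool.Agent.Lib.MP_f80667_ag.Pe.Cp

/-! The order of the points in the component group. -/

open ZC BE Polynomial IntermediateField

namespace PE

namespace Ld

variable {F : Type} [Field F] {K Ω : Type} [Field K] [CharZero K] [Field Ω] [Algebra K Ω]
  [Algebra F K] [Algebra F Ω] [IsScalarTower F K Ω] [IsAlgClosure K Ω] {L : Ld K Ω}
  {W : WeierstrassCurve F}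

omit [CharZero K] [IsAlgClosure K Ω] in
/-- Multiples of a point with nonsingular reduction. -/
private theorem phb_zs (h : L.It W) {Q : Pt W Ω} (hQ : L.Ns Q) (b : ℤ) : L.Ns (b • Q) := by
  have h1 : ∀ m : ℕ, L.Ns (m • Q) := by
    intro m
    induction m with
    | zero =>
      rw [zero_smul]
      exact ns_fm h fm_zero
    | succ m ih =>
      rw [succ_nsmul]
      exact ns_add h ih hQ
  rcases Int.eq_nat_or_neg b with ⟨m, rfl | rfl⟩
  · rw [natCast_zsmul]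
    exact h1 m
  · rw [neg_smul, natCast_zsmul]
    exact ns_neg h (h1 m)

omit [CharZero K] [IsAlgClosure K Ω] in
private theorem phb_ns (h : L.It W) {Q : Pt W Ω} (hQ : L.Ns Q) (m : ℕ) : L.Ns (m • Q) := by
  rw [← natCast_zsmul]
  exact phb_zs h hQ m

/-- The values of `Ur ⊥ N`. -/
private theorem phb_val {π : Ω} (hπ : L.Un ⊥ π) {N : ℕ} (hN : N ≠ 0) (x : Ω)
    (hx : x ∈ L.Ur ⊥ N) (hx0 : x ≠ 0) : ∃ n : ℤ, L.nm x = L.nm π ^ n := by
  obtain ⟨φ, q, hφ⟩ := exists_frob L.toLf (⊥ : IntermediateField K Ω)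
  obtain ⟨f, hf, hq, -⟩ := frob_q hφ
  rw [hq] at hφ
  have hx' : x ∈ L.Ur ⊥ (f * N) := ur_dvd ⊥ (dvd_mul_left N f) hx
  obtain ⟨y, hy, hyx⟩ := ur_val hφ hf hN hx'
  have hy0 : y ≠ 0 := by
    rintro rfl
    rw [L.zero] at hyx
    exact (L.pos hx0).ne hyx
  obtain ⟨n, hn⟩ := hπ.val y hy hy0
  exact ⟨n, by rw [← hyx, hn]⟩

/-- A point such that both coordinates have the same norm. -/
private theorem phb_sym {x₀ y₀ α β : Ω} (hc : L.Nc W x₀ y₀ α β) {r : ℝ} {Q : Pt W Ω}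
    (hQ : L.La W x₀ y₀ α β r Q) (hf : L.nm (fe W x₀ y₀) = r ^ 2) :
    L.La W x₀ y₀ α β r (-Q) := by
  have hr0 : 0 < r := la_pos hc hQ
  obtain ⟨x, y, hP, rfl, hx, h1, hu, hv⟩ := hQ
  obtain ⟨h3, h4⟩ := Pn.neg_aff (W := W.baseChange Ω) hP
  have hX : L.nm (x - x₀) ≤ r := by
    have h5 : (α - β) * (x - x₀) = nu x₀ y₀ β x y - nu x₀ y₀ α x y := by
      unfold nu
      ring
    have h6 := congrArg L.nm h5
    rw [L.mul, hc.ne, one_mul] at h6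
    rw [h6]
    exact (L.sub _ _).trans (max_le hv hu.le)
  have hX3 : L.nm ((x - x₀) ^ 3) < r ^ 2 := by
    rw [L.pow]
    exact (pow_le_pow_left₀ (L.nonneg _) hX 3).trans_lt
      (pow_lt_pow_right_of_lt_one₀ hr0 h1 (by norm_num))
  have he := nc_eq hc x y
  rw [fe_zero hP, add_zero] at he
  have hv1 : L.nm (nu x₀ y₀ β x y) = r := by
    have h5 := congrArg L.nm he
    rw [L.mul, hu] at h5
    have h6 : L.nm ((x - x₀) ^ 3 - fe W x₀ y₀ - -fe W x₀ y₀) < L.nm (-fe W x₀ y₀) := by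
      rw [L.neg, hf, sub_neg_eq_add, sub_add_cancel]
      exact hX3
    rw [L.eq_of_close h6, L.neg, hf, sq] at h5
    exact mul_left_cancel₀ hr0.ne' h5
  have hneg : ∀ y' : Ω, y' = -y - algebraMap F Ω W.a₁ * x - algebraMap F Ω W.a₃ →
      nu x₀ y₀ α x y' = -nu x₀ y₀ β x y ∧ nu x₀ y₀ β x y' = -nu x₀ y₀ α x y := by
    rintro y' rfl
    have h7 := hc.dy
    have h8 := hc.add
    unfold dy at h7
    unfold nu
    constructor
    · linear_combination -h7 - (x - x₀) * h8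
    · linear_combination -h7 - (x - x₀) * h8
  obtain ⟨h9, h10⟩ := hneg _ rfl
  refine ⟨x, _, h3, h4, hx, h1, ?_, ?_⟩
  · have h11 : L.nm (-nu x₀ y₀ β x y) = r := by rw [L.neg, hv1]
    rw [← h9] at h11
    exact h11
  · have h11 : L.nm (-nu x₀ y₀ α x y) ≤ r := by rw [L.neg, hu]
    rw [← h10] at h11
    exact h11

/-- The case `La (nm w) P`. -/
private theorem phb_la [W.IsElliptic] (h : L.Ms W) {x₀ y₀ α β : Ω} (hc : L.Nk W x₀ y₀ α β)
    {π : Ω} (hπ : L.Un ⊥ π) {n : ℕ} (hn : L.nm (algebraMap F Ω W.Δ) = L.nm π ^ n) {N : ℕ}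
    (hN : N ≠ 0) {P : Pt W Ω} {w : Ω} (hw : w ∈ L.Ur ⊥ N) (hP : L.La W x₀ y₀ α β (L.nm w) P) :
    L.Ns (n • P) := by
  have hfin : FiniteDimensional K (L.Ur ⊥ N) := ur_fin ⊥ N hN
  have hw0 : w ≠ 0 := L.ne_zero (la_pos hc.toNc hP)
  obtain ⟨m, hm⟩ := phb_val hπ hN w hw hw0
  have hw1 : L.nm w < 1 := by
    obtain ⟨x, y, -, -, -, h2, -⟩ := hP
    exact h2
  have hm0 : 0 < m := by
    rw [hm, ← zpow_zero (L.nm π)] at hw1
    exact (zpow_lt_zpow_iff_right_of_lt_one₀ hπ.pos hπ.lt).1 hw1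
  obtain ⟨i, rfl⟩ : ∃ i : ℕ, m = (i : ℤ) := ⟨m.toNat, by omega⟩
  have hi : 0 < i := by omega
  rw [zpow_natCast] at hm
  have hfe : L.nm (fe W x₀ y₀) = L.nm π ^ n := by rw [← nc_disc hc.toNc, hn]
  have h2i : 2 * i ≤ n := by
    have h3 := la_half hc.toNc hP
    rw [hfe, hm, ← pow_mul] at h3
    have h4 := (pow_le_pow_iff_right_of_lt_one₀ hπ.pos hπ.lt).1 h3
    omega
  have hn1 : n ≠ 0 := by omega
  obtain ⟨N', w', hMN, hfin', hw', hwπ, -⟩ := exists_ram L (L.Ur ⊥ N) (l := 2) two_ne_zero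
    ((bot_le : (⊥ : IntermediateField K Ω) ≤ L.Ur ⊥ N) hπ.mem) hπ.pos hπ.lt
    (fun x hx hx0 => phb_val hπ hN x hx hx0)
  have hsq : L.nm w' ^ 2 = L.nm π := by rw [← L.pow, hwπ]
  have hw'pos : 0 < L.nm w' := by
    rcases (L.nonneg w').lt_or_eq with h3 | h3
    · exact h3
    · exfalso
      rw [← h3, zero_pow two_ne_zero] at hsq
      exact hπ.pos.ne hsq
  have hw'lt : L.nm w' < 1 := by
    by_contra h3
    have h4 : 1 ≤ L.nm w' ^ 2 := one_le_pow₀ (not_lt.1 h3)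
    rw [hsq] at h4
    exact absurd hπ.lt (not_lt.2 h4)
  have hw'0 : w' ≠ 0 := L.ne_zero hw'pos
  have hle : ∀ {j : ℕ}, j ≤ n → L.nm (fe W x₀ y₀) ≤ L.nm π ^ j := by
    intro j hj
    rw [hfe]
    exact pow_le_pow_of_le_one hπ.pos.le hπ.lt.le hj
  obtain ⟨P₁, -, hP₁⟩ := la_ex h.toMd hc N' hw' hw'0 hw'lt (by
    rw [hsq]
    have h3 := hle (j := 1) (by omega)
    rwa [pow_one] at h3)
  have hq1 : L.La W x₀ y₀ α β (L.nm w' ^ (2 * i)) ((2 * i) • P₁) :=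
    la_nsmul h.toMd hc.toNc hP₁ (by omega) (by
      rw [← pow_mul, mul_comm (2 * i) 2, pow_mul, hsq]
      exact hle h2i)
  have hq2 : L.La W x₀ y₀ α β (L.nm w' ^ n) (n • P₁) :=
    la_nsmul h.toMd hc.toNc hP₁ hn1 (by
      rw [← pow_mul, mul_comm n 2, pow_mul, hsq]
      exact hle le_rfl)
  have hq3 := phb_sym hc.toNc hq2 (by rw [← pow_mul, mul_comm n 2, pow_mul, hsq, hfe])
  have h5 : L.Ns (n • P₁ - -(n • P₁)) := la_ns h.toMd hc.toNc hq2 hq3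
  rw [pow_mul, hsq] at hq1
  rw [hm] at hP
  have h6 : L.Ns (P - (2 * i) • P₁) := la_ns h.toMd hc.toNc hP hq1
  have h7 : n • P = n • (P - (2 * i) • P₁) + i • (n • P₁ - -(n • P₁)) := by
    rw [sub_neg_eq_add, ← two_nsmul, nsmul_sub, smul_smul, smul_smul, smul_smul]
    rw [show i * 2 * n = n * (2 * i) by ring, sub_add_cancel]
  rw [h7]
  exact ns_add h.toIt (phb_ns h.toIt h6 n) (phb_ns h.toIt h5 i)

/-- **The component group is killed by `n`.** Proof: assume that `P` has singular reduction, `La (nm w) P` or `La (nm w) (- P)`, `w` in `M = Ur ⊥ N` (`la_or`); `nm w = nm π ^ i`, `i ≥ 1`, `2 i ≤ n` (`ur_val`, `la_half`, `nc_disc`: `nm f₀ = nm π ^ n`). Let `N'`, `w'` with `w' ^ 2 = π`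
(`exists_ram` for `M`, `l = 2`; `π` is a uniformizer of `M`), `P₁` over `N'` with `La (nm w') P₁` (`la_ex`: `nm f₀ ≤ nm w' ^ 2` since `n ≥ 1`). `La (nm π ^ i) (2 i P₁)` (`la_nsmul`), so `P - 2 i P₁` (or `- P - 2 i P₁`) has nonsingular reduction (`la_ns`). `La (nm w' ^ n) (n P₁)` (`la_nsmul`: `nm f₀ = (nm w' ^ n) ^ 2`), and the
coordinates of `Q = n P₁` satisfy `nm u = nm v` (`nc_eq`: `nm f₀ = nm u ^ 2`, `nm X ^ 3 < nm u ^ 2`), so `La (nm w' ^ n) (- Q)` and `2 Q = Q - (- Q)` has nonsingular reduction (`la_ns`). So `n P ≡ ± 2 i n P₁ = ± i (2 Q)`. -/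
theorem ms_ord [W.IsElliptic] (h : L.Ms W) {π : Ω} (hπ : L.Un ⊥ π) {n : ℕ}
    (hn : L.nm (algebraMap F Ω W.Δ) = L.nm π ^ n) {N : ℕ} (hN : N ≠ 0) {P : Pt W Ω}
    (hP : Fx (L.Ur ⊥ N) P) : L.Ns (n • P) := by
  obtain ⟨x₀, y₀, α, β, hc⟩ := h.sp
  by_cases hs : L.Ns P
  · exact phb_ns h.toIt hs n
  obtain ⟨w, hw, h1 | h1⟩ := la_or h.toMd hc hs _ hP
  · exact phb_la h hc hπ hn hN hw h1
  · have h2 := ns_neg h.toIt (phb_la h hc hπ hn hN hw h1)
    rwa [smul_neg, neg_neg] at h2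

/-- The condition on the exponent of the `j`-invariant: if it is `- n` with `l ∣ n`, then `n ≤ 0`. -/
def Jc (L : Ld K Ω) (l : ℕ) (W : WeierstrassCurve F) : Prop :=
  ∀ π : Ω, L.Un ⊥ π → ∀ n : ℕ, L.nm (algebraMap F Ω W.Δ) =
    L.nm (algebraMap F Ω W.c₄) ^ 3 * L.nm π ^ n → l ∣ n → n = 0

/-- Proof: `nm Δ = nm π ^ n`, `n ≥ 1`, `l ∤ n` (`nm c₄ = 1`); `a l + b n = 1`; `P' = a P`, `P - l P' = b n P`: `ms_ord`. -/
theorem ms_finE [W.IsElliptic] (h : L.Ms W) {l : ℕ} (hl : l.Prime) (hj : L.Jc l W) {N : ℕ}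
    (hN : N ≠ 0) {P : Pt W Ω} (hP : Fx (L.Ur ⊥ N) P) :
    ∃ P' : Pt W Ω, Fx (L.Ur ⊥ N) P' ∧ L.Ns (P - l • P') := by
  obtain ⟨π, hπ⟩ := L.exists_un (⊥ : IntermediateField K Ω)
  have hΔ0 : algebraMap F Ω W.Δ ≠ 0 := by
    rw [Ne, map_eq_zero_iff _ (algebraMap F Ω).injective]
    exact W.isUnit_Δ.ne_zero
  have hΔm : algebraMap F Ω W.Δ ∈ (⊥ : IntermediateField K Ω) := by
    rw [IsScalarTower.algebraMap_apply F K Ω]
    exact IntermediateField.algebraMap_mem _ _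
  obtain ⟨k, hk⟩ := hπ.val _ hΔm hΔ0
  have hk0 : 0 < k := by
    have h1 := h.disc
    rw [hk, ← zpow_zero (L.nm π)] at h1
    exact (zpow_lt_zpow_iff_right_of_lt_one₀ hπ.pos hπ.lt).1 h1
  obtain ⟨n, rfl⟩ : ∃ n : ℕ, k = (n : ℤ) := ⟨k.toNat, by omega⟩
  rw [zpow_natCast] at hk
  have hln : ¬ l ∣ n := by
    intro hd
    have h1 := hj π hπ n (by rw [h.c₄, one_pow, one_mul, hk]) hd
    omega
  have hns : L.Ns (n • P) := ms_ord h hπ hk hN hP
  have hco : IsCoprime (l : ℤ) (n : ℤ) := by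
    rw [Nat.isCoprime_iff_coprime]
    exact (Nat.Prime.coprime_iff_not_dvd hl).2 hln
  obtain ⟨a, b, hab⟩ := hco
  refine ⟨a • P, ?_, ?_⟩
  · rcases Int.eq_nat_or_neg a with ⟨k, rfl | rfl⟩
    · rw [natCast_zsmul]
      exact hP.nsmul k
    · rw [neg_smul, natCast_zsmul]
      exact (hP.nsmul k).neg
  · have h5 : P - l • a • P = b • n • P := by
      have h6 : (1 : ℤ) • P = (a * l + b * n) • P := by rw [hab]
      rw [one_smul, add_smul, mul_smul, mul_smul, natCast_zsmul, natCast_zsmul] at h6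
      have h7 : l • a • P = a • l • P := smul_comm _ _ _
      rw [h7]
      exact sub_eq_of_eq_add' h6
    rw [h5]
    exact phb_zs h.toIt hns b

end Ld

end PE
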