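import Pool.Agent.Lib.MP_f80667_ag.Pe.FgM

/-!
The reduction of points of Weierstrass curves: `V` a valuation ring of `L` with residue map to `κ`; `W` over `L` with
coefficients in `V`, `W'` over `κ` the reduction (possibly singular). Compare `Be/PlR.lean` (the case `a₁ = a₃ = 0` of a
place of a function field).
-/

open WeierstrassCurve

namespace PE

/-- A valuation ring of `L` with a residue map to `κ`. -/
structure Rs (L κ : Type) [Field L] [Field κ] where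
  /-- the valuation ring -/
  V : ValuationSubring L
  /-- the residue map -/
  res : V →+* κ
  res_zero : ∀ x : V, ¬ IsUnit x → res x = 0

section rs

variable {L κ : Type} [Field L] [Field κ]

/-- `x` has the value `r`. -/
def Rs.Hv (w : Rs L κ) (x : L) (r : κ) : Prop := ∃ h : x ∈ w.V, w.res ⟨x, h⟩ = r

variable {w : Rs L κ} {x y : L} {r s : κ}

theorem Rs.Hv.uniq (h : w.Hv x r) (h' : w.Hv x s) : r = s := by
  obtain ⟨h1, rfl⟩ := h
  obtain ⟨h2, rfl⟩ := h'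
  rfl

theorem Rs.Hv.add (h : w.Hv x r) (h' : w.Hv y s) : w.Hv (x + y) (r + s) := by
  obtain ⟨h1, rfl⟩ := h
  obtain ⟨h2, rfl⟩ := h'
  exact ⟨add_mem h1 h2, map_add w.res ⟨x, h1⟩ ⟨y, h2⟩⟩

theorem Rs.Hv.mul (h : w.Hv x r) (h' : w.Hv y s) : w.Hv (x * y) (r * s) := by
  obtain ⟨h1, rfl⟩ := h
  obtain ⟨h2, rfl⟩ := h'
  exact ⟨mul_mem h1 h2, map_mul w.res ⟨x, h1⟩ ⟨y, h2⟩⟩

theorem Rs.Hv.neg (h : w.Hv x r) : w.Hv (-x) (-r) := by
  obtain ⟨h1, rfl⟩ := h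
  exact ⟨neg_mem h1, map_neg w.res ⟨x, h1⟩⟩

theorem Rs.Hv.sub (h : w.Hv x r) (h' : w.Hv y s) : w.Hv (x - y) (r - s) := by
  rw [sub_eq_add_neg, sub_eq_add_neg]
  exact h.add h'.neg

theorem Rs.Hv.one : w.Hv (1 : L) (1 : κ) := ⟨one_mem _, map_one w.res⟩

theorem Rs.Hv.zero : w.Hv (0 : L) (0 : κ) := ⟨zero_mem _, map_zero w.res⟩

theorem Rs.Hv.nat (n : ℕ) : w.Hv (n : L) (n : κ) := by
  induction n with
  | zero => simpa using Rs.Hv.zero
  | succ n ih =>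
    rw [Nat.cast_succ, Nat.cast_succ]
    exact ih.add Rs.Hv.one

theorem Rs.Hv.pow (h : w.Hv x r) (n : ℕ) : w.Hv (x ^ n) (r ^ n) := by
  induction n with
  | zero =>
    rw [pow_zero, pow_zero]
    exact Rs.Hv.one
  | succ n ih =>
    rw [pow_succ, pow_succ]
    exact ih.mul h

theorem Rs.Hv.ne (h : w.Hv x r) (hr : r ≠ 0) : x ≠ 0 := by
  rintro rfl
  exact hr (h.uniq Rs.Hv.zero)

theorem Rs.Hv.inv (h : w.Hv x r) (hr : r ≠ 0) : w.Hv x⁻¹ r⁻¹ := by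
  have hx := h.ne hr
  obtain ⟨h1, rfl⟩ := h
  have hu : IsUnit (⟨x, h1⟩ : w.V) := by
    by_contra hn
    exact hr (w.res_zero _ hn)
  have h2 : x⁻¹ ∈ w.V := by
    obtain ⟨u, hu⟩ := hu
    have h3 : x * ((u⁻¹ : (w.V)ˣ) : w.V).1 = 1 := by
      have h4 := congrArg Subtype.val (Units.mul_inv u)
      rw [hu] at h4
      exact h4
    rw [inv_eq_of_mul_eq_one_right h3]
    exact ((u⁻¹ : (w.V)ˣ) : w.V).2
  refine ⟨h2, ?_⟩
  have h5 : (⟨x, h1⟩ : w.V) * ⟨x⁻¹, h2⟩ = 1 := Subtype.ext (mul_inv_cancel₀ hx)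
  have h6 : w.res ⟨x, h1⟩ * w.res ⟨x⁻¹, h2⟩ = 1 := by
    rw [← map_mul, h5, map_one]
  exact (inv_eq_of_mul_eq_one_right h6).symm

theorem Rs.Hv.div (h : w.Hv x r) (h' : w.Hv y s) (hs : s ≠ 0) : w.Hv (x / y) (r / s) := by
  rw [div_eq_mul_inv, div_eq_mul_inv]
  exact h.mul (h'.inv hs)

/-- The inverse of an element which is not in the valuation ring has value `0`. -/
theorem Rs.Hv.of_not_mem (h : x ∉ w.V) : w.Hv x⁻¹ 0 := by
  have hx : x ≠ 0 := by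
    rintro rfl
    exact h (zero_mem _)
  have h1 : x⁻¹ ∈ w.V := (w.V.mem_or_inv_mem x).resolve_left h
  refine ⟨h1, w.res_zero _ fun hu => h ?_⟩
  obtain ⟨u, hu⟩ := hu
  have h3 : x⁻¹ * ((u⁻¹ : (w.V)ˣ) : w.V).1 = 1 := by
    have h4 := congrArg Subtype.val (Units.mul_inv u)
    rw [hu] at h4
    exact h4
  have h5 : ((u⁻¹ : (w.V)ˣ) : w.V).1 = x := by
    rw [inv_mul_eq_one₀ hx] at h3
    exact h3.symm
  rw [← h5]
  exact ((u⁻¹ : (w.V)ˣ) : w.V).2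

theorem Rs.Hv.of_mem (h : x ∈ w.V) : w.Hv x (w.res ⟨x, h⟩) := ⟨h, rfl⟩

theorem Rs.Hv.congr (h : w.Hv x r) (hx : x = y) (hr : r = s) : w.Hv y s := by
  subst hx hr
  exact h

/-- The valuation ring with its maximal ideal. -/
def Rs.J (w : Rs L κ) : Jr L where
  V := w.V.toSubring
  m := {x | w.Hv x 0}
  zero_m := Rs.Hv.zero
  add_m x hx y hy := (hx.add hy).congr rfl (add_zero 0)
  mul_m a ha x hx := ((Rs.Hv.of_mem ha).mul hx).congr rfl (mul_zero _)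
  le x hx := hx.1
  inv x hx := by
    have h1 : w.Hv (1 + x) 1 := (Rs.Hv.one.add hx).congr rfl (add_zero 1)
    exact ⟨h1.ne one_ne_zero, (h1.inv one_ne_zero).1⟩

variable (w) in
/-- The coefficients of `W` have the coefficients of `W'` as values. -/
structure Rs.Cv (W : WeierstrassCurve L) (W' : WeierstrassCurve κ) : Prop where
  a₁ : w.Hv W.a₁ W'.a₁
  a₂ : w.Hv W.a₂ W'.a₂
  a₃ : w.Hv W.a₃ W'.a₃
  a₄ : w.Hv W.a₄ W'.a₄
  a₆ : w.Hv W.a₆ W'.a₆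

theorem Rs.Cv.J {W : WeierstrassCurve L} {W' : WeierstrassCurve κ} (h : w.Cv W W') : w.J.Cf W :=
  ⟨h.a₁.1, h.a₂.1, h.a₃.1, h.a₄.1, h.a₆.1⟩

variable (w) in
/-- `Q` is the reduction of `P`. -/
def Rs.Red {W : WeierstrassCurve L} {W' : WeierstrassCurve κ} : Pn W → Pn W' → Prop
  | .zero, Q => Q = 0
  | .some x y _, Q => (x ∉ w.V ∧ Q = 0) ∨ ∃ (r s : κ) (h : W'.toAffine.Nonsingular r s),
      w.Hv x r ∧ w.Hv y s ∧ Q = Pn.aff r s h

variable {W : WeierstrassCurve L} {W' : WeierstrassCurve κ}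

theorem rs_red_zero : w.Red (0 : Pn W) (0 : Pn W') := (rfl : (0 : Pn W') = 0)

theorem rs_red_zero_iff {Q : Pn W'} : w.Red (0 : Pn W) Q ↔ Q = 0 := Iff.rfl

theorem rs_red_aff {x y : L} (h : W.toAffine.Nonsingular x y) {Q : Pn W'} :
    w.Red (Pn.aff x y h) Q ↔ (x ∉ w.V ∧ Q = 0) ∨
      ∃ (r s : κ) (h : W'.toAffine.Nonsingular r s), w.Hv x r ∧ w.Hv y s ∧ Q = Pn.aff r s h :=
  Iff.rfl

/-- The reduction is unique. -/
theorem rs_unique {P : Pn W} {Q Q' : Pn W'} (h : w.Red P Q) (h' : w.Red P Q') : Q = Q' := by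
  obtain rfl | ⟨x, y, hxy, rfl⟩ := Pn.cases' P
  · rw [rs_red_zero_iff] at h h'
    rw [h, h']
  · rw [rs_red_aff] at h h'
    obtain ⟨h1, rfl⟩ | ⟨r, s, h1, h2, h3, rfl⟩ := h
    · obtain ⟨h4, rfl⟩ | ⟨r, s, h4, h5, h6, rfl⟩ := h'
      · rfl
      · exact absurd h5.1 h1
    · obtain ⟨h4, rfl⟩ | ⟨r', s', h4, h5, h6, rfl⟩ := h'
      · exact absurd h2.1 h4
      · exact Pn.aff_ext (h2.uniq h5) (h3.uniq h6)

/-- The reduction commutes with the negation. -/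
theorem rs_neg (hC : w.Cv W W') {P : Pn W} {Q : Pn W'} (h : w.Red P Q) : w.Red (-P) (-Q) := by
  obtain rfl | ⟨x, y, hxy, rfl⟩ := Pn.cases' P
  · rw [rs_red_zero_iff] at h
    rw [h, neg_zero, neg_zero, rs_red_zero_iff]
  · obtain ⟨h', e⟩ := Pn.neg_aff hxy
    rw [e, rs_red_aff]
    rw [rs_red_aff] at h
    obtain ⟨h1, rfl⟩ | ⟨r, s, h1, h2, h3, rfl⟩ := h
    · exact Or.inl ⟨h1, neg_zero⟩
    · obtain ⟨h4, e'⟩ := Pn.neg_aff h1
      exact Or.inr ⟨_, _, h4, h2, (h3.neg.sub (hC.a₁.mul h2)).sub hC.a₃, e'⟩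

/-- The points which reduce to `0`: `(x, y)` with `x ∉ V`; then `y² ~ x³`, so `t` and `w` have value `0`. -/
theorem rs_fm (hC : w.Cv W W') {P : Pn W} : w.Red P (0 : Pn W') ↔ w.J.Fm P := by
  obtain rfl | ⟨x, y, hxy, rfl⟩ := Pn.cases' P
  · exact ⟨fun _ => w.J.fm_zero, fun _ => rs_red_zero⟩
  rw [rs_red_aff]
  have heq := Pn.eqn hxy
  constructor
  · rintro (⟨h1, -⟩ | ⟨r, s, h1, -, -, h2⟩)
    swap
    · exact absurd h2.symm (Pn.aff_ne h1)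
    have hu := Rs.Hv.of_not_mem h1
    have hx0 : x ≠ 0 := by
      rintro rfl
      exact h1 (zero_mem _)
    have hs : y * x⁻¹ ∉ w.V := by
      intro hs
      refine h1 ?_
      have h2 : x = (y * x⁻¹) ^ 2 + W.a₁ * (y * x⁻¹) + W.a₃ * (y * x⁻¹) * x⁻¹ - W.a₂ -
          W.a₄ * x⁻¹ - W.a₆ * (x⁻¹) ^ 2 := by
        field_simp
        linear_combination -heq
      rw [h2]
      exact sub_mem (sub_mem (sub_mem (add_mem (add_mem (pow_mem hs 2) (mul_mem hC.a₁.1 hs))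
        (mul_mem (mul_mem hC.a₃.1 hs) hu.1)) hC.a₂.1) (mul_mem hC.a₄.1 hu.1))
        (mul_mem hC.a₆.1 (pow_mem hu.1 2))
    have hy0 : y ≠ 0 := by
      rintro rfl
      rw [zero_mul] at hs
      exact hs (zero_mem _)
    have ht := Rs.Hv.of_not_mem hs
    refine ⟨hy0, ht.neg.congr ?_ neg_zero, (ht.mul hu).neg.congr ?_ (by rw [mul_zero, neg_zero])⟩
    · change -(y * x⁻¹)⁻¹ = -x / y
      field_simp
    · change -((y * x⁻¹)⁻¹ * x⁻¹) = -1 / y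
      field_simp
  · rintro ⟨hy0, -, h2⟩
    refine Or.inl ⟨fun hx => ?_, rfl⟩
    have hy0' : y ≠ 0 := hy0
    have hv : w.Hv y⁻¹ 0 := by
      have h3 : w.Hv (-1 / y) 0 := h2
      refine h3.neg.congr ?_ neg_zero
      field_simp
    have hX := Rs.Hv.of_mem hx
    have h1 : 1 + W.a₁ * x * y⁻¹ + W.a₃ * y⁻¹ =
        (x ^ 3 + W.a₂ * x ^ 2 + W.a₄ * x + W.a₆) * (y⁻¹) ^ 2 := by
      rw [← heq]
      field_simp
    have h3 := (Rs.Hv.one.add ((hC.a₁.mul hX).mul hv)).add (hC.a₃.mul hv)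
    have h4 := (((((hX.pow 3).add (hC.a₂.mul (hX.pow 2))).add (hC.a₄.mul hX)).add hC.a₆).mul
      (hv.pow 2))
    rw [← h1] at h4
    have h5 := h3.uniq h4
    rw [mul_zero, mul_zero, add_zero, add_zero, zero_pow two_ne_zero, mul_zero] at h5
    exact one_ne_zero h5

end rs

end PE
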