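import Pool.Agent.Lib.MP_f80667_ag.Pe.Rs

/-! The sum of an integral point and a point which reduces to `0`. -/

open WeierstrassCurve

namespace PE

variable {L κ : Type} [Field L] [Field κ] {w : Rs L κ} {W : WeierstrassCurve L}
  {W' : WeierstrassCurve κ}

/-- A root of a monic quadratic polynomial with coefficients of value `0` has value `0`. -/
private theorem rsd_sq {v a b : L} (ha : w.Hv a 0) (hb : w.Hv b 0) (h : v ^ 2 = a * v + b) :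
    w.Hv v 0 := by
  have h1 : v ∈ w.V := by
    by_contra hn
    have h2 := Rs.Hv.of_not_mem hn
    have hv0 : v ≠ 0 := by
      rintro rfl
      exact hn (zero_mem _)
    have h3 : w.Hv 1 0 := by
      refine ((ha.mul h2).add (hb.mul (h2.pow 2))).congr ?_ (by ring)
      field_simp
      linear_combination -h
    exact one_ne_zero (Rs.Hv.one.uniq h3)
  have h2 := (Rs.Hv.of_mem h1).pow 2
  have h3 := ((ha.mul (Rs.Hv.of_mem h1)).add hb).congr h.symm rfl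
  have h4 := h2.uniq h3
  rw [zero_mul, add_zero, sq_eq_zero_iff] at h4
  exact ⟨h1, h4⟩

/-- The formulas for the sum in terms of `u = 1 / x₂`, `v = y₂ / x₂ ^ 2`. -/
private theorem rsd_alg {x₁ y₁ x₂ y₂ l a1 a2 a3 a4 a6 u v D : L}
    (e₂ : y₂ ^ 2 + a1 * x₂ * y₂ + a3 * y₂ = x₂ ^ 3 + a2 * x₂ ^ 2 + a4 * x₂ + a6)
    (hl : l * (x₁ - x₂) = y₁ - y₂) (hu : u ≠ 0) (hx₂ : x₂ = u⁻¹) (hv : v = y₂ * u ^ 2)
    (hD : D = 1 - x₁ * u) (hD0 : D ≠ 0) :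
    v ^ 2 = (-(a1 * u + a3 * u ^ 2)) * v + (u + a2 * u ^ 2 + a4 * u ^ 3 + a6 * u ^ 4) ∧
    l ^ 2 + a1 * l - a2 - x₁ - x₂ = (a2 + a4 * u + a6 * u ^ 2 - (a3 + 2 * y₁ + a1 * x₁) * v +
      y₁ ^ 2 * u ^ 2 - a1 * y₁ * u * D - (a2 + x₁) * D ^ 2 + 2 * x₁ - x₁ ^ 2 * u) / D ^ 2 ∧
    l * ((l ^ 2 + a1 * l - a2 - x₁ - x₂) - x₁) =
      ((v - y₁ * u ^ 2) * (a4 + a6 * u + y₁ ^ 2 * u - a1 * y₁ * D +
        (a2 + 2 * x₁) * x₁ * (1 + D) - x₁ ^ 2) -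
      (a3 + 2 * y₁ + a1 * x₁) * (1 + a2 * u + a4 * u ^ 2 + a6 * u ^ 3 - a1 * v - a3 * u * v) +
      (a3 + 2 * y₁ + a1 * x₁) * y₁ * u * v) / D ^ 3 := by
  have hy2 : y₂ = v / u ^ 2 := by
    rw [hv]
    field_simp
  have hv2 : v ^ 2 = (-(a1 * u + a3 * u ^ 2)) * v + (u + a2 * u ^ 2 + a4 * u ^ 3 + a6 * u ^ 4) := by
    rw [hx₂] at e₂
    have h5 : v ^ 2 = (y₂ ^ 2 + a1 * u⁻¹ * y₂ + a3 * y₂) * u ^ 4 -
        (a1 * u + a3 * u ^ 2) * v := by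
      rw [hv]
      field_simp
      ring
    rw [h5, e₂]
    field_simp
    ring
  have hl' : l = (v - y₁ * u ^ 2) / (u * D) := by
    rw [eq_div_iff (mul_ne_zero hu hD0)]
    have h7 : l * (x₁ * u - 1) * u = (l * (x₁ - x₂)) * u ^ 2 := by
      rw [hx₂]
      field_simp
    have h6 : l * (x₁ * u - 1) * u = y₁ * u ^ 2 - v := by
      rw [h7, hl, hy2]
      field_simp
    rw [hD]
    linear_combination - h6
  have hX : l ^ 2 + a1 * l - a2 - x₁ - x₂ = (a2 + a4 * u + a6 * u ^ 2 -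
      (a3 + 2 * y₁ + a1 * x₁) * v +
      y₁ ^ 2 * u ^ 2 - a1 * y₁ * u * D - (a2 + x₁) * D ^ 2 + 2 * x₁ - x₁ ^ 2 * u) / D ^ 2 := by
    rw [hl', hx₂]
    field_simp
    rw [hD]
    linear_combination hv2
  refine ⟨hv2, hX, ?_⟩
  rw [hX, hl']
  field_simp
  rw [hD]
  linear_combination (-(a3 + 2 * y₁ + a1 * x₁)) * hv2

theorem rsd_add_inf (hC : w.Cv W W') {x₁ y₁ x₂ y₂ : L} {r₁ s₁ : κ}
    (h : W.toAffine.Nonsingular x₁ y₁) (h' : W.toAffine.Nonsingular x₂ y₂)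
    (g : W'.toAffine.Nonsingular r₁ s₁) (hx₁ : w.Hv x₁ r₁) (hy₁ : w.Hv y₁ s₁) (hx₂ : x₂ ∉ w.V) :
    w.Red (Pn.aff x₁ y₁ h + Pn.aff x₂ y₂ h') (Pn.aff r₁ s₁ g) := by
  have hne : x₁ ≠ x₂ := by
    rintro rfl
    exact hx₂ hx₁.1
  have hx20 : x₂ ≠ 0 := by
    rintro rfl
    exact hx₂ (zero_mem _)
  obtain ⟨l, hl1, -, hns, e⟩ := Pn.slope h h' fun h0 => hne h0.1
  have hvu : w.Hv x₂⁻¹ 0 := Rs.Hv.of_not_mem hx₂
  have hvD : w.Hv (1 - x₁ * x₂⁻¹) 1 := (Rs.Hv.one.sub (hx₁.mul hvu)).congr rfl (by ring)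
  obtain ⟨hv2, hX, hY⟩ := rsd_alg (Pn.eqn h') hl1 (inv_ne_zero hx20) (inv_inv x₂).symm rfl rfl
    (hvD.ne one_ne_zero)
  obtain ⟨c1, c2, c3, c4, c6⟩ := hC
  have hvv : w.Hv (y₂ * x₂⁻¹ ^ 2) 0 :=
    rsd_sq (((c1.mul hvu).add (c3.mul (hvu.pow 2))).neg.congr rfl (by ring))
      ((((hvu.add (c2.mul (hvu.pow 2))).add (c4.mul (hvu.pow 3))).add
        (c6.mul (hvu.pow 4))).congr rfl (by ring)) hv2
  generalize x₂⁻¹ = u at *
  generalize y₂ * u ^ 2 = v at *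
  have h2 : w.Hv (2 : L) (2 : κ) :=
    (Rs.Hv.one.add Rs.Hv.one).congr one_add_one_eq_two one_add_one_eq_two
  generalize 1 - x₁ * u = D at *
  have hE := (c3.add (h2.mul hy₁)).add (c1.mul hx₁)
  have hXr : w.Hv (l ^ 2 + W.a₁ * l - W.a₂ - x₁ - x₂) r₁ := by
    rw [hX]
    exact (((((((((c2.add (c4.mul hvu)).add (c6.mul (hvu.pow 2))).sub (hE.mul hvv)).add
      ((hy₁.pow 2).mul (hvu.pow 2))).sub (((c1.mul hy₁).mul hvu).mul hvD)).sub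
      ((c2.add hx₁).mul (hvD.pow 2))).add (h2.mul hx₁)).sub ((hx₁.pow 2).mul hvu)).div
      (hvD.pow 2) (pow_ne_zero 2 one_ne_zero)).congr rfl (by ring)
  have hYr : w.Hv (l * ((l ^ 2 + W.a₁ * l - W.a₂ - x₁ - x₂) - x₁))
      (-(W'.a₃ + 2 * s₁ + W'.a₁ * r₁)) := by
    rw [hY]
    have hG := (((((c4.add (c6.mul hvu)).add ((hy₁.pow 2).mul hvu)).sub
      ((c1.mul hy₁).mul hvD)).add (((c2.add (h2.mul hx₁)).mul hx₁).mul
      (Rs.Hv.one.add hvD))).sub (hx₁.pow 2))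
    have hR := ((((Rs.Hv.one.add (c2.mul hvu)).add (c4.mul (hvu.pow 2))).add
      (c6.mul (hvu.pow 3))).sub (c1.mul hvv)).sub ((c3.mul hvu).mul hvv)
    exact (((((hvv.sub (hy₁.mul (hvu.pow 2))).mul hG).sub (hE.mul hR)).add
      (((hE.mul hy₁).mul hvu).mul hvv)).div (hvD.pow 3) (pow_ne_zero 3 one_ne_zero)).congr rfl
      (by ring)
  rw [e, rs_red_aff]
  exact Or.inr ⟨r₁, s₁, g, hXr,
    (((hYr.add hy₁).neg.sub (c1.mul hXr)).sub c3).congr rfl (by ring), rfl⟩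

end PE
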