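import Pool.Agent.Lib.MP_f80667_ag.Pe.RsC
import Pool.Agent.Lib.MP_f80667_ag.Pe.RsD

/-! The reduction is additive. -/

open WeierstrassCurve

namespace PE

variable {L κ : Type} [Field L] [Field κ] {w : Rs L κ} {W : WeierstrassCurve L}
  {W' : WeierstrassCurve κ}

/-- Two points with integral coordinates. Proof: as `red_add_int` in `Be/PlR.lean`, with `Pn.slope` and `Pn.add_opp`. If the sum of the
reductions is not `0` the slopes correspond (one of the two equations in `Pn.slope` has a nonzero factor). If the sum of the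
reductions is `0` and the sum of the points is `(x₃, y₃)` then `x₃ ∉ V`: otherwise the slope `l` is in `V` (it is integral,
`l² + a₁ l ∈ V`) and the two equations for `l` give that `(r₁, s₁)` is singular. -/
theorem rs_add_int (hC : w.Cv W W') {x₁ y₁ x₂ y₂ : L} {r₁ s₁ r₂ s₂ : κ}
    (h : W.toAffine.Nonsingular x₁ y₁) (h' : W.toAffine.Nonsingular x₂ y₂)
    (g : W'.toAffine.Nonsingular r₁ s₁) (g' : W'.toAffine.Nonsingular r₂ s₂) (hx₁ : w.Hv x₁ r₁)
    (hy₁ : w.Hv y₁ s₁) (hx₂ : w.Hv x₂ r₂) (hy₂ : w.Hv y₂ s₂) :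
    w.Red (Pn.aff x₁ y₁ h + Pn.aff x₂ y₂ h') (Pn.aff r₁ s₁ g + Pn.aff r₂ s₂ g') :=
  rsc_add_int hC h h' g g' hx₁ hy₁ hx₂ hy₂

/-- An integral point and a point which reduces to `0`. Proof: as `red_add_inf` in `Be/PlR.lean`. -/
theorem rs_add_inf (hC : w.Cv W W') {x₁ y₁ x₂ y₂ : L} {r₁ s₁ : κ}
    (h : W.toAffine.Nonsingular x₁ y₁) (h' : W.toAffine.Nonsingular x₂ y₂)
    (g : W'.toAffine.Nonsingular r₁ s₁) (hx₁ : w.Hv x₁ r₁) (hy₁ : w.Hv y₁ s₁) (hx₂ : x₂ ∉ w.V) :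
    w.Red (Pn.aff x₁ y₁ h + Pn.aff x₂ y₂ h') (Pn.aff r₁ s₁ g) :=
  rsd_add_inf hC h h' g hx₁ hy₁ hx₂

end PE
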