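import Pool.Agent.Lib.MP_f80667_ag.Pe.Rs

/-! The reduction of the sum of two points with integral coordinates. -/

open WeierstrassCurve

namespace PE

section rsc

variable {L κ : Type} [Field L] [Field κ] {w : Rs L κ} {W : WeierstrassCurve L}
  {W' : WeierstrassCurve κ}

/-- The slope is integral when the first coordinate of the sum is. -/
theorem rsc_slope_mem (hC : w.Cv W W') {x₁ x₂ l : L} {r₁ r₂ : κ} (hx₁ : w.Hv x₁ r₁)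
    (hx₂ : w.Hv x₂ r₂) (h : l ^ 2 + W.a₁ * l - W.a₂ - x₁ - x₂ ∈ w.V) : l ∈ w.V := by
  by_contra hl
  have hl0 : l ≠ 0 := by
    rintro rfl
    exact hl (zero_mem _)
  have hi := Rs.Hv.of_not_mem hl
  have h1 := ((((Rs.Hv.of_mem h).add hC.a₂).add hx₁).add hx₂).mul (hi.pow 2)
  have h2 := Rs.Hv.one.add (hC.a₁.mul hi)
  have h3 := h1.congr (y := 1 + W.a₁ * l⁻¹) (by field_simp; ring) rfl
  have h4 := h2.uniq h3
  rw [mul_zero, add_zero, zero_pow two_ne_zero, mul_zero] at h4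
  exact one_ne_zero h4

/-- The value of the slope when the sum of the reductions is not `0`. -/
theorem rsc_slope_hv (hC : w.Cv W W') {x₁ y₁ x₂ y₂ l : L} {r₁ s₁ r₂ s₂ m : κ}
    (hne : ¬(r₁ = r₂ ∧ s₁ = -s₂ - W'.a₁ * r₂ - W'.a₃)) (hx₁ : w.Hv x₁ r₁)
    (hy₁ : w.Hv y₁ s₁) (hx₂ : w.Hv x₂ r₂) (hy₂ : w.Hv y₂ s₂)
    (hl1 : l * (x₁ - x₂) = y₁ - y₂)
    (hl2 : l * (y₁ + y₂ + W.a₁ * x₂ + W.a₃) = x₁ ^ 2 + x₁ * x₂ + x₂ ^ 2 + W.a₂ * (x₁ + x₂) +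
        W.a₄ - W.a₁ * y₁)
    (hm1 : m * (r₁ - r₂) = s₁ - s₂)
    (hm2 : m * (s₁ + s₂ + W'.a₁ * r₂ + W'.a₃) = r₁ ^ 2 + r₁ * r₂ + r₂ ^ 2 + W'.a₂ * (r₁ + r₂) +
        W'.a₄ - W'.a₁ * s₁) : w.Hv l m := by
  by_cases hr : r₁ = r₂
  · have h0 : s₁ + s₂ + W'.a₁ * r₂ + W'.a₃ ≠ 0 := by
      intro h0
      apply hne
      refine ⟨hr, ?_⟩
      linear_combination h0
    have h1 := ((hy₁.add hy₂).add (hC.a₁.mul hx₂)).add hC.a₃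
    have h1n := h1.ne h0
    have h2 := ((((((hx₁.pow 2).add (hx₁.mul hx₂)).add (hx₂.pow 2)).add
      (hC.a₂.mul (hx₁.add hx₂))).add hC.a₄).sub (hC.a₁.mul hy₁)).div h1 h0
    refine h2.congr ?_ ?_
    · rw [div_eq_iff h1n, hl2]
    · rw [div_eq_iff h0, hm2]
  · have h0 : r₁ - r₂ ≠ 0 := sub_ne_zero.2 hr
    have h1 := hx₁.sub hx₂
    have h1n := h1.ne h0
    have h2 := (hy₁.sub hy₂).div h1 h0
    refine h2.congr ?_ ?_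
    · rw [div_eq_iff h1n, hl1]
    · rw [div_eq_iff h0, hm1]

/-- Two points with integral coordinates. -/
theorem rsc_add_int (hC : w.Cv W W') {x₁ y₁ x₂ y₂ : L} {r₁ s₁ r₂ s₂ : κ}
    (h : W.toAffine.Nonsingular x₁ y₁) (h' : W.toAffine.Nonsingular x₂ y₂)
    (g : W'.toAffine.Nonsingular r₁ s₁) (g' : W'.toAffine.Nonsingular r₂ s₂) (hx₁ : w.Hv x₁ r₁)
    (hy₁ : w.Hv y₁ s₁) (hx₂ : w.Hv x₂ r₂) (hy₂ : w.Hv y₂ s₂) :
    w.Red (Pn.aff x₁ y₁ h + Pn.aff x₂ y₂ h') (Pn.aff r₁ s₁ g + Pn.aff r₂ s₂ g') := by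
  by_cases hr : r₁ = r₂ ∧ s₁ = -s₂ - W'.a₁ * r₂ - W'.a₃
  · rw [Pn.add_opp g g' hr.1 hr.2]
    by_cases hx : x₁ = x₂ ∧ y₁ = -y₂ - W.a₁ * x₂ - W.a₃
    · rw [Pn.add_opp h h' hx.1 hx.2]
      exact rs_red_zero
    · obtain ⟨l, hl1, hl2, hns, e⟩ := Pn.slope h h' hx
      rw [e, rs_red_aff]
      refine Or.inl ⟨fun hX => ?_, rfl⟩
      obtain ⟨m, hl⟩ : ∃ m, w.Hv l m := ⟨_, Rs.Hv.of_mem (rsc_slope_mem hC hx₁ hx₂ hX)⟩
      have e1 := (hl.mul (hx₁.sub hx₂)).uniq ((hy₁.sub hy₂).congr hl1.symm rfl)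
      have e2 := (hl.mul (((hy₁.add hy₂).add (hC.a₁.mul hx₂)).add hC.a₃)).uniq
        (((((((hx₁.pow 2).add (hx₁.mul hx₂)).add (hx₂.pow 2)).add
        (hC.a₂.mul (hx₁.add hx₂))).add hC.a₄).sub (hC.a₁.mul hy₁)).congr hl2.symm rfl)
      rw [hr.1, sub_self, mul_zero] at e1
      have e3 : s₁ = s₂ := sub_eq_zero.1 e1.symm
      have e4 : s₁ + s₂ + W'.a₁ * r₂ + W'.a₃ = 0 := by linear_combination hr.2
      rw [e4, mul_zero, hr.1, e3] at e2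
      have e5 := ((Affine.nonsingular_iff _ _).1 g').2
      rcases e5 with h6 | h6
      · apply h6
        linear_combination e2
      · apply h6
        have e6 := hr.2
        rw [e3] at e6
        exact e6
  · have hx : ¬(x₁ = x₂ ∧ y₁ = -y₂ - W.a₁ * x₂ - W.a₃) := by
      rintro ⟨rfl, hy⟩
      exact hr ⟨hx₁.uniq hx₂, hy₁.uniq
        (((hy₂.neg.sub (hC.a₁.mul hx₂)).sub hC.a₃).congr hy.symm rfl)⟩
    obtain ⟨l, hl1, hl2, hns, e⟩ := Pn.slope h h' hx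
    obtain ⟨m, hm1, hm2, hms, e'⟩ := Pn.slope g g' hr
    have hl := rsc_slope_hv hC hr hx₁ hy₁ hx₂ hy₂ hl1 hl2 hm1 hm2
    rw [e, e', rs_red_aff]
    have hX := ((((hl.pow 2).add (hC.a₁.mul hl)).sub hC.a₂).sub hx₁).sub hx₂
    exact Or.inr ⟨_, _, hms, hX,
      ((((hl.mul (hX.sub hx₁)).add hy₁).neg).sub (hC.a₁.mul hX)).sub hC.a₃, rfl⟩

end rsc

end PE
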