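import Pool.Agent.Lib.MP_f80667_ag.Pe.St

/-!
* `Lg n₀ m`: all prime factors of `m` are larger than `n₀`.
* `ImDeN n₀ z`: the components of `z` at the prime numbers `l > n₀` (the completion is the product over `l` of the
  `l`-adic completions) are in the image of `Δ`.
-/

open ZC BE Polynomial IsDedekindDomain NumberField

namespace PE

/-- All prime factors of `m` are larger than `n₀`. -/
def Lg (n₀ m : ℕ) : Prop := ∀ l : ℕ, l.Prime → l ∣ m → n₀ < l

/-- The components of `z` at the prime numbers larger than `n₀` are in the image of `Δ`: there is `x` in the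
completion of `F^1(V)` such that for every `m` with all prime factors larger than `n₀` there is a zero-cycle `c`
of degree `0` over `F` which represents `x` modulo `m` and whose family of base changes represents `z` modulo `m`. -/
def ImDeN {F : Type} [Field F] [NumberField F] {V : Vr F} (n₀ : ℕ) (z : LHat (FA V)) : Prop :=
  ∃ x : LHat (Gp V F), ∀ m : ℕ+, Lg n₀ m → ∃ (c : Zc V F) (c' : Fam V), IsBcF c c' ∧
    x.Rep m c.cl ∧ z.Rep m c'.cl

end PE
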